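import Pool.Agent.Lib.MP_c385f6_ag.TPG.StA

/-!
Project TPG, A13: the character of the cotangent space at a fixed place of an automorphism of prime
order.
-/

set_option autoImplicit false

namespace Pool.Agent.Lib.MP_c385f6_ag.TPG

universe u v

namespace CotAux

variable {F : Type u} {W : Type v} [Field F] [Field W] [Algebra F W] {Q : Plc F W}

theorem val_const {a : F} (ha : a ≠ 0) : Q.ring.valuation (algebraMap F W a) = 1 := by
  have h1 : Q.ring.valuation (algebraMap F W a) ≤ 1 :=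
    (Q.ring.valuation_le_one_iff _).2 (Q.const_mem a)
  have h2 : Q.ring.valuation (algebraMap F W a⁻¹) ≤ 1 :=
    (Q.ring.valuation_le_one_iff _).2 (Q.const_mem a⁻¹)
  have h3 : Q.ring.valuation (algebraMap F W a) * Q.ring.valuation (algebraMap F W a⁻¹) = 1 := by
    rw [← map_mul, ← map_mul, mul_inv_cancel₀ ha, map_one, map_one]
  refine le_antisymm h1 ?_
  calc (1 : Q.ring.ValueGroup) = _ := h3.symm
    _ ≤ Q.ring.valuation (algebraMap F W a) * 1 := mul_le_mul_right h2 _
    _ = _ := mul_one _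

variable (Q) in
/-- congruence to a nonzero constant -/
def Cg (x : W) (a : F) : Prop := a ≠ 0 ∧ Q.ring.valuation (x - algebraMap F W a) < 1

theorem Cg.val {x : W} {a : F} (h : Cg Q x a) : Q.ring.valuation x = 1 := by
  have h1 : x = algebraMap F W a + (x - algebraMap F W a) := by ring
  rw [h1, Valuation.map_add_eq_of_lt_left _ (by rw [val_const h.1]; exact h.2), val_const h.1]

theorem Cg.ne {x : W} {a : F} (h : Cg Q x a) : x ≠ 0 := by
  rintro rfl
  have := h.val
  rw [map_zero] at this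
  exact zero_ne_one this

theorem Cg.const {a : F} (ha : a ≠ 0) : Cg Q (algebraMap F W a) a :=
  ⟨ha, by rw [sub_self, map_zero]; exact zero_lt_one⟩

theorem Cg.mul {x y : W} {a b : F} (h : Cg Q x a) (h' : Cg Q y b) : Cg Q (x * y) (a * b) := by
  refine ⟨mul_ne_zero h.1 h'.1, ?_⟩
  have e : x * y - algebraMap F W (a * b) =
      x * (y - algebraMap F W b) + algebraMap F W b * (x - algebraMap F W a) := by
    rw [map_mul]
    ring
  rw [e]
  refine Valuation.map_add_lt _ ?_ ?_
  · rw [map_mul, h.val, one_mul]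
    exact h'.2
  · rw [map_mul, val_const h'.1, one_mul]
    exact h.2

theorem Cg.inv {x : W} {a : F} (h : Cg Q x a) : Cg Q x⁻¹ a⁻¹ := by
  refine ⟨inv_ne_zero h.1, ?_⟩
  have hA : algebraMap F W a ≠ 0 := (map_ne_zero _).2 h.1
  have hx := h.ne
  have e : x⁻¹ - algebraMap F W a⁻¹ =
      -((x - algebraMap F W a) * (x⁻¹ * (algebraMap F W a)⁻¹)) := by
    rw [map_inv₀]
    field_simp
    ring
  rw [e, Valuation.map_neg, map_mul, map_mul, map_inv₀, map_inv₀, h.val, val_const h.1, inv_one,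
    mul_one, mul_one]
  exact h.2

theorem Cg.pow {x : W} {a : F} (h : Cg Q x a) (n : ℕ) : Cg Q (x ^ n) (a ^ n) := by
  induction n with
  | zero =>
    rw [pow_zero, pow_zero, ← map_one (algebraMap F W)]
    exact Cg.const one_ne_zero
  | succ n ih =>
    rw [pow_succ, pow_succ]
    exact ih.mul h

theorem Cg.zpow {x : W} {a : F} (h : Cg Q x a) (n : ℤ) : Cg Q (x ^ n) (a ^ n) := by
  obtain ⟨m, rfl | rfl⟩ := n.eq_nat_or_neg
  · rw [zpow_natCast, zpow_natCast]
    exact h.pow m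
  · rw [zpow_neg, zpow_neg, zpow_natCast, zpow_natCast]
    exact (h.pow m).inv

theorem Cg.unique {x : W} {a b : F} (h : Cg Q x a) (h' : Cg Q x b) : a = b := by
  by_contra hab
  have h1 : algebraMap F W (a - b) = (x - algebraMap F W b) - (x - algebraMap F W a) := by
    rw [map_sub]
    ring
  have h2 : Q.ring.valuation (algebraMap F W (a - b)) < 1 := by
    rw [h1]
    exact Valuation.map_sub_lt _ h'.2 h.2
  rw [val_const (sub_ne_zero.2 hab)] at h2
  exact lt_irrefl _ h2

/-- `s` preserves the maximal ideal -/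
theorem val_lt {s : W ≃ₐ[F] W} (hs : Mv s.toRingEquiv Q Q) {x : W} :
    Q.ring.valuation x < 1 ↔ Q.ring.valuation (s x) < 1 := by
  by_cases hx : x = 0
  · subst hx
    rw [map_zero s]
  have h1 : ∀ y : W, y ≠ 0 → (Q.ring.valuation y < 1 ↔ y⁻¹ ∉ Q.ring) := by
    intro y hy
    rw [← Q.ring.valuation_le_one_iff, not_le, map_inv₀]
    have hy' : Q.ring.valuation y ≠ 0 := (Valuation.ne_zero_iff _).2 hy
    exact (one_lt_inv₀ (zero_lt_iff.2 hy')).symm
  rw [h1 x hx, h1 (s x) ((map_ne_zero s).2 hx), hs x⁻¹]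
  change s x⁻¹ ∉ Q.ring ↔ _
  rw [map_inv₀]

theorem Cg.map {s : W ≃ₐ[F] W} (hs : Mv s.toRingEquiv Q Q) {x : W} {a : F} (h : Cg Q x a) :
    Cg Q (s x) a := by
  refine ⟨h.1, ?_⟩
  have h1 := (val_lt hs).1 h.2
  rw [map_sub, AlgEquiv.commutes] at h1
  exact h1

end CotAux

open CotAux

theorem stCot (h1 : StOrd.{u, v}) (h2 : StResF.{u, v}) : StCot.{u, v} := by
  intro F W iF iA iW iFW s l Q hFF hl hl0 hsl hs1 hs
  obtain ⟨hmul, hadd, hmem, hlt, hunif⟩ := h1 F W hFF
  have hres : ∀ x : W, x ≠ 0 → ord Q x = 0 → ∃ a : F, Cg Q x a := by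
    intro x hx0 hx
    obtain ⟨a, ha⟩ := h2 F W hFF Q x ((hmem Q x hx0).2 hx.ge)
    refine ⟨a, ?_, ha⟩
    rintro rfl
    rw [map_zero, sub_zero, hlt Q x hx0, hx] at ha
    exact lt_irrefl _ ha
  -- orders
  have hone : ord Q (1 : W) = 0 := by
    have := hmul Q 1 1 one_ne_zero one_ne_zero
    rw [mul_one] at this
    omega
  have hinv : ∀ x : W, x ≠ 0 → ord Q x⁻¹ = - ord Q x := by
    intro x hx
    have := hmul Q x x⁻¹ hx (inv_ne_zero hx)
    rw [mul_inv_cancel₀ hx, hone] at this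
    omega
  have hpow : ∀ (x : W) (n : ℕ), x ≠ 0 → ord Q (x ^ n) = n * ord Q x := by
    intro x n hx
    induction n with
    | zero => rw [pow_zero, hone]; simp
    | succ n ih =>
      rw [pow_succ, hmul Q _ _ (pow_ne_zero _ hx) hx, ih]
      push_cast
      ring
  have hzpow : ∀ (x : W) (n : ℤ), x ≠ 0 → ord Q (x ^ n) = n * ord Q x := by
    intro x n hx
    obtain ⟨m, rfl | rfl⟩ := n.eq_nat_or_neg
    · rw [zpow_natCast, hpow x m hx]
    · rw [zpow_neg, zpow_natCast, hinv _ (pow_ne_zero _ hx), hpow x m hx]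
      ring
  obtain ⟨t, ht0, ht⟩ := hunif Q
  -- every element is a power of `t` times a unit
  have hdec : ∀ f : W, f ≠ 0 → ∃ e : W, ∃ a : F, f = t ^ (ord Q f) * e ∧ Cg Q e a := by
    intro f hf
    have h3 : t ^ (ord Q f) ≠ 0 := zpow_ne_zero _ ht0
    have h4 : ord Q ((t ^ (ord Q f))⁻¹ * f) = 0 := by
      rw [hmul Q _ _ (inv_ne_zero h3) hf, hinv _ h3, hzpow t _ ht0, ht]
      ring
    obtain ⟨a, ha⟩ := hres _ (mul_ne_zero (inv_ne_zero h3) hf) h4
    exact ⟨_, a, by rw [mul_inv_cancel_left₀ h3], ha⟩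
  have hCg0 : ∀ (e : W) (a : F), Cg Q e a → ord Q e = 0 := by
    intro e a he
    have h3 : 0 ≤ ord Q e := (hmem Q e he.ne).1 ((Q.ring.valuation_le_one_iff _).1 he.val.le)
    have h4 : 0 ≤ ord Q e⁻¹ :=
      (hmem Q _ he.inv.ne).1 ((Q.ring.valuation_le_one_iff _).1 he.inv.val.le)
    rw [hinv e he.ne] at h4
    omega
  have hst0 : s t ≠ 0 := (map_ne_zero s).2 ht0
  -- the order of `s f`
  have hord1 : ∀ f : W, f ≠ 0 → ord Q (s f) = ord Q f * ord Q (s t) := by
    intro f hf
    obtain ⟨e, a, he, hea⟩ := hdec f hf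
    have h3 : s f = (s t) ^ (ord Q f) * s e := by
      conv_lhs => rw [he]
      rw [map_mul, map_zpow₀]
    rw [h3, hmul Q _ _ (zpow_ne_zero _ hst0) (hea.map hs).ne, hzpow _ _ hst0,
      hCg0 _ _ (hea.map hs), add_zero]
  have hst : ord Q (s t) = 1 := by
    have h3 := hord1 (s.symm t) ((map_ne_zero s.symm).2 ht0)
    rw [AlgEquiv.apply_symm_apply, ht] at h3
    have h4 : 0 < ord Q (s t) := (hlt Q _ hst0).1 ((val_lt hs).1 ((hlt Q t ht0).2 (by omega)))
    have h5 : ord Q (s t) ∣ 1 := ⟨_, by rw [h3]; ring⟩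
    exact Int.eq_one_of_dvd_one h4.le h5
  have hord : ∀ f : W, f ≠ 0 → ord Q (s f) = ord Q f := by
    intro f hf
    rw [hord1 f hf, hst, mul_one]
  -- the character
  obtain ⟨c, hc⟩ := hres (s t / t) (div_ne_zero hst0 ht0) (by
    rw [div_eq_mul_inv, hmul Q _ _ hst0 (inv_ne_zero ht0), hinv t ht0, hst, ht]
    norm_num)
  have hmain : ∀ f : W, f ≠ 0 → Cg Q (s f / f) (c ^ (ord Q f)) := by
    intro f hf
    obtain ⟨e, a, he, hea⟩ := hdec f hf
    have h3 : s f / f = (s t / t) ^ (ord Q f) * (s e * e⁻¹) := by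
      have h4 : s f = (s t) ^ (ord Q f) * s e := by
        conv_lhs => rw [he]
        rw [map_mul, map_zpow₀]
      have h5 : s f / f = ((s t) ^ (ord Q f) * s e) / (t ^ (ord Q f) * e) := by
        rw [← he, ← h4]
      rw [h5, div_zpow]
      have := zpow_ne_zero (ord Q f) ht0
      have := hea.ne
      field_simp
    have h6 := (hc.zpow (ord Q f)).mul ((hea.map hs).mul hea.inv)
    rw [mul_inv_cancel₀ hea.1, mul_one, ← h3] at h6
    exact h6
  -- iterates
  have hiter : ∀ (n : ℕ) (f : W), f ≠ 0 → (s ^ n) f ≠ 0 ∧ ord Q ((s ^ n) f) = ord Q f ∧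
      Cg Q ((s ^ n) f / f) ((c ^ (ord Q f)) ^ n) := by
    intro n f hf
    induction n with
    | zero =>
      rw [pow_zero, pow_zero, AlgEquiv.one_apply, div_self hf]
      refine ⟨hf, rfl, ?_⟩
      rw [← map_one (algebraMap F W)]
      exact Cg.const one_ne_zero
    | succ n ih =>
      obtain ⟨ih1, ih2, ih3⟩ := ih
      have h3 : (s ^ (n + 1)) f = s ((s ^ n) f) := by
        rw [pow_succ', AlgEquiv.mul_apply]
      rw [h3]
      refine ⟨(map_ne_zero s).2 ih1, by rw [hord _ ih1, ih2], ?_⟩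
      have h4 := (hmain _ ih1).mul ih3
      rw [ih2, div_mul_div_cancel₀ ih1, ← pow_succ'] at h4
      exact h4
  have hcl : c ^ l = 1 := by
    have h3 := (hiter l t ht0).2.2
    rw [hsl, AlgEquiv.one_apply, div_self ht0, ht, zpow_one] at h3
    have h4 : Cg Q (1 : W) (1 : F) := by
      rw [← map_one (algebraMap F W)]
      exact Cg.const one_ne_zero
    exact h3.unique h4
  refine ⟨c, hcl, ?_, fun f hf => (hmain f hf).2⟩
  rintro rfl
  apply hs1
  ext f
  rw [AlgEquiv.one_apply]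
  by_contra hne
  have hg : s f - f ≠ 0 := sub_ne_zero.2 hne
  -- the sum of the conjugates of `s f - f`
  have hsum : ∑ i ∈ Finset.range l, (s ^ i) (s f - f) = 0 := by
    have h3 : ∀ i ∈ Finset.range l, (s ^ i) (s f - f) = (s ^ (i + 1)) f - (s ^ i) f := by
      intro i _
      rw [map_sub, pow_succ, AlgEquiv.mul_apply]
    rw [Finset.sum_congr rfl h3, Finset.sum_range_sub (fun i => (s ^ i) f), hsl, pow_zero,
      sub_self]
  have hval : Q.ring.valuation
      (∑ i ∈ Finset.range l, ((s ^ i) (s f - f) / (s f - f) - algebraMap F W 1)) < 1 := by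
    refine Valuation.map_sum_lt _ one_ne_zero fun i _ => ?_
    have h3 := (hiter i _ hg).2.2.2
    rw [one_zpow, one_pow] at h3
    exact h3
  rw [Finset.sum_sub_distrib, ← Finset.sum_div, hsum, zero_div, zero_sub, Finset.sum_const,
    Finset.card_range, Valuation.map_neg, ← map_nsmul, nsmul_one, val_const hl0] at hval
  exact lt_irrefl _ hval

end Pool.Agent.Lib.MP_c385f6_ag.TPG
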