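import Pool.Agent.Lib.MP_c385f6_ag.TPG.StA

/-!
Project TPG, part A, module A5: the number of zeros and the number of poles of `x` are
`[W : F(x)]`.
-/

set_option autoImplicit false

namespace Pool.Agent.Lib.MP_c385f6_ag.TPG

universe u v

namespace ADeg

variable {F : Type u} {W : Type v} [Field F] [Field W] [Algebra F W]

theorem ord_one (H : OrdF F W) (P : Plc F W) : ord P (1 : W) = 0 := by
  have h := H.mul P 1 1 one_ne_zero one_ne_zero
  rw [mul_one] at h
  omega

theorem ord_inv (H : OrdF F W) (P : Plc F W) {x : W} (hx : x ≠ 0) :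
    ord P x⁻¹ = - ord P x := by
  have h := H.mul P x x⁻¹ hx (inv_ne_zero hx)
  rw [mul_inv_cancel₀ hx, ord_one H] at h
  omega

theorem ord_pow (H : OrdF F W) (P : Plc F W) {x : W} (hx : x ≠ 0) (n : ℕ) :
    ord P (x ^ n) = n * ord P x := by
  induction n with
  | zero => rw [pow_zero, ord_one H, Nat.cast_zero, zero_mul]
  | succ n ih =>
    rw [pow_succ, H.mul P _ _ (pow_ne_zero n hx) hx, ih]
    push_cast
    ring

theorem ord_const (H : OrdF F W) (P : Plc F W) {c : F} (hc : c ≠ 0) :
    ord P (algebraMap F W c) = 0 := by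
  have h0 : algebraMap F W c ≠ 0 := (map_ne_zero _).2 hc
  have h0' : algebraMap F W c⁻¹ ≠ 0 := (map_ne_zero _).2 (inv_ne_zero hc)
  have h1 : 0 ≤ ord P (algebraMap F W c) := (H.mem P _ h0).1 (P.const_mem c)
  have h2 : 0 ≤ ord P (algebraMap F W c⁻¹) := (H.mem P _ h0').1 (P.const_mem c⁻¹)
  rw [map_inv₀, ord_inv H P h0] at h2
  omega

/-- the elements of order at least `k` -/
def M (H : OrdF F W) (P : Plc F W) (k : ℤ) : Submodule F W where
  carrier := {z | z ≠ 0 → k ≤ ord P z}
  zero_mem' := fun h => absurd rfl h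
  add_mem' := by
    intro a b ha hb hab
    by_cases h1 : a = 0
    · subst h1
      rw [zero_add] at hab ⊢
      exact hb hab
    by_cases h2 : b = 0
    · subst h2
      rw [add_zero] at hab ⊢
      exact ha hab
    have h3 := H.add P a b h1 h2 hab
    have h4 := ha h1
    have h5 := hb h2
    exact (le_min h4 h5).trans h3
  smul_mem' := by
    intro c a ha h
    rw [Algebra.smul_def] at h ⊢
    have h1 : c ≠ 0 := by
      rintro rfl
      exact h (by rw [map_zero, zero_mul])
    have h2 : a ≠ 0 := by
      rintro rfl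
      exact h (mul_zero _)
    rw [H.mul P _ _ ((map_ne_zero _).2 h1) h2, ord_const H P h1, zero_add]
    exact ha h2

theorem mem_M (H : OrdF F W) (P : Plc F W) (k : ℤ) (z : W) :
    z ∈ M H P k ↔ (z ≠ 0 → k ≤ ord P z) := Iff.rfl

theorem M_mono (H : OrdF F W) (P : Plc F W) {k l : ℤ} (h : k ≤ l) {z : W} (hz : z ∈ M H P l) :
    z ∈ M H P k := fun h0 => h.trans (hz h0)

theorem M_mul (H : OrdF F W) (P : Plc F W) {k l : ℤ} {a b : W} (ha : a ∈ M H P k)
    (hb : b ∈ M H P l) : a * b ∈ M H P (k + l) := by
  intro h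
  have h1 : a ≠ 0 := left_ne_zero_of_mul h
  have h2 : b ≠ 0 := right_ne_zero_of_mul h
  rw [H.mul P a b h1 h2]
  exact add_le_add (ha h1) (hb h2)

theorem mem_ring_iff (H : OrdF F W) (P : Plc F W) (z : W) : z ∈ P.ring ↔ z ∈ M H P 0 := by
  by_cases h : z = 0
  · subst h
    exact ⟨fun _ => zero_mem _, fun _ => zero_mem _⟩
  · rw [H.mem P z h, mem_M]
    exact ⟨fun h1 _ => h1, fun h1 => h1 h⟩

theorem lt_iff (H : OrdF F W) (P : Plc F W) (z : W) :
    P.ring.valuation z < 1 ↔ z ∈ M H P 1 := by
  by_cases h : z = 0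
  · subst h
    refine ⟨fun _ => zero_mem _, fun _ => ?_⟩
    rw [map_zero]
    exact zero_lt_one
  · rw [H.lt P z h, mem_M]
    exact ⟨fun h1 _ => h1, fun h1 => h1 h⟩

theorem M_ord (H : OrdF F W) (P : Plc F W) (z : W) : z ∈ M H P (ord P z) := fun _ => le_rfl

/-- the space `L(D)` -/
def LL (H : OrdF F W) (D : Plc F W → ℤ) : Submodule F W := ⨅ P, M H P (-(D P))

theorem mem_LL (H : OrdF F W) (D : Plc F W → ℤ) (z : W) :
    z ∈ LL H D ↔ ∀ P, z ∈ M H P (-(D P)) := Submodule.mem_iInf _

/-- the properties of function fields which are used -/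
structure Hyp (F : Type u) (W : Type v) [Field F] [Field W] [Algebra F W] : Prop where
  ordF : OrdF F W
  res : ∀ (P : Plc F W) (x : W), x ∈ P.ring → ∃ c : F, P.ring.valuation (x - algebraMap F W c) < 1
  app : ∀ (S : Finset (Plc F W)) (x : Plc F W → W) (n : ℤ),
      ∃ y : W, ∀ P ∈ S, y ≠ x P → n ≤ ord P (y - x P)
  tr : ∀ x : W, (∀ c : F, x ≠ algebraMap F W c) →
      Transcendental F x ∧ FiniteDimensional (IntermediateField.adjoin F {x}) W ∧
        ∃ P : Plc F W, 0 < ord P x
  fin : ∀ x : W, x ≠ 0 → {P : Plc F W | ord P x ≠ 0}.Finite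

theorem LL_zero (h : Hyp F W) : LL h.ordF (fun _ => 0) ≤ Submodule.span F {(1 : W)} := by
  intro z hz
  rw [mem_LL] at hz
  by_cases hc : ∀ c : F, z ≠ algebraMap F W c
  · exfalso
    have h0 : z ≠ 0 := by
      have := hc 0
      rwa [map_zero] at this
    have h1 : ∀ c : F, z⁻¹ ≠ algebraMap F W c := by
      intro c hc'
      apply hc c⁻¹
      rw [map_inv₀, ← hc', inv_inv]
    obtain ⟨-, -, P, hP⟩ := h.tr _ h1
    rw [ord_inv h.ordF P h0] at hP
    have h2 := hz P h0
    omega
  · push Not at hc
    obtain ⟨c, hc⟩ := hc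
    rw [Submodule.mem_span_singleton]
    exact ⟨c, by rw [hc, Algebra.smul_def, mul_one]⟩

/-- one more pole -/
theorem LL_step (h : Hyp F W) (D D' : Plc F W → ℤ) (P₀ : Plc F W)
    (h0 : D' P₀ = D P₀ + 1) (h1 : ∀ P, P ≠ P₀ → D' P = D P) :
    ∃ g : W, LL h.ordF D' ≤ LL h.ordF D ⊔ Submodule.span F {g} := by
  by_cases hle : LL h.ordF D' ≤ LL h.ordF D
  · exact ⟨0, hle.trans le_sup_left⟩
  obtain ⟨g, hg, hg'⟩ := SetLike.not_le_iff_exists.1 hle
  refine ⟨g, fun f hf => ?_⟩
  rw [mem_LL] at hg hf
  -- the order of `g` at `P₀`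
  have h2 : g ≠ 0 ∧ ord P₀ g = -(D P₀ + 1) := by
    rw [mem_LL] at hg'
    push Not at hg'
    obtain ⟨P, hP⟩ := hg'
    have hPP : P = P₀ := by
      by_contra hne
      apply hP
      rw [← h1 P hne]
      exact hg P
    subst hPP
    rw [mem_M] at hP
    push Not at hP
    obtain ⟨h3, h4⟩ := hP
    have h5 := hg P h3
    rw [h0] at h5
    exact ⟨h3, by omega⟩
  obtain ⟨hg0, hgo⟩ := h2
  -- the residue of `f / g`
  have h3 : f * g⁻¹ ∈ M h.ordF P₀ 0 := by
    have h4 : g⁻¹ ∈ M h.ordF P₀ (D P₀ + 1) := by
      intro _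
      rw [ord_inv h.ordF P₀ hg0, hgo, neg_neg]
    have h5 := M_mul h.ordF P₀ (hf P₀) h4
    rw [h0, neg_add_cancel] at h5
    exact h5
  obtain ⟨c, hc⟩ := h.res P₀ _ ((mem_ring_iff h.ordF P₀ _).2 h3)
  rw [lt_iff h.ordF] at hc
  have h4 : f - c • g ∈ LL h.ordF D := by
    rw [mem_LL]
    intro P
    by_cases hP : P = P₀
    · subst hP
      have h5 : f - c • g = g * (f * g⁻¹ - algebraMap F W c) := by
        rw [Algebra.smul_def]
        field_simp
      rw [h5]
      have h6 := M_mul h.ordF P (M_ord h.ordF P g) hc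
      rw [hgo] at h6
      exact M_mono h.ordF P (by omega) h6
    · rw [← h1 P hP]
      exact Submodule.sub_mem _ (hf P) (Submodule.smul_mem _ c (hg P))
  have h5 : f = (f - c • g) + c • g := by abel
  rw [h5]
  exact Submodule.add_mem_sup h4 (Submodule.smul_mem _ c (Submodule.mem_span_singleton_self g))

open Classical in
/-- `L(D)` has dimension at most `deg D + 1` for effective divisors `D`. -/
theorem LL_fin (h : Hyp F W) (m : Multiset (Plc F W)) :
    FiniteDimensional F (LL h.ordF fun P => (m.count P : ℤ)) ∧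
      Module.finrank F (LL h.ordF fun P => (m.count P : ℤ)) ≤ m.card + 1 := by
  induction m using Multiset.induction_on with
  | empty =>
    have h1 : LL h.ordF (fun P => ((0 : Multiset (Plc F W)).count P : ℤ)) ≤
        Submodule.span F {(1 : W)} := by
      have h2 : (fun P => ((0 : Multiset (Plc F W)).count P : ℤ)) = fun _ => 0 := by
        ext P
        rw [Multiset.count_zero, Nat.cast_zero]
      rw [h2]
      exact LL_zero h
    have h3 : FiniteDimensional F (Submodule.span F {(1 : W)}) := inferInstance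
    refine ⟨Submodule.finiteDimensional_of_le h1, ?_⟩
    rw [Multiset.card_zero, zero_add]
    exact (Submodule.finrank_mono h1).trans (finrank_span_singleton one_ne_zero).le
  | cons P m ih =>
    obtain ⟨h1, h2⟩ := ih
    obtain ⟨g, hg⟩ := LL_step h (fun Q => (m.count Q : ℤ)) (fun Q => ((P ::ₘ m).count Q : ℤ)) P
      (by
        rw [Multiset.count_cons_self]
        push_cast
        rfl)
      (fun Q hQ => by
        rw [Multiset.count_cons_of_ne hQ])
    have h3 : FiniteDimensional F (Submodule.span F {g}) := inferInstance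
    have h4 : Module.finrank F (Submodule.span F {g}) ≤ 1 := by
      by_cases hg0 : g = 0
      · subst hg0
        rw [Submodule.span_zero_singleton, finrank_bot]
        exact zero_le_one
      · exact (finrank_span_singleton hg0).le
    refine ⟨Submodule.finiteDimensional_of_le hg, ?_⟩
    rw [Multiset.card_cons]
    have h5 := Submodule.finrank_mono hg
    have h6 := Submodule.finrank_add_le_finrank_add_finrank
      (LL h.ordF fun Q => (m.count Q : ℤ)) (Submodule.span F {g})
    omega

open Classical in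
/-- the divisor of poles -/
theorem exists_poles (h : Hyp F W) {y : W} (hy : y ≠ 0) :
    ∃ m : Multiset (Plc F W), ∀ P, (m.count P : ℤ) = max (- ord P y) 0 := by
  have h1 : (Function.support fun P : Plc F W => (- ord P y).toNat).Finite := by
    refine (h.fin y hy).subset fun P hP => ?_
    rw [Function.mem_support] at hP
    change ord P y ≠ 0
    intro h0
    exact hP (by rw [h0]; rfl)
  refine ⟨Finsupp.toMultiset (Finsupp.ofSupportFinite _ h1), fun P => ?_⟩
  rw [Finsupp.count_toMultiset]
  change (((- ord P y).toNat : ℕ) : ℤ) = max (- ord P y) 0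
  rw [Int.toNat_eq_max]

open Classical in
theorem finsum_count (m : Multiset (Plc F W)) (f : Plc F W → ℤ)
    (hf : ∀ P, (m.count P : ℤ) = f P) : ∑ᶠ P : Plc F W, f P = (m.card : ℤ) := by
  have h1 : Function.support f ⊆ ((m.toFinset : Finset (Plc F W)) : Set (Plc F W)) := by
    intro P hP
    rw [Finset.mem_coe, Multiset.mem_toFinset]
    by_contra h0
    apply hP
    rw [← hf, Multiset.count_eq_zero_of_notMem h0, Nat.cast_zero]
  rw [finsum_eq_sum_of_support_subset f h1, ← Multiset.toFinset_sum_count_eq, Nat.cast_sum]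
  exact Finset.sum_congr rfl fun P _ => (hf P).symm

/-- the powers of a transcendental element -/
theorem linInd_pow {x : W} (hx : Transcendental F x) (n : ℕ) :
    LinearIndependent F fun i : Fin n =>
      (IntermediateField.AdjoinSimple.gen F x) ^ (i : ℕ) := by
  have h1 : LinearIndependent F fun i : ℕ => (IntermediateField.AdjoinSimple.gen F x) ^ i := by
    have h2 := (Polynomial.basisMonomials F).linearIndependent
    have h3 := h2.map' (Polynomial.aeval (IntermediateField.AdjoinSimple.gen F x)).toLinearMap (by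
      rw [LinearMap.ker_eq_bot']
      intro p hp
      change Polynomial.aeval (IntermediateField.AdjoinSimple.gen F x) p = 0 at hp
      by_contra hp0
      apply hx
      refine ⟨p, hp0, ?_⟩
      have h4 := congrArg (algebraMap (IntermediateField.adjoin F {x}) W) hp
      rw [map_zero, ← Polynomial.aeval_algebraMap_apply] at h4
      exact h4)
    have h4 : (fun i : ℕ => (IntermediateField.AdjoinSimple.gen F x) ^ i) =
        (Polynomial.aeval (IntermediateField.AdjoinSimple.gen F x)).toLinearMap ∘
          (Polynomial.basisMonomials F) := by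
      funext i
      change _ = Polynomial.aeval (IntermediateField.AdjoinSimple.gen F x)
        (Polynomial.basisMonomials F i)
      rw [Polynomial.coe_basisMonomials, Polynomial.aeval_monomial, map_one, one_mul]
    rw [h4]
    exact h3
  exact h1.comp _ Fin.val_injective

open Classical in
theorem le_poles (h : Hyp F W) {x : W} (hx : ∀ c : F, x ≠ algebraMap F W c)
    (m : Multiset (Plc F W)) (hm : ∀ P, (m.count P : ℤ) = max (- ord P x) 0) :
    Module.finrank (IntermediateField.adjoin F {x}) W ≤ m.card := by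
  obtain ⟨htr, hfd, -⟩ := h.tr x hx
  have hx0 : x ≠ 0 := by
    have := hx 0
    rwa [map_zero] at this
  obtain ⟨n, hn⟩ : ∃ n, n = Module.finrank (IntermediateField.adjoin F {x}) W := ⟨_, rfl⟩
  let b := Module.finBasis (IntermediateField.adjoin F {x}) W
  have hb : ∀ j, b j ≠ 0 := fun j => b.ne_zero j
  choose c hc using fun j => exists_poles h (hb j)
  -- the inequality for all `l`
  have h1 : ∀ l : ℕ, (l + 1) * Module.finrank (IntermediateField.adjoin F {x}) W ≤
      l * m.card + (∑ j, c j).card + 1 := by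
    intro l
    obtain ⟨hf, hr⟩ := LL_fin h (l • m + ∑ j, c j)
    have h2 : ∀ p : Fin (l + 1) × Fin (Module.finrank (IntermediateField.adjoin F {x}) W),
        (IntermediateField.AdjoinSimple.gen F x) ^ (p.1 : ℕ) • b p.2 ∈
          LL h.ordF fun P => ((l • m + ∑ j, c j).count P : ℤ) := by
      intro p
      rw [mem_LL]
      intro P _
      have h3 : (IntermediateField.AdjoinSimple.gen F x) ^ (p.1 : ℕ) • b p.2 =
          x ^ (p.1 : ℕ) * b p.2 := by
        rw [Algebra.smul_def, map_pow]
        rfl
      rw [h3, h.ordF.mul P _ _ (pow_ne_zero _ hx0) (hb _), ord_pow h.ordF P hx0]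
      have h4 : (((l • m + ∑ j, c j).count P : ℕ) : ℤ) =
          l * max (- ord P x) 0 + ∑ j, max (- ord P (b j)) 0 := by
        rw [Multiset.count_add, Multiset.count_nsmul, Multiset.count_sum']
        push_cast
        rw [hm P]
        congr 1
        exact Finset.sum_congr rfl fun j _ => hc j P
      rw [h4]
      have h5 : - ord P (b p.2) ≤ ∑ j, max (- ord P (b j)) 0 :=
        (le_max_left _ _).trans (Finset.single_le_sum
          (f := fun j => max (- ord P (b j)) 0) (fun j _ => le_max_right _ _)
          (Finset.mem_univ p.2))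
      have h6 : -((p.1 : ℕ) * ord P x) ≤ l * max (- ord P x) 0 := by
        have h7 : ((p.1 : ℕ) : ℤ) ≤ l := by
          have := p.1.2
          omega
        calc -((p.1 : ℕ) * ord P x) = (p.1 : ℕ) * (- ord P x) := by ring
          _ ≤ (p.1 : ℕ) * max (- ord P x) 0 :=
            mul_le_mul_of_nonneg_left (le_max_left _ _) (Int.natCast_nonneg _)
          _ ≤ l * max (- ord P x) 0 := mul_le_mul_of_nonneg_right h7 (le_max_right _ _)
      linarith
    have h3 : LinearIndependent F
        fun p : Fin (l + 1) × Fin (Module.finrank (IntermediateField.adjoin F {x}) W) =>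
          (⟨_, h2 p⟩ : LL h.ordF fun P => ((l • m + ∑ j, c j).count P : ℤ)) := by
      apply LinearIndependent.of_comp (LL h.ordF fun P => ((l • m + ∑ j, c j).count P : ℤ)).subtype
      exact linearIndependent_smul (linInd_pow htr (l + 1)) b.linearIndependent
    have h4 := h3.fintype_card_le_finrank
    rw [Fintype.card_prod, Fintype.card_fin, Fintype.card_fin] at h4
    refine h4.trans (hr.trans ?_)
    rw [Multiset.card_add, Multiset.card_nsmul]
  obtain ⟨C, hC⟩ : ∃ C, C = (∑ j, c j).card := ⟨_, rfl⟩
  rw [← hC] at h1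
  rw [← hn] at h1 ⊢
  by_contra hlt
  push Not at hlt
  have h2 := h1 (C + 1)
  have h3 : (C + 1 + 1) * (m.card + 1) ≤ (C + 1 + 1) * n := Nat.mul_le_mul_left _ hlt
  have h4 : (C + 1 + 1) * (m.card + 1) = (C + 1) * m.card + C + 1 + m.card + 1 := by ring
  omega

/-- the powers of a uniformizer are independent -/
theorem unif_indep (H : OrdF F W) (P : Plc F W) {u : W} (hu : u ≠ 0) (hu1 : ord P u = 1)
    (e : ℕ) (c : ℕ → F) (hc : ∑ a ∈ Finset.range e, c a • u ^ a ∈ M H P e) :
    ∀ a < e, c a = 0 := by
  intro a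
  induction a using Nat.strong_induction_on with
  | _ a ih =>
    intro hae
    by_contra hca
    have h1 : c a • u ^ a ∈ M H P (a + 1) := by
      have h2 : ∑ b ∈ Finset.range e, c b • u ^ b =
          c a • u ^ a + ∑ b ∈ (Finset.range e).erase a, c b • u ^ b :=
        (Finset.add_sum_erase _ (fun b => c b • u ^ b) (Finset.mem_range.2 hae)).symm
      have h3 : ∑ b ∈ (Finset.range e).erase a, c b • u ^ b ∈ M H P (a + 1) := by
        refine Submodule.sum_mem _ fun b hb => ?_
        rw [Finset.mem_erase, Finset.mem_range] at hb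
        rcases lt_or_gt_of_ne hb.1 with h | h
        · rw [ih b h (h.trans hae), zero_smul]
          exact zero_mem _
        · refine Submodule.smul_mem _ _ fun _ => ?_
          rw [ord_pow H P hu, hu1, mul_one]
          exact_mod_cast h
      have h4 : c a • u ^ a = (∑ b ∈ Finset.range e, c b • u ^ b) -
          ∑ b ∈ (Finset.range e).erase a, c b • u ^ b := by
        rw [h2]
        abel
      rw [h4]
      exact Submodule.sub_mem _ (M_mono H P (by exact_mod_cast hae) hc) h3
    have h5 : c a • u ^ a ≠ 0 := smul_ne_zero hca (pow_ne_zero _ hu)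
    have h6 := h1 h5
    rw [Algebra.smul_def, H.mul P _ _ ((map_ne_zero _).2 hca) (pow_ne_zero _ hu),
      ord_const H P hca, ord_pow H P hu, hu1] at h6
    omega

open Classical in
theorem zeros_le (h : Hyp F W) {x : W} (hx : ∀ c : F, x ≠ algebraMap F W c)
    (m : Multiset (Plc F W)) (hm : ∀ P, (m.count P : ℤ) = max (ord P x) 0) :
    m.card ≤ Module.finrank (IntermediateField.adjoin F {x}) W := by
  obtain ⟨htr, hfd, -⟩ := h.tr x hx
  have hx0 : x ≠ 0 := by
    have := hx 0
    rwa [map_zero] at this
  have H := h.ordF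
  choose u hu hu1 using H.unif
  -- the elements given by approximation
  have h1 : ∀ p : (Σ P : m.toFinset, Fin (m.count (P : Plc F W))), ∃ y : W, ∀ Q ∈ m.toFinset,
      y - (if Q = (p.1 : Plc F W) then u Q ^ (p.2 : ℕ) else 0) ∈ M H Q (m.count Q) := by
    intro p
    obtain ⟨y, hy⟩ := h.app m.toFinset
      (fun Q => if Q = (p.1 : Plc F W) then u Q ^ (p.2 : ℕ) else 0) m.card
    refine ⟨y, fun Q hQ h0 => ?_⟩
    have h2 := hy Q hQ (sub_ne_zero.1 h0)
    exact le_trans (by exact_mod_cast Multiset.count_le_card Q m) h2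
  choose y hy using h1
  have hpos : ∀ Q ∈ m.toFinset, ord Q x = m.count Q := by
    intro Q hQ
    rw [Multiset.mem_toFinset, ← Multiset.count_pos] at hQ
    have h2 := hm Q
    rcases le_total (ord Q x) 0 with h3 | h3
    · rw [max_eq_right h3] at h2
      omega
    · rw [max_eq_left h3] at h2
      exact h2.symm
  have hy0 : ∀ p, ∀ Q ∈ m.toFinset, y p ∈ M H Q 0 := by
    intro p Q hQ
    have h2 : y p = (y p - (if Q = (p.1 : Plc F W) then u Q ^ (p.2 : ℕ) else 0)) +
      (if Q = (p.1 : Plc F W) then u Q ^ (p.2 : ℕ) else 0) := by abel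
    rw [h2]
    refine Submodule.add_mem _ (M_mono H Q (Int.natCast_nonneg _) (hy p Q hQ)) ?_
    split_ifs
    · intro _
      rw [ord_pow H Q (hu Q), hu1, mul_one]
      exact Int.natCast_nonneg _
    · exact zero_mem _
  -- independence modulo `x`
  have key : ∀ c : (Σ P : m.toFinset, Fin (m.count (P : Plc F W))) → F,
      (∀ Q ∈ m.toFinset, ∑ p, c p • y p ∈ M H Q (m.count Q)) → ∀ p, c p = 0 := by
    rintro c hc ⟨⟨Q, hQ⟩, a⟩
    have h2 : ∑ p, c p • (if Q = (p.1 : Plc F W) then u Q ^ (p.2 : ℕ) else 0) ∈
        M H Q (m.count Q) := by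
      have h3 : ∑ p, c p • (if Q = (p.1 : Plc F W) then u Q ^ (p.2 : ℕ) else 0) =
          ∑ p, c p • y p -
            ∑ p, c p • (y p - (if Q = (p.1 : Plc F W) then u Q ^ (p.2 : ℕ) else 0)) := by
        rw [← Finset.sum_sub_distrib]
        refine Finset.sum_congr rfl fun p _ => ?_
        rw [← smul_sub]
        congr 1
        abel
      rw [h3]
      exact Submodule.sub_mem _ (hc Q hQ)
        (Submodule.sum_mem _ fun p _ => Submodule.smul_mem _ _ (hy p Q hQ))
    rw [Fintype.sum_sigma, Finset.sum_eq_single (⟨Q, hQ⟩ : m.toFinset)] at h2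
    · have h3 : ∑ b ∈ Finset.range (m.count Q),
          (if hb : b < m.count Q then c ⟨⟨Q, hQ⟩, ⟨b, hb⟩⟩ else 0) • u Q ^ b ∈
          M H Q (m.count Q) := by
        rw [Finset.sum_range]
        convert h2 using 2 with b
        rw [if_pos rfl, dif_pos b.2]
      have h4 := unif_indep H Q (hu Q) (hu1 Q) _ _ h3 a a.2
      rw [dif_pos a.2] at h4
      exact h4
    · intro P _ hP
      refine Finset.sum_eq_zero fun b _ => ?_
      rw [if_neg, smul_zero]
      intro h3
      exact hP (Subtype.ext h3.symm)
    · intro h3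
      exact absurd (Finset.mem_univ _) h3
  -- descent
  have desc : ∀ N : ℕ, ∀ f : (Σ P : m.toFinset, Fin (m.count (P : Plc F W))) → Polynomial F,
      (∀ i, ∀ k, N ≤ k → (f i).coeff k = 0) → ∑ i, Polynomial.aeval x (f i) * y i = 0 →
      ∀ i, f i = 0 := by
    intro N
    induction N with
    | zero =>
      intro f hf _ i
      ext k
      rw [hf i k (Nat.zero_le k), Polynomial.coeff_zero]
    | succ N ih =>
      intro f hf hs
      have h2 : ∀ i, Polynomial.aeval x (f i) * y i =
          x * (Polynomial.aeval x (f i).divX * y i) + (f i).coeff 0 • y i := by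
        intro i
        conv_lhs => rw [← Polynomial.divX_mul_X_add (f i)]
        rw [map_add, map_mul, Polynomial.aeval_X, Polynomial.aeval_C, Algebra.smul_def]
        ring
      rw [Finset.sum_congr rfl fun i _ => h2 i, Finset.sum_add_distrib, ← Finset.mul_sum] at hs
      have h3 : ∀ i, (f i).coeff 0 = 0 := by
        apply key
        intro Q hQ
        rw [← neg_eq_of_add_eq_zero_right hs]
        apply Submodule.neg_mem
        have h4 : x ∈ M H Q (m.count Q) := by
          intro _
          rw [hpos Q hQ]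
        have h5 : ∑ i, Polynomial.aeval x (f i).divX * y i ∈ M H Q 0 := by
          refine Submodule.sum_mem _ fun i _ => ?_
          have h6 : Polynomial.aeval x (f i).divX ∈ M H Q 0 := by
            rw [Polynomial.aeval_eq_sum_range]
            refine Submodule.sum_mem _ fun j _ => Submodule.smul_mem _ _ fun _ => ?_
            rw [ord_pow H Q hx0, hpos Q hQ]
            positivity
          have h7 := M_mul H Q h6 (hy0 i Q hQ)
          rwa [add_zero] at h7
        have h6 := M_mul H Q h4 h5
        rwa [add_zero] at h6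
      have h4 : ∑ i, Polynomial.aeval x (f i).divX * y i = 0 := by
        have h5 : ∑ i, (f i).coeff 0 • y i = 0 :=
          Finset.sum_eq_zero fun i _ => by rw [h3 i, zero_smul]
        rw [h5, add_zero] at hs
        exact (mul_eq_zero.1 hs).resolve_left hx0
      have h5 := ih (fun i => (f i).divX) (fun i k hk => by
        rw [Polynomial.coeff_divX]
        exact hf i (k + 1) (Nat.succ_le_succ hk)) h4
      intro i
      rw [← Polynomial.divX_mul_X_add (f i), h5 i, h3 i, map_zero, zero_mul, add_zero]
  -- linear independence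
  have hli : LinearIndependent (IntermediateField.adjoin F {x}) y := by
    open scoped IntermediateField.algebraAdjoinAdjoin in
    rw [← LinearIndependent.iff_fractionRing (R := Algebra.adjoin F {x})]
    rw [Fintype.linearIndependent_iff]
    intro g hg
    have h2 : ∀ i, ∃ f : Polynomial F, Polynomial.aeval x f = (g i : W) := by
      intro i
      have h3 : ∀ w ∈ Algebra.adjoin F {x}, ∃ f : Polynomial F, Polynomial.aeval x f = w := by
        intro w hw
        rw [Algebra.adjoin_singleton_eq_range_aeval] at hw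
        exact hw
      exact h3 _ (g i).2
    choose f hf using h2
    have h3 : ∑ i, Polynomial.aeval x (f i) * y i = 0 := by
      rw [← hg]
      refine Finset.sum_congr rfl fun i _ => ?_
      rw [hf i]
      rfl
    have h4 := desc (Finset.univ.sup fun i => (f i).natDegree + 1) f (fun i k hk => by
      apply Polynomial.coeff_eq_zero_of_natDegree_lt
      exact lt_of_lt_of_le (Nat.lt_succ_self _)
        ((Finset.le_sup (f := fun i => (f i).natDegree + 1) (Finset.mem_univ i)).trans hk)) h3
    intro i
    apply Subtype.ext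
    rw [← hf i, h4 i, map_zero]
    rfl
  have h2 := hli.fintype_card_le_finrank
  rw [Fintype.card_sigma] at h2
  refine le_trans (le_of_eq ?_) h2
  rw [← Multiset.toFinset_sum_count_eq m, ← Finset.sum_coe_sort]
  exact Finset.sum_congr rfl fun P _ => (Fintype.card_fin _).symm

theorem adjoin_inv (x : W) :
    IntermediateField.adjoin F {x⁻¹} = IntermediateField.adjoin F {x} := by
  apply le_antisymm
  · rw [IntermediateField.adjoin_simple_le_iff]
    exact inv_mem (IntermediateField.mem_adjoin_simple_self F x)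
  · rw [IntermediateField.adjoin_simple_le_iff]
    have h := inv_mem (IntermediateField.mem_adjoin_simple_self F x⁻¹)
    rwa [inv_inv] at h

/-- the statement for the poles -/
theorem poles (h : Hyp F W) {x : W} (hx : ∀ c : F, x ≠ algebraMap F W c) :
    ∑ᶠ P : Plc F W, max (- ord P x) 0 =
      (Module.finrank (IntermediateField.adjoin F {x}) W : ℤ) := by
  classical
  have hx0 : x ≠ 0 := by
    have := hx 0
    rwa [map_zero] at this
  have hx' : ∀ c : F, x⁻¹ ≠ algebraMap F W c := by
    intro c hc
    apply hx c⁻¹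
    rw [map_inv₀, ← hc, inv_inv]
  obtain ⟨m, hm⟩ := exists_poles h hx0
  rw [finsum_count m _ hm]
  have h1 := le_poles h hx m hm
  have h2 := zeros_le h hx' m (fun P => by rw [hm P, ord_inv h.ordF P hx0])
  rw [adjoin_inv] at h2
  exact_mod_cast le_antisymm h2 h1

end ADeg

/-- Module A5. -/
theorem stDeg (h1 : StOrd.{u, v}) (h2 : StResF.{u, v}) (h3 : StWA.{u, v}) (h4 : StZero.{u, v}) :
    StDeg.{u, v} := by
  intro F W _ _ _ _ hF x hx
  have H : ADeg.Hyp F W :=
    { ordF := h1 F W hF
      res := h2 F W hF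
      app := h3 F W hF (h1 F W hF)
      tr := (h4 F W hF).1
      fin := (h4 F W hF).2 }
  have hx0 : x ≠ 0 := by
    have := hx 0
    rwa [map_zero] at this
  have hx' : ∀ c : F, x⁻¹ ≠ algebraMap F W c := by
    intro c hc
    apply hx c⁻¹
    rw [map_inv₀, ← hc, inv_inv]
  refine ⟨?_, ADeg.poles H hx⟩
  rw [← ADeg.adjoin_inv x, ← ADeg.poles H hx']
  refine finsum_congr fun P => ?_
  rw [ADeg.ord_inv H.ordF P hx0, neg_neg]

end Pool.Agent.Lib.MP_c385f6_ag.TPG
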