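import Pool.Agent.Lib.MP_c385f6_ag.TPG.StA

/-!
Project TPG, statement A12: Kummer extensions of degree prime to the characteristic given by an
element with divisor divisible by `n` are unramified; the formula for the genus.
-/

set_option autoImplicit false

namespace Pool.Agent.Lib.MP_c385f6_ag.TPG

universe u v w

namespace Kum

section Basic

variable {F : Type u} {W : Type v} [Field F] [Field W] [Algebra F W]

theorem ord_one (h : OrdF F W) (P : Plc F W) : ord P (1 : W) = 0 := by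
  have := h.mul P 1 1 one_ne_zero one_ne_zero
  rw [mul_one] at this
  omega

theorem ord_pow (h : OrdF F W) (P : Plc F W) {x : W} (hx : x ≠ 0) (k : ℕ) :
    ord P (x ^ k) = k * ord P x := by
  induction k with
  | zero => simp [ord_one h]
  | succ k ih =>
    rw [pow_succ, h.mul P _ _ (pow_ne_zero _ hx) hx, ih]
    push_cast
    ring

theorem ord_inv (h : OrdF F W) (P : Plc F W) {x : W} (hx : x ≠ 0) :
    ord P x⁻¹ = - ord P x := by
  have h1 := h.mul P x x⁻¹ hx (inv_ne_zero hx)
  rw [mul_inv_cancel₀ hx, ord_one h] at h1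
  omega

theorem ord_div (h : OrdF F W) (P : Plc F W) {x y : W} (hx : x ≠ 0) (hy : y ≠ 0) :
    ord P (x / y) = ord P x - ord P y := by
  rw [div_eq_mul_inv, h.mul P _ _ hx (inv_ne_zero hy), ord_inv h P hy]
  ring

theorem ord_zpow (h : OrdF F W) (P : Plc F W) {x : W} (hx : x ≠ 0) (k : ℤ) :
    ord P (x ^ k) = k * ord P x := by
  obtain ⟨k, rfl | rfl⟩ := k.eq_nat_or_neg
  · rw [zpow_natCast, ord_pow h P hx]
  · rw [zpow_neg, zpow_natCast, ord_inv h P (pow_ne_zero _ hx), ord_pow h P hx]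
    ring

/-- An isomorphism that maps the place `P` to the place `Q` preserves orders. -/
theorem ord_mv {F₂ : Type*} {W₂ : Type*} [Field F₂] [Field W₂] [Algebra F₂ W₂] (h : OrdF F W)
    (h₂ : OrdF F₂ W₂) (s : W ≃+* W₂) {P : Plc F W} {Q : Plc F₂ W₂} (hs : Mv s P Q) {x : W}
    (hx : x ≠ 0) : ord Q (s x) = ord P x := by
  have hne : ∀ {x : W}, x ≠ 0 → s x ≠ 0 := fun hx => (map_ne_zero_iff s s.injective).2 hx
  have h0 : ∀ {x : W}, x ≠ 0 → 0 ≤ ord P x → 0 ≤ ord Q (s x) := by
    intro x hx h1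
    exact (h₂.mem Q _ (hne hx)).1 ((hs x).1 ((h.mem P x hx).2 h1))
  have hA : ∀ {x : W}, x ≠ 0 → ord P x = 0 → ord Q (s x) = 0 := by
    intro x hx h1
    have h2 := h0 hx h1.ge
    have h3 := h0 (inv_ne_zero hx) (by rw [ord_inv h P hx]; omega)
    rw [map_inv₀, ord_inv h₂ Q (hne hx)] at h3
    omega
  obtain ⟨u, hu0, hu⟩ := h.unif P
  have hB : ∀ {x : W}, x ≠ 0 → ord Q (s x) = ord P x * ord Q (s u) := by
    intro x hx
    have hz : u ^ (ord P x) ≠ 0 := zpow_ne_zero _ hu0
    have h1 : ord P (x / u ^ (ord P x)) = 0 := by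
      rw [ord_div h P hx hz, ord_zpow h P hu0, hu]
      ring
    have h2 := hA (div_ne_zero hx hz) h1
    rw [map_div₀, map_zpow₀, ord_div h₂ Q (hne hx) (zpow_ne_zero _ (hne hu0)),
      ord_zpow h₂ Q (hne hu0)] at h2
    omega
  have hd : 0 ≤ ord Q (s u) := h0 hu0 (by omega)
  obtain ⟨u', hu'0, hu'⟩ := h₂.unif Q
  have h1 := hB (x := s.symm u') ((map_ne_zero_iff s.symm s.symm.injective).2 hu'0)
  rw [RingEquiv.apply_symm_apply, hu'] at h1
  have h2 : ord Q (s u) = 1 := by
    have h3 : ord Q (s u) ∣ 1 := ⟨ord P (s.symm u'), by rw [h1]; ring⟩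
    exact Int.eq_one_of_dvd_one hd h3
  rw [hB hx, h2, mul_one]

theorem val_lt_mul {P : Plc F W} {x y : W} (hx : x ∈ P.ring) (hy : P.ring.valuation y < 1) :
    P.ring.valuation (x * y) < 1 := by
  rw [map_mul]
  have h1 : P.ring.valuation x ≤ 1 := (P.ring.valuation_le_one_iff x).2 hx
  calc P.ring.valuation x * P.ring.valuation y ≤ 1 * P.ring.valuation y := by gcongr
    _ = P.ring.valuation y := one_mul _
    _ < 1 := hy

theorem val_lt_sub {P : Plc F W} {x y : W} (hx : P.ring.valuation x < 1)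
    (hy : P.ring.valuation y < 1) : P.ring.valuation (x - y) < 1 :=
  lt_of_le_of_lt (Valuation.map_sub _ _ _) (max_lt hx hy)

theorem const_eq_zero {P : Plc F W} {c : F} (h : P.ring.valuation (algebraMap F W c) < 1) :
    c = 0 := by
  by_contra hc
  have h1 := val_lt_mul (P.const_mem c⁻¹) h
  rw [← map_mul, inv_mul_cancel₀ hc, map_one, map_one] at h1
  exact lt_irrefl _ h1

end Basic

section Tower

variable {F : Type u} {W : Type v} {W' : Type w} [Field F] [Field W] [Algebra F W]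
  [Field W'] [Algebra F W'] [Algebra W W'] [IsScalarTower F W W']

/-- The image of a place under an automorphism. -/
def mvP (s : W' ≃ₐ[W] W') (Q : Plc F W') : Plc F W' where
  ring := Q.ring.comap (s.symm : W' →+* W')
  ne_top := by
    intro h1
    apply Q.ne_top
    rw [eq_top_iff]
    intro x _
    have h2 : s x ∈ Q.ring.comap (s.symm : W' →+* W') := by
      rw [h1]
      exact ValuationSubring.mem_top _
    rw [ValuationSubring.mem_comap] at h2
    simpa using h2
  const_mem := by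
    intro c
    rw [ValuationSubring.mem_comap]
    have h1 : (s.symm : W' →+* W') (algebraMap F W' c) = algebraMap F W' c := by
      rw [IsScalarTower.algebraMap_apply F W W']
      exact s.symm.commutes _
    rw [h1]
    exact Q.const_mem c

theorem mv_mvP (s : W' ≃ₐ[W] W') (Q : Plc F W') : Mv s.toRingEquiv Q (mvP s Q) := by
  intro z
  change z ∈ Q.ring ↔ s z ∈ Q.ring.comap (s.symm : W' →+* W')
  rw [ValuationSubring.mem_comap]
  simp

theorem over_mvP (s : W' ≃ₐ[W] W') {P : Plc F W} {Q : Plc F W'} (h : Over P Q) :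
    Over P (mvP s Q) := by
  unfold Over at h ⊢
  rw [h]
  ext x
  simp only [mvP, ValuationSubring.mem_comap]
  have h1 : (s.symm : W' →+* W') (algebraMap W W' x) = algebraMap W W' x := s.symm.commutes x
  rw [h1]

theorem mv_of_eq {s t : W' ≃ₐ[W] W'} {Q : Plc F W'} (h : mvP s Q = mvP t Q) :
    Mv (t⁻¹ * s).toRingEquiv Q Q := by
  intro z
  have h1 := mv_mvP s Q z
  have h2 := mv_mvP t Q (t.symm (s z))
  have e1 : s.toRingEquiv z = s z := rfl
  have e2 : t.toRingEquiv (t.symm (s z)) = s z := t.apply_symm_apply _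
  have e3 : (t⁻¹ * s).toRingEquiv z = t.symm (s z) := rfl
  rw [e1] at h1
  rw [e2] at h2
  rw [e3, h1, h2, h]

omit [IsScalarTower F W W'] in
theorem over_unique {P P' : Plc F W} {Q : Plc F W'} (h : Over P Q) (h' : Over P' Q) : P = P' := by
  apply Plc.ext
  rw [h, h']

theorem s_const' (s : W' ≃ₐ[W] W') (c : F) : s (algebraMap F W' c) = algebraMap F W' c := by
  rw [IsScalarTower.algebraMap_apply F W W']
  exact s.commutes _

end Tower

theorem eq_of_h' {W : Type v} {W' : Type w} [Field W] [Field W'] [Algebra W W'] {h : W'}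
    (hadj : Algebra.adjoin W {h} = ⊤) {s t : W' ≃ₐ[W] W'} (hst : s h = t h) : s = t := by
  have h1 : (s : W' →ₐ[W] W') = (t : W' →ₐ[W] W') := by
    refine AlgHom.ext_of_adjoin_eq_top hadj ?_
    rintro x rfl
    exact hst
  ext x
  exact DFunLike.congr_fun h1 x

section Gal

variable {F : Type u} {W : Type v} {W' : Type w} [Field F] [IsAlgClosed F] [Field W] [Algebra F W]
  [Field W'] [Algebra F W'] [Algebra W W'] [IsScalarTower F W W'] {n : ℕ} {h : W'} {g : W}

open Polynomial in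
theorem isIntegral_h (hn : (n : F) ≠ 0) (hh : h ^ n = algebraMap W W' g) : IsIntegral W h := by
  have hn0 : n ≠ 0 := by
    rintro rfl
    simp at hn
  exact ⟨X ^ n - C g, monic_X_pow_sub_C g hn0, by simp [hh]⟩

theorem adjoin_top (hn : (n : F) ≠ 0) (hh : h ^ n = algebraMap W W' g)
    (htop : IntermediateField.adjoin W {h} = ⊤) : Algebra.adjoin W {h} = ⊤ := by
  have h1 := IntermediateField.adjoin_simple_toSubalgebra_of_isAlgebraic
    (isIntegral_h hn hh).isAlgebraic
  rw [← h1, htop]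
  rfl

open Polynomial in
theorem finite_gal (hn : (n : F) ≠ 0) (hg : g ≠ 0) (hh : h ^ n = algebraMap W W' g)
    (htop : IntermediateField.adjoin W {h} = ⊤) : FiniteDimensional W W' ∧ IsGalois W W' := by
  have hn0 : n ≠ 0 := by
    rintro rfl
    simp at hn
  have hfin : FiniteDimensional W W' := by
    have h1 := IntermediateField.adjoin.finiteDimensional (isIntegral_h hn hh)
    rw [htop] at h1
    exact LinearEquiv.finiteDimensional (IntermediateField.topEquiv (F := W) (E := W')).toLinearEquiv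
  refine ⟨hfin, ?_⟩
  have : NeZero (n : F) := ⟨hn⟩
  obtain ⟨ζ, hζ⟩ := HasEnoughRootsOfUnity.exists_primitiveRoot F n
  have hζ' := hζ.map_of_injective (algebraMap F W').injective
  have hnW : (n : W) ≠ 0 := by
    have h1 : (n : W) = algebraMap F W n := by simp
    rw [h1]
    exact (map_ne_zero_iff _ (algebraMap F W).injective).2 hn
  have hsp : (X ^ n - C g : W[X]).IsSplittingField W W' := by
    constructor
    · rw [Polynomial.map_sub, Polynomial.map_pow, Polynomial.map_C, Polynomial.map_X]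
      exact X_pow_sub_C_splits_of_isPrimitiveRoot hζ' hh
    · rw [eq_top_iff, ← adjoin_top hn hh htop]
      apply Algebra.adjoin_mono
      rw [Set.singleton_subset_iff, mem_rootSet_of_ne (X_pow_sub_C_ne_zero
        (Nat.pos_of_ne_zero hn0) g)]
      simp [hh]
  exact IsGalois.of_separable_splitting_field (p := X ^ n - C g) (separable_X_pow_sub_C g hnW hg)

/-- The roots of unity are constants. -/
theorem exists_const (hn : (n : F) ≠ 0) {y : W'} (hy : y ^ n = 1) :
    ∃ z : F, z ^ n = 1 ∧ algebraMap F W' z = y := by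
  have hn0 : n ≠ 0 := by
    rintro rfl
    simp at hn
  have : NeZero (n : F) := ⟨hn⟩
  have : NeZero n := ⟨hn0⟩
  obtain ⟨ζ, hζ⟩ := HasEnoughRootsOfUnity.exists_primitiveRoot F n
  have hζ' := hζ.map_of_injective (algebraMap F W').injective
  obtain ⟨i, -, hi⟩ := hζ'.eq_pow_of_pow_eq_one hy
  refine ⟨ζ ^ i, ?_, ?_⟩
  · rw [← pow_mul, mul_comm, pow_mul, hζ.pow_eq_one, one_pow]
  · rw [map_pow, hi]

theorem exists_char (hn : (n : F) ≠ 0) (h0 : h ≠ 0) (hh : h ^ n = algebraMap W W' g)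
    (s : W' ≃ₐ[W] W') : ∃ z : F, s h = algebraMap F W' z * h := by
  have h1 : (s h / h) ^ n = 1 := by
    rw [div_pow, ← map_pow, hh, AlgEquiv.commutes, ← hh]
    exact div_self (pow_ne_zero _ h0)
  obtain ⟨z, -, hz⟩ := exists_const hn h1
  exact ⟨z, by rw [hz, div_mul_cancel₀ _ h0]⟩

/-- The decomposition groups are trivial. -/
theorem stab_trivial (hO : OrdF F W) (hO' : OrdF F W')
    (hR : ∀ (Q : Plc F W') (x : W'), x ∈ Q.ring →
      ∃ c : F, Q.ring.valuation (x - algebraMap F W' c) < 1)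
    (hn : (n : F) ≠ 0) (hg : g ∈ Dn F n) (hh : h ^ n = algebraMap W W' g)
    (hadj : Algebra.adjoin W {h} = ⊤) {P : Plc F W} {Q : Plc F W'} {e : ℕ}
    (he : ∀ f : W, f ≠ 0 → ord Q (algebraMap W W' f) = e * ord P f)
    {s : W' ≃ₐ[W] W'} (hs : Mv s.toRingEquiv Q Q) : s = 1 := by
  have hn0 : n ≠ 0 := by
    rintro rfl
    simp at hn
  have hg0 : g ≠ 0 := hg.1
  have hg0' : algebraMap W W' g ≠ 0 := (map_ne_zero_iff _ (algebraMap W W').injective).2 hg0
  have h0 : h ≠ 0 := by
    rintro rfl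
    rw [zero_pow hn0] at hh
    exact hg0' hh.symm
  obtain ⟨z, hz⟩ := exists_char hn h0 hh s
  suffices h1 : z = 1 by
    refine eq_of_h' hadj ?_
    rw [hz, h1, map_one, one_mul]
    rfl
  obtain ⟨k, hk⟩ := hg.2 P
  obtain ⟨u, hu0, hu⟩ := hO.unif P
  have hr0 : u ^ k ≠ 0 := zpow_ne_zero _ hu0
  have hr : ord P (u ^ k) = k := by rw [ord_zpow hO P hu0, hu, mul_one]
  set r := u ^ k with hrdef
  have hr0' : algebraMap W W' r ≠ 0 := (map_ne_zero_iff _ (algebraMap W W').injective).2 hr0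
  set θ := h / algebraMap W W' r with hθ
  have hθ0 : θ ≠ 0 := div_ne_zero h0 hr0'
  have hθn : θ ^ n = algebraMap W W' (g / r ^ n) := by
    rw [hθ, div_pow, hh, map_div₀, map_pow]
  have hθord : ord Q θ = 0 := by
    have h1 := ord_pow hO' Q hθ0 n
    rw [hθn, he _ (div_ne_zero hg0 (pow_ne_zero _ hr0)), ord_div hO P hg0 (pow_ne_zero _ hr0),
      ord_pow hO P hr0, hr, hk, sub_self, mul_zero] at h1
    rcases mul_eq_zero.1 h1.symm with h2 | h2
    · exact absurd (by exact_mod_cast h2) hn0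
    · exact h2
  have hsθ : s θ = algebraMap F W' z * θ := by
    rw [hθ, map_div₀, hz, AlgEquiv.commutes]
    ring
  obtain ⟨c, hc⟩ := hR Q θ ((hO'.mem Q θ hθ0).2 hθord.ge)
  have hc0 : c ≠ 0 := by
    rintro rfl
    rw [map_zero, sub_zero, hO'.lt Q θ hθ0] at hc
    omega
  have hsc : Q.ring.valuation (s (θ - algebraMap F W' c)) < 1 := by
    by_cases h1 : θ - algebraMap F W' c = 0
    · rw [h1, map_zero, map_zero]
      exact zero_lt_one
    · have h2 : s (θ - algebraMap F W' c) ≠ 0 := (map_ne_zero_iff s s.injective).2 h1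
      rw [hO'.lt Q _ h2]
      have h3 := ord_mv hO' hO' s.toRingEquiv hs h1
      have h4 : s.toRingEquiv (θ - algebraMap F W' c) = s (θ - algebraMap F W' c) := rfl
      rw [h4] at h3
      rw [h3]
      exact (hO'.lt Q _ h1).1 hc
  rw [map_sub, hsθ, s_const'] at hsc
  have h5 := val_lt_sub hsc (val_lt_mul (Q.const_mem z) hc)
  have h6 : algebraMap F W' z * θ - algebraMap F W' c -
      algebraMap F W' z * (θ - algebraMap F W' c) = algebraMap F W' ((z - 1) * c) := by
    rw [map_mul, map_sub, map_one]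
    ring
  rw [h6] at h5
  rcases mul_eq_zero.1 (const_eq_zero h5) with h7 | h7
  · exact sub_eq_zero.1 h7
  · exact absurd h7 hc0

/-- All ramification indices are one. -/
theorem unram [FiniteDimensional W W'] [IsGalois W W'] (hO : OrdF F W) (hO' : OrdF F W')
    (hR : ∀ (Q : Plc F W') (x : W'), x ∈ Q.ring →
      ∃ c : F, Q.ring.valuation (x - algebraMap F W' c) < 1)
    (hn : (n : F) ≠ 0) (hg : g ∈ Dn F n) (hh : h ^ n = algebraMap W W' g)
    (hadj : Algebra.adjoin W {h} = ⊤) (e : Plc F W' → ℕ) (he1 : ∀ Q, 1 ≤ e Q)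
    (he2 : ∀ (P : Plc F W) (Q : Plc F W'), Over P Q → ∀ f : W, f ≠ 0 →
        ord Q (algebraMap W W' f) = e Q * ord P f)
    (he3 : ∀ P : Plc F W, {Q : Plc F W' | Over P Q}.Finite ∧
        ∑ᶠ (Q : Plc F W') (_ : Over P Q), e Q = Module.finrank W W')
    {P : Plc F W} {Q : Plc F W'} (hPQ : Over P Q) : e Q = 1 := by
  classical
  obtain ⟨hfin, hsum⟩ := he3 P
  have hsum' : ∑ Q ∈ hfin.toFinset, e Q = Module.finrank W W' := by
    rw [← hsum]
    exact (finsum_mem_eq_finite_toFinset_sum e hfin).symm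
  have hcard : Module.finrank W W' ≤ hfin.toFinset.card := by
    rw [← IsGalois.card_aut_eq_finrank, Nat.card_eq_fintype_card, ← Finset.card_univ]
    refine Finset.card_le_card_of_injOn (fun s => mvP s Q) ?_ ?_
    · intro s _
      rw [Finset.mem_coe, Set.Finite.mem_toFinset]
      exact over_mvP s hPQ
    · intro s _ t _ hst
      have h1 := stab_trivial hO hO' hR hn hg hh hadj (he2 P Q hPQ) (mv_of_eq hst)
      exact (inv_mul_eq_one.1 h1).symm
  by_contra hne
  have h2 : 1 < e Q := lt_of_le_of_ne (he1 Q) (Ne.symm hne)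
  have h3 : ∑ Q ∈ hfin.toFinset, 1 < ∑ Q ∈ hfin.toFinset, e Q :=
    Finset.sum_lt_sum (fun Q _ => he1 Q) ⟨Q, hfin.mem_toFinset.2 hPQ, h2⟩
  rw [Finset.sum_const, smul_eq_mul, mul_one, hsum'] at h3
  omega

end Gal

section Proj

variable {F : Type u} {W : Type v} {W' : Type w} [Field F] [Field W] [Algebra F W]
  [Field W'] [Algebra F W'] [Algebra W W'] [IsScalarTower F W W'] {h : W'}

/-- The eigenspace decomposition of an element, for a cyclic Kummer extension. -/
theorem exists_proj [FiniteDimensional W W'] [IsGalois W W'] (h0 : h ≠ 0)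
    (hadj : Algebra.adjoin W {h} = ⊤) (hm : (Module.finrank W W' : F) ≠ 0)
    (χ : (W' ≃ₐ[W] W') → F) (hχ : ∀ s : W' ≃ₐ[W] W', s h = algebraMap F W' (χ s) * h)
    (V : Submodule F W') (hV : ∀ s : W' ≃ₐ[W] W', ∀ x ∈ V, s x ∈ V) {x : W'} (hx : x ∈ V) :
    ∃ y : Fin (Module.finrank W W') → W,
      (∀ i : Fin (Module.finrank W W'), h ^ (i : ℕ) * algebraMap W W' (y i) ∈ V) ∧
      x = ∑ i : Fin (Module.finrank W W'), h ^ (i : ℕ) * algebraMap W W' (y i) := by
  classical
  set m := Module.finrank W W' with hmdef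
  have hcard : Fintype.card (W' ≃ₐ[W] W') = m := by
    rw [← Nat.card_eq_fintype_card, IsGalois.card_aut_eq_finrank]
  have hχ0 : ∀ s, χ s ≠ 0 := by
    intro s h1
    have h2 := hχ s
    rw [h1, map_zero, zero_mul] at h2
    exact h0 ((map_eq_zero_iff s s.injective).1 h2)
  have hχmul : ∀ s t, χ (s * t) = χ s * χ t := by
    intro s t
    apply (algebraMap F W').injective
    apply mul_right_cancel₀ h0
    rw [← hχ, AlgEquiv.mul_apply, hχ t, map_mul, s_const', hχ s, map_mul]
    ring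
  have hχ1 : χ 1 = 1 := by
    have h1 := hχmul 1 1
    rw [mul_one] at h1
    exact (mul_right_cancel₀ (hχ0 1) (by rw [one_mul]; exact h1)).symm
  have hχpow : ∀ s (k : ℕ), χ (s ^ k) = χ s ^ k := by
    intro s k
    induction k with
    | zero => rw [pow_zero, pow_zero, hχ1]
    | succ k ih => rw [pow_succ, hχmul, ih, pow_succ]
  have hχm : ∀ s, χ s ^ m = 1 := by
    intro s
    rw [← hχpow, ← hcard, pow_card_eq_one, hχ1]
  have hχinj : ∀ s, χ s = 1 → s = 1 := by
    intro s hs
    refine eq_of_h' hadj ?_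
    rw [hχ s, hs, map_one, one_mul]
    rfl
  -- the projections
  let π : ℕ → W' := fun i =>
    algebraMap F W' (m : F)⁻¹ * ∑ s : W' ≃ₐ[W] W', algebraMap F W' ((χ s)⁻¹ ^ i) * s x
  have hπV : ∀ i, π i ∈ V := by
    intro i
    have h1 : π i = (m : F)⁻¹ • ∑ s : W' ≃ₐ[W] W', ((χ s)⁻¹ ^ i) • s x := by
      simp only [π, Algebra.smul_def]
    rw [h1]
    exact V.smul_mem _ (V.sum_mem fun s _ => V.smul_mem _ (hV s x hx))
  have hπt : ∀ i (t : W' ≃ₐ[W] W'), t (π i) = algebraMap F W' (χ t ^ i) * π i := by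
    intro i t
    have h1 : t (π i) = algebraMap F W' (m : F)⁻¹ *
        ∑ s : W' ≃ₐ[W] W', algebraMap F W' ((χ s)⁻¹ ^ i) * (t * s) x := by
      simp only [π]
      rw [map_mul, s_const', map_sum]
      congr 1
      refine Finset.sum_congr rfl fun s _ => ?_
      rw [map_mul, s_const', AlgEquiv.mul_apply]
    have h2 : ∑ s : W' ≃ₐ[W] W', algebraMap F W' ((χ s)⁻¹ ^ i) * (t * s) x =
        ∑ s : W' ≃ₐ[W] W', algebraMap F W' ((χ (t⁻¹ * s))⁻¹ ^ i) * s x := by
      refine Fintype.sum_equiv (Equiv.mulLeft t) _ _ fun s => ?_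
      simp
    have h3 : ∀ s : W' ≃ₐ[W] W', algebraMap F W' ((χ (t⁻¹ * s))⁻¹ ^ i) * s x =
        algebraMap F W' (χ t ^ i) * (algebraMap F W' ((χ s)⁻¹ ^ i) * s x) := by
      intro s
      have h4 : χ t * χ t⁻¹ = 1 := by rw [← hχmul, mul_inv_cancel, hχ1]
      have h5 : (χ (t⁻¹ * s))⁻¹ = χ t * (χ s)⁻¹ := by
        rw [hχmul, mul_inv, ← eq_inv_of_mul_eq_one_left h4]
      rw [h5, mul_pow, map_mul]
      ring
    rw [h1, h2, Finset.sum_congr rfl fun s _ => h3 s, ← Finset.mul_sum]
    simp only [π]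
    ring
  have hπW : ∀ i, ∃ y : W, π i = h ^ i * algebraMap W W' y := by
    intro i
    have hi0 : h ^ i ≠ 0 := pow_ne_zero _ h0
    have h1 : π i / h ^ i ∈ Set.range (algebraMap W W') := by
      rw [IsGalois.mem_range_algebraMap_iff_fixed]
      intro t
      rw [map_div₀, map_pow, hπt, hχ t, mul_pow, ← map_pow]
      have h2 : algebraMap F W' (χ t ^ i) ≠ 0 :=
        (map_ne_zero_iff _ (algebraMap F W').injective).2 (pow_ne_zero _ (hχ0 t))
      rw [mul_div_mul_left _ _ h2]
    obtain ⟨y, hy⟩ := h1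
    exact ⟨y, by rw [hy, mul_div_cancel₀ _ hi0]⟩
  have hsum : ∑ i : Fin m, π i = x := by
    have h1 : ∀ s : W' ≃ₐ[W] W', ∑ i : Fin m, (χ s)⁻¹ ^ (i : ℕ) =
        if s = 1 then (m : F) else 0 := by
      intro s
      rw [Fin.sum_univ_eq_sum_range (fun i => (χ s)⁻¹ ^ i) m]
      split_ifs with hs
      · rw [hs, hχ1]
        simp
      · have h2 : (χ s)⁻¹ ≠ 1 := by
          intro h3
          exact hs (hχinj s (inv_eq_one.1 h3))
        rw [geom_sum_eq h2, inv_pow, hχm]
        simp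
    have h2 : ∑ i : Fin m, π i = algebraMap F W' (m : F)⁻¹ *
        ∑ s : W' ≃ₐ[W] W', algebraMap F W' (∑ i : Fin m, (χ s)⁻¹ ^ (i : ℕ)) * s x := by
      simp only [π]
      rw [← Finset.mul_sum, Finset.sum_comm]
      congr 1
      refine Finset.sum_congr rfl fun s _ => ?_
      rw [map_sum, Finset.sum_mul]
    rw [h2, Finset.sum_congr rfl fun s _ => by rw [h1 s]]
    rw [Finset.sum_eq_single (1 : W' ≃ₐ[W] W')]
    · rw [if_pos rfl, AlgEquiv.one_apply, ← mul_assoc, ← map_mul, inv_mul_cancel₀ hm, map_one,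
        one_mul]
    · intro s _ hs
      rw [if_neg hs, map_zero, zero_mul]
    · intro h3
      exact absurd (Finset.mem_univ _) h3
  choose y hy using hπW
  refine ⟨fun i => y i, fun i => ?_, ?_⟩
  · rw [← hy]
    exact hπV i
  · rw [← hsum]
    exact Finset.sum_congr rfl fun i _ => hy i

end Proj

section Genus

variable {F : Type u} {W : Type v} {W' : Type w} [Field F] [Field W] [Algebra F W]
  [Field W'] [Algebra F W'] [Algebra W W'] [IsScalarTower F W W'] {n : ℕ} {h : W'} {g : W}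

theorem dg_add (D E : Dv F W) : dg (D + E) = dg D + dg E := by
  unfold dg
  exact Finsupp.sum_add_index' (fun _ => rfl) (fun _ _ _ => rfl)

theorem dg_zero : dg (0 : Dv F W) = 0 := by
  unfold dg
  exact Finsupp.sum_zero_index

theorem dg_nsmul (k : ℕ) (D : Dv F W) : dg (k • D) = k * dg D := by
  induction k with
  | zero => simp [dg_zero]
  | succ k ih =>
    rw [succ_nsmul, dg_add, ih]
    push_cast
    ring

theorem dg_single (P : Plc F W) (k : ℤ) : dg (Finsupp.single P k : Dv F W) = k := by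
  unfold dg
  exact Finsupp.sum_single_index rfl

theorem dg_sum {ι : Type*} (s : Finset ι) (f : ι → Dv F W) :
    dg (∑ i ∈ s, f i) = ∑ i ∈ s, dg (f i) := by
  classical
  induction s using Finset.induction_on with
  | empty => simp [dg_zero]
  | insert a s ha ih => rw [Finset.sum_insert ha, Finset.sum_insert ha, dg_add, ih]

/-- Dimensions of a direct sum. -/
theorem finrank_sum {m : ℕ} (hli : LinearIndependent W fun i : Fin m => h ^ (i : ℕ))
    (V : Submodule F W') (L : Fin m → Submodule F W) (hL : ∀ i, FiniteDimensional F (L i))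
    (h1 : ∀ i : Fin m, ∀ y ∈ L i, h ^ (i : ℕ) * algebraMap W W' y ∈ V)
    (h2 : ∀ x ∈ V, ∃ y : Fin m → W, (∀ i, y i ∈ L i) ∧
      x = ∑ i : Fin m, h ^ (i : ℕ) * algebraMap W W' (y i)) :
    Module.finrank F V = ∑ i, Module.finrank F (L i) := by
  let T : ((i : Fin m) → L i) →ₗ[F] W' :=
    { toFun := fun y => ∑ i : Fin m, h ^ (i : ℕ) * algebraMap W W' (y i : W)
      map_add' := by
        intro y z
        rw [← Finset.sum_add_distrib]
        refine Finset.sum_congr rfl fun i _ => ?_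
        rw [Pi.add_apply, Submodule.coe_add, map_add, mul_add]
      map_smul' := by
        intro c y
        rw [RingHom.id_apply, Finset.smul_sum]
        refine Finset.sum_congr rfl fun i _ => ?_
        rw [Pi.smul_apply, Submodule.coe_smul, Algebra.smul_def, Algebra.smul_def, map_mul,
          ← IsScalarTower.algebraMap_apply F W W']
        ring }
  have hT : ∀ y, T y = ∑ i : Fin m, h ^ (i : ℕ) * algebraMap W W' (y i : W) := fun y => rfl
  have hinj : Function.Injective T := by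
    rw [← LinearMap.ker_eq_bot, LinearMap.ker_eq_bot']
    intro y hy
    rw [hT] at hy
    have h3 := Fintype.linearIndependent_iff.1 hli (fun i => (y i : W)) (by
      rw [← hy]
      refine Finset.sum_congr rfl fun i _ => ?_
      rw [Algebra.smul_def, mul_comm])
    funext i
    exact Subtype.ext (h3 i)
  have hrange : LinearMap.range T = V := by
    ext x
    rw [LinearMap.mem_range]
    constructor
    · rintro ⟨y, rfl⟩
      rw [hT]
      exact V.sum_mem fun i _ => h1 i _ (y i).2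
    · intro hx
      obtain ⟨y, hy, rfl⟩ := h2 x hx
      exact ⟨fun i => ⟨y i, hy i⟩, rfl⟩
  rw [← hrange, LinearMap.finrank_range_of_inj hinj, Module.finrank_pi_fintype]

theorem over_mvP_iff (s : W' ≃ₐ[W] W') {P : Plc F W} {Q : Plc F W'} :
    Over P (mvP s Q) ↔ Over P Q := by
  refine ⟨fun h1 => ?_, over_mvP s⟩
  have h2 := over_mvP s⁻¹ h1
  have h3 : mvP s⁻¹ (mvP s Q) = Q := by
    apply Plc.ext
    ext x
    simp only [mvP, ValuationSubring.mem_comap]
    have h4 : (s.symm : W' →+* W') ((s⁻¹.symm : W' →+* W') x) = x := s.symm_apply_apply x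
    rw [h4]
  rwa [h3] at h2

theorem mv_mvP_inv (s : W' ≃ₐ[W] W') (Q : Plc F W') : Mv s.toRingEquiv (mvP s⁻¹ Q) Q := by
  intro z
  change z ∈ Q.ring.comap (s⁻¹.symm : W' →+* W') ↔ s z ∈ Q.ring
  rw [ValuationSubring.mem_comap]
  exact Iff.rfl

theorem genus_formula [FiniteDimensional W W'] [IsGalois W W'] (hO : OrdF F W) (hO' : OrdF F W')
    (R : RRF F W) (R' : RRF F W') (h0 : h ≠ 0) (hadj : Algebra.adjoin W {h} = ⊤)
    (hli : LinearIndependent W fun i : Fin (Module.finrank W W') => h ^ (i : ℕ))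
    (hm : (Module.finrank W W' : F) ≠ 0)
    (χ : (W' ≃ₐ[W] W') → F) (hχ : ∀ s : W' ≃ₐ[W] W', s h = algebraMap F W' (χ s) * h)
    (g1 : W) (hg1 : h ^ (Module.finrank W W') = algebraMap W W' g1)
    (hun : ∀ (P : Plc F W) (Q : Plc F W'), Over P Q → ∀ f : W, f ≠ 0 →
      ord Q (algebraMap W W' f) = ord P f)
    (hcard : ∀ P : Plc F W, ∃ h1 : {Q : Plc F W' | Over P Q}.Finite,
      h1.toFinset.card = Module.finrank W W')
    (hbel : ∀ Q : Plc F W', ∃ P : Plc F W, Over P Q)
    {a b : ℕ} (ha : IsGenus F W a) (hb : IsGenus F W' b) :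
    (b : ℤ) - 1 = Module.finrank W W' * ((a : ℤ) - 1) := by
  classical
  set m := Module.finrank W W' with hmdef
  have hm0 : m ≠ 0 := by
    intro h1
    rw [h1] at hm
    simp at hm
  have hmpos : 0 < m := Nat.pos_of_ne_zero hm0
  have hinj : Function.Injective (algebraMap W W') := (algebraMap W W').injective
  have hg10 : g1 ≠ 0 := by
    rintro rfl
    rw [map_zero] at hg1
    exact pow_ne_zero _ h0 hg1
  -- the divisor of `h`
  have hab : ∀ P : Plc F W, ∃ Q : Plc F W', Over P Q := by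
    intro P
    obtain ⟨h1, h2⟩ := hcard P
    have h3 : 0 < h1.toFinset.card := by omega
    obtain ⟨Q, hQ⟩ := Finset.card_pos.1 h3
    exact ⟨Q, h1.mem_toFinset.1 hQ⟩
  have hordh : ∀ (P : Plc F W) (Q : Plc F W'), Over P Q → (m : ℤ) * ord Q h = ord P g1 := by
    intro P Q hPQ
    rw [← ord_pow hO' Q h0, hg1, hun P Q hPQ g1 hg10]
  let Δ : Dv F W := (dv g1 : Dv F W).mapRange (fun k => k / (m : ℤ)) (by simp)
  have hΔ : ∀ P : Plc F W, (m : ℤ) * Δ P = ord P g1 := by
    intro P
    obtain ⟨Q, hQ⟩ := hab P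
    have h1 := hordh P Q hQ
    have h2 : Δ P = ord P g1 / (m : ℤ) := by
      simp only [Δ, Finsupp.mapRange_apply]
      rw [R.dv_apply g1 P hg10]
    rw [h2, ← h1, Int.mul_ediv_cancel_left _ (by exact_mod_cast hm0)]
  have hΔh : ∀ (P : Plc F W) (Q : Plc F W'), Over P Q → ord Q h = Δ P := by
    intro P Q hPQ
    have h1 := hordh P Q hPQ
    rw [← hΔ P] at h1
    exact mul_left_cancel₀ (by exact_mod_cast hm0) h1
  have hdgΔ : dg Δ = 0 := by
    have h1 : m • Δ = (dv g1 : Dv F W) := by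
      ext P
      rw [Finsupp.smul_apply, R.dv_apply g1 P hg10, ← hΔ P]
      simp
    have h2 := dg_nsmul m Δ
    rw [h1, R.dg_dv g1 hg10] at h2
    rcases mul_eq_zero.1 h2.symm with h3 | h3
    · exact absurd (by exact_mod_cast h3) hm0
    · exact h3
  obtain ⟨-, d, hd⟩ := ha
  obtain ⟨-, d', hd'⟩ := hb
  have := R.ne
  obtain ⟨P0⟩ : Nonempty (Plc F W) := inferInstance
  obtain ⟨hS, hScard⟩ := hcard P0
  obtain ⟨N, hN1, hN2⟩ : ∃ N : ℕ, d ≤ (N : ℤ) ∧ d' ≤ (N : ℤ) :=
    ⟨max d.toNat d'.toNat, by omega, by omega⟩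
  let D : Dv F W := Finsupp.single P0 (N : ℤ)
  let D' : Dv F W' := ∑ Q ∈ hS.toFinset, Finsupp.single Q (N : ℤ)
  have hdgD : dg D = N := dg_single P0 _
  have hdgD' : dg D' = m * N := by
    simp only [D']
    rw [dg_sum, Finset.sum_congr rfl fun Q _ => dg_single Q _, Finset.sum_const, hScard,
      nsmul_eq_mul]
  have hD'app : ∀ Q : Plc F W', D' Q = if Over P0 Q then (N : ℤ) else 0 := by
    intro Q
    simp only [D']
    rw [Finsupp.finset_sum_apply]
    simp only [Finsupp.single_apply]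
    rw [Finset.sum_ite_eq']
    simp only [Set.Finite.mem_toFinset, Set.mem_setOf_eq]
  have hDD' : ∀ (P : Plc F W) (Q : Plc F W'), Over P Q → D' Q = D P := by
    intro P Q hPQ
    rw [hD'app]
    simp only [D, Finsupp.single_apply]
    by_cases h1 : P0 = P
    · rw [if_pos h1, if_pos (h1 ▸ hPQ)]
    · rw [if_neg h1, if_neg fun h2 => h1 (over_unique h2 hPQ)]
  have key : Module.finrank F (RR D') =
      ∑ i : Fin m, Module.finrank F (RR (D + (i : ℕ) • Δ)) := by
    refine finrank_sum hli (RR D') (fun i => RR (D + (i : ℕ) • Δ)) (fun i => R.fin _) ?_ ?_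
    · intro i y hy
      rw [R'.mem]
      intro hne Q
      have hy0 : y ≠ 0 := by
        rintro rfl
        simp at hne
      obtain ⟨P, hP⟩ := hbel Q
      have h1 := (R.mem _ _).1 hy hy0 P
      rw [hO'.mul Q _ _ (pow_ne_zero _ h0) ((map_ne_zero_iff _ hinj).2 hy0), ord_pow hO' Q h0,
        hun P Q hP y hy0, hΔh P Q hP, hDD' P Q hP]
      rw [Finsupp.add_apply, Finsupp.smul_apply, nsmul_eq_mul] at h1
      linarith
    · intro x hx
      obtain ⟨y, hy, hxy⟩ := exists_proj h0 hadj hm χ hχ (RR D') (by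
        intro s x hx
        rw [R'.mem]
        intro hne Q
        have hx0 : x ≠ 0 := by
          rintro rfl
          simp at hne
        have h1 := ord_mv hO' hO' s.toRingEquiv (mv_mvP_inv s Q) hx0
        have h2 := (R'.mem _ _).1 hx hx0 (mvP s⁻¹ Q)
        have h3 : D' (mvP s⁻¹ Q) = D' Q := by
          rw [hD'app, hD'app]
          simp only [over_mvP_iff]
        rw [h3] at h2
        have h4 : s.toRingEquiv x = s x := rfl
        rw [h4] at h1
        rw [h1]
        exact h2) hx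
      refine ⟨y, fun i => ?_, hxy⟩
      rw [R.mem]
      intro hy0 P
      obtain ⟨Q, hQ⟩ := hab P
      have hy0' : algebraMap W W' (y i) ≠ 0 := (map_ne_zero_iff _ hinj).2 hy0
      have h1 := (R'.mem _ _).1 (hy i) (mul_ne_zero (pow_ne_zero _ h0) hy0') Q
      rw [hO'.mul Q _ _ (pow_ne_zero _ h0) hy0', ord_pow hO' Q h0,
        hun P Q hQ _ hy0, hΔh P Q hQ, hDD' P Q hQ] at h1
      rw [Finsupp.add_apply, Finsupp.smul_apply, nsmul_eq_mul]
      linarith
  have h1 : ell D' = m * N + 1 - b := by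
    rw [hd' D', hdgD']
    rw [hdgD']
    have h2 : (N : ℤ) ≤ m * N := by
      have h3 : (1 : ℤ) ≤ m := by exact_mod_cast hmpos
      nlinarith [Int.natCast_nonneg N]
    linarith
  have h2 : ∀ i : Fin m, ell (D + (i : ℕ) • Δ) = N + 1 - a := by
    intro i
    have h3 : dg (D + (i : ℕ) • Δ) = N := by
      rw [dg_add, dg_nsmul, hdgΔ, hdgD]
      ring
    rw [hd _ (by rw [h3]; exact hN1), h3]
  have h3 : ell D' = ∑ i : Fin m, ell (D + (i : ℕ) • Δ) := by
    unfold ell
    rw [key]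
    push_cast
    rfl
  rw [h1, Finset.sum_congr rfl fun i _ => h2 i, Finset.sum_const, Finset.card_univ,
    Fintype.card_fin, nsmul_eq_mul] at h3
  linarith

end Genus

section Char

variable {F : Type u} {W : Type v} {W' : Type w} [Field F] [Field W] [Algebra F W]
  [Field W'] [Algebra F W'] [Algebra W W'] [IsScalarTower F W W'] {h : W'}

theorem char_pow (χ : (W' ≃ₐ[W] W') → F) (hχ : ∀ s : W' ≃ₐ[W] W', s h = algebraMap F W' (χ s) * h)
    (s : W' ≃ₐ[W] W') (k : ℕ) : (s ^ k) h = algebraMap F W' (χ s ^ k) * h := by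
  induction k with
  | zero => simp
  | succ k ih =>
    rw [pow_succ, AlgEquiv.mul_apply, hχ s, map_mul, s_const', ih, pow_succ, map_mul]
    ring

theorem char_pow_eq_one (h0 : h ≠ 0) (χ : (W' ≃ₐ[W] W') → F)
    (hχ : ∀ s : W' ≃ₐ[W] W', s h = algebraMap F W' (χ s) * h) {s : W' ≃ₐ[W] W'} {k : ℕ}
    (hs : s ^ k = 1) : χ s ^ k = 1 := by
  have h1 := char_pow χ hχ s k
  rw [hs, AlgEquiv.one_apply] at h1
  apply (algebraMap F W').injective
  rw [map_one]
  exact mul_right_cancel₀ h0 (by rw [one_mul]; exact h1.symm)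

theorem exists_g1 [FiniteDimensional W W'] [IsGalois W W'] (h0 : h ≠ 0)
    (χ : (W' ≃ₐ[W] W') → F) (hχ : ∀ s : W' ≃ₐ[W] W', s h = algebraMap F W' (χ s) * h) :
    ∃ g1 : W, h ^ (Module.finrank W W') = algebraMap W W' g1 := by
  have h1 : h ^ (Module.finrank W W') ∈ Set.range (algebraMap W W') := by
    rw [IsGalois.mem_range_algebraMap_iff_fixed]
    intro s
    have h2 : s ^ Module.finrank W W' = 1 := by
      rw [← IsGalois.card_aut_eq_finrank]
      exact pow_card_eq_one'
    rw [map_pow, hχ s, mul_pow, ← map_pow, char_pow_eq_one h0 χ hχ h2, map_one, one_mul]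
  obtain ⟨g1, hg1⟩ := h1
  exact ⟨g1, hg1.symm⟩

theorem finrank_ne_zero [FiniteDimensional W W'] [IsGalois W W'] {n : ℕ} {g : W}
    (hn : (n : F) ≠ 0) (h0 : h ≠ 0) (hh : h ^ n = algebraMap W W' g)
    (hadj : Algebra.adjoin W {h} = ⊤) (χ : (W' ≃ₐ[W] W') → F)
    (hχ : ∀ s : W' ≃ₐ[W] W', s h = algebraMap F W' (χ s) * h) :
    (Module.finrank W W' : F) ≠ 0 := by
  classical
  intro hm
  have hs : ∀ s : W' ≃ₐ[W] W', s ^ n = 1 := by
    intro s
    refine eq_of_h' hadj ?_
    rw [char_pow χ hχ s n, AlgEquiv.one_apply]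
    have h1 : s (h ^ n) = h ^ n := by rw [hh, AlgEquiv.commutes]
    rw [map_pow, hχ s, mul_pow, ← map_pow] at h1
    have h2 : algebraMap F W' (χ s ^ n) = 1 :=
      mul_right_cancel₀ (pow_ne_zero n h0) (by rw [one_mul]; exact h1)
    rw [h2, one_mul]
  obtain ⟨p, hp⟩ := CharP.exists F
  rw [CharP.cast_eq_zero_iff F p] at hm
  have hm0 : Module.finrank W W' ≠ 0 := Module.finrank_pos.ne'
  rcases CharP.char_is_prime_or_zero F p with hpp | hp0
  · have : Fact p.Prime := ⟨hpp⟩
    rw [← IsGalois.card_aut_eq_finrank, Nat.card_eq_fintype_card] at hm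
    obtain ⟨s, hsp⟩ := exists_prime_orderOf_dvd_card p hm
    apply hn
    rw [CharP.cast_eq_zero_iff F p, ← hsp]
    exact orderOf_dvd_of_pow_eq_one (hs s)
  · rw [hp0, Nat.zero_dvd] at hm
    exact hm0 hm

end Char

end Kum

/-- A12. Kummer extensions are unramified, and the formula for the genus. -/
theorem stKum (h1 : StOrd.{u, v}) (h1' : StOrd.{u, w}) (h2 : StResF.{u, w}) (h6 : StRRF.{u, v})
    (h6' : StRRF.{u, w}) (h10 : StOver.{u, v, w}) : StKum.{u, v, w} := by
  classical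
  intro F W W' _ _ _ _ _ _ _ _ n h g hFF hn hh hg htop
  obtain ⟨hfin, hgal⟩ := Kum.finite_gal hn hg.1 hh htop
  have hadj := Kum.adjoin_top hn hh htop
  obtain ⟨hFF', hbel, e, he1, he2, he3⟩ := h10 F W W' hFF
  have hO := h1 F W hFF
  have hO' := h1' F W' hFF'
  have hun1 : ∀ (P : Plc F W) (Q : Plc F W'), Over P Q → e Q = 1 := fun P Q hPQ =>
    Kum.unram hO hO' (h2 F W' hFF') hn hg hh hadj e he1 he2 he3 hPQ
  have hun : ∀ (P : Plc F W) (Q : Plc F W'), Over P Q → ∀ f : W, f ≠ 0 →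
      ord Q (algebraMap W W' f) = ord P f := by
    intro P Q hPQ f hf
    rw [he2 P Q hPQ f hf, hun1 P Q hPQ]
    simp
  refine ⟨hfin, hgal, hun, fun a b ha hb => ?_⟩
  have hn0 : n ≠ 0 := by
    rintro rfl
    simp at hn
  have h0 : h ≠ 0 := by
    rintro rfl
    rw [zero_pow hn0] at hh
    exact (map_ne_zero_iff _ (algebraMap W W').injective).2 hg.1 hh.symm
  choose χ hχ using Kum.exists_char hn h0 hh
  obtain ⟨g1, hg1⟩ := Kum.exists_g1 h0 χ hχ
  have hm := Kum.finrank_ne_zero hn h0 hh hadj χ hχ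
  have hli : LinearIndependent W fun i : Fin (Module.finrank W W') => h ^ (i : ℕ) := by
    rw [← (Field.primitive_element_iff_minpoly_natDegree_eq W h).1 htop]
    exact linearIndependent_pow h
  have hcard : ∀ P : Plc F W, ∃ h1 : {Q : Plc F W' | Over P Q}.Finite,
      h1.toFinset.card = Module.finrank W W' := by
    intro P
    obtain ⟨hf, hs⟩ := he3 P
    refine ⟨hf, ?_⟩
    rw [← hs]
    have h3 : ∑ᶠ (Q : Plc F W') (_ : Over P Q), e Q = ∑ Q ∈ hf.toFinset, e Q :=
      finsum_mem_eq_finite_toFinset_sum e hf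
    rw [h3, Finset.sum_congr rfl fun Q hQ => hun1 P Q (hf.mem_toFinset.1 hQ), Finset.sum_const,
      smul_eq_mul, mul_one]
  exact Kum.genus_formula hO hO' (h6 F W hFF) (h6' F W' hFF') h0 hadj hli hm χ hχ g1 hg1 hun
    hcard hbel ha hb

end Pool.Agent.Lib.MP_c385f6_ag.TPG
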