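import Pool.Agent.Lib.MP_c385f6_ag.TPG.StA

/-!
Project TPG, part A, module Ord: the places of a function field of one variable are discrete.
-/

set_option autoImplicit false

namespace Pool.Agent.Lib.MP_c385f6_ag.TPG

open Polynomial

universe u v

namespace AOrd

section Fin

variable {F : Type u} {W : Type v} [Field F] [Field W] [Algebra F W]

open scoped IntermediateField.algebraAdjoinAdjoin in
theorem trdeg_le_one (hW : FF F W) : Algebra.trdeg F W ≤ 1 := by
  obtain ⟨t, _, hfin⟩ := hW
  have h1 : Algebra.IsAlgebraic (Algebra.adjoin F {t}) W :=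
    (IsFractionRing.comap_isAlgebraic_iff (A := Algebra.adjoin F {t})
      (K := IntermediateField.adjoin F {t}) (C := W)).2 inferInstance
  have h2 := Algebra.IsAlgebraic.trdeg_le_cardinalMk F ({t} : Set W)
  rwa [Cardinal.mk_singleton] at h2

/-- `W` is a finite extension of `F(x)` for every transcendental `x`. -/
theorem finite_adjoin (hW : FF F W) {x : W} (hx : Transcendental F x) :
    FiniteDimensional (IntermediateField.adjoin F {x}) W := by
  have h1 := trdeg_le_one hW
  obtain ⟨t, _, hfin⟩ := hW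
  have h2 : AlgebraicIndependent F (fun _ : PUnit.{v + 1} => x) :=
    algebraicIndependent_unique_type_iff.2 hx
  have h3 : IsTranscendenceBasis F (fun _ : PUnit.{v + 1} => x) :=
    h2.isTranscendenceBasis_of_trdeg_le_of_finite (by simpa using h1)
  have h4 := h3.isAlgebraic_field
  rw [Set.range_const] at h4
  have h5 : Algebra.EssFiniteType F (IntermediateField.adjoin F {t}) :=
    IntermediateField.essFiniteType_iff.2 ⟨{t}, by simp⟩
  have h6 : Algebra.EssFiniteType F W :=
    Algebra.EssFiniteType.comp F (IntermediateField.adjoin F {t}) W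
  have h7 : Algebra.EssFiniteType (IntermediateField.adjoin F {x}) W :=
    Algebra.EssFiniteType.of_comp F _ W
  exact Algebra.finite_of_essFiniteType_of_isAlgebraic

end Fin

section Lin

variable {F : Type u} {V : Type v} [Field F] [CommRing V] [IsDomain V] [Algebra F V]

/-- Elements which are linearly independent modulo `x` are linearly independent over `F[x]`. -/
theorem lin_aux {ι : Type*} [Fintype ι] {x : V} (hx : x ≠ 0) (y : ι → V)
    (hy : LinearIndependent F (fun i => Ideal.Quotient.mk (Ideal.span {x}) (y i))) (N : ℕ) :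
    ∀ p : ι → F[X], ∑ i, aeval x (p i) * y i = 0 → ∀ i, X ^ N ∣ p i := by
  induction N with
  | zero => intro p _ i; simp
  | succ N ih =>
    intro p hp
    have h1 : ∀ i, (p i).coeff 0 = 0 := by
      have h2 := congrArg (Ideal.Quotient.mk (Ideal.span {x})) hp
      rw [map_sum, map_zero] at h2
      have h3 : ∀ i, Ideal.Quotient.mk (Ideal.span {x}) (aeval x (p i) * y i) =
          (p i).coeff 0 • Ideal.Quotient.mk (Ideal.span {x}) (y i) := by
        intro i
        obtain ⟨q, hq⟩ := X_dvd_sub_C (p := p i)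
        have h4 : aeval x (p i) = x * aeval x q + algebraMap F V ((p i).coeff 0) := by
          have h5 := congrArg (aeval x) hq
          rw [map_sub, map_mul, aeval_X, aeval_C, sub_eq_iff_eq_add] at h5
          exact h5
        rw [h4, map_mul, map_add, map_mul, Ideal.Quotient.mk_singleton_self, zero_mul, zero_add,
          Algebra.smul_def]
        rfl
      rw [Finset.sum_congr rfl fun i _ => h3 i] at h2
      exact Fintype.linearIndependent_iff.1 hy _ h2
    have h2 : ∀ i, ∃ q, p i = X * q := fun i => X_dvd_iff.2 (h1 i)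
    choose q hq using h2
    have h3 : ∑ i, aeval x (q i) * y i = 0 := by
      have h4 : x * ∑ i, aeval x (q i) * y i = 0 := by
        rw [← hp, Finset.mul_sum]
        refine Finset.sum_congr rfl fun i _ => ?_
        rw [hq i, map_mul, aeval_X, mul_assoc]
      exact (mul_eq_zero.1 h4).resolve_left hx
    intro i
    rw [hq i, pow_succ']
    exact mul_dvd_mul_left X (ih q h3 i)

theorem lin_aux' {ι : Type*} [Fintype ι] {x : V} (hx : x ≠ 0) (y : ι → V)
    (hy : LinearIndependent F (fun i => Ideal.Quotient.mk (Ideal.span {x}) (y i)))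
    (p : ι → F[X]) (hp : ∑ i, aeval x (p i) * y i = 0) (i : ι) : p i = 0 := by
  by_contra hne
  have h1 := natDegree_le_of_dvd (lin_aux hx y hy ((p i).natDegree + 1) p hp i) hne
  rw [natDegree_X_pow] at h1
  omega

end Lin

section Places

variable {F : Type u} {W : Type v} [Field F] [Field W] [Algebra F W]

/-- the algebra structure on a valuation ring containing the constants -/
@[reducible] def algV (P : Plc F W) : Algebra F P.ring :=
  ((algebraMap F W).codRestrict P.ring P.const_mem).toAlgebra

open scoped IntermediateField.algebraAdjoinAdjoin in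
theorem finite_quot (hW : FF F W) (P : Plc F W) (x : P.ring) (hx : Transcendental F (x : W)) :
    letI := algV P
    Module.Finite F (P.ring ⧸ (Ideal.span {x} : Ideal P.ring)) := by
  let _ := algV P
  have hst : IsScalarTower F P.ring W := IsScalarTower.of_algebraMap_eq (fun _ => rfl)
  have hfin := finite_adjoin hW hx
  have hx0 : x ≠ 0 := by
    rintro rfl
    exact hx (isAlgebraic_zero)
  have key : Module.rank F (P.ring ⧸ (Ideal.span {x} : Ideal P.ring)) ≤
      (Module.finrank (IntermediateField.adjoin F {(x : W)}) W : ℕ) := by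
    refine rank_le fun s hs => ?_
    have hsur : ∀ i : s, ∃ y : P.ring, Ideal.Quotient.mk (Ideal.span {x}) y = (i : _) :=
      fun i => Ideal.Quotient.mk_surjective _
    choose y hy using hsur
    have hli : LinearIndependent (IntermediateField.adjoin F {(x : W)})
        (fun i : s => ((y i : P.ring) : W)) := by
      rw [← LinearIndependent.iff_fractionRing (Algebra.adjoin F {(x : W)}),
        Fintype.linearIndependent_iff]
      intro g hg
      have h1 : ∀ i : s, ∃ p : F[X], aeval (x : W) p = (g i : W) := by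
        intro i
        have h2 : ((g i : Algebra.adjoin F {(x : W)}) : W) ∈ Algebra.adjoin F {(x : W)} := (g i).2
        generalize ((g i : Algebra.adjoin F {(x : W)}) : W) = z at h2 ⊢
        rw [Algebra.adjoin_singleton_eq_range_aeval] at h2
        exact h2
      choose p hp using h1
      have h3 : ∑ i, aeval x (p i) * y i = 0 := by
        apply Subtype.val_injective
        rw [AddSubmonoidClass.coe_finsetSum]
        change _ = (0 : W)
        rw [← hg]
        refine Finset.sum_congr rfl fun i _ => ?_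
        change ((aeval x (p i) : P.ring) : W) * (y i : W) = (g i : W) * (y i : W)
        rw [← hp i]
        congr 1
        exact (aeval_algebraMap_apply W x (p i)).symm
      intro i
      have h4 := lin_aux' hx0 y (by
        have e : (fun i => Ideal.Quotient.mk (Ideal.span {x}) (y i)) =
            fun i : s => (i : P.ring ⧸ (Ideal.span {x} : Ideal P.ring)) := funext hy
        rw [e]
        exact hs) p h3 i
      apply Subtype.val_injective
      rw [← hp i, h4, map_zero]
      rfl
    have h5 := hli.fintype_card_le_finrank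
    simpa using h5
  exact Module.rank_lt_aleph0_iff.1 (key.trans_lt (Cardinal.natCast_lt_aleph0))

/-- elements of the maximal ideal are transcendental -/
theorem transc (P : Plc F W) {x : W} (hx : x ≠ 0) (hv : P.ring.valuation x < 1) :
    Transcendental F x := by
  intro halg
  let _ := algV P
  have hst : IsScalarTower F P.ring W := IsScalarTower.of_algebraMap_eq (fun _ => rfl)
  have h1 : IsAlgebraic F x⁻¹ := halg.inv
  have h2 : IsIntegral P.ring x⁻¹ := (isAlgebraic_iff_isIntegral.1 h1).tower_top
  obtain ⟨y, hy⟩ := IsIntegrallyClosed.isIntegral_iff.1 h2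
  have h3 : x⁻¹ ∈ P.ring := hy ▸ y.2
  have h4 := (P.ring.valuation_le_one_iff _).2 h3
  rw [map_inv₀] at h4
  have h5 : P.ring.valuation x ≠ 0 := (Valuation.ne_zero_iff _).2 hx
  exact absurd h4 (not_le.2 ((one_lt_inv₀ (zero_lt_iff.2 h5)).2 hv))

/-- places are Noetherian -/
theorem noeth (hW : FF F W) (P : Plc F W) : IsNoetherianRing P.ring := by
  let _ := algV P
  rw [isNoetherianRing_iff_ideal_fg]
  intro I
  by_cases hI : I = ⊥
  · rw [hI]; exact Submodule.fg_bot
  obtain ⟨z, hzI, hz⟩ := Submodule.exists_mem_ne_zero_of_ne_bot hI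
  by_cases hu : IsUnit z
  · rw [Ideal.eq_top_of_isUnit_mem I hzI hu]
    exact ⟨{1}, by simp⟩
  have hv : P.ring.valuation (z : W) < 1 :=
    (P.ring.valuation_lt_one_iff z).1 ((IsLocalRing.mem_maximalIdeal z).2 hu)
  have hz' : (z : W) ≠ 0 := fun h => hz (Subtype.ext h)
  have h1 := finite_quot hW P z (transc P hz' hv)
  have h2 : IsNoetherianRing (P.ring ⧸ (Ideal.span {z} : Ideal P.ring)) :=
    isNoetherian_of_tower F inferInstance
  refine Ideal.fg_of_fg_map_of_fg_inf_ker_of_surjective
    (f := Ideal.Quotient.mk (Ideal.span {z})) (IsNoetherian.noetherian _) ?_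
    Ideal.Quotient.mk_surjective
  rw [Ideal.mk_ker, inf_eq_right.2 ((Ideal.span_singleton_le_iff_mem I).2 hzI)]
  exact ⟨{z}, by simp⟩

theorem not_isField (P : Plc F W) : ¬ IsField P.ring := by
  intro h
  apply P.ne_top
  rw [eq_top_iff]
  intro y _
  by_contra hy
  have hy0 : y ≠ 0 := fun h0 => hy (h0 ▸ P.ring.zero_mem)
  have h1 : y⁻¹ ∈ P.ring := (P.ring.mem_or_inv_mem y).resolve_left hy
  have h2 : (⟨y⁻¹, h1⟩ : P.ring) ≠ 0 := fun h0 => inv_ne_zero hy0 (congrArg Subtype.val h0)
  obtain ⟨w, hw⟩ := h.mul_inv_cancel h2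
  have h3 : y⁻¹ * (w : W) = 1 := congrArg Subtype.val hw
  have h4 : (w : W) = y := by
    field_simp at h3
    exact h3
  exact hy (h4 ▸ w.2)

theorem dvr (hW : FF F W) (P : Plc F W) : IsDiscreteValuationRing P.ring := by
  have := noeth hW P
  exact ((IsDiscreteValuationRing.TFAE P.ring (not_isField P)).out 0 1).2
    (inferInstance : ValuationRing P.ring)

/-- the value group is generated by the value of a uniformizer -/
theorem exists_unif (hW : FF F W) (P : Plc F W) : ∃ u : W, u ≠ 0 ∧ P.ring.valuation u < 1 ∧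
    (∀ y : W, P.ring.valuation y < 1 → P.ring.valuation y ≤ P.ring.valuation u) ∧
    ∀ x : W, x ≠ 0 → ∃ n : ℤ, P.ring.valuation x = P.ring.valuation u ^ n := by
  have := dvr hW P
  obtain ⟨ϖ, hϖ⟩ := IsDiscreteValuationRing.exists_irreducible P.ring
  have h0 : (ϖ : W) ≠ 0 := fun h => hϖ.ne_zero (Subtype.ext h)
  refine ⟨(ϖ : W), h0, ?_, ?_, ?_⟩
  · exact (P.ring.valuation_lt_one_iff ϖ).1 ((IsLocalRing.mem_maximalIdeal ϖ).2 hϖ.not_isUnit)
  · intro y hy
    have hyV : y ∈ P.ring := (P.ring.valuation_le_one_iff y).1 hy.le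
    have h1 : (⟨y, hyV⟩ : P.ring) ∈ IsLocalRing.maximalIdeal P.ring :=
      (P.ring.valuation_lt_one_iff ⟨y, hyV⟩).2 hy
    rw [hϖ.maximalIdeal_eq, Ideal.mem_span_singleton] at h1
    obtain ⟨a, ha⟩ := h1
    have h2 : y = (ϖ : W) * (a : W) := congrArg Subtype.val ha
    rw [h2, map_mul]
    exact mul_le_of_le_one_right' (P.ring.valuation_le_one a)
  · intro x hx
    obtain ⟨n, w, hw⟩ := IsDiscreteValuationRing.exists_units_eq_smul_zpow_of_irreducible
      (K := W) hϖ hx
    refine ⟨n, ?_⟩
    have h1 : x = ((w : P.ring) : W) * (ϖ : W) ^ n := hw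
    rw [h1, map_mul, P.ring.valuation_unit, one_mul, map_zpow₀]

/-- the order is the exponent -/
theorem ord_eq (hW : FF F W) (P : Plc F W) : ∃ u : W, u ≠ 0 ∧ P.ring.valuation u < 1 ∧
    ∀ (x : W) (n : ℤ), x ≠ 0 → (ord P x = n ↔ P.ring.valuation x = P.ring.valuation u ^ n) := by
  obtain ⟨u, hu0, hu1, hu2, hu3⟩ := exists_unif hW P
  refine ⟨u, hu0, hu1, ?_⟩
  have hv0 : P.ring.valuation u ≠ 0 := (Valuation.ne_zero_iff _).2 hu0
  have hinj : ∀ m n : ℤ, P.ring.valuation u ^ m = P.ring.valuation u ^ n → m = n := by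
    intro m n h
    exact zpow_right_injective₀ (zero_lt_iff.2 hv0) hu1.ne h
  have key : ∀ x : W, x ≠ 0 → P.ring.valuation x = P.ring.valuation u ^ (ord P x) := by
    intro x hx
    have hex : ∃ n : ℤ, ∃ u : W, u ≠ 0 ∧ P.ring.valuation u < 1 ∧
        (∀ y : W, P.ring.valuation y < 1 → P.ring.valuation y ≤ P.ring.valuation u) ∧
        P.ring.valuation x = P.ring.valuation u ^ n := by
      obtain ⟨n, hn⟩ := hu3 x hx
      exact ⟨n, u, hu0, hu1, hu2, hn⟩
    have h1 : ord P x = hex.choose := by
      unfold ord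
      rw [dif_pos hex]
    obtain ⟨w, hw0, hw1, hw2, hw3⟩ := hex.choose_spec
    rw [h1]
    refine hw3.trans ?_
    rw [le_antisymm (hu2 w hw1) (hw2 u hu1)]
  intro x n hx
  constructor
  · rintro rfl
    exact key x hx
  · intro h
    rw [key x hx] at h
    exact hinj _ _ h

end Places

end AOrd

open AOrd in
/-- **A1.** The places are discrete. -/
theorem stOrd : StOrd.{u, v} := by
  intro F W _ _ _ hW
  have zle : ∀ (P : Plc F W) {u : W}, u ≠ 0 → P.ring.valuation u < 1 → ∀ m n : ℤ,
      P.ring.valuation u ^ m ≤ P.ring.valuation u ^ n ↔ n ≤ m := by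
    intro P u hu0 hu1 m n
    exact zpow_le_zpow_iff_right_of_lt_one₀ (zero_lt_iff.2 ((Valuation.ne_zero_iff _).2 hu0)) hu1
  refine ⟨?_, ?_, ?_, ?_, ?_⟩
  · intro P x y hx hy
    obtain ⟨u, hu0, hu1, hu⟩ := ord_eq hW P
    rw [hu _ _ (mul_ne_zero hx hy), map_mul, (hu x _ hx).1 rfl, (hu y _ hy).1 rfl,
      ← zpow_add₀ ((Valuation.ne_zero_iff _).2 hu0)]
  · intro P x y hx hy hxy
    obtain ⟨u, hu0, hu1, hu⟩ := ord_eq hW P
    have h1 := P.ring.valuation.map_add x y
    rw [(hu x _ hx).1 rfl, (hu y _ hy).1 rfl, (hu _ _ hxy).1 rfl, le_max_iff,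
      zle P hu0 hu1, zle P hu0 hu1] at h1
    exact min_le_iff.2 h1
  · intro P x hx
    obtain ⟨u, hu0, hu1, hu⟩ := ord_eq hW P
    rw [← P.ring.valuation_le_one_iff, (hu x _ hx).1 rfl, ← zpow_zero (P.ring.valuation u),
      zle P hu0 hu1]
  · intro P x hx
    obtain ⟨u, hu0, hu1, hu⟩ := ord_eq hW P
    rw [(hu x _ hx).1 rfl, ← zpow_zero (P.ring.valuation u), ← not_le, zle P hu0 hu1, not_le]
  · intro P
    obtain ⟨u, hu0, hu1, hu⟩ := ord_eq hW P
    exact ⟨u, hu0, (hu u 1 hu0).2 (zpow_one _).symm⟩

end Pool.Agent.Lib.MP_c385f6_ag.TPG
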