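import Pool.Agent.Lib.MP_c385f6_ag.TPG.StA

/-!
Project TPG, part A, module A10: finite extensions of function fields, places above and below a
place, ramification indices and the fundamental equality.
-/

set_option autoImplicit false

namespace Pool.Agent.Lib.MP_c385f6_ag.TPG

universe u v w

namespace OverAux

section Ord

variable {F : Type u} {W : Type v} [Field F] [Field W] [Algebra F W]

/-- `ord` as a homomorphism. -/
noncomputable def ordHom (hO : OrdF F W) (P : Plc F W) : Wˣ →* Multiplicative ℤ where
  toFun x := Multiplicative.ofAdd (ord P (x : W))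
  map_one' := by
    have h := hO.mul P 1 1 one_ne_zero one_ne_zero
    rw [mul_one] at h
    have h0 : ord P (1 : W) = 0 := by omega
    rw [Units.val_one, h0]
    rfl
  map_mul' x y := by
    rw [Units.val_mul, hO.mul P _ _ x.ne_zero y.ne_zero]
    rfl

theorem ord_one (hO : OrdF F W) (P : Plc F W) : ord P (1 : W) = 0 := by
  have h := hO.mul P 1 1 one_ne_zero one_ne_zero
  rw [mul_one] at h
  omega

theorem ord_inv (hO : OrdF F W) (P : Plc F W) {x : W} (hx : x ≠ 0) :
    ord P x⁻¹ = - ord P x := by
  have h := hO.mul P x x⁻¹ hx (inv_ne_zero hx)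
  rw [mul_inv_cancel₀ hx, ord_one hO] at h
  omega

theorem ord_zpow (hO : OrdF F W) (P : Plc F W) {x : W} (hx : x ≠ 0) (n : ℤ) :
    ord P (x ^ n) = n * ord P x := by
  have h := map_zpow (ordHom hO P) (Units.mk0 x hx) n
  have h2 : Multiplicative.ofAdd (ord P ((Units.mk0 x hx ^ n : Wˣ) : W)) =
    (Multiplicative.ofAdd (ord P x)) ^ n := h
  rw [← ofAdd_zsmul, Units.val_zpow_eq_zpow_val, Units.val_mk0] at h2
  have h3 := Multiplicative.ofAdd.injective h2
  rw [h3, smul_eq_mul]

end Ord

section Ext

variable {F : Type u} {W : Type v} {W' : Type w} [Field F] [Field W] [Algebra F W]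
    [Field W'] [Algebra F W'] [Algebra W W'] [IsScalarTower F W W']

/-- the isomorphism of the field generated by `t` with the field generated by its image -/
noncomputable def adjEquiv (t : W) :
    IntermediateField.adjoin F {t} ≃+* IntermediateField.adjoin F {algebraMap W W' t} :=
  ((IntermediateField.adjoin F {t}).equivMap (IsScalarTower.toAlgHom F W W')).toRingEquiv.trans
    (IntermediateField.equivOfEq (by
      rw [IntermediateField.adjoin_map, Set.image_singleton]
      rfl)).toRingEquiv

theorem adjEquiv_comp (t : W) :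
    (algebraMap (IntermediateField.adjoin F {algebraMap W W' t}) W').comp
      (adjEquiv (F := F) (W' := W') t : IntermediateField.adjoin F {t} →+*
        IntermediateField.adjoin F {algebraMap W W' t}) =
      (algebraMap W W').comp (algebraMap (IntermediateField.adjoin F {t}) W) := by
  ext x
  rfl

theorem finite_adj (t : W) [FiniteDimensional W W']
    [FiniteDimensional (IntermediateField.adjoin F {t}) W] :
    FiniteDimensional (IntermediateField.adjoin F {algebraMap W W' t}) W' ∧
    Module.finrank (IntermediateField.adjoin F {algebraMap W W' t}) W' =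
      Module.finrank (IntermediateField.adjoin F {t}) W * Module.finrank W W' := by
  have : FiniteDimensional (IntermediateField.adjoin F {t}) W' :=
    FiniteDimensional.trans (IntermediateField.adjoin F {t}) W W'
  refine ⟨Module.Finite.of_equiv_equiv (adjEquiv (F := F) (W' := W') t) (RingEquiv.refl W') ?_, ?_⟩
  · rw [adjEquiv_comp]
    rfl
  · rw [Module.finrank_mul_finrank]
    refine (Algebra.finrank_eq_of_equiv_equiv (adjEquiv (F := F) (W' := W') t)
      (RingEquiv.refl W') ?_).symm
    exact adjEquiv_comp t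

omit [IsScalarTower F W W'] in
theorem over_unique {P P' : Plc F W} {Q : Plc F W'} (h : Over P Q) (h' : Over P' Q) : P = P' :=
  Plc.ext (h.trans h'.symm)

omit [IsScalarTower F W W'] in
theorem over_mem {P : Plc F W} {Q : Plc F W'} (h : Over P Q) (x : W) :
    x ∈ P.ring ↔ algebraMap W W' x ∈ Q.ring := by
  rw [h]
  rfl

/-- the place below -/
def below [FiniteDimensional W W'] (Q : Plc F W') : Plc F W where
  ring := Q.ring.comap (algebraMap W W')
  ne_top := by
    intro h
    apply Q.ne_top
    rw [eq_top_iff]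
    intro y _
    have hW : ∀ x : W, algebraMap W W' x ∈ Q.ring := by
      intro x
      have : x ∈ Q.ring.comap (algebraMap W W') := by
        rw [h]
        trivial
      exact this
    have hy : IsIntegral W y := IsIntegral.of_finite W y
    obtain ⟨p, hp, hpy⟩ := hy
    -- lift to the ring
    let f : W →+* Q.ring := (algebraMap W W').codRestrict Q.ring.toSubring hW
    have hy2 : IsIntegral Q.ring y := by
      refine ⟨p.map f, hp.map f, ?_⟩
      rw [Polynomial.eval₂_map]
      exact hpy
    obtain ⟨z, hz⟩ := (IsIntegrallyClosed.isIntegral_iff (R := Q.ring) (K := W')).1 hy2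
    rw [← hz]
    exact z.2
  const_mem c := by
    change algebraMap W W' (algebraMap F W c) ∈ Q.ring
    rw [← IsScalarTower.algebraMap_apply]
    exact Q.const_mem c

theorem over_below [FiniteDimensional W W'] (Q : Plc F W') : Over (below (W := W) Q) Q := rfl

variable (hO : OrdF F W) (hO' : OrdF F W')

include hO hO'

omit [IsScalarTower F W W'] in
theorem over_nonneg {P : Plc F W} {Q : Plc F W'} (h : Over P Q) {f : W} (hf : f ≠ 0) :
    0 ≤ ord P f ↔ 0 ≤ ord Q (algebraMap W W' f) := by
  rw [← hO.mem P f hf, ← hO'.mem Q _ (by simpa using hf), over_mem h]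

omit [IsScalarTower F W W'] in
theorem over_nonpos {P : Plc F W} {Q : Plc F W'} (h : Over P Q) {f : W} (hf : f ≠ 0) :
    ord P f ≤ 0 ↔ ord Q (algebraMap W W' f) ≤ 0 := by
  have h1 := over_nonneg hO hO' h (inv_ne_zero hf)
  rw [map_inv₀, ord_inv hO P hf, ord_inv hO' Q (by simpa using hf)] at h1
  constructor
  · intro h2
    have := h1.1 (by omega)
    omega
  · intro h2
    have := h1.2 (by omega)
    omega

omit [IsScalarTower F W W'] in
/-- the ramification index -/
theorem exists_e {P : Plc F W} {Q : Plc F W'} (h : Over P Q) :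
    ∃ e : ℕ, 1 ≤ e ∧ ∀ f : W, f ≠ 0 → ord Q (algebraMap W W' f) = e * ord P f := by
  obtain ⟨u, hu, hu1⟩ := hO.unif P
  have hpos : 0 < ord Q (algebraMap W W' u) := by
    by_contra hcon
    have := (over_nonpos hO hO' h hu).2 (by omega)
    omega
  refine ⟨(ord Q (algebraMap W W' u)).toNat, by omega, ?_⟩
  intro f hf
  set n := ord P f with hn
  have hun : u ^ (-n) ≠ 0 := zpow_ne_zero _ hu
  have hg : f * u ^ (-n) ≠ 0 := mul_ne_zero hf hun
  have h1 : ord P (f * u ^ (-n)) = 0 := by
    rw [hO.mul P _ _ hf hun, ord_zpow hO P hu, hu1]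
    omega
  have h2 : ord Q (algebraMap W W' (f * u ^ (-n))) = 0 :=
    le_antisymm ((over_nonpos hO hO' h hg).1 h1.le) ((over_nonneg hO hO' h hg).1 h1.ge)
  rw [map_mul, map_zpow₀, hO'.mul Q _ _ (by simpa using hf) (zpow_ne_zero _ (by simpa using hu)),
    ord_zpow hO' Q (by simpa using hu)] at h2
  rw [Int.toNat_of_nonneg hpos.le]
  linarith

end Ext

/-- There is a nonconstant function with `P` as only zero. -/
theorem exists_zero {F : Type u} {W : Type v} [Field F] [IsAlgClosed F] [Field W] [Algebra F W]
    (hF : FF F W) (hO : OrdF F W) (hR : RRF F W) (hZ : StZero.{u, v}) (hRi : StRiem.{u, v})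
    (P : Plc F W) : ∃ x : W, (∀ c : F, x ≠ algebraMap F W c) ∧ 0 < ord P x ∧
      ∀ P' : Plc F W, P' ≠ P → ord P' x ≤ 0 := by
  classical
  obtain ⟨g, ⟨hg, -⟩, -⟩ := hRi F W hF
  set D : Dv F W := Finsupp.single P ((g : ℤ) + 1) with hD
  have h1 : (2 : ℤ) ≤ ell D := by
    have := hg D
    have hd : dg D = g + 1 := by
      rw [dg, hD, Finsupp.sum_single_index rfl]
    omega
  have h0 : ell (0 : Dv F W) = 1 := hR.zero
  have hfin := hR.fin D
  have hlt : RR (0 : Dv F W) < RR D := by
    refine lt_of_le_of_ne ?_ ?_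
    · intro f hf
      rw [hR.mem] at hf ⊢
      intro hf0 P'
      refine le_trans ?_ (hf hf0 P')
      rw [hD, Finsupp.single_apply]
      simp only [Finsupp.coe_zero, Pi.zero_apply, neg_zero]
      split_ifs <;> omega
    · intro h
      rw [ell, h] at h0
      rw [ell] at h1
      omega
  obtain ⟨f, hfD, hf0⟩ := SetLike.exists_of_lt hlt
  have hfne : f ≠ 0 := by
    rintro rfl
    exact hf0 (zero_mem _)
  rw [hR.mem] at hfD hf0
  have hfD' := hfD hfne
  have hinvne : ∀ c : F, f⁻¹ ≠ algebraMap F W c := by
    intro c hc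
    apply hf0
    intro _ P'
    have h2 : ord P' f⁻¹ = 0 := by rw [hc]; exact hR.ord_const c P'
    rw [ord_inv hO P' hfne] at h2
    simp only [Finsupp.coe_zero, Pi.zero_apply, neg_zero]
    omega
  have hle : ∀ P' : Plc F W, P' ≠ P → ord P' f⁻¹ ≤ 0 := by
    intro P' hP'
    have h2 := hfD' P'
    rw [hD, Finsupp.single_apply, if_neg (fun h => hP' h.symm), neg_zero] at h2
    rw [ord_inv hO P' hfne]
    omega
  refine ⟨f⁻¹, hinvne, ?_, hle⟩
  obtain ⟨-, -, P', hP'⟩ := (hZ F W hF).1 f⁻¹ hinvne
  by_cases h : P' = P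
  · rwa [h] at hP'
  · have := hle P' h
    omega

end OverAux

open OverAux in
/-- A10. Finite extensions: places below and above, ramification indices, fundamental equality. -/
theorem stOver (hOrd : StOrd.{u, v}) (hOrd' : StOrd.{u, w}) (hZero : StZero.{u, v})
    (hZero' : StZero.{u, w}) (hDeg : StDeg.{u, v}) (hDeg' : StDeg.{u, w})
    (hRRF : StRRF.{u, v}) (hRiem : StRiem.{u, v}) : StOver.{u, v, w} := by
  intro F W W' _ _ _ _ _ _ _ _ _ hF
  classical
  have hinj : Function.Injective (algebraMap W W') := (algebraMap W W').injective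
  obtain ⟨t, ht, htfin⟩ := hF
  have hF : FF F W := ⟨t, ht, htfin⟩
  have hF' : FF F W' := by
    refine ⟨algebraMap W W' t, ?_, (finite_adj (F := F) (W' := W') t).1⟩
    exact (transcendental_algebraMap_iff hinj).2 ht
  have hO := hOrd F W hF
  have hO' := hOrd' F W' hF'
  have hR := hRRF F W hF
  refine ⟨hF', fun Q => ⟨below Q, over_below Q⟩, ?_⟩
  choose e he1 he using fun Q : Plc F W' => exists_e hO hO' (over_below (W := W) Q)
  have heP : ∀ (P : Plc F W) (Q : Plc F W'), Over P Q → ∀ f : W, f ≠ 0 →
      ord Q (algebraMap W W' f) = e Q * ord P f := by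
    intro P Q h f hf
    rw [over_unique h (over_below Q)]
    exact he Q f hf
  refine ⟨e, he1, heP, ?_⟩
  intro P
  obtain ⟨x, hxc, hxP, hxP'⟩ := exists_zero hF hO hR hZero hRiem P
  have hx0 : x ≠ 0 := fun h => hxc 0 (by rw [h, map_zero])
  have hx0' : algebraMap W W' x ≠ 0 := by simpa using hx0
  have hxc' : ∀ c : F, algebraMap W W' x ≠ algebraMap F W' c := by
    intro c hc
    rw [IsScalarTower.algebraMap_apply F W W'] at hc
    exact hxc c (hinj hc)
  have hfin : {Q : Plc F W' | Over P Q}.Finite := by
    refine ((hZero' F W' hF').2 _ hx0').subset ?_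
    intro Q hQ
    have h1 := heP P Q hQ x hx0
    change ord Q (algebraMap W W' x) ≠ 0
    rw [h1]
    have := he1 Q
    have h2 : (0 : ℤ) < e Q := by omega
    exact (mul_pos h2 hxP).ne'
  refine ⟨hfin, ?_⟩
  -- degrees
  have hd1 := (hDeg F W hF x hxc).1
  rw [finsum_eq_single _ P (fun P' hP' => max_eq_right (hxP' P' hP')), max_eq_left hxP.le] at hd1
  have hd2 := (hDeg' F W' hF' _ hxc').1
  have hxfin : FiniteDimensional (IntermediateField.adjoin F {x}) W :=
    ((hZero F W hF).1 x hxc).2.1
  rw [(finite_adj (F := F) (W' := W') x).2] at hd2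
  have hsum : ∑ᶠ Q : Plc F W', max (ord Q (algebraMap W W' x)) 0 =
      ∑ Q ∈ hfin.toFinset, (e Q : ℤ) * ord P x := by
    rw [finsum_eq_sum_of_support_subset (s := hfin.toFinset)]
    · refine Finset.sum_congr rfl fun Q hQ => ?_
      have hQ' : Over P Q := by simpa using hQ
      rw [heP P Q hQ' x hx0, max_eq_left]
      exact mul_nonneg (by omega) hxP.le
    · intro Q hQ
      rw [Set.Finite.coe_toFinset]
      by_contra hcon
      apply hQ
      have hne : below Q ≠ P := by
        intro h
        apply hcon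
        rw [← h]
        exact over_below Q
      have h1 := he Q x hx0
      have h2 := hxP' _ hne
      change max (ord Q (algebraMap W W' x)) 0 = 0
      rw [max_eq_right]
      rw [h1]
      exact mul_nonpos_of_nonneg_of_nonpos (by omega) h2
  rw [hsum, ← Finset.sum_mul] at hd2
  have h3 : ((∑ Q ∈ hfin.toFinset, e Q : ℕ) : ℤ) = (Module.finrank W W' : ℤ) := by
    have h4 : (∑ Q ∈ hfin.toFinset, (e Q : ℤ)) * ord P x = (Module.finrank W W' : ℤ) * ord P x := by
      rw [hd2]
      push_cast
      rw [← hd1]
      ring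
    have h5 := mul_right_cancel₀ hxP.ne' h4
    push_cast
    exact h5
  have h6 : ∑ᶠ (Q : Plc F W') (_ : Over P Q), e Q = ∑ Q ∈ hfin.toFinset, e Q :=
    finsum_mem_eq_finite_toFinset_sum e hfin
  rw [h6]
  exact_mod_cast h3

end Pool.Agent.Lib.MP_c385f6_ag.TPG
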