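import Pool.Agent.Lib.MP_c385f6_ag.TPG.Defs

/-!
Project TPG, part A: statements on function fields of one variable `W / F`.
The proofs follow the first chapter of Stichtenoth's book (and need no separability).
-/

set_option autoImplicit false

namespace Pool.Agent.Lib.MP_c385f6_ag.TPG

universe u v w

/-- The basic properties of `ord`. -/
structure OrdF (F : Type u) (W : Type v) [Field F] [Field W] [Algebra F W] : Prop where
  mul : ∀ (P : Plc F W) (x y : W), x ≠ 0 → y ≠ 0 → ord P (x * y) = ord P x + ord P y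
  add : ∀ (P : Plc F W) (x y : W), x ≠ 0 → y ≠ 0 → x + y ≠ 0 →
    min (ord P x) (ord P y) ≤ ord P (x + y)
  mem : ∀ (P : Plc F W) (x : W), x ≠ 0 → (x ∈ P.ring ↔ 0 ≤ ord P x)
  lt : ∀ (P : Plc F W) (x : W), x ≠ 0 → (P.ring.valuation x < 1 ↔ 0 < ord P x)
  unif : ∀ P : Plc F W, ∃ u : W, u ≠ 0 ∧ ord P u = 1

/-- A1. Places are discrete. -/
def StOrd : Prop :=
  ∀ (F : Type u) (W : Type v) [Field F] [Field W] [Algebra F W], FF F W → OrdF F W

/-- A2. The residue fields are `F`. -/
def StResF : Prop :=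
  ∀ (F : Type u) (W : Type v) [Field F] [IsAlgClosed F] [Field W] [Algebra F W], FF F W →
    ∀ (P : Plc F W) (x : W), x ∈ P.ring →
      ∃ c : F, P.ring.valuation (x - algebraMap F W c) < 1

/-- A3. Weak approximation. -/
def StWA : Prop :=
  ∀ (F : Type u) (W : Type v) [Field F] [Field W] [Algebra F W], FF F W → OrdF F W →
    ∀ (S : Finset (Plc F W)) (x : Plc F W → W) (n : ℤ),
      ∃ y : W, ∀ P ∈ S, y ≠ x P → n ≤ ord P (y - x P)

/-- A4. Nonconstant elements: `W / F(x)` is finite, there are zeros; the number of zeros and poles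
is finite. -/
def StZero : Prop :=
  ∀ (F : Type u) (W : Type v) [Field F] [IsAlgClosed F] [Field W] [Algebra F W], FF F W →
    (∀ x : W, (∀ c : F, x ≠ algebraMap F W c) →
      Transcendental F x ∧ FiniteDimensional (IntermediateField.adjoin F {x}) W ∧
        ∃ P : Plc F W, 0 < ord P x) ∧
    ∀ x : W, x ≠ 0 → {P : Plc F W | ord P x ≠ 0}.Finite

/-- A5. The number of zeros and the number of poles are `[W : F(x)]`. -/
def StDeg : Prop :=
  ∀ (F : Type u) (W : Type v) [Field F] [IsAlgClosed F] [Field W] [Algebra F W], FF F W →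
    ∀ x : W, (∀ c : F, x ≠ algebraMap F W c) →
      ∑ᶠ P : Plc F W, max (ord P x) 0 =
          (Module.finrank (IntermediateField.adjoin F {x}) W : ℤ) ∧
        ∑ᶠ P : Plc F W, max (- ord P x) 0 =
          (Module.finrank (IntermediateField.adjoin F {x}) W : ℤ)

/-- The properties of divisors and of the spaces `L(D)`. -/
structure RRF (F : Type u) (W : Type v) [Field F] [Field W] [Algebra F W] : Prop where
  dv_apply : ∀ (f : W) (P : Plc F W), f ≠ 0 → (dv f : Dv F W) P = ord P f
  dg_dv : ∀ f : W, f ≠ 0 → dg (dv f : Dv F W) = 0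
  const : ∀ f : W, f ≠ 0 → (∀ P : Plc F W, 0 ≤ ord P f) → ∃ c : F, f = algebraMap F W c
  ord_const : ∀ (c : F) (P : Plc F W), ord P (algebraMap F W c) = 0
  mem : ∀ (D : Dv F W) (f : W), f ∈ RR D ↔ (f ≠ 0 → ∀ P : Plc F W, - D P ≤ ord P f)
  fin : ∀ D : Dv F W, FiniteDimensional F (RR D)
  mono : ∀ D E : Dv F W, D ≤ E → ell D ≤ ell E ∧ ell E ≤ ell D + (dg E - dg D)
  neg : ∀ D : Dv F W, dg D < 0 → RR D = ⊥
  zero : ell (0 : Dv F W) = 1
  shift : ∀ (D : Dv F W) (f : W), f ≠ 0 → ell (D + dv f) = ell D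
  eff : ∀ D : Dv F W, 0 < ell D → ∃ f : W, f ≠ 0 ∧ 0 ≤ dv f + D
  ne : Infinite (Plc F W)

/-- A6. -/
def StRRF : Prop :=
  ∀ (F : Type u) (W : Type v) [Field F] [IsAlgClosed F] [Field W] [Algebra F W], FF F W →
    RRF F W

/-- A7. Riemann's theorem. -/
def StRiem : Prop :=
  ∀ (F : Type u) (W : Type v) [Field F] [IsAlgClosed F] [Field W] [Algebra F W], FF F W →
    ∃! g : ℕ, IsGenus F W g

/-- A8. There is an effective divisor `E` of degree `g` with `l(E) = 1`. -/
def StGen : Prop :=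
  ∀ (F : Type u) (W : Type v) [Field F] [IsAlgClosed F] [Field W] [Algebra F W], FF F W →
    ∀ g : ℕ, IsGenus F W g → ∃ E : Dv F W, 0 ≤ E ∧ dg E = g ∧ ell E = 1

/-- A9. Genus zero means rational; two different linearly equivalent places exist only for
rational fields. -/
def StRat : Prop :=
  ∀ (F : Type u) (W : Type v) [Field F] [IsAlgClosed F] [Field W] [Algebra F W], FF F W →
    (IsRat F W ↔ IsGenus F W 0) ∧
    ((∃ (P Q : Plc F W) (f : W), P ≠ Q ∧ f ≠ 0 ∧
      dv f = Finsupp.single P 1 - Finsupp.single Q 1) → IsRat F W)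

/-- A10. Finite extensions: places below and above, ramification indices, fundamental equality. -/
def StOver : Prop :=
  ∀ (F : Type u) (W : Type v) (W' : Type w) [Field F] [IsAlgClosed F] [Field W] [Algebra F W]
    [Field W'] [Algebra F W'] [Algebra W W'] [IsScalarTower F W W'] [FiniteDimensional W W'],
    FF F W →
    FF F W' ∧ (∀ Q : Plc F W', ∃ P : Plc F W, Over P Q) ∧
    ∃ e : Plc F W' → ℕ, (∀ Q, 1 ≤ e Q) ∧
      (∀ (P : Plc F W) (Q : Plc F W'), Over P Q → ∀ f : W, f ≠ 0 →
        ord Q (algebraMap W W' f) = e Q * ord P f) ∧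
      ∀ P : Plc F W, {Q : Plc F W' | Over P Q}.Finite ∧
        ∑ᶠ (Q : Plc F W') (_ : Over P Q), e Q = Module.finrank W W'

/-- A11. Galois extensions: the Galois group is transitive on the places above a place. -/
def StTrans : Prop :=
  ∀ (F : Type u) (W : Type v) (W' : Type w) [Field F] [Field W] [Algebra F W]
    [Field W'] [Algebra F W'] [Algebra W W'] [IsScalarTower F W W'] [FiniteDimensional W W']
    [IsGalois W W'] (P : Plc F W) (Q Q' : Plc F W'), Over P Q → Over P Q' →
      ∃ s : W' ≃ₐ[W] W', Mv s.toRingEquiv Q Q'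

/-- A12. `W' = W(h)` with `h ^ n = g`, `g ∈ D_n(W)`, `n` prime to the characteristic: the extension
is unramified; the formula for the genus. -/
def StKum : Prop :=
  ∀ (F : Type u) (W : Type v) (W'  : Type w) [Field F] [IsAlgClosed F] [Field W] [Algebra F W]
    [Field W'] [Algebra F W'] [Algebra W W'] [IsScalarTower F W W'] (n : ℕ) (h : W') (g : W),
    FF F W → (n : F) ≠ 0 → h ^ n = algebraMap W W' g → g ∈ Dn F n →
    IntermediateField.adjoin W {h} = ⊤ →
    FiniteDimensional W W' ∧ IsGalois W W' ∧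
    (∀ (P : Plc F W) (Q : Plc F W'), Over P Q → ∀ f : W, f ≠ 0 →
        ord Q (algebraMap W W' f) = ord P f) ∧
    ∀ a b : ℕ, IsGenus F W a → IsGenus F W' b →
      (b : ℤ) - 1 = Module.finrank W W' * ((a : ℤ) - 1)

/-- A13. An automorphism `s` of prime order `l`, prime to the characteristic, of `W / F` and a place
`Q` fixed by it: the character of the cotangent space. -/
def StCot : Prop :=
  ∀ (F : Type u) (W : Type v) [Field F] [IsAlgClosed F] [Field W] [Algebra F W] (s : W ≃ₐ[F] W)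
    (l : ℕ) (Q : Plc F W), FF F W → l.Prime → (l : F) ≠ 0 → s ^ l = 1 → s ≠ 1 →
    Mv s.toRingEquiv Q Q →
      ∃ c : F, c ^ l = 1 ∧ c ≠ 1 ∧ ∀ f : W, f ≠ 0 →
        Q.ring.valuation (s f / f - algebraMap F W (c ^ (ord Q f))) < 1

end Pool.Agent.Lib.MP_c385f6_ag.TPG
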