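import Mathlib
import Pool.Agent.Lib.MP_c385f6_ag.TPG.StA

/-!
Project TPG, A6: divisors and the spaces `L(D)`.
-/

set_option autoImplicit false

namespace Pool.Agent.Lib.MP_c385f6_ag.TPG

universe u v w

namespace RRFAux

section

variable {F : Type u} {W : Type v} [Field F] [Field W] [Algebra F W]

theorem ord_zero (P : Plc F W) : ord P (0 : W) = 0 := by
  unfold ord
  rw [dif_neg]
  rintro ⟨n, u, hu, -, -, h⟩
  rw [map_zero] at h
  exact zpow_ne_zero n ((Valuation.ne_zero_iff _).2 hu) h.symm

theorem ord_one (O : OrdF F W) (P : Plc F W) : ord P (1 : W) = 0 := by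
  have := O.mul P 1 1 one_ne_zero one_ne_zero
  rw [one_mul] at this
  linarith

theorem ord_const (O : OrdF F W) (c : F) (P : Plc F W) : ord P (algebraMap F W c) = 0 := by
  by_cases hc : c = 0
  · rw [hc, map_zero, ord_zero]
  have h1 : algebraMap F W c ≠ 0 := by rwa [Ne, map_eq_zero]
  have h2 : algebraMap F W c⁻¹ ≠ 0 := by rw [Ne, map_eq_zero]; exact inv_ne_zero hc
  have h3 := O.mul P _ _ h1 h2
  rw [← map_mul, mul_inv_cancel₀ hc, map_one, ord_one O] at h3
  have h4 := (O.mem P _ h1).1 (P.const_mem c)
  have h5 := (O.mem P _ h2).1 (P.const_mem c⁻¹)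
  linarith

theorem ord_inv (O : OrdF F W) (P : Plc F W) {x : W} (hx : x ≠ 0) : ord P x⁻¹ = - ord P x := by
  have h := O.mul P x x⁻¹ hx (inv_ne_zero hx)
  rw [mul_inv_cancel₀ hx, ord_one O] at h
  linarith

theorem dg_eq (D : Dv F W) {s : Finset (Plc F W)} (hs : D.support ⊆ s) : dg D = ∑ P ∈ s, D P :=
  Finsupp.sum_of_support_subset D hs _ (fun _ _ => rfl)

theorem dg_add (D E : Dv F W) : dg (D + E) = dg D + dg E :=
  Finsupp.sum_add_index' (fun _ => rfl) (fun _ _ _ => rfl)

theorem dg_single (P : Plc F W) (n : ℤ) : dg (Finsupp.single P n : Dv F W) = n :=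
  Finsupp.sum_single_index rfl

theorem dg_mono {D E : Dv F W} (h : D ≤ E) : dg D ≤ dg E := by
  classical
  rw [dg_eq D (Finset.subset_union_left (s₂ := E.support)),
    dg_eq E (Finset.subset_union_right (s₁ := D.support))]
  exact Finset.sum_le_sum fun P _ => h P

theorem eq_of_dg {D E : Dv F W} (h : D ≤ E) (h' : dg E = dg D) : D = E := by
  classical
  rw [dg_eq D (Finset.subset_union_left (s₂ := E.support)),
    dg_eq E (Finset.subset_union_right (s₁ := D.support))] at h'
  ext P
  by_cases hP : P ∈ D.support ∪ E.support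
  · exact (Finset.sum_eq_sum_iff_of_le (fun P _ => h P)).1 h'.symm P hP
  · rw [Finset.mem_union, not_or, Finsupp.notMem_support_iff, Finsupp.notMem_support_iff] at hP
    rw [hP.1, hP.2]

/-- the space `L(D)` -/
def L (O : OrdF F W) (D : Dv F W) : Submodule F W where
  carrier := {f | f ≠ 0 → ∀ P : Plc F W, - D P ≤ ord P f}
  zero_mem' := fun h => absurd rfl h
  add_mem' := by
    intro x y hx hy hxy P
    by_cases hx0 : x = 0
    · rw [hx0, zero_add] at hxy ⊢
      exact hy hxy P
    by_cases hy0 : y = 0
    · rw [hy0, add_zero] at hxy ⊢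
      exact hx hxy P
    exact (le_min (hx hx0 P) (hy hy0 P)).trans (O.add P x y hx0 hy0 hxy)
  smul_mem' := by
    intro c x hx hcx P
    rw [Algebra.smul_def] at hcx ⊢
    have h1 : algebraMap F W c ≠ 0 := left_ne_zero_of_mul hcx
    have h2 : x ≠ 0 := right_ne_zero_of_mul hcx
    rw [O.mul P _ _ h1 h2, ord_const O, zero_add]
    exact hx h2 P

theorem RR_eq (O : OrdF F W) (D : Dv F W) : RR D = L O D := by
  apply le_antisymm
  · exact Submodule.span_le.2 fun f hf _ => hf.2
  · intro f hf
    by_cases h0 : f = 0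
    · rw [h0]; exact Submodule.zero_mem _
    · exact Submodule.subset_span ⟨h0, hf h0⟩

theorem mem_RR (O : OrdF F W) (D : Dv F W) (f : W) :
    f ∈ RR D ↔ (f ≠ 0 → ∀ P : Plc F W, - D P ≤ ord P f) := by
  rw [RR_eq O]; rfl

theorem RR_mono (O : OrdF F W) {D E : Dv F W} (h : D ≤ E) : RR D ≤ RR E := by
  intro f hf
  rw [mem_RR O] at hf ⊢
  intro h0 P
  have := h P
  have := hf h0 P
  linarith

/-- one more place -/
theorem step (O : OrdF F W)
    (R : ∀ (P : Plc F W) (x : W), x ∈ P.ring →
      ∃ c : F, P.ring.valuation (x - algebraMap F W c) < 1)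
    (D : Dv F W) (P : Plc F W) :
    ∃ g : W, RR (D + Finsupp.single P 1) ≤ RR D ⊔ Submodule.span F {g} := by
  classical
  by_cases hle : RR (D + Finsupp.single P 1) ≤ RR D
  · exact ⟨0, hle.trans le_sup_left⟩
  obtain ⟨g, hg, hgD⟩ := SetLike.not_le_iff_exists.1 hle
  refine ⟨g, fun f hf => ?_⟩
  have hg0 : g ≠ 0 := by
    rintro rfl
    exact hgD (Submodule.zero_mem _)
  have hgP : ord P g = - (D P + 1) := by
    have h1 := (mem_RR O _ _).1 hg hg0
    have h2 := h1 P
    rw [Finsupp.add_apply, Finsupp.single_eq_same] at h2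
    refine le_antisymm ?_ h2
    by_contra hcon
    rw [not_le] at hcon
    apply hgD
    rw [mem_RR O]
    intro _ Q
    by_cases hQ : Q = P
    · rw [hQ]; omega
    · have h3 := h1 Q
      rwa [Finsupp.add_apply, Finsupp.single_eq_of_ne hQ, add_zero] at h3
  have hfg : f / g ∈ P.ring := by
    by_cases hf0 : f = 0
    · rw [hf0, zero_div]; exact zero_mem _
    · rw [O.mem P _ (div_ne_zero hf0 hg0), div_eq_mul_inv, O.mul P _ _ hf0 (inv_ne_zero hg0),
        ord_inv O P hg0, hgP]
      have h1 := (mem_RR O _ _).1 hf hf0 P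
      rw [Finsupp.add_apply, Finsupp.single_eq_same] at h1
      linarith
  obtain ⟨c, hc⟩ := R P _ hfg
  have h1 : f - c • g ∈ RR D := by
    rw [mem_RR O]
    intro h0 Q
    by_cases hQ : Q = P
    · rw [hQ]
      have h2 : f - c • g = g * (f / g - algebraMap F W c) := by
        rw [Algebra.smul_def]
        field_simp
      have h3 : f / g - algebraMap F W c ≠ 0 := by
        intro h3
        rw [h3, mul_zero] at h2
        exact h0 h2
      rw [h2, O.mul P _ _ hg0 h3, hgP]
      have := (O.lt P _ h3).1 hc
      linarith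
    · have h2 : f - c • g ∈ RR (D + Finsupp.single P 1) :=
        Submodule.sub_mem _ hf (Submodule.smul_mem _ c hg)
      have h3 := (mem_RR O _ _).1 h2 h0 Q
      rwa [Finsupp.add_apply, Finsupp.single_eq_of_ne hQ, add_zero] at h3
  have h2 : f = (f - c • g) + c • g := by rw [sub_add_cancel]
  rw [h2]
  exact Submodule.add_mem_sup h1 (Submodule.smul_mem _ c (Submodule.mem_span_singleton_self g))

theorem step_fin (O : OrdF F W)
    (R : ∀ (P : Plc F W) (x : W), x ∈ P.ring →
      ∃ c : F, P.ring.valuation (x - algebraMap F W c) < 1)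
    (D : Dv F W) (P : Plc F W) (hD : FiniteDimensional F (RR D)) :
    FiniteDimensional F (RR (D + Finsupp.single P 1)) ∧
      Module.finrank F (RR (D + Finsupp.single P 1)) ≤ Module.finrank F (RR D) + 1 := by
  obtain ⟨g, hg⟩ := step O R D P
  have h1 : FiniteDimensional F (RR D ⊔ Submodule.span F {g} : Submodule F W) :=
    Submodule.finiteDimensional_sup _ _
  refine ⟨Submodule.finiteDimensional_of_le hg, (Submodule.finrank_mono hg).trans ?_⟩
  refine (Submodule.finrank_add_le_finrank_add_finrank _ _).trans ?_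
  refine Nat.add_le_add_left ?_ _
  simpa using finrank_span_le_card (R := F) ({g} : Set W)

theorem many (O : OrdF F W)
    (R : ∀ (P : Plc F W) (x : W), x ∈ P.ring →
      ∃ c : F, P.ring.valuation (x - algebraMap F W c) < 1) (n : ℕ) :
    ∀ (D E : Dv F W), D ≤ E → dg E - dg D = n → FiniteDimensional F (RR D) →
      FiniteDimensional F (RR E) ∧ Module.finrank F (RR E) ≤ Module.finrank F (RR D) + n := by
  classical
  induction n with
  | zero =>
    intro D E hDE hn hD
    have : D = E := eq_of_dg hDE (by rw [Nat.cast_zero] at hn; linarith)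
    rw [← this]
    exact ⟨hD, le_refl _⟩
  | succ n ih =>
    intro D E hDE hn hD
    obtain ⟨P, hP⟩ : ∃ P, D P < E P := by
      by_contra hcon
      push Not at hcon
      have : D = E := le_antisymm hDE hcon
      rw [this, sub_self] at hn
      exact absurd hn (by positivity)
    obtain ⟨h1, h2⟩ := step_fin O R D P hD
    have hle : D + Finsupp.single P 1 ≤ E := by
      intro Q
      by_cases hQ : Q = P
      · rw [hQ, Finsupp.add_apply, Finsupp.single_eq_same]
        exact hP
      · rw [Finsupp.add_apply, Finsupp.single_eq_of_ne hQ, add_zero]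
        exact hDE Q
    obtain ⟨h3, h4⟩ := ih _ E hle (by
      rw [dg_add, dg_single]
      push_cast at hn
      linarith) h1
    exact ⟨h3, by omega⟩

end

end RRFAux

open RRFAux

theorem stRRF (h1 : StOrd.{u, v}) (h2 : StResF.{u, v}) (_h3 : StWA.{u, v}) (h4 : StZero.{u, v})
    (h5 : StDeg.{u, v}) : StRRF.{u, v} := by
  classical
  intro F W _ _ _ _ hFF
  have O : OrdF F W := h1 F W hFF
  have R := h2 F W hFF
  obtain ⟨Z1, Z2⟩ := h4 F W hFF
  have dgs := h5 F W hFF
  have dv_apply : ∀ (f : W) (P : Plc F W), f ≠ 0 → (dv f : Dv F W) P = ord P f := by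
    intro f P hf
    have hs : (Function.support fun P : Plc F W => ord P f).Finite := Z2 f hf
    unfold dv
    rw [dif_pos hs]
    rfl
  have const : ∀ f : W, f ≠ 0 → (∀ P : Plc F W, 0 ≤ ord P f) → ∃ c : F, f = algebraMap F W c := by
    intro f hf hP
    by_contra hcon
    push Not at hcon
    obtain ⟨-, -, P, hP'⟩ := Z1 f⁻¹ (by
      intro c hc
      apply hcon c⁻¹
      rw [map_inv₀, ← hc, inv_inv])
    rw [ord_inv O P hf] at hP'
    have := hP P
    linarith
  have dg_dv : ∀ f : W, f ≠ 0 → dg (dv f : Dv F W) = 0 := by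
    intro f hf
    by_cases hc : ∃ c : F, f = algebraMap F W c
    · obtain ⟨c, rfl⟩ := hc
      have : (dv (algebraMap F W c) : Dv F W) = 0 := by
        ext P
        rw [dv_apply _ P hf, ord_const O]
        rfl
      rw [this]
      exact Finsupp.sum_zero_index
    · push Not at hc
      obtain ⟨d1, d2⟩ := dgs f hc
      have hs : ∀ P : Plc F W, ord P f ≠ 0 → P ∈ (Z2 f hf).toFinset := by
        intro P hP
        rw [Set.Finite.mem_toFinset]
        exact hP
      rw [finsum_eq_sum_of_support_subset (s := (Z2 f hf).toFinset)] at d1 d2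
      · have h6 : dg (dv f : Dv F W) = ∑ P ∈ (Z2 f hf).toFinset, (dv f : Dv F W) P := by
          apply dg_eq
          intro P hP
          rw [Finsupp.mem_support_iff, dv_apply f P hf] at hP
          exact hs P hP
        have h7 : ∀ P : Plc F W, (dv f : Dv F W) P = max (ord P f) 0 - max (- ord P f) 0 := by
          intro P
          rw [dv_apply f P hf]
          omega
        rw [h6, Finset.sum_congr rfl fun P _ => h7 P, Finset.sum_sub_distrib, d1, d2, sub_self]
      · intro P hP
        rw [Finset.mem_coe]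
        apply hs
        intro h0
        rw [Function.mem_support, h0] at hP
        exact hP (by simp)
      · intro P hP
        rw [Finset.mem_coe]
        apply hs
        intro h0
        rw [Function.mem_support, h0] at hP
        exact hP (by simp)
  have hRR0 : (RR (0 : Dv F W)) = Submodule.span F {(1 : W)} := by
    apply le_antisymm
    · intro f hf
      by_cases h0 : f = 0
      · rw [h0]; exact Submodule.zero_mem _
      obtain ⟨c, rfl⟩ := const f h0 (fun P => by
        have := (mem_RR O _ _).1 hf h0 P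
        rwa [Finsupp.zero_apply, neg_zero] at this)
      rw [Algebra.algebraMap_eq_smul_one]
      exact Submodule.smul_mem _ c (Submodule.mem_span_singleton_self _)
    · rw [Submodule.span_singleton_le_iff_mem, mem_RR O]
      intro _ P
      rw [ord_one O, Finsupp.zero_apply, neg_zero]
  have hf0 : FiniteDimensional F (RR (0 : Dv F W)) := by
    rw [hRR0]; infer_instance
  have fin : ∀ D : Dv F W, FiniteDimensional F (RR D) := by
    intro D
    have h6 : (0 : Dv F W) ≤ D ⊔ 0 := le_sup_right
    have h7 : dg (0 : Dv F W) ≤ dg (D ⊔ 0) := dg_mono h6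
    obtain ⟨n, hn⟩ := Int.eq_ofNat_of_zero_le (sub_nonneg.2 h7)
    have := (many O R n 0 (D ⊔ 0) h6 hn hf0).1
    exact Submodule.finiteDimensional_of_le (RR_mono O (le_sup_left : D ≤ D ⊔ 0))
  have neg : ∀ D : Dv F W, dg D < 0 → RR D = ⊥ := by
    intro D hD
    rw [eq_bot_iff]
    intro f hf
    rw [Submodule.mem_bot]
    by_contra h0
    have h6 := (mem_RR O _ _).1 hf h0
    have h7 : (0 : Dv F W) ≤ D + dv f := by
      intro P
      rw [Finsupp.add_apply, dv_apply f P h0, Finsupp.zero_apply]
      have := h6 P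
      linarith
    have h8 := dg_mono h7
    rw [dg_add, dg_dv f h0] at h8
    have h9 : dg (0 : Dv F W) = 0 := Finsupp.sum_zero_index
    linarith
  refine
    { dv_apply := dv_apply
      dg_dv := dg_dv
      const := const
      ord_const := ord_const O
      mem := mem_RR O
      fin := fin
      mono := ?_
      neg := neg
      zero := ?_
      shift := ?_
      eff := ?_
      ne := ?_ }
  · intro D E hDE
    have := fin E
    have := fin D
    refine ⟨Nat.cast_le.2 (Submodule.finrank_mono (RR_mono O hDE)), ?_⟩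
    obtain ⟨n, hn⟩ := Int.eq_ofNat_of_zero_le (sub_nonneg.2 (dg_mono hDE))
    have h6 := (many O R n D E hDE hn (fin D)).2
    rw [hn]
    unfold ell
    exact_mod_cast h6
  · unfold ell
    rw [hRR0, finrank_span_singleton one_ne_zero, Nat.cast_one]
  · intro D f hf
    let e : W ≃ₗ[F] W :=
      { toFun := fun g => f * g
        invFun := fun g => f⁻¹ * g
        map_add' := fun x y => mul_add _ _ _
        map_smul' := fun c x => by simp
        left_inv := fun g => by simp [← mul_assoc, inv_mul_cancel₀ hf]
        right_inv := fun g => by simp [← mul_assoc, mul_inv_cancel₀ hf] }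
    have h6 : RR D = (RR (D + dv f)).map (e : W →ₗ[F] W) := by
      ext g
      rw [Submodule.mem_map]
      constructor
      · intro hg
        refine ⟨f⁻¹ * g, ?_, ?_⟩
        · rw [mem_RR O] at hg ⊢
          intro h0 P
          have hg0 : g ≠ 0 := right_ne_zero_of_mul h0
          rw [O.mul P _ _ (inv_ne_zero hf) hg0, ord_inv O P hf, Finsupp.add_apply,
            dv_apply f P hf]
          have := hg hg0 P
          linarith
        · change f * (f⁻¹ * g) = g
          rw [← mul_assoc, mul_inv_cancel₀ hf, one_mul]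
      · rintro ⟨g, hg, rfl⟩
        change f * g ∈ RR D
        rw [mem_RR O] at hg ⊢
        intro h0 P
        have hg0 : g ≠ 0 := right_ne_zero_of_mul h0
        have h7 := hg hg0 P
        rw [O.mul P _ _ hf hg0]
        rw [Finsupp.add_apply, dv_apply f P hf] at h7
        linarith
    unfold ell
    rw [h6, LinearEquiv.finrank_map_eq]
  · intro D hD
    have h6 : RR D ≠ ⊥ := by
      intro h6
      unfold ell at hD
      rw [h6, finrank_bot, Nat.cast_zero] at hD
      exact lt_irrefl _ hD
    obtain ⟨f, hf, hf0⟩ := Submodule.exists_mem_ne_zero_of_ne_bot h6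
    refine ⟨f, hf0, fun P => ?_⟩
    have := (mem_RR O _ _).1 hf hf0 P
    rw [Finsupp.add_apply, dv_apply f P hf0, Finsupp.zero_apply]
    linarith
  · obtain ⟨t, ht, -⟩ := hFF
    have h6 : ∀ c : F, ∃ P : Plc F W, 0 < ord P (t - algebraMap F W c) := by
      intro c
      refine (Z1 _ ?_).2.2
      intro d hd
      apply ht
      rw [sub_eq_iff_eq_add, ← map_add] at hd
      rw [hd]
      exact isAlgebraic_algebraMap _
    have h7 : ∀ c : F, t - algebraMap F W c ≠ 0 := by
      intro c hc
      apply ht
      rw [sub_eq_zero.1 hc]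
      exact isAlgebraic_algebraMap _
    choose Q hQ using h6
    have hF : Infinite F := IsAlgClosed.instInfinite
    refine Infinite.of_injective Q fun c d hcd => ?_
    by_contra hne
    have h8 := (O.lt _ _ (h7 c)).2 (hQ c)
    have h9 := (O.lt _ _ (h7 d)).2 (hQ d)
    rw [← hcd] at h9
    have h10 : (Q c).ring.valuation (algebraMap F W (d - c)) < 1 := by
      have h11 : algebraMap F W (d - c) = (t - algebraMap F W c) - (t - algebraMap F W d) := by
        rw [map_sub]; ring
      rw [h11]
      exact (Valuation.map_sub _ _ _).trans_lt (max_lt h8 h9)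
    have h11 : algebraMap F W (d - c) ≠ 0 := by
      rw [Ne, map_eq_zero, sub_eq_zero]
      exact fun h => hne h.symm
    rw [O.lt _ _ h11, ord_const O] at h10
    exact lt_irrefl _ h10

end Pool.Agent.Lib.MP_c385f6_ag.TPG
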