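import Pool.Agent.Lib.MP_c385f6_ag.TPG.StA

/-!
Project TPG, module A9: genus zero means rational.
-/

set_option autoImplicit false

namespace Pool.Agent.Lib.MP_c385f6_ag.TPG

universe u v

namespace ARat

variable {F : Type u} {W : Type v} [Field F] [Field W] [Algebra F W]

open IntermediateField

/-- `W / F(x)` of degree one -/
theorem isRat_of_finrank (x : W) (h : Module.finrank (IntermediateField.adjoin F {x}) W = 1) :
    IsRat F W :=
  ⟨x, IntermediateField.finrank_eq_one_iff_eq_top.mp h⟩

theorem ord_pow (ho : OrdF F W) (P : Plc F W) (x : W) (hx : x ≠ 0) (h1 : ord P (1 : W) = 0)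
    (n : ℕ) : ord P (x ^ n) = n * ord P x := by
  induction n with
  | zero => simp [h1]
  | succ n ih =>
    rw [pow_succ, ho.mul P _ _ (pow_ne_zero n hx) hx, ih]
    push_cast
    ring

theorem linInd {x : W} (hx : Transcendental F x) (m : ℕ) :
    LinearIndependent F fun i : Fin m => x ^ (i : ℕ) := by
  rw [Fintype.linearIndependent_iff]
  intro a ha i
  have h1 : Polynomial.aeval x (∑ i : Fin m, Polynomial.C (a i) * Polynomial.X ^ (i : ℕ)) = 0 := by
    rw [map_sum, ← ha]
    refine Finset.sum_congr rfl fun i _ => ?_
    rw [map_mul, map_pow, Polynomial.aeval_C, Polynomial.aeval_X, Algebra.smul_def]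
  have h2 := (transcendental_iff.mp hx) _ h1
  have h3 := congrArg (fun p => Polynomial.coeff p (i : ℕ)) h2
  simp only [Polynomial.finset_sum_coeff, Polynomial.coeff_C_mul_X_pow, Polynomial.coeff_zero,
    ← Fin.ext_iff, Finset.sum_ite_eq, Finset.mem_univ, if_true] at h3
  exact h3

/-- nonconstant elements exist in spaces of dimension at least two -/
theorem exists_nonconst (D : Dv F W) (h : 2 ≤ ell D) :
    ∃ f ∈ RR D, ∀ c : F, f ≠ algebraMap F W c := by
  by_contra hcon
  push Not at hcon
  have hle : RR D ≤ Submodule.span F {(1 : W)} := by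
    intro f hf
    obtain ⟨c, hc⟩ := hcon f hf
    rw [Submodule.mem_span_singleton]
    exact ⟨c, by rw [hc, Algebra.algebraMap_eq_smul_one]⟩
  have h1 : Module.finrank F (RR D) ≤ Module.finrank F (Submodule.span F {(1 : W)}) :=
    Submodule.finrank_mono hle
  have h2 := finrank_span_le_card (R := F) ({(1 : W)} : Set W)
  simp only [Set.toFinset_singleton, Finset.card_singleton] at h2
  have h3 : (Module.finrank F (RR D) : ℤ) = ell D := rfl
  omega

end ARat

open ARat in
theorem stRat (hOrd : StOrd.{u, v}) (hZero : StZero.{u, v}) (hDeg : StDeg.{u, v})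
    (hRRF : StRRF.{u, v}) (hRiem : StRiem.{u, v}) : StRat.{u, v} := by
  intro F W _ _ _ _ hFF
  have ho := hOrd F W hFF
  have hZ := hZero F W hFF
  have hD := hDeg F W hFF
  have hR := hRRF F W hFF
  obtain ⟨g, hg, _⟩ := hRiem F W hFF
  refine ⟨⟨?_, ?_⟩, ?_⟩
  · -- rational fields have genus zero
    rintro ⟨x, hx⟩
    have hxc : ∀ c : F, x ≠ algebraMap F W c := by
      intro c hc
      obtain ⟨t, ht, _⟩ := hFF
      have h1 : IntermediateField.adjoin F {x} = ⊥ := by
        rw [IntermediateField.adjoin_simple_eq_bot_iff, hc]
        exact IntermediateField.algebraMap_mem _ _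
      have h2 : t ∈ (⊥ : IntermediateField F W) := by
        rw [← h1, hx]
        exact IntermediateField.mem_top
      obtain ⟨c', hc'⟩ := IntermediateField.mem_bot.mp h2
      exact ht (by rw [← hc']; exact isAlgebraic_algebraMap c')
    have hx0 : x ≠ 0 := fun h => hxc 0 (by rw [h, map_zero])
    have hfr : Module.finrank (IntermediateField.adjoin F {x}) W = 1 :=
      IntermediateField.finrank_eq_one_iff_eq_top.mpr hx
    have hdeg := (hD x hxc).2
    rw [hfr] at hdeg
    have hfin : (Function.support fun P : Plc F W => max (- ord P x) 0).Finite := by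
      refine (hZ.2 x hx0).subset fun P hP h0 => hP ?_
      change max (-ord P x) 0 = 0
      rw [h0]
      simp
    set Di : Dv F W := Finsupp.ofSupportFinite (fun P => max (- ord P x) 0) hfin with hDi
    have hDia : ∀ P, Di P = max (- ord P x) 0 := fun P => rfl
    have hdg : dg Di = 1 := by
      rw [dg, Finsupp.sum, ← Nat.cast_one (R := ℤ), ← hdeg]
      rw [finsum_eq_sum_of_support_subset _ (s := Di.support)]
      · rfl
      · intro P hP
        rw [Finset.mem_coe, Finsupp.mem_support_iff]
        exact hP
    have hdgm : ∀ m : ℕ, dg (m • Di) = m := by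
      intro m
      have : dg (m • Di) = m * dg Di := by
        rw [dg, dg, Finsupp.sum_smul_index' (fun _ => rfl), Finsupp.mul_sum]
        refine Finset.sum_congr rfl fun P _ => ?_
        simp
      rw [this, hdg, mul_one]
    have h1 : ∀ P : Plc F W, ord P (1 : W) = 0 := by
      intro P
      have := hR.ord_const 1 P
      rwa [map_one] at this
    have htr : Transcendental F x := (hZ.1 x hxc).1
    have hell : ∀ m : ℕ, (m : ℤ) + 1 ≤ ell (m • Di) := by
      intro m
      have := hR.fin (m • Di)
      have hmem : ∀ i : Fin (m + 1), x ^ (i : ℕ) ∈ RR (m • Di) := by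
        intro i
        rw [hR.mem]
        intro _ P
        rw [ord_pow ho P x hx0 (h1 P), Finsupp.smul_apply, hDia, nsmul_eq_mul]
        have hi : ((i : ℕ) : ℤ) ≤ m := by
          have := i.2
          omega
        rcases le_total (- ord P x) 0 with h | h
        · rw [max_eq_right h, mul_zero, neg_zero]
          exact mul_nonneg (by positivity) (by linarith)
        · rw [max_eq_left h]
          nlinarith
      have hli : LinearIndependent F fun i : Fin (m + 1) => (⟨x ^ (i : ℕ), hmem i⟩ : RR (m • Di)) := by
        apply LinearIndependent.of_comp (RR (m • Di)).subtype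
        exact linInd htr (m + 1)
      have h3 := hli.fintype_card_le_finrank
      rw [Fintype.card_fin] at h3
      change (m : ℤ) + 1 ≤ (Module.finrank F (RR (m • Di)) : ℤ)
      exact_mod_cast h3
    have hg0 : g = 0 := by
      obtain ⟨d, hd⟩ := hg.2
      have h4 := hd (d.toNat • Di) (by rw [hdgm]; exact Int.self_le_toNat d)
      have h5 := hell d.toNat
      rw [h4, hdgm] at h5
      omega
    rw [← hg0]
    exact hg
  · -- genus zero fields are rational
    intro hg0
    obtain ⟨P⟩ : Nonempty (Plc F W) := by
      have := hR.ne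
      infer_instance
    have h2 : 2 ≤ ell (Finsupp.single P 1 : Dv F W) := by
      have := hg0.1 (Finsupp.single P 1)
      rw [dg, Finsupp.sum_single_index rfl] at this
      push_cast at this
      omega
    obtain ⟨f, hf, hfc⟩ := exists_nonconst _ h2
    have hf0 : f ≠ 0 := fun h => hfc 0 (by rw [h, map_zero])
    have h3 := (hR.mem _ f).mp hf hf0
    have hdeg := (hD f hfc).2
    have := (hZ.1 f hfc).2.1
    have hpos : 0 < Module.finrank (IntermediateField.adjoin F {f}) W := Module.finrank_pos
    rw [finsum_eq_single _ P] at hdeg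
    · have h4 := h3 P
      rw [Finsupp.single_eq_same] at h4
      refine isRat_of_finrank f ?_
      have h5 : max (- ord P f) 0 ≤ 1 := max_le (by linarith) (by norm_num)
      omega
    · intro Q hQ
      have h4 := h3 Q
      rw [Finsupp.single_eq_of_ne hQ] at h4
      exact max_eq_right (by linarith)
  · rintro ⟨P, Q, f, hPQ, hf0, hf⟩
    have hordP : ∀ R : Plc F W, ord R f = (Finsupp.single P 1 - Finsupp.single Q 1 : Dv F W) R := by
      intro R
      rw [← hf, hR.dv_apply f R hf0]
    have hfc : ∀ c : F, f ≠ algebraMap F W c := by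
      intro c hc
      have h1 := hR.ord_const c P
      rw [← hc, hordP, Finsupp.sub_apply, Finsupp.single_eq_same,
        Finsupp.single_eq_of_ne hPQ] at h1
      omega
    have hdeg := (hD f hfc).1
    rw [finsum_eq_single _ P] at hdeg
    · rw [hordP, Finsupp.sub_apply, Finsupp.single_eq_same, Finsupp.single_eq_of_ne hPQ] at hdeg
      refine isRat_of_finrank f ?_
      norm_num at hdeg
      omega
    · intro R hR'
      rw [hordP, Finsupp.sub_apply, Finsupp.single_eq_of_ne hR']
      by_cases h : R = Q
      · subst h
        rw [Finsupp.single_eq_same]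
        norm_num
      · rw [Finsupp.single_eq_of_ne h]
        norm_num

end Pool.Agent.Lib.MP_c385f6_ag.TPG
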