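import Pool.Agent.Lib.MP_c385f6_ag.TPG.StA

/-!
Project TPG, part A, module ResF: the residue fields of the places are `F`.
-/

set_option autoImplicit false

namespace Pool.Agent.Lib.MP_c385f6_ag.TPG

universe u v

namespace AResF

open Polynomial

section Alg

variable {F : Type u} {W : Type v} [Field F] [Field W] [Algebra F W]

open scoped IntermediateField.algebraAdjoinAdjoin in
/-- A function field of one variable is algebraic over `F(x)` for every transcendental `x`. -/
theorem isAlgebraic_adjoin (h : FF F W) (x : W) (hx : Transcendental F x) :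
    Algebra.IsAlgebraic (IntermediateField.adjoin F {x}) W := by
  obtain ⟨t, ht, hfin⟩ := h
  have h1 : Algebra.IsAlgebraic (IntermediateField.adjoin F {t}) W := inferInstance
  have h2 : Algebra.IsAlgebraic (Algebra.adjoin F {t}) W :=
    IsFractionRing.comap_isAlgebraic_iff.2 h1
  have h3 : Algebra.trdeg F W ≤ Cardinal.mk ({t} : Set W) :=
    Algebra.IsAlgebraic.trdeg_le_cardinalMk F {t}
  have h4 : AlgebraicIndependent F ((↑) : ({x} : Set W) → W) := by
    rw [algebraicIndependent_unique_type_iff]
    exact hx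
  have h5 : IsTranscendenceBasis F ((↑) : ({x} : Set W) → W) := by
    refine h4.isTranscendenceBasis_of_trdeg_le_of_finite ?_
    rwa [Cardinal.mk_singleton] at h3 ⊢
  have h6 := h5.isAlgebraic_field
  rwa [Subtype.range_coe] at h6

/-- Valuation rings are integrally closed. -/
theorem mem_of_isAlgebraic (V : ValuationSubring W) (K : IntermediateField F W)
    (hK : ∀ z ∈ K, z ∈ V) [Algebra.IsAlgebraic K W] : V = ⊤ := by
  rw [eq_top_iff]
  intro w _
  have h1 : IsIntegral K w := (Algebra.IsAlgebraic.isAlgebraic w).isIntegral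
  obtain ⟨f, hf, hw⟩ := h1
  have h2 : IsIntegral V w := by
    refine ⟨f.map (Subring.inclusion (show K.toSubfield.toSubring ≤ V.toSubring from hK)),
      hf.map _, ?_⟩
    rw [Polynomial.eval₂_map]
    exact hw
  obtain ⟨a, ha⟩ := IsIntegrallyClosed.isIntegral_iff.1 h2
  rw [← ha]
  exact a.2

/-- The values of polynomials. -/
theorem one_le_aeval [IsAlgClosed F] (P : Plc F W) (x : W)
    (h : ∀ c : F, 1 ≤ P.ring.valuation (x - algebraMap F W c)) (n : ℕ) :
    ∀ f : F[X], f ≠ 0 → f.natDegree = n → 1 ≤ P.ring.valuation (Polynomial.aeval x f) := by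
  induction n with
  | zero =>
    intro f hf hn
    obtain ⟨a, rfl⟩ := Polynomial.natDegree_eq_zero.1 hn
    have ha : a ≠ 0 := fun h0 => hf (by rw [h0, map_zero])
    rw [Polynomial.aeval_C]
    have h1 : P.ring.valuation (algebraMap F W a⁻¹) ≤ 1 :=
      (P.ring.valuation_le_one_iff _).2 (P.const_mem _)
    have h2 : P.ring.valuation (algebraMap F W a) * P.ring.valuation (algebraMap F W a⁻¹) = 1 := by
      rw [← map_mul, ← map_mul, mul_inv_cancel₀ ha, map_one, map_one]
    calc (1 : P.ring.ValueGroup) = _ := h2.symm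
      _ ≤ P.ring.valuation (algebraMap F W a) * 1 := mul_le_mul_right h1 _
      _ = _ := mul_one _
  | succ n ih =>
    intro f hf hn
    have h1 : f.degree ≠ 0 := by
      intro h0
      have h2 := Polynomial.natDegree_eq_zero_iff_degree_le_zero.2 h0.le
      omega
    obtain ⟨c, hc⟩ := IsAlgClosed.exists_root f h1
    obtain ⟨g, rfl⟩ := Polynomial.dvd_iff_isRoot.2 hc
    have hg : g ≠ 0 := right_ne_zero_of_mul hf
    have h3 : g.natDegree = n := by
      rw [Polynomial.natDegree_mul (Polynomial.X_sub_C_ne_zero c) hg,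
        Polynomial.natDegree_X_sub_C] at hn
      omega
    have h4 := ih g hg h3
    rw [map_mul, map_mul, map_sub, Polynomial.aeval_X, Polynomial.aeval_C]
    exact one_le_mul (h c) h4

end Alg

end AResF

open AResF in
/-- A2. The residue fields are `F`. -/
theorem stResF : StResF.{u, v} := by
  intro F W _ _ _ _ hFF P x hx
  by_contra hcon
  push Not at hcon
  have h1 : ∀ f : Polynomial F, f ≠ 0 → 1 ≤ P.ring.valuation (Polynomial.aeval x f) :=
    fun f hf => one_le_aeval P x hcon _ f hf rfl
  have hx' : Transcendental F x := by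
    rintro ⟨f, hf, h0⟩
    have h2 := h1 f hf
    rw [h0, map_zero] at h2
    exact absurd h2 (not_le.2 zero_lt_one)
  have h2 := isAlgebraic_adjoin hFF x hx'
  refine P.ne_top (mem_of_isAlgebraic P.ring (IntermediateField.adjoin F {x}) ?_)
  intro z hz
  obtain ⟨r, s, rfl⟩ := (IntermediateField.mem_adjoin_simple_iff F z).1 hz
  have hr : Polynomial.aeval x r ∈ P.ring := by
    rw [Polynomial.aeval_eq_sum_range]
    refine sum_mem fun i _ => ?_
    rw [Algebra.smul_def]
    exact P.ring.mul_mem _ _ (P.const_mem _) (pow_mem hx i)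
  rw [← P.ring.valuation_le_one_iff, map_div₀]
  by_cases hs : s = 0
  · rw [hs, map_zero, map_zero, div_zero]
    exact zero_le_one
  · have h3 := h1 s hs
    have h4 := (P.ring.valuation_le_one_iff _).2 hr
    exact div_le_one_of_le₀ (h4.trans h3) zero_le

end Pool.Agent.Lib.MP_c385f6_ag.TPG
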