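import Pool.Agent.Lib.MP_c385f6_ag.TPG.StA

/-!
Project TPG, part A7: Riemann's theorem.
-/

set_option autoImplicit false

namespace Pool.Agent.Lib.MP_c385f6_ag.TPG

universe u v

namespace ARiem

variable {F : Type u} {W : Type v} [Field F] [Field W] [Algebra F W]

/-- the degree as a homomorphism -/
noncomputable def dgH : Dv F W →+ ℤ := Finsupp.liftAddHom fun _ => AddMonoidHom.id ℤ

theorem dg_eq (D : Dv F W) : dg D = dgH D := rfl

theorem dg_add (D E : Dv F W) : dg (D + E) = dg D + dg E := by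
  rw [dg_eq, dg_eq, dg_eq, map_add]

theorem dg_sub (D E : Dv F W) : dg (D - E) = dg D - dg E := by
  rw [dg_eq, dg_eq, dg_eq, map_sub]

theorem dg_nsmul (m : ℕ) (D : Dv F W) : dg (m • D) = m * dg D := by
  rw [dg_eq, dg_eq, map_nsmul, nsmul_eq_mul]

theorem dg_single (P : Plc F W) (m : ℤ) : dg (Finsupp.single P m : Dv F W) = m := by
  rw [dg, Finsupp.sum_single_index rfl]

/-- the absolute value of a divisor -/
noncomputable def ab (D : Dv F W) : Dv F W := D.mapRange (fun n : ℤ => |n|) abs_zero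

theorem ab_apply (D : Dv F W) (P : Plc F W) : ab D P = |D P| := rfl

theorem ord_pow (O : OrdF F W) (R : RRF F W) {x : W} (hx : x ≠ 0) (P : Plc F W) (i : ℕ) :
    ord P (x ^ i) = i * ord P x := by
  induction i with
  | zero =>
    have h := R.ord_const 1 P
    rw [map_one] at h
    rw [pow_zero, h, Nat.cast_zero, zero_mul]
  | succ i ih =>
    rw [pow_succ, O.mul P _ _ (pow_ne_zero i hx) hx, ih]
    push_cast
    ring

/-- step 1 and 2: multiples of the pole divisor -/
theorem exists_pole (h4 : StZero.{u, v}) (h5 : StDeg.{u, v}) [IsAlgClosed F] (h : FF F W)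
    (O : OrdF F W) (R : RRF F W) : ∃ (B : Dv F W) (γ : ℤ), 0 ≤ B ∧ 0 < dg B ∧
      ∀ l : ℕ, dg (l • B) - ell (l • B) ≤ γ := by
  classical
  obtain ⟨t, ht, hfin⟩ := h
  have h : FF F W := ⟨t, ht, hfin⟩
  have htc : ∀ c : F, t ≠ algebraMap F W c := by
    rintro c rfl
    exact ht (isAlgebraic_algebraMap c)
  have ht0 : t ≠ 0 := by
    intro h0
    exact htc 0 (by rw [h0, map_zero])
  set K := IntermediateField.adjoin F {t} with hK
  set n := Module.finrank K W with hn
  have hnpos : 0 < n := Module.finrank_pos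
  have hsupp : (Function.support fun P : Plc F W => max (-ord P t) 0).Finite := by
    refine ((h4 F W h).2 t ht0).subset fun P hP => ?_
    rw [Function.mem_support] at hP
    intro h0
    apply hP
    rw [h0, neg_zero, max_self]
  let B : Dv F W := Finsupp.ofSupportFinite (fun P => max (-ord P t) 0) hsupp
  have hBa : ∀ P, B P = max (-ord P t) 0 := fun P => rfl
  have hB0 : 0 ≤ B := fun P => by
    rw [hBa]
    exact le_max_right _ _
  have hdB : dg B = n := by
    rw [← (h5 F W h t htc).2, dg, Finsupp.sum]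
    rw [finsum_eq_sum_of_support_subset (s := B.support)]
    · rfl
    · intro P hP
      rw [Finset.mem_coe, Finsupp.mem_support_iff]
      exact hP
  let b := Module.finBasis K W
  let C : Dv F W := ∑ j, ab (dv (b j))
  have hC0 : 0 ≤ C := by
    refine Finset.sum_nonneg fun j _ => fun P => ?_
    rw [ab_apply]
    exact abs_nonneg _
  have hCa : ∀ j P, - C P ≤ ord P (b j) := by
    intro j P
    have e1 : C P = ∑ i, |(dv (b i) : Dv F W) P| := by
      change (∑ i, ab (dv (b i) : Dv F W)) P = _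
      rw [Finsupp.finsetSum_apply]
      rfl
    have e2 : |(dv (b j) : Dv F W) P| ≤ C P := by
      rw [e1]
      exact Finset.single_le_sum (f := fun i => |(dv (b i) : Dv F W) P|)
        (fun i _ => abs_nonneg _) (Finset.mem_univ j)
    rw [R.dv_apply _ _ (b.ne_zero j)] at e2
    linarith [neg_abs_le (ord P (b j))]
  refine ⟨B, dg C - n, hB0, ?_, fun l => ?_⟩
  · rw [hdB]
    exact_mod_cast hnpos
  · -- the elements t ^ i * u_j
    have htK : t ∈ K := IntermediateField.mem_adjoin_simple_self F t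
    let tK : K := ⟨t, htK⟩
    have hli1 : LinearIndependent F fun i : Fin (l + 1) => tK ^ (i : ℕ) := by
      have e1 : Transcendental F tK := by
        intro h0
        exact ht (h0.algebraMap (A := W))
      have e2 : LinearIndependent F fun i : ℕ => tK ^ i := by
        have e3 := (Polynomial.basisMonomials F).linearIndependent.map'
          (Polynomial.aeval tK).toLinearMap
          (LinearMap.ker_eq_bot.2 (transcendental_iff_injective.1 e1))
        have e4 : (fun i : ℕ => tK ^ i) = (Polynomial.aeval tK).toLinearMap ∘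
            (Polynomial.basisMonomials F) := by
          funext i
          simp
        rw [e4]
        exact e3
      exact e2.comp (fun i : Fin (l + 1) => (i : ℕ)) Fin.val_injective
    have hli := linearIndependent_smul hli1 b.linearIndependent
    have hmem : ∀ p : Fin (l + 1) × Fin (Module.finrank K W),
        (tK ^ (p.1 : ℕ)) • b p.2 ∈ RR (l • B + C) := by
      rintro ⟨i, j⟩
      rw [R.mem]
      intro _ P
      have e1 : (tK ^ (i : ℕ)) • b j = t ^ (i : ℕ) * b j := rfl
      change - (l • B + C) P ≤ ord P ((tK ^ (i : ℕ)) • b j)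
      rw [e1, O.mul P _ _ (pow_ne_zero _ ht0) (b.ne_zero j), ord_pow O R ht0,
        Finsupp.add_apply, Finsupp.smul_apply, hBa, nsmul_eq_mul]
      have e2 := hCa j P
      have e3 : -((l : ℤ) * max (-ord P t) 0) ≤ (i : ℕ) * ord P t := by
        have e4 : ((i : ℕ) : ℤ) ≤ l := by exact_mod_cast Nat.lt_succ_iff.1 i.2
        have e5 : (0 : ℤ) ≤ (i : ℕ) := Int.natCast_nonneg _
        have e6 : -ord P t ≤ max (-ord P t) 0 := le_max_left _ _
        have e7 : (0 : ℤ) ≤ max (-ord P t) 0 := le_max_right _ _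
        nlinarith [mul_le_mul_of_nonneg_left e6 e5, mul_le_mul_of_nonneg_right e4 e7]
      linarith
    have hfin2 := R.fin (l • B + C)
    have hli2 : LinearIndependent F fun p : Fin (l + 1) × Fin (Module.finrank K W) =>
        (⟨(tK ^ (p.1 : ℕ)) • b p.2, hmem p⟩ : RR (l • B + C)) := by
      apply LinearIndependent.of_comp (RR (l • B + C)).subtype
      exact hli
    have hcard := hli2.fintype_card_le_finrank
    rw [Fintype.card_prod, Fintype.card_fin, Fintype.card_fin] at hcard
    have e1 : ((l : ℤ) + 1) * n ≤ ell (l • B + C) := by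
      rw [ell]
      exact_mod_cast hcard
    have e2 := (R.mono (l • B) (l • B + C) (le_add_of_nonneg_right hC0)).2
    rw [dg_add] at e2
    rw [dg_nsmul, hdB]
    linarith

/-- step 3: the defect is bounded -/
theorem bounded (h4 : StZero.{u, v}) (h5 : StDeg.{u, v}) [IsAlgClosed F] (h : FF F W)
    (O : OrdF F W) (R : RRF F W) : ∃ γ : ℤ, ∀ A : Dv F W, dg A - ell A ≤ γ := by
  obtain ⟨B, γ, hB0, hB, hBl⟩ := exists_pole h4 h5 h O R
  refine ⟨γ, fun A => ?_⟩
  have hA0 : 0 ≤ ab A := fun P => abs_nonneg (A P)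
  have hA1 : A ≤ ab A := fun P => le_abs_self (A P)
  -- a large multiple
  obtain ⟨l, hl⟩ : ∃ l : ℕ, γ + dg (ab A) < l * dg B := by
    refine ⟨(γ + dg (ab A)).toNat + 1, ?_⟩
    have e1 := Int.self_le_toNat (γ + dg (ab A))
    have e2 : (0 : ℤ) ≤ ((γ + dg (ab A)).toNat : ℤ) := Int.natCast_nonneg _
    push_cast
    nlinarith
  have e1 := hBl l
  have e2 := (R.mono (l • B - ab A) (l • B) (sub_le_self _ hA0)).2
  rw [dg_sub] at e2
  have e3 : 0 < ell (l • B - ab A) := by
    rw [dg_nsmul] at e1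
    linarith
  obtain ⟨z, hz, hz'⟩ := R.eff _ e3
  -- ab A ~ D ≤ l B
  have hdg := R.dg_dv z hz
  have e4 : ab A - dv z ≤ l • B := by
    have e5 : 0 ≤ l • B - (ab A - dv z) := by
      have e6 : l • B - (ab A - dv z) = dv z + (l • B - ab A) := by abel
      rw [e6]
      exact hz'
    exact sub_nonneg.1 e5
  have e5 := (R.mono _ _ e4).2
  have e6 := R.shift (ab A - dv z) z hz
  rw [sub_add_cancel] at e6
  have e7 := (R.mono _ _ hA1).2
  rw [dg_sub] at e5
  linarith

end ARiem

/-- A7. Riemann's theorem. -/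
theorem stRiem (h1 : StOrd.{u, v}) (_h2 : StResF.{u, v}) (_h3 : StWA.{u, v})
    (h4 : StZero.{u, v}) (h5 : StDeg.{u, v}) (h6 : StRRF.{u, v}) : StRiem.{u, v} := by
  intro F W _ _ _ _ h
  have O := h1 F W h
  have R := h6 F W h
  obtain ⟨γ, hγ⟩ := ARiem.bounded h4 h5 h O R
  obtain ⟨m, ⟨D1, hD1⟩, hmax⟩ := Int.exists_greatest_of_bdd
    (P := fun m : ℤ => ∃ D : Dv F W, dg D - ell D = m)
    ⟨γ, fun m ⟨D, hD⟩ => hD ▸ hγ D⟩ ⟨_, 0, rfl⟩
  have hm : -1 ≤ m := by
    have e1 := hmax _ ⟨(0 : Dv F W), rfl⟩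
    rw [R.zero] at e1
    have e2 : dg (0 : Dv F W) = 0 := by
      rw [ARiem.dg_eq, map_zero]
    rw [e2] at e1
    linarith
  obtain ⟨g, hg⟩ : ∃ g : ℕ, (g : ℤ) = m + 1 := ⟨(m + 1).toNat, Int.toNat_of_nonneg (by linarith)⟩
  have hineq : ∀ D : Dv F W, dg D + 1 - g ≤ ell D := by
    intro D
    have e1 := hmax _ ⟨D, rfl⟩
    linarith
  have hgen : IsGenus F W g := by
    refine ⟨hineq, dg D1 + g, fun D hD => le_antisymm ?_ (hineq D)⟩
    have e1 := hineq (D - D1)
    rw [ARiem.dg_sub] at e1
    obtain ⟨f, hf, hf'⟩ := R.eff (D - D1) (by linarith)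
    have e2 : D1 ≤ D + dv f := by
      have e3 : 0 ≤ D + dv f - D1 := by
        have e4 : D + dv f - D1 = dv f + (D - D1) := by abel
        rw [e4]
        exact hf'
      exact sub_nonneg.1 e3
    have e3 := (R.mono _ _ e2).2
    rw [R.shift D f hf, ARiem.dg_add, R.dg_dv f hf] at e3
    linarith
  refine ⟨g, hgen, fun g' hg' => ?_⟩
  obtain ⟨d, hd⟩ := hgen.2
  obtain ⟨d', hd'⟩ := hg'.2
  have := R.ne
  obtain ⟨P⟩ : Nonempty (Plc F W) := inferInstance
  have e1 := hd (Finsupp.single P (max d d')) (by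
    rw [ARiem.dg_single]
    exact le_max_left _ _)
  have e2 := hd' (Finsupp.single P (max d d')) (by
    rw [ARiem.dg_single]
    exact le_max_right _ _)
  have e3 : (g' : ℤ) = g := by linarith
  exact_mod_cast e3

end Pool.Agent.Lib.MP_c385f6_ag.TPG
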