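import Mathlib
import Pool.Agent.Lib.MP_c385f6_ag.PlaceInertia
import Pool.Agent.Lib.MP_c385f6_ag.TPG.StA

set_option autoImplicit false

/-!
Project TPG, A11: the Galois group of a finite Galois extension is transitive on the places above
a place.
-/

namespace Pool.Agent.Lib.MP_c385f6_ag.TPG

open Polynomial
open scoped Pointwise

universe u v w

namespace ATrans

section
variable {K Ω : Type*} [Field K] [Field Ω] [Algebra K Ω]

/-- The prime of the integral closure below `V`. -/
def primeBelow (A : ValuationSubring K) (V : ValuationSubring Ω)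
    (hV : ∀ a ∈ A, algebraMap K Ω a ∈ V) : Ideal (integralClosure A Ω) where
  carrier := {s | V.valuation (s : Ω) < 1}
  zero_mem' := by simp
  add_mem' := by
    intro s t hs ht
    show V.valuation ((s : Ω) + (t : Ω)) < 1
    exact (Valuation.map_add _ _ _).trans_lt (max_lt hs ht)
  smul_mem' := by
    intro s t ht
    show V.valuation ((s : Ω) * (t : Ω)) < 1
    rw [map_mul]
    have h1 : V.valuation (s : Ω) ≤ 1 := (V.valuation_le_one_iff _).2 (integral_mem A hV s.2)
    calc _ ≤ 1 * V.valuation (t : Ω) := by gcongr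
      _ < 1 := by rw [one_mul]; exact ht

theorem mem_primeBelow {A : ValuationSubring K} {V : ValuationSubring Ω}
    (hV : ∀ a ∈ A, algebraMap K Ω a ∈ V) (s : integralClosure A Ω) :
    s ∈ primeBelow A V hV ↔ V.valuation (s : Ω) < 1 := Iff.rfl

theorem primeBelow_isPrime {A : ValuationSubring K} {V : ValuationSubring Ω}
    (hV : ∀ a ∈ A, algebraMap K Ω a ∈ V) : (primeBelow A V hV).IsPrime := by
  constructor
  · intro h
    have h1 : (1 : integralClosure A Ω) ∈ primeBelow A V hV := by rw [h]; trivial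
    rw [mem_primeBelow] at h1
    simp at h1
  · intro s t hst
    rw [mem_primeBelow] at hst
    by_contra hcon
    push Not at hcon
    simp only [mem_primeBelow, not_lt] at hcon
    have h1 : V.valuation (s : Ω) = 1 :=
      le_antisymm ((V.valuation_le_one_iff _).2 (integral_mem A hV s.2)) hcon.1
    have h2 : V.valuation (t : Ω) = 1 :=
      le_antisymm ((V.valuation_le_one_iff _).2 (integral_mem A hV t.2)) hcon.2
    rw [MulMemClass.coe_mul, map_mul, h1, h2, one_mul] at hst
    exact lt_irrefl _ hst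

theorem primeBelow_liesOver {A : ValuationSubring K} {V : ValuationSubring Ω}
    (hV : ∀ a ∈ A, algebraMap K Ω a ∈ V)
    (hV' : ∀ a ∈ A, A.valuation a < 1 → V.valuation (algebraMap K Ω a) < 1) :
    (primeBelow A V hV).LiesOver (IsLocalRing.maximalIdeal A) := by
  constructor
  ext a
  rw [Ideal.mem_comap, mem_primeBelow, ValuationSubring.valuation_lt_one_iff]
  constructor
  · intro h
    exact hV' a a.2 h
  · intro h
    by_contra hcon
    have h1 : A.valuation (a : K) = 1 :=
      le_antisymm ((A.valuation_le_one_iff _).2 a.2) (not_lt.1 hcon)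
    have h2 : IsUnit a := (A.valuation_eq_one_iff a).2 h1
    obtain ⟨b, hb⟩ := h2.exists_right_inv
    have h3 : V.valuation (algebraMap K Ω a) * V.valuation (algebraMap K Ω b) = 1 := by
      rw [← map_mul, ← map_mul]
      have h4 : (a : K) * (b : K) = 1 := congrArg Subtype.val hb
      rw [h4, map_one, map_one]
    have h4 : V.valuation (algebraMap K Ω b) ≤ 1 := (V.valuation_le_one_iff _).2 (hV b b.2)
    have h5 : V.valuation (algebraMap K Ω a) < 1 := h
    have h6 : V.valuation (algebraMap K Ω a) * V.valuation (algebraMap K Ω b) < 1 := by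
      calc _ ≤ V.valuation (algebraMap K Ω a) * 1 := by gcongr
        _ < 1 := by rwa [mul_one]
    exact h6.ne h3

theorem lt_one_iff (V : ValuationSubring Ω) (u : Ω) :
    V.valuation u < 1 ↔ u = 0 ∨ u⁻¹ ∉ V := by
  by_cases hu : u = 0
  · simp [hu]
  · rw [← V.valuation_le_one_iff, map_inv₀, inv_le_one₀, not_le]
    · simp [hu]
    · exact zero_lt_iff.2 ((Valuation.ne_zero_iff _).2 hu)

theorem lt_one_of_comap {A : ValuationSubring K} {V : ValuationSubring Ω}
    (h : V.comap (algebraMap K Ω) = A) (a : K) :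
    A.valuation a < 1 → V.valuation (algebraMap K Ω a) < 1 := by
  intro ha
  rw [lt_one_iff] at ha ⊢
  rcases ha with ha | ha
  · left
    rw [ha, map_zero]
  · right
    rw [← map_inv₀, ← ValuationSubring.mem_comap, h]
    exact ha

/-- The Galois group acts on the integral closure. -/
@[reducible] noncomputable def closureAction (A : ValuationSubring K) :
    MulSemiringAction (Ω ≃ₐ[K] Ω) (integralClosure A Ω) where
  smul σ s := ⟨σ s, IsIntegral.map (σ.toAlgHom.restrictScalars A) s.2⟩
  one_smul _ := rfl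
  mul_smul _ _ _ := rfl
  smul_zero σ := Subtype.ext (map_zero σ)
  smul_add σ s t := Subtype.ext (map_add σ (s : Ω) t)
  smul_one σ := Subtype.ext (map_one σ)
  smul_mul σ s t := Subtype.ext (map_mul σ (s : Ω) t)

theorem closureAction_invariant [FiniteDimensional K Ω] [IsGalois K Ω] (A : ValuationSubring K) :
    letI := closureAction (Ω := Ω) A
    Algebra.IsInvariant A (integralClosure A Ω) (Ω ≃ₐ[K] Ω) := by
  let _ := closureAction (Ω := Ω) A
  constructor
  intro s hs
  have h1 : (s : Ω) ∈ Set.range (algebraMap K Ω) := by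
    rw [IsGalois.mem_range_algebraMap_iff_fixed]
    intro σ
    exact congrArg Subtype.val (hs σ)
  obtain ⟨a, ha⟩ := h1
  have h2 : IsIntegral A (algebraMap K Ω a) := by rw [ha]; exact s.2
  have h3 : IsIntegral A a := (isIntegral_algebraMap_iff (algebraMap K Ω).injective).1 h2
  obtain ⟨b, hb⟩ := (IsIntegrallyClosed.isIntegral_iff (R := A) (K := K)).1 h3
  refine ⟨b, Subtype.ext ?_⟩
  rw [← ha, ← hb]
  rfl

theorem mem_of_mem [Algebra.IsAlgebraic K Ω] {A : ValuationSubring K}
    {V V' : ValuationSubring Ω} (hV : ∀ a ∈ A, algebraMap K Ω a ∈ V)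
    (hV' : ∀ a ∈ A, algebraMap K Ω a ∈ V') (σ : Ω ≃ₐ[K] Ω)
    (h : ∀ s : Ω, IsIntegral A s → V'.valuation (σ s) < 1 → V.valuation s < 1) {z : Ω}
    (hz : z ∈ V) : σ z ∈ V' := by
  obtain ⟨b, c, hb, hc, hc1, rfl⟩ := exists_quotient (A := A) hV hz
  have hb' : IsIntegral A (σ b) := IsIntegral.map (σ.toAlgHom.restrictScalars A) hb
  have hc' : IsIntegral A (σ c) := IsIntegral.map (σ.toAlgHom.restrictScalars A) hc
  have h1 : σ b ∈ V' := integral_mem A hV' hb'
  have h2 : σ c ∈ V' := integral_mem A hV' hc'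
  have h3 : ¬ V'.valuation (σ c) < 1 := fun h4 => (h c hc h4).ne hc1
  have h4 : V'.valuation (σ c) = 1 :=
    le_antisymm ((V'.valuation_le_one_iff _).2 h2) (not_lt.1 h3)
  have h5 : V'.valuation (σ (b / c)) ≤ 1 := by
    rw [map_div₀, map_div₀, h4, div_one]
    exact (V'.valuation_le_one_iff _).2 h1
  exact (V'.valuation_le_one_iff _).1 h5

/-- Transitivity for valuation rings. -/
theorem trans [FiniteDimensional K Ω] [IsGalois K Ω] (A : ValuationSubring K)
    (V V' : ValuationSubring Ω) (hA1 : V.comap (algebraMap K Ω) = A)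
    (hA2 : V'.comap (algebraMap K Ω) = A) : ∃ σ : Ω ≃ₐ[K] Ω, ∀ z, z ∈ V ↔ σ z ∈ V' := by
  have hV : ∀ a ∈ A, algebraMap K Ω a ∈ V := by
    intro a ha
    rw [← hA1] at ha
    exact ha
  have hV' : ∀ a ∈ A, algebraMap K Ω a ∈ V' := by
    intro a ha
    rw [← hA2] at ha
    exact ha
  have hW : ∀ a ∈ A, A.valuation a < 1 → V.valuation (algebraMap K Ω a) < 1 :=
    fun a _ => lt_one_of_comap hA1 a
  have hW' : ∀ a ∈ A, A.valuation a < 1 → V'.valuation (algebraMap K Ω a) < 1 :=
    fun a _ => lt_one_of_comap hA2 a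
  let S := integralClosure A Ω
  let P : Ideal S := primeBelow A V hV
  let Q : Ideal S := primeBelow A V' hV'
  have hP : P.IsPrime := primeBelow_isPrime hV
  have hQ : Q.IsPrime := primeBelow_isPrime hV'
  have hPm : P.LiesOver (IsLocalRing.maximalIdeal A) := primeBelow_liesOver hV hW
  have hQm : Q.LiesOver (IsLocalRing.maximalIdeal A) := primeBelow_liesOver hV' hW'
  let _ : MulSemiringAction (Ω ≃ₐ[K] Ω) S := closureAction A
  have _ : Algebra.IsInvariant A S (Ω ≃ₐ[K] Ω) := closureAction_invariant A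
  have _ : SMulCommClass (Ω ≃ₐ[K] Ω) A S := by
    constructor
    intro σ a s
    apply Subtype.ext
    show σ (a • (s : Ω)) = a • σ (s : Ω)
    rw [Algebra.smul_def, map_mul, Algebra.smul_def]
    congr 1
    exact σ.commutes _
  obtain ⟨σ, hσ⟩ := Algebra.IsInvariant.exists_smul_of_under_eq A S
    (Ω ≃ₐ[K] Ω) P Q (by rw [← hPm.over, ← hQm.over])
  have key : ∀ s : S, s ∈ P ↔ σ • s ∈ Q := by
    intro s
    rw [hσ, Ideal.smul_mem_pointwise_smul_iff]
  have hc : ∀ (σ : Ω ≃ₐ[K] Ω) (s : Ω), IsIntegral A s → IsIntegral A (σ s) :=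
    fun σ s hs => IsIntegral.map (σ.toAlgHom.restrictScalars A) hs
  have key' : ∀ s : Ω, IsIntegral A s → (V.valuation s < 1 ↔ V'.valuation (σ s) < 1) := by
    intro s hs
    exact key ⟨s, hs⟩
  refine ⟨σ, fun z => ⟨fun hz => ?_, fun hz => ?_⟩⟩
  · exact mem_of_mem hV hV' σ (fun s hs h => (key' s hs).2 h) hz
  · have h1 : σ⁻¹ (σ z) ∈ V := by
      refine mem_of_mem hV' hV σ⁻¹ (fun s hs h => ?_) hz
      have h2 := (key' (σ⁻¹ s) (hc σ⁻¹ s hs)).1 h
      have h3 : σ (σ⁻¹ s) = s := by
        show (σ * σ⁻¹) s = s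
        rw [mul_inv_cancel]
        rfl
      rwa [h3] at h2
    have h3 : σ⁻¹ (σ z) = z := by
      show (σ⁻¹ * σ) z = z
      rw [inv_mul_cancel]
      rfl
    rwa [h3] at h1

end

end ATrans

/-- A11. -/
theorem stTrans : StTrans.{u, v, w} := by
  intro F W W' _ _ _ _ _ _ _ _ _ P Q Q' hQ hQ'
  obtain ⟨σ, hσ⟩ := ATrans.trans P.ring Q.ring Q'.ring hQ.symm hQ'.symm
  exact ⟨σ, hσ⟩

end Pool.Agent.Lib.MP_c385f6_ag.TPG
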