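import Pool.Agent.Lib.MP_c385f6_ag.TPG.StA

/-!
Project TPG, part A, A3: weak approximation for the places of a function field of one variable.
-/

set_option autoImplicit false

namespace Pool.Agent.Lib.MP_c385f6_ag.TPG

universe u v

namespace AWA

variable {F : Type u} {W : Type v} [Field F] [Field W] [Algebra F W]

theorem ord_one (h : OrdF F W) (P : Plc F W) : ord P (1 : W) = 0 := by
  have h1 := h.mul P 1 1 one_ne_zero one_ne_zero
  rw [mul_one] at h1
  omega

theorem ord_neg (h : OrdF F W) (P : Plc F W) {x : W} (hx : x ≠ 0) : ord P (-x) = ord P x := by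
  have h0 : (-1 : W) ≠ 0 := neg_ne_zero.2 one_ne_zero
  have h1 := h.mul P (-1) (-1) h0 h0
  have h2 : ((-1 : W) * (-1)) = 1 := by ring
  rw [h2, ord_one h P] at h1
  have h3 := h.mul P (-1) x h0 hx
  rw [neg_one_mul] at h3
  omega

theorem ord_inv (h : OrdF F W) (P : Plc F W) {x : W} (hx : x ≠ 0) : ord P x⁻¹ = - ord P x := by
  have h1 := h.mul P x x⁻¹ hx (inv_ne_zero hx)
  rw [mul_inv_cancel₀ hx, ord_one h P] at h1
  omega

theorem ord_pow (h : OrdF F W) (P : Plc F W) {x : W} (hx : x ≠ 0) (r : ℕ) :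
    ord P (x ^ r) = r * ord P x := by
  induction r with
  | zero => simp [ord_one h P]
  | succ r ih =>
    rw [pow_succ, h.mul P _ _ (pow_ne_zero r hx) hx, ih]
    push_cast
    ring

/-- the order of a sum of elements with different orders -/
theorem ord_add_eq (h : OrdF F W) (P : Plc F W) {x y : W} (hx : x ≠ 0) (hy : y ≠ 0)
    (hlt : ord P x < ord P y) : x + y ≠ 0 ∧ ord P (x + y) = ord P x := by
  have h0 : x + y ≠ 0 := by
    intro h0
    have h1 : y = -x := by
      rw [eq_neg_iff_add_eq_zero, add_comm]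
      exact h0
    rw [h1, ord_neg h P hx] at hlt
    exact lt_irrefl _ hlt
  refine ⟨h0, ?_⟩
  have h1 := h.add P x y hx hy h0
  have h2 := h.add P (x + y) (-y) h0 (neg_ne_zero.2 hy) (by rwa [add_neg_cancel_right])
  rw [add_neg_cancel_right, ord_neg h P hy] at h2
  rw [min_eq_left hlt.le] at h1
  rcases min_le_iff.1 h2 with h3 | h3
  · exact le_antisymm h3 h1
  · omega

/-- different places are incomparable -/
theorem exists_not_mem (h : OrdF F W) {P Q : Plc F W} (hPQ : P ≠ Q) :
    ∃ z : W, z ∈ P.ring ∧ z ∉ Q.ring := by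
  by_contra hcon
  push Not at hcon
  have hle : Q.ring ≤ P.ring := by
    intro z hz
    by_contra hzP
    apply Q.ne_top
    rw [eq_top_iff]
    intro w _
    have hz0 : z ≠ 0 := by
      rintro rfl
      exact hzP (zero_mem _)
    by_cases hw : w = 0
    · rw [hw]
      exact zero_mem _
    have hneg : ord P z < 0 := by
      by_contra hc
      exact hzP ((h.mem P z hz0).2 (not_lt.1 hc))
    -- a large power of `z`
    obtain ⟨k, hk⟩ : ∃ k : ℕ, -ord P w ≤ k := ⟨(-ord P w).toNat, Int.self_le_toNat _⟩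
    have h1 : w * (z ^ k)⁻¹ ∈ P.ring := by
      have h0 : (z ^ k)⁻¹ ≠ 0 := inv_ne_zero (pow_ne_zero k hz0)
      rw [h.mem P _ (mul_ne_zero hw h0), h.mul P _ _ hw h0, ord_inv h P (pow_ne_zero k hz0),
        ord_pow h P hz0]
      nlinarith
    have h2 : w = (w * (z ^ k)⁻¹) * z ^ k := by
      rw [inv_mul_cancel_right₀ (pow_ne_zero k hz0)]
    rw [h2]
    exact mul_mem (hcon _ h1) (pow_mem hz k)
  apply hPQ
  apply Plc.ext
  apply le_antisymm
  · exact fun z hz => hcon z hz
  · exact hle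

theorem exists_pair (h : OrdF F W) {P Q : Plc F W} (hPQ : P ≠ Q) :
    ∃ u : W, u ≠ 0 ∧ 0 < ord P u ∧ ord Q u < 0 := by
  obtain ⟨a, haP, haQ⟩ := exists_not_mem h hPQ
  obtain ⟨b, hbQ, hbP⟩ := exists_not_mem h hPQ.symm
  have ha0 : a ≠ 0 := by
    rintro rfl
    exact haQ (zero_mem _)
  have hb0 : b ≠ 0 := by
    rintro rfl
    exact hbP (zero_mem _)
  rw [h.mem P a ha0] at haP
  rw [h.mem Q a ha0] at haQ
  rw [h.mem P b hb0] at hbP
  rw [h.mem Q b hb0] at hbQ
  refine ⟨a * b⁻¹, mul_ne_zero ha0 (inv_ne_zero hb0), ?_, ?_⟩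
  · rw [h.mul P _ _ ha0 (inv_ne_zero hb0), ord_inv h P hb0]
    omega
  · rw [h.mul Q _ _ ha0 (inv_ne_zero hb0), ord_inv h Q hb0]
    omega

/-- an element with a zero at `P` and poles at given other places -/
theorem exists_zero_poles (h : OrdF F W) (P : Plc F W) (T : Finset (Plc F W)) :
    P ∉ T → ∃ z : W, z ≠ 0 ∧ 0 < ord P z ∧ ∀ Q ∈ T, ord Q z < 0 := by
  classical
  induction T using Finset.induction_on with
  | empty =>
    intro _
    obtain ⟨u, hu, hu1⟩ := h.unif P
    exact ⟨u, hu, by omega, by simp⟩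
  | insert Q₀ T hQ₀ ih =>
    intro hP
    rw [Finset.mem_insert, not_or] at hP
    obtain ⟨z, hz0, hzP, hzT⟩ := ih hP.2
    by_cases hzQ : ord Q₀ z < 0
    · refine ⟨z, hz0, hzP, fun Q hQ => ?_⟩
      rcases Finset.mem_insert.1 hQ with rfl | hQ
      · exact hzQ
      · exact hzT Q hQ
    · obtain ⟨u, hu0, huP, huQ⟩ := exists_pair h hP.1
      set r : ℕ := 1 + ∑ Q ∈ insert Q₀ T, (ord Q z).natAbs with hr
      have hr1 : 1 ≤ r := by omega
      have hrQ : ∀ Q ∈ insert Q₀ T, |ord Q z| < r := by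
        intro Q hQ
        have h1 : (ord Q z).natAbs ≤ ∑ Q ∈ insert Q₀ T, (ord Q z).natAbs :=
          Finset.single_le_sum (f := fun Q => (ord Q z).natAbs) (fun _ _ => Nat.zero_le _) hQ
        have h2 : |ord Q z| = ((ord Q z).natAbs : ℤ) := Int.abs_eq_natAbs _
        rw [h2]
        exact_mod_cast (by omega : (ord Q z).natAbs < r)
      have hur0 : u ^ r ≠ 0 := pow_ne_zero r hu0
      -- the order of `z + u ^ r` at `Q`
      have key : ∀ Q ∈ insert Q₀ T, (ord Q z < 0 ∨ ord Q u < 0) →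
          z + u ^ r ≠ 0 ∧ ord Q (z + u ^ r) < 0 := by
        intro Q hQ hor
        have h1 := hrQ Q hQ
        rw [abs_lt] at h1
        have hpow := ord_pow h Q hu0 r
        rcases lt_trichotomy (ord Q u) 0 with hlt | heq | hgt
        · have h2 : ord Q (u ^ r) < ord Q z := by
            rw [hpow]
            nlinarith
          have h3 := ord_add_eq h Q hur0 hz0 h2
          rw [add_comm] at h3
          refine ⟨h3.1, ?_⟩
          rw [h3.2, hpow]
          nlinarith
        · have h4 : ord Q z < 0 := by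
            rcases hor with h5 | h5
            · exact h5
            · omega
          have h2 : ord Q z < ord Q (u ^ r) := by
            rw [hpow, heq]
            simpa using h4
          have h3 := ord_add_eq h Q hz0 hur0 h2
          exact ⟨h3.1, by rw [h3.2]; exact h4⟩
        · have h4 : ord Q z < 0 := by
            rcases hor with h5 | h5
            · exact h5
            · omega
          have h2 : ord Q z < ord Q (u ^ r) := by
            rw [hpow]
            nlinarith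
          have h3 := ord_add_eq h Q hz0 hur0 h2
          exact ⟨h3.1, by rw [h3.2]; exact h4⟩
      have hne := (key Q₀ (Finset.mem_insert_self _ _) (Or.inr huQ)).1
      refine ⟨z + u ^ r, hne, ?_, fun Q hQ => ?_⟩
      · have h1 := h.add P z (u ^ r) hz0 hur0 hne
        rw [ord_pow h P hu0] at h1
        have h2 : 0 < (r : ℤ) * ord P u := mul_pos (by exact_mod_cast hr1) huP
        exact lt_of_lt_of_le (lt_min hzP h2) h1
      · rcases Finset.mem_insert.1 hQ with rfl | hQ'
        · exact (key _ (Finset.mem_insert_self _ _) (Or.inr huQ)).2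
        · exact (key Q hQ (Or.inl (hzT Q hQ'))).2

/-- an element near `1` at `P` and near `0` at given other places -/
theorem exists_near (h : OrdF F W) (P : Plc F W) (T : Finset (Plc F W)) (hP : P ∉ T) (r : ℕ) :
    ∃ e : W, (e ≠ 1 → (r : ℤ) ≤ ord P (e - 1)) ∧ e ≠ 0 ∧ ∀ Q ∈ T, (r : ℤ) ≤ ord Q e := by
  obtain ⟨z, hz0, hzP, hzT⟩ := exists_zero_poles h P T hP
  have hz : z ^ (r + 1) ≠ 0 := pow_ne_zero _ hz0
  -- at `P`
  have hpos : ord P (1 : W) < ord P (z ^ (r + 1)) := by
    rw [ord_one h P, ord_pow h P hz0]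
    exact mul_pos (by exact_mod_cast Nat.succ_pos r) hzP
  have hP1 := ord_add_eq h P one_ne_zero hz hpos
  rw [ord_one h P] at hP1
  refine ⟨(1 + z ^ (r + 1))⁻¹, fun _ => ?_, inv_ne_zero hP1.1, fun Q hQ => ?_⟩
  · have e1 : (1 + z ^ (r + 1))⁻¹ - 1 = -(z ^ (r + 1) * (1 + z ^ (r + 1))⁻¹) := by
      have := hP1.1
      field_simp
      ring
    rw [e1, ord_neg h P (mul_ne_zero hz (inv_ne_zero hP1.1)), h.mul P _ _ hz (inv_ne_zero hP1.1),
      ord_inv h P hP1.1, hP1.2, ord_pow h P hz0]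
    push_cast
    nlinarith
  · have hneg := hzT Q hQ
    have hlt : ord Q (z ^ (r + 1)) < ord Q (1 : W) := by
      rw [ord_one h Q, ord_pow h Q hz0]
      push_cast
      nlinarith
    have hQ1 := ord_add_eq h Q hz one_ne_zero hlt
    rw [add_comm] at hQ1
    rw [ord_inv h Q hP1.1, hQ1.2, ord_pow h Q hz0]
    push_cast
    nlinarith

/-- sums of elements of large order -/
theorem ge_sum (h : OrdF F W) (P : Plc F W) (n : ℤ) {ι : Type*} (s : Finset ι) (f : ι → W)
    (hf : ∀ i ∈ s, f i ≠ 0 → n ≤ ord P (f i)) : ∑ i ∈ s, f i ≠ 0 → n ≤ ord P (∑ i ∈ s, f i) := by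
  classical
  induction s using Finset.induction_on with
  | empty =>
    intro h0
    exact absurd Finset.sum_empty h0
  | insert i s hi ih =>
    rw [Finset.sum_insert hi]
    intro h0
    have ih' := ih fun j hj => hf j (Finset.mem_insert_of_mem hj)
    by_cases h1 : f i = 0
    · rw [h1, zero_add] at h0 ⊢
      exact ih' h0
    by_cases h2 : ∑ j ∈ s, f j = 0
    · rw [h2, add_zero]
      exact hf i (Finset.mem_insert_self _ _) h1
    · exact (le_min (hf i (Finset.mem_insert_self _ _) h1) (ih' h2)).trans (h.add P _ _ h1 h2 h0)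

end AWA

open AWA in
/-- A3. Weak approximation. -/
theorem stWA : StWA.{u, v} := by
  classical
  intro F W _ _ _ _ h S x n
  -- a large exponent
  obtain ⟨r, hr⟩ : ∃ r : ℕ, ∀ P ∈ S, ∀ Q ∈ S, n - ord P (x Q) ≤ r := by
    refine ⟨∑ P ∈ S, ∑ Q ∈ S, (n - ord P (x Q)).toNat, fun P hP Q hQ => ?_⟩
    have h1 : (n - ord P (x Q)).toNat ≤ ∑ Q ∈ S, (n - ord P (x Q)).toNat :=
      Finset.single_le_sum (f := fun Q => (n - ord P (x Q)).toNat) (fun _ _ => Nat.zero_le _) hQ
    have h2 : ∑ Q ∈ S, (n - ord P (x Q)).toNat ≤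
        ∑ P ∈ S, ∑ Q ∈ S, (n - ord P (x Q)).toNat :=
      Finset.single_le_sum (f := fun P => ∑ Q ∈ S, (n - ord P (x Q)).toNat)
        (fun _ _ => Nat.zero_le _) hP
    have h3 := Int.self_le_toNat (n - ord P (x Q))
    have h4 : ((n - ord P (x Q)).toNat : ℤ) ≤
        ((∑ P ∈ S, ∑ Q ∈ S, (n - ord P (x Q)).toNat : ℕ) : ℤ) := by
      exact_mod_cast h1.trans h2
    exact h3.trans h4
  have hex : ∀ P : Plc F W, ∃ e : W, (e ≠ 1 → (r : ℤ) ≤ ord P (e - 1)) ∧ e ≠ 0 ∧
      ∀ Q ∈ S.erase P, (r : ℤ) ≤ ord Q e := fun P =>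
    exists_near h P (S.erase P) (Finset.notMem_erase P S) r
  choose e he1 he0 heQ using hex
  refine ⟨∑ Q ∈ S, x Q * e Q, fun P hP hne => ?_⟩
  have h1 : ∑ Q ∈ S, x Q * e Q - x P =
      ∑ Q ∈ S, (if Q = P then x P * (e P - 1) else x Q * e Q) := by
    rw [← Finset.add_sum_erase S _ hP, ← Finset.add_sum_erase S _ hP, if_pos rfl]
    have h2 : ∑ Q ∈ S.erase P, (if Q = P then x P * (e P - 1) else x Q * e Q) =
        ∑ Q ∈ S.erase P, x Q * e Q :=
      Finset.sum_congr rfl fun Q hQ => if_neg (Finset.ne_of_mem_erase hQ)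
    rw [h2]
    ring
  rw [h1]
  refine ge_sum h P n S _ (fun Q hQ => ?_) ?_
  · split_ifs with hQP
    · intro h0
      have hx0 : x P ≠ 0 := left_ne_zero_of_mul h0
      have he : e P - 1 ≠ 0 := right_ne_zero_of_mul h0
      rw [h.mul P _ _ hx0 he]
      have h2 := he1 P (fun h3 => he (sub_eq_zero.2 h3))
      have h3 := hr P hP P hP
      omega
    · intro h0
      have hx0 : x Q ≠ 0 := left_ne_zero_of_mul h0
      rw [h.mul P _ _ hx0 (he0 Q)]
      have h2 := heQ Q P (Finset.mem_erase.2 ⟨fun h3 => hQP h3.symm, hP⟩)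
      have h3 := hr P hP Q hQ
      omega
  · rw [← h1]
    exact sub_ne_zero.2 hne

end Pool.Agent.Lib.MP_c385f6_ag.TPG
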