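import Pool.Agent.Lib.MP_c385f6_ag.TPG.StA

/-!
Project TPG, A4: nonconstant elements, existence and finiteness of zeros and poles.
-/

set_option autoImplicit false

namespace Pool.Agent.Lib.MP_c385f6_ag.TPG

universe u v

open Polynomial IntermediateField

namespace AZero

variable {F : Type u} {W : Type v} [Field F] [Field W] [Algebra F W]

/-- nonconstant elements are transcendental -/
theorem transc [IsAlgClosed F] (x : W) (hx : ∀ c : F, x ≠ algebraMap F W c) :
    Transcendental F x := by
  intro h
  have h1 : (minpoly F x).degree = 1 :=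
    IsAlgClosed.degree_eq_one_of_irreducible F (minpoly.irreducible h.isIntegral)
  obtain ⟨c, hc⟩ := minpoly.mem_range_of_degree_eq_one F x h1
  exact hx c hc.symm

open scoped IntermediateField.algebraAdjoinAdjoin in
theorem trdeg_le (hW : FF F W) : Algebra.trdeg F W ≤ 1 := by
  obtain ⟨t, ht, hf⟩ := hW
  have : Algebra.IsAlgebraic F⟮t⟯ W := inferInstance
  have : Algebra.IsAlgebraic (Algebra.adjoin F {t}) W :=
    Algebra.IsAlgebraic.trans (Algebra.adjoin F {t}) F⟮t⟯ W
  have h := Algebra.IsAlgebraic.trdeg_le_cardinalMk F ({t} : Set W)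
  rwa [Cardinal.mk_singleton] at h

open scoped IntermediateField.algebraAdjoinAdjoin in
theorem ess (hW : FF F W) : Algebra.EssFiniteType F W := by
  obtain ⟨t, ht, hf⟩ := hW
  have h1 : Algebra.EssFiniteType F F⟮t⟯ := by
    have : Algebra.FiniteType F (Algebra.adjoin F ({t} : Set W)) :=
      .adjoin_of_finite (Set.finite_singleton t)
    have : Algebra.EssFiniteType (Algebra.adjoin F ({t} : Set W)) F⟮t⟯ :=
      .of_isLocalization _ (nonZeroDivisors _)
    exact .comp _ (Algebra.adjoin F ({t} : Set W)) _
  exact .comp F F⟮t⟯ W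

theorem fin (hW : FF F W) (x : W) (hx : Transcendental F x) : FiniteDimensional F⟮x⟯ W := by
  have h1 : AlgebraicIndependent F (fun _ : Unit => x) :=
    algebraicIndependent_unique_type_iff.2 hx
  have h2 : IsTranscendenceBasis F (fun _ : Unit => x) := by
    apply h1.isTranscendenceBasis_of_lift_trdeg_le_of_finite
    have := trdeg_le hW
    simpa using this
  have h3 := h2.isAlgebraic_field
  rw [Set.range_const] at h3
  have h4 := ess hW
  have h5 : Algebra.EssFiniteType F⟮x⟯ W := .of_comp F F⟮x⟯ W
  exact Algebra.finite_of_essFiniteType_of_isAlgebraic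

/-- existence of zeros -/
theorem zero (hO : OrdF F W) (x : W) (hx : Transcendental F x) : ∃ P : Plc F W, 0 < ord P x := by
  have hx0 : x ≠ 0 := fun h => hx (h ▸ isAlgebraic_zero)
  let A : Subring W := (Algebra.adjoin F ({x} : Set W)).toSubring
  have hxA : x ∈ A := Algebra.self_mem_adjoin_singleton F x
  let I : Ideal A := Ideal.span {⟨x, hxA⟩}
  have hI : I ≠ ⊤ := by
    rw [Ne, Ideal.span_singleton_eq_top]
    intro hu
    obtain ⟨⟨y, hy⟩, hy'⟩ := isUnit_iff_exists_inv.1 hu
    have h1 : x * y = 1 := congrArg Subtype.val hy'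
    have hy2 : y ∈ (aeval x : F[X] →ₐ[F] W).range := by
      rw [← Algebra.adjoin_singleton_eq_range_aeval]
      exact hy
    obtain ⟨q, hq⟩ := hy2
    have h2 : aeval x (X * q - 1 : F[X]) = 0 := by
      rw [map_sub, map_mul, aeval_X, map_one]
      change x * (aeval x).toRingHom q - 1 = 0
      rw [hq, h1, sub_self]
    have h3 : (X * q - 1 : F[X]) = 0 := (transcendental_iff.1 hx) _ h2
    have h4 := congrArg (fun r : F[X] => r.coeff 0) h3
    simp at h4
  obtain ⟨B, hB, hB'⟩ := Ideal.image_subset_nonunits_valuationSubring I hI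
  have h1 : B.valuation x < 1 := by
    rw [← ValuationSubring.mem_nonunits_iff]
    exact hB' ⟨⟨x, hxA⟩, Ideal.subset_span rfl, rfl⟩
  refine ⟨⟨B, ?_, fun c => hB ?_⟩, (hO.lt _ x hx0).1 h1⟩
  · intro hBt
    subst hBt
    rw [← ValuationSubring.mem_nonunits_iff, ValuationSubring.mem_nonunits_iff_or] at h1
    rcases h1 with h1 | h1
    · exact hx0 h1
    · exact h1 (ValuationSubring.mem_top _)
  · exact (Algebra.adjoin F ({x} : Set W)).algebraMap_mem c

/-- polynomials in an element of the ring are in the ring -/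
theorem aeval_le (P : Plc F W) (x : W) (hx : P.ring.valuation x < 1) (q : F[X]) :
    P.ring.valuation (aeval x q) ≤ 1 := by
  rw [ValuationSubring.valuation_le_one_iff]
  induction q using Polynomial.induction_on' with
  | add p q hp hq => rw [map_add]; exact add_mem hp hq
  | monomial n c =>
    rw [aeval_monomial]
    exact mul_mem (P.const_mem c) (pow_mem ((P.ring.valuation_le_one_iff x).1 hx.le) n)

theorem const_val (P : Plc F W) (c : F) (hc : c ≠ 0) :
    P.ring.valuation (algebraMap F W c) = 1 := by
  have h1 : P.ring.valuation (algebraMap F W c) ≤ 1 :=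
    (P.ring.valuation_le_one_iff _).2 (P.const_mem c)
  have h2 : P.ring.valuation (algebraMap F W c⁻¹) ≤ 1 :=
    (P.ring.valuation_le_one_iff _).2 (P.const_mem _)
  refine le_antisymm h1 ?_
  have h3 : P.ring.valuation (algebraMap F W c) * P.ring.valuation (algebraMap F W c⁻¹) = 1 := by
    rw [← map_mul, ← map_mul, mul_inv_cancel₀ hc, map_one, map_one]
  calc (1 : P.ring.ValueGroup) = _ := h3.symm
    _ ≤ P.ring.valuation (algebraMap F W c) * 1 := mul_le_mul_right h2 _
    _ = _ := mul_one _

/-- The key step: elements which are near `1` at one zero of `x` and near `0` at the others are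
linearly independent over `F(x)`. -/
theorem indep (x : W) (hx : Transcendental F x) (S : Finset (Plc F W))
    (hS : ∀ P ∈ S, P.ring.valuation x < 1) (y : S → W)
    (hy : ∀ P : S, P.1.ring.valuation (y P - 1) < 1)
    (hy' : ∀ P Q : S, P ≠ Q → Q.1.ring.valuation (y P) < 1) :
    LinearIndependent F⟮x⟯ y := by
  classical
  have key : ∀ p : S → F[X], ∑ P, aeval x (p P) * y P = 0 → ∀ P, (p P).coeff 0 = 0 := by
    intro p hp Q
    by_contra hc
    have hQ : Q.1.ring.valuation x < 1 := hS _ Q.2
    have h1 : ∀ P, Q.1.ring.valuation (aeval x (p P)) ≤ 1 := fun P => aeval_le Q.1 x hQ _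
    have hyQ : Q.1.ring.valuation (y Q) = 1 := by
      have : y Q = (y Q - 1) + 1 := by ring
      rw [this, Valuation.map_add_eq_of_lt_right]
      · rw [map_one]
      · rw [map_one]; exact hy Q
    have h2 : Q.1.ring.valuation (aeval x (p Q)) = 1 := by
      have h3 : aeval x (p Q) = x * aeval x (divX (p Q)) + algebraMap F W ((p Q).coeff 0) := by
        conv_lhs => rw [← divX_mul_X_add (p Q)]
        rw [map_add, map_mul, aeval_X, aeval_C, mul_comm]
      rw [h3, Valuation.map_add_eq_of_lt_right, const_val _ _ hc]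
      rw [const_val _ _ hc, map_mul, mul_comm]
      exact (mul_le_of_le_one_left' (aeval_le Q.1 x hQ _)).trans_lt hQ
    have h4 : Q.1.ring.valuation (∑ P ∈ Finset.univ.erase Q, aeval x (p P) * y P) < 1 := by
      apply Valuation.map_sum_lt _ one_ne_zero
      intro P hP
      rw [map_mul]
      exact (mul_le_of_le_one_left' (h1 P)).trans_lt (hy' P Q (Finset.ne_of_mem_erase hP))
    rw [← Finset.add_sum_erase _ _ (Finset.mem_univ Q)] at hp
    have h5 : Q.1.ring.valuation (aeval x (p Q) * y Q) = 1 := by
      rw [map_mul, h2, hyQ, one_mul]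
    rw [eq_neg_of_add_eq_zero_left hp, Valuation.map_neg] at h5
    exact absurd h5 h4.ne
  have key2 : ∀ n : ℕ, ∀ p : S → F[X], ∑ P, aeval x (p P) * y P = 0 →
      ∀ P, (p P).coeff n = 0 := by
    intro n
    induction n with
    | zero => exact key
    | succ n ih =>
      intro p hp P
      have hx0 : x ≠ 0 := fun h => hx (h ▸ isAlgebraic_zero)
      have h1 : ∀ Q, p Q = divX (p Q) * X := fun Q => by
        conv_lhs => rw [← divX_mul_X_add (p Q), key p hp Q, map_zero, add_zero]
      have h2 : ∑ Q, aeval x (divX (p Q)) * y Q = 0 := by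
        have h3 : x * ∑ Q, aeval x (divX (p Q)) * y Q = 0 := by
          rw [Finset.mul_sum, ← hp]
          refine Finset.sum_congr rfl fun Q _ => ?_
          conv_rhs => rw [h1 Q, map_mul, aeval_X]
          ring
        exact (mul_eq_zero.1 h3).resolve_left hx0
      have h3 := ih (fun Q => divX (p Q)) h2 P
      rwa [coeff_divX] at h3
  open scoped IntermediateField.algebraAdjoinAdjoin in
  rw [← LinearIndependent.iff_fractionRing (Algebra.adjoin F ({x} : Set W)) F⟮x⟯,
    Fintype.linearIndependent_iff]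
  intro g hg P
  have h1 : ∀ Q, ∃ q : F[X], aeval x q = (g Q : W) := fun Q => by
    have : ((g Q : Algebra.adjoin F ({x} : Set W)) : W) ∈ (aeval x : F[X] →ₐ[F] W).range := by
      have h := (g Q).2
      generalize ((g Q : Algebra.adjoin F ({x} : Set W)) : W) = w at h ⊢
      rwa [Algebra.adjoin_singleton_eq_range_aeval] at h
    exact this
  choose p hp using h1
  have h2 : ∑ Q, aeval x (p Q) * y Q = 0 := by
    rw [← hg]
    refine Finset.sum_congr rfl fun Q _ => ?_
    rw [hp, Algebra.smul_def]
    rfl
  have h3 : p P = 0 := by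
    ext n
    rw [key2 n p h2 P, coeff_zero]
  apply Subtype.ext
  rw [← hp, h3, map_zero]
  rfl

/-- finitely many zeros -/
theorem fin_zero (h3 : StWA.{u, v}) (hW : FF F W) (hO : OrdF F W) (x : W)
    (hx : Transcendental F x) : {P : Plc F W | 0 < ord P x}.Finite := by
  classical
  have hfin := fin hW x hx
  have hx0 : x ≠ 0 := fun h => hx (h ▸ isAlgebraic_zero)
  by_contra hinf
  obtain ⟨S, hS, hcard⟩ := (Set.not_finite.1 hinf |> Set.Infinite.exists_subset_card_eq)
    (Module.finrank F⟮x⟯ W + 1)
  have h1 : ∀ P : S, ∃ y : W, ∀ Q ∈ S, y ≠ (if Q = P.1 then 1 else 0) →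
      1 ≤ ord Q (y - (if Q = P.1 then 1 else 0)) :=
    fun P => h3 F W hW hO S (fun Q => if Q = P.1 then 1 else 0) 1
  choose y hy using h1
  have h2 : ∀ P : S, ∀ Q ∈ S, Q.ring.valuation (y P - (if Q = P.1 then 1 else 0)) < 1 := by
    intro P Q hQ
    by_cases h : y P = (if Q = P.1 then 1 else 0)
    · rw [h, sub_self, map_zero]
      exact zero_lt_one
    · rw [hO.lt _ _ (sub_ne_zero.2 h)]
      have := hy P Q hQ h
      omega
  have h4 := indep x hx S (fun P hP => (hO.lt P x hx0).2 (hS hP)) y
    (fun P => by simpa using h2 P P.1 P.2) (fun P Q hPQ => by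
      have := h2 P Q.1 Q.2
      rwa [if_neg (fun h => hPQ (Subtype.ext h.symm)), sub_zero] at this)
  have h5 := h4.fintype_card_le_finrank
  rw [Fintype.card_coe] at h5
  omega

theorem ord_one (hO : OrdF F W) (P : Plc F W) : ord P 1 = 0 := by
  have := hO.mul P 1 1 one_ne_zero one_ne_zero
  rw [one_mul] at this
  omega

end AZero

open AZero in
/-- A4 -/
theorem stZero (h1 : StOrd.{u, v}) (_h2 : StResF.{u, v}) (h3 : StWA.{u, v}) : StZero.{u, v} := by
  intro F W _ _ _ _ hW
  have hO := h1 F W hW
  refine ⟨fun x hx => ⟨transc x hx, fin hW x (transc x hx), zero hO x (transc x hx)⟩,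
    fun x hx0 => ?_⟩
  by_cases hc : ∃ c : F, x = algebraMap F W c
  · obtain ⟨c, rfl⟩ := hc
    have hc0 : c ≠ 0 := by
      rintro rfl
      exact hx0 (map_zero _)
    convert Set.finite_empty
    ext P
    simp only [Set.mem_ofPred_eq, Set.mem_empty_iff_false, iff_false, not_not]
    have h4 := const_val P c hc0
    have h5 := (hO.mem P _ hx0).1 (P.const_mem c)
    have h6 := hO.lt P _ hx0
    by_contra hne
    have : 0 < ord P (algebraMap F W c) := by omega
    exact absurd h4 (h6.2 this).ne
  · have hx : Transcendental F x := transc x (fun c h => hc ⟨c, h⟩)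
    have hx' : Transcendental F x⁻¹ := fun h => hx (by simpa using h.inv)
    refine ((fin_zero h3 hW hO x hx).union (fin_zero h3 hW hO x⁻¹ hx')).subset ?_
    intro P hP
    have h4 := hO.mul P x x⁻¹ hx0 (inv_ne_zero hx0)
    rw [mul_inv_cancel₀ hx0, ord_one hO] at h4
    rcases lt_or_gt_of_ne hP with h | h
    · right
      change 0 < ord P x⁻¹
      omega
    · left
      exact h

end Pool.Agent.Lib.MP_c385f6_ag.TPG
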