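import Pool.Agent.Lib.MP_c385f6_ag.TPG.StC
import Pool.Agent.Lib.MP_c385f6_ag.TPG.ARRF

/-!
Project TPG, C2: the reduction of `L(D)` is `L(D')` (Deuring).
-/

set_option autoImplicit false

open Polynomial

namespace Pool.Agent.Lib.MP_c385f6_ag.TPG

universe u v u' v'

namespace CBar

/-! ### Linear independence and reduction -/

section Lin

variable {C : Type u} {L : Type v} {F : Type u'} {Λ : Type v'} [Field C] [Field L] [Field F]
  [Field Λ] [Algebra C L] [Algebra F Λ] (R : Red C L F Λ)

theorem res_sum {ι : Type*} (s : Finset ι) (f : ι → L) (hf : ∀ i ∈ s, f i ∈ R.w) :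
    R.res (∑ i ∈ s, f i) = ∑ i ∈ s, R.res (f i) := by
  classical
  induction s using Finset.induction_on with
  | empty => simp [R.res_zero]
  | insert a s ha ih =>
    rw [Finset.sum_insert ha, Finset.sum_insert ha, R.res_add _ (hf a (Finset.mem_insert_self a s))
      _ (sum_mem fun i hi => hf i (Finset.mem_insert_of_mem hi)),
      ih fun i hi => hf i (Finset.mem_insert_of_mem hi)]

/-- scaling of a family of constants -/
theorem scale {ι : Type*} (s : Finset ι) (a : ι → C) (h : ∃ i ∈ s, a i ≠ 0) :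
    ∃ c : C, (∀ i ∈ s, algebraMap C L (c * a i) ∈ R.w) ∧ ∃ i ∈ s, c * a i = 1 := by
  obtain ⟨i₀, hi₀, h0⟩ := h
  obtain ⟨j, hj, hmax⟩ := s.exists_max_image (fun i => R.w.valuation (algebraMap C L (a i)))
    ⟨i₀, hi₀⟩
  have hj0 : a j ≠ 0 := by
    intro hj0
    have h1 := hmax i₀ hi₀
    rw [hj0, map_zero, map_zero, le_zero_iff, Valuation.zero_iff,
      map_eq_zero_iff _ (algebraMap C L).injective] at h1
    exact h0 h1
  refine ⟨(a j)⁻¹, fun i hi => ?_, j, hj, inv_mul_cancel₀ hj0⟩
  rw [← R.w.valuation_le_one_iff, map_mul, map_mul, map_inv₀, map_inv₀]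
  have hpos : 0 < R.w.valuation (algebraMap C L (a j)) :=
    (Valuation.pos_iff _).2 ((map_ne_zero_iff _ (algebraMap C L).injective).2 hj0)
  rw [inv_mul_le_iff₀ hpos, mul_one]
  exact hmax i hi

/-- the core: if the residues of the `e i` are independent and the sum with integral coefficients
has residue `0` then the coefficients have residue `0` -/
theorem core {ι : Type*} (e : ι → L) (he : ∀ i, e i ∈ R.w)
    (hind : LinearIndependent F fun i => R.res (e i)) (s : Finset ι) (c : ι → C)
    (hc : ∀ i ∈ s, algebraMap C L (c i) ∈ R.w)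
    (h : R.res (∑ i ∈ s, algebraMap C L (c i) * e i) = 0) :
    ∀ i ∈ s, R.res (algebraMap C L (c i)) = 0 := by
  classical
  have h1 : ∀ i, ∃ a : F, i ∈ s → R.res (algebraMap C L (c i)) = algebraMap F Λ a := by
    intro i
    by_cases hi : i ∈ s
    · obtain ⟨a, ha⟩ := R.const _ (hc i hi)
      exact ⟨a, fun _ => ha⟩
    · exact ⟨0, fun h => absurd h hi⟩
  choose a ha using h1
  rw [res_sum R s _ fun i hi => mul_mem (hc i hi) (he i)] at h
  have h2 : ∑ i ∈ s, a i • R.res (e i) = 0 := by
    rw [← h]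
    refine Finset.sum_congr rfl fun i hi => ?_
    rw [R.res_mul _ (hc i hi) _ (he i), ha i hi, Algebra.smul_def]
  intro i hi
  rw [ha i hi, linearIndependent_iff'.1 hind s a h2 i hi, map_zero]

/-- lifts of independent elements are independent over `C` -/
theorem lift_indep {ι : Type*} (e : ι → L) (he : ∀ i, e i ∈ R.w)
    (hind : LinearIndependent F fun i => R.res (e i)) : LinearIndependent C e := by
  rw [linearIndependent_iff']
  intro s g hg
  by_contra hne
  push Not at hne
  obtain ⟨c, hc, j, hj, hcj⟩ := scale R s g hne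
  have h1 := core R e he hind s (fun i => c * g i) hc (by
    have h2 : ∑ i ∈ s, algebraMap C L (c * g i) * e i = algebraMap C L c * ∑ i ∈ s, g i • e i := by
      rw [Finset.mul_sum]
      refine Finset.sum_congr rfl fun i _ => ?_
      rw [Algebra.smul_def, map_mul, mul_assoc]
    rw [h2, hg, mul_zero, R.res_zero]) j hj
  simp only [hcj, map_one, R.res_one] at h1
  exact one_ne_zero h1

/-- integral elements have integral coordinates -/
theorem coord_mem {ι : Type*} (e : ι → L) (he : ∀ i, e i ∈ R.w)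
    (hind : LinearIndependent F fun i => R.res (e i)) (s : Finset ι) (g : ι → C)
    (hg : ∑ i ∈ s, g i • e i ∈ R.w) : ∀ i ∈ s, algebraMap C L (g i) ∈ R.w := by
  by_contra hne
  push Not at hne
  obtain ⟨k, hk, hkw⟩ := hne
  have hk0 : g k ≠ 0 := by
    intro h
    rw [h, map_zero] at hkw
    exact hkw (zero_mem _)
  obtain ⟨c, hc, j, hj, hcj⟩ := scale R s g ⟨k, hk, hk0⟩
  have hcv : R.w.valuation (algebraMap C L c) < 1 := by
    have h1 := (R.w.valuation_le_one_iff _).2 (hc k hk)
    rw [← R.w.valuation_le_one_iff, not_le] at hkw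
    rw [map_mul, map_mul] at h1
    by_contra h2
    rw [not_lt] at h2
    have h3 : R.w.valuation (algebraMap C L (g k)) ≤
        R.w.valuation (algebraMap C L c) * R.w.valuation (algebraMap C L (g k)) :=
      le_mul_of_one_le_left' h2
    exact absurd (h3.trans h1) (not_le.2 hkw)
  have h1 := core R e he hind s (fun i => c * g i) hc (by
    have h2 : ∑ i ∈ s, algebraMap C L (c * g i) * e i = algebraMap C L c * ∑ i ∈ s, g i • e i := by
      rw [Finset.mul_sum]
      refine Finset.sum_congr rfl fun i _ => ?_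
      rw [Algebra.smul_def, map_mul, mul_assoc]
    have h3 : algebraMap C L c ∈ R.w := (R.w.valuation_le_one_iff _).1 hcv.le
    rw [h2, R.res_mul _ h3 _ hg, (R.res_lt _ h3).2 hcv, zero_mul]) j hj
  simp only [hcj, map_one, R.res_one] at h1
  exact one_ne_zero h1

open IntermediateField.algebraAdjoinAdjoin in
/-- independence over `C(y)` -/
theorem lin {y : L} (hy : y ∈ R.w) (ht : Transcendental F (R.res y)) {ι : Type*} (b : ι → L)
    (hb : ∀ i, b i ∈ R.w)
    (hind : LinearIndependent (IntermediateField.adjoin F {R.res y}) fun i => R.res (b i)) :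
    LinearIndependent (IntermediateField.adjoin C {y}) b := by
  have hpow : LinearIndependent F fun j : ℕ =>
      (IntermediateField.AdjoinSimple.gen F (R.res y)) ^ j := by
    have h1 : LinearIndependent F fun j : ℕ => (R.res y) ^ j := by
      have h2 := (Polynomial.basisMonomials F).linearIndependent.map'
        (aeval (R.res y) : F[X] →ₐ[F] Λ).toLinearMap
        (LinearMap.ker_eq_bot.2 (transcendental_iff_injective.1 ht))
      refine (linearIndependent_equiv' (Equiv.refl ℕ) ?_).1 h2
      funext j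
      simp
    refine LinearIndependent.of_comp
      (IntermediateField.val (IntermediateField.adjoin F {R.res y})).toLinearMap ?_
    refine (linearIndependent_equiv' (Equiv.refl ℕ) ?_).1 h1
    funext j
    simp
  have h1 := linearIndependent_smul hpow hind
  have hyp : ∀ j : ℕ, y ^ j ∈ R.w := fun j => pow_mem hy j
  have hrp : ∀ j : ℕ, R.res (y ^ j) = R.res y ^ j := fun j => map_pow R.hom ⟨y, hy⟩ j
  have h2 : LinearIndependent C fun p : ℕ × ι => y ^ p.1 * b p.2 := by
    refine lift_indep R _ (fun p => mul_mem (hyp p.1) (hb p.2)) ?_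
    refine (linearIndependent_equiv' (Equiv.refl _) ?_).1 h1
    funext p
    change R.res (y ^ p.1 * b p.2) = _
    rw [R.res_mul _ (hyp p.1) _ (hb p.2), hrp, IntermediateField.smul_def]
    simp
  rw [← LinearIndependent.iff_fractionRing (R := Algebra.adjoin C {y})]
  rw [linearIndependent_iff']
  intro s g hg
  have h3' : ∀ z ∈ Algebra.adjoin C {y}, ∃ q : C[X], aeval y q = z := by
    intro z hz
    rw [Algebra.adjoin_singleton_eq_range_aeval] at hz
    exact hz
  have h3 : ∀ i, ∃ q : C[X], aeval y q = (g i : L) := fun i => h3' _ (g i).2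
  choose q hq using h3
  have hN : ∀ i ∈ s, (q i).natDegree < s.sup (fun i => (q i).natDegree) + 1 := fun i hi =>
    Nat.lt_succ_of_le (Finset.le_sup (f := fun i => (q i).natDegree) hi)
  have h4 : ∑ p ∈ Finset.range (s.sup (fun i => (q i).natDegree) + 1) ×ˢ s,
      (q p.2).coeff p.1 • (y ^ p.1 * b p.2) = 0 := by
    rw [Finset.sum_product_right, ← hg]
    refine Finset.sum_congr rfl fun i hi => ?_
    change _ = (g i : L) * b i
    rw [← hq i, Polynomial.aeval_eq_sum_range' (hN i hi), Finset.sum_mul]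
    refine Finset.sum_congr rfl fun j _ => ?_
    rw [smul_mul_assoc]
  have h5 := linearIndependent_iff'.1 h2 _ (fun p => (q p.2).coeff p.1) h4
  intro i hi
  have h6 : q i = 0 := by
    ext j
    by_cases hj : j < s.sup (fun i => (q i).natDegree) + 1
    · exact h5 (j, i) (Finset.mk_mem_product (Finset.mem_range.2 hj) hi)
    · rw [Polynomial.coeff_eq_zero_of_natDegree_lt
        (lt_of_lt_of_le (hN i hi) (not_lt.1 hj)), Polynomial.coeff_zero]
  refine Subtype.ext ?_
  rw [← hq i, h6, map_zero]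
  rfl

end Lin

/-! ### Divisors -/

section Div

variable {F : Type u} {W : Type v} [Field F] [Field W] [Algebra F W]

theorem finsum_eq_dg (D : Dv F W) : ∑ᶠ P, D P = dg D :=
  finsum_eq_sum_of_support_subset _ (by intro P hP; simpa using hP)

theorem finsum_le_dg {D : Dv F W} {a : Plc F W → ℤ} (h0 : ∀ P, 0 ≤ a P) (h : ∀ P, a P ≤ D P) :
    ∑ᶠ P, a P ≤ dg D := by
  have h1 : Function.support a ⊆ D.support := by
    intro P hP
    rw [Finset.mem_coe, Finsupp.mem_support_iff]
    intro h2
    exact hP (le_antisymm (h2 ▸ h P) (h0 P))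
  rw [finsum_eq_sum_of_support_subset _ h1]
  exact Finset.sum_le_sum fun P _ => h P

theorem dg_neg (D : Dv F W) : dg (-D) = - dg D := by
  have h := RRFAux.dg_add D (-D)
  rw [add_neg_cancel] at h
  have h0 : dg (0 : Dv F W) = 0 := Finsupp.sum_zero_index
  rw [h0] at h
  linarith

theorem dg_sub (D E : Dv F W) : dg (D - E) = dg D - dg E := by
  rw [sub_eq_add_neg, RRFAux.dg_add, dg_neg, sub_eq_add_neg]

/-- `l(D) ≤ deg D + 1` -/
theorem ell_le (r : RRF F W) (D : Dv F W) (h : 0 ≤ dg D) : ell D ≤ dg D + 1 := by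
  have hinf := r.ne
  obtain ⟨P⟩ : Nonempty (Plc F W) := inferInstance
  have h1 : D - Finsupp.single P (dg D + 1) ≤ D := by
    rw [sub_le_self_iff]
    exact Finsupp.single_nonneg.2 (by linarith)
  have h2 : dg (D - Finsupp.single P (dg D + 1)) = -1 := by
    rw [dg_sub, RRFAux.dg_single]
    ring
  have h3 : ell (D - Finsupp.single P (dg D + 1)) = 0 := by
    rw [ell, r.neg _ (by rw [h2]; norm_num), finrank_bot, Nat.cast_zero]
  have h4 := (r.mono _ _ h1).2
  rw [h2, h3] at h4
  linarith

theorem dg_nonneg_of_ell (r : RRF F W) (D : Dv F W) (h : 0 < ell D) : 0 ≤ dg D := by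
  by_contra h1
  rw [not_le] at h1
  rw [ell, r.neg _ h1, finrank_bot, Nat.cast_zero] at h
  exact lt_irrefl _ h

theorem ord_div (O : OrdF F W) (P : Plc F W) {x y : W} (hx : x ≠ 0) (hy : y ≠ 0) :
    ord P (x / y) = ord P x - ord P y := by
  rw [div_eq_mul_inv, O.mul P x _ hx (inv_ne_zero hy), RRFAux.ord_inv O P hy, sub_eq_add_neg]

end Div

/-- the degree of the reduction of a function -/
theorem deg_le {C : Type u} {L : Type v} {F : Type u'} {Λ : Type v'} [Field C] [IsAlgClosed C]
    [Field L] [Field F] [IsAlgClosed F] [Field Λ] [Algebra C L] [Algebra F Λ] (R : Red C L F Λ)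
    (hC : FF C L) (hF : FF F Λ) (hZ : StZero.{u, v}) (hZ' : StZero.{u', v'}) {f : L}
    (hf : f ∈ R.w) (hnc : ∀ c : F, R.res f ≠ algebraMap F Λ c) :
    (∀ c : C, f ≠ algebraMap C L c) ∧
    Module.finrank (IntermediateField.adjoin F {R.res f}) Λ ≤
      Module.finrank (IntermediateField.adjoin C {f}) L := by
  have hnc' : ∀ c : C, f ≠ algebraMap C L c := by
    rintro c rfl
    obtain ⟨a, ha⟩ := R.const c hf
    exact hnc a ha
  refine ⟨hnc', ?_⟩
  obtain ⟨ht, hfd, -⟩ := (hZ' F Λ hF).1 _ hnc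
  obtain ⟨-, hfd', -⟩ := (hZ C L hC).1 _ hnc'
  choose b hb hb' using fun i => R.res_surj
    (Module.finBasis (IntermediateField.adjoin F {R.res f}) Λ i)
  have h1 := lin R hf ht b hb (by
    simp only [hb']
    exact (Module.finBasis (IntermediateField.adjoin F {R.res f}) Λ).linearIndependent)
  have h2 := h1.fintype_card_le_finrank
  rwa [Fintype.card_fin] at h2

end CBar

/-- **C2.** The reductions of the elements of `L(D)` in `w` form `L(D')`, `deg D' = deg D`, if the
degree of `D` is large. -/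
theorem stBar (hON : StON.{u, v, u', v'}) (hOrd : StOrd.{u, v}) (hOrd' : StOrd.{u', v'})
    (hZ : StZero.{u, v}) (hZ' : StZero.{u', v'}) (hDeg : StDeg.{u, v}) (hDeg' : StDeg.{u', v'})
    (hRR : StRRF.{u, v}) (hRR' : StRRF.{u', v'}) : StBar.{u, v, u', v'} := by
  classical
  intro C L F Λ _ _ _ _ _ _ _ _ R g hG
  have oL := hOrd C L hG.ffC
  have oΛ := hOrd' F Λ hG.ffF
  have rL := hRR C L hG.ffC
  have rΛ := hRR' F Λ hG.ffF
  obtain ⟨-, dC, hdC⟩ := hG.genC
  obtain ⟨-, dF, hdF⟩ := hG.genF
  refine ⟨max (max dC (dF + g)) g, fun D hD => ?_⟩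
  have h1 : dC ≤ dg D := le_trans (le_max_left _ _) (le_trans (le_max_left _ _) hD)
  have h2 : dF + g ≤ dg D := le_trans (le_max_right _ _) (le_trans (le_max_left _ _) hD)
  have h3 : (g : ℤ) ≤ dg D := le_trans (le_max_right _ _) hD
  have hell : ell D = dg D + 1 - g := hdC D h1
  have fD := rL.fin D
  obtain ⟨r, e, he, hind, hspan⟩ := (hON C L F Λ R g hG).1 (RR D) fD
  have hr : (r : ℤ) = ell D := by
    have h4 := finrank_span_eq_card (CBar.lift_indep R e he hind)
    rw [hspan, Fintype.card_fin] at h4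
    rw [ell, h4]
  have hr0 : 0 < r := by omega
  -- the reduction of `L(D)`
  obtain ⟨Y, hY⟩ : ∃ Y : Submodule F Λ, Y = Submodule.span F (Set.range fun i => R.res (e i)) :=
    ⟨_, rfl⟩
  have hYr : Module.finrank F Y = r := by
    have h4 := finrank_span_eq_card hind
    rw [← hY, Fintype.card_fin] at h4
    exact h4
  have heY : ∀ i, R.res (e i) ∈ Y := fun i => by
    rw [hY]
    exact Submodule.subset_span ⟨i, rfl⟩
  have heD : ∀ i, e i ∈ RR D := fun i => by
    rw [← hspan]
    exact Submodule.subset_span ⟨i, rfl⟩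
  have hRd : ∀ y : Λ, y ∈ Y ↔ ∃ f ∈ RR D, f ∈ R.w ∧ R.res f = y := by
    intro y
    rw [hY]
    constructor
    · intro hy
      obtain ⟨a, ha⟩ := (Submodule.mem_span_range_iff_exists_fun F).1 hy
      choose c hc hc' using fun i => R.const_surj (a i)
      refine ⟨∑ i, algebraMap C L (c i) * e i, ?_, sum_mem fun i _ => mul_mem (hc i) (he i), ?_⟩
      · refine sum_mem fun i _ => ?_
        rw [← Algebra.smul_def]
        exact Submodule.smul_mem _ _ (heD i)
      · rw [CBar.res_sum R _ _ fun i _ => mul_mem (hc i) (he i), ← ha]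
        refine Finset.sum_congr rfl fun i _ => ?_
        rw [R.res_mul _ (hc i) _ (he i), hc' i, Algebra.smul_def]
    · rintro ⟨f, hf, hfw, rfl⟩
      rw [← hspan] at hf
      obtain ⟨c, hc⟩ := (Submodule.mem_span_range_iff_exists_fun C).1 hf
      have hcw : ∀ i, algebraMap C L (c i) ∈ R.w := fun i =>
        CBar.coord_mem R e he hind Finset.univ c (by rw [hc]; exact hfw) i (Finset.mem_univ i)
      choose a ha using fun i => R.const _ (hcw i)
      refine (Submodule.mem_span_range_iff_exists_fun F).2 ⟨a, ?_⟩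
      have h5 : f = ∑ i, algebraMap C L (c i) * e i := by
        rw [← hc]
        exact Finset.sum_congr rfl fun i _ => Algebra.smul_def _ _
      rw [h5, CBar.res_sum R _ _ fun i _ => mul_mem (hcw i) (he i)]
      refine Finset.sum_congr rfl fun i _ => ?_
      rw [R.res_mul _ (hcw i) _ (he i), ha i, Algebra.smul_def]
  have hy0 : ∀ i, R.res (e i) ≠ 0 := fun i => hind.ne_zero i
  -- the divisor
  have hne : (Finset.univ : Finset (Fin r)).Nonempty := ⟨⟨0, hr0⟩, Finset.mem_univ _⟩
  obtain ⟨D', hD'⟩ : ∃ D' : Dv F Λ, D' = Finset.univ.sup' hne fun i => - dv (R.res (e i)) :=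
    ⟨_, rfl⟩
  have hval : ∀ x, D' x = Finset.univ.sup' hne fun i => - ord x (R.res (e i)) := by
    intro x
    rw [hD', Finset.apply_sup'_eq_sup'_comp (g := fun E : Dv F Λ => E x) hne (fun _ _ => rfl)]
    refine Finset.sup'_congr _ rfl fun i _ => ?_
    change (- dv (R.res (e i)) : Dv F Λ) x = _
    rw [Finsupp.neg_apply, rΛ.dv_apply _ _ (hy0 i)]
  have F1 : ∀ i x, - ord x (R.res (e i)) ≤ D' x := by
    intro i x
    rw [hval]
    exact Finset.le_sup' (fun i => - ord x (R.res (e i))) (Finset.mem_univ i)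
  have F2 : ∀ x, ∃ i, D' x = - ord x (R.res (e i)) := by
    intro x
    obtain ⟨i, -, hi⟩ := Finset.exists_mem_eq_sup' hne fun i => - ord x (R.res (e i))
    exact ⟨i, by rw [hval, hi]⟩
  have F3 : Y ≤ RR D' := by
    rw [hY, Submodule.span_le]
    rintro _ ⟨i, rfl⟩
    refine (rΛ.mem D' _).2 fun _ P => ?_
    have := F1 i P
    linarith
  have fD' := rΛ.fin D'
  have F4 : ell D ≤ ell D' := by
    have h4 := Submodule.finrank_mono F3
    rw [hYr] at h4
    rw [← hr, ell]
    exact_mod_cast h4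
  have F5 : 0 ≤ dg D' := CBar.dg_nonneg_of_ell rΛ D' (by omega)
  have F6 : ell D' ≤ dg D' + 1 := CBar.ell_le rΛ D' F5
  have F7 : ell D' = dg D' + 1 - g := hdF D' (by omega)
  have F8 : dg D ≤ dg D' := by omega
  -- the other inequality
  have F9 : dg D' ≤ dg D := by
    obtain ⟨y1, hy1⟩ : ∃ y1 : Λ, y1 = R.res (e ⟨0, hr0⟩) := ⟨_, rfl⟩
    have hy10 : y1 ≠ 0 := by rw [hy1]; exact hy0 _
    have hy1D : ∀ x, 0 ≤ D' x + ord x y1 := by
      intro x
      have := F1 ⟨0, hr0⟩ x
      rw [← hy1] at this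
      linarith
    have hdv : ∀ x, (D' + dv y1 : Dv F Λ) x = D' x + ord x y1 := by
      intro x
      rw [Finsupp.add_apply, rΛ.dv_apply _ _ hy10]
    let T : Plc F Λ → Submodule F Y := fun x => (RR (D' - Finsupp.single x 1)).comap Y.subtype
    have hT : ∀ x, T x ≠ ⊤ := by
      intro x hx
      obtain ⟨i, hi⟩ := F2 x
      have h4 : (⟨R.res (e i), heY i⟩ : Y) ∈ T x := by rw [hx]; trivial
      have h5 := (rΛ.mem _ _).1 h4 (hy0 i) x
      rw [Finsupp.sub_apply, Finsupp.single_eq_same] at h5
      change -(D' x - 1) ≤ ord x (R.res (e i)) at h5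
      linarith
    have hbot : (⊥ : Submodule F Y) ≠ ⊤ := by
      intro h4
      have h5 : (⟨R.res (e ⟨0, hr0⟩), heY _⟩ : Y) ∈ (⊥ : Submodule F Y) := by rw [h4]; trivial
      rw [Submodule.mem_bot] at h5
      exact hy0 _ (congrArg Subtype.val h5)
    obtain ⟨y2, hy2⟩ : ∃ y2 : Y, ∀ p ∈ insert ⊥ ((D' + dv y1).support.image T), y2 ∉ p := by
      have h4 : (⊤ : Submodule F Y) ∉ insert ⊥ ((D' + dv y1).support.image T) := by
        rw [Finset.mem_insert, Finset.mem_image]
        rintro (h5 | ⟨x, -, hx⟩)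
        · exact hbot h5.symm
        · exact hT x hx
      have h5 := Subspace.biUnion_ne_univ_of_top_notMem h4
      rw [Set.ne_univ_iff_exists_notMem] at h5
      obtain ⟨y2, hy2⟩ := h5
      refine ⟨y2, fun p hp h6 => hy2 ?_⟩
      exact Set.mem_biUnion hp h6
    have hy20 : (y2 : Λ) ≠ 0 := by
      intro h4
      refine hy2 ⊥ (Finset.mem_insert_self _ _) ?_
      rw [Submodule.mem_bot]
      exact Subtype.ext h4
    have hy2D : ∀ x, - D' x ≤ ord x (y2 : Λ) := (rΛ.mem D' _).1 (F3 y2.2) hy20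
    have hy2S : ∀ x, D' x + ord x y1 ≠ 0 → ord x (y2 : Λ) = - D' x := by
      intro x hx
      have h4 : y2 ∉ T x := by
        refine hy2 _ (Finset.mem_insert_of_mem (Finset.mem_image_of_mem _ ?_))
        rw [Finsupp.mem_support_iff, hdv]
        exact hx
      by_contra h5
      refine h4 ((rΛ.mem _ _).2 fun _ P => ?_)
      change -((D' - Finsupp.single x 1 : Dv F Λ) P) ≤ ord P (y2 : Λ)
      have h6 := hy2D P
      rw [Finsupp.sub_apply]
      by_cases hP : P = x
      · subst hP
        rw [Finsupp.single_eq_same]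
        omega
      · rw [Finsupp.single_eq_of_ne hP, sub_zero]
        exact h6
    -- the lifts
    obtain ⟨f2, hf2D, hf2w, hf2⟩ := (hRd y2).1 y2.2
    obtain ⟨f1, hf1⟩ : ∃ f1 : L, f1 = e ⟨0, hr0⟩ := ⟨_, rfl⟩
    have hf1r : R.res f1 = y1 := by rw [hf1, hy1]
    have hf1D : f1 ∈ RR D := by rw [hf1]; exact heD _
    have hf10 : f1 ≠ 0 := by
      rintro h4
      rw [h4, R.res_zero] at hf1r
      exact hy10 hf1r.symm
    have hf20 : f2 ≠ 0 := by
      rintro h4
      rw [h4, R.res_zero] at hf2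
      exact hy20 hf2.symm
    have hf1r0 : R.res f1 ≠ 0 := by rw [hf1r]; exact hy10
    have hfw : f2 / f1 ∈ R.w := by
      rw [div_eq_mul_inv]
      exact mul_mem hf2w (Red.inv_mem hf1r0)
    have hfr : R.res (f2 / f1) = y2 / y1 := by
      rw [div_eq_mul_inv, R.res_mul _ hf2w _ (Red.inv_mem hf1r0), R.res_inv hf1r0, hf2, hf1r,
        div_eq_mul_inv]
    have hpole : ∀ x, max (- ord x ((y2 : Λ) / y1)) 0 = (D' + dv y1 : Dv F Λ) x := by
      intro x
      rw [hdv, CBar.ord_div oΛ x hy20 hy10]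
      have h4 := hy2D x
      have h5 := hy1D x
      by_cases h6 : D' x + ord x y1 = 0
      · rw [h6, max_eq_right]
        linarith
      · rw [hy2S x h6, max_eq_left]
        · ring
        · linarith
    have hsum : ∑ᶠ x : Plc F Λ, max (- ord x ((y2 : Λ) / y1)) 0 = dg D' := by
      rw [finsum_congr hpole, CBar.finsum_eq_dg, RRFAux.dg_add, rΛ.dg_dv y1 hy10, add_zero]
    by_cases hnc : ∀ c : F, R.res (f2 / f1) ≠ algebraMap F Λ c
    · obtain ⟨hnc', h4⟩ := CBar.deg_le R hG.ffC hG.ffF hZ hZ' hfw hnc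
      have h5 := (hDeg' F Λ hG.ffF _ hnc).2
      have h6 := (hDeg C L hG.ffC _ hnc').2
      rw [hfr, hsum] at h5
      have h7 : ∑ᶠ P : Plc C L, max (- ord P (f2 / f1)) 0 ≤ dg (D + dv f1) := by
        refine CBar.finsum_le_dg (fun P => le_max_right _ _) fun P => ?_
        rw [Finsupp.add_apply, rL.dv_apply _ _ hf10, CBar.ord_div oL P hf20 hf10]
        have h8 := (rL.mem D _).1 hf2D hf20 P
        have h9 := (rL.mem D _).1 hf1D hf10 P
        refine max_le ?_ ?_
        · linarith
        · linarith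
      rw [RRFAux.dg_add, rL.dg_dv f1 hf10, add_zero, h6] at h7
      rw [h5, ← hfr]
      have h8 : (Module.finrank (IntermediateField.adjoin F {R.res (f2 / f1)}) Λ : ℤ) ≤
        Module.finrank (IntermediateField.adjoin C {f2 / f1}) L := by exact_mod_cast h4
      exact le_trans h8 h7
    · push Not at hnc
      obtain ⟨c, hc⟩ := hnc
      rw [hfr] at hc
      have h4 : dg D' = 0 := by
        rw [← hsum, hc]
        simp only [rΛ.ord_const, neg_zero, max_self, finsum_zero]
      omega
  have F10 : dg D' = dg D := le_antisymm F9 F8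
  refine ⟨D', F10, fun y => ?_⟩
  have h4 : Y = RR D' := by
    refine Submodule.eq_of_le_of_finrank_eq F3 ?_
    have h5 : (Module.finrank F (RR D') : ℤ) = r := by
      change ell D' = r
      rw [hr, F7, hell, F10]
    rw [hYr]
    exact_mod_cast h5.symm
  rw [← h4]
  exact hRd y

end Pool.Agent.Lib.MP_c385f6_ag.TPG
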