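import Pool.Agent.Lib.MP_c385f6_ag.TPG.StC

/-!
Project TPG, part C: coordinates of discs.
-/

set_option autoImplicit false

open Polynomial

namespace Pool.Agent.Lib.MP_c385f6_ag.TPG

universe u v u' v'

namespace CCrd

theorem unique_one {ι : Type*} [DecidableEq ι] (s : Finset ι) (f : ι → ℤ) (h0 : ∀ i ∈ s, 0 ≤ f i)
    (h : ∑ i ∈ s, f i = 1) : ∃ i ∈ s, f i = 1 ∧ ∀ j ∈ s, j ≠ i → f j = 0 := by
  obtain ⟨i, hi, hne⟩ : ∃ i ∈ s, f i ≠ 0 := by
    by_contra hc
    push Not at hc
    rw [Finset.sum_eq_zero hc] at h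
    exact one_ne_zero h.symm
  have h1 : f i + ∑ j ∈ s.erase i, f j = 1 := by
    rw [Finset.add_sum_erase _ _ hi, h]
  have h2 : 0 ≤ ∑ j ∈ s.erase i, f j :=
    Finset.sum_nonneg fun j hj => h0 j (Finset.mem_of_mem_erase hj)
  have h3 : 0 ≤ f i := h0 i hi
  have h4 : ∑ j ∈ s.erase i, f j = 0 := by omega
  refine ⟨i, hi, by omega, fun j hj hji => ?_⟩
  exact (Finset.sum_eq_zero_iff_of_nonneg fun j hj => h0 j (Finset.mem_of_mem_erase hj)).1 h4 j
    (Finset.mem_erase.2 ⟨hji, hj⟩)

section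

variable {C : Type u} {L : Type v} {F : Type u'} {Λ : Type v'} [Field C] [Field L]
  [Field F] [Field Λ] [Algebra C L] [Algebra F Λ]

open Classical in
theorem mapDomain_at (sp : Plc C L → Plc F Λ) (D : Dv C L) (x : Plc F Λ) :
    (Finsupp.mapDomain sp D) x = ∑ P ∈ D.support with sp P = x, D P := by
  rw [Finsupp.mapDomain, Finsupp.sum_apply, Finsupp.sum, Finset.sum_filter]
  refine Finset.sum_congr rfl fun P _ => ?_
  rw [Finsupp.single_apply]

theorem dg_mapDomain (sp : Plc C L → Plc F Λ) (D : Dv C L) :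
    dg (Finsupp.mapDomain sp D) = dg D := by
  unfold dg
  exact Finsupp.sum_mapDomain_index (fun _ => rfl) fun _ _ _ => rfl

/-- total order on a disc -/
theorem sum_disc (hR' : RRF F Λ) {R : Red C L F Λ} {sp : Plc C L → Plc F Λ}
    (hsp : IsSp R sp) {f : L} (hf : R.res f ≠ 0) (x : Plc F Λ) :
    (Finsupp.mapDomain sp (dv f : Dv C L)) x = ord x (R.res f) := by
  rw [hsp f hf, hR'.dv_apply _ _ hf]

theorem ne_zero_of_res {R : Red C L F Λ} {f : L} (hf : R.res f ≠ 0) : f ≠ 0 := by
  rintro rfl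
  exact hf R.res_zero

/-- a function with one zero in a disc -/
theorem one_zero (hR : RRF C L) (hR' : RRF F Λ) {R : Red C L F Λ} {sp : Plc C L → Plc F Λ}
    (hsp : IsSp R sp) {f : L} (hf : R.res f ≠ 0) {x : Plc F Λ} (h1 : ord x (R.res f) = 1)
    (h0 : ∀ P, sp P = x → 0 ≤ ord P f) :
    ∃ P, sp P = x ∧ ord P f = 1 ∧ ∀ Q, sp Q = x → Q ≠ P → ord Q f = 0 := by
  classical
  have hs := sum_disc hR' hsp hf x
  have hf0 := ne_zero_of_res hf
  rw [h1, mapDomain_at] at hs
  obtain ⟨P, hP, hP1, hP2⟩ := unique_one _ _ (fun P hP => by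
    rw [hR.dv_apply _ _ hf0]
    exact h0 P (Finset.mem_filter.1 hP).2) hs
  rw [hR.dv_apply _ _ hf0] at hP1
  refine ⟨P, (Finset.mem_filter.1 hP).2, hP1, fun Q hQ hQP => ?_⟩
  by_cases hQs : Q ∈ (dv f : Dv C L).support
  · have h3 := hP2 Q (Finset.mem_filter.2 ⟨hQs, hQ⟩) hQP
    rwa [hR.dv_apply _ _ hf0] at h3
  · rw [Finsupp.notMem_support_iff, hR.dv_apply _ _ hf0] at hQs
    exact hQs

/-- a function without zeros in a disc -/
theorem no_zero (hR : RRF C L) (hR' : RRF F Λ) {R : Red C L F Λ} {sp : Plc C L → Plc F Λ}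
    (hsp : IsSp R sp) {f : L} (hf : R.res f ≠ 0) {x : Plc F Λ} (h1 : ord x (R.res f) = 0)
    (h0 : ∀ P, sp P = x → 0 ≤ ord P f) (P : Plc C L) (hP : sp P = x) : ord P f = 0 := by
  classical
  have hs := sum_disc hR' hsp hf x
  have hf0 := ne_zero_of_res hf
  rw [h1, mapDomain_at] at hs
  by_cases hPs : P ∈ (dv f : Dv C L).support
  · have h3 := (Finset.sum_eq_zero_iff_of_nonneg fun Q hQ => by
      rw [hR.dv_apply _ _ hf0]
      exact h0 Q (Finset.mem_filter.1 hQ).2).1 hs P (Finset.mem_filter.2 ⟨hPs, hP⟩)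
    rwa [hR.dv_apply _ _ hf0] at h3
  · rw [Finsupp.notMem_support_iff, hR.dv_apply _ _ hf0] at hPs
    exact hPs

/-- the Riemann-Roch spaces of the specialisation -/
theorem rr_sp (hR : RRF C L) (hR' : RRF F Λ) {R : Red C L F Λ} {sp : Plc C L → Plc F Λ} {g : ℕ}
    (hsp : IsSp R sp) (hgen : IsGenus F Λ g)
    (hbar : ∃ d : ℤ, ∀ D : Dv C L, d ≤ dg D → ∃ D' : Dv F Λ, dg D' = dg D ∧
      (∀ y : Λ, y ∈ RR D' ↔ ∃ f ∈ RR D, f ∈ R.w ∧ R.res f = y)) :
    ∃ d : ℤ, ∀ D : Dv C L, d ≤ dg D → ∀ y ∈ RR (Finsupp.mapDomain sp D),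
      ∃ f ∈ RR D, f ∈ R.w ∧ R.res f = y := by
  obtain ⟨d1, hd1⟩ := hbar
  obtain ⟨d2, hd2⟩ := hgen.2
  refine ⟨max d1 d2, fun D hD y hy => ?_⟩
  obtain ⟨D', hD', hres⟩ := hd1 D ((le_max_left _ _).trans hD)
  have hle : RR D' ≤ RR (Finsupp.mapDomain sp D) := by
    intro z hz
    obtain ⟨f, hf, hfw, rfl⟩ := (hres z).1 hz
    rw [hR'.mem]
    intro h0 x
    have hf0 := ne_zero_of_res h0
    have h3 := (hR.mem D f).1 hf hf0
    rw [← sum_disc hR' hsp h0 x]
    have h4 : 0 ≤ (Finsupp.mapDomain sp (dv f + D)) x := by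
      classical
      rw [mapDomain_at]
      refine Finset.sum_nonneg fun P _ => ?_
      rw [Finsupp.add_apply, hR.dv_apply _ _ hf0]
      linarith [h3 P]
    rw [Finsupp.mapDomain_add, Finsupp.add_apply] at h4
    linarith
  have h5 : ell D' = ell (Finsupp.mapDomain sp D) := by
    have h6 : d2 ≤ dg D := (le_max_right _ _).trans hD
    rw [hd2 D' (by rw [hD']; exact h6), hd2 _ (by rw [dg_mapDomain]; exact h6), hD',
      dg_mapDomain]
  have hfin := hR'.fin (Finsupp.mapDomain sp D)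
  have h7 : RR D' = RR (Finsupp.mapDomain sp D) := by
    refine Submodule.eq_of_le_of_finrank_eq hle ?_
    unfold ell at h5
    exact_mod_cast h5
  rw [← h7] at hy
  exact (hres y).1 hy

end

end CCrd

open CCrd

theorem stCrd (hO : StOrd.{u, v}) (hO' : StOrd.{u', v'}) (hR : StRRF.{u, v})
    (hR' : StRRF.{u', v'}) (hB : StBar.{u, v, u', v'}) (hD : StDsc.{u, v, u', v'}) :
    StCrd.{u, v, u', v'} := by
  intro C L F Λ _ _ _ _ _ _ _ _ R g sp hg hsp
  have o1 := hO C L hg.ffC
  have o2 := hO' F Λ hg.ffF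
  have r1 := hR C L hg.ffC
  have r2 := hR' F Λ hg.ffF
  obtain ⟨hsurj, -, -, -, hval⟩ := hD C L F Λ R g sp hg hsp
  have hnn : ∀ (x : Plc F Λ) (f : L), f ∈ Rx R sp x → f ≠ 0 → ∀ P, sp P = x → 0 ≤ ord P f :=
    fun x f hf hf0 P hP => (o1.mem P f hf0).1 (hf.2 P hP)
  have hcR : ∀ (x : Plc F Λ) (c : C), algebraMap C L c ∈ R.w → algebraMap C L c ∈ Rx R sp x :=
    fun x c hc => ⟨hc, fun P _ => P.const_mem c⟩
  have hcw : ∀ c : C, R.w.valuation (algebraMap C L c) < 1 → algebraMap C L c ∈ R.w :=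
    fun c hc => (R.w.valuation_le_one_iff _).1 hc.le
  have key : ∀ (x : Plc F Λ) (u : L), IsCrd R sp x u → ∀ c : C,
      R.w.valuation (algebraMap C L c) < 1 → ∃ P : Plc C L, sp P = x ∧
        ord P (u - algebraMap C L c) = 1 ∧
        ∀ Q, sp Q = x → Q ≠ P → ord Q (u - algebraMap C L c) = 0 := by
    intro x u hu c hc
    have h1 : R.res (u - algebraMap C L c) = R.res u := by
      rw [R.res_sub hu.1.1 (hcw c hc), (R.res_lt _ (hcw c hc)).2 hc, sub_zero]
    have h2 : R.res (u - algebraMap C L c) ≠ 0 := by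
      rw [h1]
      exact hu.2.1
    refine one_zero r1 r2 hsp h2 (by rw [h1]; exact hu.2.2) ?_
    exact hnn x _ (sub_mem hu.1 (hcR x c (hcw c hc))) (ne_zero_of_res h2)
  refine ⟨fun P => ?_, fun x u hu => ⟨key x u hu, fun P hP => ?_⟩⟩
  · -- existence
    set x := sp P with hx
    have hinf := r2.ne
    obtain ⟨x', hx'⟩ : ∃ x' : Plc F Λ, x' ≠ x := exists_ne x
    obtain ⟨Q, hQ⟩ := hsurj x'
    have hQx : sp Q ≠ x := by rw [hQ]; exact hx'
    obtain ⟨d1, hd1⟩ := rr_sp r1 r2 hsp hg.genF (hB C L F Λ R g hg)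
    obtain ⟨d2, hd2⟩ := hg.genF.2
    set m : ℤ := max d1 d2 + 2 with hm
    have hm1 : d1 ≤ m - 1 := by
      have := le_max_left d1 d2
      omega
    have hm2 : d2 ≤ m - 2 := by
      have := le_max_right d1 d2
      omega
    have hdg : ∀ (k : ℤ), dg (Finsupp.single (sp Q) m - Finsupp.single x k : Dv F Λ) = m - k := by
      intro k
      unfold dg
      rw [Finsupp.sum_sub_index (fun _ _ _ => rfl), Finsupp.sum_single_index rfl,
        Finsupp.sum_single_index rfl]
    obtain ⟨y, hy1, hy2⟩ : ∃ y ∈ RR (Finsupp.single (sp Q) m - Finsupp.single x 1 : Dv F Λ),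
        y ∉ RR (Finsupp.single (sp Q) m - Finsupp.single x 2 : Dv F Λ) := by
      by_contra hc
      push Not at hc
      have h1 : ell (Finsupp.single (sp Q) m - Finsupp.single x 1 : Dv F Λ) ≤
          ell (Finsupp.single (sp Q) m - Finsupp.single x 2 : Dv F Λ) := by
        have hfin := r2.fin (Finsupp.single (sp Q) m - Finsupp.single x 2)
        unfold ell
        exact_mod_cast Submodule.finrank_mono (show RR _ ≤ RR _ from hc)
      rw [hd2 _ (by rw [hdg]; omega), hd2 _ (by rw [hdg]; omega), hdg, hdg] at h1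
      omega
    rw [r2.mem] at hy1 hy2
    push Not at hy2
    obtain ⟨hy0, z, hz⟩ := hy2
    have hy1' := hy1 hy0
    have hzx : z = x := by
      by_contra hne
      have h2 := hy1' z
      rw [Finsupp.sub_apply, Finsupp.single_eq_of_ne hne] at h2 hz
      omega
    subst hzx
    have hord : ord x y = 1 := by
      have h2 := hy1' x
      rw [Finsupp.sub_apply, Finsupp.single_eq_of_ne (Ne.symm hQx), Finsupp.single_eq_same] at h2 hz
      omega
    have hdeg : dg (Finsupp.single Q m - Finsupp.single P 1 : Dv C L) = m - 1 := by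
      unfold dg
      rw [Finsupp.sum_sub_index (fun _ _ _ => rfl), Finsupp.sum_single_index rfl,
        Finsupp.sum_single_index rfl]
    have hmd : Finsupp.mapDomain sp (Finsupp.single Q m - Finsupp.single P 1 : Dv C L) =
        Finsupp.single (sp Q) m - Finsupp.single x 1 := by
      have h2 := Finsupp.mapDomain_add (f := sp)
        (v₁ := (Finsupp.single Q m - Finsupp.single P 1 : Dv C L))
        (v₂ := Finsupp.single P 1)
      rw [sub_add_cancel, Finsupp.mapDomain_single, Finsupp.mapDomain_single] at h2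
      rw [h2, hx, add_sub_cancel_right]
    obtain ⟨f, hf, hfw, hfy⟩ := hd1 (Finsupp.single Q m - Finsupp.single P 1)
      (by rw [hdeg]; exact hm1) y (by
        rw [hmd, r2.mem]
        exact fun _ => hy1')
    have hres : R.res f ≠ 0 := by rw [hfy]; exact hy0
    have hf0 := ne_zero_of_res hres
    have hord' := (r1.mem _ f).1 hf hf0
    have hge : ∀ P', sp P' = x → 0 ≤ ord P' f := by
      intro P' hP'
      have h2 := hord' P'
      have h3 : P' ≠ Q := by
        rintro rfl
        exact hQx hP'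
      rw [Finsupp.sub_apply, Finsupp.single_eq_of_ne h3] at h2
      by_cases h4 : P' = P
      · rw [h4, Finsupp.single_eq_same] at h2
        rw [h4]
        omega
      · rw [Finsupp.single_eq_of_ne h4] at h2
        omega
    have hP1 : 1 ≤ ord P f := by
      have h2 := hord' P
      have h3 : P ≠ Q := by
        rintro rfl
        exact hQx rfl
      rw [Finsupp.sub_apply, Finsupp.single_eq_of_ne h3, Finsupp.single_eq_same] at h2
      omega
    obtain ⟨P0, hP0, hP01, hP02⟩ := one_zero r1 r2 hsp hres (x := x) (by rw [hfy]; exact hord) hge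
    have hPP : P = P0 := by
      by_contra hne
      have := hP02 P rfl hne
      omega
    subst hPP
    refine ⟨f, ⟨⟨hfw, fun P' hP' => (o1.mem P' f hf0).2 (hge P' hP')⟩, hres, ?_⟩, hP01, hP02⟩
    rw [hfy]
    exact hord
  · -- values
    obtain ⟨c, hcw', hc⟩ := hval x u P hu.1 hP
    obtain ⟨a, ha⟩ := R.const c hcw'
    have hres : R.res (u - algebraMap C L c) = R.res u - algebraMap F Λ a := by
      rw [R.res_sub hu.1.1 hcw', ha]
    have hne : R.res u - algebraMap F Λ a ≠ 0 := by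
      intro h0
      have h1 := hu.2.2
      rw [sub_eq_zero.1 h0, r2.ord_const] at h1
      exact zero_ne_one h1
    have hres0 : R.res (u - algebraMap C L c) ≠ 0 := by rw [hres]; exact hne
    have hmemR : u - algebraMap C L c ∈ Rx R sp x := sub_mem hu.1 (hcR x c hcw')
    have hpos : 0 < ord P (u - algebraMap C L c) :=
      (o1.lt P _ (ne_zero_of_res hres0)).1 hc
    have ha0 : a = 0 := by
      by_contra ha0
      have haΛ : algebraMap F Λ a ≠ 0 := (_root_.map_ne_zero _).2 ha0
      have h1 : ord x (R.res u - algebraMap F Λ a) = 0 := by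
        have h2 := o2.add x (R.res u) (-algebraMap F Λ a) hu.2.1 (neg_ne_zero.2 haΛ)
          (by rw [← sub_eq_add_neg]; exact hne)
        rw [← map_neg, r2.ord_const, hu.2.2, map_neg, ← sub_eq_add_neg] at h2
        have h3 := o2.add x (R.res u - algebraMap F Λ a) (-R.res u) hne (neg_ne_zero.2 hu.2.1)
          (by
            rw [sub_add_eq_add_sub, add_neg_cancel, zero_sub]
            exact neg_ne_zero.2 haΛ)
        rw [sub_add_eq_add_sub, add_neg_cancel, zero_sub, ← map_neg, r2.ord_const] at h3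
        have h4 : ord x (-R.res u) = 1 := by
          have h5 : -R.res u = algebraMap F Λ (-1) * R.res u := by
            rw [map_neg, map_one, neg_one_mul]
          rw [h5, o2.mul x _ _ (by rw [map_neg, map_one]; exact neg_ne_zero.2 one_ne_zero)
            hu.2.1, r2.ord_const, hu.2.2, zero_add]
        rw [h4] at h3
        rcases min_le_iff.1 h3 with h6 | h6
        · have h7 : min (1 : ℤ) 0 = 0 := by decide
          rw [h7] at h2
          omega
        · omega
      have h8 := no_zero r1 r2 hsp hres0 (x := x) (by rw [hres]; exact h1)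
        (hnn x _ hmemR (ne_zero_of_res hres0)) P hP
      omega
    have hclt : R.w.valuation (algebraMap C L c) < 1 := by
      rw [← R.res_lt _ hcw', ha, ha0, map_zero]
    obtain ⟨P0, hP0, hP01, hP02⟩ := key x u hu c hclt
    refine ⟨c, hclt, ?_⟩
    by_cases h9 : P = P0
    · rw [h9]
      exact hP01
    · have := hP02 P hP h9
      omega

end Pool.Agent.Lib.MP_c385f6_ag.TPG
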