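import Pool.Agent.Lib.MP_c385f6_ag.TPG.StC

/-!
Project TPG, module C11: `D_n` reduces to `D_n`.
-/

set_option autoImplicit false

namespace Pool.Agent.Lib.MP_c385f6_ag.TPG

universe u v u' v'

theorem stDnR (hR : StRRF.{u, v}) (hR' : StRRF.{u', v'}) (hSp : StSp.{u, v, u', v'}) :
    StDnR.{u, v, u', v'} := by
  classical
  intro C L F Λ _ _ _ _ _ _ _ _ R g hg n f hf hres
  obtain ⟨sp, hsp, _⟩ := hSp C L F Λ R g hg
  have h1 := hsp f hres
  have hC := hR C L hg.ffC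
  have hF := hR' F Λ hg.ffF
  refine ⟨hres, fun x => ?_⟩
  rw [← hF.dv_apply (R.res f) x hres, ← h1, Finsupp.mapDomain, Finsupp.sum, Finsupp.coe_finsetSum,
    Finset.sum_apply]
  refine Finset.dvd_sum fun P _ => ?_
  rw [hC.dv_apply f P hf.1]
  by_cases h : sp P = x
  · rw [h, Finsupp.single_eq_same]
    exact hf.2 P
  · rw [Finsupp.single_eq_of_ne (Ne.symm h)]
    exact dvd_zero _

end Pool.Agent.Lib.MP_c385f6_ag.TPG
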