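import Pool.Agent.Lib.MP_c385f6_ag.TPG.StC

/-!
Project TPG, part C, C5: facts on discs.
-/

set_option autoImplicit false

open Polynomial

namespace Pool.Agent.Lib.MP_c385f6_ag.TPG

universe u v u' v'

namespace CDsc

/-- the value of a push forward -/
theorem mapDomain_apply {α β : Type*} (f : α → β) (D : α →₀ ℤ) (b : β) [DecidablePred fun a => f a = b] :
    (Finsupp.mapDomain f D) b = ∑ a ∈ D.support.filter (fun a => f a = b), D a := by
  classical
  rw [Finsupp.mapDomain, Finsupp.sum_apply, Finsupp.sum, Finset.sum_filter]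
  refine Finset.sum_congr rfl fun a _ => ?_
  rw [Finsupp.single_apply]

theorem push_nonneg {α β : Type*} (f : α → β) (D : α →₀ ℤ) (b : β)
    (h : ∀ a, f a = b → 0 ≤ D a) : 0 ≤ (Finsupp.mapDomain f D) b := by
  classical
  rw [mapDomain_apply]
  exact Finset.sum_nonneg fun a ha => h a (Finset.mem_filter.1 ha).2

theorem push_zero {α β : Type*} (f : α → β) (D : α →₀ ℤ) (b : β)
    (h : ∀ a, f a = b → D a = 0) : (Finsupp.mapDomain f D) b = 0 := by
  classical
  rw [mapDomain_apply]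
  exact Finset.sum_eq_zero fun a ha => h a (Finset.mem_filter.1 ha).2

theorem eq_zero_of_push {α β : Type*} (f : α → β) (D : α →₀ ℤ) (b : β)
    (h : ∀ a, f a = b → 0 ≤ D a) (h0 : (Finsupp.mapDomain f D) b = 0) :
    ∀ a, f a = b → D a = 0 := by
  classical
  rw [mapDomain_apply, Finset.sum_eq_zero_iff_of_nonneg
    (fun a ha => h a (Finset.mem_filter.1 ha).2)] at h0
  intro a ha
  by_cases hs : a ∈ D.support
  · exact h0 a (Finset.mem_filter.2 ⟨hs, ha⟩)
  · exact Finsupp.notMem_support_iff.1 hs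

variable {C : Type u} {L : Type v} {F : Type u'} {Λ : Type v'} [Field C] [Field L] [Field F]
  [Field Λ] [Algebra C L] [Algebra F Λ] {R : Red C L F Λ} {sp : Plc C L → Plc F Λ}

theorem ne_zero_of_res {f : L} (h : R.res f ≠ 0) : f ≠ 0 := by
  rintro rfl
  exact h R.res_zero

/-- the order of the residue is the sum of the orders on the disc -/
theorem push_eq (hsp : IsSp R sp) (hR' : RRF F Λ) (x : Plc F Λ) {f : L} (h : R.res f ≠ 0) :
    (Finsupp.mapDomain sp (dv f : Dv C L)) x = ord x (R.res f) := by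
  rw [hsp f h, hR'.dv_apply _ _ h]

theorem ord_inv (h : OrdF C L) (P : Plc C L) {x : L} (hx : x ≠ 0) : ord P x⁻¹ = - ord P x := by
  have h0 := h.mul P 1 1 one_ne_zero one_ne_zero
  rw [mul_one] at h0
  have h1 := h.mul P x x⁻¹ hx (inv_ne_zero hx)
  rw [mul_inv_cancel₀ hx] at h1
  omega

/-- third part -/
theorem inv_mem_Rx (hO : OrdF C L) (hR : RRF C L) (hR' : RRF F Λ) (hsp : IsSp R sp)
    (x : Plc F Λ) (f : L) (hf : f ∈ Rx R sp x) (h : R.res f ≠ 0) (h0 : ord x (R.res f) = 0) :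
    (∀ P, sp P = x → ord P f = 0) ∧ f⁻¹ ∈ Rx R sp x := by
  have hf0 := ne_zero_of_res h
  have h1 : ∀ P, sp P = x → ord P f = 0 := by
    have h2 := eq_zero_of_push sp (dv f : Dv C L) x (fun P hP => by
      rw [hR.dv_apply f P hf0]
      exact (hO.mem P f hf0).1 (hf.2 P hP)) (by rw [push_eq hsp hR' x h, h0])
    intro P hP
    rw [← hR.dv_apply f P hf0]
    exact h2 P hP
  refine ⟨h1, Red.inv_mem h, fun P hP => ?_⟩
  rw [hO.mem P _ (inv_ne_zero hf0), ord_inv hO P hf0, h1 P hP]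
  simp

end CDsc

open CDsc in
/-- C5. Facts on discs. -/
theorem stDsc (hA1 : StOrd.{u, v}) (hA1' : StOrd.{u', v'}) (hA2 : StResF.{u, v})
    (hA6 : StRRF.{u, v}) (hA6' : StRRF.{u', v'}) : StDsc.{u, v, u', v'} := by
  intro C L F Λ _ _ _ _ _ _ _ _ R g sp hG hsp
  have hO : OrdF C L := hA1 C L hG.ffC
  have hO' : OrdF F Λ := hA1' F Λ hG.ffF
  have hR : RRF C L := hA6 C L hG.ffC
  have hR' : RRF F Λ := hA6' F Λ hG.ffF
  refine ⟨fun x => ?_, fun x f hf => ?_, fun x f hf h h0 => ?_, fun x f h h0 => ?_,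
    fun x f P hf hP => ?_⟩
  · obtain ⟨y, hy0, hy⟩ := hO'.unif x
    obtain ⟨f, -, rfl⟩ := R.res_surj y
    by_contra hcon
    push Not at hcon
    have h1 := push_zero sp (dv f : Dv C L) x (fun P hP => absurd hP (hcon P))
    rw [push_eq hsp hR' x hy0, hy] at h1
    exact one_ne_zero h1
  · by_cases h : R.res f = 0
    · rw [h]
      exact zero_mem _
    · have hf0 := ne_zero_of_res h
      rw [hO'.mem x _ h, ← push_eq hsp hR' x h]
      refine push_nonneg _ _ _ fun P hP => ?_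
      rw [hR.dv_apply f P hf0]
      exact (hO.mem P f hf0).1 (hf.2 P hP)
  · exact (inv_mem_Rx hO hR hR' hsp x f hf h h0).2
  · have hf0 := ne_zero_of_res h
    have hf : f ∈ Rx R sp x := by
      refine ⟨Red.mem_of_res_ne h, fun P hP => ?_⟩
      rw [hO.mem P f hf0, h0 P hP]
    have h1 : ord x (R.res f) = 0 := by
      rw [← push_eq hsp hR' x h]
      refine push_zero _ _ _ fun P hP => ?_
      rw [hR.dv_apply f P hf0]
      exact h0 P hP
    exact ⟨hf, (inv_mem_Rx hO hR hR' hsp x f hf h h1).2, h1⟩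
  · obtain ⟨c, hc⟩ := hA2 C L hG.ffC P f (hf.2 P hP)
    refine ⟨c, ?_, hc⟩
    by_contra hcw
    have hc0 : algebraMap C L c ≠ 0 := by
      intro h
      rw [h] at hcw
      exact hcw (zero_mem _)
    -- the inverse of `c` has residue `0`
    have hinv : algebraMap C L c⁻¹ = (algebraMap C L c)⁻¹ := map_inv₀ _ _
    have h1 : R.w.valuation (algebraMap C L c⁻¹) < 1 := by
      rw [hinv, map_inv₀]
      refine inv_lt_one_of_one_lt₀ ?_
      rw [← not_le, R.w.valuation_le_one_iff]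
      exact hcw
    have h2 : algebraMap C L c⁻¹ ∈ R.w := (R.w.valuation_le_one_iff _).1 h1.le
    have h3 : R.res (algebraMap C L c⁻¹) = 0 := (R.res_lt _ h2).2 h1
    have h4 : algebraMap C L c⁻¹ * f ∈ Rx R sp x :=
      mul_mem ⟨h2, fun Q _ => Q.const_mem _⟩ hf
    have h5 : algebraMap C L c⁻¹ * f - 1 ∈ Rx R sp x := sub_mem h4 (one_mem _)
    have h6 : R.res (algebraMap C L c⁻¹ * f - 1) = -1 := by
      rw [R.res_sub h4.1 (one_mem _), R.res_mul _ h2 _ hf.1, h3, R.res_one]
      ring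
    have h7 : ord x (R.res (algebraMap C L c⁻¹ * f - 1)) = 0 := by
      rw [h6]
      have h8 := hR'.ord_const (-1) x
      rwa [map_neg, map_one] at h8
    have hne : R.res (algebraMap C L c⁻¹ * f - 1) ≠ 0 := by
      rw [h6]
      exact neg_ne_zero.2 one_ne_zero
    have h9 := (inv_mem_Rx hO hR hR' hsp x _ h5 hne h7).2
    have h10 : (algebraMap C L c⁻¹ * f - 1)⁻¹ ∈ P.ring := h9.2 P hP
    have h11 : P.ring.valuation (algebraMap C L c⁻¹ * f - 1) < 1 := by
      have e1 : algebraMap C L c⁻¹ * f - 1 = algebraMap C L c⁻¹ * (f - algebraMap C L c) := by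
        rw [mul_sub, hinv, inv_mul_cancel₀ hc0]
      rw [e1, map_mul]
      have e2 : P.ring.valuation (algebraMap C L c⁻¹) ≤ 1 :=
        (P.ring.valuation_le_one_iff _).2 (P.const_mem _)
      exact mul_lt_one_of_nonneg_of_lt_one_right e2 zero_le hc
    rw [← P.ring.valuation_le_one_iff, map_inv₀] at h10
    have hne' : algebraMap C L c⁻¹ * f - 1 ≠ 0 := ne_zero_of_res hne
    exact absurd h10 (not_le.2 ((one_lt_inv₀ ((Valuation.pos_iff _).2 hne')).2 h11))

end Pool.Agent.Lib.MP_c385f6_ag.TPG
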