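import Pool.Agent.Lib.MP_c385f6_ag.TPG.StC

/-!
Project TPG, part C4: the specialisation map commutes with automorphisms.
-/

set_option autoImplicit false

namespace Pool.Agent.Lib.MP_c385f6_ag.TPG

universe u v u' v'

namespace EqvAux

section Val

variable {W W' : Type*} [Field W] [Field W'] (A : ValuationSubring W) (B : ValuationSubring W')
  (s : W ≃+* W') (h : ∀ z, z ∈ A ↔ s z ∈ B)

include h

theorem val_le_iff (x y : W) :
    A.valuation x ≤ A.valuation y ↔ B.valuation (s x) ≤ B.valuation (s y) := by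
  rcases eq_or_ne y 0 with rfl | hy
  · rw [map_zero, map_zero, map_zero, le_zero_iff, le_zero_iff, map_eq_zero, map_eq_zero,
      EmbeddingLike.map_eq_zero_iff]
  · have hy' : s y ≠ 0 := fun h0 => hy ((EmbeddingLike.map_eq_zero_iff (f := s)).1 h0)
    have h1 : A.valuation x ≤ A.valuation y ↔ x / y ∈ A := by
      rw [← A.valuation_le_one_iff, map_div₀, div_le_one₀ ((Valuation.pos_iff _).2 hy)]
    have h2 : B.valuation (s x) ≤ B.valuation (s y) ↔ s x / s y ∈ B := by
      rw [← B.valuation_le_one_iff, map_div₀, div_le_one₀ ((Valuation.pos_iff _).2 hy')]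
    rw [h1, h2, h, map_div₀]

theorem val_lt_one_iff (x : W) : A.valuation x < 1 ↔ B.valuation (s x) < 1 := by
  have h1 := val_le_iff A B s h 1 x
  rw [map_one, map_one, map_one] at h1
  rw [← not_le, ← not_le, h1]

theorem val_eq_iff (x y : W) :
    A.valuation x = A.valuation y ↔ B.valuation (s x) = B.valuation (s y) := by
  rw [le_antisymm_iff, le_antisymm_iff, val_le_iff A B s h, val_le_iff A B s h]

end Val

open Classical in
/-- auxiliary function -/
noncomputable def pick (p : ℤ → Prop) : ℤ := if h : ∃ n : ℤ, p n then h.choose else 0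

/-- the property defining the order -/
def isOrd {F W : Type*} [Field F] [Field W] [Algebra F W] (P : Plc F W) (x : W) (n : ℤ) : Prop :=
  ∃ u : W, u ≠ 0 ∧ P.ring.valuation u < 1 ∧
      (∀ y : W, P.ring.valuation y < 1 → P.ring.valuation y ≤ P.ring.valuation u) ∧
      P.ring.valuation x = P.ring.valuation u ^ n

theorem ord_eq_pick {F W : Type*} [Field F] [Field W] [Algebra F W] (P : Plc F W) (x : W) :
    ord P x = pick (isOrd P x) := rfl

theorem ord_mv {F W F' W' : Type*} [Field F] [Field W] [Field F'] [Field W'] [Algebra F W]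
    [Algebra F' W'] (s : W ≃+* W') {P : Plc F W} {Q : Plc F' W'} (h : Mv s P Q) (x : W) :
    ord Q (s x) = ord P x := by
  have h1 : isOrd Q (s x) = isOrd P x := by
    funext n
    apply propext
    constructor
    · rintro ⟨u, hu0, hu1, hu2, hu3⟩
      obtain ⟨u, rfl⟩ := s.surjective u
      refine ⟨u, fun h0 => hu0 (by rw [h0, map_zero]), (val_lt_one_iff _ _ s h u).2 hu1,
        fun y hy => (val_le_iff _ _ s h y u).2 (hu2 _ ((val_lt_one_iff _ _ s h y).1 hy)), ?_⟩
      rw [← map_zpow₀] at hu3 ⊢
      rw [val_eq_iff _ _ s h, map_zpow₀]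
      exact hu3
    · rintro ⟨u, hu0, hu1, hu2, hu3⟩
      refine ⟨s u, fun h0 => hu0 ((EmbeddingLike.map_eq_zero_iff (f := s)).1 h0),
        (val_lt_one_iff _ _ s h u).1 hu1, fun y hy => ?_, ?_⟩
      · obtain ⟨y, rfl⟩ := s.surjective y
        exact (val_le_iff _ _ s h y u).1 (hu2 _ ((val_lt_one_iff _ _ s h y).2 hy))
      · rw [← map_zpow₀] at hu3 ⊢
        rw [val_eq_iff _ _ s h, map_zpow₀] at hu3
        exact hu3
  rw [ord_eq_pick, ord_eq_pick, h1]

section Pl

variable {F : Type u} {W : Type v} [Field F] [Field W] [Algebra F W]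

theorem mv_unique {s : W ≃+* W} {P Q Q' : Plc F W} (h : Mv s P Q) (h' : Mv s P Q') : Q = Q' := by
  apply Plc.ext
  ext x
  obtain ⟨x, rfl⟩ := s.surjective x
  rw [← h x, ← h' x]

/-- the image of a place -/
def mapP (s : W ≃+* W)
    (hs' : ∀ c : F, ∃ c' : F, s.symm (algebraMap F W c) = algebraMap F W c') (P : Plc F W) :
    Plc F W where
  ring := P.ring.comap (s.symm : W →+* W)
  ne_top := by
    intro h
    apply P.ne_top
    rw [eq_top_iff]
    intro x _
    have h1 : s x ∈ P.ring.comap (s.symm : W →+* W) := by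
      rw [h]
      exact ValuationSubring.mem_top _
    have h2 : s.symm (s x) ∈ P.ring := h1
    rwa [s.symm_apply_apply] at h2
  const_mem := by
    intro c
    obtain ⟨c', h⟩ := hs' c
    change s.symm (algebraMap F W c) ∈ P.ring
    rw [h]
    exact P.const_mem c'

theorem mv_mapP (s : W ≃+* W)
    (hs' : ∀ c : F, ∃ c' : F, s.symm (algebraMap F W c) = algebraMap F W c') (P : Plc F W) :
    Mv s P (mapP s hs' P) := by
  intro z
  change z ∈ P.ring ↔ s.symm (s z) ∈ P.ring
  rw [s.symm_apply_apply]

/-- the permutation of the places -/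
def perm (s : W ≃+* W)
    (hs : ∀ c : F, ∃ c' : F, s (algebraMap F W c) = algebraMap F W c')
    (hs' : ∀ c : F, ∃ c' : F, s.symm (algebraMap F W c) = algebraMap F W c') :
    Plc F W ≃ Plc F W where
  toFun := mapP s hs'
  invFun := mapP s.symm hs
  left_inv := by
    intro P
    apply Plc.ext
    ext x
    change s.symm (s x) ∈ P.ring ↔ _
    rw [s.symm_apply_apply]
  right_inv := by
    intro P
    apply Plc.ext
    ext x
    change s (s.symm x) ∈ P.ring ↔ _
    rw [s.apply_symm_apply]

theorem mv_perm (s : W ≃+* W)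
    (hs : ∀ c : F, ∃ c' : F, s (algebraMap F W c) = algebraMap F W c')
    (hs' : ∀ c : F, ∃ c' : F, s.symm (algebraMap F W c) = algebraMap F W c') (P : Plc F W) :
    Mv s P (perm s hs hs' P) := mv_mapP s hs' P

theorem dv_map (s : W ≃+* W) (σ : Plc F W ≃ Plc F W) (hσ : ∀ P, Mv s P (σ P)) (f : W) :
    (dv (s f) : Dv F W) = Finsupp.mapDomain σ (dv f) := by
  have key : ∀ P : Plc F W, ord (σ P) (s f) = ord P f := fun P => ord_mv s (hσ P) f
  by_cases h : (Function.support fun P : Plc F W => ord P f).Finite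
  · have h' : (Function.support fun P : Plc F W => ord P (s f)).Finite := by
      refine (h.image σ).subset ?_
      intro Q hQ
      refine ⟨σ.symm Q, ?_, σ.apply_symm_apply Q⟩
      rw [Function.mem_support] at hQ ⊢
      rwa [← key, σ.apply_symm_apply]
    rw [dv, dif_pos h', dv, dif_pos h]
    ext Q
    obtain ⟨P, rfl⟩ := σ.surjective Q
    rw [Finsupp.mapDomain_apply σ.injective, Finsupp.ofSupportFinite_coe,
      Finsupp.ofSupportFinite_coe]
    exact key P
  · have h' : ¬ (Function.support fun P : Plc F W => ord P (s f)).Finite := by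
      intro h'
      apply h
      refine (h'.preimage σ.injective.injOn).subset ?_
      intro P hP
      rw [Function.mem_support] at hP
      rw [Set.mem_preimage, Function.mem_support]
      rwa [key]
    rw [dv, dif_neg h', dv, dif_neg h, Finsupp.mapDomain_zero]

end Pl

end EqvAux

open EqvAux

/-- C4. The specialisation map commutes with automorphisms. -/
theorem stEqv (h : StSp.{u, v, u', v'}) : StEqv.{u, v, u', v'} := by
  intro C L F Λ _ _ _ _ _ _ _ _ R g sp s s' hG hsp hs hs' hres P Q hPQ
  have hF : ∀ a : F, ∃ a' : F, s' (algebraMap F Λ a) = algebraMap F Λ a' := by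
    intro a
    obtain ⟨c, hc, hca⟩ := R.const_surj a
    obtain ⟨c', hc'⟩ := hs c
    rw [← hca, ← hres, hc']
    by_cases hw : algebraMap C L c' ∈ R.w
    · exact R.const c' hw
    · exact ⟨0, by rw [R.res_out _ hw, map_zero]⟩
  have hF' : ∀ a : F, ∃ a' : F, s'.symm (algebraMap F Λ a) = algebraMap F Λ a' := by
    intro a
    obtain ⟨c, hc, hca⟩ := R.const_surj a
    obtain ⟨c', hc'⟩ := hs' c
    have h1 : s'.symm (algebraMap F Λ a) = R.res (algebraMap C L c') := by
      rw [← hca, ← hc', RingEquiv.symm_apply_eq, ← hres, s.apply_symm_apply]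
    rw [h1]
    by_cases hw : algebraMap C L c' ∈ R.w
    · exact R.const c' hw
    · exact ⟨0, by rw [R.res_out _ hw, map_zero]⟩
  set σ := perm s hs hs' with hσ
  set σ' := perm s' hF hF' with hσ'
  have hspp : IsSp R (fun P => σ'.symm (sp (σ P))) := by
    intro f hf
    have h1 : R.res (s f) ≠ 0 := by
      rw [hres]
      exact fun h0 => hf ((EmbeddingLike.map_eq_zero_iff (f := s')).1 h0)
    have h2 := hsp (s f) h1
    rw [dv_map s σ (mv_perm s hs hs'), hres, dv_map s' σ' (mv_perm s' hF hF')] at h2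
    have h3 : (fun P => σ'.symm (sp (σ P))) = σ'.symm ∘ (sp ∘ σ) := rfl
    rw [h3, Finsupp.mapDomain_comp, Finsupp.mapDomain_comp, h2, ← Finsupp.mapDomain_comp,
      Equiv.symm_comp_self, Finsupp.mapDomain_id]
  have h4 := (h C L F Λ R g hG).unique hspp hsp
  have h5 : sp (σ P) = σ' (sp P) := by
    have h6 := congrFun h4 P
    exact (Equiv.symm_apply_eq _).1 h6
  have h6 : Q = σ P := mv_unique hPQ (mv_perm s hs hs' P)
  rw [h6, h5]
  exact mv_perm s' hF hF' (sp P)

end Pool.Agent.Lib.MP_c385f6_ag.TPG
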