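import Pool.Agent.Lib.MP_c385f6_ag.TPG.StC

/-!
Project TPG, C12: unramified Kummer extensions of fields with good reduction have good reduction.
-/

set_option autoImplicit false

open Polynomial

namespace Pool.Agent.Lib.MP_c385f6_ag.TPG

universe u v u' v'

namespace EtAux

/-- Elements of finite order are constants. -/
theorem root_const {F W : Type*} [Field F] [IsAlgClosed F] [Field W] [Algebra F W] {n : ℕ}
    (hn : n ≠ 0) {z : W} (hz : z ^ n = 1) : ∃ c : F, algebraMap F W c = z := by
  have hi : IsIntegral F z := IsIntegral.of_pow (Nat.pos_of_ne_zero hn) (hz ▸ isIntegral_one)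
  have h1 := IsAlgClosed.degree_eq_one_of_irreducible F (minpoly.irreducible hi)
  obtain ⟨c, hc⟩ := minpoly.mem_range_of_degree_eq_one F z h1
  exact ⟨c, hc⟩

/-- `x ^ n = y ^ n`: the quotient is a constant. -/
theorem quot_const {F W : Type*} [Field F] [IsAlgClosed F] [Field W] [Algebra F W] {n : ℕ}
    (hn : n ≠ 0) {x y : W} (hy : y ≠ 0) (h : x ^ n = y ^ n) :
    ∃ c : F, c ≠ 0 ∧ x = algebraMap F W c * y := by
  have hyn : y ^ n ≠ 0 := pow_ne_zero _ hy
  have h1 : (x / y) ^ n = 1 := by rw [div_pow, h, div_self hyn]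
  obtain ⟨c, hc⟩ := root_const (F := F) hn h1
  have hx : x ≠ 0 := by
    rintro rfl
    rw [zero_pow hn] at h
    exact hyn h.symm
  refine ⟨c, ?_, ?_⟩
  · rintro rfl
    rw [map_zero] at hc
    exact div_ne_zero hx hy hc.symm
  · rw [hc, div_mul_cancel₀ _ hy]

/-- The degree `m` of a radical `h`: `h ^ m` is in the base field. -/
theorem pow_mem {F : Type u} {W W' : Type v} [Field F] [IsAlgClosed F] [Field W] [Field W']
    [Algebra F W] [Algebra F W'] [Algebra W W'] [IsScalarTower F W W'] {n : ℕ} (hn : (n : F) ≠ 0)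
    {h : W'} {g : W} (hg : g ≠ 0) (hh : h ^ n = algebraMap W W' g) :
    ∃ b : W, algebraMap W W' b = h ^ (minpoly W h).natDegree := by
  have hn0 : n ≠ 0 := by rintro rfl; exact hn Nat.cast_zero
  have h0 : h ≠ 0 := by
    rintro rfl
    rw [zero_pow hn0] at hh
    exact hg ((map_eq_zero _).1 hh.symm)
  have hi : IsIntegral W h := IsIntegral.of_pow (Nat.pos_of_ne_zero hn0)
    (hh ▸ isIntegral_algebraMap)
  have : NeZero (n : F) := ⟨hn⟩
  obtain ⟨ζ, hζ⟩ := HasEnoughRootsOfUnity.exists_primitiveRoot F n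
  have hζ' : IsPrimitiveRoot (algebraMap F W' ζ) n :=
    hζ.map_of_injective (algebraMap F W').injective
  have hs := X_pow_sub_C_splits_of_isPrimitiveRoot hζ' (α := h) rfl
  have hdvd : (minpoly W h).map (algebraMap W W') ∣ X ^ n - Polynomial.C (h ^ n) := by
    have h1 : minpoly W h ∣ X ^ n - Polynomial.C g := by
      apply minpoly.dvd
      simp [hh]
    have h2 := Polynomial.map_dvd (algebraMap W W') h1
    rwa [Polynomial.map_sub, Polynomial.map_pow, Polynomial.map_X, Polynomial.map_C, ← hh] at h2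
  have hne : (X ^ n - Polynomial.C (h ^ n) : W'[X]) ≠ 0 := X_pow_sub_C_ne_zero (Nat.pos_of_ne_zero hn0) _
  have hsp : ((minpoly W h).map (algebraMap W W')).Splits := hs.of_dvd hne hdvd
  have hm : ((minpoly W h).map (algebraMap W W')).Monic := (minpoly.monic hi).map _
  have h3 := hsp.coeff_zero_eq_prod_roots_of_monic hm
  have hcard : Multiset.card ((minpoly W h).map (algebraMap W W')).roots =
      (minpoly W h).natDegree := by
    rw [← hsp.natDegree_eq_card_roots, Polynomial.natDegree_map]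
  have key : ∀ s : Multiset W', (∀ r ∈ s, ∃ c : F, c ≠ 0 ∧ r = algebraMap F W' c * h) →
      ∃ c : F, c ≠ 0 ∧ s.prod = algebraMap F W' c * h ^ (Multiset.card s) := by
    intro s
    induction s using Multiset.induction with
    | empty => intro _; exact ⟨1, one_ne_zero, by simp⟩
    | cons a s ih =>
      intro hr
      obtain ⟨c, hc, h1⟩ := ih fun r hr' => hr r (Multiset.mem_cons_of_mem hr')
      obtain ⟨c', hc', h2⟩ := hr a (Multiset.mem_cons_self a s)
      refine ⟨c' * c, mul_ne_zero hc' hc, ?_⟩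
      rw [Multiset.prod_cons, h1, h2, Multiset.card_cons, map_mul, pow_succ]
      ring
  obtain ⟨c, hc, h4⟩ := key ((minpoly W h).map (algebraMap W W')).roots (by
    intro r hr
    have h5 : r ^ n = h ^ n := by
      have h6 : Polynomial.IsRoot (X ^ n - Polynomial.C (h ^ n) : W'[X]) r :=
        (Polynomial.isRoot_of_mem_roots hr).dvd hdvd
      have h7 : r ^ n - h ^ n = 0 := by simpa [Polynomial.IsRoot] using h6
      exact sub_eq_zero.1 h7
    exact quot_const hn0 h0 h5)
  rw [hcard] at h4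
  rw [h4, Polynomial.coeff_map] at h3
  set m := (minpoly W h).natDegree with hmdef
  refine ⟨(-1) ^ ((minpoly W h).map (algebraMap W W')).natDegree * (algebraMap F W c)⁻¹ *
    (minpoly W h).coeff 0, ?_⟩
  have hc' : algebraMap F W' c ≠ 0 := by rwa [Ne, map_eq_zero]
  rw [map_mul, h3, map_mul, map_pow, map_neg, map_one, map_inv₀, ← IsScalarTower.algebraMap_apply]
  have h8 : ((-1 : W') ^ ((minpoly W h).map (algebraMap W W')).natDegree) *
      ((-1 : W') ^ ((minpoly W h).map (algebraMap W W')).natDegree) = 1 := by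
    rw [← mul_pow]; simp
  field_simp
  linear_combination h8

/-- The same with an exponent that divides `n`. -/
theorem pow_mem' {F : Type u} {W W' : Type v} [Field F] [IsAlgClosed F] [Field W] [Field W']
    [Algebra F W] [Algebra F W'] [Algebra W W'] [IsScalarTower F W W'] {n : ℕ} (hn : (n : F) ≠ 0)
    {h : W'} {g : W} (hg : g ≠ 0) (hh : h ^ n = algebraMap W W' g) :
    ∃ (d e : ℕ) (b : W), n = d * e ∧ d ≤ (minpoly W h).natDegree ∧
      algebraMap W W' b = h ^ d := by
  have hn0 : n ≠ 0 := by rintro rfl; exact hn Nat.cast_zero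
  have h0 : h ≠ 0 := by
    rintro rfl
    rw [zero_pow hn0] at hh
    exact hg ((map_eq_zero _).1 hh.symm)
  have hi : IsIntegral W h := IsIntegral.of_pow (Nat.pos_of_ne_zero hn0)
    (hh ▸ isIntegral_algebraMap)
  obtain ⟨b, hb⟩ := pow_mem hn hg hh
  set m := (minpoly W h).natDegree with hm
  have hm0 : 0 < m := minpoly.natDegree_pos hi
  obtain ⟨e, he⟩ := Nat.gcd_dvd_right m n
  refine ⟨Nat.gcd m n, e, b ^ (Nat.gcdA m n) * g ^ (Nat.gcdB m n), he,
    Nat.gcd_le_left n hm0, ?_⟩
  rw [map_mul, map_zpow₀, map_zpow₀, hb, ← hh, ← zpow_natCast, ← zpow_natCast, ← zpow_mul,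
    ← zpow_mul, ← zpow_add₀ h0, ← Nat.gcd_eq_gcd_ab, zpow_natCast]

/-- Upper bound for the degree of a radical extension. -/
theorem finrank_le {W W' : Type*} [Field W] [Field W'] [Algebra W W'] {h : W'} {b : W} {d : ℕ}
    (hd : d ≠ 0) (hb : algebraMap W W' b = h ^ d) (htop : IntermediateField.adjoin W {h} = ⊤) :
    Module.finrank W W' ≤ d := by
  have hi : IsIntegral W h := IsIntegral.of_pow (Nat.pos_of_ne_zero hd)
    (hb ▸ isIntegral_algebraMap)
  have h1 : Module.finrank W W' = (minpoly W h).natDegree := by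
    rw [← IntermediateField.adjoin.finrank hi, htop, IntermediateField.finrank_top']
  rw [h1]
  have h2 : minpoly W h ∣ X ^ d - Polynomial.C b := by
    apply minpoly.dvd
    simp [hb]
  have h3 := Polynomial.natDegree_le_of_dvd h2 (X_pow_sub_C_ne_zero (Nat.pos_of_ne_zero hd) _)
  rwa [natDegree_X_pow_sub_C] at h3

/-- Residues: independent elements can be lifted. -/
theorem lift_indep {C : Type u} {L M : Type v} {F : Type u'} {Λ μ : Type v'} [Field C] [Field L]
    [Field M] [Field F] [Field Λ] [Field μ] [Algebra C L] [Algebra C M] [Algebra L M]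
    [Algebra F Λ] [Algebra F μ] [Algebra Λ μ] {R : Red C L F Λ} {R' : Red C M F μ}
    (hR : RExt R R') {ι : Type*} (x : ι → M) (hx : ∀ i, x i ∈ R'.w)
    (hi : LinearIndependent Λ fun i => R'.res (x i)) : LinearIndependent L x := by
  classical
  rw [linearIndependent_iff']
  intro s a hs
  by_contra hcon
  push Not at hcon
  obtain ⟨j, hj, hj0⟩ := hcon
  obtain ⟨k, hk, hmax⟩ := Finset.exists_max_image s (fun i => R.w.valuation (a i)) ⟨j, hj⟩
  have hk0 : a k ≠ 0 := by
    intro h0
    have h1 := hmax j hj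
    rw [h0, map_zero, le_zero_iff, map_eq_zero] at h1
    exact hj0 h1
  have hb : ∀ i ∈ s, a i / a k ∈ R.w := by
    intro i hi'
    rw [← R.w.valuation_le_one_iff, map_div₀]
    exact div_le_one_of_le₀ (hmax i hi') zero_le
  have hb' : ∀ i ∈ s, algebraMap L M (a i / a k) ∈ R'.w := fun i hi' => (hR.1 _).1 (hb i hi')
  have hsum : ∑ i ∈ s, algebraMap L M (a i / a k) * x i = 0 := by
    have h1 : ∑ i ∈ s, algebraMap L M (a i / a k) * x i =
        algebraMap L M (a k)⁻¹ * ∑ i ∈ s, a i • x i := by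
      rw [Finset.mul_sum]
      refine Finset.sum_congr rfl fun i _ => ?_
      rw [Algebra.smul_def, div_eq_mul_inv, map_mul]
      ring
    rw [h1, hs, mul_zero]
  have hres : ∀ t : Finset ι, t ⊆ s → (∑ i ∈ t, algebraMap L M (a i / a k) * x i ∈ R'.w ∧
      R'.res (∑ i ∈ t, algebraMap L M (a i / a k) * x i) =
        ∑ i ∈ t, R.res (a i / a k) • R'.res (x i)) := by
    intro t
    induction t using Finset.induction with
    | empty =>
      intro _
      rw [Finset.sum_empty, Finset.sum_empty]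
      exact ⟨zero_mem _, R'.res_zero⟩
    | insert i t hit ih =>
      intro hts
      obtain ⟨h1, h2⟩ := ih ((Finset.subset_insert _ _).trans hts)
      have his : i ∈ s := hts (Finset.mem_insert_self _ _)
      have h3 : algebraMap L M (a i / a k) * x i ∈ R'.w := mul_mem (hb' i his) (hx i)
      rw [Finset.sum_insert hit, Finset.sum_insert hit]
      refine ⟨add_mem h3 h1, ?_⟩
      rw [R'.res_add _ h3 _ h1, h2, R'.res_mul _ (hb' i his) _ (hx i), hR.2, Algebra.smul_def]
  have h4 := (hres s subset_rfl).2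
  rw [hsum, R'.res_zero] at h4
  have h5 := (linearIndependent_iff'.1 hi) s (fun i => R.res (a i / a k)) h4.symm k hk
  rw [div_self hk0, R.res_one] at h5
  exact one_ne_zero h5

/-- `[μ : Λ] ≤ [M : L]`. -/
theorem finrank_res {C : Type u} {L M : Type v} {F : Type u'} {Λ μ : Type v'} [Field C] [Field L]
    [Field M] [Field F] [Field Λ] [Field μ] [Algebra C L] [Algebra C M] [Algebra L M]
    [Algebra F Λ] [Algebra F μ] [Algebra Λ μ] {R : Red C L F Λ} {R' : Red C M F μ}
    (hR : RExt R R') [FiniteDimensional L M] :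
    FiniteDimensional Λ μ ∧ Module.finrank Λ μ ≤ Module.finrank L M := by
  classical
  let b := Module.Basis.ofVectorSpace Λ μ
  choose x hx hx' using fun i => R'.res_surj (b i)
  have hi : LinearIndependent L x := by
    refine lift_indep hR x hx ?_
    have : (fun i => R'.res (x i)) = b := funext hx'
    rw [this]
    exact b.linearIndependent
  have : Finite (Module.Basis.ofVectorSpaceIndex Λ μ) := hi.finite
  have := Fintype.ofFinite (Module.Basis.ofVectorSpaceIndex Λ μ)
  refine ⟨Module.Finite.of_basis b, ?_⟩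
  rw [Module.finrank_eq_card_basis b]
  exact hi.fintype_card_le_finrank

/-- The degree over a rational subfield in a tower. -/
theorem tower {C : Type u} {L M : Type v} [Field C] [Field L] [Field M] [Algebra C L] [Algebra C M]
    [Algebra L M] [IsScalarTower C L M] (t : L)
    [FiniteDimensional (IntermediateField.adjoin C {t}) L] [FiniteDimensional L M] :
    FiniteDimensional (IntermediateField.adjoin C {algebraMap L M t}) M ∧
      Module.finrank (IntermediateField.adjoin C {algebraMap L M t}) M =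
        Module.finrank (IntermediateField.adjoin C {t}) L * Module.finrank L M := by
  set K := IntermediateField.adjoin C {t} with hK
  have hmap : K.map (IsScalarTower.toAlgHom C L M) =
      IntermediateField.adjoin C {algebraMap L M t} := by
    rw [hK, IntermediateField.adjoin_map, Set.image_singleton]
    rfl
  rw [← hmap]
  let e : K ≃ₐ[C] K.map (IsScalarTower.toAlgHom C L M) :=
    IntermediateField.equivMap K (IsScalarTower.toAlgHom C L M)
  have hfin : Module.Finite K M := Module.Finite.trans L M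
  have hcomm : (algebraMap (K.map (IsScalarTower.toAlgHom C L M)) M).comp
      (e.toRingEquiv : K →+* K.map (IsScalarTower.toAlgHom C L M)) =
      (RingEquiv.refl M : M →+* M).comp (algebraMap K M) := by
    ext z
    rfl
  refine ⟨Module.Finite.of_equiv_equiv e.toRingEquiv (RingEquiv.refl M) hcomm, ?_⟩
  rw [Module.finrank_mul_finrank K L M]
  exact (Algebra.finrank_eq_of_equiv_equiv e.toRingEquiv (RingEquiv.refl M) hcomm).symm

end EtAux

/-- C12. -/
theorem stEt (hOrd : StOrd.{u, v}) (hOver : StOver.{u, v, v}) (hOver' : StOver.{u', v', v'})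
    (hRiem : StRiem.{u, v}) (hRiem' : StRiem.{u', v'}) (hKum : StKum.{u, v, v})
    (hKum' : StKum.{u', v', v'}) (hON : StON.{u, v, u', v'}) (hInj : StInj.{u, v, u', v'})
    (hDnR : StDnR.{u, v, u', v'}) : StEt.{u, v, u', v'} := by
  intro C L M F Λ μ _ _ _ _ _ _ _ _ _ _ _ _ _ _ _ _ R R' g n h f hgood hext hnF hnC hh hf htop
  have hn0 : n ≠ 0 := by rintro rfl; exact hnC Nat.cast_zero
  obtain ⟨-, -, hscale⟩ := hON C L F Λ R g hgood
  have hf0 : f ≠ 0 := hf.1
  obtain ⟨c0, hc0, hres0⟩ := hscale f hf0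
  obtain ⟨c, hc⟩ := IsAlgClosed.exists_pow_nat_eq c0 (Nat.pos_of_ne_zero hn0)
  have hc1 : c ≠ 0 := by
    rintro rfl
    rw [zero_pow hn0] at hc
    exact hc0 hc.symm
  have hcL : algebraMap C L c ≠ 0 := by rwa [Ne, map_eq_zero]
  have hcM : algebraMap C M c ≠ 0 := by rwa [Ne, map_eq_zero]
  have hO : OrdF C L := hOrd C L hgood.ffC
  set f1 : L := algebraMap C L c ^ n * f with hf1
  have hf1res : R.res f1 ≠ 0 := by
    rw [hf1, ← map_pow, hc]
    exact hres0
  have hpow : ∀ (P : Plc C L) (x : L) (k : ℕ), x ≠ 0 → ord P (x ^ k) = k * ord P x := by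
    intro P x k hx
    induction k with
    | zero =>
      have h1 := hO.mul P 1 1 one_ne_zero one_ne_zero
      rw [mul_one] at h1
      simp
      linarith
    | succ k ih =>
      rw [pow_succ, hO.mul P _ _ (pow_ne_zero _ hx) hx, ih]
      push_cast
      ring
  have hf1D : ∀ k : ℕ, k ∣ n → f1 ∈ Dn C k := by
    intro k hk
    refine ⟨mul_ne_zero (pow_ne_zero _ hcL) hf0, fun P => ?_⟩
    have hkn : (k : ℤ) ∣ (n : ℤ) := Int.natCast_dvd_natCast.2 hk
    rw [hf1, hO.mul P _ _ (pow_ne_zero _ hcL) hf0, hpow P _ _ hcL]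
    exact dvd_add (hkn.mul_right _) (hkn.trans (hf.2 P))
  set h1 : M := algebraMap C M c * h with hh1
  have hh1n : h1 ^ n = algebraMap L M f1 := by
    rw [hh1, mul_pow, hh, hf1, map_mul, map_pow, ← IsScalarTower.algebraMap_apply]
  have hf1w : algebraMap L M f1 ∈ R'.w := (hext.1 f1).1 (Red.mem_of_res_ne hf1res)
  have hh1w : h1 ∈ R'.w := by
    rw [← hh1n] at hf1w
    rw [← R'.w.valuation_le_one_iff] at hf1w ⊢
    rw [map_pow] at hf1w
    exact (pow_le_one_iff hn0).1 hf1w
  have hresn : R'.res h1 ^ n = algebraMap Λ μ (R.res f1) := by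
    rw [← hext.2, ← hh1n]
    have : ∀ k : ℕ, R'.res h1 ^ k = R'.res (h1 ^ k) := by
      intro k
      induction k with
      | zero => simp [R'.res_one]
      | succ k ih => rw [pow_succ, pow_succ, R'.res_mul _ (pow_mem hh1w k) _ hh1w, ih]
    exact this n
  have hres1 : R'.res h1 ≠ 0 := by
    intro h0
    rw [h0, zero_pow hn0] at hresn
    exact hf1res ((map_eq_zero _).1 hresn.symm)
  have hyD : R.res f1 ∈ Dn F n := hDnR C L F Λ R g hgood n f1 (hf1D n dvd_rfl) hf1res
  -- finiteness
  obtain ⟨hfinLM, -, -, hgenC⟩ := hKum C L M n h f hgood.ffC hnC hh hf htop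
  have := hfinLM
  obtain ⟨hfinΛμ, hle⟩ := EtAux.finrank_res hext
  have := hfinΛμ
  -- the degree
  have hh0 : h ≠ 0 := by
    rintro rfl
    rw [zero_pow hn0] at hh
    exact hf0 ((map_eq_zero _).1 hh.symm)
  have hh10 : h1 ≠ 0 := mul_ne_zero hcM hh0
  obtain ⟨d, e, b, hde, hdle, hb⟩ := EtAux.pow_mem' hnF hf1res hresn
  have hd0 : d ≠ 0 := by rintro rfl; rw [zero_mul] at hde; exact hn0 hde
  have he0 : e ≠ 0 := by rintro rfl; rw [mul_zero] at hde; exact hn0 hde
  have hb0 : b ≠ 0 := by
    rintro rfl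
    rw [map_zero] at hb
    exact pow_ne_zero _ hres1 hb.symm
  have heF : (e : F) ≠ 0 := by
    intro h0
    apply hnF
    rw [hde, Nat.cast_mul, h0, mul_zero]
  have hbe : R.res f1 = b ^ e := by
    apply (algebraMap Λ μ).injective
    rw [← hresn, map_pow, hb, hde, pow_mul]
  obtain ⟨h2, hh2⟩ := hInj C L F Λ R g hgood e f1 b heF (hf1D e ⟨d, by rw [hde, mul_comm]⟩) hbe hb0
  have hh20 : h2 ≠ 0 := by
    rintro rfl
    rw [zero_pow he0] at hh2
    exact (hf1D n dvd_rfl).1 hh2.symm
  have hq : (h1 ^ d) ^ e = (algebraMap L M h2) ^ e := by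
    rw [← pow_mul, ← hde, hh1n, ← map_pow, hh2]
  obtain ⟨z, hz0, hz⟩ := EtAux.quot_const (F := C) he0
    (by rwa [Ne, map_eq_zero] : algebraMap L M h2 ≠ 0) hq
  have hLM : Module.finrank L M ≤ d := by
    refine EtAux.finrank_le (h := h) (b := (algebraMap C L c ^ d)⁻¹ * (algebraMap C L z * h2)) hd0
      ?_ htop
    rw [map_mul, map_mul, map_inv₀, map_pow, ← IsScalarTower.algebraMap_apply,
      ← IsScalarTower.algebraMap_apply, ← hz, hh1, mul_pow,
      inv_mul_cancel_left₀ (pow_ne_zero _ hcM)]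
  have hdeg : (minpoly Λ (R'.res h1)).natDegree ≤ Module.finrank Λ μ := minpoly.natDegree_le _
  have heq : Module.finrank L M = Module.finrank Λ μ := by omega
  have htop' : IntermediateField.adjoin Λ {R'.res h1} = ⊤ :=
    (Field.primitive_element_iff_minpoly_natDegree_eq Λ (R'.res h1)).2 (by omega)
  -- good reduction
  obtain ⟨-, -, -, hgenF⟩ := hKum' F Λ μ n (R'.res h1) (R.res f1) hgood.ffF hnF hresn hyD htop'
  have hffM : FF C M := (hOver C L M hgood.ffC).1
  have hffμ : FF F μ := (hOver' F Λ μ hgood.ffF).1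
  obtain ⟨a, ha, -⟩ := hRiem C M hffM
  obtain ⟨a', ha', -⟩ := hRiem' F μ hffμ
  have haa : a' = a := by
    have h3 := hgenC g a hgood.genC ha
    have h4 := hgenF g a' hgood.genF ha'
    rw [← heq] at h4
    have : (a' : ℤ) = a := by linarith
    exact_mod_cast this
  subst haa
  obtain ⟨t, htw, htr, hfin1, hfin2, hft⟩ := hgood.deg
  have := hfin1
  have := hfin2
  have htower := EtAux.tower (C := C) (M := M) t
  have htower' := EtAux.tower (C := F) (M := μ) (R.res t)
  refine ⟨⟨a', ⟨hffM, hffμ, ⟨algebraMap L M t, (hext.1 t).1 htw, ?_, htower.1, ?_, ?_⟩, ha, ha'⟩⟩,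
    hfinLM, hfinΛμ, heq, c, R.res f1, hc1, hres1, hyD, hresn, htop'⟩
  · rw [hext.2]
    exact (transcendental_algebraMap_iff (algebraMap Λ μ).injective).2 htr
  · rw [hext.2]
    exact htower'.1
  · rw [htower.2, hext.2, htower'.2, hft, heq]

end Pool.Agent.Lib.MP_c385f6_ag.TPG
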