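import Pool.Agent.Lib.MP_c385f6_ag.TPG.Defs

/-!
Project TPG, parts C, D: constant reductions of function fields in the sense of Deuring.
`C` is a valued field (algebraically closed in the statements), `L / C` a field with a valuation ring
`w`, `F` the residue field of `C`, `Λ` the residue field of `w`.
-/

set_option autoImplicit false

open Polynomial

namespace Pool.Agent.Lib.MP_c385f6_ag.TPG

universe u v u' v'

/-- A valuation ring `w` of `L` with residue field `Λ`, such that the constants `C` have residue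
field `F`. `res : L → Λ` is the residue map on `w` and `0` outside of `w`. -/
structure Red (C : Type u) (L : Type v) (F : Type u') (Λ : Type v') [Field C] [Field L] [Field F]
    [Field Λ] [Algebra C L] [Algebra F Λ] where
  w : ValuationSubring L
  res : L → Λ
  res_add : ∀ x ∈ w, ∀ y ∈ w, res (x + y) = res x + res y
  res_mul : ∀ x ∈ w, ∀ y ∈ w, res (x * y) = res x * res y
  res_one : res 1 = 1
  res_lt : ∀ x ∈ w, (res x = 0 ↔ w.valuation x < 1)
  res_out : ∀ x, x ∉ w → res x = 0
  res_surj : ∀ y : Λ, ∃ x ∈ w, res x = y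
  const : ∀ c : C, algebraMap C L c ∈ w → ∃ a : F, res (algebraMap C L c) = algebraMap F Λ a
  const_surj : ∀ a : F, ∃ c : C, algebraMap C L c ∈ w ∧
    res (algebraMap C L c) = algebraMap F Λ a

variable {C : Type u} {L : Type v} {F : Type u'} {Λ : Type v'} [Field C] [Field L] [Field F]
  [Field Λ] [Algebra C L] [Algebra F Λ]

/-- Good reduction of genus `g`: function fields of the same genus `g`, and
`[L : C(t)] = [Λ : F(t̄)]` for some `t` with transcendental residue. -/
structure Good (R : Red C L F Λ) (g : ℕ) : Prop where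
  ffC : FF C L
  ffF : FF F Λ
  deg : ∃ t ∈ R.w, Transcendental F (R.res t) ∧
    FiniteDimensional (IntermediateField.adjoin C {t}) L ∧
    FiniteDimensional (IntermediateField.adjoin F {R.res t}) Λ ∧
    Module.finrank (IntermediateField.adjoin C {t}) L =
      Module.finrank (IntermediateField.adjoin F {R.res t}) Λ
  genC : IsGenus C L g
  genF : IsGenus F Λ g

/-- `sp` is the specialisation map of places: `sp_* (div f) = div f̄` for all `f` with `f̄ ≠ 0`. -/
def IsSp (R : Red C L F Λ) (sp : Plc C L → Plc F Λ) : Prop :=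
  ∀ f : L, R.res f ≠ 0 → Finsupp.mapDomain sp (dv f : Dv C L) = (dv (R.res f) : Dv F Λ)

/-- The functions that are integral and regular on the disc of `x` (the places `P` with
`sp P = x`). -/
def Rx (R : Red C L F Λ) (sp : Plc C L → Plc F Λ) (x : Plc F Λ) : Subring L where
  carrier := {f | f ∈ R.w ∧ ∀ P, sp P = x → f ∈ P.ring}
  mul_mem' := fun ha hb => ⟨mul_mem ha.1 hb.1, fun P hP => mul_mem (ha.2 P hP) (hb.2 P hP)⟩
  add_mem' := fun ha hb => ⟨add_mem ha.1 hb.1, fun P hP => add_mem (ha.2 P hP) (hb.2 P hP)⟩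
  one_mem' := ⟨one_mem _, fun _ _ => one_mem _⟩
  zero_mem' := ⟨zero_mem _, fun _ _ => zero_mem _⟩
  neg_mem' := fun ha => ⟨neg_mem ha.1, fun P hP => neg_mem (ha.2 P hP)⟩

theorem mem_Rx {R : Red C L F Λ} {sp : Plc C L → Plc F Λ} {x : Plc F Λ} {f : L} :
    f ∈ Rx R sp x ↔ f ∈ R.w ∧ ∀ P, sp P = x → f ∈ P.ring := Iff.rfl

/-- `u` is a coordinate of the disc of `x`. -/
def IsCrd (R : Red C L F Λ) (sp : Plc C L → Plc F Λ) (x : Plc F Λ) (u : L) : Prop :=
  u ∈ Rx R sp x ∧ R.res u ≠ 0 ∧ ord x (R.res u) = 1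

/-- Distinguished polynomials of degree `N`: monic, the other coefficients have value `< 1`. -/
def Dist (R : Red C L F Λ) (N : ℕ) (f : C[X]) : Prop :=
  f.Monic ∧ f.natDegree = N ∧ ∀ i < N, R.w.valuation (algebraMap C L (f.coeff i)) < 1

/-- The subfield `K₂` of `L` has constants `k₂ = K₂ ∩ C` which are complete and discretely valued. -/
def IsDisc (R : Red C L F Λ) (K₂ : Subfield L) : Prop :=
  ∃ π : C, algebraMap C L π ∈ K₂ ∧ π ≠ 0 ∧ R.w.valuation (algebraMap C L π) < 1 ∧
    (∀ c : C, algebraMap C L c ∈ K₂ → c ≠ 0 →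
      ∃ j : ℤ, R.w.valuation (algebraMap C L c) = R.w.valuation (algebraMap C L π) ^ j) ∧
    (∀ c : C, c ≠ 0 → ∃ j : ℕ,
      R.w.valuation (algebraMap C L (π ^ j)) < R.w.valuation (algebraMap C L c)) ∧
    ∀ s : ℕ → C, (∀ j, algebraMap C L (s j) ∈ K₂) →
      (∀ j, R.w.valuation (algebraMap C L (s (j + 1) - s j)) ≤
        R.w.valuation (algebraMap C L (π ^ j))) →
      ∃ c : C, algebraMap C L c ∈ K₂ ∧ ∀ j, R.w.valuation (algebraMap C L (c - s j)) ≤
        R.w.valuation (algebraMap C L (π ^ j))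

/-- Finite levels: any finite set of elements and places of `L` is defined over a subfield `K₂` with
complete and discretely valued field of constants. -/
def Cof (R : Red C L F Λ) : Prop :=
  ∀ (S : Finset L) (T : Finset (Plc C L)), ∃ K₂ : Subfield L, IsDisc R K₂ ∧ (∀ f ∈ S, f ∈ K₂) ∧
    ∀ P ∈ T, ∀ f ∈ K₂, f ∈ P.ring →
      ∃ c : C, algebraMap C L c ∈ K₂ ∧ P.ring.valuation (f - algebraMap C L c) < 1

/-- `R'` (on `M / L`, residue field `μ / Λ`) extends `R`. -/
def RExt {M μ : Type*} [Field M] [Field μ] [Algebra C M] [Algebra F μ] [Algebra L M] [Algebra Λ μ]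
    (R : Red C L F Λ) (R' : Red C M F μ) : Prop :=
  (∀ f : L, f ∈ R.w ↔ algebraMap L M f ∈ R'.w) ∧
    ∀ f : L, R'.res (algebraMap L M f) = algebraMap Λ μ (R.res f)

namespace Red

theorem res_zero (R : Red C L F Λ) : R.res 0 = 0 :=
  (R.res_lt 0 (zero_mem _)).2 (by simp)

theorem mem_of_res_ne {R : Red C L F Λ} {x : L} (h : R.res x ≠ 0) : x ∈ R.w := by
  by_contra hx
  exact h (R.res_out x hx)

theorem res_neg (R : Red C L F Λ) {x : L} (hx : x ∈ R.w) : R.res (-x) = - R.res x := by
  have h := R.res_add x hx (-x) (neg_mem hx)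
  rw [add_neg_cancel, R.res_zero] at h
  exact (neg_eq_of_add_eq_zero_right h.symm).symm

theorem res_sub (R : Red C L F Λ) {x y : L} (hx : x ∈ R.w) (hy : y ∈ R.w) :
    R.res (x - y) = R.res x - R.res y := by
  rw [sub_eq_add_neg, R.res_add x hx _ (neg_mem hy), R.res_neg hy, sub_eq_add_neg]

theorem val_eq_one {R : Red C L F Λ} {x : L} (h : R.res x ≠ 0) : R.w.valuation x = 1 := by
  have hx := mem_of_res_ne h
  have h1 : R.w.valuation x ≤ 1 := (R.w.valuation_le_one_iff x).2 hx
  rcases lt_or_eq_of_le h1 with h2 | h2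
  · exact absurd ((R.res_lt x hx).2 h2) h
  · exact h2

theorem res_ne_iff (R : Red C L F Λ) (x : L) : R.res x ≠ 0 ↔ R.w.valuation x = 1 := by
  refine ⟨val_eq_one, fun h => ?_⟩
  have hx : x ∈ R.w := (R.w.valuation_le_one_iff x).1 h.le
  intro h0
  exact absurd ((R.res_lt x hx).1 h0) (by rw [h]; exact lt_irrefl _)

theorem inv_mem {R : Red C L F Λ} {x : L} (h : R.res x ≠ 0) : x⁻¹ ∈ R.w := by
  rw [← R.w.valuation_le_one_iff, map_inv₀, val_eq_one h, inv_one]

theorem res_inv (R : Red C L F Λ) {x : L} (h : R.res x ≠ 0) : R.res x⁻¹ = (R.res x)⁻¹ := by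
  have hx : x ≠ 0 := by rintro rfl; exact h R.res_zero
  have h1 := R.res_mul x (mem_of_res_ne h) x⁻¹ (inv_mem h)
  rw [mul_inv_cancel₀ hx, R.res_one] at h1
  exact (inv_eq_of_mul_eq_one_right h1.symm).symm

/-- The residue map as a ring homomorphism. -/
def hom (R : Red C L F Λ) : R.w →+* Λ where
  toFun x := R.res x
  map_one' := R.res_one
  map_mul' x y := R.res_mul x x.2 y y.2
  map_zero' := R.res_zero
  map_add' x y := R.res_add x x.2 y y.2

end Red

section Sub

variable {Ω : Type v} {U : Type v'} [Field Ω] [Field U] [Algebra C Ω] [Algebra F U]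

/-- The residue field of `M ∩ w`, a subfield of the residue field of `w`. -/
def Red.img (R : Red C Ω F U) (M : IntermediateField C Ω) : IntermediateField F U where
  carrier := {y | ∃ z ∈ M, z ∈ R.w ∧ R.res z = y}
  mul_mem' := by
    rintro _ _ ⟨a, ha, ha', rfl⟩ ⟨b, hb, hb', rfl⟩
    exact ⟨a * b, mul_mem ha hb, mul_mem ha' hb', R.res_mul a ha' b hb'⟩
  add_mem' := by
    rintro _ _ ⟨a, ha, ha', rfl⟩ ⟨b, hb, hb', rfl⟩
    exact ⟨a + b, add_mem ha hb, add_mem ha' hb', R.res_add a ha' b hb'⟩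
  algebraMap_mem' := by
    intro a
    obtain ⟨c, hc, hc'⟩ := R.const_surj a
    exact ⟨algebraMap C Ω c, M.algebraMap_mem c, hc, hc'⟩
  inv_mem' := by
    rintro _ ⟨a, ha, ha', rfl⟩
    by_cases h : R.res a = 0
    · exact ⟨0, zero_mem _, zero_mem _, by rw [h, R.res_zero, inv_zero]⟩
    · exact ⟨a⁻¹, M.inv_mem ha, Red.inv_mem h, R.res_inv h⟩

theorem Red.mem_img {R : Red C Ω F U} {M : IntermediateField C Ω} {y : U} :
    y ∈ R.img M ↔ ∃ z ∈ M, z ∈ R.w ∧ R.res z = y := Iff.rfl

theorem Red.res_mem_img (R : Red C Ω F U) (M : IntermediateField C Ω) (z : M) :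
    R.res z ∈ R.img M := by
  by_cases h : (z : Ω) ∈ R.w
  · exact ⟨z, z.2, h, rfl⟩
  · rw [R.res_out z h]
    exact zero_mem _

/-- The reduction of the subfield `M` of `Ω`. -/
def Red.sub (R : Red C Ω F U) (M : IntermediateField C Ω) : Red C M F (R.img M) where
  w := R.w.comap (algebraMap M Ω)
  res z := ⟨R.res z, R.res_mem_img M z⟩
  res_add := fun x hx y hy => Subtype.ext (R.res_add x hx y hy)
  res_mul := fun x hx y hy => Subtype.ext (R.res_mul x hx y hy)
  res_one := Subtype.ext R.res_one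
  res_lt := by
    intro x hx
    rw [Subtype.ext_iff]
    change R.res x = 0 ↔ _
    rw [R.res_lt x hx]
    have h1 : ∀ (L' : Type v) [Field L'] (A : ValuationSubring L') (y : L'), y ∈ A →
        (A.valuation y < 1 ↔ y = 0 ∨ y⁻¹ ∉ A) := by
      intro L' _ A y hy
      rcases eq_or_ne y 0 with rfl | h0
      · simp
      · rw [← A.valuation_le_one_iff, map_inv₀]
        constructor
        · intro h
          right
          rw [not_le]
          exact (one_lt_inv₀ ((Valuation.pos_iff _).2 h0)).2 h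
        · rintro (h | h)
          · exact absurd h h0
          · rw [not_le] at h
            exact (one_lt_inv₀ ((Valuation.pos_iff _).2 h0)).1 h
    rw [h1 Ω R.w x hx, h1 M (R.w.comap (algebraMap M Ω)) x hx]
    have h2 : (x : Ω) = 0 ↔ x = 0 := by
      rw [ZeroMemClass.coe_eq_zero]
    rw [h2]
    rfl
  res_out := fun x hx => Subtype.ext (R.res_out x hx)
  res_surj := by
    rintro ⟨y, z, hz, hz', rfl⟩
    exact ⟨⟨z, hz⟩, hz', rfl⟩
  const := by
    intro c hc
    obtain ⟨a, ha⟩ := R.const c hc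
    exact ⟨a, Subtype.ext ha⟩
  const_surj := by
    intro a
    obtain ⟨c, hc, hc'⟩ := R.const_surj a
    exact ⟨c, hc, Subtype.ext hc'⟩

theorem Red.sub_res (R : Red C Ω F U) (M : IntermediateField C Ω) (z : M) :
    (((R.sub M).res z : R.img M) : U) = R.res z := rfl

theorem Red.mem_sub_w (R : Red C Ω F U) (M : IntermediateField C Ω) (z : M) :
    z ∈ (R.sub M).w ↔ (z : Ω) ∈ R.w := Iff.rfl

/-- Towers: `L`, and `M(h)` where `M` is a tower and `h ^ n = g ∈ D_n(M)`, `n` prime to `p`. (Used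
for `C ⊆ L ⊆ Ω` and for `F ⊆ Λ ⊆ U`.) -/
inductive Tow (C : Type u) {Ω : Type v} [Field C] [Field Ω] [Algebra C Ω] (p : ℕ)
    (L : IntermediateField C Ω) : IntermediateField C Ω → Prop
  | base : Tow C p L L
  | step (M : IntermediateField C Ω) (h : Ω) (n : ℕ) (g : M) : Tow C p L M → ¬ p ∣ n →
      h ^ n = g → g ∈ Dn C n → Tow C p L (M ⊔ IntermediateField.adjoin C {h})

end Sub

end Pool.Agent.Lib.MP_c385f6_ag.TPG
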