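import Mathlib
import Pool.Agent.Lib.MP_c385f6_ag.TPG.Red

/-!
Project TPG, part C, lemma LIN: elements with independent residues are orthonormal; the Gauss
valuation on `C(y)`, `y` with transcendental residue.
-/

set_option autoImplicit false

open Polynomial

namespace Pool.Agent.Lib.MP_c385f6_ag.TPG

universe u v u' v'

namespace Lin

variable {C : Type u} {L : Type v} {F : Type u'} {Λ : Type v'} [Field C] [Field L] [Field F]
  [Field Λ] [Algebra C L] [Algebra F Λ]

section Basic

variable (R : Red C L F Λ)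

theorem res_sum {ι : Type*} (s : Finset ι) (x : ι → L) (hx : ∀ i ∈ s, x i ∈ R.w) :
    R.res (∑ i ∈ s, x i) = ∑ i ∈ s, R.res (x i) := by
  classical
  induction s using Finset.induction_on with
  | empty => rw [Finset.sum_empty, Finset.sum_empty, R.res_zero]
  | insert a s ha ih =>
    rw [Finset.sum_insert ha, Finset.sum_insert ha,
      R.res_add _ (hx a (Finset.mem_insert_self a s)) _
        (sum_mem fun i hi => hx i (Finset.mem_insert_of_mem hi)),
      ih fun i hi => hx i (Finset.mem_insert_of_mem hi)]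

theorem res_pow {x : L} (hx : x ∈ R.w) (n : ℕ) : R.res (x ^ n) = R.res x ^ n := by
  induction n with
  | zero => rw [pow_zero, pow_zero, R.res_one]
  | succ n ih => rw [pow_succ, pow_succ, R.res_mul _ (pow_mem hx n) _ hx, ih]

open Classical in
/-- the residue of a constant -/
noncomputable def rc (c : C) : F :=
  if h : algebraMap C L c ∈ R.w then (R.const c h).choose else 0

theorem rc_spec {c : C} (h : algebraMap C L c ∈ R.w) :
    R.res (algebraMap C L c) = algebraMap F Λ (rc R c) := by
  unfold rc
  rw [dif_pos h]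
  exact (R.const c h).choose_spec

theorem rc_eq {c : C} {a : F} (h : algebraMap C L c ∈ R.w)
    (h' : R.res (algebraMap C L c) = algebraMap F Λ a) : rc R c = a := by
  rw [rc_spec R h] at h'
  exact (algebraMap F Λ).injective h'

/-- the ring of integral constants -/
abbrev Oc : ValuationSubring C := R.w.comap (algebraMap C L)

/-- the residue map on the ring of integral constants -/
noncomputable def rh : Oc R →+* F where
  toFun c := rc R (c : C)
  map_one' := rc_eq R (by rw [OneMemClass.coe_one, map_one]; exact one_mem _)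
    (by rw [OneMemClass.coe_one, map_one, map_one, R.res_one])
  map_mul' x y := by
    have hx : algebraMap C L (x : C) ∈ R.w := x.2
    have hy : algebraMap C L (y : C) ∈ R.w := y.2
    apply rc_eq R (x * y).2
    rw [MulMemClass.coe_mul, map_mul, R.res_mul _ hx _ hy, rc_spec R hx, rc_spec R hy, map_mul]
  map_zero' := rc_eq R (by rw [ZeroMemClass.coe_zero, map_zero]; exact zero_mem _)
    (by rw [ZeroMemClass.coe_zero, map_zero, map_zero, R.res_zero])
  map_add' x y := by
    have hx : algebraMap C L (x : C) ∈ R.w := x.2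
    have hy : algebraMap C L (y : C) ∈ R.w := y.2
    apply rc_eq R (x + y).2
    rw [AddMemClass.coe_add, map_add, R.res_add _ hx _ hy, rc_spec R hx, rc_spec R hy, map_add]

theorem rh_surj : Function.Surjective (rh R) := by
  intro a
  obtain ⟨c, hc, hc'⟩ := R.const_surj a
  exact ⟨⟨c, hc⟩, rc_eq R hc hc'⟩

end Basic

/-! ### Orthonormal families -/

/-- a family of elements of `w` with linearly independent residues -/
structure Orth (R : Red C L F Λ) {ι : Type*} (e : ι → L) : Prop where
  mem : ∀ i, e i ∈ R.w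
  ind : LinearIndependent F (fun i => R.res (e i))

variable {R : Red C L F Λ} {ι : Type*} {e : ι → L}

theorem Orth.comp (h : Orth R e) {κ : Type*} (f : κ → ι) (hf : Function.Injective f) :
    Orth R (e ∘ f) := ⟨fun i => h.mem (f i), h.ind.comp f hf⟩

/-- scaling of a nonzero linear combination -/
theorem Orth.scale (h : Orth R e) (s : Finset ι) (c : ι → C) (hc : ∃ i ∈ s, c i ≠ 0) :
    ∃ k ∈ s, c k ≠ 0 ∧ (∀ i ∈ s, algebraMap C L ((c k)⁻¹ * c i) ∈ R.w) ∧
      R.res (algebraMap C L (c k)⁻¹ * ∑ i ∈ s, algebraMap C L (c i) * e i) ≠ 0 := by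
  classical
  obtain ⟨i0, hi0, hci0⟩ := hc
  obtain ⟨k, hk, hmax⟩ := s.exists_max_image (fun i => R.w.valuation (algebraMap C L (c i)))
    ⟨i0, hi0⟩
  have hk0 : c k ≠ 0 := by
    intro h0
    have h1 := hmax i0 hi0
    rw [h0, map_zero, map_zero, le_zero_iff, map_eq_zero, map_eq_zero] at h1
    exact hci0 h1
  have hk1 : R.w.valuation (algebraMap C L (c k)) ≠ 0 := by
    rwa [Ne, map_eq_zero, map_eq_zero]
  have hm : ∀ i ∈ s, algebraMap C L ((c k)⁻¹ * c i) ∈ R.w := by
    intro i hi
    rw [← R.w.valuation_le_one_iff, map_mul, map_mul, map_inv₀, map_inv₀]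
    exact inv_mul_le_one_of_le₀ (hmax i hi) zero_le
  refine ⟨k, hk, hk0, hm, ?_⟩
  have h1 : algebraMap C L (c k)⁻¹ * ∑ i ∈ s, algebraMap C L (c i) * e i =
      ∑ i ∈ s, algebraMap C L ((c k)⁻¹ * c i) * e i := by
    rw [Finset.mul_sum]
    refine Finset.sum_congr rfl fun i _ => ?_
    rw [map_mul]
    ring
  rw [h1, res_sum R s _ fun i hi => mul_mem (hm i hi) (h.mem i)]
  have h2 : ∑ i ∈ s, R.res (algebraMap C L ((c k)⁻¹ * c i) * e i) =
      ∑ i ∈ s, rc R ((c k)⁻¹ * c i) • R.res (e i) := by
    refine Finset.sum_congr rfl fun i hi => ?_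
    rw [R.res_mul _ (hm i hi) _ (h.mem i), rc_spec R (hm i hi), Algebra.smul_def]
  rw [h2]
  intro h3
  have h4 := linearIndependent_iff'.1 h.ind s _ h3 k hk
  rw [inv_mul_cancel₀ hk0] at h4
  have h5 : rc R (1 : C) = 1 := rc_eq R (by rw [map_one]; exact one_mem _)
    (by rw [map_one, map_one, R.res_one])
  rw [h5] at h4
  exact one_ne_zero h4

/-- `w(c_k) ≤ w(∑ c_i e_i)` -/
theorem Orth.le (h : Orth R e) (s : Finset ι) (c : ι → C) {k : ι} (hk : k ∈ s) :
    R.w.valuation (algebraMap C L (c k)) ≤
      R.w.valuation (∑ i ∈ s, algebraMap C L (c i) * e i) := by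
  by_cases hc : ∃ i ∈ s, c i ≠ 0
  · obtain ⟨k0, hk0, hne, hm, hr⟩ := h.scale s c hc
    have h1 := Red.val_eq_one hr
    have h0 : R.w.valuation (algebraMap C L (c k0)) ≠ 0 := by rwa [Ne, map_eq_zero, map_eq_zero]
    rw [map_mul, map_inv₀, map_inv₀, inv_mul_eq_iff_eq_mul₀ h0, mul_one] at h1
    rw [h1]
    have h2 := (R.w.valuation_le_one_iff _).2 (hm k hk)
    rw [map_mul, map_mul, map_inv₀, map_inv₀, inv_mul_le_iff₀ (zero_lt_iff.2 h0), mul_one] at h2
    exact h2
  · push Not at hc
    rw [hc k hk, map_zero, map_zero]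
    exact zero_le

/-- orthonormal families are linearly independent -/
theorem Orth.indep (h : Orth R e) : LinearIndependent C e := by
  rw [linearIndependent_iff']
  intro s c hc k hk
  have h1 : ∑ i ∈ s, algebraMap C L (c i) * e i = 0 := by
    rw [← hc]
    exact Finset.sum_congr rfl fun i _ => (Algebra.smul_def _ _).symm
  have h2 := h.le s c hk
  rw [h1, map_zero, le_zero_iff, map_eq_zero, map_eq_zero] at h2
  exact h2

/-- the residues of the elements of `w` in the span of an orthonormal family -/
theorem Orth.res_mem (h : Orth R e) {x : L} (hx : x ∈ Submodule.span C (Set.range e))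
    (hxw : x ∈ R.w) : R.res x ∈ Submodule.span F (Set.range fun i => R.res (e i)) := by
  classical
  obtain ⟨c, rfl⟩ := Finsupp.mem_span_range_iff_exists_finsupp.1 hx
  have h1 : (c.sum fun i a => a • e i) = ∑ i ∈ c.support, algebraMap C L (c i) * e i :=
    Finset.sum_congr rfl fun i _ => Algebra.smul_def _ _
  rw [h1] at hxw ⊢
  have h2 : ∀ i ∈ c.support, algebraMap C L (c i) ∈ R.w := by
    intro i hi
    rw [← R.w.valuation_le_one_iff]
    exact (h.le c.support c hi).trans ((R.w.valuation_le_one_iff _).2 hxw)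
  rw [res_sum R _ _ fun i hi => mul_mem (h2 i hi) (h.mem i)]
  refine Submodule.sum_mem _ fun i hi => ?_
  rw [R.res_mul _ (h2 i hi) _ (h.mem i), rc_spec R (h2 i hi), ← Algebra.smul_def]
  exact Submodule.smul_mem _ _ (Submodule.subset_span ⟨i, rfl⟩)

/-- nonzero elements of the span of an orthonormal family can be scaled -/
theorem Orth.exists_scale (h : Orth R e) {x : L} (hx : x ∈ Submodule.span C (Set.range e))
    (h0 : x ≠ 0) : ∃ c : C, c ≠ 0 ∧ R.res (algebraMap C L c * x) ≠ 0 := by
  classical
  obtain ⟨c, rfl⟩ := Finsupp.mem_span_range_iff_exists_finsupp.1 hx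
  have h1 : (c.sum fun i a => a • e i) = ∑ i ∈ c.support, algebraMap C L (c i) * e i :=
    Finset.sum_congr rfl fun i _ => Algebra.smul_def _ _
  have h2 : ∃ i ∈ c.support, c i ≠ 0 := by
    by_contra hcon
    push Not at hcon
    apply h0
    rw [h1]
    refine Finset.sum_eq_zero fun i hi => ?_
    rw [hcon i hi, map_zero, zero_mul]
  obtain ⟨k, -, hk0, -, hr⟩ := h.scale c.support c h2
  rw [h1]
  exact ⟨(c k)⁻¹, inv_ne_zero hk0, hr⟩

theorem Orth.mul (h : Orth R e) {q : L} (hq : R.res q ≠ 0) : Orth R (fun i => e i * q) := by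
  refine ⟨fun i => mul_mem (h.mem i) (Red.mem_of_res_ne hq), ?_⟩
  have h1 : (fun i => R.res (e i * q)) =
      (LinearMap.mulRight F (R.res q)) ∘ (fun i => R.res (e i)) := by
    funext i
    exact R.res_mul _ (h.mem i) _ (Red.mem_of_res_ne hq)
  rw [h1]
  refine h.ind.map' _ ?_
  rw [LinearMap.ker_eq_bot]
  intro x y hxy
  exact mul_right_cancel₀ hq hxy

/-! ### The Gauss valuation -/

/-- common denominators in `C(y)` -/
theorem exists_den (y : L) (s : Finset ι) (q : ι → IntermediateField.adjoin C {y}) :
    ∃ P : C[X], aeval y P ≠ 0 ∧ ∀ i ∈ s, ∃ p : C[X], aeval y P * (q i : L) = aeval y p := by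
  classical
  induction s using Finset.induction_on with
  | empty => exact ⟨1, by simp, by simp⟩
  | insert a s ha ih =>
    obtain ⟨P, hP, hPs⟩ := ih
    obtain ⟨r, t, hrt⟩ := (IntermediateField.mem_adjoin_simple_iff C (q a : L)).1 (q a).2
    by_cases ht : aeval y t = 0
    · refine ⟨P, hP, fun i hi => ?_⟩
      rcases Finset.mem_insert.1 hi with rfl | hi
      · exact ⟨0, by rw [hrt, ht, div_zero, mul_zero, map_zero]⟩
      · exact hPs i hi
    · refine ⟨P * t, by rw [map_mul]; exact mul_ne_zero hP ht, fun i hi => ?_⟩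
      rcases Finset.mem_insert.1 hi with rfl | hi
      · refine ⟨P * r, ?_⟩
        rw [hrt, map_mul, map_mul]
        field_simp
      · obtain ⟨p, hp⟩ := hPs i hi
        refine ⟨p * t, ?_⟩
        rw [map_mul, map_mul, ← hp]
        ring

/-- the powers of an element with transcendental residue times independent elements -/
theorem orth_pow {y : L} (hy : y ∈ R.w) (ht : Transcendental F (R.res y)) {b : ι → L}
    (hb : ∀ i, b i ∈ R.w)
    (hi : LinearIndependent (IntermediateField.adjoin F {R.res y}) fun i => R.res (b i)) :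
    Orth R (fun x : ℕ × ι => y ^ x.1 * b x.2) := by
  refine ⟨fun x => mul_mem (pow_mem hy _) (hb _), ?_⟩
  set K := IntermediateField.adjoin F {R.res y} with hK
  set z : K := ⟨R.res y, IntermediateField.mem_adjoin_simple_self F _⟩ with hz
  have h1 : LinearIndependent F (fun j : ℕ => z ^ j) := by
    have h2 : Function.Injective (aeval z : F[X] →ₐ[F] K) := by
      intro p q hpq
      apply transcendental_iff_injective.1 ht
      have h3 := congrArg (algebraMap K Λ) hpq
      rw [← aeval_algebraMap_apply, ← aeval_algebraMap_apply] at h3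
      exact h3
    have h3 : (fun j : ℕ => z ^ j) = (aeval z : F[X] →ₐ[F] K).toLinearMap ∘
        (fun j : ℕ => (X : F[X]) ^ j) := by
      funext j
      simp
    rw [h3]
    refine LinearIndependent.map' ?_ _ (LinearMap.ker_eq_bot.2 h2)
    have h4 := (Polynomial.basisMonomials F).linearIndependent
    have h5 : ⇑(Polynomial.basisMonomials F) = fun j : ℕ => (X : F[X]) ^ j := by
      rw [Polynomial.coe_basisMonomials]
      funext j
      rw [Polynomial.monomial_one_right_eq_X_pow]
    rwa [h5] at h4
  have h2 := linearIndependent_smul h1 hi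
  have h3 : (fun x : ℕ × ι => R.res (y ^ x.1 * b x.2)) =
      fun x : ℕ × ι => z ^ x.1 • R.res (b x.2) := by
    funext x
    rw [R.res_mul _ (pow_mem hy _) _ (hb _), res_pow R hy, Algebra.smul_def, map_pow]
    rfl
  rw [h3]
  exact h2

/-- the valuation of `∑ P_i(y) b_i` -/
theorem gauss_poly {y : L} (hy : y ∈ R.w) (ht : Transcendental F (R.res y)) {b : ι → L}
    (hb : ∀ i, b i ∈ R.w)
    (hi : LinearIndependent (IntermediateField.adjoin F {R.res y}) fun i => R.res (b i))
    (s : Finset ι) (P : ι → C[X]) {k : ι} (hk : k ∈ s) :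
    (∀ j, R.w.valuation (algebraMap C L ((P k).coeff j)) ≤
      R.w.valuation (∑ i ∈ s, aeval y (P i) * b i)) ∧
    R.w.valuation (aeval y (P k)) ≤ R.w.valuation (∑ i ∈ s, aeval y (P i) * b i) := by
  classical
  set N := s.sup (fun i => (P i).natDegree) + 1 with hN
  have h1 : ∀ i ∈ s, (P i).natDegree < N := fun i hi =>
    Nat.lt_succ_of_le (Finset.le_sup (f := fun i => (P i).natDegree) hi)
  have h2 : ∑ i ∈ s, aeval y (P i) * b i =
      ∑ x ∈ Finset.range N ×ˢ s, algebraMap C L ((P x.2).coeff x.1) * (y ^ x.1 * b x.2) := by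
    rw [Finset.sum_product_right]
    refine Finset.sum_congr rfl fun i hi => ?_
    rw [aeval_eq_sum_range' (h1 i hi), Finset.sum_mul]
    refine Finset.sum_congr rfl fun j _ => ?_
    rw [Algebra.smul_def, mul_assoc]
  have h3 : ∀ j, R.w.valuation (algebraMap C L ((P k).coeff j)) ≤
      R.w.valuation (∑ i ∈ s, aeval y (P i) * b i) := by
    intro j
    by_cases hj : j < N
    · rw [h2]
      exact (orth_pow hy ht hb hi).le (Finset.range N ×ˢ s)
        (fun x : ℕ × ι => (P x.2).coeff x.1) (k := (j, k))
        (Finset.mem_product.2 ⟨Finset.mem_range.2 hj, hk⟩)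
    · rw [coeff_eq_zero_of_natDegree_lt ((h1 k hk).trans_le (not_lt.1 hj)), map_zero, map_zero]
      exact zero_le
  refine ⟨h3, ?_⟩
  rw [aeval_eq_sum_range]
  apply Valuation.map_sum_le
  intro j _
  rw [Algebra.smul_def, map_mul, map_pow]
  have h4 : R.w.valuation y ^ j ≤ 1 := pow_le_one' ((R.w.valuation_le_one_iff y).2 hy) j
  exact (mul_le_of_le_one_right' h4).trans (h3 j)

/-- LIN: the valuation of `∑ q_i b_i`, `q_i ∈ C(y)`. -/
theorem gauss {y : L} (hy : y ∈ R.w) (ht : Transcendental F (R.res y)) {b : ι → L}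
    (hb : ∀ i, b i ∈ R.w)
    (hi : LinearIndependent (IntermediateField.adjoin F {R.res y}) fun i => R.res (b i))
    (s : Finset ι) (q : ι → IntermediateField.adjoin C {y}) {k : ι} (hk : k ∈ s) :
    R.w.valuation (q k : L) ≤ R.w.valuation (∑ i ∈ s, (q i : L) * b i) := by
  classical
  obtain ⟨P, hP, hPs⟩ := exists_den y s q
  have h0 : R.w.valuation (aeval y P) ≠ 0 := by rwa [Ne, map_eq_zero]
  choose! p hp using hPs
  have h1 := (gauss_poly hy ht hb hi s p hk).2
  have h2 : ∑ i ∈ s, aeval y (p i) * b i = aeval y P * ∑ i ∈ s, (q i : L) * b i := by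
    rw [Finset.mul_sum]
    refine Finset.sum_congr rfl fun i hi => ?_
    rw [← hp i hi, mul_assoc]
  rw [h2, ← hp k hk, map_mul, map_mul] at h1
  exact le_of_mul_le_mul_left h1 (zero_lt_iff.2 h0)

/-- LIN: lifts of elements independent over `F(ȳ)` are independent over `C(y)`. -/
theorem indep {y : L} (hy : y ∈ R.w) (ht : Transcendental F (R.res y)) {b : ι → L}
    (hb : ∀ i, b i ∈ R.w)
    (hi : LinearIndependent (IntermediateField.adjoin F {R.res y}) fun i => R.res (b i)) :
    LinearIndependent (IntermediateField.adjoin C {y}) b := by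
  rw [linearIndependent_iff']
  intro s q hq k hk
  have h1 : ∑ i ∈ s, (q i : L) * b i = 0 := by
    rw [← hq]
    rfl
  have h2 := gauss hy ht hb hi s q hk
  rw [h1, map_zero, le_zero_iff, map_eq_zero] at h2
  exact_mod_cast h2

/-- the residue of `y` is transcendental, so `y` is -/
theorem transc {y : L} (hy : y ∈ R.w) (ht : Transcendental F (R.res y)) : Transcendental C y := by
  rw [transcendental_iff]
  intro p hp
  have h1 : LinearIndependent (IntermediateField.adjoin F {R.res y})
      fun _ : Unit => R.res ((fun _ : Unit => (1 : L)) ()) := by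
    rw [R.res_one]
    exact LinearIndependent.of_subsingleton () one_ne_zero
  have h2 := (gauss_poly (b := fun _ : Unit => (1 : L)) hy ht (fun _ => one_mem _) h1
    {()} (fun _ => p) (Finset.mem_singleton_self ())).1
  ext j
  have h3 := h2 j
  rw [Finset.sum_singleton, hp, zero_mul, map_zero, le_zero_iff, map_eq_zero, map_eq_zero] at h3
  rw [h3, coeff_zero]

/-- scaling of polynomials in `y` -/
theorem poly_scale {y : L} (hy : y ∈ R.w) (ht : Transcendental F (R.res y)) (P : C[X])
    (hP : aeval y P ≠ 0) : ∃ c : C, c ≠ 0 ∧ R.res (algebraMap C L c * aeval y P) ≠ 0 := by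
  have h1 : LinearIndependent (IntermediateField.adjoin F {R.res y})
      fun _ : Unit => R.res ((fun _ : Unit => (1 : L)) ()) := by
    rw [R.res_one]
    exact LinearIndependent.of_subsingleton () one_ne_zero
  refine (orth_pow (b := fun _ : Unit => (1 : L)) hy ht (fun _ => one_mem _) h1).exists_scale
    ?_ hP
  rw [aeval_eq_sum_range]
  refine Submodule.sum_mem _ fun j _ => Submodule.smul_mem _ _ (Submodule.subset_span ?_)
  exact ⟨(j, ()), mul_one _⟩

/-- the degree of the reduction is at most the degree -/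
theorem finrank_le {y : L} (hy : y ∈ R.w) (ht : Transcendental F (R.res y))
    (hf : FiniteDimensional (IntermediateField.adjoin C {y}) L) :
    FiniteDimensional (IntermediateField.adjoin F {R.res y}) Λ ∧
      Module.finrank (IntermediateField.adjoin F {R.res y}) Λ ≤
        Module.finrank (IntermediateField.adjoin C {y}) L := by
  have h1 : Module.rank (IntermediateField.adjoin F {R.res y}) Λ ≤
      (Module.finrank (IntermediateField.adjoin C {y}) L : ℕ) := by
    apply rank_le
    intro s hs
    choose b hb hbr using R.res_surj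
    have h2 : LinearIndependent (IntermediateField.adjoin F {R.res y})
        fun i : s => R.res ((fun x : s => b (x : Λ)) i) := by
      simp only [hbr]
      exact hs
    have h3 := indep hy ht (fun i : s => hb (i : Λ)) h2
    have h4 := h3.fintype_card_le_finrank
    rwa [Fintype.card_coe] at h4
  have h2 : FiniteDimensional (IntermediateField.adjoin F {R.res y}) Λ :=
    Module.rank_lt_aleph0_iff.1 (h1.trans_lt (Cardinal.natCast_lt_aleph0))
  refine ⟨h2, ?_⟩
  rw [← Module.finrank_eq_rank] at h1
  exact_mod_cast h1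

end Lin

end Pool.Agent.Lib.MP_c385f6_ag.TPG
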