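import Pool.Agent.Lib.MP_c385f6_ag.TPG.StA
import Pool.Agent.Lib.MP_c385f6_ag.TPG.Red

/-!
Project TPG, part C: good constant reductions over an algebraically closed valued field `C`.
-/

set_option autoImplicit false

open Polynomial

namespace Pool.Agent.Lib.MP_c385f6_ag.TPG

universe u v u' v' w w'

/-- C1. Orthonormal bases: every finite dimensional `C`-subspace of `L` has a basis of elements of
`w` with linearly independent residues. -/
def StON : Prop :=
  ∀ (C : Type u) (L : Type v) (F : Type u') (Λ : Type v') [Field C] [IsAlgClosed C] [Field L]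
    [Field F] [Field Λ] [Algebra C L] [Algebra F Λ] (R : Red C L F Λ) (g : ℕ), Good R g →
    (∀ V : Submodule C L, FiniteDimensional C V → ∃ (r : ℕ) (e : Fin r → L),
      (∀ i, e i ∈ R.w) ∧ LinearIndependent F (fun i => R.res (e i)) ∧
      Submodule.span C (Set.range e) = V) ∧
    IsAlgClosed F ∧ ∀ f : L, f ≠ 0 → ∃ c : C, c ≠ 0 ∧ R.res (algebraMap C L c * f) ≠ 0

/-- C2. The reductions of the elements of `L(D)` in `w` form `L(D')`, `deg D' = deg D`, if the degree
of `D` is large. -/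
def StBar : Prop :=
  ∀ (C : Type u) (L : Type v) (F : Type u') (Λ : Type v') [Field C] [IsAlgClosed C] [Field L]
    [Field F] [IsAlgClosed F] [Field Λ] [Algebra C L] [Algebra F Λ] (R : Red C L F Λ) (g : ℕ),
    Good R g →
    ∃ d : ℤ, ∀ D : Dv C L, d ≤ dg D → ∃ D' : Dv F Λ, dg D' = dg D ∧
      (∀ y : Λ, y ∈ RR D' ↔ ∃ f ∈ RR D, f ∈ R.w ∧ R.res f = y)

/-- C3. There is a unique specialisation map. -/
def StSp : Prop :=
  ∀ (C : Type u) (L : Type v) (F : Type u') (Λ : Type v') [Field C] [IsAlgClosed C] [Field L]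
    [Field F] [IsAlgClosed F] [Field Λ] [Algebra C L] [Algebra F Λ] (R : Red C L F Λ) (g : ℕ),
    Good R g → ∃! sp : Plc C L → Plc F Λ, IsSp R sp

/-- C4. The specialisation map commutes with automorphisms. -/
def StEqv : Prop :=
  ∀ (C : Type u) (L : Type v) (F : Type u') (Λ : Type v') [Field C] [IsAlgClosed C] [Field L]
    [Field F] [IsAlgClosed F] [Field Λ] [Algebra C L] [Algebra F Λ] (R : Red C L F Λ) (g : ℕ)
    (sp : Plc C L → Plc F Λ) (s : L ≃+* L) (s' : Λ ≃+* Λ), Good R g → IsSp R sp →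
    (∀ c : C, ∃ c' : C, s (algebraMap C L c) = algebraMap C L c') →
    (∀ c : C, ∃ c' : C, s.symm (algebraMap C L c) = algebraMap C L c') →
    (∀ f : L, R.res (s f) = s' (R.res f)) →
    ∀ P Q : Plc C L, Mv s P Q → Mv s' (sp P) (sp Q)

/-- C5. Facts on discs. -/
def StDsc : Prop :=
  ∀ (C : Type u) (L : Type v) (F : Type u') (Λ : Type v') [Field C] [IsAlgClosed C] [Field L]
    [Field F] [IsAlgClosed F] [Field Λ] [Algebra C L] [Algebra F Λ] (R : Red C L F Λ) (g : ℕ)
    (sp : Plc C L → Plc F Λ), Good R g → IsSp R sp →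
    Function.Surjective sp ∧
    (∀ (x : Plc F Λ) (f : L), f ∈ Rx R sp x → R.res f ∈ x.ring) ∧
    (∀ (x : Plc F Λ) (f : L), f ∈ Rx R sp x → R.res f ≠ 0 → ord x (R.res f) = 0 →
      f⁻¹ ∈ Rx R sp x) ∧
    (∀ (x : Plc F Λ) (f : L), R.res f ≠ 0 → (∀ P, sp P = x → ord P f = 0) →
      f ∈ Rx R sp x ∧ f⁻¹ ∈ Rx R sp x ∧ ord x (R.res f) = 0) ∧
    (∀ (x : Plc F Λ) (f : L) (P : Plc C L), f ∈ Rx R sp x → sp P = x →
      ∃ c : C, algebraMap C L c ∈ R.w ∧ P.ring.valuation (f - algebraMap C L c) < 1)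

/-- C6. Coordinates of discs: existence; the values of the coordinate. -/
def StCrd : Prop :=
  ∀ (C : Type u) (L : Type v) (F : Type u') (Λ : Type v') [Field C] [IsAlgClosed C] [Field L]
    [Field F] [IsAlgClosed F] [Field Λ] [Algebra C L] [Algebra F Λ] (R : Red C L F Λ) (g : ℕ)
    (sp : Plc C L → Plc F Λ), Good R g → IsSp R sp →
    (∀ P : Plc C L, ∃ u : L, IsCrd R sp (sp P) u ∧ ord P u = 1 ∧
      ∀ Q, sp Q = sp P → Q ≠ P → ord Q u = 0) ∧
    ∀ (x : Plc F Λ) (u : L), IsCrd R sp x u →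
      (∀ c : C, R.w.valuation (algebraMap C L c) < 1 → ∃ P : Plc C L, sp P = x ∧
        ord P (u - algebraMap C L c) = 1 ∧
        ∀ Q, sp Q = x → Q ≠ P → ord Q (u - algebraMap C L c) = 0) ∧
      ∀ P, sp P = x → ∃ c : C, R.w.valuation (algebraMap C L c) < 1 ∧
        ord P (u - algebraMap C L c) = 1

/-- C7. Local equations: distinguished polynomials in the coordinate. -/
def StLeq : Prop :=
  ∀ (C : Type u) (L : Type v) (F : Type u') (Λ : Type v') [Field C] [IsAlgClosed C] [Field L]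
    [Field F] [IsAlgClosed F] [Field Λ] [Algebra C L] [Algebra F Λ] (R : Red C L F Λ) (g : ℕ)
    (sp : Plc C L → Plc F Λ), Good R g → IsSp R sp →
    ∀ (x : Plc F Λ) (u : L) (D : Dv C L), IsCrd R sp x u → 0 ≤ D →
      ∃ f : C[X], Dist R (Finsupp.mapDomain sp D x).toNat f ∧
        (∀ P, sp P = x → ord P (aeval u f) = D P) ∧
        R.res (aeval u f) = R.res u ^ (Finsupp.mapDomain sp D x).toNat

/-- C8. Weierstrass division by distinguished polynomials, with norms. -/
def StDiv : Prop :=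
  ∀ (C : Type u) (L : Type v) (F : Type u') (Λ : Type v') [Field C] [IsAlgClosed C] [Field L]
    [Field F] [IsAlgClosed F] [Field Λ] [Algebra C L] [Algebra F Λ] (R : Red C L F Λ) (g : ℕ)
    (sp : Plc C L → Plc F Λ), Good R g → IsSp R sp →
    ∀ (x : Plc F Λ) (u : L) (N : ℕ) (a : C[X]), IsCrd R sp x u → Dist R N a →
      (∀ f ∈ Rx R sp x, ∃ (r : C[X]) (q : L), r.degree < N ∧
        (∀ i, algebraMap C L (r.coeff i) ∈ R.w) ∧ q ∈ Rx R sp x ∧
        f = aeval u r + aeval u a * q) ∧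
      ∀ (r : C[X]) (q : L) (c : C), r.degree < N → (∀ P, sp P = x → q ∈ P.ring) →
        R.w.valuation (aeval u r + aeval u a * q) ≤ R.w.valuation (algebraMap C L c) →
        (∀ i, R.w.valuation (algebraMap C L (r.coeff i)) ≤ R.w.valuation (algebraMap C L c)) ∧
        R.w.valuation q ≤ R.w.valuation (algebraMap C L c)

/-- C9 (I). Injectivity of the reduction on classes of `D_n`. -/
def StInj : Prop :=
  ∀ (C : Type u) (L : Type v) (F : Type u') (Λ : Type v') [Field C] [IsAlgClosed C] [Field L]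
    [Field F] [IsAlgClosed F] [Field Λ] [Algebra C L] [Algebra F Λ] (R : Red C L F Λ) (g : ℕ),
    Good R g → ∀ (n : ℕ) (f : L) (b : Λ), (n : F) ≠ 0 → f ∈ Dn C n → R.res f = b ^ n → b ≠ 0 →
      ∃ h : L, h ^ n = f

/-- C10 (S). Surjectivity of the reduction on classes of `D_n`. -/
def StSur : Prop :=
  ∀ (C : Type u) (L : Type v) (F : Type u') (Λ : Type v') [Field C] [IsAlgClosed C] [Field L]
    [Field F] [IsAlgClosed F] [Field Λ] [Algebra C L] [Algebra F Λ] (R : Red C L F Λ) (g : ℕ),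
    Good R g → Cof R → ∀ (n : ℕ) (y : Λ), (n : F) ≠ 0 → y ∈ Dn F n →
      ∃ (f : L) (b : Λ), f ∈ Dn C n ∧ b ≠ 0 ∧ R.res f = y * b ^ n

/-- C11. `D_n` reduces to `D_n`. -/
def StDnR : Prop :=
  ∀ (C : Type u) (L : Type v) (F : Type u') (Λ : Type v') [Field C] [IsAlgClosed C] [Field L]
    [Field F] [IsAlgClosed F] [Field Λ] [Algebra C L] [Algebra F Λ] (R : Red C L F Λ) (g : ℕ),
    Good R g → ∀ (n : ℕ) (f : L), f ∈ Dn C n → R.res f ≠ 0 → R.res f ∈ Dn F n

/-- C12 (Et). Unramified Kummer extensions of fields with good reduction have good reduction. -/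
def StEt : Prop :=
  ∀ (C : Type u) (L M : Type v) (F : Type u') (Λ μ : Type v') [Field C] [IsAlgClosed C] [Field L]
    [Field M] [Field F] [IsAlgClosed F] [Field Λ] [Field μ] [Algebra C L] [Algebra C M]
    [Algebra L M] [IsScalarTower C L M] [Algebra F Λ] [Algebra F μ] [Algebra Λ μ]
    [IsScalarTower F Λ μ] (R : Red C L F Λ) (R' : Red C M F μ) (g n : ℕ) (h : M) (f : L),
    Good R g → RExt R R' → (n : F) ≠ 0 → (n : C) ≠ 0 → h ^ n = algebraMap L M f → f ∈ Dn C n →
    IntermediateField.adjoin L {h} = ⊤ →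
    (∃ g' : ℕ, Good R' g') ∧ FiniteDimensional L M ∧ FiniteDimensional Λ μ ∧
      Module.finrank L M = Module.finrank Λ μ ∧
      ∃ (c : C) (y : Λ), c ≠ 0 ∧ R'.res (algebraMap C M c * h) ≠ 0 ∧
        y ∈ Dn F n ∧ R'.res (algebraMap C M c * h) ^ n = algebraMap Λ μ y ∧
        IntermediateField.adjoin Λ {R'.res (algebraMap C M c * h)} = ⊤

end Pool.Agent.Lib.MP_c385f6_ag.TPG
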