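import Mathlib
import Pool.Agent.Lib.MP_c385f6_ag.TPG.StC
import Pool.Agent.Lib.MP_c385f6_ag.TPG.CLin

/-!
Project TPG, C1: orthonormal bases.
-/

set_option autoImplicit false

open Polynomial

namespace Pool.Agent.Lib.MP_c385f6_ag.TPG

universe u v u' v'

namespace ONAux

open Lin

variable {C : Type u} {L : Type v} {F : Type u'} {Λ : Type v'} [Field C] [Field L] [Field F]
  [Field Λ] [Algebra C L] [Algebra F Λ] {R : Red C L F Λ}

theorem sub_removed {n : ℕ} (e : Fin (n + 1) → L) (c : Fin (n + 1) → C) (k : Fin (n + 1)) :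
    (∑ i, c i • e i) - c k • e k ∈ Submodule.span C (Set.range (e ∘ k.succAbove)) := by
  rw [Fin.sum_univ_succAbove _ k, add_sub_cancel_left]
  refine Submodule.sum_mem _ fun i _ => Submodule.smul_mem _ _ (Submodule.subset_span ⟨i, rfl⟩)

/-- subspaces of spaces with orthonormal bases -/
theorem sub_fin : ∀ (n : ℕ) (e : Fin n → L), Orth R e → ∀ V : Submodule C L,
    V ≤ Submodule.span C (Set.range e) →
    ∃ (r : ℕ) (g : Fin r → L), Orth R g ∧ Submodule.span C (Set.range g) = V := by
  intro n
  induction n with
  | zero =>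
    intro e he V hV
    have hV' : V = ⊥ := by
      rw [Set.range_eq_empty, Submodule.span_empty] at hV
      exact le_bot_iff.1 hV
    exact ⟨0, e, he, by rw [hV', Set.range_eq_empty, Submodule.span_empty]⟩
  | succ n ih =>
    intro e he V hV
    by_cases hV0 : V = ⊥
    · refine ⟨0, Fin.elim0, ⟨fun i => i.elim0, linearIndependent_empty_type⟩, ?_⟩
      rw [hV0, Set.range_eq_empty, Submodule.span_empty]
    obtain ⟨f, hf, hf0⟩ := Submodule.exists_mem_ne_zero_of_ne_bot hV0
    obtain ⟨c, hc⟩ := (Submodule.mem_span_range_iff_exists_fun C).1 (hV hf)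
    have hc0 : ∃ i ∈ (Finset.univ : Finset (Fin (n + 1))), c i ≠ 0 := by
      by_contra hcon
      push Not at hcon
      apply hf0
      rw [← hc]
      exact Finset.sum_eq_zero fun i _ => by rw [hcon i (Finset.mem_univ i), zero_smul]
    obtain ⟨k, -, hk0, hm, -⟩ := he.scale Finset.univ c hc0
    set a : Fin (n + 1) → C := fun i => (c k)⁻¹ * c i with ha
    have hak : a k = 1 := inv_mul_cancel₀ hk0
    set f' : L := (c k)⁻¹ • f with hf'
    have hfa : f' = ∑ i, a i • e i := by
      rw [hf', ← hc, Finset.smul_sum]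
      exact Finset.sum_congr rfl fun i _ => by rw [smul_smul]
    have hfV : f' ∈ V := Submodule.smul_mem _ _ hf
    have hfw : f' ∈ R.w := by
      rw [hfa]
      refine sum_mem fun i _ => ?_
      rw [Algebra.smul_def]
      exact mul_mem (hm i (Finset.mem_univ i)) (he.mem i)
    have hfe : f' - e k ∈ Submodule.span C (Set.range (e ∘ k.succAbove)) := by
      have := sub_removed e a k
      rwa [hak, one_smul, ← hfa] at this
    have he' : Orth R (e ∘ k.succAbove) := he.comp _ Fin.succAbove_right_injective
    set V' : Submodule C L := V ⊓ Submodule.span C (Set.range (e ∘ k.succAbove)) with hV'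
    obtain ⟨r, g, hg, hgV⟩ := ih (e ∘ k.succAbove) he' V' inf_le_right
    refine ⟨r + 1, Fin.cons f' g, ⟨?_, ?_⟩, ?_⟩
    · intro i
      refine Fin.cases ?_ (fun j => ?_) i
      · rw [Fin.cons_zero]; exact hfw
      · rw [Fin.cons_succ]; exact hg.mem j
    · have h1 : (fun i => R.res ((Fin.cons f' g : Fin (r + 1) → L) i)) =
          Fin.cons (R.res f') (fun j => R.res (g j)) := by
        funext i
        refine Fin.cases ?_ (fun j => ?_) i
        · rw [Fin.cons_zero, Fin.cons_zero]
        · rw [Fin.cons_succ, Fin.cons_succ]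
      rw [h1, linearIndependent_finCons]
      refine ⟨hg.ind, fun hcon => ?_⟩
      have h2 : Submodule.span F (Set.range fun j => R.res (g j)) ≤
          Submodule.span F (Set.range fun i => R.res ((e ∘ k.succAbove) i)) := by
        rw [Submodule.span_le]
        rintro _ ⟨j, rfl⟩
        refine he'.res_mem ?_ (hg.mem j)
        have h3 : g j ∈ V' := by
          rw [← hgV]
          exact Submodule.subset_span ⟨j, rfl⟩
        exact h3.2
      have h3 := h2 hcon
      have h4 := he'.res_mem hfe (sub_mem hfw (he.mem k))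
      rw [R.res_sub hfw (he.mem k)] at h4
      have h5 := Submodule.sub_mem _ h3 h4
      rw [sub_sub_cancel] at h5
      have h6 : (Set.range fun i => R.res ((e ∘ k.succAbove) i)) =
          (fun i => R.res (e i)) '' ({k}ᶜ : Set (Fin (n + 1))) := by
        rw [← Fin.range_succAbove, ← Set.range_comp]
        rfl
      rw [h6] at h5
      exact he.ind.notMem_span_image (s := ({k}ᶜ : Set (Fin (n + 1)))) (x := k)
        (fun h => h rfl) h5
    · rw [Fin.range_cons, Submodule.span_insert, hgV]
      apply le_antisymm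
      · rw [sup_le_iff, Submodule.span_singleton_le_iff_mem]
        exact ⟨hfV, inf_le_left⟩
      · intro h hh
        obtain ⟨d, hd⟩ := (Submodule.mem_span_range_iff_exists_fun C).1 (hV hh)
        have h1 : h - d k • f' ∈ V' := by
          refine ⟨Submodule.sub_mem _ hh (Submodule.smul_mem _ _ hfV), ?_⟩
          have h2 := sub_removed e d k
          rw [hd] at h2
          have h3 := Submodule.sub_mem _ h2 (Submodule.smul_mem _ (d k) hfe)
          have h4 : h - d k • e k - d k • (f' - e k) = h - d k • f' := by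
            rw [smul_sub]; abel
          rwa [h4] at h3
        have h2 : h = d k • f' + (h - d k • f') := by abel
        rw [h2]
        exact Submodule.add_mem_sup (Submodule.smul_mem _ _ (Submodule.mem_span_singleton_self _))
          h1

theorem sub_any {ι : Type*} (e : ι → L) (he : Orth R e) (V : Submodule C L) (hfg : V.FG)
    (hV : V ≤ Submodule.span C (Set.range e)) :
    ∃ (r : ℕ) (g : Fin r → L), Orth R g ∧ Submodule.span C (Set.range g) = V := by
  classical
  obtain ⟨S, hS⟩ := hfg
  have h1 : ∀ x ∈ S, ∃ c : ι →₀ C, (c.sum fun i a => a • e i) = x := by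
    intro x hx
    apply Finsupp.mem_span_range_iff_exists_finsupp.1
    apply hV
    rw [← hS]
    exact Submodule.subset_span hx
  choose! c hc using h1
  set U : Finset ι := S.biUnion fun x => (c x).support with hU
  have h2 : V ≤ Submodule.span C (Set.range fun i : U => e i) := by
    rw [← hS, Submodule.span_le]
    intro x hx
    rw [SetLike.mem_coe, ← hc x hx]
    refine Submodule.sum_mem _ fun i hi => Submodule.smul_mem _ _ (Submodule.subset_span ?_)
    exact ⟨⟨i, Finset.mem_biUnion.2 ⟨x, hx, hi⟩⟩, rfl⟩
  have h3 : Orth R (e ∘ fun i : U => (i : ι)) := he.comp _ Subtype.val_injective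
  refine sub_fin U.card ((e ∘ fun i : U => (i : ι)) ∘ U.equivFin.symm)
    (h3.comp _ U.equivFin.symm.injective) V ?_
  rw [U.equivFin.symm.surjective.range_comp]
  exact h2

/-- Every finite dimensional subspace has an orthonormal basis. -/
theorem main {g : ℕ} (hG : Good R g) (V : Submodule C L) (hfg : V.FG) :
    ∃ (r : ℕ) (g : Fin r → L), Orth R g ∧ Submodule.span C (Set.range g) = V := by
  classical
  obtain ⟨t, ht, htr, hfC, hfF, hdeg⟩ := hG.deg
  choose b hb hbr using R.res_surj
  set β := Module.finBasis (IntermediateField.adjoin F {R.res t}) Λ with hβ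
  have hi : LinearIndependent (IntermediateField.adjoin F {R.res t})
      fun i => R.res (b (β i)) := by
    simp only [hbr]
    exact β.linearIndependent
  have hO := orth_pow ht htr (fun i => hb (β i)) hi
  have hind := indep ht htr (fun i => hb (β i)) hi
  set e : ℕ × Fin (Module.finrank (IntermediateField.adjoin F {R.res t}) Λ) → L :=
    fun x => t ^ x.1 * b (β x.2) with he
  have hspan : Submodule.span (IntermediateField.adjoin C {t})
      (Set.range fun i => b (β i)) = ⊤ := by
    apply hind.span_eq_top_of_card_eq_finrank'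
    rw [Fintype.card_fin, hdeg]
  set W : Submodule C L := Submodule.span C (Set.range e) with hW
  have hmul : ∀ (P : C[X]), ∀ x ∈ W, aeval t P * x ∈ W := by
    intro P x hx
    induction hx using Submodule.span_induction with
    | mem x hx =>
      obtain ⟨⟨j, i⟩, rfl⟩ := hx
      rw [aeval_eq_sum_range, Finset.sum_mul]
      refine Submodule.sum_mem _ fun l _ => ?_
      rw [smul_mul_assoc]
      refine Submodule.smul_mem _ _ (Submodule.subset_span ⟨(l + j, i), ?_⟩)
      rw [he]
      change t ^ (l + j) * b (β i) = t ^ l * (t ^ j * b (β i))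
      rw [pow_add, mul_assoc]
    | zero => rw [mul_zero]; exact W.zero_mem
    | add x y _ _ hx hy => rw [mul_add]; exact W.add_mem hx hy
    | smul c x _ hx => rw [mul_smul_comm]; exact W.smul_mem c hx
  have hone : ∀ f : L, ∃ P : C[X], aeval t P ≠ 0 ∧ aeval t P * f ∈ W := by
    intro f
    have hf : f ∈ Submodule.span (IntermediateField.adjoin C {t})
        (Set.range fun i => b (β i)) := by
      rw [hspan]; trivial
    obtain ⟨q, hq⟩ := (Submodule.mem_span_range_iff_exists_fun _).1 hf
    obtain ⟨P, hP, hPs⟩ := exists_den t Finset.univ q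
    refine ⟨P, hP, ?_⟩
    rw [← hq, Finset.mul_sum]
    refine Submodule.sum_mem _ fun i _ => ?_
    obtain ⟨p, hp⟩ := hPs i (Finset.mem_univ i)
    have h1 : aeval t P * (q i • b (β i)) = aeval t p * b (β i) := by
      rw [← hp, mul_assoc]
      rfl
    rw [h1]
    apply hmul
    refine Submodule.subset_span ⟨(0, i), ?_⟩
    rw [he]
    change t ^ 0 * b (β i) = b (β i)
    rw [pow_zero, one_mul]
  have hmany : ∀ S : Finset L, ∃ P : C[X], aeval t P ≠ 0 ∧ ∀ f ∈ S, aeval t P * f ∈ W := by
    intro S
    induction S using Finset.induction_on with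
    | empty => exact ⟨1, by simp, by simp⟩
    | insert a s ha ih =>
      obtain ⟨P, hP, hPs⟩ := ih
      obtain ⟨Q, hQ, hQa⟩ := hone a
      refine ⟨P * Q, by rw [map_mul]; exact mul_ne_zero hP hQ, fun f hf => ?_⟩
      rw [map_mul]
      rcases Finset.mem_insert.1 hf with rfl | hf
      · rw [mul_assoc]
        exact hmul P _ hQa
      · rw [mul_comm (aeval t P), mul_assoc]
        exact hmul Q _ (hPs f hf)
  obtain ⟨S, hS⟩ := hfg
  obtain ⟨P, hP, hPs⟩ := hmany S
  obtain ⟨c, hc, hr⟩ := poly_scale ht htr P hP
  set q : L := algebraMap C L c * aeval t P with hq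
  have hq0 : q ≠ 0 := by
    rintro h0
    rw [h0, R.res_zero] at hr
    exact hr rfl
  have hqi : R.res q⁻¹ ≠ 0 := by
    rw [R.res_inv hr]
    exact inv_ne_zero hr
  refine sub_any (fun x => e x * q⁻¹) (hO.mul hqi) V ⟨S, hS⟩ ?_
  rw [← hS, Submodule.span_le]
  intro f hf
  have h1 : f * q ∈ W := by
    have h2 := W.smul_mem c (hPs f hf)
    have h3 : f * q = c • (aeval t P * f) := by
      rw [hq, Algebra.smul_def]; ring
    rwa [h3]
  have h2 : f = (LinearMap.mulRight C q⁻¹) (f * q) := by
    rw [LinearMap.mulRight_apply, mul_assoc, mul_inv_cancel₀ hq0, mul_one]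
  have h3 : f ∈ W.map (LinearMap.mulRight C q⁻¹) := ⟨f * q, h1, h2.symm⟩
  rw [hW, Submodule.map_span, ← Set.range_comp] at h3
  exact h3

/-- The residue field of an algebraically closed valued field is algebraically closed. -/
theorem algClosed [IsAlgClosed C] (R : Red C L F Λ) : IsAlgClosed F := by
  refine IsAlgClosed.of_exists_root F fun p hp hirr => ?_
  obtain ⟨q, hq, hdeg, hmon⟩ := Polynomial.lifts_and_natDegree_eq_and_monic
    ((Polynomial.mem_lifts p).2 (Polynomial.map_surjective (rh R) (rh_surj R) p)) hp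
  have h0 : q.natDegree ≠ 0 := by
    rw [hdeg]
    exact hirr.natDegree_pos.ne'
  have h1 : (q.map (algebraMap (Oc R) C)).degree ≠ 0 := by
    intro h
    rw [hmon.degree_map, degree_eq_natDegree hmon.ne_zero] at h
    exact h0 (by exact_mod_cast h)
  obtain ⟨x, hx⟩ := IsAlgClosed.exists_root _ h1
  have hint : IsIntegral (Oc R) x := ⟨q, hmon, by rwa [IsRoot.def, eval_map] at hx⟩
  obtain ⟨y, rfl⟩ := IsIntegrallyClosed.isIntegral_iff.1 hint
  refine ⟨rh R y, ?_⟩
  have h2 : q.eval y = 0 := by
    rw [IsRoot.def, eval_map, eval₂_at_apply] at hx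
    exact (IsFractionRing.injective (Oc R) C) (by rw [hx, map_zero])
  rw [← hq, eval_map, eval₂_at_apply, h2, map_zero]

end ONAux

open ONAux Lin

theorem stON : StON.{u, v, u', v'} := by
  intro C L F Λ _ _ _ _ _ _ _ R g hG
  refine ⟨fun V hV => ?_, algClosed R, fun f hf => ?_⟩
  · obtain ⟨r, e, he, hs⟩ := main hG V ((Submodule.fg_iff_finiteDimensional V).2 hV)
    exact ⟨r, e, he.mem, he.ind, hs⟩
  · obtain ⟨r, e, he, hs⟩ := main hG (Submodule.span C {f})
      ((Submodule.fg_iff_finiteDimensional _).2 inferInstance)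
    have h1 : f ∈ Submodule.span C (Set.range e) := by
      rw [hs]
      exact Submodule.mem_span_singleton_self f
    exact he.exists_scale h1 hf

end Pool.Agent.Lib.MP_c385f6_ag.TPG
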