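import Pool.Agent.Lib.MP_c385f6_ag.TPG.StC

/-!
Project TPG, C3: existence and uniqueness of the specialisation map of places.
-/

set_option autoImplicit false

namespace Pool.Agent.Lib.MP_c385f6_ag.TPG

universe u v u' v'

namespace CSp

section dg

variable {F : Type u} {W : Type v} [Field F] [Field W] [Algebra F W]

theorem dg_add (D E : Dv F W) : dg (D + E) = dg D + dg E :=
  Finsupp.sum_add_index' (fun _ => rfl) (fun _ _ _ => rfl)

theorem dg_single (P : Plc F W) (n : ℤ) : dg (Finsupp.single P n : Dv F W) = n :=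
  Finsupp.sum_single_index rfl

theorem dg_sub (D E : Dv F W) : dg (D - E) = dg D - dg E := by
  have h := dg_add (D - E) E
  rw [sub_add_cancel] at h
  linarith

theorem le_dg {D : Dv F W} (h : 0 ≤ D) (P : Plc F W) : D P ≤ dg D := by
  by_cases hP : P ∈ D.support
  · exact Finset.single_le_sum (f := fun P => D P) (fun Q _ => h Q) hP
  · rw [Finsupp.notMem_support_iff.1 hP]
    exact Finset.sum_nonneg fun Q _ => h Q

theorem eq_of_le {D E : Dv F W} (h : D ≤ E) (h' : dg D = dg E) : D = E := by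
  have h0 : 0 ≤ E - D := by
    intro P
    have := h P
    rw [Finsupp.sub_apply, Finsupp.zero_apply]
    linarith
  ext P
  have h1 := le_dg h0 P
  rw [dg_sub, Finsupp.sub_apply] at h1
  have h2 := h P
  linarith

theorem eq_single {D : Dv F W} (h : 0 ≤ D) (h' : dg D = 1) :
    ∃ P, D = Finsupp.single P 1 := by
  classical
  have h1 : ∃ P, D P ≠ 0 := by
    by_contra hcon
    push Not at hcon
    have h2 : D = 0 := by
      ext P
      rw [hcon P, Finsupp.zero_apply]
    rw [h2] at h'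
    have h3 : dg (0 : Dv F W) = 0 := Finsupp.sum_zero_index
    omega
  obtain ⟨P, hP⟩ := h1
  refine ⟨P, (eq_of_le ?_ ?_).symm⟩
  · intro Q
    by_cases hQ : P = Q
    · subst hQ
      rw [Finsupp.single_eq_same]
      have h2 : (0 : ℤ) ≤ D P := h P
      omega
    · rw [Finsupp.single_eq_of_ne' hQ]
      exact h Q
  · rw [dg_single, h']

end dg

section key

variable {F : Type u} {W : Type v} [Field F] [Field W] [Algebra F W]

/-- a function with the largest possible pole -/
theorem exists_exact (hR : RRF F W) {g : ℕ} {d : ℤ}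
    (hd : ∀ D : Dv F W, d ≤ dg D → ell D = dg D + 1 - g) (E : Dv F W) (hE : d + 1 ≤ dg E)
    (x : Plc F W) : ∃ y ∈ RR E, y ≠ 0 ∧ ord x y = - E x := by
  classical
  have h1 := hd E (by omega)
  have h2 := hd (E - Finsupp.single x 1) (by rw [dg_sub, dg_single]; omega)
  rw [dg_sub, dg_single] at h2
  by_contra hcon
  push Not at hcon
  have hle : RR E ≤ RR (E - Finsupp.single x 1) := by
    intro y hy
    have hy' := (hR.mem E y).1 hy
    rw [hR.mem]
    intro hy0 P
    have h3 := hy' hy0 P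
    by_cases hP : x = P
    · subst hP
      have h4 := hcon y hy hy0
      rw [Finsupp.sub_apply, Finsupp.single_eq_same]
      omega
    · rw [Finsupp.sub_apply, Finsupp.single_eq_of_ne' hP, sub_zero]
      exact h3
  have h5 : ell E ≤ ell (E - Finsupp.single x 1) := by
    have := hR.fin (E - Finsupp.single x 1)
    unfold ell
    exact_mod_cast Submodule.finrank_mono hle
  omega

theorem le_of_RR (hR : RRF F W) {g : ℕ} {d : ℤ}
    (hd : ∀ D : Dv F W, d ≤ dg D → ell D = dg D + 1 - g) {E E' : Dv F W} (hE : d + 1 ≤ dg E)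
    (h : RR E ≤ RR E') : E ≤ E' := by
  intro x
  obtain ⟨y, hy, hy0, hy1⟩ := exists_exact hR hd E hE x
  have h1 := (hR.mem E' y).1 (h hy) hy0 x
  linarith

theorem RR_mono (hR : RRF F W) {D E : Dv F W} (h : D ≤ E) : RR D ≤ RR E := by
  intro f hf
  rw [hR.mem] at hf ⊢
  intro h0 P
  have h1 := hf h0 P
  have h2 := h P
  linarith

end key

section main

variable {C : Type u} {L : Type v} {F : Type u'} {Λ : Type v'} [Field C] [Field L]
    [Field F] [Field Λ] [Algebra C L] [Algebra F Λ]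

/-- `D'` is the reduction of `D` -/
def IsB (R : Red C L F Λ) (D : Dv C L) (D' : Dv F Λ) : Prop :=
  dg D' = dg D ∧ ∀ y : Λ, y ∈ RR D' ↔ ∃ f ∈ RR D, f ∈ R.w ∧ R.res f = y

variable {R : Red C L F Λ} {g : ℕ} {d : ℤ} (hO : OrdF C L) (hO' : OrdF F Λ) (hR : RRF C L)
  (hR' : RRF F Λ) (hd : ∀ D : Dv F Λ, d ≤ dg D → ell D = dg D + 1 - g)

include hO hO' hR hR' hd

theorem IsB.add {D E : Dv C L} {D' E' G' : Dv F Λ} (h1 : IsB R D D') (h2 : IsB R E E')
    (h3 : IsB R (D + E) G') (hD : d + 1 ≤ dg D) (hE : d + 1 ≤ dg E) : G' = D' + E' := by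
  symm
  refine eq_of_le (fun x => ?_) ?_
  · obtain ⟨y, hy, hy0, hy1⟩ := exists_exact hR' hd D' (by rw [h1.1]; exact hD) x
    obtain ⟨z, hz, hz0, hz1⟩ := exists_exact hR' hd E' (by rw [h2.1]; exact hE) x
    obtain ⟨a, ha, haw, har⟩ := (h1.2 y).1 hy
    obtain ⟨b, hb, hbw, hbr⟩ := (h2.2 z).1 hz
    have hab : a * b ∈ RR (D + E) := by
      rw [hR.mem]
      intro h0 P
      have ha0 : a ≠ 0 := left_ne_zero_of_mul h0
      have hb0 : b ≠ 0 := right_ne_zero_of_mul h0
      rw [hO.mul P a b ha0 hb0, Finsupp.add_apply]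
      have h4 := (hR.mem D a).1 ha ha0 P
      have h5 := (hR.mem E b).1 hb hb0 P
      linarith
    have h6 : y * z ∈ RR G' := (h3.2 _).2 ⟨a * b, hab, mul_mem haw hbw, by
      rw [R.res_mul a haw b hbw, har, hbr]⟩
    have h7 := (hR'.mem G' _).1 h6 (mul_ne_zero hy0 hz0) x
    rw [hO'.mul x y z hy0 hz0, hy1, hz1] at h7
    rw [Finsupp.add_apply]
    linarith
  · rw [dg_add, h1.1, h2.1, h3.1, dg_add]

omit hO hO' in
theorem IsB.mono {D E : Dv C L} {D' E' : Dv F Λ} (h1 : IsB R D D') (h2 : IsB R E E')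
    (hD : d + 1 ≤ dg D) (h : D ≤ E) : D' ≤ E' := by
  refine le_of_RR hR' hd (by rw [h1.1]; exact hD) fun y hy => ?_
  obtain ⟨a, ha, haw, har⟩ := (h1.2 y).1 hy
  exact (h2.2 y).2 ⟨a, RR_mono hR h ha, haw, har⟩

theorem IsB.dvs {D : Dv C L} {D' E' : Dv F Λ} {f : L} (hf : R.res f ≠ 0) (h1 : IsB R D D')
    (h2 : IsB R (D - dv f) E') (hD : d + 1 ≤ dg D) : E' = D' - dv (R.res f) := by
  have hf0 : f ≠ 0 := by
    rintro rfl
    exact hf R.res_zero
  have hfw : f ∈ R.w := Red.mem_of_res_ne hf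
  have hdeg : dg (D' - dv (R.res f)) = dg D := by
    rw [dg_sub, hR'.dg_dv _ hf, sub_zero, h1.1]
  symm
  refine eq_of_le (le_of_RR hR' hd (by rw [hdeg]; exact hD) fun y' hy' => ?_) ?_
  · by_cases hy0 : y' = 0
    · rw [hy0]
      exact zero_mem _
    have h3 : y' * (R.res f)⁻¹ ≠ 0 := mul_ne_zero hy0 (inv_ne_zero hf)
    have h4 : y' = (R.res f) * (y' * (R.res f)⁻¹) := by
      field_simp
    have h5 : y' * (R.res f)⁻¹ ∈ RR D' := by
      rw [hR'.mem]
      intro _ x
      have h6 := (hR'.mem _ _).1 hy' hy0 x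
      rw [Finsupp.sub_apply, hR'.dv_apply _ _ hf] at h6
      have h7 := hO'.mul x (R.res f) (y' * (R.res f)⁻¹) hf h3
      rw [← h4] at h7
      linarith
    obtain ⟨a, ha, haw, har⟩ := (h1.2 _).1 h5
    refine (h2.2 y').2 ⟨f * a, ?_, mul_mem hfw haw, ?_⟩
    · rw [hR.mem]
      intro h0 P
      have ha0 : a ≠ 0 := right_ne_zero_of_mul h0
      rw [hO.mul P f a hf0 ha0, Finsupp.sub_apply, hR.dv_apply _ _ hf0]
      have h8 := (hR.mem D a).1 ha ha0 P
      linarith
    · rw [R.res_mul f hfw a haw, har]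
      exact h4.symm
  · rw [hdeg, h2.1, dg_sub, hR.dg_dv _ hf0, sub_zero]

theorem main {d₀ : ℤ} (hd₀ : ∀ D : Dv C L, d₀ ≤ dg D → ∃ D' : Dv F Λ, IsB R D D') :
    ∃! sp : Plc C L → Plc F Λ, IsSp R sp := by
  classical
  have hbar : ∃ bar : Dv C L → Dv F Λ, ∀ D, d₀ ≤ dg D → IsB R D (bar D) := by
    refine ⟨fun D => if h : d₀ ≤ dg D then (hd₀ D h).choose else 0, fun D h => ?_⟩
    beta_reduce
    rw [dif_pos h]
    exact (hd₀ D h).choose_spec
  obtain ⟨bar, hbar⟩ := hbar
  obtain ⟨N, hN0, hN1, hN2⟩ : ∃ N : ℤ, 0 < N ∧ d₀ ≤ N ∧ d + 1 ≤ N :=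
    ⟨max 1 (max d₀ (d + 1)), by omega, by omega, by omega⟩
  have hB : ∀ D, N ≤ dg D → IsB R D (bar D) := fun D h => hbar D (by omega)
  have hadd : ∀ A B, N ≤ dg A → N ≤ dg B → bar (A + B) = bar A + bar B := fun A B hA hB' =>
    IsB.add hO hO' hR hR' hd (hB A hA) (hB B hB') (hB (A + B) (by rw [dg_add]; omega))
      (by omega) (by omega)
  obtain ⟨P₀⟩ : Nonempty (Plc C L) := by
    have := hR.ne
    infer_instance
  -- the extension to all divisors
  let K : ℤ → Dv C L := fun n => Finsupp.single P₀ n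
  have hK : ∀ n, dg (K n) = n := fun n => dg_single P₀ n
  let β : Dv C L → Dv F Λ := fun D => bar (D + K (N + |dg D|)) - bar (K (N + |dg D|))
  have hβ : ∀ D E, N ≤ dg E → N ≤ dg (D + E) → β D = bar (D + E) - bar E := by
    intro D E h1 h2
    have h3 : N ≤ dg (K (N + |dg D|)) := by
      rw [hK]
      have := abs_nonneg (dg D)
      omega
    have h4 : N ≤ dg (D + K (N + |dg D|)) := by
      rw [dg_add, hK]
      have := neg_abs_le (dg D)
      omega
    have h5 := hadd _ _ h4 h1
    have h6 := hadd _ _ h2 h3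
    have h7 : D + K (N + |dg D|) + E = D + E + K (N + |dg D|) := by abel
    rw [h7, h6] at h5
    change bar (D + K (N + |dg D|)) - bar (K (N + |dg D|)) = _
    rw [sub_eq_sub_iff_add_eq_add, ← h5]
  have hβadd : ∀ D E, β (D + E) = β D + β E := by
    intro D E
    let k : ℤ := N + |dg D| + |dg E|
    have a1 := abs_nonneg (dg D)
    have a2 := abs_nonneg (dg E)
    have a3 := neg_abs_le (dg D)
    have a4 := neg_abs_le (dg E)
    have h1 : N ≤ dg (K k) := by rw [hK]; omega
    have h2 : N ≤ dg (D + K k) := by rw [dg_add, hK]; omega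
    have h3 : N ≤ dg (E + K k) := by rw [dg_add, hK]; omega
    have h4 : D + E + (K k + K k) = (D + K k) + (E + K k) := by abel
    rw [hβ (D + E) (K k + K k) (by rw [dg_add]; omega) (by rw [h4, dg_add]; omega), h4,
      hadd _ _ h2 h3, hadd _ _ h1 h1, hβ D (K k) h1 h2, hβ E (K k) h1 h3]
    abel
  have hβdg : ∀ D, dg (β D) = dg D := by
    intro D
    have a1 := abs_nonneg (dg D)
    have a3 := neg_abs_le (dg D)
    change dg (bar (D + K (N + |dg D|)) - bar (K (N + |dg D|))) = _
    rw [dg_sub, (hB _ (by rw [dg_add, hK]; omega)).1, (hB _ (by rw [hK]; omega)).1, dg_add]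
    ring
  have hβbar : ∀ D, N ≤ dg D → β D = bar D := by
    intro D h
    have h1 : N ≤ dg (K N) := (hK N).ge
    rw [hβ D (K N) h1 (by rw [dg_add]; omega), hadd _ _ h h1, add_sub_cancel_right]
  have hβ0 : ∀ D, 0 ≤ D → 0 ≤ β D := by
    intro D h
    have h1 : N ≤ dg (K N) := (hK N).ge
    have h0 : 0 ≤ dg D := Finset.sum_nonneg fun P _ => h P
    have h2 : N ≤ dg (D + K N) := by rw [dg_add]; omega
    have h3 : bar (K N) ≤ bar (D + K N) :=
      IsB.mono hR hR' hd (hB _ h1) (hB _ h2) (by omega) (fun P => by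
        have h4 : (0 : ℤ) ≤ D P := h P
        rw [Finsupp.add_apply]
        omega)
    rw [hβ D (K N) h1 h2]
    intro P
    have h5 := h3 P
    rw [Finsupp.sub_apply, Finsupp.zero_apply]
    omega
  have hsp : ∀ P : Plc C L, ∃ x : Plc F Λ, β (Finsupp.single P 1) = Finsupp.single x 1 := by
    intro P
    refine eq_single (hβ0 _ ?_) ?_
    · intro Q
      by_cases hQ : P = Q
      · subst hQ
        rw [Finsupp.single_eq_same]
        exact zero_le_one
      · rw [Finsupp.single_eq_of_ne' hQ]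
        exact le_rfl
    · rw [hβdg, dg_single]
  choose sp hsp using hsp
  have hmap : ∀ D, β D = Finsupp.mapDomain sp D := by
    let β' : Dv C L →+ Dv F Λ := AddMonoidHom.mk' β hβadd
    have h1 : β' = Finsupp.mapDomain.addMonoidHom sp := by
      refine Finsupp.addHom_ext fun P n => ?_
      have h2 : (Finsupp.single P n : Dv C L) = n • Finsupp.single P 1 := by
        rw [Finsupp.smul_single, smul_eq_mul, mul_one]
      rw [h2, map_zsmul, map_zsmul]
      congr 1
      change β (Finsupp.single P 1) = Finsupp.mapDomain sp (Finsupp.single P 1)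
      rw [hsp P, Finsupp.mapDomain_single]
    intro D
    exact DFunLike.congr_fun h1 D
  refine ⟨sp, ?_, ?_⟩
  · intro f hf
    have hf0 : f ≠ 0 := by
      rintro rfl
      exact hf R.res_zero
    have h1 : N ≤ dg (K N) := (hK N).ge
    have h2 : N ≤ dg (K N - dv f) := by
      rw [dg_sub, hR.dg_dv f hf0, hK, sub_zero]
    have h3 := IsB.dvs hO hO' hR hR' hd hf (hB _ h1) (hB _ h2) (by omega)
    have h4 : β (dv f + (K N - dv f)) = β (dv f) + β (K N - dv f) := hβadd _ _
    rw [add_sub_cancel, hβbar _ h1, hβbar _ h2, h3] at h4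
    have h5 : β (dv f) = dv (R.res f) := by
      have h6 := congrArg (fun D => D - bar (K N) + dv (R.res f)) h4
      simp only [sub_self, zero_add] at h6
      rw [h6]
      abel
    rw [← hmap, h5]
  · intro sp' hsp'
    funext P
    by_contra hne
    have h1 : N ≤ dg (Finsupp.single P N : Dv C L) := (dg_single P N).ge
    have h2 : bar (Finsupp.single P N) = Finsupp.single (sp P) N := by
      rw [← hβbar _ h1, hmap, Finsupp.mapDomain_single]
    have h3 : (Finsupp.single (sp P) N : Dv F Λ) ≤ Finsupp.single (sp' P) N := by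
      refine le_of_RR hR' hd (by rw [dg_single]; omega) fun y hy => ?_
      rw [← h2] at hy
      obtain ⟨f, hf, -, hfy⟩ := ((hB _ h1).2 y).1 hy
      rw [hR'.mem]
      intro hy0 x
      have hfr : R.res f ≠ 0 := by rw [hfy]; exact hy0
      have hf0 : f ≠ 0 := by
        rintro rfl
        exact hfr R.res_zero
      have h4 := hsp' f hfr
      have h5 : 0 ≤ dv f + (Finsupp.single P N : Dv C L) := by
        intro Q
        have h6 := (hR.mem _ f).1 hf hf0 Q
        rw [Finsupp.add_apply, hR.dv_apply f Q hf0, Finsupp.zero_apply]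
        linarith
      have h7 : 0 ≤ (Finsupp.mapDomain sp' (dv f + (Finsupp.single P N : Dv C L)) : Dv F Λ) := by
        intro z
        rw [Finsupp.mapDomain, Finsupp.sum, Finsupp.finsetSum_apply]
        refine Finset.sum_nonneg fun Q _ => ?_
        have h8 : (0 : ℤ) ≤ (dv f + Finsupp.single P N : Dv C L) Q := h5 Q
        by_cases hz : sp' Q = z
        · rw [hz, Finsupp.single_eq_same]
          exact h8
        · rw [Finsupp.single_eq_of_ne' hz]
      rw [Finsupp.mapDomain_add, h4, Finsupp.mapDomain_single, hfy] at h7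
      have h9 := h7 x
      rw [Finsupp.add_apply, hR'.dv_apply y x hy0, Finsupp.zero_apply] at h9
      linarith
    have h10 := h3 (sp P)
    rw [Finsupp.single_eq_same, Finsupp.single_eq_of_ne' hne] at h10
    omega

end main

end CSp

/-- C3. There is a unique specialisation map. -/
theorem stSp (hBar : StBar.{u, v, u', v'}) (hO : StOrd.{u, v}) (hO' : StOrd.{u', v'})
    (hR : StRRF.{u, v}) (hR' : StRRF.{u', v'}) : StSp.{u, v, u', v'} := by
  intro C L F Λ _ _ _ _ _ _ _ _ R g hG
  obtain ⟨d, hd⟩ := hG.genF.2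
  obtain ⟨d₀, hd₀⟩ := hBar C L F Λ R g hG
  exact CSp.main (hO C L hG.ffC) (hO' F Λ hG.ffF) (hR C L hG.ffC) (hR' F Λ hG.ffF) hd
    (fun D h => by
      obtain ⟨D', h1, h2⟩ := hd₀ D h
      exact ⟨D', h1, h2⟩)

end Pool.Agent.Lib.MP_c385f6_ag.TPG
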