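import Pool.Agent.Lib.MP_c385f6_ag.TPG.StD

/-!
Project TPG, part D: the order is invariant under isomorphisms.
-/

set_option autoImplicit false

namespace Pool.Agent.Lib.MP_c385f6_ag.TPG

universe u v u' v'

namespace OIvAux

section Val

variable {W W' : Type*} [Field W] [Field W'] (A : ValuationSubring W) (B : ValuationSubring W')
  (s : W ≃+* W') (h : ∀ z, z ∈ A ↔ s z ∈ B)

include h

theorem val_le_iff (x y : W) :
    A.valuation x ≤ A.valuation y ↔ B.valuation (s x) ≤ B.valuation (s y) := by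
  rcases eq_or_ne y 0 with rfl | hy
  · rw [map_zero, map_zero, map_zero, le_zero_iff, le_zero_iff, map_eq_zero, map_eq_zero,
      EmbeddingLike.map_eq_zero_iff]
  · have hy' : s y ≠ 0 := fun h0 => hy ((EmbeddingLike.map_eq_zero_iff (f := s)).1 h0)
    have h1 : A.valuation x ≤ A.valuation y ↔ x / y ∈ A := by
      rw [← A.valuation_le_one_iff, map_div₀, div_le_one₀ ((Valuation.pos_iff _).2 hy)]
    have h2 : B.valuation (s x) ≤ B.valuation (s y) ↔ s x / s y ∈ B := by
      rw [← B.valuation_le_one_iff, map_div₀, div_le_one₀ ((Valuation.pos_iff _).2 hy')]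
    rw [h1, h2, h, map_div₀]

theorem val_lt_one_iff (x : W) : A.valuation x < 1 ↔ B.valuation (s x) < 1 := by
  have h1 := val_le_iff A B s h 1 x
  rw [map_one, map_one, map_one] at h1
  rw [← not_le, ← not_le, h1]

theorem val_eq_iff (x y : W) :
    A.valuation x = A.valuation y ↔ B.valuation (s x) = B.valuation (s y) := by
  rw [le_antisymm_iff, le_antisymm_iff, val_le_iff A B s h, val_le_iff A B s h]

end Val

open Classical in
/-- auxiliary function -/
noncomputable def pick (p : ℤ → Prop) : ℤ := if h : ∃ n : ℤ, p n then h.choose else 0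

/-- the property defining the order -/
def isOrd {F W : Type*} [Field F] [Field W] [Algebra F W] (P : Plc F W) (x : W) (n : ℤ) : Prop :=
  ∃ u : W, u ≠ 0 ∧ P.ring.valuation u < 1 ∧
      (∀ y : W, P.ring.valuation y < 1 → P.ring.valuation y ≤ P.ring.valuation u) ∧
      P.ring.valuation x = P.ring.valuation u ^ n

theorem ord_eq_pick {F W : Type*} [Field F] [Field W] [Algebra F W] (P : Plc F W) (x : W) :
    ord P x = pick (isOrd P x) := rfl

theorem ord_mv {F W F' W' : Type*} [Field F] [Field W] [Field F'] [Field W'] [Algebra F W]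
    [Algebra F' W'] (s : W ≃+* W') {P : Plc F W} {Q : Plc F' W'} (h : Mv s P Q) (x : W) :
    ord Q (s x) = ord P x := by
  have h1 : isOrd Q (s x) = isOrd P x := by
    funext n
    apply propext
    constructor
    · rintro ⟨u, hu0, hu1, hu2, hu3⟩
      obtain ⟨u, rfl⟩ := s.surjective u
      refine ⟨u, fun h0 => hu0 (by rw [h0, map_zero]), (val_lt_one_iff _ _ s h u).2 hu1,
        fun y hy => (val_le_iff _ _ s h y u).2 (hu2 _ ((val_lt_one_iff _ _ s h y).1 hy)), ?_⟩
      rw [← map_zpow₀] at hu3 ⊢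
      rw [val_eq_iff _ _ s h, map_zpow₀]
      exact hu3
    · rintro ⟨u, hu0, hu1, hu2, hu3⟩
      refine ⟨s u, fun h0 => hu0 ((EmbeddingLike.map_eq_zero_iff (f := s)).1 h0),
        (val_lt_one_iff _ _ s h u).1 hu1, fun y hy => ?_, ?_⟩
      · obtain ⟨y, rfl⟩ := s.surjective y
        exact (val_le_iff _ _ s h y u).1 (hu2 _ ((val_lt_one_iff _ _ s h y).2 hy))
      · rw [← map_zpow₀] at hu3 ⊢
        rw [val_eq_iff _ _ s h, map_zpow₀] at hu3
        exact hu3
  rw [ord_eq_pick, ord_eq_pick, h1]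

section Pl

variable {F : Type u} {W : Type v} {F' : Type u'} {W' : Type v'} [Field F] [Field W] [Field F']
  [Field W'] [Algebra F W] [Algebra F' W']

theorem mv_unique {s : W ≃+* W'} {P : Plc F W} {Q Q' : Plc F' W'} (h : Mv s P Q)
    (h' : Mv s P Q') : Q = Q' := by
  apply Plc.ext
  ext x
  obtain ⟨x, rfl⟩ := s.surjective x
  rw [← h x, ← h' x]

theorem mv_unique' {s : W ≃+* W'} {P P' : Plc F W} {Q : Plc F' W'} (h : Mv s P Q)
    (h' : Mv s P' Q) : P = P' := by
  apply Plc.ext
  ext x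
  rw [h x, h' x]

theorem mv_symm {s : W ≃+* W'} {P : Plc F W} {Q : Plc F' W'} (h : Mv s.symm Q P) : Mv s P Q := by
  intro z
  have h1 := h (s z)
  rw [s.symm_apply_apply] at h1
  exact h1.symm

/-- the image of a place -/
def mapP (s : W ≃+* W')
    (hs' : ∀ c : F', ∃ c' : F, s.symm (algebraMap F' W' c) = algebraMap F W c') (P : Plc F W) :
    Plc F' W' where
  ring := P.ring.comap (s.symm : W' →+* W)
  ne_top := by
    intro h
    apply P.ne_top
    rw [eq_top_iff]
    intro x _
    have h1 : s x ∈ P.ring.comap (s.symm : W' →+* W) := by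
      rw [h]
      exact ValuationSubring.mem_top _
    have h2 : s.symm (s x) ∈ P.ring := h1
    rwa [s.symm_apply_apply] at h2
  const_mem := by
    intro c
    obtain ⟨c', h⟩ := hs' c
    change s.symm (algebraMap F' W' c) ∈ P.ring
    rw [h]
    exact P.const_mem c'

theorem mv_mapP (s : W ≃+* W')
    (hs' : ∀ c : F', ∃ c' : F, s.symm (algebraMap F' W' c) = algebraMap F W c') (P : Plc F W) :
    Mv s P (mapP s hs' P) := by
  intro z
  change z ∈ P.ring ↔ s.symm (s z) ∈ P.ring
  rw [s.symm_apply_apply]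

end Pl

end OIvAux

open OIvAux

theorem stOIv : StOIv.{u, v, u', v'} := by
  intro F W F' W' _ _ _ _ _ _ s
  refine ⟨fun P Q z h => ord_mv s h z, fun hs hs' => ?_⟩
  have hs1 : ∀ c : F', ∃ c' : F, s.symm (algebraMap F' W' c) = algebraMap F W c' := by
    intro c
    obtain ⟨c', hc'⟩ := hs' c
    exact ⟨c', by rw [← hc', s.symm_apply_apply]⟩
  have hs2 : ∀ c : F, ∃ c' : F', s.symm.symm (algebraMap F W c) = algebraMap F' W' c' := hs
  have hex : ∀ P : Plc F W, ∃ Q : Plc F' W', Mv s P Q := fun P => ⟨_, mv_mapP s hs1 P⟩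
  have hex' : ∀ Q : Plc F' W', ∃ P : Plc F W, Mv s P Q := fun Q =>
    ⟨_, mv_symm (mv_mapP s.symm hs2 Q)⟩
  refine ⟨fun P => ?_, fun Q => ?_, fun n g => ?_⟩
  · obtain ⟨Q, hQ⟩ := hex P
    exact ⟨Q, hQ, fun Q' h' => mv_unique h' hQ⟩
  · obtain ⟨P, hP⟩ := hex' Q
    exact ⟨P, hP, fun P' h' => mv_unique' h' hP⟩
  · constructor
    · rintro ⟨h0, h1⟩
      refine ⟨fun hg => h0 (by rw [hg, map_zero]), fun P => ?_⟩
      obtain ⟨Q, hQ⟩ := hex P
      rw [← ord_mv s hQ g]
      exact h1 Q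
    · rintro ⟨h0, h1⟩
      refine ⟨fun hg => h0 ((EmbeddingLike.map_eq_zero_iff (f := s)).1 hg), fun Q => ?_⟩
      obtain ⟨P, hP⟩ := hex' Q
      rw [ord_mv s hP g]
      exact h1 P

end Pool.Agent.Lib.MP_c385f6_ag.TPG
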