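import Pool.Agent.Lib.MP_c385f6_ag.TPG.StD

/-!
Project TPG, part D: images of towers under automorphisms.
-/

set_option autoImplicit false

namespace Pool.Agent.Lib.MP_c385f6_ag.TPG

universe u v u' v' w

namespace TwAut

variable {C : Type u} {Ω : Type v} [Field C] [Field Ω] [Algebra C Ω]

/-- the elements which are mapped into `N` by the automorphism `a` -/
def pre (A : IntermediateField C Ω) (a : A ≃+* A)
    (hc : ∀ c : C, ∃ c' : C, a (algebraMap C A c) = algebraMap C A c')
    (N : IntermediateField C Ω) : IntermediateField C Ω where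
  carrier := {x | ∃ hx : x ∈ A, (a ⟨x, hx⟩ : Ω) ∈ N}
  mul_mem' := by
    rintro x y ⟨hx, hx'⟩ ⟨hy, hy'⟩
    refine ⟨mul_mem hx hy, ?_⟩
    have : a ⟨x * y, mul_mem hx hy⟩ = a ⟨x, hx⟩ * a ⟨y, hy⟩ := by
      rw [← map_mul]
      rfl
    rw [this]
    exact mul_mem hx' hy'
  add_mem' := by
    rintro x y ⟨hx, hx'⟩ ⟨hy, hy'⟩
    refine ⟨add_mem hx hy, ?_⟩
    have : a ⟨x + y, add_mem hx hy⟩ = a ⟨x, hx⟩ + a ⟨y, hy⟩ := by
      rw [← map_add]
      rfl
    rw [this]
    exact add_mem hx' hy'
  algebraMap_mem' := by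
    intro c
    refine ⟨A.algebraMap_mem c, ?_⟩
    obtain ⟨c', hc'⟩ := hc c
    have : a ⟨algebraMap C Ω c, A.algebraMap_mem c⟩ = algebraMap C A c' := hc'
    rw [this]
    exact N.algebraMap_mem c'
  inv_mem' := by
    rintro x ⟨hx, hx'⟩
    refine ⟨A.inv_mem hx, ?_⟩
    have : a ⟨x⁻¹, A.inv_mem hx⟩ = (a ⟨x, hx⟩)⁻¹ := by
      rw [← map_inv₀]
      rfl
    rw [this]
    exact N.inv_mem hx'

theorem dir (A : IntermediateField C Ω) (a : A ≃+* A)
    (hc : ∀ c : C, ∃ c' : C, a (algebraMap C A c) = algebraMap C A c')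
    (M N : IntermediateField C Ω) (h : A) (hMA : M ≤ A)
    (hM : ∀ z : A, (z : Ω) ∈ M → (a z : Ω) ∈ N) (hh : (a h : Ω) ∈ N) (z : A)
    (hz : (z : Ω) ∈ M ⊔ IntermediateField.adjoin C {(h : Ω)}) : (a z : Ω) ∈ N := by
  have h1 : M ⊔ IntermediateField.adjoin C {(h : Ω)} ≤ pre A a hc N := by
    refine sup_le (fun x hx => ⟨hMA hx, hM ⟨x, hMA hx⟩ hx⟩) ?_
    rw [IntermediateField.adjoin_le_iff]
    intro x hx
    rw [Set.mem_singleton_iff] at hx
    subst hx
    exact ⟨h.2, hh⟩
  obtain ⟨hx, hx'⟩ := h1 hz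
  exact hx'

end TwAut

open TwAut in
/-- D2. Automorphisms map towers to towers. -/
theorem stTwAut (hO : StOIv.{u, v, u, v}) : StTwAut.{u, v} := by
  intro C Ω _ _ _ _ p L A a _ _ hLA hc hc' hL M hM
  induction hM with
  | base => exact fun _ => ⟨L, Tow.base, hLA, hL⟩
  | step M h n g hM hn hg hgD ih =>
    intro hle
    have hMA : M ≤ A := le_sup_left.trans hle
    have hhA : h ∈ A := hle (le_sup_right (a := M)
      (IntermediateField.mem_adjoin_simple_self C h))
    obtain ⟨M', hT, hM'A, hMM'⟩ := ih hMA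
    -- the isomorphism
    let s : M ≃+* M' :=
      { toFun := fun z => ⟨a ⟨z, hMA z.2⟩, (hMM' _).1 z.2⟩
        invFun := fun z => ⟨a.symm ⟨z, hM'A z.2⟩, by
          rw [hMM', RingEquiv.apply_symm_apply]
          exact z.2⟩
        left_inv := by
          intro z
          apply Subtype.ext
          change ((a.symm (a ⟨z, hMA z.2⟩) : A) : Ω) = z
          rw [RingEquiv.symm_apply_apply]
        right_inv := by
          intro z
          apply Subtype.ext
          change ((a (a.symm ⟨z, hM'A z.2⟩) : A) : Ω) = z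
          rw [RingEquiv.apply_symm_apply]
        map_mul' := by
          intro x y
          apply Subtype.ext
          change ((a (⟨x, hMA x.2⟩ * ⟨y, hMA y.2⟩) : A) : Ω) = _
          rw [map_mul]
          rfl
        map_add' := by
          intro x y
          apply Subtype.ext
          change ((a (⟨x, hMA x.2⟩ + ⟨y, hMA y.2⟩) : A) : Ω) = _
          rw [map_add]
          rfl }
    have hs1 : ∀ c : C, ∃ c' : C, s (algebraMap C M c) = algebraMap C M' c' := by
      intro c
      obtain ⟨c', h1⟩ := hc c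
      refine ⟨c', Subtype.ext ?_⟩
      have h3 : ((a (algebraMap C A c) : A) : Ω) = ((algebraMap C A c' : A) : Ω) := by rw [h1]
      exact h3
    have hs2 : ∀ c' : C, ∃ c : C, s (algebraMap C M c) = algebraMap C M' c' := by
      intro c'
      obtain ⟨c, h1⟩ := hc' c'
      refine ⟨c, Subtype.ext ?_⟩
      have h2 : a (algebraMap C A c) = algebraMap C A c' := by
        rw [← h1, RingEquiv.apply_symm_apply]
      have h3 : ((a (algebraMap C A c) : A) : Ω) = ((algebraMap C A c' : A) : Ω) := by rw [h2]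
      exact h3
    have hgD' : s g ∈ Dn C n := (((hO C M C M' s).2 hs1 hs2).2.2 n g).2 hgD
    let hA : A := ⟨h, hhA⟩
    have hpow : ((a hA : A) : Ω) ^ n = ((s g : M') : Ω) := by
      have h1 : hA ^ n = ⟨g, hMA g.2⟩ := Subtype.ext hg
      have h2 : a hA ^ n = a ⟨g, hMA g.2⟩ := by rw [← map_pow, h1]
      exact congrArg Subtype.val h2
    have hT' := Tow.step M' ((a hA : A) : Ω) n (s g) hT hn hpow hgD'
    refine ⟨_, hT', sup_le hM'A ?_, fun z => ⟨fun hz => ?_, fun hz => ?_⟩⟩
    · rw [IntermediateField.adjoin_le_iff, Set.singleton_subset_iff]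
      exact (a hA).2
    · refine dir A a hc M _ hA hMA (fun w hw => ?_) ?_ z hz
      · exact (le_sup_left (b := IntermediateField.adjoin C {((a hA : A) : Ω)})) ((hMM' w).1 hw)
      · exact (le_sup_right (a := M')) (IntermediateField.mem_adjoin_simple_self C _)
    · have h1 := dir A a.symm hc' M' (M ⊔ IntermediateField.adjoin C {h}) (a hA) hM'A
        (fun w hw => ?_) ?_ (a z) hz
      · rwa [RingEquiv.symm_apply_apply] at h1
      · apply (le_sup_left (b := IntermediateField.adjoin C {h}))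
        rw [hMM', RingEquiv.apply_symm_apply]
        exact hw
      · rw [RingEquiv.symm_apply_apply]
        exact (le_sup_right (a := M)) (IntermediateField.mem_adjoin_simple_self C h)

end Pool.Agent.Lib.MP_c385f6_ag.TPG
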