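import Pool.Agent.Lib.MP_c385f6_ag.TPG.StD

/-!
Project TPG, D1: basic properties of towers.
-/

set_option autoImplicit false

namespace Pool.Agent.Lib.MP_c385f6_ag.TPG

universe u v

namespace TwDirAux

open IntermediateField

variable {C : Type u} {Ω : Type v} [Field C] [Field Ω] [Algebra C Ω]

/-- Finite extensions of subfields. -/
theorem finite_of_relfinrank {M M' : IntermediateField C Ω} (h : M ≤ M')
    (hfin : relfinrank M M' ≠ 0) :
    letI : Algebra M M' := (inclusion h).toRingHom.toAlgebra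
    FiniteDimensional M M' := by
  letI : Algebra M M' := (inclusion h).toRingHom.toAlgebra
  rw [relfinrank_eq_finrank_of_le h] at hfin
  have h1 : FiniteDimensional M (extendScalars h) :=
    Module.finite_of_finrank_pos (Nat.pos_of_ne_zero hfin)
  exact Module.Finite.equiv (M := extendScalars h) (N := M')
    { toFun := fun x => ⟨x.1, x.2⟩
      invFun := fun x => ⟨x.1, x.2⟩
      map_add' := fun _ _ => rfl
      map_smul' := fun _ _ => rfl
      left_inv := fun _ => rfl
      right_inv := fun _ => rfl }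

/-- Function fields and `D_n` in finite extensions. -/
theorem over_le (hO : StOver.{u, v, v}) [IsAlgClosed C] {M M' : IntermediateField C Ω}
    (h : M ≤ M') (hfin : relfinrank M M' ≠ 0) (hM : FF C M) :
    FF C M' ∧ ∀ (n : ℕ) (g : M) (g' : M'), (g : Ω) = g' → g ∈ Dn C n → g' ∈ Dn C n := by
  letI : Algebra M M' := (inclusion h).toRingHom.toAlgebra
  have : IsScalarTower C M M' := IsScalarTower.of_algebraMap_eq (fun _ => rfl)
  have : FiniteDimensional M M' := finite_of_relfinrank h hfin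
  obtain ⟨h1, h2, e, -, h4, -⟩ := hO C M M' hM
  refine ⟨h1, ?_⟩
  rintro n g g' hgg ⟨hg0, hgd⟩
  have hg' : algebraMap M M' g = g' := Subtype.ext hgg
  refine ⟨?_, ?_⟩
  · rw [← hg']
    exact (map_ne_zero _).2 hg0
  · intro Q
    obtain ⟨P, hP⟩ := h2 Q
    rw [← hg', h4 P Q hP g hg0]
    exact (hgd P).mul_left _

/-- Adjoining a root. -/
theorem relfinrank_adjoin (M : IntermediateField C Ω) {h : Ω} {n : ℕ} (hn : n ≠ 0) {g : M}
    (hg : h ^ n = g) : relfinrank M (M ⊔ adjoin C {h}) ≠ 0 := by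
  rw [relfinrank_eq_finrank_of_le le_sup_left]
  have hint : IsIntegral M h := by
    refine ⟨Polynomial.X ^ n - Polynomial.C g, Polynomial.monic_X_pow_sub_C g hn, ?_⟩
    rw [Polynomial.eval₂_sub, Polynomial.eval₂_X_pow, Polynomial.eval₂_C, hg]
    exact sub_self _
  have h1 : extendScalars (le_sup_left : M ≤ M ⊔ adjoin C {h}) ≤ adjoin M {h} := by
    rw [extendScalars_le_iff]
    refine sup_le ?_ ?_
    · intro x hx
      exact (adjoin M {h}).algebraMap_mem ⟨x, hx⟩
    · rw [adjoin_le_iff]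
      rintro x hx
      exact subset_adjoin M {h} hx
  have h2 : FiniteDimensional M (adjoin M {h}) := adjoin.finiteDimensional hint
  have h3 : FiniteDimensional M (extendScalars (le_sup_left : M ≤ M ⊔ adjoin C {h})) :=
    FiniteDimensional.of_injective (inclusion h1).toLinearMap (inclusion h1).injective
  exact (Module.finrank_pos (R := M)
    (M := extendScalars (le_sup_left : M ≤ M ⊔ adjoin C {h}))).ne'

/-- The first part. -/
theorem tow_basic (hO : StOver.{u, v, v}) [IsAlgClosed C] {p : ℕ} {L : IntermediateField C Ω}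
    (hL : FF C L) {M : IntermediateField C Ω} (hM : Tow C p L M) :
    L ≤ M ∧ FF C M ∧ relfinrank L M ≠ 0 := by
  induction hM with
  | base => exact ⟨le_rfl, hL, by rw [relfinrank_self]; exact one_ne_zero⟩
  | step M h n g hM hpn hg hgD ih =>
    obtain ⟨h1, h2, h3⟩ := ih
    have hn : n ≠ 0 := by
      rintro rfl
      exact hpn (dvd_zero p)
    have h4 := relfinrank_adjoin M hn hg
    refine ⟨h1.trans le_sup_left, (over_le hO le_sup_left h4 h2).1, ?_⟩
    rw [← relfinrank_mul_relfinrank h1 (le_sup_left : M ≤ M ⊔ adjoin C {h})]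
    exact mul_ne_zero h3 h4

/-- The fifth part. -/
theorem tow_mono (hO : StOver.{u, v, v}) [IsAlgClosed C] {p : ℕ} {L : IntermediateField C Ω}
    (hL : FF C L) {M M' : IntermediateField C Ω} (hM : Tow C p L M) (hM' : Tow C p L M')
    (hle : M ≤ M') (n : ℕ) (g : M) (g' : M') (hgg : (g : Ω) = g') (hg : g ∈ Dn C n) :
    g' ∈ Dn C n := by
  obtain ⟨h1, h2, -⟩ := tow_basic hO hL hM
  obtain ⟨-, -, h3⟩ := tow_basic hO hL hM'
  rw [← relfinrank_mul_relfinrank h1 hle] at h3
  exact (over_le hO hle (right_ne_zero_of_mul h3) h2).2 n g g' hgg hg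

/-- Joins of towers. -/
theorem tow_sup (hO : StOver.{u, v, v}) [IsAlgClosed C] {p : ℕ} {L : IntermediateField C Ω}
    (hL : FF C L) {M M' : IntermediateField C Ω} (hM : Tow C p L M) (hM' : Tow C p L M') :
    Tow C p L (M ⊔ M') := by
  induction hM' with
  | base =>
    rw [sup_eq_left.2 (tow_basic hO hL hM).1]
    exact hM
  | step M' h n g hM' hpn hg hgD ih =>
    rw [← sup_assoc]
    have hle : M' ≤ M ⊔ M' := le_sup_right
    have hgD' : (⟨(g : Ω), hle g.2⟩ : (M ⊔ M' : IntermediateField C Ω)) ∈ Dn C n :=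
      tow_mono hO hL hM' ih hle n g _ rfl hgD
    exact Tow.step (M ⊔ M') h n ⟨(g : Ω), hle g.2⟩ ih hpn hg hgD'

/-- The union of the towers. -/
theorem mem_Tinf (hO : StOver.{u, v, v}) [IsAlgClosed C] {p : ℕ} {L : IntermediateField C Ω}
    (hL : FF C L) (z : Ω) : z ∈ Tinf C p L ↔ ∃ M, Tow C p L M ∧ z ∈ M := by
  have hne : Nonempty {M // Tow C p L M} := ⟨⟨L, Tow.base⟩⟩
  have hdir : Directed (· ≤ ·) (fun M : {M // Tow C p L M} => (M : IntermediateField C Ω)) := by
    rintro ⟨M, hM⟩ ⟨M', hM'⟩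
    exact ⟨⟨M ⊔ M', tow_sup hO hL hM hM'⟩, le_sup_left, le_sup_right⟩
  have h1 : Tinf C p L = ⨆ M : {M // Tow C p L M}, (M : IntermediateField C Ω) := by
    unfold Tinf
    rw [sSup_eq_iSup']
    rfl
  rw [h1, ← SetLike.mem_coe, coe_iSup_of_directed hdir, Set.mem_iUnion]
  constructor
  · rintro ⟨⟨M, hM⟩, hz⟩
    exact ⟨M, hM, hz⟩
  · rintro ⟨M, hM, hz⟩
    exact ⟨⟨M, hM⟩, hz⟩

end TwDirAux

open TwDirAux in
/-- D1. Basic properties of towers. -/
theorem stTwDir (hO : StOver.{u, v, v}) : StTwDir.{u, v} := by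
  intro C Ω _ _ _ _ p L hL _
  refine ⟨fun M hM => tow_basic hO hL hM, fun M M' hM hM' => tow_sup hO hL hM hM',
    fun z => mem_Tinf hO hL z, ?_, ?_⟩
  · intro M n g h hM hpn hg hhg
    rw [mem_Tinf hO hL]
    refine ⟨_, Tow.step M h n g hM hpn hhg hg, ?_⟩
    exact (le_sup_right : IntermediateField.adjoin C {h} ≤ M ⊔ IntermediateField.adjoin C {h})
      (IntermediateField.mem_adjoin_simple_self C h)
  · intro M M' n g g' hM hM' hle hgg hg
    exact tow_mono hO hL hM hM' hle n g g' hgg hg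

end Pool.Agent.Lib.MP_c385f6_ag.TPG
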