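import Pool.Agent.Lib.MP_c385f6_ag.TPG.StD

/-!
Project TPG, part D, D3: towers over a field with good reduction have good reduction.
-/

set_option autoImplicit false

namespace Pool.Agent.Lib.MP_c385f6_ag.TPG

universe u v u' v'

namespace DTwGood

section gen

variable {K : Type u} {E : Type v} [Field K] [Field E] [Algebra K E]

/-- The inclusion of a subfield as an algebra. -/
@[reducible] def incAlg {A B : IntermediateField K E} (h : A ≤ B) : Algebra A B :=
  (IntermediateField.inclusion h).toRingHom.toAlgebra

theorem incTower {A B : IntermediateField K E} (h : A ≤ B) :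
    letI := incAlg h
    IsScalarTower K A B := by
  let := incAlg h
  exact IsScalarTower.of_algebraMap_eq fun _ => rfl

theorem relfin {A B : IntermediateField K E} (h : A ≤ B) :
    letI := incAlg h
    IntermediateField.relfinrank A B = Module.finrank A B := by
  letI := incAlg h
  rw [IntermediateField.relfinrank_eq_finrank_of_le h]
  refine LinearEquiv.finrank_eq (R := A) (M := IntermediateField.extendScalars h) (N := B)
    { toFun := fun x => ⟨x.1, x.2⟩
      invFun := fun x => ⟨x.1, x.2⟩
      map_add' := fun _ _ => rfl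
      map_smul' := ?_
      left_inv := fun _ => rfl
      right_inv := fun _ => rfl }
  intro a x
  apply Subtype.ext
  rw [Algebra.smul_def, Algebra.smul_def]
  rfl

theorem sup_of_top {A B : IntermediateField K E} (h : A ≤ B) (x : B) :
    letI := incAlg h
    IntermediateField.adjoin A {x} = ⊤ → A ⊔ IntermediateField.adjoin K {(x : E)} = B := by
  letI := incAlg h
  intro ht
  apply le_antisymm
  · refine sup_le h ?_
    rw [IntermediateField.adjoin_simple_le_iff]
    exact x.2
  · intro b hb
    let S : IntermediateField K E := A ⊔ IntermediateField.adjoin K {(x : E)}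
    let N : IntermediateField A B :=
      { carrier := {y | (y : E) ∈ S}
        mul_mem' := fun {a b} ha hb => S.mul_mem ha hb
        add_mem' := fun {a b} ha hb => S.add_mem ha hb
        algebraMap_mem' := fun a => (le_sup_left : A ≤ S) a.2
        inv_mem' := fun a ha => S.inv_mem ha }
    have h1 : IntermediateField.adjoin A {x} ≤ N := by
      rw [IntermediateField.adjoin_simple_le_iff]
      exact (le_sup_right : IntermediateField.adjoin K {(x : E)} ≤ S)
        (IntermediateField.mem_adjoin_simple_self K (x : E))
    have h2 : (⟨b, hb⟩ : B) ∈ IntermediateField.adjoin A {x} := by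
      rw [ht]
      trivial
    exact h1 h2

theorem top_of_sup {A B : IntermediateField K E} (h : A ≤ B) (x : B) :
    letI := incAlg h
    A ⊔ IntermediateField.adjoin K {(x : E)} = B → IntermediateField.adjoin A {x} = ⊤ := by
  letI := incAlg h
  intro ht
  let S : IntermediateField A B := IntermediateField.adjoin A {x}
  let N : IntermediateField K E :=
    { carrier := {e | ∃ he : e ∈ B, (⟨e, he⟩ : B) ∈ S}
      mul_mem' := by
        rintro a b ⟨ha, ha'⟩ ⟨hb, hb'⟩
        exact ⟨B.mul_mem ha hb, S.mul_mem ha' hb'⟩
      add_mem' := by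
        rintro a b ⟨ha, ha'⟩ ⟨hb, hb'⟩
        exact ⟨B.add_mem ha hb, S.add_mem ha' hb'⟩
      algebraMap_mem' := fun c => ⟨B.algebraMap_mem c, S.algebraMap_mem (algebraMap K A c)⟩
      inv_mem' := by
        rintro a ⟨ha, ha'⟩
        exact ⟨B.inv_mem ha, S.inv_mem ha'⟩ }
  have h1 : A ⊔ IntermediateField.adjoin K {(x : E)} ≤ N := by
    refine sup_le ?_ ?_
    · intro a ha
      exact ⟨h ha, S.algebraMap_mem ⟨a, ha⟩⟩
    · rw [IntermediateField.adjoin_simple_le_iff]
      exact ⟨x.2, IntermediateField.mem_adjoin_simple_self A x⟩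
  rw [ht] at h1
  rw [eq_top_iff]
  intro b _
  obtain ⟨h2, h3⟩ := h1 b.2
  exact h3

end gen

section red

variable {C : Type u} {Ω : Type v} {F : Type u'} {U : Type v'} [Field C] [Field Ω]
  [Field F] [Field U] [Algebra C Ω] [Algebra F U]

theorem img_mono (R : Red C Ω F U) {M N : IntermediateField C Ω} (h : M ≤ N) :
    R.img M ≤ R.img N := by
  rintro y ⟨z, hz, hz', rfl⟩
  exact ⟨z, h hz, hz', rfl⟩

theorem rext_sub (R : Red C Ω F U) {M N : IntermediateField C Ω} (h : M ≤ N) :
    letI := incAlg h
    letI := incAlg (img_mono R h)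
    RExt (R.sub M) (R.sub N) := by
  letI := incAlg h
  letI := incAlg (img_mono R h)
  exact ⟨fun _ => Iff.rfl, fun _ => rfl⟩

end red

end DTwGood

open DTwGood in
theorem stTwGood (hEt : StEt.{u, v, u', v'}) : StTwGood.{u, v, u', v'} := by
  intro C Ω F U _ _ _ _ _ _ _ _ R p g L hC hF hG M hM
  induction hM with
  | base =>
    refine ⟨le_rfl, ⟨g, hG⟩, ?_, ?_, Tow.base⟩
    · rw [IntermediateField.relfinrank_self]
      exact one_ne_zero
    · rw [IntermediateField.relfinrank_self, IntermediateField.relfinrank_self]
  | step M h n f hT hn hf hD ih =>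
    obtain ⟨h1, ⟨g', h2⟩, h3, h4, h5⟩ := ih
    have hle : M ≤ M ⊔ IntermediateField.adjoin C {h} := le_sup_left
    have hh : h ∈ M ⊔ IntermediateField.adjoin C {h} :=
      (le_sup_right : IntermediateField.adjoin C {h} ≤ M ⊔ IntermediateField.adjoin C {h})
        (IntermediateField.mem_adjoin_simple_self C h)
    generalize hN : M ⊔ IntermediateField.adjoin C {h} = N at hle hh
    have hi := img_mono R hle
    letI : Algebra M N := incAlg hle
    letI : Algebra (R.img M) (R.img N) := incAlg hi
    haveI : IsScalarTower C M N := incTower hle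
    haveI : IsScalarTower F (R.img M) (R.img N) := incTower hi
    obtain ⟨h6, h7, h8, h9, c, y, hc, h10, h11, h12, h13⟩ :=
      hEt C M N F (R.img M) (R.img N) (R.sub M) (R.sub N) g' n ⟨h, hh⟩ f h2 (rext_sub R hle)
        (hF n hn) (hC n hn) (Subtype.ext hf) hD (top_of_sup hle ⟨h, hh⟩ hN)
    have h14 : IntermediateField.relfinrank M N = Module.finrank M N := relfin hle
    have h15 : IntermediateField.relfinrank (R.img M) (R.img N) =
      Module.finrank (R.img M) (R.img N) := relfin hi
    have h16 : R.img L ≤ R.img M := img_mono R h1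
    refine ⟨h1.trans hle, h6, ?_, ?_, ?_⟩
    · rw [← IntermediateField.relfinrank_mul_relfinrank h1 hle, h14]
      exact mul_ne_zero h3 Module.finrank_pos.ne'
    · rw [← IntermediateField.relfinrank_mul_relfinrank h1 hle,
        ← IntermediateField.relfinrank_mul_relfinrank h16 hi, h14, h15, h4, h9]
    · have h17 := sup_of_top hi _ h13
      have h18 := Tow.step (R.img M) _ n y h5 hn (congrArg Subtype.val h12) h11
      rw [← h17]
      exact h18

end Pool.Agent.Lib.MP_c385f6_ag.TPG
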