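import Pool.Agent.Lib.MP_c385f6_ag.TPG.StD

/-!
Project TPG, D5: the residue field of the union of the towers is the union of the towers of the
residue field.
-/

set_option autoImplicit false

namespace Pool.Agent.Lib.MP_c385f6_ag.TPG

universe u v u' v'

namespace TwImg

variable {C : Type u} {Ω : Type v} {F : Type u'} {U : Type v'} [Field C] [Field Ω] [Field F]
  [Field U] [Algebra C Ω] [Algebra F U]

theorem img_mono (R : Red C Ω F U) {M M' : IntermediateField C Ω} (h : M ≤ M') :
    R.img M ≤ R.img M' := by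
  rintro _ ⟨z, hz, hz', rfl⟩
  exact ⟨z, h hz, hz', rfl⟩

/-- Roots of unity of an extension of an algebraically closed field lie in the field. -/
theorem root_mem [IsAlgClosed F] {n : ℕ} (hn : n ≠ 0) {z : U} (hz : z ^ n = 1) :
    ∃ c : F, algebraMap F U c = z := by
  have hint : IsIntegral F z := by
    refine IsIntegral.of_pow (Nat.pos_of_ne_zero hn) ?_
    rw [hz]
    exact isIntegral_one
  exact minpoly.mem_range_of_degree_eq_one F z
    (IsAlgClosed.degree_eq_one_of_irreducible F (minpoly.irreducible hint))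

theorem mem_w_of_pow (A : ValuationSubring Ω) {n : ℕ} (hn : n ≠ 0) {h : Ω} (hh : h ^ n ∈ A) :
    h ∈ A := by
  rw [← A.valuation_le_one_iff, map_pow] at hh
  rw [← A.valuation_le_one_iff]
  exact (pow_le_one_iff hn).1 hh

theorem res_pow (R : Red C Ω F U) {z : Ω} (hz : z ∈ R.w) (n : ℕ) :
    R.res (z ^ n) = R.res z ^ n := by
  induction n with
  | zero => rw [pow_zero, pow_zero, R.res_one]
  | succ n ih => rw [pow_succ, pow_succ, R.res_mul _ (pow_mem hz n) _ hz, ih]

end TwImg

open TwImg

theorem stTwImg (hG : StTwGood.{u, v, u', v'}) (hD : StTwDir.{u, v}) (hD' : StTwDir.{u', v'}) :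
    StTwImg.{u, v, u', v'} := by
  intro C Ω F U _ _ _ _ _ _ _ _ _ R p g L hpC hpF hgood hS
  obtain ⟨-, -, d3, -, -⟩ := hD C Ω p L hgood.ffC hpC
  obtain ⟨-, -, -, -, e5⟩ := hD' F U p (R.img L) hgood.ffF hpF
  have hG' := hG C Ω F U R p g L hpC hpF hgood
  apply le_antisymm
  · rintro _ ⟨z, hz, hz', rfl⟩
    obtain ⟨M, hM, hzM⟩ := (d3 z).1 hz
    have h1 : R.img M ≤ Tinf F p (R.img L) := le_sSup (hG' M hM).2.2.2.2
    exact h1 ⟨z, hzM, hz', rfl⟩
  · have key : ∀ μ : IntermediateField F U, Tow F p (R.img L) μ →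
        ∃ M, Tow C p L M ∧ μ ≤ R.img M := by
      intro μ hμ
      induction hμ with
      | base => exact ⟨L, Tow.base, le_rfl⟩
      | step μ h n γ hμ hn hγ hγD ih =>
        obtain ⟨M, hM, hle⟩ := ih
        have hn0 : n ≠ 0 := by
          rintro rfl
          exact hn (dvd_zero p)
        have hMG := hG' M hM
        obtain ⟨f, b, hf, hb, hfb⟩ := hS M n ⟨γ, hle γ.2⟩ hM hMG.2.1 hn
          (e5 μ (R.img M) n γ ⟨γ, hle γ.2⟩ hμ hMG.2.2.2.2 hle rfl hγD)
        have hfb' : R.res f = h ^ n * (b : U) ^ n := by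
          have := congrArg (Subtype.val) hfb
          rw [Red.sub_res] at this
          rw [this, hγ]
          rfl
        obtain ⟨h', hh'⟩ := IsAlgClosed.exists_pow_nat_eq (f : Ω) (Nat.pos_of_ne_zero hn0)
        have hM' : Tow C p L (M ⊔ IntermediateField.adjoin C {h'}) :=
          Tow.step M h' n f hM hn hh' hf
        refine ⟨_, hM', ?_⟩
        have hh0 : h ≠ 0 := by
          rintro rfl
          rw [zero_pow hn0] at hγ
          exact hγD.1 (Subtype.ext hγ.symm)
        have hb0 : (b : U) ≠ 0 := fun h0 => hb (Subtype.ext h0)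
        have hres0 : R.res f ≠ 0 := by
          rw [hfb']
          exact mul_ne_zero (pow_ne_zero _ hh0) (pow_ne_zero _ hb0)
        have hfw : (f : Ω) ∈ R.w := Red.mem_of_res_ne hres0
        have hh'w : h' ∈ R.w := mem_w_of_pow R.w hn0 (by rw [hh']; exact hfw)
        have hpow : R.res h' ^ n = h ^ n * (b : U) ^ n := by
          rw [← res_pow R hh'w, hh', hfb']
        have hz : (R.res h' / (h * b)) ^ n = 1 := by
          rw [div_pow, hpow, mul_pow, div_self]
          exact mul_ne_zero (pow_ne_zero _ hh0) (pow_ne_zero _ hb0)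
        obtain ⟨c, hc⟩ := root_mem (F := F) hn0 hz
        have hc0 : algebraMap F U c ≠ 0 := by
          intro h0
          rw [hc] at h0
          rw [h0, zero_pow hn0] at hz
          exact zero_ne_one hz
        have hmemM : R.img M ≤ R.img (M ⊔ IntermediateField.adjoin C {h'}) :=
          img_mono R le_sup_left
        have hh'M : h' ∈ M ⊔ IntermediateField.adjoin C {h'} :=
          (le_sup_right : IntermediateField.adjoin C {h'} ≤ M ⊔ IntermediateField.adjoin C {h'})
            (IntermediateField.mem_adjoin_simple_self C h')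
        have hh : h = R.res h' / (algebraMap F U c * b) := by
          rw [eq_div_iff (mul_ne_zero hc0 hb0), hc]
          field_simp
        refine sup_le (hle.trans hmemM) ?_
        rw [IntermediateField.adjoin_le_iff, Set.singleton_subset_iff]
        change h ∈ R.img (M ⊔ IntermediateField.adjoin C {h'})
        rw [hh]
        exact div_mem ⟨h', hh'M, hh'w, rfl⟩
          (mul_mem (IntermediateField.algebraMap_mem _ c) (hmemM b.2))
    refine sSup_le ?_
    intro μ hμ
    obtain ⟨M, hM, hle⟩ := key μ hμ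
    have h1 : M ≤ Tinf C p L := le_sSup hM
    exact hle.trans (img_mono R h1)

end Pool.Agent.Lib.MP_c385f6_ag.TPG
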