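import Pool.Agent.Lib.MP_c385f6_ag.TPG.StD

/-!
Project TPG, D4: the valuation ring is unique on the union of the towers.
-/

set_option autoImplicit false

namespace Pool.Agent.Lib.MP_c385f6_ag.TPG

universe u v u' v' w

namespace TwUq

variable {C : Type u} {Ω : Type v} {F : Type u'} {U : Type v'} [Field C] [Field Ω] [Field F]
  [Field U] [Algebra C Ω] [Algebra F U]

theorem res_sum (R : Red C Ω F U) {ι : Type*} (s : Finset ι) (f : ι → Ω)
    (hf : ∀ i ∈ s, f i ∈ R.w) :
    (∑ i ∈ s, f i) ∈ R.w ∧ R.res (∑ i ∈ s, f i) = ∑ i ∈ s, R.res (f i) := by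
  classical
  induction s using Finset.induction_on with
  | empty => simpa using R.res_zero
  | insert a s ha ih =>
    have h1 := ih fun i hi => hf i (Finset.mem_insert_of_mem hi)
    have h2 := hf a (Finset.mem_insert_self a s)
    rw [Finset.sum_insert ha, Finset.sum_insert ha]
    exact ⟨add_mem h2 h1.1, by rw [R.res_add _ h2 _ h1.1, h1.2]⟩

/-- The valuation of a sum `∑ f i * b i` when the residues of the `b i` are independent. -/
theorem key (R : Red C Ω F U) (L : IntermediateField C Ω) {ι : Type*} [Fintype ι] (b : ι → Ω)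
    (hb : ∀ i, b i ∈ R.w) (hli : LinearIndependent (R.img L) fun i => R.res (b i)) (f : ι → L)
    (hf : f ≠ 0) : ∃ i₀, f i₀ ≠ 0 ∧
      R.w.valuation (∑ i, (f i : Ω) * b i) = R.w.valuation (f i₀ : Ω) ∧
      ∀ i, R.w.valuation (f i : Ω) ≤ R.w.valuation (f i₀ : Ω) := by
  classical
  obtain ⟨j, hj⟩ : ∃ j, f j ≠ 0 := by
    by_contra hcon
    push Not at hcon
    exact hf (funext hcon)
  have : Nonempty ι := ⟨j⟩
  obtain ⟨i₀, hi₀⟩ := Finite.exists_max fun i => R.w.valuation (f i : Ω)
  have h0 : (f i₀ : Ω) ≠ 0 := by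
    intro h0
    have h1 := hi₀ j
    rw [h0, map_zero, le_zero_iff, map_eq_zero] at h1
    exact hj (by exact_mod_cast h1)
  have hv0 : R.w.valuation (f i₀ : Ω) ≠ 0 := by
    rwa [Ne, map_eq_zero]
  refine ⟨i₀, fun h => h0 (by rw [h]; rfl), ?_, hi₀⟩
  have hg : ∀ i, ((f i : Ω) / (f i₀ : Ω)) ∈ R.w := by
    intro i
    rw [← R.w.valuation_le_one_iff, map_div₀]
    exact div_le_one_of_le₀ (hi₀ i) zero_le
  have hsum : (∑ i, (f i : Ω) * b i) = (f i₀ : Ω) * ∑ i, ((f i : Ω) / (f i₀ : Ω)) * b i := by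
    rw [Finset.mul_sum]
    refine Finset.sum_congr rfl fun i _ => ?_
    field_simp
  rw [hsum, map_mul]
  have hr := res_sum R Finset.univ (fun i => ((f i : Ω) / (f i₀ : Ω)) * b i)
    fun i _ => mul_mem (hg i) (hb i)
  have hne : R.res (∑ i, ((f i : Ω) / (f i₀ : Ω)) * b i) ≠ 0 := by
    intro hz
    rw [hr.2] at hz
    have hL : ∀ i, R.res ((f i : Ω) / (f i₀ : Ω)) ∈ R.img L := by
      intro i
      exact ⟨_, L.div_mem (f i).2 (f i₀).2, hg i, rfl⟩
    have h1 := Fintype.linearIndependent_iff.1 hli (fun i => ⟨_, hL i⟩) (by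
      rw [← hz]
      refine Finset.sum_congr rfl fun i _ => ?_
      rw [R.res_mul _ (hg i) _ (hb i)]
      rfl) i₀
    rw [Subtype.ext_iff] at h1
    change R.res ((f i₀ : Ω) / (f i₀ : Ω)) = 0 at h1
    rw [div_self h0, R.res_one] at h1
    exact one_ne_zero h1
  rw [Red.val_eq_one hne, mul_one]

/-- A basis of `M` over `L` whose residues are independent over `R.img L`. -/
theorem exists_basis (R : Red C Ω F U) (L M : IntermediateField C Ω) (hLM : L ≤ M)
    (h0 : IntermediateField.relfinrank L M ≠ 0)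
    (h1 : IntermediateField.relfinrank L M =
      IntermediateField.relfinrank (R.img L) (R.img M)) :
    ∃ (m : ℕ) (b : Fin m → Ω), (∀ i, b i ∈ M ∧ b i ∈ R.w) ∧
      (LinearIndependent (R.img L) fun i => R.res (b i)) ∧
      ∀ z ∈ M, ∃ f : Fin m → L, z = ∑ i, (f i : Ω) * b i := by
  classical
  have hLM' : R.img L ≤ R.img M := by
    rintro _ ⟨z, hz, hz', rfl⟩
    exact ⟨z, hLM hz, hz', rfl⟩
  have e1 := IntermediateField.relfinrank_eq_finrank_of_le hLM
  have e2 := IntermediateField.relfinrank_eq_finrank_of_le hLM'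
  set E := IntermediateField.extendScalars hLM with hE
  set E' := IntermediateField.extendScalars hLM' with hE'
  have hpos : 0 < Module.finrank (R.img L) E' := by
    rw [← e2, ← h1]
    exact Nat.pos_of_ne_zero h0
  have hposE : 0 < Module.finrank L E := by
    rw [← e1]
    exact Nat.pos_of_ne_zero h0
  have : Module.Finite (R.img L) E' := Module.finite_of_finrank_pos hpos
  have : Module.Finite L E := Module.finite_of_finrank_pos hposE
  let y := Module.finBasis (R.img L) E'
  have hy : ∀ i, ∃ z ∈ M, z ∈ R.w ∧ R.res z = (y i : U) := fun i => (y i).2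
  choose b hbM hbw hby using hy
  have hli : LinearIndependent (R.img L) fun i => R.res (b i) := by
    have h2 : LinearIndependent (R.img L) fun i => (y i : U) :=
      y.linearIndependent.map' (E'.val.toLinearMap) (LinearMap.ker_eq_bot.2 E'.val.injective)
    have h3 : (fun i => R.res (b i)) = fun i => (y i : U) := funext hby
    rw [h3]
    exact h2
  refine ⟨_, b, fun i => ⟨hbM i, hbw i⟩, hli, ?_⟩
  have hbE : LinearIndependent L (fun i => (⟨b i, hbM i⟩ : E)) := by
    rw [Fintype.linearIndependent_iff]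
    intro f hf
    by_contra hcon
    push Not at hcon
    obtain ⟨j, hj⟩ := hcon
    have hf0 : f ≠ 0 := fun h => hj (by rw [h]; rfl)
    obtain ⟨i₀, hi₀, hv, -⟩ := key R L b hbw hli f hf0
    have hf' : ∑ i, (f i : Ω) * b i = 0 := by
      have h4 := congrArg (fun t : E => (t : Ω)) hf
      simp only [ZeroMemClass.coe_zero] at h4
      rw [← h4, AddSubmonoidClass.coe_finsetSum]
      rfl
    rw [hf', map_zero] at hv
    have h5 : (f i₀ : Ω) = 0 := by
      rw [← map_eq_zero R.w.valuation]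
      exact hv.symm
    exact hi₀ (by exact_mod_cast h5)
  have hcard : Fintype.card (Fin (Module.finrank (R.img L) E')) = Module.finrank L E := by
    rw [Fintype.card_fin, ← e2, ← e1, h1]
  let B := basisOfLinearIndependentOfCardEqFinrank' _ hbE hcard
  intro z hz
  refine ⟨fun i => B.repr (⟨z, hz⟩ : E) i, ?_⟩
  have h6 := B.sum_repr (⟨z, hz⟩ : E)
  have h7 := congrArg (fun t : E => (t : Ω)) h6
  simp only [AddSubmonoidClass.coe_finsetSum] at h7
  refine h7.symm.trans ?_
  refine Finset.sum_congr rfl fun i _ => ?_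
  have h8 : B i = (⟨b i, hbM i⟩ : E) := by
    simp [B]
  rw [h8]
  rfl

end TwUq

/-- D4. The valuation ring is unique on the union of the towers. -/
theorem stTwUq (hG : StTwGood.{u, v, u', v'}) (hD : StTwDir.{u, v}) :
    StTwUq.{u, v, u', v'} := by
  classical
  intro C Ω F U _ _ _ _ _ _ _ _ R p g L hpC hpF hg w' hw'
  have hffL : FF C L := hg.ffC
  obtain ⟨d1, -, d3, -, -⟩ := hD C Ω p L hffL hpC
  -- the inclusion `w ⊆ w'`
  have hincl : ∀ z : Tinf C p L, (z : Ω) ∈ R.w → z ∈ w' := by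
    intro z hz
    obtain ⟨M, hM, hzM⟩ := (d3 z).1 z.2
    obtain ⟨hLM, -, h0, h1, -⟩ := hG C Ω F U R p g L hpC hpF hg M hM
    obtain ⟨m, b, hb, hli, hsp⟩ := TwUq.exists_basis R L M hLM h0 h1
    have hMT : M ≤ Tinf C p L := le_sSup hM
    let A : Subring (Tinf C p L) :=
      { carrier := {x | (x : Ω) ∈ L ∧ (x : Ω) ∈ R.w}
        mul_mem' := fun ha hb => ⟨mul_mem ha.1 hb.1, mul_mem ha.2 hb.2⟩
        add_mem' := fun ha hb => ⟨add_mem ha.1 hb.1, add_mem ha.2 hb.2⟩
        one_mem' := ⟨one_mem _, one_mem _⟩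
        zero_mem' := ⟨zero_mem _, zero_mem _⟩
        neg_mem' := fun ha => ⟨neg_mem ha.1, neg_mem ha.2⟩ }
    let S : Subalgebra A (Tinf C p L) :=
      { carrier := {x | (x : Ω) ∈ M ∧ (x : Ω) ∈ R.w}
        mul_mem' := fun ha hb => ⟨mul_mem ha.1 hb.1, mul_mem ha.2 hb.2⟩
        add_mem' := fun ha hb => ⟨add_mem ha.1 hb.1, add_mem ha.2 hb.2⟩
        algebraMap_mem' := fun a => ⟨hLM a.2.1, a.2.2⟩ }
    have hFG : (Subalgebra.toSubmodule S).FG := by
      refine ⟨Finset.univ.image fun i => (⟨b i, hMT (hb i).1⟩ : Tinf C p L), ?_⟩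
      apply le_antisymm
      · rw [Submodule.span_le]
        intro x hx
        simp only [Finset.coe_image, Finset.coe_univ, Set.image_univ, Set.mem_range] at hx
        obtain ⟨i, rfl⟩ := hx
        exact hb i
      · intro x hx
        obtain ⟨hxM, hxw⟩ : (x : Ω) ∈ M ∧ (x : Ω) ∈ R.w := hx
        obtain ⟨f, hf⟩ := hsp x hxM
        have hfw : ∀ i, (f i : Ω) ∈ R.w := by
          intro i
          by_cases hf0 : f = 0
          · rw [hf0]
            exact zero_mem _
          · obtain ⟨i₀, -, hv, hle⟩ := TwUq.key R L b (fun i => (hb i).2) hli f hf0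
            rw [← R.w.valuation_le_one_iff]
            refine (hle i).trans ?_
            rw [← hv, ← hf, R.w.valuation_le_one_iff]
            exact hxw
        have hfA : ∀ i, (⟨(f i : Ω), hMT (hLM (f i).2)⟩ : Tinf C p L) ∈ A :=
          fun i => ⟨(f i).2, hfw i⟩
        have hx' : x = ∑ i, (⟨_, hfA i⟩ : A) • (⟨b i, hMT (hb i).1⟩ : Tinf C p L) := by
          apply Subtype.ext
          rw [AddSubmonoidClass.coe_finsetSum]
          exact hf
        rw [hx']
        refine Submodule.sum_mem _ fun i _ => Submodule.smul_mem _ _ (Submodule.subset_span ?_)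
        simp
    have hint : IsIntegral A z := IsIntegral.of_mem_of_fg S hFG z ⟨hzM, hz⟩
    have hAw : ∀ a : A, (a : Tinf C p L) ∈ w' := fun a => (hw' a a.2.1).2 a.2.2
    let ι : A →+* w' :=
      { toFun := fun a => ⟨a, hAw a⟩
        map_one' := rfl
        map_mul' := fun _ _ => rfl
        map_zero' := rfl
        map_add' := fun _ _ => rfl }
    have hint' : IsIntegral w' z := by
      have h2 : ((algebraMap w' (Tinf C p L)).comp ι).IsIntegralElem z := hint
      exact h2.of_comp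
    have hI : w'.valuation.Integers w' :=
      { hom_inj := Subtype.val_injective
        map_le_one := fun x => (w'.valuation_le_one_iff _).2 x.2
        exists_of_le_one := fun {r} hr => ⟨⟨r, (w'.valuation_le_one_iff r).1 hr⟩, rfl⟩ }
    exact (w'.valuation_le_one_iff z).1 (hI.mem_of_integral hint')
  intro z
  refine ⟨fun hz => ?_, hincl z⟩
  by_cases hz0 : z = 0
  · rw [hz0]
    exact zero_mem _
  obtain ⟨M, hM, hzM⟩ := (d3 z).1 z.2
  obtain ⟨hLM, -, h0, h1, -⟩ := hG C Ω F U R p g L hpC hpF hg M hM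
  obtain ⟨m, b, hb, hli, hsp⟩ := TwUq.exists_basis R L M hLM h0 h1
  have hMT : M ≤ Tinf C p L := le_sSup hM
  obtain ⟨f, hf⟩ := hsp z hzM
  have hf0 : f ≠ 0 := by
    rintro rfl
    apply hz0
    apply Subtype.ext
    rw [hf]
    simp
  obtain ⟨i₀, hi₀, hv, -⟩ := TwUq.key R L b (fun i => (hb i).2) hli f hf0
  rw [← hf] at hv
  set c : Tinf C p L := ⟨(f i₀ : Ω), hMT (hLM (f i₀).2)⟩ with hc
  have hc0 : (c : Ω) ≠ 0 := by
    intro h
    exact hi₀ (Subtype.ext h)
  have hcz : c / z ∈ w' := by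
    apply hincl
    rw [← R.w.valuation_le_one_iff]
    have h4 : ((c / z : Tinf C p L) : Ω) = (f i₀ : Ω) / (z : Ω) := rfl
    rw [h4, map_div₀, hv]
    exact div_self_le_one _
  have hcw : c ∈ w' := by
    have h5 := mul_mem hcz hz
    rwa [div_mul_cancel₀ _ hz0] at h5
  have hcw' : (c : Ω) ∈ R.w := (hw' c (f i₀).2).1 hcw
  rw [← R.w.valuation_le_one_iff, hv]
  exact (R.w.valuation_le_one_iff _).2 hcw'

end Pool.Agent.Lib.MP_c385f6_ag.TPG
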