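import Pool.Agent.Lib.MP_c385f6_ag.TPG.StCo
import Pool.Agent.Lib.MP_c385f6_ag.TPG.ARRF

/-!
Project TPG, K7: the coordinates of `D + D'`.
-/

set_option autoImplicit false

open Polynomial

namespace Pool.Agent.Lib.MP_c385f6_ag.TPG

universe u v u' v'

namespace CoA

theorem ord_div {F : Type u} {W : Type v} [Field F] [Field W] [Algebra F W] (O : OrdF F W)
    (P : Plc F W) {x y : W} (hx : x ≠ 0) (hy : y ≠ 0) :
    ord P (x / y) = ord P x - ord P y := by
  rw [div_eq_mul_inv, O.mul P x _ hx (inv_ne_zero hy), RRFAux.ord_inv O P hy, sub_eq_add_neg]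

open Classical in
theorem sm_apply {F : Type u} {W : Type v} [Field F] [Field W] [Algebra F W] {g : ℕ}
    (P : Fin g → Plc F W) (Q : Plc F W) : sm P Q = ∑ i, if P i = Q then (1 : ℤ) else 0 := by
  rw [sm, Finsupp.finsetSum_apply]
  refine Finset.sum_congr rfl fun i _ => ?_
  rw [Finsupp.single_apply]

section

variable {C : Type u} {L : Type v} {F : Type u'} {Λ : Type v'} [Field C] [Field L] [Field F]
  [Field Λ] [Algebra C L] [Algebra F Λ] {R : Red C L F Λ} {sp : Plc C L → Plc F Λ} {g : ℕ}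
  {x : Fin g → Plc F Λ} {u : Fin g → L}

theorem sm_off (P : Fin g → Plc C L) (hP : ∀ i, sp (P i) = x i) (Q : Plc C L)
    (hQ : ∀ i, sp Q ≠ x i) : sm P Q = 0 := by
  rw [sm_apply]
  refine Finset.sum_eq_zero fun i _ => if_neg ?_
  rintro rfl
  exact hQ i (hP i)

open Classical in
theorem sm_on (hx : Function.Injective x) (P : Fin g → Plc C L) (hP : ∀ i, sp (P i) = x i)
    (Q : Plc C L) (i : Fin g) (hQ : sp Q = x i) : sm P Q = if P i = Q then (1 : ℤ) else 0 := by
  rw [sm_apply, Finset.sum_eq_single i]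
  · intro j _ hj
    refine if_neg ?_
    rintro rfl
    exact hj (hx ((hP j).symm.trans hQ))
  · intro h
    exact absurd (Finset.mem_univ i) h

end

/-- the residue of `(V - 1) / β` -/
theorem res_V {C : Type u} {L : Type v} {F : Type u'} {Λ : Type v'} [Field C] [Field L] [Field F]
    [Field Λ] [Algebra C L] [Algebra F Λ] (R : Red C L F Λ) {U : L} (hU : R.res U ≠ 0)
    {e e' e'' β : C} (he'' : R.v e'' < 1) (hβ : β ≠ 0)
    (h1 : R.v (e'' - e - e') ≤ R.v β) (h2 : R.v (e * e') < R.v β) :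
    ((U - algebraMap C L e) * (U - algebraMap C L e') / ((U - algebraMap C L e'') * U) - 1) /
      algebraMap C L β ∈ R.w ∧
    R.res (((U - algebraMap C L e) * (U - algebraMap C L e') / ((U - algebraMap C L e'') * U) - 1) /
      algebraMap C L β) = R.res (algebraMap C L ((e'' - e - e') / β)) / R.res U := by
  have hβ' : algebraMap C L β ≠ 0 := (map_ne_zero_iff _ (algebraMap C L).injective).2 hβ
  have hU0 : U ≠ 0 := by
    rintro rfl
    exact hU R.res_zero
  have hUw := Red.mem_of_res_ne hU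
  have hew : algebraMap C L e'' ∈ R.w := (R.w.valuation_le_one_iff _).1 he''.le
  have hU1 : R.res (U - algebraMap C L e'') = R.res U := by
    rw [R.res_sub hUw hew, (R.res_lt _ hew).2 he'', sub_zero]
  have hU2 : R.res (U - algebraMap C L e'') ≠ 0 := by rw [hU1]; exact hU
  have hU3 : U - algebraMap C L e'' ≠ 0 := by
    intro h
    rw [h, R.res_zero] at hU2
    exact hU2 rfl
  have hβv : 0 < R.w.valuation (algebraMap C L β) := (Valuation.pos_iff _).2 hβ'
  have hn1 : algebraMap C L ((e'' - e - e') / β) ∈ R.w := by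
    rw [← R.w.valuation_le_one_iff, map_div₀, map_div₀, div_le_one₀ hβv]
    exact h1
  have hn2 : R.w.valuation (algebraMap C L (e * e' / β)) < 1 := by
    rw [map_div₀, map_div₀, div_lt_one₀ hβv]
    exact h2
  have hn3 : algebraMap C L (e * e' / β) ∈ R.w := (R.w.valuation_le_one_iff _).1 hn2.le
  have key : ((U - algebraMap C L e) * (U - algebraMap C L e') /
      ((U - algebraMap C L e'') * U) - 1) / algebraMap C L β =
      (algebraMap C L ((e'' - e - e') / β) * U + algebraMap C L (e * e' / β)) *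
        ((U - algebraMap C L e'') * U)⁻¹ := by
    simp only [map_div₀, map_sub, map_mul]
    field_simp
    ring
  have hden : R.res ((U - algebraMap C L e'') * U) = R.res U * R.res U := by
    rw [R.res_mul _ (Red.mem_of_res_ne hU2) _ hUw, hU1]
  have hden0 : R.res ((U - algebraMap C L e'') * U) ≠ 0 := by
    rw [hden]
    exact mul_ne_zero hU hU
  have hnum : algebraMap C L ((e'' - e - e') / β) * U + algebraMap C L (e * e' / β) ∈ R.w :=
    add_mem (mul_mem hn1 hUw) hn3
  have hnumr : R.res (algebraMap C L ((e'' - e - e') / β) * U + algebraMap C L (e * e' / β)) =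
      R.res (algebraMap C L ((e'' - e - e') / β)) * R.res U := by
    rw [R.res_add _ (mul_mem hn1 hUw) _ hn3, R.res_mul _ hn1 _ hUw, (R.res_lt _ hn3).2 hn2,
      add_zero]
  rw [key]
  refine ⟨mul_mem hnum (Red.inv_mem hden0), ?_⟩
  rw [R.res_mul _ hnum _ (Red.inv_mem hden0), R.res_inv hden0, hden, hnumr]
  field_simp

end CoA

/-- **K7.** The coordinates of `D + D'`: `e'' = e + e'` up to the size of `e e'`. -/
theorem stCoA (hKey : StKey.{u, v, u', v'}) (hPt : StPt.{u, v, u', v'}) (hOrd : StOrd.{u, v})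
    (hOrd' : StOrd.{u', v'}) (hRR : StRRF.{u, v}) (hRR' : StRRF.{u', v'}) :
    StCoA.{u, v, u', v'} := by
  classical
  intro C L F Λ _ _ _ _ _ _ _ _ R g sp hG hsp x u hF D D' e e' e'' hD hD' hD'' b hb
  have oL := hOrd C L hG.ffC
  have oΛ := hOrd' F Λ hG.ffF
  have rL := hRR C L hG.ffC
  have rΛ := hRR' F Λ hG.ffF
  obtain ⟨-, -, p3, p4, -, -⟩ := hPt C L F Λ R g sp hG hsp x u hF
  obtain ⟨P, Q, f, hP, hQ, hf, h1⟩ := hD
  obtain ⟨P', Q', f', hP', hQ', hf', h1'⟩ := hD'
  obtain ⟨P'', Q'', f'', hP'', hQ'', hf'', h1''⟩ := hD''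
  have hQQ' : Q' = Q := ((p4 0 0 Q' Q hQ' hQ).1 rfl)
  have hQQ'' : Q'' = Q := ((p4 0 0 Q'' Q hQ'' hQ).1 rfl)
  rw [hQQ'] at h1'
  rw [hQQ''] at h1''
  by_contra hcon
  push Not at hcon
  obtain ⟨j, hj⟩ := hcon
  obtain ⟨i₀, -, hmax⟩ := Finset.univ.exists_max_image (fun i => R.v (e'' i - e i - e' i))
    ⟨j, Finset.mem_univ j⟩
  have hi₀ : b < R.v (e'' i₀ - e i₀ - e' i₀) := lt_of_lt_of_le hj (hmax j (Finset.mem_univ j))
  obtain ⟨β, hβ⟩ : ∃ β : C, β = e'' i₀ - e i₀ - e' i₀ := ⟨_, rfl⟩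
  rw [← hβ] at hi₀
  have hβ0 : β ≠ 0 := by
    rintro h0
    rw [h0, map_zero] at hi₀
    exact not_lt_zero hi₀
  have he := fun i => (p3 e P hP i).1
  have he' := fun i => (p3 e' P' hP' i).1
  have he'' := fun i => (p3 e'' P'' hP'' i).1
  have hβ1 : R.v β < 1 := by
    rw [hβ]
    exact Valuation.map_sub_lt _ (Valuation.map_sub_lt _ (he'' i₀) (he i₀)) (he' i₀)
  have hu : ∀ i, R.res (u i) ≠ 0 := fun i => (hF.crd i).2.1
  have huc : ∀ i (c : C), R.v c < 1 → u i - algebraMap C L c ≠ 0 := by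
    intro i c hc h0
    have hcw : algebraMap C L c ∈ R.w := (R.w.valuation_le_one_iff _).1 hc.le
    have h2 : R.res (u i - algebraMap C L c) = R.res (u i) := by
      rw [R.res_sub (Red.mem_of_res_ne (hu i)) hcw, (R.res_lt _ hcw).2 hc, sub_zero]
    rw [h0, R.res_zero] at h2
    exact hu i h2.symm
  have hu0 : ∀ i, u i ≠ 0 := by
    intro i h0
    refine hu i ?_
    rw [h0, R.res_zero]
  have hV := fun i => CoA.res_V R (hu i) (he'' i) hβ0
    (by rw [hβ]; exact hmax i (Finset.mem_univ i)) (lt_of_le_of_lt (hb i) hi₀)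
  -- orders of `u i - c`
  have hcrd : ∀ (c : Fin g → C) (T : Fin g → Plc C L), PtAt sp x u c T → ∀ i p, sp p = x i →
      ord p (u i - algebraMap C L (c i)) = sm T p := by
    intro c T hT i p hp
    rw [CoA.sm_on hF.inj T (fun i => (hT i).1) p i hp]
    by_cases h : T i = p
    · rw [if_pos h, ← h]
      exact (p3 c T hT i).2.1
    · rw [if_neg h]
      exact (p3 c T hT i).2.2 p hp (fun h' => h h'.symm)
  -- orders of `G`
  have hGo : ∀ p, ord p (f * f' / f'') = sm P p + sm P' p - sm P'' p - sm Q p := by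
    intro p
    have a1 := DFunLike.congr_fun h1 p
    have a2 := DFunLike.congr_fun h1' p
    have a3 := DFunLike.congr_fun h1'' p
    simp only [Finsupp.add_apply, Finsupp.sub_apply, rL.dv_apply _ _ hf, rL.dv_apply _ _ hf',
      rL.dv_apply _ _ hf''] at a1 a2 a3
    rw [CoA.ord_div oL p (mul_ne_zero hf hf') hf'', oL.mul p _ _ hf hf']
    linarith
  have hres := hKey C L F Λ R g sp hG hsp x u hF (f * f' / f'')
    (fun i => (u i - algebraMap C L (e i)) * (u i - algebraMap C L (e' i)) /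
      ((u i - algebraMap C L (e'' i)) * u i)) β (div_ne_zero (mul_ne_zero hf hf') hf'') hβ0 hβ1
    (fun p hp => by
      rw [hGo, CoA.sm_off P (fun i => (hP i).1) p hp, CoA.sm_off P' (fun i => (hP' i).1) p hp,
        CoA.sm_off P'' (fun i => (hP'' i).1) p hp, CoA.sm_off Q (fun i => (hQ i).1) p hp]
      ring)
    (fun i => div_ne_zero (mul_ne_zero (huc i _ (he i)) (huc i _ (he' i)))
      (mul_ne_zero (huc i _ (he'' i)) (hu0 i)))
    (fun i p hp => by
      have b1 := hcrd e P hP i p hp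
      have b2 := hcrd e' P' hP' i p hp
      have b3 := hcrd e'' P'' hP'' i p hp
      have b4 := hcrd 0 Q hQ i p hp
      rw [Pi.zero_apply, map_zero, sub_zero] at b4
      rw [hGo, CoA.ord_div oL p (mul_ne_zero (huc i _ (he i)) (huc i _ (he' i)))
        (mul_ne_zero (huc i _ (he'' i)) (hu0 i)),
        oL.mul p _ _ (huc i _ (he i)) (huc i _ (he' i)), oL.mul p _ _ (huc i _ (he'' i)) (hu0 i),
        b1, b2, b3, b4]
      ring)
    (fun i => (hV i).1)
    (fun i => by
      rw [(hV i).2]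
      have hcw : algebraMap C L ((e'' i - e i - e' i) / β) ∈ R.w := by
        have hβv : 0 < R.w.valuation (algebraMap C L β) :=
          (Valuation.pos_iff _).2 ((map_ne_zero_iff _ (algebraMap C L).injective).2 hβ0)
        rw [← R.w.valuation_le_one_iff, map_div₀, map_div₀, div_le_one₀ hβv, hβ]
        exact hmax i (Finset.mem_univ i)
      obtain ⟨a, ha⟩ := R.const _ hcw
      rw [ha]
      by_cases ha0 : a = 0
      · rw [ha0, map_zero, zero_div, RRFAux.ord_zero]
        norm_num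
      · rw [CoA.ord_div oΛ _ ((map_ne_zero_iff _ (algebraMap F Λ).injective).2 ha0) (hu i),
          rΛ.ord_const, (hF.crd i).2.2]
        norm_num) i₀
  have hfin : R.res (((u i₀ - algebraMap C L (e i₀)) * (u i₀ - algebraMap C L (e' i₀)) /
      ((u i₀ - algebraMap C L (e'' i₀)) * u i₀) - 1) / algebraMap C L β) = 1 / R.res (u i₀) := by
    rw [(hV i₀).2, ← hβ, div_self hβ0, map_one, R.res_one]
  change R.res (((u i₀ - algebraMap C L (e i₀)) * (u i₀ - algebraMap C L (e' i₀)) /
      ((u i₀ - algebraMap C L (e'' i₀)) * u i₀) - 1) / algebraMap C L β) ∈ (x i₀).ring at hres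
  rw [hfin, oΛ.mem _ _ (div_ne_zero one_ne_zero (hu i₀)),
    CoA.ord_div oΛ _ one_ne_zero (hu i₀), RRFAux.ord_one oΛ, (hF.crd i₀).2.2] at hres
  omega

end Pool.Agent.Lib.MP_c385f6_ag.TPG
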