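import Pool.Agent.Lib.MP_c385f6_ag.TPG.StCo

/-!
Project TPG, K6: existence and uniqueness of the coordinates.
-/

set_option autoImplicit false

open Polynomial

namespace Pool.Agent.Lib.MP_c385f6_ag.TPG

universe u v u' v'

namespace KCoE

section One

variable {F : Type u} {W : Type v} [Field F] [Field W] [Algebra F W]

theorem dg_add (D E : Dv F W) : dg (D + E) = dg D + dg E :=
  Finsupp.sum_add_index' (fun _ => rfl) (fun _ _ _ => rfl)

theorem dg_neg (D : Dv F W) : dg (-D) = - dg D := by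
  have h := dg_add D (-D)
  rw [add_neg_cancel] at h
  have h0 : dg (0 : Dv F W) = 0 := rfl
  rw [h0] at h
  linarith

theorem dg_sub (D E : Dv F W) : dg (D - E) = dg D - dg E := by
  rw [sub_eq_add_neg, dg_add, dg_neg, sub_eq_add_neg]

theorem dv_one (r : RRF F W) : dv (1 : W) = (0 : Dv F W) := by
  ext P
  rw [r.dv_apply _ _ one_ne_zero]
  have h := r.ord_const 1 P
  rw [map_one] at h
  exact h

theorem dv_const (r : RRF F W) {c : F} (hc : c ≠ 0) : dv (algebraMap F W c) = (0 : Dv F W) := by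
  ext P
  rw [r.dv_apply _ _ (by rwa [Ne, map_eq_zero]), r.ord_const]
  rfl

theorem dv_mul (o : OrdF F W) (r : RRF F W) {f h : W} (hf : f ≠ 0) (hh : h ≠ 0) :
    (dv (f * h) : Dv F W) = dv f + dv h := by
  ext P
  rw [Finsupp.add_apply, r.dv_apply _ _ (mul_ne_zero hf hh), r.dv_apply _ _ hf, r.dv_apply _ _ hh,
    o.mul _ _ _ hf hh]

theorem dv_inv (o : OrdF F W) (r : RRF F W) {f : W} (hf : f ≠ 0) :
    (dv f⁻¹ : Dv F W) = - dv f := by
  have h := dv_mul o r hf (inv_ne_zero hf)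
  rw [mul_inv_cancel₀ hf, dv_one r] at h
  exact (neg_eq_of_add_eq_zero_right h.symm).symm

theorem sm_apply {g : ℕ} (P : Fin g → Plc F W) (Q : Plc F W) :
    sm P Q = ∑ i, (Finsupp.single (P i) (1 : ℤ)) Q := by
  unfold sm
  rw [Finsupp.finsetSum_apply]

theorem sm_nonneg {g : ℕ} (P : Fin g → Plc F W) (Q : Plc F W) : 0 ≤ sm P Q := by
  classical
  rw [sm_apply]
  refine Finset.sum_nonneg fun i _ => ?_
  rw [Finsupp.single_apply]
  split_ifs <;> simp

theorem sm_pos {g : ℕ} (P : Fin g → Plc F W) (i : Fin g) : 0 < sm P (P i) := by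
  classical
  rw [sm_apply]
  refine lt_of_lt_of_le ?_ (Finset.single_le_sum (f := fun j => (Finsupp.single (P j) (1 : ℤ)) (P i))
    (fun j _ => ?_) (Finset.mem_univ i))
  · simp
  · rw [Finsupp.single_apply]
    split_ifs <;> simp

theorem exists_of_sm_pos {g : ℕ} (P : Fin g → Plc F W) {Q : Plc F W} (h : 0 < sm P Q) :
    ∃ j, P j = Q := by
  classical
  by_contra hne
  push Not at hne
  rw [sm_apply, Finset.sum_eq_zero] at h
  · exact lt_irrefl _ h
  · intro j _
    rw [Finsupp.single_apply, if_neg (hne j)]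

/-- if `l(D) ≤ 1`, `D ≥ 0`, then `L(D)` is the space of the constants -/
theorem const_of_mem (r : RRF F W) {D : Dv F W} (h0 : ∀ P, 0 ≤ D P) (h1 : ell D ≤ 1) {f : W}
    (hf : ∀ P, - D P ≤ ord P f) (hf0 : f ≠ 0) : dv f = (0 : Dv F W) := by
  have hfin := r.fin D
  have m1 : (1 : W) ∈ RR D := by
    refine (r.mem D 1).2 fun _ P => ?_
    have h := r.ord_const 1 P
    rw [map_one] at h
    rw [h]
    linarith [h0 P]
  have mf : f ∈ RR D := (r.mem D f).2 fun _ => hf
  have hr : Module.finrank F (RR D) = 1 := by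
    have e1 : (Module.finrank F (RR D) : ℤ) ≤ 1 := h1
    have e2 : 0 < Module.finrank F (RR D) := by
      refine Module.finrank_pos_iff_exists_ne_zero.2 ⟨⟨1, m1⟩, fun h => ?_⟩
      exact one_ne_zero (congrArg Subtype.val h)
    omega
  have hne : (⟨1, m1⟩ : RR D) ≠ 0 := fun h => one_ne_zero (congrArg Subtype.val h)
  obtain ⟨c, hc⟩ := (finrank_eq_one_iff_of_nonzero' ⟨1, m1⟩ hne).1 hr ⟨f, mf⟩
  have hc' : f = algebraMap F W c := by
    have e := congrArg Subtype.val hc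
    change c • (1 : W) = f at e
    rw [← e, Algebra.algebraMap_eq_smul_one]
  rw [hc']
  refine dv_const r ?_
  rintro rfl
  rw [map_zero] at hc'
  exact hf0 hc'

end One

section Two

variable {C : Type u} {L : Type v} {F : Type u'} {Λ : Type v'} [Field C] [Field L]
  [Field F] [Field Λ] [Algebra C L] [Algebra F Λ] {R : Red C L F Λ} {sp : Plc C L → Plc F Λ}

theorem md_nonneg (sp : Plc C L → Plc F Λ) {D : Dv C L} (h : ∀ P, 0 ≤ D P) (x : Plc F Λ) :
    0 ≤ (Finsupp.mapDomain sp D) x := by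
  classical
  rw [Finsupp.mapDomain, Finsupp.sum_apply, Finsupp.sum]
  refine Finset.sum_nonneg fun P _ => ?_
  rw [Finsupp.single_apply]
  split_ifs
  · exact h P
  · exact le_rfl

theorem md_add (sp : Plc C L → Plc F Λ) (D E : Dv C L) :
    Finsupp.mapDomain sp (D + E) = Finsupp.mapDomain sp D + Finsupp.mapDomain sp E :=
  Finsupp.mapDomain_add

theorem md_neg (sp : Plc C L → Plc F Λ) (D : Dv C L) :
    Finsupp.mapDomain sp (-D) = - Finsupp.mapDomain sp D := by
  have h := md_add sp D (-D)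
  rw [add_neg_cancel, Finsupp.mapDomain_zero] at h
  exact (neg_eq_of_add_eq_zero_right h.symm).symm

theorem md_sub (sp : Plc C L → Plc F Λ) (D E : Dv C L) :
    Finsupp.mapDomain sp (D - E) = Finsupp.mapDomain sp D - Finsupp.mapDomain sp E := by
  rw [sub_eq_add_neg, md_add, md_neg, sub_eq_add_neg]

/-- the specialisation of a principal divisor is principal -/
theorem md_dv (hsp : IsSp R sp) (o : OrdF C L) (r : RRF C L)
    (hs : ∀ f : L, f ≠ 0 → ∃ c : C, c ≠ 0 ∧ R.res (algebraMap C L c * f) ≠ 0) {f : L}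
    (hf : f ≠ 0) : ∃ y : Λ, y ≠ 0 ∧ Finsupp.mapDomain sp (dv f : Dv C L) = (dv y : Dv F Λ) := by
  obtain ⟨c, hc, h⟩ := hs f hf
  refine ⟨_, h, ?_⟩
  rw [← hsp _ h, dv_mul o r (by rwa [Ne, map_eq_zero]) hf, dv_const r hc, zero_add]

theorem isJ_add (o' : OrdF F Λ) (r' : RRF F Λ) {D D' : Dv C L} (h : IsJ sp D) (h' : IsJ sp D') :
    IsJ sp (D + D') := by
  obtain ⟨h1, y, hy, h2⟩ := h
  obtain ⟨h1', y', hy', h2'⟩ := h'
  refine ⟨by rw [dg_add, h1, h1', add_zero], y * y', mul_ne_zero hy hy', ?_⟩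
  rw [md_add, h2, h2', dv_mul o' r' hy hy']

theorem isJ_neg (o' : OrdF F Λ) (r' : RRF F Λ) {D : Dv C L} (h : IsJ sp D) : IsJ sp (-D) := by
  obtain ⟨h1, y, hy, h2⟩ := h
  refine ⟨by rw [dg_neg, h1, neg_zero], y⁻¹, inv_ne_zero hy, ?_⟩
  rw [md_neg, h2, dv_inv o' r' hy]

end Two

end KCoE

open KCoE in
/-- K6. Existence and uniqueness of the coordinates. -/
theorem stCoE (hO : StOrd.{u, v}) (hO' : StOrd.{u', v'}) (hR : StRRF.{u, v})
    (hR' : StRRF.{u', v'}) (hON : StON.{u, v, u', v'}) (hLe : StLe.{u, v, u', v'})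
    (hPt : StPt.{u, v, u', v'}) : StCoE.{u, v, u', v'} := by
  intro C L F Λ _ _ _ _ _ _ _ _ R g sp hg hsp x u hF
  have o := hO C L hg.ffC
  have o' := hO' F Λ hg.ffF
  have r := hR C L hg.ffC
  have r' := hR' F Λ hg.ffF
  have hs := (hON C L F Λ R g hg).2.2
  have hle := hLe C L F Λ R g sp hg hsp
  obtain ⟨p1, p2, p3, p4, p5, p6⟩ := hPt C L F Λ R g sp hg hsp x u hF
  have hdv : ∀ f : L, f ≠ 0 → IsJ sp (dv f : Dv C L) := fun f hf =>
    ⟨r.dg_dv f hf, md_dv hsp o r hs hf⟩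
  have hsm : ∀ e e' P Q, PtAt sp x u e P → PtAt sp x u e' Q → IsJ sp (sm P - sm Q) := by
    intro e e' P Q hP hQ
    obtain ⟨a1, a2⟩ := p6 P fun i => (hP i).1
    obtain ⟨b1, b2⟩ := p6 Q fun i => (hQ i).1
    refine ⟨by rw [dg_sub, a2, b2, sub_self], 1, one_ne_zero, ?_⟩
    rw [md_sub, a1, b1, sub_self, dv_one r']
  refine ⟨?_, ?_, ?_, ?_, ?_, ?_, ?_⟩
  · rintro D ⟨hD, y, hy, hDy⟩
    obtain ⟨Q, hQ⟩ := p1 0 fun i => by
      change R.v 0 < 1
      rw [map_zero]
      exact zero_lt_one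
    obtain ⟨q1, q2⟩ := p6 Q fun i => (hQ i).1
    have h1 : 0 < ell (D + sm Q) := by
      have h := hg.genC.1 (D + sm Q)
      rw [dg_add, hD, q2] at h
      omega
    obtain ⟨f, hf, hE⟩ := r.eff _ h1
    obtain ⟨c, hc, hres⟩ := hs f hf
    have hc' : algebraMap C L c ≠ 0 := by rwa [Ne, map_eq_zero]
    have hdvf : (dv (algebraMap C L c * f) : Dv C L) = dv f := by
      rw [dv_mul o r hc' hf, dv_const r hc, zero_add]
    have hmd : Finsupp.mapDomain sp (dv f + (D + sm Q)) =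
        (dv (R.res (algebraMap C L c * f) * y) : Dv F Λ) + sm x := by
      rw [md_add, md_add, ← hdvf, hsp _ hres, hDy, q1, dv_mul o' r' hres hy, add_assoc]
    have hzero : (dv (R.res (algebraMap C L c * f) * y) : Dv F Λ) = 0 := by
      refine const_of_mem r' (sm_nonneg x) hF.one.le (fun P => ?_) (mul_ne_zero hres hy)
      have h := md_nonneg sp (D := dv f + (D + sm Q)) (fun P => hE P) P
      rw [hmd, Finsupp.add_apply, r'.dv_apply _ _ (mul_ne_zero hres hy)] at h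
      linarith
    rw [hzero, zero_add] at hmd
    obtain ⟨P, hP, hEP⟩ := p5 _ hE hmd
    obtain ⟨e, he⟩ := p2 P hP
    refine ⟨e, P, Q, f, he, hQ, hf, ?_⟩
    rw [← hEP]
    abel
  · rintro D e ⟨P, Q, f, hP, hQ, hf, h⟩
    have e1 : D = sm P - sm Q + -(dv f : Dv C L) := by
      rw [← h]
      abel
    rw [e1]
    exact isJ_add o' r' (hsm _ _ P Q hP hQ) (isJ_neg o' r' (hdv f hf))
  · rintro D e e' ⟨P, Q, f, hP, hQ, hf, h⟩ ⟨P', Q', f', hP', hQ', hf', h'⟩
    have hQQ : Q = Q' := (p4 0 0 Q Q' hQ hQ').1 rfl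
    subst hQQ
    have h1 : (dv (f * f'⁻¹) : Dv C L) = sm P - sm P' := by
      rw [dv_mul o r hf (inv_ne_zero hf'), dv_inv o r hf']
      have e1 : (dv f : Dv C L) = sm P - sm Q - D := by
        rw [← h]
        abel
      have e2 : (dv f' : Dv C L) = sm P' - sm Q - D := by
        rw [← h']
        abel
      rw [e1, e2]
      abel
    have hne : f * f'⁻¹ ≠ 0 := mul_ne_zero hf (inv_ne_zero hf')
    have h2 : ell (sm P') ≤ 1 := by
      have h3 := (hle (sm P')).2.1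
      rw [(p6 P' fun i => (hP' i).1).1, hF.one] at h3
      exact h3
    have h3 : (dv (f * f'⁻¹) : Dv C L) = 0 := by
      refine const_of_mem r (sm_nonneg P') h2 (fun Z => ?_) hne
      rw [← r.dv_apply _ _ hne, h1, Finsupp.sub_apply]
      linarith [sm_nonneg P Z]
    rw [h3] at h1
    have h4 : sm P = sm P' := (sub_eq_zero.1 h1.symm)
    refine (p4 e e' P P' hP hP').2 (funext fun i => ?_)
    have h5 := sm_pos P i
    rw [h4] at h5
    obtain ⟨j, hj⟩ := exists_of_sm_pos P' h5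
    have h6 : x j = x i := by
      rw [← (hP' j).1, hj, (hP i).1]
    rw [← hj, hF.inj h6]
  · intro D D' h h'
    refine ⟨isJ_add o' r' h h', ?_⟩
    rw [sub_eq_add_neg]
    exact isJ_add o' r' h (isJ_neg o' r' h')
  · intro D f hf h
    exact isJ_add o' r' h (hdv f hf)
  · intro e P Q hP hQ
    refine ⟨P, Q, 1, hP, hQ, one_ne_zero, ?_⟩
    rw [dv_one r, add_zero]
  · rintro D ⟨P, Q, f, hP, hQ, hf, h⟩
    have hPQ : P = Q := (p4 0 0 P Q hP hQ).1 rfl
    rw [hPQ, sub_self] at h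
    refine ⟨f⁻¹, inv_ne_zero hf, ?_⟩
    rw [dv_inv o r hf]
    exact eq_neg_of_add_eq_zero_left h

end Pool.Agent.Lib.MP_c385f6_ag.TPG
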