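import Pool.Agent.Lib.MP_c385f6_ag.TPG.StCo

/-!
Project TPG, module K8: the coordinates of multiples and of differences.
-/

set_option autoImplicit false

namespace Pool.Agent.Lib.MP_c385f6_ag.TPG

universe u v u' v'

namespace KCoN

variable {C : Type u} {L : Type v} {F : Type u'} {Λ : Type v'} [Field C] [Field L] [Field F]
  [Field Λ] [Algebra C L] [Algebra F Λ] (R : Red C L F Λ)

theorem v_natCast (n : ℕ) : R.v (n : C) ≤ 1 := by
  change R.w.valuation (algebraMap C L (n : C)) ≤ 1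
  rw [map_natCast, R.w.valuation_le_one_iff]
  exact natCast_mem _ n

/-- additivity of the coordinates -/
def Add (sp : Plc C L → Plc F Λ) {g : ℕ} (x : Fin g → Plc F Λ) (u : Fin g → L) : Prop :=
  ∀ (D D' : Dv C L) (e e' e'' : Fin g → C), IsCo sp x u D e → IsCo sp x u D' e' →
    IsCo sp x u (D + D') e'' →
    ∀ b : R.w.ValueGroup, (∀ i, R.v (e i * e' i) ≤ b) → ∀ i, R.v (e'' i - e i - e' i) ≤ b

variable {R}

theorem mul_n {sp : Plc C L → Plc F Λ} {g : ℕ} {x : Fin g → Plc F Λ} {u : Fin g → L}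
    (hA : Add R sp x u) (hJ : ∀ D, IsJ sp D → ∃ e, IsCo sp x u D e)
    (hJ' : ∀ D e, IsCo sp x u D e → IsJ sp D)
    (hun : ∀ D e e', IsCo sp x u D e → IsCo sp x u D e' → e = e')
    (hadd : ∀ D D', IsJ sp D → IsJ sp D' → IsJ sp (D + D'))
    (h0 : IsCo sp x u (0 : Dv C L) 0) (D : Dv C L) (e : Fin g → C) (he : IsCo sp x u D e)
    (b : R.w.ValueGroup) (hb1 : b < 1) (hb : ∀ i, R.v (e i) ≤ b) (n : ℕ) :
    IsJ sp (n • D) ∧ ∀ e' : Fin g → C, IsCo sp x u (n • D) e' →
      ∀ i, R.v (e' i - n * e i) ≤ b * b := by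
  induction n with
  | zero =>
    rw [zero_smul]
    refine ⟨hJ' _ _ h0, fun e' he' i => ?_⟩
    rw [hun _ _ _ he' h0, Pi.zero_apply, Nat.cast_zero, zero_mul, sub_zero, map_zero]
    exact zero_le
  | succ n ih =>
    obtain ⟨ih1, ih2⟩ := ih
    rw [succ_nsmul]
    refine ⟨hadd _ _ ih1 (hJ' _ _ he), fun e' he' i => ?_⟩
    obtain ⟨f, hf⟩ := hJ _ ih1
    have hbb : b * b ≤ b := by
      calc b * b ≤ b * 1 := mul_le_mul_right hb1.le b
        _ = b := mul_one b
    have hf1 : ∀ i, R.v (f i) ≤ b := by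
      intro i
      have e1 : f i = (f i - n * e i) + n * e i := by ring
      rw [e1]
      refine (Valuation.map_add _ _ _).trans (max_le ((ih2 f hf i).trans hbb) ?_)
      rw [map_mul]
      calc R.v (n : C) * R.v (e i) ≤ 1 * b := mul_le_mul' (v_natCast R n) (hb i)
        _ = b := one_mul b
    have h1 := hA _ _ _ _ _ hf he he' (b * b) (fun i => by
      rw [map_mul]
      exact mul_le_mul' (hf1 i) (hb i)) i
    have e2 : e' i - ((n + 1 : ℕ) : C) * e i = (e' i - f i - e i) + (f i - n * e i) := by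
      push_cast
      ring
    rw [e2]
    exact (Valuation.map_add _ _ _).trans (max_le h1 (ih2 f hf i))

end KCoN

open KCoN

theorem stCoN (h1 : StPt.{u, v, u', v'}) (h2 : StCoE.{u, v, u', v'})
    (h3 : StCoA.{u, v, u', v'}) : StCoN.{u, v, u', v'} := by
  intro C L F Λ _ _ _ _ _ _ _ _ R g sp hg hsp x u hF
  obtain ⟨hJ, hJ', hun, hadd, -, hE, -⟩ := h2 C L F Λ R g sp hg hsp x u hF
  obtain ⟨hP1, -, hP3, -, -, -⟩ := h1 C L F Λ R g sp hg hsp x u hF
  have hA : Add R sp x u := h3 C L F Λ R g sp hg hsp x u hF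
  have hlt : ∀ (D : Dv C L) (e : Fin g → C), IsCo sp x u D e → ∀ i, R.v (e i) < 1 := by
    rintro D e ⟨P, Q, f, hP, -⟩ i
    exact (hP3 e P hP i).1
  have h0 : IsCo sp x u (0 : Dv C L) 0 := by
    obtain ⟨Q, hQ⟩ := hP1 0 (fun i => by rw [Pi.zero_apply, map_zero]; exact zero_lt_one)
    have h := hE 0 Q Q hQ hQ
    rwa [sub_self] at h
  have hmul := fun D e he b hb1 hb n =>
    mul_n hA hJ hJ' hun (fun D D' h h' => (hadd D D' h h').1) h0 D e he b hb1 hb n
  refine ⟨?_, ?_, ?_⟩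
  · intro n D e e' he he' b hb1 hb i
    exact (hmul D e he b hb1 hb n).2 e' he' i
  · intro n D D' e e' e'' he he' he'' heq b hb1 hb
    obtain ⟨hJn, hn⟩ := hmul D' e' he' b hb1 hb n
    obtain ⟨f, hf⟩ := hJ _ hJn
    have hbb : b * b ≤ b := by
      calc b * b ≤ b * 1 := mul_le_mul_right hb1.le b
        _ = b := mul_one b
    have hf0 : ∀ i, R.v (e i - f i) ≤ b * b := by
      intro i
      rw [heq, Valuation.map_sub_swap]
      exact hn f hf i
    have hf1 : ∀ i, R.v (f i) ≤ b := by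
      intro i
      have e1 : f i = (f i - n * e' i) + n * e' i := by ring
      rw [e1]
      refine (Valuation.map_add _ _ _).trans (max_le ((hn f hf i).trans hbb) ?_)
      rw [map_mul]
      calc R.v (n : C) * R.v (e' i) ≤ 1 * b := mul_le_mul' (v_natCast R n) (hb i)
        _ = b := one_mul b
    by_contra hcon
    push Not at hcon
    obtain ⟨i₁, hi₁⟩ := hcon
    have : Nonempty (Fin g) := ⟨i₁⟩
    obtain ⟨i₀, hi₀⟩ := Finite.exists_max (fun i => R.v (e'' i))
    have hm : b * b < R.v (e'' i₀) := hi₁.trans_le (hi₀ i₁)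
    have hm0 : 0 < R.v (e'' i₀) := zero_le.trans_lt hm
    have he1 : IsCo sp x u ((D - n • D') + n • D') e := by rwa [sub_add_cancel]
    have h5 := hA _ _ _ _ _ he'' hf he1 (R.v (e'' i₀) * b) (fun i => by
      rw [map_mul]
      exact mul_le_mul' (hi₀ i) (hf1 i)) i₀
    have e2 : e'' i₀ = (e i₀ - f i₀) - (e i₀ - e'' i₀ - f i₀) := by ring
    have h6 : R.v (e'' i₀) ≤ max (b * b) (R.v (e'' i₀) * b) := by
      conv_lhs => rw [e2]
      exact (Valuation.map_sub _ _ _).trans (max_le_max (hf0 i₀) h5)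
    rcases le_max_iff.1 h6 with h | h
    · exact absurd h (not_le.2 hm)
    · have h7 : R.v (e'' i₀) * b < R.v (e'' i₀) * 1 := mul_lt_mul_of_pos_left hb1 hm0
      rw [mul_one] at h7
      exact absurd h (not_le.2 h7)
  · intro D D' e e' e'' he he' he'' b
    have he1 : IsCo sp x u (D' + (D - D')) e := by rwa [add_sub_cancel]
    constructor
    · intro hb
      by_contra hcon
      push Not at hcon
      obtain ⟨i₁, hi₁⟩ := hcon
      have : Nonempty (Fin g) := ⟨i₁⟩
      obtain ⟨i₀, hi₀⟩ := Finite.exists_max (fun i => R.v (e'' i))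
      obtain ⟨j₀, hj₀⟩ := Finite.exists_max (fun i => R.v (e' i))
      have hc : R.v (e' j₀) < 1 := hlt D' e' he' j₀
      have hm : b < R.v (e'' i₀) := hi₁.trans_le (hi₀ i₁)
      have hm0 : 0 < R.v (e'' i₀) := zero_le.trans_lt hm
      have h5 := hA _ _ _ _ _ he' he'' he1 (R.v (e' j₀) * R.v (e'' i₀)) (fun i => by
        rw [map_mul]
        exact mul_le_mul' (hj₀ i) (hi₀ i)) i₀
      have e2 : e'' i₀ = (e i₀ - e' i₀) - (e i₀ - e' i₀ - e'' i₀) := by ring
      have h6 : R.v (e'' i₀) ≤ max b (R.v (e' j₀) * R.v (e'' i₀)) := by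
        conv_lhs => rw [e2]
        exact (Valuation.map_sub _ _ _).trans (max_le_max (hb i₀) h5)
      rcases le_max_iff.1 h6 with h | h
      · exact absurd h (not_le.2 hm)
      · have h7 : R.v (e' j₀) * R.v (e'' i₀) < 1 * R.v (e'' i₀) :=
          mul_lt_mul_of_pos_right hc hm0
        rw [one_mul] at h7
        exact absurd h (not_le.2 h7)
    · intro hb i
      have h5 := hA _ _ _ _ _ he' he'' he1 b (fun i => by
        rw [map_mul]
        calc R.v (e' i) * R.v (e'' i) ≤ 1 * b := mul_le_mul' (hlt D' e' he' i).le (hb i)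
          _ = b := one_mul b) i
      have e2 : e i - e' i = (e i - e' i - e'' i) + e'' i := by ring
      rw [e2]
      exact (Valuation.map_add _ _ _).trans (max_le h5 (hb i))

end Pool.Agent.Lib.MP_c385f6_ag.TPG
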