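import Pool.Agent.Lib.MP_c385f6_ag.TPG.StCo

/-!
Project TPG, K10: automorphisms and coordinates.
-/

set_option autoImplicit false

open Polynomial

namespace Pool.Agent.Lib.MP_c385f6_ag.TPG

universe u v u' v'

namespace KCoS

theorem val_le_iff {K : Type*} [Field K] (A : ValuationSubring K) (a b : K) :
    A.valuation a ≤ A.valuation b ↔ (b = 0 → a = 0) ∧ a / b ∈ A := by
  by_cases hb : b = 0
  · subst hb
    rw [map_zero, le_zero_iff, map_eq_zero, div_zero]
    exact ⟨fun h => ⟨fun _ => h, zero_mem _⟩, fun h => h.1 rfl⟩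
  · rw [← A.valuation_le_one_iff, map_div₀,
      div_le_one₀ (zero_lt_iff.2 ((Valuation.ne_zero_iff _).2 hb))]
    exact ⟨fun h => ⟨fun h0 => absurd h0 hb, h⟩, fun h => h.2⟩

section

variable {C : Type u} {L : Type v} [Field C] [Field L] [Algebra C L]

theorem mv_le {s : L ≃+* L} {P Q : Plc C L} (h : Mv s P Q) (a b : L) :
    P.ring.valuation a ≤ P.ring.valuation b ↔ Q.ring.valuation (s a) ≤ Q.ring.valuation (s b) := by
  rw [val_le_iff, val_le_iff, ← map_div₀, ← h, map_eq_zero_iff s s.injective,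
    map_eq_zero_iff s s.injective]

open Classical in
theorem choose_congr {p q : ℤ → Prop} (h : p = q) :
    (if h : ∃ n, p n then h.choose else (0 : ℤ)) = if h : ∃ n, q n then h.choose else 0 := by
  subst h
  rfl

/-- `ord` is compatible with automorphisms -/
theorem mv_ord {s : L ≃+* L} {P Q : Plc C L} (h : Mv s P Q) (x : L) :
    ord Q (s x) = ord P x := by
  have hle := mv_le h
  have heq : ∀ a b : L, P.ring.valuation a = P.ring.valuation b ↔
      Q.ring.valuation (s a) = Q.ring.valuation (s b) := fun a b => by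
    rw [le_antisymm_iff, le_antisymm_iff, hle, hle]
  have hlt : ∀ a : L, P.ring.valuation a < 1 ↔ Q.ring.valuation (s a) < 1 := fun a => by
    rw [← not_le, ← not_le, not_iff_not]
    have h1 := hle 1 a
    rwa [map_one, map_one, map_one] at h1
  have key : ∀ n : ℤ, (∃ u : L, u ≠ 0 ∧ Q.ring.valuation u < 1 ∧
      (∀ y : L, Q.ring.valuation y < 1 → Q.ring.valuation y ≤ Q.ring.valuation u) ∧
      Q.ring.valuation (s x) = Q.ring.valuation u ^ n) ↔
      (∃ u : L, u ≠ 0 ∧ P.ring.valuation u < 1 ∧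
      (∀ y : L, P.ring.valuation y < 1 → P.ring.valuation y ≤ P.ring.valuation u) ∧
      P.ring.valuation x = P.ring.valuation u ^ n) := by
    intro n
    constructor
    · rintro ⟨u, hu0, hu1, hu2, hu3⟩
      obtain ⟨u, rfl⟩ := s.surjective u
      refine ⟨u, fun h0 => hu0 (by rw [h0, map_zero]), (hlt u).2 hu1, fun y hy => ?_, ?_⟩
      · exact (hle y u).2 (hu2 _ ((hlt y).1 hy))
      · rw [← map_zpow₀] at hu3 ⊢
        rw [← map_zpow₀] at hu3
        exact (heq _ _).2 hu3
    · rintro ⟨u, hu0, hu1, hu2, hu3⟩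
      refine ⟨s u, fun h0 => hu0 ((map_eq_zero_iff s s.injective).1 h0), (hlt u).1 hu1,
        fun y hy => ?_, ?_⟩
      · obtain ⟨y, rfl⟩ := s.surjective y
        exact (hle y u).1 (hu2 _ ((hlt y).2 hy))
      · rw [← map_zpow₀] at hu3 ⊢
        rw [← map_zpow₀]
        exact (heq _ _).1 hu3
  exact choose_congr (funext fun n => propext (key n))

/-- the image of a place -/
def img (s : L ≃+* L) (hs : ∀ c : C, ∃ c' : C, s.symm (algebraMap C L c) = algebraMap C L c')
    (P : Plc C L) : Plc C L where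
  ring := P.ring.comap s.symm.toRingHom
  ne_top := by
    intro h
    apply P.ne_top
    rw [eq_top_iff]
    intro z _
    have h1 : s z ∈ P.ring.comap s.symm.toRingHom := by
      rw [h]
      exact ValuationSubring.mem_top _
    have h2 : s.symm (s z) ∈ P.ring := h1
    rwa [s.symm_apply_apply] at h2
  const_mem := by
    intro c
    obtain ⟨c', hc'⟩ := hs c
    show s.symm (algebraMap C L c) ∈ P.ring
    rw [hc']
    exact P.const_mem c'

theorem mv_img (s : L ≃+* L)
    (hs : ∀ c : C, ∃ c' : C, s.symm (algebraMap C L c) = algebraMap C L c')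
    (P : Plc C L) : Mv s P (img s hs P) := by
  intro z
  show z ∈ P.ring ↔ s.symm (s z) ∈ P.ring
  rw [s.symm_apply_apply]

theorem mv_right {s : L ≃+* L} {P Q Q' : Plc C L} (h : Mv s P Q) (h' : Mv s P Q') : Q = Q' := by
  apply Plc.ext
  ext z
  obtain ⟨z, rfl⟩ := s.surjective z
  rw [← h, ← h']

theorem mv_left {s : L ≃+* L} {P P' Q : Plc C L} (h : Mv s P Q) (h' : Mv s P' Q) : P = P' := by
  apply Plc.ext
  ext z
  rw [h, h']

theorem img_injective (s : L ≃+* L)
    (hs : ∀ c : C, ∃ c' : C, s.symm (algebraMap C L c) = algebraMap C L c') :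
    Function.Injective (img (C := C) s hs) := by
  intro P P' h
  have h1 := mv_img s hs P'
  rw [← h] at h1
  exact mv_left (mv_img s hs P) h1

theorem img_surjective (s : L ≃+* L)
    (hs' : ∀ c : C, ∃ c' : C, s (algebraMap C L c) = algebraMap C L c')
    (hs : ∀ c : C, ∃ c' : C, s.symm (algebraMap C L c) = algebraMap C L c') :
    Function.Surjective (img (C := C) s hs) := by
  intro Q
  refine ⟨img s.symm hs' Q, mv_right (mv_img s hs _) fun z => ?_⟩
  exact Iff.rfl

end

section

variable {C : Type u} {L : Type v} {F : Type u'} {Λ : Type v'} [Field C] [Field L]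
  [Field F] [Field Λ] [Algebra C L] [Algebra F Λ]

/-- the automorphism of the residue field -/
theorem exists_res (R : Red C L F Λ) (s : L ≃+* L) (h1 : ∀ f : L, f ∈ R.w → s f ∈ R.w)
    (h2 : ∀ f : L, f ∈ R.w → s.symm f ∈ R.w) :
    ∃ s' : Λ ≃+* Λ, ∀ f : L, R.res (s f) = s' (R.res f) := by
  let sw : R.w →+* R.w :=
    { toFun := fun x => ⟨s x, h1 x x.2⟩
      map_one' := Subtype.ext (map_one s)
      map_mul' := fun x y => Subtype.ext (map_mul s (x : L) y)
      map_zero' := Subtype.ext (map_zero s)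
      map_add' := fun x y => Subtype.ext (map_add s (x : L) y) }
  have hsurj : Function.Surjective R.hom := by
    intro y
    obtain ⟨x, hx, hxy⟩ := R.res_surj y
    exact ⟨⟨x, hx⟩, hxy⟩
  have hker : RingHom.ker R.hom ≤ RingHom.ker (R.hom.comp sw) := by
    intro x hx
    rw [RingHom.mem_ker] at hx ⊢
    have hx' : R.res x = 0 := hx
    show R.res (s x) = 0
    by_contra hne
    have hx0 : (x : L) ≠ 0 := by
      intro h0
      rw [h0, map_zero] at hne
      exact hne R.res_zero
    have h3 : s.symm (s x)⁻¹ ∈ R.w := h2 _ (Red.inv_mem hne)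
    rw [map_inv₀, s.symm_apply_apply] at h3
    have h4 := R.res_mul x x.2 _ h3
    rw [mul_inv_cancel₀ hx0, R.res_one, hx', zero_mul] at h4
    exact one_ne_zero h4
  let g : Λ →+* Λ := RingHom.liftOfSurjective R.hom hsurj ⟨R.hom.comp sw, hker⟩
  have hg : ∀ x : R.w, g (R.hom x) = R.hom (sw x) := fun x =>
    RingHom.liftOfRightInverse_comp_apply R.hom _ _ ⟨R.hom.comp sw, hker⟩ x
  have hg' : ∀ f : L, R.res (s f) = g (R.res f) := by
    intro f
    by_cases hf : f ∈ R.w
    · exact (hg ⟨f, hf⟩).symm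
    · rw [R.res_out f hf, map_zero, R.res_out]
      intro h3
      have h4 := h2 _ h3
      rw [s.symm_apply_apply] at h4
      exact hf h4
  have hbij : Function.Bijective g := by
    refine ⟨g.injective, fun y => ?_⟩
    obtain ⟨x, hx, rfl⟩ := R.res_surj y
    refine ⟨R.res (s.symm x), ?_⟩
    rw [← hg', s.apply_symm_apply]
  exact ⟨RingEquiv.ofBijective g hbij, hg'⟩

end

end KCoS

open KCoS

theorem stCoS (hR : StRRF.{u, v}) (hE : StEqv.{u, v, u', v'}) (hPt : StPt.{u, v, u', v'})
    (hCo : StCoE.{u, v, u', v'}) : StCoS.{u, v, u', v'} := by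
  intro C L F Λ _ _ _ _ _ _ _ _ R g sp hg hsp x u hfrm s hsC hsC' hw hw' hu hQ
  have r1 := hR C L hg.ffC
  obtain ⟨s', hs'⟩ := exists_res R s hw hw'
  have hEq := hE C L F Λ R g sp s s' hg hsp hsC hsC' hs'
  obtain ⟨p1, -, p3, -, -, -⟩ := hPt C L F Λ R g sp hg hsp x u hfrm
  obtain ⟨-, -, c3, -, -, -, -⟩ := hCo C L F Λ R g sp hg hsp x u hfrm
  obtain ⟨Q0, hQ0⟩ := p1 0 fun i => by
    rw [Pi.zero_apply, map_zero]
    exact zero_lt_one
  have hx : ∀ i, Mv s' (x i) (x i) := by
    intro i
    have h1 := hEq _ _ (hQ Q0 hQ0 i)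
    rwa [(hQ0 i).1] at h1
  set σ : Plc C L → Plc C L := img s hsC' with hσ
  have hmv : ∀ P, Mv s P (σ P) := mv_img s hsC'
  have hspσ : ∀ i P, sp P = x i → sp (σ P) = x i := by
    intro i P hP
    have h1 := hEq _ _ (hmv P)
    rw [hP] at h1
    exact (mv_right (C := F) (L := Λ) h1 (hx i))
  have hfix : ∀ P, Mv s P P → σ P = P := fun P hP => mv_right (hmv P) hP
  constructor
  · rintro D e ⟨P, Q, f, hP, hQ', hf0, hD⟩ hDs
    choose e' he' using fun i => hsC (e i)
    have hmapdv : Finsupp.mapDomain σ (dv f : Dv C L) = dv (s f) := by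
      ext Z
      obtain ⟨Z, rfl⟩ := img_surjective s hsC hsC' Z
      have hsf : s f ≠ 0 := fun h0 => hf0 ((map_eq_zero_iff s s.injective).1 h0)
      rw [hσ, Finsupp.mapDomain_apply (img_injective s hsC'), r1.dv_apply _ _ hf0,
        r1.dv_apply _ _ hsf, mv_ord (mv_img s hsC' Z)]
    have hmapD : Finsupp.mapDomain σ D = D := by
      have h1 : Finsupp.mapDomain σ D = Finsupp.mapDomain id D :=
        Finsupp.mapDomain_congr fun Z hZ => hfix Z (hDs Z hZ)
      rw [h1, Finsupp.mapDomain_id]
    have hsm : ∀ P : Fin g → Plc C L, Finsupp.mapDomain σ (sm P) = sm (fun i => σ (P i)) := by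
      intro P
      unfold sm
      rw [Finsupp.mapDomain_finsetSum]
      exact Finset.sum_congr rfl fun i _ => Finsupp.mapDomain_single
    have hsmQ : Finsupp.mapDomain σ (sm Q) = sm Q := by
      rw [hsm]
      congr 1
      funext i
      exact hfix _ (hQ Q hQ' i)
    have hnew : IsCo sp x u D e' := by
      refine ⟨fun i => σ (P i), Q, s f, fun i => ⟨hspσ i _ (hP i).1, ?_⟩, hQ', ?_, ?_⟩
      · have h1 : u i - algebraMap C L (e' i) = s (u i - algebraMap C L (e i)) := by
          rw [map_sub, hu, he']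
        rw [h1, mv_ord (hmv (P i))]
        exact (hP i).2
      · exact fun h0 => hf0 ((map_eq_zero_iff s s.injective).1 h0)
      · have h1 := congrArg (Finsupp.mapDomain.addMonoidHom (M := ℤ) σ) hD
        rw [map_add, map_sub] at h1
        have h2 : Finsupp.mapDomain σ D + Finsupp.mapDomain σ (dv f) =
          Finsupp.mapDomain σ (sm P) - Finsupp.mapDomain σ (sm Q) := h1
        rw [hmapdv, hmapD, hsm, hsmQ] at h2
        exact h2
    have hee := c3 D e e' ⟨P, Q, f, hP, hQ', hf0, hD⟩ hnew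
    intro i
    rw [he', hee]
  · intro e P hP he i
    have h1 : ord (σ (P i)) (u i - algebraMap C L (e i)) =
        ord (P i) (u i - algebraMap C L (e i)) := by
      have h2 : u i - algebraMap C L (e i) = s (u i - algebraMap C L (e i)) := by
        rw [map_sub, hu, he]
      conv_lhs => rw [h2]
      exact mv_ord (hmv (P i)) _
    have h2 : σ (P i) = P i := by
      by_contra hne
      have h3 := (p3 e P hP i).2.2 (σ (P i)) (hspσ i _ (hP i).1) hne
      rw [h1] at h3
      have h4 := (hP i).2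
      omega
    have h3 := hmv (P i)
    rwa [h2] at h3

end Pool.Agent.Lib.MP_c385f6_ag.TPG
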