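import Pool.Agent.Lib.MP_c385f6_ag.TPG.StCo

/-!
Project TPG, module K11: division by `n` on the kernel of the reduction of divisor classes.
Newton iteration: `A_0 = D`, `A_{j+1} = A_j - n B_j` where the coordinates of `B_j` are `1 / n` times
the coordinates of `A_j`.
-/

set_option autoImplicit false

open Polynomial

namespace Pool.Agent.Lib.MP_c385f6_ag.TPG

universe u v u' v'

namespace KDivN

section Val

variable {C : Type u} {L : Type v} {F : Type u'} {Λ : Type v'} [Field C] [Field L] [Field F]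
  [Field Λ] [Algebra C L] [Algebra F Λ]

theorem res_nat (R : Red C L F Λ) (n : ℕ) : R.res (n : L) = (n : Λ) := by
  have h := map_natCast R.hom n
  have h2 : R.hom (n : R.w) = R.res (n : L) := by
    change R.res (((n : R.w) : L)) = _
    norm_cast
  rw [← h2, h]

theorem v_nat (R : Red C L F Λ) {n : ℕ} (hn : (n : F) ≠ 0) : R.v (n : C) = 1 := by
  have h1 : R.res (n : L) ≠ 0 := by
    rw [res_nat]
    have h2 : algebraMap F Λ (n : F) = (n : Λ) := map_natCast _ n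
    rw [← h2]
    intro h3
    exact hn ((map_eq_zero (algebraMap F Λ)).1 h3)
  have h2 := Red.val_eq_one h1
  change R.w.valuation (algebraMap C L (n : C)) = 1
  rw [map_natCast]
  exact h2

end Val

end KDivN

open KDivN in
theorem stDivN (hE : StCoE.{u, v, u', v'}) (hN : StCoN.{u, v, u', v'})
    (hPt : StPt.{u, v, u', v'}) : StDivN.{u, v, u', v'} := by
  intro C L F Λ _ _ _ _ _ _ _ _ R g sp hG hsp x w hx k₂ Inv hk hI hP n D hn hD hDJ
  obtain ⟨E1, E2, E3, E4, E5, E6, E7⟩ := hE C L F Λ R g sp hG hsp x w hx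
  obtain ⟨N1, N2, N3⟩ := hN C L F Λ R g sp hG hsp x w hx
  obtain ⟨P1, P2, P3, P4, P5, P6⟩ := hPt C L F Λ R g sp hG hsp x w hx
  obtain ⟨π, hπ, hπ0, hπ1, hπd, hπr, hπc⟩ := hk
  have hvn : R.v (n : C) = 1 := v_nat R hn
  have hnC : (n : C) ≠ 0 := by
    intro h
    rw [h, map_zero] at hvn
    exact zero_ne_one hvn
  -- the base point
  obtain ⟨Q, hQ⟩ := P1 0 (fun i => by
    change R.v (0 : C) < 1
    rw [map_zero]
    exact zero_lt_one)
  -- coordinates have value `< 1`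
  have hlt : ∀ (A : Dv C L) (e : Fin g → C), IsCo sp x w A e → ∀ i, R.v (e i) < 1 := by
    rintro A e ⟨P, Q', f, hP', -, -, -⟩ i
    exact (P3 e P hP' i).1
  have hpow : ∀ j : ℕ, R.v π ^ (j + 1) ≤ R.v π ^ j := fun j =>
    pow_le_pow_right_of_le_one' hπ1.le (Nat.le_succ j)
  have hpow1 : ∀ j : ℕ, R.v π ^ (j + 1) < 1 := fun j => by
    calc R.v π ^ (j + 1) ≤ R.v π ^ 1 := pow_le_pow_right_of_le_one' hπ1.le (by omega)
      _ = R.v π := pow_one _
      _ < 1 := hπ1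
  have hsq : ∀ j : ℕ, R.v π ^ (j + 1) * R.v π ^ (j + 1) ≤ R.v π ^ (j + 1 + 1) := fun j => by
    rw [← pow_add]
    exact pow_le_pow_right_of_le_one' hπ1.le (by omega)
  have hnJ : ∀ (m : ℕ) (A : Dv C L), IsJ sp A → IsJ sp (m • A) := by
    intro m A hA
    induction m with
    | zero =>
      have h := (E4 A A hA hA).2
      rw [sub_self] at h
      rw [zero_smul]
      exact h
    | succ m ih =>
      rw [succ_nsmul]
      exact (E4 _ _ ih hA).1
  have h0J : IsJ sp (0 : Dv C L) := by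
    have h := hnJ 0 D hDJ
    rwa [zero_smul] at h
  -- the step
  have step : ∀ (j : ℕ) (T : {T : Dv C L // T ∈ Inv ∧ IsJ sp T ∧
      ∀ e, IsCo sp x w (D - n • T) e → ∀ i, R.v (e i) ≤ R.v π ^ (j + 1)}),
      ∃ T' : {T : Dv C L // T ∈ Inv ∧ IsJ sp T ∧
      ∀ e, IsCo sp x w (D - n • T) e → ∀ i, R.v (e i) ≤ R.v π ^ (j + 1 + 1)},
        ∀ e, IsCo sp x w (T'.1 - T.1) e → ∀ i, R.v (e i) ≤ R.v π ^ (j + 1) := by
    rintro j ⟨T, hT, hTJ, hTe⟩
    have hAJ : IsJ sp (D - n • T) := (E4 _ _ hDJ (hnJ n T hTJ)).2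
    have hA : D - n • T ∈ Inv := Inv.sub_mem hD (Inv.nsmul_mem hT n)
    obtain ⟨a, ha⟩ := E1 _ hAJ
    have hak := hI _ hA a ha
    have hav := hTe a ha
    have hbv : ∀ i, R.v (a i / n) = R.v (a i) := fun i => by
      rw [map_div₀, hvn, div_one]
    have hbk : ∀ i, a i / n ∈ k₂ := fun i => div_mem (hak i) (natCast_mem k₂ n)
    obtain ⟨P, hPP⟩ := P1 (fun i => a i / n) (fun i => by
      rw [hbv]
      exact hlt _ _ ha i)
    have hBI : sm P - sm Q ∈ Inv := hP _ P Q hbk hPP hQ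
    have hB := E6 _ P Q hPP hQ
    have hBJ : IsJ sp (sm P - sm Q) := E2 _ _ hB
    refine ⟨⟨T + (sm P - sm Q), Inv.add_mem hT hBI, (E4 _ _ hTJ hBJ).1, ?_⟩, ?_⟩
    · intro e he
      have h1 : D - n • (T + (sm P - sm Q)) = (D - n • T) - n • (sm P - sm Q) := by
        rw [nsmul_add]
        abel
      rw [h1] at he
      have h2 := N2 n (D - n • T) (sm P - sm Q) a (fun i => a i / n) e ha hB he
        (fun i => by
          field_simp) (R.v π ^ (j + 1)) (hpow1 j) (fun i => by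
          rw [hbv]
          exact hav i)
      intro i
      exact (h2 i).trans (hsq j)
    · intro e he
      have h1 : T + (sm P - sm Q) - T = sm P - sm Q := by abel
      change IsCo sp x w (T + (sm P - sm Q) - T) e at he
      rw [h1] at he
      have h2 := E3 _ _ _ he hB
      intro i
      rw [h2]
      change R.v (a i / n) ≤ _
      rw [hbv]
      exact hav i
  choose nx hnx using step
  have hbase : (0 : Dv C L) ∈ Inv ∧ IsJ sp (0 : Dv C L) ∧
      ∀ e, IsCo sp x w (D - n • (0 : Dv C L)) e → ∀ i, R.v (e i) ≤ R.v π ^ (0 + 1) := by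
    refine ⟨Inv.zero_mem, h0J, ?_⟩
    intro e he i
    rw [smul_zero, sub_zero] at he
    rw [zero_add, pow_one]
    exact hπd _ (hI D hD e he i) (hlt D e he i)
  let T : ∀ j : ℕ, {T : Dv C L // T ∈ Inv ∧ IsJ sp T ∧
      ∀ e, IsCo sp x w (D - n • T) e → ∀ i, R.v (e i) ≤ R.v π ^ (j + 1)} :=
    fun j => Nat.rec ⟨0, hbase⟩ (fun j T => nx j T) j
  have hTs : ∀ j, T (j + 1) = nx j (T j) := fun j => rfl
  have hT1 : ∀ j e, IsCo sp x w ((T (j + 1)).1 - (T j).1) e →
      ∀ i, R.v (e i) ≤ R.v π ^ (j + 1) := by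
    intro j
    rw [hTs]
    exact hnx j (T j)
  -- coordinates of `T j`
  have hc : ∀ j, ∃ t, IsCo sp x w (T j).1 t := fun j => E1 _ (T j).2.2.1
  choose t ht using hc
  have htk : ∀ j i, t j i ∈ k₂ := fun j => hI _ (T j).2.1 _ (ht j)
  have htd : ∀ j i, R.v (t (j + 1) i - t j i) ≤ R.v π ^ j := by
    intro j i
    obtain ⟨e, he⟩ := E1 _ (E4 _ _ (T (j + 1)).2.2.1 (T j).2.2.1).2
    have h1 := (N3 _ _ _ _ e (ht (j + 1)) (ht j) he (R.v π ^ (j + 1))).2 (hT1 j e he)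
    exact (h1 i).trans (hpow j)
  have hlim : ∀ i, ∃ c ∈ k₂, ∀ j, R.v (c - t j i) ≤ R.v π ^ j := fun i =>
    hπc (fun j => t j i) (fun j => htk j i) (fun j => htd j i)
  choose c hck hcj using hlim
  have hc1 : ∀ i, R.v (c i) < 1 := by
    intro i
    have h1 : c i = (c i - t 1 i) + t 1 i := by ring
    rw [h1]
    refine R.v.map_add_lt ?_ (hlt _ _ (ht 1) i)
    refine (hcj i 1).trans_lt ?_
    rw [pow_one]
    exact hπ1
  obtain ⟨P, hPc⟩ := P1 c hc1
  have hTc := E6 c P Q hPc hQ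
  have hTJ : IsJ sp (sm P - sm Q) := E2 _ _ hTc
  have hDT : IsJ sp (D - n • (sm P - sm Q)) := (E4 _ _ hDJ (hnJ n _ hTJ)).2
  obtain ⟨e, he⟩ := E1 _ hDT
  have hej : ∀ j i, R.v (e i) ≤ R.v π ^ (j + 1) := by
    intro j
    have hAJ : IsJ sp (D - n • (T (j + 1)).1) := (E4 _ _ hDJ (hnJ n _ (T (j + 1)).2.2.1)).2
    obtain ⟨a, ha⟩ := E1 _ hAJ
    have hav : ∀ i, R.v (a i) ≤ R.v π ^ (j + 1) := fun i =>
      ((T (j + 1)).2.2.2 a ha i).trans (hpow (j + 1))
    have hSJ : IsJ sp ((sm P - sm Q) - (T (j + 1)).1) := (E4 _ _ hTJ (T (j + 1)).2.2.1).2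
    obtain ⟨s, hs⟩ := E1 _ hSJ
    have hsv : ∀ i, R.v (s i) ≤ R.v π ^ (j + 1) :=
      (N3 _ _ _ _ s hTc (ht (j + 1)) hs (R.v π ^ (j + 1))).1 (fun i => hcj i (j + 1))
    obtain ⟨s', hs'⟩ := E1 _ (hnJ n _ hSJ)
    have hs'v : ∀ i, R.v (s' i) ≤ R.v π ^ (j + 1) := by
      intro i
      have h1 := N1 n _ s s' hs hs' (R.v π ^ (j + 1)) (hpow1 j) hsv i
      have h2 : s' i = (s' i - n * s i) + n * s i := by ring
      rw [h2]
      refine R.v.map_add_le (h1.trans ?_) ?_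
      · exact (hsq j).trans (hpow (j + 1))
      · rw [map_mul, hvn, one_mul]
        exact hsv i
    have heq : D - n • (sm P - sm Q) =
        (D - n • (T (j + 1)).1) - n • ((sm P - sm Q) - (T (j + 1)).1) := by
      rw [nsmul_sub (sm P - sm Q) (T (j + 1)).1 n]
      abel
    have he' := he
    rw [heq] at he'
    exact (N3 _ _ _ _ e ha hs' he' (R.v π ^ (j + 1))).1 (fun i =>
      R.v.map_sub_le (hav i) (hs'v i))
  have he0 : e = 0 := by
    funext i
    by_contra h0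
    obtain ⟨j, hj⟩ := hπr (e i) h0
    exact absurd (hj.trans_le ((hej j i).trans (hpow j))) (lt_irrefl _)
  rw [he0] at he
  exact ⟨P, Q, fun i => (hPc i).1, hQ, he⟩

end Pool.Agent.Lib.MP_c385f6_ag.TPG
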