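import Pool.Agent.Lib.MP_c385f6_ag.TPG.StCo

/-!
Project TPG, K1: `g` distinct places with `l(x_1 + ... + x_g) = 1`.
-/

set_option autoImplicit false

namespace Pool.Agent.Lib.MP_c385f6_ag.TPG

universe u v

namespace GenDAux

variable {F : Type u} {W : Type v} [Field F] [Field W] [Algebra F W]

theorem dg_add (D E : Dv F W) : dg (D + E) = dg D + dg E := by
  unfold dg
  exact Finsupp.sum_add_index' (fun _ => rfl) (fun _ _ _ => rfl)

theorem dg_single (P : Plc F W) (n : ℤ) : dg (Finsupp.single P n : Dv F W) = n := by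
  unfold dg
  exact Finsupp.sum_single_index rfl

theorem le_add_single (D : Dv F W) (P : Plc F W) : D ≤ D + Finsupp.single P 1 := by
  classical
  intro Q
  rw [Finsupp.add_apply, Finsupp.single_apply]
  split_ifs <;> omega

/-- one more place: the dimension grows by at most one -/
theorem step (R : RRF F W) (D : Dv F W) (P : Plc F W) :
    ell D ≤ ell (D + Finsupp.single P 1) ∧ ell (D + Finsupp.single P 1) ≤ ell D + 1 := by
  have h := R.mono D (D + Finsupp.single P 1) (le_add_single D P)
  rw [dg_add, dg_single] at h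
  refine ⟨h.1, ?_⟩
  have := h.2
  omega

/-- if the dimension grows, there is a function with a pole of maximal order -/
theorem exists_pole (R : RRF F W) (D : Dv F W) (P : Plc F W)
    (h : ell D < ell (D + Finsupp.single P 1)) :
    ∃ f : W, f ∈ RR (D + Finsupp.single P 1) ∧ f ≠ 0 ∧ ord P f < - D P := by
  classical
  have h1 : ¬ RR (D + Finsupp.single P 1) ≤ RR D := by
    intro hle
    have := R.fin D
    have h2 := Submodule.finrank_mono hle
    unfold ell at h
    omega
  obtain ⟨f, hf, hfD⟩ := Set.not_subset.1 h1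
  refine ⟨f, hf, ?_⟩
  have h3 : ¬ (f ≠ 0 → ∀ Q : Plc F W, - D Q ≤ ord Q f) := fun h4 => hfD ((R.mem D f).2 h4)
  push Not at h3
  obtain ⟨hf0, Q, hQ⟩ := h3
  refine ⟨hf0, ?_⟩
  by_cases hQP : Q = P
  · rw [← hQP]
    exact hQ
  · have h5 := (R.mem _ f).1 hf hf0 Q
    rw [Finsupp.add_apply, Finsupp.single_apply, if_neg (fun h6 => hQP h6.symm), add_zero] at h5
    omega

/-- all places of `S` give new functions -/
theorem grow (R : RRF F W) (D : Dv F W) (S : Finset (Plc F W))
    (hS : ∀ P ∈ S, ell D < ell (D + Finsupp.single P 1)) :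
    ell D + S.card ≤ ell (D + ∑ P ∈ S, Finsupp.single P 1) ∧
      dg (D + ∑ P ∈ S, Finsupp.single P 1) = dg D + S.card := by
  classical
  induction S using Finset.induction_on with
  | empty => simp
  | insert P S hP ih =>
    obtain ⟨ih1, ih2⟩ := ih fun Q hQ => hS Q (Finset.mem_insert_of_mem hQ)
    have e1 : D + ∑ Q ∈ insert P S, Finsupp.single Q (1 : ℤ) =
        (D + ∑ Q ∈ S, Finsupp.single Q 1) + Finsupp.single P 1 := by
      rw [Finset.sum_insert hP]
      abel
    obtain ⟨E, hE⟩ : ∃ E : Dv F W, E = D + ∑ Q ∈ S, Finsupp.single Q 1 := ⟨_, rfl⟩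
    rw [e1, Finset.card_insert_of_notMem hP, dg_add, dg_single, ← hE]
    rw [← hE] at ih1 ih2
    refine ⟨?_, by rw [ih2]; push_cast; ring⟩
    have hEP : E P = D P := by
      rw [hE, Finsupp.add_apply, Finsupp.finsetSum_apply, Finset.sum_eq_zero, add_zero]
      intro Q hQ
      rw [Finsupp.single_apply, if_neg]
      rintro rfl
      exact hP hQ
    have hDE : D + Finsupp.single P 1 ≤ E + Finsupp.single P 1 := by
      intro Q
      rw [Finsupp.add_apply, Finsupp.add_apply]
      refine add_le_add ?_ le_rfl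
      rw [hE, Finsupp.add_apply, Finsupp.finsetSum_apply]
      refine le_add_of_nonneg_right (Finset.sum_nonneg fun Q' _ => ?_)
      rw [Finsupp.single_apply]
      split_ifs <;> norm_num
    obtain ⟨f, hf, hf0, hfP⟩ := exists_pole R D P (hS P (Finset.mem_insert_self _ _))
    have hfE : f ∈ RR (E + Finsupp.single P 1) := by
      rw [R.mem]
      intro _ Q
      have h1 := (R.mem _ f).1 hf hf0 Q
      have h2 := hDE Q
      omega
    have hfn : f ∉ RR E := by
      intro hmem
      have h1 := (R.mem _ f).1 hmem hf0 P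
      rw [hEP] at h1
      omega
    have hle : RR E ≤ RR (E + Finsupp.single P 1) := by
      intro y hy
      rw [R.mem] at hy ⊢
      intro hy0 Q
      have h1 := hy hy0 Q
      have h2 := le_add_single E P Q
      omega
    have hlt : RR E < RR (E + Finsupp.single P 1) :=
      lt_of_le_of_ne hle fun he => hfn (he ▸ hfE)
    have := R.fin (E + Finsupp.single P 1)
    have h3 := Submodule.finrank_lt_finrank_of_lt hlt
    have h4 : ell E + 1 ≤ ell (E + Finsupp.single P 1) := by
      unfold ell
      omega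
    push_cast
    omega

/-- a place which does not change the dimension -/
theorem exists_place (R : RRF F W) {g : ℕ} (hg : IsGenus F W g) (D : Dv F W)
    (hD : dg D + 1 - g < ell D) (A : Set (Plc F W)) (hA : A.Finite) :
    ∃ P : Plc F W, P ∉ A ∧ ell (D + Finsupp.single P 1) = ell D := by
  obtain ⟨-, d, hd⟩ := hg
  have hfin : {P : Plc F W | ell D < ell (D + Finsupp.single P 1)}.Finite := by
    by_contra hinf
    obtain ⟨S, hS, hc⟩ := Set.Infinite.exists_subset_card_eq hinf (d - dg D).toNat
    obtain ⟨h1, h2⟩ := grow R D S fun P hP => hS hP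
    have h3 := hd (D + ∑ P ∈ S, Finsupp.single P 1) (by
      rw [h2, hc]
      have := Int.self_le_toNat (d - dg D)
      omega)
    rw [h2] at h3
    omega
  have := R.ne
  obtain ⟨P, hP⟩ := (hfin.union hA).exists_notMem
  refine ⟨P, fun h => hP (Or.inr h), ?_⟩
  have h1 : ¬ ell D < ell (D + Finsupp.single P 1) := fun h => hP (Or.inl h)
  have h2 := (step R D P).1
  omega

theorem sm_cons {n : ℕ} (P : Plc F W) (x : Fin n → Plc F W) :
    sm (Fin.cons P x : Fin (n + 1) → Plc F W) = sm x + Finsupp.single P 1 := by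
  unfold sm
  rw [Fin.sum_univ_succ, add_comm]
  simp only [Fin.cons_zero, Fin.cons_succ]

theorem dg_sm {n : ℕ} (x : Fin n → Plc F W) : dg (sm x) = n := by
  induction n with
  | zero =>
    unfold sm dg
    simp
  | succ n ih =>
    have h1 : x = Fin.cons (x 0) (Fin.tail x) := (Fin.cons_self_tail x).symm
    rw [h1, sm_cons, dg_add, dg_single, ih]
    push_cast
    ring

theorem exists_places (R : RRF F W) {g : ℕ} (hg : IsGenus F W g) (n : ℕ) (hn : n ≤ g) :
    ∃ x : Fin n → Plc F W, Function.Injective x ∧ ell (sm x) = 1 := by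
  induction n with
  | zero =>
    refine ⟨Fin.elim0, fun i => i.elim0, ?_⟩
    have h1 : sm (Fin.elim0 : Fin 0 → Plc F W) = 0 := by
      unfold sm
      simp
    rw [h1]
    exact R.zero
  | succ n ih =>
    obtain ⟨x, hx, hx1⟩ := ih (by omega)
    obtain ⟨P, hP, hPe⟩ := exists_place R hg (sm x) (by
      rw [hx1, dg_sm]
      omega) (Set.range x) (Set.finite_range x)
    refine ⟨Fin.cons P x, ?_, ?_⟩
    · rw [Fin.cons_injective_iff]
      exact ⟨hP, hx⟩
    · rw [sm_cons, hPe, hx1]

end GenDAux

open GenDAux in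
theorem stGenD (h : StRRF.{u, v}) : StGenD.{u, v} := by
  intro F W iF iA iW iFW hFF g hg
  exact exists_places (h F W hFF) hg g le_rfl

end Pool.Agent.Lib.MP_c385f6_ag.TPG
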