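import Pool.Agent.Lib.MP_c385f6_ag.TPG.StCo

/-!
Project TPG, module K12: injectivity of the reduction on the classes of `D_n`.
-/

set_option autoImplicit false

namespace Pool.Agent.Lib.MP_c385f6_ag.TPG

universe u v u' v'

namespace KInj

section FFpart

variable {F : Type u} {W : Type v} [Field F] [Field W] [Algebra F W]

theorem ord_one (hR : RRF F W) (P : Plc F W) : ord P (1 : W) = 0 := by
  have := hR.ord_const 1 P
  rwa [map_one] at this

theorem dv_one (hR : RRF F W) : (dv (1 : W) : Dv F W) = 0 := by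
  ext P
  rw [hR.dv_apply 1 P one_ne_zero, ord_one hR]
  rfl

theorem dv_mul (hO : OrdF F W) (hR : RRF F W) {f g : W} (hf : f ≠ 0) (hg : g ≠ 0) :
    (dv (f * g) : Dv F W) = dv f + dv g := by
  ext P
  rw [Finsupp.add_apply, hR.dv_apply _ P (mul_ne_zero hf hg), hR.dv_apply _ P hf,
    hR.dv_apply _ P hg, hO.mul P f g hf hg]

theorem dv_inv (hO : OrdF F W) (hR : RRF F W) {f : W} (hf : f ≠ 0) :
    (dv f⁻¹ : Dv F W) = - dv f := by
  have h := dv_mul hO hR hf (inv_ne_zero hf)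
  rw [mul_inv_cancel₀ hf, dv_one hR] at h
  exact (neg_eq_of_add_eq_zero_right h.symm).symm

theorem dv_pow (hO : OrdF F W) (hR : RRF F W) {f : W} (hf : f ≠ 0) (n : ℕ) :
    (dv (f ^ n) : Dv F W) = n • dv f := by
  induction n with
  | zero => rw [pow_zero, dv_one hR, zero_smul]
  | succ n ih => rw [pow_succ, dv_mul hO hR (pow_ne_zero n hf) hf, ih, succ_nsmul]

theorem dg_nsmul (n : ℕ) (D : Dv F W) : dg (n • D) = n * dg D := by
  have h : ∀ a b : Dv F W, dg (a + b) = dg a + dg b := fun a b =>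
    Finsupp.sum_add_index' (fun _ => rfl) (fun _ _ _ => rfl)
  induction n with
  | zero => simp [dg]
  | succ n ih => rw [succ_nsmul, h, ih]; push_cast; ring

/-- elements with the same divisor differ by a constant -/
theorem eq_const (hO : OrdF F W) (hR : RRF F W) {f g : W} (hf : f ≠ 0) (hg : g ≠ 0)
    (h : (dv f : Dv F W) = dv g) : ∃ c : F, f = algebraMap F W c * g := by
  have h1 : ∀ P : Plc F W, ord P (f * g⁻¹) = 0 := by
    intro P
    rw [← hR.dv_apply _ P (mul_ne_zero hf (inv_ne_zero hg)), dv_mul hO hR hf (inv_ne_zero hg),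
      dv_inv hO hR hg, h, add_neg_cancel]
    rfl
  obtain ⟨c, hc⟩ := hR.const (f * g⁻¹) (mul_ne_zero hf (inv_ne_zero hg)) fun P => (h1 P).ge
  exact ⟨c, by rw [← hc, mul_assoc, inv_mul_cancel₀ hg, mul_one]⟩

end FFpart

section Rpart

variable {C : Type u} {L : Type v} {F : Type u'} {Λ : Type v'} [Field C] [Field L] [Field F]
  [Field Λ] [Algebra C L] [Algebra F Λ]

theorem res_natCast (R : Red C L F Λ) (n : ℕ) : R.res (n : L) = (n : Λ) := by
  have h := map_natCast R.hom n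
  have h2 : R.hom (n : R.w) = R.res (((n : R.w) : L)) := rfl
  rw [h2] at h
  rw [← h]
  simp

theorem v_natCast (R : Red C L F Λ) {n : ℕ} (hn : (n : F) ≠ 0) : R.v (n : C) = 1 := by
  have h1 : R.res (n : L) ≠ 0 := by
    rw [res_natCast, ← map_natCast (algebraMap F Λ)]
    exact (map_ne_zero _).2 hn
  have h2 := Red.val_eq_one h1
  change R.w.valuation (algebraMap C L (n : C)) = 1
  rw [map_natCast]
  exact h2

theorem mul_self_lt {G : Type*} [LinearOrderedCommGroupWithZero G] {a : G} (h0 : a ≠ 0)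
    (h1 : a < 1) : a * a < a := by
  have := mul_lt_mul_of_pos_left h1 (zero_lt_iff.2 h0)
  rwa [mul_one] at this

end Rpart

end KInj

open KInj

theorem stInj (hO : StOrd.{u, v}) (hO' : StOrd.{u', v'}) (hR : StRRF.{u, v})
    (hR' : StRRF.{u', v'}) (hSp : StSp.{u, v, u', v'}) (hFrm : StFrm.{u, v, u', v'})
    (hPt : StPt.{u, v, u', v'}) (hCoE : StCoE.{u, v, u', v'}) (hCoN : StCoN.{u, v, u', v'}) :
    StInj.{u, v, u', v'} := by
  classical
  intro C L F Λ _ _ _ _ _ _ _ _ R g hg n f b hn hf hres hb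
  obtain ⟨sp, hsp, -⟩ := hSp C L F Λ R g hg
  obtain ⟨x, w, hx⟩ := hFrm C L F Λ R g sp hg hsp
  have oL := hO C L hg.ffC
  have oΛ := hO' F Λ hg.ffF
  have rL := hR C L hg.ffC
  have rΛ := hR' F Λ hg.ffF
  obtain ⟨-, -, pt3, -⟩ := hPt C L F Λ R g sp hg hsp x w hx
  obtain ⟨co1, -, -, -, -, -, co7⟩ := hCoE C L F Λ R g sp hg hsp x w hx
  obtain ⟨cn1, -, -⟩ := hCoN C L F Λ R g sp hg hsp x w hx
  have hn0 : n ≠ 0 := by rintro rfl; exact hn Nat.cast_zero
  have hnZ : (n : ℤ) ≠ 0 := by exact_mod_cast hn0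
  obtain ⟨hf0, hfd⟩ := hf
  -- the divisor `D` with `n D = dv f`
  obtain ⟨D, hD⟩ : ∃ D : Dv C L, n • D = dv f := by
    refine ⟨Finsupp.mapRange (fun a : ℤ => a / n) (by simp) (dv f : Dv C L), ?_⟩
    ext P
    rw [Finsupp.smul_apply, Finsupp.mapRange_apply, nsmul_eq_mul, rL.dv_apply f P hf0]
    exact Int.mul_ediv_cancel' (hfd P)
  have hbn : R.res f ≠ 0 := by rw [hres]; exact pow_ne_zero n hb
  have hspD : Finsupp.mapDomain sp D = (dv b : Dv F Λ) := by
    have h1 : n • Finsupp.mapDomain sp D = n • (dv b : Dv F Λ) := by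
      rw [← dv_pow oΛ rΛ hb, ← hres, ← hsp f hbn, ← hD]
      exact (map_nsmul (Finsupp.mapDomain.addMonoidHom sp : Dv C L →+ Dv F Λ) n D).symm
    ext y
    have h2 := DFunLike.congr_fun h1 y
    rw [Finsupp.smul_apply, Finsupp.smul_apply, nsmul_eq_mul, nsmul_eq_mul] at h2
    exact mul_left_cancel₀ hnZ h2
  have hJ : IsJ sp D := by
    refine ⟨?_, b, hb, hspD⟩
    have h1 : dg (n • D) = 0 := by rw [hD, rL.dg_dv f hf0]
    rw [dg_nsmul] at h1
    exact (mul_eq_zero.1 h1).resolve_left hnZ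
  obtain ⟨e, he⟩ := co1 D hJ
  obtain ⟨P, Q, h, hP, hQ, hh, hDh⟩ := id he
  have hco0 : IsCo sp x w (n • D) 0 := by
    refine ⟨Q, Q, f⁻¹, hQ, hQ, inv_ne_zero hf0, ?_⟩
    rw [hD, dv_inv oL rL hf0, add_neg_cancel, sub_self]
  have he0 : e = 0 := by
    by_contra hne
    have hne' : ∃ i, e i ≠ 0 := by
      by_contra hall
      push Not at hall
      exact hne (funext hall)
    obtain ⟨i₀, hi₀⟩ := hne'
    obtain ⟨j, -, hj⟩ := Finset.exists_max_image Finset.univ (fun i => R.v (e i))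
      ⟨i₀, Finset.mem_univ i₀⟩
    have hj1 : R.v (e j) < 1 := (pt3 e P hP j).1
    have hj0 : R.v (e j) ≠ 0 := by
      intro h0
      have h1 := hj i₀ (Finset.mem_univ _)
      rw [h0, le_zero_iff] at h1
      exact hi₀ ((map_eq_zero _).1 h1)
    have h2 := cn1 n D e 0 he hco0 (R.v (e j)) hj1 (fun i => hj i (Finset.mem_univ i)) j
    rw [Pi.zero_apply, zero_sub, Valuation.map_neg, map_mul, v_natCast R hn, one_mul] at h2
    exact absurd (mul_self_lt hj0 hj1) (not_lt.2 h2)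
  rw [he0] at he
  obtain ⟨k, hk0, hk⟩ := co7 D he
  have h3 : (dv f : Dv C L) = dv (k ^ n) := by
    rw [dv_pow oL rL hk0, ← hk, hD]
  obtain ⟨c, hc⟩ := eq_const oL rL hf0 (pow_ne_zero n hk0) h3
  obtain ⟨d, hd⟩ := IsAlgClosed.exists_pow_nat_eq c (Nat.pos_of_ne_zero hn0)
  refine ⟨algebraMap C L d * k, ?_⟩
  rw [mul_pow, ← map_pow, hd, ← hc]

end Pool.Agent.Lib.MP_c385f6_ag.TPG
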