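import Pool.Agent.Lib.MP_c385f6_ag.TPG.KPt

/-!
Project TPG, K4: the key lemma.
-/

set_option autoImplicit false

open Polynomial

namespace Pool.Agent.Lib.MP_c385f6_ag.TPG

universe u v u' v'

namespace KeyAux

open RRFAux PtAux

section

variable {C : Type u} {L : Type v} {F : Type u'} {Λ : Type v'} [Field C] [Field L] [Field F]
  [Field Λ] [Algebra C L] [Algebra F Λ]

/-- A nonconstant function `G` is `a + α H` with `H ∈ w` with nonconstant residue. -/
theorem exists_H (R : Red C L F Λ) (G : L) (hG : ∀ c : C, G ≠ algebraMap C L c)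
    (hON : ∃ (r : ℕ) (e : Fin r → L), (∀ i, e i ∈ R.w) ∧
      LinearIndependent F (fun i => R.res (e i)) ∧
      Submodule.span C (Set.range e) = Submodule.span C {(1 : L), G}) :
    ∃ (a α : C) (H : L), α ≠ 0 ∧ H ∈ R.w ∧ (∀ c : F, R.res H ≠ algebraMap F Λ c) ∧
      G = algebraMap C L a + algebraMap C L α * H := by
  obtain ⟨r, e, he, hind, hspan⟩ := hON
  by_cases hj : ∃ j, ∀ c : F, R.res (e j) ≠ algebraMap F Λ c
  · obtain ⟨j, hj⟩ := hj
    have h1 : e j ∈ Submodule.span C {(1 : L), G} := by
      rw [← hspan]
      exact Submodule.subset_span ⟨j, rfl⟩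
    obtain ⟨p, q, hpq⟩ := Submodule.mem_span_pair.1 h1
    have hq : q ≠ 0 := by
      rintro rfl
      rw [zero_smul, add_zero, Algebra.smul_def, mul_one] at hpq
      obtain ⟨a, ha⟩ := R.const p (by rw [hpq]; exact he j)
      rw [hpq] at ha
      exact hj a ha
    refine ⟨-p / q, 1 / q, e j, one_div_ne_zero hq, he j, hj, ?_⟩
    have hq' : algebraMap C L q ≠ 0 := by rwa [Ne, map_eq_zero]
    rw [← hpq, Algebra.smul_def, Algebra.smul_def, map_div₀, map_div₀, map_neg, map_one]
    field_simp
    ring
  · push Not at hj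
    exfalso
    choose c hc using hj
    have hne : ∀ i, R.res (e i) ≠ 0 := fun i => hind.ne_zero i
    have hsub : ∀ i j : Fin r, i = j := by
      intro i j
      by_contra hij
      have hinj : Function.Injective ![i, j] := by
        intro a b hab
        fin_cases a <;> fin_cases b
        · rfl
        · exact absurd hab hij
        · exact absurd hab.symm hij
        · rfl
      have h2 := hind.comp ![i, j] hinj
      have h3 : LinearIndependent F ![R.res (e i), R.res (e j)] := by
        convert h2 using 1
        ext a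
        fin_cases a <;> rfl
      have h4 := h3.eq_zero_of_pair (s := c j) (t := -c i) (by
        rw [Algebra.smul_def, Algebra.smul_def, hc i, hc j, map_neg]
        ring)
      apply hne j
      rw [hc j, h4.1, map_zero]
    have hG' : G ∈ Submodule.span C (Set.range e) := by
      rw [hspan]
      exact Submodule.subset_span (by simp)
    have h1' : (1 : L) ∈ Submodule.span C (Set.range e) := by
      rw [hspan]
      exact Submodule.subset_span (by simp)
    rcases isEmpty_or_nonempty (Fin r) with hr | ⟨⟨i0⟩⟩
    · rw [Set.range_eq_empty, Submodule.span_empty, Submodule.mem_bot] at h1'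
      exact one_ne_zero h1'
    · have hrange : Set.range e = {e i0} := by
        ext z
        simp only [Set.mem_range, Set.mem_singleton_iff]
        constructor
        · rintro ⟨i, rfl⟩
          rw [hsub i i0]
        · rintro rfl
          exact ⟨i0, rfl⟩
      rw [hrange, Submodule.mem_span_singleton] at hG' h1'
      obtain ⟨b, hb⟩ := hG'
      obtain ⟨a, ha⟩ := h1'
      have ha0 : a ≠ 0 := by
        rintro rfl
        rw [zero_smul] at ha
        exact one_ne_zero ha.symm
      apply hG (b / a)
      rw [Algebra.smul_def] at ha hb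
      have ha1 : algebraMap C L a ≠ 0 := by rwa [Ne, map_eq_zero]
      have he0 : e i0 = (algebraMap C L a)⁻¹ := eq_inv_of_mul_eq_one_right ha
      rw [← hb, he0, map_div₀, div_eq_mul_inv]

/-- A function with at most a simple pole. -/
theorem ord_ge (O : OrdF F Λ) (P : Plc F Λ) {c : F} {y r T : Λ} (hc : c ≠ 0)
    (hy : -1 ≤ ord P y) (hr : r ∈ P.ring) (hT : T = algebraMap F Λ c * y + r) (hT0 : T ≠ 0) :
    -1 ≤ ord P T := by
  have hc' : algebraMap F Λ c ≠ 0 := by rwa [Ne, map_eq_zero]
  by_cases hy0 : y = 0
  · rw [hy0, mul_zero, zero_add] at hT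
    rw [hT] at hT0 ⊢
    have := (O.mem P r hT0).1 hr
    omega
  have h1 : ord P (algebraMap F Λ c * y) = ord P y := by
    rw [O.mul P _ _ hc' hy0, ord_const O, zero_add]
  by_cases hr0 : r = 0
  · rw [hr0, add_zero] at hT
    rw [hT, h1]
    exact hy
  have h2 := O.add P _ r (mul_ne_zero hc' hy0) hr0 (by rw [← hT]; exact hT0)
  rw [← hT, h1] at h2
  have h3 := (O.mem P r hr0).1 hr
  exact (le_min hy (by omega)).trans h2

/-- Constants are in the rings of places. -/
theorem const_div_mem {P : Plc F Λ} {f : Λ} (hf : f ∈ P.ring) (c : F) :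
    f / algebraMap F Λ c ∈ P.ring := by
  rw [div_eq_mul_inv, ← map_inv₀]
  exact mul_mem hf (P.const_mem _)

end

end KeyAux

open KeyAux RRFAux PtAux

/-- K4. The key lemma. -/
theorem stKey (h0 : StOrd.{u, v}) (h0' : StOrd.{u', v'}) (hON : StON.{u, v, u', v'})
    (hD : StDsc.{u, v, u', v'}) (hR : StRRF.{u', v'}) : StKey.{u, v, u', v'} := by
  classical
  intro C L F Λ _ _ _ _ _ _ _ _ R g sp hG hsp x z hFr G V β hG0 hβ0 hβ hout hV0 hin hVw hVord
  have O : OrdF C L := h0 C L hG.ffC
  have O' : OrdF F Λ := h0' F Λ hG.ffF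
  have RR' : RRF F Λ := hR F Λ hG.ffF
  obtain ⟨hON1, -, hscale⟩ := hON C L F Λ R g hG
  obtain ⟨-, hD2, -, hD4, -⟩ := hD C L F Λ R g sp hG hsp
  have hβL : algebraMap C L β ≠ 0 := by rwa [Ne, map_eq_zero]
  -- the residues of the `V i`
  have hβv : R.w.valuation (algebraMap C L β) < 1 := hβ
  have hβw : algebraMap C L β ∈ R.w := (R.w.valuation_le_one_iff _).1 hβv.le
  have hβr : R.res (algebraMap C L β) = 0 := (R.res_lt _ hβw).2 hβv
  have hVeq : ∀ i, V i = 1 + algebraMap C L β * ((V i - 1) / algebraMap C L β) := by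
    intro i
    field_simp
    ring
  have hVr : ∀ i, R.res (V i) = 1 := by
    intro i
    rw [hVeq i, R.res_add _ (one_mem _) _ (mul_mem hβw (hVw i)), R.res_mul _ hβw _ (hVw i), hβr,
      zero_mul, add_zero, R.res_one]
  -- scaling
  obtain ⟨c, hc0, hcG⟩ := hscale G hG0
  have hcL : algebraMap C L c ≠ 0 := by rwa [Ne, map_eq_zero]
  obtain ⟨G', hG'⟩ : ∃ G', G' = algebraMap C L c * G := ⟨_, rfl⟩
  rw [← hG'] at hcG
  have hG'0 : G' ≠ 0 := by rw [hG']; exact mul_ne_zero hcL hG0
  have hG'ord : ∀ P : Plc C L, ord P G' = ord P G := by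
    intro P
    rw [hG', O.mul P _ _ hcL hG0, ord_const O, zero_add]
  have hG'in : ∀ i P, sp P = x i → ord P G' = ord P (V i) := fun i P hP => by
    rw [hG'ord P, hin i P hP]
  have hG'out : ∀ P : Plc C L, (∀ i, sp P ≠ x i) → ord P G' = 0 := fun P hP => by
    rw [hG'ord P, hout P hP]
  clear hG' hG'ord hin hout
  -- the quotients `ε i = G' / V i`
  have hε0 : ∀ i, G' / V i ≠ 0 := fun i => div_ne_zero hG'0 (hV0 i)
  have hVr0 : ∀ i, R.res (V i) ≠ 0 := fun i => by rw [hVr i]; exact one_ne_zero
  have hGw : G' ∈ R.w := Red.mem_of_res_ne hcG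
  have hεres : ∀ i, R.res (G' / V i) = R.res G' := by
    intro i
    rw [div_eq_mul_inv, R.res_mul _ hGw _ (Red.inv_mem (hVr0 i)), R.res_inv (hVr0 i), hVr i,
      inv_one, mul_one]
  have hεord : ∀ i P, sp P = x i → ord P (G' / V i) = 0 := by
    intro i P hP
    rw [div_eq_mul_inv, O.mul P _ _ hG'0 (inv_ne_zero (hV0 i)), ord_inv O P (hV0 i),
      hG'in i P hP, add_neg_cancel]
  have hεD : ∀ i, G' / V i ∈ Rx R sp (x i) ∧ ord (x i) (R.res G') = 0 := by
    intro i
    have h := hD4 (x i) (G' / V i) (by rw [hεres i]; exact hcG) (hεord i)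
    rw [hεres i] at h
    exact ⟨h.1, h.2.2⟩
  have hGD : ∀ y : Plc F Λ, (∀ i, y ≠ x i) → G' ∈ Rx R sp y ∧ ord y (R.res G') = 0 := by
    intro y hy
    have h := hD4 y G' hcG (fun P hP => hG'out P fun i h => hy i (by rw [← hP, h]))
    exact ⟨h.1, h.2.2⟩
  -- the residue of `G'` is constant
  obtain ⟨c0, hc0'⟩ : ∃ c0 : F, R.res G' = algebraMap F Λ c0 := by
    apply RR'.const _ hcG
    intro y
    by_cases hy : ∃ i, y = x i
    · obtain ⟨i, rfl⟩ := hy
      exact (hεD i).2.ge
    · push Not at hy
      exact (hGD y hy).2.ge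
  have hc00 : c0 ≠ 0 := by
    rintro rfl
    rw [map_zero] at hc0'
    exact hcG hc0'
  by_cases hconst : ∃ c : C, G' = algebraMap C L c
  · -- constant case
    obtain ⟨c, hc⟩ := hconst
    intro i
    have h1 := hD4 (x i) (V i) (hVr0 i) (fun P hP => by
      rw [← hG'in i P hP, hc, ord_const O])
    apply hD2
    refine ⟨hVw i, fun P hP => ?_⟩
    exact const_div_mem (sub_mem (h1.1.2 P hP) (one_mem _)) β
  · push Not at hconst
    have hfd : FiniteDimensional C (Submodule.span C {(1 : L), G'}) :=
      FiniteDimensional.span_of_finite C (Set.toFinite _)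
    obtain ⟨a, α, H, hα0, hHw, hHc, hGH⟩ := exists_H R G' hconst (hON1 _ hfd)
    have hαL : algebraMap C L α ≠ 0 := by rwa [Ne, map_eq_zero]
    have step : ∀ δ : C, δ ≠ 0 → algebraMap C L (α / δ) ∈ R.w → algebraMap C L (β / δ) ∈ R.w →
        (∀ i, ∃ r ∈ (x i).ring, R.res ((G' - algebraMap C L a) / algebraMap C L δ) =
          R.res G' * (R.res (algebraMap C L (β / δ)) * R.res ((V i - 1) / algebraMap C L β)) +
            r) ∧
        (∀ y : Plc F Λ, (∀ i, y ≠ x i) →
          R.res ((G' - algebraMap C L a) / algebraMap C L δ) ∈ y.ring) := by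
      intro δ hδ hαδ hβδ
      have hδL : algebraMap C L δ ≠ 0 := by rwa [Ne, map_eq_zero]
      have hT : (G' - algebraMap C L a) / algebraMap C L δ = algebraMap C L (α / δ) * H := by
        rw [hGH, map_div₀]
        field_simp
        ring
      have hTw : (G' - algebraMap C L a) / algebraMap C L δ ∈ R.w := by
        rw [hT]
        exact mul_mem hαδ hHw
      constructor
      · intro i
        have hεw := (hεD i).1.1
        have h1 : G' / V i * (algebraMap C L (β / δ) * ((V i - 1) / algebraMap C L β)) ∈ R.w :=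
          mul_mem hεw (mul_mem hβδ (hVw i))
        have h2 : (G' - algebraMap C L a) / algebraMap C L δ =
            G' / V i * (algebraMap C L (β / δ) * ((V i - 1) / algebraMap C L β)) +
              (G' / V i - algebraMap C L a) / algebraMap C L δ := by
          have := hV0 i
          rw [map_div₀]
          field_simp
          ring
        have h3 : (G' / V i - algebraMap C L a) / algebraMap C L δ ∈ R.w := by
          have h4 : (G' / V i - algebraMap C L a) / algebraMap C L δ =
              (G' - algebraMap C L a) / algebraMap C L δ -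
              G' / V i * (algebraMap C L (β / δ) * ((V i - 1) / algebraMap C L β)) := by
            rw [h2]
            ring
          rw [h4]
          exact sub_mem hTw h1
        refine ⟨R.res ((G' / V i - algebraMap C L a) / algebraMap C L δ), ?_, ?_⟩
        · apply hD2
          exact ⟨h3, fun P hP => const_div_mem
            (sub_mem ((hεD i).1.2 P hP) (P.const_mem a)) δ⟩
        · rw [h2, R.res_add _ h1 _ h3, R.res_mul _ hεw _ (mul_mem hβδ (hVw i)),
            R.res_mul _ hβδ _ (hVw i), hεres i]
      · intro y hy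
        apply hD2
        exact ⟨hTw, fun P hP => const_div_mem
          (sub_mem ((hGD y hy).1.2 P hP) (P.const_mem a)) δ⟩
    by_cases hαβ : R.v β < R.v α
    · exfalso
      have hT : (G' - algebraMap C L a) / algebraMap C L α = H := by
        rw [hGH]
        field_simp
        ring
      have h1 : R.w.valuation (algebraMap C L (β / α)) < 1 := by
        rw [map_div₀, map_div₀]
        exact (div_lt_one₀ (by
          rw [Valuation.pos_iff]
          exact hαL)).2 hαβ
      have h2 : algebraMap C L (β / α) ∈ R.w := (R.w.valuation_le_one_iff _).1 h1.le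
      have h3 : R.res (algebraMap C L (β / α)) = 0 := (R.res_lt _ h2).2 h1
      obtain ⟨s1, s2⟩ := step α hα0 (by rw [div_self hα0, map_one]; exact one_mem _) h2
      rw [hT] at s1 s2
      have hH0 : R.res H ≠ 0 := by
        intro h
        exact hHc 0 (by rw [h, map_zero])
      obtain ⟨c, hc⟩ := RR'.const (R.res H) hH0 (by
        intro y
        rw [← O'.mem y _ hH0]
        by_cases hy : ∃ i, y = x i
        · obtain ⟨i, rfl⟩ := hy
          obtain ⟨r, hr, hr'⟩ := s1 i
          rw [hr', h3, zero_mul, mul_zero, zero_add]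
          exact hr
        · push Not at hy
          exact s2 y hy)
      exact hHc c hc
    · rw [not_lt] at hαβ
      have h1 : algebraMap C L (α / β) ∈ R.w := by
        rw [← R.w.valuation_le_one_iff, map_div₀, map_div₀]
        exact (div_le_one₀ (by
          rw [Valuation.pos_iff]
          exact hβL)).2 hαβ
      have h2 : algebraMap C L (β / β) = 1 := by rw [div_self hβ0, map_one]
      obtain ⟨s1, s2⟩ := step β hβ0 h1 (by rw [h2]; exact one_mem _)
      obtain ⟨T, hT⟩ : ∃ T, T = R.res ((G' - algebraMap C L a) / algebraMap C L β) := ⟨_, rfl⟩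
      rw [← hT, h2, R.res_one, hc0'] at s1
      rw [← hT] at s2
      simp only [one_mul] at s1
      have hTRR : T ∈ RR (sm x) := by
        rw [RR'.mem]
        intro hT0 y
        by_cases hy : ∃ i, y = x i
        · obtain ⟨i, rfl⟩ := hy
          obtain ⟨r, hr, hr'⟩ := s1 i
          rw [sm_self hFr.inj i]
          exact ord_ge O' (x i) hc00 (hVord i) hr hr' hT0
        · push Not at hy
          rw [sm_out (fun i h => hy i h.symm), neg_zero, ← O'.mem y _ hT0]
          exact s2 y hy
      have h1RR : (1 : Λ) ∈ RR (sm x) := by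
        rw [RR'.mem]
        intro _ y
        rw [ord_one O']
        by_cases hy : ∃ i, y = x i
        · obtain ⟨i, rfl⟩ := hy
          rw [sm_self hFr.inj i]
          norm_num
        · push Not at hy
          rw [sm_out (fun i h => hy i h.symm), neg_zero]
      have hfr : Module.finrank F (RR (sm x)) = 1 := by
        have := hFr.one
        unfold ell at this
        exact_mod_cast this
      obtain ⟨t, ht⟩ := (finrank_eq_one_iff_of_nonzero' (⟨1, h1RR⟩ : RR (sm x)) (by
        intro h
        exact one_ne_zero (congrArg Subtype.val h))).1 hfr ⟨T, hTRR⟩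
      have ht' : T = algebraMap F Λ t := by
        have := congrArg Subtype.val ht
        rw [Submodule.coe_smul, Algebra.smul_def, mul_one] at this
        exact this.symm
      intro i
      obtain ⟨r, hr, hr'⟩ := s1 i
      have hc0Λ : algebraMap F Λ c0 ≠ 0 := by rwa [Ne, map_eq_zero]
      have h5 : R.res ((V i - 1) / algebraMap C L β) = (T - r) / algebraMap F Λ c0 := by
        rw [hr']
        field_simp
        ring
      rw [h5]
      apply const_div_mem
      exact sub_mem (by rw [ht']; exact (x i).const_mem t) hr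

end Pool.Agent.Lib.MP_c385f6_ag.TPG
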