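import Pool.Agent.Lib.MP_c385f6_ag.TPG.StCo

/-!
Project TPG, K3: `L(D)` reduces into `L(sp D)`.
-/

set_option autoImplicit false

namespace Pool.Agent.Lib.MP_c385f6_ag.TPG

universe u v u' v'

namespace KLeAux

/-- The image of an effective divisor is effective. -/
theorem mapDomain_nonneg {α β : Type*} (s : α → β) (D : α →₀ ℤ) (h : ∀ P, 0 ≤ D P) (Q : β) :
    0 ≤ Finsupp.mapDomain s D Q := by
  classical
  rw [Finsupp.mapDomain, Finsupp.sum_apply]
  apply Finset.sum_nonneg
  intro P _
  change 0 ≤ (Finsupp.single (s P) (D P)) Q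
  rw [Finsupp.single_apply]
  split_ifs
  · exact h P
  · exact le_rfl

/-- The degree of the image of a divisor. -/
theorem dg_mapDomain {F : Type*} {W : Type*} {F' : Type*} {W' : Type*} [Field F] [Field W]
    [Algebra F W] [Field F'] [Field W'] [Algebra F' W'] (s : Plc F W → Plc F' W') (D : Dv F W) :
    dg (Finsupp.mapDomain s D) = dg D := by
  unfold dg
  exact Finsupp.sum_mapDomain_index (fun _ => rfl) (fun _ _ _ => rfl)

end KLeAux

open KLeAux in
/-- K3. `L(D)` reduces into `L(sp D)`, and `l(D) ≤ l(sp D)`. -/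
theorem stLe (hON : StON.{u, v, u', v'}) (hR : StRRF.{u, v}) (hR' : StRRF.{u', v'}) :
    StLe.{u, v, u', v'} := by
  intro C L F Λ _ _ _ _ _ _ _ _ R g sp hg hsp D
  have hL := hR C L hg.ffC
  have hΛ := hR' F Λ hg.ffF
  have h1 : ∀ f ∈ RR D, R.res f ∈ RR (Finsupp.mapDomain sp D : Dv F Λ) := by
    intro f hf
    rw [hΛ.mem]
    intro hres Q
    have hf0 : f ≠ 0 := by
      rintro rfl
      exact hres R.res_zero
    have h2 : ∀ P, 0 ≤ ((dv f : Dv C L) + D) P := by
      intro P
      rw [Finsupp.add_apply, hL.dv_apply f P hf0]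
      have := (hL.mem D f).1 hf hf0 P
      linarith
    have h3 := mapDomain_nonneg sp _ h2 Q
    rw [Finsupp.mapDomain_add, Finsupp.add_apply, hsp f hres, hΛ.dv_apply _ Q hres] at h3
    linarith
  refine ⟨h1, ?_, dg_mapDomain sp D⟩
  have hfin : FiniteDimensional C (RR D) := hL.fin D
  have hfin' : FiniteDimensional F (RR (Finsupp.mapDomain sp D : Dv F Λ)) := hΛ.fin _
  obtain ⟨r, e, he, hind, hspan⟩ := (hON C L F Λ R g hg).1 (RR D) hfin
  have hmem : ∀ i, e i ∈ RR D := by
    intro i
    rw [← hspan]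
    exact Submodule.subset_span ⟨i, rfl⟩
  have h4 : Module.finrank C (RR D) ≤ r := by
    rw [← hspan]
    exact (finrank_range_le_card e).trans (le_of_eq (Fintype.card_fin r))
  have h5 : LinearIndependent F (fun i => (⟨R.res (e i), h1 (e i) (hmem i)⟩ :
      RR (Finsupp.mapDomain sp D : Dv F Λ))) := by
    apply LinearIndependent.of_comp (RR (Finsupp.mapDomain sp D : Dv F Λ)).subtype
    exact hind
  have h6 := h5.fintype_card_le_finrank
  rw [Fintype.card_fin] at h6
  unfold ell
  exact_mod_cast h4.trans h6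

end Pool.Agent.Lib.MP_c385f6_ag.TPG
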