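import Pool.Agent.Lib.MP_c385f6_ag.TPG.StCo

/-!
Project TPG, K9: a function with one pole.
-/

set_option autoImplicit false

namespace Pool.Agent.Lib.MP_c385f6_ag.TPG

universe u v

/-- K9. -/
theorem stPole (h0 : StOrd.{u, v}) (h1 : StRRF.{u, v}) (h2 : StRiem.{u, v}) :
    StPole.{u, v} := by
  intro F W _ _ _ _ hFF P
  have hO := h0 F W hFF
  have hR := h1 F W hFF
  obtain ⟨g, hg, -⟩ := h2 F W hFF
  set D : Dv F W := Finsupp.single P ((g : ℤ) + 1) with hD
  have hdg : dg D = (g : ℤ) + 1 := by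
    unfold dg
    rw [hD, Finsupp.sum_single_index rfl]
  have hell : 2 ≤ ell D := by
    have := hg.1 D
    rw [hdg] at this
    linarith
  have hfin := hR.fin D
  obtain ⟨f, hf, hfc⟩ : ∃ f ∈ RR D, ∀ c : F, f ≠ algebraMap F W c := by
    by_contra hcon
    push Not at hcon
    have hle : RR D ≤ Submodule.span F {(1 : W)} := by
      intro f hf
      obtain ⟨c, hc⟩ := hcon f hf
      rw [Submodule.mem_span_singleton]
      exact ⟨c, by rw [hc, Algebra.smul_def, mul_one]⟩
    have h3 := Submodule.finrank_mono hle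
    have h4 : Module.finrank F (Submodule.span F {(1 : W)}) = 1 :=
      finrank_span_singleton one_ne_zero
    unfold ell at hell
    omega
  have hf0 : f ≠ 0 := by
    intro h
    exact hfc 0 (by rw [h, map_zero])
  have hord := (hR.mem D f).1 hf hf0
  have hQ : ∀ Q : Plc F W, Q ≠ P → 0 ≤ ord Q f := by
    intro Q hQ
    have h3 := hord Q
    have h4 : D Q = 0 := by
      rw [hD]
      exact Finsupp.single_eq_of_ne hQ
    rw [h4, neg_zero] at h3
    exact h3
  refine ⟨f, fun hP => ?_, fun Q hne => (hO.mem Q f hf0).2 (hQ Q hne)⟩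
  have hP' := (hO.mem P f hf0).1 hP
  obtain ⟨c, hc⟩ := hR.const f hf0 (fun Q => by
    by_cases h : Q = P
    · rw [h]
      exact hP'
    · exact hQ Q h)
  exact hfc c hc

end Pool.Agent.Lib.MP_c385f6_ag.TPG
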