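import Pool.Agent.Lib.MP_c385f6_ag.TPG.StC

/-!
Project TPG, parts C9, C10: coordinates on the kernel of the reduction of divisor classes, and the
bijectivity of the reduction on the classes of `D_n` (`n` prime to the residue characteristic).

`x_1, ..., x_g` are distinct places of `Λ` with `l(x_1 + ... + x_g) = 1`, `u_i` is a coordinate of
the disc of `x_i`. A divisor `D` of degree `0` whose specialisation is principal is equivalent to
`∑ (P_i - Q_i)` with unique places `P_i` over `x_i` (`Q_i` is the place over `x_i` with coordinate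
`0`). The coordinates `e_i = u_i(P_i)` are the coordinates of `D`.
-/

set_option autoImplicit false

open Polynomial

namespace Pool.Agent.Lib.MP_c385f6_ag.TPG

universe u v u' v'

section Defs

variable {C : Type u} {L : Type v} {F : Type u'} {Λ : Type v'} [Field C] [Field L] [Field F]
  [Field Λ] [Algebra C L] [Algebra F Λ]

/-- The valuation on the constants. -/
noncomputable abbrev Red.v (R : Red C L F Λ) : Valuation C R.w.ValueGroup :=
  R.w.valuation.comap (algebraMap C L)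

/-- The sum of the places `P i`. -/
noncomputable def sm {F : Type u} {W : Type v} [Field F] [Field W] [Algebra F W] {g : ℕ}
    (P : Fin g → Plc F W) : Dv F W :=
  ∑ i, Finsupp.single (P i) (1 : ℤ)

/-- `x i` are distinct places of `Λ` with `l(∑ x i) = 1` and `u i` is a coordinate of the disc of
`x i`. -/
structure Frm (R : Red C L F Λ) (sp : Plc C L → Plc F Λ) {g : ℕ} (x : Fin g → Plc F Λ)
    (u : Fin g → L) : Prop where
  inj : Function.Injective x
  one : ell (sm x) = 1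
  crd : ∀ i, IsCrd R sp (x i) (u i)

/-- `P i` is the place in the disc of `x i` with coordinate `e i`. -/
def PtAt (sp : Plc C L → Plc F Λ) {g : ℕ} (x : Fin g → Plc F Λ) (u : Fin g → L) (e : Fin g → C)
    (P : Fin g → Plc C L) : Prop :=
  ∀ i, sp (P i) = x i ∧ 0 < ord (P i) (u i - algebraMap C L (e i))

/-- The divisor `D` is equivalent to `∑ (P i - Q i)`, where `P i` and `Q i` are the places in the
disc of `x i` with coordinate `e i` and `0`. -/
def IsCo (sp : Plc C L → Plc F Λ) {g : ℕ} (x : Fin g → Plc F Λ) (u : Fin g → L) (D : Dv C L)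
    (e : Fin g → C) : Prop :=
  ∃ (P Q : Fin g → Plc C L) (f : L), PtAt sp x u e P ∧ PtAt sp x u 0 Q ∧ f ≠ 0 ∧
    D + dv f = sm P - sm Q

/-- The degree of `D` is `0` and the specialisation of `D` is principal. -/
def IsJ (sp : Plc C L → Plc F Λ) (D : Dv C L) : Prop :=
  dg D = 0 ∧ ∃ y : Λ, y ≠ 0 ∧ Finsupp.mapDomain sp D = (dv y : Dv F Λ)

/-- `k₂` is discretely valued and complete; the valuation of `C` has rank one. -/
def IsDsc (R : Red C L F Λ) (k₂ : Subfield C) : Prop :=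
  ∃ π ∈ k₂, π ≠ 0 ∧ R.v π < 1 ∧ (∀ c ∈ k₂, R.v c < 1 → R.v c ≤ R.v π) ∧
    (∀ c : C, c ≠ 0 → ∃ j : ℕ, R.v π ^ j < R.v c) ∧
    ∀ s : ℕ → C, (∀ j, s j ∈ k₂) → (∀ j, R.v (s (j + 1) - s j) ≤ R.v π ^ j) →
      ∃ c ∈ k₂, ∀ j, R.v (c - s j) ≤ R.v π ^ j

/-- `Γ` is a group of automorphisms of `L`, stable on `C` and on `w`, such that the constants that
are fixed by the stabiliser of a finite set form a complete discretely valued field. -/
structure Cpt (R : Red C L F Λ) (Γ : Subgroup (L ≃+* L)) : Prop where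
  const : ∀ s ∈ Γ, ∀ c : C, ∃ c' : C, s (algebraMap C L c) = algebraMap C L c'
  mem : ∀ s ∈ Γ, ∀ f : L, f ∈ R.w → s f ∈ R.w
  dsc : ∀ S : Finset L, ∃ k₂ : Subfield C, IsDsc R k₂ ∧
    ∀ c : C, c ∈ k₂ ↔ ∀ s ∈ Γ, (∀ f ∈ S, s f = f) → s (algebraMap C L c) = algebraMap C L c

end Defs

/-- K1. General places: `g` distinct places with `l(x_1 + ... + x_g) = 1`. -/
def StGenD : Prop :=
  ∀ (F : Type u) (W : Type v) [Field F] [IsAlgClosed F] [Field W] [Algebra F W], FF F W →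
    ∀ g : ℕ, IsGenus F W g → ∃ x : Fin g → Plc F W, Function.Injective x ∧
      ell (sm x) = 1

/-- K2. Frames exist. -/
def StFrm : Prop :=
  ∀ (C : Type u) (L : Type v) (F : Type u') (Λ : Type v') [Field C] [IsAlgClosed C] [Field L]
    [Field F] [IsAlgClosed F] [Field Λ] [Algebra C L] [Algebra F Λ] (R : Red C L F Λ) (g : ℕ)
    (sp : Plc C L → Plc F Λ), Good R g → IsSp R sp →
    ∃ (x : Fin g → Plc F Λ) (u : Fin g → L), Frm R sp x u

/-- K3. `L(D)` reduces into `L(sp D)`, and `l(D) ≤ l(sp D)`. -/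
def StLe : Prop :=
  ∀ (C : Type u) (L : Type v) (F : Type u') (Λ : Type v') [Field C] [IsAlgClosed C] [Field L]
    [Field F] [IsAlgClosed F] [Field Λ] [Algebra C L] [Algebra F Λ] (R : Red C L F Λ) (g : ℕ)
    (sp : Plc C L → Plc F Λ), Good R g → IsSp R sp →
    ∀ D : Dv C L, (∀ f ∈ RR D, R.res f ∈ RR (Finsupp.mapDomain sp D : Dv F Λ)) ∧
      ell D ≤ ell (Finsupp.mapDomain sp D : Dv F Λ) ∧ dg (Finsupp.mapDomain sp D) = dg D

/-- K4. The key lemma: `G` has zeros and poles only in the discs of the `x i`, `V i` has the same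
zeros and poles as `G` in the disc of `x i`, and `V i = 1` modulo `β`, `(V i - 1) / β` has a
reduction with at most a simple pole at `x i`. Then these reductions have no pole at `x i`. -/
def StKey : Prop :=
  ∀ (C : Type u) (L : Type v) (F : Type u') (Λ : Type v') [Field C] [IsAlgClosed C] [Field L]
    [Field F] [IsAlgClosed F] [Field Λ] [Algebra C L] [Algebra F Λ] (R : Red C L F Λ) (g : ℕ)
    (sp : Plc C L → Plc F Λ), Good R g → IsSp R sp →
    ∀ (x : Fin g → Plc F Λ) (u : Fin g → L), Frm R sp x u →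
    ∀ (G : L) (V : Fin g → L) (β : C), G ≠ 0 → β ≠ 0 → R.v β < 1 →
      (∀ P, (∀ i, sp P ≠ x i) → ord P G = 0) → (∀ i, V i ≠ 0) →
      (∀ i P, sp P = x i → ord P G = ord P (V i)) →
      (∀ i, (V i - 1) / algebraMap C L β ∈ R.w) →
      (∀ i, -1 ≤ ord (x i) (R.res ((V i - 1) / algebraMap C L β))) →
      ∀ i, R.res ((V i - 1) / algebraMap C L β) ∈ (x i).ring

/-- K5. Points of the discs of the `x i`. -/
def StPt : Prop :=
  ∀ (C : Type u) (L : Type v) (F : Type u') (Λ : Type v') [Field C] [IsAlgClosed C] [Field L]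
    [Field F] [IsAlgClosed F] [Field Λ] [Algebra C L] [Algebra F Λ] (R : Red C L F Λ) (g : ℕ)
    (sp : Plc C L → Plc F Λ), Good R g → IsSp R sp →
    ∀ (x : Fin g → Plc F Λ) (u : Fin g → L), Frm R sp x u →
    (∀ e : Fin g → C, (∀ i, R.v (e i) < 1) → ∃ P, PtAt sp x u e P) ∧
    (∀ P : Fin g → Plc C L, (∀ i, sp (P i) = x i) → ∃ e, PtAt sp x u e P) ∧
    (∀ e P, PtAt sp x u e P → ∀ i, R.v (e i) < 1 ∧
      ord (P i) (u i - algebraMap C L (e i)) = 1 ∧
      ∀ Q, sp Q = x i → Q ≠ P i → ord Q (u i - algebraMap C L (e i)) = 0) ∧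
    (∀ e e' P P', PtAt sp x u e P → PtAt sp x u e' P' → (e = e' ↔ P = P')) ∧
    (∀ E : Dv C L, 0 ≤ E → Finsupp.mapDomain sp E = sm x →
      ∃ P : Fin g → Plc C L, (∀ i, sp (P i) = x i) ∧ E = sm P) ∧
    ∀ P : Fin g → Plc C L, (∀ i, sp (P i) = x i) →
      Finsupp.mapDomain sp (sm P) = sm x ∧ dg (sm P) = g

/-- K6. Existence and uniqueness of the coordinates. -/
def StCoE : Prop :=
  ∀ (C : Type u) (L : Type v) (F : Type u') (Λ : Type v') [Field C] [IsAlgClosed C] [Field L]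
    [Field F] [IsAlgClosed F] [Field Λ] [Algebra C L] [Algebra F Λ] (R : Red C L F Λ) (g : ℕ)
    (sp : Plc C L → Plc F Λ), Good R g → IsSp R sp →
    ∀ (x : Fin g → Plc F Λ) (u : Fin g → L), Frm R sp x u →
    (∀ D, IsJ sp D → ∃ e, IsCo sp x u D e) ∧ (∀ D e, IsCo sp x u D e → IsJ sp D) ∧
    (∀ D e e', IsCo sp x u D e → IsCo sp x u D e' → e = e') ∧
    (∀ D D', IsJ sp D → IsJ sp D' → IsJ sp (D + D') ∧ IsJ sp (D - D')) ∧
    (∀ (D : Dv C L) (f : L), f ≠ 0 → IsJ sp D → IsJ sp (D + dv f)) ∧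
    (∀ e P Q, PtAt sp x u e P → PtAt sp x u 0 Q → IsCo sp x u (sm P - sm Q) e) ∧
    ∀ D, IsCo sp x u D 0 → ∃ f : L, f ≠ 0 ∧ D = dv f

/-- K7. The coordinates of `D + D'`: `e'' = e + e'` up to the size of `e e'`. -/
def StCoA : Prop :=
  ∀ (C : Type u) (L : Type v) (F : Type u') (Λ : Type v') [Field C] [IsAlgClosed C] [Field L]
    [Field F] [IsAlgClosed F] [Field Λ] [Algebra C L] [Algebra F Λ] (R : Red C L F Λ) (g : ℕ)
    (sp : Plc C L → Plc F Λ), Good R g → IsSp R sp →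
    ∀ (x : Fin g → Plc F Λ) (u : Fin g → L), Frm R sp x u →
    ∀ (D D' : Dv C L) (e e' e'' : Fin g → C), IsCo sp x u D e → IsCo sp x u D' e' →
      IsCo sp x u (D + D') e'' →
      ∀ b : R.w.ValueGroup, (∀ i, R.v (e i * e' i) ≤ b) → ∀ i, R.v (e'' i - e i - e' i) ≤ b

/-- K8. The coordinates of `n D`: `n e` up to the size of `e ^ 2`. The coordinates of `D - n D'`
where `e = n e'`: of the size of `e ^ 2`. The distance of the coordinates of `D` and `D'` is the
size of the coordinates of `D - D'`. -/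
def StCoN : Prop :=
  ∀ (C : Type u) (L : Type v) (F : Type u') (Λ : Type v') [Field C] [IsAlgClosed C] [Field L]
    [Field F] [IsAlgClosed F] [Field Λ] [Algebra C L] [Algebra F Λ] (R : Red C L F Λ) (g : ℕ)
    (sp : Plc C L → Plc F Λ), Good R g → IsSp R sp →
    ∀ (x : Fin g → Plc F Λ) (u : Fin g → L), Frm R sp x u →
    (∀ (n : ℕ) (D : Dv C L) (e e' : Fin g → C), IsCo sp x u D e → IsCo sp x u (n • D) e' →
      ∀ b : R.w.ValueGroup, b < 1 → (∀ i, R.v (e i) ≤ b) → ∀ i, R.v (e' i - n * e i) ≤ b * b) ∧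
    (∀ (n : ℕ) (D D' : Dv C L) (e e' e'' : Fin g → C), IsCo sp x u D e → IsCo sp x u D' e' →
      IsCo sp x u (D - n • D') e'' → (∀ i, e i = n * e' i) →
      ∀ b : R.w.ValueGroup, b < 1 → (∀ i, R.v (e' i) ≤ b) → ∀ i, R.v (e'' i) ≤ b * b) ∧
    ∀ (D D' : Dv C L) (e e' e'' : Fin g → C), IsCo sp x u D e → IsCo sp x u D' e' →
      IsCo sp x u (D - D') e'' → ∀ b : R.w.ValueGroup,
        ((∀ i, R.v (e i - e' i) ≤ b) ↔ ∀ i, R.v (e'' i) ≤ b)

/-- K9. Places are determined by functions: `z` has its only pole at `P`. -/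
def StPole : Prop :=
  ∀ (F : Type u) (W : Type v) [Field F] [IsAlgClosed F] [Field W] [Algebra F W], FF F W →
    ∀ P : Plc F W, ∃ z : W, z ∉ P.ring ∧ ∀ Q : Plc F W, Q ≠ P → z ∈ Q.ring

/-- K10. Automorphisms `s` and coordinates. -/
def StCoS : Prop :=
  ∀ (C : Type u) (L : Type v) (F : Type u') (Λ : Type v') [Field C] [IsAlgClosed C] [Field L]
    [Field F] [IsAlgClosed F] [Field Λ] [Algebra C L] [Algebra F Λ] (R : Red C L F Λ) (g : ℕ)
    (sp : Plc C L → Plc F Λ), Good R g → IsSp R sp →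
    ∀ (x : Fin g → Plc F Λ) (u : Fin g → L), Frm R sp x u →
    ∀ s : L ≃+* L, (∀ c : C, ∃ c' : C, s (algebraMap C L c) = algebraMap C L c') →
      (∀ c : C, ∃ c' : C, s.symm (algebraMap C L c) = algebraMap C L c') →
      (∀ f : L, f ∈ R.w → s f ∈ R.w) → (∀ f : L, f ∈ R.w → s.symm f ∈ R.w) →
      (∀ i, s (u i) = u i) → (∀ Q, PtAt sp x u 0 Q → ∀ i, Mv s (Q i) (Q i)) →
      (∀ (D : Dv C L) (e : Fin g → C), IsCo sp x u D e → (∀ P ∈ D.support, Mv s P P) →
        ∀ i, s (algebraMap C L (e i)) = algebraMap C L (e i)) ∧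
      ∀ (e : Fin g → C) (P : Fin g → Plc C L), PtAt sp x u e P →
        (∀ i, s (algebraMap C L (e i)) = algebraMap C L (e i)) → ∀ i, Mv s (P i) (P i)

/-- K11. Division by `n`: `k₂` is complete, `Inv` is a group of divisors whose coordinates are in
`k₂` and which contains the divisors `∑ (P i - Q i)` for coordinates in `k₂`. -/
def StDivN : Prop :=
  ∀ (C : Type u) (L : Type v) (F : Type u') (Λ : Type v') [Field C] [IsAlgClosed C] [Field L]
    [Field F] [IsAlgClosed F] [Field Λ] [Algebra C L] [Algebra F Λ] (R : Red C L F Λ) (g : ℕ)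
    (sp : Plc C L → Plc F Λ), Good R g → IsSp R sp →
    ∀ (x : Fin g → Plc F Λ) (u : Fin g → L), Frm R sp x u →
    ∀ (k₂ : Subfield C) (Inv : AddSubgroup (Dv C L)), IsDsc R k₂ →
      (∀ D ∈ Inv, ∀ e, IsCo sp x u D e → ∀ i, e i ∈ k₂) →
      (∀ e P Q, (∀ i, e i ∈ k₂) → PtAt sp x u e P → PtAt sp x u 0 Q → sm P - sm Q ∈ Inv) →
      ∀ (n : ℕ) (D : Dv C L), (n : F) ≠ 0 → D ∈ Inv → IsJ sp D →
        ∃ P Q : Fin g → Plc C L, (∀ i, sp (P i) = x i) ∧ PtAt sp x u 0 Q ∧
          IsCo sp x u (D - n • (sm P - sm Q)) 0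

/-- C10 (S). Surjectivity of the reduction on classes of `D_n`. -/
def StSurG : Prop :=
  ∀ (C : Type u) (L : Type v) (F : Type u') (Λ : Type v') [Field C] [IsAlgClosed C] [Field L]
    [Field F] [IsAlgClosed F] [Field Λ] [Algebra C L] [Algebra F Λ] (R : Red C L F Λ) (g : ℕ)
    (Γ : Subgroup (L ≃+* L)), Good R g → Cpt R Γ → ∀ (n : ℕ) (y : Λ), (n : F) ≠ 0 → y ∈ Dn F n →
      ∃ (f : L) (b : Λ), f ∈ Dn C n ∧ b ≠ 0 ∧ R.res f = y * b ^ n

end Pool.Agent.Lib.MP_c385f6_ag.TPG
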