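import Mathlib
import Pool.Agent.Lib.MP_c385f6_ag.TPG.StCo
import Pool.Agent.Lib.MP_c385f6_ag.TPG.ARRF

/-!
Project TPG, K5: points of the discs.
-/

set_option autoImplicit false

open Polynomial

namespace Pool.Agent.Lib.MP_c385f6_ag.TPG

universe u v u' v'

namespace PtAux

open RRFAux

section

variable {F : Type u} {W : Type v} [Field F] [Field W] [Algebra F W]

theorem ne_zero_of_ord {P : Plc F W} {x : W} (h : 0 < ord P x) : x ≠ 0 := by
  rintro rfl
  rw [ord_zero] at h
  exact lt_irrefl _ h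

theorem const_eq (O : OrdF F W) {P : Plc F W} {z : W} {c c' : F}
    (h : 0 < ord P (z - algebraMap F W c)) (h' : 0 < ord P (z - algebraMap F W c')) : c = c' := by
  by_contra hne
  have h1 := (O.lt P _ (ne_zero_of_ord h)).2 h
  have h2 := (O.lt P _ (ne_zero_of_ord h')).2 h'
  have h3 : P.ring.valuation (algebraMap F W (c - c')) < 1 := by
    have h4 : algebraMap F W (c - c') = (z - algebraMap F W c') - (z - algebraMap F W c) := by
      rw [map_sub]; ring
    rw [h4]
    exact (Valuation.map_sub _ _ _).trans_lt (max_lt h2 h1)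
  have h4 : algebraMap F W (c - c') ≠ 0 := by
    rwa [Ne, map_eq_zero, sub_eq_zero]
  rw [O.lt _ _ h4, ord_const O] at h3
  exact lt_irrefl _ h3

theorem dg_sm {g : ℕ} (P : Fin g → Plc F W) : dg (sm P) = g := by
  have h : ∀ s : Finset (Fin g), dg (∑ i ∈ s, Finsupp.single (P i) (1 : ℤ)) = s.card := by
    intro s
    induction s using Finset.induction_on with
    | empty => rw [Finset.sum_empty, Finset.card_empty]; exact Finsupp.sum_zero_index
    | insert a s ha ih =>
      rw [Finset.sum_insert ha, dg_add, dg_single, ih, Finset.card_insert_of_notMem ha]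
      push_cast
      ring
  unfold sm
  rw [h, Finset.card_univ, Fintype.card_fin]

theorem dg_map {F' : Type u'} {W' : Type v'} [Field F'] [Field W'] [Algebra F' W']
    (sp : Plc F W → Plc F' W') (D : Dv F W) : dg (Finsupp.mapDomain sp D) = dg D :=
  Finsupp.sum_mapDomain_index (fun _ => rfl) (fun _ _ _ => rfl)

theorem map_sm {F' : Type u'} {W' : Type v'} [Field F'] [Field W'] [Algebra F' W']
    (sp : Plc F W → Plc F' W') {g : ℕ} (P : Fin g → Plc F W) (x : Fin g → Plc F' W')
    (h : ∀ i, sp (P i) = x i) : Finsupp.mapDomain sp (sm P) = sm x := by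
  unfold sm
  rw [Finsupp.mapDomain_finsetSum]
  refine Finset.sum_congr rfl fun i _ => ?_
  rw [Finsupp.mapDomain_single, h i]

open Classical in
theorem sm_apply {g : ℕ} (P : Fin g → Plc F W) (Q : Plc F W) :
    sm P Q = ∑ i, if P i = Q then (1 : ℤ) else 0 := by
  unfold sm
  rw [Finsupp.finsetSum_apply]
  refine Finset.sum_congr rfl fun i _ => ?_
  rw [Finsupp.single_apply]

theorem sm_self {g : ℕ} {P : Fin g → Plc F W} (hP : Function.Injective P) (i : Fin g) :
    sm P (P i) = 1 := by
  classical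
  rw [sm_apply, Finset.sum_eq_single i]
  · rw [if_pos rfl]
  · intro j _ hj
    rw [if_neg fun h => hj (hP h)]
  · intro h
    exact absurd (Finset.mem_univ i) h

theorem sm_out {g : ℕ} {P : Fin g → Plc F W} {Q : Plc F W} (hQ : ∀ i, P i ≠ Q) :
    sm P Q = 0 := by
  classical
  rw [sm_apply]
  exact Finset.sum_eq_zero fun i _ => if_neg (hQ i)

end

end PtAux

open PtAux RRFAux

theorem stPt (h0 : StOrd.{u, v}) (h1 : StCrd.{u, v, u', v'}) : StPt.{u, v, u', v'} := by
  classical
  intro C L F Λ _ _ _ _ _ _ _ _ R g sp hG hsp x z hF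
  have O : OrdF C L := h0 C L hG.ffC
  obtain ⟨-, hc⟩ := h1 C L F Λ R g sp hG hsp
  have key : ∀ e P, PtAt sp x z e P → ∀ i, R.v (e i) < 1 ∧
      ord (P i) (z i - algebraMap C L (e i)) = 1 ∧
      ∀ Q, sp Q = x i → Q ≠ P i → ord Q (z i - algebraMap C L (e i)) = 0 := by
    intro e P hP i
    obtain ⟨hPi, hpos⟩ := hP i
    obtain ⟨c1, c2⟩ := hc (x i) (z i) (hF.crd i)
    obtain ⟨c, hc1, hc2⟩ := c2 (P i) hPi
    have hce : c = e i := const_eq O (by rw [hc2]; exact one_pos) hpos
    rw [hce] at hc1 hc2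
    obtain ⟨P', -, -, hP''⟩ := c1 (e i) hc1
    have hPP : P i = P' := by
      by_contra hne
      have := hP'' (P i) hPi hne
      rw [hc2] at this
      exact one_ne_zero this
    refine ⟨hc1, hc2, fun Q hQ hQP => hP'' Q hQ ?_⟩
    rwa [← hPP]
  refine ⟨?_, ?_, key, ?_, ?_, ?_⟩
  · intro e he
    have h2 : ∀ i, ∃ P, sp P = x i ∧ 0 < ord P (z i - algebraMap C L (e i)) := by
      intro i
      obtain ⟨P, hP, hP', -⟩ := (hc (x i) (z i) (hF.crd i)).1 (e i) (he i)
      exact ⟨P, hP, by rw [hP']; exact one_pos⟩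
    choose P hP using h2
    exact ⟨P, hP⟩
  · intro P hP
    have h2 : ∀ i, ∃ c : C, 0 < ord (P i) (z i - algebraMap C L c) := by
      intro i
      obtain ⟨c, -, hc'⟩ := (hc (x i) (z i) (hF.crd i)).2 (P i) (hP i)
      exact ⟨c, by rw [hc']; exact one_pos⟩
    choose e he using h2
    exact ⟨e, fun i => ⟨hP i, he i⟩⟩
  · intro e e' P P' hP hP'
    constructor
    · rintro rfl
      funext i
      by_contra hne
      have h2 := (key e P hP i).2.2 (P' i) (hP' i).1 fun h => hne h.symm
      have h3 := (hP' i).2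
      rw [h2] at h3
      exact lt_irrefl _ h3
    · rintro rfl
      funext i
      exact const_eq O (hP i).2 (hP' i).2
  · intro E hE hmap
    have h2 : ∀ i, ∃ P, sp P = x i ∧ 1 ≤ E P := by
      intro i
      have h3 : x i ∈ (Finsupp.mapDomain sp E).support := by
        rw [Finsupp.mem_support_iff, hmap, sm_self hF.inj i]
        exact one_ne_zero
      obtain ⟨P, hP, hP'⟩ := Finset.mem_image.1 (Finsupp.mapDomain_support h3)
      refine ⟨P, hP', ?_⟩
      have h4 : E P ≠ 0 := Finsupp.mem_support_iff.1 hP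
      have h5 : 0 ≤ E P := hE P
      omega
    choose P hP hEP using h2
    have hPi : Function.Injective P := by
      intro i j hij
      apply hF.inj
      rw [← hP i, ← hP j, hij]
    refine ⟨P, hP, ?_⟩
    have hle : sm P ≤ E := by
      intro Q
      by_cases hQ : ∃ i, P i = Q
      · obtain ⟨i, rfl⟩ := hQ
        rw [sm_self hPi i]
        exact hEP i
      · push Not at hQ
        rw [sm_out hQ]
        exact hE Q
    refine (eq_of_dg hle ?_).symm
    rw [← dg_map sp E, hmap, dg_sm, dg_sm]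
  · intro P hP
    exact ⟨map_sm sp P x hP, dg_sm P⟩

end Pool.Agent.Lib.MP_c385f6_ag.TPG
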