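import Pool.Agent.Lib.MP_c385f6_ag.TPG.StCo

/-!
Project TPG, module K13: surjectivity of the reduction on the classes of `D_n`.
-/

set_option autoImplicit false

open Polynomial

namespace Pool.Agent.Lib.MP_c385f6_ag.TPG

universe u v u' v'

namespace KSurGAux

theorem dg_eq {F : Type u} {W : Type v} [Field F] [Field W] [Algebra F W] (D : Dv F W) :
    dg D = Finsupp.liftAddHom (fun _ : Plc F W => AddMonoidHom.id ℤ) D := rfl

theorem dg_nsmul {F : Type u} {W : Type v} [Field F] [Field W] [Algebra F W] (n : ℕ)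
    (D : Dv F W) : dg (n • D) = n • dg D := by
  rw [dg_eq, dg_eq, map_nsmul]

theorem dg_mapDomain {F : Type u} {W : Type v} [Field F] [Field W] [Algebra F W]
    {F' : Type u'} {W' : Type v'} [Field F'] [Field W'] [Algebra F' W']
    (f : Plc F W → Plc F' W') (D : Dv F W) : dg (Finsupp.mapDomain f D : Dv F' W') = dg D := by
  unfold dg
  exact Finsupp.sum_mapDomain_index (fun _ => rfl) (fun _ _ _ => rfl)

/-- an automorphism which fixes a function with its only pole at `P` fixes `P` -/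
theorem fix {C : Type u} {L : Type v} [Field C] [Field L] [Algebra C L] (s : L ≃+* L)
    (h1 : ∀ c : C, ∃ c' : C, s.symm (algebraMap C L c) = algebraMap C L c') (P : Plc C L) (z : L)
    (hz : z ∉ P.ring) (hz' : ∀ Q : Plc C L, Q ≠ P → z ∈ Q.ring) (hs : s z = z) : Mv s P P := by
  have hs' : s.symm z = z := by
    rw [RingEquiv.symm_apply_eq]
    exact hs.symm
  let P' : Plc C L :=
    { ring := P.ring.comap (s.symm : L →+* L)
      ne_top := by
        intro h
        have h2 : z ∈ P.ring.comap (s.symm : L →+* L) := by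
          rw [h]
          trivial
        have h3 : s.symm z ∈ P.ring := h2
        rw [hs'] at h3
        exact hz h3
      const_mem := fun c => by
        obtain ⟨c', hc'⟩ := h1 c
        change s.symm (algebraMap C L c) ∈ P.ring
        rw [hc']
        exact P.const_mem c' }
  have hP' : P' = P := by
    by_contra h
    have h2 : s.symm z ∈ P.ring := hz' P' h
    rw [hs'] at h2
    exact hz h2
  intro a
  have h2 : s a ∈ P'.ring ↔ s.symm (s a) ∈ P.ring := Iff.rfl
  rw [hP', s.symm_apply_apply] at h2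
  exact h2.symm

end KSurGAux

open KSurGAux in
/-- C10 (S) -/
theorem stSurG (hON : StON.{u, v, u', v'}) (hSp : StSp.{u, v, u', v'})
    (hDsc : StDsc.{u, v, u', v'}) (hR : StRRF.{u, v}) (hR' : StRRF.{u', v'})
    (hOrd : StOrd.{u, v}) (hOrd' : StOrd.{u', v'})
    (hFrm : StFrm.{u, v, u', v'}) (hPt : StPt.{u, v, u', v'}) (hCoE : StCoE.{u, v, u', v'})
    (hPole : StPole.{u, v}) (hCoS : StCoS.{u, v, u', v'}) (hDivN : StDivN.{u, v, u', v'}) :
    StSurG.{u, v, u', v'} := by
  classical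
  intro C L F Λ _ _ _ _ _ _ _ _ R g Γ hG hC n y hn hy
  obtain ⟨sp, hsp, -⟩ := hSp C L F Λ R g hG
  have hsurj := (hDsc C L F Λ R g sp hG hsp).1
  obtain ⟨x, u, hF⟩ := hFrm C L F Λ R g sp hG hsp
  obtain ⟨p1, p2, p3, p4, p5, p6⟩ := hPt C L F Λ R g sp hG hsp x u hF
  obtain ⟨c1, c2, c3, c4, c5, c6, c7⟩ := hCoE C L F Λ R g sp hG hsp x u hF
  have rC := hR C L hG.ffC
  have rF := hR' F Λ hG.ffF
  have oC := hOrd C L hG.ffC
  have oF := hOrd' F Λ hG.ffF
  have hn0 : n ≠ 0 := by
    rintro rfl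
    exact hn Nat.cast_zero
  obtain ⟨hy0, hyn⟩ := hy
  -- the divisor `D0`
  let D0 : Dv F Λ := (dv y : Dv F Λ).mapRange (fun k => k / (n : ℤ)) (Int.zero_ediv _)
  have hD0 : n • D0 = (dv y : Dv F Λ) := by
    ext P
    have e1 : (n • D0) P = (n : ℤ) * ((dv y : Dv F Λ) P / n) := by
      rw [Finsupp.smul_apply, nsmul_eq_mul]
      rfl
    rw [e1, rF.dv_apply y P hy0]
    exact Int.mul_ediv_cancel' (hyn P)
  have hdg0 : dg D0 = 0 := by
    have h1 := dg_nsmul n D0
    rw [hD0, rF.dg_dv y hy0, nsmul_eq_mul] at h1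
    rcases mul_eq_zero.1 h1.symm with h | h
    · exact absurd (by exact_mod_cast h) hn0
    · exact h
  -- the lift
  let σ : Plc F Λ → Plc C L := Function.surjInv hsurj
  have hσ : sp ∘ σ = id := by
    funext P
    exact Function.surjInv_eq hsurj P
  let D : Dv C L := Finsupp.mapDomain σ D0
  have hD : (Finsupp.mapDomain sp D : Dv F Λ) = D0 := by
    change Finsupp.mapDomain sp (Finsupp.mapDomain σ D0) = D0
    rw [← Finsupp.mapDomain_comp, hσ, Finsupp.mapDomain_id]
  have hJ : IsJ sp (n • D) := by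
    refine ⟨?_, y, hy0, ?_⟩
    · rw [dg_nsmul]
      change n • dg (Finsupp.mapDomain σ D0 : Dv C L) = 0
      rw [dg_mapDomain, hdg0, smul_zero]
    · have h1 : Finsupp.mapDomain sp (n • D) = n • (Finsupp.mapDomain sp D : Dv F Λ) :=
        map_nsmul (Finsupp.mapDomain.addMonoidHom sp) n D
      rw [h1, hD, hD0]
  obtain ⟨Q, hQ⟩ := p1 0 (fun i => by
    rw [Pi.zero_apply, map_zero]
    exact one_pos)
  choose zz hz1 hz2 using hPole C L hG.ffC
  -- the finite set
  let S : Finset L := Finset.univ.image u ∪ (D.support ∪ Finset.univ.image Q).image zz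
  have hSu : ∀ i, u i ∈ S := fun i =>
    Finset.mem_union_left _ (Finset.mem_image_of_mem _ (Finset.mem_univ i))
  have hSD : ∀ P ∈ D.support, zz P ∈ S := fun P hP =>
    Finset.mem_union_right _ (Finset.mem_image_of_mem _ (Finset.mem_union_left _ hP))
  have hSQ : ∀ i, zz (Q i) ∈ S := fun i =>
    Finset.mem_union_right _ (Finset.mem_image_of_mem _ (Finset.mem_union_right _
      (Finset.mem_image_of_mem _ (Finset.mem_univ i))))
  obtain ⟨k₂, hk, hk'⟩ := hC.dsc S
  have hfix : ∀ s ∈ Γ, (∀ f ∈ S, s f = f) → ∀ P : Plc C L, zz P ∈ S → Mv s P P := by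
    intro s hs hsf P hP
    exact fix s (fun c => hC.const s⁻¹ (Γ.inv_mem hs) c) P (zz P) (hz1 P) (hz2 P) (hsf _ hP)
  have hQu : ∀ Q', PtAt sp x u 0 Q' → Q' = Q := fun Q' hQ' => ((p4 0 0 Q' Q hQ' hQ).1 rfl)
  have hco := fun (s : L ≃+* L) (hs : s ∈ Γ) (hsf : ∀ f ∈ S, s f = f) =>
    hCoS C L F Λ R g sp hG hsp x u hF s (hC.const s hs) (fun c => hC.const s⁻¹ (Γ.inv_mem hs) c)
      (hC.mem s hs) (fun f hf => hC.mem s⁻¹ (Γ.inv_mem hs) f hf) (fun i => hsf _ (hSu i))
      (fun Q' hQ' i => by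
        rw [hQu Q' hQ']
        exact hfix s hs hsf _ (hSQ i))
  let Inv : AddSubgroup (Dv C L) :=
    { carrier := {D' | ∀ P ∈ D'.support, ∀ s ∈ Γ, (∀ f ∈ S, s f = f) → Mv s P P}
      add_mem' := by
        intro a b ha hb P hP s hs hsf
        rcases Finset.mem_union.1 (Finsupp.support_add hP) with h | h
        · exact ha P h s hs hsf
        · exact hb P h s hs hsf
      zero_mem' := by
        intro P hP
        rw [Finsupp.support_zero] at hP
        exact absurd hP (Finset.notMem_empty P)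
      neg_mem' := by
        intro a ha P hP s hs hsf
        rw [Finsupp.support_neg] at hP
        exact ha P hP s hs hsf }
  have hInv : ∀ D' : Dv C L, D' ∈ Inv ↔
      ∀ P ∈ D'.support, ∀ s ∈ Γ, (∀ f ∈ S, s f = f) → Mv s P P := fun _ => Iff.rfl
  have hInvS : ∀ P : Fin g → Plc C L,
      (∀ i, ∀ s ∈ Γ, (∀ f ∈ S, s f = f) → Mv s (P i) (P i)) → sm P ∈ Inv := by
    intro P hP
    unfold sm
    refine AddSubgroup.sum_mem _ fun i _ => ?_
    rw [hInv]
    intro P' hP' s hs hsf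
    have h1 := Finsupp.support_single_subset hP'
    rw [Finset.mem_singleton] at h1
    rw [h1]
    exact hP i s hs hsf
  have hI1 : ∀ D' ∈ Inv, ∀ e, IsCo sp x u D' e → ∀ i, e i ∈ k₂ := by
    intro D' hD' e he i
    rw [hk']
    intro s hs hsf
    exact (hco s hs hsf).1 D' e he (fun P hP => hD' P hP s hs hsf) i
  have hI2 : ∀ e P Q', (∀ i, e i ∈ k₂) → PtAt sp x u e P → PtAt sp x u 0 Q' →
      sm P - sm Q' ∈ Inv := by
    intro e P Q' he hP hQ'
    refine sub_mem (hInvS P fun i s hs hsf => ?_) (hInvS Q' fun i s hs hsf => ?_)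
    · exact (hco s hs hsf).2 e P hP (fun i => (hk' (e i)).1 (he i) s hs hsf) i
    · rw [hQu Q' hQ']
      exact hfix s hs hsf _ (hSQ i)
  have hDI : n • D ∈ Inv := by
    refine nsmul_mem ?_ n
    rw [hInv]
    intro P hP s hs hsf
    exact hfix s hs hsf P (hSD P hP)
  obtain ⟨P, Q', hP, hQ', hPQ⟩ := hDivN C L F Λ R g sp hG hsp x u hF k₂ Inv hk hI1 hI2 n (n • D)
    hn hDI hJ
  obtain ⟨f, hf0, hf⟩ := c7 _ hPQ
  have hf' : n • (D - (sm P - sm Q')) = (dv f : Dv C L) := by
    rw [smul_sub]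
    exact hf
  obtain ⟨c, hc0, hc⟩ := (hON C L F Λ R g hG).2.2 f hf0
  have hcC : algebraMap C L c ≠ 0 := by
    rw [Ne, map_eq_zero]
    exact hc0
  have hcf : algebraMap C L c * f ≠ 0 := mul_ne_zero hcC hf0
  have hord : ∀ P : Plc C L, ord P (algebraMap C L c * f) = ord P f := fun P => by
    rw [oC.mul P _ _ hcC hf0, rC.ord_const, zero_add]
  have hdv : (dv (algebraMap C L c * f) : Dv C L) = dv f := by
    ext P
    rw [rC.dv_apply _ P hcf, rC.dv_apply _ P hf0, hord]
  have hsp1 := hsp _ hc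
  rw [hdv, ← hf'] at hsp1
  have hsp2 : Finsupp.mapDomain sp (n • (D - (sm P - sm Q'))) = (dv y : Dv F Λ) := by
    have e1 : Finsupp.mapDomain sp (n • (D - (sm P - sm Q'))) =
        n • ((Finsupp.mapDomain sp D : Dv F Λ) - (Finsupp.mapDomain sp (sm P) -
          Finsupp.mapDomain sp (sm Q'))) := by
      have h1 := map_nsmul (Finsupp.mapDomain.addMonoidHom sp) n (D - (sm P - sm Q'))
      have h2 := map_sub (Finsupp.mapDomain.addMonoidHom (M := ℤ) sp) D (sm P - sm Q')
      have h3 := map_sub (Finsupp.mapDomain.addMonoidHom (M := ℤ) sp) (sm P) (sm Q')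
      rw [h3] at h2
      rw [h2] at h1
      exact h1
    rw [e1, hD, (p6 P hP).1, (p6 Q' fun i => (hQ' i).1).1, sub_self, sub_zero, hD0]
  rw [hsp2] at hsp1
  -- `res (c f)` and `y` differ by a constant
  have hq0 : R.res (algebraMap C L c * f) / y ≠ 0 := div_ne_zero hc hy0
  have hordq : ∀ P : Plc F Λ, 0 ≤ ord P (R.res (algebraMap C L c * f) / y) := by
    intro P
    have h1 := oF.mul P (R.res (algebraMap C L c * f) / y) y hq0 hy0
    rw [div_mul_cancel₀ _ hy0] at h1
    have h2 := DFunLike.congr_fun hsp1 P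
    rw [rF.dv_apply y P hy0, rF.dv_apply _ P hc] at h2
    linarith
  obtain ⟨b', hb'⟩ := rF.const _ hq0 hordq
  have hb0 : b' ≠ 0 := by
    rintro rfl
    rw [map_zero] at hb'
    exact hq0 hb'
  obtain ⟨b, hb⟩ := IsAlgClosed.exists_pow_nat_eq b' (Nat.pos_of_ne_zero hn0)
  refine ⟨algebraMap C L c * f, algebraMap F Λ b, ⟨hcf, fun P => ?_⟩, ?_, ?_⟩
  · rw [hord, ← rC.dv_apply f P hf0, ← hf', Finsupp.smul_apply, nsmul_eq_mul]
    exact dvd_mul_right _ _
  · rw [Ne, map_eq_zero]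
    rintro rfl
    rw [zero_pow hn0] at hb
    exact hb0 hb.symm
  · rw [← map_pow, hb, ← hb', mul_div_cancel₀ _ hy0]

end Pool.Agent.Lib.MP_c385f6_ag.TPG
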