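import Pool.Agent.Lib.MP_c385f6_ag.TPG.ACot
import Pool.Agent.Lib.MP_c385f6_ag.TPG.ADeg
import Pool.Agent.Lib.MP_c385f6_ag.TPG.AKum
import Pool.Agent.Lib.MP_c385f6_ag.TPG.AOrd
import Pool.Agent.Lib.MP_c385f6_ag.TPG.AOver
import Pool.Agent.Lib.MP_c385f6_ag.TPG.ARRF
import Pool.Agent.Lib.MP_c385f6_ag.TPG.ARat
import Pool.Agent.Lib.MP_c385f6_ag.TPG.AResF
import Pool.Agent.Lib.MP_c385f6_ag.TPG.ARiem
import Pool.Agent.Lib.MP_c385f6_ag.TPG.ATrans
import Pool.Agent.Lib.MP_c385f6_ag.TPG.AWA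
import Pool.Agent.Lib.MP_c385f6_ag.TPG.AZero
import Pool.Agent.Lib.MP_c385f6_ag.TPG.CBar
import Pool.Agent.Lib.MP_c385f6_ag.TPG.CCrd
import Pool.Agent.Lib.MP_c385f6_ag.TPG.CDnR
import Pool.Agent.Lib.MP_c385f6_ag.TPG.CDsc
import Pool.Agent.Lib.MP_c385f6_ag.TPG.CEqv
import Pool.Agent.Lib.MP_c385f6_ag.TPG.CEt
import Pool.Agent.Lib.MP_c385f6_ag.TPG.COnb
import Pool.Agent.Lib.MP_c385f6_ag.TPG.CSp
import Pool.Agent.Lib.MP_c385f6_ag.TPG.DOIv
import Pool.Agent.Lib.MP_c385f6_ag.TPG.DTwAct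
import Pool.Agent.Lib.MP_c385f6_ag.TPG.DTwAut
import Pool.Agent.Lib.MP_c385f6_ag.TPG.DTwDir
import Pool.Agent.Lib.MP_c385f6_ag.TPG.DTwGood
import Pool.Agent.Lib.MP_c385f6_ag.TPG.DTwImg
import Pool.Agent.Lib.MP_c385f6_ag.TPG.DTwUq
import Pool.Agent.Lib.MP_c385f6_ag.TPG.KCoA
import Pool.Agent.Lib.MP_c385f6_ag.TPG.KCoE
import Pool.Agent.Lib.MP_c385f6_ag.TPG.KCoN
import Pool.Agent.Lib.MP_c385f6_ag.TPG.KCoS
import Pool.Agent.Lib.MP_c385f6_ag.TPG.KDivN
import Pool.Agent.Lib.MP_c385f6_ag.TPG.KFrm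
import Pool.Agent.Lib.MP_c385f6_ag.TPG.KGenD
import Pool.Agent.Lib.MP_c385f6_ag.TPG.KInj
import Pool.Agent.Lib.MP_c385f6_ag.TPG.KKey
import Pool.Agent.Lib.MP_c385f6_ag.TPG.KLe
import Pool.Agent.Lib.MP_c385f6_ag.TPG.KPole
import Pool.Agent.Lib.MP_c385f6_ag.TPG.KPt
import Pool.Agent.Lib.MP_c385f6_ag.TPG.KSurG

/-!
Project TPG: the statements of parts A, C, CO, D without hypotheses.
-/

set_option autoImplicit false

namespace Pool.Agent.Lib.MP_c385f6_ag.TPG.All

universe u v u' v' w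

theorem ord : StOrd.{u, v} := stOrd
theorem resF : StResF.{u, v} := stResF
theorem wa : StWA.{u, v} := stWA
theorem zero : StZero.{u, v} := stZero ord resF wa
theorem deg : StDeg.{u, v} := stDeg ord resF wa zero
theorem rrf : StRRF.{u, v} := stRRF ord resF wa zero deg
theorem riem : StRiem.{u, v} := stRiem ord resF wa zero deg rrf
theorem rat : StRat.{u, v} := stRat ord zero deg rrf riem
theorem ovr : StOver.{u, v, w} := stOver ord ord zero zero deg deg rrf riem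
theorem trans : StTrans.{u, v, w} := stTrans
theorem kum : StKum.{u, v, w} := stKum ord ord resF rrf rrf ovr
theorem cot : StCot.{u, v} := stCot ord resF
theorem genD : StGenD.{u, v} := stGenD rrf
theorem pole : StPole.{u, v} := stPole ord rrf riem
theorem oIv : StOIv.{u, v, u', v'} := stOIv

theorem on : StON.{u, v, u', v'} := stON
theorem bar : StBar.{u, v, u', v'} := stBar on ord ord zero zero deg deg rrf rrf
theorem sp : StSp.{u, v, u', v'} := stSp bar ord ord rrf rrf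
theorem eqv : StEqv.{u, v, u', v'} := stEqv sp
theorem dsc : StDsc.{u, v, u', v'} := stDsc ord ord resF rrf rrf
theorem crd : StCrd.{u, v, u', v'} := stCrd ord ord rrf rrf bar dsc
theorem dnR : StDnR.{u, v, u', v'} := stDnR rrf rrf sp
theorem frm : StFrm.{u, v, u', v'} := stFrm genD dsc crd
theorem le : StLe.{u, v, u', v'} := stLe on rrf rrf
theorem key : StKey.{u, v, u', v'} := stKey ord ord on dsc rrf
theorem pt : StPt.{u, v, u', v'} := stPt ord crd
theorem coE : StCoE.{u, v, u', v'} := stCoE ord ord rrf rrf on le pt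
theorem coA : StCoA.{u, v, u', v'} := stCoA key pt ord ord rrf rrf
theorem coN : StCoN.{u, v, u', v'} := stCoN pt coE coA
theorem coS : StCoS.{u, v, u', v'} := stCoS rrf eqv pt coE
theorem divN : StDivN.{u, v, u', v'} := stDivN coE coN pt
theorem inj : StInj.{u, v, u', v'} := stInj ord ord rrf rrf sp frm pt coE coN
theorem surG : StSurG.{u, v, u', v'} :=
  stSurG on sp dsc rrf rrf ord ord frm pt coE pole coS divN
theorem et : StEt.{u, v, u', v'} := stEt ord ovr ovr riem riem kum kum on inj dnR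

theorem twDir : StTwDir.{u, v} := stTwDir ovr
theorem twAut : StTwAut.{u, v} := stTwAut oIv
theorem twGood : StTwGood.{u, v, u', v'} := stTwGood et
theorem twUq : StTwUq.{u, v, u', v'} := stTwUq twGood twDir
theorem twImg : StTwImg.{u, v, u', v'} := stTwImg twGood twDir twDir
theorem twAct : StTwAct.{u, v, u', v', w} := stTwAct twUq

end Pool.Agent.Lib.MP_c385f6_ag.TPG.All
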