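import Pool.Agent.Lib.MP_c385f6_ag.TPG.StB

/-!
Project TPG, part B14: the action of a Frobenius on the places.
-/

set_option autoImplicit false

namespace Pool.Agent.Lib.MP_c385f6_ag.TPG

universe u v u' v'

namespace BAct

section Val

variable {W W' : Type*} [Field W] [Field W'] (A : ValuationSubring W) (B : ValuationSubring W')
  (s : W ≃+* W') (h : ∀ z, z ∈ A ↔ s z ∈ B)

include h

theorem val_le_iff (x y : W) :
    A.valuation x ≤ A.valuation y ↔ B.valuation (s x) ≤ B.valuation (s y) := by
  rcases eq_or_ne y 0 with rfl | hy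
  · rw [map_zero, map_zero, map_zero, le_zero_iff, le_zero_iff, map_eq_zero, map_eq_zero,
      EmbeddingLike.map_eq_zero_iff]
  · have hy' : s y ≠ 0 := fun h0 => hy ((EmbeddingLike.map_eq_zero_iff (f := s)).1 h0)
    have h1 : A.valuation x ≤ A.valuation y ↔ x / y ∈ A := by
      rw [← A.valuation_le_one_iff, map_div₀, div_le_one₀ ((Valuation.pos_iff _).2 hy)]
    have h2 : B.valuation (s x) ≤ B.valuation (s y) ↔ s x / s y ∈ B := by
      rw [← B.valuation_le_one_iff, map_div₀, div_le_one₀ ((Valuation.pos_iff _).2 hy')]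
    rw [h1, h2, h, map_div₀]

theorem val_lt_one_iff (x : W) : A.valuation x < 1 ↔ B.valuation (s x) < 1 := by
  have h1 := val_le_iff A B s h 1 x
  rw [map_one, map_one, map_one] at h1
  rw [← not_le, ← not_le, h1]

theorem val_eq_iff (x y : W) :
    A.valuation x = A.valuation y ↔ B.valuation (s x) = B.valuation (s y) := by
  rw [le_antisymm_iff, le_antisymm_iff, val_le_iff A B s h, val_le_iff A B s h]

end Val

open Classical in
/-- auxiliary function -/
noncomputable def pick (p : ℤ → Prop) : ℤ := if h : ∃ n : ℤ, p n then h.choose else 0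

/-- the property defining the order -/
def isOrd {F W : Type*} [Field F] [Field W] [Algebra F W] (P : Plc F W) (x : W) (n : ℤ) : Prop :=
  ∃ u : W, u ≠ 0 ∧ P.ring.valuation u < 1 ∧
      (∀ y : W, P.ring.valuation y < 1 → P.ring.valuation y ≤ P.ring.valuation u) ∧
      P.ring.valuation x = P.ring.valuation u ^ n

theorem ord_eq_pick {F W : Type*} [Field F] [Field W] [Algebra F W] (P : Plc F W) (x : W) :
    ord P x = pick (isOrd P x) := rfl

theorem ord_mv {F W F' W' : Type*} [Field F] [Field W] [Field F'] [Field W'] [Algebra F W]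
    [Algebra F' W'] (s : W ≃+* W') {P : Plc F W} {Q : Plc F' W'} (h : Mv s P Q) (x : W) :
    ord Q (s x) = ord P x := by
  have h1 : isOrd Q (s x) = isOrd P x := by
    funext n
    apply propext
    constructor
    · rintro ⟨u, hu0, hu1, hu2, hu3⟩
      obtain ⟨u, rfl⟩ := s.surjective u
      refine ⟨u, fun h0 => hu0 (by rw [h0, map_zero]), (val_lt_one_iff _ _ s h u).2 hu1,
        fun y hy => (val_le_iff _ _ s h y u).2 (hu2 _ ((val_lt_one_iff _ _ s h y).1 hy)), ?_⟩
      rw [← map_zpow₀] at hu3 ⊢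
      rw [val_eq_iff _ _ s h, map_zpow₀]
      exact hu3
    · rintro ⟨u, hu0, hu1, hu2, hu3⟩
      refine ⟨s u, fun h0 => hu0 ((EmbeddingLike.map_eq_zero_iff (f := s)).1 h0),
        (val_lt_one_iff _ _ s h u).1 hu1, fun y hy => ?_, ?_⟩
      · obtain ⟨y, rfl⟩ := s.surjective y
        exact (val_le_iff _ _ s h y u).1 (hu2 _ ((val_lt_one_iff _ _ s h y).2 hy))
      · rw [← map_zpow₀] at hu3 ⊢
        rw [val_eq_iff _ _ s h, map_zpow₀] at hu3
        exact hu3
  rw [ord_eq_pick, ord_eq_pick, h1]

section Pl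

variable {F : Type u} {W : Type v} [Field F] [Field W] [Algebra F W]

theorem mv_unique {s : W ≃+* W} {P Q Q' : Plc F W} (h : Mv s P Q) (h' : Mv s P Q') : Q = Q' := by
  apply Plc.ext
  ext x
  obtain ⟨x, rfl⟩ := s.surjective x
  rw [← h x, ← h' x]

/-- the image of a place -/
def mapP (s : W ≃+* W)
    (hs' : ∀ c : F, ∃ c' : F, s.symm (algebraMap F W c) = algebraMap F W c') (P : Plc F W) :
    Plc F W where
  ring := P.ring.comap (s.symm : W →+* W)
  ne_top := by
    intro h
    apply P.ne_top
    rw [eq_top_iff]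
    intro x _
    have h1 : s x ∈ P.ring.comap (s.symm : W →+* W) := by
      rw [h]
      exact ValuationSubring.mem_top _
    have h2 : s.symm (s x) ∈ P.ring := h1
    rwa [s.symm_apply_apply] at h2
  const_mem := by
    intro c
    obtain ⟨c', h⟩ := hs' c
    change s.symm (algebraMap F W c) ∈ P.ring
    rw [h]
    exact P.const_mem c'

theorem mv_mapP (s : W ≃+* W)
    (hs' : ∀ c : F, ∃ c' : F, s.symm (algebraMap F W c) = algebraMap F W c') (P : Plc F W) :
    Mv s P (mapP s hs' P) := by
  intro z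
  change z ∈ P.ring ↔ s.symm (s z) ∈ P.ring
  rw [s.symm_apply_apply]

/-- the permutation of the places -/
def perm (s : W ≃+* W)
    (hs : ∀ c : F, ∃ c' : F, s (algebraMap F W c) = algebraMap F W c')
    (hs' : ∀ c : F, ∃ c' : F, s.symm (algebraMap F W c) = algebraMap F W c') :
    Plc F W ≃ Plc F W where
  toFun := mapP s hs'
  invFun := mapP s.symm hs
  left_inv := by
    intro P
    apply Plc.ext
    ext x
    change s.symm (s x) ∈ P.ring ↔ _
    rw [s.symm_apply_apply]
  right_inv := by
    intro P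
    apply Plc.ext
    ext x
    change s (s.symm x) ∈ P.ring ↔ _
    rw [s.apply_symm_apply]

theorem mv_perm (s : W ≃+* W)
    (hs : ∀ c : F, ∃ c' : F, s (algebraMap F W c) = algebraMap F W c')
    (hs' : ∀ c : F, ∃ c' : F, s.symm (algebraMap F W c) = algebraMap F W c') (P : Plc F W) :
    Mv s P (perm s hs hs' P) := mv_mapP s hs' P


/-! ### Iteration -/

theorem ord_iter {Φ : W ≃+* W} {φ : Equiv.Perm (Plc F W)} (h : ∀ P, Mv Φ P (φ P)) (k : ℕ)
    (P : Plc F W) (w : W) : ord ((φ ^ k) P) (Φ^[k] w) = ord P w := by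
  induction k with
  | zero => rfl
  | succ k ih =>
    rw [pow_succ', Equiv.Perm.mul_apply, Function.iterate_succ_apply', ord_mv Φ (h _), ih]

theorem const_iter {Φ : W ≃+* W} {q : ℕ}
    (h : ∀ c : F, Φ (algebraMap F W c) = algebraMap F W (c ^ q)) (k : ℕ) (c : F) :
    Φ^[k] (algebraMap F W c) = algebraMap F W (c ^ q ^ k) := by
  induction k with
  | zero => rw [pow_zero, pow_one]; rfl
  | succ k ih => rw [Function.iterate_succ_apply', ih, h, ← pow_mul, ← pow_succ]

theorem sub_iter (Φ : W ≃+* W) (k : ℕ) (x y : W) : Φ^[k] (x - y) = Φ^[k] x - Φ^[k] y := by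
  induction k with
  | zero => rfl
  | succ k ih =>
    rw [Function.iterate_succ_apply', ih, map_sub, Function.iterate_succ_apply',
      Function.iterate_succ_apply']

omit [Field W] in
theorem fix_mul {Φ : W → W} {m : ℕ} {w : W} (h : Φ^[m] w = w) (k : ℕ) : Φ^[m * k] w = w := by
  rw [Function.iterate_mul]
  induction k with
  | zero => rfl
  | succ k ih => rw [Function.iterate_succ_apply', ih, h]

theorem const_lt (P : Plc F W) (d : F) (h : P.ring.valuation (algebraMap F W d) < 1) :
    d = 0 := by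
  by_contra hd
  have h1 : P.ring.valuation (algebraMap F W d⁻¹) ≤ 1 :=
    (P.ring.valuation_le_one_iff _).2 (P.const_mem _)
  have h2 : algebraMap F W d * algebraMap F W d⁻¹ = 1 := by
    rw [← map_mul, mul_inv_cancel₀ hd, map_one]
  have h3 : P.ring.valuation (algebraMap F W d) * P.ring.valuation (algebraMap F W d⁻¹) = 1 := by
    rw [← map_mul, h2, map_one]
  have h4 : P.ring.valuation (algebraMap F W d) * P.ring.valuation (algebraMap F W d⁻¹) < 1 :=
    mul_lt_one_of_lt_of_le h h1
  rw [h3] at h4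
  exact lt_irrefl _ h4

end Pl

end BAct

open BAct in
/-- B14. The action of a Frobenius on the places. -/
theorem stAct (h1 : StOrd.{u, v}) (h2 : StResF.{u, v}) (h3 : StZero.{u, v}) : StAct.{u, v} := by
  intro p _ F W _ _ _ _ _ hRU hFF f Φ hf hΦ
  have hp : p.Prime := Fact.out
  have hO := h1 F W hFF
  have hZ := (h3 F W hFF).2
  have hq : 0 < p ^ f := pow_pos hp.pos f
  have hq2 : 1 < p ^ f := Nat.one_lt_pow (by omega) hp.one_lt
  have hs : ∀ c : F, ∃ c' : F, Φ (algebraMap F W c) = algebraMap F W c' := fun c =>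
    ⟨_, hΦ.const c⟩
  have hs' : ∀ c : F, ∃ c' : F, Φ.symm (algebraMap F W c) = algebraMap F W c' := by
    intro c
    obtain ⟨d, hd⟩ := IsAlgClosed.exists_pow_nat_eq c hq
    refine ⟨d, ?_⟩
    rw [← hd, ← hΦ.const, Φ.symm_apply_apply]
  set φ : Equiv.Perm (Plc F W) := perm Φ hs hs' with hφ
  have hMv : ∀ P, Mv Φ P (φ P) := mv_perm Φ hs hs'
  refine ⟨φ, hMv, fun P w => ord_mv Φ (hMv P) w, fun P => ?_, fun m hm => ?_⟩
  · obtain ⟨u, hu0, hu1⟩ := hO.unif P
    obtain ⟨m, hm, hmu⟩ := hΦ.fin u
    have hfin := hZ u hu0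
    have hmem : ∀ k : ℕ, (φ ^ (m * k)) P ∈ {Q : Plc F W | ord Q u ≠ 0} := by
      intro k
      have h5 := ord_iter hMv (m * k) P u
      rw [fix_mul hmu, hu1] at h5
      change ord _ u ≠ 0
      rw [h5]
      exact one_ne_zero
    obtain ⟨a, -, b, -, hab, hEq⟩ := Set.infinite_univ.exists_ne_map_eq_of_mapsTo
      (f := fun k : ℕ => (φ ^ (m * k)) P) (t := {Q : Plc F W | ord Q u ≠ 0})
      (fun k _ => hmem k) hfin
    have key : ∀ a b : ℕ, a < b → (φ ^ (m * a)) P = (φ ^ (m * b)) P → ∃ m > 0, (φ ^ m) P = P := by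
      intro a b hab hEq
      refine ⟨m * (b - a), Nat.mul_pos hm (by omega), ?_⟩
      have e : m * b = m * a + m * (b - a) := by
        rw [← Nat.mul_add]
        congr 1
        omega
      rw [e, pow_add, Equiv.Perm.mul_apply] at hEq
      exact ((φ ^ (m * a)).injective hEq).symm
    rcases lt_or_gt_of_ne hab with h5 | h5
    · exact key a b h5 hEq
    · exact key b a h5 hEq.symm
  · obtain ⟨x, hx, -⟩ := id hFF
    have hxc : ∀ c : F, x - algebraMap F W c ≠ 0 := by
      intro c h0
      rw [sub_eq_zero] at h0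
      exact hx (h0 ▸ isAlgebraic_algebraMap c)
    have hx0 : x ≠ 0 := by
      have := hxc 0
      rwa [map_zero, sub_zero] at this
    obtain ⟨m', hm', hmx⟩ := hΦ.fin x
    set N := m' * m with hN
    have hNx : Φ^[N] x = x := fix_mul hmx m
    have hN0 : N ≠ 0 := (Nat.mul_pos hm' hm).ne'
    have hroots : {c : F | c ^ (p ^ f) ^ N = c}.Finite := by
      classical
      have h5 : (Polynomial.X ^ (p ^ f) ^ N - Polynomial.X : Polynomial F) ≠ 0 := by
        apply FiniteField.X_pow_card_sub_X_ne_zero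
        exact Nat.one_lt_pow hN0 hq2
      refine ((Polynomial.X ^ (p ^ f) ^ N -
        Polynomial.X : Polynomial F).roots.toFinset.finite_toSet).subset ?_
      intro c hc
      rw [Finset.mem_coe, Multiset.mem_toFinset, Polynomial.mem_roots h5, Polynomial.IsRoot.def,
        Polynomial.eval_sub, Polynomial.eval_pow, Polynomial.eval_X, sub_eq_zero]
      exact hc
    refine ((hZ x hx0).union (hroots.biUnion fun c _ => hZ _ (hxc c))).subset ?_
    intro P hP
    have hPN : (φ ^ N) P = P := by
      rw [hN, mul_comm, pow_mul]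
      have h5 : ∀ k : ℕ, ((φ ^ m) ^ k) P = P := by
        intro k
        induction k with
        | zero => rfl
        | succ k ih => rw [pow_succ', Equiv.Perm.mul_apply, ih, hP]
      exact h5 m'
    by_cases hxP : x ∈ P.ring
    · right
      obtain ⟨c, hc⟩ := h2 F W hFF P x hxP
      have h5 : 0 < ord P (x - algebraMap F W c) := (hO.lt P _ (hxc c)).1 hc
      have h6 := ord_iter hMv N P (x - algebraMap F W c)
      rw [hPN, sub_iter, hNx, const_iter hΦ.const] at h6
      have h7 : P.ring.valuation (x - algebraMap F W (c ^ (p ^ f) ^ N)) < 1 := by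
        rw [hO.lt P _ (hxc _), h6]
        exact h5
      have h8 : P.ring.valuation (algebraMap F W (c ^ (p ^ f) ^ N - c)) < 1 := by
        have e : algebraMap F W (c ^ (p ^ f) ^ N - c) =
            (x - algebraMap F W c) - (x - algebraMap F W (c ^ (p ^ f) ^ N)) := by
          rw [map_sub]
          ring
        rw [e]
        exact Valuation.map_sub_lt _ hc h7
      have h9 := const_lt P _ h8
      rw [sub_eq_zero] at h9
      exact Set.mem_biUnion h9 h5.ne'
    · left
      intro h5
      exact hxP ((hO.mem P x hx0).2 h5.ge)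

end Pool.Agent.Lib.MP_c385f6_ag.TPG
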