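import Pool.Agent.Lib.MP_c385f6_ag.TPG.StB

/-!
Project TPG, B6: the `l`-part of `det (1 + B + ⋯ + B ^ (l - 1))` is bounded for `B = C ^ n`.
-/

set_option autoImplicit false

namespace Pool.Agent.Lib.MP_c385f6_ag.TPG

namespace BBd

/-- some power of an element of a finite monoid is idempotent -/
theorem exists_idem {M : Type*} [Monoid M] [Finite M] (x : M) :
    ∃ n > 0, x ^ n * x ^ n = x ^ n := by
  obtain ⟨m, k, hmk, h⟩ := Finite.exists_ne_map_eq_of_infinite (fun n : ℕ => x ^ n)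
  have key : ∀ m p : ℕ, 0 < p → x ^ m = x ^ (m + p) → ∃ n > 0, x ^ n * x ^ n = x ^ n := by
    intro m p hp h
    have h1 : ∀ k, m ≤ k → x ^ (k + p) = x ^ k := by
      intro k hk
      obtain ⟨j, rfl⟩ := Nat.exists_eq_add_of_le hk
      calc x ^ (m + j + p) = x ^ (m + p) * x ^ j := by
            rw [← pow_add]
            congr 1
            ring
        _ = x ^ (m + j) := by rw [← h, ← pow_add]
    have h2 : ∀ i k, m ≤ k → x ^ (k + i * p) = x ^ k := by
      intro i
      induction i with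
      | zero =>
        intro k _
        rw [zero_mul, add_zero]
      | succ i ih =>
        intro k hk
        rw [show k + (i + 1) * p = (k + i * p) + p by ring, h1 _ (by omega), ih k hk]
    refine ⟨(m + 1) * p, by positivity, ?_⟩
    rw [← pow_add]
    exact h2 (m + 1) ((m + 1) * p) (by nlinarith)
  rcases lt_or_gt_of_ne hmk with hlt | hlt
  · obtain ⟨p, rfl⟩ := Nat.exists_eq_add_of_le hlt.le
    exact key m p (by omega) h
  · obtain ⟨p, rfl⟩ := Nat.exists_eq_add_of_le hlt.le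
    exact key k p (by omega) h.symm

/-- the algebraic identity in a ring with an idempotent -/
theorem idem_identity {R : Type*} [Ring R] (B : R) (hB : B * B = B) (l : ℕ) (hl : 0 < l) :
    (∑ i ∈ Finset.range l, B ^ i) * ((l : R) - ((l : R) - 1) * B) = (l : R) := by
  have hp : ∀ i, B ^ (i + 1) = B := by
    intro i
    induction i with
    | zero => rw [zero_add, pow_one]
    | succ i ih => rw [pow_succ, ih, hB]
  obtain ⟨k, rfl⟩ : ∃ k, l = k + 1 := ⟨l - 1, by omega⟩
  have hs : (∑ i ∈ Finset.range (k + 1), B ^ i) = (k : R) * B + 1 := by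
    rw [Finset.sum_range_succ', pow_zero]
    simp only [hp]
    rw [Finset.sum_const, Finset.card_range, nsmul_eq_mul]
  have hcomm : B * (k : R) = (k : R) * B := (Nat.cast_commute k B).symm.eq
  have h1 : ((k + 1 : ℕ) : R) = (k : R) + 1 := by push_cast; rfl
  rw [hs, h1]
  have h2 : (k : R) + 1 - 1 = k := by abel
  rw [h2]
  have h3 : (k : R) * B * ((k : R) * B) = (k : R) * k * B := by
    calc (k : R) * B * ((k : R) * B) = (k : R) * (B * k) * B := by noncomm_ring
      _ = (k : R) * ((k : R) * B) * B := by rw [hcomm]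
      _ = (k : R) * k * (B * B) := by noncomm_ring
      _ = _ := by rw [hB]
  have h4 : (k : R) * B * (k : R) = (k : R) * k * B := by
    rw [mul_assoc, hcomm, mul_assoc]
  calc ((k : R) * B + 1) * ((k : R) + 1 - (k : R) * B)
      = (k : R) * B * (k : R) + (k : R) * B - (k : R) * B * ((k : R) * B) + (k : R) + 1 -
          (k : R) * B := by noncomm_ring
    _ = (k : R) + 1 := by rw [h3, h4]; abel

theorem dvd_of_map_zero {N m : ℕ} (Y : Matrix (Fin N) (Fin N) ℤ)
    (h : (Int.castRingHom (ZMod m)).mapMatrix Y = 0) :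
    ∃ Z : Matrix (Fin N) (Fin N) ℤ, Y = (m : ℤ) • Z := by
  have h1 : ∀ i j, (m : ℤ) ∣ Y i j := by
    intro i j
    have h2 := congrFun (congrFun h i) j
    rw [← ZMod.intCast_zmod_eq_zero_iff_dvd]
    exact h2
  choose Z hZ using h1
  exact ⟨Z, by ext i j; exact hZ i j⟩

end BBd

open BBd in
/-- B6. -/
theorem stBd : StBd := by
  intro N C l hl
  have hl0 : 0 < l := hl.pos
  have hne : NeZero (l ^ 2) := ⟨by positivity⟩
  obtain ⟨n₀, hn₀, hid⟩ := exists_idem ((Int.castRingHom (ZMod (l ^ 2))).mapMatrix C)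
  refine ⟨n₀, hn₀, fun n hn hdvd => ?_⟩
  obtain ⟨j, rfl⟩ := hdvd
  have hj : 0 < j := Nat.pos_of_ne_zero (by rintro rfl; simp at hn)
  set f := (Int.castRingHom (ZMod (l ^ 2))).mapMatrix (m := Fin N) with hf
  have hid2 : f (C ^ (n₀ * j)) * f (C ^ (n₀ * j)) = f (C ^ (n₀ * j)) := by
    have h1 : f (C ^ (n₀ * j)) = (f C) ^ n₀ := by
      rw [map_pow, pow_mul]
      have : IsIdempotentElem ((f C) ^ n₀) := hid
      exact this.pow_eq hj.ne'
    rw [h1]
    exact hid
  set B := C ^ (n₀ * j) with hB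
  have hsum : (∑ i ∈ Finset.range l, C ^ (n₀ * j * i)) = ∑ i ∈ Finset.range l, B ^ i :=
    Finset.sum_congr rfl fun i _ => by rw [hB, ← pow_mul]
  rw [hsum]
  set Q := ∑ i ∈ Finset.range l, B ^ i with hQ
  set R : Matrix (Fin N) (Fin N) ℤ := (l : Matrix (Fin N) (Fin N) ℤ) -
    ((l : Matrix (Fin N) (Fin N) ℤ) - 1) * B with hR
  have h0 : f (Q * R - (l : Matrix (Fin N) (Fin N) ℤ)) = 0 := by
    rw [map_sub, map_mul, hQ, hR, map_sum, map_sub, map_mul, map_sub, map_one, map_natCast]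
    simp only [map_pow]
    rw [idem_identity (f B) hid2 l hl0, sub_self]
  obtain ⟨Z, hZ⟩ := dvd_of_map_zero _ h0
  have hQR : Q * R = (l : ℤ) • (1 + (l : ℤ) • Z) := by
    have h1 : Q * R = (l : Matrix (Fin N) (Fin N) ℤ) + ((l ^ 2 : ℕ) : ℤ) • Z := by
      rw [← hZ]
      abel
    rw [h1, smul_add, smul_smul]
    congr 1
    · rw [← nsmul_one, natCast_zsmul]
    · push_cast
      ring_nf
  have hdet := congrArg Matrix.det hQR
  rw [Matrix.det_mul, Matrix.det_smul, Fintype.card_fin] at hdet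
  intro hdiv
  have h2 : (l : ℤ) ^ (N + 1) ∣ (l : ℤ) ^ N * (1 + (l : ℤ) • Z).det := by
    rw [← hdet]
    exact Dvd.dvd.mul_right hdiv _
  rw [pow_succ] at h2
  have h3 : (l : ℤ) ∣ (1 + (l : ℤ) • Z).det :=
    (mul_dvd_mul_iff_left (by positivity : (l : ℤ) ^ N ≠ 0)).1 h2
  have : Fact l.Prime := ⟨hl⟩
  rw [← ZMod.intCast_zmod_eq_zero_iff_dvd] at h3
  have h4 : (Int.castRingHom (ZMod l)) (1 + (l : ℤ) • Z).det = 1 := by
    rw [RingHom.map_det]
    have h5 : (Int.castRingHom (ZMod l)).mapMatrix (1 + (l : ℤ) • Z) = 1 := by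
      rw [map_add, map_one, map_zsmul]
      have h6 : (l : ℤ) • (Int.castRingHom (ZMod l)).mapMatrix Z = 0 := by
        ext i j
        simp
      rw [h6, add_zero]
    rw [h5, Matrix.det_one]
  have h5 : ((1 + (l : ℤ) • Z).det : ZMod l) = 1 := h4
  rw [h3] at h5
  exact zero_ne_one h5

end Pool.Agent.Lib.MP_c385f6_ag.TPG
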