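import Pool.Agent.Lib.MP_c385f6_ag.TPG.StB

/-!
Project TPG, part B, B10: counting fixed effective divisors in the classes; finiteness of the class
number.
-/

set_option autoImplicit false

namespace Pool.Agent.Lib.MP_c385f6_ag.TPG

universe u

namespace BCls

variable {T : Type u} (X : CD T)

theorem fix_pow (n : ℕ) : (X.φ ^ n) X.P₀ = X.P₀ := by
  induction n with
  | zero => rfl
  | succ n ih => rw [pow_succ', Equiv.Perm.mul_apply, ih, X.fix]

/-- a fixed class contains a fixed divisor -/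
theorem exists_fixed {n : ℕ} (hn : 0 < n) {a : X.A} (ha : (X.σ ^ n) a = a) :
    ∃ (D : T →₀ ℤ) (h : dgr D = 0), pm (X.φ ^ n) D = D ∧ X.cls D h = a := by
  obtain ⟨D, h, rfl⟩ := X.cls_surj a
  rw [X.pow_cls, X.cls_eq] at ha
  obtain ⟨D', h1, h2⟩ := X.rep n hn D ha
  have h3 : dgr D' = 0 := by
    have h4 := X.deg _ h2
    rw [dgr_sub, h, sub_zero] at h4
    exact h4
  exact ⟨D', h3, h1, (X.cls_eq D' D h3 h).2 h2⟩

theorem cl0_eq_iff {D E : T →₀ ℤ} {d : ℤ} (h : dgr D = 0) (hE : dgr E = d) :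
    X.cl0 E = X.cls D h ↔ E - (D + Finsupp.single X.P₀ d) ∈ X.Pr := by
  rw [CD.cl0, X.cls_eq, hE]
  have e : E - Finsupp.single X.P₀ d - D = E - (D + Finsupp.single X.P₀ d) := by abel
  rw [e]

/-- the number of the fixed effective divisors in a fixed class -/
theorem card_fibre {n : ℕ} (hn : 0 < n) {a : X.A} (ha : (X.σ ^ n) a = a) (d : ℕ) :
    ∃ D : T →₀ ℤ, dgr D = d ∧
      Nat.card {E : T →₀ ℤ // E ∈ Ef (X.φ ^ n) d ∧ X.cl0 E = a} * (X.q ^ n - 1) =
        X.q ^ (n * X.ell D) - 1 := by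
  obtain ⟨D, h, h1, rfl⟩ := exists_fixed X hn ha
  refine ⟨D + Finsupp.single X.P₀ (d : ℤ), by rw [dgr_add, h, dgr_single, zero_add], ?_⟩
  have hfix : pm (X.φ ^ n) (D + Finsupp.single X.P₀ (d : ℤ)) = D + Finsupp.single X.P₀ (d : ℤ) := by
    rw [pm_add, h1, pm_single, fix_pow]
  rw [← X.count n hn _ hfix]
  congr 1
  refine Nat.card_congr (Equiv.subtypeEquivRight fun E => ?_)
  constructor
  · rintro ⟨⟨h2, h3, h4⟩, h5⟩
    exact ⟨h2, h3, (cl0_eq_iff X h h4).1 h5⟩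
  · rintro ⟨h2, h3, h4⟩
    have h5 : dgr E = d := by
      have h6 := X.deg _ h4
      rw [dgr_sub, dgr_add, h, dgr_single, zero_add] at h6
      linarith
    exact ⟨⟨h2, h3, h5⟩, (cl0_eq_iff X h h5).2 h4⟩

end BCls

open BCls in
/-- B10. Counting in classes: finiteness, and the coefficients for large degrees. -/
theorem stCls (h : StNewt.{u}) : StCls.{u} := by
  classical
  intro T X n hn
  have hEf : ∀ d, (Ef (X.φ ^ n) d).Finite := by
    refine (h T (X.φ ^ n) fun m hm => ?_).1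
    rw [← pow_mul]
    exact X.fin (n * m) (Nat.mul_pos hn hm)
  obtain ⟨d₀, hd₀⟩ := X.riem
  have hell : ∀ d : ℕ, d₀.toNat + X.g ≤ d → ∀ D : T →₀ ℤ, dgr D = d →
      X.ell D = d + 1 - X.g := by
    intro d hd D hD
    have h1 := hd₀ D (by rw [hD]; omega)
    rw [hD] at h1
    omega
  have hq := X.two_le
  have hcard : ∀ d : ℕ, d₀.toNat + X.g ≤ d → ∀ a : X.A, (X.σ ^ n) a = a →
      Nat.card {E : T →₀ ℤ // E ∈ Ef (X.φ ^ n) d ∧ X.cl0 E = a} * (X.q ^ n - 1) =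
        X.q ^ (n * (d + 1 - X.g)) - 1 := by
    intro d hd a ha
    obtain ⟨D, hD, hc⟩ := card_fibre X hn ha d
    rw [hell d hd D hD] at hc
    exact hc
  have hG : {a : X.A | (X.σ ^ n) a = a}.Finite := by
    refine ((hEf (d₀.toNat + X.g)).image X.cl0).subset fun a ha => ?_
    have hc := hcard _ le_rfl a ha
    have hpos : 0 < X.q ^ (n * (d₀.toNat + X.g + 1 - X.g)) - 1 := by
      have h1 : 1 < X.q ^ (n * (d₀.toNat + X.g + 1 - X.g)) :=
        Nat.one_lt_pow (Nat.mul_pos hn (by omega)).ne' hq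
      omega
    rw [← hc] at hpos
    have h2 : 0 < Nat.card {E : T →₀ ℤ // E ∈ Ef (X.φ ^ n) (d₀.toNat + X.g) ∧ X.cl0 E = a} :=
      Nat.pos_of_mul_pos_right hpos
    obtain ⟨⟨E, hE, hEa⟩⟩ := (Nat.card_pos_iff.1 h2).1
    exact ⟨E, hE, hEa⟩
  refine ⟨hG, fun ψ => ⟨d₀.toNat + X.g, fun d hd => ?_⟩⟩
  rw [finsum_mem_eq_finite_toFinset_sum _ (hEf d), finsum_mem_eq_finite_toFinset_sum _ hG,
    Finset.sum_mul]
  have hmaps : ∀ E ∈ (hEf d).toFinset, X.cl0 E ∈ hG.toFinset := by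
    intro E hE
    rw [Set.Finite.mem_toFinset] at hE ⊢
    change (X.σ ^ n) (X.cl0 E) = X.cl0 E
    rw [X.pow_cl0, hE.2.1]
  rw [← Finset.sum_fiberwise_of_maps_to hmaps]
  refine Finset.sum_congr rfl fun a ha => ?_
  rw [Set.Finite.mem_toFinset] at ha
  have h1 : ∑ E ∈ (hEf d).toFinset with X.cl0 E = a, ψ (X.cl0 E) =
      (((hEf d).toFinset.filter fun E => X.cl0 E = a).card : ℂ) * ψ a := by
    rw [Finset.sum_congr rfl (g := fun _ => ψ a) fun E hE => by rw [(Finset.mem_filter.1 hE).2],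
      Finset.sum_const, nsmul_eq_mul]
  have h2 : Nat.card {E : T →₀ ℤ // E ∈ Ef (X.φ ^ n) d ∧ X.cl0 E = a} =
      ((hEf d).toFinset.filter fun E => X.cl0 E = a).card := by
    refine Nat.subtype_card _ fun E => ?_
    rw [Finset.mem_filter, Set.Finite.mem_toFinset]
  have h3 := hcard d hd a ha
  rw [h2] at h3
  have e1 : 1 < X.q ^ n := Nat.one_lt_pow hn.ne' hq
  have e2 : 1 ≤ X.q ^ (n * (d + 1 - X.g)) := Nat.one_le_pow _ _ (by omega)
  have h4 := congrArg (Nat.cast : ℕ → ℂ) h3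
  rw [Nat.cast_mul, Nat.cast_sub e1.le, Nat.cast_sub e2, Nat.cast_one, Nat.cast_pow,
    Nat.cast_pow] at h4
  have hne : (X.q : ℂ) ^ n - 1 ≠ 0 := by
    rw [sub_ne_zero]
    intro h5
    have h6 : X.q ^ n = 1 := by exact_mod_cast h5
    omega
  rw [h1, ← h4, mul_div_assoc, div_self hne, mul_one, mul_comm]

end Pool.Agent.Lib.MP_c385f6_ag.TPG
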