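import Pool.Agent.Lib.MP_c385f6_ag.TPG.StB

/-!
Project TPG, B3: every integral polynomial with constant term `1` is a reversed characteristic
polynomial.
-/

set_option autoImplicit false

namespace Pool.Agent.Lib.MP_c385f6_ag.TPG

open Polynomial

namespace BComp

/-- Every monic integral polynomial is a characteristic polynomial. -/
theorem exists_charpoly (Q : ℤ[X]) (hQ : Q.Monic) :
    ∃ (N : ℕ) (C : Matrix (Fin N) (Fin N) ℤ), C.charpoly = Q := by
  let pb := AdjoinRoot.powerBasis' hQ
  refine ⟨pb.dim, Algebra.leftMulMatrix pb.basis pb.gen, ?_⟩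
  set C := Algebra.leftMulMatrix pb.basis pb.gen with hC
  have h1 : aeval pb.gen C.charpoly = 0 := by
    apply (injective_iff_map_eq_zero (Algebra.leftMulMatrix pb.basis)).mp
      (Algebra.leftMulMatrix_injective pb.basis)
    rw [← Polynomial.aeval_algHom_apply, ← hC, Matrix.aeval_self_charpoly]
  have h2 : Q ∣ C.charpoly := by
    rw [← AdjoinRoot.mk_eq_zero, ← AdjoinRoot.aeval_eq]
    exact h1
  have h3 : C.charpoly.natDegree = Q.natDegree := by
    rw [Matrix.charpoly_natDegree_eq_dim, Fintype.card_fin]
    rfl
  exact (Polynomial.eq_of_monic_of_dvd_of_natDegree_le hQ (Matrix.charpoly_monic C) h2 h3.le)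

theorem reverse_reverse (P : ℤ[X]) (h : P.coeff 0 ≠ 0) : P.reverse.reverse = P := by
  have h1 : P.natTrailingDegree = 0 := by
    rw [Polynomial.natTrailingDegree_eq_zero]
    exact Or.inr h
  have h2 : P.reverse.natDegree = P.natDegree := by
    rw [Polynomial.reverse_natDegree, h1, Nat.sub_zero]
  rw [Polynomial.reverse, h2, Polynomial.reverse]
  ext n
  rw [Polynomial.coeff_reflect, Polynomial.coeff_reflect, Polynomial.revAt_invol]

end BComp

/-- B3. Every polynomial with constant term `1` is a reversed characteristic polynomial. -/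
theorem stComp : StComp := by
  intro P hP
  have h0 : P.coeff 0 ≠ 0 := by
    rw [hP]
    exact one_ne_zero
  have hm : P.reverse.Monic := by
    have h1 : P.natTrailingDegree = 0 := by
      rw [Polynomial.natTrailingDegree_eq_zero]
      exact Or.inr h0
    rw [Polynomial.Monic, Polynomial.reverse_leadingCoeff, Polynomial.trailingCoeff, h1, hP]
  obtain ⟨N, C, hC⟩ := BComp.exists_charpoly P.reverse hm
  refine ⟨N, C, ?_⟩
  rw [← Matrix.reverse_charpoly, hC, BComp.reverse_reverse P h0]

end Pool.Agent.Lib.MP_c385f6_ag.TPG
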