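import Pool.Agent.Lib.MP_c385f6_ag.TPG.StB

/-!
Project TPG, B4: the determinant of `1 - C ^ n`.
-/

set_option autoImplicit false

namespace Pool.Agent.Lib.MP_c385f6_ag.TPG

namespace BDet

open Polynomial

theorem prod_eq {n : ℕ} {ζ : ℂ} (hn : 0 < n) (hζ : IsPrimitiveRoot ζ n) :
    (1 - X ^ n : ℂ[X]) = ∏ i ∈ Finset.range n, (1 - C (ζ ^ i) * X) := by
  have h1 : IsPrimitiveRoot (C ζ : ℂ[X]) n := hζ.map_of_injective C_injective
  have h2 := X_pow_sub_C_eq_prod h1 hn (α := (X : ℂ[X])) (a := X ^ n) rfl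
  have h3 := congrArg (eval (1 : ℂ[X])) h2
  rw [eval_prod] at h3
  simpa using h3

/-- the determinant of a polynomial in a matrix -/
noncomputable def dt {N : ℕ} (A : Matrix (Fin N) (Fin N) ℂ) : ℂ[X] →* ℂ :=
  Matrix.detMonoidHom.comp ((aeval A : ℂ[X] →ₐ[ℂ] Matrix (Fin N) (Fin N) ℂ) :
    ℂ[X] →* Matrix (Fin N) (Fin N) ℂ)

theorem dt_apply {N : ℕ} (A : Matrix (Fin N) (Fin N) ℂ) (f : ℂ[X]) :
    dt A f = (aeval A f).det := rfl

theorem eval_rev {N : ℕ} (M : Matrix (Fin N) (Fin N) ℤ) (c : ℂ) :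
    (M.charpolyRev.map (Int.castRingHom ℂ)).eval c =
      (1 - c • M.map (Int.castRingHom ℂ)).det := by
  rw [eval_map, ← coe_eval₂RingHom, Matrix.charpolyRev, RingHom.map_det]
  congr 1
  ext i j
  simp only [RingHom.mapMatrix_apply, Matrix.map_apply, Matrix.sub_apply, Matrix.smul_apply,
    smul_eq_mul, map_sub, coe_eval₂RingHom]
  congr 1
  · by_cases h : i = j
    · subst h
      rw [Matrix.one_apply_eq, Matrix.one_apply_eq, eval₂_one]
    · rw [Matrix.one_apply_ne h, Matrix.one_apply_ne h, eval₂_zero]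
  · rw [eval₂_mul, eval₂_X, eval₂_C]

end BDet

open BDet Polynomial in
/-- B4. The determinant of `1 - C ^ n`. -/
theorem stDet : StDet := by
  intro N C n ζ hn hζ
  set A : Matrix (Fin N) (Fin N) ℂ := C.map (Int.castRingHom ℂ) with hA
  have h1 : (((1 - C ^ n).det : ℤ) : ℂ) = (1 - A ^ n).det := by
    have h2 : ((Int.castRingHom ℂ) (1 - C ^ n).det) =
        ((Int.castRingHom ℂ).mapMatrix (1 - C ^ n)).det := RingHom.map_det _ _
    rw [map_sub, map_one, map_pow] at h2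
    exact h2
  have h3 : (1 - A ^ n).det = dt A (1 - X ^ n) := by
    rw [dt_apply, map_sub, map_one, map_pow, aeval_X]
  rw [h1, h3, prod_eq hn hζ, map_prod]
  refine Finset.prod_congr rfl fun i _ => ?_
  rw [dt_apply, eval_rev, map_sub, map_one, map_mul, aeval_X, aeval_C, ← Algebra.smul_def]

end Pool.Agent.Lib.MP_c385f6_ag.TPG
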