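import Pool.Agent.Lib.MP_c385f6_ag.TPG.StB

/-!
Project TPG, B9: divisibility by `l` in a torsion group on which all `σ ^ m - 1` are onto.
-/

set_option autoImplicit false

namespace Pool.Agent.Lib.MP_c385f6_ag.TPG

universe u

namespace BDvb

/-- The multiplication by `n`. -/
def mlt (A : Type u) [AddCommGroup A] (n : ℕ) : A →+ A where
  toFun a := n • a
  map_zero' := smul_zero n
  map_add' a b := smul_add n a b

theorem mlt_apply {A : Type u} [AddCommGroup A] (n : ℕ) (a : A) : mlt A n a = n • a := rfl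

theorem fin_pow {A : Type u} [AddCommGroup A] (l : ℕ) (h : {a : A | l • a = 0}.Finite) (k : ℕ) :
    {a : A | l ^ k • a = 0}.Finite := by
  induction k with
  | zero =>
    refine (Set.finite_singleton (0 : A)).subset ?_
    intro a ha
    have h1 : l ^ 0 • a = 0 := ha
    rw [pow_zero, one_smul] at h1
    exact h1
  | succ k ih =>
    have h2 : {a : A | l ^ (k + 1) • a = 0} = (fun a : A => l • a) ⁻¹' {a : A | l ^ k • a = 0} := by
      ext a
      show l ^ (k + 1) • a = 0 ↔ l ^ k • l • a = 0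
      rw [pow_succ, mul_smul]
    rw [h2]
    refine Set.Finite.preimage' ih ?_
    intro b _
    by_cases hb : ∃ a : A, l • a = b
    · obtain ⟨a₀, ha₀⟩ := hb
      refine (h.image fun a => a₀ + a).subset ?_
      intro a ha
      have h3 : l • a = b := ha
      refine ⟨a - a₀, ?_, ?_⟩
      · show l • (a - a₀) = 0
        rw [smul_sub, h3, ha₀, sub_self]
      · show a₀ + (a - a₀) = a
        abel
    · refine Set.finite_empty.subset ?_
      intro a ha
      exact (hb ⟨a, ha⟩).elim

/-- In a finite group the cokernel of an endomorphism has the size of the kernel. -/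
theorem card_coker {G : Type u} [AddCommGroup G] [Finite G] (f : G →+ G) :
    Nat.card (G ⧸ f.range) = Nat.card f.ker := by
  have h1 : Nat.card G = Nat.card (G ⧸ f.range) * Nat.card f.range :=
    AddSubgroup.card_eq_card_quotient_mul_card_addSubgroup f.range
  have h2 : Nat.card G = Nat.card (G ⧸ f.ker) * Nat.card f.ker :=
    AddSubgroup.card_eq_card_quotient_mul_card_addSubgroup f.ker
  have h3 : Nat.card (G ⧸ f.ker) = Nat.card f.range :=
    Nat.card_congr (QuotientAddGroup.quotientKerEquivRange f).toEquiv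
  have h4 : 0 < Nat.card f.range := Nat.card_pos
  rw [h3] at h2
  have h5 : Nat.card (G ⧸ f.range) * Nat.card f.range = Nat.card f.ker * Nat.card f.range := by
    rw [← h1, h2, mul_comm]
  exact Nat.eq_of_mul_eq_mul_right h4 h5

/-- Every torsion element is congruent mod `l` to an element of `l`-power order. -/
theorem rep_pow {A : Type u} [AddCommGroup A] (l : ℕ) (hl : l.Prime) (a : A)
    (ha : ∃ n > 0, n • a = 0) : ∃ (x : A) (k : ℕ) (c : A), l ^ k • x = 0 ∧ a = x + l • c := by
  obtain ⟨n, hn, hna⟩ := ha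
  obtain ⟨k, m, hm, rfl⟩ := Nat.exists_eq_pow_mul_and_not_dvd hn.ne' l hl.ne_one
  have hco : Nat.Coprime m (l ^ (k + 1)) :=
    Nat.Coprime.pow_right _ (((Nat.Prime.coprime_iff_not_dvd hl).2 hm).symm)
  have hbz : (1 : ℤ) = m * Nat.gcdA m (l ^ (k + 1)) + (l ^ (k + 1) : ℕ) * Nat.gcdB m (l ^ (k + 1)) := by
    have h := Nat.gcd_eq_gcd_ab m (l ^ (k + 1))
    rw [hco] at h
    exact_mod_cast h
  set u := Nat.gcdA m (l ^ (k + 1))
  set v := Nat.gcdB m (l ^ (k + 1))
  refine ⟨u • m • a, k, (v • l ^ k • a), ?_, ?_⟩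
  · rw [smul_comm, ← mul_smul (l ^ k) m a, hna, smul_zero]
  · have h1 : a = (1 : ℤ) • a := (one_zsmul a).symm
    have h2 : l • v • l ^ k • a = v • l ^ (k + 1) • a := by
      rw [smul_comm l v, ← mul_smul l (l ^ k), pow_succ']
    rw [h2]
    conv_lhs => rw [h1, hbz, add_smul, mul_comm (m : ℤ) u, mul_smul, mul_comm _ v, mul_smul]
    rw [natCast_zsmul, natCast_zsmul]

/-- The quotient by the multiples of `l` is finite. -/
theorem fin_quot {A : Type u} [AddCommGroup A] (htor : ∀ a : A, ∃ n > 0, n • a = 0) (l : ℕ)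
    (hl : l.Prime) (h : {a : A | l • a = 0}.Finite) : Finite (A ⧸ (mlt A l).range) := by
  classical
  by_contra hinf
  rw [not_finite_iff_infinite] at hinf
  have hfin1 : Finite {a : A | l • a = 0} := h.to_subtype
  set B := Nat.card {a : A | l • a = 0} with hB
  obtain ⟨s, hs⟩ := Infinite.exists_subset_card_eq (A ⧸ (mlt A l).range) (B + 1)
  have hrep : ∀ q : A ⧸ (mlt A l).range, ∃ (x : A) (k : ℕ), l ^ k • x = 0 ∧
      (QuotientAddGroup.mk x : A ⧸ (mlt A l).range) = q := by
    intro q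
    obtain ⟨a, rfl⟩ := QuotientAddGroup.mk_surjective q
    obtain ⟨x, k, c, h1, h2⟩ := rep_pow l hl a (htor a)
    refine ⟨x, k, h1, ?_⟩
    rw [QuotientAddGroup.eq]
    refine ⟨c, ?_⟩
    rw [mlt_apply, h2]
    abel
  choose x k hk hx using hrep
  set K := s.sup k with hK
  have hfinG : Finite (mlt A (l ^ K)).ker := (fin_pow l h K).to_subtype
  let f : (mlt A (l ^ K)).ker →+ (mlt A (l ^ K)).ker := mlt _ l
  have hc := card_coker f
  have hxs : ∀ q ∈ s, l ^ K • x q = 0 := by
    intro q hq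
    have h1 : k q ≤ K := Finset.le_sup (f := k) hq
    obtain ⟨d, hd⟩ := Nat.exists_eq_add_of_le h1
    rw [hd, pow_add, mul_comm, mul_smul, hk, smul_zero]
  have hle1 : Nat.card f.ker ≤ B := by
    rw [hB]
    refine Nat.card_le_card_of_injective
      (fun z : f.ker => (⟨((z : (mlt A (l ^ K)).ker) : A), ?_⟩ : {a : A | l • a = 0})) ?_
    · have h1 : f (z : (mlt A (l ^ K)).ker) = 0 := z.2
      exact congrArg Subtype.val h1
    · intro z w hzw
      have h1 := congrArg (fun t : {a : A | l • a = 0} => (t : A)) hzw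
      exact Subtype.ext (Subtype.ext h1)
  have hle2 : s.card ≤ Nat.card ((mlt A (l ^ K)).ker ⧸ f.range) := by
    have h1 : s.card = Nat.card s := (Nat.card_eq_finsetCard s).symm
    rw [h1]
    refine Nat.card_le_card_of_injective
      (fun q : s => (QuotientAddGroup.mk (⟨x q, hxs q q.2⟩ : (mlt A (l ^ K)).ker) :
        (mlt A (l ^ K)).ker ⧸ f.range)) ?_
    intro q r hqr
    have h2 := QuotientAddGroup.eq.1 hqr
    obtain ⟨c, hc2⟩ := h2
    have h3 : l • ((c : (mlt A (l ^ K)).ker) : A) = -x q + x r := congrArg Subtype.val hc2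
    apply Subtype.ext
    rw [← hx q, ← hx r, QuotientAddGroup.eq]
    exact ⟨(c : A), h3⟩
  omega

end BDvb

open BDvb in
theorem stDvb : StDvb.{u} := by
  classical
  intro A _ σ horb htor hsur l hl hfin a
  have hQ : Finite (A ⧸ (mlt A l).range) := fin_quot htor l hl hfin
  have hrep : ∀ q : A ⧸ (mlt A l).range, ∃ (x : A) (n : ℕ), 0 < n ∧ (σ ^ n) x = x ∧
      (QuotientAddGroup.mk x : A ⧸ (mlt A l).range) = q := by
    intro q
    obtain ⟨x, rfl⟩ := QuotientAddGroup.mk_surjective q
    obtain ⟨n, hn, hx⟩ := horb x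
    exact ⟨x, n, hn, hx, rfl⟩
  choose x n hn hx hq using hrep
  have := Fintype.ofFinite (A ⧸ (mlt A l).range)
  set m := ∏ q, n q with hm
  have hm0 : 0 < m := Finset.prod_pos fun q _ => hn q
  obtain ⟨b, hb⟩ := hsur m hm0 a
  set q : A ⧸ (mlt A l).range := QuotientAddGroup.mk b with hqb
  have h1 := hq q
  rw [hqb, QuotientAddGroup.eq] at h1
  obtain ⟨c, hc⟩ := h1
  rw [mlt_apply] at hc
  have hfix : ∀ j : ℕ, (σ ^ (n q * j)) (x q) = x q := by
    intro j
    induction j with
    | zero => rfl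
    | succ j ih =>
      have h2 : (σ ^ (n q * (j + 1))) (x q) = (σ ^ (n q * j)) ((σ ^ n q) (x q)) := by
        rw [Nat.mul_succ, pow_add]
        rfl
      rw [h2, hx, ih]
  obtain ⟨j, hj⟩ : n q ∣ m := Finset.dvd_prod_of_mem n (Finset.mem_univ q)
  have hfm : (σ ^ m) (x q) = x q := by
    rw [hj]
    exact hfix j
  have hbc : b = x q + l • c := by
    rw [hc]
    abel
  refine ⟨(σ ^ m) c - c, ?_⟩
  rw [← hb, hbc, map_add, hfm, map_nsmul, smul_sub]
  abel

end Pool.Agent.Lib.MP_c385f6_ag.TPG
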