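import Pool.Agent.Lib.MP_c385f6_ag.TPG.StD

/-!
Project TPG, part E: characteristic `p` and group theory. `Λ / F` is a function field in the
algebraically closed field `U`, `Tinf F p Λ` the union of all towers over `Λ`, and a group `G` acts
on it. There is a place of `Λ` which is fixed by `G`.
-/

set_option autoImplicit false

namespace Pool.Agent.Lib.MP_c385f6_ag.TPG

universe u v w

/-- `F` is an algebraic closure of the field with `p` elements. -/
structure FpBar (p : ℕ) (F : Type u) [Field F] : Prop where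
  prime : p.Prime
  char : CharP F p
  closed : IsAlgClosed F
  tors : ∀ a : F, a ≠ 0 → ∃ n : ℕ, 0 < n ∧ a ^ n = 1

/-- (alpha). -/
def StAlpha : Prop :=
  ∀ (F : Type u) (W : Type v) [Field F] [Field W] [Algebra F W] (p l : ℕ), FpBar p F → FF F W →
    l.Prime → l ≠ p → ∀ D : Dv F W, dg D = 0 →
      ∃ v : W, v ≠ 0 ∧ ∀ P : Plc F W, (l : ℤ) ∣ ord P v - D P

/-- (gamma). -/
def StGamma : Prop :=
  ∀ (F : Type u) (W : Type v) [Field F] [Field W] [Algebra F W] (p f : ℕ), FpBar p F → FF F W →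
    1 ≤ f → ∀ s : W ≃+* W, (∀ c : F, s (algebraMap F W c) = algebraMap F W (c ^ p ^ f)) →
    (∀ z : W, ∃ m : ℕ, 0 < m ∧ (s : W → W)^[m] z = z) →
    ∀ (n : ℕ) (g : W), ¬ p ∣ n → g ∈ Dn F n →
      ∃ (m : ℕ) (g' v : W), ¬ p ∣ n * m ∧ g' ∈ Dn F (n * m) ∧ v ≠ 0 ∧
        g ^ m * v ^ (n * m) * g' = s g'

/-- (delta). -/
def StDelta : Prop :=
  ∀ (F : Type u) (W : Type v) [Field F] [Field W] [Algebra F W] (p : ℕ), FpBar p F → FF F W →
    ¬ IsRat F W → ∃ (l : ℕ) (g : W), l.Prime ∧ l ≠ p ∧ g ∈ Dn F l ∧ ∀ b : W, b ^ l ≠ g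

/-- A subfield of finite index of a function field is a function field. -/
def StFFb : Prop :=
  ∀ (F : Type u) (W : Type v) (W' : Type w) [Field F] [Field W] [Algebra F W] [Field W']
    [Algebra F W'] [Algebra W W'] [IsScalarTower F W W'] [FiniteDimensional W W'],
    FF F W' → FF F W

/-- An automorphism `a` of prime order `l`, prime to the characteristic: the fixed field `W`, the
places above a place of `W`, a Kummer generator. -/
def StCyc : Prop :=
  ∀ (F : Type u) (M : Type v) [Field F] [IsAlgClosed F] [Field M] [Algebra F M] (a : M ≃ₐ[F] M)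
    (l : ℕ), FF F M → l.Prime → (l : F) ≠ 0 → a ^ l = 1 → a ≠ 1 →
    ∃ W : IntermediateField F M, (∀ z : M, z ∈ W ↔ a z = z) ∧ FF F W ∧
      Module.finrank W M = l ∧
      (∀ P : Plc F W, ∃ Q : Plc F M, Over P Q) ∧ (∀ Q : Plc F M, ∃ P : Plc F W, Over P Q) ∧
      (∀ (P : Plc F W) (Q : Plc F M), Over P Q →
        (Mv a.toRingEquiv Q Q → (∀ f : W, f ≠ 0 → ord Q (f : M) = l * ord P f) ∧
          ∀ Q' : Plc F M, Over P Q' → Q' = Q) ∧
        (¬ Mv a.toRingEquiv Q Q → ∀ f : W, f ≠ 0 → ord Q (f : M) = ord P f)) ∧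
      ∃ (b : M) (c : F), b ≠ 0 ∧ IsPrimitiveRoot c l ∧ a b = algebraMap F M c * b

section Act

variable {F : Type u} {U : Type v} [Field F] [Field U] [Algebra F U] {p : ℕ}
  {Λ : IntermediateField F U}

/-- `x'` (a place of `M'`) is the image of `x` (a place of `M`) under `a`. -/
def MvT (a : Tinf F p Λ ≃+* Tinf F p Λ) {M M' : IntermediateField F U} (x : Plc F M)
    (x' : Plc F M') : Prop :=
  ∀ (z : M) (z' : M') (y : Tinf F p Λ), (y : U) = z → ((a y : Tinf F p Λ) : U) = z' →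
    (z ∈ x.ring ↔ z' ∈ x'.ring)

/-- The place `y` of `M'` lies above the place `x` of `M`. -/
def Abv {M M' : IntermediateField F U} (x : Plc F M) (y : Plc F M') : Prop :=
  ∀ (z : M) (z' : M'), (z : U) = z' → (z ∈ x.ring ↔ z' ∈ y.ring)

/-- `M` is stable under `a`. -/
def Stb (a : Tinf F p Λ ≃+* Tinf F p Λ) (M : IntermediateField F U) : Prop :=
  ∀ y : Tinf F p Λ, (y : U) ∈ M ↔ ((a y : Tinf F p Λ) : U) ∈ M

/-- An automorphism of order `l` over `F` of the union of the towers. -/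
structure Gam (p l : ℕ) (Λ : IntermediateField F U) (a : Tinf F p Λ ≃+* Tinf F p Λ) : Prop where
  prime : l.Prime
  ne : l ≠ p
  cst : ∀ c : F, a (algebraMap F _ c) = algebraMap F _ c
  stab : Stb a Λ
  pow : a ^ l = 1
  ram : ∃ z : Tinf F p Λ, (z : U) ∈ Λ ∧ a z ≠ z

/-- The place `x` of `M` is below fixed places of all stable towers containing `M`. -/
def InY (a : Tinf F p Λ ≃+* Tinf F p Λ) (M : IntermediateField F U) (x : Plc F M) : Prop :=
  ∀ M' : IntermediateField F U, Tow F p Λ M' → Stb a M' → M ≤ M' →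
    ∃ y : Plc F M', MvT a y y ∧ Abv x y

/-- The action of the group `G` with inertia group `I`, wild inertia group `P`, Frobenius `φ`. -/
structure EDat (p : ℕ) (Λ : IntermediateField F U) {G : Type w} [Group G]
    (ρ : G →* (Tinf F p Λ ≃+* Tinf F p Λ)) (I P : Subgroup G) (φ : G) : Prop where
  norm : I.Normal
  le : P ≤ I
  stab : ∀ s : G, Stb (ρ s) Λ
  cst : ∀ (s : G) (c : F), ∃ c' : F, ρ s (algebraMap F _ c) = algebraMap F _ c'
  inert : ∀ s ∈ I, ∀ c : F, ρ s (algebraMap F _ c) = algebraMap F _ c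
  frob : ∃ f : ℕ, 1 ≤ f ∧
    (∀ c : F, ρ φ (algebraMap F _ c) = algebraMap F _ (c ^ p ^ f)) ∧
    ∀ s ∈ I, φ * s * φ⁻¹ * (s ^ p ^ f)⁻¹ ∈ P
  orb : ∀ z : Tinf F p Λ, (Set.range fun s : G => ρ s z).Finite
  wild : ∀ s ∈ P, ∀ z : Tinf F p Λ, ∃ N : ℕ, ρ (s ^ p ^ N) z = z
  cyc : ∃ t ∈ I, ∃ e : ℕ, ¬ p ∣ e ∧ (∀ z : Tinf F p Λ, (z : U) ∈ Λ → ρ (t ^ e) z = z) ∧
    ∀ s ∈ I, ∃ j : ℕ, ∀ z : Tinf F p Λ, (z : U) ∈ Λ → ρ s z = ρ (t ^ j) z
  ram : ∃ s ∈ I, ∃ z : Tinf F p Λ, (z : U) ∈ Λ ∧ ρ s z ≠ z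

end Act

/-- E1. Inertia elements that are trivial on `Λ` are trivial on all towers. -/
def StE1 : Prop :=
  ∀ (F : Type u) (U : Type v) [Field F] [Field U] [IsAlgClosed U] [Algebra F U] (p : ℕ)
    (Λ : IntermediateField F U) (G : Type w) [Group G]
    (ρ : G →* (Tinf F p Λ ≃+* Tinf F p Λ)) (I P : Subgroup G) (φ : G), FpBar p F → FF F Λ →
    EDat p Λ ρ I P φ → ∀ s ∈ I, (∀ z : Tinf F p Λ, (z : U) ∈ Λ → ρ s z = z) → ρ s = 1

/-- E2. There is `t ∈ I` of prime order on the towers, whose conjugates act as powers of `t`. -/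
def StE2 : Prop :=
  ∀ (F : Type u) (U : Type v) [Field F] [Field U] [IsAlgClosed U] [Algebra F U] (p : ℕ)
    (Λ : IntermediateField F U) (G : Type w) [Group G]
    (ρ : G →* (Tinf F p Λ ≃+* Tinf F p Λ)) (I P : Subgroup G) (φ : G), FpBar p F → FF F Λ →
    EDat p Λ ρ I P φ → (∀ s ∈ I, (∀ z : Tinf F p Λ, (z : U) ∈ Λ → ρ s z = z) → ρ s = 1) →
    ∃ t ∈ I, ∃ l : ℕ, Gam p l Λ (ρ t) ∧ ∀ s : G, ∃ j : ℕ, ρ (s * t * s⁻¹) = ρ (t ^ j)

/-- E3. The automorphism of order `l` fixes a place of every stable tower, and finitely many. -/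
def StE3 : Prop :=
  ∀ (F : Type u) (U : Type v) [Field F] [Field U] [IsAlgClosed U] [Algebra F U] (p l : ℕ)
    (Λ : IntermediateField F U) (a : Tinf F p Λ ≃+* Tinf F p Λ), FpBar p F → FF F Λ →
    Gam p l Λ a → ∀ M : IntermediateField F U, Tow F p Λ M → Stb a M →
      {x : Plc F M | MvT a x x}.Nonempty ∧ {x : Plc F M | MvT a x x}.Finite

/-- E4. Compactness: there is a place in `Y`, and places in `Y` can be lifted. -/
def StE4 : Prop :=
  ∀ (F : Type u) (U : Type v) [Field F] [Field U] [IsAlgClosed U] [Algebra F U] (p l : ℕ)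
    (Λ : IntermediateField F U) (a : Tinf F p Λ ≃+* Tinf F p Λ), FpBar p F → FF F Λ →
    Gam p l Λ a →
    (∀ M : IntermediateField F U, Tow F p Λ M → Stb a M →
      {x : Plc F M | MvT a x x}.Nonempty ∧ {x : Plc F M | MvT a x x}.Finite) →
    (∃ x : Plc F Λ, InY a Λ x) ∧
    ∀ (M : IntermediateField F U) (x : Plc F Λ), Tow F p Λ M → Stb a M → InY a Λ x →
      ∃ y : Plc F M, MvT a y y ∧ Abv x y ∧ InY a M y

/-- E5. Three different fixed places, two of them in `Y`, are impossible. -/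
def StE5 : Prop :=
  ∀ (F : Type u) (U : Type v) [Field F] [Field U] [IsAlgClosed U] [Algebra F U] (p l : ℕ)
    (Λ : IntermediateField F U) (a : Tinf F p Λ ≃+* Tinf F p Λ), FpBar p F → FF F Λ →
    Gam p l Λ a → ∀ (M : IntermediateField F U) (x y z : Plc F M), Tow F p Λ M → Stb a M →
      InY a M x → InY a M y → MvT a z z → x ≠ y → x ≠ z → y ≠ z → False

/-- E6. If `Y` has two elements then some stable tower has three fixed places, two of them above
the two elements (and again in `Y`). -/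
def StE6 : Prop :=
  ∀ (F : Type u) (U : Type v) [Field F] [Field U] [IsAlgClosed U] [Algebra F U] (p l : ℕ)
    (Λ : IntermediateField F U) (a : Tinf F p Λ ≃+* Tinf F p Λ), FpBar p F → FF F Λ →
    ¬ IsRat F Λ → Gam p l Λ a → ∀ x y : Plc F Λ, InY a Λ x → InY a Λ y → x ≠ y →
      ∃ (M : IntermediateField F U) (x' y' z' : Plc F M), Tow F p Λ M ∧ Stb a M ∧
        InY a M x' ∧ InY a M y' ∧ MvT a z' z' ∧ x' ≠ y' ∧ x' ≠ z' ∧ y' ≠ z'

/-- E7. Conclusion of part E. -/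
def StE : Prop :=
  ∀ (F : Type u) (U : Type v) [Field F] [Field U] [IsAlgClosed U] [Algebra F U] (p : ℕ)
    (Λ : IntermediateField F U) (G : Type w) [Group G]
    (ρ : G →* (Tinf F p Λ ≃+* Tinf F p Λ)) (I P : Subgroup G) (φ : G), FpBar p F → FF F Λ →
    ¬ IsRat F Λ → EDat p Λ ρ I P φ → ∃ x : Plc F Λ, ∀ s : G, MvT (ρ s) x x

end Pool.Agent.Lib.MP_c385f6_ag.TPG
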