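import Pool.Agent.Lib.MP_c385f6_ag.TPG.BInst
import Pool.Agent.Lib.MP_c385f6_ag.TPG.StE

/-!
Project TPG, part B: the final statements `StAlpha`, `StGamma`, `StDelta` from the statements of
`StB` and of part A.
-/

set_option autoImplicit false

namespace Pool.Agent.Lib.MP_c385f6_ag.TPG

universe u v

namespace BFin

open BInst

variable {F : Type u} {W : Type v} [Field F] [Field W] [Algebra F W]

/-- The class data of a function field with a Frobenius. -/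
theorem exists_cd (p : ℕ) (hp : FpBar p F) (hff : FF F W) (h0 : OrdF F W) (h1 : RRF F W)
    (hg : ∃ g : ℕ, IsGenus F W g) (hA : StAct.{u, v}) (hc : StCnt.{u, v}) (hrep : StRep.{u, v})
    (f : ℕ) (Φ : W ≃+* W) (hf : 1 ≤ f) (hΦ : Frob F W (p ^ f) Φ) :
    ∃ (m : ℕ) (φ : Equiv.Perm (Plc F W)) (X : CD (Plc F W)), 0 < m ∧ X.φ = φ ^ m ∧
      X.Pr = prin h0 h1 ∧ ∀ P w, ord (φ P) (Φ w) = ord P w := by
  have : Fact p.Prime := ⟨hp.prime⟩
  have := hp.char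
  have := hp.closed
  obtain ⟨φ, -, hφ, horb, hfin⟩ := hA p F W hp.tors hff f Φ hf hΦ
  obtain ⟨g, hg⟩ := hg
  have := h1.ne
  obtain ⟨P₀⟩ : Nonempty (Plc F W) := inferInstance
  obtain ⟨m, hm, hP⟩ := horb P₀
  have hΦ2 := frob_pow hΦ m
  rw [← pow_mul] at hΦ2
  refine ⟨m, φ, inst p hp.tors hff h0 h1 hc hrep g hg (f * m) (Φ ^ m) (φ ^ m)
    (Nat.mul_pos hf hm) hΦ2 (ord_pow hφ m) (fun P => ?_) (fun n hn => ?_) P₀ hP, hm, rfl, rfl, hφ⟩
  · obtain ⟨n, hn, h⟩ := horb P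
    refine ⟨n, hn, ?_⟩
    rw [← pow_mul, Nat.mul_comm]
    exact BConc.pow_fix h m
  · have h := hfin (m * n) (Nat.mul_pos hm hn)
    rw [pow_mul] at h
    exact h

/-- A Frobenius and its class data. -/
theorem exists_cd' (p : ℕ) (hp : FpBar p F) (hff : FF F W) (h0 : OrdF F W) (h1 : RRF F W)
    (hg : ∃ g : ℕ, IsGenus F W g) (hF : StFrobE.{u, v}) (hA : StAct.{u, v}) (hc : StCnt.{u, v})
    (hrep : StRep.{u, v}) : ∃ X : CD (Plc F W), X.Pr = prin h0 h1 := by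
  have : Fact p.Prime := ⟨hp.prime⟩
  have := hp.char
  have := hp.closed
  obtain ⟨f, Φ, hf, hΦ⟩ := hF p F W hp.tors hff
  obtain ⟨m, φ, X, -, -, h, -⟩ := exists_cd p hp hff h0 h1 hg hA hc hrep f Φ hf hΦ
  exact ⟨X, h⟩

theorem alpha (h0 : OrdF F W) (h1 : RRF F W) (X : CD (Plc F W)) (hX : X.Pr = prin h0 h1) (l : ℕ)
    (hl : ∀ a : X.A, ∃ b, l • b = a) (D : Dv F W) (hD : dg D = 0) :
    ∃ v : W, v ≠ 0 ∧ ∀ P : Plc F W, (l : ℤ) ∣ ord P v - D P := by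
  have hD' : dgr D = 0 := hD
  obtain ⟨b, hb⟩ := hl (X.cls D hD')
  obtain ⟨E, hE, rfl⟩ := X.cls_surj b
  rw [← X.cls_nsmul, X.cls_eq, hX] at hb
  have hb2 := (prin h0 h1).neg_mem hb
  obtain ⟨v, hv, h2⟩ := hb2
  refine ⟨v, hv, fun P => ⟨-E P, ?_⟩⟩
  rw [← h1.dv_apply v P hv, h2]
  simp

theorem delta (h0 : OrdF F W) (h1 : RRF F W) (X : CD (Plc F W)) (hX : X.Pr = prin h0 h1)
    (hX0 : ∀ a : X.A, a = 0) : ∃ (P Q : Plc F W) (f : W), P ≠ Q ∧ f ≠ 0 ∧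
      dv f = Finsupp.single P 1 - Finsupp.single Q 1 := by
  have := h1.ne
  obtain ⟨P, Q, hPQ⟩ := exists_pair_ne (Plc F W)
  have h2 : dgr (Finsupp.single P 1 - Finsupp.single Q 1) = 0 := by
    rw [dgr_sub, dgr_single, dgr_single, sub_self]
  have h3 := (X.cls_eq_zero _ h2).mp (hX0 _)
  rw [hX] at h3
  obtain ⟨f, hf, h4⟩ := h3
  exact ⟨P, Q, f, hPQ, hf, h4⟩

/-- No torsion of order `l`, if all elements of `D_l` are `l`-th powers. -/
theorem tors_zero (h0 : OrdF F W) (h1 : RRF F W) (X : CD (Plc F W)) (hX : X.Pr = prin h0 h1)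
    (l : ℕ) (hl : 0 < l) (h : ∀ g ∈ Dn F (W := W) l, ∃ b : W, b ^ l = g) (a : X.A)
    (ha : l • a = 0) : a = 0 := by
  obtain ⟨E, hE, rfl⟩ := X.cls_surj a
  rw [← X.cls_nsmul, X.cls_eq_zero, hX] at ha
  obtain ⟨g, hg, h2⟩ := ha
  obtain ⟨b, rfl⟩ := h g ⟨hg, fun P => ⟨E P, by
    rw [← h1.dv_apply g P hg, h2]
    simp⟩⟩
  have hb : b ≠ 0 := by
    rintro rfl
    exact hg (zero_pow hl.ne')
  rw [X.cls_eq_zero, hX]
  refine ⟨b, hb, ?_⟩
  rw [dv_pow h0 h1 hb] at h2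
  ext P
  have h3 := DFunLike.congr_fun h2 P
  simp only [Finsupp.smul_apply, nsmul_eq_mul] at h3
  exact mul_left_cancel₀ (by exact_mod_cast hl.ne') h3

theorem nm_succ_sub {T : Type*} (φ : Equiv.Perm T) (m : ℕ) (E : T →₀ ℤ) :
    pm φ (nm φ m E) - nm φ m E = pm (φ ^ m) E - E := by
  induction m with
  | zero =>
    rw [nm, Finset.range_zero, Finset.sum_empty, pm_zero, pow_zero, pm_one, sub_zero, sub_self]
  | succ m ih =>
    have h : nm φ (m + 1) E = nm φ m E + pm (φ ^ m) E := by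
      rw [nm, nm, Finset.sum_range_succ]
    rw [h, pm_add, ← pm_mul, ← pow_succ']
    rw [sub_eq_sub_iff_add_eq_add] at ih ⊢
    have h2 : pm φ (nm φ m E) + pm (φ ^ (m + 1)) E + E =
        (pm φ (nm φ m E) + E) + pm (φ ^ (m + 1)) E := by abel
    rw [h2, ih]
    abel

theorem dgr_nm {T : Type*} (φ : Equiv.Perm T) (m : ℕ) (E : T →₀ ℤ) :
    dgr (nm φ m E) = m * dgr E := by
  induction m with
  | zero => simp [nm, dgr]
  | succ m ih =>
    have h : nm φ (m + 1) E = nm φ m E + pm (φ ^ m) E := by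
      rw [nm, nm, Finset.sum_range_succ]
    rw [h, dgr_add, ih, dgr_pm]
    push_cast
    ring

/-- The divisor part of (gamma). -/
theorem gamma_div (p : ℕ) (hp : p.Prime) (X : CD (Plc F W)) (hs : ∀ a : X.A, ∃ b, X.σ b - b = a)
    (ht : ∀ a : X.A, ∃ n > 0, n • a = 0) (m : ℕ) (φ : Equiv.Perm (Plc F W)) (hφ : X.φ = φ ^ m)
    (n : ℕ) (hn : ¬ p ∣ n) (D : Dv F W)
    (hD : n • D ∈ X.Pr) (hD0 : dgr D = 0) :
    ∃ (N : ℕ) (E : Dv F W), ¬ p ∣ n * N ∧ N • E ∈ X.Pr ∧ pm φ E - E - D ∈ X.Pr := by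
  obtain ⟨b, hb⟩ := hs (X.cls D hD0)
  obtain ⟨E', hE', rfl⟩ := X.cls_surj b
  rw [X.σ_cls, ← X.cls_sub _ _ (by rw [dgr_pm, hE']) hE', X.cls_eq, hφ] at hb
  have hEd : dgr (nm φ m E') = 0 := by rw [dgr_nm, hE', mul_zero]
  obtain ⟨N₀, hN₀, hN⟩ := ht (X.cls (nm φ m E') hEd)
  rw [← X.cls_nsmul, X.cls_eq_zero] at hN
  rw [← nm_succ_sub] at hb
  set E := nm φ m E' with hE
  obtain ⟨r, N, hpN, hNr⟩ := Nat.exists_eq_pow_mul_and_not_dvd hN₀.ne' p hp.ne_one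
  have hcop : Nat.Coprime (p ^ r) n := Nat.Coprime.pow_left r ((Nat.Prime.coprime_iff_not_dvd hp).mpr hn)
  obtain ⟨w, hw1, hw2⟩ := Nat.chineseRemainder hcop 0 1
  obtain ⟨w', rfl⟩ := (Nat.modEq_zero_iff_dvd).mp hw1
  obtain ⟨t, ht2⟩ := (Nat.modEq_iff_dvd).mp hw2.symm
  refine ⟨N, (p ^ r * w') • E, ?_, ?_, ?_⟩
  · rw [hp.dvd_mul]
    exact fun h => h.elim hn hpN
  · have h2 : N • (p ^ r * w') • E = w' • N₀ • E := by
      rw [hNr, smul_smul, smul_smul]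
      congr 1
      ring
    rw [h2]
    exact X.Pr.nsmul_mem hN w'
  · have h3 : pm φ ((p ^ r * w') • E) = (p ^ r * w') • pm φ E := map_nsmul (pmH φ) _ _
    have h4 : pm φ ((p ^ r * w') • E) - (p ^ r * w') • E - D =
        (p ^ r * w') • (pm φ E - E - D) + t • n • D := by
      rw [h3]
      have h5 : t • n • D = (p ^ r * w') • D - D := by
        have h6 : (t * (n : ℤ)) • D = ((p ^ r * w' : ℕ) : ℤ) • D - (1 : ℤ) • D := by
          rw [← sub_smul]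
          congr 1
          rw [mul_comm]
          exact_mod_cast ht2.symm
        rw [one_smul, natCast_zsmul] at h6
        rw [← h6, mul_smul, natCast_zsmul]
      rw [h5]
      simp only [smul_sub]
      abel
    rw [h4]
    exact X.Pr.add_mem (X.Pr.nsmul_mem hb _) (X.Pr.zsmul_mem hD t)

theorem gamma (p f : ℕ) (hp : FpBar p F) (hf : 1 ≤ f) (h0 : OrdF F W) (h1 : RRF F W)
    (s : W ≃+* W) (hs : ∀ c : F, s (algebraMap F W c) = algebraMap F W (c ^ p ^ f))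
    (φ : Equiv.Perm (Plc F W)) (hφ : ∀ P w, ord (φ P) (s w) = ord P w) (n N : ℕ) (g : W)
    (hg : g ≠ 0) (D E : Dv F W) (hD : n • D = dv g)
    (hE : ∃ x : W, x ≠ 0 ∧ dv x = N • E) (hDE : ∃ x : W, x ≠ 0 ∧ dv x = pm φ E - E - D) :
    ∃ g' v : W, g' ∈ Dn F (n * N) ∧ v ≠ 0 ∧ g ^ N * v ^ (n * N) * g' = s g' := by
  obtain ⟨x, hx, hx2⟩ := hE
  obtain ⟨v, hv, hv2⟩ := hDE
  have hg2 : x ^ n ≠ 0 := pow_ne_zero n hx
  have hdv : (dv (x ^ n) : Dv F W) = (n * N) • E := by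
    rw [dv_pow h0 h1 hx, hx2, smul_smul]
  have hs2 : s (x ^ n) ≠ 0 := (map_ne_zero s).mpr hg2
  have hy : g ^ N * v ^ (n * N) * x ^ n ≠ 0 :=
    mul_ne_zero (mul_ne_zero (pow_ne_zero _ hg) (pow_ne_zero _ hv)) hg2
  have h3 : (dv (s (x ^ n)) : Dv F W) = dv (g ^ N * v ^ (n * N) * x ^ n) := by
    rw [← pm_dv h1 hφ hg2, dv_mul h0 h1 (mul_ne_zero (pow_ne_zero _ hg) (pow_ne_zero _ hv)) hg2,
      dv_mul h0 h1 (pow_ne_zero _ hg) (pow_ne_zero _ hv), dv_pow h0 h1 hg, dv_pow h0 h1 hv, ← hD,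
      hv2, hdv]
    have h4 : pm φ ((n * N) • E) = (n * N) • pm φ E := map_nsmul (pmH φ) _ _
    rw [h4]
    simp only [smul_sub]
    have h5 : N • n • D = (n * N) • D := by rw [smul_smul, Nat.mul_comm]
    rw [h5]
    abel
  obtain ⟨c, hc, h6⟩ := exists_const h0 h1 hs2 hy h3
  have := hp.closed
  have hq : 2 ≤ p ^ f := hp.prime.two_le.trans (Nat.le_self_pow (by omega) p)
  obtain ⟨d, hd⟩ := IsAlgClosed.exists_pow_nat_eq c⁻¹ (n := p ^ f - 1) (by omega)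
  have hd0 : d ≠ 0 := by
    rintro rfl
    rw [zero_pow (by omega)] at hd
    exact inv_ne_zero hc hd.symm
  have hda : algebraMap F W d ≠ 0 := (map_ne_zero _).mpr hd0
  refine ⟨algebraMap F W d * x ^ n, v, ⟨mul_ne_zero hda hg2, fun P => ⟨E P, ?_⟩⟩, hv, ?_⟩
  · rw [h0.mul P _ _ hda hg2, h1.ord_const, zero_add, ← h1.dv_apply _ P hg2, hdv]
    simp
  · rw [map_mul, hs, h6]
    have h7 : d ^ p ^ f * c = d := by
      have h8 : p ^ f = (p ^ f - 1) + 1 := by omega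
      rw [h8, pow_succ, hd]
      field_simp
    have h9 : algebraMap F W (d ^ p ^ f) * (algebraMap F W c * (g ^ N * v ^ (n * N) * x ^ n)) =
        algebraMap F W (d ^ p ^ f * c) * (g ^ N * v ^ (n * N) * x ^ n) := by
      rw [map_mul]
      ring
    rw [h9, h7]
    ring

end BFin

/-- (alpha) from the statements of part B. -/
theorem stAlpha_of (hO : StOrd.{u, v}) (hR : StRRF.{u, v}) (hRi : StRiem.{u, v})
    (hF : StFrobE.{u, v}) (hA : StAct.{u, v}) (hc : StCnt.{u, v}) (hrep : StRep.{u, v})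
    (b1 : StZeta.{v}) (b2 : StComp) (b3 : StDet) (b4 : StRank.{v}) (b5 : StCls.{v})
    (b6 : StNorm.{v}) (b7 : StLang.{v}) (b8 : StDvb.{v}) : StAlpha.{u, v} := by
  intro F W _ _ _ p l hp hff hl _ D hD
  have := hp.closed
  have h0 := hO F W hff
  have h1 := hR F W hff
  obtain ⟨X, hX⟩ := BFin.exists_cd' p hp hff h0 h1 (hRi F W hff).exists hF hA hc hrep
  exact BFin.alpha h0 h1 X hX l (BConc.divisible X b1 b2 b3 b4 b5 b6 b7 b8 l hl) D hD

/-- (delta) from the statements of part B. -/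
theorem stDelta_of (hO : StOrd.{u, v}) (hR : StRRF.{u, v}) (hRi : StRiem.{u, v})
    (hRa : StRat.{u, v}) (hF : StFrobE.{u, v}) (hA : StAct.{u, v}) (hc : StCnt.{u, v})
    (hrep : StRep.{u, v}) (b1 : StZeta.{v}) (b2 : StComp) (b3 : StDet) (b5 : StCls.{v})
    (b9 : StNil) : StDelta.{u, v} := by
  intro F W _ _ _ p hp hff hrat
  have := hp.closed
  have h0 := hO F W hff
  have h1 := hR F W hff
  obtain ⟨X, hX⟩ := BFin.exists_cd' p hp hff h0 h1 (hRi F W hff).exists hF hA hc hrep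
  by_contra hcon
  push Not at hcon
  refine hrat ((hRa F W hff).2 (BFin.delta h0 h1 X hX (BConc.trivial X b1 b2 b3 b5 b9 p ?_)))
  intro l hl hlp a ha
  exact BFin.tors_zero h0 h1 X hX l hl.pos (fun g hg => hcon l g hl hlp hg) a ha

/-- (gamma) from the statements of part B. -/
theorem stGamma_of (hO : StOrd.{u, v}) (hR : StRRF.{u, v}) (hRi : StRiem.{u, v})
    (hA : StAct.{u, v}) (hc : StCnt.{u, v}) (hrep : StRep.{u, v}) (b5 : StCls.{v})
    (b6 : StNorm.{v}) (b7 : StLang.{v}) : StGamma.{u, v} := by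
  intro F W _ _ _ p f hp hff hf s hs hfin n g hn hg
  have := hp.closed
  have h0 := hO F W hff
  have h1 := hR F W hff
  obtain ⟨m, φ, X, -, hXφ, hX, hφ⟩ := BFin.exists_cd p hp hff h0 h1 (hRi F W hff).exists hA hc
    hrep f s hf ⟨hs, hfin⟩
  have hg1 : ∀ P : Plc F W, (n : ℤ) * (ord P g / n) = ord P g := fun P =>
    Int.mul_ediv_cancel' (hg.2 P)
  have hn0 : n ≠ 0 := by
    rintro rfl
    exact hn (dvd_zero p)
  let D : Dv F W := (dv g : Dv F W).mapRange (fun z : ℤ => z / n) (by simp)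
  have hD : n • D = dv g := by
    ext P
    have h2 : D P = ord P g / n := by
      show (dv g : Dv F W) P / n = ord P g / n
      rw [h1.dv_apply g P hg.1]
    rw [Finsupp.smul_apply, h2, h1.dv_apply g P hg.1, nsmul_eq_mul]
    exact hg1 P
  have hD0 : dgr D = 0 := by
    have h3 : dgr (n • D) = 0 := by
      rw [hD]
      exact h1.dg_dv g hg.1
    rw [dgr_nsmul] at h3
    rcases mul_eq_zero.mp h3 with h4 | h4
    · exact absurd (by exact_mod_cast h4) hn0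
    · exact h4
  obtain ⟨N, E, hpN, hE, hDE⟩ := BFin.gamma_div p hp.prime X
    (fun a => by
      obtain ⟨b, hb⟩ := BConc.surj X b7 b5 b6 1 one_pos a
      exact ⟨b, by rwa [pow_one] at hb⟩)
    (BConc.torsion X b5) m φ hXφ n hn D (by
      rw [hD, hX]
      exact ⟨g, hg.1, rfl⟩) hD0
  rw [hX] at hE hDE
  obtain ⟨g', v, h5, h6, h7⟩ := BFin.gamma p f hp hf h0 h1 s hs φ hφ n N g hg.1 D E hD hE hDE
  exact ⟨N, g', v, hpN, h5, h6, h7⟩

end Pool.Agent.Lib.MP_c385f6_ag.TPG
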