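import Pool.Agent.Lib.MP_c385f6_ag.TPG.StB

/-!
Project TPG, module B13: existence of a Frobenius automorphism.
-/

set_option autoImplicit false

namespace Pool.Agent.Lib.MP_c385f6_ag.TPG

universe u v

namespace BFrob

section Per

variable {p : ℕ} [Fact p.Prime] {F : Type u} [Field F] [CharP F p]

theorem per_mul (a : F) (m k : ℕ) (h : a ^ p ^ m = a) : a ^ p ^ (m * k) = a := by
  induction k with
  | zero => rw [mul_zero, pow_zero, pow_one]
  | succ k ih => rw [mul_add, mul_one, pow_add, pow_mul, ih, h]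

theorem per_dvd (a : F) (m n : ℕ) (h : a ^ p ^ m = a) (hmn : m ∣ n) : a ^ p ^ n = a := by
  obtain ⟨k, rfl⟩ := hmn
  exact per_mul a m k h

theorem per (hRU : RU F) (a : F) : ∃ m : ℕ, 0 < m ∧ a ^ p ^ m = a := by
  rcases eq_or_ne a 0 with rfl | ha
  · exact ⟨1, one_pos, zero_pow (pow_pos (Fact.out : p.Prime).pos 1).ne'⟩
  obtain ⟨n, hn, han⟩ := hRU a ha
  have hd : 0 < orderOf a := orderOf_pos_iff.2 (isOfFinOrder_iff_pow_eq_one.2 ⟨n, hn, han⟩)
  have hcop : Nat.Coprime p (orderOf a) := by
    rw [Nat.Prime.coprime_iff_not_dvd (Fact.out : p.Prime)]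
    rintro ⟨e, he⟩
    have h1 : (a ^ e) ^ p = 1 := by
      rw [← pow_mul, mul_comm, ← he, pow_orderOf_eq_one]
    have h2 : a ^ e = 1 := by
      refine frobenius_inj F p ?_
      rw [frobenius_def, frobenius_def, h1, one_pow]
    have he0 : 0 < e := by
      rcases Nat.eq_zero_or_pos e with h | h
      · rw [h, mul_zero] at he
        omega
      · exact h
    have h3 := orderOf_le_of_pow_eq_one he0 h2
    have h4 := (Fact.out : p.Prime).two_le
    rw [he] at h3
    nlinarith
  refine ⟨(orderOf a).totient, Nat.totient_pos.2 hd, ?_⟩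
  have h1 := Nat.ModEq.pow_totient hcop
  have h2 : p ^ (orderOf a).totient % orderOf a = 1 % orderOf a := h1
  calc a ^ p ^ (orderOf a).totient = a ^ (p ^ (orderOf a).totient % orderOf a) :=
        (pow_mod_orderOf a _).symm
    _ = a ^ (1 % orderOf a) := by rw [h2]
    _ = a ^ 1 := pow_mod_orderOf a 1
    _ = a := pow_one a

theorem per_finset (hRU : RU F) (S : Finset F) : ∃ m : ℕ, 0 < m ∧ ∀ a ∈ S, a ^ p ^ m = a := by
  classical
  choose m hm hm' using per (p := p) hRU
  refine ⟨∏ a ∈ S, m a, Finset.prod_pos fun a _ => hm a, fun a ha => ?_⟩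
  exact per_dvd a (m a) _ (hm' a) (Finset.dvd_prod_of_mem m ha)

end Per

/-- a finite set of generators -/
theorem gens (F : Type u) (W : Type v) [Field F] [Field W] [Algebra F W] (h : FF F W) :
    ∃ S : Set W, S.Finite ∧ IntermediateField.adjoin F S = ⊤ := by
  obtain ⟨t, -, ht⟩ := h
  let b := Module.finBasis (IntermediateField.adjoin F {t}) W
  refine ⟨{t} ∪ Set.range b, (Set.finite_singleton t).union (Set.finite_range b), ?_⟩
  rw [eq_top_iff]
  intro w _
  rw [← b.sum_repr w]
  refine sum_mem fun i _ => ?_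
  rw [Algebra.smul_def]
  refine mul_mem ?_ (IntermediateField.subset_adjoin F _ (Or.inr ⟨i, rfl⟩))
  have h1 : IntermediateField.adjoin F {t} ≤
      IntermediateField.adjoin F ({t} ∪ Set.range b) :=
    IntermediateField.adjoin.mono F _ _ Set.subset_union_left
  exact h1 (b.repr w i).2

/-- the elements with finite orbit -/
def perF {F : Type u} {W : Type v} [Field F] [Field W] [Algebra F W] (Φ : W ≃+* W)
    (h : ∀ c : F, ∃ m : ℕ, 0 < m ∧ Φ^[m] (algebraMap F W c) = algebraMap F W c) :
    IntermediateField F W where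
  carrier := {w | ∃ m : ℕ, 0 < m ∧ Φ^[m] w = w}
  mul_mem' := by
    rintro a b ⟨m, hm, ha⟩ ⟨n, hn, hb⟩
    refine ⟨m * n, Nat.mul_pos hm hn, ?_⟩
    rw [iterate_map_mul]
    congr 1
    · exact (show Function.IsPeriodicPt Φ m a from ha).mul_const n
    · exact (show Function.IsPeriodicPt Φ n b from hb).const_mul m
  add_mem' := by
    rintro a b ⟨m, hm, ha⟩ ⟨n, hn, hb⟩
    refine ⟨m * n, Nat.mul_pos hm hn, ?_⟩
    rw [iterate_map_add]
    congr 1
    · exact (show Function.IsPeriodicPt Φ m a from ha).mul_const n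
    · exact (show Function.IsPeriodicPt Φ n b from hb).const_mul m
  algebraMap_mem' := h
  inv_mem' := by
    rintro a ⟨m, hm, ha⟩
    refine ⟨m, hm, ?_⟩
    have h1 : ∀ k : ℕ, Φ^[k] a⁻¹ = (Φ^[k] a)⁻¹ := by
      intro k
      induction k with
      | zero => rfl
      | succ k ih => rw [Function.iterate_succ_apply', Function.iterate_succ_apply', ih, map_inv₀]
    rw [h1, ha]

end BFrob

open BFrob in
/-- B13 -/
theorem stFrobE : StFrobE.{u, v} := by
  classical
  intro p _ F W _ _ _ _ _ hRU hFF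
  obtain ⟨S, hS, hSt⟩ := gens F W hFF
  have : Finite S := hS
  let ev : MvPolynomial S F →ₐ[F] W := MvPolynomial.aeval Subtype.val
  let I : Ideal (MvPolynomial S F) := RingHom.ker (ev : MvPolynomial S F →+* W)
  obtain ⟨G, hG⟩ : I.FG := (isNoetherianRing_iff_ideal_fg _).1 inferInstance I
  obtain ⟨f, hf, hf'⟩ := per_finset (p := p) hRU
    (G.biUnion fun P => P.support.image fun m => P.coeff m)
  let σ : F ≃+* F := iterateFrobeniusEquiv F p f
  have hσ : ∀ c : F, σ c = c ^ p ^ f := fun c => iterateFrobeniusEquiv_def F p f c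
  let s : MvPolynomial S F ≃+* MvPolynomial S F := MvPolynomial.mapEquiv S σ
  have hs : ∀ P, s P = MvPolynomial.map (σ : F →+* F) P := fun P => rfl
  have hsG : ∀ P ∈ G, s P = P := by
    intro P hP
    rw [hs]
    ext m
    rw [MvPolynomial.coeff_map]
    change σ (P.coeff m) = _
    rw [hσ]
    by_cases hm : m ∈ P.support
    · exact hf' _ (Finset.mem_biUnion.2 ⟨P, hP, Finset.mem_image_of_mem _ hm⟩)
    · rw [MvPolynomial.notMem_support_iff.1 hm]
      exact zero_pow (pow_pos (Fact.out : p.Prime).pos f).ne'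
  have hI : I = I.map (s : MvPolynomial S F →+* MvPolynomial S F) := by
    rw [← hG, Ideal.map_span]
    congr 1
    ext P
    constructor
    · intro hP
      exact ⟨P, hP, hsG P hP⟩
    · rintro ⟨Q, hQ, rfl⟩
      have h1 := hsG Q hQ
      change s Q ∈ _
      rw [h1]
      exact hQ
  let _ : Algebra (MvPolynomial S F ⧸ I) W := (RingHom.kerLift (ev : MvPolynomial S F →+* W)).toAlgebra
  have halg : ∀ P : MvPolynomial S F, algebraMap (MvPolynomial S F ⧸ I) W
      (Ideal.Quotient.mk I P) = ev P := fun P => RingHom.kerLift_mk _ P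
  have hinj : Function.Injective (algebraMap (MvPolynomial S F ⧸ I) W) :=
    RingHom.kerLift_injective _
  have : FaithfulSMul (MvPolynomial S F ⧸ I) W :=
    (faithfulSMul_iff_algebraMap_injective _ _).2 hinj
  have : IsFractionRing (MvPolynomial S F ⧸ I) W := by
    refine IsFractionRing.of_field _ _ fun z => ?_
    have hz : z ∈ IntermediateField.adjoin F S := by
      rw [hSt]
      trivial
    obtain ⟨a, b, hab⟩ := (IntermediateField.mem_adjoin_iff F z).1 hz
    refine ⟨Ideal.Quotient.mk I a, Ideal.Quotient.mk I b, ?_⟩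
    rw [halg, halg]
    exact hab
  let Φ : W ≃+* W := IsFractionRing.ringEquivOfRingEquiv (K := W) (L := W)
    (Ideal.quotientEquiv I I s hI)
  have hΦ : ∀ P : MvPolynomial S F, Φ (ev P) = ev (s P) := by
    intro P
    have h1 := IsFractionRing.ringEquivOfRingEquiv_algebraMap (K := W) (L := W)
      (Ideal.quotientEquiv I I s hI) (Ideal.Quotient.mk I P)
    rw [halg] at h1
    change Φ (ev P) = _ at h1
    rw [h1]
    exact halg (s P)
  have hconst : ∀ c : F, Φ (algebraMap F W c) = algebraMap F W (c ^ p ^ f) := by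
    intro c
    have h1 := hΦ (MvPolynomial.C c)
    rw [hs, MvPolynomial.map_C] at h1
    change Φ (ev (MvPolynomial.C c)) = ev (MvPolynomial.C (σ c)) at h1
    rw [hσ, MvPolynomial.aeval_C, MvPolynomial.aeval_C] at h1
    exact h1
  have hX : ∀ x : S, Φ x = x := by
    intro x
    have h1 := hΦ (MvPolynomial.X x)
    rw [hs, MvPolynomial.map_X, MvPolynomial.aeval_X] at h1
    exact h1
  have hconst' : ∀ (c : F) (k : ℕ), Φ^[k] (algebraMap F W c) =
      algebraMap F W (c ^ p ^ (f * k)) := by
    intro c k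
    induction k with
    | zero => rw [mul_zero, pow_zero, pow_one, Function.iterate_zero, id]
    | succ k ih =>
      rw [Function.iterate_succ_apply', ih, hconst, ← pow_mul, ← pow_add, mul_add, mul_one]
  refine ⟨f, Φ, hf, hconst, fun w => ?_⟩
  let K := perF (F := F) Φ (fun c => by
    obtain ⟨m, hm, hm'⟩ := per (p := p) hRU c
    refine ⟨m, hm, ?_⟩
    rw [hconst', mul_comm, per_mul c m f hm'])
  have hK : ∀ w : W, w ∈ K ↔ ∃ m : ℕ, 0 < m ∧ Φ^[m] w = w := fun _ => Iff.rfl
  have hle : IntermediateField.adjoin F S ≤ K := by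
    rw [IntermediateField.adjoin_le_iff]
    intro x hx
    exact ⟨1, one_pos, hX ⟨x, hx⟩⟩
  rw [← hK]
  apply hle
  rw [hSt]
  trivial

end Pool.Agent.Lib.MP_c385f6_ag.TPG
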