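import Pool.Agent.Lib.MP_c385f6_ag.TPG.StB

/-!
Project TPG, module B7: abelian groups with an endomorphism; if the norms are onto then `σ - 1` is
onto.
-/

set_option autoImplicit false

namespace Pool.Agent.Lib.MP_c385f6_ag.TPG

universe u

namespace BLang

variable {A : Type u} [AddCommGroup A] (σ : AddMonoid.End A)

/-- the elements fixed by `σ ^ n` -/
def fx (n : ℕ) : AddSubgroup A where
  carrier := {a | (σ ^ n) a = a}
  zero_mem' := map_zero (σ ^ n)
  add_mem' := fun {a b} ha hb => by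
    simp only [Set.mem_ofPred_eq] at ha hb ⊢
    rw [map_add, ha, hb]
  neg_mem' := fun {a} ha => by
    simp only [Set.mem_ofPred_eq] at ha ⊢
    rw [map_neg, ha]

theorem mem_fx {n : ℕ} {a : A} : a ∈ fx σ n ↔ (σ ^ n) a = a := Iff.rfl

/-- the norm -/
def nn (n : ℕ) : AddMonoid.End A := ∑ i ∈ Finset.range n, σ ^ i

theorem sub_nn (n : ℕ) (a : A) : σ (nn σ n a) - nn σ n a = (σ ^ n) a - a := by
  have h := congrArg (fun f : AddMonoid.End A => f a) (mul_geom_sum σ n)
  exact h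

theorem nn_sub (n : ℕ) (a : A) : nn σ n (σ a - a) = (σ ^ n) a - a := by
  have h := congrArg (fun f : AddMonoid.End A => f a) (geom_sum_mul σ n)
  exact h

theorem fixed_pow {a : A} (h : σ a = a) (n : ℕ) : (σ ^ n) a = a := by
  induction n with
  | zero => rfl
  | succ n ih =>
    have h2 : (σ ^ (n + 1)) a = σ ((σ ^ n) a) := by
      rw [pow_succ']
      rfl
    rw [h2, ih, h]

theorem fx_of_fixed {a : A} (h : σ a = a) (n : ℕ) : a ∈ fx σ n := fixed_pow σ h n

theorem comm_pow (n : ℕ) (a : A) : (σ ^ n) (σ a) = σ ((σ ^ n) a) := by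
  have h : σ ^ n * σ = σ * σ ^ n := by rw [← pow_succ, ← pow_succ']
  exact congrArg (fun f : AddMonoid.End A => f a) h

theorem nn_mem {n : ℕ} {a : A} (ha : a ∈ fx σ n) : nn σ n a ∈ fx σ n := by
  apply fx_of_fixed
  have h := sub_nn σ n a
  rw [(mem_fx σ).1 ha, sub_self] at h
  exact sub_eq_zero.1 h

/-- the norm on `fx σ n` -/
def fN (n : ℕ) : fx σ n →+ fx σ n where
  toFun a := ⟨nn σ n a, nn_mem σ a.2⟩
  map_zero' := Subtype.ext (map_zero (nn σ n))
  map_add' a b := Subtype.ext (map_add (nn σ n) (a : A) (b : A))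

/-- `σ - 1` on `fx σ n` -/
def fS (n : ℕ) : fx σ n →+ fx σ n where
  toFun a := ⟨σ a - a, by
    rw [mem_fx, map_sub, comm_pow, (mem_fx σ).1 a.2]⟩
  map_zero' := Subtype.ext (by simp)
  map_add' a b := Subtype.ext (by
    simp only [AddSubgroup.coe_add, map_add]
    abel)

theorem range_eq {n : ℕ} (h : ∀ a, σ a = a → ∃ b, (σ ^ n) b = b ∧ nn σ n b = a) :
    (fN σ n).range = (fS σ n).ker := by
  ext x
  rw [AddMonoidHom.mem_range, AddMonoidHom.mem_ker]
  constructor
  · rintro ⟨b, rfl⟩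
    apply Subtype.ext
    change σ (nn σ n b) - nn σ n b = 0
    rw [sub_nn, (mem_fx σ).1 b.2, sub_self]
  · intro hx
    have h1 : σ (x : A) - x = 0 := congrArg Subtype.val hx
    obtain ⟨b, hb, hb'⟩ := h x (sub_eq_zero.1 h1)
    exact ⟨⟨b, hb⟩, Subtype.ext hb'⟩

theorem card_mul (G : Type u) [AddCommGroup G] (f : G →+ G) :
    Nat.card f.ker * Nat.card f.range = Nat.card G := by
  rw [← AddSubgroup.index_ker, AddSubgroup.card_mul_index]

theorem ker_eq {n : ℕ} (hfin : Finite (fx σ n))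
    (h : ∀ a, σ a = a → ∃ b, (σ ^ n) b = b ∧ nn σ n b = a) :
    (fS σ n).range = (fN σ n).ker := by
  have h1 := card_mul (fx σ n) (fN σ n)
  have h2 := card_mul (fx σ n) (fS σ n)
  rw [range_eq σ h] at h1
  have h3 : 0 < Nat.card (fS σ n).ker := Nat.card_pos
  have h4 : Nat.card (fN σ n).ker = Nat.card (fS σ n).range := by
    have h5 : Nat.card (fS σ n).ker * Nat.card (fN σ n).ker =
        Nat.card (fS σ n).ker * Nat.card (fS σ n).range := by
      rw [h2, mul_comm, h1]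
    exact Nat.eq_of_mul_eq_mul_left h3 h5
  refine AddSubgroup.eq_of_le_of_card_ge ?_ h4.le
  rintro _ ⟨b, rfl⟩
  rw [AddMonoidHom.mem_ker]
  apply Subtype.ext
  change nn σ n (σ (b : A) - b) = 0
  rw [nn_sub, (mem_fx σ).1 b.2, sub_self]

theorem pow_mul_fixed {m : ℕ} {a : A} (ha : (σ ^ m) a = a) (e : ℕ) : (σ ^ (m * e)) a = a := by
  rw [pow_mul]
  exact fixed_pow (σ ^ m) ha e

theorem nn_mul {m : ℕ} {a : A} (ha : (σ ^ m) a = a) (e : ℕ) :
    nn σ (m * e) a = e • nn σ m a := by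
  have happ : ∀ (n : ℕ) (b : A), nn σ n b = ∑ i ∈ Finset.range n, (σ ^ i) b := by
    intro n b
    rw [nn]
    exact AddMonoidHom.finsetSum_apply _ _ _
  induction e with
  | zero =>
    rw [mul_zero, zero_smul, happ, Finset.range_zero, Finset.sum_empty]
  | succ e ih =>
    rw [mul_add, mul_one, happ, Finset.sum_range_add, ← happ, ih, succ_nsmul]
    congr 1
    rw [happ]
    refine Finset.sum_congr rfl fun i _ => ?_
    have h : (σ ^ (m * e + i)) a = (σ ^ i) ((σ ^ (m * e)) a) := by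
      rw [add_comm, pow_add]
      rfl
    rw [h, pow_mul_fixed σ ha]

end BLang

open BLang

theorem stLang : StLang.{u} := by
  intro A _ σ horb hfin hnorm a
  obtain ⟨m, hm, ha⟩ := horb a
  have hf : ∀ n > 0, Finite (fx σ n) := fun n hn => (hfin n hn).to_subtype
  obtain ⟨e, he, hea⟩ : ∃ e > 0, e • a = 0 := by
    have := hf m hm
    have h := (isOfFinAddOrder_of_finite (⟨a, ha⟩ : fx σ m)).exists_nsmul_eq_zero
    obtain ⟨e, he, hea⟩ := h
    exact ⟨e, he, congrArg Subtype.val hea⟩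
  have hn : 0 < m * e := Nat.mul_pos hm he
  have hk := ker_eq σ (hf _ hn) fun b hb => hnorm _ hn b hb
  have han : (σ ^ (m * e)) a = a := pow_mul_fixed σ ha e
  have hmem : (⟨a, han⟩ : fx σ (m * e)) ∈ (fN σ (m * e)).ker := by
    rw [AddMonoidHom.mem_ker]
    apply Subtype.ext
    change nn σ (m * e) a = 0
    rw [nn_mul σ ha, ← map_nsmul, hea, map_zero]
  rw [← hk] at hmem
  obtain ⟨b, hb⟩ := hmem
  exact ⟨b, congrArg Subtype.val hb⟩

end Pool.Agent.Lib.MP_c385f6_ag.TPG
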