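import Pool.Agent.Lib.MP_c385f6_ag.TPG.StB

/-!
Project TPG, part B1: the recursion for the coefficients of a zeta function with weights.
-/

set_option autoImplicit false

namespace Pool.Agent.Lib.MP_c385f6_ag.TPG

universe u

namespace BNewt

open Finset

variable {T : Type u} {φ : Equiv.Perm T}

theorem fixed_apply {E : T →₀ ℤ} (h : pm φ E = E) (P : T) : E (φ P) = E P := by
  have h1 := pm_apply φ E P
  rwa [h] at h1

theorem fixed_pow {E : T →₀ ℤ} (h : pm φ E = E) (i : ℕ) (P : T) : E ((φ ^ i) P) = E P := by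
  induction i with
  | zero => rfl
  | succ n ih => rw [pow_succ', Equiv.Perm.mul_apply, fixed_apply h, ih]

theorem nm_single (n : ℕ) (P : T) : nm φ n (Finsupp.single P 1) =
    ∑ i ∈ range n, Finsupp.single ((φ ^ i) P) (1 : ℤ) := by
  unfold nm
  exact sum_congr rfl fun i _ => pm_single _ _ _

open Classical in
theorem nm_apply (n : ℕ) (P Q : T) : nm φ n (Finsupp.single P 1) Q =
    (((range n).filter fun i => (φ ^ i) P = Q).card : ℤ) := by
  rw [nm_single, Finsupp.finsetSum_apply, card_filter, Nat.cast_sum]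
  refine sum_congr rfl fun i _ => ?_
  rw [Finsupp.single_apply]
  split_ifs <;> rfl

theorem nm_nonneg (n : ℕ) (P : T) : 0 ≤ nm φ n (Finsupp.single P 1) := by
  classical
  intro Q
  rw [nm_apply]
  exact Nat.cast_nonneg _

theorem dgr_nm (n : ℕ) (P : T) : dgr (nm φ n (Finsupp.single P 1)) = n := by
  rw [nm_single, ← dgH_apply, map_sum]
  simp only [dgH_apply, dgr_single]
  simp

theorem pm_nm {n : ℕ} {P : T} (h : (φ ^ n) P = P) :
    pm φ (nm φ n (Finsupp.single P 1)) = nm φ n (Finsupp.single P 1) := by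
  rw [nm_single]
  have h1 : pm φ (∑ i ∈ range n, Finsupp.single ((φ ^ i) P) (1 : ℤ)) =
      ∑ i ∈ range n, Finsupp.single ((φ ^ (i + 1)) P) (1 : ℤ) := by
    change pmH φ _ = _
    rw [map_sum]
    refine sum_congr rfl fun i _ => ?_
    change pm φ _ = _
    rw [pm_single, pow_succ', Equiv.Perm.mul_apply]
  rw [h1]
  have h2 := sum_range_succ (fun i => Finsupp.single ((φ ^ i) P) (1 : ℤ)) n
  have h3 := sum_range_succ' (fun i => Finsupp.single ((φ ^ i) P) (1 : ℤ)) n
  rw [h2] at h3
  simp only [h, pow_zero, Equiv.Perm.one_apply] at h3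
  exact (add_right_cancel h3).symm

theorem dgr_nonneg {D : T →₀ ℤ} (h : 0 ≤ D) : 0 ≤ dgr D := by
  unfold dgr Finsupp.sum
  exact sum_nonneg fun P _ => h P

theorem dgr_mono {D E : T →₀ ℤ} (h : D ≤ E) : dgr D ≤ dgr E := by
  have h1 : 0 ≤ E - D := sub_nonneg.2 h
  have h2 := dgr_nonneg h1
  rw [dgr_sub] at h2
  linarith

theorem nm_le_iff {n : ℕ} {P : T} (h : (φ ^ n) P = P) {E : T →₀ ℤ} (h0 : 0 ≤ E)
    (hE : pm φ E = E) :
    nm φ n (Finsupp.single P 1) ≤ E ↔ nm φ n (Finsupp.single P 1) P ≤ E P := by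
  classical
  refine ⟨fun h1 => h1 P, fun h1 Q => ?_⟩
  by_cases hQ : nm φ n (Finsupp.single P 1) Q = 0
  · rw [hQ]
    exact h0 Q
  · rw [nm_apply] at hQ
    have h2 : ((range n).filter fun i => (φ ^ i) P = Q).Nonempty := by
      rw [← card_pos]
      rcases Nat.eq_zero_or_pos ((range n).filter fun i => (φ ^ i) P = Q).card with h3 | h3
      · rw [h3] at hQ
        exact absurd rfl hQ
      · exact h3
    obtain ⟨i, hi⟩ := h2
    have h3 : (φ ^ i) P = Q := (mem_filter.1 hi).2
    rw [← h3, fixed_pow (pm_nm h), fixed_pow hE]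
    exact h1

/-- points with nonzero multiplicity are periodic -/
theorem exists_period {E : T →₀ ℤ} (hE : pm φ E = E) {P : T} (hP : E P ≠ 0) :
    0 < Function.minimalPeriod φ P := by
  have h1 : ¬ Function.Injective fun i : ℕ => (φ ^ i) P := by
    intro hinj
    have h2 : (Set.range fun i : ℕ => (φ ^ i) P).Finite := by
      refine E.support.finite_toSet.subset ?_
      rintro _ ⟨i, rfl⟩
      rw [mem_coe, Finsupp.mem_support_iff, fixed_pow hE]
      exact hP
    exact Set.infinite_range_of_injective hinj h2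
  rw [Function.Injective] at h1
  push Not at h1
  obtain ⟨a, b, hab, hne⟩ := h1
  rw [Function.minimalPeriod_pos_iff_mem_periodicPts]
  have key : ∀ a b : ℕ, a < b → (φ ^ a) P = (φ ^ b) P → P ∈ Function.periodicPts φ := by
    intro a b hlt h
    refine ⟨b - a, by omega, ?_⟩
    change φ^[b - a] P = P
    rw [Equiv.Perm.iterate_eq_pow]
    have h2 : (φ ^ b) P = (φ ^ a) ((φ ^ (b - a)) P) := by
      rw [← Equiv.Perm.mul_apply, ← pow_add]
      congr 2
      omega
    rw [h2] at h
    exact ((φ ^ a).injective h).symm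
  rcases lt_or_gt_of_ne hne with h | h
  · exact key a b h hab
  · exact key b a h hab.symm

theorem pow_iff (n : ℕ) (P : T) : (φ ^ n) P = P ↔ Function.minimalPeriod φ P ∣ n := by
  rw [← Function.isPeriodicPt_iff_minimalPeriod_dvd, ← Equiv.Perm.iterate_eq_pow]
  rfl

theorem nm_self {P : T} (ho : 0 < Function.minimalPeriod φ P) (j : ℕ) :
    nm φ (j * Function.minimalPeriod φ P) (Finsupp.single P 1) P = j := by
  classical
  rw [nm_apply]
  have h1 : ((range (j * Function.minimalPeriod φ P)).filter fun i => (φ ^ i) P = P) =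
      (range j).image fun i => i * Function.minimalPeriod φ P := by
    ext i
    rw [mem_filter, mem_image, mem_range, pow_iff]
    constructor
    · rintro ⟨h1, k, rfl⟩
      refine ⟨k, ?_, mul_comm _ _⟩
      rw [mem_range]
      by_contra h2
      have h3 : j ≤ k := not_lt.1 h2
      have h4 := Nat.mul_le_mul_right (Function.minimalPeriod φ P) h3
      rw [mul_comm (Function.minimalPeriod φ P) k] at h1
      omega
    · rintro ⟨k, hk, rfl⟩
      rw [mem_range] at hk
      exact ⟨Nat.mul_lt_mul_of_pos_right hk ho, Dvd.intro_left k rfl⟩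
  rw [h1, card_image_of_injective, card_range]
  intro a b hab
  exact Nat.eq_of_mul_eq_mul_right ho hab

theorem period_le {d : ℕ} {E : T →₀ ℤ} (hE : E ∈ Ef φ d) {P : T} (hP : E P ≠ 0) :
    (E P).toNat * Function.minimalPeriod φ P ≤ d := by
  obtain ⟨h0, hf, hd⟩ := hE
  have ho := exists_period hf hP
  have h1 : nm φ ((E P).toNat * Function.minimalPeriod φ P) (Finsupp.single P 1) ≤ E := by
    rw [nm_le_iff ((pow_iff _ _).2 (Dvd.intro_left _ rfl)) h0 hf, nm_self ho,
      Int.toNat_of_nonneg (h0 P)]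
  have h2 := dgr_mono h1
  rw [dgr_nm, hd] at h2
  exact_mod_cast h2

/-- the number of pairs for one point -/
theorem count_point {d : ℕ} {E : T →₀ ℤ} (hE : E ∈ Ef φ d) {P : T} (hP : E P ≠ 0) [DecidableEq T]
    [∀ m : ℕ, Decidable (nm φ (m + 1) (Finsupp.single P 1) ≤ E)] :
    ((range d).filter fun m => (φ ^ (m + 1)) P = P ∧
      nm φ (m + 1) (Finsupp.single P 1) ≤ E).card = (E P).toNat := by
  have hle := period_le hE hP
  obtain ⟨h0, hf, hd⟩ := hE
  have ho := exists_period hf hP
  set o := Function.minimalPeriod φ P with hodef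
  set e := (E P).toNat with he
  have hEe : E P = e := (Int.toNat_of_nonneg (h0 P)).symm
  have h1 : ((range d).filter fun m => (φ ^ (m + 1)) P = P ∧
      nm φ (m + 1) (Finsupp.single P 1) ≤ E) = (range e).image fun j => (j + 1) * o - 1 := by
    ext m
    rw [mem_filter, mem_image, mem_range]
    constructor
    · rintro ⟨hm, h2, h3⟩
      rw [nm_le_iff h2 h0 hf] at h3
      rw [pow_iff, ← hodef] at h2
      obtain ⟨k, hk⟩ := h2
      rw [hk, mul_comm o k, hodef, nm_self ho, hEe] at h3
      have h4 : k ≤ e := by exact_mod_cast h3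
      have h5 : k ≠ 0 := by
        rintro rfl
        omega
      refine ⟨k - 1, ?_, ?_⟩
      · rw [mem_range]
        omega
      · have h6 : k - 1 + 1 = k := by omega
        rw [h6, mul_comm k o, ← hk]
        omega
    · rintro ⟨j, hj, rfl⟩
      rw [mem_range] at hj
      have h2 : 1 ≤ (j + 1) * o := Nat.mul_pos (Nat.succ_pos j) ho
      have h3 : (j + 1) * o ≤ e * o := Nat.mul_le_mul_right o hj
      have h4 : (j + 1) * o - 1 + 1 = (j + 1) * o := by omega
      rw [h4]
      have h5 : (φ ^ ((j + 1) * o)) P = P := (pow_iff _ _).2 (Dvd.intro_left _ rfl)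
      refine ⟨by omega, h5, ?_⟩
      rw [nm_le_iff h5 h0 hf, hodef, nm_self ho, hEe]
      exact_mod_cast hj
  rw [h1, card_image_of_injOn, card_range]
  intro a _ b _ hab
  have h2 : 1 ≤ (a + 1) * o := Nat.mul_pos (Nat.succ_pos a) ho
  have h3 : 1 ≤ (b + 1) * o := Nat.mul_pos (Nat.succ_pos b) ho
  have hab' : (a + 1) * o - 1 = (b + 1) * o - 1 := hab
  have h4 : (a + 1) * o = (b + 1) * o := by omega
  have h5 := Nat.eq_of_mul_eq_mul_right ho h4
  omega

theorem finite_Ef (hfin : ∀ m > 0, {P | (φ ^ m) P = P}.Finite) (d : ℕ) : (Ef φ d).Finite := by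
  classical
  let F : Set T := ⋃ m ∈ Set.Icc 1 d, {P | (φ ^ m) P = P}
  have hF : F.Finite := (Set.finite_Icc 1 d).biUnion fun m hm => hfin m hm.1
  have hsub : ∀ E ∈ Ef φ d, ∀ P, E P ≠ 0 → P ∈ F := by
    intro E hE P hP
    have h1 := period_le hE hP
    have ho := exists_period hE.2.1 hP
    have h2 : 1 ≤ (E P).toNat := by
      have := hE.1 P
      have h3 : (0 : ℤ) ≤ E P := this
      omega
    have h4 : Function.minimalPeriod φ P ≤ d := by nlinarith
    exact Set.mem_biUnion (show Function.minimalPeriod φ P ∈ Set.Icc 1 d from ⟨ho, h4⟩)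
      ((pow_iff _ _).2 dvd_rfl)
  have : Finite F := hF
  have h1 : (Set.pi Set.univ fun _ : F => Set.Icc (0 : ℤ) d).Finite :=
    Set.Finite.pi fun _ => Set.finite_Icc _ _
  refine Set.Finite.of_injOn (f := fun (E : T →₀ ℤ) (P : F) => E P) ?_ ?_ h1
  · intro E hE P _
    refine ⟨hE.1 P, ?_⟩
    change E P ≤ d
    by_cases hP : E P = 0
    · rw [hP]
      exact Nat.cast_nonneg d
    · have h2 := period_le hE hP
      have ho := exists_period hE.2.1 hP
      have h3 : (0 : ℤ) ≤ E P := hE.1 P
      have h4 : (E P).toNat ≤ d := by nlinarith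
      omega
  · intro E hE E' hE' h
    ext P
    by_cases hP : P ∈ F
    · exact congrFun h ⟨P, hP⟩
    · have h2 : E P = 0 := by
        by_contra h3
        exact hP (hsub E hE P h3)
      have h3 : E' P = 0 := by
        by_contra h3
        exact hP (hsub E' hE' P h3)
      rw [h2, h3]

end BNewt

open BNewt Finset

/-- B1. The recursion for the coefficients of a zeta function with weights. -/
theorem stNewt : StNewt.{u} := by
  classical
  intro T φ hfin
  have hEf := finite_Ef hfin
  refine ⟨hEf, fun χ hχ d => ?_⟩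
  have hfs : ∀ e : ℕ, ∑ᶠ E ∈ Ef φ e, χ E = ∑ E ∈ (hEf e).toFinset, χ E := fun e =>
    finsum_mem_eq_finite_toFinset_sum _ _
  have hps : ∀ m : ℕ, ∑ᶠ P ∈ {P | (φ ^ (m + 1)) P = P}, χ (nm φ (m + 1) (Finsupp.single P 1)) =
      ∑ P ∈ (hfin (m + 1) (Nat.succ_pos m)).toFinset, χ (nm φ (m + 1) (Finsupp.single P 1)) :=
    fun m => finsum_mem_eq_finite_toFinset_sum _ _
  simp only [hfs, hps]
  -- the number of pairs
  have hcount : ∀ E ∈ (hEf d).toFinset, (d : ℂ) =
      ∑ m ∈ range d, ∑ P ∈ (hfin (m + 1) (Nat.succ_pos m)).toFinset,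
        (if nm φ (m + 1) (Finsupp.single P 1) ≤ E then (1 : ℂ) else 0) := by
    intro E hE
    rw [Set.Finite.mem_toFinset] at hE
    have h1 : ∀ m ∈ range d, ∑ P ∈ (hfin (m + 1) (Nat.succ_pos m)).toFinset,
        (if nm φ (m + 1) (Finsupp.single P 1) ≤ E then (1 : ℂ) else 0) =
        ∑ P ∈ E.support, (if (φ ^ (m + 1)) P = P ∧ nm φ (m + 1) (Finsupp.single P 1) ≤ E
          then (1 : ℂ) else 0) := by
      intro m _
      rw [← sum_filter, ← sum_filter, sum_const, sum_const]
      congr 2
      ext P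
      rw [mem_filter, mem_filter, Set.Finite.mem_toFinset, Set.mem_ofPred_eq,
        Finsupp.mem_support_iff]
      constructor
      · rintro ⟨h2, h3⟩
        refine ⟨?_, h2, h3⟩
        have h4 := h3 P
        rw [nm_apply] at h4
        have h5 : 0 < ((range (m + 1)).filter fun i => (φ ^ i) P = P).card := by
          rw [card_pos]
          exact ⟨0, by simp⟩
        have h6 : (0 : ℤ) < E P := lt_of_lt_of_le (by exact_mod_cast h5) h4
        exact h6.ne'
      · rintro ⟨_, h2, h3⟩
        exact ⟨h2, h3⟩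
    rw [sum_congr rfl h1, sum_comm]
    have h2 : ∀ P ∈ E.support, ∑ m ∈ range d, (if (φ ^ (m + 1)) P = P ∧
        nm φ (m + 1) (Finsupp.single P 1) ≤ E then (1 : ℂ) else 0) = ((E P : ℤ) : ℂ) := by
      intro P hP
      rw [Finsupp.mem_support_iff] at hP
      rw [sum_boole, count_point hE hP]
      have h3 : (0 : ℤ) ≤ E P := hE.1 P
      have h4 : (((E P).toNat : ℤ) : ℂ) = ((E P : ℤ) : ℂ) := by
        rw [Int.toNat_of_nonneg h3]
      rw [← h4]
      push_cast
      rfl
    rw [sum_congr rfl h2, ← Int.cast_sum]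
    have h3 : ∑ P ∈ E.support, E P = (d : ℤ) := hE.2.2
    rw [h3]
    push_cast
    rfl
  -- the divisors above a given one
  have hshift : ∀ m ∈ range d, ∀ P ∈ (hfin (m + 1) (Nat.succ_pos m)).toFinset,
      ∑ E ∈ (hEf d).toFinset, (if nm φ (m + 1) (Finsupp.single P 1) ≤ E then χ E else 0) =
        χ (nm φ (m + 1) (Finsupp.single P 1)) * ∑ E ∈ (hEf (d - (m + 1))).toFinset, χ E := by
    intro m hm P hP
    rw [mem_range] at hm
    rw [Set.Finite.mem_toFinset, Set.mem_ofPred_eq] at hP
    have hN := pm_nm hP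
    set N := nm φ (m + 1) (Finsupp.single P 1) with hNdef
    have hdN : dgr N = ((m + 1 : ℕ) : ℤ) := dgr_nm _ _
    have hN0 : 0 ≤ N := nm_nonneg _ _
    rw [← sum_filter, mul_sum]
    symm
    refine sum_nbij' (fun E => N + E) (fun E => E - N) ?_ ?_ ?_ ?_ ?_
    · intro E hE
      rw [Set.Finite.mem_toFinset] at hE
      rw [mem_filter, Set.Finite.mem_toFinset]
      refine ⟨⟨add_nonneg hN0 hE.1, ?_, ?_⟩, le_add_of_nonneg_right hE.1⟩
      · rw [pm_add, hN, hE.2.1]
      · rw [dgr_add, hdN, hE.2.2]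
        omega
    · intro E hE
      rw [mem_filter, Set.Finite.mem_toFinset] at hE
      rw [Set.Finite.mem_toFinset]
      refine ⟨sub_nonneg.2 hE.2, ?_, ?_⟩
      · rw [pm_sub, hN, hE.1.2.1]
      · rw [dgr_sub, hdN, hE.1.2.2]
        omega
    · intro E _
      exact add_sub_cancel_left N E
    · intro E _
      exact add_sub_cancel N E
    · intro E hE
      rw [Set.Finite.mem_toFinset] at hE
      exact (hχ N E hN hE.2.1).symm
  calc (d : ℂ) * ∑ E ∈ (hEf d).toFinset, χ E
      = ∑ E ∈ (hEf d).toFinset, ∑ m ∈ range d,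
          ∑ P ∈ (hfin (m + 1) (Nat.succ_pos m)).toFinset,
            (if nm φ (m + 1) (Finsupp.single P 1) ≤ E then χ E else 0) := by
        rw [mul_sum]
        refine sum_congr rfl fun E hE => ?_
        conv_lhs => rw [hcount E hE]
        rw [sum_mul]
        refine sum_congr rfl fun m _ => ?_
        rw [sum_mul]
        refine sum_congr rfl fun P _ => ?_
        split_ifs
        · rw [one_mul]
        · rw [zero_mul]
    _ = ∑ m ∈ range d, ∑ P ∈ (hfin (m + 1) (Nat.succ_pos m)).toFinset,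
          ∑ E ∈ (hEf d).toFinset,
            (if nm φ (m + 1) (Finsupp.single P 1) ≤ E then χ E else 0) := by
        rw [sum_comm]
        exact sum_congr rfl fun m _ => sum_comm
    _ = _ := by
        refine sum_congr rfl fun m hm => ?_
        rw [sum_mul]
        exact sum_congr rfl fun P hP => hshift m hm P hP

end Pool.Agent.Lib.MP_c385f6_ag.TPG
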