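import Pool.Agent.Lib.MP_c385f6_ag.TPG.StB

/-!
Project TPG, B5: if `det (1 - C ^ n)` is prime to `l` for all `n`, for infinitely many `l`, then the
reversed characteristic polynomial of `C` is `1`.
-/

set_option autoImplicit false

open Polynomial

namespace Pool.Agent.Lib.MP_c385f6_ag.TPG

namespace BNil

/-- in a finite monoid some positive power is idempotent -/
theorem exists_idem {A : Type*} [Monoid A] [Finite A] (x : A) :
    ∃ n > 0, x ^ n * x ^ n = x ^ n := by
  obtain ⟨i, j, hij, h⟩ : ∃ i j : ℕ, i < j ∧ x ^ i = x ^ j := by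
    have h1 : ¬ Function.Injective fun n : ℕ => x ^ n := not_injective_infinite_finite _
    simp only [Function.Injective, not_forall] at h1
    obtain ⟨a, b, hab, hne⟩ := h1
    rcases lt_or_gt_of_ne hne with h2 | h2
    · exact ⟨a, b, h2, hab⟩
    · exact ⟨b, a, h2, hab.symm⟩
  obtain ⟨p, rfl⟩ := Nat.exists_eq_add_of_lt hij
  have h2 : ∀ n, i ≤ n → x ^ (n + (p + 1)) = x ^ n := by
    intro n hn
    obtain ⟨m, rfl⟩ := Nat.exists_eq_add_of_le hn
    have e : i + m + (p + 1) = (i + p + 1) + m := by ring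
    rw [e, pow_add x (i + p + 1), ← h, ← pow_add]
  have h3 : ∀ t n, i ≤ n → x ^ (n + t * (p + 1)) = x ^ n := by
    intro t
    induction t with
    | zero => intro n _; simp
    | succ t ih =>
      intro n hn
      have e : n + (t + 1) * (p + 1) = (n + t * (p + 1)) + (p + 1) := by ring
      rw [e, h2 _ (by omega), ih n hn]
  refine ⟨(i + 1) * (p + 1), by positivity, ?_⟩
  rw [← pow_add]
  refine h3 (i + 1) _ ?_
  nlinarith [Nat.zero_le (i * p), Nat.zero_le p]

theorem map_charpolyRev {R S : Type*} [CommRing R] [CommRing S] (f : R →+* S) {N : ℕ}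
    (C : Matrix (Fin N) (Fin N) R) :
    C.charpolyRev.map f = (f.mapMatrix C).charpolyRev := by
  rw [Matrix.charpolyRev, Matrix.charpolyRev, ← Polynomial.coe_mapRingHom, RingHom.map_det]
  congr 1
  ext i j
  simp [Matrix.one_apply, apply_ite]

theorem mod_l {N : ℕ} (C : Matrix (Fin N) (Fin N) ℤ) (l : ℕ) (hl : l.Prime)
    (h : ∀ n > 0, ¬ (l : ℤ) ∣ (1 - C ^ n).det) :
    C.charpolyRev.map (Int.castRingHom (ZMod l)) = 1 := by
  have hlf : Fact l.Prime := ⟨hl⟩
  obtain ⟨n, hn, he⟩ := exists_idem ((Int.castRingHom (ZMod l)).mapMatrix C)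
  have h1 : IsUnit (1 - (Int.castRingHom (ZMod l)).mapMatrix C ^ n) := by
    rw [Matrix.isUnit_iff_isUnit_det, isUnit_iff_ne_zero]
    intro h2
    have h3 : (1 - (Int.castRingHom (ZMod l)).mapMatrix C ^ n) =
        (Int.castRingHom (ZMod l)).mapMatrix (1 - C ^ n) := by
      rw [map_sub, map_one, map_pow]
    rw [h3, ← RingHom.map_det] at h2
    exact h n hn ((ZMod.intCast_zmod_eq_zero_iff_dvd _ _).1 h2)
  have h4 : (Int.castRingHom (ZMod l)).mapMatrix C ^ n = 0 := by
    refine (h1.mul_left_eq_zero).1 ?_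
    rw [mul_sub, mul_one, he, sub_self]
  have h5 := Matrix.isUnit_charpolyRev_of_isNilpotent (M := (Int.castRingHom (ZMod l)).mapMatrix C)
    ⟨n, h4⟩
  obtain ⟨r, -, hr⟩ := Polynomial.isUnit_iff.1 h5
  have h6 := Matrix.eval_charpolyRev (M := (Int.castRingHom (ZMod l)).mapMatrix C)
  rw [← hr, Polynomial.eval_C] at h6
  rw [map_charpolyRev, ← hr, h6, map_one]

end BNil

/-- **B5.** -/
theorem stNil : StNil := by
  intro N C h
  ext i
  obtain ⟨l, hl, hp, hd⟩ := h (C.charpolyRev.coeff i - (1 : ℤ[X]).coeff i).natAbs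
  have h1 := BNil.mod_l C l hp hd
  have h2 := congrArg (fun q : (ZMod l)[X] => q.coeff i) h1
  have h3 : ((C.charpolyRev.coeff i - (1 : ℤ[X]).coeff i : ℤ) : ZMod l) = 0 := by
    have h4 : (1 : (ZMod l)[X]) = (1 : ℤ[X]).map (Int.castRingHom (ZMod l)) := by
      rw [Polynomial.map_one]
    rw [h4] at h2
    simp only [Polynomial.coeff_map] at h2
    rw [Int.cast_sub, sub_eq_zero]
    exact h2
  rw [ZMod.intCast_zmod_eq_zero_iff_dvd] at h3
  have h5 := Int.eq_zero_of_abs_lt_dvd h3 (by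
    rw [Int.abs_eq_natAbs]
    exact_mod_cast hl)
  exact sub_eq_zero.1 h5

end Pool.Agent.Lib.MP_c385f6_ag.TPG
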