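import Pool.Agent.Lib.MP_c385f6_ag.TPG.StB

/-!
Project TPG, B11: the norm is onto (characters and L-functions).
-/

set_option autoImplicit false

namespace Pool.Agent.Lib.MP_c385f6_ag.TPG

universe u

namespace BNorm

variable {T : Type u}

/-! ### Power series with finitely many nonzero coefficients -/

/-- The coefficients vanish from some point on. -/
def Ev (f : PowerSeries ℂ) : Prop := ∃ N : ℕ, ∀ d ≥ N, PowerSeries.coeff d f = 0

theorem ev_one : Ev 1 := by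
  refine ⟨1, fun d hd => ?_⟩
  rw [PowerSeries.coeff_one, if_neg (by omega)]

theorem ev_mul {f g : PowerSeries ℂ} (hf : Ev f) (hg : Ev g) : Ev (f * g) := by
  obtain ⟨N, hN⟩ := hf
  obtain ⟨M, hM⟩ := hg
  refine ⟨N + M, fun d hd => ?_⟩
  rw [PowerSeries.coeff_mul]
  refine Finset.sum_eq_zero fun p hp => ?_
  rw [Finset.HasAntidiagonal.mem_antidiagonal] at hp
  rcases Nat.lt_or_ge p.1 N with h | h
  · rw [hM p.2 (by omega), mul_zero]
  · rw [hN p.1 h, zero_mul]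

theorem ev_rescale {f : PowerSeries ℂ} (hf : Ev f) (a : ℂ) : Ev (PowerSeries.rescale a f) := by
  obtain ⟨N, hN⟩ := hf
  refine ⟨N, fun d hd => ?_⟩
  rw [PowerSeries.coeff_rescale, hN d hd, mul_zero]

theorem ev_prod {ι : Type*} (s : Finset ι) (f : ι → PowerSeries ℂ) (hf : ∀ i ∈ s, Ev (f i)) :
    Ev (∏ i ∈ s, f i) := by
  classical
  induction s using Finset.induction with
  | empty => rw [Finset.prod_empty]; exact ev_one
  | insert a s ha ih =>
    rw [Finset.prod_insert ha]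
    exact ev_mul (hf a (Finset.mem_insert_self a s))
      (ih fun i hi => hf i (Finset.mem_insert_of_mem hi))

/-! ### Fixed divisors -/

theorem eff_zero {E : T →₀ ℤ} (h0 : 0 ≤ E) (hd : dgr E = 0) : E = 0 := by
  ext P
  have h1 : ∀ Q ∈ E.support, 0 ≤ E Q := fun Q _ => h0 Q
  have h2 : ∑ Q ∈ E.support, E Q = 0 := hd
  rw [Finset.sum_eq_zero_iff_of_nonneg h1] at h2
  by_cases h3 : P ∈ E.support
  · exact h2 P h3
  · exact Finsupp.notMem_support_iff.1 h3

theorem Ef_zero (φ : Equiv.Perm T) : Ef φ 0 = {0} := by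
  ext E
  constructor
  · rintro ⟨h1, -, h3⟩
    exact eff_zero h1 (by simpa using h3)
  · intro h
    rw [Set.mem_singleton_iff] at h
    subst h
    exact ⟨le_rfl, pm_zero φ, by simp [dgr]⟩

theorem pm_sum {ι : Type*} (φ : Equiv.Perm T) (s : Finset ι) (f : ι → (T →₀ ℤ)) :
    pm φ (∑ i ∈ s, f i) = ∑ i ∈ s, pm φ (f i) := map_sum (pmH φ) f s

theorem nm_mul (φ : Equiv.Perm T) (n k : ℕ) (D : T →₀ ℤ) :
    nm φ (n * k) D = ∑ i ∈ Finset.range n, pm (φ ^ i) (nm (φ ^ n) k D) := by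
  have h1 : ∀ i, pm (φ ^ i) (nm (φ ^ n) k D) =
      ∑ j ∈ Finset.range k, pm (φ ^ (n * j + i)) D := by
    intro i
    rw [nm, pm_sum]
    refine Finset.sum_congr rfl fun j _ => ?_
    rw [← pm_mul, ← pow_mul, ← pow_add, add_comm]
  rw [Finset.sum_congr rfl fun i _ => h1 i, Finset.sum_comm, nm]
  induction k with
  | zero => simp
  | succ k ih =>
    rw [Finset.sum_range_succ, ← ih (by
      intro i
      rw [nm, pm_sum]
      refine Finset.sum_congr rfl fun j _ => ?_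
      rw [← pm_mul, ← pow_mul, ← pow_add, add_comm]), Nat.mul_succ, Finset.sum_range_add]

theorem pm_nm (φ : Equiv.Perm T) (k : ℕ) (P : T) (h : (φ ^ k) P = P) :
    pm φ (nm φ k (Finsupp.single P 1)) = nm φ k (Finsupp.single P 1) := by
  have h1 : pm φ (nm φ k (Finsupp.single P 1)) + Finsupp.single P 1 =
      nm φ k (Finsupp.single P 1) + Finsupp.single P 1 := by
    have h2 : pm φ (nm φ k (Finsupp.single P 1)) =
        ∑ i ∈ Finset.range k, pm (φ ^ (i + 1)) (Finsupp.single P 1) := by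
      rw [nm, pm_sum]
      refine Finset.sum_congr rfl fun i _ => ?_
      rw [← pm_mul, ← pow_succ']
    have h3 := Finset.sum_range_succ' (fun i => pm (φ ^ i) (Finsupp.single P (1 : ℤ))) k
    have h4 := Finset.sum_range_succ (fun i => pm (φ ^ i) (Finsupp.single P (1 : ℤ))) k
    rw [h2]
    have h5 : pm (φ ^ 0) (Finsupp.single P (1 : ℤ)) = Finsupp.single P 1 := by
      rw [pow_zero, pm_one]
    have h6 : pm (φ ^ k) (Finsupp.single P (1 : ℤ)) = Finsupp.single P 1 := by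
      rw [pm_single, h]
    rw [h5] at h3
    rw [h6] at h4
    rw [← h3, h4, nm]
  exact add_right_cancel h1

variable (X : CD T)

/-- `cl0` as a homomorphism. -/
noncomputable def clH : (T →₀ ℤ) →+ X.A := AddMonoidHom.mk' X.cl0 X.cl0_add

theorem clH_apply (D : T →₀ ℤ) : clH X D = X.cl0 D := rfl

/-- The fixed classes. -/
def Gr (m : ℕ) : AddSubgroup X.A where
  carrier := {a | (X.σ ^ m) a = a}
  add_mem' := by
    intro a b ha hb
    show (X.σ ^ m) (a + b) = a + b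
    rw [map_add, ha, hb]
  zero_mem' := map_zero _
  neg_mem' := by
    intro a ha
    show (X.σ ^ m) (-a) = -a
    rw [map_neg, ha]

theorem mem_Gr (m : ℕ) (a : X.A) : a ∈ Gr X m ↔ (X.σ ^ m) a = a := Iff.rfl

theorem cl0_mem (m : ℕ) (D : T →₀ ℤ) (h : pm (X.φ ^ m) D = D) : X.cl0 D ∈ Gr X m := by
  rw [mem_Gr, X.pow_cl0, h]

/-- The norm. -/
noncomputable def Nm (m n : ℕ) : AddMonoid.End X.A := ∑ i ∈ Finset.range n, X.σ ^ (m * i)

theorem Nm_apply (m n : ℕ) (b : X.A) :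
    Nm X m n b = ∑ i ∈ Finset.range n, (X.σ ^ (m * i)) b := by
  rw [Nm]
  exact AddMonoidHom.finsetSum_apply _ _ _

theorem Nm_cl0 (m n : ℕ) (D : T →₀ ℤ) :
    Nm X m n (X.cl0 D) = X.cl0 (∑ i ∈ Finset.range n, pm ((X.φ ^ m) ^ i) D) := by
  rw [Nm_apply, ← clH_apply, ← clH_apply, map_sum]
  refine Finset.sum_congr rfl fun i _ => ?_
  rw [clH_apply, clH_apply, X.pow_cl0, pow_mul]

theorem perm_pow_fix (m : ℕ) : (X.φ ^ m) X.P₀ = X.P₀ := by
  induction m with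
  | zero => rfl
  | succ n ih => rw [pow_succ', Equiv.Perm.mul_apply, ih, X.fix]

theorem Ef_pos (m d : ℕ) : (Ef (X.φ ^ m) d).Nonempty := by
  refine ⟨Finsupp.single X.P₀ (d : ℤ), ?_, ?_, ?_⟩
  · exact Finsupp.single_nonneg.2 (Int.natCast_nonneg d)
  · rw [pm_single, perm_pow_fix]
  · exact dgr_single _ _

end BNorm

open BNorm in
/-- B11. -/
theorem stNorm (h1 : StNewt.{u}) (h2 : StPS) (h3 : StCls.{u}) : StNorm.{u} := by
  classical
  intro T X m n hm hn a ha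
  by_contra hcon
  push Not at hcon
  have hmn : 0 < m * n := Nat.mul_pos hm hn
  -- the image of the norm
  let H0 : AddSubgroup X.A := (Gr X (m * n)).map (Nm X m n : X.A →+ X.A)
  let H : AddSubgroup (Gr X m) := H0.addSubgroupOf (Gr X m)
  have haH : (⟨a, ha⟩ : Gr X m) ∉ H := by
    intro h
    rw [AddSubgroup.mem_addSubgroupOf] at h
    obtain ⟨b, hb, hb'⟩ := h
    exact hcon b hb hb'
  have hfin : Finite (Gr X m) := (h3 T X m hm).1
  have hne : (QuotientAddGroup.mk (⟨a, ha⟩ : Gr X m) : Gr X m ⧸ H) ≠ 0 := by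
    rwa [Ne, QuotientAddGroup.eq_zero_iff]
  obtain ⟨ψ0, hψ0⟩ := AddChar.exists_apply_ne_zero.2 hne
  let ψ1 : AddChar (Gr X m) ℂ := ψ0.compAddMonoidHom (QuotientAddGroup.mk' H)
  have hψ1 : ∀ x : Gr X m, ψ1 x = ψ0 (QuotientAddGroup.mk x) := fun _ => rfl
  have hψ1ne : ψ1 ≠ 0 := by
    intro h
    apply hψ0
    rw [← hψ1, h]
    rfl
  have hψ1H : ∀ x : Gr X m, x ∈ H → ψ1 x = 1 := by
    intro x hx
    rw [hψ1, (QuotientAddGroup.eq_zero_iff x).2 hx]
    exact AddChar.map_zero_eq_one ψ0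
  have := Fintype.ofFinite (Gr X m)
  have hsum : ∑ x : Gr X m, ψ1 x = 0 := AddChar.sum_eq_zero_iff_ne_zero.2 hψ1ne
  let ψ : X.A → ℂ := fun x => if h : x ∈ Gr X m then ψ1 ⟨x, h⟩ else 0
  have hψ : ∀ x (h : x ∈ Gr X m), ψ x = ψ1 ⟨x, h⟩ := fun x h => dif_pos h
  have hsum' : ∑ᶠ x ∈ {x : X.A | (X.σ ^ m) x = x}, ψ x = 0 := by
    rw [← finsum_set_coe_eq_finsum_mem]
    rw [← hsum, ← finsum_eq_sum_of_fintype]
    exact finsum_congr fun x => hψ x.1 x.2
  -- the L-function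
  have hfinm : ∀ k > 0, {P | ((X.φ ^ m) ^ k) P = P}.Finite := by
    intro k hk
    rw [← pow_mul]
    exact X.fin _ (Nat.mul_pos hm hk)
  have hfinmn : ∀ k > 0, {P | ((X.φ ^ (m * n)) ^ k) P = P}.Finite := by
    intro k hk
    rw [← pow_mul]
    exact X.fin _ (Nat.mul_pos hmn hk)
  obtain ⟨-, hN⟩ := h1 T (X.φ ^ m) hfinm
  obtain ⟨hEfin, hN'⟩ := h1 T (X.φ ^ (m * n)) hfinmn
  have hrec := hN (fun D => ψ (X.cl0 D)) (by
    intro D E hD hE
    have hD' := cl0_mem X m D hD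
    have hE' := cl0_mem X m E hE
    show ψ (X.cl0 (D + E)) = ψ (X.cl0 D) * ψ (X.cl0 E)
    rw [X.cl0_add, hψ _ hD', hψ _ hE', hψ _ (add_mem hD' hE'), ← AddChar.map_add_eq_mul]
    rfl)
  have hrec' := hN' (fun _ => 1) (by intro D E _ _; rw [one_mul])
  let L : PowerSeries ℂ := PowerSeries.mk fun d => ∑ᶠ E ∈ Ef (X.φ ^ m) d, ψ (X.cl0 E)
  let M : PowerSeries ℂ := PowerSeries.mk fun d => ∑ᶠ E ∈ Ef (X.φ ^ (m * n)) d, (1 : ℂ)
  let S : ℕ → ℂ := fun k => ∑ᶠ P ∈ {P | ((X.φ ^ m) ^ k) P = P},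
    ψ (X.cl0 (nm (X.φ ^ m) k (Finsupp.single P 1)))
  have hcl00 : X.cl0 0 = 0 := map_zero (clH X)
  have hψ00 : ψ 0 = 1 := by
    rw [hψ 0 (zero_mem _)]
    exact AddChar.map_zero_eq_one ψ1
  have hL0 : PowerSeries.coeff 0 L = 1 := by
    show PowerSeries.coeff 0 (PowerSeries.mk _) = (1 : ℂ)
    rw [PowerSeries.coeff_mk, Ef_zero, finsum_mem_singleton, hcl00, hψ00]
  have hM0 : PowerSeries.coeff 0 M = 1 := by
    show PowerSeries.coeff 0 (PowerSeries.mk _) = (1 : ℂ)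
    rw [PowerSeries.coeff_mk, Ef_zero, finsum_mem_singleton]
  have hLrec : ∀ d : ℕ, (d : ℂ) * PowerSeries.coeff d L =
      ∑ k ∈ Finset.range d, S (k + 1) * PowerSeries.coeff (d - (k + 1)) L := by
    intro d
    show (d : ℂ) * PowerSeries.coeff d (PowerSeries.mk _) =
      ∑ k ∈ Finset.range d, S (k + 1) * PowerSeries.coeff (d - (k + 1)) (PowerSeries.mk _)
    rw [PowerSeries.coeff_mk, hrec d]
    refine Finset.sum_congr rfl fun k _ => ?_
    rw [PowerSeries.coeff_mk]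
  have hSn : ∀ k > 0, ∑ᶠ P ∈ {P | ((X.φ ^ (m * n)) ^ k) P = P}, (1 : ℂ) = S (n * k) := by
    intro k hk
    show _ = ∑ᶠ P ∈ {P | ((X.φ ^ m) ^ (n * k)) P = P},
      ψ (X.cl0 (nm (X.φ ^ m) (n * k) (Finsupp.single P 1)))
    have hset : {P | ((X.φ ^ (m * n)) ^ k) P = P} = {P | ((X.φ ^ m) ^ (n * k)) P = P} := by
      rw [← pow_mul, ← pow_mul, mul_assoc]
    refine finsum_mem_congr hset fun P hP => ?_
    have hP' : ((X.φ ^ (m * n)) ^ k) P = P := by
      have : P ∈ {P | ((X.φ ^ (m * n)) ^ k) P = P} := by rw [hset]; exact hP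
      exact this
    have hb : X.cl0 (nm (X.φ ^ (m * n)) k (Finsupp.single P 1)) ∈ Gr X (m * n) :=
      cl0_mem X _ _ (pm_nm _ _ _ hP')
    have hb' : pm (X.φ ^ m) (nm (X.φ ^ m) (n * k) (Finsupp.single P 1)) =
        nm (X.φ ^ m) (n * k) (Finsupp.single P 1) := pm_nm _ _ _ hP
    have hc := cl0_mem X m _ hb'
    rw [hψ _ hc]
    symm
    apply hψ1H
    rw [AddSubgroup.mem_addSubgroupOf]
    refine ⟨_, hb, ?_⟩
    show Nm X m n _ = X.cl0 _
    rw [Nm_cl0, nm_mul, ← pow_mul]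
  have hMrec : ∀ d : ℕ, (d : ℂ) * PowerSeries.coeff d M =
      ∑ k ∈ Finset.range d, S (n * (k + 1)) * PowerSeries.coeff (d - (k + 1)) M := by
    intro d
    show (d : ℂ) * PowerSeries.coeff d (PowerSeries.mk _) =
      ∑ k ∈ Finset.range d, S (n * (k + 1)) * PowerSeries.coeff (d - (k + 1)) (PowerSeries.mk _)
    rw [PowerSeries.coeff_mk, hrec' d]
    refine Finset.sum_congr rfl fun k _ => ?_
    rw [PowerSeries.coeff_mk, hSn (k + 1) (Nat.succ_pos k)]
  obtain ⟨ζ, hζ⟩ : ∃ ζ : ℂ, IsPrimitiveRoot ζ n :=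
    ⟨_, Complex.isPrimitiveRoot_exp n hn.ne'⟩
  have hprod := h2 n ζ S L M hn hζ hL0 hM0 hLrec hMrec
  -- L is a polynomial
  have hLev : Ev L := by
    obtain ⟨d₀, hd₀⟩ := (h3 T X m hm).2 ψ
    refine ⟨d₀, fun d hd => ?_⟩
    show PowerSeries.coeff d (PowerSeries.mk _) = (0 : ℂ)
    rw [PowerSeries.coeff_mk, hd₀ d hd, hsum', zero_mul]
  obtain ⟨N, hNN⟩ := ev_prod (Finset.range n) (fun i => PowerSeries.rescale (ζ ^ i) L)
    fun i _ => ev_rescale hLev _
  have hbad := hprod (n * N)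
  rw [hNN (n * N) (Nat.le_mul_of_pos_left N hn), if_pos (dvd_mul_right n N),
    Nat.mul_div_cancel_left N hn] at hbad
  have hMN : PowerSeries.coeff N M = ((Ef (X.φ ^ (m * n)) N).ncard : ℂ) := by
    show PowerSeries.coeff N (PowerSeries.mk _) = _
    rw [PowerSeries.coeff_mk, finsum_mem_eq_finite_toFinset_sum _ (hEfin N), Finset.sum_const,
      Set.ncard_eq_toFinset_card _ (hEfin N), nsmul_eq_mul, mul_one]
  rw [hMN] at hbad
  have h5 : (Ef (X.φ ^ (m * n)) N).ncard = 0 := by exact_mod_cast hbad.symm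
  rw [Set.ncard_eq_zero (hEfin N)] at h5
  exact (Ef_pos X (m * n) N).ne_empty h5

end Pool.Agent.Lib.MP_c385f6_ag.TPG
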