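import Pool.Agent.Lib.MP_c385f6_ag.TPG.StB

/-!
Project TPG, part B, B2: power series over the complex numbers, the product over the roots of unity.
-/

set_option autoImplicit false

namespace Pool.Agent.Lib.MP_c385f6_ag.TPG

namespace BPS

/-- The recursion of the logarithmic derivative. -/
def Rec (A : PowerSeries ℂ) (S : ℕ → ℂ) : Prop :=
  ∀ d : ℕ, (d : ℂ) * PowerSeries.coeff d A =
    ∑ m ∈ Finset.range d, S (m + 1) * PowerSeries.coeff (d - (m + 1)) A

/-- The series of the weights. -/
noncomputable def T (S : ℕ → ℂ) : PowerSeries ℂ := PowerSeries.mk fun m => if m = 0 then 0 else S m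

/-- The derivation `X d/dX`. -/
noncomputable def th (A : PowerSeries ℂ) : PowerSeries ℂ :=
  PowerSeries.X * PowerSeries.derivative ℂ A

theorem coeff_th (A : PowerSeries ℂ) (d : ℕ) :
    PowerSeries.coeff d (th A) = (d : ℂ) * PowerSeries.coeff d A := by
  cases d with
  | zero => simp [th]
  | succ d =>
    rw [th, PowerSeries.coeff_succ_X_mul, PowerSeries.coeff_derivative]
    push_cast
    ring

theorem coeff_T_mul (S : ℕ → ℂ) (A : PowerSeries ℂ) (d : ℕ) :
    PowerSeries.coeff d (T S * A) =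
      ∑ m ∈ Finset.range d, S (m + 1) * PowerSeries.coeff (d - (m + 1)) A := by
  rw [PowerSeries.coeff_mul, Finset.Nat.sum_antidiagonal_eq_sum_range_succ
    (fun i j => PowerSeries.coeff i (T S) * PowerSeries.coeff j A), Finset.sum_range_succ']
  have h0 : PowerSeries.coeff 0 (T S) = 0 := by
    rw [T, PowerSeries.coeff_mk, if_pos rfl]
  rw [h0, zero_mul, add_zero]
  refine Finset.sum_congr rfl fun m _ => ?_
  rw [T, PowerSeries.coeff_mk, if_neg (Nat.succ_ne_zero m)]

theorem rec_iff (A : PowerSeries ℂ) (S : ℕ → ℂ) : Rec A S ↔ th A = T S * A := by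
  constructor
  · intro h
    ext d
    rw [coeff_th, coeff_T_mul]
    exact h d
  · intro h d
    rw [← coeff_T_mul, ← coeff_th, h]

theorem th_mul (A B : PowerSeries ℂ) : th (A * B) = th A * B + A * th B := by
  rw [th, th, th, Derivation.leibniz, smul_eq_mul, smul_eq_mul]
  ring

theorem T_add (S S' : ℕ → ℂ) : T (fun m => S m + S' m) = T S + T S' := by
  ext m
  rw [map_add, T, T, T, PowerSeries.coeff_mk, PowerSeries.coeff_mk, PowerSeries.coeff_mk]
  by_cases h : m = 0
  · rw [if_pos h, if_pos h, if_pos h, add_zero]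
  · rw [if_neg h, if_neg h, if_neg h]

theorem rec_mul {A B : PowerSeries ℂ} {S S' : ℕ → ℂ} (h : Rec A S) (h' : Rec B S') :
    Rec (A * B) (fun m => S m + S' m) := by
  rw [rec_iff] at h h' ⊢
  rw [th_mul, h, h', T_add]
  ring

theorem rec_one : Rec 1 (fun _ => 0) := by
  intro d
  rw [Finset.sum_eq_zero fun m _ => zero_mul _, PowerSeries.coeff_one]
  by_cases h : d = 0
  · rw [h, Nat.cast_zero, zero_mul]
  · rw [if_neg h, mul_zero]

theorem rec_prod (A : ℕ → PowerSeries ℂ) (S : ℕ → ℕ → ℂ) (h : ∀ i, Rec (A i) (S i)) (n : ℕ) :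
    Rec (∏ i ∈ Finset.range n, A i) (fun m => ∑ i ∈ Finset.range n, S i m) := by
  induction n with
  | zero =>
    simp only [Finset.range_zero, Finset.prod_empty, Finset.sum_empty]
    exact rec_one
  | succ n ih =>
    have h2 := rec_mul ih (h n)
    simp only [Finset.prod_range_succ, Finset.sum_range_succ]
    exact h2

theorem rec_rescale {A : PowerSeries ℂ} {S : ℕ → ℂ} (c : ℂ) (h : Rec A S) :
    Rec (PowerSeries.rescale c A) (fun m => c ^ m * S m) := by
  intro d
  rw [PowerSeries.coeff_rescale]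
  have h2 : (d : ℂ) * (c ^ d * PowerSeries.coeff d A) =
      c ^ d * ((d : ℂ) * PowerSeries.coeff d A) := by ring
  rw [h2, h d, Finset.mul_sum]
  refine Finset.sum_congr rfl fun m hm => ?_
  rw [Finset.mem_range] at hm
  rw [PowerSeries.coeff_rescale]
  have h3 : c ^ d = c ^ (m + 1) * c ^ (d - (m + 1)) := by
    rw [← pow_add]
    congr 1
    omega
  rw [h3]
  ring

theorem rec_unique {A B : PowerSeries ℂ} {S : ℕ → ℂ} (h : Rec A S) (h' : Rec B S)
    (h0 : PowerSeries.coeff 0 A = PowerSeries.coeff 0 B) (d : ℕ) :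
    PowerSeries.coeff d A = PowerSeries.coeff d B := by
  induction d using Nat.strong_induction_on with
  | _ d ih =>
    rcases Nat.eq_zero_or_pos d with rfl | hd
    · exact h0
    · have h1 := h d
      have h2 := h' d
      have h3 : ∑ m ∈ Finset.range d, S (m + 1) * PowerSeries.coeff (d - (m + 1)) A =
          ∑ m ∈ Finset.range d, S (m + 1) * PowerSeries.coeff (d - (m + 1)) B := by
        refine Finset.sum_congr rfl fun m hm => ?_
        rw [ih (d - (m + 1)) (by omega)]
      rw [h3, ← h2] at h1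
      exact mul_left_cancel₀ (by exact_mod_cast hd.ne') h1

theorem sum_mult (n : ℕ) (hn : 0 < n) (f : ℕ → ℂ) (e : ℕ) :
    ∑ m ∈ Finset.range (n * e), (if n ∣ m + 1 then f (m + 1) else 0) =
      ∑ k ∈ Finset.range e, f (n * (k + 1)) := by
  induction e with
  | zero => rw [Nat.mul_zero, Finset.sum_range_zero, Finset.sum_range_zero]
  | succ e ih =>
    rw [Nat.mul_succ, Finset.sum_range_add, ih, Finset.sum_range_succ]
    congr 1
    rw [Finset.sum_eq_single (n - 1)]
    · have h1 : n * e + (n - 1) + 1 = n * (e + 1) := by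
        rw [Nat.mul_succ]
        omega
      rw [h1, if_pos (Dvd.intro _ rfl)]
    · intro b hb hb'
      rw [Finset.mem_range] at hb
      rw [if_neg]
      intro h2
      rw [add_assoc, Nat.dvd_add_right (Dvd.intro _ rfl)] at h2
      have := Nat.le_of_dvd (Nat.succ_pos b) h2
      omega
    · intro h
      exact absurd (Finset.mem_range.2 (by omega)) h

theorem rec_exp {M : PowerSeries ℂ} {S : ℕ → ℂ} (n : ℕ) (hn : 0 < n)
    (h : Rec M (fun m => S (n * m))) :
    Rec (PowerSeries.mk fun d => if n ∣ d then PowerSeries.coeff (d / n) M else 0)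
      (fun m => if n ∣ m then (n : ℂ) * S m else 0) := by
  intro d
  by_cases hd : n ∣ d
  · obtain ⟨e, rfl⟩ := hd
    rw [PowerSeries.coeff_mk, if_pos (Dvd.intro _ rfl), Nat.mul_div_cancel_left e hn]
    have h1 : ∀ m ∈ Finset.range (n * e), (if n ∣ m + 1 then (n : ℂ) * S (m + 1) else 0) *
        PowerSeries.coeff (n * e - (m + 1))
          (PowerSeries.mk fun d => if n ∣ d then PowerSeries.coeff (d / n) M else 0) =
        if n ∣ m + 1 then (fun j => (n : ℂ) * S j * PowerSeries.coeff (e - j / n) M) (m + 1)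
          else 0 := by
      intro m hm
      rw [Finset.mem_range] at hm
      by_cases h2 : n ∣ m + 1
      · rw [if_pos h2, if_pos h2, PowerSeries.coeff_mk]
        obtain ⟨k, hk⟩ := h2
        rw [hk, ← Nat.mul_sub, if_pos (Dvd.intro _ rfl), Nat.mul_div_cancel_left _ hn]
        simp only [Nat.mul_div_cancel_left _ hn]
      · rw [if_neg h2, if_neg h2, zero_mul]
    rw [Finset.sum_congr rfl h1,
      sum_mult n hn (fun j => (n : ℂ) * S j * PowerSeries.coeff (e - j / n) M), Nat.cast_mul,
      mul_assoc, h e, Finset.mul_sum]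
    refine Finset.sum_congr rfl fun k _ => ?_
    simp only [Nat.mul_div_cancel_left _ hn]
    ring
  · rw [PowerSeries.coeff_mk, if_neg hd, mul_zero]
    symm
    refine Finset.sum_eq_zero fun m hm => ?_
    rw [Finset.mem_range] at hm
    by_cases h2 : n ∣ m + 1
    · rw [PowerSeries.coeff_mk, if_neg, mul_zero]
      intro h3
      apply hd
      have h4 : d = d - (m + 1) + (m + 1) := by omega
      rw [h4]
      exact dvd_add h3 h2
    · simp only [if_neg h2, zero_mul]

theorem sum_root {n : ℕ} {ζ : ℂ} (hζ : IsPrimitiveRoot ζ n) (m : ℕ) :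
    ∑ i ∈ Finset.range n, (ζ ^ i) ^ m = if n ∣ m then (n : ℂ) else 0 := by
  by_cases h : n ∣ m
  · rw [if_pos h, Finset.sum_congr rfl (g := fun _ => (1 : ℂ))]
    · simp
    · intro i _
      rw [← pow_mul, mul_comm, pow_mul, (hζ.pow_eq_one_iff_dvd m).2 h, one_pow]
  · rw [if_neg h]
    have h1 : ∑ i ∈ Finset.range n, (ζ ^ i) ^ m = ∑ i ∈ Finset.range n, (ζ ^ m) ^ i := by
      refine Finset.sum_congr rfl fun i _ => ?_
      rw [← pow_mul, ← pow_mul, mul_comm]
    rw [h1]
    have h2 := geom_sum_mul (ζ ^ m) n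
    rw [← pow_mul, mul_comm m n, pow_mul, hζ.pow_eq_one, one_pow, sub_self] at h2
    rcases mul_eq_zero.1 h2 with h3 | h3
    · exact h3
    · exact absurd ((hζ.pow_eq_one_iff_dvd m).1 (sub_eq_zero.1 h3)) h

end BPS

open BPS in
theorem stPS : StPS := by
  intro n ζ S L M hn hζ hL hM h1 h2 d
  have h3 : Rec L S := h1
  have h4 : Rec M (fun m => S (n * m)) := h2
  have h5 := rec_prod (fun i => PowerSeries.rescale (ζ ^ i) L) (fun i m => (ζ ^ i) ^ m * S m)
    (fun i => rec_rescale (ζ ^ i) h3) n
  have h6 := rec_exp n hn h4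
  have h7 : (fun m => ∑ i ∈ Finset.range n, (ζ ^ i) ^ m * S m) =
      fun m => if n ∣ m then (n : ℂ) * S m else 0 := by
    funext m
    rw [← Finset.sum_mul, sum_root hζ m]
    by_cases h : n ∣ m
    · rw [if_pos h, if_pos h]
    · rw [if_neg h, if_neg h, zero_mul]
  rw [h7] at h5
  have h8 : PowerSeries.coeff 0 (∏ i ∈ Finset.range n, PowerSeries.rescale (ζ ^ i) L) = 1 := by
    rw [PowerSeries.coeff_zero_eq_constantCoeff_apply, map_prod]
    refine Finset.prod_eq_one fun i _ => ?_
    rw [← PowerSeries.coeff_zero_eq_constantCoeff_apply, PowerSeries.coeff_rescale, pow_zero,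
      one_mul, hL]
  have h9 := rec_unique h5 h6 (by
    rw [h8, PowerSeries.coeff_mk, if_pos (dvd_zero n), Nat.zero_div, hM]) d
  rw [h9, PowerSeries.coeff_mk]

end Pool.Agent.Lib.MP_c385f6_ag.TPG
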