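import Pool.Agent.Lib.MP_c385f6_ag.TPG.StB

/-!
Project TPG, statement B17: a fixed class contains a fixed divisor.
-/

set_option autoImplicit false

namespace Pool.Agent.Lib.MP_c385f6_ag.TPG

universe u v

namespace BRep

variable {F : Type u} {W : Type v} [Field F] [Field W] [Algebra F W]

theorem dg_eq (D : Dv F W) : dg D = dgr D := rfl

/-- There is a divisor `D + j P₀` with `l (D + j P₀) = 1`. -/
theorem exists_ell_one (R : RRF F W) {g : ℕ} (hg : IsGenus F W g) (P₀ : Plc F W) (D : Dv F W) :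
    ∃ j : ℤ, ell (D + Finsupp.single P₀ j) = 1 := by
  classical
  have hdg : ∀ j : ℤ, dg (D + Finsupp.single P₀ j) = dg D + j := by
    intro j
    rw [dg_eq, dgr_add, dgr_single, dg_eq]
  have hnn : ∀ E : Dv F W, 0 ≤ ell E := fun E => by
    unfold ell
    exact Int.natCast_nonneg _
  have h0 : ell (D + Finsupp.single P₀ (-dg D - 1)) = 0 := by
    have h1 := R.neg (D + Finsupp.single P₀ (-dg D - 1)) (by rw [hdg]; omega)
    unfold ell
    rw [h1]
    simp
  have hex : ∃ k : ℕ, 0 < ell (D + Finsupp.single P₀ (-dg D - 1 + (k : ℤ))) := by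
    refine ⟨g + 1, ?_⟩
    have h1 := hg.1 (D + Finsupp.single P₀ (-dg D - 1 + ((g + 1 : ℕ) : ℤ)))
    rw [hdg] at h1
    push_cast at h1 ⊢
    omega
  have hk := Nat.find_spec hex
  have hmin := fun {m : ℕ} (hm : m < Nat.find hex) => Nat.find_min hex hm
  set k := Nat.find hex with hkdef
  have hk0 : k ≠ 0 := by
    intro h1
    rw [h1] at hk
    simp only [Nat.cast_zero, add_zero] at hk
    omega
  refine ⟨-dg D - 1 + (k : ℤ), ?_⟩
  have h1 := hmin (m := k - 1) (by omega)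
  have h2 : D + Finsupp.single P₀ (-dg D - 1 + ((k - 1 : ℕ) : ℤ)) ≤
      D + Finsupp.single P₀ (-dg D - 1 + (k : ℤ)) := by
    refine add_le_add le_rfl ?_
    intro P
    by_cases hP : P₀ = P
    · subst hP
      rw [Finsupp.single_eq_same, Finsupp.single_eq_same]
      omega
    · rw [Finsupp.single_apply, Finsupp.single_apply, if_neg hP, if_neg hP]
  have h3 := (R.mono _ _ h2).2
  rw [hdg, hdg] at h3
  have h4 := hnn (D + Finsupp.single P₀ (-dg D - 1 + ((k - 1 : ℕ) : ℤ)))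
  have h5 : ((k - 1 : ℕ) : ℤ) = (k : ℤ) - 1 := by
    have : 1 ≤ k := by omega
    push_cast [Nat.cast_sub this]
    ring
  rw [h5] at h1 h3 h4
  omega

end BRep

/-- B17. A fixed class contains a fixed divisor. -/
theorem stRep : StRep.{u, v} := by
  classical
  intro F W _ _ _ _ _ hO R g hg Φ φ P₀ hΦ hP₀ D ⟨h, h0, hh⟩
  obtain ⟨j, hj⟩ := BRep.exists_ell_one R hg P₀ D
  set Dj : Dv F W := D + Finsupp.single P₀ j with hDj
  obtain ⟨f, hf0, hf⟩ := R.eff Dj (by rw [hj]; exact one_pos)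
  have hfin := R.fin Dj
  have hordf : ∀ P : Plc F W, - Dj P ≤ ord P f := by
    intro P
    have h1 := hf P
    rw [Finsupp.add_apply, R.dv_apply f P hf0] at h1
    have h2 : (0 : Dv F W) P = 0 := rfl
    rw [h2] at h1
    linarith
  have hfmem : f ∈ RR Dj := (R.mem _ _).2 fun _ => hordf
  have hΦf0 : Φ f ≠ 0 := (map_ne_zero_iff Φ Φ.injective).2 hf0
  have hΦord : ∀ (P : Plc F W) (w : W), ord P (Φ w) = ord (φ⁻¹ P) w := by
    intro P w
    have h1 := hΦ (φ⁻¹ P) w
    have h2 : φ (φ⁻¹ P) = P := by simp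
    rwa [h2] at h1
  have hpmj : ∀ P : Plc F W, Dj (φ⁻¹ P) = Dj P + ord P h := by
    intro P
    have h1 : pm φ Dj P = Dj (φ⁻¹ P) := pm_apply' φ Dj P
    have h2 : pm φ Dj = Dj + dv h := by
      rw [hDj, pm_add, pm_single, hP₀, hh]
      abel
    rw [← h1, h2, Finsupp.add_apply, R.dv_apply h P h0]
  have hmem : Φ f * h ∈ RR Dj := by
    rw [R.mem]
    intro _ P
    rw [hO.mul P _ _ hΦf0 h0, hΦord]
    have h1 := hordf (φ⁻¹ P)
    rw [hpmj] at h1
    linarith
  have hone : Module.finrank F (RR Dj) = 1 := by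
    have h1 := hj
    unfold ell at h1
    exact_mod_cast h1
  obtain ⟨c, hc⟩ := (finrank_eq_one_iff_of_nonzero' (⟨f, hfmem⟩ : RR Dj) (by
    intro h1
    exact hf0 (congrArg Subtype.val h1))).1 hone ⟨Φ f * h, hmem⟩
  have hc' : algebraMap F W c * f = Φ f * h := by
    have h1 := congrArg Subtype.val hc
    rw [Submodule.coe_smul, Algebra.smul_def] at h1
    exact h1
  have hc0 : algebraMap F W c ≠ 0 := by
    intro h1
    rw [h1, zero_mul] at hc'
    exact mul_ne_zero hΦf0 h0 hc'.symm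
  have hE : pm φ (dv f + Dj) = dv f + Dj := by
    have e1 : ∀ Q : Plc F W, ((dv f : Dv F W) + Dj) Q = ord Q f + Dj Q := fun Q => by
      rw [Finsupp.add_apply, R.dv_apply f Q hf0]
    ext P
    rw [pm_apply', e1, e1, hpmj, ← hΦord]
    have h1 := hO.mul P _ _ hΦf0 h0
    rw [← hc', hO.mul P _ _ hc0 hf0, R.ord_const] at h1
    linarith
  refine ⟨dv f + Dj - Finsupp.single P₀ j, ?_, f, hf0, ?_⟩
  · rw [pm_sub, hE, pm_single, hP₀]
  · rw [hDj]
    abel

end Pool.Agent.Lib.MP_c385f6_ag.TPG
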