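import Pool.Agent.Lib.MP_c385f6_ag.TPG.StB

/-!
Project TPG, part B: the fixed vectors of a semilinear map.
-/

set_option autoImplicit false

namespace Pool.Agent.Lib.MP_c385f6_ag.TPG

universe u v

namespace BSemi

open Polynomial

section

variable {p : ℕ} [Fact p.Prime] {F : Type u} [Field F] [IsAlgClosed F] [CharP F p]

theorem card_fix {n : ℕ} (hn : n ≠ 0) : Nat.card {c : F // c ^ (p ^ n) = c} = p ^ n := by
  have hp : 1 < p := (Fact.out : p.Prime).one_lt
  have h1 := card_rootSet_eq_natDegree (K := F)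
    (galois_poly_separable (K := F) p (p ^ n) (dvd_pow_self p hn)) (IsAlgClosed.splits _)
  rw [FiniteField.X_pow_card_pow_sub_X_natDegree_eq F hn hp] at h1
  refine Eq.trans (Nat.card_congr (Equiv.subtypeEquivRight fun c => ?_))
    (Nat.card_eq_fintype_card.trans h1)
  rw [mem_rootSet_of_ne (FiniteField.X_pow_card_pow_sub_X_ne_zero F hn hp)]
  simp [sub_eq_zero]

variable {V : Type v} [AddCommGroup V] [Module F V]

omit [Fact p.Prime] [IsAlgClosed F] [CharP F p] in
theorem iter {f : ℕ} {t : V →+ V} (ht : ∀ (c : F) (x : V), t (c • x) = c ^ (p ^ f) • t x)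
    (c : F) (x : V) (i : ℕ) : t^[i] (c • x) = c ^ ((p ^ f) ^ i) • t^[i] x := by
  induction i with
  | zero => simp
  | succ i ih =>
    rw [Function.iterate_succ_apply', ih, ht, Function.iterate_succ_apply', ← pow_mul,
      ← pow_succ]

theorem trace_fix {t : V →+ V} {m : ℕ} {y : V} (hy : t^[m] y = y) :
    t (∑ i ∈ Finset.range m, t^[i] y) = ∑ i ∈ Finset.range m, t^[i] y := by
  rw [map_sum]
  have h1 : ∑ i ∈ Finset.range (m + 1), t^[i] y = ∑ i ∈ Finset.range m, t^[i] y + y := by
    rw [Finset.sum_range_succ, hy]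
  have h2 : ∑ i ∈ Finset.range (m + 1), t^[i] y = ∑ i ∈ Finset.range m, t (t^[i] y) + y := by
    rw [Finset.sum_range_succ']
    congr 1
    exact Finset.sum_congr rfl fun i _ => Function.iterate_succ_apply' _ _ _
  exact add_right_cancel (h2.symm.trans h1)

theorem span_top {f : ℕ} (hf : 1 ≤ f) {t : V →+ V}
    (ht : ∀ (c : F) (x : V), t (c • x) = c ^ (p ^ f) • t x)
    (hfin : ∀ x, ∃ m > 0, t^[m] x = x) : ⊤ ≤ Submodule.span F {x : V | t x = x} := by
  have hp : 1 < p := (Fact.out : p.Prime).one_lt
  by_contra hc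
  have hlt : Submodule.span F {x : V | t x = x} < ⊤ := lt_of_le_of_ne le_top fun h => hc h.ge
  obtain ⟨lam, hlam, hker⟩ := Submodule.exists_le_ker_of_lt_top _ hlt
  obtain ⟨v, hv⟩ : ∃ v, lam v ≠ 0 := by
    by_contra h
    push Not at h
    exact hlam (LinearMap.ext h)
  obtain ⟨m, hm, hmv⟩ := hfin v
  have hQ : 1 < p ^ f := Nat.one_lt_pow (by omega) hp
  set P : F[X] := ∑ i ∈ Finset.range m, C (lam (t^[i] v)) * X ^ ((p ^ f) ^ i) with hP
  have heval : ∀ c : F, c ^ (p ^ (f * m)) = c → P.eval c = 0 := by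
    intro c hc
    have h1 : t^[m] (c • v) = c • v := by
      rw [iter ht, ← pow_mul p, hc, hmv]
    have h2 : lam (∑ i ∈ Finset.range m, t^[i] (c • v)) = 0 := by
      have h3 : ∑ i ∈ Finset.range m, t^[i] (c • v) ∈ Submodule.span F {x : V | t x = x} :=
        Submodule.subset_span (trace_fix h1)
      exact hker h3
    rw [hP, eval_finsetSum, ← h2, map_sum]
    refine Finset.sum_congr rfl fun i _ => ?_
    rw [iter ht, map_smul, smul_eq_mul, eval_mul, eval_C, eval_pow, eval_X, mul_comm]
  have hN : f * m ≠ 0 := Nat.mul_ne_zero (by omega) (by omega)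
  have hcard := card_fix (p := p) (F := F) hN
  have hfinite : Finite {c : F // c ^ (p ^ (f * m)) = c} := by
    refine Nat.finite_of_card_ne_zero ?_
    rw [hcard]
    positivity
  have := Fintype.ofFinite {c : F // c ^ (p ^ (f * m)) = c}
  have hP0 : P = 0 := by
    refine eq_zero_of_natDegree_lt_card_of_eval_eq_zero' P
      (Finset.univ.map (Function.Embedding.subtype fun c : F => c ^ (p ^ (f * m)) = c)) ?_ ?_
    · intro c hc
      obtain ⟨c', -, rfl⟩ := Finset.mem_map.1 hc
      exact heval _ c'.2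
    · rw [Finset.card_map, Finset.card_univ, ← Nat.card_eq_fintype_card, hcard]
      have h1 : P.natDegree ≤ (p ^ f) ^ (m - 1) := by
        refine natDegree_sum_le_of_forall_le _ _ fun i hi => ?_
        refine (natDegree_C_mul_X_pow_le _ _).trans ?_
        exact Nat.pow_le_pow_right (by omega) (by
          have := Finset.mem_range.1 hi
          omega)
      refine h1.trans_lt ?_
      rw [pow_mul]
      exact Nat.pow_lt_pow_right hQ (by omega)
  have h1 : P.coeff ((p ^ f) ^ 0) = lam v := by
    rw [hP, finsetSum_coeff, Finset.sum_eq_single 0]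
    · rw [coeff_C_mul_X_pow, if_pos rfl]
      rfl
    · intro i _ hi
      rw [coeff_C_mul_X_pow, if_neg]
      intro h2
      exact hi (Nat.pow_right_injective hQ h2).symm
    · intro h2
      exact absurd (Finset.mem_range.2 hm) h2
  rw [hP0, coeff_zero] at h1
  exact hv h1.symm

end

end BSemi

open BSemi

theorem stSemi : StSemi.{u, v} := by
  intro p _ F V _ _ _ _ _ _ _ f t hf ht hfin
  have hspan := span_top hf ht hfin
  set b := Module.Basis.ofSpan hspan with hb
  have hbfix : ∀ i, t (b i) = b i := fun i =>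
    Module.Basis.ofSpan_subset hspan ⟨i, rfl⟩
  have := FiniteDimensional.fintypeBasisIndex b
  have key : ∀ x i, b.equivFun (t x) i = (b.equivFun x i) ^ (p ^ f) := by
    intro x
    have h1 : t x = b.equivFun.symm (fun i => (b.equivFun x i) ^ (p ^ f)) := by
      conv_lhs => rw [← b.equivFun.symm_apply_apply x]
      rw [Module.Basis.equivFun_symm_apply, Module.Basis.equivFun_symm_apply, map_sum]
      refine Finset.sum_congr rfl fun i _ => ?_
      rw [ht, hbfix]
    intro i
    rw [h1, LinearEquiv.apply_symm_apply]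
  have h2 : ∀ x : V, t x = x ↔ ∀ i, (b.equivFun x i) ^ (p ^ f) = b.equivFun x i := by
    intro x
    rw [← b.equivFun.injective.eq_iff, funext_iff]
    simp only [key]
  have e1 : {x : V // t x = x} ≃ {g : _ → F // ∀ i, g i ^ (p ^ f) = g i} :=
    Equiv.subtypeEquiv b.equivFun.toEquiv h2
  have e2 := Equiv.subtypePiEquivPi (β := fun _ : _ => F)
    (p := fun (_ : ((linearIndepOn_empty F (id : V → V)).extend
      (Set.empty_subset {x : V | t x = x}))) (c : F) => c ^ (p ^ f) = c)
  rw [Nat.card_congr (e1.trans e2), Nat.card_fun, card_fix (by omega), Nat.card_eq_fintype_card,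
    Module.finrank_eq_card_basis b]

end Pool.Agent.Lib.MP_c385f6_ag.TPG
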