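import Pool.Agent.Lib.MP_c385f6_ag.TPG.StB

/-!
Project TPG, part B, module B12: the numerator of the zeta function.
-/

set_option autoImplicit false

namespace Pool.Agent.Lib.MP_c385f6_ag.TPG

universe u

namespace BZeta

open PowerSeries

/-! ### Power series -/

section PS

variable {R : Type*} [CommRing R]

lemma coeff_step (c : R) (F : R⟦X⟧) (d : ℕ) :
    coeff (d + 1) ((1 - C c * X) * F) = coeff (d + 1) F - c * coeff d F := by
  rw [sub_mul, one_mul, map_sub, mul_assoc, coeff_C_mul, coeff_succ_X_mul]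

lemma coeff_step0 (c : R) (F : R⟦X⟧) : coeff 0 ((1 - C c * X) * F) = coeff 0 F := by
  rw [sub_mul, one_mul, map_sub, mul_assoc, coeff_C_mul, coeff_zero_X_mul, mul_zero, sub_zero]

lemma sum_step (n M : ℕ) (G : R⟦X⟧) :
    ∑ d ∈ Finset.range (n + M), coeff d ((1 - X ^ n) * G) =
      ∑ d ∈ Finset.range n, coeff (M + d) G := by
  have h1 : ∑ d ∈ Finset.range (n + M), coeff d (X ^ n * G) =
      ∑ d ∈ Finset.range M, coeff d G := by
    rw [Finset.sum_range_add]
    have h2 : ∑ d ∈ Finset.range n, coeff d (X ^ n * G) = 0 := by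
      refine Finset.sum_eq_zero fun d hd => ?_
      rw [coeff_X_pow_mul', if_neg (not_le.2 (Finset.mem_range.1 hd))]
    rw [h2, zero_add]
    refine Finset.sum_congr rfl fun d _ => ?_
    rw [coeff_X_pow_mul', if_pos (Nat.le_add_right n d), Nat.add_sub_cancel_left]
  have h3 : ∑ d ∈ Finset.range (n + M), coeff d G =
      ∑ d ∈ Finset.range M, coeff d G + ∑ d ∈ Finset.range n, coeff (M + d) G := by
    rw [add_comm n M, Finset.sum_range_add]
  have h4 : ∑ d ∈ Finset.range (n + M), coeff d ((1 - X ^ n) * G) =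
      ∑ d ∈ Finset.range (n + M), coeff d G -
        ∑ d ∈ Finset.range (n + M), coeff d (X ^ n * G) := by
    rw [← Finset.sum_sub_distrib]
    refine Finset.sum_congr rfl fun d _ => ?_
    rw [sub_mul, one_mul, map_sub]
  rw [h4, h1, h3, add_sub_cancel_left]

end PS

lemma prod_root {n : ℕ} {ζ : ℂ} (hn : 0 < n) (hζ : IsPrimitiveRoot ζ n) (y : ℂ⟦X⟧) :
    ∏ i ∈ Finset.range n, (1 - C (ζ ^ i) * y) = 1 - y ^ n := by
  have h1 : IsPrimitiveRoot (C ζ : ℂ⟦X⟧) n :=
    hζ.map_of_injective (f := (C : ℂ →+* ℂ⟦X⟧)) PowerSeries.C_injective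
  have h2 := X_pow_sub_C_eq_prod h1 hn (rfl : y ^ n = y ^ n)
  have h3 := congrArg (Polynomial.eval 1) h2
  rw [Polynomial.eval_prod] at h3
  simp only [Polynomial.eval_sub, Polynomial.eval_pow, Polynomial.eval_X, Polynomial.eval_C,
    one_pow] at h3
  rw [h3]
  refine Finset.prod_congr rfl fun i _ => ?_
  rw [map_pow]

/-- the value at `1` of a product over the roots of unity -/
lemma prod_eval {n : ℕ} {ζ : ℂ} (hn : 0 < n) (hζ : IsPrimitiveRoot ζ n) (q : ℂ)
    (P : Polynomial ℂ) (L : ℂ⟦X⟧) (a : ℕ → ℂ) (h : ℂ)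
    (hP : (P : ℂ⟦X⟧) = (1 - C 1 * X) * ((1 - C q * X) * L))
    (hL : ∀ d : ℕ, coeff d (∏ i ∈ Finset.range n, rescale (ζ ^ i) L) =
      if n ∣ d then a (d / n) else 0)
    (ha : ∃ d₁ : ℕ, ∀ d ≥ d₁, a (d + 1) - q ^ n * a d = h) :
    ∏ i ∈ Finset.range n, P.eval (ζ ^ i) = h := by
  obtain ⟨d₁, hd₁⟩ := ha
  set M : ℂ⟦X⟧ := ∏ i ∈ Finset.range n, rescale (ζ ^ i) L with hM
  set Q : Polynomial ℂ := ∏ i ∈ Finset.range n,
    P.comp (Polynomial.C (ζ ^ i) * Polynomial.X) with hQ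
  have e1 : ∏ i ∈ Finset.range n, P.eval (ζ ^ i) = Q.eval 1 := by
    rw [hQ, Polynomial.eval_prod]
    refine Finset.prod_congr rfl fun i _ => ?_
    rw [Polynomial.eval_comp, Polynomial.eval_mul, Polynomial.eval_C, Polynomial.eval_X, mul_one]
  have e2 : ∀ i, ((P.comp (Polynomial.C (ζ ^ i) * Polynomial.X) : Polynomial ℂ) : ℂ⟦X⟧) =
      rescale (ζ ^ i) (P : ℂ⟦X⟧) := by
    intro i
    ext d
    rw [Polynomial.coeff_coe, Polynomial.comp_C_mul_X_coeff, coeff_rescale,
      Polynomial.coeff_coe, mul_comm]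
  have e3 : ∀ (i : ℕ) (c : ℂ), rescale (ζ ^ i) (1 - C c * X) = 1 - C (ζ ^ i) * (C c * X) := by
    intro i c
    have h1 : rescale (ζ ^ i) (C c) = C c := by
      ext d
      rw [coeff_rescale, coeff_C]
      split_ifs with h0
      · rw [h0, pow_zero, one_mul]
      · rw [mul_zero]
    rw [map_sub, map_one, map_mul, h1, rescale_X]
    ring
  have e4 : (Q : ℂ⟦X⟧) = (1 - X ^ n) * ((1 - C (q ^ n) * X ^ n) * M) := by
    have e5 : (Q : ℂ⟦X⟧) = ∏ i ∈ Finset.range n,
        ((P.comp (Polynomial.C (ζ ^ i) * Polynomial.X) : Polynomial ℂ) : ℂ⟦X⟧) := by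
      have h1 := map_prod (Polynomial.coeToPowerSeries.ringHom (R := ℂ))
        (fun i => P.comp (Polynomial.C (ζ ^ i) * Polynomial.X)) (Finset.range n)
      simpa only [Polynomial.coeToPowerSeries.ringHom_apply] using h1
    rw [e5]
    simp only [e2, hP, map_mul, e3]
    rw [Finset.prod_mul_distrib, Finset.prod_mul_distrib, prod_root hn hζ, prod_root hn hζ,
      map_one, one_mul, mul_pow, ← map_pow]
  have e6 : ∀ k ≥ d₁, ∑ d ∈ Finset.range (n + n * (k + 1)), coeff d (Q : ℂ⟦X⟧) = h := by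
    intro k hk
    rw [e4, sum_step]
    have e7 : ∀ d ∈ Finset.range n, coeff (n * (k + 1) + d) ((1 - C (q ^ n) * X ^ n) * M) =
        if d = 0 then h else 0 := by
      intro d hd
      have hd' := Finset.mem_range.1 hd
      rw [sub_mul, one_mul, map_sub, mul_assoc, coeff_C_mul, coeff_X_pow_mul', hL,
        if_pos (le_trans (Nat.le_mul_of_pos_right n (Nat.succ_pos k)) (Nat.le_add_right _ _))]
      have e8 : n * (k + 1) + d - n = n * k + d := by
        rw [mul_add, mul_one, add_right_comm, Nat.add_sub_cancel]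
      rw [e8, hL]
      by_cases h0 : d = 0
      · rw [h0, if_pos rfl, add_zero, add_zero, if_pos (dvd_mul_right n (k + 1)),
          if_pos (dvd_mul_right n k), Nat.mul_div_cancel_left _ hn, Nat.mul_div_cancel_left _ hn]
        exact hd₁ k hk
      · have h1 : ¬ n ∣ d := fun hdv => h0 (Nat.eq_zero_of_dvd_of_lt hdv hd')
        have h2 : ¬ n ∣ n * (k + 1) + d := fun hdv =>
          h1 ((Nat.dvd_add_right (dvd_mul_right n (k + 1))).1 hdv)
        have h3 : ¬ n ∣ n * k + d := fun hdv =>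
          h1 ((Nat.dvd_add_right (dvd_mul_right n k)).1 hdv)
        rw [if_neg h2, if_neg h3, if_neg h0, mul_zero, sub_zero]
    rw [Finset.sum_congr rfl e7, Finset.sum_ite_eq', if_pos (Finset.mem_range.2 hn)]
  set k : ℕ := d₁ + Q.natDegree with hk
  have e9 : Q.natDegree < n + n * (k + 1) := by
    have h1 : k + 1 ≤ n * (k + 1) := Nat.le_mul_of_pos_left _ hn
    omega
  rw [e1, Polynomial.eval_eq_sum_range' e9, ← e6 k (by omega)]
  refine Finset.sum_congr rfl fun d _ => ?_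
  rw [one_pow, mul_one, Polynomial.coeff_coe]

/-! ### Divisors -/

lemma fs_one {α : Type*} {s : Set α} (hs : s.Finite) : ∑ᶠ _a ∈ s, (1 : ℂ) = (Nat.card s : ℂ) := by
  rw [finsum_mem_eq_finite_toFinset_sum _ hs, Finset.sum_const, nsmul_eq_mul, mul_one,
    Nat.card_coe_set_eq, Set.ncard_eq_toFinset_card _ hs]

lemma ef_zero {T : Type u} (φ : Equiv.Perm T) : Ef φ 0 = {0} := by
  ext E
  rw [Set.mem_singleton_iff]
  constructor
  · rintro ⟨h1, -, h3⟩
    ext P
    have h4 : ∀ Q ∈ E.support, 0 ≤ E Q := fun Q _ => h1 Q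
    have h5 : ∑ Q ∈ E.support, E Q = 0 := h3
    have h6 := (Finset.sum_eq_zero_iff_of_nonneg h4).1 h5
    by_cases h7 : P ∈ E.support
    · exact h6 P h7
    · exact Finsupp.notMem_support_iff.1 h7
  · rintro rfl
    refine ⟨le_rfl, pm_zero φ, ?_⟩
    have h : dgr (0 : T →₀ ℤ) = 0 := map_zero (dgH T)
    rw [h, Nat.cast_zero]

/-- the number of the effective divisors fixed by the `n`-th power of the Frobenius -/
noncomputable def an {T : Type u} (X : CD T) (n d : ℕ) : ℕ := Nat.card (Ef (X.φ ^ n) d)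

lemma an_zero {T : Type u} (X : CD T) (n : ℕ) : an X n 0 = 1 := by
  rw [an, ef_zero, Nat.card_coe_set_eq, Set.ncard_singleton]

/-- the number of the fixed points -/
noncomputable def fx {T : Type u} (X : CD T) (k : ℕ) : ℂ := ∑ᶠ _P ∈ {P | (X.φ ^ k) P = P}, (1 : ℂ)

lemma newt (h1 : StNewt.{u}) {T : Type u} (X : CD T) {n : ℕ} (hn : 0 < n) (d : ℕ) :
    (d : ℂ) * (an X n d : ℂ) =
      ∑ m ∈ Finset.range d, fx X (n * (m + 1)) * (an X n (d - (m + 1)) : ℂ) := by
  obtain ⟨hf, h⟩ := h1 T (X.φ ^ n) (fun m hm => by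
    rw [← pow_mul]
    exact X.fin (n * m) (Nat.mul_pos hn hm))
  have h2 := h (fun _ => 1) (fun _ _ _ _ => by rw [mul_one]) d
  rw [fs_one (hf d)] at h2
  refine h2.trans (Finset.sum_congr rfl fun m _ => ?_)
  rw [fs_one (hf _), ← pow_mul]
  rfl

/-- the number of the fixed classes of degree zero -/
noncomputable def hh {T : Type u} (X : CD T) (n : ℕ) : ℕ :=
  Nat.card {a : X.A | (X.σ ^ n) a = a}

lemma large (h1 : StNewt.{u}) (h3 : StCls.{u}) {T : Type u} (X : CD T) {n : ℕ} (hn : 0 < n) :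
    ∃ d₁ : ℕ, ∀ d ≥ d₁, (an X n (d + 1) : ℂ) - (X.q : ℂ) ^ n * (an X n d : ℂ) = (hh X n : ℂ) := by
  obtain ⟨hf, -⟩ := h1 T (X.φ ^ n) (fun m hm => by
    rw [← pow_mul]
    exact X.fin (n * m) (Nat.mul_pos hn hm))
  obtain ⟨hfin, h⟩ := h3 T X n hn
  obtain ⟨d₀, hd₀⟩ := h (fun _ => 1)
  have hQ : (X.q : ℂ) ^ n - 1 ≠ 0 := by
    rw [sub_ne_zero]
    have h2 : 1 < X.q ^ n := Nat.one_lt_pow hn.ne' (lt_of_lt_of_le one_lt_two X.two_le)
    intro h4
    have h5 : ((X.q ^ n : ℕ) : ℂ) = ((1 : ℕ) : ℂ) := by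
      rw [Nat.cast_pow, h4, Nat.cast_one]
    rw [Nat.cast_inj] at h5
    omega
  have key : ∀ d ≥ d₀, (an X n d : ℂ) =
      (hh X n : ℂ) * (((X.q : ℂ) ^ (n * (d + 1 - X.g)) - 1) / ((X.q : ℂ) ^ n - 1)) := by
    intro d hd
    have h2 := hd₀ d hd
    rw [fs_one (hf d), fs_one hfin] at h2
    exact h2
  refine ⟨max d₀ X.g, fun d hd => ?_⟩
  have hd1 : d₀ ≤ d := le_trans (le_max_left _ _) hd
  have hd2 : X.g ≤ d := le_trans (le_max_right _ _) hd
  rw [key d hd1, key (d + 1) (by omega)]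
  have e : d + 1 + 1 - X.g = (d + 1 - X.g) + 1 := by omega
  rw [e, mul_add, mul_one, pow_add]
  field_simp
  ring

end BZeta

open BZeta PowerSeries in
/-- Module B12: the numerator of the zeta function. -/
theorem stZeta (h1 : StNewt.{u}) (h2 : StPS) (h3 : StCls.{u}) : StZeta.{u} := by
  intro T X
  set A : ℤ⟦X⟧ := PowerSeries.mk fun d => (an X 1 d : ℤ) with hA
  set W : ℤ⟦X⟧ := (1 - C (1 : ℤ) * PowerSeries.X) * ((1 - C (X.q : ℤ) * PowerSeries.X) * A)
    with hW
  obtain ⟨d₁, hd₁⟩ := large h1 h3 X one_pos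
  have hd₁' : ∀ d ≥ d₁, (an X 1 (d + 1) : ℤ) - (X.q : ℤ) * (an X 1 d : ℤ) = (hh X 1 : ℤ) := by
    intro d hd
    have h4 := hd₁ d hd
    rw [pow_one] at h4
    exact_mod_cast h4
  have hcW : ∀ d ≥ d₁ + 2, coeff d W = 0 := by
    intro d hd
    obtain ⟨e, rfl⟩ : ∃ e, d = e + 1 + 1 := ⟨d - 2, by omega⟩
    rw [hW, coeff_step, coeff_step, coeff_step, hA, coeff_mk, coeff_mk, coeff_mk,
      hd₁' (e + 1) (by omega), hd₁' e (by omega), one_mul, sub_self]
  set P : Polynomial ℤ := trunc (d₁ + 2) W with hP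
  have hPW : (P : ℤ⟦X⟧) = W := by
    ext d
    rw [Polynomial.coeff_coe, hP, coeff_trunc]
    split_ifs with h
    · rfl
    · exact (hcW d (not_lt.1 h)).symm
  have hcoef : ∀ d, P.coeff d = coeff d W := by
    intro d
    rw [← hPW, Polynomial.coeff_coe]
  refine ⟨P, ?_, ?_, ?_⟩
  · rw [hcoef, hW, coeff_step0, coeff_step0, hA, coeff_mk, an_zero, Nat.cast_one]
  · have h4 := newt h1 X one_pos 1
    rw [Finset.sum_range_one, zero_add, Nat.sub_self, an_zero, Nat.cast_one, one_mul,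
      mul_one, mul_one] at h4
    have h5 : (an X 1 1 : ℤ) = (Nat.card {Q : T | X.φ Q = Q} : ℤ) := by
      have h6 : fx X 1 = (Nat.card {Q : T | X.φ Q = Q} : ℂ) := by
        have h7 := fs_one (X.fin 1 one_pos)
        rw [pow_one] at h7
        rw [fx, pow_one]
        exact h7
      rw [h6] at h4
      exact_mod_cast h4
    rw [hcoef, hW, coeff_step, coeff_step, coeff_step0, hA, coeff_mk, coeff_mk, h5, an_zero,
      Nat.cast_one]
    ring
  · intro n ζ hn hζ
    set L : ℂ⟦X⟧ := PowerSeries.mk fun d => (an X 1 d : ℂ) with hL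
    set M : ℂ⟦X⟧ := PowerSeries.mk fun d => (an X n d : ℂ) with hM
    have h4 := h2 n ζ (fx X) L M hn hζ (by rw [hL, coeff_mk, an_zero, Nat.cast_one])
      (by rw [hM, coeff_mk, an_zero, Nat.cast_one])
      (fun d => by
        have h5 := newt h1 X one_pos d
        simp only [hL, coeff_mk]
        simp only [one_mul] at h5
        exact h5)
      (fun d => by
        have h5 := newt h1 X hn d
        simp only [hM, coeff_mk]
        exact h5)
    refine (prod_eval hn hζ (X.q : ℂ) _ L (fun d => (an X n d : ℂ)) _ ?_ ?_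
      (large h1 h3 X hn)).symm
    · have h5 : ((P.map (Int.castRingHom ℂ) : Polynomial ℂ) : ℂ⟦X⟧) =
          PowerSeries.map (Int.castRingHom ℂ) (P : ℤ⟦X⟧) := by
        ext d
        rw [Polynomial.coeff_coe, Polynomial.coeff_map, coeff_map, Polynomial.coeff_coe]
      have h6 : PowerSeries.map (Int.castRingHom ℂ) A = L := by
        ext d
        rw [coeff_map, hA, hL, coeff_mk, coeff_mk]
        simp
      rw [h5, hPW, hW]
      simp only [map_mul, map_sub, map_one, PowerSeries.map_C, PowerSeries.map_X, h6]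
      simp
    · intro d
      rw [h4 d]
      simp only [hM, coeff_mk]

end Pool.Agent.Lib.MP_c385f6_ag.TPG
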