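import Pool.Agent.Lib.MP_c385f6_ag.TPG.AOrd
import Pool.Agent.Lib.MP_c385f6_ag.TPG.AResF
import Pool.Agent.Lib.MP_c385f6_ag.TPG.AWA
import Pool.Agent.Lib.MP_c385f6_ag.TPG.AZero
import Pool.Agent.Lib.MP_c385f6_ag.TPG.ADeg
import Pool.Agent.Lib.MP_c385f6_ag.TPG.ARRF
import Pool.Agent.Lib.MP_c385f6_ag.TPG.ARiem
import Pool.Agent.Lib.MP_c385f6_ag.TPG.ARat
import Pool.Agent.Lib.MP_c385f6_ag.TPG.BAct
import Pool.Agent.Lib.MP_c385f6_ag.TPG.BBd
import Pool.Agent.Lib.MP_c385f6_ag.TPG.BCls
import Pool.Agent.Lib.MP_c385f6_ag.TPG.BCnt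
import Pool.Agent.Lib.MP_c385f6_ag.TPG.BComp
import Pool.Agent.Lib.MP_c385f6_ag.TPG.BDet
import Pool.Agent.Lib.MP_c385f6_ag.TPG.BDvb
import Pool.Agent.Lib.MP_c385f6_ag.TPG.BFin
import Pool.Agent.Lib.MP_c385f6_ag.TPG.BFrob
import Pool.Agent.Lib.MP_c385f6_ag.TPG.BLang
import Pool.Agent.Lib.MP_c385f6_ag.TPG.BNewt
import Pool.Agent.Lib.MP_c385f6_ag.TPG.BNil
import Pool.Agent.Lib.MP_c385f6_ag.TPG.BNorm
import Pool.Agent.Lib.MP_c385f6_ag.TPG.BPS
import Pool.Agent.Lib.MP_c385f6_ag.TPG.BRank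
import Pool.Agent.Lib.MP_c385f6_ag.TPG.BRep
import Pool.Agent.Lib.MP_c385f6_ag.TPG.BSemi
import Pool.Agent.Lib.MP_c385f6_ag.TPG.BZeta

/-!
Project TPG, part B: the final statements without hypotheses.
-/

set_option autoImplicit false

namespace Pool.Agent.Lib.MP_c385f6_ag.TPG.AllB

universe u v

theorem zero : StZero.{u, v} := stZero stOrd stResF stWA
theorem deg : StDeg.{u, v} := stDeg stOrd stResF stWA zero
theorem rrf : StRRF.{u, v} := stRRF stOrd stResF stWA zero deg
theorem riem : StRiem.{u, v} := stRiem stOrd stResF stWA zero deg rrf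
theorem rat : StRat.{u, v} := stRat stOrd zero deg rrf riem
theorem cls : StCls.{v} := stCls stNewt
theorem zeta : StZeta.{v} := stZeta stNewt stPS cls
theorem norm : StNorm.{v} := stNorm stNewt stPS cls
theorem act : StAct.{u, v} := stAct stOrd stResF zero
theorem cnt : StCnt.{u, v} := stCnt stSemi

/-- The divisor classes of degree zero are divisible by `l`. -/
theorem alpha : StAlpha.{u, v} :=
  stAlpha_of stOrd rrf riem stFrobE act cnt stRep zeta stComp stDet (stRank stBd) cls norm stLang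
    stDvb

/-- The Frobenius minus one is onto on the divisor classes of degree zero. -/
theorem gamma : StGamma.{u, v} := stGamma_of stOrd rrf riem act cnt stRep cls norm stLang

/-- There are unramified Kummer extensions, unless the function field is rational. -/
theorem delta : StDelta.{u, v} :=
  stDelta_of stOrd rrf riem rat stFrobE act cnt stRep zeta stComp stDet cls stNil

end Pool.Agent.Lib.MP_c385f6_ag.TPG.AllB
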