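import Pool.Agent.Lib.MP_c385f6_ag.TPG.StE
import Pool.Agent.Lib.MP_c385f6_ag.TPG.AKum

/-!
Project TPG, part E: automorphisms of prime order of a function field.
-/

set_option autoImplicit false

namespace Pool.Agent.Lib.MP_c385f6_ag.TPG

universe u v

namespace ECyc

/-- A Lagrange resolvent. -/
theorem resolvent {F : Type u} {M : Type v} [Field F] [Field M] [Algebra F M] (a : M ≃ₐ[F] M)
    (l : ℕ) (hl : l.Prime) (hal : a ^ l = 1) (ha : a ≠ 1) (c : F) (hc : IsPrimitiveRoot c l) :
    ∃ b : M, b ≠ 0 ∧ a b = algebraMap F M c * b := by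
  have := Fact.mk hl
  have hord : orderOf a = l := orderOf_eq_prime hal ha
  have hc0 : c ≠ 0 := hc.ne_zero hl.ne_zero
  let f : Fin l → (M →* M) := fun i => ((a ^ (i : ℕ) : M ≃ₐ[F] M) : M →* M)
  have hf : Function.Injective f := by
    intro i j hij
    have h1 : a ^ (i : ℕ) = a ^ (j : ℕ) := by
      apply AlgEquiv.ext
      intro x
      exact DFunLike.congr_fun hij x
    have h2 : (i : ℕ) = j :=
      pow_injOn_Iio_orderOf (Set.mem_Iio.2 (by rw [hord]; exact i.2))
        (Set.mem_Iio.2 (by rw [hord]; exact j.2)) h1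
    exact Fin.ext h2
  have hli := (linearIndependent_monoidHom M M).comp f hf
  rw [Fintype.linearIndependent_iff] at hli
  have hex : ∃ z : M, ∑ i : Fin l, algebraMap F M (c⁻¹ ^ (i : ℕ)) * (a ^ (i : ℕ)) z ≠ 0 := by
    by_contra hcon
    push Not at hcon
    have h3 := hli (fun i => algebraMap F M (c⁻¹ ^ (i : ℕ))) (by
      funext z
      have h4 := hcon z
      rw [Finset.sum_apply]
      exact h4) ⟨0, hl.pos⟩
    simp at h3
  obtain ⟨z, hz⟩ := hex
  refine ⟨_, hz, ?_⟩
  have hmem : ∀ n : ℕ, ∑ i : Fin n, algebraMap F M (c⁻¹ ^ (i : ℕ)) * (a ^ (i : ℕ)) z =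
      ∑ i ∈ Finset.range n, algebraMap F M (c⁻¹ ^ i) * (a ^ i) z := fun n =>
    Fin.sum_univ_eq_sum_range (fun i => algebraMap F M (c⁻¹ ^ i) * (a ^ i) z) n
  rw [hmem, map_sum]
  have h5 : ∀ i : ℕ, a (algebraMap F M (c⁻¹ ^ i) * (a ^ i) z) =
      algebraMap F M c * (algebraMap F M (c⁻¹ ^ (i + 1)) * (a ^ (i + 1)) z) := by
    intro i
    rw [map_mul, a.commutes, pow_succ' a i, ← mul_assoc, ← map_mul, pow_succ' c⁻¹ i, ← mul_assoc,
      mul_inv_cancel₀ hc0, one_mul]
    rfl
  rw [Finset.sum_congr rfl fun i _ => h5 i, ← Finset.mul_sum]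
  congr 1
  have h6 := Finset.sum_range_succ (fun i => algebraMap F M (c⁻¹ ^ i) * (a ^ i) z) l
  have h7 := Finset.sum_range_succ' (fun i => algebraMap F M (c⁻¹ ^ i) * (a ^ i) z) l
  have h8 : algebraMap F M (c⁻¹ ^ l) * (a ^ l) z = algebraMap F M (c⁻¹ ^ 0) * (a ^ 0) z := by
    rw [hal, inv_pow, hc.pow_eq_one, inv_one, pow_zero, pow_zero]
  rw [h6, h8] at h7
  exact (add_right_cancel h7).symm

end ECyc

open Kum in
/-- Automorphisms of prime order. -/
theorem stCyc (hO : StOrd.{u, v}) (hOv : StOver.{u, v, v}) (hT : StTrans.{u, v, v})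
    (hFb : StFFb.{u, v, v}) : StCyc.{u, v} := by
  intro F M _ _ _ _ a l hFF hl hl0 hal ha
  classical
  have := Fact.mk hl
  have hord : orderOf a = l := orderOf_eq_prime hal ha
  let H : Subgroup (M ≃ₐ[F] M) := Subgroup.zpowers a
  have hfin : Finite H := by
    have : 0 < orderOf a := by rw [hord]; exact hl.pos
    exact (orderOf_pos_iff.1 this).finite_zpowers
  let W : IntermediateField F M := IntermediateField.fixedField H
  have hW : ∀ z : M, z ∈ W ↔ a z = z := by
    intro z
    rw [IntermediateField.mem_fixedField_iff]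
    constructor
    · intro h
      exact h a (Subgroup.mem_zpowers a)
    · rintro h f ⟨n, rfl⟩
      have h1 : ∀ n : ℕ, (a ^ n) z = z := by
        intro n
        induction n with
        | zero => rfl
        | succ n ih =>
          rw [pow_succ, AlgEquiv.mul_apply, h, ih]
      obtain ⟨n, rfl | rfl⟩ := n.eq_nat_or_neg
      · exact (by simpa using h1 n)
      · have h2 := h1 n
        change (a ^ (-(n : ℤ))) z = z
        rw [zpow_neg, zpow_natCast]
        apply (a ^ n).injective
        rw [← AlgEquiv.mul_apply, mul_inv_cancel]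
        exact h2.symm
  have hfd : FiniteDimensional W M := inferInstanceAs
    (FiniteDimensional (FixedPoints.subfield H M) M)
  have hgal : IsGalois W M := inferInstanceAs (IsGalois (FixedPoints.subfield H M) M)
  have hrank : Module.finrank W M = l := by
    have : Fintype H := Fintype.ofFinite H
    have h1 : Module.finrank (FixedPoints.subfield H M) M = Fintype.card H :=
      FixedPoints.finrank_eq_card H M
    have h2 : Fintype.card H = l := by
      rw [← Nat.card_eq_fintype_card, ← hord]
      exact Nat.card_zpowers a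
    rw [← h2, ← h1]
    rfl
  have hFW : FF F W := hFb F W M hFF
  obtain ⟨-, hbel, e, he1, heo, hesum⟩ := hOv F W M hFW
  have OW := hO F W hFW
  have OM := hO F M hFF
  -- `a` as an automorphism over `W`
  have hcomm : ∀ w : W, a (algebraMap W M w) = algebraMap W M w := fun w => (hW _).1 w.2
  let aW : M ≃ₐ[W] M := AlgEquiv.ofRingEquiv (f := a.toRingEquiv) hcomm
  have haW : ∀ z : M, aW z = a z := fun _ => rfl
  -- the elements of the Galois group are the powers of `aW`
  have hcardG : Nat.card (M ≃ₐ[W] M) = l := by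
    rw [IsGalois.card_aut_eq_finrank, hrank]
  have haWl : aW ^ l = 1 := by
    have : ∀ (n : ℕ) (z : M), (aW ^ n) z = (a ^ n) z := by
      intro n
      induction n with
      | zero => intro z; rfl
      | succ n ih =>
        intro z
        rw [pow_succ, pow_succ, AlgEquiv.mul_apply, AlgEquiv.mul_apply, ih, haW]
    apply AlgEquiv.ext
    intro z
    rw [this, hal]
    rfl
  have haW1 : aW ≠ 1 := by
    intro h
    apply ha
    apply AlgEquiv.ext
    intro z
    rw [← haW, h]
    rfl
  have hordW : orderOf aW = l := by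
    have := Fact.mk hl
    exact orderOf_eq_prime haWl haW1
  have hgen : ∀ s : M ≃ₐ[W] M, ∃ n : ℕ, s = aW ^ n := by
    intro s
    have : Finite (M ≃ₐ[W] M) := Nat.finite_of_card_ne_zero (by rw [hcardG]; exact hl.ne_zero)
    have htop : Subgroup.zpowers aW = ⊤ := by
      apply Subgroup.eq_top_of_card_eq
      rw [Nat.card_zpowers, hordW, hcardG]
    have hs : s ∈ Subgroup.zpowers aW := by rw [htop]; exact Subgroup.mem_top s
    obtain ⟨n, hn⟩ := mem_powers_iff_mem_zpowers.2 hs
    exact ⟨n, hn.symm⟩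
  -- the ramification indices are constant
  have hconst : ∀ (P : Plc F W) (Q Q' : Plc F M), Over P Q → Over P Q' → e Q = e Q' := by
    intro P Q Q' hQ hQ'
    obtain ⟨s, hs⟩ := hT F W M P Q Q' hQ hQ'
    obtain ⟨u, hu0, hu⟩ := OW.unif P
    have h1 := heo P Q hQ u hu0
    have h2 := heo P Q' hQ' u hu0
    have hu0' : algebraMap W M u ≠ 0 :=
      (map_ne_zero_iff _ (algebraMap W M).injective).2 hu0
    have h3 := ord_mv OM OM s.toRingEquiv hs hu0'
    have h4 : s.toRingEquiv (algebraMap W M u) = algebraMap W M u := s.commutes u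
    rw [h4, h1, h2, hu] at h3
    have : (e Q' : ℤ) = e Q := by linarith
    exact_mod_cast this.symm
  have hcount : ∀ (P : Plc F W) (Q : Plc F M), Over P Q →
      ({Q : Plc F M | Over P Q}.ncard * e Q = l) := by
    intro P Q hQ
    obtain ⟨hf, hs⟩ := hesum P
    rw [hrank] at hs
    have h1 : ∑ᶠ (Q' : Plc F M) (_ : Over P Q'), e Q' = ∑ Q' ∈ hf.toFinset, e Q' :=
      finsum_mem_eq_finite_toFinset_sum (s := {Q : Plc F M | Over P Q}) _ hf
    have h2 : ∑ Q' ∈ hf.toFinset, e Q' = ∑ Q' ∈ hf.toFinset, e Q :=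
      Finset.sum_congr rfl fun Q' hQ' => hconst P Q' Q ((Set.Finite.mem_toFinset hf).1 hQ') hQ
    rw [h1, h2, Finset.sum_const, smul_eq_mul] at hs
    rw [Set.ncard_eq_toFinset_card _ hf, hs]
  refine ⟨W, hW, hFW, hrank, ?_, hbel, ?_, ?_⟩
  · intro P
    by_contra hcon
    push Not at hcon
    obtain ⟨-, hs⟩ := hesum P
    have h1 : ∑ᶠ (Q' : Plc F M) (_ : Over P Q'), e Q' = 0 := by
      apply finsum_eq_zero_of_forall_eq_zero
      intro Q
      have : IsEmpty (Over P Q) := ⟨hcon Q⟩
      exact finsum_of_isEmpty _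
    rw [h1, hrank] at hs
    exact hl.ne_zero hs.symm
  · intro P Q hQ
    constructor
    · intro hm
      have hmW : ∀ n : ℕ, Mv (aW ^ n).toRingEquiv Q Q := by
        intro n
        induction n with
        | zero => exact fun z => Iff.rfl
        | succ n ih =>
          intro z
          have h1 : (aW ^ (n + 1)).toRingEquiv z = (aW ^ n).toRingEquiv (a.toRingEquiv z) := by
            change (aW ^ (n + 1)) z = (aW ^ n) (a z)
            rw [pow_succ, AlgEquiv.mul_apply, haW]
          rw [h1, ← ih, ← hm]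
      have huniq : ∀ Q' : Plc F M, Over P Q' → Q' = Q := by
        intro Q' hQ'
        obtain ⟨s, hs⟩ := hT F W M P Q Q' hQ hQ'
        obtain ⟨n, rfl⟩ := hgen s
        apply Plc.ext
        ext z
        obtain ⟨y, rfl⟩ := (aW ^ n).toRingEquiv.surjective z
        rw [← hs y, ← hmW n y]
      refine ⟨?_, huniq⟩
      have h1 := hcount P Q hQ
      have h2 : {Q : Plc F M | Over P Q} = {Q} := by
        ext Q'
        exact ⟨fun h => huniq Q' h, fun h => by rw [Set.mem_singleton_iff.1 h]; exact hQ⟩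
      rw [h2, Set.ncard_singleton, one_mul] at h1
      intro f hf
      have h3 := heo P Q hQ f hf
      rw [h1] at h3
      exact h3
    · intro hm
      have h1 := hcount P Q hQ
      have h2 : mvP aW Q ≠ Q := by
        intro h
        apply hm
        intro z
        have h3 := mv_mvP aW Q z
        rw [h] at h3
        exact h3
      have h3 : Over P (mvP aW Q) := over_mvP aW hQ
      have h4 : 1 < {Q : Plc F M | Over P Q}.ncard := by
        rw [Set.one_lt_ncard_iff (hesum P).1]
        exact ⟨mvP aW Q, Q, h3, hQ, h2⟩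
      have h5 : e Q = 1 := by
        rcases (Nat.dvd_prime hl).1 (Dvd.intro _ h1) with h6 | h6
        · omega
        · rw [h6] at h1
          exact Nat.eq_of_mul_eq_mul_left hl.pos (by rw [h1, mul_one])
      intro f hf
      have h6 := heo P Q hQ f hf
      rw [h5, Nat.cast_one, one_mul] at h6
      exact h6
  · have : NeZero (l : F) := ⟨hl0⟩
    obtain ⟨c, hc⟩ := (IsSepClosed.hasEnoughRootsOfUnity F l).prim
    obtain ⟨b, hb0, hb⟩ := ECyc.resolvent a l hl hal ha c hc
    exact ⟨b, c, hb0, hc, hb⟩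

end Pool.Agent.Lib.MP_c385f6_ag.TPG
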