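import Pool.Agent.Lib.MP_c385f6_ag.TPG.StE

/-!
Project TPG, module E1: inertia elements that are trivial on `Λ` are trivial on all towers.
-/

set_option autoImplicit false

namespace Pool.Agent.Lib.MP_c385f6_ag.TPG

universe u v w

namespace EE1

section Gen

variable {F : Type u} {U : Type v} [Field F] [Field U] [Algebra F U] {T : IntermediateField F U}

/-- the preimage of `N` under the automorphism `a` of `T` -/
def pre (a : T ≃+* T) (ha : ∀ c : F, ∃ c' : F, a (algebraMap F _ c) = algebraMap F _ c')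
    (N : IntermediateField F U) : IntermediateField F U where
  carrier := {z | ∃ hz : z ∈ T, ((a ⟨z, hz⟩ : T) : U) ∈ N}
  mul_mem' := by
    rintro x y ⟨hx, hx'⟩ ⟨hy, hy'⟩
    refine ⟨mul_mem hx hy, ?_⟩
    have h : (⟨x * y, mul_mem hx hy⟩ : T) = ⟨x, hx⟩ * ⟨y, hy⟩ := rfl
    rw [h, map_mul]
    exact mul_mem hx' hy'
  add_mem' := by
    rintro x y ⟨hx, hx'⟩ ⟨hy, hy'⟩
    refine ⟨add_mem hx hy, ?_⟩
    have h : (⟨x + y, add_mem hx hy⟩ : T) = ⟨x, hx⟩ + ⟨y, hy⟩ := rfl
    rw [h, map_add]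
    exact add_mem hx' hy'
  algebraMap_mem' := by
    intro c
    refine ⟨T.algebraMap_mem c, ?_⟩
    obtain ⟨c', hc'⟩ := ha c
    have h : (⟨algebraMap F U c, T.algebraMap_mem c⟩ : T) = algebraMap F T c := rfl
    rw [h, hc']
    exact N.algebraMap_mem c'
  inv_mem' := by
    rintro x ⟨hx, hx'⟩
    refine ⟨T.inv_mem hx, ?_⟩
    have h : (⟨x⁻¹, T.inv_mem hx⟩ : T) = (⟨x, hx⟩ : T)⁻¹ := rfl
    rw [h, map_inv₀]
    exact N.inv_mem hx'

/-- the field fixed by the automorphism `a` of `T` -/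
def fxf (a : T ≃+* T) (ha : ∀ c : F, a (algebraMap F _ c) = algebraMap F _ c) :
    IntermediateField F U where
  carrier := {z | ∃ hz : z ∈ T, a ⟨z, hz⟩ = ⟨z, hz⟩}
  mul_mem' := by
    rintro x y ⟨hx, hx'⟩ ⟨hy, hy'⟩
    refine ⟨mul_mem hx hy, ?_⟩
    have h : (⟨x * y, mul_mem hx hy⟩ : T) = ⟨x, hx⟩ * ⟨y, hy⟩ := rfl
    rw [h, map_mul, hx', hy']
  add_mem' := by
    rintro x y ⟨hx, hx'⟩ ⟨hy, hy'⟩
    refine ⟨add_mem hx hy, ?_⟩
    have h : (⟨x + y, add_mem hx hy⟩ : T) = ⟨x, hx⟩ + ⟨y, hy⟩ := rfl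
    rw [h, map_add, hx', hy']
  algebraMap_mem' := by
    intro c
    exact ⟨T.algebraMap_mem c, ha c⟩
  inv_mem' := by
    rintro x ⟨hx, hx'⟩
    refine ⟨T.inv_mem hx, ?_⟩
    have h : (⟨x⁻¹, T.inv_mem hx⟩ : T) = (⟨x, hx⟩ : T)⁻¹ := rfl
    rw [h, map_inv₀, hx']

theorem mem_pre {a : T ≃+* T} {ha : ∀ c : F, ∃ c' : F, a (algebraMap F _ c) = algebraMap F _ c'}
    {N : IntermediateField F U} {z : T} (h : ((a z : T) : U) ∈ N) : (z : U) ∈ pre a ha N :=
  ⟨z.2, h⟩

theorem of_mem_pre {a : T ≃+* T}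
    {ha : ∀ c : F, ∃ c' : F, a (algebraMap F _ c) = algebraMap F _ c'}
    {N : IntermediateField F U} {z : T} (h : (z : U) ∈ pre a ha N) : ((a z : T) : U) ∈ N :=
  h.2

theorem of_mem_fxf {a : T ≃+* T} {ha : ∀ c : F, a (algebraMap F _ c) = algebraMap F _ c}
    {z : T} (h : (z : U) ∈ fxf a ha) : a z = z := h.2

/-- quotients of `k`-th roots of the same element are constants -/
theorem exists_const [IsAlgClosed F] {x y : T} {k : ℕ} (hk : 0 < k) (hy : y ≠ 0)
    (h : x ^ k = y ^ k) : ∃ c : F, c ^ k = 1 ∧ x = algebraMap F T c * y := by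
  have h1 : (x / y) ^ k = 1 := by
    rw [div_pow, h, div_self (pow_ne_zero _ hy)]
  have hint : IsIntegral F (x / y) := by
    refine IsIntegral.of_pow hk ?_
    rw [h1]
    exact isIntegral_one
  obtain ⟨c, hc⟩ := minpoly.mem_range_of_degree_eq_one F (x / y)
    (IsAlgClosed.degree_eq_one_of_irreducible F (minpoly.irreducible hint))
  refine ⟨c, ?_, ?_⟩
  · apply (algebraMap F T).injective
    rw [map_pow, hc, h1, map_one]
  · rw [hc, div_mul_cancel₀ _ hy]

end Gen

section Tower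

variable {F : Type u} {U : Type v} [Field F] [Field U] [Algebra F U] {p : ℕ}
  {Λ : IntermediateField F U}

theorem le_Tinf {M : IntermediateField F U} (hM : Tow F p Λ M) : M ≤ Tinf F p Λ :=
  le_sSup hM

/-- towers are finitely generated over `Λ` -/
theorem exists_gen {M : IntermediateField F U} (hM : Tow F p Λ M) :
    ∃ S : Set U, S.Finite ∧ M = Λ ⊔ IntermediateField.adjoin F S := by
  induction hM with
  | base => exact ⟨∅, Set.finite_empty, by rw [IntermediateField.adjoin_empty, sup_bot_eq]⟩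
  | step M h n g hM hn hh hg ih =>
    obtain ⟨S, hS, hMS⟩ := ih
    refine ⟨S ∪ {h}, hS.union (Set.finite_singleton h), ?_⟩
    rw [IntermediateField.adjoin_union, ← sup_assoc, ← hMS]

variable {G : Type w} [Group G] {ρ : G →* (Tinf F p Λ ≃+* Tinf F p Λ)}

theorem mul_apply' (s t : G) (z : Tinf F p Λ) : ρ (s * t) z = ρ s (ρ t z) := by
  rw [map_mul]
  rfl

theorem one_apply' (z : Tinf F p Λ) : ρ 1 z = z := by
  rw [map_one]
  rfl

theorem inv_apply' (s : G) (z : Tinf F p Λ) : ρ s⁻¹ (ρ s z) = z := by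
  rw [← mul_apply', inv_mul_cancel, one_apply']

theorem apply_inv' (s : G) (z : Tinf F p Λ) : ρ s (ρ s⁻¹ z) = z := by
  rw [← mul_apply', mul_inv_cancel, one_apply']

/-- the join of all conjugates of a tower is a tower -/
theorem exists_stable [IsAlgClosed F] (hTD : StTwDir.{u, v}) (hTA : StTwAut.{u, v})
    (hFF : FF F Λ) (hpr : PrP p F) (hstab : ∀ s : G, Stb (ρ s) Λ)
    (hcst : ∀ (s : G) (c : F), ∃ c' : F, ρ s (algebraMap F _ c) = algebraMap F _ c')
    (horb : ∀ z : Tinf F p Λ, (Set.range fun s : G => ρ s z).Finite)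
    {M : IntermediateField F U} (hM : Tow F p Λ M) :
    ∃ M' : IntermediateField F U, Tow F p Λ M' ∧ M ≤ M' ∧
      (∀ (s : G) (y : Tinf F p Λ), (y : U) ∈ M' → ((ρ s y : Tinf F p Λ) : U) ∈ M') ∧
      ∀ N : IntermediateField F U, Λ ≤ N →
        (∀ (s : G) (y : Tinf F p Λ), (y : U) ∈ M → ((ρ s y : Tinf F p Λ) : U) ∈ N) → M' ≤ N := by
  classical
  obtain ⟨h1, h2, h3, h4, h5⟩ := hTD F U p Λ hFF hpr
  have hΛT : Λ ≤ Tinf F p Λ := le_Tinf Tow.base
  have hMT : M ≤ Tinf F p Λ := le_Tinf hM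
  have hΛM : Λ ≤ M := (h1 M hM).1
  -- the conjugates
  have hconj : ∀ s : G, ∃ M' : IntermediateField F U, Tow F p Λ M' ∧ M' ≤ Tinf F p Λ ∧
      ∀ z : Tinf F p Λ, (z : U) ∈ M ↔ ((ρ s z : Tinf F p Λ) : U) ∈ M' := by
    intro s
    refine hTA F U p Λ (Tinf F p Λ) (ρ s) hFF hpr hΛT (hcst s) ?_ (hstab s) M hM hMT
    intro c
    obtain ⟨c', hc'⟩ := hcst s⁻¹ c
    refine ⟨c', ?_⟩
    rw [← hc', map_inv]
    rfl
  choose Ms hMs hMsT hMsm using hconj
  obtain ⟨S, hS, hMS⟩ := exists_gen hM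
  have hSM : S ⊆ M := by
    intro x hx
    rw [hMS]
    exact (le_sup_right : IntermediateField.adjoin F S ≤ _) (IntermediateField.subset_adjoin F S hx)
  -- the finite set of all conjugates of elements of `S`
  set X : Set U := {x | ∃ y : Tinf F p Λ, (y : U) ∈ S ∧ ∃ s : G, x = (ρ s y : Tinf F p Λ)} with hX
  have hXfin : X.Finite := by
    have h6 : X ⊆ ⋃ y ∈ ((↑) ⁻¹' S : Set (Tinf F p Λ)),
        (fun z : Tinf F p Λ => (z : U)) '' (Set.range fun s : G => ρ s y) := by
      rintro x ⟨y, hy, s, rfl⟩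
      rw [Set.mem_iUnion₂]
      exact ⟨y, hy, ρ s y, ⟨s, rfl⟩, rfl⟩
    refine Set.Finite.subset ?_ h6
    refine Set.Finite.biUnion (hS.preimage Subtype.val_injective.injOn) ?_
    intro y _
    exact (horb y).image _
  have hXs : ∀ x : X, ∃ s : G, (x : U) ∈ Ms s := by
    rintro ⟨x, y, hy, s, rfl⟩
    exact ⟨s, (hMsm s y).mp (hSM hy)⟩
  choose sx hsx using hXs
  have : Finite X := hXfin
  have := Fintype.ofFinite X
  set B : Finset G := insert 1 (Finset.univ.image sx) with hB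
  set M' : IntermediateField F U := Λ ⊔ B.sup Ms with hM'
  have hMsle : ∀ s ∈ B, Ms s ≤ M' := fun s hs => (Finset.le_sup hs).trans le_sup_right
  have hΛM' : Λ ≤ M' := le_sup_left
  have hTow : ∀ A : Finset G, Tow F p Λ (Λ ⊔ A.sup Ms) := by
    intro A
    induction A using Finset.induction_on with
    | empty => rw [Finset.sup_empty, sup_bot_eq]; exact Tow.base
    | insert a A _ ih =>
      rw [Finset.sup_insert, sup_left_comm]
      exact h2 _ _ (hMs a) ih
  have hK : ∀ (s : G) (y : Tinf F p Λ), (y : U) ∈ M → ((ρ s y : Tinf F p Λ) : U) ∈ M' := by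
    intro s y hy
    have h6 : M ≤ pre (ρ s) (hcst s) M' := by
      rw [hMS]
      refine sup_le ?_ ?_
      · intro x hx
        exact mem_pre (z := ⟨x, hΛT hx⟩) (hΛM' ((hstab s ⟨x, hΛT hx⟩).mp hx))
      · rw [IntermediateField.adjoin_le_iff]
        intro x hx
        have hxX : ((ρ s ⟨x, hMT (hSM hx)⟩ : Tinf F p Λ) : U) ∈ X := ⟨⟨x, hMT (hSM hx)⟩, hx, s, rfl⟩
        refine mem_pre (z := ⟨x, hMT (hSM hx)⟩) ?_
        exact hMsle (sx ⟨_, hxX⟩) (Finset.mem_insert_of_mem (Finset.mem_image_of_mem _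
          (Finset.mem_univ _))) (hsx ⟨_, hxX⟩)
    exact of_mem_pre (h6 hy)
  have hmin : ∀ N : IntermediateField F U, Λ ≤ N →
      (∀ (s : G) (y : Tinf F p Λ), (y : U) ∈ M → ((ρ s y : Tinf F p Λ) : U) ∈ N) → M' ≤ N := by
    intro N hN h6
    refine sup_le hN (Finset.sup_le fun s _ => ?_)
    intro x hx
    have h7 := h6 s (ρ s⁻¹ ⟨x, hMsT s hx⟩) ((hMsm s _).mpr (by rw [apply_inv']; exact hx))
    rwa [apply_inv'] at h7
  refine ⟨M', hTow B, ?_, ?_, hmin⟩
  · intro x hx
    have h6 := hK 1 ⟨x, hMT hx⟩ hx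
    rwa [one_apply'] at h6
  · intro t y hy
    have h6 : M' ≤ pre (ρ t) (hcst t) M' := by
      refine hmin _ ?_ ?_
      · intro x hx
        exact mem_pre (z := ⟨x, hΛT hx⟩) (hΛM' ((hstab t ⟨x, hΛT hx⟩).mp hx))
      · intro s y hy
        refine mem_pre ?_
        rw [← mul_apply']
        exact hK (t * s) y hy
    exact of_mem_pre (h6 hy)

end Tower

end EE1

open EE1

theorem stE1 (hg : StGamma.{u, v}) (hTD : StTwDir.{u, v}) (hTA : StTwAut.{u, v}) :
    StE1.{u, v, w} := by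
  intro F U _ _ _ _ p Λ G _ ρ I P φ hF hFF hE s₀ hs₀ hs₀Λ
  have hcl := hF.closed
  have hchar := hF.char
  have hpr : PrP p F := fun n hn h => hn ((CharP.cast_eq_zero_iff F p n).mp h)
  obtain ⟨h1, h2, h3, h4, h5⟩ := hTD F U p Λ hFF hpr
  have hΛT : Λ ≤ Tinf F p Λ := le_Tinf Tow.base
  have key : ∀ M, Tow F p Λ M → ∀ σ ∈ I, (∀ z : Tinf F p Λ, (z : U) ∈ Λ → ρ σ z = z) →
      ∀ z : Tinf F p Λ, (z : U) ∈ M → ρ σ z = z := by
    intro M hM
    induction hM with
    | base => exact fun σ _ h => h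
    | step M h n g hM hn hh hg' ih =>
      intro σ hσ hσΛ z hz
      have hhT : h ∈ Tinf F p Λ := h4 M n g h hM hn hg' hh
      have hMT : M ≤ Tinf F p Λ := le_Tinf hM
      suffices hmain : ρ σ ⟨h, hhT⟩ = ⟨h, hhT⟩ by
        have h6 : M ⊔ IntermediateField.adjoin F {h} ≤ fxf (ρ σ) (hE.inert σ hσ) := by
          refine sup_le ?_ ?_
          · intro x hx
            exact ⟨hMT hx, ih σ hσ hσΛ ⟨x, hMT hx⟩ hx⟩
          · rw [IntermediateField.adjoin_le_iff, Set.singleton_subset_iff]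
            exact ⟨hhT, hmain⟩
        exact of_mem_fxf (h6 hz)
      obtain ⟨M', hM', hMM', hst, hmin⟩ := exists_stable hTD hTA hFF hpr hE.stab hE.cst hE.orb hM
      have hM'T : M' ≤ Tinf F p Λ := le_Tinf hM'
      have hΛM' : Λ ≤ M' := (h1 M' hM').1
      -- conjugates of elements of `I'`
      have hconjΛ : ∀ τ : G, (∀ z : Tinf F p Λ, (z : U) ∈ Λ → ρ τ z = z) → ∀ t : G,
          ∀ z : Tinf F p Λ, (z : U) ∈ Λ → ρ (t⁻¹ * τ * t) z = z := by
        intro τ hτ t z hz
        rw [mul_apply', mul_apply', hτ _ ((hE.stab t z).mp hz), inv_apply']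
      have hconjI : ∀ τ ∈ I, ∀ t : G, t⁻¹ * τ * t ∈ I := by
        intro τ hτ t
        have := hE.norm.conj_mem τ hτ t⁻¹
        rwa [inv_inv] at this
      -- `I'` is trivial on `M'`
      have htriv : ∀ τ ∈ I, (∀ z : Tinf F p Λ, (z : U) ∈ Λ → ρ τ z = z) →
          ∀ z : Tinf F p Λ, (z : U) ∈ M' → ρ τ z = z := by
        intro τ hτ hτΛ z hz
        have h6 : M' ≤ fxf (ρ τ) (hE.inert τ hτ) := by
          refine hmin _ ?_ ?_
          · intro x hx
            exact ⟨hΛT hx, hτΛ ⟨x, hΛT hx⟩ hx⟩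
          · intro s y hy
            have h7 := ih _ (hconjI τ hτ s) (hconjΛ τ hτΛ s) y hy
            refine ⟨(ρ s y).2, ?_⟩
            have h8 := congrArg (ρ s) h7
            rw [← mul_apply', ← mul_assoc, ← mul_assoc, mul_inv_cancel, one_mul,
              mul_apply'] at h8
            exact h8
        exact of_mem_fxf (h6 hz)
      -- the Frobenius on `M'`
      obtain ⟨f, hf1, hφc, hφI⟩ := hE.frob
      let Φ : M' ≃+* M' :=
        { toFun := fun z => ⟨(ρ φ ⟨z, hM'T z.2⟩ : Tinf F p Λ), hst φ _ z.2⟩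
          invFun := fun z => ⟨(ρ φ⁻¹ ⟨z, hM'T z.2⟩ : Tinf F p Λ), hst φ⁻¹ _ z.2⟩
          left_inv := by
            intro z
            apply Subtype.ext
            have h6 := congrArg (fun y : Tinf F p Λ => (y : U))
              (inv_apply' (ρ := ρ) φ ⟨(z : U), hM'T z.2⟩)
            exact h6
          right_inv := by
            intro z
            apply Subtype.ext
            have h6 := congrArg (fun y : Tinf F p Λ => (y : U))
              (apply_inv' (ρ := ρ) φ ⟨(z : U), hM'T z.2⟩)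
            exact h6
          map_mul' := by
            intro x y
            apply Subtype.ext
            have h6 := congrArg (fun y : Tinf F p Λ => (y : U))
              (map_mul (ρ φ) ⟨(x : U), hM'T x.2⟩ ⟨(y : U), hM'T y.2⟩)
            exact h6
          map_add' := by
            intro x y
            apply Subtype.ext
            have h6 := congrArg (fun y : Tinf F p Λ => (y : U))
              (map_add (ρ φ) ⟨(x : U), hM'T x.2⟩ ⟨(y : U), hM'T y.2⟩)
            exact h6 }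
      have hΦ : ∀ z : M', ((Φ z : M') : U) = (ρ φ ⟨z, hM'T z.2⟩ : Tinf F p Λ) := fun z => rfl
      have hΦc : ∀ c : F, Φ (algebraMap F M' c) = algebraMap F M' (c ^ p ^ f) := by
        intro c
        apply Subtype.ext
        have h6 := congrArg (fun y : Tinf F p Λ => (y : U)) (hφc c)
        exact h6
      have hΦit : ∀ (k : ℕ) (z : M'), (((Φ : M' → M')^[k] z : M') : U) =
          (ρ (φ ^ k) ⟨z, hM'T z.2⟩ : Tinf F p Λ) := by
        intro k z
        induction k with
        | zero =>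
          rw [pow_zero, one_apply']
          rfl
        | succ k ihk =>
          rw [Function.iterate_succ_apply', hΦ, pow_succ', mul_apply']
          congr 2
          exact Subtype.ext ihk
      have hΦorb : ∀ z : M', ∃ m : ℕ, 0 < m ∧ (Φ : M' → M')^[m] z = z := by
        intro z
        have hfin := hE.orb ⟨(z : U), hM'T z.2⟩
        obtain ⟨i, j, hij, he⟩ : ∃ i j : ℕ, i < j ∧ ρ (φ ^ i) ⟨(z : U), hM'T z.2⟩ =
            ρ (φ ^ j) ⟨(z : U), hM'T z.2⟩ := by
          have h6 : ¬ Function.Injective fun i : ℕ => ρ (φ ^ i) ⟨(z : U), hM'T z.2⟩ := by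
            intro hinj
            refine Set.infinite_range_of_injective hinj (hfin.subset ?_)
            rintro _ ⟨i, rfl⟩
            exact ⟨φ ^ i, rfl⟩
          rw [Function.Injective] at h6
          push Not at h6
          obtain ⟨i, j, he, hne⟩ := h6
          rcases lt_or_gt_of_ne hne with hlt | hlt
          · exact ⟨i, j, hlt, he⟩
          · exact ⟨j, i, hlt, he.symm⟩
        refine ⟨j - i, Nat.sub_pos_of_lt hij, ?_⟩
        apply Subtype.ext
        rw [hΦit]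
        have h6 : ρ (φ ^ i) (ρ (φ ^ (j - i)) ⟨(z : U), hM'T z.2⟩) =
            ρ (φ ^ i) ⟨(z : U), hM'T z.2⟩ := by
          rw [← mul_apply', ← pow_add, Nat.add_sub_cancel' hij.le, ← he]
        have h7 := (ρ (φ ^ i)).injective h6
        rw [h7]
      -- (gamma)
      obtain ⟨m, g', v, hnm, hg'D, hv, hrel⟩ := hg F M' p f hF (h1 M' hM').2.1 hf1 Φ hΦc hΦorb n
        ⟨(g : U), hMM' g.2⟩ hn (h5 M M' n g ⟨(g : U), hMM' g.2⟩ hM hM' hMM' rfl hg')
      have hnm0 : 0 < n * m := Nat.pos_of_ne_zero (by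
        intro h0
        rw [h0] at hnm
        exact hnm (dvd_zero p))
      have hn0 : 0 < n := Nat.pos_of_ne_zero (by
        rintro rfl
        exact hn (dvd_zero p))
      have hUcl : IsAlgClosed U := inferInstance
      obtain ⟨η₀, hη₀⟩ := IsAlgClosed.exists_pow_nat_eq (g' : U) hnm0
      have hη₀T : η₀ ∈ Tinf F p Λ := h4 M' (n * m) g' η₀ hM' hnm hg'D hη₀
      -- everything in `Tinf`
      set hh' : Tinf F p Λ := ⟨h, hhT⟩ with hhh'
      set gT : Tinf F p Λ := ⟨(g : U), hMT g.2⟩ with hgT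
      set vT : Tinf F p Λ := ⟨(v : U), hM'T v.2⟩ with hvT
      set η : Tinf F p Λ := ⟨η₀, hη₀T⟩ with hη
      set gT' : Tinf F p Λ := ⟨(g' : U), hM'T g'.2⟩ with hgT'
      have e1 : hh' ^ n = gT := Subtype.ext hh
      have e2 : η ^ (n * m) = gT' := Subtype.ext hη₀
      have e3 : ρ φ gT' = gT ^ m * vT ^ (n * m) * gT' := by
        apply Subtype.ext
        have h6 := congrArg Subtype.val hrel
        exact h6.symm
      have hg0 : gT ≠ 0 := by
        intro h6
        apply hg'.1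
        have h7 := congrArg (fun y : Tinf F p Λ => (y : U)) h6
        exact Subtype.ext h7
      have hv0 : vT ≠ 0 := by
        intro h6
        apply hv
        have h7 := congrArg (fun y : Tinf F p Λ => (y : U)) h6
        exact Subtype.ext h7
      have hgT'0 : gT' ≠ 0 := by
        intro h6
        apply hg'D.1
        have h7 := congrArg (fun y : Tinf F p Λ => (y : U)) h6
        exact Subtype.ext h7
      have hh0 : hh' ≠ 0 := by
        intro h6
        rw [h6, zero_pow hn0.ne'] at e1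
        exact hg0 e1.symm
      have hη0 : η ≠ 0 := by
        intro h6
        rw [h6, zero_pow hnm0.ne'] at e2
        exact hgT'0 e2.symm
      have e4 : (ρ φ η) ^ (n * m) = (hh' * vT * η) ^ (n * m) := by
        rw [← map_pow, e2, e3, mul_pow, mul_pow, e2, ← e1, ← pow_mul]
      obtain ⟨ζ, -, hζ⟩ := exists_const hnm0 (mul_ne_zero (mul_ne_zero hh0 hv0) hη0) e4
      have e5 : (ρ σ hh') ^ n = hh' ^ n := by
        rw [← map_pow, e1]
        exact ih σ hσ hσΛ gT g.2
      obtain ⟨z₁, -, hz₁⟩ := exists_const hn0 hh0 e5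
      have e6 : ∀ τ ∈ I, (∀ z : Tinf F p Λ, (z : U) ∈ Λ → ρ τ z = z) →
          ∃ c : F, c ^ (n * m) = 1 ∧ ρ τ η = algebraMap F _ c * η := by
        intro τ hτ hτΛ
        apply exists_const hnm0 hη0
        rw [← map_pow, e2]
        exact htriv τ hτ hτΛ gT' g'.2
      -- powers
      have hpow : ∀ τ ∈ I, ∀ c : F, ρ τ η = algebraMap F _ c * η → ∀ k : ℕ,
          ρ (τ ^ k) η = algebraMap F _ (c ^ k) * η := by
        intro τ hτ c hc k
        induction k with
        | zero => rw [pow_zero, one_apply', pow_zero, map_one, one_mul]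
        | succ k ihk =>
          rw [pow_succ', mul_apply', ihk, map_mul, hE.inert τ hτ, hc, pow_succ, map_mul]
          ring
      set σ₁ : G := φ⁻¹ * σ * φ with hσ₁
      have hσ₁I : σ₁ ∈ I := hconjI σ hσ φ
      have hσ₁Λ : ∀ z : Tinf F p Λ, (z : U) ∈ Λ → ρ σ₁ z = z := hconjΛ σ hσΛ φ
      obtain ⟨z₂, hz₂, hz₂'⟩ := e6 σ₁ hσ₁I hσ₁Λ
      set ω : G := φ * σ₁ * φ⁻¹ * (σ₁ ^ p ^ f)⁻¹ with hω
      have hωP : ω ∈ P := hφI σ₁ hσ₁I
      have hωI : ω ∈ I := hE.le hωP
      have hωσ : ω * σ₁ ^ p ^ f = σ := by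
        rw [hω, hσ₁]
        group
      have hωΛ : ∀ z : Tinf F p Λ, (z : U) ∈ Λ → ρ ω z = z := by
        intro z hz
        have h6 : ∀ k : ℕ, ρ (σ₁ ^ k) z = z := by
          intro k
          induction k with
          | zero => rw [pow_zero, one_apply']
          | succ k ihk => rw [pow_succ', mul_apply', ihk, hσ₁Λ z hz]
        have h7 : ω = σ * (σ₁ ^ p ^ f)⁻¹ := by rw [← hωσ, mul_inv_cancel_right]
        have h8 : ρ (σ₁ ^ p ^ f)⁻¹ z = z := by
          conv_lhs => rw [← h6 (p ^ f)]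
          rw [inv_apply']
        rw [h7, mul_apply', h8, hσΛ z hz]
      obtain ⟨z₃, hz₃, hz₃'⟩ := e6 ω hωI hωΛ
      obtain ⟨N, hN⟩ := hE.wild ω hωP η
      have hz₃1 : z₃ = 1 := by
        have h6 := hpow ω hωI z₃ hz₃' (p ^ N)
        rw [hN] at h6
        have h7 : (algebraMap F (Tinf F p Λ)) (z₃ ^ p ^ N) = 1 := by
          apply mul_right_cancel₀ hη0
          rw [← h6, one_mul]
        have h8 : z₃ ^ p ^ N = 1 := by
          apply (algebraMap F (Tinf F p Λ)).injective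
          rw [h7, map_one]
        have hcop : Nat.Coprime (p ^ N) (n * m) :=
          Nat.Coprime.pow_left N ((Nat.Prime.coprime_iff_not_dvd hF.prime).mpr hnm)
        have h9 := orderOf_dvd_of_pow_eq_one h8
        have h10 := orderOf_dvd_of_pow_eq_one hz₃
        have h11 : orderOf z₃ = 1 := Nat.eq_one_of_dvd_coprimes hcop h9 h10
        exact orderOf_eq_one_iff.mp h11
      have e7 : ρ σ η = algebraMap F _ (z₂ ^ p ^ f) * η := by
        rw [← hωσ, mul_apply', hpow σ₁ hσ₁I z₂ hz₂', map_mul, hE.inert ω hωI, hz₃', hz₃1, map_one,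
          one_mul]
      have e8 : ρ σ (ρ φ η) = ρ φ (ρ σ₁ η) := by
        rw [← mul_apply', ← mul_apply', hσ₁]
        congr 2
        group
      have e9 : ρ σ vT = vT := htriv σ hσ hσΛ vT v.2
      rw [hz₂', map_mul, hφc, hζ, map_mul, hE.inert σ hσ, map_mul, map_mul, hz₁, e9, e7] at e8
      have hz₂0 : z₂ ≠ 0 := by
        rintro rfl
        rw [zero_pow hnm0.ne'] at hz₂
        exact zero_ne_one hz₂
      have hζ0 : algebraMap F (Tinf F p Λ) ζ ≠ 0 := by
        intro h6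
        rw [h6, zero_mul] at hζ
        exact hη0 ((ρ φ).injective (by rw [hζ, map_zero]))
      have hq0 : algebraMap F (Tinf F p Λ) (z₂ ^ p ^ f) ≠ 0 := by
        rw [Ne, FaithfulSMul.algebraMap_eq_zero_iff]
        exact pow_ne_zero _ hz₂0
      have e10 : algebraMap F (Tinf F p Λ) z₁ = 1 := by
        have h6 : algebraMap F (Tinf F p Λ) ζ * algebraMap F (Tinf F p Λ) (z₂ ^ p ^ f) * vT * hh' *
            η ≠ 0 := mul_ne_zero (mul_ne_zero (mul_ne_zero (mul_ne_zero hζ0 hq0) hv0) hh0) hη0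
        apply mul_right_cancel₀ h6
        linear_combination e8
      rw [hz₁, e10, one_mul]
  apply RingEquiv.ext
  intro z
  obtain ⟨M, hM, hzM⟩ := (h3 z).mp z.2
  exact key M hM s₀ hs₀ hs₀Λ z hzM

end Pool.Agent.Lib.MP_c385f6_ag.TPG
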