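import Pool.Agent.Lib.MP_c385f6_ag.TPG.StE

/-!
Project TPG, E2: there is `t ∈ I` of prime order on the towers, whose conjugates act as powers
of `t`.
-/

set_option autoImplicit false

namespace Pool.Agent.Lib.MP_c385f6_ag.TPG

universe u v w

theorem stE2 : StE2.{u, v, w} := by
  intro F U _ _ _ _ p Λ G _ ρ I P φ hF _ hD hE1
  obtain ⟨t0, ht0, e, hpe, hte, hgen⟩ := hD.cyc
  have he0 : e ≠ 0 := fun h => hpe (h ▸ dvd_zero p)
  -- the power `t0 ^ e` acts trivially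
  have hpow : ρ t0 ^ e = 1 := by
    rw [← map_pow]
    exact hE1 _ (I.pow_mem ht0 e) hte
  -- every element of `I` acts as a power of `t0`
  have hall : ∀ s ∈ I, ∃ j : ℕ, ρ s = ρ t0 ^ j := by
    intro s hs
    obtain ⟨j, hj⟩ := hgen s hs
    refine ⟨j, ?_⟩
    have h1 : ρ ((t0 ^ j)⁻¹ * s) = 1 := by
      refine hE1 _ (I.mul_mem (I.inv_mem (I.pow_mem ht0 j)) hs) ?_
      intro z hz
      rw [map_mul, map_inv]
      show (ρ (t0 ^ j))⁻¹ (ρ s z) = z
      rw [hj z hz]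
      show ((ρ (t0 ^ j))⁻¹ * ρ (t0 ^ j)) z = z
      rw [inv_mul_cancel]
      rfl
    rw [map_mul, map_inv, inv_mul_eq_one] at h1
    rw [← h1, map_pow]
  -- `t0` acts non trivially
  have hne : ρ t0 ≠ 1 := by
    intro h
    obtain ⟨s, hs, z, -, hsz⟩ := hD.ram
    obtain ⟨j, hj⟩ := hall s hs
    rw [h, one_pow] at hj
    apply hsz
    rw [hj]
    rfl
  set m := orderOf (ρ t0) with hm
  have hme : m ∣ e := orderOf_dvd_of_pow_eq_one hpow
  have hm0 : m ≠ 0 := fun h => he0 (by rw [h] at hme; exact zero_dvd_iff.mp hme)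
  have hm1 : m ≠ 1 := fun h => hne (orderOf_eq_one_iff.mp h)
  set l := m.minFac with hl
  have hlp : l.Prime := Nat.minFac_prime hm1
  have hlm : l ∣ m := Nat.minFac_dvd m
  obtain ⟨k, hk⟩ := hlm
  have hk0 : k ≠ 0 := fun h => hm0 (by rw [hk, h, mul_zero])
  have hord : ρ t0 ^ m = 1 := pow_orderOf_eq_one _
  have hρt : ρ (t0 ^ k) ≠ 1 := by
    intro h
    rw [map_pow] at h
    have h1 : m ∣ k := orderOf_dvd_of_pow_eq_one h
    have h2 := Nat.le_of_dvd (Nat.pos_of_ne_zero hk0) h1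
    rw [hk] at h2
    have h3 := hlp.two_le
    nlinarith [Nat.pos_of_ne_zero hk0]
  have htI : t0 ^ k ∈ I := I.pow_mem ht0 k
  have htl : ρ (t0 ^ k) ^ l = 1 := by
    rw [map_pow, ← pow_mul, mul_comm k l, ← hk, hord]
  refine ⟨t0 ^ k, htI, l, ⟨hlp, ?_, hD.inert _ htI, hD.stab _, htl, ?_⟩, ?_⟩
  · rintro h
    exact hpe (h ▸ (Dvd.intro k hk.symm : l ∣ m).trans hme)
  · by_contra hcon
    push Not at hcon
    exact hρt (hE1 _ htI hcon)
  · intro s
    obtain ⟨j, hj⟩ := hall (s * t0 ^ k * s⁻¹) (hD.norm.conj_mem _ htI s)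
    have h1 : ρ t0 ^ (j * l) = 1 := by
      rw [pow_mul, ← hj, map_mul, map_mul, map_inv, conj_pow, htl, mul_one, mul_inv_cancel]
    have h2 : m ∣ j * l := orderOf_dvd_of_pow_eq_one h1
    rw [hk, mul_comm l k] at h2
    obtain ⟨i, hi⟩ := Nat.dvd_of_mul_dvd_mul_right hlp.pos h2
    refine ⟨i, ?_⟩
    rw [hj, hi, pow_mul, map_pow, map_pow]

end Pool.Agent.Lib.MP_c385f6_ag.TPG
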