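import Pool.Agent.Lib.MP_c385f6_ag.TPG.StE

/-!
Project TPG, part E, module E3: the automorphism of order `l` fixes a place of every stable tower,
and finitely many.
-/

set_option autoImplicit false

namespace Pool.Agent.Lib.MP_c385f6_ag.TPG

universe u v

namespace E3Aux

section

variable {F : Type u} {U : Type v} [Field F] [Field U] [Algebra F U] {p : ℕ}
  {Λ : IntermediateField F U}

/-- the restriction of `a` to a stable subfield -/
noncomputable def rs (a : Tinf F p Λ ≃+* Tinf F p Λ) (M : IntermediateField F U)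
    (hM : M ≤ Tinf F p Λ) (hs : Stb a M)
    (hc : ∀ c : F, a (algebraMap F _ c) = algebraMap F _ c) : M ≃ₐ[F] M where
  toFun z := ⟨(a ⟨z, hM z.2⟩ : Tinf F p Λ), (hs ⟨z, hM z.2⟩).1 z.2⟩
  invFun z := ⟨(a.symm ⟨z, hM z.2⟩ : Tinf F p Λ),
    (hs (a.symm ⟨z, hM z.2⟩)).2 (by rw [a.apply_symm_apply]; exact z.2)⟩
  left_inv z := Subtype.ext (congrArg (fun z : Tinf F p Λ => (z : U))
    (a.symm_apply_apply ⟨z, hM z.2⟩))
  right_inv z := Subtype.ext (congrArg (fun z : Tinf F p Λ => (z : U))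
    (a.apply_symm_apply ⟨z, hM z.2⟩))
  map_mul' x y := Subtype.ext (congrArg (fun z : Tinf F p Λ => (z : U))
    (map_mul a (⟨x, hM x.2⟩ : Tinf F p Λ) ⟨y, hM y.2⟩))
  map_add' x y := Subtype.ext (congrArg (fun z : Tinf F p Λ => (z : U))
    (map_add a (⟨x, hM x.2⟩ : Tinf F p Λ) ⟨y, hM y.2⟩))
  commutes' c := Subtype.ext (congrArg (fun z : Tinf F p Λ => (z : U)) (hc c))

variable {a : Tinf F p Λ ≃+* Tinf F p Λ} {M : IntermediateField F U} (hM : M ≤ Tinf F p Λ)
  (hs : Stb a M) (hc : ∀ c : F, a (algebraMap F _ c) = algebraMap F _ c)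

theorem rs_apply (z : M) :
    ((rs a M hM hs hc z : M) : U) = (a ⟨z, hM z.2⟩ : Tinf F p Λ) := rfl

theorem rs_pow (n : ℕ) (z : M) :
    (((rs a M hM hs hc ^ n) z : M) : U) = ((a ^ n) ⟨z, hM z.2⟩ : Tinf F p Λ) := by
  induction n generalizing z with
  | zero => rfl
  | succ n ih =>
    rw [pow_succ, pow_succ, AlgEquiv.mul_apply, RingAut.mul_apply, ih]
    rfl

theorem mvT_iff (x : Plc F M) :
    MvT a x x ↔ Mv (rs a M hM hs hc).toRingEquiv x x := by
  constructor
  · intro h z
    exact h z _ ⟨z, hM z.2⟩ rfl rfl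
  · rintro h z z' ⟨y, hy⟩ rfl hz'
    have h1 := h z
    have h2 : (rs a M hM hs hc).toRingEquiv z = z' := Subtype.ext hz'
    rw [h2] at h1
    exact h1

end

/-- powers -/
theorem ord_pow {F : Type u} {W : Type v} [Field F] [Field W] [Algebra F W] (hO : OrdF F W)
    (P : Plc F W) (x : W) (hx : x ≠ 0) (n : ℕ) : ord P (x ^ n) = n * ord P x := by
  induction n with
  | zero =>
    have h1 := hO.mul P 1 1 one_ne_zero one_ne_zero
    rw [mul_one] at h1
    rw [pow_zero, Nat.cast_zero, zero_mul]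
    linarith
  | succ n ih =>
    rw [pow_succ, hO.mul P _ _ (pow_ne_zero _ hx) hx, ih]
    push_cast
    ring

/-- a nontrivial automorphism has finitely many fixed places -/
theorem fin {F : Type u} {M : Type v} [Field F] [IsAlgClosed F] [Field M] [Algebra F M]
    (hResF : StResF.{u, v}) (hZero : StZero.{u, v}) (hOrd : StOrd.{u, v}) (hFF : FF F M)
    (s : M ≃ₐ[F] M) (hs : s ≠ 1) : {x : Plc F M | Mv s.toRingEquiv x x}.Finite := by
  have hO := hOrd F M hFF
  obtain ⟨f, hf⟩ : ∃ f : M, s f ≠ f := by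
    by_contra hcon
    push Not at hcon
    exact hs (AlgEquiv.ext hcon)
  have hf0 : f ≠ 0 := by
    rintro rfl
    exact hf (map_zero s)
  have hd : s f - f ≠ 0 := sub_ne_zero.2 hf
  refine (((hZero F M hFF).2 f hf0).union ((hZero F M hFF).2 _ hd)).subset fun x hx => ?_
  by_cases h1 : 0 ≤ ord x f
  · right
    have h2 : f ∈ x.ring := (hO.mem x f hf0).2 h1
    obtain ⟨c, hc⟩ := hResF F M hFF x f h2
    set m := f - algebraMap F M c with hm
    have h3 : x.ring.valuation (s m) < 1 := by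
      rcases eq_or_ne m 0 with h0 | h0
      · rw [h0, map_zero, map_zero]
        exact zero_lt_one
      · have hsm : s m ≠ 0 := by
          intro h
          exact h0 ((map_eq_zero s).1 h)
        have h4 : m⁻¹ ∉ x.ring := by
          rw [← x.ring.valuation_le_one_iff, map_inv₀, not_le]
          exact (one_lt_inv₀ ((Valuation.pos_iff _).2 h0)).2 hc
        have h5 : (s m)⁻¹ ∉ x.ring := by
          intro h
          rw [← map_inv₀] at h
          exact h4 ((hx m⁻¹).2 h)
        rw [← x.ring.valuation_le_one_iff, map_inv₀, not_le] at h5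
        exact (one_lt_inv₀ ((Valuation.pos_iff _).2 hsm)).1 h5
    have h6 : s f - f = s m - m := by
      rw [hm, map_sub, s.commutes]
      ring
    have h7 : x.ring.valuation (s f - f) < 1 := by
      rw [h6]
      exact lt_of_le_of_lt (Valuation.map_sub _ _ _) (max_lt h3 hc)
    exact ((hO.lt x _ hd).1 h7).ne'
  · left
    exact fun h => h1 h.ge

end E3Aux

open E3Aux

/-- Module E3. -/
theorem stE3 (hAl : StAlpha.{u, v}) (hCyc : StCyc.{u, v}) (hTD : StTwDir.{u, v})
    (hOrd : StOrd.{u, v}) (hResF : StResF.{u, v}) (hZero : StZero.{u, v})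
    (hRRF : StRRF.{u, v}) : StE3.{u, v} := by
  intro F U _ _ _ _ p l Λ a hp hFF hG M hT hS
  have hcl : IsAlgClosed F := hp.closed
  have hch : CharP F p := hp.char
  have hlF : (l : F) ≠ 0 := by
    intro h
    have h1 := (CharP.cast_eq_zero_iff F p l).1 h
    exact hG.ne ((Nat.prime_dvd_prime_iff_eq hp.prime hG.prime).1 h1).symm
  have hPrP : PrP p F := by
    intro n hn h
    exact hn ((CharP.cast_eq_zero_iff F p n).1 h)
  obtain ⟨t1, -, -, t4, -⟩ := hTD F U p Λ hFF hPrP
  obtain ⟨hΛM, hFFM, -⟩ := t1 M hT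
  have hM : M ≤ Tinf F p Λ := le_sSup hT
  set s : M ≃ₐ[F] M := rs a M hM hS hG.cst with hs
  have hs1 : s ≠ 1 := by
    obtain ⟨z, hz, hz'⟩ := hG.ram
    intro h
    apply hz'
    have h1 : ((s ⟨z, hΛM hz⟩ : M) : U) = z := by rw [h]; rfl
    exact Subtype.ext h1
  have hsl : s ^ l = 1 := by
    refine AlgEquiv.ext fun z => Subtype.ext ?_
    rw [hs, rs_pow, hG.pow]
    rfl
  have hset : {x : Plc F M | MvT a x x} = {x : Plc F M | Mv s.toRingEquiv x x} := by
    ext x
    exact mvT_iff hM hS hG.cst x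
  rw [hset]
  refine ⟨?_, fin hResF hZero hOrd hFFM s hs1⟩
  by_contra hne
  rw [Set.not_nonempty_iff_eq_empty] at hne
  have hno : ∀ Q : Plc F M, ¬ Mv s.toRingEquiv Q Q := by
    intro Q hQ
    have : Q ∈ {x : Plc F M | Mv s.toRingEquiv x x} := hQ
    rw [hne] at this
    exact this
  obtain ⟨W, hW, hFFW, -, hab, hbe, hor, b, c, hb, hcp, hbc⟩ :=
    hCyc F M s l hFFM hG.prime hlF hsl hs1
  have hOW := hOrd F W hFFW
  have hOM := hOrd F M hFFM
  have hR := hRRF F W hFFW
  have hbl : b ^ l ∈ W := by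
    rw [hW, map_pow, hbc, mul_pow, ← map_pow, hcp.pow_eq_one, map_one, one_mul]
  set β : W := ⟨b ^ l, hbl⟩ with hβ
  have hβ0 : β ≠ 0 := by
    intro h
    exact pow_ne_zero l hb (congrArg Subtype.val h)
  have hl0 : (l : ℤ) ≠ 0 := by exact_mod_cast hG.prime.ne_zero
  -- the order of `b`
  have hob : ∀ (P : Plc F W) (Q : Plc F M), Over P Q → (l : ℤ) * ord Q b = ord P β := by
    intro P Q hPQ
    rw [← (hor P Q hPQ).2 (hno Q) β hβ0, hβ]
    exact (ord_pow hOM Q b hb l).symm
  let D : Dv F W := (dv β : Dv F W).mapRange (fun n => n / (l : ℤ)) (Int.zero_ediv _)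
  have hD : ∀ (P : Plc F W) (Q : Plc F M), Over P Q → D P = ord Q b := by
    intro P Q hPQ
    change (dv β : Dv F W) P / (l : ℤ) = ord Q b
    rw [hR.dv_apply β P hβ0, ← hob P Q hPQ, Int.mul_ediv_cancel_left _ hl0]
  have hlD : (l : ℤ) • D = dv β := by
    ext P
    obtain ⟨Q, hPQ⟩ := hab P
    rw [Finsupp.smul_apply, hD P Q hPQ, hR.dv_apply β P hβ0, ← hob P Q hPQ, smul_eq_mul]
  have hdg : dg D = 0 := by
    have h1 : dg ((l : ℤ) • D) = (l : ℤ) * dg D := by
      unfold dg
      rw [Finsupp.sum_smul_index (fun _ => rfl), Finsupp.mul_sum]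
    rw [hlD, hR.dg_dv β hβ0] at h1
    exact (mul_eq_zero.1 h1.symm).resolve_left hl0
  obtain ⟨v, hv, hvD⟩ := hAl F W p l hp hFFW hG.prime hG.ne D hdg
  have hvM : ((v : W) : M) ≠ 0 := fun h => hv (Subtype.ext h)
  set y : M := b / (v : M) with hy
  have hy0 : y ≠ 0 := div_ne_zero hb hvM
  have hyD : y ∈ Dn F l := by
    refine ⟨hy0, fun Q => ?_⟩
    obtain ⟨P, hPQ⟩ := hbe Q
    have h1 : ord Q b = ord Q y + ord Q (v : M) := by
      rw [← hOM.mul Q y v hy0 hvM, hy, div_mul_cancel₀ _ hvM]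
    have h2 := (hor P Q hPQ).2 (hno Q) v hv
    have h3 := hD P Q hPQ
    have h4 : ord Q y = -(ord P v - D P) := by linarith
    rw [h4]
    exact (hvD P).neg_right
  have hlp : ¬ p ∣ l := fun h => hG.ne ((Nat.prime_dvd_prime_iff_eq hp.prime hG.prime).1 h).symm
  obtain ⟨η, hη⟩ := IsAlgClosed.exists_pow_nat_eq (y : U) hG.prime.pos
  have hηT := t4 M l y η hT hlp hyD hη
  set h : Tinf F p Λ := ⟨η, hηT⟩ with hh
  have hη0 : η ≠ 0 := by
    rintro rfl
    rw [zero_pow hG.prime.ne_zero] at hη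
    exact hy0 (Subtype.ext hη.symm)
  have hh0 : h ≠ 0 := fun e => hη0 (congrArg Subtype.val e)
  have hsy : s y = algebraMap F M c * y := by
    rw [hy, map_div₀, hbc, (hW v).1 v.2]
    exact mul_div_assoc _ _ _
  have hal : (a h) ^ l = algebraMap F _ c * h ^ l := by
    have h1 : h ^ l = ⟨(y : U), hM y.2⟩ := Subtype.ext hη
    rw [← map_pow, h1]
    have h2 := congrArg (fun z : M => (z : U)) hsy
    exact Subtype.ext h2
  have hξ : (a h / h) ^ l = algebraMap F _ c := by
    rw [div_pow, hal, mul_div_cancel_right₀ _ (pow_ne_zero _ hh0)]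
  have hint : IsIntegral F (a h / h) := by
    refine IsIntegral.of_pow hG.prime.pos ?_
    rw [hξ]
    exact isIntegral_algebraMap
  obtain ⟨ξ, hξ'⟩ : ∃ ξ : F, algebraMap F (Tinf F p Λ) ξ = a h / h := by
    have h1 := IsAlgClosed.degree_eq_one_of_irreducible F (minpoly.irreducible hint)
    exact minpoly.mem_range_of_degree_eq_one F _ h1
  have hah : a h = algebraMap F _ ξ * h := by
    rw [hξ', div_mul_cancel₀ _ hh0]
  have hpow : ∀ n : ℕ, (a ^ n) h = algebraMap F _ (ξ ^ n) * h := by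
    intro n
    induction n with
    | zero => simp
    | succ n ih =>
      rw [pow_succ, RingAut.mul_apply, hah, map_mul, ih]
      have h1 : ∀ m : ℕ, (a ^ m) (algebraMap F _ ξ) = algebraMap F _ ξ := by
        intro m
        induction m with
        | zero => rfl
        | succ m ih => rw [pow_succ, RingAut.mul_apply, hG.cst, ih]
      rw [h1, pow_succ, map_mul]
      ring
  have hfin := hpow l
  rw [hG.pow] at hfin
  have h1 : ξ ^ l = c := by
    apply (algebraMap F (Tinf F p Λ)).injective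
    rw [map_pow, hξ', hξ]
  rw [h1] at hfin
  have h2 : algebraMap F (Tinf F p Λ) c = 1 := by
    have h3 : (1 : Tinf F p Λ) * h = algebraMap F _ c * h := by
      rw [one_mul]
      exact hfin
    exact (mul_right_cancel₀ hh0 h3).symm
  have h4 : c = 1 := by
    apply (algebraMap F (Tinf F p Λ)).injective
    rw [h2, map_one]
  rw [h4] at hcp
  exact hG.prime.one_lt.ne' (hcp.unique IsPrimitiveRoot.one)

end Pool.Agent.Lib.MP_c385f6_ag.TPG
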