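import Pool.Agent.Lib.MP_c385f6_ag.TPG.StE

/-!
Project TPG, E4: compactness.
-/

set_option autoImplicit false

namespace Pool.Agent.Lib.MP_c385f6_ag.TPG

universe u v

namespace E4Aux

/-- elements of an extension of finite relative degree are integral -/
theorem integral_of_relfinrank {K : Type u} {E : Type v} [Field K] [Field E] [Algebra K E]
    {A B : IntermediateField K E} (hAB : A ≤ B) (h : IntermediateField.relfinrank A B ≠ 0)
    (z : B) : (IntermediateField.inclusion hAB).toRingHom.IsIntegralElem z := by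
  rw [IntermediateField.relfinrank_eq_finrank_of_le hAB] at h
  have hfin : Module.Finite A (IntermediateField.extendScalars hAB) :=
    Module.finite_of_finrank_pos (Nat.pos_of_ne_zero h)
  let z' : IntermediateField.extendScalars hAB := ⟨z, z.2⟩
  obtain ⟨P, hP, hP'⟩ := IsIntegral.of_finite A z'
  refine ⟨P, hP, ?_⟩
  have h1 : Polynomial.eval₂ (algebraMap A E) (z : E) P = 0 := by
    have h2 := congrArg (algebraMap (IntermediateField.extendScalars hAB) E) hP'
    rw [Polynomial.hom_eval₂, map_zero] at h2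
    exact h2
  apply Subtype.val_injective
  have h3 := Polynomial.hom_eval₂ P (IntermediateField.inclusion hAB).toRingHom
    (algebraMap B E) z
  change algebraMap B E _ = (0 : E)
  rw [h3]
  exact h1

/-- a valuation ring that contains the smaller field contains everything -/
theorem top_of_contains {K : Type u} {E : Type v} [Field K] [Field E] [Algebra K E]
    {A B : IntermediateField K E} (hAB : A ≤ B) (h : IntermediateField.relfinrank A B ≠ 0)
    (V : ValuationSubring B) (hV : ∀ x : A, IntermediateField.inclusion hAB x ∈ V) : V = ⊤ := by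
  rw [eq_top_iff]
  intro z _
  obtain ⟨P, hP, hP'⟩ := integral_of_relfinrank hAB h z
  let f : A →+* V :=
    { toFun := fun x => ⟨IntermediateField.inclusion hAB x, hV x⟩
      map_one' := Subtype.ext (map_one _)
      map_mul' := fun x y => Subtype.ext (map_mul _ x y)
      map_zero' := Subtype.ext (map_zero _)
      map_add' := fun x y => Subtype.ext (map_add _ x y) }
  have hf : (algebraMap V B).comp f = (IntermediateField.inclusion hAB).toRingHom := rfl
  have hint : IsIntegral V z := by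
    refine ⟨P.map f, hP.map f, ?_⟩
    rw [Polynomial.eval₂_map, hf]
    exact hP'
  obtain ⟨y, hy⟩ := IsIntegrallyClosed.isIntegral_iff.1 hint
  rw [← hy]
  exact y.2

variable {F : Type u} {U : Type v} [Field F] [Field U] [Algebra F U] {p : ℕ}
  {Λ : IntermediateField F U}

theorem tow_le_Tinf {M : IntermediateField F U} (h : Tow F p Λ M) : M ≤ Tinf F p Λ :=
  le_sSup h

/-- the join of stable fields is stable, one direction -/
theorem sup_stable (a : Tinf F p Λ ≃+* Tinf F p Λ)
    (hc : ∀ c : F, a (algebraMap F _ c) = algebraMap F _ c) {M M' : IntermediateField F U}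
    (hM : M ≤ Tinf F p Λ) (hM' : M' ≤ Tinf F p Λ)
    (h : ∀ y : Tinf F p Λ, (y : U) ∈ M → ((a y : Tinf F p Λ) : U) ∈ M)
    (h' : ∀ y : Tinf F p Λ, (y : U) ∈ M' → ((a y : Tinf F p Λ) : U) ∈ M')
    (y : Tinf F p Λ) (hy : (y : U) ∈ M ⊔ M') : ((a y : Tinf F p Λ) : U) ∈ M ⊔ M' := by
  -- the preimage of the join
  let N : IntermediateField F U :=
    { carrier := {z | ∃ w : Tinf F p Λ, (w : U) = z ∧ ((a w : Tinf F p Λ) : U) ∈ M ⊔ M'}
      mul_mem' := by
        rintro _ _ ⟨w, rfl, hw⟩ ⟨w', rfl, hw'⟩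
        refine ⟨w * w', rfl, ?_⟩
        rw [map_mul]
        exact mul_mem hw hw'
      add_mem' := by
        rintro _ _ ⟨w, rfl, hw⟩ ⟨w', rfl, hw'⟩
        refine ⟨w + w', rfl, ?_⟩
        rw [map_add]
        exact add_mem hw hw'
      algebraMap_mem' := by
        intro c
        refine ⟨algebraMap F _ c, rfl, ?_⟩
        rw [hc]
        exact (M ⊔ M').algebraMap_mem c
      inv_mem' := by
        rintro _ ⟨w, rfl, hw⟩
        refine ⟨w⁻¹, rfl, ?_⟩
        rw [map_inv₀]
        exact (M ⊔ M').inv_mem hw }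
  have h1 : M ⊔ M' ≤ N := by
    refine sup_le ?_ ?_
    · intro z hz
      exact ⟨⟨z, hM hz⟩, rfl, (le_sup_left : M ≤ M ⊔ M') (h _ hz)⟩
    · intro z hz
      exact ⟨⟨z, hM' hz⟩, rfl, (le_sup_right : M' ≤ M ⊔ M') (h' _ hz)⟩
  obtain ⟨w, hw, hw'⟩ := h1 hy
  have : w = y := Subtype.ext hw
  rw [← this]
  exact hw'

theorem stb_sup (a : Tinf F p Λ ≃+* Tinf F p Λ)
    (hc : ∀ c : F, a (algebraMap F _ c) = algebraMap F _ c) {M M' : IntermediateField F U}
    (hM : M ≤ Tinf F p Λ) (hM' : M' ≤ Tinf F p Λ) (h : Stb a M) (h' : Stb a M') :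
    Stb a (M ⊔ M') := by
  intro y
  constructor
  · exact sup_stable a hc hM hM' (fun y hy => (h y).1 hy) (fun y hy => (h' y).1 hy) y
  · intro hy
    have hs : ∀ {N : IntermediateField F U}, Stb a N → ∀ z : Tinf F p Λ, (z : U) ∈ N →
        ((a.symm z : Tinf F p Λ) : U) ∈ N := by
      intro N hN z hz
      rw [hN, a.apply_symm_apply]
      exact hz
    have h1 := sup_stable a.symm (fun c => by rw [a.symm_apply_eq, hc]) hM hM' (hs h) (hs h')
      (a y) hy
    rwa [a.symm_apply_apply] at h1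

/-- the restriction of a place -/
theorem restrict (hd : ∀ M, Tow F p Λ M → Λ ≤ M ∧ IntermediateField.relfinrank Λ M ≠ 0)
    (a : Tinf F p Λ ≃+* Tinf F p Λ) {M M' : IntermediateField F U} (hM : Tow F p Λ M)
    (hM' : Tow F p Λ M') (hle : M ≤ M') (w : Plc F M') (hw : MvT a w w) :
    ∃ x : Plc F M, MvT a x x ∧ Abv x w := by
  refine ⟨⟨w.ring.comap (IntermediateField.inclusion hle).toRingHom, ?_, ?_⟩, ?_, ?_⟩
  · intro htop
    apply w.ne_top
    refine top_of_contains (hd M' hM').1 (hd M' hM').2 w.ring fun x => ?_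
    have h1 : (⟨(x : U), (hd M hM).1 x.2⟩ : M) ∈
        w.ring.comap (IntermediateField.inclusion hle).toRingHom := by
      rw [htop]
      exact ValuationSubring.mem_top _
    exact h1
  · intro c
    exact w.const_mem c
  · intro z z' y h1 h2
    exact hw (IntermediateField.inclusion hle z) (IntermediateField.inclusion hle z') y h1 h2
  · intro z z' hz
    have : IntermediateField.inclusion hle z = z' := Subtype.ext hz
    rw [← this]
    rfl

theorem abv_down {M0 M M' : IntermediateField F U} (hle : M0 ≤ M) {y : Plc F M0} {x : Plc F M}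
    {w : Plc F M'} (hle' : M ≤ M') (h1 : Abv x w) (h2 : Abv y w) : Abv y x := by
  intro z z' hz
  have e1 := h2 z ⟨(z' : U), hle' z'.2⟩ hz
  have e2 := h1 z' ⟨(z' : U), hle' z'.2⟩ rfl
  rw [e1, e2]

/-- the key lemma: no fixed place of `M₁` lies above a place that is not in `Y` -/
theorem key (hd : ∀ M, Tow F p Λ M → Λ ≤ M ∧ IntermediateField.relfinrank Λ M ≠ 0)
    (hs : ∀ M M', Tow F p Λ M → Tow F p Λ M' → Tow F p Λ (M ⊔ M'))
    (a : Tinf F p Λ ≃+* Tinf F p Λ) (hc : ∀ c : F, a (algebraMap F _ c) = algebraMap F _ c)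
    {M : IntermediateField F U} (hM : Tow F p Λ M) (hst : Stb a M) (S : Set (Plc F M))
    (hS : S.Finite) :
    ∃ M₁ : IntermediateField F U, Tow F p Λ M₁ ∧ Stb a M₁ ∧ M ≤ M₁ ∧
      ∀ y ∈ S, ¬ InY a M y → ∀ w : Plc F M₁, MvT a w w → ¬ Abv y w := by
  induction S, hS using Set.Finite.induction_on with
  | empty => exact ⟨M, hM, hst, le_rfl, fun y hy => absurd hy (Set.notMem_empty y)⟩
  | @insert y S _ _ ih =>
    obtain ⟨M₁, t1, s1, l1, h1⟩ := ih
    by_cases hy : InY a M y
    · refine ⟨M₁, t1, s1, l1, fun y' hy' hn => ?_⟩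
      rcases Set.mem_insert_iff.1 hy' with rfl | hy'
      · exact absurd hy hn
      · exact h1 y' hy' hn
    · have hy2 := hy
      unfold InY at hy2
      push Not at hy2
      obtain ⟨M₂, t2, s2, l2, h2⟩ := hy2
      have t12 := hs M₁ M₂ t1 t2
      refine ⟨M₁ ⊔ M₂, t12, stb_sup a hc (tow_le_Tinf t1) (tow_le_Tinf t2) s1 s2,
        l1.trans le_sup_left, fun y' hy' hn w hw hab => ?_⟩
      rcases Set.mem_insert_iff.1 hy' with rfl | hy'
      · obtain ⟨x, hx1, hx2⟩ := restrict hd a t2 t12 le_sup_right w hw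
        exact h2 x hx1 (abv_down l2 le_sup_right hx2 hab)
      · obtain ⟨x, hx1, hx2⟩ := restrict hd a t1 t12 le_sup_left w hw
        exact h1 y' hy' hn x hx1 (abv_down l1 le_sup_left hx2 hab)

theorem prP {p : ℕ} {F : Type u} [Field F] (h : FpBar p F) : PrP p F := by
  intro n hn h0
  have := h.char
  exact hn ((CharP.cast_eq_zero_iff F p n).1 h0)

end E4Aux

open E4Aux in
/-- E4. Compactness. -/
theorem stE4 (hD : StTwDir.{u, v}) : StE4.{u, v} := by
  intro F U _ _ _ _ p l Λ a hF hFF hG hfix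
  have hcl := hF.closed
  obtain ⟨d1, d2, -, -, -⟩ := hD F U p Λ hFF (prP hF)
  have hd : ∀ M, Tow F p Λ M → Λ ≤ M ∧ IntermediateField.relfinrank Λ M ≠ 0 :=
    fun M hM => ⟨(d1 M hM).1, (d1 M hM).2.2⟩
  refine ⟨?_, ?_⟩
  · obtain ⟨M₁, t1, s1, l1, h1⟩ := key hd d2 a hG.cst Tow.base hG.stab
      {x : Plc F Λ | MvT a x x} (hfix Λ Tow.base hG.stab).2
    obtain ⟨w, hw⟩ := (hfix M₁ t1 s1).1
    obtain ⟨x, hx1, hx2⟩ := restrict hd a Tow.base t1 l1 w hw
    refine ⟨x, ?_⟩
    by_contra hn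
    exact h1 x hx1 hn w hw hx2
  · intro M x hM hst hx
    obtain ⟨M₁, t1, s1, l1, h1⟩ := key hd d2 a hG.cst hM hst
      {x : Plc F M | MvT a x x} (hfix M hM hst).2
    obtain ⟨w, hw, hw'⟩ := hx M₁ t1 s1 ((hd M hM).1.trans l1)
    obtain ⟨y, hy1, hy2⟩ := restrict hd a hM t1 l1 w hw
    refine ⟨y, hy1, abv_down (hd M hM).1 l1 hy2 hw', ?_⟩
    by_contra hn
    exact h1 y hy1 hn w hw hy2

end Pool.Agent.Lib.MP_c385f6_ag.TPG
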