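import Pool.Agent.Lib.MP_c385f6_ag.TPG.StE

/-!
Project TPG, part E, module E5: three different fixed places, two of them in `Y`, are impossible.
-/

set_option autoImplicit false

namespace Pool.Agent.Lib.MP_c385f6_ag.TPG

universe u v

namespace EE5

/-! ### Places -/

section Plc

variable {F : Type u} {W : Type v} [Field F] [Field W] [Algebra F W]

/-- A constant of value `< 1` is zero. -/
theorem const_eq_zero (P : Plc F W) (c : F) (h : P.ring.valuation (algebraMap F W c) < 1) :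
    c = 0 := by
  by_contra h0
  have h1 : P.ring.valuation (algebraMap F W c⁻¹) ≤ 1 :=
    (P.ring.valuation_le_one_iff _).2 (P.const_mem _)
  have h2 : P.ring.valuation (algebraMap F W c) * P.ring.valuation (algebraMap F W c⁻¹) = 1 := by
    rw [← map_mul, ← map_mul, mul_inv_cancel₀ h0, map_one, map_one]
  have h3 : P.ring.valuation (algebraMap F W c) * P.ring.valuation (algebraMap F W c⁻¹) ≤
      P.ring.valuation (algebraMap F W c) * 1 := mul_le_mul_right h1 _
  rw [h2, mul_one] at h3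
  exact absurd h (not_lt.2 h3)

theorem ord_pow (hO : OrdF F W) (P : Plc F W) (h : W) (hh : h ≠ 0) (n : ℕ) :
    ord P (h ^ n) = n * ord P h := by
  induction n with
  | zero =>
    have h1 := hO.mul P 1 1 one_ne_zero one_ne_zero
    rw [mul_one] at h1
    rw [pow_zero]
    push_cast
    linarith
  | succ n ih =>
    rw [pow_succ, hO.mul P _ _ (pow_ne_zero n hh) hh, ih]
    push_cast
    ring

theorem dg_sub (P Q : Plc F W) :
    dg (Finsupp.single P 1 - Finsupp.single Q 1 : Dv F W) = 0 := by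
  unfold dg
  rw [Finsupp.sum_sub_index (fun _ _ _ => rfl), Finsupp.sum_single_index rfl,
    Finsupp.sum_single_index rfl, sub_self]

end Plc

/-! ### Constants -/

theorem exists_const {F : Type u} {U : Type v} [Field F] [IsAlgClosed F] [Field U] [Algebra F U]
    {l : ℕ} (hl : 0 < l) (ζ : U) (h : ζ ^ l = 1) : ∃ ξ : F, algebraMap F U ξ = ζ := by
  have h1 : IsIntegral F ζ := by
    refine IsIntegral.of_pow hl ?_
    rw [h]
    exact isIntegral_one
  exact minpoly.mem_range_of_degree_eq_one F ζ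
    (IsAlgClosed.degree_eq_one_of_irreducible F (minpoly.irreducible h1))

/-! ### Restrictions -/

section Rst

variable {F : Type u} {U : Type v} [Field F] [Field U] [Algebra F U] {p : ℕ}
  {Λ : IntermediateField F U}

theorem tow_le {M : IntermediateField F U} (h : Tow F p Λ M) : M ≤ Tinf F p Λ := le_sSup h

/-- The restriction of `a` to a stable field. -/
noncomputable def rst (a : Tinf F p Λ ≃+* Tinf F p Λ)
    (hc : ∀ c : F, a (algebraMap F _ c) = algebraMap F _ c)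
    {M : IntermediateField F U} (hM : M ≤ Tinf F p Λ) (hS : Stb a M) : M ≃ₐ[F] M where
  toFun z := ⟨(a ⟨z, hM z.2⟩ : Tinf F p Λ), (hS ⟨z, hM z.2⟩).1 z.2⟩
  invFun z := ⟨(a.symm ⟨z, hM z.2⟩ : Tinf F p Λ), (hS (a.symm ⟨z, hM z.2⟩)).2 (by
    rw [a.apply_symm_apply]
    exact z.2)⟩
  left_inv z := by
    refine Subtype.ext ?_
    change ((a.symm (a ⟨z, hM z.2⟩) : Tinf F p Λ) : U) = z
    rw [a.symm_apply_apply]
  right_inv z := by
    refine Subtype.ext ?_
    change ((a (a.symm ⟨z, hM z.2⟩) : Tinf F p Λ) : U) = z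
    rw [a.apply_symm_apply]
  map_mul' z w := by
    refine Subtype.ext ?_
    change ((a (⟨z, hM z.2⟩ * ⟨w, hM w.2⟩) : Tinf F p Λ) : U) = _
    rw [map_mul]
    rfl
  map_add' z w := by
    refine Subtype.ext ?_
    change ((a (⟨z, hM z.2⟩ + ⟨w, hM w.2⟩) : Tinf F p Λ) : U) = _
    rw [map_add]
    rfl
  commutes' c := by
    refine Subtype.ext ?_
    change ((a (algebraMap F _ c) : Tinf F p Λ) : U) = _
    rw [hc]
    rfl

variable (a : Tinf F p Λ ≃+* Tinf F p Λ)
    (hc : ∀ c : F, a (algebraMap F _ c) = algebraMap F _ c)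
    {M : IntermediateField F U} (hM : M ≤ Tinf F p Λ) (hS : Stb a M)

theorem rst_coe (z : M) (y : Tinf F p Λ) (h : (y : U) = z) :
    ((rst a hc hM hS z : M) : U) = (a y : Tinf F p Λ) := by
  have h1 : y = ⟨z, hM z.2⟩ := Subtype.ext h
  rw [h1]
  rfl

theorem rst_pow (k : ℕ) (z : M) (y : Tinf F p Λ) (h : (y : U) = z) :
    (((rst a hc hM hS ^ k) z : M) : U) = ((a ^ k) y : Tinf F p Λ) := by
  induction k generalizing z y with
  | zero =>
    rw [pow_zero, pow_zero]
    exact h.symm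
  | succ k ih =>
    rw [pow_succ, pow_succ]
    exact ih _ _ (rst_coe a hc hM hS z y h).symm

theorem rst_pow_eq {l : ℕ} (hl : a ^ l = 1) : rst a hc hM hS ^ l = 1 := by
  refine AlgEquiv.ext fun z => Subtype.ext ?_
  rw [rst_pow a hc hM hS l z ⟨z, hM z.2⟩ rfl, hl]
  rfl

theorem mv_rst (x : Plc F M) (hx : MvT a x x) : Mv (rst a hc hM hS).toRingEquiv x x := by
  intro z
  exact hx z _ ⟨z, hM z.2⟩ rfl rfl

theorem stb_of_forward {l : ℕ} (hl0 : 0 < l) (hl : a ^ l = 1)
    (h : ∀ y : Tinf F p Λ, (y : U) ∈ M → ((a y : Tinf F p Λ) : U) ∈ M) : Stb a M := by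
  have h1 : ∀ (k : ℕ) (y : Tinf F p Λ), (y : U) ∈ M → (((a ^ k) y : Tinf F p Λ) : U) ∈ M := by
    intro k
    induction k with
    | zero =>
      intro y hy
      rw [pow_zero]
      exact hy
    | succ k ih =>
      intro y hy
      rw [pow_succ]
      exact ih _ (h y hy)
  intro y
  refine ⟨h y, fun hy => ?_⟩
  obtain ⟨k, rfl⟩ : ∃ k, l = k + 1 := ⟨l - 1, by omega⟩
  have h2 := h1 k (a y) hy
  have h3 : (a ^ k) (a y) = y := by
    have h4 : (a ^ (k + 1)) y = y := by
      rw [hl]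
      rfl
    rw [pow_succ] at h4
    exact h4
  rwa [h3] at h2

/-- the automorphism as a homomorphism to `U` -/
noncomputable def toU : Tinf F p Λ →ₐ[F] U where
  toFun y := ((a y : Tinf F p Λ) : U)
  map_one' := by
    rw [map_one]
    rfl
  map_mul' y z := by
    rw [map_mul]
    rfl
  map_zero' := by
    rw [map_zero]
    rfl
  map_add' y z := by
    rw [map_add]
    rfl
  commutes' c := by
    rw [hc]
    rfl

include hc hM hS in
theorem stb_sup {l : ℕ} (hl0 : 0 < l) (hl : a ^ l = 1) (η : Tinf F p Λ) (ξ : F)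
    (hη : a η = algebraMap F _ ξ * η) :
    Stb a (M ⊔ IntermediateField.adjoin F {(η : U)}) := by
  refine stb_of_forward a hl0 hl ?_
  set N : IntermediateField F U := M ⊔ IntermediateField.adjoin F {(η : U)} with hN
  have h1 : N ≤ (N.comap (toU a hc)).map (Tinf F p Λ).val := by
    refine sup_le ?_ ?_
    · intro z hz
      refine ⟨⟨z, hM hz⟩, ?_, rfl⟩
      change ((a ⟨z, hM hz⟩ : Tinf F p Λ) : U) ∈ N
      exact (le_sup_left : M ≤ N) ((hS ⟨z, hM hz⟩).1 hz)
    · rw [IntermediateField.adjoin_le_iff, Set.singleton_subset_iff]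
      refine ⟨η, ?_, rfl⟩
      change ((a η : Tinf F p Λ) : U) ∈ N
      rw [hη]
      change algebraMap F U ξ * (η : U) ∈ N
      refine mul_mem (N.algebraMap_mem ξ) ((le_sup_right : _ ≤ N) ?_)
      exact IntermediateField.mem_adjoin_simple_self F (η : U)
  intro y hy
  obtain ⟨y', hy', hyy⟩ := h1 hy
  have h2 : y' = y := Subtype.ext hyy
  rw [h2] at hy'
  exact hy'

end Rst

end EE5

open EE5 in
/-- E5. Three different fixed places, two of them in `Y`, are impossible. -/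
theorem stE5 (hOrd : StOrd.{u, v}) (hKum : StKum.{u, v, v}) (hCot : StCot.{u, v})
    (hDir : StTwDir.{u, v}) (hAl : StAlpha.{u, v}) (hCyc : StCyc.{u, v}) : StE5.{u, v} := by
  intro F U _ _ _ _ p l Λ a hF hΛ hG M x y z hT hS hx hy hz hxy hxz hyz
  have hchar := hF.char
  have hclosed := hF.closed
  have hlp : l.Prime := hG.prime
  have hl0 : 0 < l := hlp.pos
  have hpl : ¬ p ∣ l := by
    intro h
    exact hG.ne ((Nat.prime_dvd_prime_iff_eq hF.prime hlp).1 h).symm
  have hPr : PrP p F := fun n hn h0 => hn ((CharP.cast_eq_zero_iff F p n).1 h0)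
  have hlF : (l : F) ≠ 0 := hPr l hpl
  obtain ⟨hD1, -, -, -, -⟩ := hDir F U p Λ hΛ hPr
  obtain ⟨hΛM, hFFM, -⟩ := hD1 M hT
  have hM : M ≤ Tinf F p Λ := tow_le hT
  -- `x` and `y` are fixed
  have hfix : ∀ x : Plc F M, InY a M x → MvT a x x := by
    intro x hx
    obtain ⟨x', h1, h2⟩ := hx M hT hS le_rfl
    have h3 : x' = x := by
      refine Plc.ext (ValuationSubring.ext _ _ fun w => ?_)
      exact (h2 w w rfl).symm
    rwa [h3] at h1
  have hx' := hfix x hx
  have hy' := hfix y hy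
  set s : M ≃ₐ[F] M := rst a hG.cst hM hS with hs
  have hs1 : s ^ l = 1 := rst_pow_eq a hG.cst hM hS hG.pow
  have hs2 : s ≠ 1 := by
    intro h
    obtain ⟨w, hw, hw'⟩ := hG.ram
    refine hw' (Subtype.ext ?_)
    have h1 := rst_coe a hG.cst hM hS ⟨w, hΛM hw⟩ w rfl
    rw [← hs, h] at h1
    exact h1.symm
  have hsx : Mv s.toRingEquiv x x := mv_rst a hG.cst hM hS x hx'
  have hsy : Mv s.toRingEquiv y y := mv_rst a hG.cst hM hS y hy'
  have hsz : Mv s.toRingEquiv z z := mv_rst a hG.cst hM hS z hz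
  obtain ⟨W, hW, hFFW, -, -, hbel, hov, -⟩ := hCyc F M s l hFFM hlp hlF hs1 hs2
  obtain ⟨P1, hP1⟩ := hbel x
  obtain ⟨P2, hP2⟩ := hbel y
  obtain ⟨P3, hP3⟩ := hbel z
  have h12 : P2 ≠ P1 := by
    rintro rfl
    exact hxy (((hov P2 y hP2).1 hsy).2 x hP1)
  have h13 : P3 ≠ P1 := by
    rintro rfl
    exact hxz (((hov P3 z hP3).1 hsz).2 x hP1)
  have h23 : P3 ≠ P2 := by
    rintro rfl
    exact hyz (((hov P3 z hP3).1 hsz).2 y hP2)
  -- the divisor
  obtain ⟨v, hv0, hv⟩ := hAl F W p l hF hFFW hlp hG.ne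
    (Finsupp.single P1 1 - Finsupp.single P3 1) (dg_sub P1 P3)
  have hv1 : (l : ℤ) ∣ ord P1 v - 1 := by
    have h1 := hv P1
    rwa [Finsupp.sub_apply, Finsupp.single_eq_same, Finsupp.single_eq_of_ne h13.symm, sub_zero] at h1
  have hv2 : (l : ℤ) ∣ ord P2 v := by
    have h1 := hv P2
    rwa [Finsupp.sub_apply, Finsupp.single_eq_of_ne h12, Finsupp.single_eq_of_ne h23.symm, sub_zero,
      sub_zero] at h1
  have hvM0 : (v : M) ≠ 0 := fun h => hv0 (Subtype.ext h)
  have hDn : (v : M) ∈ Dn F l := by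
    refine ⟨hvM0, fun Q => ?_⟩
    obtain ⟨P, hP⟩ := hbel Q
    by_cases hQ : Mv s.toRingEquiv Q Q
    · rw [((hov P Q hP).1 hQ).1 v hv0]
      exact dvd_mul_right _ _
    · rw [(hov P Q hP).2 hQ v hv0]
      have h1 : P ≠ P1 := by
        rintro rfl
        have h2 := ((hov P x hP1).1 hsx).2 Q hP
        rw [h2] at hQ
        exact hQ hsx
      have h3 : P ≠ P3 := by
        rintro rfl
        have h2 := ((hov P z hP3).1 hsz).2 Q hP
        rw [h2] at hQ
        exact hQ hsz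
      have h4 := hv P
      rwa [Finsupp.sub_apply, Finsupp.single_eq_of_ne h1, Finsupp.single_eq_of_ne h3, sub_zero,
        sub_zero] at h4
  -- the extension
  obtain ⟨η, hη⟩ := IsAlgClosed.exists_pow_nat_eq (((v : M) : U)) hl0
  have hvU0 : ((v : M) : U) ≠ 0 := fun h => hvM0 (Subtype.ext h)
  have hη0 : η ≠ 0 := by
    rintro rfl
    rw [zero_pow hl0.ne'] at hη
    exact hvU0 hη.symm
  set M2 : IntermediateField F U := M ⊔ IntermediateField.adjoin F {η} with hM2
  have hT2 : Tow F p Λ M2 := Tow.step M η l (v : M) hT hpl hη hDn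
  have hM2T : M2 ≤ Tinf F p Λ := tow_le hT2
  have hle : M ≤ M2 := le_sup_left
  have hηM2 : η ∈ M2 :=
    (le_sup_right : _ ≤ M2) (IntermediateField.mem_adjoin_simple_self F η)
  set ηT : Tinf F p Λ := ⟨η, hM2T hηM2⟩ with hηT
  have hηT0 : ηT ≠ 0 := fun h => hη0 (congrArg Subtype.val h)
  have hpow : (a ηT) ^ l = ηT ^ l := by
    rw [← map_pow]
    have h1 : ηT ^ l = ⟨((v : M) : U), hM (v : M).2⟩ := Subtype.ext hη
    rw [h1]
    have h2 := (hW (v : M)).1 v.2
    refine Subtype.ext ?_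
    have h3 := rst_coe a hG.cst hM hS (v : M) ⟨((v : M) : U), hM (v : M).2⟩ rfl
    rw [← h3, ← hs, h2]
  obtain ⟨ξ, hξ⟩ : ∃ ξ : F, a ηT = algebraMap F _ ξ * ηT := by
    obtain ⟨ξ, hξ⟩ := exists_const (F := F) hl0 (a ηT / ηT) (by
      rw [div_pow, hpow, div_self (pow_ne_zero l hηT0)])
    refine ⟨ξ, ?_⟩
    rw [hξ, div_mul_cancel₀ _ hηT0]
  have hS2 : Stb a M2 := stb_sup a hG.cst hM hS hl0 hG.pow ηT ξ hξ
  obtain ⟨y1, hy1, hxy1⟩ := hx M2 hT2 hS2 hle
  obtain ⟨y2, hy2, hyy2⟩ := hy M2 hT2 hS2 hle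
  obtain ⟨-, hFF2, -⟩ := hD1 M2 hT2
  set s2 : M2 ≃ₐ[F] M2 := rst a hG.cst hM2T hS2 with hs2def
  have hs21 : s2 ^ l = 1 := rst_pow_eq a hG.cst hM2T hS2 hG.pow
  have hs22 : s2 ≠ 1 := by
    intro h
    obtain ⟨w, hw, hw'⟩ := hG.ram
    refine hw' (Subtype.ext ?_)
    have h1 := rst_coe a hG.cst hM2T hS2 ⟨w, hle (hΛM hw)⟩ w rfl
    rw [← hs2def, h] at h1
    exact h1.symm
  set η2 : M2 := ⟨η, hηM2⟩ with hη2
  have hη20 : η2 ≠ 0 := fun h => hη0 (congrArg Subtype.val h)
  have hsη : s2 η2 = algebraMap F M2 ξ * η2 := by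
    refine Subtype.ext ?_
    have h1 := rst_coe a hG.cst hM2T hS2 η2 ηT rfl
    rw [← hs2def, hξ] at h1
    exact h1
  -- orders
  let _ : Algebra M M2 := (IntermediateField.inclusion hle).toRingHom.toAlgebra
  have _ : IsScalarTower F M M2 := IsScalarTower.of_algebraMap_eq fun _ => rfl
  have htop : IntermediateField.adjoin M {η2} = (⊤ : IntermediateField M M2) := by
    rw [eq_top_iff]
    intro w _
    set N : IntermediateField M M2 := IntermediateField.adjoin M {η2} with hN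
    have h1 : M2 ≤ (N.restrictScalars F).map M2.val := by
      refine sup_le ?_ ?_
      · intro w hw
        exact ⟨algebraMap M M2 ⟨w, hw⟩, N.algebraMap_mem _, rfl⟩
      · rw [IntermediateField.adjoin_le_iff, Set.singleton_subset_iff]
        exact ⟨η2, IntermediateField.mem_adjoin_simple_self M η2, rfl⟩
    obtain ⟨w', hw', hww⟩ := h1 w.2
    have h2 : w' = w := Subtype.ext hww
    rw [h2] at hw'
    exact hw'
  obtain ⟨-, -, hord, -⟩ := hKum F M M2 l η2 (v : M) hFFM hlF (Subtype.ext hη) hDn htop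
  have hO2 : OrdF F M2 := hOrd F M2 hFF2
  have hordη : ∀ (x : Plc F M) (P : Plc F W) (y : Plc F M2), Mv s.toRingEquiv x x → Over P x →
      Abv x y → ord y η2 = ord P v := by
    intro x P y hx hP hxy
    have h1 : Over x y := by
      refine ValuationSubring.ext _ _ fun w => ?_
      exact hxy w _ rfl
    have h2 := hord x y h1 (v : M) hvM0
    rw [((hov P x hP).1 hx).1 v hv0] at h2
    have h3 : algebraMap M M2 (v : M) = η2 ^ l := Subtype.ext hη.symm
    rw [h3, ord_pow hO2 y η2 hη20] at h2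
    have h4 : (l : ℤ) ≠ 0 := by exact_mod_cast hl0.ne'
    exact mul_left_cancel₀ h4 h2
  have hcot : ∀ (y : Plc F M2), MvT a y y → ∃ c : F, c ^ l = 1 ∧ c ≠ 1 ∧ ξ = c ^ (ord y η2) := by
    intro y hy
    obtain ⟨c, hc1, hc2, hc3⟩ := hCot F M2 s2 l y hFF2 hlp hlF hs21 hs22
      (mv_rst a hG.cst hM2T hS2 y hy)
    refine ⟨c, hc1, hc2, ?_⟩
    have h1 := hc3 η2 hη20
    rw [hsη, mul_div_cancel_right₀ _ hη20, ← map_sub] at h1
    exact sub_eq_zero.1 (const_eq_zero y _ h1)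
  obtain ⟨c1, hc11, hc12, hc13⟩ := hcot y1 hy1
  obtain ⟨c2, hc21, -, hc23⟩ := hcot y2 hy2
  rw [hordη x P1 y1 hsx hP1 hxy1] at hc13
  rw [hordη y P2 y2 hsy hP2 hyy2] at hc23
  have hc10 : c1 ≠ 0 := by
    rintro rfl
    rw [zero_pow hl0.ne'] at hc11
    exact zero_ne_one hc11
  obtain ⟨k1, hk1⟩ := hv1
  obtain ⟨k2, hk2⟩ := hv2
  have h1 : ξ = c1 := by
    have h2 : ord P1 v = 1 + (l : ℤ) * k1 := by linarith
    rw [hc13, h2, zpow_add₀ hc10, zpow_one, zpow_mul, zpow_natCast, hc11, one_zpow, mul_one]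
  have h2 : ξ = 1 := by
    rw [hc23, hk2, zpow_mul, zpow_natCast, hc21, one_zpow]
  exact hc12 (h1.symm.trans h2)

end Pool.Agent.Lib.MP_c385f6_ag.TPG
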