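import Pool.Agent.Lib.MP_c385f6_ag.TPG.StE

/-!
Project TPG, module E6: if two places of `Λ` are below fixed places of all towers, then there is a
tower with three fixed places.
-/

set_option autoImplicit false

namespace Pool.Agent.Lib.MP_c385f6_ag.TPG

universe u v w

namespace E6

/-! ### Roots of unity -/

theorem const_of_pow {F : Type u} {K : Type v} [Field F] [IsAlgClosed F] [Field K] [Algebra F K]
    {z : K} {n : ℕ} (hn : 0 < n) (hz : z ^ n = 1) : ∃ c : F, algebraMap F K c = z := by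
  have hi : IsIntegral F z := by
    refine IsIntegral.of_pow hn ?_
    rw [hz]
    exact isIntegral_one
  have h1 : (minpoly F z).degree = 1 :=
    IsAlgClosed.degree_eq_one_of_irreducible F (minpoly.irreducible hi)
  obtain ⟨c, hc⟩ := minpoly.mem_range_of_degree_eq_one F z h1
  exact ⟨c, hc⟩

/-! ### Orders -/

section Ord

variable {F : Type u} {W : Type v} [Field F] [Field W] [Algebra F W]

theorem ord_one (ho : OrdF F W) (P : Plc F W) : ord P (1 : W) = 0 := by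
  have h := ho.mul P 1 1 one_ne_zero one_ne_zero
  rw [mul_one] at h
  linarith

theorem ord_pow (ho : OrdF F W) (P : Plc F W) {x : W} (hx : x ≠ 0) (n : ℕ) :
    ord P (x ^ n) = n * ord P x := by
  induction n with
  | zero => rw [pow_zero, ord_one ho]; simp
  | succ n ih =>
    rw [pow_succ, ho.mul P _ _ (pow_ne_zero n hx) hx, ih]
    push_cast
    ring

theorem ord_inv (ho : OrdF F W) (P : Plc F W) {x : W} (hx : x ≠ 0) : ord P x⁻¹ = - ord P x := by
  have h := ho.mul P x x⁻¹ hx (inv_ne_zero hx)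
  rw [mul_inv_cancel₀ hx, ord_one ho] at h
  linarith

theorem ord_zpow (ho : OrdF F W) (P : Plc F W) {x : W} (hx : x ≠ 0) (n : ℤ) :
    ord P (x ^ n) = n * ord P x := by
  cases n with
  | ofNat n =>
    rw [Int.ofNat_eq_natCast, zpow_natCast]
    exact ord_pow ho P hx n
  | negSucc n =>
    rw [zpow_negSucc, ord_inv ho P (pow_ne_zero _ hx), ord_pow ho P hx, Int.negSucc_eq]
    push_cast
    ring

theorem dg_add (D E : Dv F W) : dg (D + E) = dg D + dg E := by
  classical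
  exact Finsupp.sum_add_index' (fun _ => rfl) (fun _ _ _ => rfl)

theorem dg_neg (D : Dv F W) : dg (-D) = - dg D := by
  have h := dg_add D (-D)
  rw [add_neg_cancel] at h
  have h0 : dg (0 : Dv F W) = 0 := Finsupp.sum_zero_index
  rw [h0] at h
  linarith

theorem eq_zero_of_dg {D : Dv F W} (h : 0 ≤ D) (hd : dg D = 0) : D = 0 := by
  ext P
  rw [Finsupp.coe_zero, Pi.zero_apply]
  by_contra hP
  rw [dg, Finsupp.sum] at hd
  have h1 := (Finset.sum_eq_zero_iff_of_nonneg (fun Q _ => h Q)).1 hd P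
    (Finsupp.mem_support_iff.2 hP)
  exact hP h1

/-- in genus zero, divisors of degree zero are principal -/
theorem exists_dv (hR : RRF F W) (hg : IsGenus F W 0) (D : Dv F W)
    (hD : dg D = 0) : ∃ f : W, f ≠ 0 ∧ ∀ P, ord P f = D P := by
  have h1 := hg.1 (-D)
  rw [dg_neg, hD] at h1
  push_cast at h1
  obtain ⟨f, hf, hf2⟩ := hR.eff (-D) (by linarith)
  refine ⟨f, hf, fun P => ?_⟩
  have h3 := eq_zero_of_dg hf2 (by rw [dg_add, hR.dg_dv f hf, dg_neg, hD]; norm_num)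
  have h4 := DFunLike.congr_fun h3 P
  rw [Finsupp.add_apply, hR.dv_apply f P hf, Finsupp.neg_apply, Finsupp.coe_zero,
    Pi.zero_apply] at h4
  linarith

theorem dvd_of_dg {D : Dv F W} {l : ℤ} (hd : dg D = 0) (P : Plc F W)
    (h : ∀ Q, Q ≠ P → l ∣ D Q) : ∀ Q, l ∣ D Q := by
  classical
  intro Q
  by_cases hQ : Q = P
  · subst hQ
    by_cases hs : Q ∈ D.support
    · rw [dg, Finsupp.sum, ← Finset.add_sum_erase _ _ hs] at hd
      have h1 : l ∣ ∑ x ∈ D.support.erase Q, D x :=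
        Finset.dvd_sum fun x hx => h x (Finset.ne_of_mem_erase hx)
      have h2 : D Q = - ∑ x ∈ D.support.erase Q, D x := by linarith
      rw [h2]
      exact (dvd_neg.2 h1)
    · rw [Finsupp.notMem_support_iff.1 hs]
      exact dvd_zero _
  · exact h Q hQ

theorem exists_div {D : Dv F W} {l : ℕ} (hl : l ≠ 0) (hd : dg D = 0) (h : ∀ Q, (l : ℤ) ∣ D Q) :
    ∃ E : Dv F W, dg E = 0 ∧ ∀ Q, D Q = l * E Q := by
  choose e he using h
  have hl' : (l : ℤ) ≠ 0 := by exact_mod_cast hl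
  have hfin : (Function.support e).Finite := by
    refine D.support.finite_toSet.subset fun Q hQ => ?_
    rw [Finset.mem_coe, Finsupp.mem_support_iff, he Q]
    exact mul_ne_zero hl' hQ
  refine ⟨Finsupp.ofSupportFinite e hfin, ?_, he⟩
  have h1 : dg D = l * dg (Finsupp.ofSupportFinite e hfin) := by
    rw [dg, dg, Finsupp.mul_sum]
    rw [Finsupp.sum, Finsupp.sum_of_support_subset (s := D.support)]
    · exact Finset.sum_congr rfl fun Q _ => he Q
    · intro Q hQ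
      rw [Finsupp.mem_support_iff] at hQ ⊢
      rw [he Q]
      exact mul_ne_zero hl' hQ
    · intro _ _
      simp
  rw [hd] at h1
  rcases mul_eq_zero.1 h1.symm with h2 | h2
  · exact absurd h2 hl'
  · exact h2

end Ord

/-! ### Restriction of the automorphism to stable towers -/

section Res

variable {F : Type u} {U : Type v} [Field F] [Field U] [Algebra F U] {p : ℕ}
  {Λ : IntermediateField F U}

theorem tow_le {M : IntermediateField F U} (h : Tow F p Λ M) : M ≤ Tinf F p Λ := le_sSup h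

theorem exists_res (a : Tinf F p Λ ≃+* Tinf F p Λ)
    (hc : ∀ c : F, a (algebraMap F _ c) = algebraMap F _ c) {M : IntermediateField F U}
    (hM : M ≤ Tinf F p Λ) (hs : Stb a M) :
    ∃ b : M ≃ₐ[F] M, ∀ z : M, ((b z : M) : U) = (a ⟨z, hM z.2⟩ : Tinf F p Λ) := by
  let f : M →ₐ[F] M :=
    { toFun := fun z => ⟨(a ⟨z, hM z.2⟩ : Tinf F p Λ), (hs ⟨z, hM z.2⟩).1 z.2⟩
      map_one' := Subtype.ext (congrArg (fun y : Tinf F p Λ => (y : U)) (map_one a))
      map_mul' := fun x y => Subtype.ext (congrArg (fun y : Tinf F p Λ => (y : U))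
        (map_mul a (⟨x, hM x.2⟩ : Tinf F p Λ) ⟨y, hM y.2⟩))
      map_zero' := Subtype.ext (congrArg (fun y : Tinf F p Λ => (y : U)) (map_zero a))
      map_add' := fun x y => Subtype.ext (congrArg (fun y : Tinf F p Λ => (y : U))
        (map_add a (⟨x, hM x.2⟩ : Tinf F p Λ) ⟨y, hM y.2⟩))
      commutes' := fun c => Subtype.ext (congrArg (fun y : Tinf F p Λ => (y : U)) (hc c)) }
  have hf : ∀ z : M, ((f z : M) : U) = (a ⟨z, hM z.2⟩ : Tinf F p Λ) := fun z => rfl
  have hbij : Function.Bijective f := by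
    refine ⟨f.injective, fun z => ?_⟩
    obtain ⟨y, hy⟩ := a.surjective ⟨z, hM z.2⟩
    have hyM : (y : U) ∈ M := by
      rw [hs y, hy]
      exact z.2
    refine ⟨⟨y, hyM⟩, Subtype.ext ?_⟩
    rw [hf]
    exact congrArg Subtype.val hy
  exact ⟨AlgEquiv.ofBijective f hbij, hf⟩

theorem mvT_iff {a : Tinf F p Λ ≃+* Tinf F p Λ} {M : IntermediateField F U}
    (hM : M ≤ Tinf F p Λ) {b : M ≃ₐ[F] M}
    (hb : ∀ z : M, ((b z : M) : U) = (a ⟨z, hM z.2⟩ : Tinf F p Λ)) (x : Plc F M) :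
    MvT a x x ↔ Mv b.toRingEquiv x x := by
  constructor
  · intro h z
    exact h z (b z) ⟨z, hM z.2⟩ rfl (hb z).symm
  · intro h z z' y hy hz
    have h1 : y = ⟨z, hM z.2⟩ := Subtype.ext hy
    have h2 : z' = b z := by
      apply Subtype.ext
      rw [hb z, ← hz, h1]
    rw [h2]
    exact h z

theorem pow_res {a : Tinf F p Λ ≃+* Tinf F p Λ} {M : IntermediateField F U}
    (hM : M ≤ Tinf F p Λ) {b : M ≃ₐ[F] M}
    (hb : ∀ z : M, ((b z : M) : U) = (a ⟨z, hM z.2⟩ : Tinf F p Λ)) (n : ℕ) (z : M) :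
    (((b ^ n) z : M) : U) = ((a ^ n) ⟨z, hM z.2⟩ : Tinf F p Λ) := by
  induction n generalizing z with
  | zero => rfl
  | succ n ih =>
    rw [pow_succ, pow_succ]
    change (((b ^ n) (b z) : M) : U) = ((a ^ n) (a ⟨z, hM z.2⟩) : Tinf F p Λ)
    rw [ih]
    congr 2
    exact Subtype.ext (hb z)

/-- one inclusion is enough for stability -/
theorem stb_of {a : Tinf F p Λ ≃+* Tinf F p Λ} {l : ℕ} (hl : 0 < l) (hal : a ^ l = 1)
    {M : IntermediateField F U}
    (h : ∀ y : Tinf F p Λ, (y : U) ∈ M → ((a y : Tinf F p Λ) : U) ∈ M) : Stb a M := by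
  intro y
  refine ⟨h y, fun hy => ?_⟩
  have h1 : ∀ (n : ℕ) (y : Tinf F p Λ), (y : U) ∈ M → (((a ^ n) y : Tinf F p Λ) : U) ∈ M := by
    intro n
    induction n with
    | zero => exact fun y hy => hy
    | succ n ih =>
      intro y hy
      rw [pow_succ]
      exact ih _ (h y hy)
  have h2 := h1 (l - 1) _ hy
  have h3 : (a ^ (l - 1)) (a y) = y := by
    have : (a ^ (l - 1) * a) y = y := by
      rw [← pow_succ, Nat.sub_add_cancel hl, hal]
      rfl
    exact this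
  rwa [h3] at h2

theorem stb_adjoin {a : Tinf F p Λ ≃+* Tinf F p Λ} {l : ℕ} (hl : 0 < l) (hal : a ^ l = 1)
    (hc : ∀ c : F, a (algebraMap F _ c) = algebraMap F _ c)
    {M : IntermediateField F U} (hMT : M ≤ Tinf F p Λ) (hs : Stb a M) (η : Tinf F p Λ) (ξ : F)
    (hη : a η = algebraMap F _ ξ * η) : Stb a (M ⊔ IntermediateField.adjoin F {(η : U)}) := by
  refine stb_of hl hal ?_
  let f : Tinf F p Λ →ₐ[F] U :=
    { toFun := fun z => (a z : Tinf F p Λ)
      map_one' := congrArg Subtype.val (map_one a)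
      map_mul' := fun x y => congrArg Subtype.val (map_mul a x y)
      map_zero' := congrArg Subtype.val (map_zero a)
      map_add' := fun x y => congrArg Subtype.val (map_add a x y)
      commutes' := fun c => congrArg Subtype.val (hc c) }
  have hf : ∀ z : Tinf F p Λ, f z = (a z : Tinf F p Λ) := fun z => rfl
  let N : IntermediateField F (Tinf F p Λ) :=
    (M ⊔ IntermediateField.adjoin F {(η : U)}).comap f
  have hN : ∀ z : Tinf F p Λ, z ∈ N ↔
      ((a z : Tinf F p Λ) : U) ∈ M ⊔ IntermediateField.adjoin F {(η : U)} := fun z => Iff.rfl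
  have hηM : (η : U) ∈ M ⊔ IntermediateField.adjoin F {(η : U)} :=
    (le_sup_right : IntermediateField.adjoin F {(η : U)} ≤ M ⊔ _)
      (IntermediateField.mem_adjoin_simple_self F _)
  have h1 : M ⊔ IntermediateField.adjoin F {(η : U)} ≤ IntermediateField.lift N := by
    refine sup_le ?_ ?_
    · intro z hz
      refine (IntermediateField.mem_lift (⟨z, hMT hz⟩ : Tinf F p Λ)).2 ?_
      rw [hN]
      exact (le_sup_left : M ≤ M ⊔ _) ((hs ⟨z, hMT hz⟩).1 hz)
    · rw [IntermediateField.adjoin_simple_le_iff, IntermediateField.mem_lift, hN, hη]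
      exact mul_mem (IntermediateField.algebraMap_mem _ ξ) hηM
  intro y hy
  have h2 := h1 hy
  rwa [IntermediateField.mem_lift, hN] at h2

/-- `Abv` is `Over` -/
theorem abv_iff {M : IntermediateField F U} (hle : Λ ≤ M) (x : Plc F Λ) (y : Plc F M) :
    letI : Algebra Λ M := (IntermediateField.inclusion hle).toRingHom.toAlgebra
    Abv x y ↔ Over x y := by
  let : Algebra Λ M := (IntermediateField.inclusion hle).toRingHom.toAlgebra
  constructor
  · intro h
    ext z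
    exact h z (algebraMap Λ M z) rfl
  · intro h z z' hz
    have h1 : z' = algebraMap Λ M z := Subtype.ext hz.symm
    rw [h1]
    change z ∈ x.ring ↔ z ∈ y.ring.comap (algebraMap Λ M)
    rw [← h]

theorem abv_inj {M : IntermediateField F U} (hle : Λ ≤ M) {x x' : Plc F Λ} {y : Plc F M}
    (h : Abv x y) (h' : Abv x' y) : x = x' := by
  ext z
  exact (h z ⟨z, hle z.2⟩ rfl).trans (h' z ⟨z, hle z.2⟩ rfl).symm

theorem fixed_of_inY {a : Tinf F p Λ ≃+* Tinf F p Λ} (hs : Stb a Λ) {x : Plc F Λ}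
    (hx : InY a Λ x) : MvT a x x := by
  obtain ⟨y, hy, hy2⟩ := hx Λ Tow.base hs le_rfl
  have h1 : x = y := by
    ext z
    exact hy2 z z rfl
  rwa [← h1] at hy

/-- `M = Λ(η)`: subfields containing `Λ` and `η` are everything -/
theorem mem_of_gen {M : IntermediateField F U} {η : U} (hle : Λ ≤ M) (hη : η ∈ M)
    (hM : M ≤ Λ ⊔ IntermediateField.adjoin F {η}) (N : IntermediateField F M)
    (h1 : ∀ z : Λ, (⟨z, hle z.2⟩ : M) ∈ N) (h2 : (⟨η, hη⟩ : M) ∈ N) (w : M) : w ∈ N := by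
  have h3 : Λ ⊔ IntermediateField.adjoin F {η} ≤ IntermediateField.lift N := by
    refine sup_le ?_ ?_
    · intro z hz
      exact (IntermediateField.mem_lift (⟨z, hle hz⟩ : M)).2 (h1 ⟨z, hz⟩)
    · rw [IntermediateField.adjoin_simple_le_iff]
      exact (IntermediateField.mem_lift (⟨η, hη⟩ : M)).2 h2
  have h4 := h3 (hM w.2)
  rwa [IntermediateField.mem_lift] at h4

theorem adjoin_top {M : IntermediateField F U} {η : U} (hle : Λ ≤ M) (hη : η ∈ M)
    (hM : M ≤ Λ ⊔ IntermediateField.adjoin F {η}) :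
    letI : Algebra Λ M := (IntermediateField.inclusion hle).toRingHom.toAlgebra
    IntermediateField.adjoin Λ {(⟨η, hη⟩ : M)} = ⊤ := by
  let : Algebra Λ M := (IntermediateField.inclusion hle).toRingHom.toAlgebra
  have : IsScalarTower F Λ M := IsScalarTower.of_algebraMap_eq fun c => rfl
  rw [eq_top_iff]
  intro z _
  have h := mem_of_gen hle hη hM
    ((IntermediateField.adjoin Λ {(⟨η, hη⟩ : M)}).restrictScalars F)
    (fun z => IntermediateField.algebraMap_mem _ z)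
    (IntermediateField.mem_adjoin_simple_self Λ _) z
  exact h

end Res

/-! ### The case of a rational fixed field -/

theorem over_inj {F : Type u} {W : Type v} {W' : Type w} [Field F] [Field W] [Field W']
    [Algebra F W] [Algebra F W'] [Algebra W W'] {P P' : Plc F W} {Q : Plc F W'} (h : Over P Q)
    (h' : Over P' Q) : P = P' :=
  Plc.ext (Eq.trans h h'.symm)

theorem dg_single {F : Type u} {W : Type v} [Field F] [Field W] [Algebra F W] (P : Plc F W)
    (n : ℤ) : dg (Finsupp.single P n : Dv F W) = n :=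
  Finsupp.sum_single_index rfl

theorem case1 (hOrd : StOrd.{u, v}) (hRRF : StRRF.{u, v}) (hRat : StRat.{u, v})
    {F : Type u} {M : Type v} [Field F] [IsAlgClosed F] [Field M] [Algebra F M] (hFM : FF F M)
    (a : M ≃ₐ[F] M) (l : ℕ) (hl : l.Prime) (W : IntermediateField F M)
    (hW : ∀ z : M, z ∈ W ↔ a z = z) (hFW : FF F W) (hup : ∀ P : Plc F W, ∃ Q : Plc F M, Over P Q)
    (hdown : ∀ Q : Plc F M, ∃ P : Plc F W, Over P Q)
    (hram : ∀ (P : Plc F W) (Q : Plc F M), Over P Q →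
        (Mv a.toRingEquiv Q Q → (∀ f : W, f ≠ 0 → ord Q (f : M) = l * ord P f) ∧
          ∀ Q' : Plc F M, Over P Q' → Q' = Q) ∧
        (¬ Mv a.toRingEquiv Q Q → ∀ f : W, f ≠ 0 → ord Q (f : M) = ord P f))
    (b : M) (c : F) (hb : b ≠ 0) (hc : IsPrimitiveRoot c l) (hab : a b = algebraMap F M c * b)
    (x y : Plc F M) (hxy : x ≠ y) (hx : Mv a.toRingEquiv x x) (hy : Mv a.toRingEquiv y y)
    (honly : ∀ z : Plc F M, Mv a.toRingEquiv z z → z = x ∨ z = y) (hWr : IsRat F W) :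
    IsRat F M := by
  have hoW := hOrd F W hFW
  have hoM := hOrd F M hFM
  have hRW := hRRF F W hFW
  have hRM := hRRF F M hFM
  have hg0 : IsGenus F W 0 := ((hRat F W hFW).1).1 hWr
  obtain ⟨P1, hP1⟩ := hdown x
  obtain ⟨P2, hP2⟩ := hdown y
  have hP12 : P1 ≠ P2 := by
    rintro rfl
    exact hxy (((hram P1 x hP1).1 hx).2 y hP2).symm
  obtain ⟨s, hs0, hs⟩ := exists_dv hRW hg0 (Finsupp.single P1 1 - Finsupp.single P2 1) (by
    rw [sub_eq_add_neg, dg_add, dg_neg, dg_single, dg_single]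
    norm_num)
  have hs1 : ord P1 s = 1 := by
    rw [hs, Finsupp.sub_apply, Finsupp.single_eq_same, Finsupp.single_eq_of_ne hP12, sub_zero]
  have hs2 : ord P2 s = -1 := by
    rw [hs, Finsupp.sub_apply, Finsupp.single_eq_same, Finsupp.single_eq_of_ne hP12.symm, zero_sub]
  have hs3 : ∀ P : Plc F W, P ≠ P1 → P ≠ P2 → ord P s = 0 := by
    intro P h1 h2
    rw [hs, Finsupp.sub_apply, Finsupp.single_eq_of_ne h1, Finsupp.single_eq_of_ne h2, sub_zero]
  have hβm : b ^ l ∈ W := by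
    rw [hW, map_pow, hab, mul_pow, ← map_pow, hc.pow_eq_one, map_one, one_mul]
  obtain ⟨β, hβ⟩ : ∃ β : W, (β : M) = b ^ l := ⟨⟨b ^ l, hβm⟩, rfl⟩
  have hβ0 : β ≠ 0 := by
    rintro rfl
    exact pow_ne_zero l hb (by rw [← hβ]; rfl)
  -- places not below a fixed place
  have hPl : ∀ P : Plc F W, P ≠ P1 → P ≠ P2 → ∀ Q : Plc F M, Over P Q → ¬ Mv a.toRingEquiv Q Q := by
    intro P h1 h2 Q hQ hf
    rcases honly Q hf with rfl | rfl
    · exact h1 (over_inj hQ hP1)
    · exact h2 (over_inj hQ hP2)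
  have hdiv : ∀ P : Plc F W, P ≠ P1 → P ≠ P2 → (l : ℤ) ∣ ord P β := by
    intro P h1 h2
    obtain ⟨Q, hQ⟩ := hup P
    rw [← (hram P Q hQ).2 (hPl P h1 h2 Q hQ) β hβ0, hβ, ord_pow hoM Q hb]
    exact dvd_mul_right _ _
  obtain ⟨i, hi⟩ : ∃ i, i = ord P1 β := ⟨_, rfl⟩
  have hsz : s ^ (-i) ≠ 0 := zpow_ne_zero _ hs0
  have hβ' : ∀ P : Plc F W, ord P (β * s ^ (-i)) = ord P β - i * ord P s := by
    intro P
    rw [hoW.mul P _ _ hβ0 hsz, ord_zpow hoW P hs0]
    ring
  have hdv : ∀ P : Plc F W, (dv (β * s ^ (-i)) : Dv F W) P = ord P β - i * ord P s := by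
    intro P
    rw [hRW.dv_apply _ _ (mul_ne_zero hβ0 hsz), hβ']
  have hdg : dg (dv (β * s ^ (-i)) : Dv F W) = 0 := hRW.dg_dv _ (mul_ne_zero hβ0 hsz)
  have hdvd : ∀ P : Plc F W, (l : ℤ) ∣ (dv (β * s ^ (-i)) : Dv F W) P := by
    refine dvd_of_dg hdg P2 fun P h2 => ?_
    rw [hdv]
    by_cases h1 : P = P1
    · subst h1
      rw [hs1, ← hi, mul_one, sub_self]
      exact dvd_zero _
    · rw [hs3 P h1 h2, mul_zero, sub_zero]
      exact hdiv P h1 h2
  obtain ⟨E, hE, hE'⟩ := exists_div hl.ne_zero hdg hdvd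
  obtain ⟨γ, hγ0, hγ⟩ := exists_dv hRW hg0 E hE
  obtain ⟨c1, hc1⟩ : ∃ c1 : F, β * s ^ (-i) * (γ ^ l)⁻¹ = algebraMap F W c1 := by
    refine hRW.const _ (mul_ne_zero (mul_ne_zero hβ0 hsz) (inv_ne_zero (pow_ne_zero _ hγ0)))
      fun P => le_of_eq ?_
    rw [hoW.mul P _ _ (mul_ne_zero hβ0 hsz) (inv_ne_zero (pow_ne_zero _ hγ0)), hβ', ← hdv,
      ord_inv hoW P (pow_ne_zero _ hγ0), ord_pow hoW P hγ0, hγ, hE']
    ring
  have hc10 : c1 ≠ 0 := by
    rintro rfl
    rw [map_zero] at hc1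
    exact mul_ne_zero (mul_ne_zero hβ0 hsz) (inv_ne_zero (pow_ne_zero _ hγ0)) hc1
  have hβe : β = algebraMap F W c1 * s ^ i * γ ^ l := by
    rw [← hc1, zpow_neg]
    field_simp
  have hbe : b ^ l = algebraMap F M c1 * (s : M) ^ i * (γ : M) ^ l := by
    rw [← hβ, hβe]
    push_cast
    rfl
  have hs0' : (s : M) ≠ 0 := fun h => hs0 (Subtype.ext h)
  have hγ0' : (γ : M) ≠ 0 := fun h => hγ0 (Subtype.ext h)
  -- `l` does not divide `i`
  have hli : ¬ (l : ℤ) ∣ i := by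
    rintro ⟨i', hi'⟩
    obtain ⟨c2, hc2⟩ := IsAlgClosed.exists_pow_nat_eq c1 hl.pos
    have hc20 : c2 ≠ 0 := by
      rintro rfl
      rw [zero_pow hl.ne_zero] at hc2
      exact hc10 hc2.symm
    have hd0 : algebraMap F M c2 * (s : M) ^ i' * (γ : M) ≠ 0 :=
      mul_ne_zero (mul_ne_zero ((map_ne_zero _).2 hc20) (zpow_ne_zero _ hs0')) hγ0'
    have h1 : (b / (algebraMap F M c2 * (s : M) ^ i' * (γ : M))) ^ l = 1 := by
      rw [div_pow, mul_pow, mul_pow, ← map_pow, hc2, hbe, hi', mul_comm (l : ℤ) i', zpow_mul,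
        zpow_natCast]
      refine div_self (mul_ne_zero (mul_ne_zero ((map_ne_zero _).2 hc10) ?_)
        (pow_ne_zero _ hγ0'))
      exact pow_ne_zero _ (zpow_ne_zero _ hs0')
    obtain ⟨d, hd⟩ := const_of_pow (F := F) hl.pos h1
    have h2 : b = algebraMap F M d * (algebraMap F M c2 * (s : M) ^ i' * (γ : M)) := by
      rw [hd, div_mul_cancel₀ _ hd0]
    have h3 : b ∈ W := by
      rw [h2]
      exact mul_mem (W.algebraMap_mem d) (mul_mem (mul_mem (W.algebraMap_mem c2)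
        (zpow_mem s.2 _)) γ.2)
    have h4 := (hW b).1 h3
    rw [hab] at h4
    have h5 : algebraMap F M c = 1 := by
      have h6 : algebraMap F M c * b = 1 * b := by rw [h4, one_mul]
      exact mul_right_cancel₀ hb h6
    have h6 : c = 1 := (algebraMap F M).injective (by rw [h5, map_one])
    rw [h6] at hc
    exact hl.one_lt.ne' (hc.unique IsPrimitiveRoot.one)
  obtain ⟨u, v, huv⟩ : ∃ u v : ℤ, u * i + v * l = 1 := by
    have h1 : IsCoprime (l : ℤ) i :=
      (Nat.prime_iff_prime_int.1 hl).irreducible.coprime_iff_not_dvd.2 hli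
    obtain ⟨v, u, h⟩ := h1
    exact ⟨u, v, by linarith⟩
  obtain ⟨r, hr⟩ : ∃ r : M, r = (b * (γ : M)⁻¹) ^ u * (s : M) ^ v := ⟨_, rfl⟩
  have hbγ : b * (γ : M)⁻¹ ≠ 0 := mul_ne_zero hb (inv_ne_zero hγ0')
  have hr0 : r ≠ 0 := by
    rw [hr]
    exact mul_ne_zero (zpow_ne_zero _ hbγ) (zpow_ne_zero _ hs0')
  have hordr : ∀ Q : Plc F M, (l : ℤ) * ord Q r = ord Q (s : M) := by
    intro Q
    have h1 : (l : ℤ) * ord Q b = i * ord Q (s : M) + l * ord Q (γ : M) := by
      rw [← ord_pow hoM Q hb, hbe, hoM.mul Q _ _ (mul_ne_zero ((map_ne_zero _).2 hc10)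
        (zpow_ne_zero _ hs0')) (pow_ne_zero _ hγ0'), hoM.mul Q _ _ ((map_ne_zero _).2 hc10)
        (zpow_ne_zero _ hs0'), hRM.ord_const, ord_zpow hoM Q hs0', ord_pow hoM Q hγ0']
      ring
    rw [hr, hoM.mul Q _ _ (zpow_ne_zero _ hbγ) (zpow_ne_zero _ hs0'), ord_zpow hoM Q hbγ,
      ord_zpow hoM Q hs0', hoM.mul Q _ _ hb (inv_ne_zero hγ0'), ord_inv hoM Q hγ0']
    calc (l : ℤ) * (u * (ord Q b + -ord Q (γ : M)) + v * ord Q (s : M))
        = u * ((l : ℤ) * ord Q b - l * ord Q (γ : M)) + v * l * ord Q (s : M) := by ring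
      _ = (u * i + v * l) * ord Q (s : M) := by rw [h1]; ring
      _ = ord Q (s : M) := by rw [huv, one_mul]
  have hl0 : (l : ℤ) ≠ 0 := by exact_mod_cast hl.ne_zero
  refine (hRat F M hFM).2 ⟨x, y, r, hxy, hr0, ?_⟩
  ext Q
  rw [hRM.dv_apply r Q hr0, Finsupp.sub_apply]
  refine mul_left_cancel₀ hl0 ?_
  rw [hordr]
  by_cases h1 : Q = x
  · subst h1
    rw [Finsupp.single_eq_same, Finsupp.single_eq_of_ne hxy,
      ((hram P1 Q hP1).1 hx).1 s hs0, hs1, sub_zero]
  · by_cases h2 : Q = y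
    · subst h2
      rw [Finsupp.single_eq_same, Finsupp.single_eq_of_ne h1,
        ((hram P2 Q hP2).1 hy).1 s hs0, hs2, zero_sub]
    · rw [Finsupp.single_eq_of_ne h1, Finsupp.single_eq_of_ne h2, sub_zero, mul_zero]
      have hf : ¬ Mv a.toRingEquiv Q Q := by
        intro hf
        rcases honly Q hf with h | h
        · exact h1 h
        · exact h2 h
      obtain ⟨P, hP⟩ := hdown Q
      rw [(hram P Q hP).2 hf s hs0]
      refine hs3 P ?_ ?_
      · rintro rfl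
        exact h1 (((hram P x hP1).1 hx).2 Q hP)
      · rintro rfl
        exact h2 (((hram P y hP2).1 hy).2 Q hP)

/-! ### The case of a fixed field that is not rational -/

theorem eq_of_val {F : Type u} {W : Type v} [Field F] [Field W] [Algebra F W] {Q : Plc F W}
    {a b : F} (h : Q.ring.valuation (algebraMap F W a - algebraMap F W b) < 1) : a = b := by
  by_contra hab
  rw [← map_sub] at h
  have h1 : Q.ring.valuation (algebraMap F W (a - b)) * Q.ring.valuation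
      (algebraMap F W (a - b)⁻¹) = 1 := by
    rw [← map_mul, ← map_mul, mul_inv_cancel₀ (sub_ne_zero.2 hab), map_one, map_one]
  have h2 : Q.ring.valuation (algebraMap F W (a - b)⁻¹) ≤ 1 :=
    (Q.ring.valuation_le_one_iff _).2 (Q.const_mem _)
  have h3 : Q.ring.valuation (algebraMap F W (a - b)) * Q.ring.valuation
      (algebraMap F W (a - b)⁻¹) < 1 :=
    lt_of_le_of_lt (mul_le_of_le_one_right' h2) h
  exact absurd h1 h3.ne

/-- conjugate fixed places are fixed -/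
theorem mv_conj {F : Type u} {M : Type v} [Field F] [Field M] [Algebra F M] {y z : Plc F M}
    (b : M ≃ₐ[F] M) (s : M ≃+* M) (hbs : ∀ w, b (s w) = s (b w)) (hy : Mv b.toRingEquiv y y)
    (hs : Mv s y z) : Mv b.toRingEquiv z z := by
  intro w
  obtain ⟨w', rfl⟩ := s.surjective w
  rw [← hs w', hy w', hs]
  change s (b w') ∈ z.ring ↔ b (s w') ∈ z.ring
  rw [hbs]

end E6

open E6 in
theorem stE6 (hOrd : StOrd.{u, v}) (hRRF : StRRF.{u, v}) (hRat : StRat.{u, v})
    (hOver : StOver.{u, v, v}) (hTrans : StTrans.{u, v, v}) (hKum : StKum.{u, v, v})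
    (hCot : StCot.{u, v}) (hDelta : StDelta.{u, v}) (hCyc : StCyc.{u, v}) (hE3 : StE3.{u, v})
    (hE4 : StE4.{u, v}) : StE6.{u, v} := by
  intro F U _ _ _ _ p l Λ a hF hFF hnr hG x y hx hy hxy
  have hclosed := hF.closed
  have hchar := hF.char
  have hpp := hF.prime
  have hprime : ∀ q : ℕ, q.Prime → q ≠ p → (q : F) ≠ 0 := by
    intro q hq hqp h0
    rw [CharP.cast_eq_zero_iff F p, Nat.prime_dvd_prime_iff_eq hpp hq] at h0
    exact hqp h0.symm
  have hlF : (l : F) ≠ 0 := hprime l hG.prime hG.ne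
  have hTb : Tow F p Λ Λ := Tow.base
  have hΛT : Λ ≤ Tinf F p Λ := tow_le hTb
  obtain ⟨b, hb⟩ := exists_res a hG.cst hΛT hG.stab
  have hxf := fixed_of_inY hG.stab hx
  have hyf := fixed_of_inY hG.stab hy
  by_cases hthree : ∃ z : Plc F Λ, MvT a z z ∧ x ≠ z ∧ y ≠ z
  · obtain ⟨z, hz, h1, h2⟩ := hthree
    exact ⟨Λ, x, y, z, hTb, hG.stab, hx, hy, hz, hxy, h1, h2⟩
  have honly : ∀ z : Plc F Λ, Mv b.toRingEquiv z z → z = x ∨ z = y := by
    intro z hz
    by_contra hcon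
    push Not at hcon
    exact hthree ⟨z, (mvT_iff hΛT hb z).2 hz, hcon.1.symm, hcon.2.symm⟩
  -- restrictions of `a` have order `l`
  have hpow : ∀ {M : IntermediateField F U} (hM : M ≤ Tinf F p Λ) {b : M ≃ₐ[F] M},
      (∀ z : M, ((b z : M) : U) = (a ⟨z, hM z.2⟩ : Tinf F p Λ)) → b ^ l = 1 := by
    intro M hM b hb
    refine AlgEquiv.ext fun z => Subtype.ext ?_
    rw [pow_res hM hb, hG.pow]
    rfl
  have hne : ∀ {M : IntermediateField F U} (hM : M ≤ Tinf F p Λ) {b : M ≃ₐ[F] M}, Λ ≤ M →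
      (∀ z : M, ((b z : M) : U) = (a ⟨z, hM z.2⟩ : Tinf F p Λ)) → b ≠ 1 := by
    intro M hM b hle hb h1
    obtain ⟨z, hz, hz2⟩ := hG.ram
    apply hz2
    apply Subtype.ext
    have h2 := hb ⟨z, hle hz⟩
    rw [h1] at h2
    exact h2.symm
  have hbl : b ^ l = 1 := hpow hΛT hb
  have hb1 : b ≠ 1 := hne hΛT le_rfl hb
  obtain ⟨W, hW, hFW, hfin, hup, hdown, hram, β, c, hβ, hc, hβc⟩ :=
    hCyc F Λ b l hFF hG.prime hlF hbl hb1
  by_cases hWr : IsRat F W
  · exact absurd (case1 hOrd hRRF hRat hFF b l hG.prime W hW hFW hup hdown hram β c hβ hc hβc x y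
      hxy ((mvT_iff hΛT hb x).1 hxf) ((mvT_iff hΛT hb y).1 hyf) honly hWr) hnr
  obtain ⟨l', g, hl', hl'p, hgD, hgn⟩ := hDelta F W p hF hFW hWr
  obtain ⟨P1, hP1⟩ := hdown x
  have hg0 : g ≠ 0 := hgD.1
  have hg0' : (g : Λ) ≠ 0 := fun h => hg0 (Subtype.ext h)
  have hg'D : (g : Λ) ∈ Dn F l' := by
    refine ⟨hg0', fun Q => ?_⟩
    obtain ⟨P, hP⟩ := hdown Q
    by_cases hf : Mv b.toRingEquiv Q Q
    · rw [((hram P Q hP).1 hf).1 g hg0]
      exact (hgD.2 P).mul_left _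
    · rw [(hram P Q hP).2 hf g hg0]
      exact hgD.2 P
  have hpl' : ¬ p ∣ l' := fun h => hl'p ((Nat.prime_dvd_prime_iff_eq hpp hl').1 h).symm
  obtain ⟨η, hη⟩ := IsAlgClosed.exists_pow_nat_eq ((g : Λ) : U) hl'.pos
  have hTM0 : Tow F p Λ (Λ ⊔ IntermediateField.adjoin F {η}) :=
    Tow.step Λ η l' (g : Λ) hTb hpl' hη hg'D
  have hηM0 : η ∈ Λ ⊔ IntermediateField.adjoin F {η} :=
    (le_sup_right : IntermediateField.adjoin F {η} ≤ Λ ⊔ _)
      (IntermediateField.mem_adjoin_simple_self F _)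
  have hηT : η ∈ Tinf F p Λ := tow_le hTM0 hηM0
  have hη0 : η ≠ 0 := by
    rintro rfl
    rw [zero_pow hl'.ne_zero] at hη
    exact hg0' (Subtype.ext hη.symm)
  have hgT : a ⟨((g : Λ) : U), hΛT (g : Λ).2⟩ = ⟨((g : Λ) : U), hΛT (g : Λ).2⟩ := by
    apply Subtype.ext
    rw [← hb (g : Λ), (hW (g : Λ)).1 g.2]
  have hηg : (⟨η, hηT⟩ : Tinf F p Λ) ^ l' = ⟨((g : Λ) : U), hΛT (g : Λ).2⟩ := Subtype.ext hη
  have hηT0 : (⟨η, hηT⟩ : Tinf F p Λ) ≠ 0 := fun h => hη0 (congrArg Subtype.val h)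
  obtain ⟨ξ, hξ⟩ : ∃ ξ : F, algebraMap F (Tinf F p Λ) ξ = a ⟨η, hηT⟩ / ⟨η, hηT⟩ := by
    refine const_of_pow hl'.pos ?_
    rw [div_pow, ← map_pow, hηg, hgT, ← hηg]
    exact div_self (pow_ne_zero _ hηT0)
  have haη : a ⟨η, hηT⟩ = algebraMap F _ ξ * ⟨η, hηT⟩ := by
    rw [hξ, div_mul_cancel₀ _ hηT0]
  have hSM0 : Stb a (Λ ⊔ IntermediateField.adjoin F {η}) :=
    stb_adjoin hG.prime.pos hG.pow hG.cst hΛT hG.stab ⟨η, hηT⟩ ξ haη
  have hle0 : Λ ≤ Λ ⊔ IntermediateField.adjoin F {η} := le_sup_left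
  obtain ⟨M, hM⟩ : ∃ M : IntermediateField F U, M = Λ ⊔ IntermediateField.adjoin F {η} :=
    ⟨_, rfl⟩
  rw [← hM] at hTM0 hηM0 hSM0 hle0
  have hMT : M ≤ Tinf F p Λ := tow_le hTM0
  have hmem := fun (N : IntermediateField F M) => mem_of_gen hle0 hηM0 hM.le N
  have htop := adjoin_top hle0 hηM0 hM.le
  have habv := abv_iff hle0
  let : Algebra Λ M := (IntermediateField.inclusion hle0).toRingHom.toAlgebra
  have : IsScalarTower F Λ M := IsScalarTower.of_algebraMap_eq fun c => rfl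
  have halg : ∀ z : Λ, ((algebraMap Λ M z : M) : U) = z := fun z => rfl
  obtain ⟨ηM, hηM⟩ : ∃ ηM : M, ηM = ⟨η, hηM0⟩ := ⟨_, rfl⟩
  rw [← hηM] at htop hmem
  have hηMg : ηM ^ l' = algebraMap Λ M (g : Λ) := by
    rw [hηM]
    exact Subtype.ext hη
  have hηM1 : ηM ≠ 0 := by
    rw [hηM]
    exact fun h => hη0 (congrArg Subtype.val h)
  obtain ⟨hfd, hgal, hunr, -⟩ := hKum F Λ M l' ηM (g : Λ) hFF (hprime l' hl' hl'p) hηMg hg'D htop
  obtain ⟨hFM, -, e, -, heP, hsum⟩ := hOver F Λ M hFF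
  have hoM := hOrd F M hFM
  have hoΛ := hOrd F Λ hFF
  obtain ⟨bM, hbM⟩ := exists_res a hG.cst hMT hSM0
  -- lifts of the two places
  have hlift := (hE4 F U p l Λ a hF hFF hG (hE3 F U p l Λ a hF hFF hG)).2
  obtain ⟨x', hx'f, hx'x, hx'Y⟩ := hlift M x hTM0 hSM0 hx
  obtain ⟨y', hy'f, hy'y, hy'Y⟩ := hlift M y hTM0 hSM0 hy
  have hx'o : Over x x' := (habv x x').1 hx'x
  -- `a` fixes `η`
  have hbη : bM ηM = algebraMap F M ξ * ηM := by
    apply Subtype.ext
    rw [hbM, hηM]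
    exact congrArg (fun y : Tinf F p Λ => (y : U)) haη
  obtain ⟨c0, hc0, -, hc0v⟩ := hCot F M bM l x' hFM hG.prime hlF (hpow hMT hbM)
    (hne hMT hle0 hbM) ((mvT_iff hMT hbM x').1 hx'f)
  have hv := hc0v ηM hηM1
  rw [hbη, mul_div_assoc, div_self hηM1, mul_one] at hv
  have hξc := eq_of_val hv
  have hord : ∃ k : ℤ, ord x' ηM = l * k := by
    have h1 : (l' : ℤ) * ord x' ηM = l * ord P1 g := by
      rw [← ord_pow hoM x' hηM1, hηMg, hunr x x' hx'o (g : Λ) hg0']
      exact ((hram P1 x hP1).1 ((mvT_iff hΛT hb x).1 hxf)).1 g hg0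
    obtain ⟨k, hk⟩ := hgD.2 P1
    refine ⟨k, ?_⟩
    have hl'0 : (l' : ℤ) ≠ 0 := by exact_mod_cast hl'.ne_zero
    refine mul_left_cancel₀ hl'0 ?_
    rw [h1, hk]
    ring
  obtain ⟨k, hk⟩ := hord
  have hξ1 : ξ = 1 := by
    rw [hξc, hk, zpow_mul, zpow_natCast, hc0, one_zpow]
  rw [hξ1, map_one, one_mul] at haη hbη
  -- a second place above `x`
  obtain ⟨z', hz'o, hz'ne⟩ : ∃ z' : Plc F M, Over x z' ∧ z' ≠ x' := by
    by_contra hcon
    push Not at hcon
    have h1 := (hsum x).2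
    rw [finsum_eq_single _ x'] at h1
    · have h2 : e x' = 1 := by
        obtain ⟨t, ht0, ht⟩ := hoΛ.unif x
        have h3 := heP x x' hx'o t ht0
        rw [hunr x x' hx'o t ht0, ht, mul_one] at h3
        exact_mod_cast h3.symm
      classical
      rw [finsum_eq_if, if_pos hx'o, h2] at h1
      have h3 := Subalgebra.bot_eq_top_of_finrank_eq_one h1.symm
      have h4 : ηM ∈ (⊥ : Subalgebra Λ M) := by
        rw [h3]
        exact Algebra.mem_top
      obtain ⟨w, hw⟩ := Algebra.mem_bot.1 h4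
      have hwη : (w : U) = η := by
        rw [← halg w, hw, hηM]
      have hwW : w ∈ W := by
        rw [hW]
        apply Subtype.ext
        rw [hb w]
        have h5 : (⟨(w : U), hΛT w.2⟩ : Tinf F p Λ) = ⟨η, hηT⟩ := Subtype.ext hwη
        rw [h5, haη, hwη]
      refine hgn ⟨w, hwW⟩ (Subtype.ext (Subtype.ext ?_))
      change (w : U) ^ l' = _
      rw [hwη, hη]
    · intro Q hQ
      classical
      rw [finsum_eq_if, if_neg]
      exact fun h => hQ (hcon Q h)
  -- it is fixed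
  have hz'f : Mv bM.toRingEquiv z' z' := by
    obtain ⟨s, hs⟩ := hTrans F Λ M x x' z' hx'o hz'o
    refine mv_conj bM s.toRingEquiv ?_ ((mvT_iff hMT hbM x').1 hx'f) hs
    let f1 : M →ₐ[F] M := (bM : M →ₐ[F] M).comp ((s : M →ₐ[Λ] M).restrictScalars F)
    let f2 : M →ₐ[F] M := ((s : M →ₐ[Λ] M).restrictScalars F).comp (bM : M →ₐ[F] M)
    have hf1 : ∀ w, f1 w = bM (s w) := fun w => rfl
    have hf2 : ∀ w, f2 w = s (bM w) := fun w => rfl
    let N : IntermediateField F M := (AlgHom.equalizer f1 f2).toIntermediateField (by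
      intro w hw
      rw [AlgHom.mem_equalizer] at hw ⊢
      rw [map_inv₀, map_inv₀, hw])
    have hN : ∀ w : M, w ∈ N ↔ f1 w = f2 w := fun w => Iff.rfl
    have h1 : ∀ z : Λ, (⟨z, hle0 z.2⟩ : M) ∈ N := by
      intro z
      rw [hN, hf1, hf2]
      change bM (s (algebraMap Λ M z)) = s (bM (algebraMap Λ M z))
      have h2 : bM (algebraMap Λ M z) = algebraMap Λ M (b z) := by
        apply Subtype.ext
        rw [hbM]
        exact (hb z).symm
      rw [s.commutes, h2, s.commutes]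
    have h2 : ηM ∈ N := by
      rw [hN, hf1, hf2, hbη]
      obtain ⟨ζ, hζ⟩ : ∃ ζ : F, algebraMap F M ζ = s ηM / ηM := by
        refine const_of_pow hl'.pos ?_
        rw [div_pow, ← map_pow, hηMg, s.commutes]
        refine div_self ?_
        rw [← hηMg]
        exact pow_ne_zero _ hηM1
      have hsη : s ηM = algebraMap F M ζ * ηM := by
        rw [hζ, div_mul_cancel₀ _ hηM1]
      rw [hsη, map_mul, hbη, bM.commutes]
    intro w
    exact (hN w).1 (hmem N h1 h2 w)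
  refine ⟨M, x', y', z', hTM0, hSM0, hx'Y, hy'Y, (mvT_iff hMT hbM z').2 hz'f, ?_, hz'ne.symm, ?_⟩
  · rintro rfl
    exact hxy (abv_inj hle0 hx'x hy'y)
  · rintro rfl
    exact hxy (abv_inj hle0 ((habv x y').2 hz'o) hy'y)

end Pool.Agent.Lib.MP_c385f6_ag.TPG
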