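import Mathlib
import Pool.Agent.Lib.MP_c385f6_ag.TPG.StE

set_option autoImplicit false

/-!
Project TPG, E7: assembly of part E.
-/

namespace Pool.Agent.Lib.MP_c385f6_ag.TPG

universe u v w

namespace EE7

section
variable {F : Type u} {U : Type v} [Field F] [Field U] [Algebra F U] {p : ℕ}
  {Λ : IntermediateField F U}

/-- Restriction of an automorphism of the union of the towers. -/
noncomputable def rst (a : Tinf F p Λ ≃+* Tinf F p Λ) {M M' : IntermediateField F U}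
    (hM : M ≤ Tinf F p Λ) (hM' : M' ≤ Tinf F p Λ)
    (h : ∀ z : Tinf F p Λ, (z : U) ∈ M ↔ ((a z : Tinf F p Λ) : U) ∈ M') : M ≃+* M' where
  toFun m := ⟨a ⟨m, hM m.2⟩, (h _).1 m.2⟩
  invFun m' := ⟨a.symm ⟨m', hM' m'.2⟩, by
    rw [h, a.apply_symm_apply]
    exact m'.2⟩
  left_inv m := by
    apply Subtype.ext
    show ((a.symm (a ⟨m, hM m.2⟩) : Tinf F p Λ) : U) = m
    rw [a.symm_apply_apply]
  right_inv m := by
    apply Subtype.ext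
    show ((a (a.symm ⟨m, hM' m.2⟩) : Tinf F p Λ) : U) = m
    rw [a.apply_symm_apply]
  map_mul' x y := by
    apply Subtype.ext
    have h1 : (⟨((x * y : M) : U), hM (x * y).2⟩ : Tinf F p Λ) =
        ⟨x, hM x.2⟩ * ⟨y, hM y.2⟩ := rfl
    show ((a ⟨((x * y : M) : U), hM (x * y).2⟩ : Tinf F p Λ) : U) = _
    rw [h1, map_mul]
    rfl
  map_add' x y := by
    apply Subtype.ext
    have h1 : (⟨((x + y : M) : U), hM (x + y).2⟩ : Tinf F p Λ) =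
        ⟨x, hM x.2⟩ + ⟨y, hM y.2⟩ := rfl
    show ((a ⟨((x + y : M) : U), hM (x + y).2⟩ : Tinf F p Λ) : U) = _
    rw [h1, map_add]
    rfl

theorem mv_iff (a : Tinf F p Λ ≃+* Tinf F p Λ) {M M' : IntermediateField F U}
    (hM : M ≤ Tinf F p Λ) (hM' : M' ≤ Tinf F p Λ)
    (h : ∀ z : Tinf F p Λ, (z : U) ∈ M ↔ ((a z : Tinf F p Λ) : U) ∈ M')
    (P : Plc F M) (Q : Plc F M') : Mv (rst a hM hM' h) P Q ↔ MvT a P Q := by
  constructor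
  · intro hmv z z' y hy hy'
    have h1 : rst a hM hM' h z = z' := by
      apply Subtype.ext
      show ((a ⟨z, hM z.2⟩ : Tinf F p Λ) : U) = z'
      have h2 : (⟨z, hM z.2⟩ : Tinf F p Λ) = y := Subtype.ext hy.symm
      rw [h2, hy']
    rw [← h1]
    exact hmv z
  · intro hmv z
    exact hmv z (rst a hM hM' h z) ⟨z, hM z.2⟩ rfl rfl

theorem exMv (hO : StOIv.{u, v, u, v}) (a : Tinf F p Λ ≃+* Tinf F p Λ)
    {M M' : IntermediateField F U} (hM : M ≤ Tinf F p Λ) (hM' : M' ≤ Tinf F p Λ)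
    (h : ∀ z : Tinf F p Λ, (z : U) ∈ M ↔ ((a z : Tinf F p Λ) : U) ∈ M')
    (hc : ∀ c : F, ∃ c' : F, a (algebraMap F _ c) = algebraMap F _ c')
    (hc' : ∀ c : F, ∃ c' : F, a.symm (algebraMap F _ c) = algebraMap F _ c')
    (P : Plc F M) : ∃ Q : Plc F M', MvT a P Q := by
  have h1 : ∀ c : F, ∃ c' : F, rst a hM hM' h (algebraMap F M c) = algebraMap F M' c' := by
    intro c
    obtain ⟨c', h2⟩ := hc c
    refine ⟨c', Subtype.ext ?_⟩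
    show ((a (algebraMap F _ c) : Tinf F p Λ) : U) = _
    rw [h2]
    rfl
  have h2 : ∀ c' : F, ∃ c : F, rst a hM hM' h (algebraMap F M c) = algebraMap F M' c' := by
    intro c'
    obtain ⟨c, h3⟩ := hc' c'
    refine ⟨c, Subtype.ext ?_⟩
    show ((a (algebraMap F _ c) : Tinf F p Λ) : U) = _
    rw [← h3, a.apply_symm_apply]
    rfl
  obtain ⟨Q, hQ, -⟩ := ((hO F M F M' (rst a hM hM' h)).2 h1 h2).1 P
  exact ⟨Q, (mv_iff a hM hM' h P Q).1 hQ⟩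

theorem stb_pow {a : Tinf F p Λ ≃+* Tinf F p Λ} {M : IntermediateField F U} (h : Stb a M)
    (j : ℕ) : Stb (a ^ j) M := by
  induction j with
  | zero =>
    intro y
    rw [pow_zero]
    rfl
  | succ j ih =>
    intro y
    rw [pow_succ']
    show _ ↔ ((a ((a ^ j) y) : Tinf F p Λ) : U) ∈ M
    rw [← h, ← ih]

theorem mvT_pow {a : Tinf F p Λ ≃+* Tinf F p Λ} {M : IntermediateField F U} (h : Stb a M)
    {x : Plc F M} (hx : MvT a x x) (j : ℕ) : MvT (a ^ j) x x := by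
  induction j with
  | zero =>
    intro z z' y h1 h2
    rw [pow_zero] at h2
    have h3 : z = z' := Subtype.ext (h1.symm.trans h2)
    rw [h3]
  | succ j ih =>
    intro z z' y h1 h2
    rw [pow_succ'] at h2
    have h3 : (((a ^ j) y : Tinf F p Λ) : U) ∈ M := by
      rw [← stb_pow h j y, h1]
      exact z.2
    rw [ih z ⟨_, h3⟩ y h1 rfl]
    exact hx ⟨_, h3⟩ z' ((a ^ j) y) rfl h2

end

end EE7

open EE7

/-- E7. Conclusion of part E. -/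
theorem stE (h1 : StE1.{u, v, w}) (h2 : StE2.{u, v, w}) (h3 : StE3.{u, v}) (h4 : StE4.{u, v})
    (h5 : StE5.{u, v}) (h6 : StE6.{u, v}) (hO : StOIv.{u, v, u, v}) (hD : StTwDir.{u, v})
    (hA : StTwAut.{u, v}) : StE.{u, v, w} := by
  intro F U _ _ _ _ p Λ G _ ρ I P φ hF hFF hRat hE
  have hcl : IsAlgClosed F := hF.closed
  have hchar : CharP F p := hF.char
  have hPr : PrP p F := fun n hn h => hn ((CharP.cast_eq_zero_iff F p n).1 h)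
  obtain ⟨hD1, hD2, hD3, -, -⟩ := hD F U p Λ hFF hPr
  have hΛT : Λ ≤ Tinf F p Λ := fun z hz => (hD3 z).2 ⟨Λ, Tow.base, hz⟩
  have hMT : ∀ M, Tow F p Λ M → M ≤ Tinf F p Λ := fun M hM z hz => (hD3 z).2 ⟨M, hM, hz⟩
  obtain ⟨t, htI, l, hG, hconj⟩ := h2 F U p Λ G ρ I P φ hF hFF hE
    (h1 F U p Λ G ρ I P φ hF hFF hE)
  obtain ⟨⟨x0, hx0⟩, -⟩ := h4 F U p l Λ (ρ t) hF hFF hG (h3 F U p l Λ (ρ t) hF hFF hG)
  have huq : ∀ x y : Plc F Λ, InY (ρ t) Λ x → InY (ρ t) Λ y → x = y := by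
    intro x y hx hy
    by_contra hne
    obtain ⟨M, x', y', z', hM, hS, hx', hy', hz', e1, e2, e3⟩ :=
      h6 F U p l Λ (ρ t) hF hFF hRat hG x y hx hy hne
    exact h5 F U p l Λ (ρ t) hF hFF hG M x' y' z' hM hS hx' hy' hz' e1 e2 e3
  refine ⟨x0, fun s => ?_⟩
  have hss : ∀ (s : G) (z : Tinf F p Λ), ρ s (ρ s⁻¹ z) = z := by
    intro s z
    have : ρ s (ρ s⁻¹ z) = (ρ s * ρ s⁻¹) z := rfl
    rw [this, ← map_mul, mul_inv_cancel, map_one]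
    rfl
  have hss' : ∀ (s : G) (z : Tinf F p Λ), ρ s⁻¹ (ρ s z) = z := by
    intro s z
    have := hss s⁻¹ z
    rwa [inv_inv] at this
  have hsymm : ∀ s : G, (ρ s).symm = ρ s⁻¹ := by
    intro s
    apply RingEquiv.ext
    intro z
    apply (ρ s).injective
    rw [RingEquiv.apply_symm_apply, hss]
  have hc : ∀ (s : G) (c : F), ∃ c' : F, ρ s (algebraMap F _ c) = algebraMap F _ c' := hE.cst
  have hc' : ∀ (s : G) (c : F), ∃ c' : F, (ρ s).symm (algebraMap F _ c) = algebraMap F _ c' := by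
    intro s c
    rw [hsymm]
    exact hE.cst s⁻¹ c
  obtain ⟨x1, hx1⟩ := exMv hO (ρ s) hΛT hΛT (hE.stab s) (hc s) (hc' s) x0
  suffices h : InY (ρ t) Λ x1 by rwa [huq x1 x0 h hx0] at hx1
  intro M' hM' hS' hΛM'
  -- the tower below
  obtain ⟨M'', hM'', hM''T, hiff⟩ := hA F U p Λ (Tinf F p Λ) (ρ s⁻¹) hFF hPr hΛT (hc s⁻¹)
    (hc' s⁻¹) (hE.stab s⁻¹) M' hM' (hMT M' hM')
  have hiff' : ∀ z : Tinf F p Λ, (z : U) ∈ M'' ↔ ((ρ s z : Tinf F p Λ) : U) ∈ M' := by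
    intro z
    rw [hiff, hss']
  have hS'' : Stb (ρ t) M'' := by
    intro y
    obtain ⟨j, hj⟩ := hconj s
    have e1 : ρ s (ρ t y) = (ρ t ^ j) (ρ s y) := by
      rw [← map_pow, ← hj]
      have : ρ s (ρ t y) = ρ s (ρ t (ρ s⁻¹ (ρ s y))) := by rw [hss']
      rw [this, map_mul, map_mul]
      rfl
    rw [hiff', hiff', e1, ← stb_pow hS' j]
  have hΛM'' : Λ ≤ M'' := (hD1 M'' hM'').1
  obtain ⟨y, hy1, hy2⟩ := hx0 M'' hM'' hS'' hΛM''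
  obtain ⟨y1, hy3⟩ := exMv hO (ρ s) (hMT M'' hM'') (hMT M' hM') hiff' (hc s) (hc' s) y
  refine ⟨y1, ?_, ?_⟩
  · intro z z' y0 e1 e2
    obtain ⟨j, hj⟩ := hconj s⁻¹
    have hw : ((ρ s⁻¹ y0 : Tinf F p Λ) : U) ∈ M'' := by
      rw [← hiff, e1]
      exact z.2
    have hw' : ((ρ s⁻¹ (ρ t y0) : Tinf F p Λ) : U) ∈ M'' := by
      rw [← hiff, e2]
      exact z'.2
    have k1 := hy3 ⟨_, hw⟩ z (ρ s⁻¹ y0) rfl (by rw [hss, e1])
    have k2 := hy3 ⟨_, hw'⟩ z' (ρ s⁻¹ (ρ t y0)) rfl (by rw [hss, e2])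
    have k3 := mvT_pow hS'' hy1 j ⟨_, hw⟩ ⟨_, hw'⟩ (ρ s⁻¹ y0) rfl (by
      rw [← map_pow, ← hj]
      show ((ρ (s⁻¹ * t * s⁻¹⁻¹) (ρ s⁻¹ y0) : Tinf F p Λ) : U) = (ρ s⁻¹ (ρ t y0) : Tinf F p Λ)
      have e3 : ρ (s⁻¹ * t * s⁻¹⁻¹) (ρ s⁻¹ y0) = ρ s⁻¹ (ρ t (ρ s⁻¹⁻¹ (ρ s⁻¹ y0))) := by
        rw [map_mul, map_mul]
        rfl
      rw [e3, inv_inv, hss])
    rw [← k1, ← k2]
    exact k3
  · intro z z' e1
    have hw : ((ρ s⁻¹ ⟨z, hΛT z.2⟩ : Tinf F p Λ) : U) ∈ Λ := by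
      rw [← hE.stab s⁻¹]
      exact z.2
    have k1 := hx1 ⟨_, hw⟩ z (ρ s⁻¹ ⟨z, hΛT z.2⟩) rfl (by rw [hss])
    have k2 := hy2 ⟨_, hw⟩ ⟨_, hΛM'' hw⟩ rfl
    have k3 := hy3 ⟨_, hΛM'' hw⟩ z' (ρ s⁻¹ ⟨z, hΛT z.2⟩) rfl (by rw [hss]; exact e1)
    rw [← k1, k2, k3]

end Pool.Agent.Lib.MP_c385f6_ag.TPG
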