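import Pool.Agent.Lib.MP_c385f6_ag.TPG.StT
import Pool.Agent.Lib.MP_c385f6_ag.TPG.EE1
import Pool.Agent.Lib.MP_c385f6_ag.TPG.EE4
import Pool.Agent.Lib.MP_c385f6_ag.TPG.EE6
import Pool.Agent.Lib.MP_c385f6_ag.TPG.EE7

/-!
Project TPG, E8: a place of the union of the towers that is fixed by the group.
-/

set_option autoImplicit false

namespace Pool.Agent.Lib.MP_c385f6_ag.TPG

universe u v w

namespace E8

variable {F : Type u} {U : Type v} [Field F] [Field U] [Algebra F U] {p : ℕ}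
  {Λ : IntermediateField F U}

/-! ### Towers over towers -/

theorem tow_trans {M N : IntermediateField F U} (hM : Tow F p Λ M) (hN : Tow F p M N) :
    Tow F p Λ N := by
  induction hN with
  | base => exact hM
  | step N h n g _ hn hh hg ih => exact Tow.step N h n g ih hn hh hg

/-- the properties of towers that are used -/
structure TD (F : Type u) {U : Type v} [Field F] [Field U] [Algebra F U] (p : ℕ)
    (Λ : IntermediateField F U) : Prop where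
  le : ∀ M, Tow F p Λ M → Λ ≤ M ∧ FF F M ∧ IntermediateField.relfinrank Λ M ≠ 0
  sup : ∀ M M', Tow F p Λ M → Tow F p Λ M' → Tow F p Λ (M ⊔ M')
  dn : ∀ (M M' : IntermediateField F U) (n : ℕ) (g : M) (g' : M'), Tow F p Λ M → Tow F p Λ M' →
      M ≤ M' → (g : U) = g' → g ∈ Dn F n → g' ∈ Dn F n

theorem tow_join (h : TD F p Λ) {M N : IntermediateField F U} (hM : Tow F p Λ M)
    (hN : Tow F p Λ N) : Tow F p M (M ⊔ N) := by
  induction hN with
  | base =>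
    rw [sup_eq_left.2 (h.le M hM).1]
    exact Tow.base
  | step N η n g hN hn hh hg ih =>
    rw [← sup_assoc]
    have hle : N ≤ M ⊔ N := le_sup_right
    exact Tow.step (M ⊔ N) η n ⟨(g : U), hle g.2⟩ ih hn hh
      (h.dn N (M ⊔ N) n g _ hN (h.sup M N hM hN) hle rfl hg)

theorem tow_over (h : TD F p Λ) {M N : IntermediateField F U} (hM : Tow F p Λ M)
    (hN : Tow F p Λ N) (hle : M ≤ N) : Tow F p M N := by
  have h1 := tow_join h hM hN
  rwa [sup_eq_right.2 hle] at h1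

theorem tinf_eq (h : TD F p Λ) {M : IntermediateField F U} (hM : Tow F p Λ M) :
    Tinf F p Λ = Tinf F p M := by
  refine le_antisymm (sSup_le fun N hN => ?_) (sSup_le fun N hN => ?_)
  · exact (le_sup_right : N ≤ M ⊔ N).trans (le_sSup (tow_join h hM hN))
  · exact le_sSup (tow_trans hM hN)

/-! ### Transport of automorphisms -/

/-- the same automorphism -/
def Rel {T T' : IntermediateField F U} (a : T ≃+* T) (a' : T' ≃+* T') : Prop :=
  ∀ (y : T) (y' : T'), (y : U) = y' → ((a y : T) : U) = (a' y' : T')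

theorem exists_rel {T T' : IntermediateField F U} (hT : T = T') (a : T ≃+* T) :
    ∃ a' : T' ≃+* T', Rel a a' := by
  subst hT
  exact ⟨a, fun y y' h => by rw [Subtype.ext h]⟩

theorem Rel.pow {T T' : IntermediateField F U} {a : T ≃+* T} {a' : T' ≃+* T'} (h : Rel a a')
    (n : ℕ) : Rel (a ^ n) (a' ^ n) := by
  induction n with
  | zero => exact fun y y' h => h
  | succ n ih =>
    intro y y' hy
    rw [pow_succ, pow_succ]
    exact ih (a y) (a' y') (h y y' hy)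

theorem Rel.one {T T' : IntermediateField F U} {a : T ≃+* T} {a' : T' ≃+* T'} (h : Rel a a')
    (hT : T = T') (h1 : a = 1) : a' = 1 := by
  subst hT
  rw [← h1]
  apply RingEquiv.ext
  intro y
  exact Subtype.ext (h y y rfl).symm

theorem Rel.cst {T T' : IntermediateField F U} {a : T ≃+* T} {a' : T' ≃+* T'} (h : Rel a a')
    (c : F) (h1 : a (algebraMap F T c) = algebraMap F T c) :
    a' (algebraMap F T' c) = algebraMap F T' c := by
  apply Subtype.ext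
  rw [← h (algebraMap F T c) (algebraMap F T' c) rfl, h1]
  rfl

theorem Rel.ne {T T' : IntermediateField F U} {a : T ≃+* T} {a' : T' ≃+* T'} (h : Rel a a')
    (hT : T = T') (N : IntermediateField F U) (h1 : ∃ z : T, (z : U) ∈ N ∧ a z ≠ z) :
    ∃ z : T', (z : U) ∈ N ∧ a' z ≠ z := by
  subst hT
  obtain ⟨z, hz, hz2⟩ := h1
  refine ⟨z, hz, fun he => hz2 ?_⟩
  apply Subtype.ext
  rw [h z z rfl, he]

variable {M : IntermediateField F U} {a : Tinf F p Λ ≃+* Tinf F p Λ}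
  {a' : Tinf F p M ≃+* Tinf F p M}

theorem mvT_rel (hT : Tinf F p Λ = Tinf F p M) (h : Rel a a') {N N' : IntermediateField F U}
    (x : Plc F N) (x' : Plc F N') : MvT a x x' ↔ MvT a' x x' := by
  constructor
  · intro hm z z' y e1 e2
    refine hm z z' ⟨y, hT.ge y.2⟩ e1 ?_
    rw [h ⟨y, hT.ge y.2⟩ y rfl]
    exact e2
  · intro hm z z' y e1 e2
    refine hm z z' ⟨y, hT.le y.2⟩ e1 ?_
    rw [← h y ⟨y, hT.le y.2⟩ rfl]
    exact e2

theorem stb_rel (hT : Tinf F p Λ = Tinf F p M) (h : Rel a a') (N : IntermediateField F U) :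
    Stb a N ↔ Stb a' N := by
  constructor
  · intro hm y
    have h1 := hm ⟨y, hT.ge y.2⟩
    rwa [h ⟨y, hT.ge y.2⟩ y rfl] at h1
  · intro hm y
    have h1 := hm ⟨y, hT.le y.2⟩
    rwa [← h y ⟨y, hT.le y.2⟩ rfl] at h1

theorem inY_rel (hd : TD F p Λ) (hM : Tow F p Λ M) (h : Rel a a')
    {N : IntermediateField F U} (hle : M ≤ N) (x : Plc F N) : InY a N x ↔ InY a' N x := by
  have hT := tinf_eq hd hM
  constructor
  · intro hx M' hM' hS' hNM'
    obtain ⟨y, hy, hy2⟩ := hx M' (tow_trans hM hM') ((stb_rel hT h M').2 hS') hNM'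
    exact ⟨y, (mvT_rel hT h y y).1 hy, hy2⟩
  · intro hx M' hM' hS' hNM'
    obtain ⟨y, hy, hy2⟩ := hx M' (tow_over hd hM hM' (hle.trans hNM')) ((stb_rel hT h M').1 hS')
      hNM'
    exact ⟨y, (mvT_rel hT h y y).2 hy, hy2⟩

theorem gam_rel (hd : TD F p Λ) (hM : Tow F p Λ M) (h : Rel a a') {l : ℕ} (hG : Gam p l Λ a)
    (hS : Stb a M) : Gam p l M a' := by
  have hT := tinf_eq hd hM
  refine ⟨hG.prime, hG.ne, fun c => h.cst c (hG.cst c), (stb_rel hT h M).1 hS,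
    (h.pow l).one hT hG.pow, ?_⟩
  obtain ⟨z, hz, hz2⟩ := hG.ram
  exact h.ne hT M ⟨z, (hd.le M hM).1 hz, hz2⟩

/-! ### Towers are not rational -/

theorem genus_pos (hKum : StKum.{u, v, v}) (hRiem : StRiem.{u, v}) (hRat : StRat.{u, v})
    [IsAlgClosed F] (hFF : FF F Λ) (hPr : PrP p F) (hd : TD F p Λ) (hnr : ¬ IsRat F Λ)
    {M : IntermediateField F U} (hM : Tow F p Λ M) : ∃ g : ℕ, IsGenus F M g ∧ 1 ≤ g := by
  induction hM with
  | base =>
    obtain ⟨g, hg, -⟩ := hRiem F Λ hFF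
    refine ⟨g, hg, ?_⟩
    rcases Nat.eq_zero_or_pos g with rfl | h
    · exact absurd ((hRat F Λ hFF).1.2 hg) hnr
    · exact h
  | step M h n g hM hn hh hg ih =>
    obtain ⟨a, ha, ha1⟩ := ih
    have hT' := Tow.step M h n g hM hn hh hg
    obtain ⟨b, hb', -⟩ := hRiem F ↥(M ⊔ IntermediateField.adjoin F {h}) (hd.le _ hT').2.1
    have hle : M ≤ M ⊔ IntermediateField.adjoin F {h} := le_sup_left
    have hmem : h ∈ M ⊔ IntermediateField.adjoin F {h} :=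
      (le_sup_right : IntermediateField.adjoin F {h} ≤ M ⊔ _)
        (IntermediateField.mem_adjoin_simple_self F _)
    have htop := E6.adjoin_top hle hmem le_rfl
    let : Algebra M ↥(M ⊔ IntermediateField.adjoin F {h}) :=
      (IntermediateField.inclusion hle).toRingHom.toAlgebra
    have : IsScalarTower F M ↥(M ⊔ IntermediateField.adjoin F {h}) :=
      IsScalarTower.of_algebraMap_eq fun c => rfl
    obtain ⟨hfd, -, -, hgen⟩ := hKum F M ↥(M ⊔ IntermediateField.adjoin F {h}) n ⟨h, hmem⟩ g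
      (hd.le M hM).2.1 (hPr n hn) (Subtype.ext hh) hg htop
    have h1 := hgen a b ha hb'
    refine ⟨b, hb', ?_⟩
    by_contra hb0
    have hb00 : b = 0 := by omega
    rw [hb00] at h1
    have h2 : (0 : ℤ) ≤ Module.finrank M ↥(M ⊔ IntermediateField.adjoin F {h}) * ((a : ℤ) - 1) :=
      mul_nonneg (by positivity) (by omega)
    push_cast at h1
    omega

theorem not_rat (hKum : StKum.{u, v, v}) (hRiem : StRiem.{u, v}) (hRat : StRat.{u, v})
    [IsAlgClosed F] (hFF : FF F Λ) (hPr : PrP p F) (hd : TD F p Λ) (hnr : ¬ IsRat F Λ)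
    {M : IntermediateField F U} (hM : Tow F p Λ M) : ¬ IsRat F M := by
  intro hr
  obtain ⟨g, hg, hg1⟩ := genus_pos hKum hRiem hRat hFF hPr hd hnr hM
  have h0 := ((hRat F M (hd.le M hM).2.1).1).1 hr
  have := (hRiem F M (hd.le M hM).2.1).unique hg h0
  omega

end E8

open E8 in
/-- E8. There is a place of the union of the towers that is fixed by the group. -/
theorem stE8 (h1 : StE1.{u, v, w}) (h2 : StE2.{u, v, w}) (h3 : StE3.{u, v}) (h4 : StE4.{u, v})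
    (h5 : StE5.{u, v}) (h6 : StE6.{u, v}) (hO : StOIv.{u, v, u, v}) (hD : StTwDir.{u, v})
    (hA : StTwAut.{u, v}) (hKum : StKum.{u, v, v}) (hRiem : StRiem.{u, v})
    (hRat : StRat.{u, v}) : StE8.{u, v, w} := by
  intro F U _ _ _ _ p Λ G _ ρ I P φ hF hFF hnr hE
  have hcl : IsAlgClosed F := hF.closed
  have hchar : CharP F p := hF.char
  have hPr : PrP p F := fun n hn h => hn ((CharP.cast_eq_zero_iff F p n).1 h)
  obtain ⟨hD1, hD2, hD3, -, hD5⟩ := hD F U p Λ hFF hPr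
  have hd : TD F p Λ := ⟨hD1, hD2, hD5⟩
  have hMT : ∀ M, Tow F p Λ M → M ≤ Tinf F p Λ := fun M hM => le_sSup hM
  have hΛT : Λ ≤ Tinf F p Λ := hMT Λ Tow.base
  obtain ⟨t, htI, l, hG, hconj⟩ := h2 F U p Λ G ρ I P φ hF hFF hE
    (h1 F U p Λ G ρ I P φ hF hFF hE)
  -- uniqueness
  have huq : ∀ M, Tow F p Λ M → Stb (ρ t) M → ∀ x y : Plc F M, InY (ρ t) M x →
      InY (ρ t) M y → x = y := by
    intro M hM hS x y hx hy
    by_contra hne
    obtain ⟨a', ha'⟩ := exists_rel (tinf_eq hd hM) (ρ t)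
    have hG' := gam_rel hd hM ha' hG hS
    obtain ⟨M', x', y', z', hM', hS', hx', hy', hz', e1, e2, e3⟩ :=
      h6 F U p l M a' hF (hD1 M hM).2.1 (not_rat hKum hRiem hRat hFF hPr hd hnr hM) hG' x y
        ((inY_rel hd hM ha' le_rfl x).1 hx) ((inY_rel hd hM ha' le_rfl y).1 hy) hne
    exact h5 F U p l M a' hF (hD1 M hM).2.1 hG' M' x' y' z' hM' hS' hx' hy' hz' e1 e2 e3
  -- existence
  have hex : ∀ M, Tow F p Λ M → Stb (ρ t) M → ∃ x : Plc F M, InY (ρ t) M x := by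
    intro M hM hS
    obtain ⟨⟨x0, hx0⟩, hl⟩ := h4 F U p l Λ (ρ t) hF hFF hG (h3 F U p l Λ (ρ t) hF hFF hG)
    obtain ⟨y, -, -, hy⟩ := hl M x0 hM hS hx0
    exact ⟨y, hy⟩
  -- compatibility
  have hcomp : ∀ M M', Tow F p Λ M → Tow F p Λ M' → Stb (ρ t) M → Stb (ρ t) M' → M ≤ M' →
      ∀ (x : Plc F M) (y : Plc F M'), InY (ρ t) M x → InY (ρ t) M' y → Abv x y := by
    intro M M' hM hM' hS hS' hle x y hx hy
    obtain ⟨a', ha'⟩ := exists_rel (tinf_eq hd hM) (ρ t)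
    have hG' := gam_rel hd hM ha' hG hS
    obtain ⟨-, hl⟩ := h4 F U p l M a' hF (hD1 M hM).2.1 hG'
      (h3 F U p l M a' hF (hD1 M hM).2.1 hG')
    obtain ⟨y', -, hy', hy''⟩ := hl M' x (tow_over hd hM hM' hle)
      ((stb_rel (tinf_eq hd hM) ha' M').1 hS') ((inY_rel hd hM ha' le_rfl x).1 hx)
    rw [huq M' hM' hS' y y' hy ((inY_rel hd hM ha' hle y').2 hy'')]
    exact hy'
  -- stable towers are cofinal
  obtain ⟨GS, hGS⟩ : ∃ GS : IntermediateField F U → Prop, ∀ M, GS M ↔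
      (Tow F p Λ M ∧ ∀ s : G, Stb (ρ s) M) := ⟨_, fun _ => Iff.rfl⟩
  have hss : ∀ (s : G) (z : Tinf F p Λ), ρ s (ρ s⁻¹ z) = z := EE1.apply_inv'
  have hss' : ∀ (s : G) (z : Tinf F p Λ), ρ s⁻¹ (ρ s z) = z := EE1.inv_apply'
  have hcof : ∀ M, Tow F p Λ M → ∃ M', GS M' ∧ M ≤ M' := by
    intro M hM
    obtain ⟨M', hM', hle, hst, -⟩ :=
      EE1.exists_stable (ρ := ρ) hD hA hFF hPr hE.stab hE.cst hE.orb hM
    refine ⟨M', (hGS M').2 ⟨hM', fun s y => ⟨hst s y, fun hy => ?_⟩⟩, hle⟩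
    have := hst s⁻¹ _ hy
    rwa [hss'] at this
  have hdir : ∀ M M', GS M → GS M' → ∃ M'', GS M'' ∧ M ≤ M'' ∧ M' ≤ M'' := by
    intro M M' hM hM'
    obtain ⟨M'', h, hle⟩ := hcof (M ⊔ M') (hD2 M M' ((hGS M).1 hM).1 ((hGS M').1 hM').1)
    exact ⟨M'', h, le_sup_left.trans hle, le_sup_right.trans hle⟩
  have hmemGS : ∀ z : Tinf F p Λ, ∃ M, GS M ∧ (z : U) ∈ M := by
    intro z
    obtain ⟨M, hM, hz⟩ := (hD3 z).1 z.2
    obtain ⟨M', hM', hle⟩ := hcof M hM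
    exact ⟨M', hM', hle hz⟩
  -- the place
  obtain ⟨YP, hYP⟩ : ∃ YP : Tinf F p Λ → Prop, ∀ z, YP z ↔
      ∃ (M : IntermediateField F U) (_ : GS M) (hz : (z : U) ∈ M) (x : Plc F M),
        InY (ρ t) M x ∧ (⟨z, hz⟩ : M) ∈ x.ring := ⟨_, fun _ => Iff.rfl⟩
  have key : ∀ (z : Tinf F p Λ) (M : IntermediateField F U), GS M → ∀ (hz : (z : U) ∈ M)
      (x : Plc F M), InY (ρ t) M x → (YP z ↔ (⟨z, hz⟩ : M) ∈ x.ring) := by
    intro z M hM hz x hx
    rw [hYP]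
    constructor
    · rintro ⟨M0, hM0, hz0, x0, hx0, hmem⟩
      obtain ⟨M2, hM2, hl, hl0⟩ := hdir M M0 hM hM0
      rw [hGS] at hM hM0 hM2
      obtain ⟨x2, hx2⟩ := hex M2 hM2.1 (hM2.2 t)
      rw [hcomp M M2 hM.1 hM2.1 (hM.2 t) (hM2.2 t) hl x x2 hx hx2 ⟨z, hz⟩ ⟨z, hl hz⟩ rfl]
      rwa [hcomp M0 M2 hM0.1 hM2.1 (hM0.2 t) (hM2.2 t) hl0 x0 x2 hx0 hx2 ⟨z, hz0⟩ ⟨z, hl hz⟩
        rfl] at hmem
    · intro h
      exact ⟨M, hM, hz, x, hx, h⟩
  have hexM : ∀ M, GS M → ∃ x : Plc F M, InY (ρ t) M x := by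
    intro M hM
    rw [hGS] at hM
    exact hex M hM.1 (hM.2 t)
  have hpair : ∀ z z' : Tinf F p Λ, ∃ M, GS M ∧ (z : U) ∈ M ∧ (z' : U) ∈ M := by
    intro z z'
    obtain ⟨M, hM, hz⟩ := hmemGS z
    obtain ⟨M', hM', hz'⟩ := hmemGS z'
    obtain ⟨M'', hM'', hl, hl'⟩ := hdir M M' hM hM'
    exact ⟨M'', hM'', hl hz, hl' hz'⟩
  have hmul : ∀ {z z' : Tinf F p Λ}, YP z → YP z' → YP (z * z') := by
    intro z z' hz hz'
    obtain ⟨M, hM, hzM, hzM'⟩ := hpair z z'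
    obtain ⟨x, hx⟩ := hexM M hM
    rw [key z M hM hzM x hx] at hz
    rw [key z' M hM hzM' x hx] at hz'
    rw [key (z * z') M hM (mul_mem hzM hzM') x hx]
    exact mul_mem hz hz'
  have hadd : ∀ {z z' : Tinf F p Λ}, YP z → YP z' → YP (z + z') := by
    intro z z' hz hz'
    obtain ⟨M, hM, hzM, hzM'⟩ := hpair z z'
    obtain ⟨x, hx⟩ := hexM M hM
    rw [key z M hM hzM x hx] at hz
    rw [key z' M hM hzM' x hx] at hz'
    rw [key (z + z') M hM (add_mem hzM hzM') x hx]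
    exact add_mem hz hz'
  have hneg : ∀ {z : Tinf F p Λ}, YP z → YP (-z) := by
    intro z hz
    obtain ⟨M, hM, hzM⟩ := hmemGS z
    obtain ⟨x, hx⟩ := hexM M hM
    rw [key z M hM hzM x hx] at hz
    rw [key (-z) M hM (neg_mem hzM) x hx]
    exact neg_mem hz
  have hconst : ∀ c : F, YP (algebraMap F _ c) := by
    intro c
    obtain ⟨M, hM, hzM⟩ := hmemGS (algebraMap F _ c)
    obtain ⟨x, hx⟩ := hexM M hM
    rw [key _ M hM hzM x hx]
    exact x.const_mem c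
  have hGΛ : GS Λ := (hGS Λ).2 ⟨Tow.base, hE.stab⟩
  refine ⟨{ carrier := {z | YP z}
            mul_mem' := hmul
            one_mem' := by
              have := hconst 1
              rwa [map_one] at this
            add_mem' := hadd
            zero_mem' := by
              have := hconst 0
              rwa [map_zero] at this
            neg_mem' := hneg
            mem_or_inv_mem' := ?_ }, hconst, ?_, ?_⟩
  · intro z
    obtain ⟨M, hM, hzM⟩ := hmemGS z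
    obtain ⟨x, hx⟩ := hexM M hM
    change YP z ∨ YP z⁻¹
    rw [key z M hM hzM x hx, key z⁻¹ M hM (inv_mem hzM) x hx]
    exact x.ring.mem_or_inv_mem _
  · obtain ⟨x, hx⟩ := hexM Λ hGΛ
    obtain ⟨z, hz⟩ : ∃ z : Λ, z ∉ x.ring := by
      by_contra hcon
      push Not at hcon
      exact x.ne_top (eq_top_iff.2 fun z _ => hcon z)
    refine ⟨⟨z, hΛT z.2⟩, z.2, fun h => hz ?_⟩
    exact (key ⟨z, hΛT z.2⟩ Λ hGΛ z.2 x hx).1 h
  -- stability under the group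
  · intro s z hz
    change YP z at hz
    change YP (ρ s z)
    obtain ⟨M, hM, hzM⟩ := hmemGS z
    obtain ⟨x, hx⟩ := hexM M hM
    have hM2 := (hGS M).1 hM
    have hsM : ((ρ s z : Tinf F p Λ) : U) ∈ M := (hM2.2 s z).1 hzM
    rw [key z M hM hzM x hx] at hz
    rw [key (ρ s z) M hM hsM x hx]
    suffices h : MvT (ρ s) x x from (h ⟨z, hzM⟩ ⟨ρ s z, hsM⟩ z rfl rfl).1 hz
    have hsymm : ∀ s : G, (ρ s).symm = ρ s⁻¹ := by
      intro s
      apply RingEquiv.ext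
      intro z
      apply (ρ s).injective
      rw [RingEquiv.apply_symm_apply, hss]
    have hc : ∀ (s : G) (c : F), ∃ c' : F, ρ s (algebraMap F _ c) = algebraMap F _ c' := hE.cst
    have hc' : ∀ (s : G) (c : F), ∃ c' : F, (ρ s).symm (algebraMap F _ c) = algebraMap F _ c' := by
      intro s c
      rw [hsymm]
      exact hE.cst s⁻¹ c
    obtain ⟨x1, hx1⟩ := EE7.exMv hO (ρ s) (hMT M hM2.1) (hMT M hM2.1) (hM2.2 s) (hc s) (hc' s) x
    suffices h : InY (ρ t) M x1 by rwa [huq M hM2.1 (hM2.2 t) x1 x h hx] at hx1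
    intro M' hM' hS' hMM'
    obtain ⟨M'', hM'', hM''T, hiff⟩ := hA F U p Λ (Tinf F p Λ) (ρ s⁻¹) hFF hPr hΛT (hc s⁻¹)
      (hc' s⁻¹) (hE.stab s⁻¹) M' hM' (hMT M' hM')
    have hiff' : ∀ z : Tinf F p Λ, (z : U) ∈ M'' ↔ ((ρ s z : Tinf F p Λ) : U) ∈ M' := by
      intro z
      rw [hiff, hss']
    have hS'' : Stb (ρ t) M'' := by
      intro y
      obtain ⟨j, hj⟩ := hconj s
      have e1 : ρ s (ρ t y) = (ρ t ^ j) (ρ s y) := by
        rw [← map_pow, ← hj]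
        have : ρ s (ρ t y) = ρ s (ρ t (ρ s⁻¹ (ρ s y))) := by rw [hss']
        rw [this, map_mul, map_mul]
        rfl
      rw [hiff', hiff', e1, ← EE7.stb_pow hS' j]
    have hMM'' : M ≤ M'' := by
      intro z hz
      rw [show z = ((⟨z, hMT M hM2.1 hz⟩ : Tinf F p Λ) : U) from rfl, hiff']
      exact hMM' ((hM2.2 s ⟨z, hMT M hM2.1 hz⟩).1 hz)
    obtain ⟨y, hy1, hy2⟩ := hx M'' hM'' hS'' hMM''
    obtain ⟨y1, hy3⟩ := EE7.exMv hO (ρ s) (hMT M'' hM'') (hMT M' hM') hiff' (hc s) (hc' s) y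
    refine ⟨y1, ?_, ?_⟩
    · intro z z' y0 e1 e2
      obtain ⟨j, hj⟩ := hconj s⁻¹
      have hw : ((ρ s⁻¹ y0 : Tinf F p Λ) : U) ∈ M'' := by
        rw [← hiff, e1]
        exact z.2
      have hw' : ((ρ s⁻¹ (ρ t y0) : Tinf F p Λ) : U) ∈ M'' := by
        rw [← hiff, e2]
        exact z'.2
      have k1 := hy3 ⟨_, hw⟩ z (ρ s⁻¹ y0) rfl (by rw [hss, e1])
      have k2 := hy3 ⟨_, hw'⟩ z' (ρ s⁻¹ (ρ t y0)) rfl (by rw [hss, e2])
      have k3 := EE7.mvT_pow hS'' hy1 j ⟨_, hw⟩ ⟨_, hw'⟩ (ρ s⁻¹ y0) rfl (by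
        rw [← map_pow, ← hj]
        show ((ρ (s⁻¹ * t * s⁻¹⁻¹) (ρ s⁻¹ y0) : Tinf F p Λ) : U) =
          (ρ s⁻¹ (ρ t y0) : Tinf F p Λ)
        have e3 : ρ (s⁻¹ * t * s⁻¹⁻¹) (ρ s⁻¹ y0) = ρ s⁻¹ (ρ t (ρ s⁻¹⁻¹ (ρ s⁻¹ y0))) := by
          rw [map_mul, map_mul]
          rfl
        rw [e3, inv_inv, hss])
      rw [← k1, ← k2]
      exact k3
    · intro z z' e1
      have hzT : (z : U) ∈ Tinf F p Λ := hMT M hM2.1 z.2
      have hw : ((ρ s⁻¹ ⟨z, hzT⟩ : Tinf F p Λ) : U) ∈ M := (hM2.2 s⁻¹ ⟨z, hzT⟩).1 z.2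
      have k1 := hx1 ⟨_, hw⟩ z (ρ s⁻¹ ⟨z, hzT⟩) rfl (by rw [hss])
      have k2 := hy2 ⟨_, hw⟩ ⟨_, hMM'' hw⟩ rfl
      have k3 := hy3 ⟨_, hMM'' hw⟩ z' (ρ s⁻¹ ⟨z, hzT⟩) rfl (by rw [hss]; exact e1)
      rw [← k1, k2, k3]

end Pool.Agent.Lib.MP_c385f6_ag.TPG
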