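import Pool.Agent.Lib.MP_c385f6_ag.TPG.StT2

set_option autoImplicit false

/-!
Project TPG, E9: the place of `Λ` below a fixed place of the union of the towers is unique.
-/

namespace Pool.Agent.Lib.MP_c385f6_ag.TPG

universe u v w

namespace EE9

variable {F : Type u} {U : Type v} [Field F] [Field U] [Algebra F U] {p : ℕ}
  {Λ : IntermediateField F U}

/-- The place of `M` below a valuation ring of the union of the towers. -/
noncomputable def pl (Y : ValuationSubring (Tinf F p Λ)) (hc : ∀ c : F, algebraMap F _ c ∈ Y)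
    {M : IntermediateField F U} (hM : M ≤ Tinf F p Λ)
    (hn : ∃ z : Tinf F p Λ, (z : U) ∈ M ∧ z ∉ Y) : Plc F M where
  ring := Y.comap (IntermediateField.inclusion hM : M →+* Tinf F p Λ)
  ne_top := by
    intro h
    obtain ⟨z, hz, hz'⟩ := hn
    apply hz'
    have h1 : (⟨z, hz⟩ : M) ∈ Y.comap (IntermediateField.inclusion hM : M →+* Tinf F p Λ) := by
      rw [h]
      exact ValuationSubring.mem_top _
    exact h1
  const_mem := fun c => hc c

theorem mem_pl (Y : ValuationSubring (Tinf F p Λ)) (hc : ∀ c : F, algebraMap F _ c ∈ Y)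
    {M : IntermediateField F U} (hM : M ≤ Tinf F p Λ)
    (hn : ∃ z : Tinf F p Λ, (z : U) ∈ M ∧ z ∉ Y) (z : M) (y : Tinf F p Λ) (h : (y : U) = z) :
    z ∈ (pl Y hc hM hn).ring ↔ y ∈ Y := by
  have h1 : y = IntermediateField.inclusion hM z := Subtype.ext h
  rw [h1]
  exact Iff.rfl

/-- The place below a fixed valuation ring is in `Y`. -/
theorem inY_pl {a : Tinf F p Λ ≃+* Tinf F p Λ} (Y : ValuationSubring (Tinf F p Λ))
    (hc : ∀ c : F, algebraMap F _ c ∈ Y) (hΛ : Λ ≤ Tinf F p Λ)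
    (hT : ∀ M, Tow F p Λ M → M ≤ Tinf F p Λ)
    (hn : ∃ z : Tinf F p Λ, (z : U) ∈ Λ ∧ z ∉ Y) (ha : ∀ z, z ∈ Y ↔ a z ∈ Y) :
    InY a Λ (pl Y hc hΛ hn) := by
  intro M' hM' _ hle
  obtain ⟨z0, hz0, hz0'⟩ := hn
  refine ⟨pl Y hc (hT M' hM') ⟨z0, hle hz0, hz0'⟩, ?_, ?_⟩
  · intro z z' y h1 h2
    rw [mem_pl Y hc (hT M' hM') _ z y h1, mem_pl Y hc (hT M' hM') _ z' (a y) h2]
    exact ha y
  · intro z z' h
    have h1 : ((IntermediateField.inclusion hΛ z : Tinf F p Λ) : U) = z := rfl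
    rw [mem_pl Y hc hΛ _ z (IntermediateField.inclusion hΛ z) h1,
      mem_pl Y hc (hT M' hM') _ z' (IntermediateField.inclusion hΛ z) (h1.trans h)]

end EE9

open EE9

/-- E9. The place of `Λ` below a fixed place of the union of the towers is unique. -/
theorem stE9 (h1 : StE1.{u, v, w}) (h2 : StE2.{u, v, w}) (h5 : StE5.{u, v}) (h6 : StE6.{u, v})
    (hD : StTwDir.{u, v}) : StE9.{u, v, w} := by
  intro F U _ _ _ _ p Λ G _ ρ I P φ hF hFF hRat hE Y Y' hc hn hs hc' hn' hs'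
  have hcl : IsAlgClosed F := hF.closed
  have hchar : CharP F p := hF.char
  have hPr : PrP p F := fun n hn h => hn ((CharP.cast_eq_zero_iff F p n).1 h)
  obtain ⟨hD1, hD2, hD3, -, -⟩ := hD F U p Λ hFF hPr
  have hΛT : Λ ≤ Tinf F p Λ := fun z hz => (hD3 z).2 ⟨Λ, Tow.base, hz⟩
  have hMT : ∀ M, Tow F p Λ M → M ≤ Tinf F p Λ := fun M hM z hz => (hD3 z).2 ⟨M, hM, hz⟩
  obtain ⟨t, htI, l, hG, hconj⟩ := h2 F U p Λ G ρ I P φ hF hFF hE
    (h1 F U p Λ G ρ I P φ hF hFF hE)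
  have huq : ∀ x y : Plc F Λ, InY (ρ t) Λ x → InY (ρ t) Λ y → x = y := by
    intro x y hx hy
    by_contra hne
    obtain ⟨M, x', y', z', hM, hS, hx', hy', hz', e1, e2, e3⟩ :=
      h6 F U p l Λ (ρ t) hF hFF hRat hG x y hx hy hne
    exact h5 F U p l Λ (ρ t) hF hFF hG M x' y' z' hM hS hx' hy' hz' e1 e2 e3
  have hss' : ∀ (s : G) (z : Tinf F p Λ), ρ s⁻¹ (ρ s z) = z := by
    intro s z
    have : ρ s⁻¹ (ρ s z) = (ρ s⁻¹ * ρ s) z := rfl
    rw [this, ← map_mul, inv_mul_cancel, map_one]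
    rfl
  have key : ∀ Z : ValuationSubring (Tinf F p Λ), (∀ (s : G) (z : Tinf F p Λ), z ∈ Z → ρ s z ∈ Z) →
      ∀ z, z ∈ Z ↔ ρ t z ∈ Z := by
    intro Z hZ z
    refine ⟨hZ t z, fun h => ?_⟩
    have := hZ t⁻¹ _ h
    rwa [hss'] at this
  have e := huq _ _ (inY_pl Y hc hΛT hMT hn (key Y hs)) (inY_pl Y' hc' hΛT hMT hn' (key Y' hs'))
  intro z hz
  rw [← mem_pl Y hc hΛT hn ⟨z, hz⟩ z rfl, ← mem_pl Y' hc' hΛT hn' ⟨z, hz⟩ z rfl, e]

end Pool.Agent.Lib.MP_c385f6_ag.TPG
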