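import Pool.Agent.Lib.MP_c385f6_ag.TPG.StE
import Pool.Agent.Lib.MP_c385f6_ag.TPG.AOrd

/-!
Project TPG: a subfield of finite index of a function field is a function field.
-/

set_option autoImplicit false

namespace Pool.Agent.Lib.MP_c385f6_ag.TPG

universe u v w

namespace EFFb

/-- if `W'` is finite over `F(s)`, then so is the subfield `W` that contains `s` -/
theorem finite_below (F : Type u) (W : Type v) (W' : Type w) [Field F] [Field W] [Algebra F W]
    [Field W'] [Algebra F W'] [Algebra W W'] [IsScalarTower F W W'] (s : W)
    (h : FiniteDimensional (IntermediateField.adjoin F {algebraMap W W' s}) W') :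
    FiniteDimensional (IntermediateField.adjoin F {s}) W := by
  let f : W →ₐ[F] W' := IsScalarTower.toAlgHom F W W'
  have hmap : (IntermediateField.adjoin F {s}).map f =
      IntermediateField.adjoin F {algebraMap W W' s} := by
    rw [IntermediateField.adjoin_map, Set.image_singleton]
    rfl
  let e : (IntermediateField.adjoin F {s}) ≃ₐ[F] (IntermediateField.adjoin F
      {algebraMap W W' s}) :=
    ((IntermediateField.adjoin F {s}).equivMap f).trans (IntermediateField.equivOfEq hmap)
  have h1 : Module.Finite (IntermediateField.adjoin F {s}) W' := by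
    refine Module.Finite.of_equiv_equiv (A₁ := IntermediateField.adjoin F {algebraMap W W' s})
      (B₁ := W') e.symm.toRingEquiv (RingEquiv.refl W') ?_
    ext x
    obtain ⟨y, rfl⟩ := e.surjective x
    change algebraMap W W' ((e.symm (e y) : IntermediateField.adjoin F {s}) : W) =
      ((e y : IntermediateField.adjoin F {algebraMap W W' s}) : W')
    rw [e.symm_apply_apply]
    rfl
  exact FiniteDimensional.of_injective
    (IsScalarTower.toAlgHom (IntermediateField.adjoin F {s}) W W').toLinearMap
    (algebraMap W W').injective

end EFFb

/-- A subfield of finite index of a function field is a function field. -/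
theorem stFFb : StFFb.{u, v, w} := by
  intro F W W' _ _ _ _ _ _ _ _ hFF
  have hs : ∃ s : W, Transcendental F s := by
    by_contra hcon
    push Not at hcon
    have h1 : Algebra.IsAlgebraic F W := ⟨fun s => by
      by_contra h
      exact hcon s h⟩
    have h3 : Algebra.IsAlgebraic F W' := Algebra.IsAlgebraic.trans F W W'
    obtain ⟨t, ht, _⟩ := hFF
    exact ht (h3.isAlgebraic t)
  obtain ⟨s, hs⟩ := hs
  have hs' : Transcendental F (algebraMap W W' s) :=
    (transcendental_algebraMap_iff (algebraMap W W').injective).2 hs
  exact ⟨s, hs, EFFb.finite_below F W W' s (AOrd.finite_adjoin hFF hs')⟩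

end Pool.Agent.Lib.MP_c385f6_ag.TPG
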