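import Pool.Agent.Lib.MP_c385f6_ag.TPG.StF

/-!
Project TPG, module F1: a place of `L = K C` that is fixed by `Gal(Ω / K)` gives a rational place
of `K`.
-/

set_option autoImplicit false

namespace Pool.Agent.Lib.MP_c385f6_ag.TPG

universe u v w

namespace FF1

theorem val_lt_iff {L : Type v} [Field L] (A : ValuationSubring L) (x : L) :
    A.valuation x < 1 ↔ x = 0 ∨ x⁻¹ ∉ A := by
  by_cases hx : x = 0
  · subst hx
    simp
  · have h0 : 0 < A.valuation x := by
      rw [zero_lt_iff]
      exact (Valuation.ne_zero_iff _).2 hx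
    rw [← A.valuation_le_one_iff, map_inv₀, not_le, one_lt_inv₀ h0]
    simp [hx]

end FF1

open FF1 in
/-- Module F1. -/
theorem stF1 (hR : StResF.{w, w}) : StF1.{u, v, w} := by
  intro k K Ω _ _ _ _ _ _ _ _ _ L hk hL hFF P hP
  have hΩ : IsAlgClosed Ω := IsAlgClosure.isAlgClosed K
  have halg : Algebra.IsAlgebraic K Ω := IsAlgClosure.isAlgebraic
  have : CharZero K := charZero_of_injective_algebraMap (algebraMap k K).injective
  have hN : Normal K Ω := IsAlgClosure.normal K Ω
  have hacF : IsAlgClosed (algebraicClosure k Ω) := IsAlgClosure.isAlgClosed k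
  have hGal : IsGalois K Ω := ⟨⟩
  have hmem : ∀ z : K, algebraMap K Ω z ∈ L := fun z => by
    rw [hL]
    exact IntermediateField.subset_adjoin _ _ ⟨z, rfl⟩
  let f : K →+* L := (algebraMap K Ω).codRestrict L.toSubring hmem
  have hf : ∀ z : K, ((f z : L) : Ω) = algebraMap K Ω z := fun z => rfl
  have hconst : ∀ c : k, f (algebraMap k K c) =
      algebraMap (algebraicClosure k Ω) L (algebraMap k (algebraicClosure k Ω) c) := by
    intro c
    apply Subtype.ext
    rw [hf, ← IsScalarTower.algebraMap_apply k K Ω]
    rfl
  refine ⟨P.ring.comap f, ?_, ?_, ?_⟩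
  · -- not everything
    intro htop
    apply P.ne_top
    rw [eq_top_iff]
    intro z _
    have hall : ∀ y : K, f y ∈ P.ring := by
      intro y
      have : y ∈ P.ring.comap f := by rw [htop]; trivial
      exact this
    let f' : K →+* P.ring := f.codRestrict P.ring.toSubring hall
    obtain ⟨q, hq, hq0⟩ := (Algebra.IsIntegral.isIntegral (R := K) ((z : L) : Ω) :
      IsIntegral K ((z : L) : Ω))
    have hint : IsIntegral P.ring z := by
      refine ⟨q.map f', hq.map _, ?_⟩
      apply Subtype.val_injective (p := fun x => x ∈ L)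
      rw [Polynomial.eval₂_map]
      have h2 : (algebraMap L Ω) (Polynomial.eval₂ ((algebraMap P.ring L).comp f') z q) = 0 := by
        rw [Polynomial.hom_eval₂]
        exact hq0
      exact h2
    obtain ⟨y, hy⟩ := IsIntegrallyClosed.isIntegral_iff.1 hint
    rw [← hy]
    exact y.2
  · intro c
    change f (algebraMap k K c) ∈ P.ring
    rw [hconst]
    exact P.const_mem _
  · intro z hz
    obtain ⟨c, hc⟩ := hR (algebraicClosure k Ω) L hFF P (f z) hz
    have hfix : ∀ s : Ω ≃ₐ[K] Ω, s (c : Ω) = c := by
      intro s
      have hsc : s (c : Ω) ∈ algebraicClosure k Ω := by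
        rw [mem_algebraicClosure_iff]
        have h1 : IsAlgebraic k (c : Ω) := mem_algebraicClosure_iff.1 c.2
        exact h1.algHom (s.restrictScalars k : Ω ≃ₐ[k] Ω).toAlgHom
      let c' : algebraicClosure k Ω := ⟨s (c : Ω), hsc⟩
      have hw : (((f z - algebraMap (algebraicClosure k Ω) L c' : L)) : Ω) =
          s ((f z - algebraMap (algebraicClosure k Ω) L c : L) : Ω) := by
        change algebraMap K Ω z - s (c : Ω) = s (algebraMap K Ω z - (c : Ω))
        rw [map_sub, s.commutes]
      have hw' : ((((f z - algebraMap (algebraicClosure k Ω) L c')⁻¹ : L)) : Ω) =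
          s (((f z - algebraMap (algebraicClosure k Ω) L c)⁻¹ : L) : Ω) := by
        have h3 : ∀ x : L, ((x⁻¹ : L) : Ω) = (x : Ω)⁻¹ := fun x => rfl
        rw [h3, h3, hw, map_inv₀]
      have hc' : P.ring.valuation (f z - algebraMap (algebraicClosure k Ω) L c') < 1 := by
        rw [val_lt_iff] at hc ⊢
        rcases hc with hc | hc
        · left
          apply Subtype.ext
          rw [hw, hc]
          exact map_zero s
        · right
          exact fun h => hc ((hP s _ _ hw').2 h)
      by_contra hne
      have hne' : c' - c ≠ 0 := by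
        rw [sub_ne_zero]
        intro h
        exact hne (congrArg Subtype.val h)
      have h4 : P.ring.valuation (algebraMap (algebraicClosure k Ω) L (c' - c)) < 1 := by
        have h5 : algebraMap (algebraicClosure k Ω) L (c' - c) =
            (f z - algebraMap (algebraicClosure k Ω) L c) -
              (f z - algebraMap (algebraicClosure k Ω) L c') := by
          rw [map_sub]
          ring
        rw [h5]
        exact (Valuation.map_sub _ _ _).trans_lt (max_lt hc hc')
      rw [val_lt_iff] at h4
      rcases h4 with h4 | h4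
      · exact hne' ((map_eq_zero _).1 h4)
      · rw [← map_inv₀] at h4
        exact h4 (P.const_mem _)
    obtain ⟨y, hy⟩ := (InfiniteGalois.mem_range_algebraMap_iff_fixed (c : Ω)).2 hfix
    have hya : IsAlgebraic k y := by
      have h1 : IsAlgebraic k (c : Ω) := mem_algebraicClosure_iff.1 c.2
      rw [← hy] at h1
      exact (isAlgebraic_algebraMap_iff (algebraMap K Ω).injective).1 h1
    obtain ⟨c₀, rfl⟩ := hk y hya
    refine ⟨c₀, ?_⟩
    have h6 : f (z - algebraMap k K c₀) = f z - algebraMap (algebraicClosure k Ω) L c := by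
      apply Subtype.ext
      rw [map_sub]
      change algebraMap K Ω z - algebraMap K Ω (algebraMap k K c₀) = algebraMap K Ω z - (c : Ω)
      rw [hy]
    rw [val_lt_iff] at hc ⊢
    rcases hc with hc | hc
    · left
      rw [← h6] at hc
      exact (map_eq_zero f).1 hc
    · right
      intro h
      apply hc
      rw [← h6, ← map_inv₀]
      exact h

end Pool.Agent.Lib.MP_c385f6_ag.TPG
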