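import Pool.Agent.Lib.MP_c385f6_ag.TPG.StF
import Pool.Agent.Lib.MP_c385f6_ag.TPG.CEqv
import Pool.Agent.Lib.MP_c385f6_ag.TPG.ARRF

/-!
Project TPG, part F2: a coordinate that is fixed up to constants gives a fixed place.
-/

set_option autoImplicit false

namespace Pool.Agent.Lib.MP_c385f6_ag.TPG

universe u v u' v' w

open RRFAux EqvAux

theorem stF2 (h0 : StOrd.{u, v}) (h1 : StCrd.{u, v, u', v'}) (h2 : StEqv.{u, v, u', v'}) :
    StF2.{u, v, u', v', w} := by
  intro C L F Λ _ _ _ _ _ _ _ _ R g sp G _ a a' x hG hsp hA hx z c hz hc hcrd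
  have O : OrdF C L := h0 C L hG.ffC
  obtain ⟨P, hP, hP1, hPQ⟩ := ((h1 C L F Λ R g sp hG hsp).2 x _ hcrd).1 0
    (by rw [map_zero, map_zero]; exact zero_lt_one)
  rw [map_zero, sub_zero] at hP1 hPQ
  have hcL : algebraMap C L c ≠ 0 := by rwa [Ne, map_eq_zero]
  have hz0 : z ≠ 0 := by
    rintro rfl
    rw [mul_zero, ord_zero] at hP1
    exact zero_ne_one hP1
  have hord : ∀ Q : Plc C L, ord Q (algebraMap C L c * z) = ord Q z := by
    intro Q
    rw [O.mul Q _ _ hcL hz0, ord_const O, zero_add]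
  rw [hord] at hP1
  refine ⟨P, hP, fun s => ?_⟩
  have hs : ∀ c : C, ∃ c' : C, a s (algebraMap C L c) = algebraMap C L c' := hA.cst s
  have hs' : ∀ c : C, ∃ c' : C, (a s).symm (algebraMap C L c) = algebraMap C L c' := by
    intro c
    obtain ⟨c', h⟩ := hA.cst s⁻¹ c
    rw [map_inv] at h
    exact ⟨c', h⟩
  obtain ⟨Q, hQ⟩ : ∃ Q, Mv (a s) P Q := ⟨_, mv_mapP (a s) hs' P⟩
  have h3 : Mv (a' s) (sp P) (sp Q) :=
    h2 C L F Λ R g sp (a s) (a' s) hG hsp hs hs' (hA.res s) P Q hQ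
  have h4 : sp Q = x := by
    rw [hP] at h3
    exact mv_unique h3 (hx s)
  have h5 : ord Q z = 1 := by
    rw [← hz s, ord_mv (a s) hQ, hP1]
  have h6 : Q = P := by
    by_contra hne
    have := hPQ Q h4 hne
    rw [hord, h5] at this
    exact one_ne_zero this
  rwa [h6] at hQ

end Pool.Agent.Lib.MP_c385f6_ag.TPG
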