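import Pool.Agent.Lib.MP_c385f6_ag.TPG.StC

/-!
Project TPG, part D: towers of `D_n`-roots over a field with good reduction.
-/

set_option autoImplicit false

namespace Pool.Agent.Lib.MP_c385f6_ag.TPG

universe u v u' v' w

/-- The union of all towers. -/
noncomputable def Tinf (C : Type u) {Ω : Type v} [Field C] [Field Ω] [Algebra C Ω] (p : ℕ)
    (L : IntermediateField C Ω) : IntermediateField C Ω :=
  sSup {M | Tow C p L M}

/-- Integers prime to `p` are not zero in `C`. -/
def PrP (p : ℕ) (C : Type u) [Field C] : Prop := ∀ n : ℕ, ¬ p ∣ n → (n : C) ≠ 0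

/-- The order is invariant under isomorphisms; `D_n` is compatible with finite extensions and
isomorphisms. -/
def StOIv : Prop :=
  ∀ (F : Type u) (W : Type v) (F' : Type u') (W' : Type v') [Field F] [Field W] [Field F']
    [Field W'] [Algebra F W] [Algebra F' W'] (s : W ≃+* W'),
    (∀ (P : Plc F W) (Q : Plc F' W') (z : W), Mv s P Q → ord Q (s z) = ord P z) ∧
    ((∀ c : F, ∃ c' : F', s (algebraMap F W c) = algebraMap F' W' c') →
      (∀ c' : F', ∃ c : F, s (algebraMap F W c) = algebraMap F' W' c') →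
      (∀ P : Plc F W, ∃! Q : Plc F' W', Mv s P Q) ∧ (∀ Q : Plc F' W', ∃! P : Plc F W, Mv s P Q) ∧
      ∀ (n : ℕ) (g : W), s g ∈ Dn F' n ↔ g ∈ Dn F n)

/-- D1. Basic properties of towers (needs only part A). -/
def StTwDir : Prop :=
  ∀ (C : Type u) (Ω : Type v) [Field C] [IsAlgClosed C] [Field Ω] [Algebra C Ω] (p : ℕ)
    (L : IntermediateField C Ω), FF C L → PrP p C →
    (∀ M, Tow C p L M → L ≤ M ∧ FF C M ∧ IntermediateField.relfinrank L M ≠ 0) ∧
    (∀ M M', Tow C p L M → Tow C p L M' → Tow C p L (M ⊔ M')) ∧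
    (∀ z : Ω, z ∈ Tinf C p L ↔ ∃ M, Tow C p L M ∧ z ∈ M) ∧
    (∀ (M : IntermediateField C Ω) (n : ℕ) (g : M) (h : Ω), Tow C p L M → ¬ p ∣ n →
      g ∈ Dn C n → h ^ n = g → h ∈ Tinf C p L) ∧
    (∀ (M M' : IntermediateField C Ω) (n : ℕ) (g : M) (g' : M'), Tow C p L M → Tow C p L M' →
      M ≤ M' → (g : Ω) = g' → g ∈ Dn C n → g' ∈ Dn C n)

/-- D2. Automorphisms map towers to towers (needs only part A). -/
def StTwAut : Prop :=
  ∀ (C : Type u) (Ω : Type v) [Field C] [IsAlgClosed C] [Field Ω] [Algebra C Ω] (p : ℕ)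
    (L : IntermediateField C Ω) (A : IntermediateField C Ω) (a : A ≃+* A), FF C L → PrP p C →
    L ≤ A → (∀ c : C, ∃ c' : C, a (algebraMap C A c) = algebraMap C A c') →
    (∀ c : C, ∃ c' : C, a.symm (algebraMap C A c) = algebraMap C A c') →
    (∀ z : A, (z : Ω) ∈ L ↔ (a z : Ω) ∈ L) →
    ∀ M : IntermediateField C Ω, Tow C p L M → M ≤ A →
      ∃ M' : IntermediateField C Ω, Tow C p L M' ∧ M' ≤ A ∧
        ∀ z : A, (z : Ω) ∈ M ↔ (a z : Ω) ∈ M'

/-- D3. Towers over a field with good reduction have good reduction. -/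
def StTwGood : Prop :=
  ∀ (C : Type u) (Ω : Type v) (F : Type u') (U : Type v') [Field C] [IsAlgClosed C] [Field Ω]
    [Field F] [IsAlgClosed F] [Field U] [Algebra C Ω] [Algebra F U] (R : Red C Ω F U) (p g : ℕ)
    (L : IntermediateField C Ω), PrP p C → PrP p F → Good (R.sub L) g →
    ∀ M, Tow C p L M → L ≤ M ∧ (∃ g' : ℕ, Good (R.sub M) g') ∧
      IntermediateField.relfinrank L M ≠ 0 ∧
      IntermediateField.relfinrank L M = IntermediateField.relfinrank (R.img L) (R.img M) ∧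
      Tow F p (R.img L) (R.img M)

/-- D4. The valuation ring is unique on the union of the towers. -/
def StTwUq : Prop :=
  ∀ (C : Type u) (Ω : Type v) (F : Type u') (U : Type v') [Field C] [IsAlgClosed C] [Field Ω]
    [Field F] [IsAlgClosed F] [Field U] [Algebra C Ω] [Algebra F U] (R : Red C Ω F U) (p g : ℕ)
    (L : IntermediateField C Ω), PrP p C → PrP p F → Good (R.sub L) g →
    ∀ w' : ValuationSubring (Tinf C p L),
      (∀ z : Tinf C p L, (z : Ω) ∈ L → (z ∈ w' ↔ (z : Ω) ∈ R.w)) →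
      ∀ z : Tinf C p L, z ∈ w' ↔ (z : Ω) ∈ R.w

/-- D5. The residue field of the union of the towers is the union of the towers of the residue
field. `hS` is the surjectivity (S) for all towers. -/
def StTwImg : Prop :=
  ∀ (C : Type u) (Ω : Type v) (F : Type u') (U : Type v') [Field C] [IsAlgClosed C] [Field Ω]
    [IsAlgClosed Ω] [Field F] [IsAlgClosed F] [Field U] [Algebra C Ω] [Algebra F U]
    (R : Red C Ω F U) (p g : ℕ) (L : IntermediateField C Ω), PrP p C → PrP p F →
    Good (R.sub L) g →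
    (∀ (M : IntermediateField C Ω) (n : ℕ) (y : R.img M), Tow C p L M → (∃ g', Good (R.sub M) g') →
      ¬ p ∣ n → y ∈ Dn F n →
      ∃ (f : M) (b : R.img M), f ∈ Dn C n ∧ b ≠ 0 ∧ (R.sub M).res f = y * b ^ n) →
    R.img (Tinf C p L) = Tinf F p (R.img L)

/-- D6. A group acting on the union of the towers acts on the residue field. -/
def StTwAct : Prop :=
  ∀ (C : Type u) (Ω : Type v) (F : Type u') (U : Type v') [Field C] [IsAlgClosed C] [Field Ω]
    [Field F] [IsAlgClosed F] [Field U] [Algebra C Ω] [Algebra F U] (R : Red C Ω F U) (p g : ℕ)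
    (L : IntermediateField C Ω) (G : Type w) [Group G]
    (a : G →* (Tinf C p L ≃+* Tinf C p L)), PrP p C → PrP p F → Good (R.sub L) g →
    R.img (Tinf C p L) = Tinf F p (R.img L) →
    (∀ (s : G) (z : Tinf C p L), (z : Ω) ∈ L → ((a s z : Tinf C p L) : Ω) ∈ L ∧
      ((z : Ω) ∈ R.w → ((a s z : Tinf C p L) : Ω) ∈ R.w)) →
    ∃ ρ : G →* (Tinf F p (R.img L) ≃+* Tinf F p (R.img L)),
      ∀ (s : G) (z : Tinf C p L) (y : Tinf F p (R.img L)), (z : Ω) ∈ R.w →
        ((a s z : Tinf C p L) : Ω) ∈ R.w ∧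
        ((y : U) = R.res z → ((ρ s y : Tinf F p (R.img L)) : U) = R.res (a s z : Tinf C p L))

end Pool.Agent.Lib.MP_c385f6_ag.TPG
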