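import Pool.Agent.Lib.MP_c385f6_ag.TPG.StF
import Pool.Agent.Lib.MP_c385f6_ag.TPG.StD

/-!
Project TPG, F3: tame averaging.
-/

set_option autoImplicit false

namespace Pool.Agent.Lib.MP_c385f6_ag.TPG

universe u v u' v' w

namespace F3Aux

/-- valuation less than one -/
theorem val_lt_iff {K : Type*} [Field K] (A : ValuationSubring K) (y : K) :
    A.valuation y < 1 ↔ y = 0 ∨ y⁻¹ ∉ A := by
  rcases eq_or_ne y 0 with rfl | h0
  · simp
  · rw [← A.valuation_le_one_iff, map_inv₀]
    constructor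
    · intro h
      right
      rw [not_le]
      exact (one_lt_inv₀ ((Valuation.pos_iff _).2 h0)).2 h
    · rintro (h | h)
      · exact absurd h h0
      · rw [not_le] at h
        exact (one_lt_inv₀ ((Valuation.pos_iff _).2 h0)).1 h

section Ev

variable {F : Type u'} {Λ : Type v'} [Field F] [Field Λ] [Algebra F Λ]

/-- `c` is the value of `y` at the place `x` -/
def Ev (x : Plc F Λ) (y : Λ) (c : F) : Prop := x.ring.valuation (y - algebraMap F Λ c) < 1

theorem Ev.mem {x : Plc F Λ} {y : Λ} {c : F} (h : Ev x y c) : y ∈ x.ring := by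
  have h1 : y - algebraMap F Λ c ∈ x.ring := (x.ring.valuation_le_one_iff _).1 h.le
  have h2 := add_mem h1 (x.const_mem c)
  rwa [sub_add_cancel] at h2

theorem Ev.const (x : Plc F Λ) (c : F) : Ev x (algebraMap F Λ c) c := by
  unfold Ev
  rw [sub_self, map_zero]
  exact zero_lt_one

theorem Ev.add {x : Plc F Λ} {y z : Λ} {c d : F} (h : Ev x y c) (h' : Ev x z d) :
    Ev x (y + z) (c + d) := by
  unfold Ev at *
  have e : y + z - algebraMap F Λ (c + d) =
      (y - algebraMap F Λ c) + (z - algebraMap F Λ d) := by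
    rw [map_add]
    ring
  rw [e]
  exact x.ring.valuation.map_add_lt h h'

theorem Ev.mul {x : Plc F Λ} {y z : Λ} {c d : F} (h : Ev x y c) (h' : Ev x z d) :
    Ev x (y * z) (c * d) := by
  have hz := h'.mem
  unfold Ev at *
  have e : y * z - algebraMap F Λ (c * d) =
      (y - algebraMap F Λ c) * z + algebraMap F Λ c * (z - algebraMap F Λ d) := by
    rw [map_mul]
    ring
  rw [e]
  refine x.ring.valuation.map_add_lt ?_ ?_
  · rw [map_mul]
    exact mul_lt_one_of_nonneg_of_lt_one_left zero_le h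
      ((x.ring.valuation_le_one_iff _).2 hz)
  · rw [map_mul]
    exact mul_lt_one_of_nonneg_of_lt_one_right
      ((x.ring.valuation_le_one_iff _).2 (x.const_mem c)) zero_le h'

theorem Ev.unit {x : Plc F Λ} {y : Λ} {c : F} (h : Ev x y c) (hc : c ≠ 0) :
    ¬ x.ring.valuation y < 1 := by
  intro hy
  unfold Ev at h
  have h1 : x.ring.valuation (algebraMap F Λ c) < 1 := by
    have e : algebraMap F Λ c = y - (y - algebraMap F Λ c) := by ring
    rw [e]
    exact (x.ring.valuation.map_sub _ _).trans_lt (max_lt hy h)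
  rw [val_lt_iff] at h1
  rcases h1 with h1 | h1
  · exact hc ((map_eq_zero _).1 h1)
  · apply h1
    rw [← map_inv₀]
    exact x.const_mem c⁻¹

theorem Ev.unique {x : Plc F Λ} {y : Λ} {c d : F} (h : Ev x y c) (h' : Ev x y d) : c = d := by
  by_contra hne
  have h1 : Ev x (y + algebraMap F Λ (-1) * y) (c + (-1) * d) :=
    h.add ((Ev.const x (-1)).mul h')
  refine h1.unit (fun h0 => hne ?_) ?_
  · linear_combination h0
  · have e : y + algebraMap F Λ (-1) * y = 0 := by
      rw [map_neg, map_one]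
      ring
    rw [e, map_zero]
    exact zero_lt_one

theorem Ev.sum {ι : Type*} {x : Plc F Λ} (s : Finset ι) {y : ι → Λ} {c : ι → F}
    (h : ∀ i ∈ s, Ev x (y i) (c i)) : Ev x (∑ i ∈ s, y i) (∑ i ∈ s, c i) := by
  classical
  induction s using Finset.induction_on with
  | empty =>
    rw [Finset.sum_empty, Finset.sum_empty]
    have := Ev.const x (0 : F)
    rwa [map_zero] at this
  | insert i s hi ih =>
    rw [Finset.sum_insert hi, Finset.sum_insert hi]
    exact (h i (Finset.mem_insert_self _ _)).add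
      (ih fun j hj => h j (Finset.mem_insert_of_mem hj))

theorem Ev.act {x : Plc F Λ} {s : Λ ≃+* Λ} (hs : Mv s x x) {y : Λ} {c d : F} (h : Ev x y c)
    (hd : s (algebraMap F Λ c) = algebraMap F Λ d) : Ev x (s y) d := by
  unfold Ev at *
  rw [← hd, ← map_sub, val_lt_iff]
  rw [val_lt_iff] at h
  rcases h with h | h
  · left
    rw [h, map_zero]
  · right
    rw [← map_inv₀]
    intro h2
    exact h ((hs _).2 h2)

end Ev

section Act

variable {C : Type u} {L : Type v} {F : Type u'} {Λ : Type v'} [Field C] [Field L] [Field F]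
  [Field Λ] [Algebra C L] [Algebra F Λ] {R : Red C L F Λ} {sp : Plc C L → Plc F Λ} {G : Type w}
  [Group G] {a : G →* (L ≃+* L)} {a' : G →* (Λ ≃+* Λ)}

theorem act_w (hA : RAct R a a') (s : G) {z : L} (hz : z ∈ R.w) : a s z ∈ R.w := by
  by_cases h : R.res z = 0
  · have h1 : R.res (1 + z) = 1 := by
      rw [R.res_add 1 (one_mem _) z hz, R.res_one, h, add_zero]
    have h2 : R.res (a s (1 + z)) ≠ 0 := by
      rw [hA.res, h1, map_one]
      exact one_ne_zero
    have h3 := sub_mem (Red.mem_of_res_ne h2) (one_mem R.w)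
    rwa [map_add, map_one, add_sub_cancel_left] at h3
  · have h2 : R.res (a s z) ≠ 0 := by
      rw [hA.res]
      exact (map_ne_zero_iff _ (a' s).injective).2 h
    exact Red.mem_of_res_ne h2

theorem cst' (hA : RAct R a a') (s : G) (α : F) :
    ∃ β : F, a' s (algebraMap F Λ α) = algebraMap F Λ β := by
  obtain ⟨c, hc, hc'⟩ := R.const_surj α
  obtain ⟨c', e⟩ := hA.cst s c
  have h1 := act_w hA s hc
  rw [e] at h1
  obtain ⟨β, hβ⟩ := R.const c' h1
  exact ⟨β, by rw [← hc', ← hA.res, e, hβ]⟩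

theorem exists_plc (s : L ≃+* L)
    (hs : ∀ c : C, ∃ c' : C, s (algebraMap C L c) = algebraMap C L c') (P : Plc C L) :
    ∃ P' : Plc C L, Mv s P' P := by
  refine ⟨⟨P.ring.comap (s : L →+* L), ?_, ?_⟩, fun z => Iff.rfl⟩
  · intro htop
    apply P.ne_top
    rw [eq_top_iff]
    intro z _
    have h1 : s.symm z ∈ P.ring.comap (s : L →+* L) := by
      rw [htop]
      exact ValuationSubring.mem_top _
    have h2 : s (s.symm z) ∈ P.ring := h1
    rwa [s.apply_symm_apply] at h2
  · intro c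
    obtain ⟨c', hc'⟩ := hs c
    change s (algebraMap C L c) ∈ P.ring
    rw [hc']
    exact P.const_mem c'

theorem Rx_act [IsAlgClosed C] [IsAlgClosed F] (hE : StEqv.{u, v, u', v'}) {g : ℕ}
    (hG : Good R g) (hsp : IsSp R sp) (hA : RAct R a a') {x : Plc F Λ}
    (hx : ∀ s, Mv (a' s) x x) (s : G) {f : L} (hf : f ∈ Rx R sp x) : a s f ∈ Rx R sp x := by
  refine ⟨act_w hA s hf.1, fun P hP => ?_⟩
  obtain ⟨P', hP'⟩ := exists_plc (a s) (hA.cst s) P
  have hinv : ∀ c : C, ∃ c' : C, (a s).symm (algebraMap C L c) = algebraMap C L c' := by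
    intro c
    have := hA.cst s⁻¹ c
    rw [map_inv] at this
    exact this
  have h1 := hE C L F Λ R g sp (a s) (a' s) hG hsp (hA.cst s) hinv (hA.res s) P' P hP'
  rw [hP] at h1
  have h2 : sp P' = x := by
    apply Plc.ext
    ext z
    rw [h1 z, ← hx s z]
  exact (hP' f).1 (hf.2 P' h2)

theorem const_Rx {x : Plc F Λ} {c : C} (hc : algebraMap C L c ∈ R.w) :
    algebraMap C L c ∈ Rx R sp x :=
  ⟨hc, fun P _ => P.const_mem c⟩

theorem res_sum {ι : Type*} (s : Finset ι) (f : ι → L) (h : ∀ i ∈ s, f i ∈ R.w) :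
    R.res (∑ i ∈ s, f i) = ∑ i ∈ s, R.res (f i) := by
  classical
  induction s using Finset.induction_on with
  | empty => rw [Finset.sum_empty, Finset.sum_empty, R.res_zero]
  | insert i s hi ih =>
    have h1 : ∀ j ∈ s, f j ∈ R.w := fun j hj => h j (Finset.mem_insert_of_mem hj)
    rw [Finset.sum_insert hi, Finset.sum_insert hi,
      R.res_add _ (h i (Finset.mem_insert_self _ _)) _ (sum_mem h1), ih h1]

theorem res_pow {z : L} (hz : z ∈ R.w) (n : ℕ) : R.res (z ^ n) = R.res z ^ n := by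
  induction n with
  | zero => rw [pow_zero, pow_zero, R.res_one]
  | succ n ih => rw [pow_succ, pow_succ, R.res_mul _ (pow_mem hz n) _ hz, ih]

end Act

/-- two characters of a group with values in the units of a field, the kernel of the second one
contains the kernel of the first one which has finite index -/
theorem exists_exp {J : Type*} [Group J] {F : Type*} [Field F] (θ χ : J →* Fˣ)
    (hfin : θ.ker.FiniteIndex) (hle : θ.ker ≤ χ.ker) : ∃ e : ℕ, ∀ s, θ s ^ e * χ s = 1 := by
  have hcard : Nat.card θ.range ≠ 0 := by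
    rw [← Subgroup.index_ker]
    exact hfin.index_ne_zero
  have : Finite θ.range := Nat.finite_of_card_ne_zero hcard
  obtain ⟨⟨_, ⟨τ, rfl⟩⟩, hτ⟩ := IsCyclic.exists_generator (α := θ.range)
  have hgen : ∀ s, ∃ k : ℤ, θ s = θ τ ^ k ∧ χ s = χ τ ^ k := by
    intro s
    obtain ⟨k, hk⟩ := Subgroup.mem_zpowers_iff.1 (hτ ⟨θ s, s, rfl⟩)
    have h1 : θ s = θ τ ^ k := by
      have := congrArg Subtype.val hk
      exact this.symm
    refine ⟨k, h1, ?_⟩
    have h2 : s * (τ ^ k)⁻¹ ∈ θ.ker := by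
      rw [MonoidHom.mem_ker, map_mul, map_inv, map_zpow, h1, mul_inv_cancel]
    have h3 := hle h2
    rw [MonoidHom.mem_ker, map_mul, map_inv, map_zpow, mul_inv_eq_one] at h3
    exact h3
  have hfo : IsOfFinOrder (θ τ) := by
    have h1 : IsOfFinOrder (⟨θ τ, τ, rfl⟩ : θ.range) := isOfFinOrder_of_finite _
    exact θ.range.subtype.isOfFinOrder h1
  have hm : 0 < orderOf (θ τ) := hfo.orderOf_pos
  have : NeZero (orderOf (θ τ)) := ⟨hm.ne'⟩
  have hχm : χ τ ^ orderOf (θ τ) = 1 := by
    have h1 : τ ^ orderOf (θ τ) ∈ θ.ker := by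
      rw [MonoidHom.mem_ker, map_pow, pow_orderOf_eq_one]
    have h2 := hle h1
    rwa [MonoidHom.mem_ker, map_pow] at h2
  have hprim : IsPrimitiveRoot ((θ τ : Fˣ) : F) (orderOf (θ τ)) :=
    IsPrimitiveRoot.coe_units_iff.2 (IsPrimitiveRoot.orderOf _)
  have hξ : (((χ τ)⁻¹ : Fˣ) : F) ^ orderOf (θ τ) = 1 := by
    rw [← Units.val_pow_eq_pow_val, inv_pow, hχm, inv_one, Units.val_one]
  obtain ⟨e, -, he⟩ := hprim.eq_pow_of_pow_eq_one hξ
  refine ⟨e, fun s => ?_⟩
  have he' : θ τ ^ e = (χ τ)⁻¹ := by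
    apply Units.ext
    rw [Units.val_pow_eq_pow_val]
    exact he
  obtain ⟨k, h1, h2⟩ := hgen s
  have h3 : θ τ ^ e * χ τ = 1 := by rw [he', inv_mul_cancel]
  calc θ s ^ e * χ s = (θ τ ^ e * χ τ) ^ k := by
        rw [h1, h2, mul_zpow, ← zpow_natCast, ← zpow_natCast, ← zpow_mul, ← zpow_mul,
          mul_comm k]
    _ = 1 := by rw [h3, one_zpow]

end F3Aux

open F3Aux in
/-- F3. Tame averaging. -/
theorem stF3 (h1 : StOrd.{u', v'}) (h2 : StResF.{u', v'}) (h3 : StOIv.{u', v', u', v'})
    (h4 : StEqv.{u, v, u', v'}) : StF3.{u, v, u', v', w} := by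
  intro C L F Λ _ _ _ _ _ _ _ _ R g sp G _ a a' x hGood hsp hA hx u k₂ π N I hu hπ hπ0 hN hfi
    hNI hI1 hk hNf hI hθ hθI hne
  have hO := h1 F Λ hGood.ffF
  have hinj : Function.Injective (algebraMap F Λ) := (algebraMap F Λ).injective
  have hπL : algebraMap C L π ≠ 0 := (map_ne_zero _).2 hπ0
  obtain ⟨huR, hu0, huo⟩ := hu
  -- the character `χ`
  have hordχ : ∀ s, a' s (R.res u) / R.res u ≠ 0 ∧ ord x (a' s (R.res u) / R.res u) = 0 := by
    intro s
    have e1 : ord x (a' s (R.res u)) = 1 := by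
      rw [(h3 F Λ F Λ (a' s)).1 x x (R.res u) (hx s)]
      exact huo
    have hs0 : a' s (R.res u) ≠ 0 := (map_ne_zero_iff _ (a' s).injective).2 hu0
    have h5 := hO.mul x (a' s (R.res u) / R.res u) (R.res u) (div_ne_zero hs0 hu0) hu0
    rw [div_mul_cancel₀ _ hu0, e1, huo] at h5
    exact ⟨div_ne_zero hs0 hu0, by linarith⟩
  have hχex : ∀ s, ∃ c : F, Ev x (a' s (R.res u) / R.res u) c := fun s =>
    h2 F Λ hGood.ffF x _ ((hO.mem x _ (hordχ s).1).2 (hordχ s).2.ge)
  choose χ hχ using hχex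
  have hχ0 : ∀ s, χ s ≠ 0 := by
    intro s h0
    have h5 := hχ s
    rw [h0] at h5
    unfold Ev at h5
    rw [map_zero, sub_zero, hO.lt x _ (hordχ s).1, (hordχ s).2] at h5
    exact lt_irrefl _ h5
  -- the character `θ`
  have hπs : ∀ s, ∃ c ∈ k₂, a s (algebraMap C L π) / algebraMap C L π = algebraMap C L c := by
    intro s
    obtain ⟨c', hc', e⟩ := hk s π hπ
    exact ⟨c' / π, k₂.div_mem hc' hπ, by rw [e, map_div₀]⟩
  have hπw : ∀ s, a s (algebraMap C L π) / algebraMap C L π ∈ R.w := fun s =>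
    Red.mem_of_res_ne (hθ s)
  have hθex : ∀ s, ∃ c : F, R.res (a s (algebraMap C L π) / algebraMap C L π) =
      algebraMap F Λ c := by
    intro s
    obtain ⟨c, -, e⟩ := hπs s
    have h5 := hπw s
    rw [e] at h5 ⊢
    exact R.const c h5
  choose θ hθ' using hθex
  have hθ0 : ∀ s, θ s ≠ 0 := by
    intro s h0
    apply hθ s
    rw [hθ', h0, map_zero]
  -- the embeddings of the residues of `k₂`
  let M : Submonoid C :=
    { carrier := {c | c ∈ k₂ ∧ algebraMap C L c ∈ R.w}
      mul_mem' := by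
        rintro c d ⟨h5, h6⟩ ⟨h7, h8⟩
        refine ⟨mul_mem h5 h7, ?_⟩
        rw [map_mul]
        exact mul_mem h6 h8
      one_mem' := ⟨one_mem _, by rw [map_one]; exact one_mem _⟩ }
  have hβex : ∀ (s : G) (c : M), ∃ β : F, R.res (a s (algebraMap C L c)) = algebraMap F Λ β := by
    intro s c
    obtain ⟨c', -, e⟩ := hk s c c.2.1
    have h5 := act_w hA s c.2.2
    rw [e] at h5 ⊢
    exact R.const c' h5
  choose β hβ using hβex
  let σ : G → (M →* F) := fun s =>
    { toFun := β s
      map_one' := by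
        apply hinj
        rw [← hβ, map_one]
        change R.res (a s (algebraMap C L 1)) = 1
        rw [map_one, map_one, R.res_one]
      map_mul' := by
        intro c d
        apply hinj
        rw [← hβ, map_mul, ← hβ, ← hβ]
        change R.res (a s (algebraMap C L ((c : C) * d))) = _
        rw [map_mul, map_mul]
        exact R.res_mul _ (act_w hA s c.2.2) _ (act_w hA s d.2.2) }
  have hσ : ∀ (s : G) (c : M), algebraMap F Λ (σ s c) = R.res (a s (algebraMap C L c)) :=
    fun s c => (hβ s c).symm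
  have hσI : ∀ s, σ s = σ 1 ↔ s ∈ I := by
    intro s
    rw [hI]
    constructor
    · intro h c hc hc'
      have h5 := congrArg (fun φ : M →* F => algebraMap F Λ (φ ⟨c, hc, hc'⟩)) h
      simp only [hσ, map_one] at h5
      exact h5
    · intro h
      ext c
      apply hinj
      rw [hσ, hσ, map_one]
      exact h c c.2.1 c.2.2
  -- `χ` is fixed by `I`
  have hfixN : ∀ n ∈ N, ∀ t, a' n (algebraMap F Λ (χ t)) = algebraMap F Λ (χ t) := by
    intro n hn t
    have e1 : a n (a t u) = a t u := by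
      have h5 : t⁻¹ * n * t ∈ N := by
        have := hN.conj_mem n hn t⁻¹
        rwa [inv_inv] at this
      calc a n (a t u) = a (n * t) u := by rw [map_mul]; rfl
        _ = a (t * (t⁻¹ * n * t)) u := by group
        _ = a t (a (t⁻¹ * n * t) u) := by rw [map_mul]; rfl
        _ = a t u := by rw [(hNf _ h5).1]
    have e2 : a' n (a' t (R.res u)) = a' t (R.res u) := by
      rw [← hA.res, ← hA.res, e1]
    have e3 : a' n (R.res u) = R.res u := by
      rw [← hA.res, (hNf n hn).1]
    obtain ⟨d, hd⟩ := cst' hA n (χ t)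
    have h5 := (hχ t).act (hx n) hd
    rw [map_div₀, e2, e3] at h5
    rw [hd, (hχ t).unique h5]
  have hfixI : ∀ s ∈ I, ∀ t, a' s (algebraMap F Λ (χ t)) = algebraMap F Λ (χ t) := by
    intro s hs t
    obtain ⟨n, hn, h5⟩ := hI1 s hs
    have h6 := h5 (χ t)
    rw [map_mul] at h6
    change a' s (a' n (algebraMap F Λ (χ t))) = _ at h6
    rwa [hfixN n hn t] at h6
  have hχmul : ∀ s ∈ I, ∀ t, χ (s * t) = χ s * χ t := by
    intro s hs t
    have e1 : a' (s * t) (R.res u) / R.res u =
        (a' s (R.res u) / R.res u) * a' s (a' t (R.res u) / R.res u) := by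
      have hs0 : a' s (R.res u) ≠ 0 := (map_ne_zero_iff _ (a' s).injective).2 hu0
      rw [map_div₀, map_mul]
      change a' s (a' t (R.res u)) / R.res u = _
      field_simp
    have h5 := hχ (s * t)
    rw [e1] at h5
    exact h5.unique ((hχ s).mul ((hχ t).act (hx s) (hfixI s hs t)))
  have hχN : ∀ s ∈ N, χ s = 1 := by
    intro s hs
    have h5 := hχ s
    have e3 : a' s (R.res u) = R.res u := by
      rw [← hA.res, (hNf s hs).1]
    rw [e3, div_self hu0] at h5
    have h6 := Ev.const x (1 : F)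
    rw [map_one] at h6
    exact h5.unique h6
  have hθmul : ∀ s ∈ I, ∀ t, θ (s * t) = θ s * θ t := by
    intro s hs t
    have hsπ : a s (algebraMap C L π) ≠ 0 := (map_ne_zero_iff _ (a s).injective).2 hπL
    have e1 : a (s * t) (algebraMap C L π) / algebraMap C L π =
        (a s (algebraMap C L π) / algebraMap C L π) *
          a s (a t (algebraMap C L π) / algebraMap C L π) := by
      rw [map_div₀, map_mul]
      change a s (a t (algebraMap C L π)) / algebraMap C L π = _
      field_simp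
    apply hinj
    rw [← hθ', e1, R.res_mul _ (hπw s) _ (act_w hA s (hπw t)), map_mul, ← hθ', ← hθ']
    congr 1
    obtain ⟨c, hc, e⟩ := hπs t
    rw [e]
    refine (hI s).1 hs c hc ?_
    rw [← e]
    exact hπw t
  have hθN : ∀ s ∈ N, θ s = 1 := by
    intro s hs
    apply hinj
    rw [← hθ', (hNf s hs).2 π hπ, div_self hπL, R.res_one, map_one]
  -- the homomorphisms on `I`
  let θH : I →* Fˣ :=
    { toFun := fun s => Units.mk0 (θ s) (hθ0 s)
      map_one' := Units.ext (hθN 1 (one_mem N))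
      map_mul' := fun s t => Units.ext (hθmul s s.2 t) }
  let χH : I →* Fˣ :=
    { toFun := fun s => Units.mk0 (χ s) (hχ0 s)
      map_one' := Units.ext (hχN 1 (one_mem N))
      map_mul' := fun s t => Units.ext (hχmul s s.2 t) }
  have hker : ∀ s : I, s ∈ θH.ker ↔ (s : G) ∈ N := by
    intro s
    rw [MonoidHom.mem_ker]
    constructor
    · intro h
      have h5 : θ s = 1 := congrArg Units.val h
      refine hθI s s.2 ?_
      rw [hθ', h5, map_one]
    · intro h
      exact Units.ext (hθN s h)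
  have hkerfin : θH.ker.FiniteIndex := by
    have h5 : N.subgroupOf I ≤ θH.ker := fun s hs => (hker s).2 hs
    exact Subgroup.finiteIndex_of_le h5
  obtain ⟨e, he⟩ := exists_exp θH χH hkerfin (fun s hs => by
    rw [MonoidHom.mem_ker]
    exact Units.ext (hχN s ((hker s).1 hs)))
  have he' : ∀ s ∈ I, θ s ^ e * χ s = 1 := fun s hs => congrArg Units.val (he ⟨s, hs⟩)
  -- the coefficient
  have hfinQ : Finite (G ⧸ N) := Subgroup.finite_quotient_of_finiteIndex
  let _ : Fintype (G ⧸ N) := Fintype.ofFinite _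
  classical
  have hcount : (((Finset.univ.filter fun q : G ⧸ N => σ q.out = σ 1).card : ℕ) : F) ≠ 0 := by
    have h5 : (Finset.univ.filter fun q : G ⧸ N => σ q.out = σ 1).card = N.relIndex I := by
      have h6 : ((QuotientGroup.mk' N).comp I.subtype).ker = N.subgroupOf I := by
        ext s
        rw [MonoidHom.mem_ker, Subgroup.mem_subgroupOf]
        exact QuotientGroup.eq_one_iff (s : G)
      have h7 := Subgroup.index_ker ((QuotientGroup.mk' N).comp I.subtype)
      rw [h6] at h7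
      rw [Subgroup.relIndex, h7, ← Fintype.card_subtype, ← Nat.card_eq_fintype_card]
      refine Nat.card_congr (Equiv.subtypeEquivRight fun q => ?_)
      rw [hσI]
      constructor
      · intro hq
        exact ⟨⟨q.out, hq⟩, QuotientGroup.out_eq' q⟩
      · rintro ⟨⟨s, hs⟩, rfl⟩
        change (QuotientGroup.mk s : G ⧸ N).out ∈ I
        obtain ⟨n, hn⟩ := QuotientGroup.mk_out_eq_mul N s
        rw [hn]
        exact mul_mem hs (hNI n.2)
    rw [h5]
    exact hne
  have hS : ∃ b : M, ∑ q : G ⧸ N, σ q.out b * (θ q.out ^ e * χ q.out) ≠ 0 := by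
    by_contra hcon
    push Not at hcon
    have hli := linearIndependent_monoidHom M F
    have hz : ∑ φ ∈ (Finset.univ.image fun q : G ⧸ N => σ q.out),
        (∑ q ∈ Finset.univ.filter (fun q : G ⧸ N => σ q.out = φ), θ q.out ^ e * χ q.out) •
          (φ : M → F) = 0 := by
      funext b
      rw [Finset.sum_apply, Pi.zero_apply, ← hcon b]
      rw [← Finset.sum_fiberwise_of_maps_to (s := Finset.univ)
        (t := Finset.univ.image fun q : G ⧸ N => σ q.out) (g := fun q : G ⧸ N => σ q.out)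
        (fun q _ => Finset.mem_image_of_mem _ (Finset.mem_univ q))]
      refine Finset.sum_congr rfl fun φ _ => ?_
      rw [Pi.smul_apply, smul_eq_mul, Finset.sum_mul]
      refine Finset.sum_congr rfl fun q hq => ?_
      rw [(Finset.mem_filter.1 hq).2, mul_comm]
    have hmem : σ 1 ∈ (Finset.univ.image fun q : G ⧸ N => σ q.out) := by
      rw [Finset.mem_image]
      refine ⟨QuotientGroup.mk (1 : G), Finset.mem_univ _, ?_⟩
      rw [hσI]
      obtain ⟨n, hn⟩ := QuotientGroup.mk_out_eq_mul N (1 : G)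
      rw [hn, one_mul]
      exact hNI n.2
    have h5 := linearIndependent_iff'.1 hli _ _ hz (σ 1) hmem
    apply hcount
    rw [← h5, Finset.card_eq_sum_ones, Nat.cast_sum]
    refine Finset.sum_congr rfl fun q hq => ?_
    rw [Nat.cast_one, he' q.out ((hσI q.out).1 (Finset.mem_filter.1 hq).2)]
  obtain ⟨b, hb⟩ := hS
  -- the element
  set z : L := algebraMap C L b * u * algebraMap C L π ^ e with hz
  have hzN : ∀ n ∈ N, a n z = z := by
    intro n hn
    obtain ⟨h5, h6⟩ := hNf n hn
    rw [hz, map_mul, map_mul, map_pow, h5, h6 b b.2.1, h6 π hπ]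
  have hzc : ∀ (s : G), a (QuotientGroup.mk s : G ⧸ N).out z = a s z := by
    intro s
    obtain ⟨n, hn⟩ := QuotientGroup.mk_out_eq_mul N s
    have h5 : a (s * n) = a s * a n := map_mul a s n
    rw [hn, h5]
    change a s (a n z) = a s z
    rw [hzN n n.2]
  have hinv : ∀ s : G, a s (∑ q : G ⧸ N, a q.out z) = ∑ q : G ⧸ N, a q.out z := by
    intro s
    rw [map_sum, ← Equiv.sum_comp (Equiv.mulLeft (QuotientGroup.mk s : G ⧸ N))
      (fun q => a q.out z)]
    refine Finset.sum_congr rfl fun q _ => ?_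
    have h5 : Equiv.mulLeft (QuotientGroup.mk s : G ⧸ N) q = QuotientGroup.mk (s * q.out) := by
      rw [Equiv.coe_mulLeft, QuotientGroup.mk_mul, QuotientGroup.out_eq']
    have h6 : a (s * q.out) = a s * a q.out := map_mul a s q.out
    rw [h5, hzc, h6]
    rfl
  refine ⟨∑ q : G ⧸ N, a q.out z, (π ^ e)⁻¹, hinv, inv_ne_zero (pow_ne_zero e hπ0), ?_⟩
  -- the terms
  have hterm : ∀ s : G, algebraMap C L (π ^ e)⁻¹ * a s z =
      a s (algebraMap C L b) * (a s (algebraMap C L π) / algebraMap C L π) ^ e * a s u := by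
    intro s
    rw [hz, map_inv₀, map_pow, map_mul, map_mul, map_pow, div_pow]
    field_simp
  have hbR : ∀ s : G, a s (algebraMap C L b) ∈ Rx R sp x := fun s =>
    Rx_act h4 hGood hsp hA hx s (const_Rx b.2.2)
  have hπR : ∀ s : G, a s (algebraMap C L π) / algebraMap C L π ∈ Rx R sp x := by
    intro s
    obtain ⟨c, -, e1⟩ := hπs s
    have h5 := hπw s
    rw [e1] at h5 ⊢
    exact const_Rx h5
  have huR' : ∀ s : G, a s u ∈ Rx R sp x := fun s => Rx_act h4 hGood hsp hA hx s huR
  have htR : ∀ s : G, algebraMap C L (π ^ e)⁻¹ * a s z ∈ Rx R sp x := by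
    intro s
    rw [hterm s]
    exact mul_mem (mul_mem (hbR s) (pow_mem (hπR s) e)) (huR' s)
  have hres : ∀ s : G, R.res (algebraMap C L (π ^ e)⁻¹ * a s z) =
      algebraMap F Λ (σ s b * θ s ^ e) * a' s (R.res u) := by
    intro s
    rw [hterm s, R.res_mul _ (mul_mem (hbR s).1 (pow_mem (hπR s).1 e)) _ (huR' s).1,
      R.res_mul _ (hbR s).1 _ (pow_mem (hπR s).1 e), res_pow (hπw s), hθ', ← hσ, hA.res, map_mul,
      map_pow]
  rw [Finset.mul_sum]
  have hsumR : R.res (∑ q : G ⧸ N, algebraMap C L (π ^ e)⁻¹ * a q.out z) =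
      ∑ q : G ⧸ N, algebraMap F Λ (σ q.out b * θ q.out ^ e) * a' q.out (R.res u) := by
    rw [res_sum _ _ fun q _ => (htR q.out).1]
    exact Finset.sum_congr rfl fun q _ => hres q.out
  have hEv : Ev x (R.res (∑ q : G ⧸ N, algebraMap C L (π ^ e)⁻¹ * a q.out z) / R.res u)
      (∑ q : G ⧸ N, σ q.out b * (θ q.out ^ e * χ q.out)) := by
    rw [hsumR, Finset.sum_div]
    refine Ev.sum _ fun q _ => ?_
    rw [mul_div_assoc, ← mul_assoc]
    exact (Ev.const x _).mul (hχ q.out)
  have hy := hEv.unit hb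
  have hy0 : R.res (∑ q : G ⧸ N, algebraMap C L (π ^ e)⁻¹ * a q.out z) / R.res u ≠ 0 := by
    intro h0
    apply hy
    rw [h0, map_zero]
    exact zero_lt_one
  have hr0 : R.res (∑ q : G ⧸ N, algebraMap C L (π ^ e)⁻¹ * a q.out z) ≠ 0 :=
    (div_ne_zero_iff.1 hy0).1
  have hord0 : ord x (R.res (∑ q : G ⧸ N, algebraMap C L (π ^ e)⁻¹ * a q.out z) / R.res u) =
      0 := by
    have h5 := (hO.mem x _ hy0).1 hEv.mem
    rw [hO.lt x _ hy0] at hy
    omega
  refine ⟨sum_mem fun q _ => htR q.out, hr0, ?_⟩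
  have h5 := hO.mul x _ (R.res u) hy0 hu0
  rw [div_mul_cancel₀ _ hu0, hord0, huo, zero_add] at h5
  exact h5

end Pool.Agent.Lib.MP_c385f6_ag.TPG
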