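import Pool.Agent.Lib.MP_c385f6_ag.TPG.AllA
import Pool.Agent.Lib.MP_c385f6_ag.TPG.BAll
import Pool.Agent.Lib.MP_c385f6_ag.TPG.EFFb
import Pool.Agent.Lib.MP_c385f6_ag.TPG.ECyc
import Pool.Agent.Lib.MP_c385f6_ag.TPG.EE1
import Pool.Agent.Lib.MP_c385f6_ag.TPG.EE2
import Pool.Agent.Lib.MP_c385f6_ag.TPG.EE3
import Pool.Agent.Lib.MP_c385f6_ag.TPG.EE4
import Pool.Agent.Lib.MP_c385f6_ag.TPG.EE5
import Pool.Agent.Lib.MP_c385f6_ag.TPG.EE6
import Pool.Agent.Lib.MP_c385f6_ag.TPG.EE7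
import Pool.Agent.Lib.MP_c385f6_ag.TPG.EE8
import Pool.Agent.Lib.MP_c385f6_ag.TPG.EE9
import Pool.Agent.Lib.MP_c385f6_ag.TPG.FF1
import Pool.Agent.Lib.MP_c385f6_ag.TPG.FF2
import Pool.Agent.Lib.MP_c385f6_ag.TPG.FF3

/-!
Project TPG: the statements of parts E and F without hypotheses.
-/

set_option autoImplicit false

namespace Pool.Agent.Lib.MP_c385f6_ag.TPG.AllE

universe u v u' v' w

theorem cyc : StCyc.{u, v} := stCyc All.ord All.ovr All.trans stFFb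
theorem e1 : StE1.{u, v, w} := stE1 AllB.gamma All.twDir All.twAut
theorem e2 : StE2.{u, v, w} := stE2
theorem e3 : StE3.{u, v} := stE3 AllB.alpha cyc All.twDir All.ord All.resF All.zero All.rrf
theorem e4 : StE4.{u, v} := stE4 All.twDir
theorem e5 : StE5.{u, v} := stE5 All.ord All.kum All.cot All.twDir AllB.alpha cyc
theorem e6 : StE6.{u, v} :=
  stE6 All.ord All.rrf All.rat All.ovr All.trans All.kum All.cot AllB.delta cyc e3 e4
theorem e : StE.{u, v, w} := stE e1 e2 e3 e4 e5 e6 All.oIv All.twDir All.twAut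
theorem e8 : StE8.{u, v, w} :=
  stE8 e1 e2 e3 e4 e5 e6 All.oIv All.twDir All.twAut All.kum All.riem All.rat
theorem e9 : StE9.{u, v, w} := stE9 e1 e2 e5 e6 All.twDir
theorem f1 : StF1.{u, v, w} := stF1 All.resF
theorem f2 : StF2.{u, v, u', v', w} := stF2 All.ord All.crd All.eqv
theorem f3 : StF3.{u, v, u', v', w} := stF3 All.ord All.resF All.oIv All.eqv

end Pool.Agent.Lib.MP_c385f6_ag.TPG.AllE
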