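import Pool.Agent.Lib.MP_c385f6_ag.TPG.StG

/-!
Project TPG, part G, module Bas: a basis of `K' / k'(t)` with independent residues.
-/

set_option autoImplicit false

open Polynomial

namespace Pool.Agent.Lib.MP_c385f6_ag.TPG

universe u v u' v'

namespace BasAux

/-! ### the abstract argument -/

/-- independent residues -/
def Ind {P A U : Type*} [CommRing P] [CommRing A] [Field U] (ev : P →+* A) (ρ : A →+* U) {d : ℕ}
    (y : Fin d → A) : Prop :=
  ∀ q : Fin d → P, ρ (∑ i, ev (q i) * y i) = 0 → ∀ i, ρ (ev (q i)) = 0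

section Core

variable {P U k' K' : Type*} [CommRing P] [Field U] [Field k'] [Field K'] [Algebra k' K']

theorem mul_mem_span (E : IntermediateField k' K') (V : Submodule E K') {e x : K'} (he : e ∈ E)
    (hx : x ∈ V) : e * x ∈ V := by
  have h := V.smul_mem (⟨e, he⟩ : E) hx
  rwa [IntermediateField.smul_def, smul_eq_mul] at h

theorem core (E : IntermediateField k' K') (A : Subring K') (ev : P →+* A) (ρ : A →+* U)
    (π : P) (hπ : ρ (ev π) = 0) (hdiv : ∀ a : A, ρ a = 0 → ∃ b : A, a = ev π * b)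
    (r : ℕ) (z : Fin r → A) (hz : ∀ a : A, ∃ q : Fin r → P, a = ∑ i, ev (q i) * z i)
    (hE : ∀ q : P, ((ev q : A) : K') ∈ E) (D : ℕ)
    (hD : ∀ (d : ℕ) (y : Fin d → A), Ind ev ρ y → d ≤ D)
    (hspan : ∀ f : K', ∃ e ∈ E, e ≠ 0 ∧ e * f ∈ A) :
    ∃ (d : ℕ) (y : Fin d → A), Ind ev ρ y ∧
      Submodule.span E (Set.range fun i => ((y i : A) : K')) = ⊤ := by
  -- a maximal independent family
  obtain ⟨d, ⟨y, hy⟩, hmax⟩ : ∃ d : ℕ, (∃ y : Fin d → A, Ind ev ρ y) ∧
      ∀ y : Fin (d + 1) → A, ¬ Ind ev ρ y := by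
    by_contra hcon
    push Not at hcon
    have h1 : ∀ d : ℕ, ∃ y : Fin d → A, Ind ev ρ y := by
      intro d
      induction d with
      | zero => exact ⟨fun i => i.elim0, fun _ _ i => i.elim0⟩
      | succ d ih =>
        obtain ⟨y, hy⟩ := ih
        exact hcon d ⟨y, hy⟩
    obtain ⟨y, hy⟩ := h1 (D + 1)
    have := hD _ y hy
    omega
  refine ⟨d, y, hy, ?_⟩
  set V : Submodule E K' := Submodule.span E (Set.range fun i => ((y i : A) : K')) with hV
  have hyV : ∀ i, ((y i : A) : K') ∈ V := fun i => Submodule.subset_span ⟨i, rfl⟩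
  -- the relations
  have key : ∀ l : Fin r, ∃ (Q : P) (S : Fin r → P) (T : Fin d → P), ρ (ev Q) ≠ 0 ∧
      ev Q * z l - ∑ m, ev (π * S m) * z m = - ∑ i, ev (T i) * y i := by
    intro l
    have h1 := hmax (Fin.snoc (α := fun _ => A) y (z l))
    unfold Ind at h1
    push Not at h1
    obtain ⟨q, hq, i₀, hi₀⟩ := h1
    rw [Fin.sum_univ_castSucc] at hq
    simp only [Fin.snoc_castSucc, Fin.snoc_last] at hq
    have hQ : ρ (ev (q (Fin.last d))) ≠ 0 := by
      intro h0
      have h2 : ρ (∑ i : Fin d, ev (q i.castSucc) * y i) = 0 := by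
        rw [map_add, map_mul, h0, zero_mul, add_zero] at hq
        exact hq
      have h3 := hy (fun i => q i.castSucc) h2
      apply hi₀
      refine Fin.lastCases ?_ (fun i => ?_) i₀
      · exact h0
      · exact h3 i
    obtain ⟨b, hb⟩ := hdiv _ hq
    obtain ⟨S, hS⟩ := hz b
    refine ⟨q (Fin.last d), S, fun i => q i.castSucc, hQ, ?_⟩
    have h4 : ∑ m, ev (π * S m) * z m = ev π * b := by
      rw [hS, Finset.mul_sum]
      refine Finset.sum_congr rfl fun m _ => ?_
      rw [map_mul, mul_assoc]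
    rw [h4, ← hb]
    ring
  choose Q S T hQ hrel using key
  -- the matrix
  let M : Matrix (Fin r) (Fin r) P := Matrix.diagonal Q - Matrix.of fun l m => π * S l m
  have hM : ∀ l, ∑ m, ev (M l m) * z m = - ∑ i, ev (T l i) * y i := by
    intro l
    rw [← hrel l]
    have h1 : ∀ m, ev (M l m) * z m = (if l = m then ev (Q l) * z m else 0) -
        ev (π * S l m) * z m := by
      intro m
      have h2 : M l m = (if l = m then Q l else 0) - π * S l m := by
        change Matrix.diagonal Q l m - π * S l m = _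
        rw [Matrix.diagonal_apply]
      rw [h2, map_sub, sub_mul]
      split_ifs <;> simp
    rw [Finset.sum_congr rfl fun m _ => h1 m, Finset.sum_sub_distrib, Finset.sum_ite_eq]
    simp
  have hdet : ρ (ev M.det) ≠ 0 := by
    have h1 : ρ (ev M.det) = ∏ l, ρ (ev (Q l)) := by
      have h2 : (ρ.comp ev) M.det = ((ρ.comp ev).mapMatrix M).det := RingHom.map_det _ _
      have h3 : (ρ.comp ev).mapMatrix M = Matrix.diagonal fun l => ρ (ev (Q l)) := by
        ext l m
        change ρ (ev (Matrix.diagonal Q l m - π * S l m)) = _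
        rw [Matrix.diagonal_apply, Matrix.diagonal_apply, map_sub, map_sub, map_mul, map_mul, hπ,
          zero_mul, sub_zero]
        split_ifs
        · rfl
        · rw [map_zero, map_zero]
      rw [h3, Matrix.det_diagonal] at h2
      exact h2
    rw [h1]
    exact Finset.prod_ne_zero_iff.2 fun l _ => hQ l
  have hdet0 : ((ev M.det : A) : K') ≠ 0 := by
    intro h
    apply hdet
    have h1 : ev M.det = 0 := Subtype.ext h
    rw [h1, map_zero]
  have hzV : ∀ n, ((z n : A) : K') ∈ V := by
    intro n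
    have h1 : ev M.det * z n = ∑ l, ev (M.adjugate n l) * ∑ m, ev (M l m) * z m := by
      have h2 : ∀ m, ∑ l, M.adjugate n l * M l m = if n = m then M.det else 0 := by
        intro m
        have h3 := congrFun (congrFun (Matrix.adjugate_mul M) n) m
        rw [Matrix.mul_apply] at h3
        rw [h3, Matrix.smul_apply, Matrix.one_apply, smul_eq_mul]
        split_ifs <;> simp
      simp only [Finset.mul_sum]
      rw [Finset.sum_comm]
      have h4 : ∀ m, ∑ l, ev (M.adjugate n l) * (ev (M l m) * z m) =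
          if n = m then ev M.det * z m else 0 := by
        intro m
        have h5 : ∑ l, ev (M.adjugate n l) * (ev (M l m) * z m) =
            ev (∑ l, M.adjugate n l * M l m) * z m := by
          rw [map_sum, Finset.sum_mul]
          refine Finset.sum_congr rfl fun l _ => ?_
          rw [map_mul, mul_assoc]
        rw [h5, h2]
        split_ifs <;> simp
      rw [Finset.sum_congr rfl fun m _ => h4 m, Finset.sum_ite_eq]
      simp
    have h6 : ((ev M.det : A) : K') * ((z n : A) : K') ∈ V := by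
      have h7 : ((ev M.det : A) : K') * ((z n : A) : K') =
          ∑ l, ((ev (M.adjugate n l) : A) : K') *
            (- ∑ i, ((ev (T l i) : A) : K') * ((y i : A) : K')) := by
        have h8 := congrArg (fun a : A => (a : K')) h1
        simp only [hM] at h8
        push_cast at h8
        exact h8
      rw [h7]
      refine V.sum_mem fun l _ => mul_mem_span E V (hE _) (V.neg_mem (V.sum_mem fun i _ => ?_))
      exact mul_mem_span E V (hE _) (hyV i)
    have h9 := mul_mem_span E V (E.inv_mem (hE M.det)) h6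
    rwa [inv_mul_cancel_left₀ hdet0] at h9
  rw [eq_top_iff]
  intro f _
  obtain ⟨e, heE, he0, heA⟩ := hspan f
  obtain ⟨q, hq⟩ := hz ⟨e * f, heA⟩
  have h1 : e * f ∈ V := by
    have h2 : e * f = ∑ i, ((ev (q i) : A) : K') * ((z i : A) : K') := by
      have h3 := congrArg (fun a : A => (a : K')) hq
      push_cast at h3
      exact h3
    rw [h2]
    exact V.sum_mem fun i _ => mul_mem_span E V (hE _) (hzV i)
  have h4 := mul_mem_span E V (E.inv_mem heE) h1
  rwa [inv_mul_cancel_left₀ he0] at h4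

end Core

/-! ### polynomials with integral coefficients -/

section Poly

variable {k : Type*} [Field k] {Γ : Type*} [LinearOrderedCommGroupWithZero Γ] (v : Valuation k Γ)

/-- polynomials with integral coefficients -/
def PO : Subring k[X] where
  carrier := {q | ∀ j, v (q.coeff j) ≤ 1}
  mul_mem' := by
    intro a b ha hb j
    rw [coeff_mul]
    refine v.map_sum_le fun x _ => ?_
    rw [map_mul]
    exact mul_le_one' (ha _) (hb _)
  one_mem' := by
    intro j
    rw [coeff_one]
    split_ifs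
    · rw [map_one]
    · rw [map_zero]
      exact zero_le
  add_mem' := by
    intro a b ha hb j
    rw [coeff_add]
    exact (v.map_add _ _).trans (max_le (ha j) (hb j))
  zero_mem' := by
    intro j
    rw [coeff_zero, map_zero]
    exact zero_le
  neg_mem' := by
    intro a ha j
    rw [coeff_neg, Valuation.map_neg]
    exact ha j

theorem C_mem_PO {c : k} (hc : v c ≤ 1) : C c ∈ PO v := by
  intro j
  rw [coeff_C]
  split_ifs
  · exact hc
  · rw [map_zero]
    exact zero_le

/-- scaling -/
theorem exists_scale (T : Finset k) : ∃ a : k, a ≠ 0 ∧ ∀ c ∈ T, v (a * c) ≤ 1 := by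
  classical
  obtain ⟨c₀, hc₀, hmax⟩ := (insert (1 : k) T).exists_max_image v ⟨1, Finset.mem_insert_self _ _⟩
  have h1 : (1 : Γ) ≤ v c₀ := by
    have := hmax 1 (Finset.mem_insert_self _ _)
    rwa [map_one] at this
  have h0 : c₀ ≠ 0 := by
    rintro rfl
    rw [map_zero] at h1
    exact absurd h1 (not_le.2 zero_lt_one)
  have hv : v c₀ ≠ 0 := (Valuation.ne_zero_iff v).2 h0
  refine ⟨c₀⁻¹, inv_ne_zero h0, fun c hc => ?_⟩
  rw [map_mul, map_inv₀]
  have h2 := hmax c (Finset.mem_insert_of_mem hc)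
  calc (v c₀)⁻¹ * v c ≤ (v c₀)⁻¹ * v c₀ := mul_le_mul_right h2 _
    _ = 1 := inv_mul_cancel₀ hv

theorem exists_scale_poly (r s : k[X]) : ∃ a : k, a ≠ 0 ∧ C a * r ∈ PO v ∧ C a * s ∈ PO v := by
  classical
  obtain ⟨a, ha, h⟩ := exists_scale v ((r.support.image r.coeff) ∪ (s.support.image s.coeff))
  have h1 : ∀ j, v (a * r.coeff j) ≤ 1 := by
    intro j
    by_cases hj : r.coeff j = 0
    · rw [hj, mul_zero, map_zero]
      exact zero_le
    · exact h _ (Finset.mem_union_left _ (Finset.mem_image_of_mem _ (mem_support_iff.2 hj)))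
  have h2 : ∀ j, v (a * s.coeff j) ≤ 1 := by
    intro j
    by_cases hj : s.coeff j = 0
    · rw [hj, mul_zero, map_zero]
      exact zero_le
    · exact h _ (Finset.mem_union_right _ (Finset.mem_image_of_mem _ (mem_support_iff.2 hj)))
  refine ⟨a, ha, fun j => ?_, fun j => ?_⟩
  · rw [coeff_C_mul]
    exact h1 j
  · rw [coeff_C_mul]
    exact h2 j

variable {K : Type*} [Field K] [Algebra k K] (t : K)

theorem aeval_mem_adjoin (q : k[X]) : aeval t q ∈ IntermediateField.adjoin k {t} := by
  rw [aeval_eq_sum_range]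
  refine sum_mem fun i _ => ?_
  exact (IntermediateField.adjoin k {t}).smul_mem
    (pow_mem (IntermediateField.mem_adjoin_simple_self k t) i)

/-- common denominators -/
theorem clear {n : ℕ} (c : Fin n → K) (hc : ∀ i, c i ∈ IntermediateField.adjoin k {t}) :
    ∃ (s : PO v) (q : Fin n → PO v), aeval t (s : k[X]) ≠ 0 ∧
      ∀ i, aeval t (s : k[X]) * c i = aeval t (q i : k[X]) := by
  classical
  have h1 : ∀ i, ∃ s r : PO v, aeval t (s : k[X]) ≠ 0 ∧
      aeval t (s : k[X]) * c i = aeval t (r : k[X]) := by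
    intro i
    obtain ⟨r, s, hrs⟩ := (IntermediateField.mem_adjoin_simple_iff k (c i)).1 (hc i)
    by_cases hs : aeval t s = 0
    · refine ⟨1, 0, ?_, ?_⟩
      · simp
      · rw [hrs, hs, div_zero, mul_zero]
        simp
    · obtain ⟨a, ha, har, has⟩ := exists_scale_poly v r s
      refine ⟨⟨C a * s, has⟩, ⟨C a * r, har⟩, ?_, ?_⟩
      · change aeval t (C a * s) ≠ 0
        rw [map_mul, aeval_C]
        exact mul_ne_zero ((_root_.map_ne_zero _).2 ha) hs
      · change aeval t (C a * s) * c i = aeval t (C a * r)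
        rw [map_mul, map_mul, aeval_C, hrs, mul_assoc, mul_div_cancel₀ _ hs]
  choose s r hs hr using h1
  refine ⟨∏ i, s i, fun i => r i * ∏ j ∈ Finset.univ.erase i, s j, ?_, fun i => ?_⟩
  · push_cast
    rw [map_prod]
    exact Finset.prod_ne_zero_iff.2 fun i _ => hs i
  · rw [← Finset.mul_prod_erase Finset.univ s (Finset.mem_univ i)]
    push_cast
    rw [map_mul, map_mul, ← hr i]
    ring

end Poly

/-! ### the concrete data -/

section Conc

variable {p : ℕ} [Fact p.Prime] {k' : Type} {K' Ω : Type v} {C : Type u} {F : Type u'}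
  {U : Type v'} [Field k'] [Field K'] [Field Ω] [Field C] [Field F] [Field U] [Algebra ℚ_[p] k']
  [Algebra k' K'] [Algebra K' Ω] [Algebra C Ω] [Algebra k' Ω] [Algebra F U]

/-- the valuation of `k'` -/
noncomputable def val (k' : Type) [Field k'] [Algebra k' Ω] (R : Red C Ω F U) :
    Valuation k' R.w.ValueGroup :=
  R.w.valuation.comap (algebraMap k' Ω)

theorem val_le {R : Red C Ω F U} {t : K'} (hM : Mdl p k' R t) (c : k') :
    val k' R c ≤ 1 ↔ spectralNorm ℚ_[p] k' c ≤ 1 := by
  rw [← hM.int c, ← R.w.valuation_le_one_iff]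
  rfl

theorem val_lt {R : Red C Ω F U} {t : K'} (hM : Mdl p k' R t)
    (h1 : ∀ c : k', R.res (algebraMap k' Ω c) ≠ 0 ↔ spectralNorm ℚ_[p] k' c = 1) (c : k') :
    val k' R c < 1 ↔ spectralNorm ℚ_[p] k' c < 1 := by
  constructor
  · intro h
    have h2 := (val_le hM c).1 h.le
    refine lt_of_le_of_ne h2 fun h3 => ?_
    exact (h1 c).2 h3 ((R.res_lt _ ((hM.int c).2 h2)).2 h)
  · intro h
    have h2 := (hM.int c).2 h.le
    refine (R.res_lt _ h2).1 ?_
    by_contra h3
    exact h.ne ((h1 c).1 h3)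

/-- the residue map on `A(t)` -/
def rho {A : Subring K'} (R : Red C Ω F U) (hA : ∀ a : A, algebraMap K' Ω a ∈ R.w) : A →+* U where
  toFun a := R.res (algebraMap K' Ω a)
  map_one' := by
    change R.res (algebraMap K' Ω 1) = 1
    rw [map_one, R.res_one]
  map_mul' a b := by
    change R.res (algebraMap K' Ω (a * b)) = _
    rw [map_mul]
    exact R.res_mul _ (hA a) _ (hA b)
  map_zero' := by
    change R.res (algebraMap K' Ω 0) = 0
    rw [map_zero, R.res_zero]
  map_add' a b := by
    change R.res (algebraMap K' Ω (a + b)) = _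
    rw [map_add]
    exact R.res_add _ (hA a) _ (hA b)

theorem rho_apply {A : Subring K'} (R : Red C Ω F U) (hA : ∀ a : A, algebraMap K' Ω a ∈ R.w)
    (a : A) : rho R hA a = R.res (algebraMap K' Ω a) := rfl

theorem clo_le (z x : K') (hx : x ∈ Subring.closure
    (insert z (algebraMap k' K' '' {c : k' | spectralNorm ℚ_[p] k' c ≤ 1}))) :
    x ∈ modelRing p k' z :=
  (integralClosure (Subring.closure
    (insert z (algebraMap k' K' '' {c : k' | spectralNorm ℚ_[p] k' c ≤ 1}))) K').algebraMap_mem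
      ⟨x, hx⟩

theorem const_mem (z : K') {c : k'} (hc : spectralNorm ℚ_[p] k' c ≤ 1) :
    algebraMap k' K' c ∈ Subring.closure
      (insert z (algebraMap k' K' '' {c : k' | spectralNorm ℚ_[p] k' c ≤ 1})) :=
  Subring.subset_closure (Or.inr ⟨c, hc, rfl⟩)

theorem aeval_mem_clo (z : K') (q : k'[X]) (hq : ∀ j, spectralNorm ℚ_[p] k' (q.coeff j) ≤ 1) :
    aeval z q ∈ Subring.closure
      (insert z (algebraMap k' K' '' {c : k' | spectralNorm ℚ_[p] k' c ≤ 1})) := by
  rw [aeval_eq_sum_range]
  refine sum_mem fun i _ => ?_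
  rw [Algebra.smul_def]
  exact mul_mem (const_mem z (hq i)) (pow_mem (Subring.subset_closure (Set.mem_insert z _)) i)

/-- evaluation at `t` -/
noncomputable def evm {Γ : Type*} [LinearOrderedCommGroupWithZero Γ] (v : Valuation k' Γ)
    (A : Subring K') (t : K') (h : ∀ q : PO v, aeval t (q : k'[X]) ∈ A) : PO v →+* A :=
  ((aeval t : k'[X] →ₐ[k'] K').toRingHom.comp (PO v).subtype).codRestrict A h

theorem evm_coe {Γ : Type*} [LinearOrderedCommGroupWithZero Γ] (v : Valuation k' Γ)
    (A : Subring K') (t : K') (h : ∀ q : PO v, aeval t (q : k'[X]) ∈ A) (q : PO v) :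
    ((evm v A t h q : A) : K') = aeval t (q : k'[X]) := rfl

theorem res_aeval [Algebra k' C] [IsScalarTower k' K' Ω] [IsScalarTower k' C Ω]
    {R : Red C Ω F U} {t : K'} (hM : Mdl p k' R t) (q : k'[X])
    (hq : ∀ j, spectralNorm ℚ_[p] k' (q.coeff j) ≤ 1)
    (h0 : R.res (algebraMap K' Ω (aeval t q)) = 0) (j : ℕ) :
    R.res (algebraMap k' Ω (q.coeff j)) = 0 := by
  have h1 : ∀ j, ∃ a : F, R.res (algebraMap k' Ω (q.coeff j)) = algebraMap F U a := by
    intro j
    have h2 := R.const (algebraMap k' C (q.coeff j))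
    rw [← IsScalarTower.algebraMap_apply k' C Ω] at h2
    exact h2 ((hM.int _).2 (hq j))
  choose a ha using h1
  have hw : ∀ i, algebraMap k' Ω (q.coeff i) ∈ R.w := fun i => (hM.int _).2 (hq i)
  -- the residue of the value
  have h3 : R.res (algebraMap K' Ω (aeval t q)) =
      ∑ i ∈ Finset.range (q.natDegree + 1),
        algebraMap F U (a i) * R.res (algebraMap K' Ω t) ^ i := by
    let w : ℕ → R.w := fun i => ⟨algebraMap k' Ω (q.coeff i), hw i⟩
    let T : R.w := ⟨algebraMap K' Ω t, hM.mem⟩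
    have h4 : algebraMap K' Ω (aeval t q) =
        ((∑ i ∈ Finset.range (q.natDegree + 1), w i * T ^ i : R.w) : Ω) := by
      rw [aeval_eq_sum_range, map_sum]
      push_cast
      refine Finset.sum_congr rfl fun i _ => ?_
      rw [Algebra.smul_def]
    rw [h4]
    change R.hom _ = _
    rw [map_sum]
    refine Finset.sum_congr rfl fun i _ => ?_
    rw [map_mul, map_pow, ← ha i]
    rfl
  rw [h3] at h0
  let Q : F[X] := ∑ i ∈ Finset.range (q.natDegree + 1), Polynomial.C (a i) * X ^ i
  have h5 : aeval (R.res (algebraMap K' Ω t)) Q = 0 := by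
    rw [map_sum]
    rw [← h0]
    refine Finset.sum_congr rfl fun i _ => ?_
    rw [map_mul, aeval_C, map_pow, aeval_X]
  have h6 : Q = 0 := by
    by_contra h
    exact hM.trans ⟨Q, h, h5⟩
  have h7 : Q.coeff j = if j ∈ Finset.range (q.natDegree + 1) then a j else 0 := by
    rw [finsetSum_coeff]
    simp only [coeff_C_mul_X_pow]
    rw [Finset.sum_ite_eq]
  by_cases hj : j ∈ Finset.range (q.natDegree + 1)
  · rw [if_pos hj, h6, coeff_zero] at h7
    rw [ha j, ← h7, map_zero]
  · rw [Finset.mem_range] at hj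
    rw [coeff_eq_zero_of_natDegree_lt (by omega), map_zero, R.res_zero]

/-- independent residues give independent elements -/
theorem indep {Γ : Type*} [LinearOrderedCommGroupWithZero Γ] (v : Valuation k' Γ)
    (A : Subring K') (t : K') (h : ∀ q : PO v, aeval t (q : k'[X]) ∈ A)
    (ρ : A →+* U) (hρ : ∀ q : PO v, ρ (evm v A t h q) = 0 → ∀ j, v ((q : k'[X]).coeff j) < 1)
    {d : ℕ} (y : Fin d → A) (hy : Ind (evm v A t h) ρ y) :
    LinearIndependent (IntermediateField.adjoin k' {t}) fun i => ((y i : A) : K') := by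
  rw [Fintype.linearIndependent_iff]
  intro g hg i₀
  by_contra hi₀
  obtain ⟨s, q, hs, hsq⟩ := clear v t (fun i => ((g i : IntermediateField.adjoin k' {t}) : K'))
    fun i => (g i).2
  have hsum : ∑ i, aeval t (q i : k'[X]) * ((y i : A) : K') = 0 := by
    have h1 : ∑ i, aeval t (q i : k'[X]) * ((y i : A) : K') =
        aeval t (s : k'[X]) * ∑ i, g i • ((y i : A) : K') := by
      rw [Finset.mul_sum]
      refine Finset.sum_congr rfl fun i _ => ?_
      rw [← hsq i, IntermediateField.smul_def, smul_eq_mul, mul_assoc]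
    rw [h1, hg, mul_zero]
  have hq0 : (q i₀ : k'[X]) ≠ 0 := by
    intro h0
    have h1 := hsq i₀
    rw [h0, map_zero] at h1
    rcases mul_eq_zero.1 h1 with h2 | h2
    · exact hs h2
    · exact hi₀ (Subtype.ext h2)
  -- the largest coefficient
  set N : ℕ := (Finset.univ.sup fun i => (q i : k'[X]).natDegree) + 1 with hN
  have hNi : ∀ i, (q i : k'[X]).natDegree < N := by
    intro i
    have := Finset.le_sup (f := fun i => (q i : k'[X]).natDegree) (Finset.mem_univ i)
    omega
  obtain ⟨⟨i₁, j₁⟩, hmem, hmax⟩ :=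
    ((Finset.univ : Finset (Fin d)) ×ˢ Finset.range N).exists_max_image
      (fun x => v ((q x.1 : k'[X]).coeff x.2))
      ⟨(i₀, 0), by
        rw [Finset.mem_product, Finset.mem_range]
        exact ⟨Finset.mem_univ _, by omega⟩⟩
  set c : k' := (q i₁ : k'[X]).coeff j₁ with hc
  have hmax' : ∀ i j, v ((q i : k'[X]).coeff j) ≤ v c := by
    intro i j
    by_cases hj : j < N
    · exact hmax (i, j) (by
        rw [Finset.mem_product, Finset.mem_range]
        exact ⟨Finset.mem_univ _, hj⟩)
    · rw [coeff_eq_zero_of_natDegree_lt ((hNi i).trans_le (not_lt.1 hj)), map_zero]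
      exact zero_le
  have hc0 : c ≠ 0 := by
    intro h0
    have h1 := hmax' i₀ (q i₀ : k'[X]).natDegree
    rw [h0, map_zero, le_zero_iff, Valuation.zero_iff] at h1
    exact hq0 (leadingCoeff_eq_zero.1 h1)
  have hvc : v c ≠ 0 := (Valuation.ne_zero_iff v).2 hc0
  have hmem' : ∀ i, Polynomial.C c⁻¹ * (q i : k'[X]) ∈ PO v := by
    intro i j
    rw [coeff_C_mul, map_mul, map_inv₀]
    calc (v c)⁻¹ * v ((q i : k'[X]).coeff j) ≤ (v c)⁻¹ * v c := mul_le_mul_right (hmax' i j) _
      _ = 1 := inv_mul_cancel₀ hvc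
  have h1 := hy (fun i => ⟨Polynomial.C c⁻¹ * (q i : k'[X]), hmem' i⟩) (by
    have h2 : ∑ i, evm v A t h ⟨Polynomial.C c⁻¹ * (q i : k'[X]), hmem' i⟩ * y i = 0 := by
      apply Subtype.ext
      push_cast
      simp only [evm_coe]
      have h3 : ∀ i, aeval t (Polynomial.C c⁻¹ * (q i : k'[X])) * ((y i : A) : K') =
          algebraMap k' K' c⁻¹ * (aeval t (q i : k'[X]) * ((y i : A) : K')) := by
        intro i
        rw [map_mul, aeval_C, mul_assoc]
      rw [Finset.sum_congr rfl fun i _ => h3 i, ← Finset.mul_sum, hsum, mul_zero]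
    rw [h2, map_zero]) i₁
  have h4 := hρ _ h1 j₁
  change v ((Polynomial.C c⁻¹ * (q i₁ : k'[X])).coeff j₁) < 1 at h4
  rw [coeff_C_mul, ← hc, inv_mul_cancel₀ hc0, map_one] at h4
  exact lt_irrefl _ h4

/-- every element has a multiple in `A(t)` -/
theorem span_aux {Γ : Type*} [LinearOrderedCommGroupWithZero Γ] (v : Valuation k' Γ)
    (hv : ∀ c : k', v c ≤ 1 ↔ spectralNorm ℚ_[p] k' c ≤ 1) (t : K')
    (hfin : FiniteDimensional (IntermediateField.adjoin k' {t}) K') (f : K') :
    ∃ e ∈ IntermediateField.adjoin k' {t}, e ≠ 0 ∧ e * f ∈ modelRing p k' t := by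
  have hint : IsIntegral (IntermediateField.adjoin k' {t}) f := Algebra.IsIntegral.isIntegral f
  set m := minpoly (IntermediateField.adjoin k' {t}) f with hm
  have hmon : m.Monic := minpoly.monic hint
  obtain ⟨s, q, hs, hsq⟩ := clear v t
    (fun i : Fin m.natDegree => ((m.coeff i : IntermediateField.adjoin k' {t}) : K'))
    fun i => (m.coeff i).2
  refine ⟨aeval t (s : k'[X]), aeval_mem_adjoin t _, hs, ?_⟩
  have hPO : ∀ q : PO v, aeval t (q : k'[X]) ∈ Subring.closure
      (insert t (algebraMap k' K' '' {c : k' | spectralNorm ℚ_[p] k' c ≤ 1})) := fun q =>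
    aeval_mem_clo t _ fun j => (hv _).1 (q.2 j)
  set B := Subring.closure
    (insert t (algebraMap k' K' '' {c : k' | spectralNorm ℚ_[p] k' c ≤ 1})) with hB
  set P : K'[X] := (m.map (algebraMap (IntermediateField.adjoin k' {t}) K')).scaleRoots
    (aeval t (s : k'[X])) with hP
  have hnat : (m.map (algebraMap (IntermediateField.adjoin k' {t}) K')).natDegree =
      m.natDegree := natDegree_map _
  have hPm : P.Monic := (monic_scaleRoots_iff _).2 (hmon.map _)
  have hPr : eval (aeval t (s : k'[X]) * f) P = 0 := by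
    rw [hP, scaleRoots_eval_mul, eval_map, ← aeval_def, minpoly.aeval, mul_zero]
  have hcoef : ∀ j, P.coeff j ∈ B := by
    intro j
    rw [hP, coeff_scaleRoots, hnat, coeff_map]
    rcases lt_trichotomy j m.natDegree with hj | hj | hj
    · obtain ⟨l, hl⟩ : ∃ l, m.natDegree - j = l + 1 := ⟨m.natDegree - j - 1, by omega⟩
      rw [hl, pow_succ', ← mul_assoc]
      refine mul_mem ?_ (pow_mem (hPO s) l)
      have h1 := hsq ⟨j, hj⟩
      rw [mul_comm] at h1
      change ((m.coeff j : IntermediateField.adjoin k' {t}) : K') * aeval t (s : k'[X]) ∈ B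
      rw [h1]
      exact hPO _
    · rw [hj, Nat.sub_self, pow_zero, mul_one]
      have h1 : m.coeff m.natDegree = 1 := hmon
      rw [h1, map_one]
      exact one_mem _
    · rw [coeff_eq_zero_of_natDegree_lt hj, map_zero, zero_mul]
      exact zero_mem _
  have hco : (↑P.coeffs : Set K') ⊆ B := by
    intro x hx
    obtain ⟨n, _, rfl⟩ := mem_coeffs_iff.1 (Finset.mem_coe.1 hx)
    exact hcoef n
  change IsIntegral B (aeval t (s : k'[X]) * f)
  refine ⟨P.toSubring B hco, (monic_toSubring _ _ _).2 hPm, ?_⟩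
  rw [← eval_map]
  change eval _ ((P.toSubring B hco).map (Subring.subtype B)) = 0
  rw [map_toSubring]
  exact hPr

end Conc

end BasAux

open BasAux in
theorem stBas (h1 : StMA.{u, v, u', v'}) (h2 : StFG.{v}) (h3 : StFrc.{u, v, u', v'}) :
    StBas.{u, v, u', v'} := by
  intro p _ k' K' Ω C F U _ _ _ _ _ _ _ _ _ _ _ _ _ _ _ _ _ _ _ R t hM
  obtain ⟨⟨π, hπ0, hπ1, hπ⟩, hu, -⟩ := h3 p k' K' Ω C F U R t hM
  have hMA := h1 p k' K' Ω C F U R t hM t (Or.inl rfl)
  obtain ⟨⟨r, z, hz, hzs⟩, -⟩ := h2 p k' K' t hM.ftr hM.fin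
  have hv := val_le hM
  have hv' := val_lt hM hu
  have hPO : ∀ q : PO (val k' R), aeval t (q : k'[X]) ∈ modelRing p k' t := fun q =>
    clo_le _ _ (aeval_mem_clo t _ fun j => (hv _).1 (q.2 j))
  have hA : ∀ a : modelRing p k' t, algebraMap K' Ω a ∈ R.w := fun a => (hMA a).1
  have hρ : ∀ q : PO (val k' R),
      rho R hA (evm (val k' R) (modelRing p k' t) t hPO q) = 0 →
      ∀ j, val k' R ((q : k'[X]).coeff j) < 1 := by
    intro q hq j
    have h4 := res_aeval hM (q : k'[X]) (fun j => (hv _).1 (q.2 j)) hq j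
    rw [hv']
    exact lt_of_le_of_ne ((hv _).1 (q.2 j)) fun h5 => (hu _).2 h5 h4
  have hfin := hM.fin
  obtain ⟨d, y, hy, hs⟩ := core (IntermediateField.adjoin k' {t}) (modelRing p k' t)
    (evm (val k' R) (modelRing p k' t) t hPO) (rho R hA)
    ⟨Polynomial.C π, C_mem_PO _ ((hv π).2 hπ1.le)⟩
    (by
      rw [rho_apply, evm_coe]
      change R.res (algebraMap K' Ω (aeval t (Polynomial.C π))) = 0
      rw [aeval_C, ← IsScalarTower.algebraMap_apply k' K' Ω]
      by_contra h4
      exact hπ1.ne ((hu π).1 h4))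
    (by
      intro a ha
      have h4 : a ∈ modelIdeal p k' t := (hMA a).2.1 ha
      have h5 : modelIdeal p k' t ≤ Ideal.span {evm (val k' R) (modelRing p k' t) t hPO
          ⟨Polynomial.C π, C_mem_PO _ ((hv π).2 hπ1.le)⟩} := by
        unfold modelIdeal
        rw [Ideal.span_le]
        rintro b ⟨c, hc, hbc⟩
        have h6 : spectralNorm ℚ_[p] k' (c / π) ≤ 1 := by
          have h7 := map_mul (spectralMulAlgNorm ℚ_[p] k') (c / π) π
          change spectralNorm ℚ_[p] k' (c / π * π) =
            spectralNorm ℚ_[p] k' (c / π) * spectralNorm ℚ_[p] k' π at h7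
          rw [div_mul_cancel₀ _ hπ0] at h7
          have h8 := hπ c hc
          rw [h7] at h8
          have h9 : 0 < spectralNorm ℚ_[p] k' π := by
            refine lt_of_le_of_ne (spectralNorm_nonneg _) fun h10 => hπ0 ?_
            exact (map_eq_zero_iff_eq_zero (spectralMulAlgNorm ℚ_[p] k')).1 h10.symm
          by_contra h10
          rw [not_le] at h10
          nlinarith
        rw [SetLike.mem_coe, Ideal.mem_span_singleton']
        refine ⟨⟨algebraMap k' K' (c / π), clo_le _ _ (const_mem t h6)⟩, ?_⟩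
        apply Subtype.ext
        rw [hbc]
        change algebraMap k' K' (c / π) * aeval t (Polynomial.C π) = _
        rw [aeval_C, ← map_mul, div_mul_cancel₀ _ hπ0]
      obtain ⟨b, hb⟩ := Ideal.mem_span_singleton'.1 (h5 h4)
      exact ⟨b, by rw [← hb, mul_comm]⟩)
    r (fun j => ⟨z j, hz j⟩)
    (by
      intro a
      obtain ⟨q, hq, haq⟩ := hzs a a.2
      refine ⟨fun i => ⟨q i, fun j => (hv _).2 (hq i j)⟩, ?_⟩
      apply Subtype.ext
      push_cast
      exact haq)
    (fun q => aeval_mem_adjoin t _)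
    (Module.finrank (IntermediateField.adjoin k' {t}) K')
    (fun d y hy => by
      have h4 := (indep (val k' R) (modelRing p k' t) t hPO (rho R hA) hρ y
        hy).fintype_card_le_finrank
      rwa [Fintype.card_fin] at h4)
    (fun f => span_aux (val k' R) hv t hM.fin f)
  refine ⟨d, fun i => y i, fun i => (y i).2, hs, fun q hq h0 i j => ?_⟩
  have h4 := hy (fun i => ⟨q i, fun j => (hv _).2 (hq i j)⟩) (by
    rw [rho_apply, ← h0]
    congr 2
    push_cast
    rfl) i
  exact (hv' _).1 (hρ _ h4 j)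

end Pool.Agent.Lib.MP_c385f6_ag.TPG
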