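import Pool.Agent.Lib.MP_c385f6_ag.TPG.StG

/-!
Project TPG, G5: linear disjointness.
-/

set_option autoImplicit false

open Polynomial

namespace Pool.Agent.Lib.MP_c385f6_ag.TPG

universe u v u' v'

namespace GLD

section gen

variable {k0 F U : Type*} [Field k0] [Field F] [Field U] [Algebra k0 F] [Algebra F U]
  [Algebra k0 U] [IsScalarTower k0 F U] [IsAlgClosed F]

/-- the degree over `A` of an element of `F` -/
theorem natDegree_eq (A : IntermediateField k0 U)
    (hA : ∀ c : F, algebraMap F U c ∈ A → ∃ b : k0, algebraMap k0 F b = c) (x : F)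
    (hx : IsIntegral k0 x) :
    (minpoly A (algebraMap F U x)).natDegree = (minpoly k0 x).natDegree := by
  set P := minpoly k0 x with hP
  set Q := minpoly A (algebraMap F U x) with hQ
  have hxA : IsIntegral A (algebraMap F U x) :=
    IsIntegral.tower_top ((hx.map (IsScalarTower.toAlgHom k0 F U)) :
      IsIntegral k0 (algebraMap F U x))
  have hPm : P.Monic := minpoly.monic hx
  have hQm : Q.Monic := minpoly.monic hxA
  have hdvd : Q ∣ P.map (algebraMap k0 A) := by
    refine minpoly.dvd _ _ ?_
    rw [aeval_map_algebraMap]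
    have h1 : aeval (algebraMap F U x) P = algebraMap F U (aeval x P) :=
      aeval_algebraMap_apply U x P
    rw [h1, hP, minpoly.aeval, map_zero]
  have hle : Q.natDegree ≤ P.natDegree := by
    have h1 := natDegree_le_of_dvd hdvd (hPm.map _).ne_zero
    rwa [hPm.natDegree_map] at h1
  -- the coefficients of `Q` are in `F`
  have hdvd' : Q.map (algebraMap A U) ∣ (P.map (algebraMap k0 F)).map (algebraMap F U) := by
    have h1 := Polynomial.map_dvd (algebraMap A U) hdvd
    rw [Polynomial.map_map, ← IsScalarTower.algebraMap_eq] at h1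
    rwa [Polynomial.map_map, ← IsScalarTower.algebraMap_eq]
  have hne : (P.map (algebraMap k0 F)).map (algebraMap F U) ≠ 0 := ((hPm.map _).map _).ne_zero
  have hsF : (P.map (algebraMap k0 F)).Splits := IsAlgClosed.splits _
  have hsp : (Q.map (algebraMap A U)).Splits :=
    Splits.of_dvd (hsF.map _) hne hdvd'
  have hlift := hsp.mem_lift_of_roots_mem_range (hQm.map _) (algebraMap F U) (by
    intro a ha
    have h1 : a ∈ ((P.map (algebraMap k0 F)).map (algebraMap F U)).roots :=
      Multiset.mem_of_le (roots.le_of_dvd hne hdvd') ha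
    rw [hsF.roots_map (algebraMap F U)] at h1
    obtain ⟨b, -, rfl⟩ := Multiset.mem_map.1 h1
    exact ⟨b, rfl⟩)
  obtain ⟨Q', hQ'1, hQ'2, hQ'3⟩ := lifts_and_natDegree_eq_and_monic hlift (hQm.map _)
  have hlift' : Q' ∈ lifts (algebraMap k0 F) := by
    rw [lifts_iff_coeff_lifts]
    intro i
    obtain ⟨b, hb⟩ := hA (Q'.coeff i) (by
      have h1 := congrArg (fun q => q.coeff i) hQ'1
      simp only [coeff_map] at h1
      rw [h1]
      exact (Q.coeff i).2)
    exact ⟨b, hb⟩
  obtain ⟨P', hP'1, hP'2, hP'3⟩ := lifts_and_natDegree_eq_and_monic hlift' hQ'3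
  have hroot : aeval x P' = 0 := by
    apply (algebraMap F U).injective
    rw [map_zero, ← aeval_algebraMap_apply, aeval_def, ← eval_map, IsScalarTower.algebraMap_eq k0 F U,
      ← Polynomial.map_map, hP'1, hQ'1, eval_map, ← aeval_def, hQ, minpoly.aeval]
  have hge : P.natDegree ≤ P'.natDegree :=
    natDegree_le_of_dvd (minpoly.dvd _ _ hroot) hP'3.ne_zero
  rw [hP'2, hQ'2, hQm.natDegree_map] at hge
  exact le_antisymm hle hge

/-- linear disjointness -/
theorem ld [Algebra.IsSeparable k0 F] (A : IntermediateField k0 U)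
    (hA : ∀ c : F, algebraMap F U c ∈ A → ∃ b : k0, algebraMap k0 F b = c) {n : ℕ}
    (c : Fin n → F) (hc : LinearIndependent k0 c) :
    LinearIndependent A fun i => algebraMap F U (c i) := by
  set E : IntermediateField k0 F := IntermediateField.adjoin k0 (Set.range c) with hE
  have hfin : FiniteDimensional k0 E :=
    IntermediateField.finiteDimensional_adjoin (S := Set.range c) fun x _ =>
      Algebra.IsIntegral.isIntegral x
  let pb := Field.powerBasisOfFiniteOfSeparable k0 E
  have hEU : ∀ e : E, algebraMap E U e = algebraMap F U (e : F) := fun e => rfl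
  have hdisj : A.LinearDisjoint E := by
    refine IntermediateField.LinearDisjoint.of_basis_right' pb.basis ?_
    have h1 : (minpoly A (algebraMap F U (pb.gen : F))).natDegree = pb.dim := by
      rw [natDegree_eq A hA _ (Algebra.IsIntegral.isIntegral _), ← pb.natDegree_minpoly]
      exact congrArg natDegree (minpoly.algebraMap_eq (algebraMap E F).injective pb.gen)
    have h2 := linearIndependent_pow (K := A) (algebraMap F U (pb.gen : F))
    have h3 := h2.comp (Fin.cast h1.symm) (Fin.cast_injective _)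
    have h4 : (⇑(algebraMap E U) ∘ ⇑pb.basis) =
        ((fun i : Fin (minpoly A (algebraMap F U (pb.gen : F))).natDegree =>
          (algebraMap F U (pb.gen : F)) ^ (i : ℕ)) ∘ Fin.cast h1.symm) := by
      funext i
      rw [Function.comp_apply, Function.comp_apply, PowerBasis.basis_eq_pow, hEU, Fin.val_cast,
        ← map_pow]
      rfl
    rw [h4]
    exact h3
  let c' : Fin n → E := fun i => ⟨c i, IntermediateField.subset_adjoin _ _ ⟨i, rfl⟩⟩
  have hc' : LinearIndependent k0 c' := by
    refine LinearIndependent.of_comp E.val.toLinearMap ?_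
    exact hc
  exact hdisj.linearIndependent_right' hc'

end gen

theorem sep {p : ℕ} {k0 F : Type*} [Field k0] [Field F] [Algebra k0 F] (hF : FpBar p F) :
    Algebra.IsSeparable k0 F := by
  have := hF.char
  have : ExpChar F p := ExpChar.prime hF.prime
  refine ⟨fun x => ?_⟩
  rcases eq_or_ne x 0 with rfl | hx
  · have h := isSeparable_algebraMap (F := k0) (K := F) 0
    rwa [map_zero] at h
  obtain ⟨n, hn, hxn⟩ := hF.tors x hx
  obtain ⟨a, m, hm, rfl⟩ := Nat.exists_eq_pow_mul_and_not_dvd hn.ne' p hF.prime.ne_one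
  rw [ExpChar.pow_prime_pow_mul_eq_one_iff] at hxn
  have hmF : (m : F) ≠ 0 := by
    rw [Ne, CharP.cast_eq_zero_iff F p]
    exact hm
  have hm0 : (m : k0) ≠ 0 := by
    intro h
    apply hmF
    rw [← map_natCast (algebraMap k0 F), h, map_zero]
  have hsep := separable_X_pow_sub_C (1 : k0) hm0 one_ne_zero
  refine hsep.of_dvd (minpoly.dvd _ _ ?_)
  rw [map_sub, map_pow, aeval_X, map_one, map_one, hxn, sub_self]

/-- the residue field of `K'` -/
def lam {K' Ω C F U : Type*} [Field K'] [Field Ω] [Field C] [Field F] [Field U] [Algebra K' Ω]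
    [Algebra C Ω] [Algebra F U] (R : Red C Ω F U) : Subfield U where
  carrier := {y | ∃ a : K', algebraMap K' Ω a ∈ R.w ∧ R.res (algebraMap K' Ω a) = y}
  mul_mem' := by
    rintro _ _ ⟨a, ha, rfl⟩ ⟨b, hb, rfl⟩
    exact ⟨a * b, by rw [map_mul]; exact mul_mem ha hb, by rw [map_mul, R.res_mul _ ha _ hb]⟩
  add_mem' := by
    rintro _ _ ⟨a, ha, rfl⟩ ⟨b, hb, rfl⟩
    exact ⟨a + b, by rw [map_add]; exact add_mem ha hb, by rw [map_add, R.res_add _ ha _ hb]⟩
  one_mem' := ⟨1, by rw [map_one]; exact one_mem _, by rw [map_one, R.res_one]⟩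
  zero_mem' := ⟨0, by rw [map_zero]; exact zero_mem _, by rw [map_zero, R.res_zero]⟩
  neg_mem' := by
    rintro _ ⟨a, ha, rfl⟩
    exact ⟨-a, by rw [map_neg]; exact neg_mem ha, by rw [map_neg, R.res_neg ha]⟩
  inv_mem' := by
    rintro _ ⟨a, ha, rfl⟩
    by_cases h : R.res (algebraMap K' Ω a) = 0
    · exact ⟨0, by rw [map_zero]; exact zero_mem _, by rw [h, map_zero, R.res_zero, inv_zero]⟩
    · exact ⟨a⁻¹, by rw [map_inv₀]; exact Red.inv_mem h, by rw [map_inv₀, R.res_inv h]⟩

end GLD

open GLD in
/-- G5. Linear disjointness. -/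
theorem stLD (h0 : StFp.{u, v, u', v'}) (h4 : StNrm.{u, v, u', v'}) : StLD.{u, v, u', v'} := by
  intro p _ k' K' Ω C F U _ _ _ _ _ _ _ _ _ _ _ _ _ _ _ _ _ _ _ R t hM n c hc a ha hsum
  have hF : FpBar p F := h0 p k' K' Ω C F U R t hM
  obtain ⟨-, hN⟩ := h4 p k' K' Ω C F U R t hM
  let A0 : Subfield U := lam (K' := K') R
  let k0 : Subfield F := A0.comap (algebraMap F U)
  let A : IntermediateField k0 U :=
    { A0 with
      algebraMap_mem' := fun b => b.2
      inv_mem' := fun x hx => A0.inv_mem hx }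
  have : Algebra.IsSeparable k0 F := sep hF
  have hA : ∀ c : F, algebraMap F U c ∈ A → ∃ b : k0, algebraMap k0 F b = c :=
    fun c hc => ⟨⟨c, hc⟩, rfl⟩
  -- values less than one
  have hval : ∀ b : k', spectralNorm ℚ_[p] k' b < 1 → R.res (algebraMap k' Ω b) = 0 := by
    intro b hb
    by_contra hr
    have hb0 : b ≠ 0 := by
      rintro rfl
      rw [map_zero, R.res_zero] at hr
      exact hr rfl
    have h1 : algebraMap k' Ω b⁻¹ ∈ R.w := by
      rw [map_inv₀]
      exact Red.inv_mem hr
    have h2 := (hM.int b⁻¹).1 h1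
    have h3 : spectralNorm ℚ_[p] k' b * spectralNorm ℚ_[p] k' b⁻¹ = 1 := by
      rw [← spectralMulAlgNorm_def, ← spectralMulAlgNorm_def, ← map_mul, mul_inv_cancel₀ hb0,
        map_one]
    have h4 : 0 ≤ spectralNorm ℚ_[p] k' b := spectralNorm_nonneg _
    nlinarith
  have hLI : LinearIndependent k0 c := by
    rw [Fintype.linearIndependent_iff]
    intro b0 hb0 i
    have hex : ∀ i, ∃ b : k', spectralNorm ℚ_[p] k' b ≤ 1 ∧
        R.res (algebraMap k' Ω b) = algebraMap F U (b0 i : F) := by
      intro i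
      obtain ⟨f, hf, hfr⟩ := (b0 i).2
      obtain ⟨b, hb, hbr⟩ := hN f hf (b0 i : F) hfr
      exact ⟨b, hb, hbr⟩
    choose b hb1 hb2 using hex
    have h1 := hc b hb1 (by
      have h2 := congrArg (algebraMap F U) hb0
      rw [map_sum, map_zero] at h2
      rw [← h2]
      refine Finset.sum_congr rfl fun j _ => ?_
      rw [hb2, Algebra.smul_def, map_mul]
      rfl) i
    have h3 := hval _ h1
    rw [hb2] at h3
    have h4 := (map_eq_zero _).1 h3
    exact Subtype.ext h4
  have hld := ld A hA c hLI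
  rw [Fintype.linearIndependent_iff] at hld
  intro i
  have h1 := hld (fun j => ⟨R.res (algebraMap K' Ω (a j)), ⟨a j, ha j, rfl⟩⟩) (by
    rw [← hsum]
    refine Finset.sum_congr rfl fun j _ => ?_
    rw [Algebra.smul_def]
    rfl) i
  exact congrArg Subtype.val h1

end Pool.Agent.Lib.MP_c385f6_ag.TPG
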