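import Pool.Agent.Lib.MP_c385f6_ag.TPG.GMA
import Pool.Agent.Lib.MP_c385f6_ag.TPG.GLD

/-!
Project TPG, part G, module G7: a basis of `K' / k'(t)` in `A(t)` with residues that are linearly
independent over `F(t̄)`.
-/

set_option autoImplicit false

open Polynomial

namespace Pool.Agent.Lib.MP_c385f6_ag.TPG

universe u v u' v'

namespace GBasCAux

/-- common denominators -/
theorem clear {F U : Type*} [Field F] [Field U] [Algebra F U] (T : U) {n : ℕ} (c : Fin n → U)
    (hc : ∀ i, c i ∈ IntermediateField.adjoin F {T}) :
    ∃ (s : F[X]) (q : Fin n → F[X]), aeval T s ≠ 0 ∧ ∀ i, aeval T s * c i = aeval T (q i) := by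
  classical
  have h1 : ∀ i, ∃ s r : F[X], aeval T s ≠ 0 ∧ aeval T s * c i = aeval T r := by
    intro i
    obtain ⟨r, s, hrs⟩ := (IntermediateField.mem_adjoin_simple_iff F (c i)).1 (hc i)
    by_cases hs : aeval T s = 0
    · refine ⟨1, 0, ?_, ?_⟩
      · simp
      · rw [hrs, hs, div_zero, mul_zero]
        simp
    · refine ⟨s, r, hs, ?_⟩
      rw [hrs, mul_div_cancel₀ _ hs]
  choose s r hs hr using h1
  refine ⟨∏ i, s i, fun i => r i * ∏ j ∈ Finset.univ.erase i, s j, ?_, fun i => ?_⟩
  · rw [map_prod]
    exact Finset.prod_ne_zero_iff.2 fun i _ => hs i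
  · rw [← Finset.mul_prod_erase Finset.univ s (Finset.mem_univ i)]
    rw [map_mul, map_mul, ← hr i]
    ring

end GBasCAux

open GBasCAux GLD GMAAux in
/-- G7. A basis of `K' / k'(t)` in `A(t)` with residues that are linearly independent over
`F(t̄)`. -/
theorem stBasC (h5 : StLD.{u, v, u', v'}) (h6 : StBas.{u, v, u', v'}) :
    StBasC.{u, v, u', v'} := by
  intro p _ k' K' Ω C F U _ _ _ _ _ _ _ _ _ _ _ _ _ _ _ _ _ _ _ R t hM
  classical
  obtain ⟨d, y, hy, hspan, hind⟩ := h6 p k' K' Ω C F U R t hM
  refine ⟨d, y, hy, hspan, ?_⟩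
  have hyw : ∀ i, algebraMap K' Ω (y i) ∈ R.w := fun i => model_mem_w R hM.int hM.mem (hy i)
  have hw : ∀ b : k', spectralNorm ℚ_[p] k' b ≤ 1 → algebraMap k' Ω b ∈ R.w :=
    fun b hb => (hM.int b).2 hb
  let k0 : Subfield F := (lam (K' := k') R).comap (algebraMap F U)
  rw [Fintype.linearIndependent_iff]
  intro g hg
  obtain ⟨s, q, hs, hq⟩ := clear (R.res (algebraMap K' Ω t)) (fun i => (g i : U)) (fun i => (g i).2)
  -- it suffices that all the polynomials vanish
  have hq0 : ∀ i, q i = 0 := by
    have hrel : ∑ i, aeval (R.res (algebraMap K' Ω t)) (q i) * R.res (algebraMap K' Ω (y i)) = 0 := by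
      have h1 : ∑ i, aeval (R.res (algebraMap K' Ω t)) (q i) * R.res (algebraMap K' Ω (y i)) =
          aeval (R.res (algebraMap K' Ω t)) s *
            ∑ i, (g i : U) * R.res (algebraMap K' Ω (y i)) := by
        rw [Finset.mul_sum]
        refine Finset.sum_congr rfl fun i _ => ?_
        rw [← hq i]
        ring
      rw [h1]
      have h2 : ∑ i, (g i : U) * R.res (algebraMap K' Ω (y i)) = 0 := by
        rw [← hg]
        refine Finset.sum_congr rfl fun i _ => ?_
        rw [Algebra.smul_def]
        rfl
      rw [h2, mul_zero]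
    -- the span of the coefficients
    let T : Finset F := Finset.univ.biUnion fun i : Fin d => (q i).support.image (q i).coeff
    let S : Submodule k0 F := Submodule.span k0 (T : Set F)
    have hS : ∀ i j, (q i).coeff j ∈ S := by
      intro i j
      by_cases h : (q i).coeff j = 0
      · rw [h]
        exact zero_mem _
      · refine Submodule.subset_span ?_
        refine Finset.mem_coe.2 (Finset.mem_biUnion.2 ⟨i, Finset.mem_univ _, ?_⟩)
        exact Finset.mem_image_of_mem _ (mem_support_iff.2 h)
    have hfin : FiniteDimensional k0 S := FiniteDimensional.span_finset k0 T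
    let n : ℕ := Module.finrank k0 S
    let bs : Module.Basis (Fin n) k0 S := Module.finBasis k0 S
    let c : Fin n → F := fun l => (bs l : F)
    have hcLI : LinearIndependent k0 c := by
      have h := bs.linearIndependent
      exact h.map' S.subtype (Submodule.ker_subtype S)
    let a : Fin d → ℕ → Fin n → k0 := fun i j l => bs.repr ⟨(q i).coeff j, hS i j⟩ l
    have ha : ∀ i j, (q i).coeff j = ∑ l, (a i j l : F) * c l := by
      intro i j
      have h := congrArg (Subtype.val) (bs.sum_repr ⟨(q i).coeff j, hS i j⟩)
      rw [AddSubmonoidClass.coe_finsetSum] at h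
      rw [← show ((⟨(q i).coeff j, hS i j⟩ : S) : F) = (q i).coeff j from rfl, ← h]
      refine Finset.sum_congr rfl fun l _ => ?_
      rfl
    -- lifts of the coordinates
    have hb : ∀ i j l, ∃ b : k', spectralNorm ℚ_[p] k' b ≤ 1 ∧
        R.res (algebraMap k' Ω b) = algebraMap F U (a i j l : F) := by
      intro i j l
      obtain ⟨b, hb, hbr⟩ := (a i j l).2
      exact ⟨b, (hM.int b).1 hb, hbr⟩
    choose b hb1 hb2 using hb
    let N : ℕ := (Finset.univ.sup fun i => (q i).natDegree) + 1
    have hN : ∀ i, (q i).natDegree < N := fun i =>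
      Nat.lt_succ_of_le (Finset.le_sup (f := fun i => (q i).natDegree) (Finset.mem_univ i))
    let P : Fin d → Fin n → k'[X] := fun i l =>
      ∑ j ∈ Finset.range N, Polynomial.C (b i j l) * X ^ j
    have hPc : ∀ i l j, (P i l).coeff j = if j ∈ Finset.range N then b i j l else 0 := by
      intro i l j
      show (∑ j ∈ Finset.range N, Polynomial.C (b i j l) * X ^ j).coeff j = _
      rw [finsetSum_coeff]
      simp only [coeff_C_mul_X_pow]
      rw [Finset.sum_ite_eq]
    have hP1 : ∀ i l j, spectralNorm ℚ_[p] k' ((P i l).coeff j) ≤ 1 := by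
      intro i l j
      rw [hPc]
      split_ifs
      · exact hb1 i j l
      · rw [spectralNorm_zero]
        exact zero_le_one
    let A : Fin n → K' := fun l => ∑ i, aeval t (P i l) * y i
    -- the residues of A
    have hA : ∀ l, algebraMap K' Ω (A l) ∈ R.w ∧ R.res (algebraMap K' Ω (A l)) =
        ∑ i, (∑ j ∈ Finset.range N, algebraMap F U (a i j l : F) *
          R.res (algebraMap K' Ω t) ^ j) * R.res (algebraMap K' Ω (y i)) := by
      intro l
      let β : Fin d → ℕ → R.w := fun i j => ⟨algebraMap k' Ω (b i j l), hw _ (hb1 i j l)⟩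
      let τ : R.w := ⟨algebraMap K' Ω t, hM.mem⟩
      let η : Fin d → R.w := fun i => ⟨algebraMap K' Ω (y i), hyw i⟩
      have h1 : algebraMap K' Ω (A l) =
          R.w.subtype (∑ i, (∑ j ∈ Finset.range N, β i j * τ ^ j) * η i) := by
        show algebraMap K' Ω (∑ i, aeval t (∑ j ∈ Finset.range N, Polynomial.C (b i j l) * X ^ j) *
          y i) = _
        rw [map_sum, map_sum R.w.subtype]
        refine Finset.sum_congr rfl fun i _ => ?_
        rw [map_mul, map_mul, map_sum, map_sum, map_sum]
        congr 1
        refine Finset.sum_congr rfl fun j _ => ?_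
        rw [map_mul, aeval_C, map_pow, aeval_X, map_mul, map_pow, ← IsScalarTower.algebraMap_apply,
          map_mul, map_pow]
        rfl
      rw [h1]
      refine ⟨Subtype.property _, ?_⟩
      change R.hom _ = _
      rw [map_sum]
      refine Finset.sum_congr rfl fun i _ => ?_
      rw [map_mul, map_sum]
      congr 1
      refine Finset.sum_congr rfl fun j _ => ?_
      rw [map_mul, map_pow, ← hb2 i j l]
      rfl
    have hAsum : ∑ l, R.res (algebraMap K' Ω (A l)) * algebraMap F U (c l) = 0 := by
      rw [← hrel]
      calc ∑ l, R.res (algebraMap K' Ω (A l)) * algebraMap F U (c l)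
          = ∑ l, ∑ i, ∑ j ∈ Finset.range N, (algebraMap F U (a i j l : F) *
              R.res (algebraMap K' Ω t) ^ j) * R.res (algebraMap K' Ω (y i)) *
                algebraMap F U (c l) := by
            refine Finset.sum_congr rfl fun l _ => ?_
            rw [(hA l).2, Finset.sum_mul]
            refine Finset.sum_congr rfl fun i _ => ?_
            rw [Finset.sum_mul, Finset.sum_mul]
        _ = ∑ i, ∑ j ∈ Finset.range N, ∑ l, (algebraMap F U (a i j l : F) *
              R.res (algebraMap K' Ω t) ^ j) * R.res (algebraMap K' Ω (y i)) *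
                algebraMap F U (c l) := by
            rw [Finset.sum_comm]
            refine Finset.sum_congr rfl fun i _ => ?_
            rw [Finset.sum_comm]
        _ = ∑ i, aeval (R.res (algebraMap K' Ω t)) (q i) * R.res (algebraMap K' Ω (y i)) := by
            refine Finset.sum_congr rfl fun i _ => ?_
            rw [aeval_eq_sum_range' (hN i), Finset.sum_mul]
            refine Finset.sum_congr rfl fun j _ => ?_
            rw [ha i j, Algebra.smul_def, map_sum, Finset.sum_mul, Finset.sum_mul]
            refine Finset.sum_congr rfl fun l _ => ?_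
            rw [map_mul]
            ring
    have hA0 := h5 p k' K' Ω C F U R t hM n c (by
      intro β hβ hsum
      have hex : ∀ l, ∃ x : k0, algebraMap F U (x : F) = R.res (algebraMap k' Ω (β l)) := by
        intro l
        have h2 := R.const (algebraMap k' C (β l))
        rw [← IsScalarTower.algebraMap_apply k' C Ω] at h2
        obtain ⟨x, hx⟩ := h2 (hw _ (hβ l))
        exact ⟨⟨x, ⟨β l, hw _ (hβ l), hx⟩⟩, hx.symm⟩
      choose x hx using hex
      have h1 : ∑ l, x l • c l = 0 := by
        have h3 : algebraMap F U (∑ l, x l • c l) = 0 := by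
          rw [map_sum, ← hsum]
          refine Finset.sum_congr rfl fun l _ => ?_
          rw [Algebra.smul_def, map_mul, ← hx l]
          rfl
        exact (map_eq_zero _).1 h3
      have h2 := (Fintype.linearIndependent_iff.1 hcLI) x h1
      intro l
      refine (res_const_eq_zero hM.int (hβ l)).1 ?_
      rw [← hx l, h2 l]
      simp) A (fun l => (hA l).1) hAsum
    -- all the coefficients vanish
    intro i
    ext j
    rw [coeff_zero]
    by_cases hj : j < N
    · rw [ha i j]
      refine Finset.sum_eq_zero fun l _ => ?_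
      have h1 := hind (fun i => P i l) (fun i j => hP1 i l j) (hA0 l) i j
      rw [hPc, if_pos (Finset.mem_range.2 hj)] at h1
      have h2 := (res_const_eq_zero hM.int (hb1 i j l)).2 h1
      rw [hb2] at h2
      rw [(map_eq_zero _).1 h2, zero_mul]
    · exact coeff_eq_zero_of_natDegree_lt (lt_of_lt_of_le (hN i) (not_lt.1 hj))
  intro i
  have h1 := hq i
  rw [hq0 i, map_zero] at h1
  have h2 := (mul_eq_zero.1 h1).resolve_left hs
  exact Subtype.ext h2

end Pool.Agent.Lib.MP_c385f6_ag.TPG
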