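import Pool.Agent.Lib.MP_c385f6_ag.TPG.StV

/-!
Project TPG, part G (G19): completeness of the constants of `M = K C(S₀)`.
-/

set_option autoImplicit false

open Polynomial

namespace Pool.Agent.Lib.MP_c385f6_ag.TPG

universe u v u' v' w

namespace CptMAux

/-- If `k` is algebraically closed in `K` then the degree of an algebraic element over `k` is at
most its degree over `K`. -/
theorem deg_le {k K Ω : Type*} [Field k] [Field K] [Field Ω] [Algebra k K] [Algebra k Ω]
    [Algebra K Ω] [IsScalarTower k K Ω]
    (hc : ∀ x : K, IsAlgebraic k x → ∃ c : k, x = algebraMap k K c) (θ : Ω)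
    (hθ : IsIntegral k θ) : (minpoly k θ).natDegree ≤ (minpoly K θ).natDegree := by
  have hg : (minpoly K θ).Monic := minpoly.monic hθ.tower_top
  have hd : minpoly K θ ∣ (minpoly k θ).map (algebraMap k K) :=
    minpoly.dvd_map_of_isScalarTower k K θ
  have hl := integralClosure.mem_lifts_of_monic_of_dvd_map K (minpoly.monic hθ) hg hd
  have hl' : minpoly K θ ∈ lifts (algebraMap k K) := by
    rw [lifts_iff_coeff_lifts] at hl ⊢
    intro n
    obtain ⟨y, hy⟩ := hl n
    obtain ⟨c, hc⟩ := hc ((minpoly K θ).coeff n) (by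
      rw [← hy]
      have h1 : IsIntegral k (y : K) := y.2
      exact h1.isAlgebraic)
    exact ⟨c, hc.symm⟩
  obtain ⟨q, hq, hqd, hqm⟩ := lifts_and_natDegree_eq_and_monic hl' hg
  have h0 : aeval θ q = 0 := by
    rw [← aeval_map_algebraMap K θ q, hq, minpoly.aeval]
  rw [← hqd]
  exact natDegree_le_of_dvd (minpoly.dvd k θ h0) hqm.ne_zero

/-- An algebraic extension (characteristic zero) with bounded degrees is finite. -/
theorem fin_of_bdd {k E : Type*} [Field k] [CharZero k] [Field E] [Algebra k E]
    [Algebra.IsAlgebraic k E] (N : ℕ) (h : ∀ θ : E, (minpoly k θ).natDegree ≤ N) :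
    FiniteDimensional k E := by
  have hr : Module.rank k E ≤ N := by
    refine rank_le fun s hs => ?_
    have hfin : FiniteDimensional k (IntermediateField.adjoin k (s : Set E)) :=
      IntermediateField.finiteDimensional_adjoin fun x _ => Algebra.IsIntegral.isIntegral x
    obtain ⟨α, hα⟩ := Field.exists_primitive_element k (IntermediateField.adjoin k (s : Set E))
    have h1 : Module.finrank k (IntermediateField.adjoin k (s : Set E)) =
        (minpoly k (α : E)).natDegree := by
      rw [← IntermediateField.minpoly_eq α,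
        ← IntermediateField.adjoin.finrank (Algebra.IsIntegral.isIntegral α), hα,
        IntermediateField.finrank_top']
    have h2 : LinearIndependent k (fun i : s =>
        (⟨(i : E), IntermediateField.subset_adjoin k (s : Set E) i.2⟩ :
          IntermediateField.adjoin k (s : Set E))) := by
      refine LinearIndependent.of_comp (IntermediateField.adjoin k (s : Set E)).val.toLinearMap ?_
      exact hs
    have h3 := h2.fintype_card_le_finrank
    rw [Fintype.card_coe] at h3
    exact h3.trans (h1.le.trans (h _))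
  exact Module.rank_lt_aleph0_iff.1 (hr.trans_lt (Cardinal.natCast_lt_aleph0 (n := N)))

section

variable {k K Ω : Type*} [Field k] [Field K] [Field Ω] [Algebra k K] [Algebra k Ω] [Algebra K Ω]
  [IsScalarTower k K Ω]

theorem alg_map (s : Ω ≃ₐ[K] Ω) {z : Ω} (hz : IsAlgebraic k z) : IsAlgebraic k (s z) :=
  hz.algHom ((s.restrictScalars k : Ω ≃ₐ[k] Ω) : Ω →ₐ[k] Ω)

/-- `K C(S₀)` is stable under the automorphisms which fix `S₀` -/
theorem stable (S₀ : Set Ω) (M : IntermediateField (algebraicClosure k Ω) Ω)
    (hM : M = IntermediateField.adjoin (algebraicClosure k Ω) (Set.range (algebraMap K Ω) ∪ S₀))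
    (s : Ω ≃ₐ[K] Ω) (hs : ∀ z ∈ S₀, s z = z) (z : Ω) (hz : z ∈ M) : s z ∈ M := by
  rw [hM] at hz ⊢
  induction hz using IntermediateField.adjoin_induction with
  | mem x hx =>
    have h1 : s x = x := by
      rcases hx with ⟨a, rfl⟩ | hx
      · exact s.commutes a
      · exact hs x hx
    rw [h1]
    exact IntermediateField.subset_adjoin _ _ hx
  | algebraMap c =>
    have h1 : IsAlgebraic k (s (c : Ω)) := alg_map s (mem_algebraicClosure_iff.1 c.2)
    exact IntermediateField.algebraMap_mem _
      (⟨s (c : Ω), mem_algebraicClosure_iff.2 h1⟩ : algebraicClosure k Ω)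
  | add x y _ _ hx hy =>
    rw [map_add]
    exact add_mem hx hy
  | inv x _ hx =>
    rw [map_inv₀]
    exact IntermediateField.inv_mem _ hx
  | mul x y _ _ hx hy =>
    rw [map_mul]
    exact mul_mem hx hy

/-- the induced automorphism of `M` -/
def ind (M : IntermediateField (algebraicClosure k Ω) Ω) (s : Ω ≃ₐ[K] Ω)
    (h : ∀ z ∈ M, s z ∈ M) (h' : ∀ z ∈ M, s.symm z ∈ M) : M ≃+* M where
  toFun m := ⟨s m, h m m.2⟩
  invFun m := ⟨s.symm m, h' m m.2⟩
  left_inv _ := Subtype.ext (s.symm_apply_apply _)
  right_inv _ := Subtype.ext (s.apply_symm_apply _)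
  map_mul' _ _ := Subtype.ext (map_mul s _ _)
  map_add' _ _ := Subtype.ext (map_add s _ _)

/-- The group of automorphisms of `M` induced by the automorphisms over `K` which fix `S₀`. -/
def GamS (S₀ : Set Ω) (M : IntermediateField (algebraicClosure k Ω) Ω) :
    Subgroup (M ≃+* M) where
  carrier := {a | ∃ s : Ω ≃ₐ[K] Ω, (∀ z ∈ S₀, s z = z) ∧ ∀ m : M, ((a m : M) : Ω) = s m}
  one_mem' := ⟨AlgEquiv.refl, fun _ _ => rfl, fun _ => rfl⟩
  mul_mem' := by
    rintro a b ⟨s, hs, hs'⟩ ⟨t, ht, ht'⟩
    refine ⟨t.trans s, fun z hz => ?_, fun m => ?_⟩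
    · change s (t z) = z
      rw [ht z hz, hs z hz]
    · change ((a (b m) : M) : Ω) = s (t m)
      rw [hs', ht']
  inv_mem' := by
    rintro a ⟨s, hs, hs'⟩
    refine ⟨s.symm, fun z hz => ?_, fun m => ?_⟩
    · rw [AlgEquiv.symm_apply_eq, hs z hz]
    · have h1 := hs' (a.symm m)
      rw [a.apply_symm_apply] at h1
      rw [h1, AlgEquiv.symm_apply_apply]
      rfl

end

end CptMAux

open CptMAux in
theorem stCptM (h2 : StVDsc.{u, u}) : StCptM.{u, u', v'} := by
  intro p _ k K Ω _ _ _ _ _ _ _ _ _ _ F U _ _ _ R hv hK S₀ M hM hstab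
  classical
  have hk0 : CharZero k := charZero_of_injective_algebraMap (algebraMap ℚ_[p] k).injective
  have hK0 : CharZero K := charZero_of_injective_algebraMap (algebraMap k K).injective
  have hgal : IsGalois K Ω := IsAlgClosure.isGalois K Ω
  have hst := stable (k := k) (K := K) (S₀ : Set Ω) M hM
  have hsymm : ∀ s : Ω ≃ₐ[K] Ω, (∀ z ∈ (S₀ : Set Ω), s z = z) → ∀ z ∈ (S₀ : Set Ω),
      s.symm z = z := by
    intro s hs z hz
    rw [AlgEquiv.symm_apply_eq, hs z hz]
  have hval : IsVal p k (R.sub M).v := by
    intro c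
    rw [← hv c]
    change (R.sub M).w.valuation (algebraMap (algebraicClosure k Ω) M
      (algebraMap k (algebraicClosure k Ω) c)) ≤ 1 ↔
      R.w.valuation (algebraMap (algebraicClosure k Ω) Ω
      (algebraMap k (algebraicClosure k Ω) c)) ≤ 1
    rw [ValuationSubring.valuation_le_one_iff, ValuationSubring.valuation_le_one_iff]
    exact Iff.rfl
  refine ⟨GamS (K := K) (S₀ : Set Ω) M, ?_, ?_, fun S => ?_⟩
  · rintro a ⟨s, hs, hs'⟩ c
    have h1 : IsAlgebraic k (s (c : Ω)) := alg_map s (mem_algebraicClosure_iff.1 c.2)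
    refine ⟨⟨s (c : Ω), mem_algebraicClosure_iff.2 h1⟩, Subtype.ext ?_⟩
    exact hs' _
  · rintro a ⟨s, hs, hs'⟩ f hf
    have h1 : ((a f : M) : Ω) ∈ R.w := by
      rw [hs' f]
      exact hstab s f f.2 hf
    exact h1
  · set A : Set Ω := (S₀ : Set Ω) ∪ ((fun m : M => (m : Ω)) '' (S : Set M)) with hA
    have hAfin : A.Finite := S₀.finite_toSet.union (S.finite_toSet.image _)
    have hAf : Finite A := hAfin
    set K₀ : IntermediateField K Ω := IntermediateField.adjoin K A with hK₀
    have hfinK : FiniteDimensional K K₀ :=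
      IntermediateField.finiteDimensional_adjoin fun x _ => Algebra.IsIntegral.isIntegral x
    let k₂ : IntermediateField k (algebraicClosure k Ω) :=
      (K₀.restrictScalars k).comap (algebraicClosure k Ω).val
    have hmem : ∀ c : algebraicClosure k Ω, c ∈ k₂ ↔ (c : Ω) ∈ K₀ := fun c => Iff.rfl
    have hfin : FiniteDimensional k k₂ := by
      refine fin_of_bdd (Module.finrank K K₀) fun θ => ?_
      have h1 : minpoly k θ = minpoly k (((θ : algebraicClosure k Ω)) : Ω) := by
        rw [IntermediateField.minpoly_eq θ, IntermediateField.minpoly_eq (θ : algebraicClosure k Ω)]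
      have h3 : IsIntegral k (((θ : algebraicClosure k Ω)) : Ω) :=
        (mem_algebraicClosure_iff.1 (θ : algebraicClosure k Ω).2).isIntegral
      rw [h1]
      refine (deg_le hK _ h3).trans ?_
      have h4 : minpoly K (((θ : algebraicClosure k Ω)) : Ω) =
          minpoly K (⟨((θ : algebraicClosure k Ω) : Ω), θ.2⟩ : K₀) :=
        (IntermediateField.minpoly_eq (⟨((θ : algebraicClosure k Ω) : Ω), θ.2⟩ : K₀)).symm
      rw [h4]
      exact minpoly.natDegree_le _
    refine ⟨k₂.toSubfield, h2 p k (algebraicClosure k Ω) _ (R.sub M).v hval k₂ hfin,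
      fun c => ⟨fun hc => ?_, fun hc => ?_⟩⟩
    · rintro a ⟨s, hs, hs'⟩ hS
      have h1 : s ∈ K₀.fixingSubgroup := by
        rw [IntermediateField.mem_fixingSubgroup_iff]
        intro x hx
        have h3 : K₀ ≤ IntermediateField.fixedField (Subgroup.zpowers s) := by
          rw [hK₀, IntermediateField.adjoin_le_iff]
          rintro y (hy | ⟨m, hm, rfl⟩)
          · change y ∈ IntermediateField.fixedField (Subgroup.zpowers s)
            rw [IntermediateField.mem_fixedField_iff]
            intro t ht
            have h4 : Subgroup.zpowers s ≤ MulAction.stabilizer (Ω ≃ₐ[K] Ω) y := by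
              rw [Subgroup.zpowers_le]
              exact hs y hy
            exact h4 ht
          · change (m : Ω) ∈ IntermediateField.fixedField (Subgroup.zpowers s)
            rw [IntermediateField.mem_fixedField_iff]
            intro t ht
            have h4 : Subgroup.zpowers s ≤ MulAction.stabilizer (Ω ≃ₐ[K] Ω) (m : Ω) := by
              rw [Subgroup.zpowers_le]
              change s (m : Ω) = m
              rw [← hs' m, hS m hm]
            exact h4 ht
        exact (IntermediateField.mem_fixedField_iff _ _).1 (h3 hx) s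
          (Subgroup.mem_zpowers s)
      refine Subtype.ext ?_
      rw [hs']
      exact (IntermediateField.mem_fixingSubgroup_iff _ _).1 h1 _ hc
    · change (c : Ω) ∈ K₀
      rw [← InfiniteGalois.fixedField_fixingSubgroup K₀, IntermediateField.mem_fixedField_iff]
      intro t ht
      rw [IntermediateField.mem_fixingSubgroup_iff] at ht
      have ht0 : ∀ z ∈ (S₀ : Set Ω), t z = z := fun z hz =>
        ht z (IntermediateField.subset_adjoin K A (Or.inl hz))
      have h1 := hc (ind M t (hst t ht0) (hst t.symm (hsymm t ht0))) ⟨t, ht0, fun _ => rfl⟩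
        (fun f hf => Subtype.ext
          (ht (f : Ω) (IntermediateField.subset_adjoin K A (Or.inr ⟨f, hf, rfl⟩))))
      exact congrArg (fun m : M => (m : Ω)) h1

end Pool.Agent.Lib.MP_c385f6_ag.TPG
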