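import Pool.Agent.Lib.MP_c385f6_ag.TPG.StV
import Pool.Agent.Lib.MP_c385f6_ag.TPG.StE

/-!
Project TPG, part G, G20: all towers have complete constants.
-/

set_option autoImplicit false

namespace Pool.Agent.Lib.MP_c385f6_ag.TPG

universe u v u' v' w

namespace CptT

section gen

variable {C : Type u} {Ω : Type v} [Field C] [Field Ω] [Algebra C Ω]

/-- the elements that are mapped to `N` by `s` -/
def pre (s : Ω ≃+* Ω) (hs : ∀ c : C, ∃ c' : C, s (algebraMap C Ω c) = algebraMap C Ω c')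
    (N : IntermediateField C Ω) : IntermediateField C Ω where
  carrier := {x | s x ∈ N}
  mul_mem' := by
    intro x y hx hy
    change s (x * y) ∈ N
    rw [map_mul]
    exact mul_mem hx hy
  add_mem' := by
    intro x y hx hy
    change s (x + y) ∈ N
    rw [map_add]
    exact add_mem hx hy
  algebraMap_mem' := by
    intro c
    obtain ⟨c', hc'⟩ := hs c
    change s (algebraMap C Ω c) ∈ N
    rw [hc']
    exact N.algebraMap_mem c'
  inv_mem' := by
    intro x hx
    change s x⁻¹ ∈ N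
    rw [map_inv₀]
    exact N.inv_mem hx

theorem map_adjoin (s : Ω ≃+* Ω)
    (hs : ∀ c : C, ∃ c' : C, s (algebraMap C Ω c) = algebraMap C Ω c')
    (S : Set Ω) (N : IntermediateField C Ω) (hS : ∀ x ∈ S, s x ∈ N) (z : Ω)
    (hz : z ∈ IntermediateField.adjoin C S) : s z ∈ N := by
  have h1 : IntermediateField.adjoin C S ≤ pre s hs N := by
    rw [IntermediateField.adjoin_le_iff]
    exact hS
  exact h1 hz

/-- the automorphism of `⊤` -/
noncomputable def topAut (C : Type u) {Ω : Type v} [Field C] [Field Ω] [Algebra C Ω]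
    (s : Ω ≃+* Ω) : (⊤ : IntermediateField C Ω) ≃+* (⊤ : IntermediateField C Ω) :=
  ((IntermediateField.topEquiv (F := C) (E := Ω)).toRingEquiv.trans s).trans
    (IntermediateField.topEquiv (F := C) (E := Ω)).toRingEquiv.symm

theorem topAut_apply (s : Ω ≃+* Ω) (z : (⊤ : IntermediateField C Ω)) :
    ((topAut C s z : (⊤ : IntermediateField C Ω)) : Ω) = s z := rfl

theorem topAut_symm_apply (s : Ω ≃+* Ω) (z : (⊤ : IntermediateField C Ω)) :
    (((topAut C s).symm z : (⊤ : IntermediateField C Ω)) : Ω) = s.symm z := rfl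

/-- towers are finitely generated -/
theorem tow_fg {p : ℕ} {L : IntermediateField C Ω} (S : Set Ω)
    (hL : L = IntermediateField.adjoin C S) {M : IntermediateField C Ω} (hM : Tow C p L M) :
    ∃ S₀ : Finset Ω, M = IntermediateField.adjoin C (S ∪ S₀) := by
  classical
  induction hM with
  | base => exact ⟨∅, by rw [hL, Finset.coe_empty, Set.union_empty]⟩
  | step M h n g hM hn hg hgD ih =>
    obtain ⟨S₀, ih⟩ := ih
    refine ⟨insert h S₀, ?_⟩
    rw [Finset.coe_insert, Set.union_insert, Set.insert_eq, Set.union_comm {h},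
      IntermediateField.adjoin_union, ← ih]

end gen

end CptT

open CptT in
/-- G20. All towers have complete constants. -/
theorem stCptT (hD : StTwDir.{u, u}) (hA : StTwAut.{u, u}) (hU : StTwUq.{u, u, u', v'})
    (hM : StCptM.{u, u', v'}) : StCptT.{u, u', v'} := by
  classical
  intro p _ k K Ω _ _ _ _ _ _ _ _ _ _ F U _ _ _ R L g k₂ h
  have hΩ : IsAlgClosed Ω := IsAlgClosure.isAlgClosed K
  have hCac : IsAlgClosed (algebraicClosure k Ω) := IsAlgClosure.isAlgClosed k
  have hF := h.fp.closed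
  have hk0 : CharZero k := charZero_of_injective_algebraMap (algebraMap ℚ_[p] k).injective
  have hC0 : CharZero (algebraicClosure k Ω) :=
    charZero_of_injective_algebraMap (algebraMap k (algebraicClosure k Ω)).injective
  have hpC : PrP p (algebraicClosure k Ω) := by
    intro n hn h0
    rw [Nat.cast_eq_zero] at h0
    exact hn (h0 ▸ dvd_zero p)
  have hpF : PrP p F := by
    intro n hn h0
    have := h.fp.char
    exact hn ((CharP.cast_eq_zero_iff F p n).1 h0)
  have hFF : FF (algebraicClosure k Ω) L := h.good.ffC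
  obtain ⟨-, -, d3, -, -⟩ := hD (algebraicClosure k Ω) Ω p L hFF hpC
  -- `C` is stable
  have hC : ∀ (s : Ω ≃ₐ[K] Ω) (c : algebraicClosure k Ω), ∃ c' : algebraicClosure k Ω,
      (s : Ω ≃+* Ω) (algebraMap (algebraicClosure k Ω) Ω c) =
        algebraMap (algebraicClosure k Ω) Ω c' := by
    intro s c
    have h1 : IsAlgebraic k ((s.restrictScalars k) (c : Ω)) :=
      (isAlgebraic_algHom_iff (s.restrictScalars k : Ω ≃ₐ[k] Ω).toAlgHom
        (s.restrictScalars k).injective).2 (mem_algebraicClosure_iff.1 c.2)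
    exact ⟨⟨s (c : Ω), mem_algebraicClosure_iff.2 h1⟩, rfl⟩
  -- `L` is stable
  have hL1 : ∀ (s : Ω ≃ₐ[K] Ω) (z : Ω), z ∈ L → s z ∈ L := by
    intro s z hz
    rw [h.eqL] at hz
    refine map_adjoin (s : Ω ≃+* Ω) (hC s) _ L ?_ z hz
    rintro _ ⟨x, rfl⟩
    change s (algebraMap K Ω x) ∈ L
    rw [s.commutes, h.eqL]
    exact IntermediateField.subset_adjoin _ _ ⟨x, rfl⟩
  have hL2 : ∀ (s : Ω ≃ₐ[K] Ω) (z : Ω), z ∈ L ↔ s z ∈ L := by
    intro s z
    refine ⟨hL1 s z, fun hz => ?_⟩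
    have h1 := hL1 s.symm _ hz
    rwa [AlgEquiv.symm_apply_apply] at h1
  -- the union of the towers is stable
  have hT : ∀ (s : Ω ≃ₐ[K] Ω) (z : Ω), z ∈ Tinf (algebraicClosure k Ω) p L →
      s z ∈ Tinf (algebraicClosure k Ω) p L := by
    intro s z hz
    obtain ⟨M, hMT, hzM⟩ := (d3 z).1 hz
    obtain ⟨M', hM', -, h1⟩ := hA (algebraicClosure k Ω) Ω p L ⊤ (topAut _ (s : Ω ≃+* Ω)) hFF hpC
      le_top (fun c => by
        obtain ⟨c', hc'⟩ := hC s c
        exact ⟨c', Subtype.ext hc'⟩)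
      (fun c => by
        obtain ⟨c', hc'⟩ := hC s.symm c
        exact ⟨c', Subtype.ext hc'⟩)
      (fun z => hL2 s z) M hMT le_top
    exact (d3 _).2 ⟨M', hM', (h1 ⟨z, IntermediateField.mem_top⟩).1 hzM⟩
  have hW : ∀ (s : Ω ≃ₐ[K] Ω) (z : Ω), z ∈ Tinf (algebraicClosure k Ω) p L →
      (z ∈ R.w → s z ∈ R.w) := by
    intro s z hz hzw
    have h1 := hU (algebraicClosure k Ω) Ω F U R p g L hpC hpF h.good
      (R.w.comap ((s : Ω →+* Ω).comp (algebraMap (Tinf (algebraicClosure k Ω) p L) Ω)))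
      (fun y hy => by
        change s (y : Ω) ∈ R.w ↔ (y : Ω) ∈ R.w
        refine ⟨fun h2 => ?_, fun h2 => h.stab s y hy h2⟩
        have h3 := h.stab s.symm (s y) (hL1 s _ hy) h2
        rwa [AlgEquiv.symm_apply_apply] at h3) ⟨z, hz⟩
    exact h1.2 hzw
  refine ⟨fun s z hz => ⟨hT s z hz, hW s z hz⟩, fun M hMT => ?_⟩
  obtain ⟨S₀, hS₀⟩ := tow_fg _ h.eqL hMT
  exact hM p k K Ω F U R h.val h.const S₀ M hS₀ fun s z hz hzw => hW s z (le_sSup hMT hz) hzw

end Pool.Agent.Lib.MP_c385f6_ag.TPG
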