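import Pool.Agent.Lib.MP_c385f6_ag.TPG.StEd

/-!
Project TPG, G31: inertia, wild inertia, Frobenius and the cyclic quotient: the input `EDat` of
part E.
-/

set_option autoImplicit false

open Polynomial

namespace Pool.Agent.Lib.MP_c385f6_ag.TPG

universe u u' v' w

namespace EdDat

section Grp

variable {k : Type} {C : Type u} [Field k] [Field C] [Algebra k C] {Γ₀ : Type w}
  [LinearOrderedCommGroupWithZero Γ₀] (v : Valuation C Γ₀)

/-- The inertia group. -/
def inG (hv : ∀ (s : C ≃ₐ[k] C) (c : C), v (s c) = v c) : Subgroup (C ≃ₐ[k] C) where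
  carrier := {s | IsIn v (s : C ≃+* C)}
  mul_mem' := by
    intro s t hs ht c hc
    have e : (s * t) c - c = (s (t c) - t c) + (t c - c) := by
      rw [AlgEquiv.mul_apply]
      ring
    change v ((s * t) c - c) < 1
    rw [e]
    exact Valuation.map_add_lt _ (hs (t c) (by rw [hv]; exact hc)) (ht c hc)
  one_mem' := by
    intro c _
    change v (c - c) < 1
    rw [sub_self, map_zero]
    exact zero_lt_one
  inv_mem' := by
    intro s hs c hc
    change v (s⁻¹ c - c) < 1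
    have e : s (s⁻¹ c - c) = c - s c := by
      rw [map_sub, ← AlgEquiv.mul_apply, mul_inv_cancel, AlgEquiv.one_apply]
    rw [← hv s, e, Valuation.map_sub_swap]
    exact hs c hc

/-- The wild inertia group. -/
def wildG (hv : ∀ (s : C ≃ₐ[k] C) (c : C), v (s c) = v c) : Subgroup (C ≃ₐ[k] C) where
  carrier := {s | IsWild v (s : C ≃+* C)}
  mul_mem' := by
    intro s t hs ht c hc
    have e : (s * t) c - c = (s (t c) - t c) + (t c - c) := by
      rw [AlgEquiv.mul_apply]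
      ring
    change v ((s * t) c - c) < v c
    rw [e]
    refine Valuation.map_add_lt _ ?_ (ht c hc)
    have h1 := hs (t c) ((map_ne_zero t).2 hc)
    rwa [hv] at h1
  one_mem' := by
    intro c hc
    change v (c - c) < v c
    rw [sub_self, map_zero]
    exact (Valuation.pos_iff v).2 hc
  inv_mem' := by
    intro s hs c hc
    change v (s⁻¹ c - c) < v c
    have e : s (s⁻¹ c - c) = c - s c := by
      rw [map_sub, ← AlgEquiv.mul_apply, mul_inv_cancel, AlgEquiv.one_apply]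
    rw [← hv s, e, Valuation.map_sub_swap]
    exact hs c hc

theorem mem_inG {hv : ∀ (s : C ≃ₐ[k] C) (c : C), v (s c) = v c} {s : C ≃ₐ[k] C} :
    s ∈ inG v hv ↔ IsIn v (s : C ≃+* C) := Iff.rfl

theorem mem_wildG {hv : ∀ (s : C ≃ₐ[k] C) (c : C), v (s c) = v c} {s : C ≃ₐ[k] C} :
    s ∈ wildG v hv ↔ IsWild v (s : C ≃+* C) := Iff.rfl

/-- Automorphisms as ring automorphisms. -/
def re : (C ≃ₐ[k] C) →* (C ≃+* C) where
  toFun s := (s : C ≃+* C)
  map_one' := rfl
  map_mul' _ _ := rfl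

end Grp

section Adj

variable {k : Type} {K Ω : Type u} [Field k] [Field K] [Field Ω] [Algebra k Ω] [Algebra K Ω]

theorem adj_stable (t : Ω ≃ₐ[K] Ω)
    (h : ∀ c : algebraicClosure k Ω, ∃ c' : algebraicClosure k Ω, t (c : Ω) = c') {z : Ω}
    (hz : z ∈ IntermediateField.adjoin (algebraicClosure k Ω) (Set.range (algebraMap K Ω))) :
    t z ∈ IntermediateField.adjoin (algebraicClosure k Ω) (Set.range (algebraMap K Ω)) := by
  induction hz using IntermediateField.adjoin_induction with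
  | mem x hx =>
    obtain ⟨y, rfl⟩ := hx
    rw [t.commutes]
    exact IntermediateField.subset_adjoin _ _ ⟨y, rfl⟩
  | algebraMap c =>
    obtain ⟨c', hc'⟩ := h c
    change t (c : Ω) ∈ _
    rw [hc']
    exact IntermediateField.algebraMap_mem _ c'
  | add x y _ _ hx hy => rw [map_add]; exact add_mem hx hy
  | inv x _ hx => rw [map_inv₀]; exact inv_mem hx
  | mul x y _ _ hx hy => rw [map_mul]; exact mul_mem hx hy

theorem adj_agree (t t' : Ω ≃ₐ[K] Ω) (h : ∀ c : algebraicClosure k Ω, t (c : Ω) = t' (c : Ω))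
    {z : Ω}
    (hz : z ∈ IntermediateField.adjoin (algebraicClosure k Ω) (Set.range (algebraMap K Ω))) :
    t z = t' z := by
  induction hz using IntermediateField.adjoin_induction with
  | mem x hx =>
    obtain ⟨y, rfl⟩ := hx
    rw [t.commutes, t'.commutes]
  | algebraMap c => exact h c
  | add x y _ _ hx hy => rw [map_add, map_add, hx, hy]
  | inv x _ hx => rw [map_inv₀, map_inv₀, hx]
  | mul x y _ _ hx hy => rw [map_mul, map_mul, hx, hy]

end Adj

theorem res_eq_iff {C : Type u} {L : Type u} {F : Type u'} {Λ : Type v'} [Field C] [Field L]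
    [Field F] [Field Λ] [Algebra C L] [Algebra F Λ] (R : Red C L F Λ) {x y : L} (hx : x ∈ R.w)
    (hy : y ∈ R.w) : R.res x = R.res y ↔ R.w.valuation (x - y) < 1 := by
  rw [← R.res_lt _ (sub_mem hx hy), R.res_sub hx hy, sub_eq_zero]

end EdDat

open EdDat in
/-- G31. -/
theorem stEdDat (hInv : StVInv.{u, u}) (hFrob : StVFrob.{u, u}) (hTR : StTameRel.{u, u})
    (hWP : StWildP.{u, u}) (hTK : StTameK.{u, u}) (hExt : StExt.{u}) :
    StEdDat.{u, u', v'} := by
  intro p _ k K Ω _ _ _ _ _ _ _ _ _ _ F U _ _ _ R L g k₂ hPk hImg N s hGal hSec hTN ρ hρ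
  have hchar : CharZero k := charZero_of_injective_algebraMap (algebraMap ℚ_[p] k).injective
  have hΩ : IsAlgClosed Ω := IsAlgClosure.isAlgClosed K
  obtain ⟨-, hE2, hCcl⟩ := hExt k K Ω hPk.const
  have hCalg : Algebra.IsAlgebraic k (algebraicClosure k Ω) := inferInstance
  obtain ⟨hvinv, -, -⟩ := hInv p k (algebraicClosure k Ω) _ R.v hPk.val
  have hmem : ∀ c : algebraicClosure k Ω, R.v c ≤ 1 ↔ (c : Ω) ∈ R.w :=
    fun c => R.w.valuation_le_one_iff _
  have hCT : ∀ c : algebraicClosure k Ω, (c : Ω) ∈ Tinf (algebraicClosure k Ω) p L :=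
    fun c => (Tinf (algebraicClosure k Ω) p L).algebraMap_mem c
  have hCN : ∀ c : algebraicClosure k Ω, (c : Ω) ∈ N := fun c => hTN _ (hCT c)
  have hLT : L ≤ Tinf (algebraicClosure k Ω) p L := le_sSup Tow.base
  have hKΩ : Normal K Ω := IsAlgClosure.normal K Ω
  have lift : ∀ σ : AbsGal k Ω, ∃ t : Ω ≃ₐ[K] Ω, ∀ z : N, t z = ((s σ z : N) : Ω) :=
    fun σ => ⟨(s σ).liftNormal Ω, fun z => AlgEquiv.liftNormal_commutes _ _ z⟩
  choose st hst using lift
  have hstc : ∀ (σ : AbsGal k Ω) (c : algebraicClosure k Ω), st σ (c : Ω) = (σ c : Ω) := by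
    intro σ c
    have h1 := hst σ ⟨c, hCN c⟩
    rw [hSec.restrict σ c ⟨c, hCN c⟩ rfl] at h1
    exact h1
  have hstp : ∀ (σ : AbsGal k Ω) (n : ℕ) (c : algebraicClosure k Ω),
      (st σ ^ n) (c : Ω) = ((σ ^ n) c : Ω) := by
    intro σ n
    induction n with
    | zero => intro c; rfl
    | succ n ih =>
      intro c
      rw [pow_succ, pow_succ, AlgEquiv.mul_apply, AlgEquiv.mul_apply, hstc, ih]
  have hLst : ∀ (σ : AbsGal k Ω), ∀ z ∈ L, st σ z ∈ L := by
    intro σ z hz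
    have h1 := hPk.eqL
    rw [h1] at hz ⊢
    exact adj_stable (st σ) (fun c => ⟨σ c, hstc σ c⟩) hz
  -- residues
  have hrho : ∀ (σ : AbsGal k Ω) (y : Tinf F p (R.img L)) (z : N),
      (z : Ω) ∈ Tinf (algebraicClosure k Ω) p L → (z : Ω) ∈ R.w → (y : U) = R.res (z : Ω) →
      ((ρ σ y : Tinf F p (R.img L)) : U) = R.res ((s σ z : N) : Ω) :=
    fun σ y z h1 h2 h3 => (hρ σ z h1 h2).2.2 y h3
  have hres : ∀ y : Tinf F p (R.img L), ∃ z : N, (z : Ω) ∈ Tinf (algebraicClosure k Ω) p L ∧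
      (z : Ω) ∈ R.w ∧ (y : U) = R.res (z : Ω) := by
    intro y
    have h1 : (y : U) ∈ R.img (Tinf (algebraicClosure k Ω) p L) := by
      rw [hImg]
      exact y.2
    obtain ⟨z, hz, hz', h⟩ := h1
    exact ⟨⟨z, hTN z hz⟩, hz, hz', h.symm⟩
  have hresL : ∀ y : Tinf F p (R.img L), (y : U) ∈ R.img L → ∃ z : N, (z : Ω) ∈ L ∧
      (z : Ω) ∈ R.w ∧ (y : U) = R.res (z : Ω) := by
    rintro y ⟨z, hz, hz', h⟩
    exact ⟨⟨z, hTN z (hLT hz)⟩, hz, hz', h.symm⟩
  have hIn : ∀ σ : AbsGal k Ω, σ ∈ inG R.v hvinv → ∀ c : algebraicClosure k Ω, (c : Ω) ∈ R.w →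
      R.res (σ c : Ω) = R.res (c : Ω) := by
    intro σ hσ c hc
    have h1 : R.v (σ c) ≤ 1 := by
      rw [hvinv]
      exact (hmem c).2 hc
    exact (res_eq_iff R ((hmem _).1 h1) hc).2 (hσ c ((hmem c).2 hc))
  have hInO : ∀ σ : AbsGal k Ω, σ ∈ inG R.v hvinv → InO R (st σ) := by
    intro σ hσ c hc
    rw [hstc]
    exact hIn σ hσ c hc
  have hcst : ∀ (σ : AbsGal k Ω) (a : F) (c : algebraicClosure k Ω), (c : Ω) ∈ R.w →
      R.res (c : Ω) = algebraMap F U a →
      ((ρ σ (algebraMap F _ a) : Tinf F p (R.img L)) : U) = R.res (σ c : Ω) := by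
    intro σ a c hc ha
    rw [hrho σ (algebraMap F _ a) ⟨c, hCN c⟩ (hCT c) hc ha.symm,
      hSec.restrict σ c ⟨c, hCN c⟩ rfl]
  have hσw : ∀ (σ : AbsGal k Ω) (c : algebraicClosure k Ω), (c : Ω) ∈ R.w → (σ c : Ω) ∈ R.w := by
    intro σ c hc
    rw [← hmem, hvinv]
    exact (hmem c).2 hc
  have htriv : ∀ σ : AbsGal k Ω, σ ∈ inG R.v hvinv → (∀ c ∈ k₂, σ c = c) →
      ∀ y : Tinf F p (R.img L), (y : U) ∈ R.img L → ρ σ y = y := by
    intro σ hσ hk y hy
    obtain ⟨z, hz, hzw, hyz⟩ := hresL y hy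
    apply Subtype.ext
    rw [hrho σ y z (hLT hz) hzw hyz, ← hst σ z, hyz]
    exact hPk.triv (st σ) (hInO σ hσ) (fun c hc => by rw [hstc, hk c hc]) _ hz hzw
  obtain ⟨φ, f, hf, hφ⟩ := hFrob p k (algebraicClosure k Ω) _ R.v hPk.val
  obtain ⟨-, ⟨t, htI, e, he, hte, hall⟩, -⟩ := hTK p k (algebraicClosure k Ω) _ R.v hPk.val k₂
    hPk.fin hPk.nrm (by
      intro σ hσ
      obtain ⟨e, he, h⟩ := hPk.tame (st σ) (hInO σ hσ)
      refine ⟨e, he, fun c hc => Subtype.ext ?_⟩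
      rw [← hstp]
      exact h c hc)
  refine ⟨inG R.v hvinv, wildG R.v hvinv, φ, ?_⟩
  constructor
  · -- norm
    constructor
    intro σ hσ τ c hc
    change R.v ((τ * σ * τ⁻¹) c - c) < 1
    have e1 : (τ * σ * τ⁻¹) c - c = τ (σ (τ⁻¹ c) - τ⁻¹ c) := by
      rw [map_sub, ← AlgEquiv.mul_apply τ τ⁻¹, mul_inv_cancel, AlgEquiv.one_apply]
      rfl
    rw [e1, hvinv]
    exact hσ (τ⁻¹ c) (by rw [hvinv]; exact hc)
  · -- le
    intro σ hσ c hc
    change R.v (σ c - c) < 1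
    rcases eq_or_ne c 0 with rfl | h0
    · rw [map_zero, sub_self, map_zero]
      exact zero_lt_one
    · exact lt_of_lt_of_le (hσ c h0) hc
  · -- stab
    have h1 : ∀ (σ : AbsGal k Ω) (y : Tinf F p (R.img L)), (y : U) ∈ R.img L →
        ((ρ σ y : Tinf F p (R.img L)) : U) ∈ R.img L := by
      intro σ y hy
      obtain ⟨z, hz, hzw, hyz⟩ := hresL y hy
      rw [hrho σ y z (hLT hz) hzw hyz]
      refine ⟨((s σ z : N) : Ω), ?_, (hρ σ z (hLT hz) hzw).2.1, rfl⟩
      rw [← hst σ z]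
      exact hLst σ _ hz
    intro σ y
    refine ⟨h1 σ y, fun h => ?_⟩
    have h2 := h1 σ⁻¹ (ρ σ y) h
    have h3 : ρ σ⁻¹ (ρ σ y) = y := by
      rw [← RingAut.mul_apply, ← map_mul, inv_mul_cancel, map_one, RingAut.one_apply]
    rwa [h3] at h2
  · -- cst
    intro σ a
    obtain ⟨c, hc, hca⟩ := R.const_surj a
    obtain ⟨a', ha'⟩ := R.const (σ c) (hσw σ c hc)
    refine ⟨a', Subtype.ext ?_⟩
    rw [hcst σ a c hc hca]
    exact ha'
  · -- inert
    intro σ hσ a
    obtain ⟨c, hc, hca⟩ := R.const_surj a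
    apply Subtype.ext
    rw [hcst σ a c hc hca, hIn σ hσ c hc]
    exact hca
  · -- frob
    refine ⟨f, hf, fun a => ?_, fun σ hσ => ?_⟩
    · obtain ⟨c, hc, hca⟩ := R.const_surj a
      apply Subtype.ext
      rw [hcst φ a c hc hca]
      have h1 : (((c ^ p ^ f : algebraicClosure k Ω)) : Ω) ∈ R.w := by
        rw [SubmonoidClass.coe_pow]
        exact pow_mem hc _
      have h2 : R.res (φ c : Ω) = R.res ((c ^ p ^ f : algebraicClosure k Ω) : Ω) :=
        (res_eq_iff R (hσw φ c hc) h1).2 (hφ c ((hmem c).2 hc))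
      have h3 : R.res ((c ^ p ^ f : algebraicClosure k Ω) : Ω) = R.res (c : Ω) ^ p ^ f := by
        have := map_pow R.hom ⟨(c : Ω), hc⟩ (p ^ f)
        exact this
      rw [h2, h3]
      have h4 : R.res (c : Ω) = algebraMap F U a := hca
      rw [h4, ← map_pow]
      rfl
    · have h1 := hTR (algebraicClosure k Ω) _ R.v (re σ) (re φ) (p ^ f) (fun c => hvinv σ c)
        (fun c => hvinv φ c) hσ hφ
      rw [← map_pow, ← map_inv, ← map_inv, ← map_mul, ← map_mul, ← map_mul] at h1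
      exact h1
  · -- orb
    intro y
    obtain ⟨z, hz, hzw, hyz⟩ := hres y
    have hint : IsIntegral K (z : Ω) := Algebra.IsIntegral.isIntegral _
    have hfin : {x : Ω | x ∈ (minpoly K (z : Ω)).rootSet Ω}.Finite :=
      Polynomial.rootSet_finite _ _
    refine ((hfin.image R.res).preimage (Subtype.val_injective.injOn)).subset ?_
    rintro _ ⟨σ, rfl⟩
    refine ⟨((s σ z : N) : Ω), ?_, (hrho σ y z hz hzw hyz).symm⟩
    change ((s σ z : N) : Ω) ∈ (minpoly K (z : Ω)).rootSet Ω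
    rw [← hst σ z, Polynomial.mem_rootSet]
    refine ⟨minpoly.ne_zero hint, ?_⟩
    have h1 := Polynomial.aeval_algHom_apply ((st σ : Ω ≃ₐ[K] Ω) : Ω →ₐ[K] Ω) (z : Ω)
      (minpoly K (z : Ω))
    rw [minpoly.aeval, map_zero] at h1
    exact h1
  · -- wild
    intro σ hσ y
    obtain ⟨z, hz, hzw, hyz⟩ := hres y
    have hKN : Algebra.IsAlgebraic K N := inferInstance
    have hop : IsOpen {τ : AbsGal k Ω | s τ z = z} := by
      have h1 : IsOpen (MulAction.stabilizer (N ≃ₐ[K] N) z : Set (N ≃ₐ[K] N)) :=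
        stabilizer_isOpen_of_isIntegral (K := K) z
      exact h1.preimage hSec.continuous
    have h1 : {τ : AbsGal k Ω | s τ z = z} ∈ nhds (1 : AbsGal k Ω) := by
      refine hop.mem_nhds ?_
      change s 1 z = z
      rw [map_one, AlgEquiv.one_apply]
    rw [krullTopology_mem_nhds_one_iff] at h1
    obtain ⟨E, hE, hEs⟩ := h1
    obtain ⟨S, hS⟩ : E.FG := IntermediateField.essFiniteType_iff.mp inferInstance
    obtain ⟨n, hn⟩ := hWP p k (algebraicClosure k Ω) _ R.v hPk.val σ hσ S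
    refine ⟨n, Subtype.ext ?_⟩
    rw [hrho _ y z hz hzw hyz, hyz]
    have h2 : σ ^ p ^ n ∈ E.fixingSubgroup := by
      rw [IntermediateField.mem_fixingSubgroup_iff]
      have h3 := (IntermediateField.forall_mem_adjoin_smul_eq_self_iff k
        (S := (S : Set (algebraicClosure k Ω))) (σ ^ p ^ n)).mpr (fun x hx => hn x hx)
      rw [hS] at h3
      exact h3
    have h3 : s (σ ^ p ^ n) z = z := hEs h2
    rw [h3]
  · -- cyc
    refine ⟨t, htI, e, he, fun y hy => ?_, fun σ hσ => ?_⟩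
    · exact htriv (t ^ e) ((inG R.v hvinv).pow_mem htI e) hte y hy
    · obtain ⟨j, hj⟩ := hall σ hσ
      refine ⟨j, fun y hy => ?_⟩
      have h1 : (t ^ j)⁻¹ * σ ∈ inG R.v hvinv :=
        (inG R.v hvinv).mul_mem ((inG R.v hvinv).inv_mem ((inG R.v hvinv).pow_mem htI j)) hσ
      have h2 := htriv _ h1 (fun c hc => by
        rw [AlgEquiv.mul_apply, hj c hc, ← AlgEquiv.mul_apply, inv_mul_cancel,
          AlgEquiv.one_apply]) y hy
      have h3 : ρ σ y = ρ (t ^ j) (ρ ((t ^ j)⁻¹ * σ) y) := by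
        rw [← RingAut.mul_apply, ← map_mul, mul_inv_cancel_left]
      rw [h3, h2]
  · -- ram
    obtain ⟨s₀, hs₀, z, hz, hzw, hne⟩ := hPk.ram
    obtain ⟨n, hn⟩ := hE2 s₀
    have hnI : n ∈ inG R.v hvinv := by
      intro c hc
      have h1 := (hmem c).1 hc
      have h2 := hs₀ c h1
      rw [hn c] at h2
      exact (res_eq_iff R (hσw n c h1) h1).1 h2
    have hy : R.res z ∈ Tinf F p (R.img L) := by
      rw [← hImg]
      exact ⟨z, hLT hz, hzw, rfl⟩
    refine ⟨n, hnI, ⟨R.res z, hy⟩, ⟨z, hz, hzw, rfl⟩, fun h => hne ?_⟩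
    have h1 := hrho n ⟨R.res z, hy⟩ ⟨z, hTN z (hLT hz)⟩ (hLT hz) hzw rfl
    rw [h, ← hst n] at h1
    change R.res z = R.res (st n z) at h1
    have h2 := hPk.eqL
    rw [h2] at hz
    have h3 : s₀ z = st n z := adj_agree s₀ (st n) (fun c => by rw [hn, hstc]) hz
    rw [h3, ← h1]

end Pool.Agent.Lib.MP_c385f6_ag.TPG
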