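import Pool.Agent.Lib.MP_c385f6_ag.TPG.StThm

/-!
Project TPG: a section acts on the residue field of the union of the towers; inertia, wild inertia and
Frobenius (the input `EDat` of part E).
-/

set_option autoImplicit false

open Polynomial

namespace Pool.Agent.Lib.MP_c385f6_ag.TPG

universe u u' v'

/-- `ρ` is the action of `Gal_k` (through the section `s`) on the residue field of the union of the
towers. -/
def Cmp {k : Type} {K Ω : Type u} [Field k] [Field K] [Field Ω] [Algebra k Ω] [Algebra K Ω]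
    {F : Type u'} {U : Type v'} [Field F] [Field U] [Algebra F U] (p : ℕ)
    (R : Red (algebraicClosure k Ω) Ω F U) (L : IntermediateField (algebraicClosure k Ω) Ω)
    {N : IntermediateField K Ω} (s : AbsGal k Ω →* (N ≃ₐ[K] N))
    (ρ : AbsGal k Ω →* (Tinf F p (R.img L) ≃+* Tinf F p (R.img L))) : Prop :=
  ∀ (σ : AbsGal k Ω) (z : N), (z : Ω) ∈ Tinf (algebraicClosure k Ω) p L → (z : Ω) ∈ R.w →
    ((s σ z : N) : Ω) ∈ Tinf (algebraicClosure k Ω) p L ∧ ((s σ z : N) : Ω) ∈ R.w ∧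
      ∀ y : Tinf F p (R.img L), (y : U) = R.res (z : Ω) →
        ((ρ σ y : Tinf F p (R.img L)) : U) = R.res ((s σ z : N) : Ω)

/-- G30. The action of `Gal_k`. -/
def StEdRho : Prop :=
  ∀ (p : ℕ) [Fact p.Prime] (k : Type) (K Ω : Type u) [Field k] [Field K] [Field Ω]
    [Algebra ℚ_[p] k] [FiniteDimensional ℚ_[p] k] [Algebra k K] [Algebra k Ω] [Algebra K Ω]
    [IsScalarTower k K Ω] [IsAlgClosure K Ω] (F : Type u') (U : Type v') [Field F] [Field U]
    [Algebra F U] (R : Red (algebraicClosure k Ω) Ω F U)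
    (L : IntermediateField (algebraicClosure k Ω) Ω) (g : ℕ)
    (k₂ : IntermediateField k (algebraicClosure k Ω)), Pk p K R L g k₂ →
    R.img (Tinf (algebraicClosure k Ω) p L) = Tinf F p (R.img L) →
    ∀ (N : IntermediateField K Ω) (s : AbsGal k Ω →* (N ≃ₐ[K] N)), IsGalois K N →
      Semi.IsSec k K Ω N s → (∀ z ∈ Tinf (algebraicClosure k Ω) p L, z ∈ N) →
      ∃ ρ : AbsGal k Ω →* (Tinf F p (R.img L) ≃+* Tinf F p (R.img L)), Cmp p R L s ρ

/-- G31. The input of part E. -/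
def StEdDat : Prop :=
  ∀ (p : ℕ) [Fact p.Prime] (k : Type) (K Ω : Type u) [Field k] [Field K] [Field Ω]
    [Algebra ℚ_[p] k] [FiniteDimensional ℚ_[p] k] [Algebra k K] [Algebra k Ω] [Algebra K Ω]
    [IsScalarTower k K Ω] [IsAlgClosure K Ω] (F : Type u') (U : Type v') [Field F] [Field U]
    [Algebra F U] (R : Red (algebraicClosure k Ω) Ω F U)
    (L : IntermediateField (algebraicClosure k Ω) Ω) (g : ℕ)
    (k₂ : IntermediateField k (algebraicClosure k Ω)), Pk p K R L g k₂ →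
    R.img (Tinf (algebraicClosure k Ω) p L) = Tinf F p (R.img L) →
    ∀ (N : IntermediateField K Ω) (s : AbsGal k Ω →* (N ≃ₐ[K] N)), IsGalois K N →
      Semi.IsSec k K Ω N s → (∀ z ∈ Tinf (algebraicClosure k Ω) p L, z ∈ N) →
      ∀ ρ : AbsGal k Ω →* (Tinf F p (R.img L) ≃+* Tinf F p (R.img L)), Cmp p R L s ρ →
        ∃ (I P : Subgroup (AbsGal k Ω)) (φ : AbsGal k Ω), EDat p (R.img L) ρ I P φ

end Pool.Agent.Lib.MP_c385f6_ag.TPG
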