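import Mathlib
import Pool.Agent.Lib.MP_c385f6_ag.TPG.StEd
import Pool.Agent.Lib.MP_c385f6_ag.TPG.GCptT

/-!
Project TPG, part G, G30: the action of `Gal_k` on the residue field of the union of the towers.
-/

set_option autoImplicit false

namespace Pool.Agent.Lib.MP_c385f6_ag.TPG

universe u u' v'

namespace EdRho

section lift

variable {K Ω : Type u} [Field K] [Field Ω] [Algebra K Ω] [Normal K Ω]
  {N : IntermediateField K Ω}

/-- automorphisms of `N` are restrictions of automorphisms of `Ω` -/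
theorem exists_lift (a : N ≃ₐ[K] N) : ∃ s : Ω ≃ₐ[K] Ω, ∀ z : N, s (z : Ω) = (a z : N) :=
  ⟨a.liftNormal Ω, fun z => a.liftNormal_commutes Ω z⟩

end lift

section act

variable {K Ω : Type u} [Field K] [Field Ω] [Algebra K Ω] {C : Type u} [Field C] [Algebra C Ω]
  {N : IntermediateField K Ω} {T : IntermediateField C Ω}

/-- the restriction of an automorphism of `N` to a subfield `T` -/
def rs (hN : ∀ z ∈ T, z ∈ N) (hT : ∀ (a : N ≃ₐ[K] N) (z : N), (z : Ω) ∈ T → ((a z : N) : Ω) ∈ T)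
    (a : N ≃ₐ[K] N) : T ≃+* T where
  toFun z := ⟨((a ⟨(z : Ω), hN z z.2⟩ : N) : Ω), hT a _ z.2⟩
  invFun z := ⟨((a.symm ⟨(z : Ω), hN z z.2⟩ : N) : Ω), hT a.symm _ z.2⟩
  left_inv z := by
    apply Subtype.ext
    change ((a.symm (a ⟨(z : Ω), hN z z.2⟩) : N) : Ω) = z
    rw [AlgEquiv.symm_apply_apply]
  right_inv z := by
    apply Subtype.ext
    change ((a (a.symm ⟨(z : Ω), hN z z.2⟩) : N) : Ω) = z
    rw [AlgEquiv.apply_symm_apply]
  map_mul' x y := by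
    apply Subtype.ext
    change ((a (⟨(x : Ω), hN x x.2⟩ * ⟨(y : Ω), hN y y.2⟩) : N) : Ω) =
      ((a ⟨(x : Ω), hN x x.2⟩ : N) : Ω) * ((a ⟨(y : Ω), hN y y.2⟩ : N) : Ω)
    rw [map_mul]
    rfl
  map_add' x y := by
    apply Subtype.ext
    change ((a (⟨(x : Ω), hN x x.2⟩ + ⟨(y : Ω), hN y y.2⟩) : N) : Ω) =
      ((a ⟨(x : Ω), hN x x.2⟩ : N) : Ω) + ((a ⟨(y : Ω), hN y y.2⟩ : N) : Ω)
    rw [map_add]
    rfl

/-- the action on `T` -/
def act (hN : ∀ z ∈ T, z ∈ N) (hT : ∀ (a : N ≃ₐ[K] N) (z : N), (z : Ω) ∈ T → ((a z : N) : Ω) ∈ T)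
    {G : Type u} [Group G] (s : G →* (N ≃ₐ[K] N)) : G →* (T ≃+* T) where
  toFun g := rs hN hT (s g)
  map_one' := by
    apply RingEquiv.ext
    intro z
    apply Subtype.ext
    change ((s 1 ⟨(z : Ω), hN z z.2⟩ : N) : Ω) = z
    rw [map_one]
    rfl
  map_mul' g h := by
    apply RingEquiv.ext
    intro z
    apply Subtype.ext
    change ((s (g * h) ⟨(z : Ω), hN z z.2⟩ : N) : Ω) =
      ((s g (s h ⟨(z : Ω), hN z z.2⟩) : N) : Ω)
    rw [map_mul]
    rfl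

end act

end EdRho

open EdRho CptT in
/-- G30. The action of `Gal_k`. -/
theorem stEdRho (h1 : StCptT.{u, u', v'}) (h2 : StTwAct.{u, u, u', v', u}) :
    StEdRho.{u, u', v'} := by
  intro p _ k K Ω _ _ _ _ _ _ _ _ _ _ F U _ _ _ R L g k₂ h himg N s hGal hs hN
  have hCac : IsAlgClosed (algebraicClosure k Ω) := by
    have hΩ : IsAlgClosed Ω := IsAlgClosure.isAlgClosed K
    exact IsAlgClosure.isAlgClosed k
  have hnor : Normal K Ω := IsAlgClosure.normal K Ω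
  have hF := h.fp.closed
  have hk0 : CharZero k := charZero_of_injective_algebraMap (algebraMap ℚ_[p] k).injective
  have hC0 : CharZero (algebraicClosure k Ω) :=
    charZero_of_injective_algebraMap (algebraMap k (algebraicClosure k Ω)).injective
  have hpC : PrP p (algebraicClosure k Ω) := by
    intro n hn h0
    rw [Nat.cast_eq_zero] at h0
    exact hn (h0 ▸ dvd_zero p)
  have hpF : PrP p F := by
    intro n hn h0
    have := h.fp.char
    exact hn ((CharP.cast_eq_zero_iff F p n).1 h0)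
  have hCpt := (h1 p k K Ω F U R L g k₂ h).1
  have hT : ∀ (a : N ≃ₐ[K] N) (z : N), (z : Ω) ∈ Tinf (algebraicClosure k Ω) p L →
      ((a z : N) : Ω) ∈ Tinf (algebraicClosure k Ω) p L := by
    intro a z hz
    obtain ⟨t, ht⟩ := exists_lift a
    rw [← ht]
    exact (hCpt t z hz).1
  have hw : ∀ (a : N ≃ₐ[K] N) (z : N), (z : Ω) ∈ Tinf (algebraicClosure k Ω) p L →
      (z : Ω) ∈ R.w → ((a z : N) : Ω) ∈ R.w := by
    intro a z hz hzw
    obtain ⟨t, ht⟩ := exists_lift a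
    rw [← ht]
    exact (hCpt t z hz).2 hzw
  -- `C` is stable
  have hC : ∀ (s : Ω ≃ₐ[K] Ω) (c : algebraicClosure k Ω), ∃ c' : algebraicClosure k Ω,
      (s : Ω ≃+* Ω) (algebraMap (algebraicClosure k Ω) Ω c) =
        algebraMap (algebraicClosure k Ω) Ω c' := by
    intro s c
    have h1 : IsAlgebraic k ((s.restrictScalars k) (c : Ω)) :=
      (isAlgebraic_algHom_iff (s.restrictScalars k : Ω ≃ₐ[k] Ω).toAlgHom
        (s.restrictScalars k).injective).2 (mem_algebraicClosure_iff.1 c.2)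
    exact ⟨⟨s (c : Ω), mem_algebraicClosure_iff.2 h1⟩, rfl⟩
  -- `L` is stable
  have hL : ∀ (a : N ≃ₐ[K] N) (z : N), (z : Ω) ∈ L → ((a z : N) : Ω) ∈ L := by
    intro a z hz
    obtain ⟨t, ht⟩ := exists_lift a
    rw [← ht]
    rw [h.eqL] at hz
    refine map_adjoin (t : Ω ≃+* Ω) (hC t) _ L ?_ z hz
    rintro _ ⟨x, rfl⟩
    change t (algebraMap K Ω x) ∈ L
    rw [t.commutes, h.eqL]
    exact IntermediateField.subset_adjoin _ _ ⟨x, rfl⟩
  obtain ⟨ρ, hρ⟩ := h2 (algebraicClosure k Ω) Ω F U R p g L (AbsGal k Ω) (act hN hT s) hpC hpF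
    h.good himg (fun σ z hz => ⟨hL (s σ) ⟨(z : Ω), hN z z.2⟩ hz,
      fun hzw => hw (s σ) ⟨(z : Ω), hN z z.2⟩ z.2 hzw⟩)
  refine ⟨ρ, fun σ z hz hzw => ⟨hT (s σ) z hz, hw (s σ) z hz hzw, fun y hy => ?_⟩⟩
  exact (hρ σ ⟨(z : Ω), hz⟩ y hzw).2 hy

end Pool.Agent.Lib.MP_c385f6_ag.TPG
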