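import Pool.Agent.Lib.MP_c385f6_ag.TPG.StG
import Pool.Agent.Lib.MP_c385f6_ag.TPG.CLin

/-!
Project TPG, part G (G15): `l(m (t̄)_∞) ≤ l(m (t)_∞)` for large `m`.
-/

set_option autoImplicit false

open Polynomial

namespace Pool.Agent.Lib.MP_c385f6_ag.TPG

universe u v u' v'

namespace GEllGe

/-- Transport of integrality along a ring homomorphism that maps the base into the base. -/
theorem int_trans {A A' E E' : Type*} [CommRing A] [CommRing A'] [Nontrivial A'] [CommRing E]
    [CommRing E'] [Algebra A E] [Algebra A' E'] (ρ : E →+* E')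
    (h : ∀ a : A, ∃ a' : A', algebraMap A' E' a' = ρ (algebraMap A E a)) {f : E}
    (hf : IsIntegral A f) : IsIntegral A' (ρ f) := by
  obtain ⟨P, hP, h0⟩ := hf
  have hl : P.map (ρ.comp (algebraMap A E)) ∈ Polynomial.lifts (algebraMap A' E') := by
    rw [Polynomial.lifts_iff_coeff_lifts]
    intro n
    rw [Polynomial.coeff_map]
    obtain ⟨a', ha'⟩ := h (P.coeff n)
    exact ⟨a', ha'⟩
  obtain ⟨Q, hQ, -, hQm⟩ := Polynomial.lifts_and_natDegree_eq_and_monic hl (hP.map _)
  refine ⟨Q, hQm, ?_⟩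
  rw [← Polynomial.eval_map, hQ, Polynomial.eval_map, ← Polynomial.hom_eval₂, h0, map_zero]

/-- Integrality over `F[t]` goes up along an `F`-algebra homomorphism. -/
theorem int_alg {F W U : Type*} [Field F] [Field W] [Field U] [Algebra F W] [Algebra F U]
    (φ : W →ₐ[F] U) (t f : W) (hf : IsIntegral (Algebra.adjoin F {t}) f) :
    IsIntegral (Algebra.adjoin F {φ t}) (φ f) := by
  refine int_trans (φ : W →+* U) (fun a => ?_) hf
  have h1 : φ (a : W) ∈ (Algebra.adjoin F {t}).map φ := ⟨a, a.2, rfl⟩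
  rw [AlgHom.map_adjoin, Set.image_singleton] at h1
  exact ⟨⟨φ a, h1⟩, rfl⟩

section Model

variable {p : ℕ} [Fact p.Prime] {k' : Type} {K' : Type*} {C L : Type*} [Field k'] [Field K']
  [Field C] [Field L] [Algebra ℚ_[p] k'] [Algebra k' K'] [Algebra C L] [Algebra k' C]

/-- The elements of `A(z)` are integral over `C[z]`. -/
theorem int_model (ρ : K' →+* L)
    (hρ : ∀ c : k', ρ (algebraMap k' K' c) = algebraMap C L (algebraMap k' C c)) {z a : K'}
    (ha : a ∈ modelRing p k' z) : IsIntegral (Algebra.adjoin C {ρ z}) (ρ a) := by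
  have ha' : IsIntegral (Subring.closure
    (insert z (algebraMap k' K' '' {c : k' | spectralNorm ℚ_[p] k' c ≤ 1}))) a := ha
  refine int_trans ρ (fun s => ?_) ha'
  have h1 : ρ (s : K') ∈ Algebra.adjoin C {ρ z} := by
    have h2 : Subring.closure
        (insert z (algebraMap k' K' '' {c : k' | spectralNorm ℚ_[p] k' c ≤ 1})) ≤
        (Algebra.adjoin C {ρ z}).toSubring.comap ρ := by
      rw [Subring.closure_le]
      rintro y (rfl | ⟨c, -, rfl⟩)
      · exact Algebra.self_mem_adjoin_singleton C (ρ y)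
      · change ρ (algebraMap k' K' c) ∈ Algebra.adjoin C {ρ z}
        rw [hρ]
        exact (Algebra.adjoin C {ρ z}).algebraMap_mem _
    exact h2 s.2
  exact ⟨⟨ρ s, h1⟩, rfl⟩

end Model

end GEllGe

open GEllGe in
theorem stEllGe (h1 : StMA.{u, v, u', v'}) (h4 : StNrm.{u, v, u', v'})
    (h8 : StLvl.{u, v, u', v'}) (h9 : StONd.{u, v, u', v'}) (h10 : StPl.{u, v})
    (h10' : StPl.{u', v'}) (h13 : StTr.{u, v, u', v'}) (h14 : StLiftV.{u, v, u', v'})
    (hR : StRRF.{u, v}) (hR' : StRRF.{u', v'}) :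
    StEllGe.{u, v, u', v'} := by
  intro p _ k' K' Ω C F U _ _ _ _ _ _ _ _ _ _ _ _ _ _ _ _ _ _ _ R t hM L hL t' ht'
  classical
  have hDE : DegEq (R.sub L) t' := (h8 p k' K' Ω C F U R t hM L hL).1 t' ht'
  obtain ⟨hFC, hFF, -⟩ := h9 C L F (R.img L) (R.sub L) t' hDE
  obtain ⟨N, hN⟩ := h14 p k' K' Ω C F U R t hM
  have hMA := h1 p k' K' Ω C F U R t hM
  obtain ⟨hNr, -⟩ := h4 p k' K' Ω C F U R t hM
  have hTr := h13 p k' K' Ω C F U R t hM L hL
  refine ⟨N, fun m hm => ?_⟩
  set tb : R.img L := (R.sub L).res t' with htb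
  have htbU : (tb : U) = R.res (algebraMap K' Ω t) := by
    rw [htb, Red.sub_res, ht']
  have htC : Transcendental C t' := Lin.transc hDE.mem hDE.trans
  have hPC := (h10 C L t' hFC htC m).2
  have hPF := (h10' F (R.img L) tb hFF hDE.trans m).2
  have hfin := (hR C L hFC).fin (pl C t' m)
  have hfin' := (hR' F (R.img L) hFF).fin (pl F tb m)
  -- the embedding of `K'` in `L`
  have hKL : ∀ a : K', algebraMap K' Ω a ∈ L := by
    intro a
    rw [hL]
    exact IntermediateField.subset_adjoin C _ ⟨a, rfl⟩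
  let ρ : K' →+* L := (algebraMap K' Ω).codRestrict L hKL
  have hρΩ : ∀ a : K', ((ρ a : L) : Ω) = algebraMap K' Ω a := fun a => rfl
  have hρt : ρ t = t' := Subtype.ext (by rw [hρΩ, ht'])
  have hρc : ∀ c : k', ρ (algebraMap k' K' c) = algebraMap C L (algebraMap k' C c) := by
    intro c
    apply Subtype.ext
    rw [hρΩ, ← IsScalarTower.algebraMap_apply k' K' Ω]
    have : ((algebraMap C L (algebraMap k' C c) : L) : Ω) = algebraMap C Ω (algebraMap k' C c) := rfl
    rw [this, ← IsScalarTower.algebraMap_apply k' C Ω]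
  have ht0 : R.res (algebraMap K' Ω t) ≠ 0 := by
    intro h
    have h1 := hM.trans
    rw [h] at h1
    exact h1 isAlgebraic_zero
  have htw : algebraMap K' Ω t ∈ R.w := hM.mem
  have htiw : algebraMap K' Ω t⁻¹ ∈ R.w := by
    rw [map_inv₀]
    exact Red.inv_mem ht0
  have hti : R.res (algebraMap K' Ω t⁻¹) = (R.res (algebraMap K' Ω t))⁻¹ := by
    rw [map_inv₀, R.res_inv ht0]
  have htim : R.res (algebraMap K' Ω (t⁻¹ ^ m)) = (R.res (algebraMap K' Ω t))⁻¹ ^ m := by
    rw [map_pow, Lin.res_pow R htiw, hti]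
  have htimw : algebraMap K' Ω (t⁻¹ ^ m) ∈ R.w := by
    rw [map_pow]
    exact pow_mem htiw m
  have hmt : t ∈ ({t, t⁻¹} : Set K') := Or.inl rfl
  have hmti : t⁻¹ ∈ ({t, t⁻¹} : Set K') := Or.inr rfl
  -- lifting
  have lift : ∀ y : R.img L, y ∈ RR (pl F tb m) → ∃ g : L, g ∈ RR (pl C t' m) ∧
      g ∈ (R.sub L).w ∧ (R.sub L).res g = y := by
    intro y hy
    obtain ⟨i1, i2⟩ := (hPF y).1 hy
    have j1 : IsIntegral (Algebra.adjoin F {R.res (algebraMap K' Ω t)})
        ((y : U) * R.res (algebraMap K' Ω 1)) := by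
      have h := int_alg (R.img L).val tb y i1
      rw [map_one, R.res_one, mul_one]
      rw [← htbU]
      exact h
    have j2 : IsIntegral (Algebra.adjoin F {R.res (algebraMap K' Ω t⁻¹)})
        ((y : U) * R.res (algebraMap K' Ω (t⁻¹ ^ m))) := by
      have h := int_alg (R.img L).val tb⁻¹ _ i2
      rw [map_mul, map_pow, map_inv₀] at h
      rw [htim, hti, ← htbU]
      exact h
    obtain ⟨n, c, f, hfw, hyf, hf⟩ := hTr y y.2
    have hf1 := hf t hmt 1 (by rw [map_one]; exact one_mem _) j1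
    have hf2 := hf t⁻¹ hmti (t⁻¹ ^ m) htimw j2
    -- the elements `a i`, `b i`
    have hgi : ∀ i, ∃ G ∈ modelRing p k' t, G * t⁻¹ ^ m ∈ modelRing p k' t⁻¹ ∧
        R.res (algebraMap K' Ω G) = R.res (algebraMap K' Ω (f i)) := by
      intro i
      obtain ⟨a, ha, hra⟩ := hNr t hmt (f i) (hfw i) (by
        have h := hf1 i
        rwa [map_one, R.res_one, mul_one] at h)
      obtain ⟨b, hb, hrb⟩ := hNr t⁻¹ hmti (f i * t⁻¹ ^ m)
        (by rw [map_mul]; exact mul_mem (hfw i) htimw) (by
          rw [map_mul, R.res_mul _ (hfw i) _ htimw]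
          exact hf2 i)
      rw [map_mul, R.res_mul _ (hfw i) _ htimw, htim] at hrb
      obtain ⟨G, hG, hG2, hG3⟩ := hN m hm a ha b hb (by
        rw [hra, hrb, mul_left_comm, ← mul_pow, mul_inv_cancel₀ ht0, one_pow, mul_one])
      exact ⟨G, hG, hG2, hG3.trans hra⟩
    choose G hG hG2 hG3 using hgi
    have hcc : ∀ i, ∃ cc : C, algebraMap C Ω cc ∈ R.w ∧
        R.res (algebraMap C Ω cc) = algebraMap F U (c i) := fun i => R.const_surj (c i)
    choose cc hccw hccr using hcc
    have hGw : ∀ i, algebraMap K' Ω (G i) ∈ R.w := fun i => (hMA t hmt ⟨G i, hG i⟩).1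
    refine ⟨∑ i, algebraMap C L (cc i) * ρ (G i), ?_, ?_, ?_⟩
    · rw [hPC]
      constructor
      · refine IsIntegral.sum _ fun i _ => IsIntegral.mul ?_ ?_
        · have h : algebraMap C L (cc i) = algebraMap (Algebra.adjoin C {t'}) L
              (algebraMap C (Algebra.adjoin C {t'}) (cc i)) := rfl
          rw [h]
          exact isIntegral_algebraMap
        · have h := int_model (C := C) ρ hρc (hG i)
          rwa [hρt] at h
      · rw [Finset.sum_mul]
        refine IsIntegral.sum _ fun i _ => ?_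
        rw [mul_assoc]
        refine IsIntegral.mul ?_ ?_
        · have h : algebraMap C L (cc i) = algebraMap (Algebra.adjoin C {t'⁻¹}) L
              (algebraMap C (Algebra.adjoin C {t'⁻¹}) (cc i)) := rfl
          rw [h]
          exact isIntegral_algebraMap
        · have h := int_model (C := C) ρ hρc (hG2 i)
          rwa [map_mul, map_pow, map_inv₀, hρt] at h
    · refine sum_mem fun i _ => mul_mem ?_ ?_
      · exact hccw i
      · exact hGw i
    · apply Subtype.ext
      rw [Red.sub_res]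
      have h2 : ((∑ i, algebraMap C L (cc i) * ρ (G i) : L) : Ω) =
          ∑ i, algebraMap C Ω (cc i) * algebraMap K' Ω (G i) := by
        have h3 := map_sum L.val (fun i => algebraMap C L (cc i) * ρ (G i)) Finset.univ
        exact h3
      rw [h2, Lin.res_sum R _ _ fun i _ => mul_mem (hccw i) (hGw i), hyf]
      refine Finset.sum_congr rfl fun i _ => ?_
      rw [R.res_mul _ (hccw i) _ (hGw i), hccr, hG3]
  choose g hg hgw hgr using lift
  let b := Module.finBasis F (RR (pl F tb m))
  have hind : LinearIndependent F fun i => (R.sub L).res (g (b i) (b i).2) := by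
    have h := b.linearIndependent.map' (RR (pl F tb m)).subtype (Submodule.ker_subtype _)
    have h2 : (fun i => (R.sub L).res (g (b i) (b i).2)) = (RR (pl F tb m)).subtype ∘ b := by
      funext i
      rw [hgr]
      rfl
    rw [h2]
    exact h
  have horth : Lin.Orth (R.sub L) (fun i => g (b i) (b i).2) := ⟨fun i => hgw _ _, hind⟩
  have hli : LinearIndependent C fun i => (⟨g (b i) (b i).2, hg _ _⟩ : RR (pl C t' m)) := by
    rw [← LinearMap.linearIndependent_iff (RR (pl C t' m)).subtype (Submodule.ker_subtype _)]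
    exact horth.indep
  have h5 := hli.fintype_card_le_finrank
  rw [Fintype.card_fin] at h5
  unfold ell
  exact_mod_cast h5

end Pool.Agent.Lib.MP_c385f6_ag.TPG
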