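import Pool.Agent.Lib.MP_c385f6_ag.TPG.StG
import Pool.Agent.Lib.MP_c385f6_ag.TPG.CLin

/-!
Project TPG, part G (G12): `l(m (t)_∞) ≤ l(m (t̄)_∞)`.
-/

set_option autoImplicit false

open Polynomial

namespace Pool.Agent.Lib.MP_c385f6_ag.TPG

universe u v u' v'

namespace GEllLe

variable {C : Type u} {L : Type v} {F : Type u'} {Λ : Type v'} [Field C] [Field L] [Field F]
  [Field Λ] [Algebra C L] [Algebra F Λ] {R : Red C L F Λ} {t : L}

theorem adjoin_inv {F : Type*} {W : Type*} [Field F] [Field W] [Algebra F W] (t : W) :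
    IntermediateField.adjoin F {t⁻¹} = IntermediateField.adjoin F {t} := by
  apply le_antisymm
  · rw [IntermediateField.adjoin_simple_le_iff]
    exact (IntermediateField.adjoin F {t}).inv_mem (IntermediateField.mem_adjoin_simple_self F t)
  · rw [IntermediateField.adjoin_simple_le_iff]
    have h := (IntermediateField.adjoin F {t⁻¹}).inv_mem
      (IntermediateField.mem_adjoin_simple_self F t⁻¹)
    rwa [inv_inv] at h

theorem res_ne (h : DegEq R t) : R.res t ≠ 0 := by
  intro h0
  have h1 := h.trans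
  rw [h0] at h1
  exact h1 isAlgebraic_zero

theorem degEq_inv (h : DegEq R t) : DegEq R t⁻¹ := by
  have h0 := res_ne h
  refine ⟨Red.inv_mem h0, ?_, ?_, ?_, ?_⟩
  · rw [R.res_inv h0]
    intro h1
    exact h.trans (by
      have h2 := h1.inv
      rwa [inv_inv] at h2)
  · rw [adjoin_inv]
    exact h.finC
  · rw [R.res_inv h0, adjoin_inv]
    exact h.finF
  · rw [R.res_inv h0, adjoin_inv, adjoin_inv]
    exact h.deg

end GEllLe

open GEllLe in
theorem stEllLe (h9 : StONd.{u, v, u', v'}) (h10 : StPl.{u, v}) (h10' : StPl.{u', v'})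
    (h11 : StInt.{u, v, u', v'}) (hR : StRRF.{u, v}) (hR' : StRRF.{u', v'}) :
    StEllLe.{u, v, u', v'} := by
  intro C L F Λ _ _ _ _ _ _ _ _ R t ht m
  classical
  obtain ⟨hC, hF, hON⟩ := h9 C L F Λ R t ht
  have hfin := (hR C L hC).fin (pl C t m)
  have hfin' := (hR' F Λ hF).fin (pl F (R.res t) m)
  obtain ⟨r, e, he, hind, hspan⟩ := hON (RR (pl C t m)) hfin
  have h0 := res_ne ht
  have htC : Transcendental C t := Lin.transc ht.mem ht.trans
  have hPC := (h10 C L t hC htC m).2
  have hPF := (h10' F Λ (R.res t) hF ht.trans m).2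
  have hti : t⁻¹ ∈ R.w := Red.inv_mem h0
  have hmem : ∀ i, R.res (e i) ∈ RR (pl F (R.res t) m) := by
    intro i
    have h1 : e i ∈ RR (pl C t m) := by
      rw [← hspan]
      exact Submodule.subset_span ⟨i, rfl⟩
    obtain ⟨h2, h3⟩ := (hPC (e i)).1 h1
    refine (hPF (R.res (e i))).2 ⟨h11 C L F Λ R t ht (e i) (he i) h2, ?_⟩
    have h4 := h11 C L F Λ R t⁻¹ (degEq_inv ht) (e i * t⁻¹ ^ m) (mul_mem (he i) (pow_mem hti m)) h3
    rw [R.res_mul _ (he i) _ (pow_mem hti m), Lin.res_pow R hti, R.res_inv h0] at h4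
    exact h4
  have h5 : Module.finrank C (RR (pl C t m)) ≤ r := by
    rw [← hspan]
    have h := finrank_range_le_card (R := C) e
    rwa [Fintype.card_fin] at h
  have h6 : r ≤ Module.finrank F (RR (pl F (R.res t) m)) := by
    have h7 : LinearIndependent F fun i => (⟨R.res (e i), hmem i⟩ : RR (pl F (R.res t) m)) := by
      rw [← LinearMap.linearIndependent_iff (RR (pl F (R.res t) m)).subtype
        (Submodule.ker_subtype _)]
      exact hind
    have h8 := h7.fintype_card_le_finrank
    rwa [Fintype.card_fin] at h8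
  unfold ell
  exact_mod_cast h5.trans h6

end Pool.Agent.Lib.MP_c385f6_ag.TPG
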