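import Pool.Agent.Lib.MP_c385f6_ag.TPG.StThm
import Pool.Agent.Lib.MP_c385f6_ag.PlaceMain

/-!
Project TPG, G22: `Gal(Ω / K) → Gal(C / k)` is surjective.
-/

set_option autoImplicit false

namespace Pool.Agent.Lib.MP_c385f6_ag.TPG

universe u

namespace GExt

theorem resConst_surjective {k : Type} {K Ω : Type u} [Field k] [CharZero k] [Field K] [Field Ω]
    [Algebra k K] [Algebra k Ω] [Algebra K Ω] [IsScalarTower k K Ω] [IsAlgClosure K Ω]
    [Normal k (algebraicClosure k Ω)]
    (h : ∀ x : K, IsAlgebraic k x → ∃ c : k, x = algebraMap k K c) :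
    Function.Surjective (resConst k K Ω) := by
  have hcK : CharZero K := charZero_of_injective_algebraMap (algebraMap k K).injective
  have halg : Algebra.IsAlgebraic K Ω := IsAlgClosure.isAlgebraic
  have hn : Normal K Ω := IsAlgClosure.normal K Ω
  have hg : IsGalois K Ω := {}
  have halgC : Algebra.IsAlgebraic k (algebraicClosure k Ω) := inferInstance
  have hgC : IsGalois k (algebraicClosure k Ω) := {}
  have hc : Continuous (resConst k K Ω) := resConst_continuous
  have hcl : IsClosed ((resConst k K Ω).range : Set (AbsGal k Ω)) := by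
    have h1 : ((resConst k K Ω).range : Set (AbsGal k Ω)) = Set.range (resConst k K Ω) := rfl
    rw [h1]
    exact (isCompact_range hc).isClosed
  let H : ClosedSubgroup (AbsGal k Ω) := ⟨(resConst k K Ω).range, hcl⟩
  have hfix : IntermediateField.fixedField (H : Subgroup (AbsGal k Ω)) = ⊥ := by
    rw [eq_bot_iff]
    intro x hx
    rw [IntermediateField.mem_fixedField_iff] at hx
    have h2 : ∀ σ : Ω ≃ₐ[K] Ω, σ (x : Ω) = x := by
      intro σ
      rw [← resConst_apply (k := k) σ x]
      exact congrArg Subtype.val (hx (resConst k K Ω σ) ⟨σ, rfl⟩)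
    obtain ⟨y, hy⟩ := (InfiniteGalois.mem_range_algebraMap_iff_fixed (k := K) (x : Ω)).2 h2
    have h3 : IsAlgebraic k y := by
      have h4 : IsAlgebraic k (algebraMap K Ω y) := by
        rw [hy]
        exact x.2.isAlgebraic
      exact (isAlgebraic_algebraMap_iff (algebraMap K Ω).injective).1 h4
    obtain ⟨c, rfl⟩ := h y h3
    rw [IntermediateField.mem_bot]
    refine ⟨c, Subtype.ext ?_⟩
    rw [← hy, ← IsScalarTower.algebraMap_apply k K Ω]
    rfl
  have hH : (H : Subgroup (AbsGal k Ω)) = ⊤ := by
    have h4 := InfiniteGalois.fixingSubgroup_fixedField H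
    rw [hfix, IntermediateField.fixingSubgroup_bot] at h4
    exact h4.symm
  intro g
  have h5 : g ∈ (H : Subgroup (AbsGal k Ω)) := by
    rw [hH]
    exact Subgroup.mem_top g
  exact h5

end GExt

/-- G22. -/
theorem stExt : StExt.{u} := by
  intro k K Ω _ _ _ _ _ _ _ _ _ h
  have hac : IsAlgClosed Ω := IsAlgClosure.isAlgClosed K
  have hcl : IsAlgClosure k (algebraicClosure k Ω) := inferInstance
  have hnn : Normal k (algebraicClosure k Ω) := IsAlgClosure.normal k _
  refine ⟨fun n => ?_, fun s => ?_, IsAlgClosure.isAlgClosed k⟩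
  · obtain ⟨s, hs⟩ := GExt.resConst_surjective (k := k) (K := K) (Ω := Ω) h n
    refine ⟨s, fun c => ?_⟩
    rw [← hs, resConst_apply]
  · exact ⟨resConst k K Ω s, fun c => (resConst_apply s c).symm⟩

end Pool.Agent.Lib.MP_c385f6_ag.TPG
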