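import Pool.Agent.Lib.MP_c385f6_ag.TPG.StG

/-!
Project TPG, G0: the residue field `F` of `C` is an algebraic closure of the field with `p` elements.
-/

set_option autoImplicit false

open Polynomial

namespace Pool.Agent.Lib.MP_c385f6_ag.TPG

universe u v u' v'

namespace GFp

variable {p : ℕ} [hp : Fact p.Prime] {C : Type u} {Ω : Type v} {F : Type u'} {U : Type v'}
  [Field C] [Field Ω] [Field F] [Field U] [Algebra C Ω] [Algebra F U]

/-- the map `ℤ_p → w` -/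
noncomputable def phi (R : Red C Ω F U) (f : ℚ_[p] →+* C)
    (hf : ∀ x : ℚ_[p], algebraMap C Ω (f x) ∈ R.w ↔ ‖x‖ ≤ 1) : ℤ_[p] →+* R.w :=
  RingHom.codRestrict ((algebraMap C Ω).comp (f.comp (algebraMap ℤ_[p] ℚ_[p]))) R.w.toSubring
    fun x => (hf _).2 x.2

theorem phi_val (R : Red C Ω F U) (f : ℚ_[p] →+* C)
    (hf : ∀ x : ℚ_[p], algebraMap C Ω (f x) ∈ R.w ↔ ‖x‖ ≤ 1) (x : ℤ_[p]) :
    ((phi R f hf x : R.w) : Ω) = algebraMap C Ω (f (algebraMap ℤ_[p] ℚ_[p] x)) := rfl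

theorem hom_apply (R : Red C Ω F U) (x : R.w) : R.hom x = R.res x := rfl

theorem p_zero_U (R : Red C Ω F U) (f : ℚ_[p] →+* C)
    (hf : ∀ x : ℚ_[p], algebraMap C Ω (f x) ∈ R.w ↔ ‖x‖ ≤ 1) : (p : U) = 0 := by
  have hp0 : ((p : ℕ) : ℚ_[p]) ≠ 0 := by exact_mod_cast hp.out.ne_zero
  have h1 : ((p : ℕ) : Ω) ∈ R.w := natCast_mem R.w p
  have h2 : R.res ((p : ℕ) : Ω) = (p : U) := by
    have h3 := map_natCast R.hom p
    rw [hom_apply] at h3
    exact h3
  rw [← h2]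
  by_contra h3
  have h4 := Red.inv_mem h3
  have h5 : ((p : ℕ) : Ω)⁻¹ = algebraMap C Ω (f ((p : ℕ) : ℚ_[p])⁻¹) := by
    rw [map_inv₀, map_inv₀, map_natCast, map_natCast]
  rw [h5, hf, norm_inv, Padic.norm_p, inv_inv] at h4
  have h6 : (1 : ℝ) < p := by exact_mod_cast hp.out.one_lt
  linarith

theorem p_zero (R : Red C Ω F U) (f : ℚ_[p] →+* C)
    (hf : ∀ x : ℚ_[p], algebraMap C Ω (f x) ∈ R.w ↔ ‖x‖ ≤ 1) : (p : F) = 0 := by
  apply (algebraMap F U).injective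
  rw [map_natCast, map_zero]
  exact p_zero_U R f hf

theorem charP (R : Red C Ω F U) (f : ℚ_[p] →+* C)
    (hf : ∀ x : ℚ_[p], algebraMap C Ω (f x) ∈ R.w ↔ ‖x‖ ≤ 1) : CharP F p := by
  obtain ⟨q, hq⟩ := CharP.exists F
  have h1 : q ∣ p := (CharP.cast_eq_zero_iff F q p).1 (p_zero R f hf)
  rcases (Nat.dvd_prime hp.out).1 h1 with h2 | h2
  · exfalso
    rw [h2] at hq
    have h3 := (CharP.cast_eq_zero_iff F 1 1).2 dvd_rfl
    rw [Nat.cast_one] at h3
    exact one_ne_zero h3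
  · rw [h2] at hq
    exact hq

theorem res_phi (R : Red C Ω F U) (f : ℚ_[p] →+* C)
    (hf : ∀ x : ℚ_[p], algebraMap C Ω (f x) ∈ R.w ↔ ‖x‖ ≤ 1) [CharP F p] (x : ℤ_[p]) :
    R.hom (phi R f hf x) = algebraMap F U (ZMod.castHom (dvd_refl p) F (PadicInt.toZMod x)) := by
  -- `x = n + p y`
  obtain ⟨n, hn⟩ : ∃ n : ℕ, PadicInt.toZMod x = (n : ZMod p) :=
    ⟨(PadicInt.toZMod x).val, (ZMod.natCast_zmod_val _).symm⟩
  have h1 : PadicInt.toZMod (x - (n : ℤ_[p])) = 0 := by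
    rw [map_sub, hn, map_natCast, sub_self]
  have h2 : x - (n : ℤ_[p]) ∈ Ideal.span {(p : ℤ_[p])} := by
    rw [← PadicInt.maximalIdeal_eq_span_p, ← PadicInt.ker_toZMod, RingHom.mem_ker]
    exact h1
  obtain ⟨y, hy⟩ := Ideal.mem_span_singleton'.1 h2
  have h3 : x = (n : ℤ_[p]) + y * (p : ℤ_[p]) := by
    rw [hy]
    ring
  rw [hn, map_natCast, map_natCast]
  conv_lhs => rw [h3]
  rw [map_add, map_add, map_mul, map_mul, map_natCast, map_natCast, map_natCast, map_natCast,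
    p_zero_U R f hf, mul_zero, add_zero]

/-- residues are algebraic over the prime field -/
theorem algebraic (R : Red C Ω F U) (f : ℚ_[p] →+* C)
    (hf : ∀ x : ℚ_[p], algebraMap C Ω (f x) ∈ R.w ↔ ‖x‖ ≤ 1) [CharP F p]
    (halg : ∀ c : C, ∃ Q : ℤ_[p][X], Q ≠ 0 ∧ Q.eval₂ (f.comp (algebraMap ℤ_[p] ℚ_[p])) c = 0)
    (a : F) : ∃ Q : (ZMod p)[X], Q ≠ 0 ∧ Q.eval₂ (ZMod.castHom (dvd_refl p) F) a = 0 := by
  classical
  obtain ⟨c, hc, hca⟩ := R.const_surj a
  obtain ⟨Q, hQ, hQc⟩ := halg c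
  letI : NormalizationMonoid ℤ_[p] := Classical.arbitrary _
  letI : NormalizedGCDMonoid ℤ_[p] :=
    UniqueFactorizationMonoid.toNormalizedGCDMonoid ℤ_[p]
  have hprim := Q.isPrimitive_primPart
  have hroot : (Q.primPart).eval₂ (f.comp (algebraMap ℤ_[p] ℚ_[p])) c = 0 := by
    refine Polynomial.eval₂_primPart_eq_zero ?_ hQ hQc
    exact f.injective.comp (IsFractionRing.injective ℤ_[p] ℚ_[p])
  refine ⟨Q.primPart.map PadicInt.toZMod, ?_, ?_⟩
  · intro h0
    have h1 : Polynomial.C (p : ℤ_[p]) ∣ Q.primPart := by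
      rw [Polynomial.C_dvd_iff_dvd_coeff]
      intro i
      have h2 := congrArg (fun q : (ZMod p)[X] => q.coeff i) h0
      simp only [Polynomial.coeff_map, Polynomial.coeff_zero] at h2
      have h3 : Q.primPart.coeff i ∈ Ideal.span {(p : ℤ_[p])} := by
        rw [← PadicInt.maximalIdeal_eq_span_p, ← PadicInt.ker_toZMod, RingHom.mem_ker]
        exact h2
      exact Ideal.mem_span_singleton.1 h3
    have h2 := hprim _ h1
    exact PadicInt.prime_p.not_isUnit h2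
  · apply (algebraMap F U).injective
    rw [map_zero, Polynomial.hom_eval₂, Polynomial.eval₂_map, ← hca]
    have h1 : Q.primPart.eval₂ (phi R f hf) (⟨algebraMap C Ω c, hc⟩ : R.w) = 0 := by
      apply Subtype.ext
      have h2 := congrArg (algebraMap C Ω) hroot
      rw [map_zero, Polynomial.hom_eval₂] at h2
      have h3 := Polynomial.hom_eval₂ Q.primPart (phi R f hf) R.w.subtype
        (⟨algebraMap C Ω c, hc⟩ : R.w)
      exact h3.trans h2
    have h2 := congrArg R.hom h1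
    rw [map_zero, Polynomial.hom_eval₂] at h2
    have h3 : R.hom.comp (phi R f hf) =
        ((algebraMap F U).comp (ZMod.castHom (dvd_refl p) F)).comp PadicInt.toZMod := by
      ext x
      exact res_phi R f hf x
    rw [h3] at h2
    exact h2

/-- elements algebraic over the prime field are roots of unity -/
theorem tors [CharP F p] (a : F) (ha : a ≠ 0)
    (h : ∃ Q : (ZMod p)[X], Q ≠ 0 ∧ Q.eval₂ (ZMod.castHom (dvd_refl p) F) a = 0) :
    ∃ n : ℕ, 0 < n ∧ a ^ n = 1 := by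
  obtain ⟨Q, hQ, hQa⟩ := h
  letI : Algebra (ZMod p) F := ZMod.algebra F p
  have hint : IsIntegral (ZMod p) a := by
    rw [← isAlgebraic_iff_isIntegral]
    exact ⟨Q, hQ, hQa⟩
  have hfd : FiniteDimensional (ZMod p) (IntermediateField.adjoin (ZMod p) {a}) :=
    IntermediateField.adjoin.finiteDimensional hint
  have hfin : Finite (IntermediateField.adjoin (ZMod p) {a}) :=
    Module.finite_of_finite (ZMod p)
  let b : (IntermediateField.adjoin (ZMod p) {a})ˣ :=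
    Units.mk0 ⟨a, IntermediateField.mem_adjoin_simple_self (ZMod p) a⟩ (by
      intro h0
      exact ha (congrArg Subtype.val h0))
  obtain ⟨n, hn, hb⟩ := isOfFinOrder_iff_pow_eq_one.1 (isOfFinOrder_of_finite b)
  refine ⟨n, hn, ?_⟩
  have h1 := congrArg (fun z : (IntermediateField.adjoin (ZMod p) {a})ˣ =>
    ((z : IntermediateField.adjoin (ZMod p) {a}) : F)) hb
  simpa [b] using h1

end GFp

theorem stFp : StFp.{u, v, u', v'} := by
  intro p hp k' K' Ω C F U _ _ _ _ _ _ _ _ _ _ _ _ _ _ _ _ _ _ _ R t hM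
  let f : ℚ_[p] →+* C := (algebraMap k' C).comp (algebraMap ℚ_[p] k')
  have hf : ∀ x : ℚ_[p], algebraMap C Ω (f x) ∈ R.w ↔ ‖x‖ ≤ 1 := by
    intro x
    have h1 : algebraMap C Ω (f x) = algebraMap k' Ω (algebraMap ℚ_[p] k' x) :=
      (IsScalarTower.algebraMap_apply k' C Ω _).symm
    rw [h1, hM.int, spectralNorm_extends]
  have hchar : CharP F p := GFp.charP R f hf
  have halg : ∀ c : C, ∃ Q : ℤ_[p][X], Q ≠ 0 ∧
      Q.eval₂ (f.comp (algebraMap ℤ_[p] ℚ_[p])) c = 0 := by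
    intro c
    letI : Algebra ℚ_[p] C := f.toAlgebra
    haveI : IsScalarTower ℚ_[p] k' C := IsScalarTower.of_algebraMap_eq' rfl
    letI : Algebra ℤ_[p] C := (f.comp (algebraMap ℤ_[p] ℚ_[p])).toAlgebra
    haveI : IsScalarTower ℤ_[p] ℚ_[p] C := IsScalarTower.of_algebraMap_eq' rfl
    have h1 : IsAlgebraic ℚ_[p] c := (Algebra.IsAlgebraic.trans ℚ_[p] k' C).isAlgebraic c
    have h2 : IsAlgebraic ℤ_[p] c := (IsFractionRing.isAlgebraic_iff ℤ_[p] ℚ_[p] C).2 h1
    obtain ⟨Q, hQ, hQc⟩ := h2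
    exact ⟨Q, hQ, hQc⟩
  exact
    { prime := hp.out
      char := hchar
      closed := inferInstance
      tors := fun a ha => GFp.tors (p := p) a ha (GFp.algebraic R f hf halg a) }

end Pool.Agent.Lib.MP_c385f6_ag.TPG
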