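import Pool.Agent.Lib.MP_c385f6_ag.TPG.StG

/-!
Project TPG, G2: finite generation of the integral closure `A(t)` over `O[t]`.
-/

set_option autoImplicit false

open Polynomial

namespace Pool.Agent.Lib.MP_c385f6_ag.TPG

universe u v

namespace GFG

/-! ### Integrality in terms of polynomials over the field -/

theorem isInt_of_poly {A K : Type*} [CommRing A] [Field K] [Algebra A K] (g : K[X]) (hg : g.Monic)
    (h : ∀ i, g.coeff i ∈ Set.range (algebraMap A K)) (x : K) (hx : g.eval x = 0) :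
    IsIntegral A x := by
  obtain ⟨q, hq1, -, hq3⟩ := lifts_and_degree_eq_and_monic
    ((lifts_iff_coeff_lifts (f := algebraMap A K) g).2 h) hg
  refine ⟨q, hq3, ?_⟩
  rw [← eval_map, hq1, hx]

theorem poly_of_isInt {A K : Type*} [CommRing A] [Field K] [Algebra A K] (x : K)
    (h : IsIntegral A x) : ∃ g : K[X], g.Monic ∧
      (∀ i, g.coeff i ∈ Set.range (algebraMap A K)) ∧ g.eval x = 0 := by
  obtain ⟨q, hq, hx⟩ := h
  refine ⟨q.map (algebraMap A K), hq.map _, fun i => ⟨q.coeff i, by rw [coeff_map]⟩, ?_⟩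
  rw [eval_map]
  exact hx

section

variable (p : ℕ) [Fact p.Prime] (k' : Type) [Field k'] [Algebra ℚ_[p] k'] {K' : Type v} [Field K']
  [Algebra k' K']

/-- the constants -/
noncomputable def zk : ℤ_[p] →+* k' := (algebraMap ℚ_[p] k').comp (PadicInt.Coe.ringHom (p := p))

/-- polynomials as elements of `K'` -/
noncomputable def phi (t : K') : ℤ_[p][X] →+* K' :=
  eval₂RingHom ((algebraMap k' K').comp (zk p k')) t

theorem phi_apply (t : K') (P : ℤ_[p][X]) : phi p k' t P = aeval t (P.map (zk p k')) := by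
  unfold phi
  rw [coe_eval₂RingHom, aeval_def, eval₂_map]

theorem phi_C (t : K') (a : ℤ_[p]) : phi p k' t (C a) = algebraMap k' K' (zk p k' a) := by
  unfold phi
  rw [coe_eval₂RingHom, eval₂_C]
  rfl

theorem phi_X (t : K') : phi p k' t X = t := by
  unfold phi
  rw [coe_eval₂RingHom, eval₂_X]

theorem zk_inj : Function.Injective (zk p k') :=
  (algebraMap ℚ_[p] k').injective.comp Subtype.val_injective

theorem phi_inj {t : K'} (ht : Transcendental k' t) : Function.Injective (phi p k' t) := by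
  rw [injective_iff_map_eq_zero]
  intro P hP
  rw [phi_apply] at hP
  have h1 := (transcendental_iff.1 ht) _ hP
  exact (Polynomial.map_eq_zero_iff (zk_inj p k')).1 h1

theorem norm_zk (a : ℤ_[p]) : spectralNorm ℚ_[p] k' (zk p k' a) ≤ 1 := by
  have h1 : spectralNorm ℚ_[p] k' (algebraMap ℚ_[p] k' (a : ℚ_[p])) = ‖(a : ℚ_[p])‖ :=
    spectralNorm_extends _
  change spectralNorm ℚ_[p] k' (algebraMap ℚ_[p] k' (a : ℚ_[p])) ≤ 1
  rw [h1]
  exact a.2

/-- the ring generated by `O` and `t` -/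
def BB (t : K') : Subring K' :=
  Subring.closure (insert t (algebraMap k' K' '' {c : k' | spectralNorm ℚ_[p] k' c ≤ 1}))

theorem mem_model (t a : K') : a ∈ modelRing p k' t ↔ IsIntegral (BB p k' t) a := Iff.rfl

theorem phi_mem (t : K') (P : ℤ_[p][X]) : phi p k' t P ∈ BB p k' t := by
  have hc : ∀ a : ℤ_[p], algebraMap k' K' (zk p k' a) ∈ BB p k' t := fun a =>
    Subring.subset_closure (Set.mem_insert_of_mem _ ⟨_, norm_zk p k' a, rfl⟩)
  have ht : t ∈ BB p k' t := Subring.subset_closure (Set.mem_insert _ _)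
  unfold phi
  rw [coe_eval₂RingHom, eval₂_eq_sum_range]
  exact Subring.sum_mem _ fun i _ => Subring.mul_mem _ (hc _) (Subring.pow_mem _ ht _)

variable [FiniteDimensional ℚ_[p] k']

/-- elements of `O` are integral over `ℤ_p[t]` -/
theorem int_O (t : K') (c : k') (hc : spectralNorm ℚ_[p] k' c ≤ 1) :
    ∃ g : K'[X], g.Monic ∧ (∀ i, g.coeff i ∈ Set.range (phi p k' t)) ∧
      g.eval (algebraMap k' K' c) = 0 := by
  have hci : IsIntegral ℚ_[p] c := Algebra.IsIntegral.isIntegral c
  have h1 : ∀ n, ‖(minpoly ℚ_[p] c).coeff n‖ ≤ 1 :=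
    (spectralValue_le_one_iff (minpoly.monic hci)).1 hc
  refine ⟨(minpoly ℚ_[p] c).map ((algebraMap k' K').comp (algebraMap ℚ_[p] k')),
    (minpoly.monic hci).map _, fun i => ?_, ?_⟩
  · let a : ℤ_[p] := ⟨(minpoly ℚ_[p] c).coeff i, h1 i⟩
    refine ⟨C a, ?_⟩
    rw [phi_C, coeff_map]
    rfl
  · rw [← Polynomial.map_map, eval_map, eval₂_at_apply, eval_map]
    have h2 : eval₂ (algebraMap ℚ_[p] k') c (minpoly ℚ_[p] c) = 0 := minpoly.aeval ℚ_[p] c
    rw [h2, map_zero]

theorem int_iff (t a : K') : a ∈ modelRing p k' t ↔ ∃ g : K'[X], g.Monic ∧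
    (∀ i, g.coeff i ∈ Set.range (phi p k' t)) ∧ g.eval a = 0 := by
  rw [mem_model]
  constructor
  · intro h
    let _ : Algebra ℤ_[p][X] K' := (phi p k' t).toAlgebra
    apply poly_of_isInt (A := ℤ_[p][X])
    have h1 : ∀ b ∈ BB p k' t, b ∈ (integralClosure ℤ_[p][X] K').toSubring := by
      have h2 : BB p k' t ≤ (integralClosure ℤ_[p][X] K').toSubring := by
        refine Subring.closure_le.2 ?_
        rintro b (rfl | ⟨c, hc, rfl⟩)
        · have h3 : IsIntegral ℤ_[p][X] (algebraMap ℤ_[p][X] K' X) := isIntegral_algebraMap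
          have h4 : algebraMap ℤ_[p][X] K' X = b := phi_X p k' b
          rw [h4] at h3
          exact h3
        · obtain ⟨g, hg1, hg2, hg3⟩ := int_O p k' t c hc
          exact isInt_of_poly (A := ℤ_[p][X]) g hg1 hg2 _ hg3
      exact fun b hb => h2 hb
    obtain ⟨g, hg1, hg2, hg3⟩ := poly_of_isInt a h
    have h5 : IsIntegral (integralClosure ℤ_[p][X] K') a := by
      refine isInt_of_poly g hg1 (fun i => ?_) a hg3
      obtain ⟨b, hb⟩ := hg2 i
      exact ⟨⟨b, h1 b b.2⟩, hb⟩
    exact isIntegral_trans a h5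
  · rintro ⟨g, hg1, hg2, hg3⟩
    refine isInt_of_poly g hg1 (fun i => ?_) a hg3
    obtain ⟨P, hP⟩ := hg2 i
    exact ⟨⟨_, phi_mem p k' t P⟩, hP⟩

/-! ### Finiteness -/

theorem finDim (t : K') (ht : Transcendental k' t)
    (hfin : FiniteDimensional (IntermediateField.adjoin k' {t}) K') (Q : Type) [Field Q]
    [Algebra ℤ_[p][X] Q] [IsFractionRing ℤ_[p][X] Q] [Algebra Q K']
    (hQ : ∀ P, algebraMap Q K' (algebraMap ℤ_[p][X] Q P) = phi p k' t P) :
    FiniteDimensional Q K' := by
  let c := Module.finBasis ℚ_[p] k'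
  let S : Set K' := Set.range (fun i => algebraMap k' K' (c i))
  let E : IntermediateField Q K' := IntermediateField.adjoin Q S
  have hSfin : Finite S := Set.finite_range _
  have hZ : ∀ a : ℤ_[p], algebraMap k' K' (zk p k' a) ∈ (algebraMap Q K').fieldRange := by
    intro a
    exact ⟨algebraMap ℤ_[p][X] Q (C a), by rw [hQ, phi_C]⟩
  have hQp : ∀ a : ℚ_[p], algebraMap k' K' (algebraMap ℚ_[p] k' a) ∈
      (algebraMap Q K').fieldRange := by
    intro a
    obtain ⟨x, y, hy, rfl⟩ := IsFractionRing.div_surjective ℤ_[p] a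
    rw [map_div₀, map_div₀]
    exact div_mem (hZ x) (hZ y)
  have hEfin : FiniteDimensional Q E := by
    apply IntermediateField.finiteDimensional_adjoin
    rintro _ ⟨i, rfl⟩
    have hci : IsIntegral ℚ_[p] (c i) := Algebra.IsIntegral.isIntegral (c i)
    refine isInt_of_poly ((minpoly ℚ_[p] (c i)).map ((algebraMap k' K').comp
      (algebraMap ℚ_[p] k'))) ((minpoly.monic hci).map _) (fun j => ?_) _ ?_
    · rw [coeff_map]
      obtain ⟨z, hz⟩ := hQp ((minpoly ℚ_[p] (c i)).coeff j)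
      exact ⟨z, hz⟩
    · change eval (algebraMap k' K' (c i)) _ = 0
      rw [← Polynomial.map_map, eval_map, eval₂_at_apply, eval_map]
      have h2 : eval₂ (algebraMap ℚ_[p] k') (c i) (minpoly ℚ_[p] (c i)) = 0 :=
        minpoly.aeval ℚ_[p] (c i)
      rw [h2, map_zero]
  have hEk : ∀ a : k', algebraMap k' K' a ∈ E := by
    intro a
    rw [← c.sum_repr a, map_sum]
    refine sum_mem fun i _ => ?_
    rw [Algebra.smul_def, map_mul]
    refine mul_mem ?_ (IntermediateField.subset_adjoin Q S ⟨i, rfl⟩)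
    obtain ⟨z, hz⟩ := hQp (c.repr a i)
    rw [← hz]
    exact E.algebraMap_mem z
  have hEt : t ∈ E := by
    have h1 := E.algebraMap_mem (algebraMap ℤ_[p][X] Q X)
    rwa [hQ, phi_X] at h1
  have hsub : ∀ x ∈ IntermediateField.adjoin k' {t}, x ∈ E := by
    have h1 : IntermediateField.adjoin k' {t} ≤ E.toSubfield.toIntermediateField hEk := by
      rw [IntermediateField.adjoin_le_iff]
      rintro x rfl
      exact hEt
    exact fun x hx => h1 hx
  have hK : Module.Finite E K' := by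
    obtain ⟨s, hs⟩ := hfin.fg_top
    refine ⟨⟨s, ?_⟩⟩
    rw [eq_top_iff]
    intro x _
    have hx : x ∈ Submodule.span (IntermediateField.adjoin k' {t}) (s : Set K') := by
      rw [hs]
      trivial
    refine Submodule.span_induction (p := fun x _ => x ∈ Submodule.span E (s : Set K'))
      (fun y hy => Submodule.subset_span hy) (Submodule.zero_mem _)
      (fun _ _ _ _ h1 h2 => Submodule.add_mem _ h1 h2) (fun a y _ hy => ?_) hx
    exact Submodule.smul_mem _ (⟨a, hsub a a.2⟩ : E) hy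
  exact Module.Finite.trans E K'

theorem finGen (t : K') (ht : Transcendental k' t)
    (hfin : FiniteDimensional (IntermediateField.adjoin k' {t}) K') :
    ∃ (r : ℕ) (z : Fin r → K'), (∀ j, z j ∈ modelRing p k' t) ∧
      ∀ a ∈ modelRing p k' t, ∃ P : Fin r → ℤ_[p][X], a = ∑ j, phi p k' t (P j) * z j := by
  let _ : Algebra ℤ_[p][X] K' := (phi p k' t).toAlgebra
  have : FaithfulSMul ℤ_[p][X] K' :=
    (faithfulSMul_iff_algebraMap_injective ℤ_[p][X] K').2 (phi_inj p k' ht)
  let _ : Algebra (FractionRing ℤ_[p][X]) K' := FractionRing.liftAlgebra ℤ_[p][X] K'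
  have : IsScalarTower ℤ_[p][X] (FractionRing ℤ_[p][X]) K' :=
    FractionRing.isScalarTower_liftAlgebra ℤ_[p][X] K'
  have : FiniteDimensional (FractionRing ℤ_[p][X]) K' :=
    finDim p k' t ht hfin (FractionRing ℤ_[p][X]) fun P =>
      (IsScalarTower.algebraMap_apply ℤ_[p][X] (FractionRing ℤ_[p][X]) K' P).symm
  have h1 : Module.Finite ℤ_[p][X] (integralClosure ℤ_[p][X] K') :=
    IsIntegralClosure.finite ℤ_[p][X] (FractionRing ℤ_[p][X]) K' _
  obtain ⟨r, z, hz⟩ := Module.Finite.exists_fin (R := ℤ_[p][X])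
    (M := integralClosure ℤ_[p][X] K')
  have hmem : ∀ a : K', a ∈ modelRing p k' t ↔ IsIntegral ℤ_[p][X] a := by
    intro a
    rw [int_iff]
    constructor
    · rintro ⟨g, hg1, hg2, hg3⟩
      exact isInt_of_poly g hg1 hg2 a hg3
    · exact fun h => poly_of_isInt (A := ℤ_[p][X]) a h
  refine ⟨r, fun j => (z j : K'), fun j => (hmem _).2 (z j).2, fun a ha => ?_⟩
  have h2 : (⟨a, (hmem a).1 ha⟩ : integralClosure ℤ_[p][X] K') ∈
      Submodule.span ℤ_[p][X] (Set.range z) := by
    rw [hz]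
    trivial
  obtain ⟨P, hP⟩ := (Submodule.mem_span_range_iff_exists_fun ℤ_[p][X]).1 h2
  refine ⟨P, ?_⟩
  have h3 := congrArg (fun x : integralClosure ℤ_[p][X] K' => (x : K')) hP
  simp only at h3
  rw [← h3, AddSubmonoidClass.coe_finsetSum]
  refine Finset.sum_congr rfl fun j _ => ?_
  change ((P j • z j : integralClosure ℤ_[p][X] K') : K') = algebraMap ℤ_[p][X] K' (P j) * (z j : K')
  rw [← Algebra.smul_def]
  rfl

/-! ### The other chart -/

omit [FiniteDimensional ℚ_[p] k'] in
theorem chart (t : K') (ht : t ≠ 0) (P : ℤ_[p][X]) (k : ℕ) (hk : P.natDegree ≤ k) :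
    phi p k' t P * t⁻¹ ^ k ∈ Set.range (phi p k' t⁻¹) := by
  have h1 : ∀ i ∈ Finset.range (P.natDegree + 1),
      ((algebraMap k' K').comp (zk p k')) (P.coeff i) * t ^ i * t⁻¹ ^ k ∈
        (phi p k' t⁻¹).range := by
    intro i hi
    have hi' : i ≤ k := (Nat.lt_succ_iff.1 (Finset.mem_range.1 hi)).trans hk
    refine ⟨C (P.coeff i) * X ^ (k - i), ?_⟩
    rw [map_mul, map_pow, phi_C, phi_X, mul_assoc]
    change algebraMap k' K' (zk p k' (P.coeff i)) * _ = algebraMap k' K' (zk p k' (P.coeff i)) * _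
    congr 1
    obtain ⟨j, rfl⟩ := Nat.exists_eq_add_of_le hi'
    rw [Nat.add_sub_cancel_left, pow_add, ← mul_assoc, ← mul_pow, mul_inv_cancel₀ ht, one_pow,
      one_mul]
  have h2 : phi p k' t P * t⁻¹ ^ k ∈ (phi p k' t⁻¹).range := by
    unfold phi
    rw [coe_eval₂RingHom, eval₂_eq_sum_range, Finset.sum_mul]
    exact Subring.sum_mem _ h1
  exact h2

end

end GFG

open GFG in
/-- G2. Finite generation of `A(t)` over `O[t]`. -/
theorem stFG : StFG.{v} := by
  intro p _ k' K' _ _ _ _ _ t ht hfin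
  have ht0 : t ≠ 0 := by
    rintro rfl
    exact ht isAlgebraic_zero
  refine ⟨?_, fun a ha => ?_⟩
  · obtain ⟨r, z, hz1, hz2⟩ := finGen p k' t ht hfin
    refine ⟨r, z, hz1, fun a ha => ?_⟩
    obtain ⟨P, hP⟩ := hz2 a ha
    refine ⟨fun j => (P j).map (zk p k'), fun j i => ?_, ?_⟩
    · rw [coeff_map]
      exact norm_zk p k' _
    · rw [hP]
      exact Finset.sum_congr rfl fun j _ => by rw [phi_apply]
  · obtain ⟨g, hg1, hg2, hg3⟩ := (int_iff p k' t a).1 ha
    choose P hP using hg2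
    refine ⟨∑ i ∈ Finset.range g.natDegree, (P i).natDegree, fun m hm => ?_⟩
    rw [int_iff]
    refine ⟨g.scaleRoots (t⁻¹ ^ m), (monic_scaleRoots_iff _).2 hg1, fun i => ?_, ?_⟩
    · rw [coeff_scaleRoots, ← hP, ← pow_mul]
      rcases lt_trichotomy i g.natDegree with h1 | h1 | h1
      · refine chart p k' t ht0 (P i) _ ?_
        have h2 : (P i).natDegree ≤ ∑ i ∈ Finset.range g.natDegree, (P i).natDegree :=
          Finset.single_le_sum (f := fun i => (P i).natDegree) (fun _ _ => Nat.zero_le _)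
            (Finset.mem_range.2 h1)
        calc (P i).natDegree ≤ m := h2.trans hm
          _ = m * 1 := (mul_one m).symm
          _ ≤ m * (g.natDegree - i) := Nat.mul_le_mul_left m (by omega)
      · subst h1
        rw [hP, Nat.sub_self, mul_zero, pow_zero, mul_one, hg1.coeff_natDegree]
        exact ⟨1, map_one _⟩
      · rw [hP, coeff_eq_zero_of_natDegree_lt h1, zero_mul]
        exact ⟨0, map_zero _⟩
    · have h1 := scaleRoots_eval₂_mul (RingHom.id K') a (t⁻¹ ^ m) (p := g)
      rw [RingHom.id_apply, eval₂_id, eval₂_id, hg3, mul_zero] at h1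
      rw [mul_comm]
      exact h1

end Pool.Agent.Lib.MP_c385f6_ag.TPG
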