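import Pool.Agent.Lib.MP_c385f6_ag.TPG.GMA
import Pool.Agent.Lib.MP_c385f6_ag.TPG.GFG
import Pool.Agent.Lib.MP_c385f6_ag.TPG.CLin

/-!
Project TPG, part G, module G3: uniformizers of `k'`; the elements of `K' ∩ w` are quotients of
elements of `A(z)`, with a denominator of nonzero residue.
-/

set_option autoImplicit false
set_option linter.unusedSectionVars false

open Polynomial

namespace Pool.Agent.Lib.MP_c385f6_ag.TPG

universe u v u' v'

namespace GFrc

/-! ### Uniformizers -/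

section Unif

variable (p : ℕ) [Fact p.Prime] (k' : Type) [Field k'] [Algebra ℚ_[p] k']
  [FiniteDimensional ℚ_[p] k']

/-- the maximal norm less than one is attained -/
theorem exists_unif : ∃ π : k', π ≠ 0 ∧ spectralNorm ℚ_[p] k' π < 1 ∧
    ∀ c : k', spectralNorm ℚ_[p] k' c < 1 →
      spectralNorm ℚ_[p] k' c ≤ spectralNorm ℚ_[p] k' π := by
  let _ : NormedField k' := spectralNorm.normedField ℚ_[p] k'
  let _ : NormedAlgebra ℚ_[p] k' := spectralNorm.normedAlgebra ℚ_[p] k'
  have hn : ∀ x : k', ‖x‖ = spectralNorm ℚ_[p] k' x := fun _ => rfl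
  have hpr : ProperSpace k' := FiniteDimensional.proper ℚ_[p] k'
  have hu : IsUltrametricDist k' :=
    IsUltrametricDist.isUltrametricDist_of_forall_norm_add_le_max_norm fun x y =>
      isNonarchimedean_spectralNorm (K := ℚ_[p]) (L := k') x y
  have h1 : IsCompact (Metric.ball (0 : k') 1) := by
    refine (isCompact_closedBall (0 : k') 1).of_isClosed_subset ?_ Metric.ball_subset_closedBall
    exact IsUltrametricDist.isClosed_ball 0 1
  obtain ⟨x, hx, hx'⟩ := h1.exists_isMaxOn ⟨0, Metric.mem_ball_self one_pos⟩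
    (continuous_norm.continuousOn)
  rw [mem_ball_zero_iff] at hx
  have hx2 : ∀ y : k', ‖y‖ < 1 → ‖y‖ ≤ ‖x‖ := by
    intro y hy
    exact hx' (mem_ball_zero_iff.2 hy)
  refine ⟨x, ?_, hx, hx2⟩
  intro h0
  have h3 : ‖algebraMap ℚ_[p] k' ((p : ℕ) : ℚ_[p])‖ = ‖((p : ℕ) : ℚ_[p])‖ := by
    rw [hn]
    exact spectralNorm_extends _
  have h4 : ‖((p : ℕ) : ℚ_[p])‖ < 1 := by
    rw [Padic.norm_p]
    exact inv_lt_one_of_one_lt₀ (by exact_mod_cast (Fact.out : p.Prime).one_lt)
  have h2 := hx2 (algebraMap ℚ_[p] k' ((p : ℕ) : ℚ_[p])) (by rw [h3]; exact h4)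
  rw [h0, norm_zero, h3] at h2
  have h5 : ((p : ℕ) : ℚ_[p]) = 0 := norm_le_zero_iff.1 h2
  exact (Fact.out : p.Prime).ne_zero (by exact_mod_cast h5)

end Unif

/-! ### Multiples which are in the model ring -/

section Mult

variable (p : ℕ) [Fact p.Prime] (k' : Type) [Field k'] [Algebra ℚ_[p] k']
  [FiniteDimensional ℚ_[p] k'] {K' : Type v} [Field K'] [Algebra k' K']

theorem exists_mult (z : K') (hz : Transcendental k' z)
    (hfin : FiniteDimensional (IntermediateField.adjoin k' {z}) K') (f : K') :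
    ∃ P : ℤ_[p][X], P ≠ 0 ∧ GFG.phi p k' z P * f ∈ modelRing p k' z := by
  let _ : Algebra ℤ_[p][X] K' := (GFG.phi p k' z).toAlgebra
  have : FaithfulSMul ℤ_[p][X] K' :=
    (faithfulSMul_iff_algebraMap_injective ℤ_[p][X] K').2 (GFG.phi_inj p k' hz)
  let _ : Algebra (FractionRing ℤ_[p][X]) K' := FractionRing.liftAlgebra ℤ_[p][X] K'
  have : IsScalarTower ℤ_[p][X] (FractionRing ℤ_[p][X]) K' :=
    FractionRing.isScalarTower_liftAlgebra ℤ_[p][X] K'
  have : FiniteDimensional (FractionRing ℤ_[p][X]) K' :=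
    GFG.finDim p k' z hz hfin (FractionRing ℤ_[p][X]) fun P =>
      (IsScalarTower.algebraMap_apply ℤ_[p][X] (FractionRing ℤ_[p][X]) K' P).symm
  have h1 : IsAlgebraic (FractionRing ℤ_[p][X]) f := Algebra.IsAlgebraic.isAlgebraic f
  have h2 : IsAlgebraic ℤ_[p][X] f :=
    (IsFractionRing.isAlgebraic_iff ℤ_[p][X] (FractionRing ℤ_[p][X]) K').2 h1
  obtain ⟨P, hP, hPf⟩ := h2.exists_integral_multiple
  refine ⟨P, hP, ?_⟩
  rw [GFG.int_iff]
  have h3 := GFG.poly_of_isInt (A := ℤ_[p][X]) _ hPf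
  rw [Algebra.smul_def] at h3
  exact h3

end Mult

section Main

variable {p : ℕ} [Fact p.Prime] {k' : Type} {K' Ω : Type v} {C : Type u} {F : Type u'}
  {U : Type v'} [Field k'] [Field K'] [Field Ω] [Field C] [Field F] [Field U] [Algebra ℚ_[p] k']
  [FiniteDimensional ℚ_[p] k'] [Algebra k' K'] [Algebra K' Ω] [Algebra C Ω]
  [Algebra k' Ω] [Algebra k' C] [IsScalarTower k' K' Ω] [IsScalarTower k' C Ω] [Algebra F U]
  {R : Red C Ω F U}

theorem const_mem {z : K'} {c : k'} (hc : spectralNorm ℚ_[p] k' c ≤ 1) :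
    algebraMap k' K' c ∈ modelRing p k' z :=
  GMAAux.mem_model_of_mem_closure (Subring.subset_closure (Or.inr ⟨c, hc, rfl⟩))

theorem self_mem (z : K') : z ∈ modelRing p k' z :=
  GMAAux.mem_model_of_mem_closure (Subring.subset_closure (Or.inl rfl))

/-- units of `k'` -/
theorem unit_iff (hint : ∀ c : k', algebraMap k' Ω c ∈ R.w ↔ spectralNorm ℚ_[p] k' c ≤ 1)
    (c : k') : R.res (algebraMap k' Ω c) ≠ 0 ↔ spectralNorm ℚ_[p] k' c = 1 := by
  constructor
  · intro h
    have h1 : spectralNorm ℚ_[p] k' c ≤ 1 := (hint c).1 (Red.mem_of_res_ne h)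
    refine le_antisymm h1 ?_
    by_contra h2
    rw [not_le] at h2
    exact h ((GMAAux.res_const_eq_zero hint h1).2 h2)
  · intro h h1
    exact ((GMAAux.res_const_eq_zero hint h.le).1 h1).ne h

/-- primitive polynomials have nonzero residue -/
theorem res_poly_ne (hint : ∀ c : k', algebraMap k' Ω c ∈ R.w ↔ spectralNorm ℚ_[p] k' c ≤ 1)
    {z : K'} (hz : algebraMap K' Ω z ∈ R.w) (htr : Transcendental F (R.res (algebraMap K' Ω z)))
    (G : k'[X]) (hG : ∀ i, spectralNorm ℚ_[p] k' (G.coeff i) ≤ 1) (i0 : ℕ)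
    (h1 : G.coeff i0 = 1) :
    aeval z G ∈ modelRing p k' z ∧ R.res (algebraMap K' Ω (aeval z G)) ≠ 0 := by
  have hm : aeval z G ∈ modelRing p k' z := by
    rw [aeval_eq_sum_range]
    refine Subring.sum_mem _ fun i _ => ?_
    rw [Algebra.smul_def]
    exact mul_mem (const_mem (hG i)) (pow_mem (self_mem z) i)
  refine ⟨hm, ?_⟩
  have hw : algebraMap K' Ω (aeval z G) ∈ R.w := GMAAux.model_mem_w R hint hz hm
  have hind : LinearIndependent (IntermediateField.adjoin F {R.res (algebraMap K' Ω z)})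
      fun _ : Unit => R.res (1 : Ω) := by
    rw [R.res_one]
    exact LinearIndependent.of_subsingleton () one_ne_zero
  have h2 := (Lin.gauss_poly hz htr (b := fun _ : Unit => (1 : Ω)) (fun _ => one_mem _) hind
    {()} (fun _ => G.map (algebraMap k' C)) (k := ()) (Finset.mem_singleton_self _)).1 i0
  rw [Finset.sum_singleton, mul_one, coeff_map, h1, map_one, map_one, map_one,
    aeval_map_algebraMap] at h2
  have h3 : aeval (algebraMap K' Ω z) G = algebraMap K' Ω (aeval z G) :=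
    aeval_algebraMap_apply Ω z G
  rw [h3] at h2
  rw [Red.res_ne_iff]
  exact le_antisymm ((R.w.valuation_le_one_iff _).2 hw) h2

/-- elements of `A(z)` which are divisible by a constant in `w` are divisible in `A(z)` -/
theorem div_mem (hint : ∀ c : k', algebraMap k' Ω c ∈ R.w ↔ spectralNorm ℚ_[p] k' c ≤ 1)
    {π : k'} (hπ0 : π ≠ 0) (hπ1 : spectralNorm ℚ_[p] k' π < 1)
    (hπ : ∀ c : k', spectralNorm ℚ_[p] k' c < 1 →
      spectralNorm ℚ_[p] k' c ≤ spectralNorm ℚ_[p] k' π) {z : K'}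
    (hMA : ∀ a : modelRing p k' z, R.res (algebraMap K' Ω a) = 0 → a ∈ modelIdeal p k' z)
    (l : ℕ) : ∀ c : k', c ≠ 0 → spectralNorm ℚ_[p] k' c ≤ 1 →
      spectralNorm ℚ_[p] k' π ^ l ≤ spectralNorm ℚ_[p] k' c → ∀ x : K',
      algebraMap k' K' c * x ∈ modelRing p k' z → algebraMap K' Ω x ∈ R.w →
        x ∈ modelRing p k' z := by
  have hπp : 0 < spectralNorm ℚ_[p] k' π :=
    spectralNorm_zero_lt hπ0 (Algebra.IsAlgebraic.isAlgebraic π)
  -- units
  have hunit : ∀ c : k', c ≠ 0 → spectralNorm ℚ_[p] k' c = 1 → ∀ x : K',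
      algebraMap k' K' c * x ∈ modelRing p k' z → x ∈ modelRing p k' z := by
    intro c hc hc1 x hx
    have h1 : spectralNorm ℚ_[p] k' c⁻¹ ≤ 1 := by
      rw [GMAAux.norm_inv p k' hc, hc1, inv_one]
    have h2 := mul_mem (const_mem (z := z) h1) hx
    rwa [← mul_assoc, ← map_mul, inv_mul_cancel₀ hc, map_one, one_mul] at h2
  have hdiv : ∀ c : k', spectralNorm ℚ_[p] k' (c / π) * spectralNorm ℚ_[p] k' π =
      spectralNorm ℚ_[p] k' c := by
    intro c
    rw [← GMAAux.norm_mul, div_mul_cancel₀ _ hπ0]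
  induction l with
  | zero =>
    intro c hc hc1 hc2 x hx _
    rw [pow_zero] at hc2
    exact hunit c hc (le_antisymm hc1 hc2) x hx
  | succ l ih =>
    intro c hc hc1 hc2 x hx hxw
    rcases hc1.eq_or_lt with h1 | h1
    · exact hunit c hc h1 x hx
    have h2 : spectralNorm ℚ_[p] k' (c / π) ≤ 1 := by
      by_contra h3
      rw [not_le] at h3
      have h4 := hπ c h1
      rw [← hdiv c] at h4
      nlinarith
    have h3 : spectralNorm ℚ_[p] k' π ^ l ≤ spectralNorm ℚ_[p] k' (c / π) := by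
      rw [← hdiv c, pow_succ] at hc2
      exact le_of_mul_le_mul_right hc2 hπp
    -- the residue of `c x` is zero
    have h4 : R.res (algebraMap K' Ω (algebraMap k' K' c * x)) = 0 := by
      rw [map_mul, ← IsScalarTower.algebraMap_apply, R.res_mul _ ((hint c).2 hc1) _ hxw,
        (GMAAux.res_const_eq_zero hint hc1).2 h1, zero_mul]
    have h5 := hMA ⟨_, hx⟩ h4
    have h6 : modelIdeal p k' z ≤ Ideal.span {(⟨algebraMap k' K' π, const_mem hπ1.le⟩ :
        modelRing p k' z)} := by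
      refine Ideal.span_le.2 ?_
      rintro y ⟨d, hd, hy⟩
      rw [SetLike.mem_coe, Ideal.mem_span_singleton]
      have h7 : spectralNorm ℚ_[p] k' (d / π) ≤ 1 := by
        by_contra h10
        rw [not_le] at h10
        have h9 := hπ d hd
        rw [← hdiv d] at h9
        nlinarith
      refine ⟨⟨algebraMap k' K' (d / π), const_mem h7⟩, Subtype.ext ?_⟩
      change (y : K') = algebraMap k' K' π * algebraMap k' K' (d / π)
      rw [hy, ← map_mul, mul_div_cancel₀ _ hπ0]
    obtain ⟨y, hy⟩ := Ideal.mem_span_singleton.1 (h6 h5)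
    have h7 : algebraMap k' K' c * x = algebraMap k' K' π * (y : K') := congrArg Subtype.val hy
    have hπK : algebraMap k' K' π ≠ 0 := by rwa [Ne, map_eq_zero]
    have h8 : algebraMap k' K' (c / π) * x = y := by
      apply mul_left_cancel₀ hπK
      rw [← h7, ← mul_assoc, ← map_mul, mul_div_cancel₀ _ hπ0]
    refine ih (c / π) (div_ne_zero hc hπ0) h2 h3 x ?_ hxw
    rw [h8]
    exact y.2

/-- quotients -/
theorem main (hint : ∀ c : k', algebraMap k' Ω c ∈ R.w ↔ spectralNorm ℚ_[p] k' c ≤ 1)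
    {z : K'} (hz : algebraMap K' Ω z ∈ R.w) (htr : Transcendental F (R.res (algebraMap K' Ω z)))
    (hz' : Transcendental k' z) (hfin : FiniteDimensional (IntermediateField.adjoin k' {z}) K')
    (hMA : ∀ a : modelRing p k' z, R.res (algebraMap K' Ω a) = 0 → a ∈ modelIdeal p k' z)
    (f : K') (hf : algebraMap K' Ω f ∈ R.w) :
    ∃ a ∈ modelRing p k' z, ∃ b ∈ modelRing p k' z, R.res (algebraMap K' Ω b) ≠ 0 ∧
      f * b = a := by
  obtain ⟨π, hπ0, hπ1, hπ⟩ := exists_unif p k'
  obtain ⟨P, hP, hPf⟩ := exists_mult p k' z hz' hfin f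
  rw [GFG.phi_apply] at hPf
  have hinj := GFG.zk_inj p k'
  set Q : k'[X] := P.map (GFG.zk p k') with hQ
  have hQ0 : Q ≠ 0 := by
    rw [hQ, Ne, Polynomial.map_eq_zero_iff hinj]
    exact hP
  have hQ1 : ∀ i, spectralNorm ℚ_[p] k' (Q.coeff i) ≤ 1 := by
    intro i
    rw [hQ, coeff_map]
    exact GFG.norm_zk p k' _
  obtain ⟨i0, hi0, hmax⟩ := Q.support.exists_max_image
    (fun i => spectralNorm ℚ_[p] k' (Q.coeff i)) (nonempty_support_iff.2 hQ0)
  have hc0 : Q.coeff i0 ≠ 0 := mem_support_iff.1 hi0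
  set c : k' := Q.coeff i0 with hc
  have hcp : 0 < spectralNorm ℚ_[p] k' c :=
    spectralNorm_zero_lt hc0 (Algebra.IsAlgebraic.isAlgebraic c)
  have hG : ∀ i, spectralNorm ℚ_[p] k' ((Polynomial.C c⁻¹ * Q).coeff i) ≤ 1 := by
    intro i
    rw [coeff_C_mul, GMAAux.norm_mul, GMAAux.norm_inv p k' hc0]
    by_cases hi : i ∈ Q.support
    · have h1 := hmax i hi
      rw [inv_mul_le_iff₀ hcp, mul_one]
      exact h1
    · rw [notMem_support_iff.1 hi, spectralNorm_zero, mul_zero]
      exact zero_le_one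
  obtain ⟨hb, hb'⟩ := res_poly_ne hint hz htr (Polynomial.C c⁻¹ * Q) hG i0
    (by rw [coeff_C_mul, inv_mul_cancel₀ hc0])
  refine ⟨f * aeval z (Polynomial.C c⁻¹ * Q), ?_, _, hb, hb', rfl⟩
  obtain ⟨l, hl⟩ := exists_pow_lt_of_lt_one hcp hπ1
  refine div_mem hint hπ0 hπ1 hπ hMA l c hc0 (hQ1 i0) hl.le _ ?_ ?_
  · have h1 : algebraMap k' K' c * (f * aeval z (Polynomial.C c⁻¹ * Q)) = aeval z Q * f := by
      rw [map_mul, aeval_C]
      have h2 : algebraMap k' K' c * algebraMap k' K' c⁻¹ = 1 := by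
        rw [← map_mul, mul_inv_cancel₀ hc0, map_one]
      linear_combination (aeval z Q * f) * h2
    rw [h1]
    exact hPf
  · rw [map_mul]
    exact mul_mem hf (GMAAux.model_mem_w R hint hz hb)

end Main

end GFrc

open GFrc in
/-- G3. -/
theorem stFrc (h1 : StMA.{u, v, u', v'}) : StFrc.{u, v, u', v'} := by
  intro p _ k' K' Ω C F U _ _ _ _ _ _ _ _ _ _ _ _ _ _ _ _ _ _ _ R t hM
  have hMA := h1 p k' K' Ω C F U R t hM
  refine ⟨exists_unif p k', unit_iff hM.int, fun z hz f hf => ?_⟩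
  have hz2 : algebraMap K' Ω z ∈ R.w ∧ Transcendental F (R.res (algebraMap K' Ω z)) ∧
      Transcendental k' z ∧ FiniteDimensional (IntermediateField.adjoin k' {z}) K' := by
    rcases hz with rfl | hz
    · exact ⟨hM.mem, hM.trans, hM.ftr, hM.fin⟩
    · rw [Set.mem_singleton_iff] at hz
      subst hz
      have h0 : R.res (algebraMap K' Ω t) ≠ 0 := by
        intro h
        apply hM.trans
        rw [h]
        exact isAlgebraic_zero
      have hadj : IntermediateField.adjoin k' {t⁻¹} = IntermediateField.adjoin k' {t} := by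
        refine le_antisymm ?_ ?_
        · rw [IntermediateField.adjoin_simple_le_iff]
          exact inv_mem (IntermediateField.mem_adjoin_simple_self k' t)
        · rw [IntermediateField.adjoin_simple_le_iff]
          have h4 := inv_mem (IntermediateField.mem_adjoin_simple_self k' t⁻¹)
          rwa [inv_inv] at h4
      rw [map_inv₀]
      refine ⟨Red.inv_mem h0, ?_, ?_, ?_⟩
      · rw [R.res_inv h0]
        intro h
        apply hM.trans
        have := h.inv
        rwa [inv_inv] at this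
      · intro h
        apply hM.ftr
        have := h.inv
        rwa [inv_inv] at this
      · rw [hadj]
        exact hM.fin
  exact main hM.int hz2.1 hz2.2.1 hz2.2.2.1 hz2.2.2.2 (fun a ha => (hMA z hz a).2.1 ha) f hf

end Pool.Agent.Lib.MP_c385f6_ag.TPG
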