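import Pool.Agent.Lib.MP_c385f6_ag.TPG.StG
import Pool.Agent.Lib.MP_c385f6_ag.TPG.CLin

/-!
Project TPG, G16: `L = K' C` has good reduction.
-/

set_option autoImplicit false

open Polynomial

namespace Pool.Agent.Lib.MP_c385f6_ag.TPG

universe u v u' v'

namespace GGoodL

theorem genus_eq {C : Type u} {L : Type v} {F : Type u'} {Λ : Type v'} [Field C] [IsAlgClosed C]
    [Field L] [Field F] [IsAlgClosed F] [Field Λ] [Algebra C L] [Algebra F Λ] (R : Red C L F Λ)
    (t : L) (h : DegEq R t) (hC : FF C L) (hF : FF F Λ) (h10 : StPl.{u, v}) (h10' : StPl.{u', v'})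
    (h12 : StEllLe.{u, v, u', v'}) (N : ℕ)
    (hN : ∀ m ≥ N, ell (pl F (R.res t) m) ≤ ell (pl C t m)) (g g' : ℕ) (hg : IsGenus C L g)
    (hg' : IsGenus F Λ g') : g = g' := by
  obtain ⟨_, d, hd⟩ := hg
  obtain ⟨_, d', hd'⟩ := hg'
  have htC : Transcendental C t := Lin.transc h.mem h.trans
  set n := Module.finrank (IntermediateField.adjoin C {t}) L with hn
  have hn0 : 0 < n := by
    have := h.finC
    exact Module.finrank_pos
  set m : ℕ := N + d.natAbs + d'.natAbs with hm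
  have h1 := (h10 C L t hC htC m).1
  have h2 := (h10' F Λ (R.res t) hF h.trans m).1
  rw [← h.deg, ← hn] at h2
  rw [← hn] at h1
  have hmn : (m : ℤ) ≤ m * n := by
    have : (1 : ℤ) ≤ n := by exact_mod_cast hn0
    nlinarith [Int.natCast_nonneg m]
  have hd1 : d ≤ (m : ℤ) := by
    rw [hm]
    push_cast
    have := le_abs_self d
    have := abs_nonneg d'
    omega
  have hd2 : d' ≤ (m : ℤ) := by
    rw [hm]
    push_cast
    have := le_abs_self d'
    have := abs_nonneg d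
    omega
  have e1 := hd (pl C t m) (by rw [h1]; exact hd1.trans hmn)
  have e2 := hd' (pl F (R.res t) m) (by rw [h2]; exact hd2.trans hmn)
  have i1 := h12 C L F Λ R t h m
  have i2 := hN m (by omega)
  rw [e1, e2, h1, h2] at i1 i2
  omega

end GGoodL

/-- G16. `L = K' C` has good reduction. -/
theorem stGoodL (h8 : StLvl.{u, v, u', v'}) (h9 : StONd.{u, v, u', v'}) (h10 : StPl.{u, v})
    (h10' : StPl.{u', v'}) (h12 : StEllLe.{u, v, u', v'}) (h15 : StEllGe.{u, v, u', v'})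
    (hR : StRiem.{u, v}) (hR' : StRiem.{u', v'}) : StGoodL.{u, v, u', v'} := by
  intro p _ k' K' Ω C F U _ _ _ _ _ _ _ _ _ _ _ _ _ _ _ _ _ _ _ R t hM L hL
  have hK : algebraMap K' Ω t ∈ L := by
    rw [hL]
    exact IntermediateField.subset_adjoin C _ ⟨t, rfl⟩
  set t' : L := ⟨algebraMap K' Ω t, hK⟩ with ht'
  have hDE : DegEq (R.sub L) t' := (h8 p k' K' Ω C F U R t hM L hL).1 t' rfl
  obtain ⟨hC, hF, _⟩ := h9 C L F (R.img L) (R.sub L) t' hDE
  obtain ⟨g, hg, _⟩ := hR C L hC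
  obtain ⟨g', hg', _⟩ := hR' F (R.img L) hF
  obtain ⟨N, hN⟩ := h15 p k' K' Ω C F U R t hM L hL t' rfl
  have hgg : g = g' :=
    GGoodL.genus_eq (R.sub L) t' hDE hC hF h10 h10' h12 N hN g g' hg hg'
  subst hgg
  exact ⟨g, hC, hF, ⟨t', hDE.mem, hDE.trans, hDE.finC, hDE.finF, hDE.deg⟩, hg, hg'⟩

end Pool.Agent.Lib.MP_c385f6_ag.TPG
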