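import Pool.Agent.Lib.MP_c385f6_ag.TPG.StG
import Pool.Agent.Lib.MP_c385f6_ag.TPG.CLin

/-!
Project TPG, part G, module G11: integral elements have integral residues.
-/

set_option autoImplicit false

open Polynomial

namespace Pool.Agent.Lib.MP_c385f6_ag.TPG

universe u v u' v'

namespace GIntAux

/-- the coefficients of the minimal polynomial of an integral element -/
theorem minpoly_coeff {A K L : Type*} [CommRing A] [IsDomain A] [IsIntegrallyClosed A] [Field K]
    [Field L] [Algebra A K] [IsFractionRing A K] [Algebra K L] {x : L}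
    (h : ((algebraMap K L).comp (algebraMap A K)).IsIntegralElem x) (j : ℕ) :
    ∃ a : A, algebraMap A K a = (minpoly K x).coeff j := by
  let _ : Algebra A L := ((algebraMap K L).comp (algebraMap A K)).toAlgebra
  have : IsScalarTower A K L := IsScalarTower.of_algebraMap_eq fun _ => rfl
  have h1 : IsIntegral A x := h
  rw [minpoly.isIntegrallyClosed_eq_field_fractions' K h1, coeff_map]
  exact ⟨_, rfl⟩

variable {C : Type u} {L : Type v} {F : Type u'} {Λ : Type v'} [Field C] [Field L] [Field F]
  [Field Λ] [Algebra C L] [Algebra F Λ] {R : Red C L F Λ} {t : L}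

/-- the minimal polynomial of an integral element over `C[t]` has coefficients in `C[t]` -/
theorem coeff_adj (ht : Transcendental C t) {f : L} (hf : IsIntegral (Algebra.adjoin C {t}) f)
    (j : ℕ) : ∃ P : C[X], aeval t P =
      ((minpoly (IntermediateField.adjoin C {t}) f).coeff j : IntermediateField.adjoin C {t}) := by
  set K := IntermediateField.adjoin C {t} with hK
  have h1 : IsIntegrallyClosed (Algebra.adjoin C {t}) := by
    have e : C[X] ≃+* Algebra.adjoin C {t} :=
      ((AlgEquiv.ofInjective (aeval t) (transcendental_iff_injective.1 ht)).trans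
        (Subalgebra.equivOfEq _ _ (Algebra.adjoin_singleton_eq_range_aeval C t).symm)).toRingEquiv
    exact IsIntegrallyClosed.of_equiv e
  open scoped IntermediateField.algebraAdjoinAdjoin in
  obtain ⟨a, ha⟩ := minpoly_coeff (A := Algebra.adjoin C {t}) (K := K) (x := f) hf j
  have h2 : (a : L) ∈ (aeval t : C[X] →ₐ[C] L).range :=
    Algebra.adjoin_singleton_eq_range_aeval C t ▸ a.2
  obtain ⟨P, hP⟩ := h2
  refine ⟨P, ?_⟩
  rw [← ha]
  exact hP

/-- the minimal polynomials of the elements of `w` over `K = C(t)` have coefficients in `w` -/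
theorem coeff_w (h : DegEq R t) {f : L} (hf : f ∈ R.w) (j : ℕ) :
    (((minpoly (IntermediateField.adjoin C {t}) f).coeff j :
      IntermediateField.adjoin C {t}) : L) ∈ R.w := by
  classical
  have := h.finC
  have := h.finF
  set K := IntermediateField.adjoin C {t} with hK
  set M := IntermediateField.adjoin F {R.res t} with hM
  set S : ValuationSubring K := R.w.comap (algebraMap K L) with hS
  let B := Module.finBasis M Λ
  choose z hz hzr using fun i => R.res_surj (B i)
  have h1 : LinearIndependent M fun i => R.res (z i) := by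
    simp only [hzr]
    exact B.linearIndependent
  have h2 : LinearIndependent K z := Lin.indep h.mem h.trans hz h1
  have h3 : Fintype.card (Fin (Module.finrank M Λ)) = Module.finrank K L := by
    rw [Fintype.card_fin, h.deg]
  have : Nonempty (Fin (Module.finrank M Λ)) := by
    rw [← Fin.pos_iff_nonempty]
    exact Module.finrank_pos
  let b := basisOfLinearIndependentOfCardEqFinrank h2 h3
  have hb : ∀ i, b i = z i := fun i => by
    rw [coe_basisOfLinearIndependentOfCardEqFinrank]
  have h4 : ∀ i k, Algebra.leftMulMatrix b f i k ∈ S := by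
    intro i k
    rw [Algebra.leftMulMatrix_eq_repr_mul]
    have h5 := Lin.gauss h.mem h.trans hz h1 Finset.univ (fun i => b.repr (f * b k) i)
      (Finset.mem_univ i)
    have h6 : ∑ i, ((b.repr (f * b k) i : K) : L) * z i = f * b k := by
      have h7 := b.sum_repr (f * b k)
      conv_rhs => rw [← h7]
      refine Finset.sum_congr rfl fun i _ => ?_
      rw [hb i]
      rfl
    rw [h6] at h5
    have h8 : f * b k ∈ R.w := by
      rw [hb]
      exact mul_mem hf (hz k)
    exact (R.w.valuation_le_one_iff _).1 (h5.trans ((R.w.valuation_le_one_iff _).2 h8))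
  let A : Matrix (Fin (Module.finrank M Λ)) (Fin (Module.finrank M Λ)) S :=
    fun i k => ⟨Algebra.leftMulMatrix b f i k, h4 i k⟩
  have hA : A.map (algebraMap S K) = Algebra.leftMulMatrix b f := by
    ext i k
    rfl
  have h9 : aeval f (Algebra.leftMulMatrix b f).charpoly = 0 := by
    apply Algebra.leftMulMatrix_injective b
    rw [← aeval_algHom_apply, Matrix.aeval_self_charpoly, map_zero]
  have h10 : ((algebraMap K L).comp (algebraMap S K)).IsIntegralElem f := by
    refine ⟨A.charpoly, A.charpoly_monic, ?_⟩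
    rw [← hA, Matrix.charpoly_map] at h9
    rw [← Polynomial.eval₂_map]
    exact h9
  obtain ⟨a, ha⟩ := minpoly_coeff h10 j
  rw [← ha]
  exact a.2

/-- the residues of the elements of `C[t] ∩ w` are in `F[t̄]` -/
theorem res_adj (hy : t ∈ R.w) (ht : Transcendental F (R.res t)) (P : C[X])
    (hP : aeval t P ∈ R.w) : R.res (aeval t P) ∈ Algebra.adjoin F {R.res t} := by
  have h1 : LinearIndependent (IntermediateField.adjoin F {R.res t})
      fun _ : Unit => R.res ((fun _ : Unit => (1 : L)) ()) := by
    rw [R.res_one]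
    exact LinearIndependent.of_subsingleton () one_ne_zero
  have h2 := (Lin.gauss_poly (b := fun _ : Unit => (1 : L)) hy ht (fun _ => one_mem _) h1
    {()} (fun _ => P) (Finset.mem_singleton_self ())).1
  simp only [Finset.sum_singleton, mul_one] at h2
  have h3 : ∀ j, algebraMap C L (P.coeff j) ∈ R.w := fun j =>
    (R.w.valuation_le_one_iff _).1 ((h2 j).trans ((R.w.valuation_le_one_iff _).2 hP))
  rw [aeval_eq_sum_range]
  simp only [Algebra.smul_def]
  rw [Lin.res_sum R _ _ fun i _ => mul_mem (h3 i) (pow_mem hy i)]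
  refine sum_mem fun i _ => ?_
  rw [R.res_mul _ (h3 i) _ (pow_mem hy i), Lin.rc_spec R (h3 i), Lin.res_pow R hy]
  exact mul_mem (Subalgebra.algebraMap_mem _ _)
    (pow_mem (Algebra.subset_adjoin (Set.mem_singleton _)) _)

end GIntAux

/-- G11 -/
theorem stInt : StInt.{u, v, u', v'} := by
  intro C L F Λ _ _ _ _ _ _ _ R t h f hf hfi
  have := h.finC
  set K := IntermediateField.adjoin C {t} with hK
  have hint : IsIntegral K f := Algebra.IsIntegral.isIntegral f
  set m := minpoly K f with hm
  have h1 : ∀ j, ((m.coeff j : K) : L) ∈ R.w := GIntAux.coeff_w h hf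
  have h2 : ∀ j, R.res ((m.coeff j : K) : L) ∈ Algebra.adjoin F {R.res t} := by
    intro j
    obtain ⟨P, hP⟩ := GIntAux.coeff_adj (Lin.transc h.mem h.trans) hfi j
    have h3 := h1 j
    rw [hm, ← hP] at h3 ⊢
    exact GIntAux.res_adj h.mem h.trans P h3
  have h4 : f ^ m.natDegree = - ∑ j ∈ Finset.range m.natDegree, ((m.coeff j : K) : L) * f ^ j := by
    have h5 : aeval f m = 0 := minpoly.aeval K f
    rw [aeval_eq_sum_range, Finset.sum_range_succ, (minpoly.monic hint).coeff_natDegree,
      one_smul] at h5
    rw [eq_neg_iff_add_eq_zero, add_comm]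
    exact h5
  have h5 : R.res f ^ m.natDegree =
      - ∑ j ∈ Finset.range m.natDegree, R.res ((m.coeff j : K) : L) * R.res f ^ j := by
    have h6 : ∀ j ∈ Finset.range m.natDegree, ((m.coeff j : K) : L) * f ^ j ∈ R.w :=
      fun j _ => mul_mem (h1 j) (pow_mem hf j)
    rw [← Lin.res_pow R hf, h4, R.res_neg (sum_mem h6), Lin.res_sum R _ _ h6]
    congr 1
    refine Finset.sum_congr rfl fun j _ => ?_
    rw [R.res_mul _ (h1 j) _ (pow_mem hf j), Lin.res_pow R hf]
  refine ⟨X ^ m.natDegree + ∑ j ∈ Finset.range m.natDegree,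
    Polynomial.C (⟨_, h2 j⟩ : Algebra.adjoin F {R.res t}) * X ^ j, ?_, ?_⟩
  · apply monic_X_pow_add
    refine (degree_sum_le _ _).trans_lt ?_
    refine (Finset.sup_lt_iff (WithBot.bot_lt_coe _)).2 fun j hj => ?_
    refine (degree_C_mul_X_pow_le _ _).trans_lt ?_
    exact_mod_cast Finset.mem_range.1 hj
  · rw [eval₂_add, eval₂_pow, eval₂_X, eval₂_finsetSum]
    simp only [eval₂_mul, eval₂_C, eval₂_pow, eval₂_X]
    rw [h5]
    exact neg_add_cancel _

end Pool.Agent.Lib.MP_c385f6_ag.TPG
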