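import Pool.Agent.Lib.MP_c385f6_ag.TPG.StThm

/-!
Project TPG, G25: `Gal(Ω / K)` and `K'`.
-/

set_option autoImplicit false

open Polynomial

namespace Pool.Agent.Lib.MP_c385f6_ag.TPG

universe u v

namespace K2Aux

theorem split_aux {k k' K K' : Type*} [Field k] [Field k'] [Field K] [Field K'] [Algebra k k']
    [Algebra k K] [Algebra k' K'] [Algebra K K'] [Algebra k K'] [IsScalarTower k k' K']
    [IsScalarTower k K K'] (hN : Normal k k') (c : k') :
    IsIntegral K (algebraMap k' K' c) ∧
      ((minpoly K (algebraMap k' K' c)).map (algebraMap K K')).Splits := by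
  have hc : IsIntegral k c := hN.isIntegral c
  have h1 : aeval (algebraMap k' K' c) ((minpoly k c).map (algebraMap k K)) = 0 := by
    rw [aeval_map_algebraMap, aeval_algebraMap_apply, minpoly.aeval, map_zero]
  have hm : ((minpoly k c).map (algebraMap k K)).Monic := (minpoly.monic hc).map _
  refine ⟨⟨(minpoly k c).map (algebraMap k K), hm, by rwa [← aeval_def]⟩, ?_⟩
  have h2 : minpoly K (algebraMap k' K' c) ∣ (minpoly k c).map (algebraMap k K) :=
    minpoly.dvd _ _ h1
  have h4 : (((minpoly k c).map (algebraMap k K)).map (algebraMap K K')).Splits := by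
    rw [Polynomial.map_map, ← IsScalarTower.algebraMap_eq, IsScalarTower.algebraMap_eq k k' K',
      ← Polynomial.map_map]
    exact (hN.splits c).map _
  exact h4.of_dvd (hm.map _).ne_zero (Polynomial.map_dvd _ h2)

theorem normal_comp {k k' K K' : Type*} [Field k] [Field k'] [Field K] [Field K'] [Algebra k k']
    [Algebra k K] [Algebra k' K'] [Algebra K K'] [Algebra k K'] [IsScalarTower k k' K']
    [IsScalarTower k K K'] (hN : Normal k k')
    (h : IntermediateField.adjoin K (Set.range (algebraMap k' K')) = ⊤) : Normal K K' := by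
  have key : ∀ x ∈ Set.range (algebraMap k' K'),
      IsIntegral K x ∧ ((minpoly K x).map (algebraMap K K')).Splits := by
    rintro _ ⟨c, rfl⟩
    exact split_aux hN c
  have halg : ∀ x : K', IsIntegral K x := by
    intro x
    have hx : x ∈ IntermediateField.adjoin K (Set.range (algebraMap k' K')) := by
      rw [h]; exact IntermediateField.mem_top
    induction hx using IntermediateField.adjoin_induction with
    | mem x hx => exact (key x hx).1
    | algebraMap x => exact isIntegral_algebraMap
    | add x y _ _ hx hy => exact hx.add hy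
    | inv x _ hx => exact hx.inv
    | mul x y _ _ hx hy => exact hx.mul hy
  rw [normal_iff]
  intro x
  refine ⟨halg x, ?_⟩
  have hx : x ∈ IntermediateField.adjoin K (Set.range (algebraMap k' K')) := by
    rw [h]; exact IntermediateField.mem_top
  exact IntermediateField.splits_of_mem_adjoin K K' key hx

/-- A ring homomorphism that preserves the generators preserves the integral closure. -/
theorem int_aux {E : Type*} [Field E] (S : Set E) (f : E →+* E)
    (hf : ∀ x ∈ S, f x ∈ Subring.closure S) (a : E)
    (ha : a ∈ (integralClosure (Subring.closure S) E).toSubring) :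
    f a ∈ (integralClosure (Subring.closure S) E).toSubring := by
  have h1 : ∀ x ∈ Subring.closure S, f x ∈ Subring.closure S := by
    have : Subring.closure S ≤ (Subring.closure S).comap f := by
      rw [Subring.closure_le]
      exact hf
    exact this
  have ha' : IsIntegral (Subring.closure S) a := ha
  have h2 : IsIntegral (Subring.closure S) (f a) :=
    IsIntegral.map_of_comp_eq (f.restrict (Subring.closure S) (Subring.closure S) h1) f
      (by ext x; rfl) ha'
  exact h2

end K2Aux

open K2Aux

theorem stK2 : StK2.{u} := by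
  intro p _ k k' K K' Ω F U _ _ _ _ _ _ _ _ _ _ _ _ _ _ _ _ _ _ _ _ _ _ _ _ _ _ _ _ _ _ _ _
    R t L hT hV hM hL
  have hN : Normal k k' := inferInstance
  have hNK : Normal K K' := normal_comp (k := k) (k' := k') hN hT.comp
  have hNO : Normal K Ω := IsAlgClosure.normal K Ω
  -- `k → k' → Ω` is `k → Ω`
  have htow : IsScalarTower k k' Ω := by
    refine IsScalarTower.of_algebraMap_eq fun x => ?_
    rw [IsScalarTower.algebraMap_apply k K Ω, IsScalarTower.algebraMap_apply K K' Ω,
      ← IsScalarTower.algebraMap_apply k K K', IsScalarTower.algebraMap_apply k k' K',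
      ← IsScalarTower.algebraMap_apply k' K' Ω]
  have htow2 : IsScalarTower ℚ_[p] k k' := inferInstance
  have hinj : Function.Injective (algebraMap K' Ω) := (algebraMap K' Ω).injective
  -- the restriction to `k'`
  have hres : ∀ s : Ω ≃ₐ[K] Ω, ∃ σ : k' ≃ₐ[k] k', ∀ c : k',
      s (algebraMap k' Ω c) = algebraMap k' Ω (σ c) := by
    intro s
    refine ⟨(s.restrictScalars k).restrictNormal k', fun c => ?_⟩
    exact (AlgEquiv.restrictNormal_commutes (s.restrictScalars k) k' c).symm
  refine ⟨?_, ?_, ?_, ?_⟩
  · rw [hL]
    apply le_antisymm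
    · apply IntermediateField.adjoin.mono
      rintro _ ⟨x, rfl⟩
      exact ⟨algebraMap K K' x, (IsScalarTower.algebraMap_apply K K' Ω x).symm⟩
    · rw [IntermediateField.adjoin_le_iff]
      rintro _ ⟨a, rfl⟩
      have ha : a ∈ IntermediateField.adjoin K (Set.range (algebraMap k' K')) := by
        rw [hT.comp]; exact IntermediateField.mem_top
      change algebraMap K' Ω a ∈ IntermediateField.adjoin (algebraicClosure k Ω)
        (Set.range (algebraMap K Ω))
      induction ha using IntermediateField.adjoin_induction with
      | mem x hx =>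
        obtain ⟨c, rfl⟩ := hx
        rw [← IsScalarTower.algebraMap_apply k' K' Ω,
          IsScalarTower.algebraMap_apply k' (algebraicClosure k Ω) Ω]
        exact IntermediateField.algebraMap_mem _ _
      | algebraMap x =>
        rw [← IsScalarTower.algebraMap_apply K K' Ω]
        exact IntermediateField.subset_adjoin _ _ ⟨x, rfl⟩
      | add x y _ _ hx hy => rw [map_add]; exact add_mem hx hy
      | inv x _ hx => rw [map_inv₀]; exact inv_mem hx
      | mul x y _ _ hx hy => rw [map_mul]; exact mul_mem hx hy
  · intro s
    obtain ⟨σ, hσ⟩ := hres s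
    refine ⟨s.restrictNormal K', fun a => (AlgEquiv.restrictNormal_commutes s K' a).symm, ?_, ?_, ?_⟩
    · intro c
      refine ⟨σ c, hinj ?_⟩
      rw [AlgEquiv.restrictNormal_commutes, ← IsScalarTower.algebraMap_apply k' K' Ω, hσ,
        IsScalarTower.algebraMap_apply k' K' Ω]
    · intro a ha
      have hgσ : ∀ c : k', s.restrictNormal K' (algebraMap k' K' c) = algebraMap k' K' (σ c) := by
        intro c
        apply hinj
        rw [AlgEquiv.restrictNormal_commutes, ← IsScalarTower.algebraMap_apply k' K' Ω, hσ,
          IsScalarTower.algebraMap_apply k' K' Ω]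
      refine int_aux _ (s.restrictNormal K' : K' →+* K') ?_ a ha
      rintro x (rfl | ⟨c, hc, rfl⟩)
      · have : (s.restrictNormal K' : K' →+* K') (algebraMap K K' t) = algebraMap K K' t :=
          AlgEquiv.commutes _ t
        rw [this]
        exact Subring.subset_closure (Set.mem_insert _ _)
      · have : (s.restrictNormal K' : K' →+* K') (algebraMap k' K' c) = algebraMap k' K' (σ c) :=
          hgσ c
        rw [this]
        refine Subring.subset_closure (Set.mem_insert_of_mem _ ⟨σ c, ?_, rfl⟩)
        have h1 := spectralNorm_eq_of_equiv (K := ℚ_[p]) (L := k') (σ.restrictScalars ℚ_[p]) c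
        have h2 : spectralNorm ℚ_[p] k' (σ c) = spectralNorm ℚ_[p] k' c := h1.symm
        change spectralNorm ℚ_[p] k' (σ c) ≤ 1
        rw [h2]
        exact hc
    · intro hI c hc
      refine ⟨σ c - c, ?_, ?_⟩
      · have hcw : algebraMap k' Ω c ∈ R.w := (hM.int c).2 hc
        have hC : ∀ c : k', ((algebraMap k' (algebraicClosure k Ω) c : algebraicClosure k Ω) : Ω) =
            algebraMap k' Ω c := fun c =>
          (IsScalarTower.algebraMap_apply k' (algebraicClosure k Ω) Ω c).symm
        have h1 := hI (algebraMap k' (algebraicClosure k Ω) c) (by rw [hC]; exact hcw)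
        rw [hC, hσ] at h1
        have hσc : spectralNorm ℚ_[p] k' (σ c) ≤ 1 := by
          have h2 := spectralNorm_eq_of_equiv (K := ℚ_[p]) (L := k') (σ.restrictScalars ℚ_[p]) c
          have h3 : spectralNorm ℚ_[p] k' (σ c) = spectralNorm ℚ_[p] k' c := h2.symm
          rw [h3]
          exact hc
        have hσw : algebraMap k' Ω (σ c) ∈ R.w := (hM.int _).2 hσc
        have hd : R.res (algebraMap k' Ω (σ c - c)) = 0 := by
          rw [map_sub, R.res_sub hσw hcw, h1, sub_self]
        by_contra hcon
        rw [not_lt] at hcon
        have hd0 : σ c - c ≠ 0 := by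
          intro h0
          rw [h0, spectralNorm_zero] at hcon
          exact absurd hcon (by norm_num)
        have hmul : spectralNorm ℚ_[p] k' ((σ c - c) * (σ c - c)⁻¹) =
            spectralNorm ℚ_[p] k' (σ c - c) * spectralNorm ℚ_[p] k' (σ c - c)⁻¹ :=
          map_mul (spectralMulAlgNorm ℚ_[p] k') _ _
        have hone : spectralNorm ℚ_[p] k' 1 = 1 := map_one (spectralMulAlgNorm ℚ_[p] k')
        rw [mul_inv_cancel₀ hd0, hone] at hmul
        have hinv : spectralNorm ℚ_[p] k' (σ c - c)⁻¹ ≤ 1 := by
          have h5 : 0 ≤ spectralNorm ℚ_[p] k' (σ c - c)⁻¹ := spectralNorm_nonneg _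
          nlinarith
        have hw : algebraMap k' Ω (σ c - c) ∈ R.w := by
          rw [map_sub]; exact sub_mem hσw hcw
        have hw' : algebraMap k' Ω (σ c - c)⁻¹ ∈ R.w := (hM.int _).2 hinv
        have h6 := R.res_mul _ hw _ hw'
        rw [← map_mul, mul_inv_cancel₀ hd0, map_one, R.res_one, hd, zero_mul] at h6
        exact one_ne_zero h6
      · apply hinj
        rw [AlgEquiv.restrictNormal_commutes, ← IsScalarTower.algebraMap_apply k' K' Ω, hσ,
          ← IsScalarTower.algebraMap_apply k' K' Ω]
        congr 1
        ring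
  · intro s hs a
    have ha : a ∈ IntermediateField.adjoin K (Set.range (algebraMap k' K')) := by
      rw [hT.comp]; exact IntermediateField.mem_top
    induction ha using IntermediateField.adjoin_induction with
    | mem x hx =>
      obtain ⟨c, rfl⟩ := hx
      rw [← IsScalarTower.algebraMap_apply k' K' Ω]
      exact hs c
    | algebraMap x =>
      rw [← IsScalarTower.algebraMap_apply K K' Ω]
      exact s.commutes x
    | add x y _ _ hx hy => rw [map_add, map_add, hx, hy]
    | inv x _ hx => rw [map_inv₀, map_inv₀, hx]
    | mul x y _ _ hx hy => rw [map_mul, map_mul, hx, hy]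
  · intro g
    exact ⟨g.liftNormal Ω, fun a => AlgEquiv.liftNormal_commutes g Ω a⟩

end Pool.Agent.Lib.MP_c385f6_ag.TPG
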