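import Pool.Agent.Lib.MP_c385f6_ag.TPG.StG

/-!
Project TPG, G14: lifting of sections.
-/

set_option autoImplicit false

open Polynomial

namespace Pool.Agent.Lib.MP_c385f6_ag.TPG

universe u v u' v'

namespace LiftV

variable {p : ℕ} [Fact p.Prime] {k : Type} {E : Type v} [Field k] [Algebra ℚ_[p] k] [Field E]
  [Algebra k E]

theorem self_mem (z : E) : z ∈ modelRing p k z :=
  (integralClosure (Subring.closure
    (insert z (algebraMap k E '' {c : k | spectralNorm ℚ_[p] k c ≤ 1}))) E).algebraMap_mem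
    ⟨z, Subring.subset_closure (Set.mem_insert _ _)⟩

theorem const_mem (z : E) {c : k} (hc : spectralNorm ℚ_[p] k c ≤ 1) :
    algebraMap k E c ∈ modelRing p k z :=
  (integralClosure (Subring.closure
    (insert z (algebraMap k E '' {c : k | spectralNorm ℚ_[p] k c ≤ 1}))) E).algebraMap_mem
    ⟨algebraMap k E c, Subring.subset_closure (Set.mem_insert_of_mem _ ⟨c, hc, rfl⟩)⟩

/-- splitting a polynomial into nonnegative and negative powers -/
theorem split {t : E} (ht : t ≠ 0) (q : k[X]) (hq : ∀ i, spectralNorm ℚ_[p] k (q.coeff i) ≤ 1)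
    (M : ℕ) : ∃ u ∈ modelRing p k t, ∃ w ∈ modelRing p k t⁻¹, aeval t q = t ^ M * (u + w) := by
  refine ⟨∑ i ∈ (Finset.range (q.natDegree + 1)).filter (fun i => M ≤ i),
    algebraMap k E (q.coeff i) * t ^ (i - M), sum_mem fun i _ => mul_mem (const_mem t (hq i))
      (pow_mem (self_mem t) _), ∑ i ∈ (Finset.range (q.natDegree + 1)).filter (fun i => ¬ M ≤ i),
    algebraMap k E (q.coeff i) * t⁻¹ ^ (M - i), sum_mem fun i _ => mul_mem (const_mem t⁻¹ (hq i))
      (pow_mem (self_mem t⁻¹) _), ?_⟩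
  rw [Polynomial.aeval_eq_sum_range, mul_add, Finset.mul_sum, Finset.mul_sum,
    ← Finset.sum_filter_add_sum_filter_not (Finset.range (q.natDegree + 1)) (fun i => M ≤ i)]
  congr 1
  · refine Finset.sum_congr rfl fun i hi => ?_
    rw [Finset.mem_filter] at hi
    rw [Algebra.smul_def, mul_left_comm, ← pow_add, Nat.add_sub_cancel' hi.2]
  · refine Finset.sum_congr rfl fun i hi => ?_
    rw [Finset.mem_filter, not_le] at hi
    have e : t ^ M = t ^ i * t ^ (M - i) := by rw [← pow_add, Nat.add_sub_cancel' hi.2.le]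
    rw [Algebra.smul_def, e, inv_pow]
    field_simp

end LiftV

/-- **G14.** Lifting of sections. -/
theorem stLiftV (h1 : StMA.{u, v, u', v'}) (h2 : StFG.{v}) (h3 : StFrc.{u, v, u', v'}) :
    StLiftV.{u, v, u', v'} := by
  intro p _ k' K' Ω C F U _ _ _ _ _ _ _ _ _ _ _ _ _ _ _ _ _ _ _ R t hM
  obtain ⟨⟨π, hπ0, hπ1, hπ⟩, hunit, -⟩ := h3 p k' K' Ω C F U R t hM
  have hMA := h1 p k' K' Ω C F U R t hM
  have ht0 : t ≠ 0 := by
    rintro h0
    exact hM.ftr (h0 ▸ isAlgebraic_zero)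
  have htinv : (t⁻¹)⁻¹ = t := inv_inv t
  have ftr' : Transcendental k' t⁻¹ := fun h => hM.ftr (by
    have h4 := h.inv
    rwa [htinv] at h4)
  have hadj : IntermediateField.adjoin k' {t⁻¹} = IntermediateField.adjoin k' {t} := by
    refine le_antisymm ?_ ?_
    · rw [IntermediateField.adjoin_simple_le_iff]
      exact inv_mem (IntermediateField.mem_adjoin_simple_self k' t)
    · rw [IntermediateField.adjoin_simple_le_iff]
      have h4 := inv_mem (IntermediateField.mem_adjoin_simple_self k' t⁻¹)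
      rwa [htinv] at h4
  have fin' : FiniteDimensional (IntermediateField.adjoin k' {t⁻¹}) K' := by
    rw [hadj]
    exact hM.fin
  obtain ⟨⟨r, z, hz, hgen⟩, hlow⟩ := h2 p k' K' t hM.ftr hM.fin
  obtain ⟨-, hlow'⟩ := h2 p k' K' t⁻¹ ftr' fin'
  rw [htinv] at hlow'
  choose N hN using fun j => hlow (z j) (hz j)
  -- residues
  have hmt : ∀ a ∈ modelRing p k' t, algebraMap K' Ω a ∈ R.w := fun a ha =>
    (hMA t (Set.mem_insert _ _) ⟨a, ha⟩).1
  have hmt' : ∀ a ∈ modelRing p k' t⁻¹, algebraMap K' Ω a ∈ R.w := fun a ha =>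
    (hMA t⁻¹ (Set.mem_insert_of_mem _ rfl) ⟨a, ha⟩).1
  have hrp : ∀ m : ℕ, R.res (algebraMap K' Ω t ^ m) = R.res (algebraMap K' Ω t) ^ m := fun m =>
    map_pow R.hom ⟨_, hM.mem⟩ m
  have hπr : R.res (algebraMap K' Ω (algebraMap k' K' π)) = 0 := by
    rw [← IsScalarTower.algebraMap_apply]
    by_contra h4
    exact hπ1.ne ((hunit π).1 h4)
  -- elements with residue zero
  have hzero : ∀ a ∈ modelRing p k' t, R.res (algebraMap K' Ω a) = 0 →
      ∃ a' ∈ modelRing p k' t, a = algebraMap k' K' π * a' := by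
    intro a ha ha0
    have h4 := (hMA t (Set.mem_insert _ _) ⟨a, ha⟩).2.1 ha0
    have h5 : modelIdeal p k' t ≤ Ideal.span {(⟨algebraMap k' K' π, LiftV.const_mem t hπ1.le⟩ :
        modelRing p k' t)} := by
      refine Ideal.span_le.2 ?_
      rintro x ⟨c, hc, hx⟩
      rw [SetLike.mem_coe, Ideal.mem_span_singleton]
      have h6 : spectralNorm ℚ_[p] k' (c / π) ≤ 1 := by
        have h7 : spectralNorm ℚ_[p] k' c =
            spectralNorm ℚ_[p] k' π * spectralNorm ℚ_[p] k' (c / π) := by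
          have h8 := map_mul (spectralMulAlgNorm ℚ_[p] k') π (c / π)
          rw [mul_div_cancel₀ _ hπ0] at h8
          exact h8
        have h8 : 0 < spectralNorm ℚ_[p] k' π :=
          spectralNorm_zero_lt hπ0 (Algebra.IsAlgebraic.isAlgebraic π)
        have h9 := hπ c hc
        rw [h7] at h9
        by_contra h10
        rw [not_le] at h10
        nlinarith
      refine ⟨⟨algebraMap k' K' (c / π), LiftV.const_mem t h6⟩, Subtype.ext ?_⟩
      change (x : K') = algebraMap k' K' π * algebraMap k' K' (c / π)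
      rw [hx, ← map_mul, mul_div_cancel₀ _ hπ0]
    obtain ⟨a', ha'⟩ := Ideal.mem_span_singleton.1 (h5 h4)
    exact ⟨a', a'.2, congrArg Subtype.val ha'⟩
  refine ⟨Finset.univ.sup N, fun m hm a ha b hb hab => ?_⟩
  obtain ⟨M, hMb⟩ := hlow' b hb
  have hδ : t ^ M * (a - t ^ m * b) ∈ modelRing p k' t := by
    have e : t ^ M * (a - t ^ m * b) = t ^ M * a - t ^ m * (b * t ^ M) := by ring
    rw [e]
    exact sub_mem (mul_mem (pow_mem (LiftV.self_mem t) _) ha)
      (mul_mem (pow_mem (LiftV.self_mem t) _) (hMb M le_rfl))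
  have hδ0 : R.res (algebraMap K' Ω (t ^ M * (a - t ^ m * b))) = 0 := by
    have h4 : algebraMap K' Ω (t ^ m * b) ∈ R.w := by
      rw [map_mul, map_pow]
      exact mul_mem (pow_mem hM.mem m) (hmt' b hb)
    have h5 : algebraMap K' Ω (a - t ^ m * b) ∈ R.w := by
      rw [map_sub]
      exact sub_mem (hmt a ha) h4
    have h6 : R.res (algebraMap K' Ω (a - t ^ m * b)) = 0 := by
      rw [map_sub, R.res_sub (hmt a ha) h4, map_mul, map_pow,
        R.res_mul _ (pow_mem hM.mem m) _ (hmt' b hb), hrp, hab, sub_self]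
    rw [map_mul, map_pow, R.res_mul _ (pow_mem hM.mem M) _ h5, h6, mul_zero]
  obtain ⟨a'', ha'', hea⟩ := hzero _ hδ hδ0
  obtain ⟨q, hq, hqa⟩ := hgen a'' ha''
  choose c hc w hw hcw using fun j => LiftV.split ht0 (q j) (hq j) M
  have htM : t ^ M ≠ 0 := pow_ne_zero _ ht0
  have htm : t ^ m ≠ 0 := pow_ne_zero _ ht0
  have hkey : a - t ^ m * b = algebraMap k' K' π * (∑ j, c j * z j) +
      t ^ m * (algebraMap k' K' π * ∑ j, w j * (z j * t⁻¹ ^ m)) := by
    refine mul_left_cancel₀ htM ?_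
    rw [hea, hqa]
    have e1 : ∀ j, aeval t (q j) * z j =
        t ^ M * (c j * z j) + t ^ M * (t ^ m * (w j * (z j * t⁻¹ ^ m))) := by
      intro j
      rw [hcw j, inv_pow]
      field_simp
    simp only [e1, Finset.sum_add_distrib, ← Finset.mul_sum]
    ring
  have hc1 : ∑ j, c j * z j ∈ modelRing p k' t := sum_mem fun j _ => mul_mem (hc j) (hz j)
  have hc2 : ∑ j, w j * (z j * t⁻¹ ^ m) ∈ modelRing p k' t⁻¹ := sum_mem fun j _ =>
    mul_mem (hw j) (hN j m (le_trans (Finset.le_sup (Finset.mem_univ j)) hm))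
  have hπc : algebraMap k' K' π * ∑ j, c j * z j ∈ modelRing p k' t :=
    mul_mem (LiftV.const_mem t hπ1.le) hc1
  refine ⟨a - algebraMap k' K' π * ∑ j, c j * z j, sub_mem ha hπc, ?_, ?_⟩
  · have e : (a - algebraMap k' K' π * ∑ j, c j * z j) * t⁻¹ ^ m =
        b + algebraMap k' K' π * ∑ j, w j * (z j * t⁻¹ ^ m) := by
      have e1 : a - algebraMap k' K' π * ∑ j, c j * z j =
          t ^ m * (b + algebraMap k' K' π * ∑ j, w j * (z j * t⁻¹ ^ m)) := by
        linear_combination hkey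
      rw [e1, inv_pow]
      field_simp
    rw [e]
    exact add_mem hb (mul_mem (LiftV.const_mem t⁻¹ hπ1.le) hc2)
  · rw [map_sub, R.res_sub (hmt a ha) (hmt _ hπc), map_mul,
      R.res_mul _ (hmt _ (LiftV.const_mem t hπ1.le)) _ (hmt _ hc1), hπr, zero_mul, sub_zero]

end Pool.Agent.Lib.MP_c385f6_ag.TPG
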