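import Pool.Agent.Lib.MP_c385f6_ag.TPG.GDefs
import Pool.Agent.Lib.MP_c385f6_ag.TPG.StE

/-!
Project TPG, part G: from a good model of `K'` (at the level of a `p`-adic field `k'`) to the good
reduction of `L = K' C` over the algebraically closed field `C`.
-/

set_option autoImplicit false

open Polynomial

namespace Pool.Agent.Lib.MP_c385f6_ag.TPG

universe u v u' v'

/-- `[L : C(t)] = [Λ : F(t̄)]`, with transcendental `t̄`. -/
structure DegEq {C : Type u} {L : Type v} {F : Type u'} {Λ : Type v'} [Field C] [Field L] [Field F]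
    [Field Λ] [Algebra C L] [Algebra F Λ] (R : Red C L F Λ) (t : L) : Prop where
  mem : t ∈ R.w
  trans : Transcendental F (R.res t)
  finC : FiniteDimensional (IntermediateField.adjoin C {t}) L
  finF : FiniteDimensional (IntermediateField.adjoin F {R.res t}) Λ
  deg : Module.finrank (IntermediateField.adjoin C {t}) L =
    Module.finrank (IntermediateField.adjoin F {R.res t}) Λ

/-- G0. The residue field of `C` is an algebraic closure of the prime field. -/
def StFp : Prop :=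
  ∀ (p : ℕ) [Fact p.Prime] (k' : Type) (K' Ω : Type v) (C : Type u) (F : Type u') (U : Type v')
    [Field k'] [Field K'] [Field Ω] [Field C] [IsAlgClosed C] [Field F] [IsAlgClosed F] [Field U]
    [Algebra ℚ_[p] k'] [FiniteDimensional ℚ_[p] k'] [Algebra k' K'] [Algebra K' Ω] [Algebra C Ω]
    [Algebra k' Ω] [Algebra k' C] [IsScalarTower k' K' Ω] [IsScalarTower k' C Ω]
    [Algebra.IsAlgebraic k' C] [Algebra F U] (R : Red C Ω F U) (t : K'), Mdl p k' R t →
    FpBar p F

/-- G1. The special fibre `A(z) / m A(z)` embeds in the residue field. -/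
def StMA : Prop :=
  ∀ (p : ℕ) [Fact p.Prime] (k' : Type) (K' Ω : Type v) (C : Type u) (F : Type u') (U : Type v')
    [Field k'] [Field K'] [Field Ω] [Field C] [IsAlgClosed C] [Field F] [IsAlgClosed F] [Field U]
    [Algebra ℚ_[p] k'] [FiniteDimensional ℚ_[p] k'] [Algebra k' K'] [Algebra K' Ω] [Algebra C Ω]
    [Algebra k' Ω] [Algebra k' C] [IsScalarTower k' K' Ω] [IsScalarTower k' C Ω]
    [Algebra.IsAlgebraic k' C] [Algebra F U] (R : Red C Ω F U) (t : K'), Mdl p k' R t →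
    ∀ z ∈ ({t, t⁻¹} : Set K'), ∀ a : modelRing p k' z,
      algebraMap K' Ω a ∈ R.w ∧ (R.res (algebraMap K' Ω a) = 0 ↔ a ∈ modelIdeal p k' z)

/-- G2. Finite generation of `A(t)` over `O[t]`; the elements of `A(t) t ^ (-m)` are in `A(1/t)` for
large `m`. -/
def StFG : Prop :=
  ∀ (p : ℕ) [Fact p.Prime] (k' : Type) (K' : Type v) [Field k'] [Field K'] [Algebra ℚ_[p] k']
    [FiniteDimensional ℚ_[p] k'] [Algebra k' K'] (t : K'), Transcendental k' t →
    FiniteDimensional (IntermediateField.adjoin k' {t}) K' →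
    (∃ (r : ℕ) (z : Fin r → K'), (∀ j, z j ∈ modelRing p k' t) ∧
      ∀ a ∈ modelRing p k' t, ∃ q : Fin r → k'[X],
        (∀ j i, spectralNorm ℚ_[p] k' ((q j).coeff i) ≤ 1) ∧ a = ∑ j, aeval t (q j) * z j) ∧
    ∀ a ∈ modelRing p k' t, ∃ N : ℕ, ∀ m ≥ N, a * t⁻¹ ^ m ∈ modelRing p k' t⁻¹

/-- G3. Uniformizers of `k'`; the elements of `K' ∩ w` are quotients `a / b` with `a, b ∈ A(z)`,
`b ∉ m A(z)`. -/
def StFrc : Prop :=
  ∀ (p : ℕ) [Fact p.Prime] (k' : Type) (K' Ω : Type v) (C : Type u) (F : Type u') (U : Type v')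
    [Field k'] [Field K'] [Field Ω] [Field C] [IsAlgClosed C] [Field F] [IsAlgClosed F] [Field U]
    [Algebra ℚ_[p] k'] [FiniteDimensional ℚ_[p] k'] [Algebra k' K'] [Algebra K' Ω] [Algebra C Ω]
    [Algebra k' Ω] [Algebra k' C] [IsScalarTower k' K' Ω] [IsScalarTower k' C Ω]
    [Algebra.IsAlgebraic k' C] [Algebra F U] (R : Red C Ω F U) (t : K'), Mdl p k' R t →
    (∃ π : k', π ≠ 0 ∧ spectralNorm ℚ_[p] k' π < 1 ∧
      ∀ c : k', spectralNorm ℚ_[p] k' c < 1 →
        spectralNorm ℚ_[p] k' c ≤ spectralNorm ℚ_[p] k' π) ∧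
    (∀ c : k', R.res (algebraMap k' Ω c) ≠ 0 ↔ spectralNorm ℚ_[p] k' c = 1) ∧
    ∀ z ∈ ({t, t⁻¹} : Set K'), ∀ f : K', algebraMap K' Ω f ∈ R.w →
      ∃ a ∈ modelRing p k' z, ∃ b ∈ modelRing p k' z, R.res (algebraMap K' Ω b) ≠ 0 ∧ f * b = a

/-- G4. The special fibre is integrally closed, and its constants are the residues of `k'`. -/
def StNrm : Prop :=
  ∀ (p : ℕ) [Fact p.Prime] (k' : Type) (K' Ω : Type v) (C : Type u) (F : Type u') (U : Type v')
    [Field k'] [Field K'] [Field Ω] [Field C] [IsAlgClosed C] [Field F] [IsAlgClosed F] [Field U]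
    [Algebra ℚ_[p] k'] [FiniteDimensional ℚ_[p] k'] [Algebra k' K'] [Algebra K' Ω] [Algebra C Ω]
    [Algebra k' Ω] [Algebra k' C] [IsScalarTower k' K' Ω] [IsScalarTower k' C Ω]
    [Algebra.IsAlgebraic k' C] [Algebra F U] (R : Red C Ω F U) (t : K'), Mdl p k' R t →
    (∀ z ∈ ({t, t⁻¹} : Set K'), ∀ f : K', algebraMap K' Ω f ∈ R.w →
      IsIntegral (Algebra.adjoin F {R.res (algebraMap K' Ω z)}) (R.res (algebraMap K' Ω f)) →
      ∃ a ∈ modelRing p k' z, R.res (algebraMap K' Ω a) = R.res (algebraMap K' Ω f)) ∧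
    ∀ f : K', algebraMap K' Ω f ∈ R.w → ∀ c : F, R.res (algebraMap K' Ω f) = algebraMap F U c →
      ∃ b : k', spectralNorm ℚ_[p] k' b ≤ 1 ∧ R.res (algebraMap k' Ω b) = algebraMap F U c

/-- G5. Linear disjointness: elements `c i` of `F` that are linearly independent over the residue
field of `k'` are linearly independent over the residue field of `K'`. -/
def StLD : Prop :=
  ∀ (p : ℕ) [Fact p.Prime] (k' : Type) (K' Ω : Type v) (C : Type u) (F : Type u') (U : Type v')
    [Field k'] [Field K'] [Field Ω] [Field C] [IsAlgClosed C] [Field F] [IsAlgClosed F] [Field U]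
    [Algebra ℚ_[p] k'] [FiniteDimensional ℚ_[p] k'] [Algebra k' K'] [Algebra K' Ω] [Algebra C Ω]
    [Algebra k' Ω] [Algebra k' C] [IsScalarTower k' K' Ω] [IsScalarTower k' C Ω]
    [Algebra.IsAlgebraic k' C] [Algebra F U] (R : Red C Ω F U) (t : K'), Mdl p k' R t →
    ∀ (n : ℕ) (c : Fin n → F),
      (∀ b : Fin n → k', (∀ i, spectralNorm ℚ_[p] k' (b i) ≤ 1) →
        ∑ i, R.res (algebraMap k' Ω (b i)) * algebraMap F U (c i) = 0 →
        ∀ i, spectralNorm ℚ_[p] k' (b i) < 1) →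
      ∀ a : Fin n → K', (∀ i, algebraMap K' Ω (a i) ∈ R.w) →
        ∑ i, R.res (algebraMap K' Ω (a i)) * algebraMap F U (c i) = 0 →
        ∀ i, R.res (algebraMap K' Ω (a i)) = 0

/-- G6. A basis of `K' / k'(t)` in `A(t)` with residues that are linearly independent over
`F'(t̄)`, `F'` the residue field of `k'`. -/
def StBas : Prop :=
  ∀ (p : ℕ) [Fact p.Prime] (k' : Type) (K' Ω : Type v) (C : Type u) (F : Type u') (U : Type v')
    [Field k'] [Field K'] [Field Ω] [Field C] [IsAlgClosed C] [Field F] [IsAlgClosed F] [Field U]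
    [Algebra ℚ_[p] k'] [FiniteDimensional ℚ_[p] k'] [Algebra k' K'] [Algebra K' Ω] [Algebra C Ω]
    [Algebra k' Ω] [Algebra k' C] [IsScalarTower k' K' Ω] [IsScalarTower k' C Ω]
    [Algebra.IsAlgebraic k' C] [Algebra F U] (R : Red C Ω F U) (t : K'), Mdl p k' R t →
    ∃ (d : ℕ) (y : Fin d → K'), (∀ i, y i ∈ modelRing p k' t) ∧
      Submodule.span (IntermediateField.adjoin k' {t}) (Set.range y) = ⊤ ∧
      ∀ q : Fin d → k'[X], (∀ i j, spectralNorm ℚ_[p] k' ((q i).coeff j) ≤ 1) →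
        R.res (algebraMap K' Ω (∑ i, aeval t (q i) * y i)) = 0 →
        ∀ i j, spectralNorm ℚ_[p] k' ((q i).coeff j) < 1

/-- G7. A basis of `K' / k'(t)` in `A(t)` with residues that are linearly independent over
`F(t̄)`. -/
def StBasC : Prop :=
  ∀ (p : ℕ) [Fact p.Prime] (k' : Type) (K' Ω : Type v) (C : Type u) (F : Type u') (U : Type v')
    [Field k'] [Field K'] [Field Ω] [Field C] [IsAlgClosed C] [Field F] [IsAlgClosed F] [Field U]
    [Algebra ℚ_[p] k'] [FiniteDimensional ℚ_[p] k'] [Algebra k' K'] [Algebra K' Ω] [Algebra C Ω]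
    [Algebra k' Ω] [Algebra k' C] [IsScalarTower k' K' Ω] [IsScalarTower k' C Ω]
    [Algebra.IsAlgebraic k' C] [Algebra F U] (R : Red C Ω F U) (t : K'), Mdl p k' R t →
    ∃ (d : ℕ) (y : Fin d → K'), (∀ i, y i ∈ modelRing p k' t) ∧
      Submodule.span (IntermediateField.adjoin k' {t}) (Set.range y) = ⊤ ∧
      LinearIndependent (IntermediateField.adjoin F {R.res (algebraMap K' Ω t)})
        fun i => R.res (algebraMap K' Ω (y i))

/-- G8. The degrees of `L / C(t)` and of its residue field are equal; the elements of `L ∩ w`. -/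
def StLvl : Prop :=
  ∀ (p : ℕ) [Fact p.Prime] (k' : Type) (K' Ω : Type v) (C : Type u) (F : Type u') (U : Type v')
    [Field k'] [Field K'] [Field Ω] [Field C] [IsAlgClosed C] [Field F] [IsAlgClosed F] [Field U]
    [Algebra ℚ_[p] k'] [FiniteDimensional ℚ_[p] k'] [Algebra k' K'] [Algebra K' Ω] [Algebra C Ω]
    [Algebra k' Ω] [Algebra k' C] [IsScalarTower k' K' Ω] [IsScalarTower k' C Ω]
    [Algebra.IsAlgebraic k' C] [Algebra F U] (R : Red C Ω F U) (t : K'), Mdl p k' R t →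
    ∀ L : IntermediateField C Ω, L = IntermediateField.adjoin C (Set.range (algebraMap K' Ω)) →
    (∀ t' : L, (t' : Ω) = algebraMap K' Ω t → DegEq (R.sub L) t') ∧
    ∀ (d : ℕ) (y : Fin d → K'), (∀ i, y i ∈ modelRing p k' t) →
      Submodule.span (IntermediateField.adjoin k' {t}) (Set.range y) = ⊤ →
      LinearIndependent (IntermediateField.adjoin F {R.res (algebraMap K' Ω t)})
        (fun i => R.res (algebraMap K' Ω (y i))) →
      ∀ f : Ω, f ∈ L → f ∈ R.w → ∃ c : Fin d → Ω,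
        (∀ i, c i ∈ IntermediateField.adjoin C {algebraMap K' Ω t}) ∧ (∀ i, c i ∈ R.w) ∧
        f = ∑ i, c i * algebraMap K' Ω (y i)

/-- G9. Orthonormal bases exist if `[L : C(t)] = [Λ : F(t̄)]`. -/
def StONd : Prop :=
  ∀ (C : Type u) (L : Type v) (F : Type u') (Λ : Type v') [Field C] [IsAlgClosed C] [Field L]
    [Field F] [Field Λ] [Algebra C L] [Algebra F Λ] (R : Red C L F Λ) (t : L), DegEq R t →
    FF C L ∧ FF F Λ ∧
    ∀ V : Submodule C L, FiniteDimensional C V → ∃ (r : ℕ) (e : Fin r → L),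
      (∀ i, e i ∈ R.w) ∧ LinearIndependent F (fun i => R.res (e i)) ∧
      Submodule.span C (Set.range e) = V

/-- G10. The spaces `L(m (t)_∞)`. -/
def StPl : Prop :=
  ∀ (F : Type u) (W : Type v) [Field F] [IsAlgClosed F] [Field W] [Algebra F W] (t : W), FF F W →
    Transcendental F t → ∀ m : ℕ,
      dg (pl F t m) = m * Module.finrank (IntermediateField.adjoin F {t}) W ∧
      ∀ f : W, f ∈ RR (pl F t m) ↔ IsIntegral (Algebra.adjoin F {t}) f ∧
        IsIntegral (Algebra.adjoin F {t⁻¹}) (f * t⁻¹ ^ m)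

/-- G11. Integral elements have integral residues. -/
def StInt : Prop :=
  ∀ (C : Type u) (L : Type v) (F : Type u') (Λ : Type v') [Field C] [IsAlgClosed C] [Field L]
    [Field F] [Field Λ] [Algebra C L] [Algebra F Λ] (R : Red C L F Λ) (t : L), DegEq R t →
    ∀ f ∈ R.w, IsIntegral (Algebra.adjoin C {t}) f →
      IsIntegral (Algebra.adjoin F {R.res t}) (R.res f)

/-- G12. `l(m (t)_∞) ≤ l(m (t̄)_∞)`. -/
def StEllLe : Prop :=
  ∀ (C : Type u) (L : Type v) (F : Type u') (Λ : Type v') [Field C] [IsAlgClosed C] [Field L]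
    [Field F] [IsAlgClosed F] [Field Λ] [Algebra C L] [Algebra F Λ] (R : Red C L F Λ) (t : L),
    DegEq R t → ∀ m : ℕ, ell (pl C t m) ≤ ell (pl F (R.res t) m)

/-- G13. Every element `y` of the residue field of `L` is `∑ c i * f i` with `c i ∈ F` and `f i` in
the residue field of `K'`, where the `f i` inherit integrality properties. -/
def StTr : Prop :=
  ∀ (p : ℕ) [Fact p.Prime] (k' : Type) (K' Ω : Type v) (C : Type u) (F : Type u') (U : Type v')
    [Field k'] [Field K'] [Field Ω] [Field C] [IsAlgClosed C] [Field F] [IsAlgClosed F] [Field U]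
    [Algebra ℚ_[p] k'] [FiniteDimensional ℚ_[p] k'] [Algebra k' K'] [Algebra K' Ω] [Algebra C Ω]
    [Algebra k' Ω] [Algebra k' C] [IsScalarTower k' K' Ω] [IsScalarTower k' C Ω]
    [Algebra.IsAlgebraic k' C] [Algebra F U] (R : Red C Ω F U) (t : K'), Mdl p k' R t →
    ∀ L : IntermediateField C Ω, L = IntermediateField.adjoin C (Set.range (algebraMap K' Ω)) →
    ∀ y ∈ R.img L, ∃ (n : ℕ) (c : Fin n → F) (f : Fin n → K'),
      (∀ i, algebraMap K' Ω (f i) ∈ R.w) ∧
      y = ∑ i, algebraMap F U (c i) * R.res (algebraMap K' Ω (f i)) ∧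
      ∀ z ∈ ({t, t⁻¹} : Set K'), ∀ h : K', algebraMap K' Ω h ∈ R.w →
        IsIntegral (Algebra.adjoin F {R.res (algebraMap K' Ω z)})
          (y * R.res (algebraMap K' Ω h)) →
        ∀ i, IsIntegral (Algebra.adjoin F {R.res (algebraMap K' Ω z)})
          (R.res (algebraMap K' Ω (f i)) * R.res (algebraMap K' Ω h))

/-- G14. Lifting of sections. -/
def StLiftV : Prop :=
  ∀ (p : ℕ) [Fact p.Prime] (k' : Type) (K' Ω : Type v) (C : Type u) (F : Type u') (U : Type v')
    [Field k'] [Field K'] [Field Ω] [Field C] [IsAlgClosed C] [Field F] [IsAlgClosed F] [Field U]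
    [Algebra ℚ_[p] k'] [FiniteDimensional ℚ_[p] k'] [Algebra k' K'] [Algebra K' Ω] [Algebra C Ω]
    [Algebra k' Ω] [Algebra k' C] [IsScalarTower k' K' Ω] [IsScalarTower k' C Ω]
    [Algebra.IsAlgebraic k' C] [Algebra F U] (R : Red C Ω F U) (t : K'), Mdl p k' R t →
    ∃ N : ℕ, ∀ m ≥ N, ∀ a ∈ modelRing p k' t, ∀ b ∈ modelRing p k' t⁻¹,
      R.res (algebraMap K' Ω a) = R.res (algebraMap K' Ω t) ^ m * R.res (algebraMap K' Ω b) →
      ∃ f ∈ modelRing p k' t, f * t⁻¹ ^ m ∈ modelRing p k' t⁻¹ ∧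
        R.res (algebraMap K' Ω f) = R.res (algebraMap K' Ω a)

/-- G15. `l(m (t̄)_∞) ≤ l(m (t)_∞)` for large `m`. -/
def StEllGe : Prop :=
  ∀ (p : ℕ) [Fact p.Prime] (k' : Type) (K' Ω : Type v) (C : Type u) (F : Type u') (U : Type v')
    [Field k'] [Field K'] [Field Ω] [Field C] [IsAlgClosed C] [Field F] [IsAlgClosed F] [Field U]
    [Algebra ℚ_[p] k'] [FiniteDimensional ℚ_[p] k'] [Algebra k' K'] [Algebra K' Ω] [Algebra C Ω]
    [Algebra k' Ω] [Algebra k' C] [IsScalarTower k' K' Ω] [IsScalarTower k' C Ω]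
    [Algebra.IsAlgebraic k' C] [Algebra F U] (R : Red C Ω F U) (t : K'), Mdl p k' R t →
    ∀ L : IntermediateField C Ω, L = IntermediateField.adjoin C (Set.range (algebraMap K' Ω)) →
    ∀ t' : L, (t' : Ω) = algebraMap K' Ω t → ∃ N : ℕ, ∀ m ≥ N,
      ell (pl F ((R.sub L).res t') m) ≤ ell (pl C t' m)

/-- G16. `L = K' C` has good reduction. -/
def StGoodL : Prop :=
  ∀ (p : ℕ) [Fact p.Prime] (k' : Type) (K' Ω : Type v) (C : Type u) (F : Type u') (U : Type v')
    [Field k'] [Field K'] [Field Ω] [Field C] [IsAlgClosed C] [Field F] [IsAlgClosed F] [Field U]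
    [Algebra ℚ_[p] k'] [FiniteDimensional ℚ_[p] k'] [Algebra k' K'] [Algebra K' Ω] [Algebra C Ω]
    [Algebra k' Ω] [Algebra k' C] [IsScalarTower k' K' Ω] [IsScalarTower k' C Ω]
    [Algebra.IsAlgebraic k' C] [Algebra F U] (R : Red C Ω F U) (t : K'), Mdl p k' R t →
    ∀ L : IntermediateField C Ω, L = IntermediateField.adjoin C (Set.range (algebraMap K' Ω)) →
    ∃ g : ℕ, Good (R.sub L) g

/-- G17. Embeddings of `L = K' C` that are compatible with the valuation on `C` and with `t` preserve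
`L ∩ w`. -/
def StStab : Prop :=
  ∀ (p : ℕ) [Fact p.Prime] (k' : Type) (K' Ω : Type v) (C : Type u) (F : Type u') (U : Type v')
    [Field k'] [Field K'] [Field Ω] [Field C] [IsAlgClosed C] [Field F] [IsAlgClosed F] [Field U]
    [Algebra ℚ_[p] k'] [FiniteDimensional ℚ_[p] k'] [Algebra k' K'] [Algebra K' Ω] [Algebra C Ω]
    [Algebra k' Ω] [Algebra k' C] [IsScalarTower k' K' Ω] [IsScalarTower k' C Ω]
    [Algebra.IsAlgebraic k' C] [Algebra F U] (R : Red C Ω F U) (t : K'), Mdl p k' R t →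
    ∀ L : IntermediateField C Ω, L = IntermediateField.adjoin C (Set.range (algebraMap K' Ω)) →
    ∀ τ : L →+* Ω,
      (∀ c : C, ∃ c' : C, τ (algebraMap C L c) = algebraMap C Ω c' ∧
        (R.v c ≤ 1 → R.v c' ≤ 1) ∧ (R.v c < 1 → R.v c' < 1)) →
      (∀ f : L, (f : Ω) = algebraMap K' Ω t → τ f = algebraMap K' Ω t) →
      (∀ a ∈ modelRing p k' t, ∀ f : L, (f : Ω) = algebraMap K' Ω a →
        ∃ a' ∈ modelRing p k' t, τ f = algebraMap K' Ω a') →
      ∀ f : L, (f : Ω) ∈ R.w → τ f ∈ R.w ∧ (R.res f = 0 → R.res (τ f) = 0)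

end Pool.Agent.Lib.MP_c385f6_ag.TPG
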