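import Mathlib
import Pool.Agent.Lib.MP_c385f6_ag.TPG.StG
import Pool.Agent.Lib.MP_c385f6_ag.TPG.CLin

/-!
Project TPG, G17: stability of the valuation ring of `L`.
-/

set_option autoImplicit false

open Polynomial

namespace Pool.Agent.Lib.MP_c385f6_ag.TPG

universe u v u' v'

namespace StabAux

open Lin

section Model

variable {p : ℕ} [Fact p.Prime] {k' : Type} {K' Ω : Type v} {C : Type u} {F : Type u'}
  {U : Type v'} [Field k'] [Field K'] [Field Ω] [Field C] [Field F] [Field U]
  [Algebra ℚ_[p] k'] [Algebra k' K'] [Algebra K' Ω] [Algebra C Ω] [Algebra k' Ω]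
  [IsScalarTower k' K' Ω] [Algebra F U] {R : Red C Ω F U} {t : K'}

/-- `A(t)` is contained in `w`. -/
theorem model_mem (hM : Mdl p k' R t) {a : K'} (ha : a ∈ modelRing p k' t) :
    algebraMap K' Ω a ∈ R.w := by
  set S : Subring K' := Subring.closure
    (insert t (algebraMap k' K' '' {c : k' | spectralNorm ℚ_[p] k' c ≤ 1})) with hS
  have h1 : S ≤ R.w.toSubring.comap (algebraMap K' Ω) := by
    rw [hS, Subring.closure_le]
    rintro x (rfl | ⟨c, hc, rfl⟩)
    · exact hM.mem
    · change algebraMap K' Ω (algebraMap k' K' c) ∈ R.w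
      rw [← IsScalarTower.algebraMap_apply k' K' Ω]
      exact (hM.int c).2 hc
  obtain ⟨P, hP, hPa⟩ : IsIntegral S a := ha
  let φ : S →+* R.w := ((algebraMap K' Ω).comp S.subtype).codRestrict R.w.toSubring
    (fun s => h1 s.2)
  have h2 : IsIntegral R.w (algebraMap K' Ω a) := by
    refine ⟨P.map φ, hP.map _, ?_⟩
    rw [eval₂_map]
    have h3 : (algebraMap R.w Ω).comp φ = (algebraMap K' Ω).comp (algebraMap S K') := rfl
    rw [h3, ← hom_eval₂, hPa, map_zero]
  obtain ⟨b, hb⟩ := IsIntegrallyClosed.isIntegral_iff.1 h2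
  rw [← hb]
  exact b.2

end Model

section Tau

variable {Ω : Type v} {C : Type u} {F : Type u'} {U : Type v'} [Field Ω] [Field C] [Field F]
  [Field U] [Algebra C Ω] [Algebra F U] {R : Red C Ω F U} {L : IntermediateField C Ω}
  {τ : L →+* Ω}

/-- the action on constants -/
noncomputable def sg0 (h : ∀ c : C, ∃ c' : C, τ (algebraMap C L c) = algebraMap C Ω c')
    (c : C) : C := (h c).choose

theorem sg0_spec (h : ∀ c : C, ∃ c' : C, τ (algebraMap C L c) = algebraMap C Ω c') (c : C) :
    algebraMap C Ω (sg0 h c) = τ (algebraMap C L c) := (h c).choose_spec.symm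

/-- the action on constants -/
noncomputable def sg (h : ∀ c : C, ∃ c' : C, τ (algebraMap C L c) = algebraMap C Ω c') :
    C →+* C where
  toFun := sg0 h
  map_one' := by
    apply (algebraMap C Ω).injective
    rw [sg0_spec, map_one, map_one, map_one]
  map_mul' a b := by
    apply (algebraMap C Ω).injective
    rw [map_mul, sg0_spec, sg0_spec, sg0_spec, map_mul, map_mul]
  map_zero' := by
    apply (algebraMap C Ω).injective
    rw [sg0_spec, map_zero, map_zero, map_zero]
  map_add' a b := by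
    apply (algebraMap C Ω).injective
    rw [map_add, sg0_spec, sg0_spec, sg0_spec, map_add, map_add]

theorem sg_spec (h : ∀ c : C, ∃ c' : C, τ (algebraMap C L c) = algebraMap C Ω c') (c : C) :
    τ (algebraMap C L c) = algebraMap C Ω (sg h c) := (h c).choose_spec

theorem tau_aeval (h : ∀ c : C, ∃ c' : C, τ (algebraMap C L c) = algebraMap C Ω c') {T : L}
    (hT : τ T = T) (P : C[X]) : τ (aeval T P) = aeval (T : Ω) (P.map (sg h)) := by
  rw [aeval_def, hom_eval₂, hT, aeval_def, eval₂_map]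
  congr 1
  ext c
  exact sg_spec h c

/-- the valuation of a polynomial in an element of `w` -/
theorem aeval_le {T : Ω} (hT : T ∈ R.w) (P : C[X])
    (hP : ∀ i, R.w.valuation (algebraMap C Ω (P.coeff i)) ≤ 1) :
    R.w.valuation (aeval T P) ≤ 1 := by
  rw [aeval_eq_sum_range]
  apply Valuation.map_sum_le
  intro j _
  rw [Algebra.smul_def, map_mul, map_pow]
  exact mul_le_one' (hP j) (pow_le_one' ((R.w.valuation_le_one_iff T).2 hT) j)

theorem aeval_lt {T : Ω} (hT : T ∈ R.w) (P : C[X])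
    (hP : ∀ i, R.w.valuation (algebraMap C Ω (P.coeff i)) < 1) :
    R.w.valuation (aeval T P) < 1 := by
  rw [aeval_eq_sum_range]
  apply Valuation.map_sum_lt _ one_ne_zero
  intro j _
  rw [Algebra.smul_def, map_mul, map_pow]
  exact mul_lt_one_of_lt_of_le (hP j) (pow_le_one' ((R.w.valuation_le_one_iff T).2 hT) j)

theorem one_indep {T : Ω} : LinearIndependent (IntermediateField.adjoin F {R.res T})
    fun _ : Unit => R.res ((fun _ : Unit => (1 : Ω)) ()) := by
  rw [R.res_one]
  exact LinearIndependent.of_subsingleton () one_ne_zero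

theorem coeff_le {T : Ω} (hT : T ∈ R.w) (ht : Transcendental F (R.res T)) (P : C[X]) (i : ℕ) :
    R.w.valuation (algebraMap C Ω (P.coeff i)) ≤ R.w.valuation (aeval T P) := by
  have h := (gauss_poly (b := fun _ : Unit => (1 : Ω)) hT ht (fun _ => one_mem _) one_indep
    {()} (fun _ => P) (Finset.mem_singleton_self ())).1 i
  rwa [Finset.sum_singleton, mul_one] at h

/-- `τ` on `C(T) ∩ w` -/
theorem tau_rat {T : L} (hTw : (T : Ω) ∈ R.w) (ht : Transcendental F (R.res T)) (hT : τ T = T)
    (h : ∀ c : C, ∃ c' : C, τ (algebraMap C L c) = algebraMap C Ω c')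
    (h1 : ∀ c : C, R.w.valuation (algebraMap C Ω c) ≤ 1 →
      R.w.valuation (algebraMap C Ω (sg h c)) ≤ 1)
    (h2 : ∀ c : C, R.w.valuation (algebraMap C Ω c) < 1 →
      R.w.valuation (algebraMap C Ω (sg h c)) < 1)
    (q : L) (hq : (q : Ω) ∈ IntermediateField.adjoin C {(T : Ω)})
    (hqw : R.w.valuation (q : Ω) ≤ 1) :
    R.w.valuation (τ q) ≤ 1 ∧ (R.w.valuation (q : Ω) < 1 → R.w.valuation (τ q) < 1) := by
  obtain ⟨r, s, hrs⟩ := (IntermediateField.mem_adjoin_simple_iff C (q : Ω)).1 hq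
  by_cases hs : aeval (T : Ω) s = 0
  · have hq0 : q = 0 := by
      apply Subtype.ext
      rw [hrs, hs, div_zero]
      rfl
    rw [hq0, map_zero, map_zero]
    exact ⟨zero_le, fun _ => zero_lt_one⟩
  obtain ⟨c, hc, hcr⟩ := poly_scale hTw ht s hs
  -- the scaled numerator and denominator
  set P : C[X] := Polynomial.C c * r with hP
  set Q : C[X] := Polynomial.C c * s with hQ
  have hQT : aeval (T : Ω) Q = algebraMap C Ω c * aeval (T : Ω) s := by
    rw [hQ, map_mul, aeval_C]
  have hPT : aeval (T : Ω) P = algebraMap C Ω c * aeval (T : Ω) r := by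
    rw [hP, map_mul, aeval_C]
  have hQ1 : R.w.valuation (aeval (T : Ω) Q) = 1 := by
    rw [hQT]
    exact Red.val_eq_one hcr
  have hc0 : algebraMap C Ω c ≠ 0 := by rwa [Ne, map_eq_zero]
  have hqPQ : (q : Ω) * aeval (T : Ω) Q = aeval (T : Ω) P := by
    rw [hQT, hPT, hrs]
    field_simp
  have hPv : R.w.valuation (aeval (T : Ω) P) = R.w.valuation (q : Ω) := by
    rw [← hqPQ, map_mul, hQ1, mul_one]
  have hL : ∀ S : C[X], ((aeval T S : L) : Ω) = aeval (T : Ω) S := fun S =>
    (aeval_algebraMap_apply Ω T S).symm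
  have hqL : q * aeval T Q = aeval T P := by
    apply Subtype.ext
    rw [MulMemClass.coe_mul, hL, hL, hqPQ]
  have hτ : τ q * aeval (T : Ω) (Q.map (sg h)) = aeval (T : Ω) (P.map (sg h)) := by
    rw [← tau_aeval h hT, ← tau_aeval h hT, ← map_mul, hqL]
  -- the valuation of the image of the denominator
  have hQ' : R.w.valuation (aeval (T : Ω) (Q.map (sg h))) = 1 := by
    apply le_antisymm
    · apply aeval_le hTw
      intro i
      rw [coeff_map]
      apply h1
      rw [← hQ1]
      exact coeff_le hTw ht Q i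
    · obtain ⟨i, hi⟩ : ∃ i, ¬ R.w.valuation (algebraMap C Ω (Q.coeff i)) < 1 := by
        by_contra hcon
        push Not at hcon
        have := aeval_lt hTw Q hcon
        rw [hQ1] at this
        exact lt_irrefl _ this
      have hi1 : R.w.valuation (algebraMap C Ω (Q.coeff i)) = 1 :=
        le_antisymm (by rw [← hQ1]; exact coeff_le hTw ht Q i) (not_lt.1 hi)
      have hi0 : Q.coeff i ≠ 0 := by
        intro h0
        rw [h0, map_zero, map_zero] at hi1
        exact zero_ne_one hi1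
      have hinv : R.w.valuation (algebraMap C Ω (sg h (Q.coeff i)⁻¹)) ≤ 1 := by
        apply h1
        rw [map_inv₀, map_inv₀, hi1, inv_one]
      have hprod : R.w.valuation (algebraMap C Ω (sg h (Q.coeff i))) *
          R.w.valuation (algebraMap C Ω (sg h (Q.coeff i)⁻¹)) = 1 := by
        rw [← map_mul, ← map_mul, ← map_mul, mul_inv_cancel₀ hi0, map_one, map_one, map_one]
      have hge : 1 ≤ R.w.valuation (algebraMap C Ω (sg h (Q.coeff i))) := by
        rw [← hprod]
        exact mul_le_of_le_one_right' hinv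
      refine hge.trans ?_
      have := coeff_le hTw ht (Q.map (sg h)) i
      rwa [coeff_map] at this
  have hτv : R.w.valuation (τ q) = R.w.valuation (aeval (T : Ω) (P.map (sg h))) := by
    rw [← hτ, map_mul, hQ', mul_one]
  rw [hτv]
  refine ⟨aeval_le hTw _ fun i => ?_, fun hlt => aeval_lt hTw _ fun i => ?_⟩
  · rw [coeff_map]
    apply h1
    refine (coeff_le hTw ht P i).trans ?_
    rw [hPv]
    exact hqw
  · rw [coeff_map]
    apply h2
    refine (coeff_le hTw ht P i).trans_lt ?_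
    rw [hPv]
    exact hlt

end Tau

end StabAux

open StabAux Lin

theorem stStab (h7 : StBasC.{u, v, u', v'}) (h8 : StLvl.{u, v, u', v'}) :
    StStab.{u, v, u', v'} := by
  intro p _ k' K' Ω C F U _ _ _ _ _ _ _ _ _ _ _ _ _ _ _ _ _ _ _ R t hM L hL τ hτc hτt hτa f hf
  obtain ⟨d, y, hy, hspan, hind⟩ := h7 p k' K' Ω C F U R t hM
  obtain ⟨c, hc, hcw, hfc⟩ := (h8 p k' K' Ω C F U R t hM L hL).2 d y hy hspan hind f f.2 hf
  have hK : ∀ a : K', algebraMap K' Ω a ∈ L := by
    intro a
    rw [hL]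
    exact IntermediateField.subset_adjoin C _ ⟨a, rfl⟩
  set T : L := ⟨algebraMap K' Ω t, hK t⟩ with hTdef
  have hadj : IntermediateField.adjoin C {(T : Ω)} ≤ L := by
    rw [IntermediateField.adjoin_simple_le_iff]
    exact T.2
  have hτT : τ T = T := hτt T rfl
  have h0 : ∀ c : C, ∃ c' : C, τ (algebraMap C L c) = algebraMap C Ω c' := by
    intro c
    obtain ⟨c', hc', -⟩ := hτc c
    exact ⟨c', hc'⟩
  have hsg : ∀ c : C, (R.v c ≤ 1 → R.v (sg h0 c) ≤ 1) ∧ (R.v c < 1 → R.v (sg h0 c) < 1) := by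
    intro c
    obtain ⟨c', hc', h1, h2⟩ := hτc c
    have : sg h0 c = c' := by
      apply (algebraMap C Ω).injective
      rw [← sg_spec h0, hc']
    rw [this]
    exact ⟨h1, h2⟩
  have hrat : ∀ i, R.w.valuation (τ ⟨c i, hadj (hc i)⟩) ≤ 1 ∧
      (R.w.valuation (c i) < 1 → R.w.valuation (τ ⟨c i, hadj (hc i)⟩) < 1) := fun i =>
    tau_rat (T := T) hM.mem hM.trans hτT h0 (fun c => (hsg c).1) (fun c => (hsg c).2)
      ⟨c i, hadj (hc i)⟩ (hc i) ((R.w.valuation_le_one_iff _).2 (hcw i))
  have hyw : ∀ i, R.w.valuation (τ ⟨algebraMap K' Ω (y i), hK (y i)⟩) ≤ 1 := by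
    intro i
    obtain ⟨a', ha', hτy⟩ := hτa (y i) (hy i) ⟨algebraMap K' Ω (y i), hK (y i)⟩ rfl
    rw [hτy, R.w.valuation_le_one_iff]
    exact model_mem hM ha'
  have hfL : f = ∑ i, (⟨c i, hadj (hc i)⟩ : L) * ⟨algebraMap K' Ω (y i), hK (y i)⟩ := by
    apply Subtype.ext
    rw [hfc, AddSubmonoidClass.coe_finsetSum]
    rfl
  have hτf : τ f = ∑ i, τ ⟨c i, hadj (hc i)⟩ * τ ⟨algebraMap K' Ω (y i), hK (y i)⟩ := by
    conv_lhs => rw [hfL]
    rw [map_sum]
    exact Finset.sum_congr rfl fun i _ => map_mul _ _ _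
  have hmem : τ f ∈ R.w := by
    rw [← R.w.valuation_le_one_iff, hτf]
    apply Valuation.map_sum_le
    intro i _
    rw [map_mul]
    exact mul_le_one' (hrat i).1 (hyw i)
  refine ⟨hmem, fun hres => ?_⟩
  rw [R.res_lt _ hf] at hres
  rw [R.res_lt _ hmem, hτf]
  apply Valuation.map_sum_lt _ one_ne_zero
  intro i _
  rw [map_mul]
  refine mul_lt_one_of_lt_of_le ((hrat i).2 ?_) (hyw i)
  have hg := gauss (R := R) hM.mem hM.trans (b := fun i => algebraMap K' Ω (y i))
    (fun i => model_mem hM (hy i)) hind Finset.univ (fun i => ⟨c i, hc i⟩) (Finset.mem_univ i)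
  refine hg.trans_lt ?_
  rw [← hfc]
  exact hres

end Pool.Agent.Lib.MP_c385f6_ag.TPG
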