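import Mathlib
import Pool.Agent.Lib.MP_c385f6_ag.TPG.StG
import Pool.Agent.Lib.MP_c385f6_ag.TPG.CLin
import Pool.Agent.Lib.MP_c385f6_ag.TPG.GStab
import Pool.Agent.Lib.MP_c385f6_ag.TPG.GInt

/-!
Project TPG, G8: the degrees of `L` and of its residue field.
-/

set_option autoImplicit false

open Polynomial

namespace Pool.Agent.Lib.MP_c385f6_ag.TPG

universe u v u' v'

namespace LvlAux

open Lin StabAux

section Span

variable {k' : Type} {K' Ω : Type v} {C : Type u} [Field k'] [Field K'] [Field Ω] [Field C]
  [Algebra k' K'] [Algebra K' Ω] [Algebra C Ω] [Algebra k' Ω] [Algebra k' C]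
  [IsScalarTower k' K' Ω] [IsScalarTower k' C Ω] {t : K'}

/-- polynomials over `k'` -/
theorem aeval_mem (P : k'[X]) : algebraMap K' Ω (aeval t P) ∈
    IntermediateField.adjoin C {algebraMap K' Ω t} := by
  have h1 : algebraMap K' Ω (aeval t P) = aeval (algebraMap K' Ω t) (P.map (algebraMap k' C)) := by
    rw [← aeval_algebraMap_apply, aeval_map_algebraMap]
  rw [h1, aeval_eq_sum_range]
  refine sum_mem fun i _ => ?_
  rw [Algebra.smul_def]
  exact mul_mem (IntermediateField.algebraMap_mem _ _)
    (pow_mem (IntermediateField.mem_adjoin_simple_self C _) _)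

/-- `k'(t)` is contained in `C(t)` -/
theorem rat_mem {x : K'} (hx : x ∈ IntermediateField.adjoin k' {t}) :
    algebraMap K' Ω x ∈ IntermediateField.adjoin C {algebraMap K' Ω t} := by
  obtain ⟨r, s, rfl⟩ := (IntermediateField.mem_adjoin_simple_iff k' x).1 hx
  rw [map_div₀]
  exact div_mem (aeval_mem r) (aeval_mem s)

/-- `K'` is contained in the span -/
theorem mem_span {d : ℕ} {y : Fin d → K'}
    (hspan : Submodule.span (IntermediateField.adjoin k' {t}) (Set.range y) = ⊤) (a : K') :
    algebraMap K' Ω a ∈ Submodule.span (IntermediateField.adjoin C {algebraMap K' Ω t})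
      (Set.range fun i => algebraMap K' Ω (y i)) := by
  have ha : a ∈ Submodule.span (IntermediateField.adjoin k' {t}) (Set.range y) := by
    rw [hspan]; trivial
  obtain ⟨q, rfl⟩ := (Submodule.mem_span_range_iff_exists_fun _).1 ha
  rw [map_sum]
  refine Submodule.sum_mem _ fun i _ => ?_
  have h1 : algebraMap K' Ω (q i • y i) =
      (⟨algebraMap K' Ω (q i : K'), rat_mem (q i).2⟩ :
        IntermediateField.adjoin C {algebraMap K' Ω t}) • algebraMap K' Ω (y i) := by
    have h2 : q i • y i = (q i : K') * y i := rfl
    rw [h2, map_mul]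
    rfl
  rw [h1]
  exact Submodule.smul_mem _ _ (Submodule.subset_span ⟨i, rfl⟩)

/-- the span is closed under products -/
theorem mul_span {d : ℕ} {y : Fin d → K'}
    (hspan : Submodule.span (IntermediateField.adjoin k' {t}) (Set.range y) = ⊤) {a b : Ω}
    (ha : a ∈ Submodule.span (IntermediateField.adjoin C {algebraMap K' Ω t})
      (Set.range fun i => algebraMap K' Ω (y i)))
    (hb : b ∈ Submodule.span (IntermediateField.adjoin C {algebraMap K' Ω t})
      (Set.range fun i => algebraMap K' Ω (y i))) :
    a * b ∈ Submodule.span (IntermediateField.adjoin C {algebraMap K' Ω t})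
      (Set.range fun i => algebraMap K' Ω (y i)) := by
  induction ha using Submodule.span_induction with
  | mem x hx =>
    obtain ⟨i, rfl⟩ := hx
    induction hb using Submodule.span_induction with
    | mem x hx =>
      obtain ⟨j, rfl⟩ := hx
      change algebraMap K' Ω (y i) * algebraMap K' Ω (y j) ∈ _
      rw [← map_mul]
      exact mem_span hspan _
    | zero => rw [mul_zero]; exact Submodule.zero_mem _
    | add x y _ _ hx hy => rw [mul_add]; exact Submodule.add_mem _ hx hy
    | smul c x _ hx => rw [mul_smul_comm]; exact Submodule.smul_mem _ c hx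
  | zero => rw [zero_mul]; exact Submodule.zero_mem _
  | add x y _ _ hx hy => rw [add_mul]; exact Submodule.add_mem _ hx hy
  | smul c x _ hx => rw [smul_mul_assoc]; exact Submodule.smul_mem _ c hx

/-- the span is `L` -/
theorem span_eq {d : ℕ} {y : Fin d → K'}
    (hspan : Submodule.span (IntermediateField.adjoin k' {t}) (Set.range y) = ⊤) {f : Ω}
    (hf : f ∈ IntermediateField.adjoin C (Set.range (algebraMap K' Ω))) :
    f ∈ Submodule.span (IntermediateField.adjoin C {algebraMap K' Ω t})
      (Set.range fun i => algebraMap K' Ω (y i)) := by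
  set E := IntermediateField.adjoin C {algebraMap K' Ω t} with hE
  set M := Submodule.span E (Set.range fun i => algebraMap K' Ω (y i)) with hM
  have hone : (1 : Ω) ∈ M := by
    have := mem_span (C := C) (Ω := Ω) hspan (1 : K')
    rwa [map_one] at this
  let A : Subalgebra E Ω :=
    { carrier := M
      mul_mem' := fun ha hb => mul_span hspan ha hb
      one_mem' := hone
      add_mem' := fun ha hb => M.add_mem ha hb
      zero_mem' := M.zero_mem
      algebraMap_mem' := by
        intro c
        rw [Algebra.algebraMap_eq_smul_one]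
        exact M.smul_mem c hone }
  have hfin : FiniteDimensional E M :=
    FiniteDimensional.span_of_finite E (Set.finite_range _)
  have halg : ∀ x ∈ M, IsAlgebraic E x := by
    intro x hx
    have hA : FiniteDimensional E A := hfin
    have h1 : IsAlgebraic E (⟨x, hx⟩ : A) := Algebra.IsAlgebraic.isAlgebraic _
    exact h1.algebraMap (A := Ω)
  let N : IntermediateField C Ω :=
    { carrier := M
      mul_mem' := fun ha hb => mul_span hspan ha hb
      one_mem' := hone
      add_mem' := fun ha hb => M.add_mem ha hb
      zero_mem' := M.zero_mem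
      algebraMap_mem' := by
        intro c
        have h1 : algebraMap C Ω c = (⟨algebraMap C Ω c, E.algebraMap_mem c⟩ : E) • (1 : Ω) := by
          rw [Algebra.smul_def, mul_one]
          rfl
        rw [h1]
        exact M.smul_mem _ hone
      inv_mem' := by
        intro x hx
        exact A.inv_mem_of_algebraic (x := ⟨x, hx⟩) (halg x hx) }
  have hN : IntermediateField.adjoin C (Set.range (algebraMap K' Ω)) ≤ N := by
    rw [IntermediateField.adjoin_le_iff]
    rintro _ ⟨a, rfl⟩
    exact mem_span hspan a
  exact hN hf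

end Span

section Deg

variable {Ω : Type v} {C : Type u} {F : Type u'} {U : Type v'} [Field Ω] [Field C] [Field F]
  [Field U] [Algebra C Ω] [Algebra F U]

/-- simple extensions inside an intermediate field -/
theorem adj_iff (L : IntermediateField C Ω) (t' x : L) :
    x ∈ IntermediateField.adjoin C {t'} ↔
      (x : Ω) ∈ IntermediateField.adjoin C {(t' : Ω)} := by
  have h1 : (IntermediateField.adjoin C {t'}).map L.val =
      IntermediateField.adjoin C {(t' : Ω)} := by
    rw [IntermediateField.adjoin_map, Set.image_singleton]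
    rfl
  rw [← h1]
  constructor
  · intro h
    exact ⟨x, h, rfl⟩
  · rintro ⟨z, hz, hzx⟩
    have : z = x := Subtype.ext hzx
    rwa [← this]

/-- linear independence inside an intermediate field -/
theorem indep_sub (L : IntermediateField C Ω) (t' : L) {ι : Type*} (b : ι → L)
    (h : LinearIndependent (IntermediateField.adjoin C {(t' : Ω)}) fun i => (b i : Ω)) :
    LinearIndependent (IntermediateField.adjoin C {t'}) b := by
  rw [linearIndependent_iff'] at h ⊢
  intro s g hg k hk
  have h1 := h s (fun i => ⟨((g i : L) : Ω), (adj_iff L t' _).1 (g i).2⟩) ?_ k hk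
  · have h2 : ((g k : L) : Ω) = 0 := congrArg Subtype.val h1
    apply Subtype.ext
    apply Subtype.ext
    exact h2
  · have h2 := congrArg L.val hg
    rw [map_sum, map_zero] at h2
    rw [← h2]
    exact Finset.sum_congr rfl fun i _ => rfl

/-- spans inside an intermediate field -/
theorem span_sub (L : IntermediateField C Ω) (t' : L) {d : ℕ} (b : Fin d → L)
    (h : ∀ f : L, ∃ c : Fin d → Ω, (∀ i, c i ∈ IntermediateField.adjoin C {(t' : Ω)}) ∧
      (f : Ω) = ∑ i, c i * (b i : Ω)) :
    Submodule.span (IntermediateField.adjoin C {t'}) (Set.range b) = ⊤ := by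
  rw [Submodule.eq_top_iff']
  intro f
  obtain ⟨c, hc, hf⟩ := h f
  have hE : IntermediateField.adjoin C {(t' : Ω)} ≤ L := by
    rw [IntermediateField.adjoin_simple_le_iff]
    exact t'.2
  rw [Submodule.mem_span_range_iff_exists_fun]
  refine ⟨fun i => ⟨⟨c i, hE (hc i)⟩, (adj_iff L t' _).2 (hc i)⟩, ?_⟩
  apply Subtype.ext
  rw [hf, AddSubmonoidClass.coe_finsetSum]
  rfl

/-- the residues of the elements of `C(T) ∩ w` -/
theorem res_rat {R : Red C Ω F U} {T : Ω} (hT : T ∈ R.w) (ht : Transcendental F (R.res T)) {c : Ω}
    (hc : c ∈ IntermediateField.adjoin C {T}) (hcw : c ∈ R.w) :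
    R.res c ∈ IntermediateField.adjoin F {R.res T} := by
  have hle : ∀ x ∈ Algebra.adjoin F {R.res T}, x ∈ IntermediateField.adjoin F {R.res T} :=
    fun x hx => IntermediateField.algebra_adjoin_le_adjoin F {R.res T} hx
  obtain ⟨r, s, hrs⟩ := (IntermediateField.mem_adjoin_simple_iff C c).1 hc
  by_cases hs : aeval T s = 0
  · rw [hrs, hs, div_zero, R.res_zero]
    exact zero_mem _
  obtain ⟨a, ha, har⟩ := poly_scale hT ht s hs
  have hQ : aeval T (Polynomial.C a * s) = algebraMap C Ω a * aeval T s := by
    rw [map_mul, aeval_C]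
  have hP : aeval T (Polynomial.C a * r) = c * aeval T (Polynomial.C a * s) := by
    rw [hQ, map_mul, aeval_C, hrs]
    field_simp
  rw [← hQ] at har
  have hQw := Red.mem_of_res_ne har
  have hPw : aeval T (Polynomial.C a * r) ∈ R.w := by
    rw [hP]
    exact mul_mem hcw hQw
  have h1 : R.res (aeval T (Polynomial.C a * r)) =
      R.res c * R.res (aeval T (Polynomial.C a * s)) := by
    rw [hP, R.res_mul _ hcw _ hQw]
  have h2 : R.res c = R.res (aeval T (Polynomial.C a * r)) /
      R.res (aeval T (Polynomial.C a * s)) := by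
    rw [h1, mul_div_assoc, div_self har, mul_one]
  rw [h2]
  exact div_mem (hle _ (GIntAux.res_adj hT ht _ hPw)) (hle _ (GIntAux.res_adj hT ht _ hQw))

end Deg

end LvlAux

open LvlAux StabAux Lin

/-- G8 -/
theorem stLvl (h7 : StBasC.{u, v, u', v'}) : StLvl.{u, v, u', v'} := by
  intro p _ k' K' Ω C F U _ _ _ _ _ _ _ _ _ _ _ _ _ _ _ _ _ _ _ R t hM L hL
  have hK : ∀ a : K', algebraMap K' Ω a ∈ L := by
    intro a
    rw [hL]
    exact IntermediateField.subset_adjoin C _ ⟨a, rfl⟩
  have hadj : IntermediateField.adjoin C {algebraMap K' Ω t} ≤ L := by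
    rw [IntermediateField.adjoin_simple_le_iff]
    exact hK t
  have key : ∀ (d : ℕ) (y : Fin d → K'), (∀ i, y i ∈ modelRing p k' t) →
      Submodule.span (IntermediateField.adjoin k' {t}) (Set.range y) = ⊤ →
      LinearIndependent (IntermediateField.adjoin F {R.res (algebraMap K' Ω t)})
        (fun i => R.res (algebraMap K' Ω (y i))) →
      ∀ f : Ω, f ∈ L → ∃ c : Fin d → Ω,
        (∀ i, c i ∈ IntermediateField.adjoin C {algebraMap K' Ω t}) ∧
        (f ∈ R.w → ∀ i, c i ∈ R.w) ∧ f = ∑ i, c i * algebraMap K' Ω (y i) := by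
    intro d y hy hspan hind f hf
    rw [hL] at hf
    obtain ⟨c, hc⟩ := (Submodule.mem_span_range_iff_exists_fun _).1 (span_eq hspan hf)
    have hc' : f = ∑ i, (c i : Ω) * algebraMap K' Ω (y i) := hc.symm
    refine ⟨fun i => (c i : Ω), fun i => (c i).2, fun hfw i => ?_, hc'⟩
    have hg := gauss (R := R) hM.mem hM.trans (b := fun i => algebraMap K' Ω (y i))
      (fun i => model_mem hM (hy i)) hind Finset.univ c (Finset.mem_univ i)
    rw [← R.w.valuation_le_one_iff]
    refine hg.trans ?_
    rw [← hc']
    exact (R.w.valuation_le_one_iff _).2 hfw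
  refine ⟨?_, ?_⟩
  · intro t' ht'
    obtain ⟨d, y, hy, hspan, hind⟩ := h7 p k' K' Ω C F U R t hM
    have hkey := key d y hy hspan hind
    rw [← ht'] at hkey hind
    -- the family in `L`
    set b : Fin d → L := fun i => ⟨algebraMap K' Ω (y i), hK (y i)⟩ with hb
    have hbw : ∀ i, b i ∈ (R.sub L).w := fun i => model_mem hM (hy i)
    have hmem : t' ∈ (R.sub L).w := by
      rw [Red.mem_sub_w, ht']
      exact hM.mem
    have htrU : Transcendental F (R.res (t' : Ω)) := by
      rw [ht']
      exact hM.trans
    have htr : Transcendental F ((R.sub L).res t') := by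
      intro hcon
      apply htrU
      have h1 := hcon.algebraMap (A := U)
      exact h1
    have hindR : LinearIndependent (IntermediateField.adjoin F {(R.sub L).res t'})
        fun i => (R.sub L).res (b i) := by
      apply indep_sub
      exact hind
    have hindL : LinearIndependent (IntermediateField.adjoin C {t'}) b :=
      Lin.indep hmem htr hbw hindR
    have hspL : Submodule.span (IntermediateField.adjoin C {t'}) (Set.range b) = ⊤ := by
      apply span_sub
      intro f
      obtain ⟨c, hc, -, hf⟩ := hkey f f.2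
      exact ⟨c, hc, hf⟩
    have hspR : Submodule.span (IntermediateField.adjoin F {(R.sub L).res t'})
        (Set.range fun i => (R.sub L).res (b i)) = ⊤ := by
      apply span_sub
      rintro ⟨z, f, hf, hfw, hz⟩
      obtain ⟨c, hc, hcw, hfc⟩ := hkey f hf
      refine ⟨fun i => R.res (c i), fun i => ?_, ?_⟩
      · exact res_rat (R := R) hmem htrU (hc i) (hcw hfw i)
      · change z = _
        rw [← hz, hfc, Lin.res_sum R _ _ fun i _ => mul_mem (hcw hfw i) (model_mem hM (hy i))]
        refine Finset.sum_congr rfl fun i _ => ?_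
        rw [R.res_mul _ (hcw hfw i) _ (model_mem hM (hy i))]
        rfl
    let BL := Module.Basis.mk hindL hspL.ge
    let BR := Module.Basis.mk hindR hspR.ge
    refine ⟨hmem, htr, Module.Finite.of_basis BL, Module.Finite.of_basis BR, ?_⟩
    rw [Module.finrank_eq_card_basis BL, Module.finrank_eq_card_basis BR]
  · intro d y hy hspan hind f hf hfw
    obtain ⟨c, hc, hcw, hfc⟩ := key d y hy hspan hind f hf
    exact ⟨c, hc, hcw hfw, hfc⟩

end Pool.Agent.Lib.MP_c385f6_ag.TPG
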