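import Pool.Agent.Lib.MP_c385f6_ag.TPG.StG

/-!
Project TPG, part G, module G1: the special fibre `A(z) / m A(z)` embeds in the residue field.

The kernel `q` of `A(z) → U` is a prime ideal which contains the prime ideal `q₀ = m A(z)` and has
the same contraction to `O[z]`; as `A(z)` is integral over `O[z]`, the two ideals agree.
-/

set_option autoImplicit false
set_option linter.unusedSectionVars false

open Polynomial

namespace Pool.Agent.Lib.MP_c385f6_ag.TPG

universe u v u' v'

namespace GMAAux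

section Norm

variable (p : ℕ) [Fact p.Prime] (k' : Type) [Field k'] [Algebra ℚ_[p] k']
  [FiniteDimensional ℚ_[p] k']

theorem norm_mul (a b : k') :
    spectralNorm ℚ_[p] k' (a * b) = spectralNorm ℚ_[p] k' a * spectralNorm ℚ_[p] k' b :=
  map_mul (spectralMulAlgNorm ℚ_[p] k') a b

theorem norm_inv {c : k'} (hc : c ≠ 0) :
    spectralNorm ℚ_[p] k' c⁻¹ = (spectralNorm ℚ_[p] k' c)⁻¹ := by
  have h := norm_mul p k' c c⁻¹
  rw [mul_inv_cancel₀ hc, spectralNorm_one] at h
  exact eq_inv_of_mul_eq_one_right h.symm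

/-- The ring of integers of `k'`. -/
def oRing : Subring k' where
  carrier := {c | spectralNorm ℚ_[p] k' c ≤ 1}
  mul_mem' := fun {a b} ha hb => by
    change spectralNorm ℚ_[p] k' (a * b) ≤ 1
    rw [norm_mul]
    exact mul_le_one₀ ha (spectralNorm_nonneg b) hb
  add_mem' := fun {a b} ha hb =>
    (isNonarchimedean_spectralNorm (K := ℚ_[p]) (L := k') a b).trans (max_le ha hb)
  one_mem' := by
    change spectralNorm ℚ_[p] k' 1 ≤ 1
    rw [spectralNorm_one]
  zero_mem' := by
    change spectralNorm ℚ_[p] k' 0 ≤ 1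
    rw [spectralNorm_zero]
    exact zero_le_one
  neg_mem' := fun {a} ha => by
    change spectralNorm ℚ_[p] k' (-a) ≤ 1
    rw [spectralNorm_neg (Algebra.IsAlgebraic.isAlgebraic a)]
    exact ha

end Norm

section Main

variable {p : ℕ} [Fact p.Prime] {k' : Type} {K' Ω : Type v} {C : Type u} {F : Type u'}
  {U : Type v'} [Field k'] [Field K'] [Field Ω] [Field C] [Field F] [Field U] [Algebra ℚ_[p] k']
  [FiniteDimensional ℚ_[p] k'] [Algebra k' K'] [Algebra K' Ω] [Algebra C Ω]
  [Algebra k' Ω] [Algebra k' C] [IsScalarTower k' K' Ω] [IsScalarTower k' C Ω] [Algebra F U]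
  {R : Red C Ω F U}

/-- Residues of constants. -/
theorem res_const_eq_zero (hint : ∀ c : k', algebraMap k' Ω c ∈ R.w ↔ spectralNorm ℚ_[p] k' c ≤ 1)
    {c : k'} (hc : spectralNorm ℚ_[p] k' c ≤ 1) :
    R.res (algebraMap k' Ω c) = 0 ↔ spectralNorm ℚ_[p] k' c < 1 := by
  rcases eq_or_ne c 0 with rfl | h0
  · rw [map_zero, R.res_zero, spectralNorm_zero]
    exact ⟨fun _ => zero_lt_one, fun _ => rfl⟩
  · have h0' : algebraMap k' Ω c ≠ 0 := fun h => h0 ((algebraMap k' Ω).injective (by rw [h, map_zero]))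
    have hpos : 0 < spectralNorm ℚ_[p] k' c :=
      spectralNorm_zero_lt h0 (Algebra.IsAlgebraic.isAlgebraic c)
    rw [R.res_lt _ ((hint c).2 hc)]
    have h1 := hint c⁻¹
    rw [← R.w.valuation_le_one_iff, map_inv₀, map_inv₀, norm_inv p k' h0] at h1
    rw [← not_le, ← not_le, not_iff_not,
      ← inv_le_one₀ ((Valuation.pos_iff _).2 h0'), h1, inv_le_one₀ hpos]

/-- The elements of `O[z]`. -/
theorem mem_closure_iff_poly {z s : K'} (hs : s ∈ Subring.closure
    (insert z (algebraMap k' K' '' {c : k' | spectralNorm ℚ_[p] k' c ≤ 1}))) :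
    ∃ P : (oRing p k')[X], s = P.eval₂ ((algebraMap k' K').comp (oRing p k').subtype) z := by
  have hle : Subring.closure
      (insert z (algebraMap k' K' '' {c : k' | spectralNorm ℚ_[p] k' c ≤ 1})) ≤
      (eval₂RingHom ((algebraMap k' K').comp (oRing p k').subtype) z).range := by
    rw [Subring.closure_le]
    rintro x (rfl | ⟨c, hc, rfl⟩)
    · exact ⟨X, by simp⟩
    · exact ⟨C ⟨c, hc⟩, by simp⟩
  obtain ⟨P, hP⟩ := hle hs
  exact ⟨P, hP.symm⟩

variable (R) in
theorem closure_mem_w (hint : ∀ c : k', algebraMap k' Ω c ∈ R.w ↔ spectralNorm ℚ_[p] k' c ≤ 1)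
    {z : K'} (hz : algebraMap K' Ω z ∈ R.w) {s : K'} (hs : s ∈ Subring.closure
      (insert z (algebraMap k' K' '' {c : k' | spectralNorm ℚ_[p] k' c ≤ 1}))) :
    algebraMap K' Ω s ∈ R.w := by
  have hle : Subring.closure
      (insert z (algebraMap k' K' '' {c : k' | spectralNorm ℚ_[p] k' c ≤ 1})) ≤
      R.w.toSubring.comap (algebraMap K' Ω) := by
    rw [Subring.closure_le]
    rintro x (rfl | ⟨c, hc, rfl⟩)
    · exact hz
    · change algebraMap K' Ω (algebraMap k' K' c) ∈ R.w
      rw [← IsScalarTower.algebraMap_apply, hint]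
      exact hc
  exact hle hs

theorem isIntegral_of_mem {z a : K'} (ha : a ∈ modelRing p k' z) :
    IsIntegral (Subring.closure
      (insert z (algebraMap k' K' '' {c : k' | spectralNorm ℚ_[p] k' c ≤ 1}))) a := ha

variable (R) in
/-- `A(z)` is contained in `w`. -/
theorem model_mem_w (hint : ∀ c : k', algebraMap k' Ω c ∈ R.w ↔ spectralNorm ℚ_[p] k' c ≤ 1)
    {z : K'} (hz : algebraMap K' Ω z ∈ R.w) {a : K'} (ha : a ∈ modelRing p k' z) :
    algebraMap K' Ω a ∈ R.w := by
  have h := isIntegral_of_mem ha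
  have h2 : IsIntegral R.w (algebraMap K' Ω a) :=
    h.map_of_comp_eq (((algebraMap K' Ω).comp (Subring.subtype _)).codRestrict R.w
      (fun s => closure_mem_w R hint hz s.2)) (algebraMap K' Ω) rfl
  obtain ⟨y, hy⟩ := IsIntegrallyClosed.algebraMap_eq_of_integral h2
  rw [← hy]
  exact y.2

variable (R) in
/-- The residue map on `A(z)`. -/
def rho (hint : ∀ c : k', algebraMap k' Ω c ∈ R.w ↔ spectralNorm ℚ_[p] k' c ≤ 1)
    {z : K'} (hz : algebraMap K' Ω z ∈ R.w) : modelRing p k' z →+* U :=
  R.hom.comp (((algebraMap K' Ω).comp (modelRing p k' z).subtype).codRestrict R.w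
    (fun a => model_mem_w R hint hz a.2))

theorem rho_apply (hint : ∀ c : k', algebraMap k' Ω c ∈ R.w ↔ spectralNorm ℚ_[p] k' c ≤ 1)
    {z : K'} (hz : algebraMap K' Ω z ∈ R.w) (a : modelRing p k' z) :
    rho R hint hz a = R.res (algebraMap K' Ω a) := rfl

theorem mem_model_of_mem_closure {z s : K'} (hs : s ∈ Subring.closure
    (insert z (algebraMap k' K' '' {c : k' | spectralNorm ℚ_[p] k' c ≤ 1}))) :
    s ∈ modelRing p k' z := by
  have : IsIntegral (Subring.closure
      (insert z (algebraMap k' K' '' {c : k' | spectralNorm ℚ_[p] k' c ≤ 1}))) s :=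
    isIntegral_algebraMap (x := (⟨s, hs⟩ : Subring.closure
      (insert z (algebraMap k' K' '' {c : k' | spectralNorm ℚ_[p] k' c ≤ 1}))))
  exact this

/-- The elements of `O[z]` with residue `0` are in `m A(z)`. -/
theorem closure_case (hint : ∀ c : k', algebraMap k' Ω c ∈ R.w ↔ spectralNorm ℚ_[p] k' c ≤ 1)
    {z : K'} (hz : algebraMap K' Ω z ∈ R.w) (htr : Transcendental F (R.res (algebraMap K' Ω z)))
    (a : modelRing p k' z) (hs : (a : K') ∈ Subring.closure
      (insert z (algebraMap k' K' '' {c : k' | spectralNorm ℚ_[p] k' c ≤ 1})))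
    (h0 : R.res (algebraMap K' Ω a) = 0) : a ∈ modelIdeal p k' z := by
  obtain ⟨P, hP⟩ := mem_closure_iff_poly hs
  have hzm : z ∈ modelRing p k' z := mem_model_of_mem_closure (Subring.subset_closure (Or.inl rfl))
  have hcm : ∀ c : oRing p k', algebraMap k' K' c ∈ modelRing p k' z := fun c =>
    mem_model_of_mem_closure (Subring.subset_closure (Or.inr ⟨c, c.2, rfl⟩))
  -- `a` as a sum
  have ha : a = ∑ i ∈ P.support, (⟨algebraMap k' K' (P.coeff i), hcm _⟩ : modelRing p k' z) *
      ⟨z, hzm⟩ ^ i := by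
    apply Subtype.ext
    rw [hP, eval₂_eq_sum, Polynomial.sum_def, AddSubmonoidClass.coe_finsetSum]
    rfl
  have hint' : ∀ i, R.res (algebraMap k' Ω (P.coeff i : k')) = 0 := by
    have hF : ∀ i, ∃ b : F, R.res (algebraMap k' Ω (P.coeff i : k')) = algebraMap F U b := by
      intro i
      have h1 : algebraMap k' Ω (P.coeff i : k') = algebraMap C Ω (algebraMap k' C (P.coeff i : k')) :=
        IsScalarTower.algebraMap_apply _ _ _ _
      rw [h1]
      refine R.const _ ?_
      rw [← h1, hint]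
      exact (P.coeff i).2
    choose b hb using hF
    have hz0 : aeval (R.res (algebraMap K' Ω z)) (∑ i ∈ P.support, monomial i (b i)) = 0 := by
      rw [map_sum]
      have h2 : rho R hint hz a = ∑ i ∈ P.support,
          algebraMap F U (b i) * R.res (algebraMap K' Ω z) ^ i := by
        rw [ha, map_sum]
        refine Finset.sum_congr rfl fun i _ => ?_
        rw [map_mul, map_pow, rho_apply, rho_apply, ← hb i, IsScalarTower.algebraMap_apply k' K' Ω]
      rw [rho_apply, h0] at h2
      rw [h2]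
      refine Finset.sum_congr rfl fun i _ => ?_
      rw [aeval_monomial]
    have hQ := (transcendental_iff.1 htr) _ hz0
    intro i
    by_cases hi : i ∈ P.support
    · have h3 := congrArg (fun Q => coeff Q i) hQ
      simp only [finsetSum_coeff, coeff_monomial, coeff_zero] at h3
      rw [Finset.sum_eq_single i] at h3
      · rw [if_pos rfl] at h3
        rw [hb i, h3, map_zero]
      · intro j _ hj
        rw [if_neg hj]
      · exact fun h => absurd hi h
    · rw [notMem_support_iff.1 hi]
      change R.res (algebraMap k' Ω 0) = 0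
      rw [map_zero, R.res_zero]
  rw [ha]
  refine Ideal.sum_mem _ fun i _ => Ideal.mul_mem_right _ _ (Ideal.subset_span ?_)
  exact ⟨P.coeff i, (res_const_eq_zero hint (P.coeff i).2).1 (hint' i), rfl⟩

theorem main (hint : ∀ c : k', algebraMap k' Ω c ∈ R.w ↔ spectralNorm ℚ_[p] k' c ≤ 1)
    {z : K'} (hz : algebraMap K' Ω z ∈ R.w) (htr : Transcendental F (R.res (algebraMap K' Ω z)))
    (hd : IsDomain (modelRing p k' z ⧸ modelIdeal p k' z)) (a : modelRing p k' z) :
    R.res (algebraMap K' Ω a) = 0 ↔ a ∈ modelIdeal p k' z := by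
  have hle : modelIdeal p k' z ≤ RingHom.ker (rho R hint hz) := by
    rw [modelIdeal, Ideal.span_le]
    rintro x ⟨c, hc, hx⟩
    change rho R hint hz x = 0
    rw [rho_apply, hx, ← IsScalarTower.algebraMap_apply, res_const_eq_zero hint hc.le]
    exact hc
  refine ⟨fun h => ?_, fun h => hle h⟩
  by_contra hn
  have hpr : (modelIdeal p k' z).IsPrime := (Ideal.Quotient.isDomain_iff_prime _).1 hd
  let S := Subring.closure
    (insert z (algebraMap k' K' '' {c : k' | spectralNorm ℚ_[p] k' c ≤ 1}))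
  let φ : S →+* modelRing p k' z := S.subtype.codRestrict (modelRing p k' z)
    fun s => mem_model_of_mem_closure s.2
  let _ : Algebra S (modelRing p k' z) := φ.toAlgebra
  have hai : IsIntegral S a := by
    obtain ⟨P, hP, hP'⟩ := isIntegral_of_mem a.2
    refine ⟨P, hP, ?_⟩
    apply Subtype.ext
    have h1 := hom_eval₂ P φ (modelRing p k' z).subtype a
    change ((modelRing p k' z).subtype (P.eval₂ φ a)) = 0
    rw [h1]
    exact hP'
  have hlt := Ideal.comap_lt_comap_of_integral_mem_sdiff (R := S) hle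
    (x := a) ⟨h, hn⟩ hai
  refine hlt.not_ge ?_
  intro s hs
  exact closure_case hint hz htr (φ s) s.2 hs

end Main

end GMAAux

/-- G1. -/
theorem stMA : StMA.{u, v, u', v'} := by
  intro p _ k' K' Ω C F U _ _ _ _ _ _ _ _ _ _ _ _ _ _ _ _ _ _ _ R t hM z hz a
  have hz2 : algebraMap K' Ω z ∈ R.w ∧ Transcendental F (R.res (algebraMap K' Ω z)) := by
    rcases hz with rfl | hz
    · exact ⟨hM.mem, hM.trans⟩
    · rw [Set.mem_singleton_iff] at hz
      subst hz
      have h0 : R.res (algebraMap K' Ω t) ≠ 0 := by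
        intro h
        apply hM.trans
        rw [h]
        exact isAlgebraic_zero
      rw [map_inv₀]
      refine ⟨Red.inv_mem h0, ?_⟩
      rw [R.res_inv h0]
      intro h
      apply hM.trans
      have := h.inv
      rwa [inv_inv] at this
  exact ⟨GMAAux.model_mem_w R hM.int hz2.1 a.2,
    GMAAux.main hM.int hz2.1 hz2.2 (hM.good.domain z hz) a⟩

end Pool.Agent.Lib.MP_c385f6_ag.TPG
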