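import Pool.Agent.Lib.MP_c385f6_ag.TPG.StG

/-!
Project TPG, module G4: the special fibre is integrally closed, and its constants are the residues
of `k'`.
-/

set_option autoImplicit false

open Polynomial

namespace Pool.Agent.Lib.MP_c385f6_ag.TPG

universe u v u' v'

namespace GNrm

/-- an integrally closed domain `B` inside of a field -/
theorem closed_of_embed {B : Type u} {U : Type v} [CommRing B] [IsDomain B]
    [IsIntegrallyClosed B] [Field U] (φ : B →+* U) (hφ : Function.Injective φ) (y : U) (a b : B)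
    (hb : φ b ≠ 0) (hab : y * φ b = φ a) (hy : φ.IsIntegralElem y) : ∃ c : B, φ c = y := by
  let _ := φ.toAlgebra
  have hinj : Function.Injective (algebraMap B U) := hφ
  have e1 : ∀ x : B, algebraMap B U x = φ x := fun _ => rfl
  let ψ : FractionRing B →ₐ[B] U := IsFractionRing.liftAlgHom (g := Algebra.ofId B U) hinj
  have hψ : Function.Injective ψ := ψ.toRingHom.injective
  have hx : ψ (algebraMap B (FractionRing B) a / algebraMap B (FractionRing B) b) = y := by
    rw [map_div₀, ψ.commutes, ψ.commutes, e1, e1, ← hab, mul_div_cancel_right₀ y hb]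
  have h1 : IsIntegral B
      (algebraMap B (FractionRing B) a / algebraMap B (FractionRing B) b) := by
    rw [← isIntegral_algHom_iff ψ hψ, hx]
    exact hy
  obtain ⟨c, hc⟩ := IsIntegrallyClosed.isIntegral_iff.1 h1
  refine ⟨c, ?_⟩
  have h2 := congrArg ψ hc
  rw [ψ.commutes, hx] at h2
  exact h2

/-- transitivity of integrality -/
theorem integral_of_adjoin {F : Type u'} {U : Type v} {B : Type u} [Field F] [Field U]
    [Algebra F U] [CommRing B] (φ : B →+* U) (hF : ∀ c : F, IsIntegral ℤ (algebraMap F U c))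
    (z : U) (hz : z ∈ φ.range) (y : U) (hy : IsIntegral (Algebra.adjoin F {z}) y) :
    φ.IsIntegralElem y := by
  let _ := φ.toAlgebra
  have h1 : ∀ x ∈ Algebra.adjoin F {z}, x ∈ integralClosure B U := by
    intro x hx
    induction hx using Algebra.adjoin_induction with
    | mem x hx =>
      rw [Set.mem_singleton_iff] at hx
      subst hx
      obtain ⟨b, hb⟩ := hz
      rw [← hb]
      exact isIntegral_algebraMap (R := B) (A := U) (x := b)
    | algebraMap c => exact (hF c).tower_top
    | add x y _ _ hx hy => exact add_mem hx hy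
    | mul x y _ _ hx hy => exact mul_mem hx hy
  obtain ⟨P, hP, hPy⟩ := hy
  let i : Algebra.adjoin F {z} →+* integralClosure B U :=
    ((Algebra.adjoin F {z}).val : Algebra.adjoin F {z} →+* U).codRestrict (integralClosure B U)
      fun x => h1 x x.2
  have h2 : IsIntegral (integralClosure B U) y := by
    refine ⟨P.map i, hP.map i, ?_⟩
    rw [Polynomial.eval₂_map]
    exact hPy
  exact isIntegral_trans y h2

theorem int_const {p : ℕ} {F : Type u'} {U : Type v} [Field F] [Field U] [Algebra F U]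
    (h : FpBar p F) (c : F) : IsIntegral ℤ (algebraMap F U c) := by
  apply map_isIntegral_int
  by_cases h0 : c = 0
  · rw [h0]
    exact isIntegral_zero
  · obtain ⟨n, hn, hc⟩ := h.tors c h0
    exact IsIntegral.of_pow hn (by rw [hc]; exact isIntegral_one)

section

variable {p : ℕ} [Fact p.Prime] {k' : Type} {K' Ω : Type v} {C : Type u} {F : Type u'}
  {U : Type v'} [Field k'] [Field K'] [Field Ω] [Field C] [Field F] [Field U]
  [Algebra ℚ_[p] k'] [Algebra k' K'] [Algebra K' Ω] [Algebra C Ω] [Algebra F U]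

/-- the residue map on `A(z)` -/
def res0 (R : Red C Ω F U) (z : K')
    (h : ∀ a : modelRing p k' z, algebraMap K' Ω a ∈ R.w) : modelRing p k' z →+* U :=
  R.hom.comp (((algebraMap K' Ω).comp (modelRing p k' z).subtype).codRestrict R.w h)

theorem res0_apply (R : Red C Ω F U) (z : K')
    (h : ∀ a : modelRing p k' z, algebraMap K' Ω a ∈ R.w) (a : modelRing p k' z) :
    res0 R z h a = R.res (algebraMap K' Ω a) := rfl

/-- the residue map on the special fibre -/
theorem exists_res1 (R : Red C Ω F U) (z : K')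
    (h : ∀ a : modelRing p k' z, algebraMap K' Ω a ∈ R.w ∧
      (R.res (algebraMap K' Ω a) = 0 ↔ a ∈ modelIdeal p k' z)) :
    ∃ φ : modelRing p k' z ⧸ modelIdeal p k' z →+* U, Function.Injective φ ∧
      ∀ a, φ (Ideal.Quotient.mk _ a) = R.res (algebraMap K' Ω a) := by
  refine ⟨Ideal.Quotient.lift _ (res0 R z fun a => (h a).1) fun a ha => (h a).2.2 ha, ?_, ?_⟩
  · apply RingHom.lift_injective_of_ker_le_ideal
    intro a ha
    exact (h a).2.1 ha
  · intro a
    rfl

/-- `z` is in `A(z)` -/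
theorem self_mem (z : K') : z ∈ modelRing p k' z := by
  have h : z ∈ Subring.closure
      (insert z (algebraMap k' K' '' {c : k' | spectralNorm ℚ_[p] k' c ≤ 1})) :=
    Subring.subset_closure (Set.mem_insert _ _)
  exact isIntegral_algebraMap (R := Subring.closure
      (insert z (algebraMap k' K' '' {c : k' | spectralNorm ℚ_[p] k' c ≤ 1}))) (A := K')
      (x := ⟨z, h⟩)

end

end GNrm

open GNrm in
theorem stNrm (h0 : StFp.{u, v, u', v'}) (h1 : StMA.{u, v, u', v'})
    (h3 : StFrc.{u, v, u', v'}) : StNrm.{u, v, u', v'} := by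
  intro p _ k' K' Ω C F U _ _ _ _ _ _ _ _ _ _ _ _ _ _ _ _ _ _ _ R t hM
  have hFp := h0 p k' K' Ω C F U R t hM
  have hMA := h1 p k' K' Ω C F U R t hM
  obtain ⟨-, -, hFrc⟩ := h3 p k' K' Ω C F U R t hM
  have part1 : ∀ z ∈ ({t, t⁻¹} : Set K'), ∀ f : K', algebraMap K' Ω f ∈ R.w →
      IsIntegral (Algebra.adjoin F {R.res (algebraMap K' Ω z)}) (R.res (algebraMap K' Ω f)) →
      ∃ a ∈ modelRing p k' z, R.res (algebraMap K' Ω a) = R.res (algebraMap K' Ω f) := by
    intro z hz f hf hint
    obtain ⟨φ, hφ, hφa⟩ := exists_res1 R z (hMA z hz)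
    have := hM.good.domain z hz
    have := hM.good.normal z hz
    obtain ⟨a, ha, b, hb, hb0, hab⟩ := hFrc z hz f hf
    have hbw : algebraMap K' Ω b ∈ R.w := Red.mem_of_res_ne hb0
    have h4 : φ.IsIntegralElem (R.res (algebraMap K' Ω f)) := by
      refine integral_of_adjoin φ (int_const hFp) (R.res (algebraMap K' Ω z)) ?_ _ hint
      exact ⟨Ideal.Quotient.mk _ ⟨z, self_mem z⟩, hφa _⟩
    obtain ⟨c, hc⟩ := closed_of_embed φ hφ (R.res (algebraMap K' Ω f))
      (Ideal.Quotient.mk _ ⟨a, ha⟩) (Ideal.Quotient.mk _ ⟨b, hb⟩) (by rw [hφa]; exact hb0)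
      (by
        rw [hφa, hφa, ← R.res_mul _ hf _ hbw, ← map_mul, hab]) h4
    obtain ⟨c', rfl⟩ := Ideal.Quotient.mk_surjective c
    exact ⟨c', c'.2, by rw [← hc, hφa]⟩
  refine ⟨part1, ?_⟩
  intro f hf c hc
  have ht : t ∈ ({t, t⁻¹} : Set K') := Set.mem_insert _ _
  have hi : IsIntegral ℤ (R.res (algebraMap K' Ω f)) := by
    rw [hc]
    exact int_const hFp c
  obtain ⟨a, ha, hac⟩ := part1 t ht f hf hi.tower_top
  obtain ⟨φ, hφ, hφa⟩ := exists_res1 R t (hMA t ht)
  have hai : IsIntegral ℤ (Ideal.Quotient.mk (modelIdeal p k' t) ⟨a, ha⟩) := by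
    have h5 : IsIntegral ℤ (φ (Ideal.Quotient.mk (modelIdeal p k' t) ⟨a, ha⟩)) := by
      rw [hφa, hac]
      exact hi
    exact (isIntegral_algHom_iff φ.toIntAlgHom hφ).1 h5
  obtain ⟨b, d, hbd, hb⟩ := hM.good.const _ hai
  have h6 : R.res (algebraMap K' Ω b) = algebraMap F U c := by
    rw [← hφa, hb, hφa, ← hc]
    exact hac
  have h7 : algebraMap K' Ω (b : K') = algebraMap k' Ω d := by
    rw [hbd, ← IsScalarTower.algebraMap_apply]
  refine ⟨d, ?_, ?_⟩
  · rw [← hM.int d, ← h7]
    exact (hMA t ht b).1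
  · rw [← h7, h6]

end Pool.Agent.Lib.MP_c385f6_ag.TPG
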