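import Pool.Agent.Lib.MP_c385f6_ag.TPG.StG
import Pool.Agent.Lib.MP_c385f6_ag.Semi.Defs

/-!
Project TPG, part G: the valuation of the algebraic closure `C` of a `p`-adic field `k`, inertia and
wild inertia, completeness of the constants, and the package `Pk` of properties of the reduction.
-/

set_option autoImplicit false

open Polynomial

namespace Pool.Agent.Lib.MP_c385f6_ag.TPG

universe u v u' v' w

/-- `k₂` is discretely valued and complete; the valuation of `C` has rank one. -/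
def Dsc {C : Type u} [Field C] {Γ₀ : Type w} [LinearOrderedCommGroupWithZero Γ₀]
    (v : Valuation C Γ₀) (k₂ : Subfield C) : Prop :=
  ∃ π ∈ k₂, π ≠ 0 ∧ v π < 1 ∧ (∀ c ∈ k₂, v c < 1 → v c ≤ v π) ∧
    (∀ c : C, c ≠ 0 → ∃ j : ℕ, v π ^ j < v c) ∧
    ∀ s : ℕ → C, (∀ j, s j ∈ k₂) → (∀ j, v (s (j + 1) - s j) ≤ v π ^ j) →
      ∃ c ∈ k₂, ∀ j, v (c - s j) ≤ v π ^ j

theorem isDsc_iff {C : Type u} {L : Type v} {F : Type u'} {Λ : Type v'} [Field C] [Field L]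
    [Field F] [Field Λ] [Algebra C L] [Algebra F Λ] (R : Red C L F Λ) (k₂ : Subfield C) :
    IsDsc R k₂ ↔ Dsc R.v k₂ := Iff.rfl

/-- V1. The valuation is invariant. -/
def StVInv : Prop :=
  ∀ (p : ℕ) [Fact p.Prime] (k : Type) (C : Type u) [Field k] [Field C] [Algebra ℚ_[p] k]
    [FiniteDimensional ℚ_[p] k] [Algebra k C] [Algebra.IsAlgebraic k C] (Γ₀ : Type w)
    [LinearOrderedCommGroupWithZero Γ₀] (v : Valuation C Γ₀), IsVal p k v →
    (∀ (s : C ≃ₐ[k] C) (c : C), v (s c) = v c) ∧ v (p : C) < 1 ∧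
      ∀ n : ℕ, ¬ p ∣ n → v (n : C) = 1

/-- V2. Finite extensions of `k` are complete and discretely valued. -/
def StVDsc : Prop :=
  ∀ (p : ℕ) [Fact p.Prime] (k : Type) (C : Type u) [Field k] [Field C] [Algebra ℚ_[p] k]
    [FiniteDimensional ℚ_[p] k] [Algebra k C] [Algebra.IsAlgebraic k C] (Γ₀ : Type w)
    [LinearOrderedCommGroupWithZero Γ₀] (v : Valuation C Γ₀), IsVal p k v →
    ∀ k₂ : IntermediateField k C, FiniteDimensional k k₂ → Dsc v k₂.toSubfield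

/-- V3. There is a Frobenius element. -/
def StVFrob : Prop :=
  ∀ (p : ℕ) [Fact p.Prime] (k : Type) (C : Type u) [Field k] [Field C] [IsAlgClosed C]
    [Algebra ℚ_[p] k] [FiniteDimensional ℚ_[p] k] [Algebra k C] [Algebra.IsAlgebraic k C]
    (Γ₀ : Type w) [LinearOrderedCommGroupWithZero Γ₀] (v : Valuation C Γ₀), IsVal p k v →
    ∃ (φ : C ≃ₐ[k] C) (f : ℕ), 1 ≤ f ∧ IsFrob v (p ^ f) (φ : C ≃+* C)

/-- V4. An automorphism `g` that is trivial on the residue field of the finite extension `k₂` of `k`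
can be multiplied by an element that fixes `k₂` such that it becomes an element of the inertia
group. -/
def StInL : Prop :=
  ∀ (p : ℕ) [Fact p.Prime] (k : Type) (C : Type u) [Field k] [Field C] [IsAlgClosed C]
    [Algebra ℚ_[p] k] [FiniteDimensional ℚ_[p] k] [Algebra k C] [Algebra.IsAlgebraic k C]
    (Γ₀ : Type w) [LinearOrderedCommGroupWithZero Γ₀] (v : Valuation C Γ₀), IsVal p k v →
    ∀ k₂ : IntermediateField k C, FiniteDimensional k k₂ → ∀ g : C ≃ₐ[k] C,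
      (∀ c ∈ k₂, v c ≤ 1 → v (g c - c) < 1) →
      ∃ n : C ≃ₐ[k] C, (∀ c ∈ k₂, n c = c) ∧ IsIn v ((g * n : C ≃ₐ[k] C) : C ≃+* C)

/-- V5. The tame relation. -/
def StTameRel : Prop :=
  ∀ (C : Type u) [Field C] (Γ₀ : Type w) [LinearOrderedCommGroupWithZero Γ₀] (v : Valuation C Γ₀)
    (s φ : C ≃+* C) (q : ℕ), (∀ c, v (s c) = v c) → (∀ c, v (φ c) = v c) → IsIn v s →
    IsFrob v q φ → IsWild v (φ * s * φ⁻¹ * (s ^ q)⁻¹)

/-- V6. Wild elements have `p`-power order on finite sets. -/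
def StWildP : Prop :=
  ∀ (p : ℕ) [Fact p.Prime] (k : Type) (C : Type u) [Field k] [Field C] [Algebra ℚ_[p] k]
    [FiniteDimensional ℚ_[p] k] [Algebra k C] [Algebra.IsAlgebraic k C] (Γ₀ : Type w)
    [LinearOrderedCommGroupWithZero Γ₀] (v : Valuation C Γ₀), IsVal p k v →
    ∀ s : C ≃ₐ[k] C, IsWild v (s : C ≃+* C) → ∀ S : Finset C, ∃ N : ℕ, ∀ c ∈ S, (s ^ p ^ N) c = c

/-- V7. Tame extensions `k₂ / k`. -/
def StTameK : Prop :=
  ∀ (p : ℕ) [Fact p.Prime] (k : Type) (C : Type u) [Field k] [Field C] [IsAlgClosed C]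
    [Algebra ℚ_[p] k] [FiniteDimensional ℚ_[p] k] [Algebra k C] [Algebra.IsAlgebraic k C]
    (Γ₀ : Type w) [LinearOrderedCommGroupWithZero Γ₀] (v : Valuation C Γ₀), IsVal p k v →
    ∀ k₂ : IntermediateField k C, FiniteDimensional k k₂ → Normal k k₂ →
      (∀ s : C ≃ₐ[k] C, IsIn v (s : C ≃+* C) → ∃ e : ℕ, ¬ p ∣ e ∧ ∀ c ∈ k₂, (s ^ e) c = c) →
      (∀ s : C ≃ₐ[k] C, IsWild v (s : C ≃+* C) → ∀ c ∈ k₂, s c = c) ∧
      (∃ t : C ≃ₐ[k] C, IsIn v (t : C ≃+* C) ∧ ∃ e : ℕ, ¬ p ∣ e ∧ (∀ c ∈ k₂, (t ^ e) c = c) ∧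
        ∀ s : C ≃ₐ[k] C, IsIn v (s : C ≃+* C) → ∃ j : ℕ, ∀ c ∈ k₂, s c = (t ^ j) c) ∧
      ∃ π ∈ k₂, π ≠ 0 ∧ v π < 1 ∧ (∀ c ∈ k₂, v c < 1 → v c ≤ v π) ∧
        ∀ s : C ≃ₐ[k] C, IsIn v (s : C ≃+* C) → v (s π / π - 1) < 1 → ∀ c ∈ k₂, s c = c

/-- V8. Teichmüller representatives. -/
def StTeich : Prop :=
  ∀ (p : ℕ) [Fact p.Prime] (k : Type) (C : Type u) [Field k] [Field C] [IsAlgClosed C]
    [Algebra ℚ_[p] k] [FiniteDimensional ℚ_[p] k] [Algebra k C] [Algebra.IsAlgebraic k C]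
    (Γ₀ : Type w) [LinearOrderedCommGroupWithZero Γ₀] (v : Valuation C Γ₀), IsVal p k v →
    (∀ c : C, v c ≤ 1 → ∃ c' : C, v (c' - c) < 1 ∧ (c' = 0 ∨ ∃ n : ℕ, ¬ p ∣ n ∧ c' ^ n = 1)) ∧
    ∀ s : C ≃ₐ[k] C, IsIn v (s : C ≃+* C) → ∀ (c : C) (n : ℕ), ¬ p ∣ n → c ^ n = 1 → s c = c

section Package

variable (p : ℕ) [Fact p.Prime] {k : Type} (K : Type u) {Ω : Type u} [Field k] [Field K] [Field Ω]
  [Algebra ℚ_[p] k] [Algebra k K] [Algebra k Ω] [Algebra K Ω] {F : Type u'} {U : Type v'}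
  [Field F] [Field U] [Algebra F U]

variable {K} in
/-- `s` acts trivially on the residue field `F` of the constants. -/
def InO (R : Red (algebraicClosure k Ω) Ω F U) (s : Ω ≃ₐ[K] Ω) : Prop :=
  ∀ c : algebraicClosure k Ω, (c : Ω) ∈ R.w → R.res (s c) = R.res (c : Ω)

/-- The package of the properties of the reduction `R` (with residue fields `F`, `U`) and of the tame
extension `k₂` of `k` that are used in parts D, E, F. -/
structure Pk (R : Red (algebraicClosure k Ω) Ω F U)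
    (L : IntermediateField (algebraicClosure k Ω) Ω) (g : ℕ)
    (k₂ : IntermediateField k (algebraicClosure k Ω)) : Prop where
  val : IsVal p k R.v
  fp : FpBar p F
  closed : IsAlgClosed U
  eqL : L = IntermediateField.adjoin (algebraicClosure k Ω) (Set.range (algebraMap K Ω))
  const : ∀ x : K, IsAlgebraic k x → ∃ c : k, x = algebraMap k K c
  pos : 1 ≤ g
  good : Good (R.sub L) g
  stab : ∀ (s : Ω ≃ₐ[K] Ω) (z : Ω), z ∈ L → z ∈ R.w → s z ∈ R.w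
  fin : FiniteDimensional k k₂
  nrm : Normal k k₂
  tame : ∀ s : Ω ≃ₐ[K] Ω, InO R s →
    ∃ e : ℕ, ¬ p ∣ e ∧ ∀ c : algebraicClosure k Ω, c ∈ k₂ → (s ^ e) (c : Ω) = c
  triv : ∀ s : Ω ≃ₐ[K] Ω, InO R s → (∀ c : algebraicClosure k Ω, c ∈ k₂ → s (c : Ω) = c) →
    ∀ z ∈ L, z ∈ R.w → R.res (s z) = R.res z
  ram : ∃ s : Ω ≃ₐ[K] Ω, InO R s ∧ ∃ z ∈ L, z ∈ R.w ∧ R.res (s z) ≠ R.res z
  crd : ∀ (sp : Plc (algebraicClosure k Ω) L → Plc F (R.img L)) (x : Plc F (R.img L)),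
    IsSp (R.sub L) sp → ∃ (u : L) (T : Finset (algebraicClosure k Ω)),
      IsCrd (R.sub L) sp x u ∧ (∀ c ∈ T, ∃ n : ℕ, ¬ p ∣ n ∧ c ^ n = 1) ∧
      ∀ s : Ω ≃ₐ[K] Ω, (∀ c : algebraicClosure k Ω, c ∈ k₂ → s (c : Ω) = c) →
        (∀ c ∈ T, s (c : Ω) = c) → s (u : Ω) = u

end Package

/-- G18. `L`, and the `D_n`-roots over unramified extensions of `L`, are unramified. -/
def StTowUr : Prop :=
  ∀ (k : Type) (K Ω : Type u) [Field k] [CharZero k] [Field K] [Field Ω] [Algebra k K]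
    [Algebra k Ω] [Algebra K Ω] [IsScalarTower k K Ω] [IsAlgClosure K Ω]
    (L : IntermediateField (algebraicClosure k Ω) Ω),
    L = IntermediateField.adjoin (algebraicClosure k Ω) (Set.range (algebraMap K Ω)) →
    (∀ z ∈ L, z ∈ maxUnramified k K Ω) ∧
    ∀ M : IntermediateField (algebraicClosure k Ω) Ω, L ≤ M → FF (algebraicClosure k Ω) M →
      (∀ z ∈ M, z ∈ maxUnramified k K Ω) →
      ∀ (n : ℕ) (g : M) (h : Ω), n ≠ 0 → g ∈ Dn (algebraicClosure k Ω) n → h ^ n = g →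
        h ∈ maxUnramified k K Ω

/-- G19. Completeness of the constants: `M = K C(S₀)`, `S₀` finite. -/
def StCptM : Prop :=
  ∀ (p : ℕ) [Fact p.Prime] (k : Type) (K Ω : Type u) [Field k] [Field K] [Field Ω]
    [Algebra ℚ_[p] k] [FiniteDimensional ℚ_[p] k] [Algebra k K] [Algebra k Ω] [Algebra K Ω]
    [IsScalarTower k K Ω] [IsAlgClosure K Ω] (F : Type u') (U : Type v') [Field F] [Field U]
    [Algebra F U] (R : Red (algebraicClosure k Ω) Ω F U), IsVal p k R.v →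
    (∀ x : K, IsAlgebraic k x → ∃ c : k, x = algebraMap k K c) →
    ∀ (S₀ : Finset Ω) (M : IntermediateField (algebraicClosure k Ω) Ω),
      M = IntermediateField.adjoin (algebraicClosure k Ω) (Set.range (algebraMap K Ω) ∪ S₀) →
      (∀ (s : Ω ≃ₐ[K] Ω) (z : Ω), z ∈ M → z ∈ R.w → s z ∈ R.w) →
      ∃ Γ : Subgroup (M ≃+* M), Cpt (R.sub M) Γ

/-- G20. All towers have complete constants. -/
def StCptT : Prop :=
  ∀ (p : ℕ) [Fact p.Prime] (k : Type) (K Ω : Type u) [Field k] [Field K] [Field Ω]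
    [Algebra ℚ_[p] k] [FiniteDimensional ℚ_[p] k] [Algebra k K] [Algebra k Ω] [Algebra K Ω]
    [IsScalarTower k K Ω] [IsAlgClosure K Ω] (F : Type u') (U : Type v') [Field F] [Field U]
    [Algebra F U] (R : Red (algebraicClosure k Ω) Ω F U)
    (L : IntermediateField (algebraicClosure k Ω) Ω) (g : ℕ)
    (k₂ : IntermediateField k (algebraicClosure k Ω)), Pk p K R L g k₂ →
    (∀ (s : Ω ≃ₐ[K] Ω) (z : Ω), z ∈ Tinf (algebraicClosure k Ω) p L →
      s z ∈ Tinf (algebraicClosure k Ω) p L ∧ (z ∈ R.w → s z ∈ R.w)) ∧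
    ∀ M, Tow (algebraicClosure k Ω) p L M → ∃ Γ : Subgroup (M ≃+* M), Cpt (R.sub M) Γ

/-- G21. Existence of a reduction that induces the Gauss valuation on `C(t)`. -/
def StRedEx : Prop :=
  ∀ (p : ℕ) [Fact p.Prime] (k : Type) (C Ω : Type u) [Field k] [Field C] [IsAlgClosed C]
    [Field Ω] [IsAlgClosed Ω] [Algebra ℚ_[p] k] [FiniteDimensional ℚ_[p] k] [Algebra k C]
    [Algebra.IsAlgebraic k C] [Algebra C Ω] (t : Ω), Transcendental C t →
    ∃ (F U : Type u) (_ : Field F) (_ : Field U) (_ : Algebra F U) (R : Red C Ω F U),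
      IsAlgClosed F ∧ IsAlgClosed U ∧ IsVal p k R.v ∧ t ∈ R.w ∧ Transcendental F (R.res t)

end Pool.Agent.Lib.MP_c385f6_ag.TPG
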