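import Mathlib
import Pool.Agent.Lib.MP_c385f6_ag.TPG.StV

/-!
Project TPG, V1: the valuation of `C` is invariant.
-/

set_option autoImplicit false

open Polynomial

namespace Pool.Agent.Lib.MP_c385f6_ag.TPG

universe u w

namespace VInvAux

variable {p : ℕ} [Fact p.Prime] {k : Type} {C : Type u} [Field k] [Field C] [Algebra ℚ_[p] k]
  [Algebra k C] {Γ₀ : Type w} [LinearOrderedCommGroupWithZero Γ₀] {v : Valuation C Γ₀}

/-- Elements of `ℚ_p` of norm at most one. -/
theorem le_one_of_norm (h : IsVal p k v) {a : ℚ_[p]} (ha : ‖a‖ ≤ 1) :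
    v (algebraMap k C (algebraMap ℚ_[p] k a)) ≤ 1 := by
  rw [h, spectralNorm_extends]
  exact ha

theorem p_lt (h : IsVal p k v) : v (p : C) < 1 := by
  have h1 : ¬ v (algebraMap k C (algebraMap ℚ_[p] k (p : ℚ_[p])⁻¹)) ≤ 1 := by
    rw [h, spectralNorm_extends, norm_inv, Padic.norm_p, inv_inv, not_le]
    exact_mod_cast (Fact.out : p.Prime).one_lt
  have hp0 : (algebraMap k C (algebraMap ℚ_[p] k (p : ℚ_[p]))) ≠ 0 := by
    rw [Ne, map_eq_zero, map_eq_zero]
    exact_mod_cast (Fact.out : p.Prime).ne_zero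
  rw [map_inv₀, map_inv₀, map_inv₀, not_le] at h1
  have h2 : (p : C) = algebraMap k C (algebraMap ℚ_[p] k (p : ℚ_[p])) := by
    rw [map_natCast, map_natCast]
  rw [h2]
  have h3 : 0 < v (algebraMap k C (algebraMap ℚ_[p] k (p : ℚ_[p]))) :=
    zero_lt_iff.mpr ((Valuation.ne_zero_iff v).mpr hp0)
  exact (one_lt_inv₀ h3).mp h1

theorem coprime_eq (h : IsVal p k v) {n : ℕ} (hn : ¬ p ∣ n) : v (n : C) = 1 := by
  have hnorm : ‖(n : ℚ_[p])‖ = 1 := by
    rw [Padic.norm_natCast_eq_one_iff]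
    exact ((Fact.out : p.Prime).coprime_iff_not_dvd).mpr hn
  have h2 : (n : C) = algebraMap k C (algebraMap ℚ_[p] k (n : ℚ_[p])) := by
    rw [map_natCast, map_natCast]
  have h3 : v (n : C) ≤ 1 := by
    rw [h2]
    exact le_one_of_norm h hnorm.le
  have h4 : v ((n : C)⁻¹) ≤ 1 := by
    have : v (algebraMap k C (algebraMap ℚ_[p] k ((n : ℚ_[p])⁻¹))) ≤ 1 :=
      le_one_of_norm h (by rw [norm_inv, hnorm, inv_one])
    rwa [map_inv₀, map_inv₀, ← h2] at this
  have hn0 : (n : C) ≠ 0 := by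
    have : (n : ℚ_[p]) ≠ 0 := by
      intro h0
      rw [h0, norm_zero] at hnorm
      exact zero_ne_one hnorm
    rw [h2, Ne, map_eq_zero, map_eq_zero]
    exact this
  rw [map_inv₀] at h4
  have h5 : 0 < v (n : C) := zero_lt_iff.mpr ((Valuation.ne_zero_iff v).mpr hn0)
  exact le_antisymm h3 ((inv_le_one₀ h5).mp h4)

/-- The valuation ring is given by the spectral norm. -/
theorem le_one_iff [FiniteDimensional ℚ_[p] k] [Algebra.IsAlgebraic k C] [Algebra ℚ_[p] C]
    [IsScalarTower ℚ_[p] k C] (h : IsVal p k v) (c : C) :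
    v c ≤ 1 ↔ spectralNorm ℚ_[p] C c ≤ 1 := by
  have halg : Algebra.IsAlgebraic ℚ_[p] C := Algebra.IsAlgebraic.trans ℚ_[p] k C
  have key : ∀ c : C, spectralNorm ℚ_[p] C c ≤ 1 → v c ≤ 1 := by
    intro c hc
    have hmon : (minpoly ℚ_[p] c).Monic :=
      minpoly.monic (Algebra.IsAlgebraic.isAlgebraic c).isIntegral
    have hco := (spectralValue_le_one_iff hmon).mp hc
    have hmem : (↑((minpoly ℚ_[p] c).map (algebraMap ℚ_[p] C)).coeffs : Set C) ⊆ v.integer := by
      intro x hx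
      rw [Finset.mem_coe, Polynomial.mem_coeffs_iff] at hx
      obtain ⟨n, -, rfl⟩ := hx
      rw [Polynomial.coeff_map, IsScalarTower.algebraMap_apply ℚ_[p] k C]
      exact le_one_of_norm h (hco n)
    have hint : IsIntegral v.integer c := by
      refine ⟨((minpoly ℚ_[p] c).map (algebraMap ℚ_[p] C)).toSubring v.integer hmem, ?_, ?_⟩
      · rw [Polynomial.monic_toSubring]
        exact hmon.map _
      · rw [Polynomial.eval₂_eq_eval_map]
        have h1 := Polynomial.map_toSubring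
          ((minpoly ℚ_[p] c).map (algebraMap ℚ_[p] C)) v.integer hmem
        have h2 : algebraMap v.integer C = v.integer.subtype := rfl
        rw [h2, h1, Polynomial.eval_map_algebraMap, minpoly.aeval]
    exact (Valuation.integer.integers v).mem_of_integral hint
  refine ⟨fun hc => ?_, key c⟩
  by_contra hcon
  rw [not_le] at hcon
  have hc0 : c ≠ 0 := by
    rintro rfl
    rw [spectralNorm_zero] at hcon
    linarith
  obtain ⟨n, hn⟩ := pow_unbounded_of_one_lt ((p : ℝ)) hcon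
  have hf : ∀ x : C, spectralMulAlgNorm ℚ_[p] C x = spectralNorm ℚ_[p] C x := fun x => rfl
  have hp0 : (p : C) ≠ 0 := by
    have h2 : (p : C) = algebraMap ℚ_[p] C (p : ℚ_[p]) := by rw [map_natCast]
    rw [h2, Ne, map_eq_zero]
    exact_mod_cast (Fact.out : p.Prime).ne_zero
  have hy : spectralNorm ℚ_[p] C ((p : C)⁻¹ * (c ^ n)⁻¹) ≤ 1 := by
    rw [← hf, map_mul, map_inv₀, map_inv₀, map_pow, hf, hf]
    have h2 : (p : C) = algebraMap ℚ_[p] C (p : ℚ_[p]) := by rw [map_natCast]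
    rw [h2, spectralNorm_extends, Padic.norm_p, inv_inv, ← div_eq_mul_inv,
      div_le_one (by positivity)]
    exact hn.le
  have h1 := key _ hy
  rw [map_mul, map_inv₀, map_inv₀, map_pow] at h1
  have h2 : 0 < v (p : C) := zero_lt_iff.mpr ((Valuation.ne_zero_iff v).mpr hp0)
  have h3 : 0 < v c := zero_lt_iff.mpr ((Valuation.ne_zero_iff v).mpr hc0)
  have h4 : v c ^ n ≤ 1 := pow_le_one₀ zero_le hc
  have h5 : 1 < (v (p : C))⁻¹ := (one_lt_inv₀ h2).mpr (p_lt h)
  have h6 : 1 ≤ (v c ^ n)⁻¹ := (one_le_inv₀ (pow_pos h3 n)).mpr h4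
  exact absurd h1 (not_le.mpr (lt_of_lt_of_le h5 (le_mul_of_one_le_right zero_le h6)))

theorem le_one_apply [FiniteDimensional ℚ_[p] k] [Algebra.IsAlgebraic k C] (h : IsVal p k v)
    (s : C ≃ₐ[k] C) (c : C) : v (s c) ≤ 1 ↔ v c ≤ 1 := by
  let A : Algebra ℚ_[p] C := ((algebraMap k C).comp (algebraMap ℚ_[p] k)).toAlgebra
  have hT : IsScalarTower ℚ_[p] k C := IsScalarTower.of_algebraMap_eq fun x => rfl
  rw [le_one_iff h, le_one_iff h, spectralNorm_eq_of_equiv (s.restrictScalars ℚ_[p]) c]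
  rfl

theorem le_apply [FiniteDimensional ℚ_[p] k] [Algebra.IsAlgebraic k C] (h : IsVal p k v)
    (s : C ≃ₐ[k] C) (a b : C) : v (s a) ≤ v (s b) ↔ v a ≤ v b := by
  by_cases hb : b = 0
  · rw [hb, map_zero, map_zero, le_zero_iff, le_zero_iff, map_eq_zero, map_eq_zero, map_eq_zero]
  · have hb' : 0 < v b := zero_lt_iff.mpr ((Valuation.ne_zero_iff v).mpr hb)
    have hsb : s b ≠ 0 := fun h0 => hb ((map_eq_zero s).mp h0)
    have hsb' : 0 < v (s b) := zero_lt_iff.mpr ((Valuation.ne_zero_iff v).mpr hsb)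
    have h1 := le_one_apply h s (a / b)
    rw [map_div₀, map_div₀, map_div₀, div_le_one₀ hsb', div_le_one₀ hb'] at h1
    exact h1

theorem not_lt [FiniteDimensional ℚ_[p] k] [Algebra.IsAlgebraic k C] (h : IsVal p k v)
    (s : C ≃ₐ[k] C) (c : C) : ¬ v c < v (s c) := by
  intro hlt
  have hall : ∀ n : ℕ, v c < v ((s ^ (n + 1)) c) := by
    intro n
    induction n with
    | zero => simpa using hlt
    | succ n ih =>
      have h1 : v (s c) < v (s ((s ^ (n + 1)) c)) := by
        rw [← _root_.not_le, le_apply h s, _root_.not_le]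
        exact ih
      have h2 : (s ^ (n + 1 + 1)) c = s ((s ^ (n + 1)) c) := by
        rw [pow_succ' s (n + 1), AlgEquiv.mul_apply]
      rw [h2]
      exact hlt.trans h1
  have hfin : (Set.range fun n : ℕ => (s ^ n) c).Finite := by
    refine ((minpoly k c).rootSet_finite C).subset ?_
    rintro _ ⟨n, rfl⟩
    rw [Polynomial.mem_rootSet]
    refine ⟨minpoly.ne_zero (Algebra.IsAlgebraic.isAlgebraic c).isIntegral, ?_⟩
    have h1 := Polynomial.aeval_algHom_apply ((s ^ n : C ≃ₐ[k] C) : C →ₐ[k] C) c (minpoly k c)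
    rw [minpoly.aeval, map_zero] at h1
    exact h1
  have hni : ¬ Function.Injective fun n : ℕ => (s ^ n) c := fun hinj =>
    (Set.infinite_range_of_injective hinj) hfin
  rw [Function.not_injective_iff] at hni
  obtain ⟨i, j, hij, hne⟩ := hni
  have main : ∀ i j : ℕ, i < j → (s ^ i) c = (s ^ j) c → False := by
    intro i j hlt' heq
    obtain ⟨m, rfl⟩ := Nat.exists_eq_add_of_lt hlt'
    have h2 : (s ^ (i + m + 1)) c = (s ^ i) ((s ^ (m + 1)) c) := by
      rw [add_assoc, pow_add, AlgEquiv.mul_apply]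
    rw [h2] at heq
    have h3 := (s ^ i).injective heq
    have h4 := hall m
    rw [← h3] at h4
    exact lt_irrefl _ h4
  rcases lt_or_gt_of_ne hne with h1 | h1
  · exact main i j h1 hij
  · exact main j i h1 hij.symm

end VInvAux

open VInvAux

/-- V1. The valuation is invariant. -/
theorem stVInv : StVInv.{u, w} := by
  intro p _ k C _ _ _ _ _ _ Γ₀ _ v h
  refine ⟨fun s c => ?_, p_lt h, fun n hn => coprime_eq h hn⟩
  refine le_antisymm ?_ (_root_.not_lt.mp ?_)
  · have h1 := VInvAux.not_lt h s c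
    exact _root_.not_lt.mp h1
  · have h1 := VInvAux.not_lt h s.symm (s c)
    rw [AlgEquiv.symm_apply_apply] at h1
    exact h1

end Pool.Agent.Lib.MP_c385f6_ag.TPG
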