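import Pool.Agent.Lib.MP_c385f6_ag.TPG.StThm
import Pool.Agent.Lib.MP_c385f6_ag.TPG.VInv

/-!
Project TPG, G29: the package `Pk` of the properties of the reduction.
-/

set_option autoImplicit false

open Polynomial

namespace Pool.Agent.Lib.MP_c385f6_ag.TPG

universe u

namespace GPk

/-- `k' / k` is finite. -/
theorem fin_k (p : ℕ) [Fact p.Prime] (k k' : Type) [Field k] [Field k'] [Algebra ℚ_[p] k]
    [Algebra ℚ_[p] k'] [FiniteDimensional ℚ_[p] k'] [Algebra k k'] [IsScalarTower ℚ_[p] k k'] :
    FiniteDimensional k k' :=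
  Module.Finite.of_restrictScalars_finite ℚ_[p] k k'

section

variable (k : Type) {k' : Type} {K K' : Type u} [Field k] [Field k'] [Field K]
  [Field K'] [Algebra k k'] [Algebra.IsAlgebraic k k']
  [Algebra k K] [Algebra k' K'] [Algebra K K'] [Algebra k K'] [IsScalarTower k k' K']
  [IsScalarTower k K K']

include k in
theorem integral (c : k') : IsIntegral K (algebraMap k' K' c) := by
  have h1 : IsIntegral k c := (Algebra.IsAlgebraic.isAlgebraic c).isIntegral
  have h2 : IsIntegral k (algebraMap k' K' c) := h1.map (IsScalarTower.toAlgHom k k' K')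
  exact h2.tower_top

include k in
theorem alg_K (hc : IntermediateField.adjoin K (Set.range (algebraMap k' K')) = ⊤) :
    Algebra.IsAlgebraic K K' := by
  have h1 : Algebra.IsAlgebraic K (IntermediateField.adjoin K (Set.range (algebraMap k' K'))) :=
    IntermediateField.isAlgebraic_adjoin (by rintro _ ⟨c, rfl⟩; exact integral k c)
  rw [hc] at h1
  exact IntermediateField.topEquiv.isAlgebraic_iff.1 h1

/-- `K' / K` is finite. -/
theorem fin_K (hf : FiniteDimensional k k')
    (hc : IntermediateField.adjoin K (Set.range (algebraMap k' K')) = ⊤) :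
    FiniteDimensional K K' := by
  classical
  obtain ⟨S, hS⟩ := hf.fg_top
  have h1 : IntermediateField.adjoin K (algebraMap k' K' '' (S : Set k')) = ⊤ := by
    rw [eq_top_iff, ← hc, IntermediateField.adjoin_le_iff]
    rintro _ ⟨c, rfl⟩
    have h2 : c ∈ Submodule.span k (S : Set k') := by rw [hS]; trivial
    induction h2 using Submodule.span_induction with
    | mem x hx => exact IntermediateField.subset_adjoin _ _ ⟨x, hx, rfl⟩
    | zero => rw [map_zero]; exact zero_mem _
    | add x y _ _ hx hy => rw [map_add]; exact add_mem hx hy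
    | smul a x _ hx =>
      rw [Algebra.smul_def, map_mul, ← IsScalarTower.algebraMap_apply k k' K',
        IsScalarTower.algebraMap_apply k K K']
      exact mul_mem (IntermediateField.algebraMap_mem _ _) hx
  have h3 : FiniteDimensional K (IntermediateField.adjoin K (algebraMap k' K' '' (S : Set k'))) :=
    have : Finite (algebraMap k' K' '' (S : Set k')) :=
      (S.finite_toSet.image _).to_subtype
    IntermediateField.finiteDimensional_adjoin (by rintro _ ⟨c, _, rfl⟩; exact integral k c)
  rw [h1] at h3
  exact Module.Finite.equiv (IntermediateField.topEquiv (F := K) (E := K')).toLinearEquiv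

end

/-- `K'` is finite over `k'(t)`. -/
theorem fin_t (k : Type) {k' : Type} {K K' : Type u} [Field k] [Field k'] [Field K]
    [Field K'] [Algebra k k'] [FiniteDimensional k k']
    [Algebra k K] [Algebra k' K'] [Algebra K K'] [Algebra k K'] [IsScalarTower k k' K']
    [IsScalarTower k K K'] (t : K)
    (hc : IntermediateField.adjoin K (Set.range (algebraMap k' K')) = ⊤)
    (ht : FiniteDimensional (IntermediateField.adjoin k {t}) K) :
    FiniteDimensional (IntermediateField.adjoin k' {algebraMap K K' t}) K' := by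
  have h1 : FiniteDimensional K K' := fin_K k inferInstance hc
  -- the embedding of `k(t)` into `k'(t)`
  have h2 : ∀ x : K, x ∈ IntermediateField.adjoin k {t} →
      algebraMap K K' x ∈ IntermediateField.adjoin k' {algebraMap K K' t} := by
    intro x hx
    induction hx using IntermediateField.adjoin_induction with
    | mem x hx =>
      rw [Set.mem_singleton_iff.1 hx]
      exact IntermediateField.mem_adjoin_simple_self _ _
    | algebraMap x =>
      rw [← IsScalarTower.algebraMap_apply k K K', IsScalarTower.algebraMap_apply k k' K']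
      exact IntermediateField.algebraMap_mem _ _
    | add x y _ _ hx hy => rw [map_add]; exact add_mem hx hy
    | mul x y _ _ hx hy => rw [map_mul]; exact mul_mem hx hy
    | inv x _ hx => rw [map_inv₀]; exact inv_mem hx
  let φ : IntermediateField.adjoin k {t} →+* IntermediateField.adjoin k' {algebraMap K K' t} :=
    ((algebraMap K K').comp (algebraMap (IntermediateField.adjoin k {t}) K)).codRestrict
      (IntermediateField.adjoin k' {algebraMap K K' t}) (fun x => h2 x x.2)
  let _ : Algebra (IntermediateField.adjoin k {t})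
    (IntermediateField.adjoin k' {algebraMap K K' t}) := φ.toAlgebra
  have h3 : IsScalarTower (IntermediateField.adjoin k {t})
      (IntermediateField.adjoin k' {algebraMap K K' t}) K' :=
    IsScalarTower.of_algebraMap_eq fun x => rfl
  have h4 : FiniteDimensional (IntermediateField.adjoin k {t}) K' :=
    Module.Finite.trans K K'
  exact Module.Finite.of_restrictScalars_finite (IntermediateField.adjoin k {t}) _ _

/-- The reduction `R` induces the `p`-adic valuation on `k'`, and `t` is a good coordinate. -/
theorem mdl (p : ℕ) [Fact p.Prime] (k k' : Type) {K K' Ω F U : Type u} [Field k] [Field k']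
    [Field K] [Field K'] [Field Ω] [Field F] [Field U] [Algebra ℚ_[p] k]
    [FiniteDimensional ℚ_[p] k] [Algebra ℚ_[p] k'] [FiniteDimensional ℚ_[p] k'] [Algebra k k']
    [IsScalarTower ℚ_[p] k k'] [Algebra k K] [Algebra k' K'] [Algebra K K']
    [Algebra k K'] [IsScalarTower k k' K'] [IsScalarTower k K K'] [Algebra k Ω] [Algebra K Ω]
    [IsScalarTower k K Ω] [Algebra K' Ω] [IsScalarTower K K' Ω] [Algebra k' Ω]
    [IsScalarTower k' K' Ω] [Algebra k' (algebraicClosure k Ω)]
    [IsScalarTower k' (algebraicClosure k Ω) Ω] [Algebra F U]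
    (R : Red (algebraicClosure k Ω) Ω F U) (t : K) (hG : TamelyGood p k k' K' t)
    (hv : IsVal p k R.v) (hm : algebraMap K Ω t ∈ R.w)
    (ht : Transcendental F (R.res (algebraMap K Ω t))) : Mdl p k' R (algebraMap K K' t) := by
  have hfk : FiniteDimensional k k' := fin_k p k k'
  have hT : IsScalarTower k k' Ω := IsScalarTower.of_algebraMap_eq fun x => by
    rw [IsScalarTower.algebraMap_apply k' K' Ω, ← IsScalarTower.algebraMap_apply k k' K',
      IsScalarTower.algebraMap_apply k K K', ← IsScalarTower.algebraMap_apply K K' Ω,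
      ← IsScalarTower.algebraMap_apply k K Ω]
  refine ⟨fun c => ?_, ?_, ?_, ?_, ?_, hG.good⟩
  · -- the valuation
    let _ : Algebra ℚ_[p] (algebraicClosure k Ω) :=
      ((algebraMap k (algebraicClosure k Ω)).comp (algebraMap ℚ_[p] k)).toAlgebra
    have h1 : IsScalarTower ℚ_[p] k (algebraicClosure k Ω) :=
      IsScalarTower.of_algebraMap_eq fun x => rfl
    have h2 : IsScalarTower ℚ_[p] k' (algebraicClosure k Ω) :=
      IsScalarTower.of_algebraMap_eq fun x => by
        apply Subtype.ext
        change algebraMap k Ω (algebraMap ℚ_[p] k x) =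
          algebraMap (algebraicClosure k Ω) Ω (algebraMap k' (algebraicClosure k Ω) _)
        rw [← IsScalarTower.algebraMap_apply k' (algebraicClosure k Ω) Ω,
          IsScalarTower.algebraMap_apply ℚ_[p] k k', ← IsScalarTower.algebraMap_apply k k' Ω]
    have h3 := VInvAux.le_one_iff hv (algebraMap k' (algebraicClosure k Ω) c)
    rw [← spectralNorm.eq_of_tower] at h3
    rw [← h3, IsScalarTower.algebraMap_apply k' (algebraicClosure k Ω) Ω]
    exact (R.w.valuation_le_one_iff _).symm
  · rw [← IsScalarTower.algebraMap_apply K K' Ω]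
    exact hm
  · rw [← IsScalarTower.algebraMap_apply K K' Ω]
    exact ht
  · intro h1
    have h2 : IsAlgebraic k (algebraMap K K' t) := h1.restrictScalars k
    rw [isAlgebraic_algebraMap_iff (algebraMap K K').injective] at h2
    exact hG.trans h2
  · have := hfk
    exact fin_t k t hG.comp hG.fin

end GPk

open GPk in
/-- G29. The package. -/
theorem stPk (hK2 : StK2.{u}) (hFp : StFp.{u, u, u, u}) (hGd : StGoodL.{u, u, u, u})
    (hEx : StRedEx.{u}) (hSt : StPkStab.{u}) (hRm : StPkRam.{u}) (hCr : StPkCrd.{u})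
    (hRat : StRat.{u, u}) : StPk.{u} := by
  intro p _ k k' K K' Ω _ _ _ _ _ _ _ _ _ _ _ _ _ _ _ _ _ _ _ _ _ _ t hG hne
  have hfk : FiniteDimensional k k' := fin_k p k k'
  have hKalg : Algebra.IsAlgebraic K K' := alg_K k hG.comp
  have hΩ : IsAlgClosed Ω := IsAlgClosure.isAlgClosed K
  let ι : K' →ₐ[K] Ω := IsAlgClosed.lift
  let _ : Algebra K' Ω := (ι : K' →+* Ω).toAlgebra
  have t1 : IsScalarTower K K' Ω := IsScalarTower.of_algebraMap_eq fun x => (ι.commutes x).symm
  let _ : Algebra k' Ω := ((algebraMap K' Ω).comp (algebraMap k' K')).toAlgebra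
  have t2 : IsScalarTower k' K' Ω := IsScalarTower.of_algebraMap_eq fun x => rfl
  have t3 : IsScalarTower k k' Ω := IsScalarTower.of_algebraMap_eq fun x => by
    rw [IsScalarTower.algebraMap_apply k' K' Ω, ← IsScalarTower.algebraMap_apply k k' K',
      IsScalarTower.algebraMap_apply k K K', ← IsScalarTower.algebraMap_apply K K' Ω,
      ← IsScalarTower.algebraMap_apply k K Ω]
  have h1 : ∀ c : k', algebraMap k' Ω c ∈ algebraicClosure k Ω := by
    intro c
    rw [mem_algebraicClosure_iff]
    exact ((Algebra.IsAlgebraic.isAlgebraic c).algebraMap : IsAlgebraic k (algebraMap k' Ω c))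
  let _ : Algebra k' (algebraicClosure k Ω) :=
    ((algebraMap k' Ω).codRestrict (algebraicClosure k Ω) h1).toAlgebra
  have t4 : IsScalarTower k' (algebraicClosure k Ω) Ω := IsScalarTower.of_algebraMap_eq fun x => rfl
  have t5 : IsScalarTower k k' (algebraicClosure k Ω) := IsScalarTower.of_algebraMap_eq fun x => by
    apply Subtype.ext
    exact IsScalarTower.algebraMap_apply k k' Ω x
  have hCc : IsAlgClosed (algebraicClosure k Ω) := (algebraicClosure.isAlgClosure k Ω).isAlgClosed
  have hCa : Algebra.IsAlgebraic k (algebraicClosure k Ω) :=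
    (algebraicClosure.isAlgClosure k Ω).isAlgebraic
  have hCa' : Algebra.IsAlgebraic k' (algebraicClosure k Ω) :=
    Algebra.IsAlgebraic.tower_top (K := k) k'
  have htr : Transcendental (algebraicClosure k Ω) (algebraMap K Ω t) := by
    intro h
    have h2 : IsAlgebraic k (algebraMap K Ω t) := h.restrictScalars k
    rw [isAlgebraic_algebraMap_iff (algebraMap K Ω).injective] at h2
    exact hG.trans h2
  obtain ⟨F, U, _, _, _, R, hF, hU, hv, hmt, hrt⟩ :=
    hEx p k (algebraicClosure k Ω) Ω (algebraMap K Ω t) htr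
  have hM : Mdl p k' R (algebraMap K K' t) := mdl p k k' R t hG hv hmt hrt
  have hfp : FpBar p F := hFp p k' K' Ω (algebraicClosure k Ω) F U R _ hM
  let L : IntermediateField (algebraicClosure k Ω) Ω :=
    IntermediateField.adjoin (algebraicClosure k Ω) (Set.range (algebraMap K Ω))
  have hL : L = IntermediateField.adjoin (algebraicClosure k Ω) (Set.range (algebraMap K' Ω)) :=
    (hK2 p k k' K K' Ω F U R t L hG hv hM rfl).1
  obtain ⟨g, hg⟩ := hGd p k' K' Ω (algebraicClosure k Ω) F U R _ hM L hL
  -- the genus is positive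
  have hpos : 1 ≤ g := by
    by_contra h0
    have h0' : g = 0 := by omega
    rw [h0'] at hg
    obtain ⟨x, hx⟩ := (hRat (algebraicClosure k Ω) L hg.ffC).1.2 hg.genC
    apply hne x
    have h2 := congrArg IntermediateField.lift hx
    rw [IntermediateField.lift_adjoin_simple, IntermediateField.lift_top] at h2
    exact h2
  -- the image of `k'`
  let k₂ : IntermediateField k (algebraicClosure k Ω) :=
    (IsScalarTower.toAlgHom k k' (algebraicClosure k Ω)).fieldRange
  have hk₂ : ∀ c : algebraicClosure k Ω, c ∈ k₂ ↔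
      ∃ c' : k', algebraMap k' (algebraicClosure k Ω) c' = c := fun c => Iff.rfl
  let e : k' ≃ₐ[k] k₂ :=
    AlgEquiv.ofInjectiveField (IsScalarTower.toAlgHom k k' (algebraicClosure k Ω))
  have hco : ∀ s : Ω ≃ₐ[K] Ω, (∀ c : algebraicClosure k Ω, c ∈ k₂ → s (c : Ω) = c) →
      ∀ c : k', s (algebraMap k' Ω c) = algebraMap k' Ω c := fun s hs c =>
    hs _ ((hk₂ _).2 ⟨c, rfl⟩)
  refine ⟨F, U, inferInstance, inferInstance, inferInstance, R, L, g, k₂, ⟨hv, hfp, hU, rfl,
    hG.const, hpos, hg, ?_, ?_, ?_, ?_, ?_, ?_, ?_⟩⟩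
  · exact (hSt p k k' K K' Ω F U R t L hG hv hM rfl).1
  · exact Module.Finite.equiv e.toLinearEquiv
  · exact Normal.of_algEquiv e
  · intro s hs
    obtain ⟨n, hn, hn'⟩ := (hRm p k k' K K' Ω F U R t L hG hv hM rfl).1 s hs
    refine ⟨n, hn, fun c hc => ?_⟩
    obtain ⟨c', rfl⟩ := (hk₂ c).1 hc
    exact hn' c'
  · intro s hs hs'
    exact (hSt p k k' K K' Ω F U R t L hG hv hM rfl).2 s hs (hco s hs')
  · exact (hRm p k k' K K' Ω F U R t L hG hv hM rfl).2
  · intro sp x hsp
    obtain ⟨u, T, hu, hT, hs⟩ := hCr p k k' K K' Ω F U R t L g hG hv hM rfl hg sp x hsp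
    exact ⟨u, T, hu, hT, fun s hs' hsT => hs s (hco s hs') hsT⟩

end Pool.Agent.Lib.MP_c385f6_ag.TPG
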