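import Pool.Agent.Lib.MP_c385f6_ag.TPG.StThm
import Pool.Agent.Lib.MP_c385f6_ag.TPG.GMA

/-!
Project TPG, part G, module G27: tameness and ramification.
-/

set_option autoImplicit false

open Polynomial

namespace Pool.Agent.Lib.MP_c385f6_ag.TPG

universe u v

theorem stPkRam (h2 : StK2.{u}) (hE : StExt.{u}) (hI : StInL.{u, u}) : StPkRam.{u} := by
  intro p hp k k' K K' Ω F U _ _ _ _ _ _ _ _ _ _ _ _ _ _ _ _ _ _ _ _ _ _ _ _ _ _ _ _ _ _ _ _
    R t L hT hV hM hL
  have : CharZero k := charZero_of_injective_algebraMap (algebraMap ℚ_[p] k).injective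
  obtain ⟨hE1, hE2, hE3⟩ := hE k K Ω hT.const
  obtain ⟨hL2, hres, hfix, hext⟩ := h2 p k k' K K' Ω F U R t L hT hV hM hL
  have := hE3
  refine ⟨?_, ?_⟩
  · intro s hs
    obtain ⟨g, hg, -, -, hg4⟩ := hres s
    refine ⟨orderOf g, hT.tame g (hg4 hs), ?_⟩
    have hpow : ∀ (n : ℕ) (a : K'), (s ^ n) (algebraMap K' Ω a) = algebraMap K' Ω ((g ^ n) a) := by
      intro n
      induction n with
      | zero => intro a; rfl
      | succ n ih =>
        intro a
        rw [pow_succ, pow_succ, AlgEquiv.mul_apply, AlgEquiv.mul_apply, hg, ih]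
    intro c
    rw [IsScalarTower.algebraMap_apply k' K' Ω, hpow, pow_orderOf_eq_one]
    rfl
  · obtain ⟨g, hgI, a, b, hab, hb⟩ := hT.ram
    obtain ⟨s0, hs0⟩ := hext g
    obtain ⟨n0, hn0⟩ := hE2 s0
    have htow : IsScalarTower k k' (algebraicClosure k Ω) := by
      refine IsScalarTower.of_algebraMap_eq fun x => ?_
      apply (algebraMap (algebraicClosure k Ω) Ω).injective
      rw [← IsScalarTower.algebraMap_apply k (algebraicClosure k Ω) Ω,
        ← IsScalarTower.algebraMap_apply k' (algebraicClosure k Ω) Ω,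
        IsScalarTower.algebraMap_apply k' K' Ω, ← IsScalarTower.algebraMap_apply k k' K',
        IsScalarTower.algebraMap_apply k K K', ← IsScalarTower.algebraMap_apply K K' Ω,
        ← IsScalarTower.algebraMap_apply k K Ω]
    have halg : Algebra.IsAlgebraic k' (algebraicClosure k Ω) :=
      Algebra.IsAlgebraic.tower_top (K := k) k'
    let f : k' →ₐ[k] algebraicClosure k Ω := IsScalarTower.toAlgHom k k' (algebraicClosure k Ω)
    have hf : ∀ c : k', ((f c : algebraicClosure k Ω) : Ω) = algebraMap k' Ω c := fun c =>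
      (IsScalarTower.algebraMap_apply k' (algebraicClosure k Ω) Ω c).symm
    have : FiniteDimensional k k' := FiniteDimensional.right ℚ_[p] k k'
    have hfin : FiniteDimensional k f.fieldRange :=
      LinearEquiv.finiteDimensional (AlgEquiv.ofInjectiveField f).toLinearEquiv
    have hint : ∀ c : k', algebraMap k' Ω c ∈ R.w ↔ spectralNorm ℚ_[p] k' c ≤ 1 := hM.int
    have hcond : ∀ c ∈ f.fieldRange, R.v c ≤ 1 → R.v (n0 c - c) < 1 := by
      rintro _ ⟨c, rfl⟩ hc
      have hc1 : algebraMap k' Ω c ∈ R.w := by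
        rw [← R.w.valuation_le_one_iff, ← hf c]
        exact hc
      obtain ⟨d, hd, hgd⟩ := hgI c ((hint c).1 hc1)
      have h3 : (n0 (f c) - f c : algebraicClosure k Ω) = f d := by
        apply Subtype.ext
        change ((n0 (f c) : algebraicClosure k Ω) : Ω) - ((f c : algebraicClosure k Ω) : Ω) = _
        rw [← hn0, hf, hf, IsScalarTower.algebraMap_apply k' K' Ω, hs0, hgd,
          ← IsScalarTower.algebraMap_apply k' K' Ω, ← IsScalarTower.algebraMap_apply k' K' Ω,
          map_add, add_sub_cancel_left]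
      have h4 : R.v (f d) = R.w.valuation (algebraMap k' Ω d) := by
        rw [← hf d]
        rfl
      change R.v (n0 (f c) - f c) < 1
      rw [h3, h4, ← R.res_lt _ ((hint d).2 hd.le)]
      exact (GMAAux.res_const_eq_zero hint hd.le).2 hd
    obtain ⟨n, hn1, hn2⟩ := hI p k (algebraicClosure k Ω) _ R.v hV f.fieldRange hfin n0 hcond
    obtain ⟨n', hn'⟩ := hE1 n
    have hn'K : ∀ x : K', n' (algebraMap K' Ω x) = algebraMap K' Ω x := by
      apply hfix
      intro c
      rw [← hf c, hn']
      exact congrArg Subtype.val (hn1 (f c) ⟨c, rfl⟩)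
    refine ⟨s0 * n', ?_, algebraMap K' Ω a, ?_, ?_, ?_⟩
    · intro c hc
      have h3 : (s0 * n') (c : Ω) = (((n0 * n : algebraicClosure k Ω ≃ₐ[k] algebraicClosure k Ω) c :
          algebraicClosure k Ω) : Ω) := by
        rw [AlgEquiv.mul_apply, hn', hn0]
        rfl
      have h4 : R.w.valuation ((s0 * n') (c : Ω) - c) < 1 := by
        rw [h3]
        exact hn2 c ((R.w.valuation_le_one_iff _).2 hc)
      have h5 : (s0 * n') (c : Ω) - c ∈ R.w := (R.w.valuation_le_one_iff _).1 h4.le
      have h6 := R.res_add (c : Ω) hc _ h5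
      rw [(R.res_lt _ h5).2 h4, add_zero, add_sub_cancel] at h6
      exact h6
    · rw [hL2]
      exact IntermediateField.subset_adjoin _ _ ⟨a, rfl⟩
    · exact (stMA p k' K' Ω (algebraicClosure k Ω) F U R _ hM _ (Set.mem_insert _ _) a).1
    · have h3 := stMA p k' K' Ω (algebraicClosure k Ω) F U R _ hM _ (Set.mem_insert _ _) a
      have h4 := stMA p k' K' Ω (algebraicClosure k Ω) F U R _ hM _ (Set.mem_insert _ _) b
      rw [AlgEquiv.mul_apply, hn'K, hs0, hab, map_add, R.res_add _ h3.1 _ h4.1]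
      intro h5
      have h6 : R.res (algebraMap K' Ω b) = 0 := by
        have := add_eq_left.1 h5
        exact this
      exact hb (h4.2.1 h6)

end Pool.Agent.Lib.MP_c385f6_ag.TPG
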