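import Pool.Agent.Lib.MP_c385f6_ag.TPG.StThm
import Pool.Agent.Lib.MP_c385f6_ag.TPG.GStab

/-!
Project TPG, G26: the valuation ring of `L` is stable under `Gal(Ω / K)`.
-/

set_option autoImplicit false

open Polynomial

namespace Pool.Agent.Lib.MP_c385f6_ag.TPG

universe u v u' v'

namespace PkStabAux

open StabAux Lin

section Cst

variable {k : Type} {K Ω : Type u} [Field k] [Field K] [Field Ω] [Algebra k K] [Algebra k Ω]
  [Algebra K Ω] [IsScalarTower k K Ω]

/-- the automorphism of the constants -/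
noncomputable def cst (s : Ω ≃ₐ[K] Ω) : algebraicClosure k Ω ≃ₐ[k] algebraicClosure k Ω :=
  (s.restrictScalars k).algebraicClosure

theorem cst_spec (s : Ω ≃ₐ[K] Ω) (c : algebraicClosure k Ω) :
    ((cst s c : algebraicClosure k Ω) : Ω) = s c := rfl

end Cst

section Res

variable {Ω : Type v} {C : Type u} {F : Type u'} {U : Type v'} [Field Ω] [Field C] [Field F]
  [Field U] [Algebra C Ω] [Algebra F U] {R : Red C Ω F U}

theorem res_congr {x y : Ω} (hx : x ∈ R.w) (h : R.w.valuation (y - x) < 1) :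
    y ∈ R.w ∧ R.res y = R.res x := by
  have h1 : y - x ∈ R.w := (R.w.valuation_le_one_iff _).1 h.le
  have h2 : y = x + (y - x) := by ring
  refine ⟨by rw [h2]; exact add_mem hx h1, ?_⟩
  rw [h2, R.res_add x hx _ h1, (R.res_lt _ h1).2 h, add_zero]

/-- `s` on `C(T) ∩ w`, for `s` that acts trivially on the residue field of the constants -/
theorem tau_res {T : Ω} (hTw : T ∈ R.w) (ht : Transcendental F (R.res T)) (s : Ω →+* Ω)
    (σ : C →+* C) (hσ : ∀ c, s (algebraMap C Ω c) = algebraMap C Ω (σ c)) (hT : s T = T)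
    (hin : ∀ c : C, R.w.valuation (algebraMap C Ω c) ≤ 1 →
      R.w.valuation (algebraMap C Ω (σ c - c)) < 1) {q : Ω}
    (hq : q ∈ IntermediateField.adjoin C {T}) (hqw : q ∈ R.w) :
    s q ∈ R.w ∧ R.res (s q) = R.res q := by
  obtain ⟨r, s', hrs⟩ := (IntermediateField.mem_adjoin_simple_iff C q).1 hq
  by_cases hs : aeval T s' = 0
  · have hq0 : q = 0 := by rw [hrs, hs, div_zero]
    rw [hq0, map_zero]
    exact ⟨zero_mem _, rfl⟩
  obtain ⟨c, hc, hcr⟩ := poly_scale hTw ht s' hs
  obtain ⟨P, hP⟩ : ∃ P : C[X], P = Polynomial.C c * r := ⟨_, rfl⟩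
  obtain ⟨Q, hQ⟩ : ∃ Q : C[X], Q = Polynomial.C c * s' := ⟨_, rfl⟩
  have hQT : aeval T Q = algebraMap C Ω c * aeval T s' := by
    rw [hQ, map_mul, aeval_C]
  have hPT : aeval T P = algebraMap C Ω c * aeval T r := by
    rw [hP, map_mul, aeval_C]
  have hQr : R.res (aeval T Q) ≠ 0 := by
    rw [hQT]
    exact hcr
  have hQ1 : R.w.valuation (aeval T Q) = 1 := Red.val_eq_one hQr
  have hqPQ : q * aeval T Q = aeval T P := by
    rw [hQT, hPT, hrs]
    field_simp
  have hPv : R.w.valuation (aeval T P) = R.w.valuation q := by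
    rw [← hqPQ, map_mul, hQ1, mul_one]
  have hPw : aeval T P ∈ R.w := by
    rw [← R.w.valuation_le_one_iff, hPv]
    exact (R.w.valuation_le_one_iff _).2 hqw
  have hsa : ∀ S : C[X], s (aeval T S) = aeval T (S.map σ) := by
    intro S
    rw [aeval_def, hom_eval₂, hT, aeval_def, eval₂_map]
    congr 1
    ext c
    exact hσ c
  have key : ∀ S : C[X], (∀ i, R.w.valuation (algebraMap C Ω (S.coeff i)) ≤ 1) →
      R.w.valuation (s (aeval T S) - aeval T S) < 1 := by
    intro S hS
    rw [hsa, ← map_sub]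
    apply aeval_lt hTw
    intro i
    rw [coeff_sub, coeff_map]
    exact hin _ (hS i)
  have h1 := res_congr (Red.mem_of_res_ne hQr) (key Q fun i => by
    rw [← hQ1]
    exact coeff_le hTw ht Q i)
  have h2 := res_congr hPw (key P fun i => by
    refine (coeff_le hTw ht P i).trans ?_
    rw [hPv]
    exact (R.w.valuation_le_one_iff _).2 hqw)
  have h3 : s q * s (aeval T Q) = s (aeval T P) := by rw [← map_mul, hqPQ]
  have hQr' : R.res (s (aeval T Q)) ≠ 0 := by
    rw [h1.2]
    exact hQr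
  have h4 : s q ∈ R.w := by
    have h5 : s q = s (aeval T P) * (s (aeval T Q))⁻¹ := by
      rw [← h3, mul_assoc, mul_inv_cancel₀, mul_one]
      intro h0
      rw [h0, R.res_zero] at hQr'
      exact hQr' rfl
    rw [h5]
    exact mul_mem h2.1 (Red.inv_mem hQr')
  refine ⟨h4, ?_⟩
  have h5 : R.res (s q) * R.res (s (aeval T Q)) = R.res q * R.res (aeval T Q) := by
    rw [← R.res_mul _ h4 _ h1.1, h3, h2.2, ← R.res_mul _ hqw _ (Red.mem_of_res_ne hQr), hqPQ]
  rw [h1.2] at h5
  exact mul_right_cancel₀ hQr h5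

end Res

end PkStabAux

open PkStabAux StabAux Lin in
/-- G26. -/
theorem stPkStab (h1 : StK2.{u}) (h2 : StStab.{u, u, u, u}) (h3 : StBasC.{u, u, u, u})
    (h4 : StLvl.{u, u, u, u}) (h5 : StVInv.{u, u}) : StPkStab.{u} := by
  intro p _ k k' K K' Ω F U _ _ _ _ _ _ _ _ _ _ _ _ _ _ _ _ _ _ _ _ _ _ _ _ _ _ _ _ _ _ _ _
    R t L hT hval hM hL
  obtain ⟨e1, e2, e3, -⟩ := h1 p k k' K K' Ω F U R t L hT hval hM hL
  have hΩ : IsAlgClosed Ω := IsAlgClosure.isAlgClosed K
  have hC : IsAlgClosed (algebraicClosure k Ω) := IsAlgClosure.isAlgClosed k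
  -- the tower `k ⊆ k' ⊆ C`
  have htw : ∀ x : k, algebraMap k' Ω (algebraMap k k' x) = algebraMap k Ω x := by
    intro x
    rw [IsScalarTower.algebraMap_apply k' K' Ω, ← IsScalarTower.algebraMap_apply k k' K',
      IsScalarTower.algebraMap_apply k K K', ← IsScalarTower.algebraMap_apply K K' Ω,
      ← IsScalarTower.algebraMap_apply k K Ω]
  have htC : IsScalarTower k k' (algebraicClosure k Ω) := by
    refine IsScalarTower.of_algebraMap_eq fun x => ?_
    apply (algebraMap (algebraicClosure k Ω) Ω).injective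
    rw [← IsScalarTower.algebraMap_apply k' (algebraicClosure k Ω) Ω, htw,
      ← IsScalarTower.algebraMap_apply k (algebraicClosure k Ω) Ω]
  have halg : Algebra.IsAlgebraic k' (algebraicClosure k Ω) :=
    Algebra.IsAlgebraic.tower_top (K := k) k'
  have hv : ∀ (s : Ω ≃ₐ[K] Ω) (c : algebraicClosure k Ω), R.v (cst s c) = R.v c :=
    fun s c => (h5 p k (algebraicClosure k Ω) R.w.ValueGroup R.v hval).1 (cst s) c
  have hst : ∀ s : Ω ≃ₐ[K] Ω, s (algebraMap K' Ω (algebraMap K K' t)) =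
      algebraMap K' Ω (algebraMap K K' t) := by
    intro s
    rw [← IsScalarTower.algebraMap_apply K K' Ω]
    exact s.commutes t
  have part1 : ∀ (s : Ω ≃ₐ[K] Ω) (z : Ω), z ∈ L → z ∈ R.w → s z ∈ R.w := by
    intro s z hz hzw
    obtain ⟨g, hg1, -, hg3, -⟩ := e2 s
    have h6 := h2 p k' K' Ω (algebraicClosure k Ω) F U R (algebraMap K K' t) hM L e1
      ((s : Ω →+* Ω).comp (algebraMap L Ω))
      (fun c => ⟨cst s c, rfl, fun h => by rw [hv]; exact h, fun h => by rw [hv]; exact h⟩)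
      (fun f hf => by
        change s (f : Ω) = _
        rw [hf, hst])
      (fun a ha f hf => ⟨g a, hg3 a ha, by
        change s (f : Ω) = _
        rw [hf, hg1]⟩)
      ⟨z, hz⟩ hzw
    exact h6.1
  refine ⟨part1, fun s hs hk z hz hzw => ?_⟩
  obtain ⟨d, y, hy, hspan, hind⟩ := h3 p k' K' Ω (algebraicClosure k Ω) F U R
    (algebraMap K K' t) hM
  obtain ⟨c, hc, hcw, hzc⟩ := (h4 p k' K' Ω (algebraicClosure k Ω) F U R
    (algebraMap K K' t) hM L e1).2 d y hy hspan hind z hz hzw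
  have hin : ∀ c : algebraicClosure k Ω, R.w.valuation (algebraMap _ Ω c) ≤ 1 →
      R.w.valuation (algebraMap _ Ω (cst s c - c)) < 1 := by
    intro c hc
    have hcw : (c : Ω) ∈ R.w := (R.w.valuation_le_one_iff _).1 hc
    have hcw' : ((cst s c : algebraicClosure k Ω) : Ω) ∈ R.w := by
      rw [← R.w.valuation_le_one_iff]
      have := hv s c
      change R.w.valuation ((cst s c : algebraicClosure k Ω) : Ω) = R.w.valuation (c : Ω) at this
      rw [this]
      exact hc
    have h6 : R.res ((cst s c : algebraicClosure k Ω) : Ω) = R.res (c : Ω) := hs c hcw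
    have h7 : ((cst s c : algebraicClosure k Ω) : Ω) - c ∈ R.w := sub_mem hcw' hcw
    have h8 : R.res (((cst s c : algebraicClosure k Ω) : Ω) - c) = 0 := by
      rw [Red.res_sub R hcw' hcw, h6, sub_self]
    exact (R.res_lt _ h7).1 h8
  have hrat : ∀ i, s (c i) ∈ R.w ∧ R.res (s (c i)) = R.res (c i) := fun i =>
    tau_res (T := algebraMap K' Ω (algebraMap K K' t)) hM.mem hM.trans (s : Ω →+* Ω)
      (cst s).toAlgHom.toRingHom (fun _ => rfl) (hst s) (fun c hc => hin c hc) (hc i) (hcw i)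
  have hyw : ∀ i, algebraMap K' Ω (y i) ∈ R.w := fun i => model_mem hM (hy i)
  have hsz : s z = ∑ i, s (c i) * algebraMap K' Ω (y i) := by
    rw [hzc, map_sum]
    refine Finset.sum_congr rfl fun i _ => ?_
    rw [map_mul, e3 s hk]
  have h6 : R.res (∑ i, s (c i) * algebraMap K' Ω (y i)) =
      ∑ i, R.res (s (c i) * algebraMap K' Ω (y i)) :=
    Lin.res_sum R Finset.univ _ fun i _ => mul_mem (hrat i).1 (hyw i)
  have h7 : R.res (∑ i, c i * algebraMap K' Ω (y i)) =
      ∑ i, R.res (c i * algebraMap K' Ω (y i)) :=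
    Lin.res_sum R Finset.univ _ fun i _ => mul_mem (hcw i) (hyw i)
  rw [hsz, hzc, h6, h7]
  refine Finset.sum_congr rfl fun i _ => ?_
  rw [R.res_mul _ (hrat i).1 _ (hyw i), R.res_mul _ (hcw i) _ (hyw i), (hrat i).2]

end Pool.Agent.Lib.MP_c385f6_ag.TPG
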