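import Pool.Agent.Lib.MP_c385f6_ag.TPG.StG

/-!
Project TPG, part G, G10: the spaces `L(m (t)_∞)` and integrality over `F[t]` and `F[1/t]`.
-/

set_option autoImplicit false

namespace Pool.Agent.Lib.MP_c385f6_ag.TPG

universe u v

namespace GPlAux

variable {F : Type u} {W : Type v} [Field F] [Field W] [Algebra F W]

theorem dg_nsmul (m : ℕ) (D : Dv F W) : dg (m • D) = m * dg D := by
  induction m with
  | zero =>
    rw [zero_smul, Nat.cast_zero, zero_mul]
    exact Finsupp.sum_zero_index
  | succ k ih =>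
    have h : dg (k • D + D) = dg (k • D) + dg D :=
      Finsupp.sum_add_index' (fun _ => rfl) (fun _ _ _ => rfl)
    rw [succ_nsmul, h, ih]
    push_cast
    ring

theorem dg_eq_finsum (D : Dv F W) : dg D = ∑ᶠ P : Plc F W, D P := by
  unfold dg Finsupp.sum
  rw [finsum_eq_sum_of_support_subset (s := D.support)]
  intro P hP
  simpa using hP

theorem int_mem (P : Plc F W) {x f : W} (hx : x ∈ P.ring)
    (hf : IsIntegral (Algebra.adjoin F {x}) f) : f ∈ P.ring := by
  have hle : ∀ a ∈ Algebra.adjoin F {x}, a ∈ P.ring := by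
    intro a ha
    induction ha using Algebra.adjoin_induction with
    | mem y hy =>
      rw [Set.mem_singleton_iff] at hy
      rw [hy]; exact hx
    | algebraMap c => exact P.const_mem c
    | add a b _ _ ha hb => exact add_mem ha hb
    | mul a b _ _ ha hb => exact mul_mem ha hb
  obtain ⟨p, hp, hpe⟩ := hf
  let φ : Algebra.adjoin F {x} →+* P.ring :=
    { toFun := fun a => ⟨a, hle a a.2⟩
      map_one' := rfl
      map_mul' := fun _ _ => rfl
      map_zero' := rfl
      map_add' := fun _ _ => rfl }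
  have h1 : IsIntegral P.ring f := by
    refine ⟨p.map φ, hp.map φ, ?_⟩
    rw [Polynomial.eval₂_map]
    exact hpe
  obtain ⟨y, hy⟩ := IsIntegrallyClosed.isIntegral_iff.1 h1
  rw [← hy]
  exact y.2

theorem int_iff (x f : W) : IsIntegral (Algebra.adjoin F {x}) f ↔
    ∀ P : Plc F W, x ∈ P.ring → f ∈ P.ring := by
  constructor
  · intro h P hx
    exact int_mem P hx h
  intro h
  by_contra hf
  let R : Subring W := (integralClosure (Algebra.adjoin F {x}) W).toSubring
  have hR : IsIntegrallyClosedIn R W := by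
    have : IsIntegrallyClosedIn (integralClosure (Algebra.adjoin F {x}) W) W := inferInstance
    exact this
  have hfR : f ∉ R := hf
  obtain ⟨V, hV, hfV⟩ := R.exists_le_valuationSubring_of_isIntegrallyClosedIn hfR
  have hRV : ∀ a ∈ Algebra.adjoin F {x}, a ∈ V := by
    intro a ha
    apply hV
    change IsIntegral (Algebra.adjoin F {x}) a
    exact isIntegral_algebraMap (R := Algebra.adjoin F {x}) (A := W) (x := ⟨a, ha⟩)
  refine hfV (h ⟨V, ?_, ?_⟩ ?_)
  · rintro rfl
    exact hfV trivial
  · intro c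
    exact hRV _ (Subalgebra.algebraMap_mem _ c)
  · exact hRV _ (Algebra.self_mem_adjoin_singleton F x)

end GPlAux

open GPlAux in
/-- G10. The spaces `L(m (t)_∞)`. -/
theorem stPl (h1 : StOrd.{u, v}) (h5 : StDeg.{u, v}) (h6 : StRRF.{u, v}) : StPl.{u, v} := by
  intro F W _ _ _ _ t hFF ht m
  have O := h1 F W hFF
  have R := h6 F W hFF
  have ht0 : t ≠ 0 := by
    rintro rfl
    exact ht isAlgebraic_zero
  have htc : ∀ c : F, t ≠ algebraMap F W c := by
    rintro c rfl
    exact ht (isAlgebraic_algebraMap c)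
  have hD := h5 F W hFF t htc
  have hap : ∀ P : Plc F W, ((-dv t) ⊔ 0 : Dv F W) P = max (- ord P t) 0 := by
    intro P
    rw [Finsupp.sup_apply, Finsupp.neg_apply, R.dv_apply t P ht0]
    rfl
  have hpl : ∀ P : Plc F W, pl F t m P = m * max (- ord P t) 0 := by
    intro P
    unfold pl
    rw [Finsupp.smul_apply, hap, nsmul_eq_mul]
  refine ⟨?_, ?_⟩
  · unfold pl
    rw [dg_nsmul, dg_eq_finsum, ← hD.2]
    congr 1
    exact finsum_congr hap
  intro f
  rw [int_iff, int_iff, R.mem]
  have hti0 : t⁻¹ ≠ 0 := inv_ne_zero ht0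
  have ho1 : ∀ P : Plc F W, ord P (1 : W) = 0 := by
    intro P
    rw [← map_one (algebraMap F W)]
    exact R.ord_const 1 P
  have hoi : ∀ P : Plc F W, ord P t⁻¹ = - ord P t := by
    intro P
    have := O.mul P t t⁻¹ ht0 hti0
    rw [mul_inv_cancel₀ ht0, ho1] at this
    omega
  have hop : ∀ (P : Plc F W) (n : ℕ), ord P (t⁻¹ ^ n) = - (n * ord P t) := by
    intro P n
    induction n with
    | zero => simp [ho1]
    | succ n ih =>
      rw [pow_succ, O.mul P _ _ (pow_ne_zero _ hti0) hti0, ih, hoi]
      push_cast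
      ring
  by_cases hf : f = 0
  · subst hf
    simp
  have hfm : ∀ P : Plc F W, ord P (f * t⁻¹ ^ m) = ord P f - m * ord P t := by
    intro P
    rw [O.mul P _ _ hf (pow_ne_zero _ hti0), hop]
    ring
  have hne : f * t⁻¹ ^ m ≠ 0 := mul_ne_zero hf (pow_ne_zero _ hti0)
  constructor
  · intro h
    have h' := h hf
    refine ⟨fun P hP => ?_, fun P hP => ?_⟩
    · rw [O.mem P _ ht0] at hP
      rw [O.mem P _ hf]
      have := h' P
      rw [hpl, max_eq_right (by omega)] at this
      simpa using this
    · rw [O.mem P _ hti0, hoi] at hP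
      rw [O.mem P _ hne, hfm]
      have := h' P
      rw [hpl, max_eq_left (by omega)] at this
      linarith
  · rintro ⟨ha, hb⟩ _ P
    rw [hpl]
    rcases le_or_gt 0 (ord P t) with h0 | h0
    · rw [max_eq_right (by omega)]
      have := ha P ((O.mem P _ ht0).2 h0)
      rw [O.mem P _ hf] at this
      simpa using this
    · rw [max_eq_left (by omega)]
      have := hb P ((O.mem P _ hti0).2 (by rw [hoi]; omega))
      rw [O.mem P _ hne, hfm] at this
      linarith

end Pool.Agent.Lib.MP_c385f6_ag.TPG
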