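import Pool.Agent.Lib.MP_c385f6_ag.TPG.StThm
import Pool.Agent.Lib.MP_c385f6_ag.TPG.CSp

/-!
Project TPG, part G (G23): if `z̄` is regular at `sp P` then `z` is regular at `P`.
-/

set_option autoImplicit false

open Polynomial

namespace Pool.Agent.Lib.MP_c385f6_ag.TPG

universe u v u' v'

namespace GPolSp

section

variable {F : Type u} {W : Type v} [Field F] [Field W] [Algebra F W]

theorem dg_eq_finsum (D : Dv F W) : dg D = ∑ᶠ P, D P := by
  rw [finsum_eq_sum_of_support_subset (s := D.support) _ (by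
    intro P hP
    simpa using hP)]
  rfl

theorem dg_pole (hR : RRF F W) (hD : StDeg.{u, v}) [IsAlgClosed F] (h : FF F W) {t : W}
    (ht : ∀ c : F, t ≠ algebraMap F W c) :
    dg ((-dv t) ⊔ 0 : Dv F W) = (Module.finrank (IntermediateField.adjoin F {t}) W : ℤ) := by
  have h0 : t ≠ 0 := by
    intro h1
    exact ht 0 (by rw [h1, map_zero])
  rw [dg_eq_finsum, ← (hD F W h t ht).2]
  refine finsum_congr fun P => ?_
  rw [Finsupp.sup_apply, Finsupp.neg_apply, hR.dv_apply t P h0, Finsupp.zero_apply]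

end

section

variable {α β : Type*}

theorem map_nonneg (f : α → β) {D : α →₀ ℤ} (hD : 0 ≤ D) (b : β) :
    0 ≤ (Finsupp.mapDomain f D) b := by
  classical
  rw [Finsupp.mapDomain, Finsupp.sum_apply, Finsupp.sum]
  refine Finset.sum_nonneg fun a _ => ?_
  rw [Finsupp.single_apply]
  split_ifs
  · exact hD a
  · exact le_rfl

theorem le_map (f : α → β) {D : α →₀ ℤ} (hD : 0 ≤ D) (a : α) :
    D a ≤ (Finsupp.mapDomain f D) (f a) := by
  classical
  by_cases ha : a ∈ D.support
  · rw [Finsupp.mapDomain, Finsupp.sum_apply, Finsupp.sum]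
    have h := Finset.single_le_sum (s := D.support)
      (f := fun a' => (Finsupp.single (f a') (D a') : β →₀ ℤ) (f a)) (fun a' _ => by
        rw [Finsupp.single_apply]
        split_ifs
        · exact hD a'
        · exact le_rfl) ha
    rw [Finsupp.single_eq_same] at h
    exact h
  · rw [Finsupp.notMem_support_iff.1 ha]
    exact map_nonneg f hD _

theorem map_sub (f : α → β) (D E : α →₀ ℤ) :
    Finsupp.mapDomain f (D - E) = Finsupp.mapDomain f D - Finsupp.mapDomain f E :=
  _root_.map_sub (Finsupp.mapDomain.addMonoidHom f) D E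

end

end GPolSp

open GPolSp in
/-- G23. If `z̄` is regular at `sp P` then `z` is regular at `P`. -/
theorem stPolSp (hOrd : StOrd.{u, v}) (hDeg : StDeg.{u, v}) (hRR : StRRF.{u, v}) :
    StPolSp.{u, v} := by
  classical
  intro C L F Λ _ _ _ _ _ _ _ _ R g sp t hg hsp ht P hP
  have hC := hRR C L hg.ffC
  have hF := hRR F Λ hg.ffF
  have hO := hOrd C L hg.ffC
  have hO' := hOrd F Λ hg.ffF
  have hr0 : R.res t ≠ 0 := by
    intro h0
    have h1 := ht.trans
    rw [h0] at h1
    exact h1 isAlgebraic_zero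
  have ht0 : t ≠ 0 := by
    rintro rfl
    exact hr0 R.res_zero
  have hcF : ∀ a : F, R.res t ≠ algebraMap F Λ a := by
    intro a ha
    exact ht.trans (by rw [ha]; exact isAlgebraic_algebraMap a)
  have hcC : ∀ c : C, t ≠ algebraMap C L c := by
    intro c hc
    have h1 := ht.mem
    rw [hc] at h1
    obtain ⟨a, ha⟩ := R.const c h1
    rw [← hc] at ha
    exact hcF a ha
  by_contra hcon
  have h1 : ord P t < 0 := by
    by_contra h
    exact hcon ((hO.mem P t ht0).2 (not_lt.1 h))
  have h2 : 0 ≤ ord (sp P) (R.res t) := (hO'.mem (sp P) (R.res t) hr0).1 hP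
  set D : Dv C L := (-dv t) ⊔ 0 with hD
  set Z : Dv C L := (dv t) ⊔ 0 with hZ
  set D' : Dv F Λ := (-dv (R.res t)) ⊔ 0 with hD'
  have hD0 : 0 ≤ D := le_sup_right
  have hZ0 : 0 ≤ Z := le_sup_right
  have hdec : (dv t : Dv C L) = Z - D := by
    ext Q
    rw [Finsupp.sub_apply, hZ, hD, Finsupp.sup_apply, Finsupp.sup_apply, Finsupp.neg_apply,
      Finsupp.zero_apply]
    rcases le_total 0 ((dv t : Dv C L) Q) with h | h
    · rw [sup_eq_left.2 h, sup_eq_right.2 (by linarith)]
      ring
    · rw [sup_eq_right.2 h, sup_eq_left.2 (by linarith)]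
      ring
  have h3 := hsp t hr0
  rw [hdec, GPolSp.map_sub] at h3
  have hle : D' ≤ Finsupp.mapDomain sp D := by
    intro x
    have h4 := map_nonneg sp hD0 x
    have h5 := map_nonneg sp hZ0 x
    have h6 := DFunLike.congr_fun h3 x
    rw [Finsupp.sub_apply] at h6
    rw [hD', Finsupp.sup_apply, Finsupp.neg_apply, Finsupp.zero_apply]
    refine sup_le ?_ h4
    rw [← h6]
    linarith
  have hdg : dg D' = dg (Finsupp.mapDomain sp D : Dv F Λ) := by
    have h4 : dg (Finsupp.mapDomain sp D : Dv F Λ) = dg D :=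
      Finsupp.sum_mapDomain_index (fun _ => rfl) fun _ _ _ => rfl
    rw [h4, hD, hD', dg_pole hC hDeg hg.ffC hcC, dg_pole hF hDeg hg.ffF hcF, ht.deg]
  have heq := CSp.eq_of_le hle hdg
  have h7 := le_map sp hD0 P
  rw [← heq, hD, hD', Finsupp.sup_apply, Finsupp.sup_apply, Finsupp.neg_apply, Finsupp.neg_apply,
    Finsupp.zero_apply, Finsupp.zero_apply, hC.dv_apply t P ht0,
    hF.dv_apply (R.res t) (sp P) hr0] at h7
  have h8 : (-ord P t) ⊔ 0 = -ord P t := sup_eq_left.2 (by linarith)
  have h9 : (-ord (sp P) (R.res t)) ⊔ 0 = 0 := sup_eq_right.2 (by linarith)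
  rw [h8, h9] at h7
  linarith

end Pool.Agent.Lib.MP_c385f6_ag.TPG
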