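import Pool.Agent.Lib.MP_c385f6_ag.TPG.StV

/-!
Project TPG, module G21: existence of a reduction that induces the Gauss valuation on `C(t)`.
-/

set_option autoImplicit false

open Polynomial

namespace Pool.Agent.Lib.MP_c385f6_ag.TPG

universe u v

namespace RedExAux

open IsLocalRing

/-- The residue field of a valuation ring of an algebraically closed field is algebraically
closed. -/
theorem algClosed_res {K : Type u} [Field K] [IsAlgClosed K] (V : ValuationSubring K) :
    IsAlgClosed (ResidueField V) := by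
  refine IsAlgClosed.of_exists_root _ fun q hq hirr => ?_
  obtain ⟨P, hP, hdeg, hmon⟩ := Polynomial.lifts_and_natDegree_eq_and_monic
    ((Polynomial.mem_lifts q).2 (Polynomial.map_surjective (residue V) residue_surjective q)) hq
  have h0 : P.natDegree ≠ 0 := by
    rw [hdeg]
    exact hirr.natDegree_pos.ne'
  have h1 : (P.map (algebraMap V K)).degree ≠ 0 := by
    intro h
    rw [hmon.degree_map, degree_eq_natDegree hmon.ne_zero] at h
    exact h0 (by exact_mod_cast h)
  obtain ⟨x, hx⟩ := IsAlgClosed.exists_root _ h1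
  have hint : IsIntegral V x := ⟨P, hmon, by rwa [IsRoot.def, eval_map] at hx⟩
  obtain ⟨y, rfl⟩ := IsIntegrallyClosed.isIntegral_iff.1 hint
  refine ⟨residue V y, ?_⟩
  have h2 : P.eval y = 0 := by
    rw [IsRoot.def, eval_map, eval₂_at_apply] at hx
    exact (IsFractionRing.injective V K) (by rw [hx, map_zero])
  rw [← hP, eval_map, eval₂_at_apply, h2, map_zero]

/-- The valuation ring of an algebraic extension of a `p`-adic field. -/
theorem exists_O (p : ℕ) [Fact p.Prime] (k : Type) (C : Type u) [Field k] [Field C]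
    [Algebra ℚ_[p] k] [FiniteDimensional ℚ_[p] k] [Algebra k C] [Algebra.IsAlgebraic k C] :
    ∃ O : ValuationSubring C, ∀ c : k, algebraMap k C c ∈ O ↔ spectralNorm ℚ_[p] k c ≤ 1 := by
  letI : Algebra ℚ_[p] C := ((algebraMap k C).comp (algebraMap ℚ_[p] k)).toAlgebra
  haveI : IsScalarTower ℚ_[p] k C := IsScalarTower.of_algebraMap_eq fun _ => rfl
  haveI : Algebra.IsAlgebraic ℚ_[p] k := Algebra.IsAlgebraic.of_finite ℚ_[p] k
  haveI : Algebra.IsAlgebraic ℚ_[p] C := Algebra.IsAlgebraic.trans ℚ_[p] k C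
  have hmul : ∀ x y : C, spectralNorm ℚ_[p] C (x * y) =
      spectralNorm ℚ_[p] C x * spectralNorm ℚ_[p] C y := fun x y => spectralAlgNorm_mul x y
  have hone : spectralNorm ℚ_[p] C 1 = 1 := spectralNorm_one
  let S : Subring C :=
    { carrier := {x | spectralNorm ℚ_[p] C x ≤ 1}
      mul_mem' := fun {a b} ha hb => by
        change spectralNorm ℚ_[p] C (a * b) ≤ 1
        rw [hmul]
        exact mul_le_one₀ ha (spectralNorm_nonneg _) hb
      one_mem' := hone.le
      add_mem' := fun {a b} ha hb =>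
        (isNonarchimedean_spectralNorm a b).trans (max_le ha hb)
      zero_mem' := by
        change spectralNorm ℚ_[p] C 0 ≤ 1
        rw [spectralNorm_zero]
        exact zero_le_one
      neg_mem' := fun {a} ha => by
        change spectralNorm ℚ_[p] C (-a) ≤ 1
        rw [spectralNorm_neg (Algebra.IsAlgebraic.isAlgebraic a)]
        exact ha }
  refine ⟨⟨S, fun x => ?_⟩, fun c => ?_⟩
  · by_cases h : x = 0
    · left
      rw [h]
      exact S.zero_mem
    · rcases le_or_gt (spectralNorm ℚ_[p] C x) 1 with h1 | h1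
      · exact Or.inl h1
      · right
        change spectralNorm ℚ_[p] C x⁻¹ ≤ 1
        have h2 := hmul x x⁻¹
        rw [mul_inv_cancel₀ h, hone] at h2
        have h3 := spectralNorm_nonneg (K := ℚ_[p]) (x⁻¹)
        nlinarith
  · change spectralNorm ℚ_[p] C (algebraMap k C c) ≤ 1 ↔ _
    rw [← spectralNorm.eq_of_tower]

section Gauss

variable {C Ω : Type u} [Field C] [Field Ω] [Algebra C Ω]

/-- evaluation at `t` -/
noncomputable def gg (O : ValuationSubring C) (t : Ω) : O[X] →+* Ω :=
  eval₂RingHom ((algebraMap C Ω).comp O.subtype) t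

theorem gg_C (O : ValuationSubring C) (t : Ω) (c : O) : gg O t (Polynomial.C c) =
    algebraMap C Ω (c : C) := by
  simp [gg]

theorem gg_X (O : ValuationSubring C) (t : Ω) : gg O t X = t := by
  simp [gg]

theorem gg_ne (O : ValuationSubring C) {t : Ω} (ht : Transcendental C t) {Q : O[X]}
    (hQ : Q ≠ 0) : gg O t Q ≠ 0 := by
  have h1 : gg O t Q = aeval t (Q.map (O.subtype : O →+* C)) := by
    rw [aeval_def, eval₂_map]
    rfl
  rw [h1]
  intro h
  have h2 := (transcendental_iff.mp ht) _ h
  exact hQ ((Polynomial.map_eq_zero_iff Subtype.val_injective).1 h2)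

theorem gauss_aux (O : ValuationSubring C) {t : Ω} (ht : Transcendental C t) (P : Ideal O[X])
    [P.IsPrime] (hPm : ∀ Q : O[X], Q ∈ P ↔ Q.map (residue O) = 0)
    (S : Type u) [CommRing S] [IsLocalRing S] [Algebra O[X] S] [IsLocalization.AtPrime S P] :
    ∃ w : ValuationSubring Ω, (∀ Q : O[X], gg O t Q ∈ w) ∧
      (∀ Q : O[X], Q.map (residue O) ≠ 0 → (gg O t Q)⁻¹ ∈ w) ∧
      ∀ Q : O[X], Q.map (residue O) = 0 → gg O t Q ≠ 0 → (gg O t Q)⁻¹ ∉ w := by
  have hg : ∀ y : P.primeCompl, IsUnit (gg O t y) := by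
    rintro ⟨y, hy⟩
    refine IsUnit.mk0 _ (gg_ne O ht ?_)
    rintro rfl
    exact hy P.zero_mem
  let f : S →+* Ω := IsLocalization.lift (M := P.primeCompl) hg
  have hf : ∀ Q : O[X], f (algebraMap O[X] S Q) = gg O t Q := fun Q =>
    IsLocalization.lift_eq hg Q
  obtain ⟨w, h, hl⟩ := IsLocalRing.exists_factor_valuationRing f
  have hmem : ∀ Q : O[X], gg O t Q ∈ w := fun Q => by
    have := h (algebraMap O[X] S Q)
    rw [hf] at this
    exact this
  refine ⟨w, hmem, fun Q hQ => ?_, fun Q hQ h0 hinv => ?_⟩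
  · have h1 : IsUnit (algebraMap O[X] S Q) :=
      (IsLocalization.AtPrime.isUnit_to_map_iff _ P Q).2 fun h => hQ ((hPm Q).1 h)
    obtain ⟨b, hb⟩ := isUnit_iff_exists_inv.1 h1
    have h2 : gg O t Q * f b = 1 := by
      rw [← hf, ← map_mul, hb, map_one]
    rw [inv_eq_of_mul_eq_one_right h2]
    exact h b
  · have h1 : IsUnit (f.codRestrict w.toSubring h (algebraMap O[X] S Q)) := by
      refine isUnit_iff_exists_inv.2 ⟨⟨(gg O t Q)⁻¹, hinv⟩, Subtype.ext ?_⟩
      change f (algebraMap O[X] S Q) * (gg O t Q)⁻¹ = 1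
      rw [hf, mul_inv_cancel₀ h0]
    have h2 := hl.map_nonunit _ h1
    exact (IsLocalization.AtPrime.isUnit_to_map_iff _ P Q).1 h2 ((hPm Q).2 hQ)

theorem exists_gauss (O : ValuationSubring C) {t : Ω} (ht : Transcendental C t) :
    ∃ w : ValuationSubring Ω, (∀ Q : O[X], gg O t Q ∈ w) ∧
      (∀ Q : O[X], Q.map (residue O) ≠ 0 → (gg O t Q)⁻¹ ∈ w) ∧
      ∀ Q : O[X], Q.map (residue O) = 0 → gg O t Q ≠ 0 → (gg O t Q)⁻¹ ∉ w := by
  let P : Ideal O[X] := RingHom.ker (Polynomial.mapRingHom (residue O))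
  haveI hP : P.IsPrime := RingHom.ker_isPrime _
  have hPm : ∀ Q : O[X], Q ∈ P ↔ Q.map (residue O) = 0 := fun Q => by
    change Polynomial.mapRingHom (residue O) Q = 0 ↔ _
    rw [Polynomial.coe_mapRingHom]
  exact gauss_aux O ht P hPm (Localization.AtPrime P)

end Gauss

section Res

variable {K : Type u} [Field K]

open Classical in
/-- the residue map, `0` outside of the valuation ring -/
noncomputable def rs (w : ValuationSubring K) (x : K) : ResidueField w :=
  if h : x ∈ w then residue w ⟨x, h⟩ else 0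

theorem rs_of {w : ValuationSubring K} {x : K} (h : x ∈ w) : rs w x = residue w ⟨x, h⟩ :=
  dif_pos h

theorem rs_out {w : ValuationSubring K} {x : K} (h : x ∉ w) : rs w x = 0 := dif_neg h

theorem res_zero_iff {w : ValuationSubring K} (x : w) :
    residue w x = 0 ↔ w.valuation (x : K) < 1 := by
  rw [residue_eq_zero_iff, ← ValuationSubring.valuation_lt_one_iff]

end Res

section Mk

variable {C Ω : Type u} [Field C] [Field Ω] [Algebra C Ω] (O : ValuationSubring C)
  (w : ValuationSubring Ω) (hw : ∀ c : C, algebraMap C Ω c ∈ w ↔ c ∈ O)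

/-- the map on valuation rings -/
def phi : O →+* w :=
  ((algebraMap C Ω).comp O.subtype).codRestrict w fun x => (hw x).2 x.2

theorem coe_phi (x : O) : ((phi O w hw x : w) : Ω) = algebraMap C Ω (x : C) := rfl

theorem phi_local : IsLocalHom (phi O w hw) := by
  refine ⟨fun x hx => ?_⟩
  obtain ⟨y, hy⟩ := isUnit_iff_exists_inv.1 hx
  have h1 : algebraMap C Ω (x : C) * (y : Ω) = 1 := congrArg Subtype.val hy
  have hx0 : (x : C) ≠ 0 := by
    intro h
    rw [h, map_zero, zero_mul] at h1
    exact zero_ne_one h1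
  have h2 : algebraMap C Ω (x : C)⁻¹ = y := by
    rw [map_inv₀]
    exact inv_eq_of_mul_eq_one_right h1
  have h3 : (x : C)⁻¹ ∈ O := (hw _).1 (by rw [h2]; exact y.2)
  exact isUnit_iff_exists_inv.2 ⟨⟨(x : C)⁻¹, h3⟩, Subtype.ext (mul_inv_cancel₀ hx0)⟩

/-- the map on residue fields -/
noncomputable def rmap : ResidueField O →+* ResidueField w :=
  @ResidueField.map _ _ _ _ _ _ (phi O w hw) (phi_local O w hw)

theorem rmap_residue (x : O) : rmap O w hw (residue O x) = residue w (phi O w hw x) := rfl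

end Mk

end RedExAux

open RedExAux IsLocalRing in
theorem stRedEx : StRedEx.{u} := by
  intro p _ k C Ω _ _ _ _ _ _ _ _ _ _ t ht
  obtain ⟨O, hO⟩ := exists_O p k C
  obtain ⟨w, hw1, hw2, hw3⟩ := exists_gauss O ht
  have hw : ∀ c : C, algebraMap C Ω c ∈ w ↔ c ∈ O := by
    intro c
    constructor
    · intro h
      by_contra hc
      have hc' : c⁻¹ ∈ O := (O.mem_or_inv_mem c).resolve_left hc
      have hc0 : c ≠ 0 := fun h => hc (h ▸ O.zero_mem)
      have h1 : residue O ⟨c⁻¹, hc'⟩ = 0 := by
        rw [res_zero_iff]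
        change O.valuation c⁻¹ < 1
        rw [map_inv₀]
        refine inv_lt_one_of_one_lt₀ ?_
        rw [← not_le, O.valuation_le_one_iff]
        exact hc
      have h2 := hw3 (Polynomial.C ⟨c⁻¹, hc'⟩) (by rw [Polynomial.map_C, h1, map_zero])
      rw [gg_C] at h2
      change algebraMap C Ω c⁻¹ ≠ 0 → (algebraMap C Ω c⁻¹)⁻¹ ∉ w at h2
      rw [map_inv₀, inv_inv] at h2
      exact h2 (by simpa using hc0) h
    · intro h
      have h1 := hw1 (Polynomial.C ⟨c, h⟩)
      rwa [gg_C] at h1
  have htw : t ∈ w := by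
    have h1 := hw1 X
    rwa [gg_X] at h1
  letI : Algebra (ResidueField O) (ResidueField w) := (rmap O w hw).toAlgebra
  have halg : ∀ x : O, algebraMap (ResidueField O) (ResidueField w) (residue O x) =
      residue w (phi O w hw x) := fun x => rfl
  let R : Red C Ω (ResidueField O) (ResidueField w) :=
    { w := w
      res := rs w
      res_add := fun x hx y hy => by
        rw [rs_of hx, rs_of hy, rs_of (w.add_mem x y hx hy), ← map_add]
        rfl
      res_mul := fun x hx y hy => by
        rw [rs_of hx, rs_of hy, rs_of (w.mul_mem x y hx hy), ← map_mul]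
        rfl
      res_one := by
        rw [rs_of w.one_mem]
        exact map_one (residue w)
      res_lt := fun x hx => by
        rw [rs_of hx]
        exact res_zero_iff _
      res_out := fun x hx => rs_out hx
      res_surj := fun y => by
        obtain ⟨x, rfl⟩ := residue_surjective y
        exact ⟨x, x.2, rs_of x.2⟩
      const := fun c hc => by
        refine ⟨residue O ⟨c, (hw c).1 hc⟩, ?_⟩
        rw [rs_of hc, halg]
        rfl
      const_surj := fun a => by
        obtain ⟨c, rfl⟩ := residue_surjective a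
        refine ⟨c, (hw c).2 c.2, ?_⟩
        rw [rs_of ((hw c).2 c.2), halg]
        rfl }
  refine ⟨ResidueField O, ResidueField w, inferInstance, inferInstance, inferInstance, R,
    algClosed_res O, algClosed_res w, ?_, htw, ?_⟩
  · intro c
    change w.valuation (algebraMap C Ω (algebraMap k C c)) ≤ 1 ↔ _
    rw [w.valuation_le_one_iff, hw, hO]
  · rintro ⟨P, hP0, hP⟩
    obtain ⟨Q, rfl⟩ := Polynomial.map_surjective (residue O) residue_surjective P
    have h1 : residue w ⟨gg O t Q, hw1 Q⟩ = aeval (rs w t) (Q.map (residue O)) := by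
      have h2 : (⟨gg O t Q, hw1 Q⟩ : w) = eval₂ (phi O w hw) ⟨t, htw⟩ Q := by
        apply Subtype.ext
        have h3 := Polynomial.hom_eval₂ Q (phi O w hw) w.subtype ⟨t, htw⟩
        exact h3.symm
      rw [h2, Polynomial.hom_eval₂, aeval_def, eval₂_map, rs_of htw]
      rfl
    have h2 : aeval (rs w t) (Q.map (residue O)) = 0 := hP
    rw [h2, res_zero_iff] at h1
    have h3 := hw2 Q hP0
    have h4 : gg O t Q ≠ 0 := gg_ne O ht (by
      rintro rfl
      exact hP0 (Polynomial.map_zero _))
    have h5 : w.valuation (gg O t Q)⁻¹ ≤ 1 := (w.valuation_le_one_iff _).2 h3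
    have h6 : w.valuation (gg O t Q) * w.valuation (gg O t Q)⁻¹ = 1 := by
      rw [← map_mul, mul_inv_cancel₀ h4, map_one]
    have h7 : w.valuation (gg O t Q) * w.valuation (gg O t Q)⁻¹ < 1 :=
      mul_lt_one_of_lt_of_le h1 h5
    rw [h6] at h7
    exact lt_irrefl _ h7

end Pool.Agent.Lib.MP_c385f6_ag.TPG
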