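import Pool.Agent.Lib.MP_c385f6_ag.TPG.StV
import Pool.Agent.Lib.MP_c385f6_ag.Twist

/-!
Project TPG, part G, module `GTowUr`: `L` and the `D_n`-roots over unramified extensions of `L` are
unramified.
-/

set_option autoImplicit false

namespace Pool.Agent.Lib.MP_c385f6_ag.TPG

universe u

namespace GTowUr

section
variable {F : Type*} {W : Type*} [Field F] [Field W] [Algebra F W]

/-- The order as a homomorphism. -/
noncomputable def ordHom (h : OrdF F W) (P : Plc F W) : Wˣ →* Multiplicative ℤ where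
  toFun x := Multiplicative.ofAdd (ord P (x : W))
  map_one' := by
    have h1 := h.mul P 1 1 one_ne_zero one_ne_zero
    rw [mul_one] at h1
    have h2 : ord P (1 : W) = 0 := by omega
    rw [Units.val_one, h2]
    rfl
  map_mul' x y := by
    rw [Units.val_mul, h.mul P _ _ x.ne_zero y.ne_zero]
    rfl

theorem ord_zpow (h : OrdF F W) (P : Plc F W) {x : W} (hx : x ≠ 0) (m : ℤ) :
    ord P (x ^ m) = m * ord P x := by
  have h1 := map_zpow (ordHom h P) (Units.mk0 x hx) m
  have h2 := congrArg Multiplicative.toAdd h1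
  have h3 : Multiplicative.toAdd (ordHom h P (Units.mk0 x hx ^ m)) = ord P (x ^ m) := by
    change ord P (((Units.mk0 x hx ^ m : Wˣ) : W)) = ord P (x ^ m)
    rw [Units.val_zpow_eq_zpow_val, Units.val_mk0]
  rw [h3, toAdd_zpow, smul_eq_mul] at h2
  exact h2

/-- If `ord P x = 0` then `x` and `x⁻¹` are in the ring of `P`. -/
theorem mem_of_ord_eq (h : OrdF F W) (P : Plc F W) {x : W} (hx : x ≠ 0) (h0 : ord P x = 0) :
    x ∈ P.ring ∧ x⁻¹ ∈ P.ring := by
  refine ⟨(h.mem P x hx).2 h0.ge, (h.mem P _ (inv_ne_zero hx)).2 ?_⟩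
  have h1 := ord_zpow h P hx (-1)
  rw [zpow_neg_one, h0] at h1
  simp [h1]

end

/-- The valuation of a unit is one. -/
theorem val_one_of {Ω : Type*} [Field Ω] {B : ValuationSubring Ω} {x : Ω} (hx : x ≠ 0)
    (h1 : x ∈ B) (h2 : x⁻¹ ∈ B) : B.valuation x = 1 := by
  have h3 := (B.valuation_le_one_iff _).2 h1
  have h4 := (B.valuation_le_one_iff _).2 h2
  rw [map_inv₀] at h4
  have h5 : B.valuation x ≠ 0 := (Valuation.ne_zero_iff _).2 hx
  exact le_antisymm h3 ((inv_le_one₀ (zero_lt_iff.2 h5)).1 h4)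

end GTowUr

theorem stTowUr (h1 : StOrd.{u, u}) (_h2 : StResF.{u, u}) : StTowUr.{u} := by
  intro k K Ω _ _ _ _ _ _ _ _ _ L hL
  constructor
  · intro z hz
    rw [hL] at hz
    induction hz using IntermediateField.adjoin_induction with
    | mem x hx =>
      obtain ⟨y, rfl⟩ := hx
      exact algebraMap_mem (maxUnramified k K Ω) y
    | algebraMap x => exact const_mem_maxUnramified x.2
    | add x y _ _ hx hy => exact add_mem hx hy
    | inv x _ hx => exact inv_mem hx
    | mul x y _ _ hx hy => exact mul_mem hx hy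
  · intro M hLM hFF hM n g h hn hg hh
    obtain ⟨hg0, hgd⟩ := hg
    have hordF : OrdF (algebraicClosure k Ω) M := h1 _ _ hFF
    have hg0' : (g : Ω) ≠ 0 := fun h' => hg0 (Subtype.ext h')
    have hh0 : h ≠ 0 := by
      intro h'
      rw [h', zero_pow hn] at hh
      exact hg0' hh.symm
    refine mem_ur_of_pow hn (hh ▸ hM _ g.2) fun B hB => ?_
    have hBv : ∀ r : M, B.valuation (r : Ω) ^ n = B.valuation (g : Ω) →
        B.valuation h = B.valuation (r : Ω) := by
      intro r hr
      rw [← hh, map_pow] at hr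
      exact ((pow_left_inj₀ zero_le zero_le hn).1 hr).symm
    by_cases htop : B.comap (algebraMap M Ω) = ⊤
    · refine ⟨1, one_mem _, one_ne_zero, ?_⟩
      have h3 : ∀ r : M, (r : Ω) ∈ B := by
        intro r
        have h4 : r ∈ B.comap (algebraMap M Ω) := by
          rw [htop]
          exact ValuationSubring.mem_top r
        exact h4
      have h4 : B.valuation (g : Ω) = 1 :=
        GTowUr.val_one_of hg0' (h3 g) (by
          have := h3 g⁻¹
          simpa using this)
      have h5 := hBv 1 (by rw [h4]; simp)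
      simpa using h5
    · let P : Plc (algebraicClosure k Ω) M := ⟨B.comap (algebraMap M Ω), htop, fun c =>
        mem_of_algebraic hB c.2⟩
      obtain ⟨t, ht0, ht⟩ := hordF.unif P
      obtain ⟨m, hm⟩ := hgd P
      have hr0 : t ^ m ≠ 0 := zpow_ne_zero _ ht0
      refine ⟨((t ^ m : M) : Ω), hM _ (t ^ m : M).2, fun h' => hr0 (Subtype.ext h'), ?_⟩
      refine hBv (t ^ m) ?_
      have h3 : ord P (g * (t ^ (-(m * n)))) = 0 := by
        rw [hordF.mul P _ _ hg0 (zpow_ne_zero _ ht0), GTowUr.ord_zpow hordF P ht0, ht, hm]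
        ring
      have hx0 : g * (t ^ (-(m * n))) ≠ 0 := mul_ne_zero hg0 (zpow_ne_zero _ ht0)
      obtain ⟨h4, h5⟩ := GTowUr.mem_of_ord_eq hordF P hx0 h3
      have h6 : B.valuation ((g * (t ^ (-(m * n))) : M) : Ω) = 1 := by
        refine GTowUr.val_one_of (fun h' => hx0 (Subtype.ext h')) h4 ?_
        have h7 : (((g * (t ^ (-(m * n))))⁻¹ : M) : Ω) ∈ B := h5
        simpa using h7
      have h7 : (g : Ω) = ((g * (t ^ (-(m * n))) : M) : Ω) * ((t ^ m : M) : Ω) ^ n := by
        rw [← IntermediateField.coe_pow, ← IntermediateField.coe_mul]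
        congr 1
        rw [mul_assoc, ← zpow_natCast, ← zpow_mul, ← zpow_add₀ ht0]
        simp
      rw [h7, map_mul, h6, one_mul, map_pow]

end Pool.Agent.Lib.MP_c385f6_ag.TPG
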