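import Pool.Agent.Lib.MP_c385f6_ag.TPG.GInt

/-!
Project TPG, part G, module G13: the elements of the residue field of `L` are combinations of
elements of the residue field of `K'`, with the same integrality properties (by traces).
-/

set_option autoImplicit false

open Polynomial

namespace Pool.Agent.Lib.MP_c385f6_ag.TPG

universe u v u' v'

namespace GTr

theorem int_inv (p : ℕ) [Fact p.Prime] {W : Type*} [Field W] [CharP W p] {x : W}
    (hx : IsIntegral ℤ x) : IsIntegral ℤ x⁻¹ := by
  let _ : Algebra (ZMod p) W := ZMod.algebra W p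
  have h1 : IsIntegral (ZMod p) x := hx.tower_top
  have h2 := h1.inv
  have : Algebra.IsIntegral ℤ (ZMod p) :=
    Algebra.isIntegral_of_surjective (ZMod.ringHom_surjective (algebraMap ℤ (ZMod p)))
  exact isIntegral_trans _ h2

theorem sep_of_int (p : ℕ) [Fact p.Prime] {K U : Type*} [Field K] [Field U] [Algebra K U]
    [CharP K p] {x : U} (hx : IsIntegral ℤ x) : IsSeparable K x := by
  have hU : CharP U p := charP_of_injective_algebraMap (algebraMap K U).injective p
  let _ : Algebra (ZMod p) U := ZMod.algebra U p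
  let _ : Algebra (ZMod p) K := ZMod.algebra K p
  have hst : IsScalarTower (ZMod p) K U := IsScalarTower.of_algebraMap_eq' (Subsingleton.elim _ _)
  have h1 : IsIntegral (ZMod p) x := hx.tower_top
  have h2 : IsSeparable (ZMod p) x :=
    PerfectField.separable_of_irreducible (minpoly.irreducible h1)
  exact h2.tower_top K

theorem int_adj {W : Type*} [Field W] {n : ℕ} {T : Matrix (Fin n) (Fin n) W}
    (hT : ∀ i j, IsIntegral ℤ (T i j)) (i j : Fin n) : IsIntegral ℤ (T.adjugate i j) := by
  rw [Matrix.adjugate_apply]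
  apply IsIntegral.det
  intro a b
  rw [Matrix.updateRow_apply]
  split_ifs with h
  · rw [Pi.single_apply]
    split_ifs
    · exact isIntegral_one
    · exact isIntegral_zero
  · exact hT a b

section Tr

variable {F : Type u'} {U : Type v'} [Field F] [Field U] [Algebra F U]

theorem down (K : Subfield U) (hF : ∀ a : F, IsIntegral ℤ a) (z : K) {x : U}
    (hx : IsIntegral (Algebra.adjoin F {(z : U)}) x) :
    IsIntegral (Algebra.adjoin ℤ ({z} : Set K)) x := by
  have hO : ∀ a : U, a ∈ Algebra.adjoin F {(z : U)} →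
      a ∈ integralClosure (Algebra.adjoin ℤ ({z} : Set K)) U := by
    intro a ha
    induction ha using Algebra.adjoin_induction with
    | mem a ha =>
      rw [Set.mem_singleton_iff.1 ha]
      have h1 : (z : U) = algebraMap (Algebra.adjoin ℤ ({z} : Set K)) U
        ⟨z, Algebra.self_mem_adjoin_singleton ℤ z⟩ := rfl
      rw [h1]
      exact isIntegral_algebraMap
    | algebraMap r =>
      have h1 : IsIntegral ℤ (algebraMap F U r) := (hF r).algebraMap
      exact h1.tower_top
    | add a b _ _ ha hb => exact add_mem ha hb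
    | mul a b _ _ ha hb => exact mul_mem ha hb
  let φ : Algebra.adjoin F {(z : U)} →+* integralClosure (Algebra.adjoin ℤ ({z} : Set K)) U :=
    { toFun := fun a => ⟨a, hO a a.2⟩
      map_one' := rfl
      map_mul' := fun _ _ => rfl
      map_zero' := rfl
      map_add' := fun _ _ => rfl }
  have h1 : IsIntegral (integralClosure (Algebra.adjoin ℤ ({z} : Set K)) U) x :=
    IsIntegral.map_of_comp_eq φ (RingHom.id U) rfl hx
  exact isIntegral_trans (R := Algebra.adjoin ℤ ({z} : Set K))
    (A := integralClosure (Algebra.adjoin ℤ ({z} : Set K)) U) (B := U) x h1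

theorem up (K : Subfield U) (z : K) {x : K}
    (hx : IsIntegral (Algebra.adjoin ℤ ({z} : Set K)) x) :
    IsIntegral (Algebra.adjoin F {(z : U)}) (x : U) := by
  have hO : ∀ a : K, a ∈ Algebra.adjoin ℤ ({z} : Set K) →
      (a : U) ∈ Algebra.adjoin F {(z : U)} := by
    intro a ha
    induction ha using Algebra.adjoin_induction with
    | mem a ha =>
      rw [Set.mem_singleton_iff.1 ha]
      exact Algebra.self_mem_adjoin_singleton F _
    | algebraMap r =>
      have h1 : ((algebraMap ℤ K r : K) : U) = algebraMap F U (r : F) := by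
        rw [map_intCast]
        simp
      rw [h1]
      exact Subalgebra.algebraMap_mem _ _
    | add a b _ _ ha hb => exact add_mem ha hb
    | mul a b _ _ ha hb => exact mul_mem ha hb
  let φ : Algebra.adjoin ℤ ({z} : Set K) →+* Algebra.adjoin F {(z : U)} :=
    { toFun := fun a => ⟨((a : K) : U), hO a a.2⟩
      map_one' := rfl
      map_mul' := fun _ _ => rfl
      map_zero' := rfl
      map_add' := fun _ _ => rfl }
  exact IsIntegral.map_of_comp_eq φ K.subtype rfl hx

theorem core (p : ℕ) [Fact p.Prime] [CharP U p] (hF : ∀ a : F, IsIntegral ℤ a) (K : Subfield U)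
    (hLD : ∀ (n : ℕ) (c : Fin n → F), LinearIndependent (K.comap (algebraMap F U)) c →
      ∀ a : Fin n → K, ∑ i, (a i : U) * algebraMap F U (c i) = 0 → ∀ i, a i = 0)
    (y : U) (hy : y ∈ Submodule.span K (Set.range (algebraMap F U))) :
    ∃ (n : ℕ) (c : Fin n → F) (f : Fin n → K), y = ∑ i, algebraMap F U (c i) * f i ∧
      ∀ z h : K, IsIntegral (Algebra.adjoin F {(z : U)}) (y * h) →
        ∀ i, IsIntegral (Algebra.adjoin F {(z : U)}) ((f i : U) * h) := by
  classical
  have hFU : ∀ a : F, IsIntegral ℤ (algebraMap F U a) := fun a => (hF a).algebraMap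
  obtain ⟨T, hT, hyT⟩ := Submodule.mem_span_finite_of_mem_span hy
  choose! s hs using hT
  let κ := K.comap (algebraMap F U)
  let E : IntermediateField κ F := IntermediateField.adjoin κ (s '' (T : Set U))
  have hfin : Finite (s '' (T : Set U)) := (T.finite_toSet.image s).to_subtype
  have hE : FiniteDimensional κ E :=
    IntermediateField.finiteDimensional_adjoin fun x _ => (hF x).tower_top
  let b := Module.finBasis κ E
  set n := Module.finrank κ E
  let c : Fin n → F := fun i => (b i : F)
  let cU : Fin n → U := fun i => algebraMap F U (c i)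
  have hc : LinearIndependent κ c := by
    have h1 := b.linearIndependent.map' E.val.toLinearMap
      (LinearMap.ker_eq_bot.2 (Subtype.val_injective))
    exact h1
  have hind : LinearIndependent K cU := by
    rw [Fintype.linearIndependent_iff]
    intro g hg i
    refine hLD n c hc g ?_ i
    rw [← hg]
    rfl
  have hEM : ∀ e ∈ E, algebraMap F U e ∈ Submodule.span K (Set.range cU) := by
    intro e he
    have h1 := b.sum_repr ⟨e, he⟩
    have h2 := congrArg (fun x : E => algebraMap F U (x : F)) h1
    simp only at h2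
    rw [← h2]
    have h3 : algebraMap F U ((∑ i, b.repr ⟨e, he⟩ i • b i : E) : F) =
        ∑ i, (⟨algebraMap F U (b.repr ⟨e, he⟩ i : F),
          Subfield.mem_comap.1 (b.repr ⟨e, he⟩ i).2⟩ : K) • cU i := by
      rw [AddSubmonoidClass.coe_finsetSum, map_sum]
      refine Finset.sum_congr rfl fun i _ => ?_
      have h4 : ((b.repr ⟨e, he⟩ i • b i : E) : F) = (b.repr ⟨e, he⟩ i : F) * c i := rfl
      rw [h4, map_mul]
      rfl
    rw [h3]
    exact Submodule.sum_mem _ fun i _ => Submodule.smul_mem _ _ (Submodule.subset_span ⟨i, rfl⟩)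
  have h1M : (1 : U) ∈ Submodule.span K (Set.range cU) := by
    have := hEM 1 (one_mem _)
    rwa [map_one] at this
  have hmM : ∀ x y : U, x ∈ Submodule.span K (Set.range cU) →
      y ∈ Submodule.span K (Set.range cU) → x * y ∈ Submodule.span K (Set.range cU) := by
    intro x y hx hy
    have h1 := Submodule.mul_mem_mul hx hy
    rw [Submodule.span_mul_span] at h1
    refine Submodule.span_le.2 ?_ h1
    rintro _ ⟨_, ⟨i, rfl⟩, _, ⟨j, rfl⟩, rfl⟩
    have h2 := hEM _ (mul_mem (b i).2 (b j).2)
    rw [map_mul] at h2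
    exact h2
  let L : IntermediateField K U := IntermediateField.adjoin K (Set.range cU)
  have hLM : ∀ x ∈ L, x ∈ Submodule.span K (Set.range cU) := by
    intro x hx
    have h1 : L.toSubalgebra = Algebra.adjoin K (Set.range cU) := by
      apply IntermediateField.adjoin_toSubalgebra_of_isAlgebraic
      rintro _ ⟨i, rfl⟩
      have h2 : IsIntegral K (cU i) := (hFU (c i)).tower_top
      exact h2.isAlgebraic
    have h2 : Algebra.adjoin K (Set.range cU) ≤
        (Submodule.span K (Set.range cU)).toSubalgebra h1M hmM :=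
      Algebra.adjoin_le Submodule.subset_span
    have h3 : x ∈ L.toSubalgebra := hx
    rw [h1] at h3
    exact h2 h3
  have hML : ∀ x ∈ Submodule.span K (Set.range cU), x ∈ L := by
    intro x hx
    have h1 : Submodule.span K (Set.range cU) ≤ Subalgebra.toSubmodule L.toSubalgebra :=
      Submodule.span_le.2 (IntermediateField.subset_adjoin K _)
    exact h1 hx
  have hyL : y ∈ L := by
    refine hML y (Submodule.span_le.2 ?_ hyT)
    intro x hx
    rw [← hs hx]
    exact hEM _ (IntermediateField.subset_adjoin κ _ ⟨x, hx, rfl⟩)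
  let v : Fin n → L := fun i => ⟨cU i, IntermediateField.subset_adjoin K _ ⟨i, rfl⟩⟩
  have hv : LinearIndependent K v := by
    refine LinearIndependent.of_comp L.val.toLinearMap ?_
    exact hind
  have hsp : ⊤ ≤ Submodule.span K (Set.range v) := by
    rintro x -
    obtain ⟨a, ha⟩ := (Submodule.mem_span_range_iff_exists_fun K).1 (hLM x x.2)
    rw [Submodule.mem_span_range_iff_exists_fun]
    refine ⟨a, Subtype.ext ?_⟩
    rw [← ha, AddSubmonoidClass.coe_finsetSum]
    rfl
  let B : Module.Basis (Fin n) K L := Module.Basis.mk hv hsp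
  have hB : ∀ i, B i = v i := fun i => Module.Basis.mk_apply hv hsp i
  have hcK : CharP K p := (K.subtype.charP_iff K.subtype.injective p).2 inferInstance
  have hfd : FiniteDimensional K L := B.finiteDimensional_of_finite
  have hsep : Algebra.IsSeparable K L := by
    rw [IntermediateField.isSeparable_adjoin_iff_isSeparable]
    rintro _ ⟨i, rfl⟩
    exact sep_of_int p (hFU (c i))
  have hinj : Function.Injective (algebraMap L U) := (algebraMap L U).injective
  have hvint : ∀ i, IsIntegral ℤ (v i) := by
    intro i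
    rw [← isIntegral_algebraMap_iff hinj]
    exact hFU (c i)
  set Tm := Algebra.traceMatrix K B with hTm
  have hTint : ∀ i j, IsIntegral ℤ (Tm i j) := by
    intro i j
    rw [hTm, Algebra.traceMatrix_apply, Algebra.traceForm_apply, hB, hB]
    exact Algebra.isIntegral_trace ((hvint i).mul (hvint j))
  have hdet : Tm.det ≠ 0 := Algebra.discr_not_zero_of_basis K B
  have hTinv : ∀ i j, IsIntegral ℤ (Tm⁻¹ i j) := by
    intro i j
    rw [Matrix.inv_def, Ring.inverse_eq_inv', Matrix.smul_apply, smul_eq_mul]
    exact (int_inv p (IsIntegral.det hTint)).mul (int_adj hTint i j)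
  let yL : L := ⟨y, hyL⟩
  refine ⟨n, c, fun i => B.repr yL i, ?_, ?_⟩
  · have h1 := B.sum_repr yL
    have h2 : ((∑ i, B.repr yL i • B i : L) : U) = y := congrArg (fun x : L => (x : U)) h1
    rw [AddSubmonoidClass.coe_finsetSum] at h2
    rw [← h2]
    refine Finset.sum_congr rfl fun i _ => ?_
    rw [hB, IntermediateField.coe_smul, Algebra.smul_def, mul_comm]
    rfl
  · intro z h hint i
    have hd := down K hF z hint
    set A := Algebra.adjoin ℤ ({z} : Set K) with hA
    have hw : ∀ j, IsIntegral A ((h • yL) * B j) := by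
      intro j
      rw [← isIntegral_algebraMap_iff hinj, hB, map_mul]
      have h1 : algebraMap L U (h • yL) = y * h := by
        rw [Algebra.smul_def, mul_comm]
        rfl
      rw [h1]
      exact hd.mul (hFU (c j)).tower_top
    have hv' : ∀ j, IsIntegral A (Algebra.trace K L ((h • yL) * B j)) := fun j =>
      Algebra.isIntegral_trace (hw j)
    have hmv := Algebra.traceMatrix_of_basis_mulVec B (h • yL)
    have hmv2 : B.equivFun (h • yL) =
        Tm⁻¹.mulVec (fun j => Algebra.trace K L ((h • yL) * B j)) := by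
      rw [← hmv, Matrix.mulVec_mulVec, Matrix.nonsing_inv_mul _ (isUnit_iff_ne_zero.2 hdet),
        Matrix.one_mulVec]
    have h1 : B.equivFun (h • yL) i = h * B.repr yL i := by
      rw [map_smul]
      rfl
    have h2 : IsIntegral A (h * B.repr yL i) := by
      rw [← h1, hmv2]
      have h6 : IsIntegral A (∑ j, Tm⁻¹ i j * Algebra.trace K L ((h • yL) * B j)) := by
        refine IsIntegral.sum (R := A) _ fun j _ => ?_
        have h5 : IsIntegral A (Tm⁻¹ i j) := (hTinv i j).tower_top
        exact h5.mul (hv' j)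
      exact h6
    have h3 := up (F := F) K z h2
    rw [mul_comm]
    exact h3

end Tr

section Asm

variable {C : Type u} {Ω : Type v} {F : Type u'} {U : Type v'} [Field C] [Field Ω] [Field F]
  [Field U] [Algebra C Ω] [Algebra F U]

/-- the residues of the elements of `C(t) ∩ w` are in `F(t̄)` -/
theorem res_adj {R : Red C Ω F U} {t : Ω} (hy : t ∈ R.w) (ht : Transcendental F (R.res t)) {c : Ω}
    (hc : c ∈ IntermediateField.adjoin C {t}) (hcw : c ∈ R.w) :
    ∃ a ∈ Algebra.adjoin F {R.res t}, ∃ b ∈ Algebra.adjoin F {R.res t}, R.res c = a / b := by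
  obtain ⟨r, s, hrs⟩ := (IntermediateField.mem_adjoin_simple_iff C c).1 hc
  by_cases hs : aeval t s = 0
  · refine ⟨0, zero_mem _, 0, zero_mem _, ?_⟩
    rw [hrs, hs, div_zero, R.res_zero, div_zero]
  · obtain ⟨a, -, ha⟩ := Lin.poly_scale hy ht s hs
    have h1 : aeval t (Polynomial.C a * s) = algebraMap C Ω a * aeval t s := by
      rw [map_mul, aeval_C]
    rw [← h1] at ha
    have h2 : c * aeval t (Polynomial.C a * s) = aeval t (Polynomial.C a * r) := by
      rw [hrs, map_mul, map_mul, aeval_C]
      field_simp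
    have h3 : aeval t (Polynomial.C a * s) ∈ R.w := Red.mem_of_res_ne ha
    have h4 : aeval t (Polynomial.C a * r) ∈ R.w := by
      rw [← h2]
      exact mul_mem hcw h3
    refine ⟨_, GIntAux.res_adj hy ht _ h4, _, GIntAux.res_adj hy ht _ h3, ?_⟩
    rw [← h2, R.res_mul _ hcw _ h3, mul_div_assoc, div_self ha, mul_one]

/-- the residue field of `K'` -/
def resSub (K' : Type v) [Field K'] [Algebra K' Ω] (R : Red C Ω F U) : Subfield U where
  carrier := {x | ∃ f : K', algebraMap K' Ω f ∈ R.w ∧ R.res (algebraMap K' Ω f) = x}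
  mul_mem' := by
    rintro _ _ ⟨f, hf, rfl⟩ ⟨g, hg, rfl⟩
    exact ⟨f * g, by rw [map_mul]; exact mul_mem hf hg, by rw [map_mul, R.res_mul _ hf _ hg]⟩
  one_mem' := ⟨1, by rw [map_one]; exact one_mem _, by rw [map_one, R.res_one]⟩
  add_mem' := by
    rintro _ _ ⟨f, hf, rfl⟩ ⟨g, hg, rfl⟩
    exact ⟨f + g, by rw [map_add]; exact add_mem hf hg, by rw [map_add, R.res_add _ hf _ hg]⟩
  zero_mem' := ⟨0, by rw [map_zero]; exact zero_mem _, by rw [map_zero, R.res_zero]⟩
  neg_mem' := by
    rintro _ ⟨f, hf, rfl⟩
    exact ⟨-f, by rw [map_neg]; exact neg_mem hf, by rw [map_neg, R.res_neg hf]⟩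
  inv_mem' := by
    rintro _ ⟨f, hf, rfl⟩
    by_cases h : R.res (algebraMap K' Ω f) = 0
    · exact ⟨0, by rw [map_zero]; exact zero_mem _, by rw [map_zero, h, R.res_zero, inv_zero]⟩
    · exact ⟨f⁻¹, by rw [map_inv₀]; exact Red.inv_mem h, by rw [map_inv₀, R.res_inv h]⟩

theorem mem_resSub {K' : Type v} [Field K'] [Algebra K' Ω] {R : Red C Ω F U} {x : U} :
    x ∈ resSub K' R ↔ ∃ f : K', algebraMap K' Ω f ∈ R.w ∧ R.res (algebraMap K' Ω f) = x :=
  Iff.rfl

theorem res_mem_resSub {K' : Type v} [Field K'] [Algebra K' Ω] {R : Red C Ω F U} (f : K') :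
    R.res (algebraMap K' Ω f) ∈ resSub K' R := by
  by_cases h : algebraMap K' Ω f ∈ R.w
  · exact ⟨f, h, rfl⟩
  · rw [R.res_out _ h]
    exact zero_mem _

/-- the span of the algebraic extension `F` over `K` is a field -/
theorem span_field (hF : ∀ a : F, IsIntegral ℤ a) (K : Subfield U) {x : U}
    (hx : x ∈ IntermediateField.adjoin K (Set.range (algebraMap F U))) :
    x ∈ Submodule.span K (Set.range (algebraMap F U)) := by
  have h1 : (IntermediateField.adjoin K (Set.range (algebraMap F U))).toSubalgebra =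
      Algebra.adjoin K (Set.range (algebraMap F U)) := by
    apply IntermediateField.adjoin_toSubalgebra_of_isAlgebraic
    rintro _ ⟨i, rfl⟩
    have h2 : IsIntegral ℤ (algebraMap F U i) := (hF i).algebraMap
    have h3 : IsIntegral K (algebraMap F U i) := h2.tower_top
    exact h3.isAlgebraic
  have hone : (1 : U) ∈ Submodule.span K (Set.range (algebraMap F U)) :=
    Submodule.subset_span ⟨1, map_one _⟩
  have hmul : ∀ x y : U, x ∈ Submodule.span K (Set.range (algebraMap F U)) →
      y ∈ Submodule.span K (Set.range (algebraMap F U)) →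
      x * y ∈ Submodule.span K (Set.range (algebraMap F U)) := by
    intro x y hx hy
    have h1 := Submodule.mul_mem_mul hx hy
    rw [Submodule.span_mul_span] at h1
    refine Submodule.span_le.2 ?_ h1
    rintro _ ⟨_, ⟨i, rfl⟩, _, ⟨j, rfl⟩, rfl⟩
    exact Submodule.subset_span ⟨i * j, map_mul _ _ _⟩
  have h2 : Algebra.adjoin K (Set.range (algebraMap F U)) ≤
      (Submodule.span K (Set.range (algebraMap F U))).toSubalgebra hone hmul :=
    Algebra.adjoin_le Submodule.subset_span
  have h3 : x ∈ (IntermediateField.adjoin K (Set.range (algebraMap F U))).toSubalgebra := hx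
  rw [h1] at h3
  exact h2 h3

end Asm

end GTr

/-- G13 -/
theorem stTr (h0 : StFp.{u, v, u', v'}) (h3 : StFrc.{u, v, u', v'}) (h5 : StLD.{u, v, u', v'})
    (h7 : StBasC.{u, v, u', v'}) (h8 : StLvl.{u, v, u', v'}) : StTr.{u, v, u', v'} := by
  intro p hp k' K' Ω C F U _ _ _ _ _ _ _ _ _ _ _ _ _ _ _ _ _ _ _ R t hM L hL y hy
  have hFp := h0 p k' K' Ω C F U R t hM
  have hF : ∀ a : F, IsIntegral ℤ a := by
    intro a
    by_cases ha : a = 0
    · rw [ha]
      exact isIntegral_zero
    · obtain ⟨n, hn, hn'⟩ := hFp.tors a ha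
      refine IsIntegral.of_pow hn ?_
      rw [hn']
      exact isIntegral_one
  have hcF : CharP F p := hFp.char
  have hcU : CharP U p := charP_of_injective_algebraMap (algebraMap F U).injective p
  have hk : ∀ b : k', algebraMap k' Ω b = algebraMap C Ω (algebraMap k' C b) := fun b =>
    IsScalarTower.algebraMap_apply k' C Ω b
  have hk' : ∀ b : k', algebraMap k' Ω b = algebraMap K' Ω (algebraMap k' K' b) := fun b =>
    IsScalarTower.algebraMap_apply k' K' Ω b
  have hLD : ∀ (n : ℕ) (c : Fin n → F),
      LinearIndependent ((GTr.resSub K' R).comap (algebraMap F U)) c →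
      ∀ a : Fin n → GTr.resSub K' R, ∑ i, (a i : U) * algebraMap F U (c i) = 0 →
        ∀ i, a i = 0 := by
    intro n c hc a ha i
    choose f hf hf' using fun i => GTr.mem_resSub.1 (a i).2
    have h1 := h5 p k' K' Ω C F U R t hM n c ?_ f hf ?_ i
    · rw [hf'] at h1
      exact Subtype.ext h1
    · intro b hb hb0
      have h2 : ∀ i, algebraMap k' Ω (b i) ∈ R.w := fun i => (hM.int (b i)).2 (hb i)
      choose β hβ using fun i => R.const (algebraMap k' C (b i)) (by rw [← hk]; exact h2 i)
      have h4 : ∀ i, β i ∈ (GTr.resSub K' R).comap (algebraMap F U) := by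
        intro i
        rw [Subfield.mem_comap, ← hβ i, ← hk, hk']
        exact GTr.res_mem_resSub _
      have h6 : ∑ i, (⟨β i, h4 i⟩ : (GTr.resSub K' R).comap (algebraMap F U)) • c i = 0 := by
        apply (algebraMap F U).injective
        rw [map_zero, ← hb0, map_sum]
        refine Finset.sum_congr rfl fun i _ => ?_
        rw [hk, hβ i, ← map_mul]
        rfl
      intro i
      have h7 := Fintype.linearIndependent_iff.1 hc _ h6 i
      have h9 : β i = 0 := congrArg Subtype.val h7
      have h10 : R.res (algebraMap k' Ω (b i)) = 0 := by rw [hk, hβ i, h9, map_zero]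
      have h11 : spectralNorm ℚ_[p] k' (b i) ≠ 1 := fun h =>
        (h3 p k' K' Ω C F U R t hM).2.1 (b i) |>.2 h h10
      exact lt_of_le_of_ne (hb i) h11
    · rw [← ha]
      exact Finset.sum_congr rfl fun i _ => by rw [hf' i]
  have hyspan : y ∈ Submodule.span (GTr.resSub K' R) (Set.range (algebraMap F U)) := by
    apply GTr.span_field hF
    obtain ⟨x, hxL, hxw, rfl⟩ := Red.mem_img.1 hy
    obtain ⟨d, yb, hyA, hysp, hyind⟩ := h7 p k' K' Ω C F U R t hM
    obtain ⟨c, hc, hcw, hxc⟩ := (h8 p k' K' Ω C F U R t hM L hL).2 d yb hyA hysp hyind x hxL hxw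
    have hyw : ∀ i, algebraMap K' Ω (yb i) ∈ R.w := fun i => Red.mem_of_res_ne (hyind.ne_zero i)
    rw [hxc, Lin.res_sum R _ _ fun i _ => mul_mem (hcw i) (hyw i)]
    refine sum_mem fun i _ => ?_
    rw [R.res_mul _ (hcw i) _ (hyw i)]
    refine mul_mem ?_ ?_
    · obtain ⟨a, ha, b, hb, hab⟩ := GTr.res_adj hM.mem hM.trans (hc i) (hcw i)
      rw [hab]
      have h1 : ∀ a ∈ Algebra.adjoin F {R.res (algebraMap K' Ω t)},
          a ∈ IntermediateField.adjoin (GTr.resSub K' R) (Set.range (algebraMap F U)) := by
        intro a ha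
        induction ha using Algebra.adjoin_induction with
        | mem a ha =>
          rw [Set.mem_singleton_iff.1 ha]
          exact IntermediateField.algebraMap_mem _
            (⟨_, GTr.res_mem_resSub t⟩ : GTr.resSub K' R)
        | algebraMap r => exact IntermediateField.subset_adjoin _ _ ⟨r, rfl⟩
        | add a b _ _ ha hb => exact add_mem ha hb
        | mul a b _ _ ha hb => exact mul_mem ha hb
      exact div_mem (h1 a ha) (h1 b hb)
    · exact IntermediateField.algebraMap_mem _
        (⟨_, GTr.res_mem_resSub (yb i)⟩ : GTr.resSub K' R)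
  obtain ⟨n, c, f, hyf, hint⟩ := GTr.core p hF (GTr.resSub K' R) hLD y hyspan
  choose g hg hg' using fun i => GTr.mem_resSub.1 (f i).2
  refine ⟨n, c, g, hg, ?_, ?_⟩
  · rw [hyf]
    exact Finset.sum_congr rfl fun i _ => by rw [hg' i]
  · intro z _ h _ hi i
    rw [hg' i]
    exact hint ⟨_, GTr.res_mem_resSub z⟩ ⟨_, GTr.res_mem_resSub h⟩ hi i

end Pool.Agent.Lib.MP_c385f6_ag.TPG
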