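import Pool.Agent.Lib.MP_c385f6_ag.TPG.StThm

/-!
Project TPG, module G24: uniformizers that are integral over `F[z]`.
-/

set_option autoImplicit false

open Polynomial

namespace Pool.Agent.Lib.MP_c385f6_ag.TPG

universe u v

namespace GUnf

variable {F : Type u} {W : Type v} [Field F] [Field W] [Algebra F W]

theorem dg_sub (D E : Dv F W) : dg (D - E) = dg D - dg E := by
  unfold dg
  rw [Finsupp.sum_sub_index]
  intro a b c
  rfl

theorem dg_single (P : Plc F W) (n : ℤ) : dg (Finsupp.single P n : Dv F W) = n := by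
  simp [dg]

/-- a function with a simple zero at `x` in `L(D - x)` -/
theorem exists_simple (hR : RRF F W) (D : Dv F W) (x : Plc F W) (hx : D x = 0)
    (hl : ell (D - Finsupp.single x 2) < ell (D - Finsupp.single x 1)) :
    ∃ y : W, y ∈ RR D ∧ ord x y = 1 := by
  have h1 : ∃ y : W, y ∈ RR (D - Finsupp.single x 1) ∧ y ∉ RR (D - Finsupp.single x 2) := by
    by_contra hne
    push Not at hne
    have hle : RR (D - Finsupp.single x 1) ≤ RR (D - Finsupp.single x 2) := hne
    have h2 : ell (D - Finsupp.single x 1) ≤ ell (D - Finsupp.single x 2) := by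
      unfold ell
      have := hR.fin (D - Finsupp.single x 2)
      exact_mod_cast Submodule.finrank_mono hle
    omega
  obtain ⟨y, hy1, hy2⟩ := h1
  have hy0 : y ≠ 0 := by
    rintro rfl
    exact hy2 (zero_mem _)
  rw [hR.mem] at hy1 hy2
  have h3 := hy1 hy0
  refine ⟨y, ?_, ?_⟩
  · rw [hR.mem]
    intro _ P
    have h4 := h3 P
    rw [Finsupp.sub_apply] at h4
    have h5 : 0 ≤ (Finsupp.single x (1 : ℤ)) P := by
      classical
      rw [Finsupp.single_apply]
      split_ifs <;> norm_num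
    omega
  · have h4 := h3 x
    rw [Finsupp.sub_apply, Finsupp.single_eq_same, hx] at h4
    push Not at hy2
    obtain ⟨-, P, hP⟩ := hy2
    by_cases hPx : P = x
    · subst hPx
      rw [Finsupp.sub_apply, Finsupp.single_eq_same, hx] at hP
      omega
    · have h5 := h3 P
      rw [Finsupp.sub_apply, Finsupp.single_eq_of_ne hPx] at h5 hP
      omega

end GUnf

open GUnf in
theorem stUnf (hO : StOrd.{u, v}) (hZ : StZero.{u, v}) (hR : StRRF.{u, v})
    (hRi : StRiem.{u, v}) (hPl : StPl.{u, v}) : StUnf.{u, v} := by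
  intro F W _ _ _ _ hFF x z hz hzx
  have rr := hR F W hFF
  have oo := hO F W hFF
  obtain ⟨g, hg, -⟩ := hRi F W hFF
  obtain ⟨d, hd⟩ := hg.2
  have hzc : ∀ c : F, z ≠ algebraMap F W c := by
    rintro c rfl
    exact hz (isAlgebraic_algebraMap c)
  have hz0 : z ≠ 0 := by
    have := hzc 0
    rwa [map_zero] at this
  obtain ⟨-, hfin, -⟩ := (hZ F W hFF).1 z hzc
  have hpos : 0 < Module.finrank (IntermediateField.adjoin F {z}) W := Module.finrank_pos
  obtain ⟨m, hm⟩ : ∃ m : ℕ, d + 2 ≤ m := ⟨(d + 2).toNat, Int.self_le_toNat _⟩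
  have hdg := (hPl F W z hFF hz m).1
  have hdg' : d + 2 ≤ dg (pl F z m) := by
    rw [hdg]
    have h1 : (1 : ℤ) ≤ Module.finrank (IntermediateField.adjoin F {z}) W := by exact_mod_cast hpos
    have h2 : (0 : ℤ) ≤ m := by positivity
    nlinarith
  have hx0 : (pl F z m : Dv F W) x = 0 := by
    have h1 : 0 ≤ ord x z := (oo.mem x z hz0).1 hzx
    unfold pl
    rw [Finsupp.smul_apply, Finsupp.sup_apply, Finsupp.neg_apply, rr.dv_apply z x hz0]
    have h2 : (-ord x z) ⊔ (0 : Dv F W) x = 0 := by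
      rw [Finsupp.zero_apply]
      exact max_eq_right (by omega)
    rw [h2, smul_zero]
  have h1 := hd (pl F z m - Finsupp.single x 1) (by rw [dg_sub, dg_single]; omega)
  have h2 := hd (pl F z m - Finsupp.single x 2) (by rw [dg_sub, dg_single]; omega)
  rw [dg_sub, dg_single] at h1 h2
  obtain ⟨y, hy, hyx⟩ := exists_simple rr (pl F z m) x hx0 (by omega)
  exact ⟨y, ((hPl F W z hFF hz m).2 y).1 hy |>.1, hyx⟩

end Pool.Agent.Lib.MP_c385f6_ag.TPG
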