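import Pool.Agent.Lib.MP_c385f6_ag.TPG.FinDefs
import Pool.Agent.Lib.MP_c385f6_ag.Semi.Sct

/-!
Project TPG, part H, module RS: rational places give sections of `Gal(N / K)`.
-/

set_option autoImplicit false

namespace Pool.Agent.Lib.MP_c385f6_ag.TPG

universe u

theorem stRS : StRS.{u} := by
  intro p k K Ω ik ic iK iO iakK iakO iaKO ist ial N A hN hA
  have hg : IsGalois K N := hN.galois
  refine Semi.stSct k K Ω ik ic iK iO iakK iakO iaKO ist ial N hg.to_normal hN.const A hA ?_
  intro V hV σ hσ z hz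
  refine inertia_ur (fun c => ?_) hσ (hN.le hz)
  have h1 : algebraMap k K c ∈ V.comap (algebraMap K Ω) := by
    rw [hV]
    exact hA.const_mem c
  rw [IsScalarTower.algebraMap_apply k K Ω]
  exact h1

end Pool.Agent.Lib.MP_c385f6_ag.TPG
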