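import Pool.Agent.Lib.MP_c385f6_ag.TPG.StT
import Pool.Agent.Lib.MP_c385f6_ag.TPG.AllA

/-!
Project TPG, module T1: unramified Kummer extensions and the specialisation maps.

A homomorphism from the divisors of `L` to the integers that is bounded on the places and kills the
principal divisors is constant on the places (Riemann). This is applied to the coefficients of
`∑ (sp' Q ∩ Λ) - N • sp P`, the sum over the `N = [M : L]` places `Q` of `M` above `P`.
-/

set_option autoImplicit false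

namespace Pool.Agent.Lib.MP_c385f6_ag.TPG

universe u v u' v' w

namespace TCmp

section One

variable {F : Type u} {W : Type v} [Field F] [Field W] [Algebra F W]

theorem dg_add (D E : Dv F W) : dg (D + E) = dg D + dg E :=
  Finsupp.sum_add_index' (fun _ => rfl) (fun _ _ _ => rfl)

theorem dg_single (P : Plc F W) (n : ℤ) : dg (Finsupp.single P n : Dv F W) = n :=
  Finsupp.sum_single_index rfl

theorem dg_sub (D E : Dv F W) : dg (D - E) = dg D - dg E := by
  have h := dg_add (D - E) E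
  rw [sub_add_cancel] at h
  linarith

theorem single_eq (P : Plc F W) (n : ℤ) :
    (Finsupp.single P n : Dv F W) = n • Finsupp.single P 1 := by
  rw [Finsupp.smul_single, smul_eq_mul, mul_one]

/-- a homomorphism which is bounded on the places -/
theorem abs_hom_le (A : Dv F W →+ ℤ) (K : ℤ) (hA : ∀ P, |A (Finsupp.single P 1)| ≤ K)
    (E : Dv F W) (hE : 0 ≤ E) : |A E| ≤ K * dg E := by
  have h1 : A E = ∑ P ∈ E.support, E P * A (Finsupp.single P 1) := by
    conv_lhs => rw [← Finsupp.sum_single E]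
    rw [Finsupp.sum, map_sum]
    refine Finset.sum_congr rfl fun P _ => ?_
    rw [single_eq, map_zsmul, smul_eq_mul]
  rw [h1, dg, Finsupp.sum, Finset.mul_sum]
  refine (Finset.abs_sum_le_sum_abs _ _).trans (Finset.sum_le_sum fun P _ => ?_)
  have hP : 0 ≤ E P := hE P
  rw [abs_mul, abs_of_nonneg hP, mul_comm]
  exact mul_le_mul_of_nonneg_right (hA P) hP

/-- a homomorphism which is bounded on the places and kills the principal divisors is constant on
the places -/
theorem const (r : RRF F W) {g : ℕ} (hg : IsGenus F W g) (A : Dv F W →+ ℤ) (K : ℤ) (hK : 0 ≤ K)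
    (hA : ∀ P, |A (Finsupp.single P 1)| ≤ K) (h0 : ∀ f : W, f ≠ 0 → A (dv f) = 0)
    (P Q : Plc F W) : A (Finsupp.single P 1) = A (Finsupp.single Q 1) := by
  by_contra hne
  obtain ⟨a, ha⟩ : ∃ a, A (Finsupp.single P 1) = a := ⟨_, rfl⟩
  obtain ⟨b, hb⟩ : ∃ b, A (Finsupp.single Q 1) = b := ⟨_, rfl⟩
  obtain ⟨m, hm⟩ : ∃ m : ℤ, m = 2 * K * g + 1 := ⟨_, rfl⟩
  obtain ⟨D, hDe⟩ : ∃ D : Dv F W,
      D = (Finsupp.single P m - Finsupp.single Q m) + Finsupp.single P (g : ℤ) := ⟨_, rfl⟩
  have hD : dg D = g := by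
    rw [hDe, dg_add, dg_sub, dg_single, dg_single, dg_single]
    ring
  have hl : 0 < ell D := by
    have h := hg.1 D
    rw [hD] at h
    linarith
  obtain ⟨f, hf, hE⟩ := r.eff D hl
  have h1 : A (dv f + D) = m * (a - b) + g * a := by
    rw [map_add, h0 f hf, zero_add, hDe, map_add, map_sub, single_eq P m, single_eq Q m,
      single_eq P (g : ℤ), map_zsmul, map_zsmul, map_zsmul, ha, hb, smul_eq_mul, smul_eq_mul,
      smul_eq_mul]
    ring
  have h2 : dg (dv f + D) = g := by rw [dg_add, r.dg_dv f hf, hD, zero_add]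
  have h3 := abs_hom_le A K hA _ hE
  rw [h1, h2] at h3
  have hgn : (0 : ℤ) ≤ g := Int.natCast_nonneg g
  have h4 : |(g : ℤ) * a| ≤ K * g := by
    rw [abs_mul, abs_of_nonneg hgn, mul_comm, ← ha]
    exact mul_le_mul_of_nonneg_right (hA P) hgn
  have hKg : 0 ≤ K * g := mul_nonneg hK hgn
  have h5 : |m * (a - b)| ≤ K * g + K * g := by
    have h6 : m * (a - b) = (m * (a - b) + g * a) - g * a := by ring
    rw [h6]
    exact (abs_sub _ _).trans (add_le_add h3 h4)
  have h6 : 1 ≤ |a - b| := Int.one_le_abs (sub_ne_zero.2 (by rw [← ha, ← hb]; exact hne))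
  have hm0 : 0 < m := by rw [hm]; nlinarith
  have h7 : m ≤ |m * (a - b)| := by
    rw [abs_mul, abs_of_pos hm0]
    nlinarith
  rw [hm] at h7 h5
  nlinarith

end One

section Ext

variable {F : Type u} {W : Type v} {W' : Type w} [Field F] [Field W] [Algebra F W] [Field W']
  [Algebra F W'] [Algebra W W']

/-- `W' / W` is unramified with `N` places above every place. -/
structure Un (F : Type u) (W : Type v) (W' : Type w) [Field F] [Field W] [Algebra F W] [Field W']
    [Algebra F W'] [Algebra W W'] (N : ℕ) (π : Plc F W' → Plc F W) : Prop where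
  ovr : ∀ Q, Over (π Q) Q
  oeq : ∀ (P : Plc F W) (Q : Plc F W'), Over P Q → ∀ f : W, f ≠ 0 →
    ord Q (algebraMap W W' f) = ord P f
  fin : ∀ P : Plc F W, {Q : Plc F W' | Over P Q}.Finite
  crd : ∀ P : Plc F W, (fin P).toFinset.card = N

variable {N : ℕ} {π : Plc F W' → Plc F W}

theorem Un.eq (h : Un F W W' N π) {P : Plc F W} {Q : Plc F W'} (hQ : Over P Q) : P = π Q :=
  Plc.ext (hQ.trans (h.ovr Q).symm)

/-- the conorm -/
noncomputable def con (h : Un F W W' N π) : Dv F W →+ Dv F W' :=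
  Finsupp.liftAddHom fun P => ∑ Q ∈ (h.fin P).toFinset, Finsupp.singleAddHom Q

theorem con_single (h : Un F W W' N π) (P : Plc F W) (m : ℤ) :
    con h (Finsupp.single P m) = ∑ Q ∈ (h.fin P).toFinset, Finsupp.single Q m := by
  rw [con, Finsupp.liftAddHom_apply_single, AddMonoidHom.finsetSum_apply]
  rfl

theorem mem_fib (h : Un F W W' N π) {P : Plc F W} {Q : Plc F W'} :
    Q ∈ (h.fin P).toFinset ↔ Over P Q := by
  rw [Set.Finite.mem_toFinset]
  rfl

theorem con_apply (h : Un F W W' N π) (D : Dv F W) (Q : Plc F W') : con h D Q = D (π Q) := by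
  classical
  induction D using Finsupp.induction_linear with
  | zero => rw [map_zero]; rfl
  | add D E hD hE => rw [map_add, Finsupp.add_apply, Finsupp.add_apply, hD, hE]
  | single P m =>
    rw [con_single, Finsupp.finsetSum_apply]
    by_cases hP : P = π Q
    · rw [Finset.sum_eq_single Q, Finsupp.single_eq_same, hP, Finsupp.single_eq_same]
      · intro Q' _ hne
        exact Finsupp.single_eq_of_ne' hne
      · intro hn
        exact absurd ((mem_fib h).2 (hP ▸ h.ovr Q)) hn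
    · rw [Finsupp.single_eq_of_ne' hP]
      refine Finset.sum_eq_zero fun Q' hQ' => ?_
      refine Finsupp.single_eq_of_ne' ?_
      rintro rfl
      exact hP (h.eq ((mem_fib h).1 hQ'))

theorem con_dv (h : Un F W W' N π) (r : RRF F W) (r' : RRF F W') {f : W} (hf : f ≠ 0) :
    con h (dv f) = dv (algebraMap W W' f) := by
  ext Q
  rw [con_apply, r.dv_apply f _ hf, r'.dv_apply _ _ ((map_ne_zero _).2 hf),
    h.oeq _ _ (h.ovr Q) f hf]

theorem push_con (h : Un F W W' N π) (D : Dv F W) : Finsupp.mapDomain π (con h D) = N • D := by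
  induction D using Finsupp.induction_linear with
  | zero => rw [map_zero, Finsupp.mapDomain_zero, smul_zero]
  | add D E hD hE => rw [map_add, Finsupp.mapDomain_add, hD, hE, smul_add]
  | single P m =>
    rw [con_single, Finsupp.mapDomain_finsetSum]
    rw [Finset.sum_congr rfl (g := fun _ => Finsupp.single P m), Finset.sum_const, h.crd P]
    intro Q hQ
    rw [Finsupp.mapDomain_single, ← h.eq ((mem_fib h).1 hQ)]

/-- unramified extensions -/
theorem exists_un [IsAlgClosed F] [IsScalarTower F W W'] [FiniteDimensional W W']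
    (hFF : FF F W) (hun : ∀ (P : Plc F W) (Q : Plc F W'), Over P Q → ∀ f : W, f ≠ 0 →
      ord Q (algebraMap W W' f) = ord P f) :
    ∃ π : Plc F W' → Plc F W, Un F W W' (Module.finrank W W') π := by
  obtain ⟨-, h1, e, -, he, h2⟩ := All.ovr.{u, v, w} F W W' hFF
  choose π hπ using h1
  have hO := All.ord.{u, v} F W hFF
  have he1 : ∀ Q, e Q = 1 := by
    intro Q
    obtain ⟨t, ht, ht1⟩ := hO.unif (π Q)
    have h3 := he _ _ (hπ Q) t ht
    rw [hun _ _ (hπ Q) t ht, ht1, mul_one] at h3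
    exact_mod_cast h3.symm
  refine ⟨π, hπ, hun, fun P => (h2 P).1, fun P => ?_⟩
  have h4 := (h2 P).2
  have h5 : (∑ᶠ (Q : Plc F W') (_ : Over P Q), e Q) =
      ∑ Q ∈ (h2 P).1.toFinset, e Q :=
    finsum_mem_eq_finite_toFinset_sum e (h2 P).1
  rw [h5, Finset.sum_congr rfl fun Q _ => he1 Q, ← Finset.card_eq_sum_ones] at h4
  exact h4

end Ext

end TCmp

open TCmp in
/-- Module T1. -/
theorem stCmp : StCmp.{u, v, u', v'} := by
  classical
  intro C L M F Λ μ _ _ _ _ _ _ _ _ _ _ _ _ _ _ _ _ R R' g g' n h f sp sp' hG hG' hRE hnF hnC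
    hhf hf hadj hsp hsp'
  obtain ⟨-, hfin, hfin', hrk, c, y, hc, hη0, hy, hηy, hadj'⟩ :=
    All.et.{u, v, u', v'} C L M F Λ μ R R' g n h f hG hRE hnF hnC hhf hf hadj
  obtain ⟨-, -, hun, -⟩ := All.kum.{u, v, v} C L M n h f hG.ffC hnC hhf hf hadj
  obtain ⟨-, -, hun', -⟩ :=
    All.kum.{u', v', v'} F Λ μ n _ y hG.ffF hnF hηy hy hadj'
  obtain ⟨π, hU⟩ := exists_un.{u, v, v} hG.ffC hun
  obtain ⟨π', hU'⟩ := exists_un.{u', v', v'} hG.ffF hun'
  rw [← hrk] at hU'
  obtain ⟨N, hN⟩ : ∃ N, Module.finrank L M = N := ⟨_, rfl⟩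
  rw [hN] at hU hU'
  have hO := All.ord.{u, v} C L hG.ffC
  have r := All.rrf.{u, v} C L hG.ffC
  have rM := All.rrf.{u, v} C M hG'.ffC
  have rΛ := All.rrf.{u', v'} F Λ hG.ffF
  have rμ := All.rrf.{u', v'} F μ hG'.ffF
  obtain ⟨-, -, hscale⟩ := All.on.{u, v, u', v'} C L F Λ R g hG
  obtain ⟨hsur, -⟩ := All.dsc.{u, v, u', v'} C L F Λ R g sp hG hsp
  -- the homomorphism
  let Φ : Dv C L →+ Dv F Λ :=
    ((Finsupp.mapDomain.addMonoidHom (M := ℤ) fun Q => π' (sp' Q)).comp (con hU)) -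
      N • Finsupp.mapDomain.addMonoidHom (M := ℤ) sp
  have hΦ : ∀ D : Dv C L, Φ D = Finsupp.mapDomain (fun Q => π' (sp' Q)) (con hU D) -
      N • Finsupp.mapDomain sp D := fun D => rfl
  have hres : ∀ z : L, R'.res (algebraMap L M z) = algebraMap Λ μ (R.res z) := hRE.2
  have hΦ1 : ∀ z : L, R.res z ≠ 0 → Φ (dv z) = 0 := by
    intro z hz
    have hz0 : z ≠ 0 := CDsc.ne_zero_of_res hz
    have hz' : R'.res (algebraMap L M z) ≠ 0 := by
      rw [hres]
      exact (map_ne_zero _).2 hz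
    have hcomp : Finsupp.mapDomain (fun Q => π' (sp' Q)) (con hU (dv z)) =
        Finsupp.mapDomain π' (Finsupp.mapDomain sp' (con hU (dv z))) := by
      rw [← Finsupp.mapDomain_comp]
      rfl
    rw [hΦ, hcomp, con_dv hU r rM hz0, hsp' _ hz', hres, ← con_dv hU' rΛ rμ hz, push_con,
      hsp z hz, sub_self]
  have hΦ0 : ∀ z : L, z ≠ 0 → Φ (dv z) = 0 := by
    intro z hz
    obtain ⟨c, hc, hcz⟩ := hscale z hz
    have h1 : (dv (algebraMap C L c * z) : Dv C L) = dv z := by
      ext P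
      have hc0 : algebraMap C L c ≠ 0 := (map_ne_zero _).2 hc
      rw [r.dv_apply _ _ (mul_ne_zero hc0 hz), r.dv_apply _ _ hz, hO.mul P _ _ hc0 hz,
        r.ord_const, zero_add]
    rw [← h1]
    exact hΦ1 _ hcz
  have hval : ∀ (P : Plc C L) (x : Plc F Λ), Φ (Finsupp.single P 1) x =
      ((hU.fin P).toFinset.filter fun Q => π' (sp' Q) = x).card -
        N * if sp P = x then 1 else 0 := by
    intro P x
    rw [hΦ, con_single, Finsupp.mapDomain_finsetSum, Finsupp.mapDomain_single,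
      Finsupp.sub_apply, Finsupp.finsetSum_apply, Finsupp.smul_apply, Finsupp.single_apply,
      nsmul_eq_mul, Finset.card_filter, Nat.cast_sum]
    congr 1
    refine Finset.sum_congr rfl fun Q _ => ?_
    rw [Finsupp.mapDomain_single, Finsupp.single_apply]
    split_ifs <;> rfl
  have hcard : ∀ (P : Plc C L) (x : Plc F Λ),
      ((hU.fin P).toFinset.filter fun Q => π' (sp' Q) = x).card ≤ N := by
    intro P x
    exact (Finset.card_filter_le _ _).trans_eq (hU.crd P)
  have hzero : ∀ (P : Plc C L) (x : Plc F Λ), Φ (Finsupp.single P 1) x = 0 := by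
    intro P x
    have hconst : ∀ P₁ P₂ : Plc C L, Φ (Finsupp.single P₁ 1) x = Φ (Finsupp.single P₂ 1) x := by
      intro P₁ P₂
      refine const r hG.genC ((Finsupp.applyAddHom x).comp Φ) N (Int.natCast_nonneg N)
        (fun P => ?_) (fun z hz => ?_) P₁ P₂
      · change |Φ (Finsupp.single P 1) x| ≤ N
        rw [hval, abs_le]
        have h1 := hcard P x
        split_ifs <;> constructor <;> omega
      · change Φ (dv z) x = 0
        rw [hΦ0 z hz]
        rfl
    obtain ⟨P₁, hP₁⟩ := hsur x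
    have hinf : Infinite (Plc F Λ) := rΛ.ne
    obtain ⟨x', hx'⟩ := exists_ne x
    obtain ⟨P₂, hP₂⟩ := hsur x'
    have h1 := hval P₁ x
    have h2 := hval P₂ x
    have h3 := hcard P₁ x
    rw [if_pos hP₁] at h1
    rw [if_neg (by rw [hP₂]; exact hx')] at h2
    have h4 := hconst P P₁
    have h5 := hconst P P₂
    omega
  -- first part
  have hmain : ∀ (P : Plc C L) (Q : Plc C M), Over P Q → Over (sp P) (sp' Q) := by
    intro P Q hPQ
    have h1 := hzero P (π' (sp' Q))
    rw [hval] at h1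
    have h2 : 0 < ((hU.fin P).toFinset.filter fun Q' => π' (sp' Q') = π' (sp' Q)).card :=
      Finset.card_pos.2 ⟨Q, Finset.mem_filter.2 ⟨(mem_fib hU).2 hPQ, rfl⟩⟩
    have h3 : sp P = π' (sp' Q) := by
      by_contra hne
      rw [if_neg hne] at h1
      omega
    rw [h3]
    exact hU'.ovr _
  refine ⟨hmain, fun P y hPy => ?_⟩
  -- second part
  obtain ⟨hcr, -⟩ := All.crd.{u, v, u', v'} C L F Λ R g sp hG hsp
  obtain ⟨t, ⟨-, ht0, ht1⟩, htP, htQ⟩ := hcr P
  have htz : t ≠ 0 := CDsc.ne_zero_of_res ht0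
  have ht' : R'.res (algebraMap L M t) ≠ 0 := by
    rw [hres]
    exact (map_ne_zero _).2 ht0
  have h1 : (Finsupp.mapDomain sp' (dv (algebraMap L M t) : Dv C M)) y = 1 := by
    rw [CDsc.push_eq hsp' rμ y ht', hres, hU'.oeq _ _ hPy _ ht0, ht1]
  have hord : ∀ Q : Plc C M, sp' Q = y → (dv (algebraMap L M t) : Dv C M) Q =
      if Over P Q then 1 else 0 := by
    intro Q hQ
    rw [rM.dv_apply _ _ ((map_ne_zero _).2 htz), hU.oeq _ _ (hU.ovr Q) t htz]
    have h2 : sp (π Q) = sp P := by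
      have h3 := hU'.eq (hmain _ _ (hU.ovr Q))
      rw [h3, hQ, ← hU'.eq hPy]
    by_cases hPQ : Over P Q
    · rw [if_pos hPQ, ← hU.eq hPQ, htP]
    · rw [if_neg hPQ]
      refine htQ _ h2 ?_
      intro h3
      exact hPQ (h3 ▸ hU.ovr Q)
  rw [CDsc.mapDomain_apply] at h1
  have h2 : ∀ Q ∈ (dv (algebraMap L M t) : Dv C M).support.filter (fun Q => sp' Q = y),
      (dv (algebraMap L M t) : Dv C M) Q = 1 ∧ Over P Q := by
    intro Q hQ
    rw [Finset.mem_filter, Finsupp.mem_support_iff] at hQ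
    have h3 := hord Q hQ.2
    by_cases hPQ : Over P Q
    · rw [if_pos hPQ] at h3
      exact ⟨h3, hPQ⟩
    · rw [if_neg hPQ] at h3
      exact absurd h3 hQ.1
  rw [Finset.sum_congr rfl fun Q hQ => (h2 Q hQ).1, Finset.sum_const, nsmul_eq_mul, mul_one] at h1
  have h3 : ((dv (algebraMap L M t) : Dv C M).support.filter (fun Q => sp' Q = y)).card = 1 := by
    exact_mod_cast h1
  obtain ⟨Q, hQ⟩ := Finset.card_eq_one.1 h3
  have hQm : Q ∈ (dv (algebraMap L M t) : Dv C M).support.filter (fun Q => sp' Q = y) := by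
    rw [hQ]
    exact Finset.mem_singleton_self Q
  refine ⟨Q, ⟨(h2 Q hQm).2, (Finset.mem_filter.1 hQm).2⟩, ?_⟩
  rintro Q' ⟨hQ1, hQ2⟩
  have h4 : Q' ∈ (dv (algebraMap L M t) : Dv C M).support.filter (fun Q => sp' Q = y) := by
    rw [Finset.mem_filter, Finsupp.mem_support_iff, hord Q' hQ2, if_pos hQ1]
    exact ⟨one_ne_zero, hQ2⟩
  rw [hQ] at h4
  exact Finset.mem_singleton.1 h4

end Pool.Agent.Lib.MP_c385f6_ag.TPG
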