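import Pool.Agent.Lib.MP_c385f6_ag.TPG.StT
import Pool.Agent.Lib.MP_c385f6_ag.TPG.AllA

/-!
Project TPG, T2: towers and the specialisation maps.
-/

set_option autoImplicit false

namespace Pool.Agent.Lib.MP_c385f6_ag.TPG

universe u v u' v' w

namespace TwCmpAux

section Abv

variable {F : Type u} {U : Type v} [Field F] [Field U] [Algebra F U]

/-- Places of the same field: above means equal. -/
theorem abv_self {M : IntermediateField F U} {x y : Plc F M} : AbvP x y ↔ x = y := by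
  constructor
  · intro h
    apply Plc.ext
    ext z
    exact h z z rfl
  · rintro rfl z z' hz
    rw [Subtype.ext hz]

/-- Places of equal fields. -/
theorem abv_trans {M M' M'' : IntermediateField F U} {x : Plc F M} {y : Plc F M'} {z : Plc F M''}
    (hle : M ≤ M') (h1 : AbvP x y) (h2 : AbvP y z) : AbvP x z := by
  intro a b hab
  exact (h1 a ⟨a, hle a.2⟩ rfl).trans (h2 _ b hab)

/-- The restriction of a place, if it is above some place. -/
theorem exists_restr {M M' M'' : IntermediateField F U} {x : Plc F M} {z : Plc F M''}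
    (hle : M ≤ M') (hle' : M' ≤ M'') (h : AbvP x z) :
    ∃ y : Plc F M', AbvP x y ∧ AbvP y z ∧ ∀ y' : Plc F M', AbvP y' z → y' = y := by
  let V : ValuationSubring M' := z.ring.comap (IntermediateField.inclusion hle').toRingHom
  have hV : ∀ a : M', a ∈ V ↔ (⟨a, hle' a.2⟩ : M'') ∈ z.ring := fun _ => Iff.rfl
  have hx : ∀ a : M, a ∈ x.ring ↔ (⟨a, hle a.2⟩ : M') ∈ V := by
    intro a
    rw [hV]
    exact h a _ rfl
  refine ⟨⟨V, ?_, ?_⟩, ?_, ?_, ?_⟩
  · intro ht
    apply x.ne_top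
    ext a
    rw [hx, ht]
    simp
  · intro c
    rw [hV]
    exact z.const_mem c
  · intro a b hab
    rw [hx]
    have : b = ⟨a, hle a.2⟩ := Subtype.ext hab.symm
    rw [this]
  · intro a b hab
    change a ∈ V ↔ _
    rw [hV]
    have : b = ⟨a, hle' a.2⟩ := Subtype.ext hab.symm
    rw [this]
  · intro y' hy'
    apply Plc.ext
    ext a
    change _ ↔ a ∈ V
    rw [hV]
    exact hy' a _ rfl

theorem abv_unique {M M' : IntermediateField F U} {x x' : Plc F M} {z : Plc F M'}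
    (hle : M ≤ M') (h : AbvP x z) (h' : AbvP x' z) : x = x' := by
  apply Plc.ext
  ext a
  exact (h a ⟨a, hle a.2⟩ rfl).trans (h' a ⟨a, hle a.2⟩ rfl).symm

end Abv

section main

variable {C : Type u} {Ω : Type v} {F : Type u'} {U : Type v'} [Field C] [Field Ω]
  [Field F] [Field U] [Algebra C Ω] [Algebra F U]

/-- The claim for `A ≤ B`. -/
def Clm (R : Red C Ω F U) (A B : IntermediateField C Ω) : Prop :=
  ∀ (sp : Plc C A → Plc F (R.img A)) (sp' : Plc C B → Plc F (R.img B)),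
    IsSp (R.sub A) sp → IsSp (R.sub B) sp' →
    (∀ (P : Plc C A) (Q : Plc C B), AbvP P Q → AbvP (sp P) (sp' Q)) ∧
    ∀ (P : Plc C A) (y : Plc F (R.img B)), AbvP (sp P) y →
      ∃! Q : Plc C B, AbvP P Q ∧ sp' Q = y

theorem Clm.refl [IsAlgClosed C] [IsAlgClosed F] (R : Red C Ω F U) (A : IntermediateField C Ω)
    {g : ℕ} (hG : Good (R.sub A) g) : Clm R A A := by
  intro sp sp' h1 h2
  have h3 : sp = sp' := (All.sp C A F (R.img A) (R.sub A) g hG).unique h1 h2
  subst h3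
  refine ⟨fun P Q hPQ => ?_, fun P y hy => ?_⟩
  · rw [abv_self] at hPQ ⊢
    rw [hPQ]
  · rw [abv_self] at hy
    refine ⟨P, ⟨abv_self.2 rfl, hy⟩, ?_⟩
    rintro Q ⟨hQ, -⟩
    exact (abv_self.1 hQ).symm

theorem Clm.trans [IsAlgClosed C] [IsAlgClosed F] {R : Red C Ω F U}
    {A B D : IntermediateField C Ω} (hAB : A ≤ B) (hBD : B ≤ D) {g : ℕ} (hG : Good (R.sub B) g)
    (h1 : Clm R A B) (h2 : Clm R B D) : Clm R A D := by
  intro sp sp' hs hs'
  obtain ⟨spB, hB, -⟩ := All.sp C B F (R.img B) (R.sub B) g hG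
  obtain ⟨h3, h4⟩ := h1 sp spB hs hB
  obtain ⟨h5, h6⟩ := h2 spB sp' hB hs'
  have iAB := DTwGood.img_mono R hAB
  have iBD := DTwGood.img_mono R hBD
  refine ⟨fun P Q hPQ => ?_, fun P y hy => ?_⟩
  · obtain ⟨QB, h7, h8, -⟩ := exists_restr hAB hBD hPQ
    exact abv_trans iAB (h3 P QB h7) (h5 QB Q h8)
  · obtain ⟨yB, h7, h8, h9⟩ := exists_restr iAB iBD hy
    obtain ⟨QB, ⟨h10, h11⟩, h12⟩ := h4 P yB h7
    obtain ⟨Q, ⟨h13, h14⟩, h15⟩ := h6 QB y (by rw [h11]; exact h8)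
    refine ⟨Q, ⟨abv_trans hAB h10 h13, h14⟩, ?_⟩
    rintro Q' ⟨h16, h17⟩
    obtain ⟨QB', h18, h19, -⟩ := exists_restr hAB hBD h16
    have h20 := h5 QB' Q' h19
    rw [h17] at h20
    have h21 : QB' = QB := h12 QB' ⟨h18, h9 _ h20⟩
    rw [h21] at h19
    exact h15 Q' ⟨h19, h17⟩

theorem Clm.step [IsAlgClosed C] [IsAlgClosed F] (hC : StCmp.{u, v, u', v'}) {R : Red C Ω F U}
    {A : IntermediateField C Ω} {g g' n : ℕ} {h : Ω} {f : A}
    (hG : Good (R.sub A) g) (hG' : Good (R.sub (A ⊔ IntermediateField.adjoin C {h})) g')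
    (hnF : (n : F) ≠ 0) (hnC : (n : C) ≠ 0) (hf : h ^ n = f) (hD : f ∈ Dn C n) :
    Clm R A (A ⊔ IntermediateField.adjoin C {h}) := by
  have hle : A ≤ A ⊔ IntermediateField.adjoin C {h} := le_sup_left
  have hh : h ∈ A ⊔ IntermediateField.adjoin C {h} :=
    (le_sup_right : IntermediateField.adjoin C {h} ≤ A ⊔ IntermediateField.adjoin C {h})
      (IntermediateField.mem_adjoin_simple_self C h)
  generalize hN : A ⊔ IntermediateField.adjoin C {h} = N at hle hh hG' ⊢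
  have hi := DTwGood.img_mono R hle
  intro sp sp' hs hs'
  letI : Algebra A N := DTwGood.incAlg hle
  letI : Algebra (R.img A) (R.img N) := DTwGood.incAlg hi
  haveI : IsScalarTower C A N := DTwGood.incTower hle
  haveI : IsScalarTower F (R.img A) (R.img N) := DTwGood.incTower hi
  obtain ⟨h1, h2⟩ := hC C A N F (R.img A) (R.img N) (R.sub A) (R.sub N) g g' n ⟨h, hh⟩ f sp sp'
    hG hG' (DTwGood.rext_sub R hle) hnF hnC (Subtype.ext hf) hD
    (DTwGood.top_of_sup hle ⟨h, hh⟩ hN) hs hs'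
  have h3 : ∀ (P : Plc C A) (Q : Plc C N), Over P Q ↔ AbvP P Q := by
    intro P Q
    constructor
    · intro h4 z z' hz
      have h5 : algebraMap A N z = z' := Subtype.ext hz
      rw [h4, ← h5]
      exact Iff.rfl
    · intro h4
      unfold Over
      ext z
      exact h4 z (algebraMap A N z) rfl
  have h4 : ∀ (P : Plc F (R.img A)) (Q : Plc F (R.img N)), Over P Q ↔ AbvP P Q := by
    intro P Q
    constructor
    · intro h4 z z' hz
      have h5 : algebraMap (R.img A) (R.img N) z = z' := Subtype.ext hz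
      rw [h4, ← h5]
      exact Iff.rfl
    · intro h4
      unfold Over
      ext z
      exact h4 z (algebraMap (R.img A) (R.img N) z) rfl
  refine ⟨fun P Q hPQ => (h4 _ _).1 (h1 P Q ((h3 _ _).2 hPQ)), fun P y hy => ?_⟩
  obtain ⟨Q, ⟨h5, h6⟩, h7⟩ := h2 P y ((h4 _ _).2 hy)
  exact ⟨Q, ⟨(h3 _ _).1 h5, h6⟩, fun Q' hQ' => h7 Q' ⟨(h3 _ _).2 hQ'.1, hQ'.2⟩⟩

end main

end TwCmpAux

open TwCmpAux in
/-- T2. Comparison for towers. -/
theorem stTwCmp (hCmp : StCmp.{u, v, u', v'}) : StTwCmp.{u, v, u', v'} := by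
  intro C Ω F U _ _ _ _ _ _ _ _ R p g L hC hF hG
  have hLF : FF C L := hG.ffC
  obtain ⟨d1, d2, -, -, d5⟩ := All.twDir C Ω p L hLF hC
  have dG := All.twGood C Ω F U R p g L hC hF hG
  have key : ∀ M M' : IntermediateField C Ω, Tow C p L M → Tow C p L M' →
      Clm R M (M ⊔ M') := by
    intro M M' hM hM'
    obtain ⟨-, ⟨gM, hgM⟩, -⟩ := dG M hM
    induction hM' with
    | base =>
      rw [sup_eq_left.2 (d1 M hM).1]
      exact Clm.refl R M hgM
    | step M' h n f hT hn hf hD ih =>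
      have hT' := d2 M M' hM hT
      obtain ⟨-, ⟨g1, hg1⟩, -⟩ := dG _ hT'
      have hD' : (⟨(f : Ω), (le_sup_right : M' ≤ M ⊔ M') f.2⟩ :
          (M ⊔ M' : IntermediateField C Ω)) ∈ Dn C n :=
        d5 M' (M ⊔ M') n f _ hT hT' le_sup_right rfl hD
      have hT'' := Tow.step (M ⊔ M') h n
        ⟨(f : Ω), (le_sup_right : M' ≤ M ⊔ M') f.2⟩ hT' hn hf hD'
      obtain ⟨-, ⟨g2, hg2⟩, -⟩ := dG _ hT''
      rw [← sup_assoc]
      exact Clm.trans le_sup_left le_sup_left hg1 ih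
        (Clm.step hCmp hg1 hg2 (hF n hn) (hC n hn) hf hD')
  intro M M' sp sp' hM hM' hle hs hs'
  have h1 := key M M' hM hM'
  rw [sup_eq_right.2 hle] at h1
  exact h1 sp sp' hs hs'

end Pool.Agent.Lib.MP_c385f6_ag.TPG
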