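import Pool.Agent.Lib.MP_c385f6_ag.TPG.StT
import Pool.Agent.Lib.MP_c385f6_ag.TPG.AllA

/-!
Project TPG, part T3: a place of the union of the towers of the residue field and a place of `L`
determine a place of the union of the towers.
-/

set_option autoImplicit false

namespace Pool.Agent.Lib.MP_c385f6_ag.TPG

universe u v u' v' w

namespace TwPlAux

open OIvAux

section Pl

variable {F : Type u} {W : Type v} {F' : Type u'} {W' : Type v'} [Field F] [Field W] [Field F']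
  [Field W'] [Algebra F W] [Algebra F' W']

/-- the bijection of the places -/
def perm (s : W ≃+* W')
    (hs : ∀ c : F, ∃ c' : F', s (algebraMap F W c) = algebraMap F' W' c')
    (hs' : ∀ c : F', ∃ c' : F, s.symm (algebraMap F' W' c) = algebraMap F W c') :
    Plc F W ≃ Plc F' W' where
  toFun := mapP s hs'
  invFun := mapP s.symm hs
  left_inv := by
    intro P
    apply Plc.ext
    ext x
    change s.symm (s x) ∈ P.ring ↔ _
    rw [s.symm_apply_apply]
  right_inv := by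
    intro P
    apply Plc.ext
    ext x
    change s (s.symm x) ∈ P.ring ↔ _
    rw [s.apply_symm_apply]

theorem mv_perm (s : W ≃+* W')
    (hs : ∀ c : F, ∃ c' : F', s (algebraMap F W c) = algebraMap F' W' c')
    (hs' : ∀ c : F', ∃ c' : F, s.symm (algebraMap F' W' c) = algebraMap F W c') (P : Plc F W) :
    Mv s P (perm s hs hs' P) := mv_mapP s hs' P

theorem dv_map (s : W ≃+* W') (σ : Plc F W ≃ Plc F' W') (hσ : ∀ P, Mv s P (σ P)) (f : W) :
    (dv (s f) : Dv F' W') = Finsupp.mapDomain σ (dv f) := by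
  have key : ∀ P : Plc F W, ord (σ P) (s f) = ord P f := fun P => ord_mv s (hσ P) f
  by_cases h : (Function.support fun P : Plc F W => ord P f).Finite
  · have h' : (Function.support fun P : Plc F' W' => ord P (s f)).Finite := by
      refine (h.image σ).subset ?_
      intro Q hQ
      refine ⟨σ.symm Q, ?_, σ.apply_symm_apply Q⟩
      rw [Function.mem_support] at hQ ⊢
      rwa [← key, σ.apply_symm_apply]
    rw [dv, dif_pos h', dv, dif_pos h]
    ext Q
    obtain ⟨P, rfl⟩ := σ.surjective Q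
    rw [Finsupp.mapDomain_apply σ.injective, Finsupp.ofSupportFinite_coe,
      Finsupp.ofSupportFinite_coe]
    exact key P
  · have h' : ¬ (Function.support fun P : Plc F' W' => ord P (s f)).Finite := by
      intro h'
      apply h
      refine (h'.preimage σ.injective.injOn).subset ?_
      intro P hP
      rw [Function.mem_support] at hP
      rw [Set.mem_preimage, Function.mem_support]
      rwa [key]
    rw [dv, dif_neg h', dv, dif_neg h, Finsupp.mapDomain_zero]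

end Pl

/-- The specialisation maps commute with isomorphisms. -/
theorem sp_iso {C : Type u} {L₁ L₂ : Type v} {F : Type u'} {Λ₁ Λ₂ : Type v'} [Field C]
    [IsAlgClosed C] [Field L₁] [Field L₂] [Field F] [IsAlgClosed F] [Field Λ₁] [Field Λ₂]
    [Algebra C L₁] [Algebra C L₂] [Algebra F Λ₁] [Algebra F Λ₂] (R₁ : Red C L₁ F Λ₁)
    (R₂ : Red C L₂ F Λ₂) (g : ℕ) (sp₁ : Plc C L₁ → Plc F Λ₁) (sp₂ : Plc C L₂ → Plc F Λ₂)
    (s : L₁ ≃+* L₂) (s' : Λ₁ ≃+* Λ₂) (hG : Good R₂ g) (h₁ : IsSp R₁ sp₁) (h₂ : IsSp R₂ sp₂)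
    (hs : ∀ c : C, ∃ c' : C, s (algebraMap C L₁ c) = algebraMap C L₂ c')
    (hs' : ∀ c : C, ∃ c' : C, s.symm (algebraMap C L₂ c) = algebraMap C L₁ c')
    (hres : ∀ f : L₁, R₂.res (s f) = s' (R₁.res f)) (P : Plc C L₁) (Q : Plc C L₂)
    (hPQ : Mv s P Q) : Mv s' (sp₁ P) (sp₂ Q) := by
  have hF : ∀ a : F, ∃ a' : F, s' (algebraMap F Λ₁ a) = algebraMap F Λ₂ a' := by
    intro a
    obtain ⟨c, hc, hca⟩ := R₁.const_surj a
    obtain ⟨c', hc'⟩ := hs c
    rw [← hca, ← hres, hc']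
    by_cases hw : algebraMap C L₂ c' ∈ R₂.w
    · exact R₂.const c' hw
    · exact ⟨0, by rw [R₂.res_out _ hw, map_zero]⟩
  have hF' : ∀ a : F, ∃ a' : F, s'.symm (algebraMap F Λ₂ a) = algebraMap F Λ₁ a' := by
    intro a
    obtain ⟨c, hc, hca⟩ := R₂.const_surj a
    obtain ⟨c', hc'⟩ := hs' c
    have h1 : s'.symm (algebraMap F Λ₂ a) = R₁.res (algebraMap C L₁ c') := by
      rw [← hca, ← hc', RingEquiv.symm_apply_eq, ← hres, s.apply_symm_apply]
    rw [h1]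
    by_cases hw : algebraMap C L₁ c' ∈ R₁.w
    · exact R₁.const c' hw
    · exact ⟨0, by rw [R₁.res_out _ hw, map_zero]⟩
  set σ := perm s hs hs' with hσ
  set σ' := perm s' hF hF' with hσ'
  have hspp : IsSp R₂ (fun P => σ' (sp₁ (σ.symm P))) := by
    intro f hf
    obtain ⟨f, rfl⟩ := s.surjective f
    have h3 : R₁.res f ≠ 0 := by
      intro h0
      apply hf
      rw [hres, h0, map_zero]
    have h4 := h₁ f h3
    have h5 : (fun P => σ' (sp₁ (σ.symm P))) = σ' ∘ (sp₁ ∘ σ.symm) := rfl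
    rw [h5, Finsupp.mapDomain_comp, Finsupp.mapDomain_comp, hres,
      dv_map s σ (mv_perm s hs hs'), dv_map s' σ' (mv_perm s' hF hF'), ← h4,
      ← Finsupp.mapDomain_comp (f := σ), Equiv.symm_comp_self, Finsupp.mapDomain_id]
  have h4 := (All.sp C L₂ F Λ₂ R₂ g hG).unique hspp h₂
  have h6 : Q = σ P := mv_unique hPQ (mv_perm s hs hs' P)
  have h5 : sp₂ Q = σ' (sp₁ P) := by
    rw [← h4, h6]
    change σ' (sp₁ (σ.symm (σ P))) = _
    rw [σ.symm_apply_apply]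
  rw [h5]
  exact mv_perm s' hF hF' (sp₁ P)

section Cut

variable {F : Type u} {U : Type v} [Field F] [Field U] [Algebra F U]

/-- the restriction of a valuation ring that lies over a place -/
def cutP {S N N₀ : IntermediateField F U} (hN : N ≤ S) (h₀ : N₀ ≤ N) (Y : ValuationSubring S)
    (x : Plc F N₀) (hc : ∀ c : F, algebraMap F S c ∈ Y)
    (hx : ∀ (z : N₀) (y : S), (z : U) = y → (z ∈ x.ring ↔ y ∈ Y)) : Plc F N where
  ring := Y.comap ((IntermediateField.inclusion hN).toRingHom)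
  ne_top := by
    intro h
    apply x.ne_top
    rw [eq_top_iff]
    intro z _
    rw [hx z ⟨z, hN (h₀ z.2)⟩ rfl]
    have h1 : (⟨z, h₀ z.2⟩ : N) ∈ Y.comap ((IntermediateField.inclusion hN).toRingHom) := by
      rw [h]
      exact ValuationSubring.mem_top _
    exact h1
  const_mem := fun c => hc c

theorem mem_cutP {S N N₀ : IntermediateField F U} (hN : N ≤ S) (h₀ : N₀ ≤ N)
    (Y : ValuationSubring S) (x : Plc F N₀) (hc : ∀ c : F, algebraMap F S c ∈ Y)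
    (hx : ∀ (z : N₀) (y : S), (z : U) = y → (z ∈ x.ring ↔ y ∈ Y)) (z : N) (y : S)
    (h : (z : U) = y) : z ∈ (cutP hN h₀ Y x hc hx).ring ↔ y ∈ Y := by
  have h1 : y = ⟨z, hN z.2⟩ := Subtype.ext h.symm
  rw [h1]
  exact Iff.rfl

end Cut

section Uni

variable {C : Type u} {Ω : Type v} [Field C] [Field Ω] [Algebra C Ω]

/-- A compatible system of places of the members of a directed family gives a valuation ring of the
union. -/
theorem exists_union {T : IntermediateField C Ω} (S : IntermediateField C Ω → Prop)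
    (hd : ∀ M M', S M → S M' → S (M ⊔ M')) (hT : ∀ z : Ω, z ∈ T ↔ ∃ M, S M ∧ z ∈ M)
    (Gd : ∀ M : IntermediateField C Ω, Plc C M → Prop) (hex : ∀ M, S M → ∃! Q, Gd M Q)
    (hres : ∀ (M M' : IntermediateField C Ω) (Q' : Plc C M'), S M → S M' → M ≤ M' → Gd M' Q' →
      ∃ Q : Plc C M, Gd M Q ∧ AbvP Q Q') :
    ∃ B : ValuationSubring T, ∀ M, S M → ∀ Q, Gd M Q →
      ∀ (z : M) (y : T), (z : Ω) = y → (z ∈ Q.ring ↔ y ∈ B) := by
  choose Q hQ hQu using hex
  have hc : ∀ (M M' : IntermediateField C Ω) (h : S M) (h' : S M'), M ≤ M' →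
      AbvP (Q M h) (Q M' h') := by
    intro M M' h h' hle
    obtain ⟨Q₀, h1, h2⟩ := hres M M' (Q M' h') h h' hle (hQ M' h')
    rw [← hQu M h Q₀ h1]
    exact h2
  have hc2 : ∀ (M M' : IntermediateField C Ω) (h : S M) (h' : S M') (z : M) (z' : M'),
      (z : Ω) = z' → (z ∈ (Q M h).ring ↔ z' ∈ (Q M' h').ring) := by
    intro M M' h h' z z' hz
    have h1 := hc M (M ⊔ M') h (hd M M' h h') le_sup_left z
      ⟨z, (le_sup_left : M ≤ M ⊔ M') z.2⟩ rfl
    have h2 := hc M' (M ⊔ M') h' (hd M M' h h') le_sup_right z'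
      ⟨z, (le_sup_left : M ≤ M ⊔ M') z.2⟩ hz.symm
    rw [h1, h2]
  have hmem : ∀ z : T, ∃ M, S M ∧ (z : Ω) ∈ M := fun z => (hT z).1 z.2
  let B : ValuationSubring T :=
    { carrier := {z | ∃ (M : IntermediateField C Ω) (h : S M) (hz : (z : Ω) ∈ M),
        (⟨z, hz⟩ : M) ∈ (Q M h).ring}
      mul_mem' := by
        rintro x y ⟨M, h, hz, hx⟩ ⟨M', h', hz', hy⟩
        refine ⟨M ⊔ M', hd M M' h h', mul_mem ((le_sup_left : M ≤ M ⊔ M') hz)
          ((le_sup_right : M' ≤ M ⊔ M') hz'), ?_⟩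
        exact mul_mem ((hc2 M (M ⊔ M') h (hd M M' h h') ⟨x, hz⟩
          ⟨x, (le_sup_left : M ≤ M ⊔ M') hz⟩ rfl).1 hx)
          ((hc2 M' (M ⊔ M') h' (hd M M' h h') ⟨y, hz'⟩
          ⟨y, (le_sup_right : M' ≤ M ⊔ M') hz'⟩ rfl).1 hy)
      one_mem' := by
        obtain ⟨M, h, hz⟩ := hmem 1
        exact ⟨M, h, hz, one_mem _⟩
      add_mem' := by
        rintro x y ⟨M, h, hz, hx⟩ ⟨M', h', hz', hy⟩
        refine ⟨M ⊔ M', hd M M' h h', add_mem ((le_sup_left : M ≤ M ⊔ M') hz)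
          ((le_sup_right : M' ≤ M ⊔ M') hz'), ?_⟩
        exact add_mem ((hc2 M (M ⊔ M') h (hd M M' h h') ⟨x, hz⟩
          ⟨x, (le_sup_left : M ≤ M ⊔ M') hz⟩ rfl).1 hx)
          ((hc2 M' (M ⊔ M') h' (hd M M' h h') ⟨y, hz'⟩
          ⟨y, (le_sup_right : M' ≤ M ⊔ M') hz'⟩ rfl).1 hy)
      zero_mem' := by
        obtain ⟨M, h, hz⟩ := hmem 0
        exact ⟨M, h, hz, zero_mem _⟩
      neg_mem' := by
        rintro x ⟨M, h, hz, hx⟩
        exact ⟨M, h, neg_mem hz, neg_mem hx⟩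
      mem_or_inv_mem' := by
        intro x
        obtain ⟨M, h, hz⟩ := hmem x
        rcases (Q M h).ring.mem_or_inv_mem ⟨x, hz⟩ with h1 | h1
        · exact Or.inl ⟨M, h, hz, h1⟩
        · exact Or.inr ⟨M, h, inv_mem hz, h1⟩ }
  refine ⟨B, fun M h Q₀ hQ₀ z y hzy => ?_⟩
  rw [hQu M h Q₀ hQ₀]
  constructor
  · intro hz
    have hy : (y : Ω) ∈ M := by
      rw [← hzy]
      exact z.2
    refine ⟨M, h, hy, ?_⟩
    have h1 : (⟨y, hy⟩ : M) = z := Subtype.ext hzy.symm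
    rw [h1]
    exact hz
  · rintro ⟨M', h', hy, h1⟩
    exact (hc2 M' M h' h ⟨y, hy⟩ z hzy.symm).1 h1

/-- the restriction of an automorphism -/
def restr {A M M' : IntermediateField C Ω} (a : A ≃+* A) (hMA : M ≤ A) (hM'A : M' ≤ A)
    (h : ∀ z : A, (z : Ω) ∈ M ↔ (a z : Ω) ∈ M') : M ≃+* M' where
  toFun := fun z => ⟨a ⟨z, hMA z.2⟩, (h _).1 z.2⟩
  invFun := fun z => ⟨a.symm ⟨z, hM'A z.2⟩, by
    rw [h, RingEquiv.apply_symm_apply]
    exact z.2⟩
  left_inv := by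
    intro z
    apply Subtype.ext
    change ((a.symm (a ⟨z, hMA z.2⟩) : A) : Ω) = z
    rw [RingEquiv.symm_apply_apply]
  right_inv := by
    intro z
    apply Subtype.ext
    change ((a (a.symm ⟨z, hM'A z.2⟩) : A) : Ω) = z
    rw [RingEquiv.apply_symm_apply]
  map_mul' := by
    intro x y
    apply Subtype.ext
    change ((a (⟨x, hMA x.2⟩ * ⟨y, hMA y.2⟩) : A) : Ω) = _
    rw [map_mul]
    rfl
  map_add' := by
    intro x y
    apply Subtype.ext
    change ((a (⟨x, hMA x.2⟩ + ⟨y, hMA y.2⟩) : A) : Ω) = _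
    rw [map_add]
    rfl

theorem restr_apply {A M M' : IntermediateField C Ω} (a : A ≃+* A) (hMA : M ≤ A) (hM'A : M' ≤ A)
    (h : ∀ z : A, (z : Ω) ∈ M ↔ (a z : Ω) ∈ M') (z : M) :
    ((restr a hMA hM'A h z : M') : Ω) = (a ⟨z, hMA z.2⟩ : A) := rfl

theorem restr_symm_apply {A M M' : IntermediateField C Ω} (a : A ≃+* A) (hMA : M ≤ A)
    (hM'A : M' ≤ A) (h : ∀ z : A, (z : Ω) ∈ M ↔ (a z : Ω) ∈ M') (z : M') :
    (((restr a hMA hM'A h).symm z : M) : Ω) = (a.symm ⟨z, hM'A z.2⟩ : A) := rfl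

theorem map_inv_eq {A : Type*} [Field A] {G : Type*} [Group G] (a : G →* (A ≃+* A)) (s : G) :
    (a s).symm = a s⁻¹ := by
  rw [map_inv]
  rfl

end Uni

end TwPlAux

open TwPlAux OIvAux

theorem stTwPl (h : StTwCmp.{u, v, u', v'}) : StTwPl.{u, v, u', v', w} := by
  intro C Ω F U _ _ _ _ _ _ _ _ R p g L sp G _ a ρ hC hF hG hsp h1 h2 h3 P Y hP hYc hYs hYP
  have hdir := All.twDir C Ω p L hG.ffC hC
  have hgood := All.twGood C Ω F U R p g L hC hF hG
  have hMT : ∀ M, Tow C p L M → M ≤ Tinf C p L := fun M hM => le_sSup hM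
  have hMS : ∀ M, Tow C p L M → R.img M ≤ Tinf F p (R.img L) := fun M hM =>
    le_sSup (hgood M hM).2.2.2.2
  have himg : ∀ M M' : IntermediateField C Ω, M ≤ M' → R.img M ≤ R.img M' := by
    rintro M M' hle _ ⟨z, hz, hz', rfl⟩
    exact ⟨z, hle hz, hz', rfl⟩
  have hspe : ∀ M, Tow C p L M → ∃ spM : Plc C M → Plc F (R.img M), IsSp (R.sub M) spM ∧
      ∀ sp', IsSp (R.sub M) sp' → sp' = spM := by
    intro M hM
    obtain ⟨g', hg'⟩ := (hgood M hM).2.1
    obtain ⟨spM, h4, h5⟩ := All.sp C M F (R.img M) (R.sub M) g' hg'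
    exact ⟨spM, h4, h5⟩
  let Gd : ∀ M : IntermediateField C Ω, Plc C M → Prop := fun M Q => AbvP P Q ∧
    ∀ sp', IsSp (R.sub M) sp' → ∀ (z : R.img M) (y : Tinf F p (R.img L)), (z : U) = y →
      (z ∈ (sp' Q).ring ↔ y ∈ Y)
  have hex : ∀ M, Tow C p L M → ∃! Q, Gd M Q := by
    intro M hM
    obtain ⟨spM, hspM, hspu⟩ := hspe M hM
    have hLM := (hgood M hM).1
    let yM : Plc F (R.img M) := cutP (hMS M hM) (himg L M hLM) Y (sp P) hYc hYP
    have hyM : AbvP (sp P) yM := by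
      intro z z' hz
      rw [hYP z ⟨z, hMS M hM (himg L M hLM z.2)⟩ rfl]
      exact (mem_cutP (hMS M hM) (himg L M hLM) Y (sp P) hYc hYP z' _ hz.symm).symm
    obtain ⟨Q, ⟨hQ1, hQ2⟩, hQ3⟩ := (h C Ω F U R p g L hC hF hG L M sp spM Tow.base hM hLM hsp
      hspM).2 P yM hyM
    refine ⟨Q, ⟨hQ1, fun sp' hsp' z y hz => ?_⟩, fun Q' hQ' => hQ3 Q' ⟨hQ'.1, ?_⟩⟩
    · rw [hspu sp' hsp', hQ2]
      exact mem_cutP (hMS M hM) (himg L M hLM) Y (sp P) hYc hYP z y hz
    · apply Plc.ext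
      ext z
      rw [hQ'.2 spM hspM z ⟨z, hMS M hM z.2⟩ rfl]
      exact (mem_cutP (hMS M hM) (himg L M hLM) Y (sp P) hYc hYP z _ rfl).symm
  have hres : ∀ (M M' : IntermediateField C Ω) (Q' : Plc C M'), Tow C p L M → Tow C p L M' →
      M ≤ M' → Gd M' Q' → ∃ Q : Plc C M, Gd M Q ∧ AbvP Q Q' := by
    intro M M' Q' hM hM' hle hQ'
    obtain ⟨sp'', hsp'', -⟩ := hspe M' hM'
    let Q : Plc C M := cutP hle (hgood M hM).1 Q'.ring P Q'.const_mem
      (fun z y hz => hQ'.1 z y hz)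
    have hQQ' : AbvP Q Q' := fun z z' hz =>
      mem_cutP hle (hgood M hM).1 Q'.ring P Q'.const_mem (fun z y hz => hQ'.1 z y hz) z z' hz
    refine ⟨Q, ⟨?_, fun sp' hsp' z y hz => ?_⟩, hQQ'⟩
    · intro z z' hz
      rw [hQ'.1 z ⟨z, hle ((hgood M hM).1 z.2)⟩ rfl]
      exact (hQQ' z' _ hz.symm).symm
    · have h4 := (h C Ω F U R p g L hC hF hG M M' sp' sp'' hM hM' hle hsp' hsp'').1 Q Q' hQQ'
      rw [h4 z ⟨z, himg M M' hle z.2⟩ rfl]
      exact hQ'.2 sp'' hsp'' _ y hz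
  obtain ⟨B, hB⟩ := exists_union (T := Tinf C p L) (Tow C p L) hdir.2.1 hdir.2.2.1 Gd hex hres
  refine ⟨B, fun z y hz => ?_, fun s z hz => ?_⟩
  · obtain ⟨Q, hQ, -⟩ := hex L Tow.base
    rw [← hB L Tow.base Q hQ z y hz]
    exact hQ.1 z z rfl
  · obtain ⟨M, hM, hzM⟩ := (hdir.2.2.1 z).1 z.2
    have hLT := hMT L Tow.base
    have hsc' : ∀ c : C, ∃ c' : C, (a s).symm (algebraMap C _ c) = algebraMap C _ c' := by
      rw [map_inv_eq]
      exact h1 s⁻¹
    have hinv : ∀ (s : G) (x : Tinf C p L), a s⁻¹ (a s x) = x := by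
      intro s x
      rw [← map_inv_eq, RingEquiv.symm_apply_apply]
    have hinvρ : ∀ (s : G) (x : Tinf F p (R.img L)), ρ s⁻¹ (ρ s x) = x := by
      intro s x
      rw [← map_inv_eq, RingEquiv.symm_apply_apply]
    have hL : ∀ x : Tinf C p L, (x : Ω) ∈ L ↔ (a s x : Ω) ∈ L := by
      intro x
      refine ⟨h2 s x, fun hx => ?_⟩
      have h4 := h2 s⁻¹ (a s x) hx
      rwa [hinv] at h4
    obtain ⟨M', hM', hM'T, hMM'⟩ := All.twAut C Ω p L (Tinf C p L) (a s) hG.ffC hC hLT (h1 s)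
      hsc' hL M hM (hMT M hM)
    have hw : ∀ (s : G) (x : Tinf C p L), (x : Ω) ∈ R.w ↔ (a s x : Ω) ∈ R.w := by
      intro s x
      refine ⟨fun hx => (h3 s x 0 hx).1, fun hx => ?_⟩
      have h4 := (h3 s⁻¹ (a s x) 0 hx).1
      rwa [hinv] at h4
    have himgM : ∀ y : Tinf F p (R.img L), (y : U) ∈ R.img M ↔ (ρ s y : U) ∈ R.img M' := by
      intro y
      constructor
      · rintro ⟨x, hx, hxw, hxy⟩
        have h4 := (h3 s ⟨x, hMT M hM hx⟩ y hxw).2 hxy.symm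
        rw [h4]
        exact ⟨_, (hMM' ⟨x, hMT M hM hx⟩).1 hx, (hw s _).1 hxw, rfl⟩
      · rintro ⟨x, hx, hxw, hxy⟩
        have h4 := (h3 s⁻¹ ⟨x, hM'T hx⟩ (ρ s y) hxw).2 hxy.symm
        rw [hinvρ] at h4
        rw [h4]
        refine ⟨_, ?_, (hw s⁻¹ _).1 hxw, rfl⟩
        rw [hMM']
        have h5 : a s (a s⁻¹ ⟨x, hM'T hx⟩) = ⟨x, hM'T hx⟩ := by
          have := hinv s⁻¹ ⟨x, hM'T hx⟩
          rwa [inv_inv] at this
        rw [h5]
        exact hx
    let α : M ≃+* M' := restr (a s) (hMT M hM) hM'T hMM'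
    let β : R.img M ≃+* R.img M' := restr (ρ s) (hMS M hM) (hMS M' hM') himgM
    have hα : ∀ c : C, ∃ c' : C, α (algebraMap C M c) = algebraMap C M' c' := by
      intro c
      obtain ⟨c', hc'⟩ := h1 s c
      refine ⟨c', Subtype.ext ?_⟩
      have h4 : ((a s (algebraMap C _ c) : Tinf C p L) : Ω) =
        ((algebraMap C (Tinf C p L) c' : Tinf C p L) : Ω) := by rw [hc']
      exact h4
    have hα' : ∀ c : C, ∃ c' : C, α.symm (algebraMap C M' c) = algebraMap C M c' := by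
      intro c
      obtain ⟨c', hc'⟩ := hsc' c
      refine ⟨c', Subtype.ext ?_⟩
      have h4 : (((a s).symm (algebraMap C _ c) : Tinf C p L) : Ω) =
        ((algebraMap C (Tinf C p L) c' : Tinf C p L) : Ω) := by rw [hc']
      exact h4
    have hαβ : ∀ f : M, (R.sub M').res (α f) = β ((R.sub M).res f) := by
      intro f
      apply Subtype.ext
      by_cases hf : (f : Ω) ∈ R.w
      · exact ((h3 s ⟨f, hMT M hM f.2⟩ ⟨R.res f, hMS M hM (R.res_mem_img M f)⟩ hf).2 rfl).symm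
      · have h4 : (R.sub M).res f = 0 := (R.sub M).res_out f hf
        rw [h4, map_zero]
        have h5 : ((α f : M') : Ω) ∉ R.w := by
          intro h6
          exact hf ((hw s ⟨f, hMT M hM f.2⟩).2 h6)
        exact R.res_out _ h5
    obtain ⟨Q, hQ, -⟩ := hex M hM
    let Q' : Plc C M' := mapP α hα' Q
    have hQQ' : Mv α Q Q' := mv_mapP α hα' Q
    obtain ⟨spM, hspM, -⟩ := hspe M hM
    obtain ⟨g', hg'⟩ := (hgood M' hM').2.1
    have hQ' : Gd M' Q' := by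
      refine ⟨?_, fun sp' hsp' x y hxy => ?_⟩
      · intro x x' hx
        let y₀ : Tinf C p L := (a s).symm ⟨x', hM'T x'.2⟩
        have hy₀ : a s y₀ = ⟨x', hM'T x'.2⟩ := (a s).apply_symm_apply _
        have hy₀L : (y₀ : Ω) ∈ L := by
          rw [hL, hy₀]
          change (x' : Ω) ∈ L
          rw [← hx]
          exact x.2
        have h4 := hP s ⟨y₀, hy₀L⟩ x y₀ rfl (by rw [hy₀]; exact hx.symm)
        rw [← h4]
        exact hQ.1 ⟨y₀, hy₀L⟩ (α.symm x') rfl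
      · have h4 := sp_iso (R.sub M) (R.sub M') g' spM sp' α β hg' hspM hsp' hα hα' hαβ Q Q' hQQ'
        obtain ⟨x, rfl⟩ := β.surjective x
        rw [← h4 x, hQ.2 spM hspM x ⟨x, hMS M hM x.2⟩ rfl]
        have h5 : y = ρ s ⟨x, hMS M hM x.2⟩ := Subtype.ext hxy.symm
        rw [h5]
        refine ⟨hYs s _, fun h6 => ?_⟩
        have h7 := hYs s⁻¹ _ h6
        rwa [hinvρ] at h7
    have h5 : (⟨z, hzM⟩ : M) ∈ Q.ring := (hB M hM Q hQ ⟨z, hzM⟩ z rfl).2 hz
    exact (hB M' hM' Q' hQ' (α ⟨z, hzM⟩) (a s z) rfl).1 ((hQQ' ⟨z, hzM⟩).1 h5)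

end Pool.Agent.Lib.MP_c385f6_ag.TPG
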