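import Pool.Agent.Lib.MP_c385f6_ag.TPG.StV

/-!
Project TPG, part G, module V3: there is a Frobenius element in the Galois group of the algebraic
closure `C` of a `p`-adic field `k`.

The residue field of `k` is a finite extension of `𝔽_p` (lifts of linearly independent elements are
linearly independent over `ℚ_p`), with `p ^ f` elements; the Galois group of `C / k` maps onto the
automorphism group of the residue field of `C` over the residue field of `k`.
-/

set_option autoImplicit false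
set_option linter.unusedSectionVars false

open scoped Pointwise

namespace Pool.Agent.Lib.MP_c385f6_ag.TPG

universe u v u' v' w

namespace FrobAux

section

variable {p : ℕ} [Fact p.Prime] {k : Type} {C : Type u} [Field k] [Field C] [Algebra ℚ_[p] k]
  [FiniteDimensional ℚ_[p] k] [Algebra k C] {Γ₀ : Type w} [LinearOrderedCommGroupWithZero Γ₀]
  {v : Valuation C Γ₀}

theorem norm_mul (a b : k) :
    spectralNorm ℚ_[p] k (a * b) = spectralNorm ℚ_[p] k a * spectralNorm ℚ_[p] k b :=
  map_mul (spectralMulAlgNorm ℚ_[p] k) a b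

theorem norm_inv {c : k} (hc : c ≠ 0) :
    spectralNorm ℚ_[p] k c⁻¹ = (spectralNorm ℚ_[p] k c)⁻¹ := by
  have h := norm_mul (p := p) c c⁻¹
  rw [mul_inv_cancel₀ hc, spectralNorm_one] at h
  exact eq_inv_of_mul_eq_one_right h.symm

theorem lt_iff (hv : IsVal p k v) (c : k) :
    v (algebraMap k C c) < 1 ↔ spectralNorm ℚ_[p] k c < 1 := by
  rcases eq_or_ne c 0 with rfl | h0
  · rw [map_zero, map_zero, spectralNorm_zero]
    exact ⟨fun _ => zero_lt_one, fun _ => zero_lt_one⟩
  · have h0' : algebraMap k C c ≠ 0 := fun h => h0 ((algebraMap k C).injective (by rw [h, map_zero]))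
    have hpos : 0 < spectralNorm ℚ_[p] k c :=
      spectralNorm_zero_lt h0 (Algebra.IsAlgebraic.isAlgebraic c)
    have h1 := hv c⁻¹
    rw [map_inv₀, map_inv₀, norm_inv h0] at h1
    rw [← not_le, ← not_le, not_iff_not, ← inv_le_one₀ ((Valuation.pos_iff _).2 h0'), h1,
      inv_le_one₀ hpos]

/-- A nontrivial linear combination of elements of `O_k` over `ℚ_p` can be scaled. -/
theorem scale {ι : Type*} [Fintype ι] {a : ι → k} {c : ι → ℚ_[p]} {i₀ : ι} (hc : c i₀ ≠ 0)
    (h : ∑ i, c i • a i = 0) : ∃ d : ι → ℤ_[p], (∃ j, d j = 1) ∧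
      ∑ i, ((d i : ℤ_[p]) : ℚ_[p]) • a i = 0 := by
  obtain ⟨j, -, hj⟩ := Finset.exists_max_image Finset.univ (fun i => ‖c i‖) ⟨i₀, Finset.mem_univ _⟩
  have hcj : c j ≠ 0 := by
    intro h0
    have := hj i₀ (Finset.mem_univ _)
    rw [h0, norm_zero] at this
    exact hc (norm_le_zero_iff.1 this)
  refine ⟨fun i => ⟨c i / c j, ?_⟩, ⟨j, ?_⟩, ?_⟩
  · rw [norm_div]
    exact div_le_one_of_le₀ (hj i (Finset.mem_univ _)) (norm_nonneg _)
  · exact Subtype.ext (div_self hcj)
  · have h2 : ∀ i, (c i / c j) • a i = (c j)⁻¹ • (c i • a i) := by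
      intro i
      rw [smul_smul]
      congr 1
      ring
    change ∑ i, (c i / c j) • a i = 0
    simp_rw [h2]
    rw [← Finset.smul_sum, h, smul_zero]

/-- The residue field of `k` is finite. -/
theorem exists_card (hv : IsVal p k v) : ∃ f : ℕ, 1 ≤ f ∧ ∀ c : k, v (algebraMap k C c) ≤ 1 →
    v (algebraMap k C (c ^ p ^ f - c)) < 1 := by
  classical
  let A : ValuationSubring k := (v.comap (algebraMap k C)).valuationSubring
  let κ := IsLocalRing.ResidueField A
  have hmem : ∀ c : k, c ∈ A ↔ v (algebraMap k C c) ≤ 1 := fun c => Iff.rfl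
  have hres : ∀ c : A, IsLocalRing.residue A c = 0 ↔ v (algebraMap k C c) < 1 := by
    intro c
    rw [IsLocalRing.residue_eq_zero_iff, ValuationSubring.valuation_lt_one_iff]
    exact ((Valuation.isEquiv_valuation_valuationSubring
      (v.comap (algebraMap k C))).lt_one_iff_lt_one).symm
  have hnorm : ∀ c : ℚ_[p], spectralNorm ℚ_[p] k (algebraMap ℚ_[p] k c) = ‖c‖ :=
    fun c => spectralNorm_extends c
  -- `ℤ_p → A`
  have hZ : ∀ d : ℤ_[p], algebraMap ℚ_[p] k d ∈ A := by
    intro d
    rw [hmem, hv, hnorm]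
    exact d.2
  let ι : ℤ_[p] →+* A := ((algebraMap ℚ_[p] k).comp (PadicInt.subring p).subtype).codRestrict A hZ
  have hι : ∀ d : ℤ_[p], IsLocalRing.residue A (ι d) = 0 ↔ ‖d‖ < 1 := by
    intro d
    rw [hres]
    change v (algebraMap k C (algebraMap ℚ_[p] k d)) < 1 ↔ _
    rw [lt_iff hv, hnorm]
    rfl
  have hp0 : ((p : ℕ) : κ) = 0 := by
    have hlt : ‖(p : ℤ_[p])‖ < 1 := by
      rw [PadicInt.norm_p]
      exact inv_lt_one_of_one_lt₀ (by exact_mod_cast (Fact.out : p.Prime).one_lt)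
    have h1 := (hι (p : ℤ_[p])).2 hlt
    rw [map_natCast, map_natCast] at h1
    exact h1
  have hchar : CharP κ p := (CharP.charP_iff_prime_eq_zero (Fact.out : p.Prime)).2 hp0
  let _ : Algebra (ZMod p) κ := ZMod.algebra κ p
  have hcomp : ∀ d : ℤ_[p], IsLocalRing.residue A (ι d) = algebraMap (ZMod p) κ (PadicInt.toZMod d) := by
    intro d
    have h1 := PadicInt.toZMod_spec d
    have h2 : ‖d - (ZMod.cast (PadicInt.toZMod d) : ℤ_[p])‖ < 1 := by
      rwa [← PadicInt.mem_nonunits]
    rw [← hι, map_sub, map_sub, sub_eq_zero] at h2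
    rw [h2]
    have h3 : (ZMod.cast (PadicInt.toZMod d) : ℤ_[p]) = ((PadicInt.toZMod d).val : ℤ_[p]) :=
      (ZMod.natCast_val (R := ℤ_[p]) (PadicInt.toZMod d)).symm
    rw [h3, map_natCast, map_natCast]
    conv_rhs => rw [← ZMod.natCast_zmod_val (PadicInt.toZMod d), map_natCast]
  -- the dimension
  have hrank : Module.rank (ZMod p) κ ≤ (Module.finrank ℚ_[p] k : ℕ) := by
    refine rank_le fun s hs => ?_
    have hlift : ∀ x : s, ∃ a : A, IsLocalRing.residue A a = x :=
      fun x => IsLocalRing.residue_surjective (x : κ)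
    choose a ha using hlift
    have hli : LinearIndependent ℚ_[p] fun x : s => (a x : k) := by
      rw [Fintype.linearIndependent_iff]
      intro c hc
      by_contra hne
      push Not at hne
      obtain ⟨i₀, hi₀⟩ := hne
      obtain ⟨d, ⟨j, hj⟩, hd⟩ := scale hi₀ hc
      have h4 : ∑ x : s, ι (d x) * a x = 0 := by
        apply Subtype.ext
        rw [AddSubmonoidClass.coe_finsetSum]
        change ∑ x : s, algebraMap ℚ_[p] k (d x) * (a x : k) = 0
        rw [← hd]
        exact Finset.sum_congr rfl fun x _ => (Algebra.smul_def _ _).symm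
      have h5 := congrArg (IsLocalRing.residue A) h4
      rw [map_sum, map_zero] at h5
      have h6 := (Fintype.linearIndependent_iff.1 hs) (fun x => PadicInt.toZMod (d x)) (by
        rw [← h5]
        refine Finset.sum_congr rfl fun x _ => ?_
        rw [map_mul, ha, hcomp, Algebra.smul_def]) j
      rw [hj, map_one] at h6
      exact one_ne_zero h6
    have h7 := hli.fintype_card_le_finrank
    rwa [Fintype.card_coe] at h7
  have hfin : Module.Finite (ZMod p) κ :=
    Module.rank_lt_aleph0_iff.1 (lt_of_le_of_lt hrank (Cardinal.natCast_lt_aleph0))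
  have hfin' : Finite κ := Module.finite_of_finite (ZMod p)
  let _ : Fintype κ := Fintype.ofFinite κ
  obtain ⟨n, -, hn⟩ := FiniteField.card κ p
  refine ⟨n, n.pos, fun c hc => ?_⟩
  have h8 := FiniteField.pow_card (IsLocalRing.residue A ⟨c, hc⟩)
  rw [hn, ← sub_eq_zero, ← map_pow, ← map_sub, hres] at h8
  exact h8

end

section Action

variable {k : Type} {C : Type u} [Field k] [Field C] [Algebra k C] {Γ₀ : Type w}
  [LinearOrderedCommGroupWithZero Γ₀] (v : Valuation C Γ₀)

/-- The Galois group acts on the valuation ring. -/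
abbrev act (hinv : ∀ (s : C ≃ₐ[k] C) (c : C), v (s c) = v c) :
    MulSemiringAction (C ≃ₐ[k] C) v.valuationSubring where
  smul s c := ⟨s c, by
    have h : v (c : C) ≤ 1 := c.2
    change v (s c) ≤ 1
    rw [hinv]
    exact h⟩
  one_smul _ := rfl
  mul_smul _ _ _ := rfl
  smul_zero s := Subtype.ext (map_zero s)
  smul_add s a b := Subtype.ext (map_add s _ _)
  smul_one s := Subtype.ext (map_one s)
  smul_mul s a b := Subtype.ext (map_mul s _ _)

/-- The valuation ring of `C` as an algebra over the one of `k`. -/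
abbrev alg : Algebra (v.comap (algebraMap k C)).valuationSubring v.valuationSubring :=
  (((algebraMap k C).comp ((v.comap (algebraMap k C)).valuationSubring).subtype).codRestrict
    v.valuationSubring (fun a => a.2)).toAlgebra

end Action

end FrobAux

open FrobAux in
/-- V3. -/
theorem stVFrob (hVInv : StVInv.{u, w}) : StVFrob.{u, w} := by
  intro p _ k C _ _ _ _ _ _ _ Γ₀ _ v hv
  obtain ⟨hinv, hp1, -⟩ := hVInv p k C Γ₀ v hv
  have hck : CharZero k := charZero_of_injective_algebraMap (algebraMap ℚ_[p] k).injective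
  have hcl : IsAlgClosure k C := ⟨inferInstance, inferInstance⟩
  have hn : Normal k C := IsAlgClosure.normal k C
  have hg : IsGalois k C := {}
  obtain ⟨f, hf1, hf⟩ := exists_card hv
  let A := (v.comap (algebraMap k C)).valuationSubring
  let B := v.valuationSubring
  let _ : Algebra A B := alg v
  let _ : MulSemiringAction (C ≃ₐ[k] C) B := act v hinv
  let _ : TopologicalSpace B := ⊥
  have _ : DiscreteTopology B := ⟨rfl⟩
  have _ : SMulCommClass (C ≃ₐ[k] C) A B := by
    constructor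
    intro σ a s
    apply Subtype.ext
    change σ (algebraMap k C a * (s : C)) = algebraMap k C a * σ (s : C)
    rw [map_mul, σ.commutes]
  have _ : ContinuousSMul (C ≃ₐ[k] C) B := by
    rw [continuousSMul_iff_stabilizer_isOpen]
    intro s
    have h1 := stabilizer_isOpen_of_isIntegral (K := k) (s : C)
    convert h1 using 1
    ext σ
    rw [SetLike.mem_coe, SetLike.mem_coe, MulAction.mem_stabilizer_iff,
      MulAction.mem_stabilizer_iff]
    exact Subtype.ext_iff
  have _ : Algebra.IsInvariant A B (C ≃ₐ[k] C) := by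
    constructor
    intro s hs
    have h1 : (s : C) ∈ Set.range (algebraMap k C) := by
      rw [InfiniteGalois.mem_range_algebraMap_iff_fixed]
      intro σ
      exact congrArg Subtype.val (hs σ)
    obtain ⟨a, ha⟩ := h1
    refine ⟨⟨a, ?_⟩, Subtype.ext ha⟩
    change v (algebraMap k C a) ≤ 1
    rw [ha]
    exact s.2
  let Q : Ideal B := IsLocalRing.maximalIdeal B
  have hQ : ∀ b : B, b ∈ Q ↔ v (b : C) < 1 := by
    intro b
    rw [ValuationSubring.valuation_lt_one_iff]
    exact ((Valuation.isEquiv_valuation_valuationSubring v).lt_one_iff_lt_one).symm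
  let P : Ideal A := Q.under A
  have hmax : Q.IsMaximal := IsLocalRing.maximalIdeal.isMaximal B
  have hdom : IsDomain (B ⧸ Q) := Ideal.Quotient.isDomain Q
  have hp0 : ((p : ℕ) : B ⧸ Q) = 0 := by
    have h1 : Ideal.Quotient.mk Q (p : B) = 0 := by
      rw [Ideal.Quotient.eq_zero_iff_mem, hQ]
      exact hp1
    rwa [map_natCast] at h1
  have hchar : CharP (B ⧸ Q) p := (CharP.charP_iff_prime_eq_zero (Fact.out : p.Prime)).2 hp0
  have hq : p ^ f ≠ 0 := pow_ne_zero _ (Fact.out : p.Prime).ne_zero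
  let φ₀ : B ⧸ Q →+* B ⧸ Q := iterateFrobenius (B ⧸ Q) p f
  have hφ₀ : ∀ x, φ₀ x = x ^ p ^ f := fun x => rfl
  have hbij : Function.Bijective φ₀ := by
    refine ⟨iterateFrobenius_inj (B ⧸ Q) p f, fun x => ?_⟩
    obtain ⟨b, rfl⟩ := Ideal.Quotient.mk_surjective x
    obtain ⟨d, hd⟩ := IsAlgClosed.exists_pow_nat_eq (b : C) (Nat.pos_of_ne_zero hq)
    have hd1 : v d ≤ 1 := by
      have hb : v (b : C) ≤ 1 := b.2
      rw [← hd, map_pow] at hb
      exact (pow_le_one_iff hq).1 hb
    refine ⟨Ideal.Quotient.mk Q ⟨d, hd1⟩, ?_⟩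
    rw [hφ₀, ← map_pow]
    congr 1
    exact Subtype.ext hd
  let E : (B ⧸ Q) ≃+* (B ⧸ Q) := RingEquiv.ofBijective φ₀ hbij
  let gbar : (B ⧸ Q) ≃ₐ[A ⧸ P] (B ⧸ Q) :=
    AlgEquiv.ofRingEquiv (f := E) (by
      intro r
      obtain ⟨a, rfl⟩ := Ideal.Quotient.mk_surjective r
      change φ₀ (Ideal.Quotient.mk Q (algebraMap A B a)) = Ideal.Quotient.mk Q (algebraMap A B a)
      rw [hφ₀, ← map_pow, Ideal.Quotient.eq, hQ]
      have h1 := hf (a : k) a.2
      rw [map_sub, map_pow] at h1
      exact h1)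
  obtain ⟨⟨σ, hσ⟩, h⟩ :=
    Ideal.Quotient.stabilizerHom_surjective_of_profinite (G := C ≃ₐ[k] C) P Q gbar
  refine ⟨σ, f, hf1, fun c hc => ?_⟩
  have h1 := AlgEquiv.congr_fun h (Ideal.Quotient.mk Q (⟨c, hc⟩ : B))
  have h2 : gbar (Ideal.Quotient.mk Q (⟨c, hc⟩ : B)) =
      Ideal.Quotient.mk Q ((⟨c, hc⟩ : B) ^ p ^ f) := by
    have h4 : gbar (Ideal.Quotient.mk Q (⟨c, hc⟩ : B)) =
      E (Ideal.Quotient.mk Q (⟨c, hc⟩ : B)) := rfl
    rw [h4]
    change φ₀ _ = _
    rw [hφ₀, map_pow]
  have h3 : (Ideal.Quotient.stabilizerHom Q P (C ≃ₐ[k] C) ⟨σ, hσ⟩)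
      (Ideal.Quotient.mk Q (⟨c, hc⟩ : B)) = Ideal.Quotient.mk Q (σ • (⟨c, hc⟩ : B)) := rfl
  rw [h2, h3, Ideal.Quotient.eq, hQ] at h1
  exact h1

end Pool.Agent.Lib.MP_c385f6_ag.TPG
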