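import Pool.Agent.Lib.MP_c385f6_ag.TPG.StV

/-!
Project TPG, module V4 (`StInL`): an automorphism that is trivial on the residue field of `k₂` can be
multiplied by an element that fixes `k₂` such that it becomes an element of the inertia group.
-/

set_option autoImplicit false

open Polynomial

namespace Pool.Agent.Lib.MP_c385f6_ag.TPG

universe u v u' v' w

namespace InLAux

section

variable {E : Type v} {C : Type u} [Field E] [Field C] [Algebra E C] {Γ₀ : Type w}
  [LinearOrderedCommGroupWithZero Γ₀]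

/-- The action of the Galois group on the valuation ring. -/
@[reducible] def act (v : Valuation C Γ₀) (hv : ∀ (s : C ≃ₐ[E] C) (c : C), v (s c) = v c) :
    MulSemiringAction (C ≃ₐ[E] C) v.integer where
  smul s x := ⟨s x, (hv s x).trans_le x.2⟩
  one_smul x := Subtype.ext rfl
  mul_smul s t x := Subtype.ext rfl
  smul_zero s := Subtype.ext (map_zero s)
  smul_add s x y := Subtype.ext (map_add s _ _)
  smul_one s := Subtype.ext (map_one s)
  smul_mul s x y := Subtype.ext (map_mul s _ _)

/-- The map of the valuation rings. -/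
def str (v : Valuation C Γ₀) : (v.comap (algebraMap E C)).integer →+* v.integer :=
  ((algebraMap E C).comp (v.comap (algebraMap E C)).integer.subtype).codRestrict v.integer
    fun x => x.2

/-- The maximal ideal. -/
def mx (v : Valuation C Γ₀) : Ideal v.integer where
  carrier := {x | v (x : C) < 1}
  add_mem' {x y} hx hy := (v.map_add x y).trans_lt (max_lt hx hy)
  zero_mem' := by
    show v ((0 : v.integer) : C) < 1
    simp
  smul_mem' c x hx := by
    show v ((c : C) * (x : C)) < 1
    rw [map_mul]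
    exact mul_lt_one_of_nonneg_of_lt_one_right c.2 zero_le' hx

theorem mem_mx {v : Valuation C Γ₀} {x : v.integer} : x ∈ mx v ↔ v (x : C) < 1 := Iff.rfl

theorem mx_prime (v : Valuation C Γ₀) : (mx v).IsPrime := by
  refine ⟨?_, ?_⟩
  · intro h
    have h1 : (1 : v.integer) ∈ mx v := h ▸ Submodule.mem_top
    rw [mem_mx] at h1
    simp at h1
  · intro x y hxy
    rw [mem_mx] at hxy
    by_contra hcon
    push Not at hcon
    rw [mem_mx, mem_mx, not_lt, not_lt] at hcon
    have h1 : v ((x * y : v.integer) : C) = v (x : C) * v (y : C) := by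
      rw [Subring.coe_mul, map_mul]
    have hx : v (x : C) = 1 := le_antisymm x.2 hcon.1
    have hy : v (y : C) = 1 := le_antisymm y.2 hcon.2
    rw [h1, hx, hy] at hxy
    simp at hxy

theorem lift (v : Valuation C Γ₀) [IsGalois E C] (hv : ∀ (s : C ≃ₐ[E] C) (c : C), v (s c) = v c)
    (g : C ≃+* C) (hg : ∀ c, v (g c) = v c)
    (hE : ∀ c : E, v (algebraMap E C c) ≤ 1 → v (g (algebraMap E C c) - algebraMap E C c) < 1) :
    ∃ n : C ≃ₐ[E] C, ∀ c, v c ≤ 1 → v (n c - g c) < 1 := by
  letI : MulSemiringAction (C ≃ₐ[E] C) v.integer := act v hv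
  letI : Algebra (v.comap (algebraMap E C)).integer v.integer := (str v).toAlgebra
  have hsm : ∀ (s : C ≃ₐ[E] C) (x : v.integer), ((s • x : v.integer) : C) = s (x : C) :=
    fun s x => rfl
  have hal : ∀ x : (v.comap (algebraMap E C)).integer,
      ((algebraMap (v.comap (algebraMap E C)).integer v.integer x : v.integer) : C) =
        algebraMap E C (x : E) := fun x => rfl
  haveI : SMulCommClass (C ≃ₐ[E] C) (v.comap (algebraMap E C)).integer v.integer := by
    refine ⟨fun s a x => Subtype.ext ?_⟩
    rw [hsm, Algebra.smul_def, Algebra.smul_def, Subring.coe_mul, Subring.coe_mul, hsm, hal,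
      map_mul, AlgEquiv.commutes]
  letI : TopologicalSpace v.integer := ⊥
  haveI : DiscreteTopology v.integer := ⟨rfl⟩
  haveI : ContinuousSMul (C ≃ₐ[E] C) v.integer := by
    rw [continuousSMul_iff_stabilizer_isOpen]
    intro x
    have h1 := stabilizer_isOpen_of_isIntegral (K := E) (L := C) (x : C)
    have h2 : (MulAction.stabilizer (C ≃ₐ[E] C) x : Set (C ≃ₐ[E] C)) =
        (MulAction.stabilizer (C ≃ₐ[E] C) (x : C) : Set (C ≃ₐ[E] C)) := by
      ext s
      show s • x = x ↔ s (x : C) = (x : C)
      rw [← hsm]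
      exact Subtype.ext_iff
    rw [h2]
    exact h1
  haveI : Algebra.IsInvariant (v.comap (algebraMap E C)).integer v.integer (C ≃ₐ[E] C) := by
    refine ⟨fun b hb => ?_⟩
    have h1 : ∀ s : C ≃ₐ[E] C, s (b : C) = (b : C) := fun s =>
      (hsm s b).symm.trans (congrArg Subtype.val (hb s))
    obtain ⟨e, he⟩ := (InfiniteGalois.mem_range_algebraMap_iff_fixed (b : C)).2 h1
    have h2 : v (algebraMap E C e) ≤ 1 := by
      rw [he]
      exact b.2
    exact ⟨⟨e, h2⟩, Subtype.ext he⟩
  haveI : (mx v).IsPrime := mx_prime v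
  -- the automorphism of the residue field
  let gB : v.integer ≃+* v.integer :=
    { toFun := fun x => ⟨g x, (hg x).trans_le x.2⟩
      invFun := fun x => ⟨g.symm x, by
        have h := hg (g.symm x)
        rw [RingEquiv.apply_symm_apply] at h
        show v (g.symm (x : C)) ≤ 1
        rw [← h]
        exact x.2⟩
      left_inv := fun x => Subtype.ext (g.symm_apply_apply _)
      right_inv := fun x => Subtype.ext (g.apply_symm_apply _)
      map_mul' := fun x y => Subtype.ext (map_mul g _ _)
      map_add' := fun x y => Subtype.ext (map_add g _ _) }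
  have hgB : ∀ x : v.integer, ((gB x : v.integer) : C) = g (x : C) := fun x => rfl
  have hmap : mx v = (mx v).map (gB : v.integer →+* v.integer) := by
    ext x
    have h1 := Ideal.mem_map_iff_of_surjective (gB : v.integer →+* v.integer) gB.surjective
      (I := mx v) (y := x)
    rw [h1]
    constructor
    · intro hx
      refine ⟨gB.symm x, ?_, gB.apply_symm_apply x⟩
      rw [mem_mx] at hx ⊢
      have h2 := hg ((gB.symm x : v.integer) : C)
      rw [← hgB, gB.apply_symm_apply] at h2
      rw [← h2]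
      exact hx
    · rintro ⟨y, hy, rfl⟩
      rw [mem_mx] at hy ⊢
      show v (g (y : C)) < 1
      rw [hg]
      exact hy
  let σ₀ : (v.integer ⧸ mx v) ≃+* (v.integer ⧸ mx v) := Ideal.quotientEquiv (mx v) (mx v) gB hmap
  have hσ₀ : ∀ x : v.integer, σ₀ (Ideal.Quotient.mk (mx v) x) = Ideal.Quotient.mk (mx v) (gB x) :=
    fun x => rfl
  let P : Ideal (v.comap (algebraMap E C)).integer := (mx v).under _
  let σ : (v.integer ⧸ mx v) ≃ₐ[(v.comap (algebraMap E C)).integer ⧸ P] (v.integer ⧸ mx v) :=
    AlgEquiv.ofRingEquiv (f := σ₀) (by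
      intro x
      obtain ⟨x, rfl⟩ := Ideal.Quotient.mk_surjective x
      show σ₀ (Ideal.Quotient.mk (mx v) (algebraMap _ v.integer x)) =
        Ideal.Quotient.mk (mx v) (algebraMap _ v.integer x)
      rw [hσ₀, Ideal.Quotient.eq, mem_mx]
      show v (g (algebraMap E C (x : E)) - algebraMap E C (x : E)) < 1
      exact hE _ x.2)
  obtain ⟨⟨n, hn⟩, hσ⟩ := Ideal.Quotient.stabilizerHom_surjective_of_profinite
    (G := C ≃ₐ[E] C) P (mx v) σ
  refine ⟨n, fun c hc => ?_⟩
  have h1 := DFunLike.congr_fun hσ (Ideal.Quotient.mk (mx v) (⟨c, hc⟩ : v.integer))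
  have h2 : Ideal.Quotient.mk (mx v) (n • (⟨c, hc⟩ : v.integer)) =
      Ideal.Quotient.mk (mx v) (gB ⟨c, hc⟩) := h1
  rw [Ideal.Quotient.eq, mem_mx] at h2
  exact h2

end

end InLAux

theorem stInL (h1 : StVInv.{u, w}) : StInL.{u, w} := by
  intro p _ k C _ _ _ _ _ _ _ Γ₀ _ v hv k₂ hfin g hg
  obtain ⟨hinv, -, -⟩ := h1 p k C Γ₀ v hv
  haveI : CharZero k := charZero_of_injective_algebraMap (algebraMap ℚ_[p] k).injective
  haveI : CharZero k₂ := charZero_of_injective_algebraMap (algebraMap k k₂).injective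
  haveI : Algebra.IsAlgebraic k₂ C := Algebra.IsAlgebraic.tower_top (K := k) k₂
  haveI : IsAlgClosure k₂ C := ⟨inferInstance, inferInstance⟩
  haveI : IsGalois k₂ C := inferInstance
  obtain ⟨n, hn⟩ := InLAux.lift (E := k₂) v
    (fun s c => hinv (s.restrictScalars k) c) ((g⁻¹ : C ≃ₐ[k] C) : C ≃+* C)
    (fun c => hinv g⁻¹ c) (by
      intro c hc
      have h2 := hg (c : C) c.2 hc
      have h3 := hinv g (g⁻¹ (c : C) - (c : C))
      rw [map_sub] at h3
      have h4 : g (g⁻¹ (c : C)) = (c : C) := g.apply_symm_apply _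
      rw [h4, ← neg_sub, Valuation.map_neg] at h3
      rw [h3] at h2
      exact h2)
  refine ⟨n.restrictScalars k, fun c hc => n.commutes ⟨c, hc⟩, ?_⟩
  intro c hc
  have h2 := hn c hc
  have h3 := hinv g (n c - g⁻¹ c)
  rw [map_sub] at h3
  have h4 : g (g⁻¹ c) = c := g.apply_symm_apply _
  rw [h4] at h3
  show v (g (n c) - c) < 1
  rw [h3]
  exact h2

end Pool.Agent.Lib.MP_c385f6_ag.TPG
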