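import Pool.Agent.Lib.MP_c385f6_ag.TPG.StV

/-!
# TPG, part G: tame extensions
-/

set_option autoImplicit false

open Polynomial

namespace Pool.Agent.Lib.MP_c385f6_ag.TPG

universe u v u' v' w

namespace VTameK

section one

variable {C : Type u} [Field C] {Γ₀ : Type w} [LinearOrderedCommGroupWithZero Γ₀]
  {v : Valuation C Γ₀}

/-- units congruent to one -/
def O1 (v : Valuation C Γ₀) (x : C) : Prop := v (x - 1) < 1

theorem O1.val {x : C} (h : O1 v x) : v x = 1 := by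
  have h1 : v (x - 1 + 1) = v 1 := Valuation.map_add_eq_of_lt_right v (h.trans_eq (map_one v).symm)
  rw [sub_add_cancel, map_one] at h1
  exact h1

theorem O1.one : O1 v 1 := by
  unfold O1
  rw [sub_self, map_zero]
  exact zero_lt_one

theorem O1.mul {x y : C} (hx : O1 v x) (hy : O1 v y) : O1 v (x * y) := by
  unfold O1
  have h1 : x * y - 1 = x * (y - 1) + (x - 1) := by ring
  rw [h1]
  refine Valuation.map_add_lt v ?_ hx
  rw [map_mul, hx.val, one_mul]
  exact hy

theorem O1.inv {x : C} (hx : O1 v x) : O1 v x⁻¹ := by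
  unfold O1
  have hx0 : x ≠ 0 := by
    intro h0
    have h1 := hx.val
    rw [h0, map_zero] at h1
    exact zero_ne_one h1
  have h1 : x⁻¹ - 1 = -((x - 1) * x⁻¹) := by
    field_simp
    ring
  rw [h1, Valuation.map_neg, map_mul, map_inv₀, hx.val, inv_one, mul_one]
  exact hx

theorem O1.pow {x : C} (hx : O1 v x) (n : ℕ) : O1 v (x ^ n) := by
  induction n with
  | zero => rw [pow_zero]; exact O1.one
  | succ n ih => rw [pow_succ]; exact ih.mul hx

theorem O1.of_lt {x c : C} (hc : c ≠ 0) (h : v (x - c) < v c) : O1 v (x / c) := by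
  unfold O1
  have h1 : x / c - 1 = (x - c) / c := by field_simp
  have hc' : v c ≠ 0 := (Valuation.ne_zero_iff v).2 hc
  rw [h1, map_div₀, div_lt_one₀ (zero_lt_iff.2 hc')]
  exact h

theorem O1.lt {x c : C} (hc : c ≠ 0) (h : O1 v (x / c)) : v (x - c) < v c := by
  unfold O1 at h
  have h1 : x / c - 1 = (x - c) / c := by field_simp
  have hc' : v c ≠ 0 := (Valuation.ne_zero_iff v).2 hc
  rw [h1, map_div₀, div_lt_one₀ (zero_lt_iff.2 hc')] at h
  exact h

end one

section grp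

variable {k : Type} {C : Type u} [Field k] [Field C] [Algebra k C] {Γ₀ : Type w}
  [LinearOrderedCommGroupWithZero Γ₀] {v : Valuation C Γ₀}

theorem inv_val (hinv : ∀ (s : C ≃ₐ[k] C) (c : C), v (s c) = v c) (s : C ≃ₐ[k] C) (c : C) :
    v (s⁻¹ c) = v c := hinv s⁻¹ c

/-- the inertia group -/
def inG (v : Valuation C Γ₀) (hinv : ∀ (s : C ≃ₐ[k] C) (c : C), v (s c) = v c) :
    Subgroup (C ≃ₐ[k] C) where
  carrier := {s | IsIn v (s : C ≃+* C)}
  one_mem' := by
    intro c _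
    change v (c - c) < 1
    rw [sub_self, map_zero]
    exact zero_lt_one
  mul_mem' := by
    intro s t hs ht c hc
    change v (s (t c) - c) < 1
    have h1 : s (t c) - c = (s (t c) - t c) + (t c - c) := by ring
    rw [h1]
    exact Valuation.map_add_lt v (hs (t c) (by rw [hinv]; exact hc)) (ht c hc)
  inv_mem' := by
    intro s hs c hc
    change v (s⁻¹ c - c) < 1
    have h1 := hs (s⁻¹ c) (by rw [hinv]; exact hc)
    have h2 : (s : C ≃+* C) (s⁻¹ c) = c := by
      change s (s⁻¹ c) = c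
      rw [← AlgEquiv.mul_apply, mul_inv_cancel, AlgEquiv.one_apply]
    rw [h2, Valuation.map_sub_swap] at h1
    exact h1

theorem mem_inG (hinv : ∀ (s : C ≃ₐ[k] C) (c : C), v (s c) = v c) {s : C ≃ₐ[k] C} :
    s ∈ inG v hinv ↔ IsIn v (s : C ≃+* C) := Iff.rfl

theorem isIn_of_wild {s : C ≃ₐ[k] C} (h : IsWild v (s : C ≃+* C)) : IsIn v (s : C ≃+* C) := by
  intro c hc
  rcases eq_or_ne c 0 with rfl | h0
  · rw [map_zero, sub_zero, map_zero]
    exact zero_lt_one
  · exact (h c h0).trans_le hc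

/-- the elements that fix `c` -/
theorem coprime_fix (s : C ≃ₐ[k] C) (c : C) {a b : ℕ} (h : Nat.Coprime a b)
    (ha : (s ^ a) c = c) (hb : (s ^ b) c = c) : s c = c := by
  let H : Subgroup (C ≃ₐ[k] C) :=
    { carrier := {t | t c = c}
      one_mem' := rfl
      mul_mem' := by
        intro t t' ht ht'
        change t (t' c) = c
        rw [show t' c = c from ht', show t c = c from ht]
      inv_mem' := by
        intro t ht
        change t⁻¹ c = c
        have h1 : t c = c := ht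
        conv_lhs => rw [← h1]
        rw [← AlgEquiv.mul_apply, inv_mul_cancel, AlgEquiv.one_apply] }
  have h1 : s ^ a ∈ H := ha
  have h2 : s ^ b ∈ H := hb
  have h3 : s ∈ H := by
    have h4 : (a : ℤ) * Nat.gcdA a b + (b : ℤ) * Nat.gcdB a b = 1 := by
      rw [← Nat.gcd_eq_gcd_ab, h.gcd_eq_one, Nat.cast_one]
    have h5 : s = (s ^ a) ^ (Nat.gcdA a b) * (s ^ b) ^ (Nat.gcdB a b) := by
      rw [← zpow_natCast, ← zpow_natCast, ← zpow_mul, ← zpow_mul, ← zpow_add, h4, zpow_one]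
    rw [h5]
    exact H.mul_mem (H.zpow_mem h1 _) (H.zpow_mem h2 _)
  exact h3

/-- an element of order prime to `p` that is wild on `k₂` is trivial on `k₂` -/
theorem triv_of_wild (hinv : ∀ (s : C ≃ₐ[k] C) (c : C), v (s c) = v c) (k₂ : IntermediateField k C)
    (s : C ≃ₐ[k] C) (hk : ∀ c ∈ k₂, s c ∈ k₂) {e : ℕ} (he : v (e : C) = 1)
    (hs : ∀ c ∈ k₂, (s ^ e) c = c) (hw : ∀ c ∈ k₂, c ≠ 0 → v (s c - c) < v c) :
    ∀ c ∈ k₂, s c = c := by
  intro x hx
  by_contra hcon
  have he0 : (e : C) ≠ 0 := by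
    intro h0
    rw [h0, map_zero] at he
    exact zero_ne_one he
  have hkp : ∀ (i : ℕ), ∀ c ∈ k₂, (s ^ i) c ∈ k₂ := by
    intro i
    induction i with
    | zero =>
      intro c hc
      rw [pow_zero]
      exact hc
    | succ i ih =>
      intro c hc
      rw [pow_succ, AlgEquiv.mul_apply]
      exact ih _ (hk c hc)
  have hsum : ∀ c ∈ k₂, s (∑ i ∈ Finset.range e, (s ^ i) c) = ∑ i ∈ Finset.range e, (s ^ i) c := by
    intro c hc
    rw [map_sum]
    have h1 : ∀ i ∈ Finset.range e, s ((s ^ i) c) = (s ^ (i + 1)) c := by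
      intro i _
      rw [pow_succ', AlgEquiv.mul_apply]
    rw [Finset.sum_congr rfl h1]
    have h2 := Finset.sum_range_succ' (fun i => (s ^ i) c) e
    have h3 := Finset.sum_range_succ (fun i => (s ^ i) c) e
    rw [h3] at h2
    simp only [pow_zero, AlgEquiv.one_apply, hs c hc] at h2
    exact (add_right_cancel h2).symm
  set A : C := ∑ i ∈ Finset.range e, (s ^ i) x with hA
  set y : C := x - (e : C)⁻¹ * A with hy
  have hAs : ∀ i : ℕ, (s ^ i) A = A := by
    intro i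
    induction i with
    | zero => rw [pow_zero]; rfl
    | succ i ih =>
      rw [pow_succ, AlgEquiv.mul_apply, hsum x hx, ih]
  have hinvs : ∀ i : ℕ, (s ^ i) ((e : C)⁻¹ * A) = (e : C)⁻¹ * A := by
    intro i
    rw [map_mul, map_inv₀, map_natCast, hAs]
  have hy0 : y ≠ 0 := by
    intro h0
    apply hcon
    have h1 : x = (e : C)⁻¹ * A := sub_eq_zero.1 h0
    have h2 := hinvs 1
    rw [pow_one] at h2
    rw [h1]
    exact h2
  have hyk : y ∈ k₂ := by
    refine k₂.sub_mem hx (k₂.mul_mem (k₂.inv_mem (natCast_mem k₂ e)) ?_)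
    exact k₂.sum_mem fun i _ => hkp i x hx
  have hysum : ∑ i ∈ Finset.range e, (s ^ i) y = 0 := by
    have h1 : ∀ i ∈ Finset.range e, (s ^ i) y = (s ^ i) x - (e : C)⁻¹ * A := by
      intro i _
      rw [hy, map_sub, hinvs]
    rw [Finset.sum_congr rfl h1, Finset.sum_sub_distrib, Finset.sum_const, Finset.card_range,
      nsmul_eq_mul, ← mul_assoc, mul_inv_cancel₀ he0, one_mul, sub_self]
  have hvy : v y ≠ 0 := (Valuation.ne_zero_iff v).2 hy0
  have hlt : ∀ i : ℕ, v ((s ^ i) y - y) < v y := by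
    intro i
    induction i with
    | zero =>
      rw [pow_zero]
      change v (y - y) < v y
      rw [sub_self, map_zero]
      exact zero_lt_iff.2 hvy
    | succ i ih =>
      have h1 : (s ^ (i + 1)) y - y = s ((s ^ i) y - y) + (s y - y) := by
        rw [pow_succ', AlgEquiv.mul_apply, map_sub s ((s ^ i) y) y]
        ring
      rw [h1]
      refine Valuation.map_add_lt v ?_ (hw y hyk hy0)
      rw [hinv]
      exact ih
  have h1 : v (∑ i ∈ Finset.range e, ((s ^ i) y - y)) < v y :=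
    Valuation.map_sum_lt v hvy fun i _ => hlt i
  rw [Finset.sum_sub_distrib, hysum, Finset.sum_const, Finset.card_range, nsmul_eq_mul, zero_sub,
    Valuation.map_neg, map_mul, he, one_mul] at h1
  exact lt_irrefl _ h1

/-- discreteness -/
theorem exists_pow {k₂ : IntermediateField k C} {π : C} (hπ : π ∈ k₂) (h0 : π ≠ 0)
    (h2 : ∀ c ∈ k₂, v c < 1 → v c ≤ v π) (h3 : ∀ c : C, c ≠ 0 → ∃ j : ℕ, v π ^ j < v c)
    {c : C} (hc : c ∈ k₂) (hc0 : c ≠ 0) (hc1 : v c ≤ 1) : ∃ j : ℕ, v (c / π ^ j) = 1 := by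
  classical
  have hv0 : v π ≠ 0 := (Valuation.ne_zero_iff v).2 h0
  obtain ⟨j, hj, hmin⟩ : ∃ j, v π ^ j < v c ∧ ∀ i < j, ¬ v π ^ i < v c :=
    ⟨Nat.find (h3 c hc0), Nat.find_spec (h3 c hc0), fun i hi => Nat.find_min (h3 c hc0) hi⟩
  have hj0 : j ≠ 0 := by
    rintro rfl
    rw [pow_zero] at hj
    exact absurd hj (not_lt.2 hc1)
  obtain ⟨i, rfl⟩ := Nat.exists_eq_succ_of_ne_zero hj0
  have h5 := hmin i (Nat.lt_succ_self i)
  push Not at h5
  refine ⟨i, ?_⟩
  have hpow : v π ^ i ≠ 0 := pow_ne_zero _ hv0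
  have h6 : v (c / π ^ i) ≤ 1 := by
    rw [map_div₀, map_pow]
    exact (div_le_one₀ (zero_lt_iff.2 hpow)).2 h5
  rcases lt_or_eq_of_le h6 with h7 | h7
  · exfalso
    have h8 := h2 _ (k₂.div_mem hc (pow_mem hπ i)) h7
    rw [map_div₀, map_pow, div_le_iff₀ (zero_lt_iff.2 hpow)] at h8
    rw [pow_succ'] at hj
    exact absurd hj (not_lt.2 h8)
  · exact h7

theorem triv_of_unif (hinv : ∀ (s : C ≃ₐ[k] C) (c : C), v (s c) = v c) {k₂ : IntermediateField k C}
    {π : C} (hπ : π ∈ k₂) (h0 : π ≠ 0)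
    (h2 : ∀ c ∈ k₂, v c < 1 → v c ≤ v π) (h3 : ∀ c : C, c ≠ 0 → ∃ j : ℕ, v π ^ j < v c)
    (s : C ≃ₐ[k] C) (hk : ∀ c ∈ k₂, s c ∈ k₂) {e : ℕ} (he : v (e : C) = 1)
    (hs : ∀ c ∈ k₂, (s ^ e) c = c) (hin : IsIn v (s : C ≃+* C)) (hsπ : O1 v (s π / π)) :
    ∀ c ∈ k₂, s c = c := by
  refine triv_of_wild hinv k₂ s hk he hs ?_
  have key : ∀ c ∈ k₂, c ≠ 0 → v c ≤ 1 → O1 v (s c / c) := by
    intro c hc hc0 hc1
    obtain ⟨j, hj⟩ := exists_pow hπ h0 h2 h3 hc hc0 hc1
    set u := c / π ^ j with hu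
    have hpj : π ^ j ≠ 0 := pow_ne_zero _ h0
    have hu0 : u ≠ 0 := div_ne_zero hc0 hpj
    have hcu : c = u * π ^ j := by
      rw [hu, div_mul_cancel₀ _ hpj]
    have h5 : O1 v (s u / u) := O1.of_lt hu0 (by
      rw [hj]
      exact hin u hj.le)
    have h6 : s c / c = (s u / u) * (s π / π) ^ j := by
      rw [hcu, map_mul, map_pow, div_pow]
      field_simp
    rw [h6]
    exact h5.mul (hsπ.pow j)
  intro c hc hc0
  apply O1.lt hc0
  rcases le_total (v c) 1 with h5 | h5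
  · exact key c hc hc0 h5
  · have h6 : v c⁻¹ ≤ 1 := by
      rw [map_inv₀]
      exact inv_le_one_of_one_le₀ h5
    have h7 := (key c⁻¹ (k₂.inv_mem hc) (inv_ne_zero hc0) h6).inv
    rw [map_inv₀] at h7
    have h8 : ((s c)⁻¹ / c⁻¹)⁻¹ = s c / c := by
      rw [inv_div_inv, inv_div]
    rwa [h8] at h7

/-- units of the valuation ring -/
theorem mem_max (v : Valuation C Γ₀) (x : v.valuationSubring) :
    x ∈ IsLocalRing.maximalIdeal v.valuationSubring ↔ v (x : C) < 1 := by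
  rw [IsLocalRing.mem_maximalIdeal, mem_nonunits_iff]
  have hx : v (x : C) ≤ 1 := x.2
  constructor
  · intro h
    refine lt_of_le_of_ne hx fun h1 => h ?_
    have hx0 : (x : C) ≠ 0 := by
      intro h0
      rw [h0, map_zero] at h1
      exact zero_ne_one h1
    refine IsUnit.of_mul_eq_one ⟨(x : C)⁻¹, ?_⟩ ?_
    · change v (x : C)⁻¹ ≤ 1
      rw [map_inv₀, h1, inv_one]
    · apply Subtype.ext
      change (x : C) * (x : C)⁻¹ = 1
      exact mul_inv_cancel₀ hx0
  · intro h hu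
    obtain ⟨y, hy⟩ := hu.exists_right_inv
    have h1 : (x : C) * (y : C) = 1 := congrArg Subtype.val hy
    have h2 : v (x : C) * v (y : C) = 1 := by rw [← map_mul, h1, map_one]
    have h3 : v (y : C) ≤ 1 := y.2
    have h4 : v (x : C) * v (y : C) < 1 :=
      (mul_le_mul_right h3 _).trans_lt (by rw [mul_one]; exact h)
    exact absurd h2 h4.ne

theorem res_eq (v : Valuation C Γ₀) (x y : v.valuationSubring) :
    IsLocalRing.residue v.valuationSubring x = IsLocalRing.residue v.valuationSubring y ↔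
      v ((x : C) - y) < 1 := by
  rw [← sub_eq_zero, ← map_sub, IsLocalRing.residue_eq_zero_iff, mem_max]
  rfl

/-- the element `s π / π` of the valuation ring -/
def th (hinv : ∀ (s : C ≃ₐ[k] C) (c : C), v (s c) = v c) {π : C} (h0 : π ≠ 0) (s : C ≃ₐ[k] C) :
    v.valuationSubring :=
  ⟨s π / π, by
    change v (s π / π) ≤ 1
    rw [map_div₀, hinv, div_self ((Valuation.ne_zero_iff v).2 h0)]⟩

/-- the homomorphism `s ↦ s π / π` on the inertia group -/
noncomputable def thH (hinv : ∀ (s : C ≃ₐ[k] C) (c : C), v (s c) = v c) {π : C} (h0 : π ≠ 0) :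
    inG v hinv →* IsLocalRing.ResidueField v.valuationSubring where
  toFun s := IsLocalRing.residue v.valuationSubring (th hinv h0 s.1)
  map_one' := by
    rw [← map_one (IsLocalRing.residue v.valuationSubring)]
    congr 1
    apply Subtype.ext
    change π / π = 1
    exact div_self h0
  map_mul' := by
    intro s t
    rw [← map_mul, res_eq]
    change v ((s.1 (t.1 π)) / π - (s.1 π / π) * (t.1 π / π)) < 1
    have h1 := s.2 (t.1 π / π) (by
      rw [map_div₀, hinv, div_self ((Valuation.ne_zero_iff v).2 h0)])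
    change v (s.1 (t.1 π / π) - t.1 π / π) < 1 at h1
    rw [map_div₀] at h1
    have hsπ : s.1 π ≠ 0 := (map_ne_zero_iff _ s.1.injective).2 h0
    have h2 : (s.1 (t.1 π)) / π - (s.1 π / π) * (t.1 π / π) =
        (s.1 π / π) * (s.1 (t.1 π) / s.1 π - t.1 π / π) := by
      field_simp
    rw [h2, map_mul, map_div₀ v (s.1 π), hinv, div_self ((Valuation.ne_zero_iff v).2 h0), one_mul]
    exact h1

theorem thH_eq_one (hinv : ∀ (s : C ≃ₐ[k] C) (c : C), v (s c) = v c) {π : C} (h0 : π ≠ 0)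
    (s : inG v hinv) (h : thH hinv h0 s = 1) : v (s.1 π / π - 1) < 1 := by
  have h1 : IsLocalRing.residue v.valuationSubring (th hinv h0 s.1) =
      IsLocalRing.residue v.valuationSubring 1 := by
    rw [map_one]
    exact h
  rw [res_eq] at h1
  exact h1

theorem exists_gen (hinv : ∀ (s : C ≃ₐ[k] C) (c : C), v (s c) = v c) {π : C} (h0 : π ≠ 0)
    (k₂ : IntermediateField k C) [FiniteDimensional k k₂] [Normal k k₂] (hπ : π ∈ k₂) :
    ∃ t : inG v hinv, ∀ s : inG v hinv, ∃ j : ℤ, thH hinv h0 (s * t ^ (-j)) = 1 := by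
  classical
  set F := (thH hinv h0).toHomUnits with hF
  let r : inG v hinv → (k₂ ≃ₐ[k] k₂) := fun s => AlgEquiv.restrictNormalHom k₂ s.1
  have hr : ∀ s t : inG v hinv, r s = r t → F s = F t := by
    intro s t hst
    apply Units.ext
    rw [hF, MonoidHom.coe_toHomUnits, MonoidHom.coe_toHomUnits]
    have h1 : s.1 π = t.1 π := by
      have h2 := congrArg (fun τ : k₂ ≃ₐ[k] k₂ => ((τ ⟨π, hπ⟩ : k₂) : C)) hst
      simpa [r, AlgEquiv.restrictNormalHom_apply] using h2
    change IsLocalRing.residue v.valuationSubring (th hinv h0 s.1) =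
      IsLocalRing.residue v.valuationSubring (th hinv h0 t.1)
    congr 1
    apply Subtype.ext
    change s.1 π / π = t.1 π / π
    rw [h1]
  have hfin : Finite F.range := by
    have h1 : (Set.range F).Finite := by
      refine (Set.finite_range (fun τ : k₂ ≃ₐ[k] k₂ =>
        if h : ∃ s : inG v hinv, r s = τ then F h.choose else 1)).subset ?_
      rintro _ ⟨s, rfl⟩
      refine ⟨r s, ?_⟩
      have h2 : ∃ s' : inG v hinv, r s' = r s := ⟨s, rfl⟩
      change (if h : ∃ s' : inG v hinv, r s' = r s then F h.choose else 1) = F s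
      rw [dif_pos h2]
      exact hr _ _ h2.choose_spec
    exact h1.to_subtype
  obtain ⟨⟨g, t, rfl⟩, hgen⟩ := IsCyclic.exists_generator (α := F.range)
  refine ⟨t, fun s => ?_⟩
  obtain ⟨j, hj⟩ := Subgroup.mem_zpowers_iff.1 (hgen ⟨F s, s, rfl⟩)
  refine ⟨j, ?_⟩
  have h1 : F t ^ j = F s := congrArg Subtype.val hj
  have h2 : F (s * t ^ (-j)) = 1 := by
    rw [map_mul, map_zpow, ← h1, ← zpow_add, add_neg_cancel, zpow_zero]
  have h3 := congrArg Units.val h2
  rw [hF, MonoidHom.coe_toHomUnits] at h3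
  exact h3

end grp

end VTameK

open VTameK in
theorem stTameK (h1 : StVInv.{u, w}) (h2 : StVDsc.{u, w}) (h6 : StWildP.{u, w}) :
    StTameK.{u, w} := by
  intro p _ k C _ _ _ _ _ _ _ Γ₀ _ v hv k₂ hfin hnor hT
  obtain ⟨hinv, hp, hn⟩ := h1 p k C Γ₀ v hv
  obtain ⟨π, hπ, hπ0, hπ1, hπ2, hrk, -⟩ := h2 p k C Γ₀ v hv k₂ hfin
  have hk : ∀ s : C ≃ₐ[k] C, ∀ c ∈ k₂, s c ∈ k₂ := by
    intro s c hc
    have h3 := AlgEquiv.restrictNormalHom_apply k₂ s ⟨c, hc⟩
    rw [← h3]
    exact (AlgEquiv.restrictNormalHom k₂ s ⟨c, hc⟩).2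
  have hunif : ∀ s : C ≃ₐ[k] C, IsIn v (s : C ≃+* C) → v (s π / π - 1) < 1 →
      ∀ c ∈ k₂, s c = c := by
    intro s hs h
    obtain ⟨e, he, hse⟩ := hT s hs
    exact triv_of_unif hinv hπ hπ0 hπ2 hrk s (hk s) (hn e he) hse hs h
  refine ⟨?_, ?_, π, hπ, hπ0, hπ1, hπ2, hunif⟩
  · intro s hs c hc
    obtain ⟨e, he, hse⟩ := hT s (isIn_of_wild hs)
    obtain ⟨N, hN⟩ := h6 p k C Γ₀ v hv s hs {c}
    have hcop : Nat.Coprime (p ^ N) e :=
      Nat.Coprime.pow_left N (((Fact.out : p.Prime).coprime_iff_not_dvd).2 he)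
    exact coprime_fix s c hcop (hN c (by simp)) (hse c hc)
  · obtain ⟨t, ht⟩ := exists_gen hinv hπ0 k₂ hπ
    obtain ⟨e, he, hte⟩ := hT t.1 t.2
    refine ⟨t.1, t.2, e, he, hte, fun s hs => ?_⟩
    have he0 : (e : ℤ) ≠ 0 := by
      intro h0
      apply he
      have h3 : e = 0 := by exact_mod_cast h0
      rw [h3]
      exact dvd_zero p
    obtain ⟨j, hj⟩ := ht ⟨s, hs⟩
    have h3 := hunif _ ((⟨s, hs⟩ : inG v hinv) * t ^ (-j)).2 (thH_eq_one hinv hπ0 _ hj)
    have hfix : ∀ m : ℤ, ∀ c ∈ k₂, ((t.1 ^ e) ^ m) c = c := by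
      intro m c hc
      have h4 : t.1 ^ e ∈ k₂.fixingSubgroup := by
        rw [IntermediateField.mem_fixingSubgroup_iff]
        exact hte
      have h5 := k₂.fixingSubgroup.zpow_mem h4 m
      rw [IntermediateField.mem_fixingSubgroup_iff] at h5
      exact h5 c hc
    refine ⟨(j % e).toNat, fun c hc => ?_⟩
    have h4 : ((j % e).toNat : ℤ) = j % e := Int.toNat_of_nonneg (Int.emod_nonneg j he0)
    have h5 : t.1 ^ (j % e).toNat = t.1 ^ (j % (e : ℤ)) := by
      rw [← zpow_natCast, h4]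
    have h6 : (t.1 ^ j) c = (t.1 ^ (j % (e : ℤ))) c := by
      have h7 : t.1 ^ j = t.1 ^ (j % (e : ℤ)) * (t.1 ^ e) ^ (j / (e : ℤ)) := by
        rw [← zpow_natCast t.1 e, ← zpow_mul, ← zpow_add, Int.emod_add_mul_ediv]
      rw [h7, AlgEquiv.mul_apply, hfix _ c hc]
    rw [h5, ← h6]
    have h8 : (t.1 ^ j) c ∈ k₂ := hk _ c hc
    have h9 := h3 _ h8
    change (s * ((t ^ (-j) : inG v hinv) : C ≃ₐ[k] C)) ((t.1 ^ j) c) = (t.1 ^ j) c at h9
    rw [Subgroup.coe_zpow, ← AlgEquiv.mul_apply, mul_assoc, ← zpow_add, neg_add_cancel, zpow_zero,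
      mul_one] at h9
    exact h9

end Pool.Agent.Lib.MP_c385f6_ag.TPG
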