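import Pool.Agent.Lib.MP_c385f6_ag.TPG.StV

/-!
Project TPG, V5: the tame relation.
-/

set_option autoImplicit false

namespace Pool.Agent.Lib.MP_c385f6_ag.TPG

universe u w

namespace VTR

variable {C : Type u} [Field C] {Γ₀ : Type w} [LinearOrderedCommGroupWithZero Γ₀]
  {v : Valuation C Γ₀}

theorem cmul {a b a' b' : C} (ha : v a ≤ 1) (hb' : v b' ≤ 1) (h : v (a - a') < 1)
    (h' : v (b - b') < 1) : v (a * b - a' * b') < 1 := by
  have e : a * b - a' * b' = a * (b - b') + (a - a') * b' := by ring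
  rw [e]
  refine Valuation.map_add_lt _ ?_ ?_
  · rw [map_mul]
    exact mul_lt_one_of_nonneg_of_lt_one_right ha zero_le h'
  · rw [map_mul]
    exact mul_lt_one_of_nonneg_of_lt_one_left zero_le h hb'

theorem ctrans {a b c : C} (h : v (a - b) < 1) (h' : v (b - c) < 1) : v (a - c) < 1 := by
  have e : a - c = (a - b) + (b - c) := by ring
  rw [e]
  exact Valuation.map_add_lt _ h h'

theorem csymm {a b : C} (h : v (a - b) < 1) : v (b - a) < 1 := by
  rwa [Valuation.map_sub_swap]

theorem cpow {a b : C} (ha : v a ≤ 1) (hb : v b ≤ 1) (h : v (a - b) < 1) (n : ℕ) :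
    v (a ^ n - b ^ n) < 1 := by
  induction n with
  | zero =>
    rw [pow_zero, pow_zero, sub_self, map_zero]
    exact zero_lt_one
  | succ n ih =>
    rw [pow_succ, pow_succ]
    refine cmul ?_ hb ih h
    rw [map_pow]
    exact pow_le_one' ha n

theorem vdiv {a b : C} (hb : b ≠ 0) (h : v a = v b) : v (a / b) = 1 := by
  rw [map_div₀, h, div_self ((Valuation.ne_zero_iff v).2 hb)]

variable {s : C ≃+* C}

theorem th_congr (hs : ∀ c, v (s c) = v c) (hi : IsIn v s) {c c' : C} (hc : c ≠ 0)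
    (hc' : c' ≠ 0) (h : v c = v c') : v (s c / c - s c' / c') < 1 := by
  have he0 : c' / c ≠ 0 := div_ne_zero hc' hc
  have he : v (c' / c) = 1 := vdiv hc h.symm
  have hsc : s c ≠ 0 := (map_ne_zero s).2 hc
  have e : s c / c - s c' / c' = (s c / c) * ((c' / c - s (c' / c)) / (c' / c)) := by
    rw [map_div₀]
    field_simp
  rw [e, map_mul, vdiv hc (hs c), one_mul, map_div₀, he, div_one, Valuation.map_sub_swap]
  exact hi _ he.le

theorem v_pow (hs : ∀ c, v (s c) = v c) (n : ℕ) (c : C) : v ((s ^ n) c) = v c := by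
  induction n with
  | zero => rfl
  | succ n ih =>
    rw [pow_succ']
    change v (s ((s ^ n) c)) = v c
    rw [hs, ih]

theorem th_pow (hs : ∀ c, v (s c) = v c) (hi : IsIn v s) {c : C} (hc : c ≠ 0) (n : ℕ) :
    v ((s ^ n) c / c - (s c / c) ^ n) < 1 := by
  induction n with
  | zero =>
    rw [pow_zero, pow_zero]
    change v (c / c - 1) < 1
    rw [div_self hc, sub_self, map_zero]
    exact zero_lt_one
  | succ n ih =>
    have hn : (s ^ n) c ≠ 0 := (map_ne_zero (s ^ n)).2 hc
    have e : (s ^ (n + 1)) c / c = (s ((s ^ n) c) / ((s ^ n) c)) * ((s ^ n) c / c) := by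
      rw [pow_succ']
      change s ((s ^ n) c) / c = _
      field_simp
    rw [e, pow_succ']
    refine cmul ?_ ?_ ?_ ih
    · exact (vdiv hn (hs _)).le
    · rw [map_pow, vdiv hc (hs _), one_pow]
    · exact th_congr hs hi hn hc (v_pow hs n c)

end VTR

open VTR in
/-- V5. The tame relation. -/
theorem stTameRel : StTameRel.{u, w} := by
  intro C _ Γ₀ _ v s φ q hs hφ hi hf d hd
  -- `c = s ^ (-q) d`
  set c : C := (s ^ q)⁻¹ d with hc
  have hcd : (s ^ q) c = d := by
    rw [hc]
    change ((s ^ q) * (s ^ q)⁻¹) d = d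
    rw [mul_inv_cancel]
    rfl
  have hc0 : c ≠ 0 := by
    rintro h
    rw [h, map_zero] at hcd
    exact hd hcd.symm
  have hvc : v d = v c := by rw [← hcd, v_pow hs]
  have h1 : v (d / c - (s c / c) ^ q) < 1 := by
    have := th_pow hs hi hc0 q
    rwa [hcd] at this
  -- `c' = φ⁻¹ c`
  set c' : C := φ⁻¹ c with hc'
  have hφc : φ c' = c := by
    rw [hc']
    change (φ * φ⁻¹) c = c
    rw [mul_inv_cancel]
    rfl
  have hc'0 : c' ≠ 0 := by
    rintro h
    rw [h, map_zero] at hφc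
    exact hc0 hφc.symm
  have hvc' : v c' = v c := by rw [← hφc, hφ]
  have h2 : v (φ (s c') / c - (s c / c) ^ q) < 1 := by
    have e : φ (s c') / c = φ (s c' / c') := by rw [map_div₀, hφc]
    rw [e]
    refine ctrans (hf _ (vdiv hc'0 (hs _)).le) ?_
    exact cpow (vdiv hc'0 (hs _)).le (vdiv hc0 (hs _)).le (th_congr hs hi hc'0 hc0 hvc') q
  have h3 : v (φ (s c') / c - d / c) < 1 := ctrans h2 (csymm h1)
  have e : (φ * s * φ⁻¹ * (s ^ q)⁻¹) d = φ (s c') := rfl
  have hvc0 : 0 < v c := (Valuation.pos_iff v).2 hc0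
  rw [e, hvc]
  rw [← sub_div, map_div₀, div_lt_one₀ hvc0] at h3
  exact h3

end Pool.Agent.Lib.MP_c385f6_ag.TPG
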