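import Pool.Agent.Lib.MP_c385f6_ag.TPG.StV

/-!
Project TPG, part V, module V8: Teichmüller representatives.
-/

set_option autoImplicit false

open Polynomial

namespace Pool.Agent.Lib.MP_c385f6_ag.TPG

universe u v u' v' w

namespace VTeich

section Field

variable {p : ℕ} [Fact p.Prime] {κ : Type u} [Field κ] [CharP κ p]

/-- Nonzero elements of a field of characteristic `p` that are algebraic over the prime field have
finite order prime to `p`. -/
theorem exists_pow_of_root {x : κ} (hx : x ≠ 0) {P : (ZMod p)[X]} (hP : P ≠ 0)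
    (h : P.eval₂ (ZMod.castHom (dvd_refl p) κ) x = 0) : ∃ n : ℕ, ¬ p ∣ n ∧ x ^ n = 1 := by
  let _ : Algebra (ZMod p) κ := ZMod.algebra κ p
  have hint : IsIntegral (ZMod p) x := by
    rw [← isAlgebraic_iff_isIntegral]
    refine ⟨P, hP, ?_⟩
    rw [aeval_def]
    have e : algebraMap (ZMod p) κ = ZMod.castHom (dvd_refl p) κ := Subsingleton.elim _ _
    rw [e]
    exact h
  have hfd : FiniteDimensional (ZMod p) (IntermediateField.adjoin (ZMod p) {x}) :=
    IntermediateField.adjoin.finiteDimensional hint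
  have hfin : Finite (IntermediateField.adjoin (ZMod p) {x}) := Module.finite_of_finite (ZMod p)
  let _ : Fintype (IntermediateField.adjoin (ZMod p) {x}) := Fintype.ofFinite _
  have hcard := Module.card_eq_pow_finrank (K := ZMod p)
    (V := IntermediateField.adjoin (ZMod p) {x})
  rw [ZMod.card] at hcard
  have hpos : 0 < Module.finrank (ZMod p) (IntermediateField.adjoin (ZMod p) {x}) :=
    Module.finrank_pos
  have hpp : p.Prime := Fact.out
  have hp1 : p ∣ Fintype.card (IntermediateField.adjoin (ZMod p) {x}) := by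
    rw [hcard]
    exact dvd_pow_self p hpos.ne'
  have hc1 : 1 ≤ Fintype.card (IntermediateField.adjoin (ZMod p) {x}) := Fintype.card_pos
  refine ⟨Fintype.card (IntermediateField.adjoin (ZMod p) {x}) - 1, fun hd => ?_, ?_⟩
  · have h1 : p ∣ 1 := by
      have := Nat.dvd_sub hp1 hd
      rwa [Nat.sub_sub_self hc1] at this
    exact hpp.one_lt.ne' (Nat.dvd_one.mp h1)
  · let y : IntermediateField.adjoin (ZMod p) {x} :=
      ⟨x, IntermediateField.mem_adjoin_simple_self (ZMod p) x⟩
    have hy : y ≠ 0 := fun h0 => hx (congrArg Subtype.val h0)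
    have h1 := FiniteField.pow_card_sub_one_eq_one y hy
    exact congrArg Subtype.val h1

end Field

section Val

variable {C : Type u} [Field C] {Γ₀ : Type w} [LinearOrderedCommGroupWithZero Γ₀]
  (v : Valuation C Γ₀)

theorem residue_eq_zero_iff (x : v.valuationSubring) :
    IsLocalRing.residue v.valuationSubring x = 0 ↔ v (x : C) < 1 := by
  rw [IsLocalRing.residue_eq_zero_iff, IsLocalRing.mem_maximalIdeal, mem_nonunits_iff]
  have hx1 : v (x : C) ≤ 1 := (v.mem_valuationSubring_iff _).mp x.2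
  constructor
  · intro h
    refine lt_of_le_of_ne hx1 fun h1 => h ?_
    have hx0 : (x : C) ≠ 0 := fun h0 => by
      rw [h0, map_zero] at h1
      exact zero_ne_one h1
    have hinv : v ((x : C)⁻¹) ≤ 1 := by
      rw [map_inv₀, h1, inv_one]
    exact IsUnit.of_mul_eq_one (⟨(x : C)⁻¹, (v.mem_valuationSubring_iff _).mpr hinv⟩ :
      v.valuationSubring) (Subtype.ext (mul_inv_cancel₀ hx0))
  · intro h hu
    obtain ⟨y, hy⟩ := hu.exists_right_inv
    have h1 : v (x : C) * v (y : C) = 1 := by
      rw [← map_mul]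
      have : (x : C) * (y : C) = 1 := congrArg Subtype.val hy
      rw [this, map_one]
    have h2 : v (y : C) ≤ 1 := (v.mem_valuationSubring_iff _).mp y.2
    have h3 : v (x : C) * v (y : C) < 1 := mul_lt_one_of_lt_of_le h h2
    exact h3.ne h1

variable {p : ℕ} [Fact p.Prime]

/-- the ring homomorphism from the `p`-adic integers to the valuation ring -/
noncomputable def toO (j : ℚ_[p] →+* C) (hj : ∀ x : ℚ_[p], ‖x‖ ≤ 1 → v (j x) ≤ 1) :
    ℤ_[p] →+* v.valuationSubring where
  toFun a := ⟨j (a : ℚ_[p]), (v.mem_valuationSubring_iff _).mpr (hj _ a.2)⟩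
  map_one' := Subtype.ext (by simp)
  map_zero' := Subtype.ext (by simp)
  map_mul' a b := Subtype.ext (by simp)
  map_add' a b := Subtype.ext (by simp)

/-- The residue of an algebraic unit has finite order. -/
theorem exists_pow_lt (j : ℚ_[p] →+* C) (hj : ∀ x : ℚ_[p], ‖x‖ ≤ 1 → v (j x) ≤ 1)
    (hp : v (p : C) < 1) {c : C} (hc : v c = 1) {P : ℚ_[p][X]} (hP : P ≠ 0)
    (hPc : P.eval₂ j c = 0) : ∃ n : ℕ, ¬ p ∣ n ∧ v (c ^ n - 1) < 1 := by
  set O := v.valuationSubring with hO
  set res := IsLocalRing.residue O with hres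
  have hcO : c ∈ O := (v.mem_valuationSubring_iff _).mpr hc.le
  -- characteristic
  have hchar : CharP (IsLocalRing.ResidueField O) p := by
    have h1 : ((p : ℕ) : IsLocalRing.ResidueField O) = 0 := by
      have h2 := (residue_eq_zero_iff v ((p : ℕ) : O)).mpr (by
        have e : (((p : ℕ) : O) : C) = (p : C) := by push_cast; rfl
        rw [e]
        exact hp)
      rwa [map_natCast] at h2
    obtain ⟨q, hq⟩ := CharP.exists (IsLocalRing.ResidueField O)
    have h3 : q ∣ p := (CharP.cast_eq_zero_iff _ q p).mp h1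
    rcases (Nat.dvd_prime (Fact.out : p.Prime)).mp h3 with h4 | h4
    · exact absurd h4 (CharP.char_ne_one (IsLocalRing.ResidueField O) q)
    · rw [← h4]
      exact hq
  -- the coefficient of largest norm
  obtain ⟨i₀, hi₀, hmax⟩ := Finset.exists_max_image P.support (fun i => ‖P.coeff i‖)
    (Polynomial.nonempty_support_iff.mpr hP)
  have ha : P.coeff i₀ ≠ 0 := Polynomial.mem_support_iff.mp hi₀
  have hz : ∀ i, ‖P.coeff i / P.coeff i₀‖ ≤ 1 := by
    intro i
    rw [norm_div, div_le_one (norm_pos_iff.mpr ha)]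
    by_cases hi : i ∈ P.support
    · exact hmax i hi
    · rw [Polynomial.notMem_support_iff.mp hi, norm_zero]
      exact norm_nonneg _
  let z : ℕ → ℤ_[p] := fun i => ⟨P.coeff i / P.coeff i₀, hz i⟩
  let R : (ZMod p)[X] := ∑ i ∈ P.support, monomial i (PadicInt.toZMod (z i))
  have hR : R ≠ 0 := by
    intro h0
    have h1 : R.coeff i₀ = 1 := by
      simp only [R, finsetSum_coeff, coeff_monomial]
      rw [Finset.sum_ite_eq' P.support i₀, if_pos hi₀]
      have e : z i₀ = 1 := Subtype.ext (div_self ha)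
      rw [e, map_one]
    rw [h0, coeff_zero] at h1
    exact zero_ne_one h1
  let f : ℤ_[p] →+* IsLocalRing.ResidueField O := res.comp (toO v j hj)
  have hf : ∀ a, f a = ZMod.castHom (dvd_refl p) (IsLocalRing.ResidueField O)
      (PadicInt.toZMod a) := by
    intro a
    have h1 : a - (a.zmodRepr : ℤ_[p]) ∈ Ideal.span {(p : ℤ_[p])} := by
      rw [← PadicInt.maximalIdeal_eq_span_p]
      exact PadicInt.sub_zmodRepr_mem a
    obtain ⟨b, hb⟩ := Ideal.mem_span_singleton'.mp h1
    have e1 : a = b * (p : ℤ_[p]) + (a.zmodRepr : ℤ_[p]) := by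
      rw [hb]
      ring
    have e2 : f a = (a.zmodRepr : IsLocalRing.ResidueField O) := by
      rw [e1, map_add, map_mul, map_natCast, map_natCast, CharP.cast_eq_zero, mul_zero, zero_add,
        ← e1]
    have e3 : PadicInt.toZMod a = (a.zmodRepr : ZMod p) := by
      rw [e1, map_add, map_mul, map_natCast, map_natCast, CharP.cast_eq_zero, mul_zero, zero_add,
        ← e1]
    rw [e2, e3, map_natCast]
  have hroot : R.eval₂ (ZMod.castHom (dvd_refl p) (IsLocalRing.ResidueField O))
      (res ⟨c, hcO⟩) = 0 := by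
    have h1 : R.eval₂ (ZMod.castHom (dvd_refl p) (IsLocalRing.ResidueField O))
        (res ⟨c, hcO⟩) = res (∑ i ∈ P.support, toO v j hj (z i) * ⟨c, hcO⟩ ^ i) := by
      simp only [R, eval₂_finsetSum, eval₂_monomial, map_sum, map_mul, map_pow, ← hf]
      rfl
    rw [h1]
    have h2 : (∑ i ∈ P.support, toO v j hj (z i) * (⟨c, hcO⟩ : O) ^ i) = 0 := by
      apply Subtype.ext
      have e1 : ((∑ i ∈ P.support, toO v j hj (z i) * (⟨c, hcO⟩ : O) ^ i : O) : C) =
          ∑ i ∈ P.support, j (P.coeff i / P.coeff i₀) * c ^ i := by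
        push_cast
        rfl
      rw [e1]
      have e2 : ∑ i ∈ P.support, j (P.coeff i / P.coeff i₀) * c ^ i =
          (j (P.coeff i₀))⁻¹ * P.eval₂ j c := by
        rw [eval₂_eq_sum, Polynomial.sum, Finset.mul_sum]
        refine Finset.sum_congr rfl fun i _ => ?_
        rw [map_div₀]
        ring
      rw [e2, hPc, mul_zero]
      rfl
    rw [h2, map_zero]
  have hne : res ⟨c, hcO⟩ ≠ 0 := by
    intro h0
    have h1 := (residue_eq_zero_iff v (⟨c, hcO⟩ : O)).mp h0
    exact h1.ne hc
  obtain ⟨n, hn, hcn⟩ := exists_pow_of_root hne hR hroot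
  refine ⟨n, hn, ?_⟩
  have h1 := (residue_eq_zero_iff v ((⟨c, hcO⟩ : O) ^ n - 1)).mp (by
    rw [map_sub, map_pow, map_one]
    exact sub_eq_zero.mpr hcn)
  exact h1

/-- A root of unity near `c`. -/
theorem exists_root [IsAlgClosed C] {c : C} {n : ℕ} (hn : n ≠ 0) (h : v (c ^ n - 1) < 1) :
    ∃ c' : C, v (c' - c) < 1 ∧ c' ^ n = 1 := by
  have hm : (X ^ n - 1 : C[X]).Monic := monic_X_pow_sub_C 1 hn
  have hs : (X ^ n - 1 : C[X]).Splits := IsAlgClosed.splits _
  have h1 := hs.eval_eq_prod_roots_of_monic hm c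
  rw [eval_sub, eval_pow, eval_X, eval_one] at h1
  rw [h1] at h
  by_contra hcon
  push Not at hcon
  have h2 : ∀ s : Multiset C, (∀ ζ ∈ s, ζ ^ n = 1) → 1 ≤ v ((s.map (c - ·)).prod) := by
    intro s
    induction s using Multiset.induction_on with
    | empty =>
      intro _
      rw [Multiset.map_zero, Multiset.prod_zero, map_one]
    | cons a s ih =>
      intro hs'
      rw [Multiset.map_cons, Multiset.prod_cons, map_mul]
      have h3 := ih fun ζ hζ => hs' ζ (Multiset.mem_cons_of_mem hζ)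
      have h4 : 1 ≤ v (c - a) := by
        by_contra h5
        rw [not_le] at h5
        rw [Valuation.map_sub_swap] at h5
        exact hcon a h5 (hs' a (Multiset.mem_cons_self a s))
      exact one_le_mul h4 h3
  refine absurd h (not_lt.mpr (h2 _ fun ζ hζ => ?_))
  rw [mem_roots hm.ne_zero, IsRoot.def, eval_sub, eval_pow, eval_X, eval_one, sub_eq_zero] at hζ
  exact hζ

/-- Roots of unity of order prime to `p` congruent to one are equal to one. -/
theorem eq_one_of_lt {ζ : C} {n : ℕ} (hn : v (n : C) = 1) (hζ : ζ ^ n = 1)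
    (h : v (ζ - 1) < 1) : ζ = 1 := by
  by_contra hne
  have h1 : ∑ i ∈ Finset.range n, ζ ^ i = 0 := by
    have h2 := geom_sum_mul ζ n
    rw [hζ, sub_self] at h2
    exact (mul_eq_zero.mp h2).resolve_right (sub_ne_zero.mpr hne)
  have hζ1 : v ζ ≤ 1 := by
    have h2 : ζ = (ζ - 1) + 1 := by ring
    rw [h2]
    refine (v.map_add _ _).trans (max_le h.le ?_)
    rw [map_one]
  have h3 : ∀ i : ℕ, v (ζ ^ i - 1) < 1 := by
    intro i
    induction i with
    | zero =>
      rw [pow_zero, sub_self, map_zero]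
      exact zero_lt_one
    | succ i ih =>
      have e : ζ ^ (i + 1) - 1 = (ζ ^ i - 1) * ζ + (ζ - 1) := by ring
      rw [e]
      refine v.map_add_lt ?_ h
      rw [map_mul]
      exact mul_lt_one_of_lt_of_le ih hζ1
  have h4 : v (∑ i ∈ Finset.range n, (ζ ^ i - 1)) < 1 :=
    v.map_sum_lt one_ne_zero fun i _ => h3 i
  rw [Finset.sum_sub_distrib, h1, Finset.sum_const, Finset.card_range, nsmul_eq_mul, mul_one,
    zero_sub, Valuation.map_neg] at h4
  exact h4.ne hn

end Val

end VTeich

open VTeich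

/-- V8. Teichmüller representatives. -/
theorem stTeich (h1 : StVInv.{u, w}) : StTeich.{u, w} := by
  intro p _ k C _ _ _ _ _ _ _ Γ₀ _ v hv
  obtain ⟨hinv, hp, hn⟩ := h1 p k C Γ₀ v hv
  refine ⟨fun c hc => ?_, fun s hs c n hpn hcn => ?_⟩
  · rcases hc.lt_or_eq with hlt | heq
    · refine ⟨0, ?_, Or.inl rfl⟩
      rw [zero_sub, Valuation.map_neg]
      exact hlt
    · let j : ℚ_[p] →+* C := (algebraMap k C).comp (algebraMap ℚ_[p] k)
      have hj : ∀ x : ℚ_[p], ‖x‖ ≤ 1 → v (j x) ≤ 1 := by
        intro x hx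
        refine (hv _).mpr ?_
        rw [spectralNorm_extends]
        exact hx
      let _ : Algebra ℚ_[p] C := j.toAlgebra
      have _ : IsScalarTower ℚ_[p] k C := IsScalarTower.of_algebraMap_eq' rfl
      have _ : Algebra.IsAlgebraic ℚ_[p] C := Algebra.IsAlgebraic.trans ℚ_[p] k C
      obtain ⟨P, hP, hPc⟩ := Algebra.IsAlgebraic.isAlgebraic (R := ℚ_[p]) c
      obtain ⟨n, hpn, hcn⟩ := exists_pow_lt v j hj hp heq hP hPc
      have hn0 : n ≠ 0 := by
        rintro rfl
        exact hpn (dvd_zero p)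
      obtain ⟨c', hc', hc'n⟩ := exists_root v hn0 hcn
      exact ⟨c', hc', Or.inr ⟨n, hpn, hc'n⟩⟩
  · have hn0 : n ≠ 0 := by
      rintro rfl
      exact hpn (dvd_zero p)
    have hc0 : c ≠ 0 := by
      rintro rfl
      rw [zero_pow hn0] at hcn
      exact zero_ne_one hcn
    have hvc : v c = 1 := by
      have e := congrArg v hcn
      rw [map_pow, map_one] at e
      rcases lt_trichotomy (v c) 1 with hlt | heq | hgt
      · exact absurd e (pow_lt_one₀ zero_le hlt hn0).ne
      · exact heq
      · exact absurd e (one_lt_pow₀ hgt hn0).ne'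
    have h2 : v (s c / c - 1) < 1 := by
      have e : s c / c - 1 = (s c - c) / c := by
        field_simp
      rw [e, map_div₀, hvc, div_one]
      exact hs c hvc.le
    have h3 : (s c / c) ^ n = 1 := by
      rw [div_pow, ← map_pow, hcn, map_one, div_one]
    have h4 := eq_one_of_lt v (hn n hpn) h3 h2
    rwa [div_eq_one_iff_eq hc0] at h4

end Pool.Agent.Lib.MP_c385f6_ag.TPG
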