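import Pool.Agent.Lib.MP_c385f6_ag.TPG.StV

/-!
Project TPG, part G, V6: wild elements have `p`-power order on finite sets.
-/

set_option autoImplicit false

open Polynomial

namespace Pool.Agent.Lib.MP_c385f6_ag.TPG

universe u w

namespace WildP

theorem period {k : Type*} {C : Type*} [Field k] [Field C] [Algebra k C]
    [Algebra.IsAlgebraic k C] (s : C ≃ₐ[k] C) (c : C) : ∃ m : ℕ, 0 < m ∧ (s ^ m) c = c := by
  have hint : IsIntegral k c := (Algebra.IsAlgebraic.isAlgebraic (R := k) c).isIntegral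
  have hmem : ∀ i : ℕ, (s ^ i) c ∈ (minpoly k c).rootSet C := by
    intro i
    rw [Polynomial.mem_rootSet]
    refine ⟨minpoly.ne_zero hint, ?_⟩
    have h := Polynomial.aeval_algHom_apply ((s ^ i : C ≃ₐ[k] C) : C →ₐ[k] C) c (minpoly k c)
    rw [minpoly.aeval, map_zero] at h
    exact h
  have hfin : ((minpoly k c).rootSet C).Finite := (minpoly k c).rootSet_finite C
  obtain ⟨i, -, j, -, hne, heq⟩ := Set.infinite_univ.exists_ne_map_eq_of_mapsTo
    (f := fun i : ℕ => (s ^ i) c) (fun i _ => hmem i) hfin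
  have key : ∀ i j : ℕ, i < j → (s ^ i) c = (s ^ j) c → ∃ m : ℕ, 0 < m ∧ (s ^ m) c = c := by
    intro i j hij h
    refine ⟨j - i, by omega, ?_⟩
    have h2 : (s ^ j) c = (s ^ i) ((s ^ (j - i)) c) := by
      rw [← AlgEquiv.mul_apply, ← pow_add]
      congr 2
      omega
    rw [h2] at h
    exact ((s ^ i).injective h).symm
  rcases lt_or_gt_of_ne hne with h | h
  · exact key i j h heq
  · exact key j i h heq.symm

theorem period_mul {k : Type*} {C : Type*} [Field k] [Field C] [Algebra k C]
    (s : C ≃ₐ[k] C) (c : C) (m n : ℕ) (h : (s ^ m) c = c) : (s ^ (m * n)) c = c := by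
  induction n with
  | zero => simp
  | succ n ih => rw [Nat.mul_succ, pow_add, AlgEquiv.mul_apply, h, ih]

theorem period_finset {k : Type*} {C : Type*} [Field k] [Field C] [Algebra k C]
    [Algebra.IsAlgebraic k C] (s : C ≃ₐ[k] C) (S : Finset C) :
    ∃ m : ℕ, 0 < m ∧ ∀ c ∈ S, (s ^ m) c = c := by
  classical
  induction S using Finset.induction_on with
  | empty => exact ⟨1, one_pos, by simp⟩
  | insert a S _ ih =>
    obtain ⟨m, hm, h⟩ := ih
    obtain ⟨n, hn, hn'⟩ := period s a
    refine ⟨m * n, Nat.mul_pos hm hn, ?_⟩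
    intro c hc
    rcases Finset.mem_insert.1 hc with rfl | hc
    · rw [Nat.mul_comm]
      exact period_mul s c n m hn'
    · exact period_mul s c m n (h c hc)

theorem wild_pow {k : Type*} {C : Type u} [Field k] [Field C] [Algebra k C] {Γ₀ : Type w}
    [LinearOrderedCommGroupWithZero Γ₀] (v : Valuation C Γ₀) (s : C ≃ₐ[k] C)
    (hs : IsWild v (s : C ≃+* C)) (j : ℕ) (c : C) (hc : c ≠ 0) : v ((s ^ j) c - c) < v c := by
  have hvc : 0 < v c := (Valuation.pos_iff v).2 hc
  induction j with
  | zero => simpa using hvc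
  | succ j ih =>
    have h1 : v ((s ^ j) c) = v c := by
      have h := Valuation.map_sub_eq_of_lt_right v (x := (s ^ j) c - c) (y := -c)
        (by rw [Valuation.map_neg]; exact ih)
      rw [sub_neg_eq_add, sub_add_cancel, Valuation.map_neg] at h
      exact h
    have h2 : (s ^ j) c ≠ 0 := by
      intro h0
      rw [h0, map_zero] at h1
      exact hvc.ne h1
    have h3 := hs _ h2
    rw [h1] at h3
    have h4 : (s ^ (j + 1)) c - c = (s ((s ^ j) c) - (s ^ j) c) + ((s ^ j) c - c) := by
      rw [pow_succ', AlgEquiv.mul_apply]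
      ring
    rw [h4]
    exact Valuation.map_add_lt v h3 ih

theorem fixed {k : Type*} {C : Type u} [Field k] [Field C] [Algebra k C] {Γ₀ : Type w}
    [LinearOrderedCommGroupWithZero Γ₀] (v : Valuation C Γ₀) (t : C ≃ₐ[k] C)
    (ht : ∀ (j : ℕ) (c : C), c ≠ 0 → v ((t ^ j) c - c) < v c) (m : ℕ) (hm : v (m : C) = 1)
    (x : C) (hx : (t ^ m) x = x) : t x = x := by
  have hm0 : (m : C) ≠ 0 := by
    intro h
    rw [h, map_zero] at hm
    exact zero_ne_one hm
  set T : C := ∑ i ∈ Finset.range m, (t ^ i) x with hT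
  have hTfix : t T = T := by
    have h1 : t T = ∑ i ∈ Finset.range m, (t ^ (i + 1)) x := by
      rw [hT, map_sum]
      refine Finset.sum_congr rfl fun i _ => ?_
      rw [pow_succ', AlgEquiv.mul_apply]
    have h2 := Finset.sum_range_succ (fun i => (t ^ i) x) m
    have h3 := Finset.sum_range_succ' (fun i => (t ^ i) x) m
    rw [h3] at h2
    simp only [pow_zero, AlgEquiv.one_apply] at h2
    rw [hx] at h2
    rw [h1]
    exact add_right_cancel h2
  have hTfix' : ∀ i : ℕ, (t ^ i) (T / m) = T / m := by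
    intro i
    induction i with
    | zero => simp
    | succ i ih =>
      rw [pow_succ', AlgEquiv.mul_apply, ih, map_div₀, hTfix, map_natCast]
  by_cases hy : x - T / m = 0
  · have h1 : x = T / m := sub_eq_zero.1 hy
    have h2 := hTfix' 1
    rw [pow_one, ← h1] at h2
    exact h2
  · exfalso
    set y : C := x - T / m with hydef
    have hsum : ∑ i ∈ Finset.range m, (t ^ i) y = 0 := by
      have h1 : ∀ i ∈ Finset.range m, (t ^ i) y = (t ^ i) x - T / m := by
        intro i _
        rw [hydef, map_sub, hTfix' i]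
      rw [Finset.sum_congr rfl h1, Finset.sum_sub_distrib, Finset.sum_const, Finset.card_range,
        nsmul_eq_mul, mul_div_cancel₀ _ hm0, ← hT, sub_self]
    have hsum2 : ∑ i ∈ Finset.range m, ((t ^ i) y - y) = - (m * y) := by
      rw [Finset.sum_sub_distrib, hsum, Finset.sum_const, Finset.card_range, nsmul_eq_mul, zero_sub]
    have hlt : v (∑ i ∈ Finset.range m, ((t ^ i) y - y)) < v y :=
      Valuation.map_sum_lt v ((Valuation.ne_zero_iff v).2 hy) fun i _ => ht i y hy
    rw [hsum2, Valuation.map_neg, map_mul, hm, one_mul] at hlt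
    exact lt_irrefl _ hlt

end WildP

theorem stWildP (h1 : StVInv.{u, w}) : StWildP.{u, w} := by
  intro p _ k C _ _ _ _ _ _ Γ₀ _ v hv s hs S
  obtain ⟨-, -, hn⟩ := h1 p k C Γ₀ v hv
  obtain ⟨M, hM, hfix⟩ := WildP.period_finset s S
  obtain ⟨N, m, hm, rfl⟩ := Nat.exists_eq_pow_mul_and_not_dvd hM.ne' p (Fact.out : p.Prime).ne_one
  refine ⟨N, fun c hc => ?_⟩
  refine WildP.fixed v (s ^ p ^ N) (fun j c hc0 => ?_) m (hn m hm) c ?_
  · rw [← pow_mul]
    exact WildP.wild_pow v s hs _ c hc0
  · rw [← pow_mul]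
    exact hfix c hc

end Pool.Agent.Lib.MP_c385f6_ag.TPG
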