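import Pool.Agent.Lib.MP_c385f6_ag.TPG.AllE
import Pool.Agent.Lib.MP_c385f6_ag.TPG.GBas
import Pool.Agent.Lib.MP_c385f6_ag.TPG.GBasC
import Pool.Agent.Lib.MP_c385f6_ag.TPG.GCptM
import Pool.Agent.Lib.MP_c385f6_ag.TPG.GCptT
import Pool.Agent.Lib.MP_c385f6_ag.TPG.GEdDat
import Pool.Agent.Lib.MP_c385f6_ag.TPG.GEdRho
import Pool.Agent.Lib.MP_c385f6_ag.TPG.GEllGe
import Pool.Agent.Lib.MP_c385f6_ag.TPG.GEllLe
import Pool.Agent.Lib.MP_c385f6_ag.TPG.GExt
import Pool.Agent.Lib.MP_c385f6_ag.TPG.GFG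
import Pool.Agent.Lib.MP_c385f6_ag.TPG.GFp
import Pool.Agent.Lib.MP_c385f6_ag.TPG.GFrc
import Pool.Agent.Lib.MP_c385f6_ag.TPG.GGoodL
import Pool.Agent.Lib.MP_c385f6_ag.TPG.GInt
import Pool.Agent.Lib.MP_c385f6_ag.TPG.GK2
import Pool.Agent.Lib.MP_c385f6_ag.TPG.GLD
import Pool.Agent.Lib.MP_c385f6_ag.TPG.GLiftV
import Pool.Agent.Lib.MP_c385f6_ag.TPG.GLvl
import Pool.Agent.Lib.MP_c385f6_ag.TPG.GMA
import Pool.Agent.Lib.MP_c385f6_ag.TPG.GNrm
import Pool.Agent.Lib.MP_c385f6_ag.TPG.GONd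
import Pool.Agent.Lib.MP_c385f6_ag.TPG.GPk
import Pool.Agent.Lib.MP_c385f6_ag.TPG.GPkRam
import Pool.Agent.Lib.MP_c385f6_ag.TPG.GPkStab
import Pool.Agent.Lib.MP_c385f6_ag.TPG.GPl
import Pool.Agent.Lib.MP_c385f6_ag.TPG.GPolSp
import Pool.Agent.Lib.MP_c385f6_ag.TPG.GRedEx
import Pool.Agent.Lib.MP_c385f6_ag.TPG.GStab
import Pool.Agent.Lib.MP_c385f6_ag.TPG.GTowUr
import Pool.Agent.Lib.MP_c385f6_ag.TPG.GTr
import Pool.Agent.Lib.MP_c385f6_ag.TPG.GUnf
import Pool.Agent.Lib.MP_c385f6_ag.TPG.VDsc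
import Pool.Agent.Lib.MP_c385f6_ag.TPG.VFrob
import Pool.Agent.Lib.MP_c385f6_ag.TPG.VInL
import Pool.Agent.Lib.MP_c385f6_ag.TPG.VInv
import Pool.Agent.Lib.MP_c385f6_ag.TPG.VTameK
import Pool.Agent.Lib.MP_c385f6_ag.TPG.VTameRel
import Pool.Agent.Lib.MP_c385f6_ag.TPG.VTeich
import Pool.Agent.Lib.MP_c385f6_ag.TPG.VWildP
import Pool.Agent.Lib.MP_c385f6_ag.TPG.TCmp
import Pool.Agent.Lib.MP_c385f6_ag.TPG.TTwCmp
import Pool.Agent.Lib.MP_c385f6_ag.TPG.TTwPl
import Pool.Agent.Lib.MP_c385f6_ag.TPG.TTwSp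
import Pool.Agent.Lib.MP_c385f6_ag.TPG.HRS

/-!
Project TPG: the statements of parts G, V and T without hypotheses.
-/

set_option autoImplicit false

namespace Pool.Agent.Lib.MP_c385f6_ag.TPG.AllG

universe u v u' v' w

theorem vInv : StVInv.{u, w} := stVInv
theorem vDsc : StVDsc.{u, w} := stVDsc
theorem vFrob : StVFrob.{u, w} := stVFrob vInv
theorem inL : StInL.{u, w} := stInL vInv
theorem tameRel : StTameRel.{u, w} := stTameRel
theorem wildP : StWildP.{u, w} := stWildP vInv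
theorem tameK : StTameK.{u, w} := stTameK vInv vDsc wildP
theorem teich : StTeich.{u, w} := stTeich vInv
theorem ext : StExt.{u} := stExt
theorem towUr : StTowUr.{u} := stTowUr All.ord All.resF
theorem cptM : StCptM.{u, u', v'} := stCptM vDsc
theorem cptT : StCptT.{u, u', v'} := stCptT All.twDir All.twAut All.twUq cptM
theorem edRho : StEdRho.{u, u', v'} := stEdRho cptT All.twAct
theorem edDat : StEdDat.{u, u', v'} := stEdDat vInv vFrob tameRel wildP tameK ext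

theorem cmp : StCmp.{u, v, u', v'} := stCmp
theorem twCmp : StTwCmp.{u, v, u', v'} := stTwCmp cmp
theorem twPl : StTwPl.{u, v, u', v', w} := stTwPl twCmp
theorem twSp : StTwSp.{u, v, u', v', w} := stTwSp twCmp

theorem fp : StFp.{u, v, u', v'} := stFp
theorem ma : StMA.{u, v, u', v'} := stMA
theorem fg : StFG.{v} := stFG
theorem frc : StFrc.{u, v, u', v'} := stFrc ma
theorem nrm : StNrm.{u, v, u', v'} := stNrm fp ma frc
theorem ld : StLD.{u, v, u', v'} := stLD fp nrm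
theorem onD : StONd.{u, v, u', v'} := stONd
theorem pl : StPl.{u, v} := stPl All.ord All.deg All.rrf
theorem int : StInt.{u, v, u', v'} := stInt
theorem ellLe : StEllLe.{u, v, u', v'} := stEllLe onD pl pl int All.rrf All.rrf
theorem liftV : StLiftV.{u, v, u', v'} := stLiftV ma fg frc
theorem polSp : StPolSp.{u, v} := stPolSp All.ord All.deg All.rrf
theorem unf : StUnf.{u, v} := stUnf All.ord All.zero All.rrf All.riem pl
theorem k2 : StK2.{u} := stK2
theorem redEx : StRedEx.{u} := stRedEx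
theorem pkRam : StPkRam.{u} := stPkRam k2 ext inL
theorem rs : StRS.{u} := stRS

theorem bas : StBas.{u, v, u', v'} := stBas ma fg frc
theorem basC : StBasC.{u, v, u', v'} := stBasC ld bas
theorem lvl : StLvl.{u, v, u', v'} := stLvl basC
theorem tr : StTr.{u, v, u', v'} := stTr fp frc ld basC lvl
theorem stab : StStab.{u, v, u', v'} := stStab basC lvl
theorem ellGe : StEllGe.{u, v, u', v'} := stEllGe ma nrm lvl onD pl pl tr liftV All.rrf All.rrf
theorem goodL : StGoodL.{u, v, u', v'} :=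
  stGoodL lvl onD pl pl ellLe ellGe All.riem All.riem
theorem pkStab : StPkStab.{u} := stPkStab k2 stab basC lvl vInv

end Pool.Agent.Lib.MP_c385f6_ag.TPG.AllG
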