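import Pool.Agent.Lib.MP_c385f6_ag.TPG.StPkTwo
import Pool.Agent.Lib.MP_c385f6_ag.TPG.AllA
import Pool.Agent.Lib.MP_c385f6_ag.Semi.Final
import Pool.Agent.Lib.MP_c385f6_ag.Semi.Bundle
import Pool.Agent.Lib.MP_c385f6_ag.Bc.Unif

/-!
Project TPG: the final theorem, for the type `Sec` of sections, from its parts.
-/

set_option autoImplicit false

open Polynomial

namespace Pool.Agent.Lib.MP_c385f6_ag.TPG

universe u

open Semi (Sec IsSec SecAt)

/-- The final theorem. -/
def StFin : Prop :=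
  ∀ (p : ℕ) [Fact p.Prime] (k k' : Type) (K K' Ω : Type u) [Field k] [Field k'] [Field K]
    [Field K'] [Field Ω] [Algebra ℚ_[p] k] [FiniteDimensional ℚ_[p] k] [Algebra ℚ_[p] k']
    [FiniteDimensional ℚ_[p] k'] [Algebra k k'] [IsScalarTower ℚ_[p] k k'] [IsGalois k k']
    [Algebra k K] [Algebra k' K'] [Algebra K K'] [Algebra k K'] [IsScalarTower k k' K']
    [IsScalarTower k K K'] [Algebra k Ω] [Algebra K Ω] [IsScalarTower k K Ω] [IsAlgClosure K Ω]
    (t : K), TamelyGood p k k' K' t →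
    (∀ z : Ω, IntermediateField.adjoin (algebraicClosure k Ω) {z} ≠
      IntermediateField.adjoin (algebraicClosure k Ω) (Set.range (algebraMap K Ω))) →
    (∀ N : IntermediateField K Ω, PrimeClosed p k K Ω N →
      (Nonempty (Sec k K Ω N) ↔ ∃ A : ValuationSubring K, IsRationalPlace k K A)) ∧
    PrimeClosed p k K Ω (primeTower p k K Ω) ∧
    (∀ s : Sec k K Ω (primeTower p k K Ω), ∃ A : ValuationSubring K,
      IsRationalPlace k K A ∧ s.At A) ∧
    (∀ A : ValuationSubring K, IsRationalPlace k K A →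
      ∃ s : Sec k K Ω (primeTower p k K Ω), s.At A) ∧
    ∀ (s s' : Sec k K Ω (primeTower p k K Ω)) (A A' : ValuationSubring K),
      IsRationalPlace k K A → IsRationalPlace k K A' → s.At A → s'.At A' →
      (s.Conj s' ↔ SameRed p k t A A')

namespace FinAux

section

variable (k : Type) (K Ω : Type u) [Field k] [Field K] [Field Ω] [Algebra k K]
  [Algebra k Ω] [Algebra K Ω] [IsScalarTower k K Ω] [IsAlgClosure K Ω]

omit [Algebra k K] [IsScalarTower k K Ω] [IsAlgClosure K Ω] in
/-- Inertia acts trivially on `K^ur`. -/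
theorem inU {V : ValuationSubring Ω} (hV : ∀ c : k, algebraMap k Ω c ∈ V)
    {σ : Ω ≃ₐ[K] Ω} (hσ : σ ∈ inertia K V) {z : Ω} (hz : z ∈ maxUnramified k K Ω) : σ z = z := by
  have h1 : inertia K V ≤
      ⨆ B : {B : ValuationSubring Ω // ∀ c : k, algebraMap k Ω c ∈ B}, inertia K B.1 :=
    le_iSup (fun B : {B : ValuationSubring Ω // ∀ c : k, algebraMap k Ω c ∈ B} => inertia K B.1)
      ⟨V, hV⟩
  exact hz ⟨σ, h1 hσ⟩

/-- A place of `L` above a rational place. -/
theorem exists_over [CharZero k] (L : IntermediateField (algebraicClosure k Ω) Ω)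
    {A : ValuationSubring K} (hA : IsRationalPlace k K A)
    (hL : ∀ a : K, algebraMap K Ω a ∈ L) : ∃ P : Plc (algebraicClosure k Ω) L,
    ∀ (z : L) (a : K), (z : Ω) = algebraMap K Ω a → (z ∈ P.ring ↔ a ∈ A) := by
  have : CharZero K := charZero_of_injective_algebraMap (algebraMap k K).injective
  obtain ⟨V, hV⟩ := (Semi.stTr.{u, u} K Ω inferInstance inferInstance inferInstance inferInstance
    inferInstance).1 A
  have h1 : ∀ a : K, algebraMap K Ω a ∈ V ↔ a ∈ A := fun a => by
    rw [← hV, ValuationSubring.mem_comap]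
  have h2 : ∀ c : algebraicClosure k Ω, (c : Ω) ∈ V := by
    intro c
    have h3 : IsAlgebraic k (c : Ω) := (mem_algebraicClosure_iff).1 c.2
    have h4 : IsIntegral k (c : Ω) := h3.isIntegral
    let f : k →+* V := (algebraMap k Ω).codRestrict V fun x => by
      rw [IsScalarTower.algebraMap_apply k K Ω]
      exact (h1 _).2 (hA.const_mem x)
    obtain ⟨q, hq, hq0⟩ := h4
    have h5 : IsIntegral V (c : Ω) := by
      refine ⟨q.map f, hq.map f, ?_⟩
      rw [← hq0, eval₂_map]
      rfl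
    obtain ⟨y, hy⟩ := (IsIntegrallyClosed.isIntegral_iff (R := V) (K := Ω)).1 h5
    rw [← hy]
    exact y.2
  refine ⟨⟨V.comap (algebraMap L Ω), ?_, fun c => ?_⟩, ?_⟩
  · intro h3
    apply hA.ne_top
    rw [eq_top_iff]
    intro a _
    rw [← h1]
    have h4 : (⟨algebraMap K Ω a, hL a⟩ : L) ∈ V.comap (algebraMap L Ω) := by rw [h3]; trivial
    exact h4
  · exact h2 c
  · intro z a hz
    rw [ValuationSubring.mem_comap, ← h1, ← hz]
    rfl

end

end FinAux

open FinAux in
/-- The final theorem. -/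
theorem stFin (hPk : StPk2.{u}) (hPC : StPC.{u, u, u}) (hM : StMain.{u, u, u})
    (hS : StSame.{u, u, u}) : StFin.{u} := by
  intro p _ k k' K K' Ω _ _ _ _ _ _ _ _ _ _ _ _ _ _ _ _ _ _ _ _ _ _ t hG hne
  have c1 : CharZero k := charZero_of_injective_algebraMap (algebraMap ℚ_[p] k).injective
  have hΩ : IsAlgClosed Ω := IsAlgClosure.isAlgClosed K
  obtain ⟨F, U, _, _, _, R, L, g, k₂, hP, hSR⟩ := hPk p k k' K K' Ω t hG hne
  obtain ⟨-, hT, -⟩ := hPC p k K Ω F U R L g k₂ hP
  obtain ⟨hM1, hM2⟩ := hM p k K Ω F U R L g k₂ hP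
  have hIn : ∀ N : IntermediateField K Ω, PrimeClosed p k K Ω N → ∀ A : ValuationSubring K,
      IsRationalPlace k K A → ∀ V : ValuationSubring Ω, V.comap (algebraMap K Ω) = A →
      ∀ σ ∈ inertia K V, ∀ z ∈ N, σ z = z := by
    intro N hN A hA V hV σ hσ z hz
    refine inU k K Ω (fun c => ?_) hσ (hN.le hz)
    have h1 : algebraMap k K c ∈ V.comap (algebraMap K Ω) := by
      rw [hV]
      exact hA.const_mem c
    rw [IsScalarTower.algebraMap_apply k K Ω]
    exact h1
  have hNr : ∀ N : IntermediateField K Ω, PrimeClosed p k K Ω N → Normal K N := fun N hN =>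
    hN.galois.to_normal
  have hSct : ∀ N : IntermediateField K Ω, PrimeClosed p k K Ω N → ∀ A : ValuationSubring K,
      IsRationalPlace k K A → ∃ s : Sec k K Ω N, s.At A := by
    intro N hN A hA
    obtain ⟨s, hs, hsA⟩ := Semi.stSct.{0, u, u} k K Ω inferInstance inferInstance inferInstance
      inferInstance inferInstance inferInstance inferInstance inferInstance inferInstance N
      (hNr N hN) hN.const A hA (hIn N hN A hA)
    exact ⟨hs.toSec, hsA⟩
  have htr : Algebra.trdeg k K = 1 := by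
    have h1 := (Bc.UnifAux.isBasis hG.trans hG.fin).lift_cardinalMk_eq_trdeg
    simpa using h1.symm
  refine ⟨fun N hN => ⟨fun ⟨s⟩ => hM1 N s.hom hN s.isSec, fun ⟨A, hA⟩ => ?_⟩, hT,
    fun s => hM2 s.hom s.isSec, fun A hA => hSct _ hT A hA, ?_⟩
  · obtain ⟨s, -⟩ := hSct N hN A hA
    exact ⟨s⟩
  · intro s s' A A' hA hA' hs hs'
    have hF : IsAlgClosed F := hP.fp.closed
    have hC : IsAlgClosed (algebraicClosure k Ω) := (algebraicClosure.isAlgClosure k Ω).isAlgClosed
    obtain ⟨sp, hsp, -⟩ := All.sp (algebraicClosure k Ω) L F (R.img L) (R.sub L) g hP.good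
    have hL : ∀ a : K, algebraMap K Ω a ∈ L := by
      intro a
      rw [hP.eqL]
      exact IntermediateField.subset_adjoin _ _ ⟨a, rfl⟩
    obtain ⟨P, hPA⟩ := exists_over k K Ω L hA hL
    obtain ⟨Q, hQA⟩ := exists_over k K Ω L hA' hL
    have h1 := hSR sp hsp A A' P Q hA hA' hPA hQA
    rw [← h1, Sec.conj_iff]
    constructor
    · rintro ⟨γ, -, hγ⟩
      have h2 : SecAt s'.hom A := Semi.secAt_conj (s := s.hom) hs γ hγ
      exact (hS p k K Ω F U R L g k₂ hP sp hsp s'.hom A A' P Q s'.isSec hA hA' hPA hQA h2).1 hs'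
    · intro h2
      have h3 : SecAt s.hom A' :=
        (hS p k K Ω F U R L g k₂ hP sp hsp s.hom A A' P Q s.isSec hA hA' hPA hQA hs).2 h2
      exact Semi.mods.cnj k K Ω inferInstance inferInstance inferInstance
        inferInstance inferInstance inferInstance inferInstance inferInstance inferInstance htr _
        (hNr _ hT) hT.const A' hA' (hIn _ hT A' hA') s.hom s'.hom s.isSec s'.isSec h3 hs'

end Pool.Agent.Lib.MP_c385f6_ag.TPG
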