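import Pool.Agent.Lib.MP_c385f6_ag.TPG.StThm

/-!
Project TPG, module G28: coordinates that are defined over `K'` (roots of unity of order prime to
`p`).
-/

set_option autoImplicit false

open Polynomial

namespace Pool.Agent.Lib.MP_c385f6_ag.TPG

universe u v u' v'

namespace PkCrdX

theorem ord_zero {F : Type u} {W : Type v} [Field F] [Field W] [Algebra F W] (P : Plc F W) :
    ord P (0 : W) = 0 := by
  unfold ord
  rw [dif_neg]
  rintro ⟨n, u, hu, _, _, h⟩
  rw [map_zero] at h
  exact (zpow_ne_zero n ((Valuation.ne_zero_iff _).2 hu)) h.symm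

theorem adjoin_inv {C : Type u} {L : Type v} [Field C] [Field L] [Algebra C L] (t : L) :
    IntermediateField.adjoin C {t⁻¹} = IntermediateField.adjoin C {t} := by
  apply le_antisymm
  · rw [IntermediateField.adjoin_simple_le_iff]
    exact inv_mem (IntermediateField.mem_adjoin_simple_self C t)
  · rw [IntermediateField.adjoin_simple_le_iff]
    have h := inv_mem (IntermediateField.mem_adjoin_simple_self C t⁻¹)
    rwa [inv_inv] at h

theorem res_ne {C : Type u} {L : Type v} {F : Type u'} {Λ : Type v'} [Field C] [Field L]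
    [Field F] [Field Λ] [Algebra C L] [Algebra F Λ] {R : Red C L F Λ} {t : L}
    (h : Transcendental F (R.res t)) : R.res t ≠ 0 := by
  intro h0
  rw [h0] at h
  exact h isAlgebraic_zero

theorem degEq_inv {C : Type u} {L : Type v} {F : Type u'} {Λ : Type v'} [Field C] [Field L]
    [Field F] [Field Λ] [Algebra C L] [Algebra F Λ] {R : Red C L F Λ} {t : L}
    (h : DegEq R t) : DegEq R t⁻¹ := by
  have h0 := res_ne h.trans
  refine ⟨Red.inv_mem h0, ?_, ?_, ?_, ?_⟩
  · rw [R.res_inv h0]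
    intro ha
    have := ha.inv
    rw [inv_inv] at this
    exact h.trans this
  · rw [adjoin_inv]
    exact h.finC
  · rw [R.res_inv h0, adjoin_inv]
    exact h.finF
  · rw [R.res_inv h0, adjoin_inv, adjoin_inv]
    exact h.deg

theorem isIntegral_coe {F : Type u} {U : Type v} [Field F] [Field U] [Algebra F U]
    (M : IntermediateField F U) (z y : M) (h : IsIntegral (Algebra.adjoin F {z}) y) :
    IsIntegral (Algebra.adjoin F {(z : U)}) (y : U) := by
  have hmem : ∀ a : Algebra.adjoin F {z}, ((a : M) : U) ∈ Algebra.adjoin F {(z : U)} := by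
    intro a
    have h1 : (Algebra.adjoin F {z}).map M.val = Algebra.adjoin F {(z : U)} := by
      rw [AlgHom.map_adjoin, Set.image_singleton]
      rfl
    rw [← h1]
    exact ⟨a, a.2, rfl⟩
  let φ : Algebra.adjoin F {z} →+* Algebra.adjoin F {(z : U)} :=
    { toFun := fun a => ⟨((a : M) : U), hmem a⟩
      map_one' := rfl
      map_mul' := fun _ _ => rfl
      map_zero' := rfl
      map_add' := fun _ _ => rfl }
  exact IsIntegral.map_of_comp_eq φ (algebraMap M U) (by ext a; rfl) h

theorem res_sum {C : Type u} {L : Type v} {F : Type u'} {Λ : Type v'} [Field C] [Field L]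
    [Field F] [Field Λ] [Algebra C L] [Algebra F Λ] (R : Red C L F Λ) {ι : Type*}
    (s : Finset ι) (f : ι → L) (hf : ∀ i ∈ s, f i ∈ R.w) :
    ∑ i ∈ s, f i ∈ R.w ∧ R.res (∑ i ∈ s, f i) = ∑ i ∈ s, R.res (f i) := by
  classical
  induction s using Finset.induction_on with
  | empty =>
    rw [Finset.sum_empty, Finset.sum_empty]
    exact ⟨zero_mem _, R.res_zero⟩
  | insert a s ha ih =>
    obtain ⟨h1, h2⟩ := ih fun i hi => hf i (Finset.mem_insert_of_mem hi)
    have h3 := hf a (Finset.mem_insert_self a s)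
    rw [Finset.sum_insert ha, Finset.sum_insert ha]
    exact ⟨add_mem h3 h1, by rw [R.res_add _ h3 _ h1, h2]⟩

/-- Elements of the model ring are regular where `z` is regular. -/
theorem model_mem {p : ℕ} [Fact p.Prime] {k' : Type} {K' : Type u} {L : Type v} {C : Type u'}
    [Field k'] [Field K'] [Field L] [Field C] [Algebra ℚ_[p] k'] [Algebra k' K'] [Algebra C L]
    (j : K' →+* L) (i : k' → C) (hj : ∀ c : k', j (algebraMap k' K' c) = algebraMap C L (i c))
    (P : Plc C L) {z : K'} (hz : j z ∈ P.ring) {a : K'} (ha : a ∈ modelRing p k' z) :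
    j a ∈ P.ring := by
  set S : Subring K' := Subring.closure
    (insert z (algebraMap k' K' '' {c : k' | spectralNorm ℚ_[p] k' c ≤ 1})) with hS
  have hsub : ∀ b : S, j (b : K') ∈ P.ring := by
    intro b
    have h1 : S ≤ P.ring.toSubring.comap j := by
      rw [hS, Subring.closure_le]
      rintro b (rfl | ⟨c, _, rfl⟩)
      · exact hz
      · change j (algebraMap k' K' c) ∈ P.ring
        rw [hj]
        exact P.const_mem _
    exact h1 b.2
  let φ : S →+* P.ring :=
    { toFun := fun b => ⟨j (b : K'), hsub b⟩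
      map_one' := Subtype.ext (map_one j)
      map_mul' := fun a b => Subtype.ext (map_mul j (a : K') (b : K'))
      map_zero' := Subtype.ext (map_zero j)
      map_add' := fun a b => Subtype.ext (map_add j (a : K') (b : K')) }
  have hint : IsIntegral S a := ha
  have h2 : IsIntegral P.ring (j a) :=
    IsIntegral.map_of_comp_eq φ j (by ext b; rfl) hint
  obtain ⟨y, hy⟩ := IsIntegrallyClosed.isIntegral_iff.1 h2
  rw [← hy]
  exact y.2

/-- The module with an abstract field of constants `C`. -/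
theorem core (hUnf : StUnf.{u, u}) (hTr : StTr.{u, u, u, u}) (hNrm : StNrm.{u, u, u, u})
    (hPolSp : StPolSp.{u, u}) (hLvl : StLvl.{u, u, u, u}) (hMA : StMA.{u, u, u, u})
    (p : ℕ) [Fact p.Prime] (k' : Type) (K' Ω C F U : Type u)
    [Field k'] [Field K'] [Field Ω] [Field C] [IsAlgClosed C] [Field F] [IsAlgClosed F] [Field U]
    [Algebra ℚ_[p] k'] [FiniteDimensional ℚ_[p] k'] [Algebra k' K'] [Algebra K' Ω] [Algebra C Ω]
    [Algebra k' Ω] [Algebra k' C] [IsScalarTower k' K' Ω] [IsScalarTower k' C Ω]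
    [Algebra.IsAlgebraic k' C] [Algebra F U] (R : Red C Ω F U) (t' : K')
    (L : IntermediateField C Ω) (g : ℕ)
    (hTe : ∀ c : C, R.v c ≤ 1 → ∃ c' : C, R.v (c' - c) < 1 ∧
      (c' = 0 ∨ ∃ n : ℕ, ¬ p ∣ n ∧ c' ^ n = 1))
    (hmdl : Mdl p k' R t')
    (hL' : L = IntermediateField.adjoin C (Set.range (algebraMap K' Ω)))
    (hgood : Good (R.sub L) g) (sp : Plc C L → Plc F (R.img L)) (x : Plc F (R.img L))
    (hsp : IsSp (R.sub L) sp) :
    ∃ (u : L) (T : Finset C),
        IsCrd (R.sub L) sp x u ∧ (∀ c ∈ T, ∃ n : ℕ, ¬ p ∣ n ∧ c ^ n = 1) ∧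
        ∀ s : Ω →+* Ω, (∀ a : K', s (algebraMap K' Ω a) = algebraMap K' Ω a) →
          (∀ c ∈ T, s (algebraMap C Ω c) = algebraMap C Ω c) → s (u : Ω) = u := by
  -- `K'` is contained in `L`
  have hKL : ∀ a : K', algebraMap K' Ω a ∈ L := by
    intro a
    rw [hL']
    exact IntermediateField.subset_adjoin _ _ ⟨a, rfl⟩
  obtain ⟨j, hj⟩ : ∃ j : K' →+* L, ∀ a, ((j a : L) : Ω) = algebraMap K' Ω a :=
    ⟨{ toFun := fun a => ⟨algebraMap K' Ω a, hKL a⟩
       map_one' := Subtype.ext (map_one _)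
       map_mul' := fun a b => Subtype.ext (map_mul _ a b)
       map_zero' := Subtype.ext (map_zero _)
       map_add' := fun a b => Subtype.ext (map_add _ a b) }, fun a => rfl⟩
  have hdt : DegEq (R.sub L) (j t') :=
    (hLvl p k' K' Ω C F U R t' hmdl L hL').1 (j t') (hj t')
  -- the choice of `z`
  obtain ⟨z, hz, hdz, hxz⟩ : ∃ z ∈ ({t', t'⁻¹} : Set K'), DegEq (R.sub L) (j z) ∧
      (R.sub L).res (j z) ∈ x.ring := by
    rcases ValuationSubring.mem_or_inv_mem x.ring ((R.sub L).res (j t')) with h | h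
    · exact ⟨t', Or.inl rfl, hdt, h⟩
    · refine ⟨t'⁻¹, Or.inr rfl, ?_, ?_⟩
      · rw [map_inv₀]
        exact degEq_inv hdt
      · rw [map_inv₀, (R.sub L).res_inv (res_ne hdt.trans)]
        exact h
  obtain ⟨y, hyi, hy1⟩ := hUnf F (R.img L) hgood.ffF x _ hdz.trans hxz
  have hy0 : y ≠ 0 := by
    rintro rfl
    rw [ord_zero] at hy1
    exact zero_ne_one hy1
  obtain ⟨n, c, f, hfw, hyf, hfi⟩ := hTr p k' K' Ω C F U R t' hmdl L hL' (y : U) y.2
  have hres1 : R.res (algebraMap K' Ω 1) = 1 := by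
    rw [map_one]
    exact R.res_one
  have hzres : (((R.sub L).res (j z) : R.img L) : U) = R.res (algebraMap K' Ω z) := by
    rw [Red.sub_res, hj]
  have hyi' : IsIntegral (Algebra.adjoin F {R.res (algebraMap K' Ω z)}) (y : U) := by
    have h := isIntegral_coe (R.img L) ((R.sub L).res (j z)) y hyi
    rw [hzres] at h
    exact h
  have hfi' := hfi z hz 1 (by rw [map_one]; exact one_mem _) (by
    rw [hres1, mul_one]
    exact hyi')
  simp only [hres1, mul_one] at hfi'
  have hex : ∀ i, ∃ a ∈ modelRing p k' z,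
      R.res (algebraMap K' Ω a) = R.res (algebraMap K' Ω (f i)) := fun i =>
    (hNrm p k' K' Ω C F U R t' hmdl).1 z hz (f i) (hfw i) (hfi' i)
  choose a ha har using hex
  have haw : ∀ i, algebraMap K' Ω (a i) ∈ R.w := fun i =>
    (hMA p k' K' Ω C F U R t' hmdl z hz ⟨a i, ha i⟩).1
  -- the constants
  have hcex : ∀ i, ∃ c' : C, algebraMap C Ω c' ∈ R.w ∧
      R.res (algebraMap C Ω c') = algebraMap F U (c i) ∧
      (c' = 0 ∨ ∃ n : ℕ, ¬ p ∣ n ∧ c' ^ n = 1) := by
    intro i
    obtain ⟨c0, hc0, hc0r⟩ := R.const_surj (c i)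
    have hv0 : R.v c0 ≤ 1 := (R.w.valuation_le_one_iff _).2 hc0
    obtain ⟨c', hc', hc'n⟩ := hTe c0 hv0
    have hc1 : R.w.valuation (algebraMap C Ω (c' - c0)) < 1 := hc'
    have hd : algebraMap C Ω (c' - c0) ∈ R.w :=
      (R.w.valuation_le_one_iff _).1 (le_of_lt hc1)
    have hd0 : R.res (algebraMap C Ω (c' - c0)) = 0 := (R.res_lt _ hd).2 hc1
    have e : algebraMap C Ω c' = algebraMap C Ω c0 + algebraMap C Ω (c' - c0) := by
      rw [map_sub]
      ring
    refine ⟨c', ?_, ?_, hc'n⟩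
    · rw [e]
      exact add_mem hc0 hd
    · rw [e, R.res_add _ hc0 _ hd, hd0, add_zero]
      exact hc0r
  choose c' hc'w hc'r hc'n using hcex
  classical
  obtain ⟨u, hu⟩ : ∃ u : L, u = ∑ i, algebraMap C L (c' i) * j (a i) := ⟨_, rfl⟩
  have huΩ : (u : Ω) = ∑ i, algebraMap C Ω (c' i) * algebraMap K' Ω (a i) := by
    rw [hu, AddSubmonoidClass.coe_finsetSum]
    refine Finset.sum_congr rfl fun i _ => ?_
    rw [MulMemClass.coe_mul, hj]
    rfl
  have hterm : ∀ i ∈ Finset.univ, algebraMap C Ω (c' i) * algebraMap K' Ω (a i) ∈ R.w :=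
    fun i _ => mul_mem (hc'w i) (haw i)
  obtain ⟨huw, hur⟩ := res_sum R Finset.univ
    (fun i => algebraMap C Ω (c' i) * algebraMap K' Ω (a i)) hterm
  rw [← huΩ] at huw hur
  have hury : R.res (u : Ω) = (y : U) := by
    rw [hur, hyf]
    refine Finset.sum_congr rfl fun i _ => ?_
    rw [R.res_mul _ (hc'w i) _ (haw i), hc'r, har]
  have hures : (R.sub L).res u = y := Subtype.ext hury
  refine ⟨u, (Finset.univ.image c').filter (fun b => b ≠ 0), ⟨⟨huw, ?_⟩, ?_, ?_⟩, ?_, ?_⟩
  · intro P hP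
    have hzP : j z ∈ P.ring :=
      hPolSp C L F (R.img L) (R.sub L) g sp (j z) hgood hsp hdz P
        (by rw [hP]; exact hxz)
    rw [hu]
    refine sum_mem fun i _ => mul_mem (P.const_mem _) ?_
    refine model_mem j (fun b => algebraMap k' C b) ?_ P hzP (ha i)
    intro b
    apply Subtype.ext
    rw [hj, ← IsScalarTower.algebraMap_apply]
    change algebraMap k' Ω b = algebraMap C Ω (algebraMap k' C b)
    rw [← IsScalarTower.algebraMap_apply]
  · rw [hures]
    exact hy0
  · rw [hures]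
    exact hy1
  · intro b hb
    obtain ⟨hb1, hb0⟩ := Finset.mem_filter.1 hb
    obtain ⟨i, _, rfl⟩ := Finset.mem_image.1 hb1
    rcases hc'n i with h | h
    · exact absurd h hb0
    · exact h
  · intro s hsK hT
    rw [huΩ, map_sum]
    refine Finset.sum_congr rfl fun i _ => ?_
    rw [map_mul, hsK]
    congr 1
    by_cases h0 : c' i = 0
    · rw [h0]
      simp
    · exact hT _ (Finset.mem_filter.2 ⟨Finset.mem_image_of_mem _ (Finset.mem_univ i), h0⟩)

end PkCrdX

open PkCrdX in
/-- G28. Coordinates that are defined over `K' (roots of unity of order prime to p)`. -/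
theorem stPkCrd (hUnf : StUnf.{u, u}) (hTr : StTr.{u, u, u, u}) (hNrm : StNrm.{u, u, u, u})
    (hTeich : StTeich.{u, u}) (hPolSp : StPolSp.{u, u}) (hLvl : StLvl.{u, u, u, u})
    (hK2 : StK2.{u}) (hMA : StMA.{u, u, u, u}) : StPkCrd.{u} := by
  intro p _ k k' K K' Ω F U _ _ _ _ _ _ _ _ _ _ _ _ _ _ _ _ _ _ _ _ _ _ _ _ _ _ _ _ _ _ _ _
    R t L g hTG hval hmdl hL hgood sp x hsp
  have _i1 : IsAlgClosed Ω := IsAlgClosure.isAlgClosed K
  have _i2 : IsAlgClosed (algebraicClosure k Ω) :=
    IsAlgClosure.isAlgClosed (R := k) (K := algebraicClosure k Ω)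
  have htow : IsScalarTower k k' Ω := by
    refine IsScalarTower.of_algebraMap_eq fun c => ?_
    rw [IsScalarTower.algebraMap_apply k K Ω, IsScalarTower.algebraMap_apply K K' Ω,
      ← IsScalarTower.algebraMap_apply k K K', IsScalarTower.algebraMap_apply k k' K',
      ← IsScalarTower.algebraMap_apply k' K' Ω]
  have _i3 : Algebra.IsAlgebraic k' (algebraicClosure k Ω) := by
    refine ⟨fun c => ?_⟩
    have h1 : IsAlgebraic k (algebraMap (algebraicClosure k Ω) Ω c) :=
      (isAlgebraic_algebraMap_iff (algebraMap (algebraicClosure k Ω) Ω).injective).2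
        (Algebra.IsAlgebraic.isAlgebraic c)
    have h2 : IsAlgebraic k' (algebraMap (algebraicClosure k Ω) Ω c) := h1.tower_top k'
    exact (isAlgebraic_algebraMap_iff (algebraMap (algebraicClosure k Ω) Ω).injective).1 h2
  obtain ⟨hL', -, hs2, -⟩ := hK2 p k k' K K' Ω F U R t L hTG hval hmdl hL
  obtain ⟨u, T, h1, h2, h3⟩ := core hUnf hTr hNrm hPolSp hLvl hMA p k' K' Ω
    (algebraicClosure k Ω) F U R (algebraMap K K' t) L g
    ((hTeich p k (algebraicClosure k Ω) _ R.v hval).1) hmdl hL' hgood sp x hsp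
  refine ⟨u, T, h1, h2, fun s hs hT => ?_⟩
  exact h3 (s : Ω →+* Ω) (hs2 s hs) hT

end Pool.Agent.Lib.MP_c385f6_ag.TPG
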