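import Pool.Agent.Lib.MP_c385f6_ag.TPG.FinDefs

/-!
Project TPG: the package together with the comparison of the specialisation map and of `SameRed`.
-/

set_option autoImplicit false

open Polynomial

namespace Pool.Agent.Lib.MP_c385f6_ag.TPG

universe u

/-- G29'. The package, and the reductions of rational places. -/
def StPk2 : Prop :=
  ∀ (p : ℕ) [Fact p.Prime] (k k' : Type) (K K' Ω : Type u) [Field k] [Field k'] [Field K]
    [Field K'] [Field Ω] [Algebra ℚ_[p] k] [FiniteDimensional ℚ_[p] k] [Algebra ℚ_[p] k']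
    [FiniteDimensional ℚ_[p] k'] [Algebra k k'] [IsScalarTower ℚ_[p] k k'] [IsGalois k k']
    [Algebra k K] [Algebra k' K'] [Algebra K K'] [Algebra k K'] [IsScalarTower k k' K']
    [IsScalarTower k K K'] [Algebra k Ω] [Algebra K Ω] [IsScalarTower k K Ω] [IsAlgClosure K Ω]
    (t : K), TamelyGood p k k' K' t →
    (∀ z : Ω, IntermediateField.adjoin (algebraicClosure k Ω) {z} ≠
      IntermediateField.adjoin (algebraicClosure k Ω) (Set.range (algebraMap K Ω))) →
    ∃ (F U : Type u) (_ : Field F) (_ : Field U) (_ : Algebra F U)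
      (R : Red (algebraicClosure k Ω) Ω F U) (L : IntermediateField (algebraicClosure k Ω) Ω)
      (g : ℕ) (k₂ : IntermediateField k (algebraicClosure k Ω)), Pk p K R L g k₂ ∧
      ∀ (sp : Plc (algebraicClosure k Ω) L → Plc F (R.img L)), IsSp (R.sub L) sp →
      ∀ (A B : ValuationSubring K) (P Q : Plc (algebraicClosure k Ω) L),
        IsRationalPlace k K A → IsRationalPlace k K B →
        (∀ (z : L) (a : K), (z : Ω) = algebraMap K Ω a → (z ∈ P.ring ↔ a ∈ A)) →
        (∀ (z : L) (b : K), (z : Ω) = algebraMap K Ω b → (z ∈ Q.ring ↔ b ∈ B)) →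
        (sp P = sp Q ↔ SameRed p k t A B)

end Pool.Agent.Lib.MP_c385f6_ag.TPG
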