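import Pool.Agent.Lib.MP_c385f6_ag.TPG.GPk
import Pool.Agent.Lib.MP_c385f6_ag.TPG.StPkTwo

/-!
Project TPG, G29': the package `Pk` and the reductions of rational places.
-/

set_option autoImplicit false

open Polynomial

namespace Pool.Agent.Lib.MP_c385f6_ag.TPG

universe u

open GPk in
/-- G29'. The package, and the reductions of rational places. -/
theorem stPk2 (hK2 : StK2.{u}) (hFp : StFp.{u, u, u, u}) (hGd : StGoodL.{u, u, u, u})
    (hEx : StRedEx.{u}) (hSt : StPkStab.{u}) (hRm : StPkRam.{u}) (hCr : StPkCrd.{u})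
    (hRat : StRat.{u, u}) (hSR : StSR.{u}) : StPk2.{u} := by
  intro p _ k k' K K' Ω _ _ _ _ _ _ _ _ _ _ _ _ _ _ _ _ _ _ _ _ _ _ t hG hne
  have hfk : FiniteDimensional k k' := fin_k p k k'
  have hKalg : Algebra.IsAlgebraic K K' := alg_K k hG.comp
  have hΩ : IsAlgClosed Ω := IsAlgClosure.isAlgClosed K
  let ι : K' →ₐ[K] Ω := IsAlgClosed.lift
  let _ : Algebra K' Ω := (ι : K' →+* Ω).toAlgebra
  have t1 : IsScalarTower K K' Ω := IsScalarTower.of_algebraMap_eq fun x => (ι.commutes x).symm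
  let _ : Algebra k' Ω := ((algebraMap K' Ω).comp (algebraMap k' K')).toAlgebra
  have t2 : IsScalarTower k' K' Ω := IsScalarTower.of_algebraMap_eq fun x => rfl
  have t3 : IsScalarTower k k' Ω := IsScalarTower.of_algebraMap_eq fun x => by
    rw [IsScalarTower.algebraMap_apply k' K' Ω, ← IsScalarTower.algebraMap_apply k k' K',
      IsScalarTower.algebraMap_apply k K K', ← IsScalarTower.algebraMap_apply K K' Ω,
      ← IsScalarTower.algebraMap_apply k K Ω]
  have h1 : ∀ c : k', algebraMap k' Ω c ∈ algebraicClosure k Ω := by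
    intro c
    rw [mem_algebraicClosure_iff]
    exact ((Algebra.IsAlgebraic.isAlgebraic c).algebraMap : IsAlgebraic k (algebraMap k' Ω c))
  let _ : Algebra k' (algebraicClosure k Ω) :=
    ((algebraMap k' Ω).codRestrict (algebraicClosure k Ω) h1).toAlgebra
  have t4 : IsScalarTower k' (algebraicClosure k Ω) Ω := IsScalarTower.of_algebraMap_eq fun x => rfl
  have t5 : IsScalarTower k k' (algebraicClosure k Ω) := IsScalarTower.of_algebraMap_eq fun x => by
    apply Subtype.ext
    exact IsScalarTower.algebraMap_apply k k' Ω x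
  have hCc : IsAlgClosed (algebraicClosure k Ω) := (algebraicClosure.isAlgClosure k Ω).isAlgClosed
  have hCa : Algebra.IsAlgebraic k (algebraicClosure k Ω) :=
    (algebraicClosure.isAlgClosure k Ω).isAlgebraic
  have hCa' : Algebra.IsAlgebraic k' (algebraicClosure k Ω) :=
    Algebra.IsAlgebraic.tower_top (K := k) k'
  have htr : Transcendental (algebraicClosure k Ω) (algebraMap K Ω t) := by
    intro h
    have h2 : IsAlgebraic k (algebraMap K Ω t) := h.restrictScalars k
    rw [isAlgebraic_algebraMap_iff (algebraMap K Ω).injective] at h2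
    exact hG.trans h2
  obtain ⟨F, U, _, _, _, R, hF, hU, hv, hmt, hrt⟩ :=
    hEx p k (algebraicClosure k Ω) Ω (algebraMap K Ω t) htr
  have hM : Mdl p k' R (algebraMap K K' t) := mdl p k k' R t hG hv hmt hrt
  have hfp : FpBar p F := hFp p k' K' Ω (algebraicClosure k Ω) F U R _ hM
  let L : IntermediateField (algebraicClosure k Ω) Ω :=
    IntermediateField.adjoin (algebraicClosure k Ω) (Set.range (algebraMap K Ω))
  have hL : L = IntermediateField.adjoin (algebraicClosure k Ω) (Set.range (algebraMap K' Ω)) :=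
    (hK2 p k k' K K' Ω F U R t L hG hv hM rfl).1
  obtain ⟨g, hg⟩ := hGd p k' K' Ω (algebraicClosure k Ω) F U R _ hM L hL
  -- the genus is positive
  have hpos : 1 ≤ g := by
    by_contra h0
    have h0' : g = 0 := by omega
    rw [h0'] at hg
    obtain ⟨x, hx⟩ := (hRat (algebraicClosure k Ω) L hg.ffC).1.2 hg.genC
    apply hne x
    have h2 := congrArg IntermediateField.lift hx
    rw [IntermediateField.lift_adjoin_simple, IntermediateField.lift_top] at h2
    exact h2
  -- the image of `k'`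
  let k₂ : IntermediateField k (algebraicClosure k Ω) :=
    (IsScalarTower.toAlgHom k k' (algebraicClosure k Ω)).fieldRange
  have hk₂ : ∀ c : algebraicClosure k Ω, c ∈ k₂ ↔
      ∃ c' : k', algebraMap k' (algebraicClosure k Ω) c' = c := fun c => Iff.rfl
  let e : k' ≃ₐ[k] k₂ :=
    AlgEquiv.ofInjectiveField (IsScalarTower.toAlgHom k k' (algebraicClosure k Ω))
  have hco : ∀ s : Ω ≃ₐ[K] Ω, (∀ c : algebraicClosure k Ω, c ∈ k₂ → s (c : Ω) = c) →
      ∀ c : k', s (algebraMap k' Ω c) = algebraMap k' Ω c := fun s hs c =>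
    hs _ ((hk₂ _).2 ⟨c, rfl⟩)
  refine ⟨F, U, inferInstance, inferInstance, inferInstance, R, L, g, k₂, ⟨hv, hfp, hU, rfl,
    hG.const, hpos, hg, ?_, ?_, ?_, ?_, ?_, ?_, ?_⟩, fun sp hsp A B P Q hA hB hP hQ =>
    hSR p k k' K K' Ω F U R t L g hG hv hM rfl hg sp hsp A B P Q hA hB hP hQ⟩
  · exact (hSt p k k' K K' Ω F U R t L hG hv hM rfl).1
  · exact Module.Finite.equiv e.toLinearEquiv
  · exact Normal.of_algEquiv e
  · intro s hs
    obtain ⟨n, hn, hn'⟩ := (hRm p k k' K K' Ω F U R t L hG hv hM rfl).1 s hs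
    refine ⟨n, hn, fun c hc => ?_⟩
    obtain ⟨c', rfl⟩ := (hk₂ c).1 hc
    exact hn' c'
  · intro s hs hs'
    exact (hSt p k k' K K' Ω F U R t L hG hv hM rfl).2 s hs (hco s hs')
  · exact (hRm p k k' K K' Ω F U R t L hG hv hM rfl).2
  · intro sp x hsp
    obtain ⟨u, T, hu, hT, hs⟩ := hCr p k k' K K' Ω F U R t L g hG hv hM rfl hg sp x hsp
    exact ⟨u, T, hu, hT, fun s hs' hsT => hs s (hco s hs') hsT⟩

end Pool.Agent.Lib.MP_c385f6_ag.TPG
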