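import Pool.Agent.Lib.MP_c385f6_ag.TPG.StC
import Pool.Agent.Lib.MP_c385f6_ag.Defs

/-!
Project TPG, part F: from a place of `Λ` fixed by the Galois group to a rational place.
-/

set_option autoImplicit false

namespace Pool.Agent.Lib.MP_c385f6_ag.TPG

universe u v u' v' w

/-- F1. A place of `L = K C` that is fixed by `Gal(Ω / K)` gives a rational place of `K`. -/
def StF1 : Prop :=
  ∀ (k : Type u) (K : Type v) (Ω : Type w) [Field k] [CharZero k] [Field K] [Field Ω] [Algebra k K]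
    [Algebra k Ω] [Algebra K Ω] [IsScalarTower k K Ω] [IsAlgClosure K Ω]
    (L : IntermediateField (algebraicClosure k Ω) Ω),
    (∀ x : K, IsAlgebraic k x → ∃ c : k, x = algebraMap k K c) →
    L = IntermediateField.adjoin (algebraicClosure k Ω) (Set.range (algebraMap K Ω)) →
    FF (algebraicClosure k Ω) L →
    ∀ P : Plc (algebraicClosure k Ω) L,
      (∀ (s : Ω ≃ₐ[K] Ω) (z z' : L), (z' : Ω) = s z → (z ∈ P.ring ↔ z' ∈ P.ring)) →
      ∃ A : ValuationSubring K, MP_c385f6_ag.IsRationalPlace k K A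

/-- `G` acts on `L` and on `Λ`, compatibly with the reduction. -/
structure RAct {C : Type u} {L : Type v} {F : Type u'} {Λ : Type v'} [Field C] [Field L] [Field F]
    [Field Λ] [Algebra C L] [Algebra F Λ] (R : Red C L F Λ) {G : Type w} [Group G]
    (a : G →* (L ≃+* L)) (a' : G →* (Λ ≃+* Λ)) : Prop where
  cst : ∀ (s : G) (c : C), ∃ c' : C, a s (algebraMap C L c) = algebraMap C L c'
  res : ∀ (s : G) (z : L), R.res (a s z) = a' s (R.res z)

/-- F2. If `u ∈ L` is fixed by `G` and `c u` is a coordinate on the disc of the fixed place `x` for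
some `c ∈ C` then a place `P` in the disc of `x` is fixed by `G`. -/
def StF2 : Prop :=
  ∀ (C : Type u) (L : Type v) (F : Type u') (Λ : Type v') [Field C] [IsAlgClosed C] [Field L]
    [Field F] [IsAlgClosed F] [Field Λ] [Algebra C L] [Algebra F Λ] (R : Red C L F Λ) (g : ℕ)
    (sp : Plc C L → Plc F Λ) (G : Type w) [Group G] (a : G →* (L ≃+* L)) (a' : G →* (Λ ≃+* Λ))
    (x : Plc F Λ), Good R g → IsSp R sp → RAct R a a' → (∀ s : G, Mv (a' s) x x) →
    ∀ (u : L) (c : C), (∀ s : G, a s u = u) → c ≠ 0 → IsCrd R sp x (algebraMap C L c * u) →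
      ∃ P : Plc C L, sp P = x ∧ ∀ s : G, Mv (a s) P P

/-- F3. Tame averaging: `u` is a coordinate on the disc of the fixed place `x`, `N` a subgroup of
finite index that fixes `u` and the elements of the subfield `k₂` of `C`, `I ≥ N` the subgroup
acting trivially on the residue field of `k₂`, `π ∈ k₂` such that `s ∈ I` with `s π ≡ π` modulo higher
terms are in `N`, the index of `N` in `I` is prime to the characteristic of `F`. -/
def StF3 : Prop :=
  ∀ (C : Type u) (L : Type v) (F : Type u') (Λ : Type v') [Field C] [IsAlgClosed C] [Field L]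
    [Field F] [IsAlgClosed F] [Field Λ] [Algebra C L] [Algebra F Λ] (R : Red C L F Λ) (g : ℕ)
    (sp : Plc C L → Plc F Λ) (G : Type w) [Group G] (a : G →* (L ≃+* L)) (a' : G →* (Λ ≃+* Λ))
    (x : Plc F Λ), Good R g → IsSp R sp → RAct R a a' → (∀ s : G, Mv (a' s) x x) →
    ∀ (u : L) (k₂ : Subfield C) (π : C) (N I : Subgroup G), IsCrd R sp x u → π ∈ k₂ → π ≠ 0 →
      N.Normal → N.FiniteIndex → N ≤ I →
      (∀ s ∈ I, ∃ n ∈ N, ∀ c : F, a' (s * n) (algebraMap F Λ c) = algebraMap F Λ c) →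
      (∀ (s : G) (c : C), c ∈ k₂ → ∃ c' ∈ k₂, a s (algebraMap C L c) = algebraMap C L c') →
      (∀ s ∈ N, a s u = u ∧ ∀ c ∈ k₂, a s (algebraMap C L c) = algebraMap C L c) →
      (∀ s : G, s ∈ I ↔ ∀ c ∈ k₂, algebraMap C L c ∈ R.w →
        R.res (a s (algebraMap C L c)) = R.res (algebraMap C L c)) →
      (∀ s : G, R.res (a s (algebraMap C L π) / algebraMap C L π) ≠ 0) →
      (∀ s ∈ I, R.res (a s (algebraMap C L π) / algebraMap C L π) = 1 → s ∈ N) →
      ((N.relIndex I : ℕ) : F) ≠ 0 →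
      ∃ (u₀ : L) (c : C), (∀ s : G, a s u₀ = u₀) ∧ c ≠ 0 ∧ IsCrd R sp x (algebraMap C L c * u₀)

end Pool.Agent.Lib.MP_c385f6_ag.TPG
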