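import Pool.Agent.Lib.MP_c385f6_ag.TPG.StT

/-!
Project TPG, part T, second half: two rational places give the same section of the tower quotient
if and only if they have the same reduction.
-/

set_option autoImplicit false

namespace Pool.Agent.Lib.MP_c385f6_ag.TPG

universe u v u' v' w

/-- T4. The specialisation of a fixed place of the union of the towers is a fixed place of the union
of the towers of the residue field. -/
def StTwSp : Prop :=
  ∀ (C : Type u) (Ω : Type v) (F : Type u') (U : Type v') [Field C] [IsAlgClosed C] [Field Ω]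
    [Field F] [IsAlgClosed F] [Field U] [Algebra C Ω] [Algebra F U] (R : Red C Ω F U) (p g : ℕ)
    (L : IntermediateField C Ω) (sp : Plc C L → Plc F (R.img L)) (G : Type w) [Group G]
    (a : G →* (Tinf C p L ≃+* Tinf C p L))
    (ρ : G →* (Tinf F p (R.img L) ≃+* Tinf F p (R.img L))),
    PrP p C → PrP p F → Good (R.sub L) g → IsSp (R.sub L) sp →
    R.img (Tinf C p L) = Tinf F p (R.img L) →
    (∀ (s : G) (c : C), ∃ c' : C, a s (algebraMap C _ c) = algebraMap C _ c') →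
    (∀ (s : G) (z : Tinf C p L), (z : Ω) ∈ L → ((a s z : Tinf C p L) : Ω) ∈ L) →
    (∀ (s : G) (z : Tinf C p L) (y : Tinf F p (R.img L)), (z : Ω) ∈ R.w →
        ((a s z : Tinf C p L) : Ω) ∈ R.w ∧
        ((y : U) = R.res z → ((ρ s y : Tinf F p (R.img L)) : U) = R.res (a s z : Tinf C p L))) →
    ∀ (P : Plc C L) (B : ValuationSubring (Tinf C p L)), (∀ c : C, algebraMap C _ c ∈ B) →
      (∀ (s : G) (z : Tinf C p L), z ∈ B → a s z ∈ B) →
      (∀ (z : L) (y : Tinf C p L), (z : Ω) = y → (z ∈ P.ring ↔ y ∈ B)) →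
      ∃ Y : ValuationSubring (Tinf F p (R.img L)), (∀ c : F, algebraMap F _ c ∈ Y) ∧
        (∀ (s : G) (z : Tinf F p (R.img L)), z ∈ Y → ρ s z ∈ Y) ∧
        ∀ (z : R.img L) (y : Tinf F p (R.img L)), (z : U) = y → (z ∈ (sp P).ring ↔ y ∈ Y)

/-- E9. The place of `Λ` below a fixed place of the union of the towers is unique. -/
def StE9 : Prop :=
  ∀ (F : Type u) (U : Type v) [Field F] [Field U] [IsAlgClosed U] [Algebra F U] (p : ℕ)
    (Λ : IntermediateField F U) (G : Type w) [Group G]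
    (ρ : G →* (Tinf F p Λ ≃+* Tinf F p Λ)) (I P : Subgroup G) (φ : G), FpBar p F → FF F Λ →
    ¬ IsRat F Λ → EDat p Λ ρ I P φ →
    ∀ Y Y' : ValuationSubring (Tinf F p Λ),
      (∀ c : F, algebraMap F _ c ∈ Y) → (∃ z : Tinf F p Λ, (z : U) ∈ Λ ∧ z ∉ Y) →
      (∀ (s : G) (z : Tinf F p Λ), z ∈ Y → ρ s z ∈ Y) →
      (∀ c : F, algebraMap F _ c ∈ Y') → (∃ z : Tinf F p Λ, (z : U) ∈ Λ ∧ z ∉ Y') →
      (∀ (s : G) (z : Tinf F p Λ), z ∈ Y' → ρ s z ∈ Y') →
      ∀ z : Tinf F p Λ, (z : U) ∈ Λ → (z ∈ Y ↔ z ∈ Y')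

end Pool.Agent.Lib.MP_c385f6_ag.TPG
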