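import Pool.Agent.Lib.MP_c385f6_ag.TPG.StEd
import Pool.Agent.Lib.MP_c385f6_ag.TPG.StF
import Pool.Agent.Lib.MP_c385f6_ag.TPG.StT2

/-!
Project TPG: definitions and statements for the final theorem.
-/

set_option autoImplicit false

open Polynomial

namespace Pool.Agent.Lib.MP_c385f6_ag.TPG

universe u u' v'

section Defs

variable (p : ℕ) [Fact p.Prime] (k : Type) (K Ω : Type u) [Field k] [Field K] [Field Ω]
  [Algebra ℚ_[p] k] [Algebra k K] [Algebra k Ω] [Algebra K Ω]

omit [Fact p.Prime] [Algebra ℚ_[p] k] [Algebra k K] in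
/-- `N` is a Galois extension of `K` inside `K^ur` that contains `k̄` and all `h ∈ K^ur` with
`h ^ n ∈ N` for some `n` prime to `p`. (The largest such `N` is `K^ur`.) -/
structure PrimeClosed (N : IntermediateField K Ω) : Prop where
  galois : IsGalois K N
  le : N ≤ maxUnramified k K Ω
  const : ∀ c : algebraicClosure k Ω, (c : Ω) ∈ N
  root : ∀ (n : ℕ) (h : Ω), ¬ p ∣ n → h ∈ maxUnramified k K Ω → h ^ n ∈ N → h ∈ N

omit [Fact p.Prime] [Algebra ℚ_[p] k] [Algebra k K] in
/-- The smallest such `N`: it is obtained from `K k̄` by adjoining successively all `n`-th roots,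
`n` prime to `p`, that generate unramified extensions. -/
noncomputable def primeTower : IntermediateField K Ω :=
  sInf {N | PrimeClosed p k K Ω N}

variable {K} in
/-- The `k`-rational places `A` and `B` of `K` have the same reduction on the normalisation of `ℙ¹`
over `O_k` (coordinate `t`) in `K`: for `z = t` or `z = 1 / t` every `f` in the integral closure of
`O_k[z]` has values `a`, `b` in `O_k` at `A`, `B` that are congruent modulo the maximal ideal. -/
def SameRed (t : K) (A B : ValuationSubring K) : Prop :=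
  ∃ z ∈ ({t, t⁻¹} : Set K), ∀ f ∈ modelRing p k z, ∃ a b : k,
    A.valuation (f - algebraMap k K a) < 1 ∧ B.valuation (f - algebraMap k K b) < 1 ∧
    spectralNorm ℚ_[p] k a ≤ 1 ∧ spectralNorm ℚ_[p] k b ≤ 1 ∧ spectralNorm ℚ_[p] k (a - b) < 1

end Defs

/-- H1. The union of the towers is the smallest prime closed field. -/
def StPC : Prop :=
  ∀ (p : ℕ) [Fact p.Prime] (k : Type) (K Ω : Type u) [Field k] [Field K] [Field Ω]
    [Algebra ℚ_[p] k] [FiniteDimensional ℚ_[p] k] [Algebra k K] [Algebra k Ω] [Algebra K Ω]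
    [IsScalarTower k K Ω] [IsAlgClosure K Ω] (F : Type u') (U : Type v') [Field F] [Field U]
    [Algebra F U] (R : Red (algebraicClosure k Ω) Ω F U)
    (L : IntermediateField (algebraicClosure k Ω) Ω) (g : ℕ)
    (k₂ : IntermediateField k (algebraicClosure k Ω)), Pk p K R L g k₂ →
    (∀ N : IntermediateField K Ω, PrimeClosed p k K Ω N →
      ∀ z ∈ Tinf (algebraicClosure k Ω) p L, z ∈ N) ∧
    PrimeClosed p k K Ω (primeTower p k K Ω) ∧
    ∀ z : Ω, z ∈ primeTower p k K Ω ↔ z ∈ Tinf (algebraicClosure k Ω) p L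

/-- H2. Rational places give sections. -/
def StRS : Prop :=
  ∀ (p : ℕ) (k : Type) (K Ω : Type u) [Field k] [CharZero k] [Field K] [Field Ω]
    [Algebra k K] [Algebra k Ω] [Algebra K Ω] [IsScalarTower k K Ω] [IsAlgClosure K Ω]
    (N : IntermediateField K Ω) (A : ValuationSubring K), PrimeClosed p k K Ω N →
    IsRationalPlace k K A →
    ∃ s : AbsGal k Ω →* (N ≃ₐ[K] N), Semi.IsSec k K Ω N s ∧ Semi.SecAt s A

/-- H3. A place of the residue field of `L` that is fixed by `Gal(Ω / K)` is the specialisation of a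
place of `L` that is fixed by `Gal(Ω / K)`. -/
def StFP : Prop :=
  ∀ (p : ℕ) [Fact p.Prime] (k : Type) (K Ω : Type u) [Field k] [Field K] [Field Ω]
    [Algebra ℚ_[p] k] [FiniteDimensional ℚ_[p] k] [Algebra k K] [Algebra k Ω] [Algebra K Ω]
    [IsScalarTower k K Ω] [IsAlgClosure K Ω] (F : Type u') (U : Type v') [Field F] [Field U]
    [Algebra F U] (R : Red (algebraicClosure k Ω) Ω F U)
    (L : IntermediateField (algebraicClosure k Ω) Ω) (g : ℕ)
    (k₂ : IntermediateField k (algebraicClosure k Ω)), Pk p K R L g k₂ →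
    ∀ (sp : Plc (algebraicClosure k Ω) L → Plc F (R.img L)) (x : Plc F (R.img L)),
      IsSp (R.sub L) sp →
      (∀ (s : Ω ≃ₐ[K] Ω) (z : L) (y y' : R.img L), (z : Ω) ∈ R.w → (y : U) = R.res (z : Ω) →
        (y' : U) = R.res (s (z : Ω)) → (y ∈ x.ring ↔ y' ∈ x.ring)) →
      ∃ P : Plc (algebraicClosure k Ω) L, sp P = x ∧
        ∀ (s : Ω ≃ₐ[K] Ω) (z z' : L), (z' : Ω) = s z → (z ∈ P.ring ↔ z' ∈ P.ring)

/-- H4. The main theorem in terms of the package: sections and rational places. -/
def StMain : Prop :=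
  ∀ (p : ℕ) [Fact p.Prime] (k : Type) (K Ω : Type u) [Field k] [Field K] [Field Ω]
    [Algebra ℚ_[p] k] [FiniteDimensional ℚ_[p] k] [Algebra k K] [Algebra k Ω] [Algebra K Ω]
    [IsScalarTower k K Ω] [IsAlgClosure K Ω] (F : Type u') (U : Type v') [Field F] [Field U]
    [Algebra F U] (R : Red (algebraicClosure k Ω) Ω F U)
    (L : IntermediateField (algebraicClosure k Ω) Ω) (g : ℕ)
    (k₂ : IntermediateField k (algebraicClosure k Ω)), Pk p K R L g k₂ →
    (∀ (N : IntermediateField K Ω) (s : AbsGal k Ω →* (N ≃ₐ[K] N)), PrimeClosed p k K Ω N →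
      Semi.IsSec k K Ω N s → ∃ A : ValuationSubring K, IsRationalPlace k K A) ∧
    ∀ s : AbsGal k Ω →* (primeTower p k K Ω ≃ₐ[K] primeTower p k K Ω),
      Semi.IsSec k K Ω (primeTower p k K Ω) s →
      ∃ A : ValuationSubring K, IsRationalPlace k K A ∧ Semi.SecAt s A

/-- H5. Two rational places and sections of the smallest prime closed field, in terms of the
specialisation map. -/
def StSame : Prop :=
  ∀ (p : ℕ) [Fact p.Prime] (k : Type) (K Ω : Type u) [Field k] [Field K] [Field Ω]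
    [Algebra ℚ_[p] k] [FiniteDimensional ℚ_[p] k] [Algebra k K] [Algebra k Ω] [Algebra K Ω]
    [IsScalarTower k K Ω] [IsAlgClosure K Ω] (F : Type u') (U : Type v') [Field F] [Field U]
    [Algebra F U] (R : Red (algebraicClosure k Ω) Ω F U)
    (L : IntermediateField (algebraicClosure k Ω) Ω) (g : ℕ)
    (k₂ : IntermediateField k (algebraicClosure k Ω)), Pk p K R L g k₂ →
    ∀ (sp : Plc (algebraicClosure k Ω) L → Plc F (R.img L)), IsSp (R.sub L) sp →
    ∀ (s : AbsGal k Ω →* (primeTower p k K Ω ≃ₐ[K] primeTower p k K Ω))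
      (A B : ValuationSubring K) (P Q : Plc (algebraicClosure k Ω) L),
      Semi.IsSec k K Ω (primeTower p k K Ω) s → IsRationalPlace k K A → IsRationalPlace k K B →
      (∀ (z : L) (a : K), (z : Ω) = algebraMap K Ω a → (z ∈ P.ring ↔ a ∈ A)) →
      (∀ (z : L) (b : K), (z : Ω) = algebraMap K Ω b → (z ∈ Q.ring ↔ b ∈ B)) →
      Semi.SecAt s A → (Semi.SecAt s B ↔ sp P = sp Q)

/-- H6. Reductions of rational places. -/
def StSR : Prop :=
  ∀ (p : ℕ) [Fact p.Prime] (k k' : Type) (K K' Ω F U : Type u) [Field k] [Field k'] [Field K]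
    [Field K'] [Field Ω] [Field F] [IsAlgClosed F] [Field U] [Algebra ℚ_[p] k]
    [FiniteDimensional ℚ_[p] k] [Algebra ℚ_[p] k'] [FiniteDimensional ℚ_[p] k'] [Algebra k k']
    [IsScalarTower ℚ_[p] k k'] [IsGalois k k'] [Algebra k K] [Algebra k' K'] [Algebra K K']
    [Algebra k K'] [IsScalarTower k k' K'] [IsScalarTower k K K'] [Algebra k Ω] [Algebra K Ω]
    [IsScalarTower k K Ω] [IsAlgClosure K Ω] [Algebra K' Ω] [IsScalarTower K K' Ω] [Algebra k' Ω]
    [IsScalarTower k' K' Ω] [Algebra k' (algebraicClosure k Ω)]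
    [IsScalarTower k' (algebraicClosure k Ω) Ω] [Algebra F U]
    (R : Red (algebraicClosure k Ω) Ω F U) (t : K) (L : IntermediateField (algebraicClosure k Ω) Ω)
    (g : ℕ), TamelyGood p k k' K' t → IsVal p k R.v → Mdl p k' R (algebraMap K K' t) →
    L = IntermediateField.adjoin (algebraicClosure k Ω) (Set.range (algebraMap K Ω)) →
    Good (R.sub L) g →
    ∀ (sp : Plc (algebraicClosure k Ω) L → Plc F (R.img L)), IsSp (R.sub L) sp →
    ∀ (A B : ValuationSubring K) (P Q : Plc (algebraicClosure k Ω) L),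
      IsRationalPlace k K A → IsRationalPlace k K B →
      (∀ (z : L) (a : K), (z : Ω) = algebraMap K Ω a → (z ∈ P.ring ↔ a ∈ A)) →
      (∀ (z : L) (b : K), (z : Ω) = algebraMap K Ω b → (z ∈ Q.ring ↔ b ∈ B)) →
      (sp P = sp Q ↔ SameRed p k t A B)

end Pool.Agent.Lib.MP_c385f6_ag.TPG
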