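import Mathlib
import Pool.Agent.Lib.MP_c385f6_ag.TPG.FinDefs
import Pool.Agent.Lib.MP_c385f6_ag.TPG.AllA
import Pool.Agent.Lib.MP_c385f6_ag.TPG.GEdRho
import Pool.Agent.Lib.MP_c385f6_ag.TPG.FF1
import Pool.Agent.Lib.MP_c385f6_ag.PlaceMain

/-!
Project TPG, part H, H4: the main theorem in terms of the package.
-/

set_option autoImplicit false
set_option linter.unusedSectionVars false

namespace Pool.Agent.Lib.MP_c385f6_ag.TPG

universe u u' v'

namespace HMain

open EdRho CptT FF1

section Basic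

variable {k : Type} {K Ω : Type u} [Field k] [CharZero k] [Field K] [Field Ω] [Algebra k K]
  [Algebra k Ω] [Algebra K Ω] [IsScalarTower k K Ω] [IsAlgClosure K Ω]

/-- A fixed place of `L = K C` induces a rational place of `K`. -/
theorem rat_place (L : IntermediateField (algebraicClosure k Ω) Ω)
    (hk : ∀ x : K, IsAlgebraic k x → ∃ c : k, x = algebraMap k K c)
    (hL : L = IntermediateField.adjoin (algebraicClosure k Ω) (Set.range (algebraMap K Ω)))
    (hFF : FF (algebraicClosure k Ω) L) (P : Plc (algebraicClosure k Ω) L)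
    (hP : ∀ (s : Ω ≃ₐ[K] Ω) (z z' : L), (z' : Ω) = s z → (z ∈ P.ring ↔ z' ∈ P.ring)) :
    ∃ A : ValuationSubring K, IsRationalPlace k K A ∧
      ∀ (a : K) (z : L), (z : Ω) = algebraMap K Ω a → (z ∈ P.ring ↔ a ∈ A) := by
  have hΩ : IsAlgClosed Ω := IsAlgClosure.isAlgClosed K
  have halg : Algebra.IsAlgebraic K Ω := IsAlgClosure.isAlgebraic
  have : CharZero K := charZero_of_injective_algebraMap (algebraMap k K).injective
  have hN : Normal K Ω := IsAlgClosure.normal K Ω
  have hacF : IsAlgClosed (algebraicClosure k Ω) := IsAlgClosure.isAlgClosed k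
  have hGal : IsGalois K Ω := ⟨⟩
  have hmem : ∀ z : K, algebraMap K Ω z ∈ L := fun z => by
    rw [hL]
    exact IntermediateField.subset_adjoin _ _ ⟨z, rfl⟩
  let f : K →+* L := (algebraMap K Ω).codRestrict L.toSubring hmem
  have hf : ∀ z : K, ((f z : L) : Ω) = algebraMap K Ω z := fun z => rfl
  have hconst : ∀ c : k, f (algebraMap k K c) =
      algebraMap (algebraicClosure k Ω) L (algebraMap k (algebraicClosure k Ω) c) := by
    intro c
    apply Subtype.ext
    rw [hf, ← IsScalarTower.algebraMap_apply k K Ω]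
    rfl
  refine ⟨P.ring.comap f, ⟨?_, ?_, ?_⟩, ?_⟩
  · -- not everything
    intro htop
    apply P.ne_top
    rw [eq_top_iff]
    intro z _
    have hall : ∀ y : K, f y ∈ P.ring := by
      intro y
      have : y ∈ P.ring.comap f := by rw [htop]; trivial
      exact this
    let f' : K →+* P.ring := f.codRestrict P.ring.toSubring hall
    obtain ⟨q, hq, hq0⟩ := (Algebra.IsIntegral.isIntegral (R := K) ((z : L) : Ω) :
      IsIntegral K ((z : L) : Ω))
    have hint : IsIntegral P.ring z := by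
      refine ⟨q.map f', hq.map _, ?_⟩
      apply Subtype.val_injective (p := fun x => x ∈ L)
      rw [Polynomial.eval₂_map]
      have h2 : (algebraMap L Ω) (Polynomial.eval₂ ((algebraMap P.ring L).comp f') z q) = 0 := by
        rw [Polynomial.hom_eval₂]
        exact hq0
      exact h2
    obtain ⟨y, hy⟩ := IsIntegrallyClosed.isIntegral_iff.1 hint
    rw [← hy]
    exact y.2
  · intro c
    change f (algebraMap k K c) ∈ P.ring
    rw [hconst]
    exact P.const_mem _
  · intro z hz
    obtain ⟨c, hc⟩ := All.resF (algebraicClosure k Ω) L hFF P (f z) hz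
    have hfix : ∀ s : Ω ≃ₐ[K] Ω, s (c : Ω) = c := by
      intro s
      have hsc : s (c : Ω) ∈ algebraicClosure k Ω := by
        rw [mem_algebraicClosure_iff]
        have h1 : IsAlgebraic k (c : Ω) := mem_algebraicClosure_iff.1 c.2
        exact h1.algHom (s.restrictScalars k : Ω ≃ₐ[k] Ω).toAlgHom
      let c' : algebraicClosure k Ω := ⟨s (c : Ω), hsc⟩
      have hw : (((f z - algebraMap (algebraicClosure k Ω) L c' : L)) : Ω) =
          s ((f z - algebraMap (algebraicClosure k Ω) L c : L) : Ω) := by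
        change algebraMap K Ω z - s (c : Ω) = s (algebraMap K Ω z - (c : Ω))
        rw [map_sub, s.commutes]
      have hw' : ((((f z - algebraMap (algebraicClosure k Ω) L c')⁻¹ : L)) : Ω) =
          s (((f z - algebraMap (algebraicClosure k Ω) L c)⁻¹ : L) : Ω) := by
        have h3 : ∀ x : L, ((x⁻¹ : L) : Ω) = (x : Ω)⁻¹ := fun x => rfl
        rw [h3, h3, hw, map_inv₀]
      have hc' : P.ring.valuation (f z - algebraMap (algebraicClosure k Ω) L c') < 1 := by
        rw [val_lt_iff] at hc ⊢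
        rcases hc with hc | hc
        · left
          apply Subtype.ext
          rw [hw, hc]
          exact map_zero s
        · right
          exact fun h => hc ((hP s _ _ hw').2 h)
      by_contra hne
      have hne' : c' - c ≠ 0 := by
        rw [sub_ne_zero]
        intro h
        exact hne (congrArg Subtype.val h)
      have h4 : P.ring.valuation (algebraMap (algebraicClosure k Ω) L (c' - c)) < 1 := by
        have h5 : algebraMap (algebraicClosure k Ω) L (c' - c) =
            (f z - algebraMap (algebraicClosure k Ω) L c) -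
              (f z - algebraMap (algebraicClosure k Ω) L c') := by
          rw [map_sub]
          ring
        rw [h5]
        exact (Valuation.map_sub _ _ _).trans_lt (max_lt hc hc')
      rw [val_lt_iff] at h4
      rcases h4 with h4 | h4
      · exact hne' ((map_eq_zero _).1 h4)
      · rw [← map_inv₀] at h4
        exact h4 (P.const_mem _)
    obtain ⟨y, hy⟩ := (InfiniteGalois.mem_range_algebraMap_iff_fixed (c : Ω)).2 hfix
    have hya : IsAlgebraic k y := by
      have h1 : IsAlgebraic k (c : Ω) := mem_algebraicClosure_iff.1 c.2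
      rw [← hy] at h1
      exact (isAlgebraic_algebraMap_iff (algebraMap K Ω).injective).1 h1
    obtain ⟨c₀, rfl⟩ := hk y hya
    refine ⟨c₀, ?_⟩
    have h6 : f (z - algebraMap k K c₀) = f z - algebraMap (algebraicClosure k Ω) L c := by
      apply Subtype.ext
      rw [map_sub]
      change algebraMap K Ω z - algebraMap K Ω (algebraMap k K c₀) = algebraMap K Ω z - (c : Ω)
      rw [hy]
    rw [val_lt_iff] at hc ⊢
    rcases hc with hc | hc
    · left
      rw [← h6] at hc
      exact (map_eq_zero f).1 hc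
    · right
      intro h
      apply hc
      rw [← h6, ← map_inv₀]
      exact h
  · intro a z hz
    have h7 : z = f a := Subtype.ext hz
    rw [h7]
    rfl

/-- The restriction of an automorphism of `Ω / K` to the constants. -/
theorem GExtAux (t : Ω ≃ₐ[K] Ω) : ∃ n : AbsGal k Ω, ∀ c : algebraicClosure k Ω,
    t (c : Ω) = n c := by
  have hac : IsAlgClosed Ω := IsAlgClosure.isAlgClosed K
  have hcl : IsAlgClosure k (algebraicClosure k Ω) := inferInstance
  have hnn : Normal k (algebraicClosure k Ω) := IsAlgClosure.normal k _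
  exact ⟨resConst k K Ω t, fun c => (resConst_apply t c).symm⟩

/-- Automorphisms of `Ω / K` that agree on `C` agree on `L = K C`. -/
theorem agree (L : IntermediateField (algebraicClosure k Ω) Ω)
    (hL : L = IntermediateField.adjoin (algebraicClosure k Ω) (Set.range (algebraMap K Ω)))
    (t t' : Ω ≃ₐ[K] Ω) (h : ∀ c : algebraicClosure k Ω, t (c : Ω) = t' c) (z : Ω) (hz : z ∈ L) :
    t z = t' z := by
  rw [hL] at hz
  induction hz using IntermediateField.adjoin_induction with
  | mem x hx =>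
    obtain ⟨a, rfl⟩ := hx
    rw [t.commutes, t'.commutes]
  | algebraMap c => exact h c
  | add x y _ _ hx hy => rw [map_add, map_add, hx, hy]
  | inv x _ hx => rw [map_inv₀, map_inv₀, hx]
  | mul x y _ _ hx hy => rw [map_mul, map_mul, hx, hy]

end Basic

section Core

variable {p : ℕ} [Fact p.Prime] {k : Type} {K Ω : Type u} [Field k] [Field K] [Field Ω]
  [Algebra ℚ_[p] k] [FiniteDimensional ℚ_[p] k] [Algebra k K] [Algebra k Ω] [Algebra K Ω]
  [IsScalarTower k K Ω] [IsAlgClosure K Ω] {F : Type u'} {U : Type v'} [Field F] [Field U]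
  [Algebra F U] {R : Red (algebraicClosure k Ω) Ω F U}
  {L : IntermediateField (algebraicClosure k Ω) Ω} {g : ℕ}
  {k₂ : IntermediateField k (algebraicClosure k Ω)}

omit [Algebra ℚ_[p] k] [FiniteDimensional ℚ_[p] k] [Algebra k K] [IsScalarTower k K Ω] in
theorem prPF (hp : FpBar p F) : PrP p F := by
  intro n hn h0
  have := hp.char
  exact hn ((CharP.cast_eq_zero_iff F p n).1 h0)

theorem prPC {C : Type u} [Field C] [CharZero C] : PrP p C := by
  intro n hn h0
  rw [Nat.cast_eq_zero] at h0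
  exact hn (h0 ▸ dvd_zero p)

/-- The residue field of the union of the towers. -/
theorem img_eq (hCpt : StCptT.{u, u', v'}) (h : Pk p K R L g k₂) :
    R.img (Tinf (algebraicClosure k Ω) p L) = Tinf F p (R.img L) := by
  have hΩ : IsAlgClosed Ω := IsAlgClosure.isAlgClosed K
  have hCac : IsAlgClosed (algebraicClosure k Ω) := IsAlgClosure.isAlgClosed k
  have hF := h.fp.closed
  have hk0 : CharZero k := charZero_of_injective_algebraMap (algebraMap ℚ_[p] k).injective
  have hC0 : CharZero (algebraicClosure k Ω) :=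
    charZero_of_injective_algebraMap (algebraMap k (algebraicClosure k Ω)).injective
  refine All.twImg (algebraicClosure k Ω) Ω F U R p g L prPC (prPF h.fp) h.good ?_
  rintro M n y hM ⟨g', hg'⟩ hn hy
  obtain ⟨Γ, hΓ⟩ := (hCpt p k K Ω F U R L g k₂ h).2 M hM
  exact All.surG (algebraicClosure k Ω) M F (R.img M) (R.sub M) g' Γ hg' hΓ n y
    (prPF h.fp n hn) hy

/-- A section (on the union of the towers) fixes places of `Λ` and of `L`. -/
theorem core (hCpt : StCptT.{u, u', v'}) (hRho : StEdRho.{u, u', v'})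
    (hDat : StEdDat.{u, u', v'}) (hE8 : StE8.{u', v', u}) (hFP : StFP.{u, u', v'})
    (h : Pk p K R L g k₂) (N : IntermediateField K Ω) (s : AbsGal k Ω →* (N ≃ₐ[K] N))
    (hGal : IsGalois K N) (hs : Semi.IsSec k K Ω N s)
    (hN : ∀ z ∈ Tinf (algebraicClosure k Ω) p L, z ∈ N) :
    ∃ (ρ : AbsGal k Ω →* (Tinf F p (R.img L) ≃+* Tinf F p (R.img L)))
      (sp : Plc (algebraicClosure k Ω) L → Plc F (R.img L)) (P : Plc (algebraicClosure k Ω) L)
      (Y : ValuationSubring (Tinf F p (R.img L))),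
      Cmp p R L s ρ ∧ IsSp (R.sub L) sp ∧ (∀ c : F, algebraMap F _ c ∈ Y) ∧
      (∀ (σ : AbsGal k Ω) (z : Tinf F p (R.img L)), z ∈ Y → ρ σ z ∈ Y) ∧
      (∀ (z : R.img L) (y : Tinf F p (R.img L)), (z : U) = y → (z ∈ (sp P).ring ↔ y ∈ Y)) ∧
      ∀ (t : Ω ≃ₐ[K] Ω) (z z' : L), (z' : Ω) = t z → (z ∈ P.ring ↔ z' ∈ P.ring) := by
  have hΩ : IsAlgClosed Ω := IsAlgClosure.isAlgClosed K
  have hCac : IsAlgClosed (algebraicClosure k Ω) := IsAlgClosure.isAlgClosed k
  have hF := h.fp.closed
  have hU := h.closed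
  have hnor : Normal K Ω := IsAlgClosure.normal K Ω
  have hk0 : CharZero k := charZero_of_injective_algebraMap (algebraMap ℚ_[p] k).injective
  have himg := img_eq hCpt h
  obtain ⟨ρ, hρ⟩ := hRho p k K Ω F U R L g k₂ h himg N s hGal hs hN
  obtain ⟨I, W, φ, hE⟩ := hDat p k K Ω F U R L g k₂ h himg N s hGal hs hN ρ hρ
  have hnr : ¬ IsRat F (R.img L) := by
    intro hr
    have h0 := (All.rat F (R.img L) h.good.ffF).1.1 hr
    have h1 := (All.riem F (R.img L) h.good.ffF).unique h0 h.good.genF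
    have h2 := h.pos
    omega
  obtain ⟨Y, hYc, ⟨z₀, hz₀, hz₀Y⟩, hYs⟩ :=
    hE8 F U p (R.img L) (AbsGal k Ω) ρ I W φ h.fp h.good.ffF hnr hE
  obtain ⟨sp, hsp, -⟩ := All.sp (algebraicClosure k Ω) L F (R.img L) (R.sub L) g h.good
  have hLT : R.img L ≤ Tinf F p (R.img L) := le_sSup Tow.base
  have hLT' : L ≤ Tinf (algebraicClosure k Ω) p L := le_sSup Tow.base
  let j : R.img L →+* Tinf F p (R.img L) := (IntermediateField.inclusion hLT).toRingHom
  have hj : ∀ z : R.img L, ((j z : Tinf F p (R.img L)) : U) = z := fun z => rfl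
  let x : Plc F (R.img L) :=
    { ring := Y.comap j
      ne_top := by
        intro htop
        have h1 : (⟨(z₀ : U), hz₀⟩ : R.img L) ∈ Y.comap j := by
          rw [htop]
          trivial
        have h2 : j ⟨(z₀ : U), hz₀⟩ = z₀ := Subtype.ext rfl
        rw [ValuationSubring.mem_comap, h2] at h1
        exact hz₀Y h1
      const_mem := by
        intro c
        exact hYc c }
  have hx : ∀ z : R.img L, z ∈ x.ring ↔ j z ∈ Y := fun z => Iff.rfl
  -- the natural action fixes `x`
  have hfix : ∀ (t : Ω ≃ₐ[K] Ω) (z : L) (y y' : R.img L), (z : Ω) ∈ R.w →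
      (y : U) = R.res (z : Ω) → (y' : U) = R.res (t (z : Ω)) →
        (y ∈ x.ring ↔ y' ∈ x.ring) := by
    intro t z y y' hz hy hy'
    obtain ⟨σ, hσ⟩ := (GExtAux t : ∃ n : AbsGal k Ω, ∀ c : algebraicClosure k Ω,
      t (c : Ω) = n c)
    obtain ⟨t', ht'⟩ := EdRho.exists_lift (s σ)
    have hzN : (z : Ω) ∈ N := hN z (hLT' z.2)
    have h1 : ((s σ ⟨(z : Ω), hzN⟩ : N) : Ω) = t (z : Ω) := by
      rw [← ht' ⟨(z : Ω), hzN⟩]
      refine agree (k := k) L h.eqL t' t (fun c => ?_) z z.2
      have hcN : (c : Ω) ∈ N :=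
        hN c (hLT' (L.algebraMap_mem c))
      have h3 := hs.restrict σ c ⟨(c : Ω), hcN⟩ rfl
      rw [hσ c, ← h3, ← ht']
    have h2 := (hρ σ ⟨(z : Ω), hzN⟩ (hLT' z.2) hz).2.2 (j y) hy
    have h4 : ρ σ (j y) = j y' := by
      apply Subtype.ext
      rw [h2, h1]
      exact hy'.symm
    rw [hx, hx, ← h4]
    refine ⟨hYs σ _, fun h5 => ?_⟩
    have h6 := hYs σ⁻¹ _ h5
    change (ρ σ⁻¹ * ρ σ) (j y) ∈ Y at h6
    rw [← map_mul, inv_mul_cancel, map_one] at h6
    exact h6
  obtain ⟨P, hP, hPf⟩ := hFP p k K Ω F U R L g k₂ h sp x hsp hfix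
  refine ⟨ρ, sp, P, Y, hρ, hsp, hYc, hYs, fun z y hzy => ?_, hPf⟩
  rw [hP, hx]
  have h7 : j z = y := Subtype.ext hzy
  rw [h7]

end Core

end HMain

open HMain EdRho CptT in
/-- H4. The main theorem in terms of the package. -/
theorem stMain (hPC : StPC.{u, u', v'}) (hCpt : StCptT.{u, u', v'}) (hRho : StEdRho.{u, u', v'})
    (hDat : StEdDat.{u, u', v'}) (hE8 : StE8.{u', v', u}) (hFP : StFP.{u, u', v'})
    (hPl : StTwPl.{u, u, u', v', u}) : StMain.{u, u', v'} := by
  intro p _ k K Ω _ _ _ _ _ _ _ _ _ _ F U _ _ _ R L g k₂ h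
  have hΩ : IsAlgClosed Ω := IsAlgClosure.isAlgClosed K
  have hCac : IsAlgClosed (algebraicClosure k Ω) := IsAlgClosure.isAlgClosed k
  have hF := h.fp.closed
  have hU := h.closed
  have hnor : Normal K Ω := IsAlgClosure.normal K Ω
  have hk0 : CharZero k := charZero_of_injective_algebraMap (algebraMap ℚ_[p] k).injective
  have hC0 : CharZero (algebraicClosure k Ω) :=
    charZero_of_injective_algebraMap (algebraMap k (algebraicClosure k Ω)).injective
  obtain ⟨hPC1, hPC2, hPC3⟩ := hPC p k K Ω F U R L g k₂ h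
  constructor
  · intro N s hN hs
    obtain ⟨ρ, sp, P, Y, -, -, -, -, -, hP⟩ :=
      core hCpt hRho hDat hE8 hFP h N s hN.galois hs (hPC1 N hN)
    obtain ⟨A, hA, -⟩ := rat_place L h.const h.eqL h.good.ffC P hP
    exact ⟨A, hA⟩
  · intro s hs
    have hN := hPC1 _ hPC2
    obtain ⟨ρ, sp, P, Y, hρ, hsp, hYc, hYs, hYP, hP⟩ :=
      core hCpt hRho hDat hE8 hFP h (primeTower p k K Ω) s hPC2.galois hs hN
    obtain ⟨A, hA, hPA⟩ := rat_place L h.const h.eqL h.good.ffC P hP
    refine ⟨A, hA, ?_⟩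
    have hLT : L ≤ Tinf (algebraicClosure k Ω) p L := le_sSup Tow.base
    have hcpt := (hCpt p k K Ω F U R L g k₂ h).1
    have hT : ∀ (a : primeTower p k K Ω ≃ₐ[K] primeTower p k K Ω) (z : primeTower p k K Ω),
        (z : Ω) ∈ Tinf (algebraicClosure k Ω) p L →
        ((a z : primeTower p k K Ω) : Ω) ∈ Tinf (algebraicClosure k Ω) p L := by
      intro a z hz
      obtain ⟨t, ht⟩ := EdRho.exists_lift a
      rw [← ht]
      exact (hcpt t z hz).1
    have hC : ∀ (s : Ω ≃ₐ[K] Ω) (c : algebraicClosure k Ω), ∃ c' : algebraicClosure k Ω,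
        (s : Ω ≃+* Ω) (algebraMap (algebraicClosure k Ω) Ω c) =
          algebraMap (algebraicClosure k Ω) Ω c' := by
      intro s c
      have h1 : IsAlgebraic k ((s.restrictScalars k) (c : Ω)) :=
        (isAlgebraic_algHom_iff (s.restrictScalars k : Ω ≃ₐ[k] Ω).toAlgHom
          (s.restrictScalars k).injective).2 (mem_algebraicClosure_iff.1 c.2)
      exact ⟨⟨s (c : Ω), mem_algebraicClosure_iff.2 h1⟩, rfl⟩
    have hL : ∀ (a : primeTower p k K Ω ≃ₐ[K] primeTower p k K Ω) (z : primeTower p k K Ω),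
        (z : Ω) ∈ L → ((a z : primeTower p k K Ω) : Ω) ∈ L := by
      intro a z hz
      obtain ⟨t, ht⟩ := EdRho.exists_lift a
      rw [← ht]
      rw [h.eqL] at hz
      refine map_adjoin (t : Ω ≃+* Ω) (hC t) _ L ?_ z hz
      rintro _ ⟨x, rfl⟩
      change t (algebraMap K Ω x) ∈ L
      rw [t.commutes, h.eqL]
      exact IntermediateField.subset_adjoin _ _ ⟨x, rfl⟩
    obtain ⟨B, hB, hBs⟩ := hPl (algebraicClosure k Ω) Ω F U R p g L sp (AbsGal k Ω)
      (act hN hT s) ρ prPC (prPF h.fp) h.good hsp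
      (fun σ c => ⟨σ c, Subtype.ext
        (hs.restrict σ c ⟨(c : Ω), hN c (hLT (L.algebraMap_mem c))⟩ rfl)⟩)
      (fun σ z hz => hL (s σ) ⟨(z : Ω), hN z z.2⟩ hz)
      (fun σ z y hz => ⟨(hρ σ ⟨(z : Ω), hN z z.2⟩ z.2 hz).2.1,
        fun hy => (hρ σ ⟨(z : Ω), hN z z.2⟩ z.2 hz).2.2 y hy⟩)
      P Y
      (by
        intro σ z z' y hyz hyz'
        obtain ⟨t, ht⟩ := EdRho.exists_lift (s σ)
        refine hP t z z' ?_
        rw [← hyz', ← hyz]
        exact (ht ⟨(y : Ω), hN y y.2⟩).symm)
      hYc hYs hYP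
    let e : primeTower p k K Ω →+* Tinf (algebraicClosure k Ω) p L :=
      { toFun := fun z => ⟨(z : Ω), (hPC3 z).1 z.2⟩
        map_one' := rfl
        map_mul' := fun _ _ => rfl
        map_zero' := rfl
        map_add' := fun _ _ => rfl }
    refine ⟨B.comap e, ?_, ?_⟩
    · ext a
      have hmem : algebraMap K Ω a ∈ L := by
        rw [h.eqL]
        exact IntermediateField.subset_adjoin _ _ ⟨a, rfl⟩
      rw [← hPA a ⟨algebraMap K Ω a, hmem⟩ rfl]
      exact (hB ⟨algebraMap K Ω a, hmem⟩ (e (algebraMap K _ a)) rfl).symm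
    · intro σ z hz
      exact hBs σ (e z) hz

end Pool.Agent.Lib.MP_c385f6_ag.TPG
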