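import Pool.Agent.Lib.MP_c385f6_ag.TPG.FinDefs
import Pool.Agent.Lib.MP_c385f6_ag.TPG.AllA

/-!
Project TPG, module H5 (`StSame`): two rational places and sections of the smallest prime closed
field, in terms of the specialisation map.
-/

set_option autoImplicit false

open Polynomial

namespace Pool.Agent.Lib.MP_c385f6_ag.TPG

universe u v u' v' w

namespace HSameAux

theorem val_lt_iff {L : Type*} [Field L] (A : ValuationSubring L) (x : L) :
    A.valuation x < 1 ↔ x = 0 ∨ x⁻¹ ∉ A := by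
  by_cases hx : x = 0
  · subst hx
    simp
  · have h0 : 0 < A.valuation x := by
      rw [zero_lt_iff]
      exact (Valuation.ne_zero_iff _).2 hx
    rw [← A.valuation_le_one_iff, map_inv₀, not_le, one_lt_inv₀ h0]
    simp [hx]

section Key

variable {k K L : Type*} [Field k] [Field K] [Field L] [Algebra k K] {ι : Type*}

/-- Integral elements are in valuation rings. -/
theorem int_mem (O : ValuationSubring L) (φ : k →+* L) (hφ : ∀ c, φ c ∈ O) (z : L) (q : k[X])
    (hq : q.Monic) (h0 : q.eval₂ φ z = 0) : z ∈ O := by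
  let φ' : k →+* O := φ.codRestrict O.toSubring hφ
  have hint : IsIntegral O z := by
    refine ⟨q.map φ', hq.map _, ?_⟩
    rw [Polynomial.eval₂_map]
    exact h0
  obtain ⟨y, hy⟩ := IsIntegrallyClosed.isIntegral_iff.1 hint
  rw [← hy]
  exact y.2

/-- A valuation ring `O` above a rational place `A`, and a family of elements of `O` such that
linear combinations with coefficients in `k` are units. -/
theorem key {A : ValuationSubring K} (hA : IsRationalPlace k K A) {O : ValuationSubring L}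
    (f : K →+* L) (hf : ∀ a, f a ∈ O ↔ a ∈ A) (b : ι → L) (hb : ∀ j, b j ∈ O) (s : Finset ι)
    (hu : ∀ α : ι → k, (∃ j ∈ s, α j ≠ 0) →
      (∑ j ∈ s, f (algebraMap k K (α j)) * b j) ≠ 0 ∧
        (∑ j ∈ s, f (algebraMap k K (α j)) * b j)⁻¹ ∈ O)
    (a : ι → K) : (∑ j ∈ s, f (a j) * b j) ∈ O ↔ ∀ j ∈ s, a j ∈ A := by
  classical
  have hfm : ∀ x : K, A.valuation x < 1 → O.valuation (f x) < 1 := by
    intro x hx
    rw [val_lt_iff] at hx ⊢
    rcases hx with hx | hx
    · left
      rw [hx, map_zero]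
    · right
      rw [← map_inv₀, hf]
      exact hx
  constructor
  · intro hz
    by_contra hcon
    push Not at hcon
    obtain ⟨j₁, hj₁, hj₁'⟩ := hcon
    obtain ⟨j₀, hj₀, hmax⟩ := Finset.exists_max_image s (fun j => A.valuation (a j)) ⟨j₁, hj₁⟩
    have h0A : a j₀ ∉ A := by
      intro h
      apply hj₁'
      rw [← A.valuation_le_one_iff] at h ⊢
      exact (hmax j₁ hj₁).trans h
    have h0 : a j₀ ≠ 0 := by
      intro h
      apply h0A
      rw [h]
      exact zero_mem A
    have h0v : 0 < A.valuation (a j₀) := zero_lt_iff.2 ((Valuation.ne_zero_iff _).2 h0)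
    have hq : ∀ j ∈ s, a j / a j₀ ∈ A := by
      intro j hj
      rw [← A.valuation_le_one_iff, map_div₀]
      exact (div_le_one₀ h0v).2 (hmax j hj)
    have hch : ∀ j, ∃ c : k, j ∈ s → A.valuation (a j / a j₀ - algebraMap k K c) < 1 := by
      intro j
      by_cases hj : j ∈ s
      · obtain ⟨c, hc⟩ := hA.residue _ (hq j hj)
        exact ⟨c, fun _ => hc⟩
      · exact ⟨0, fun h => absurd h hj⟩
    choose α hα using hch
    have hα0 : α j₀ ≠ 0 := by
      intro h
      have h1 := hα j₀ hj₀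
      rw [h, div_self h0, map_zero, sub_zero, map_one] at h1
      exact lt_irrefl _ h1
    obtain ⟨hβ0, hβ⟩ := hu α ⟨j₀, hj₀, hα0⟩
    have hβO : (∑ j ∈ s, f (algebraMap k K (α j)) * b j) ∈ O :=
      sum_mem fun j _ => mul_mem ((hf _).2 (hA.const_mem _)) (hb j)
    have hβv : O.valuation (∑ j ∈ s, f (algebraMap k K (α j)) * b j) = 1 := by
      apply le_antisymm ((O.valuation_le_one_iff _).2 hβO)
      have h1 := (O.valuation_le_one_iff _).2 hβ
      rw [map_inv₀] at h1
      have h2 : 0 < O.valuation (∑ j ∈ s, f (algebraMap k K (α j)) * b j) :=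
        zero_lt_iff.2 ((Valuation.ne_zero_iff _).2 hβ0)
      exact (inv_le_one₀ h2).1 h1
    have hyβ : O.valuation ((∑ j ∈ s, f (a j / a j₀) * b j) -
        ∑ j ∈ s, f (algebraMap k K (α j)) * b j) < 1 := by
      rw [← Finset.sum_sub_distrib]
      apply Valuation.map_sum_lt _ one_ne_zero
      intro j hj
      rw [← sub_mul, ← map_sub, map_mul]
      exact mul_lt_one_of_lt_of_le (hfm _ (hα j hj)) ((O.valuation_le_one_iff _).2 (hb j))
    have hyv : O.valuation (∑ j ∈ s, f (a j / a j₀) * b j) = 1 := by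
      have h1 : (∑ j ∈ s, f (a j / a j₀) * b j) =
          (∑ j ∈ s, f (algebraMap k K (α j)) * b j) + ((∑ j ∈ s, f (a j / a j₀) * b j) -
            ∑ j ∈ s, f (algebraMap k K (α j)) * b j) := by ring
      rw [h1, Valuation.map_add_eq_of_lt_left]
      · exact hβv
      · rw [hβv]
        exact hyβ
    have hzy : (∑ j ∈ s, f (a j) * b j) = f (a j₀) * ∑ j ∈ s, f (a j / a j₀) * b j := by
      rw [Finset.mul_sum]
      apply Finset.sum_congr rfl
      intro j _
      rw [← mul_assoc, ← map_mul, mul_div_cancel₀ _ h0]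
    rw [← O.valuation_le_one_iff, hzy, map_mul, hyv, mul_one, O.valuation_le_one_iff, hf] at hz
    exact h0A hz
  · intro h
    exact sum_mem fun j hj => mul_mem ((hf _).2 (h j hj)) (hb j)

end Key

section Plc

variable {k : Type*} {K Ω : Type u} [Field k] [Field K] [Field Ω] [Algebra k K] [Algebra k Ω]
  [Algebra K Ω] [IsScalarTower k K Ω] {L : IntermediateField (algebraicClosure k Ω) Ω}

theorem k_mem (hL : L = IntermediateField.adjoin (algebraicClosure k Ω)
    (Set.range (algebraMap K Ω))) (a : K) : algebraMap K Ω a ∈ L := by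
  rw [hL]
  exact IntermediateField.subset_adjoin _ _ ⟨a, rfl⟩

theorem c_mem (c : algebraicClosure k Ω) : (c : Ω) ∈ L := L.algebraMap_mem c

theorem mem_iff (hL : L = IntermediateField.adjoin (algebraicClosure k Ω)
    (Set.range (algebraMap K Ω))) {P : Plc (algebraicClosure k Ω) L} {A : ValuationSubring K}
    (hA : IsRationalPlace k K A)
    (hP : ∀ (z : L) (a : K), (z : Ω) = algebraMap K Ω a → (z ∈ P.ring ↔ a ∈ A))
    {ι : Type*} (b : ι → Ω) (hbC : ∀ j, b j ∈ algebraicClosure k Ω) (hb : LinearIndependent k b)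
    (s : Finset ι) (a : ι → K) (z : L) (hz : (z : Ω) = ∑ j ∈ s, algebraMap K Ω (a j) * b j) :
    z ∈ P.ring ↔ ∀ j ∈ s, a j ∈ A := by
  let f : K →+* L := (algebraMap K Ω).codRestrict L.toSubring (k_mem hL)
  have hfΩ : ∀ x, ((f x : L) : Ω) = algebraMap K Ω x := fun x => rfl
  let b' : ι → L := fun j => algebraMap (algebraicClosure k Ω) L ⟨b j, hbC j⟩
  have hb'Ω : ∀ j, ((b' j : L) : Ω) = b j := fun j => rfl
  have hco : ∀ g : ι → K, ((∑ j ∈ s, f (g j) * b' j : L) : Ω) =
      ∑ j ∈ s, algebraMap K Ω (g j) * b j := by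
    intro g
    rw [AddSubmonoidClass.coe_finset_sum]
    rfl
  have hzz : z = ∑ j ∈ s, f (a j) * b' j := Subtype.ext (by rw [hco, hz])
  rw [hzz]
  refine key hA f (fun x => hP (f x) x (hfΩ x)) b' (fun j => P.const_mem _) s ?_ a
  intro α hα
  have hmem : (∑ j ∈ s, α j • b j) ∈ algebraicClosure k Ω :=
    sum_mem fun j _ => (algebraicClosure k Ω).smul_mem (hbC j)
  have h1 : (∑ j ∈ s, f (algebraMap k K (α j)) * b' j) =
      algebraMap (algebraicClosure k Ω) L ⟨∑ j ∈ s, α j • b j, hmem⟩ := by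
    apply Subtype.ext
    rw [hco]
    show _ = ∑ j ∈ s, α j • b j
    apply Finset.sum_congr rfl
    intro j _
    rw [← IsScalarTower.algebraMap_apply, Algebra.smul_def]
  have h2 : (⟨∑ j ∈ s, α j • b j, hmem⟩ : algebraicClosure k Ω) ≠ 0 := by
    intro h
    have h3 : (∑ j ∈ s, α j • b j) = 0 := congrArg Subtype.val h
    obtain ⟨j, hj, hj'⟩ := hα
    exact hj' (linearIndependent_iff'.1 hb s α h3 j hj)
  rw [h1]
  refine ⟨?_, ?_⟩
  · rw [Ne, map_eq_zero]
    exact h2
  · rw [← map_inv₀]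
    exact P.const_mem _

/-- Elements of `L = K C` as linear combinations. -/
theorem exists_rep [Algebra.IsAlgebraic K Ω]
    (hL : L = IntermediateField.adjoin (algebraicClosure k Ω) (Set.range (algebraMap K Ω))) :
    ∃ (ι : Type u) (b : ι → Ω), (∀ j, b j ∈ algebraicClosure k Ω) ∧ LinearIndependent k b ∧
      ∀ z ∈ L, ∃ (s : Finset ι) (a : ι → K), z = ∑ j ∈ s, algebraMap K Ω (a j) * b j := by
  classical
  let B := Module.Basis.ofVectorSpace k (algebraicClosure k Ω)
  refine ⟨_, fun j => ((B j : algebraicClosure k Ω) : Ω), fun j => (B j).2, ?_, ?_⟩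
  · exact B.linearIndependent.map' (algebraicClosure k Ω).val.toLinearMap
      (LinearMap.ker_eq_bot.2 (algebraicClosure k Ω).val.injective)
  · intro z hz
    have h1 : (IntermediateField.adjoin K ((algebraicClosure k Ω : IntermediateField k Ω) :
        Set Ω)).toSubalgebra = Algebra.adjoin K ((algebraicClosure k Ω : IntermediateField k Ω) :
        Set Ω) :=
      IntermediateField.adjoin_toSubalgebra_of_isAlgebraic fun x _ => Algebra.IsAlgebraic.isAlgebraic x
    have h2 : z ∈ IntermediateField.adjoin K ((algebraicClosure k Ω : IntermediateField k Ω) :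
        Set Ω) := by
      let E : IntermediateField (algebraicClosure k Ω) Ω :=
        { (IntermediateField.adjoin K ((algebraicClosure k Ω : IntermediateField k Ω) :
            Set Ω)).toSubfield with
          algebraMap_mem' := fun c => IntermediateField.subset_adjoin _ _ c.2 }
      have h3 : L ≤ E := by
        rw [hL, IntermediateField.adjoin_le_iff]
        rintro _ ⟨x, rfl⟩
        exact (IntermediateField.adjoin K ((algebraicClosure k Ω : IntermediateField k Ω) :
            Set Ω)).algebraMap_mem x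
      exact h3 hz
    have h3 : z ∈ Submodule.span K ((algebraicClosure k Ω : IntermediateField k Ω) : Set Ω) := by
      have h4 : z ∈ Algebra.adjoin K ((algebraicClosure k Ω : IntermediateField k Ω) :
        Set Ω) := by
        rw [← h1]
        exact h2
      rw [← Subalgebra.mem_toSubmodule, Algebra.adjoin_eq_span] at h4
      have h5 : ((Submonoid.closure ((algebraicClosure k Ω : IntermediateField k Ω) : Set Ω) :
          Submonoid Ω) : Set Ω) = ((algebraicClosure k Ω : IntermediateField k Ω) : Set Ω) :=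
        congrArg (fun S : Submonoid Ω => (S : Set Ω))
          (Submonoid.closure_eq (algebraicClosure k Ω).toSubfield.toSubmonoid)
      rw [h5] at h4
      exact h4
    have h6 : Submodule.span K ((algebraicClosure k Ω : IntermediateField k Ω) : Set Ω) ≤
        Submodule.span K (Set.range fun j => ((B j : algebraicClosure k Ω) : Ω)) := by
      rw [Submodule.span_le]
      intro c hc
      have h8 : (⟨c, hc⟩ : algebraicClosure k Ω) ∈ Submodule.span k (Set.range B) := by
        rw [B.span_eq]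
        trivial
      rw [Finsupp.mem_span_range_iff_exists_finsupp] at h8
      obtain ⟨g, hg⟩ := h8
      have h9 : c = g.sum fun i a => a • ((B i : algebraicClosure k Ω) : Ω) := by
        have h10 := congrArg (algebraicClosure k Ω).val hg
        rw [map_finsuppSum] at h10
        exact h10.symm
      rw [h9]
      refine Submodule.sum_mem _ fun j _ => ?_
      have h11 : g j • ((B j : algebraicClosure k Ω) : Ω) =
          algebraMap k K (g j) • ((B j : algebraicClosure k Ω) : Ω) := by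
        rw [Algebra.smul_def, Algebra.smul_def, ← IsScalarTower.algebraMap_apply]
      show g j • ((B j : algebraicClosure k Ω) : Ω) ∈ _
      rw [h11]
      exact Submodule.smul_mem _ _ (Submodule.subset_span ⟨j, rfl⟩)
    have h7 := h6 h3
    rw [Finsupp.mem_span_range_iff_exists_finsupp] at h7
    obtain ⟨g, hg⟩ := h7
    refine ⟨g.support, g, ?_⟩
    rw [← hg]
    apply Finset.sum_congr rfl
    intro j _
    exact Algebra.smul_def _ _

/-- The place of `L = K C` above a rational place is unique. -/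
theorem plc_unique [Algebra.IsAlgebraic K Ω]
    (hL : L = IntermediateField.adjoin (algebraicClosure k Ω) (Set.range (algebraMap K Ω)))
    {P P' : Plc (algebraicClosure k Ω) L} {A : ValuationSubring K} (hA : IsRationalPlace k K A)
    (hP : ∀ (z : L) (a : K), (z : Ω) = algebraMap K Ω a → (z ∈ P.ring ↔ a ∈ A))
    (hP' : ∀ (z : L) (a : K), (z : Ω) = algebraMap K Ω a → (z ∈ P'.ring ↔ a ∈ A)) :
    P = P' := by
  obtain ⟨ι, b, hbC, hb, hrep⟩ := exists_rep hL
  apply Plc.ext
  ext z
  obtain ⟨s, a, hz⟩ := hrep z z.2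
  rw [mem_iff hL hA hP b hbC hb s a z hz, mem_iff hL hA hP' b hbC hb s a z hz]

theorem map_C (τ : Ω ≃ₐ[K] Ω) {c : Ω} (hc : c ∈ algebraicClosure k Ω) :
    τ c ∈ algebraicClosure k Ω := by
  rw [mem_algebraicClosure_iff] at hc ⊢
  exact hc.algHom (τ.restrictScalars k : Ω ≃ₐ[k] Ω).toAlgHom

/-- `L = K C` is stable under `Gal(Ω / K)`. -/
theorem map_L [Algebra.IsAlgebraic K Ω]
    (hL : L = IntermediateField.adjoin (algebraicClosure k Ω) (Set.range (algebraMap K Ω)))
    (τ : Ω ≃ₐ[K] Ω) {z : Ω} (hz : z ∈ L) : τ z ∈ L := by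
  obtain ⟨ι, b, hbC, -, hrep⟩ := exists_rep hL
  obtain ⟨s, a, rfl⟩ := hrep z hz
  rw [map_sum]
  refine sum_mem fun j _ => ?_
  rw [map_mul, τ.commutes]
  exact mul_mem (k_mem hL _) (c_mem ⟨_, map_C τ (hbC j)⟩)

/-- The place of `L = K C` above a rational place is fixed by `Gal(Ω / K)`. -/
theorem plc_fix [Algebra.IsAlgebraic K Ω]
    (hL : L = IntermediateField.adjoin (algebraicClosure k Ω) (Set.range (algebraMap K Ω)))
    {P : Plc (algebraicClosure k Ω) L} {A : ValuationSubring K} (hA : IsRationalPlace k K A)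
    (hP : ∀ (z : L) (a : K), (z : Ω) = algebraMap K Ω a → (z ∈ P.ring ↔ a ∈ A))
    (τ : Ω ≃ₐ[K] Ω) (z z' : L) (hz : (z' : Ω) = τ z) : z ∈ P.ring ↔ z' ∈ P.ring := by
  obtain ⟨ι, b, hbC, hb, hrep⟩ := exists_rep hL
  obtain ⟨s, a, hz1⟩ := hrep z z.2
  have hb' : LinearIndependent k fun j => τ (b j) :=
    hb.map' (τ.restrictScalars k : Ω ≃ₐ[k] Ω).toLinearMap
      (LinearMap.ker_eq_bot.2 (τ.restrictScalars k : Ω ≃ₐ[k] Ω).injective)
  have hz2 : (z' : Ω) = ∑ j ∈ s, algebraMap K Ω (a j) * τ (b j) := by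
    rw [hz, hz1, map_sum]
    apply Finset.sum_congr rfl
    intro j _
    rw [map_mul, τ.commutes]
  rw [mem_iff hL hA hP b hbC hb s a z hz1,
    mem_iff hL hA hP (fun j => τ (b j)) (fun j => map_C τ (hbC j)) hb' s a z' hz2]

section Sect

variable {N : IntermediateField K Ω} {T : IntermediateField (algebraicClosure k Ω) Ω}

/-- Two intermediate fields with the same elements. -/
def idE (h : ∀ z : Ω, z ∈ N ↔ z ∈ T) : N ≃+* T where
  toFun z := ⟨z, (h z).1 z.2⟩
  invFun z := ⟨z, (h z).2 z.2⟩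
  left_inv _ := rfl
  right_inv _ := rfl
  map_mul' _ _ := rfl
  map_add' _ _ := rfl

/-- The action on `T`. -/
def actT (h : ∀ z : Ω, z ∈ N ↔ z ∈ T) (s : AbsGal k Ω →* (N ≃ₐ[K] N)) :
    AbsGal k Ω →* (T ≃+* T) where
  toFun σ := ((idE h).symm.trans (s σ).toRingEquiv).trans (idE h)
  map_one' := by
    ext z
    rw [map_one]
    rfl
  map_mul' σ τ := by
    ext z
    rw [map_mul]
    rfl

theorem actT_apply (h : ∀ z : Ω, z ∈ N ↔ z ∈ T) (s : AbsGal k Ω →* (N ≃ₐ[K] N)) (σ : AbsGal k Ω)
    (z : T) : ((actT h s σ z : T) : Ω) = ((s σ ⟨z, (h z).2 z.2⟩ : N) : Ω) := rfl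

/-- A valuation ring of `N` above a rational place induces the place of `L`. -/
theorem mem_P [Algebra.IsAlgebraic K Ω]
    (hL : L = IntermediateField.adjoin (algebraicClosure k Ω) (Set.range (algebraMap K Ω)))
    (hLN : ∀ z : Ω, z ∈ L → z ∈ N) {A : ValuationSubring K} (hA : IsRationalPlace k K A)
    {B : ValuationSubring N} (hB : B.comap (algebraMap K N) = A)
    {P : Plc (algebraicClosure k Ω) L}
    (hP : ∀ (z : L) (a : K), (z : Ω) = algebraMap K Ω a → (z ∈ P.ring ↔ a ∈ A))
    (z : L) (y : N) (hzy : (z : Ω) = y) : z ∈ P.ring ↔ y ∈ B := by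
  have hBK : ∀ a : K, algebraMap K N a ∈ B ↔ a ∈ A := by
    intro a
    rw [← hB]
    rfl
  let j : L →+* N := L.toSubfield.subtype.codRestrict N.toSubring fun z => hLN z z.2
  have hj : ∀ z : L, ((j z : N) : Ω) = z := fun z => rfl
  have hC : ∀ c : algebraicClosure k Ω, j (algebraMap (algebraicClosure k Ω) L c) ∈ B := by
    intro c
    have h1 : IsAlgebraic k (c : Ω) := mem_algebraicClosure_iff.1 c.2
    obtain ⟨q, hq, hq0⟩ := h1.isIntegral
    refine int_mem B ((algebraMap K N).comp (algebraMap k K)) (fun x => (hBK _).2 (hA.const_mem x))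
      _ q hq ?_
    apply Subtype.ext
    have h2 : (algebraMap N Ω) (Polynomial.eval₂ ((algebraMap K N).comp (algebraMap k K))
        (j (algebraMap (algebraicClosure k Ω) L c)) q) = 0 := by
      rw [Polynomial.hom_eval₂]
      have h3 : (algebraMap N Ω).comp ((algebraMap K N).comp (algebraMap k K)) =
          algebraMap k Ω := by
        ext x
        exact (IsScalarTower.algebraMap_apply k K Ω x).symm
      rw [h3]
      exact hq0
    exact h2
  let P' : Plc (algebraicClosure k Ω) L :=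
    { ring := B.comap j
      ne_top := by
        intro htop
        apply hA.ne_top
        rw [eq_top_iff]
        intro a _
        have h1 : (⟨algebraMap K Ω a, k_mem hL a⟩ : L) ∈ B.comap j := by
          rw [htop]
          trivial
        rw [← hBK]
        exact h1
      const_mem := hC }
  have hP' : ∀ (z : L) (a : K), (z : Ω) = algebraMap K Ω a → (z ∈ P'.ring ↔ a ∈ A) := by
    intro z a hz
    rw [← hBK]
    have h1 : j z = algebraMap K N a := Subtype.ext hz
    rw [← h1]
    rfl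
  rw [plc_unique hL hA hP hP']
  have h1 : y = j z := Subtype.ext hzy.symm
  rw [h1]
  rfl

end Sect

end Plc

theorem imgT (hCpt : StCptT.{u, u', v'}) (p : ℕ) [Fact p.Prime] (k : Type) (K Ω : Type u)
    [Field k] [Field K] [Field Ω] [Algebra ℚ_[p] k] [FiniteDimensional ℚ_[p] k] [Algebra k K]
    [Algebra k Ω] [Algebra K Ω] [IsScalarTower k K Ω] [IsAlgClosure K Ω] (F : Type u')
    (U : Type v') [Field F] [Field U] [Algebra F U] (R : Red (algebraicClosure k Ω) Ω F U)
    (L : IntermediateField (algebraicClosure k Ω) Ω) (g : ℕ)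
    (k₂ : IntermediateField k (algebraicClosure k Ω)) (h : Pk p K R L g k₂)
    [IsAlgClosed Ω] [IsAlgClosed (algebraicClosure k Ω)] [IsAlgClosed F]
    (hC : PrP p (algebraicClosure k Ω)) (hF : PrP p F) :
    R.img (Tinf (algebraicClosure k Ω) p L) = Tinf F p (R.img L) := by
  refine All.twImg (algebraicClosure k Ω) Ω F U R p g L hC hF h.good ?_
  intro M n y hM ⟨g', hg'⟩ hn hy
  obtain ⟨Γ, hΓ⟩ := (hCpt p k K Ω F U R L g k₂ h).2 M hM
  exact All.surG (algebraicClosure k Ω) M F (R.img M) (R.sub M) g' Γ hg' hΓ n y (hF n hn) hy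

end HSameAux

open HSameAux in
/-- Module H5. -/
theorem stSame (hTwSp : StTwSp.{u, u, u', v', u}) (hE9 : StE9.{u', v', u})
    (hTwPl : StTwPl.{u, u, u', v', u}) (hEdRho : StEdRho.{u, u', v'})
    (hEdDat : StEdDat.{u, u', v'}) (hPC : StPC.{u, u', v'}) (hCpt : StCptT.{u, u', v'}) :
    StSame.{u, u', v'} := by
  intro p _ k K Ω _ _ _ _ _ _ _ _ _ _ F U _ _ _ R L g k₂ hPk sp hsp s A B P Q hs hA hB hPA hQB
    hsA
  have hΩ : IsAlgClosed Ω := IsAlgClosure.isAlgClosed K
  have halg : Algebra.IsAlgebraic K Ω := IsAlgClosure.isAlgebraic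
  have : CharZero k := charZero_of_injective_algebraMap (algebraMap ℚ_[p] k).injective
  have : CharZero K := charZero_of_injective_algebraMap (algebraMap k K).injective
  have : CharZero (algebraicClosure k Ω) :=
    charZero_of_injective_algebraMap (algebraMap k (algebraicClosure k Ω)).injective
  have hN : Normal K Ω := IsAlgClosure.normal K Ω
  have hacC : IsAlgClosed (algebraicClosure k Ω) := IsAlgClosure.isAlgClosed k
  have hacF : IsAlgClosed F := hPk.fp.closed
  have hacU : IsAlgClosed U := hPk.closed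
  have hpC : PrP p (algebraicClosure k Ω) := by
    intro n hn
    rw [Nat.cast_ne_zero]
    rintro rfl
    exact hn (dvd_zero p)
  have hpF : PrP p F := by
    intro n hn h0
    haveI := hPk.fp.char
    exact hn ((CharP.cast_eq_zero_iff F p n).1 h0)
  have hL := hPk.eqL
  obtain ⟨-, hpc, hmem⟩ := hPC p k K Ω F U R L g k₂ hPk
  have himg := imgT hCpt p k K Ω F U R L g k₂ hPk hpC hpF
  haveI : IsGalois K (primeTower p k K Ω) := hpc.galois
  haveI : Normal K (primeTower p k K Ω) := inferInstance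
  have hLT : ∀ z : Ω, z ∈ L → z ∈ Tinf (algebraicClosure k Ω) p L := fun z hz =>
    le_sSup (a := L) (s := {M | Tow (algebraicClosure k Ω) p L M}) Tow.base hz
  have hLN : ∀ z : Ω, z ∈ L → z ∈ primeTower p k K Ω := fun z hz => (hmem z).2 (hLT z hz)
  obtain ⟨ρ, hρ⟩ := hEdRho p k K Ω F U R L g k₂ hPk himg (primeTower p k K Ω) s hpc.galois hs
    (fun z hz => (hmem z).2 hz)
  obtain ⟨I, W, φ, hdat⟩ := hEdDat p k K Ω F U R L g k₂ hPk himg (primeTower p k K Ω) s
    hpc.galois hs (fun z hz => (hmem z).2 hz) ρ hρ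
  have hnr : ¬ IsRat F (R.img L) := by
    intro hr
    have h0 := (All.rat F (R.img L) hPk.good.ffF).1.1 hr
    obtain ⟨g₀, -, hg₀⟩ := All.riem F (R.img L) hPk.good.ffF
    have h1 : g = g₀ := hg₀ g hPk.good.genF
    have h2 : 0 = g₀ := hg₀ 0 h0
    have h3 := hPk.pos
    omega
  -- the action
  let a := actT hmem s
  have ha : ∀ (σ : AbsGal k Ω) (z : Tinf (algebraicClosure k Ω) p L),
      ((a σ z : Tinf (algebraicClosure k Ω) p L) : Ω) =
        ((s σ ⟨z, (hmem z).2 z.2⟩ : primeTower p k K Ω) : Ω) := fun σ z => actT_apply hmem s σ z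
  have hlift : ∀ (σ : AbsGal k Ω) (z : primeTower p k K Ω),
      (s σ).liftNormal Ω (z : Ω) = ((s σ z : primeTower p k K Ω) : Ω) := by
    intro σ z
    exact (s σ).liftNormal_commutes Ω z
  have hcst : ∀ (σ : AbsGal k Ω) (c : algebraicClosure k Ω), ∃ c' : algebraicClosure k Ω,
      a σ (algebraMap (algebraicClosure k Ω) _ c) = algebraMap (algebraicClosure k Ω) _ c' := by
    intro σ c
    refine ⟨σ c, Subtype.ext ?_⟩
    rw [ha]
    exact hs.restrict σ c _ rfl
  have hstab : ∀ (σ : AbsGal k Ω) (z : Tinf (algebraicClosure k Ω) p L), (z : Ω) ∈ L →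
      ((a σ z : Tinf (algebraicClosure k Ω) p L) : Ω) ∈ L := by
    intro σ z hz
    rw [ha, ← hlift]
    exact map_L hL _ hz
  have hcmp : ∀ (σ : AbsGal k Ω) (z : Tinf (algebraicClosure k Ω) p L)
      (y : Tinf F p (R.img L)), (z : Ω) ∈ R.w →
        ((a σ z : Tinf (algebraicClosure k Ω) p L) : Ω) ∈ R.w ∧
        ((y : U) = R.res z → ((ρ σ y : Tinf F p (R.img L)) : U) =
          R.res (a σ z : Tinf (algebraicClosure k Ω) p L)) := by
    intro σ z y hz
    obtain ⟨-, h2, h3⟩ := hρ σ ⟨z, (hmem z).2 z.2⟩ z.2 hz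
    exact ⟨h2, fun h => h3 y h⟩
  -- the specialisation of a stable valuation ring
  have hspec : ∀ (A : ValuationSubring K) (P : Plc (algebraicClosure k Ω) L),
      IsRationalPlace k K A →
      (∀ (z : L) (a : K), (z : Ω) = algebraMap K Ω a → (z ∈ P.ring ↔ a ∈ A)) →
      Semi.SecAt s A →
      ∃ Y : ValuationSubring (Tinf F p (R.img L)), (∀ c : F, algebraMap F _ c ∈ Y) ∧
        (∀ (σ : AbsGal k Ω) (z : Tinf F p (R.img L)), z ∈ Y → ρ σ z ∈ Y) ∧
        ∀ (z : R.img L) (y : Tinf F p (R.img L)), (z : U) = y → (z ∈ (sp P).ring ↔ y ∈ Y) := by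
    rintro A P hA hPA ⟨V, hVA, hVs⟩
    have hVP : ∀ (z : L) (y : Tinf (algebraicClosure k Ω) p L), (z : Ω) = y →
        (z ∈ P.ring ↔ y ∈ V.comap ((idE hmem).symm : _ →+* primeTower p k K Ω)) :=
      fun z y hzy => mem_P hL hLN hA hVA hPA z ⟨y, (hmem y).2 y.2⟩ hzy
    refine hTwSp (algebraicClosure k Ω) Ω F U R p g L sp (AbsGal k Ω) a ρ hpC hpF hPk.good hsp
      himg hcst hstab hcmp P (V.comap ((idE hmem).symm : _ →+* primeTower p k K Ω)) ?_ ?_ hVP
    · intro c
      rw [← hVP (algebraMap (algebraicClosure k Ω) L c) _ rfl]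
      exact P.const_mem c
    · intro σ z hz
      exact hVs σ _ hz
  constructor
  · intro hsB
    obtain ⟨Y, hYF, hYs, hYP⟩ := hspec A P hA hPA hsA
    obtain ⟨Y', hYF', hYs', hYQ⟩ := hspec B Q hB hQB hsB
    have hΛT : ∀ z : R.img L, (z : U) ∈ Tinf F p (R.img L) := fun z =>
      le_sSup (a := R.img L) (s := {M | Tow F p (R.img L) M}) Tow.base z.2
    have hne : ∀ (P : Plc (algebraicClosure k Ω) L) (Y : ValuationSubring (Tinf F p (R.img L))),
        (∀ (z : R.img L) (y : Tinf F p (R.img L)), (z : U) = y → (z ∈ (sp P).ring ↔ y ∈ Y)) →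
        ∃ z : Tinf F p (R.img L), (z : U) ∈ R.img L ∧ z ∉ Y := by
      intro P Y hY
      by_contra hcon
      push Not at hcon
      apply (sp P).ne_top
      rw [eq_top_iff]
      intro z _
      rw [hY z ⟨z, hΛT z⟩ rfl]
      exact hcon _ z.2
    have h := hE9 F U p (R.img L) (AbsGal k Ω) ρ I W φ hPk.fp hPk.good.ffF hnr hdat Y Y' hYF
      (hne P Y hYP) hYs hYF' (hne Q Y' hYQ) hYs'
    apply Plc.ext
    ext z
    rw [hYP z ⟨z, hΛT z⟩ rfl, hYQ z ⟨z, hΛT z⟩ rfl]
    exact h _ z.2
  · intro hPQ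
    obtain ⟨Y, hYF, hYs, hYP⟩ := hspec A P hA hPA hsA
    rw [hPQ] at hYP
    obtain ⟨V, hVQ, hVs⟩ := hTwPl (algebraicClosure k Ω) Ω F U R p g L sp (AbsGal k Ω) a ρ hpC hpF
      hPk.good hsp hcst hstab hcmp Q Y (by
        intro σ z z' y hy hz'
        refine plc_fix hL hB hQB ((s σ).liftNormal Ω) z z' ?_
        rw [← hz', ha, ← hlift]
        show (s σ).liftNormal Ω (y : Ω) = _
        rw [hy]) hYF hYs hYP
    refine ⟨V.comap ((idE hmem : primeTower p k K Ω ≃+* _) : primeTower p k K Ω →+* _), ?_, ?_⟩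
    · ext b
      have h1 := hVQ ⟨algebraMap K Ω b, k_mem hL b⟩
        ⟨algebraMap K Ω b, hLT _ (k_mem hL b)⟩ rfl
      have h2 := hQB ⟨algebraMap K Ω b, k_mem hL b⟩ b rfl
      exact h1.symm.trans h2
    · intro σ z hz
      exact hVs σ _ hz

end Pool.Agent.Lib.MP_c385f6_ag.TPG
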