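import Pool.Agent.Lib.MP_c385f6_ag.TPG.AllG
import Pool.Agent.Lib.MP_c385f6_ag.TPG.HSame
import Pool.Agent.Lib.MP_c385f6_ag.TPG.HMain

/-!
Project TPG, H3: a fixed place of the residue field of `L` is the specialisation of a fixed place
of `L`.
-/

set_option autoImplicit false

open Polynomial

namespace Pool.Agent.Lib.MP_c385f6_ag.TPG

universe u u' v'

namespace HFP

section act

variable {k : Type} {K Ω : Type u} [Field k] [CharZero k] [Field K] [Field Ω] [Algebra k K]
  [Algebra k Ω] [Algebra K Ω] [IsScalarTower k K Ω] [IsAlgClosure K Ω]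
  {L : IntermediateField (algebraicClosure k Ω) Ω}

/-- the action of `Gal(Ω / K)` on `L = K C` -/
def aL (hst : ∀ (s : Ω ≃ₐ[K] Ω), ∀ z ∈ L, s z ∈ L) : (Ω ≃ₐ[K] Ω) →* (L ≃+* L) where
  toFun s :=
    { toFun := fun z => ⟨s z, hst s z z.2⟩
      invFun := fun z => ⟨s⁻¹ z, hst s⁻¹ z z.2⟩
      left_inv := fun z => Subtype.ext (s.symm_apply_apply z)
      right_inv := fun z => Subtype.ext (s.apply_symm_apply z)
      map_mul' := fun _ _ => Subtype.ext (map_mul s _ _)
      map_add' := fun _ _ => Subtype.ext (map_add s _ _) }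
  map_one' := rfl
  map_mul' _ _ := rfl

omit [CharZero k] [Algebra k K] [IsScalarTower k K Ω] [IsAlgClosure K Ω] in
theorem aL_apply (hst : ∀ (s : Ω ≃ₐ[K] Ω), ∀ z ∈ L, s z ∈ L) (s : Ω ≃ₐ[K] Ω) (z : L) :
    ((aL hst s z : L) : Ω) = s z := rfl

variable {F : Type u'} {U : Type v'} [Field F] [Field U] [Algebra F U]
  (R : Red (algebraicClosure k Ω) Ω F U)

open DTwActAux in
/-- the action of `Gal(Ω / K)` on the residue field of `L` -/
noncomputable def aR (hst : ∀ (s : Ω ≃ₐ[K] Ω), ∀ z ∈ L, s z ∈ L)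
    (hw : ∀ (s : Ω ≃ₐ[K] Ω) (z : L), ((aL hst s z : L) : Ω) ∈ R.w ↔ (z : Ω) ∈ R.w) :
    (Ω ≃ₐ[K] Ω) →* (R.img L ≃+* R.img L) where
  toFun s :=
    { toFun := act R L (R.img L) rfl (aL hst s)
      invFun := act R L (R.img L) rfl (aL hst s⁻¹)
      left_inv := fun y => by
        rw [← act_comp R _ _ rfl (aL hst s⁻¹) (hw s⁻¹) (aL hst s) (hw s), ← map_mul,
          inv_mul_cancel, map_one, act_one]
      right_inv := fun y => by
        rw [← act_comp R _ _ rfl (aL hst s) (hw s) (aL hst s⁻¹) (hw s⁻¹), ← map_mul,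
          mul_inv_cancel, map_one, act_one]
      map_mul' := act_mul R _ _ rfl (aL hst s) (hw s)
      map_add' := act_add R _ _ rfl (aL hst s) (hw s) }
  map_one' := by
    ext y
    change ((act R L (R.img L) rfl (aL hst 1) y : R.img L) : U) = y
    rw [map_one, act_one]
  map_mul' s t := by
    ext y
    change ((act R L (R.img L) rfl (aL hst (s * t)) y : R.img L) : U) =
      (act R L (R.img L) rfl (aL hst s) (act R L (R.img L) rfl (aL hst t) y) : R.img L)
    rw [map_mul, act_comp R _ _ rfl (aL hst s) (hw s) (aL hst t) (hw t)]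

open DTwActAux in
omit [CharZero k] [Algebra k K] [IsScalarTower k K Ω] [IsAlgClosure K Ω] in
theorem aR_apply (hst : ∀ (s : Ω ≃ₐ[K] Ω), ∀ z ∈ L, s z ∈ L)
    (hw : ∀ (s : Ω ≃ₐ[K] Ω) (z : L), ((aL hst s z : L) : Ω) ∈ R.w ↔ (z : Ω) ∈ R.w)
    (s : Ω ≃ₐ[K] Ω) (z : L) (hz : (z : Ω) ∈ R.w) (y : R.img L) (hy : (y : U) = R.res z) :
    ((aR R hst hw s y : R.img L) : U) = R.res (s z) :=
  act_eq R L (R.img L) rfl (aL hst s) (hw s) z hz y hy

open DTwActAux in
/-- the actions are compatible -/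
theorem ract (hst : ∀ (s : Ω ≃ₐ[K] Ω), ∀ z ∈ L, s z ∈ L)
    (hw : ∀ (s : Ω ≃ₐ[K] Ω) (z : L), ((aL hst s z : L) : Ω) ∈ R.w ↔ (z : Ω) ∈ R.w) :
    RAct (R.sub L) (aL hst) (aR R hst hw) where
  cst s c := ⟨⟨s c, HSameAux.map_C s c.2⟩, rfl⟩
  res s z := by
    by_cases hz : (z : Ω) ∈ R.w
    · exact Subtype.ext (aR_apply R hst hw s z hz _ rfl).symm
    · have h1 : (R.sub L).res z = 0 := Subtype.ext (R.res_out _ hz)
      have h2 : (R.sub L).res (aL hst s z) = 0 := by
        refine Subtype.ext (R.res_out _ ?_)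
        rw [hw]
        exact hz
      rw [h1, h2, map_zero]

end act

section val

variable {C : Type u} {Ω : Type u} [Field C] [Field Ω] [Algebra C Ω]
  {F : Type u'} {U : Type v'} [Field F] [Field U] [Algebra F U] (R : Red C Ω F U)

theorem v_le {c : C} : R.v c ≤ 1 ↔ algebraMap C Ω c ∈ R.w := R.w.valuation_le_one_iff _

theorem v_lt {c : C} (hc : algebraMap C Ω c ∈ R.w) :
    R.v c < 1 ↔ R.res (algebraMap C Ω c) = 0 := (R.res_lt _ hc).symm

theorem v_sub_lt {a b : C} (ha : algebraMap C Ω a ∈ R.w) (hb : algebraMap C Ω b ∈ R.w) :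
    R.v (a - b) < 1 ↔ R.res (algebraMap C Ω a) = R.res (algebraMap C Ω b) := by
  have h : algebraMap C Ω (a - b) ∈ R.w := by
    rw [map_sub]
    exact sub_mem ha hb
  rw [v_lt R h, map_sub, R.res_sub ha hb, sub_eq_zero]

end val

/-- roots of unity of a common order -/
theorem exists_n {C : Type u} [Field C] {p : ℕ} (hp : p.Prime) (T : Finset C)
    (hT : ∀ c ∈ T, ∃ n : ℕ, ¬ p ∣ n ∧ c ^ n = 1) : ∃ n : ℕ, ¬ p ∣ n ∧ ∀ c ∈ T, c ^ n = 1 := by
  classical
  induction T using Finset.induction_on with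
  | empty => exact ⟨1, fun h => hp.one_lt.ne' (Nat.dvd_one.1 h), fun _ h => by simp at h⟩
  | insert a T _ ih =>
    obtain ⟨n, hn, hT'⟩ := ih fun c hc => hT c (Finset.mem_insert_of_mem hc)
    obtain ⟨m, hm, ha⟩ := hT a (Finset.mem_insert_self _ _)
    refine ⟨n * m, fun h => ?_, ?_⟩
    · rcases hp.dvd_mul.1 h with h | h
      exacts [hn h, hm h]
    · intro c hc
      rcases Finset.mem_insert.1 hc with rfl | hc
      · rw [mul_comm, pow_mul, ha, one_pow]
      · rw [pow_mul, hT' c hc, one_pow]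

end HFP

open HFP in
/-- H3. -/
theorem stFP : StFP.{u, u', v'} := by
  intro p _ k K Ω _ _ _ _ _ _ _ _ _ _ F U _ _ _ R L g k₂ H sp x hsp hx
  classical
  have hp : p.Prime := Fact.out
  have hk0 : CharZero k := charZero_of_injective_algebraMap (algebraMap ℚ_[p] k).injective
  have hK0 : CharZero K := charZero_of_injective_algebraMap (algebraMap k K).injective
  have hΩ : IsAlgClosed Ω := IsAlgClosure.isAlgClosed K
  have halg : Algebra.IsAlgebraic K Ω := IsAlgClosure.isAlgebraic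
  have hC : IsAlgClosed (algebraicClosure k Ω) := IsAlgClosure.isAlgClosed k
  have hnC : Normal k (algebraicClosure k Ω) := IsAlgClosure.normal k _
  have hFc : IsAlgClosed F := H.fp.closed
  have hFp : CharP F p := H.fp.char
  have hst : ∀ (s : Ω ≃ₐ[K] Ω), ∀ z ∈ L, s z ∈ L := fun s z hz => HSameAux.map_L H.eqL s hz
  have hw : ∀ (s : Ω ≃ₐ[K] Ω) (z : L), ((aL hst s z : L) : Ω) ∈ R.w ↔ (z : Ω) ∈ R.w := by
    intro s z
    refine ⟨fun h => ?_, fun h => H.stab s z z.2 h⟩
    have h1 := H.stab s⁻¹ _ (aL hst s z).2 h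
    have h2 : s⁻¹ ((aL hst s z : L) : Ω) = z := s.symm_apply_apply _
    rwa [h2] at h1
  have hRA := ract R hst hw
  have hfixx : ∀ s : Ω ≃ₐ[K] Ω, Mv (aR R hst hw s) x x := by
    intro s y
    obtain ⟨z, hz, hzw, hzr⟩ := y.2
    exact hx s ⟨z, hz⟩ y (aR R hst hw s y) hzw hzr.symm
      (aR_apply R hst hw s ⟨z, hz⟩ hzw y hzr.symm)
  have hC_mem : ∀ (s : Ω ≃ₐ[K] Ω) (c : algebraicClosure k Ω), ((c : Ω) ∈ R.w ↔ s (c : Ω) ∈ R.w) := by
    intro s c
    exact (hw s ⟨(c : Ω), L.algebraMap_mem c⟩).symm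
  -- the level `k₃`
  obtain ⟨u, T, hcrd, hT, hfix⟩ := H.crd sp x hsp
  obtain ⟨n, hn, hTn⟩ := exists_n hp T hT
  have hn0 : n ≠ 0 := fun h => hn (h ▸ dvd_zero p)
  set f : k[X] := X ^ n - 1 with hf
  have hfne : f ≠ 0 := (monic_X_pow_sub_C (1 : k) hn0).ne_zero
  let M : IntermediateField k (algebraicClosure k Ω) :=
    IntermediateField.adjoin k (f.rootSet (algebraicClosure k Ω))
  have hM1 : ∀ c : algebraicClosure k Ω, c ^ n = 1 → c ∈ M := by
    intro c hc
    refine IntermediateField.subset_adjoin _ _ ?_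
    rw [mem_rootSet]
    refine ⟨hfne, ?_⟩
    rw [hf, map_sub, map_pow, aeval_X, map_one, hc, sub_self]
  have hsplit : IsSplittingField k M f :=
    IntermediateField.adjoin_rootSet_isSplittingField (IsAlgClosed.splits _)
  have hMn : Normal k M := Normal.of_isSplittingField f
  have hMf : FiniteDimensional k M := IsSplittingField.finiteDimensional M f
  have h2f : FiniteDimensional k k₂ := H.fin
  have h2n : Normal k k₂ := H.nrm
  let k₃ : IntermediateField k (algebraicClosure k Ω) := k₂ ⊔ M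
  have h3f : FiniteDimensional k k₃ := IntermediateField.finiteDimensional_sup k₂ M
  have h3n : Normal k k₃ := inferInstanceAs (Normal k (k₂ ⊔ M : IntermediateField k _))
  have h23 : k₂ ≤ k₃ := le_sup_left
  have hM3 : M ≤ k₃ := le_sup_right
  -- constants
  let rC : (Ω ≃ₐ[K] Ω) →* AbsGal k Ω := resConst k K Ω
  have hrC : ∀ (s : Ω ≃ₐ[K] Ω) (c : algebraicClosure k Ω),
      ((rC s c : algebraicClosure k Ω) : Ω) = s c := fun s c => resConst_apply s c
  have hst3 : ∀ (σ : AbsGal k Ω) (c : algebraicClosure k Ω), c ∈ k₃ → σ c ∈ k₃ := by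
    intro σ c hc
    exact (IntermediateField.normal_iff_forall_map_le'.1 h3n) σ ⟨c, hc, rfl⟩
  let ρ : (Ω ≃ₐ[K] Ω) →* (k₃ ≃ₐ[k] k₃) := (AlgEquiv.restrictNormalHom k₃).comp rC
  let N : Subgroup (Ω ≃ₐ[K] Ω) := ρ.ker
  have hN : ∀ s : Ω ≃ₐ[K] Ω, s ∈ N ↔ ∀ c ∈ k₃, rC s c = c := by
    intro s
    rw [MonoidHom.mem_ker]
    constructor
    · intro h c hc
      have h1 := AlgEquiv.restrictNormal_commutes (rC s) k₃ ⟨c, hc⟩
      have h2 : (rC s).restrictNormal k₃ = 1 := h
      rw [h2] at h1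
      exact h1.symm
    · intro h
      apply AlgEquiv.ext
      intro c
      apply Subtype.ext
      have h1 := AlgEquiv.restrictNormal_commutes (rC s) k₃ c
      exact h1.trans (h c c.2)
  let I : Subgroup (Ω ≃ₐ[K] Ω) :=
    { carrier := {s | ∀ c ∈ k₃, ((c : algebraicClosure k Ω) : Ω) ∈ R.w →
        R.res (s (c : Ω)) = R.res (c : Ω)}
      one_mem' := fun c _ _ => rfl
      mul_mem' := by
        intro s t hs ht c hc hcw
        have h1 : (rC t c) ∈ k₃ := hst3 _ _ hc
        have h2 : ((rC t c : algebraicClosure k Ω) : Ω) ∈ R.w := by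
          rw [hrC]
          exact (hC_mem t c).1 hcw
        have h3 := hs (rC t c) h1 h2
        rw [hrC] at h3
        exact h3.trans (ht c hc hcw)
      inv_mem' := by
        intro s hs c hc hcw
        have h1 : (rC s⁻¹ c) ∈ k₃ := hst3 _ _ hc
        have h2 : ((rC s⁻¹ c : algebraicClosure k Ω) : Ω) ∈ R.w := by
          rw [hrC]
          exact (hC_mem s⁻¹ c).1 hcw
        have h3 := hs (rC s⁻¹ c) h1 h2
        rw [hrC] at h3
        have h4 : s (s⁻¹ (c : Ω)) = c := s.apply_symm_apply _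
        rw [h4] at h3
        exact h3.symm }
  have hI : ∀ s : Ω ≃ₐ[K] Ω, s ∈ I ↔ ∀ c ∈ k₃, ((c : algebraicClosure k Ω) : Ω) ∈ R.w →
      R.res (s (c : Ω)) = R.res (c : Ω) := fun s => Iff.rfl
  have hNI : N ≤ I := by
    intro s hs c hc _
    rw [← hrC, (hN s).1 hs c hc]
  -- inertia
  have hlift : ∀ s ∈ I, ∃ m ∈ N, IsIn R.v ((rC (s * m) : AbsGal k Ω) :
      algebraicClosure k Ω ≃+* algebraicClosure k Ω) := by
    intro s hs
    obtain ⟨nC, hn1, hn2⟩ := AllG.inL p k (algebraicClosure k Ω) _ R.v H.val k₃ h3f (rC s) (by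
      intro c hc hvc
      have hcw : (c : Ω) ∈ R.w := (v_le R).1 hvc
      refine (v_sub_lt R (a := rC s c) (b := c) ?_ hcw).2 ?_
      · change ((rC s c : algebraicClosure k Ω) : Ω) ∈ R.w
        rw [hrC]
        exact (hC_mem s c).1 hcw
      · change R.res ((rC s c : algebraicClosure k Ω) : Ω) = R.res (c : Ω)
        rw [hrC]
        exact hs c hc hcw)
    obtain ⟨m, hm⟩ := (AllG.ext k K Ω H.const).1 nC
    have hrm : rC m = nC := by
      apply AlgEquiv.ext
      intro c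
      apply Subtype.ext
      rw [hrC, hm]
    refine ⟨m, (hN m).2 fun c hc => by rw [hrm, hn1 c hc], ?_⟩
    rw [map_mul, hrm]
    exact hn2
  have hin : ∀ σ : AbsGal k Ω, IsIn R.v ((σ : AbsGal k Ω) :
      algebraicClosure k Ω ≃+* algebraicClosure k Ω) → ∀ c : algebraicClosure k Ω,
      (c : Ω) ∈ R.w → (σ c : Ω) ∈ R.w → R.res (σ c : Ω) = R.res (c : Ω) := by
    intro σ hσ c hc hc'
    exact (v_sub_lt R (a := σ c) (b := c) hc' hc).1 (hσ c ((v_le R).2 hc))
  -- tameness of `k₃`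
  have htame3 : ∀ σ : AbsGal k Ω, IsIn R.v ((σ : AbsGal k Ω) :
      algebraicClosure k Ω ≃+* algebraicClosure k Ω) →
      ∃ e : ℕ, ¬ p ∣ e ∧ ∀ c ∈ k₃, (σ ^ e) c = c := by
    intro σ hσ
    obtain ⟨s, hs⟩ := (AllG.ext k K Ω H.const).1 σ
    have hO : InO R s := by
      intro c hc
      rw [hs]
      refine hin σ hσ c hc ?_
      rw [← hs]
      exact (hC_mem s c).1 hc
    obtain ⟨e, he, hec⟩ := H.tame s hO
    have hpow : ∀ (j : ℕ) (c : algebraicClosure k Ω), (s ^ j) (c : Ω) = ((σ ^ j) c : Ω) := by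
      intro j
      induction j with
      | zero => intro c; rfl
      | succ j ih =>
        intro c
        rw [pow_succ', pow_succ', AlgEquiv.mul_apply, AlgEquiv.mul_apply, ih, hs]
    have hroot : ∀ c : algebraicClosure k Ω, c ^ n = 1 → ∀ j : ℕ, (σ ^ j) c = c := by
      intro c hc j
      have h1 := (AllG.teich p k (algebraicClosure k Ω) _ R.v H.val).2 σ hσ c n hn hc
      induction j with
      | zero => rfl
      | succ j ih => rw [pow_succ, AlgEquiv.mul_apply, h1, ih]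
    refine ⟨e, he, ?_⟩
    let E : IntermediateField k (algebraicClosure k Ω) :=
      IntermediateField.fixedField (Subgroup.zpowers (σ ^ e))
    have hE : ∀ c : algebraicClosure k Ω, (σ ^ e) c = c → c ∈ E := by
      intro c hc
      rw [IntermediateField.mem_fixedField_iff]
      intro τ hτ
      have h1 : Subgroup.zpowers (σ ^ e) ≤ MulAction.stabilizer (AbsGal k Ω) c := by
        rw [Subgroup.zpowers_le]
        exact hc
      exact h1 hτ
    have hE' : ∀ c ∈ E, (σ ^ e) c = c := fun c hc =>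
      (IntermediateField.mem_fixedField_iff _ _).1 hc _ (Subgroup.mem_zpowers _)
    have hle : k₃ ≤ E := by
      refine sup_le (fun c hc => hE c ?_) ?_
      · apply Subtype.ext
        rw [← hpow]
        exact hec c hc
      · rw [IntermediateField.adjoin_le_iff]
        intro c hc
        refine hE c (hroot c ?_ e)
        have h1 := (mem_rootSet.1 hc).2
        rw [hf, map_sub, map_pow, aeval_X, map_one, sub_eq_zero] at h1
        exact h1
    exact fun c hc => hE' c (hle hc)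
  obtain ⟨-, -, π, hπ3, hπ0, hπ1, -, hπ⟩ :=
    AllG.tameK p k (algebraicClosure k Ω) _ R.v H.val k₃ h3f h3n htame3
  have hinv := (AllG.vInv p k (algebraicClosure k Ω) _ R.v H.val).1
  have hπΩ : (π : Ω) ≠ 0 := fun h => hπ0 (Subtype.ext h)
  -- the quotients `s π / π`
  have hqw : ∀ s : Ω ≃ₐ[K] Ω, R.res (s (π : Ω) / (π : Ω)) ≠ 0 := by
    intro s
    rw [R.res_ne_iff]
    have h1 := hinv (rC s) π
    change R.w.valuation ((rC s π : algebraicClosure k Ω) : Ω) = R.w.valuation (π : Ω) at h1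
    rw [hrC] at h1
    rw [map_div₀, h1]
    exact div_self ((Valuation.ne_zero_iff _).2 hπΩ)
  have hsN : ∀ s ∈ I, R.res (s (π : Ω) / (π : Ω)) = 1 → s ∈ N := by
    intro s hs h1
    obtain ⟨m, hm, hin'⟩ := hlift s hs
    have hmπ : rC m π = π := (hN m).1 hm π hπ3
    have h2 : (rC (s * m)) π = rC s π := by
      rw [map_mul, AlgEquiv.mul_apply, hmπ]
    have h3 := hπ (rC (s * m)) hin' (by
      rw [h2]
      refine (v_sub_lt R (a := rC s π / π) (b := 1) ?_ ?_).2 ?_
      · change ((rC s π : algebraicClosure k Ω) : Ω) / (π : Ω) ∈ R.w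
        rw [hrC]
        exact Red.mem_of_res_ne (hqw s)
      · rw [map_one]
        exact one_mem _
      · rw [map_one, R.res_one]
        change R.res (((rC s π : algebraicClosure k Ω) : Ω) / (π : Ω)) = 1
        rw [hrC]
        exact h1)
    rw [hN]
    intro c hc
    have h4 := h3 c hc
    rw [map_mul, AlgEquiv.mul_apply, (hN m).1 hm c hc] at h4
    exact h4
  have hfinN : N.FiniteIndex := Subgroup.finiteIndex_ker ρ
  -- the index of `N` in `I` is prime to `p`
  have hmulq : ∀ s ∈ I, ∀ t : Ω ≃ₐ[K] Ω, R.res ((s * t) (π : Ω) / (π : Ω)) =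
      R.res (t (π : Ω) / (π : Ω)) * R.res (s (π : Ω) / (π : Ω)) := by
    intro s hs t
    have h1 : (rC t π / π) ∈ k₃ := k₃.div_mem (hst3 _ _ hπ3) hπ3
    have h2 : ((rC t π / π : algebraicClosure k Ω) : Ω) = t (π : Ω) / (π : Ω) := by
      change ((rC t π : algebraicClosure k Ω) : Ω) / (π : Ω) = _
      rw [hrC]
    have h3 : ((rC t π / π : algebraicClosure k Ω) : Ω) ∈ R.w := by
      rw [h2]
      exact Red.mem_of_res_ne (hqw t)
    have h4 := hs _ h1 h3
    rw [h2] at h4 h3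
    have h5 : (s * t) (π : Ω) / (π : Ω) = s (t (π : Ω) / (π : Ω)) * (s (π : Ω) / (π : Ω)) := by
      rw [map_div₀, AlgEquiv.mul_apply]
      have h6 : s (π : Ω) ≠ 0 := (map_ne_zero_iff s s.injective).2 hπΩ
      field_simp
    have h6 : s (t (π : Ω) / (π : Ω)) ∈ R.w := by
      rw [← h2]
      exact (hC_mem s _).1 (by rw [h2]; exact h3)
    rw [h5, R.res_mul _ h6 _ (Red.mem_of_res_ne (hqw s)), h4]
  have hnN : N.Normal := MonoidHom.normal_ker ρ
  have hidx : ((N.relIndex I : ℕ) : F) ≠ 0 := by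
    rw [Ne, CharP.cast_eq_zero_iff F p]
    intro hdvd
    have hfinI : (N.subgroupOf I).FiniteIndex := inferInstance
    have hnI : (N.subgroupOf I).Normal := Subgroup.normal_subgroupOf
    have hF : Finite (I ⧸ N.subgroupOf I) := Subgroup.finite_quotient_of_finiteIndex
    have hcard : p ∣ Nat.card (I ⧸ N.subgroupOf I) := hdvd
    obtain ⟨q, hq⟩ := exists_prime_orderOf_dvd_card' p hcard
    obtain ⟨s, rfl⟩ := QuotientGroup.mk_surjective q
    have h1 : (s ^ p : I) ∈ N.subgroupOf I := by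
      rw [← QuotientGroup.eq_one_iff, QuotientGroup.mk_pow, ← hq, pow_orderOf_eq_one]
    have h2 : s ∉ N.subgroupOf I := by
      intro h
      rw [← QuotientGroup.eq_one_iff] at h
      rw [h, orderOf_one] at hq
      exact hp.one_lt.ne hq
    have h3 : ((s : Ω ≃ₐ[K] Ω) ^ p) ∈ N := by
      have := Subgroup.mem_subgroupOf.1 h1
      rwa [Subgroup.coe_pow] at this
    have h4 : ∀ j : ℕ, R.res (((s : Ω ≃ₐ[K] Ω) ^ j) (π : Ω) / (π : Ω)) =
        R.res ((s : Ω ≃ₐ[K] Ω) (π : Ω) / (π : Ω)) ^ j := by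
      intro j
      induction j with
      | zero =>
        rw [pow_zero, pow_zero, AlgEquiv.one_apply, div_self hπΩ, R.res_one]
      | succ j ih =>
        rw [pow_succ', hmulq _ s.2, ih, pow_succ]
    have h5 : R.res (((s : Ω ≃ₐ[K] Ω) ^ p) (π : Ω) / (π : Ω)) = 1 := by
      have h6 := (hN _).1 h3 π hπ3
      have h7 : ((s : Ω ≃ₐ[K] Ω) ^ p) (π : Ω) = π := by rw [← hrC, h6]
      rw [h7, div_self hπΩ, R.res_one]
    rw [h4] at h5
    have hUp : CharP U p := by
      exact charP_of_injective_algebraMap (algebraMap F U).injective p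
    have h6 : R.res ((s : Ω ≃ₐ[K] Ω) (π : Ω) / (π : Ω)) = 1 := by
      have : ExpChar U p := ExpChar.prime hp
      have h8 := ExpChar.pow_prime_pow_mul_eq_one_iff p 1 1
        (R.res ((s : Ω ≃ₐ[K] Ω) (π : Ω) / (π : Ω)))
      simp only [pow_one, mul_one] at h8
      exact h8.1 h5
    exact h2 (Subgroup.mem_subgroupOf.2 (hsN s s.2 h6))
  obtain ⟨u₀, c, hu₀, hc0, hcrd₀⟩ := AllE.f3 (algebraicClosure k Ω) L F (R.img L) (R.sub L) g sp
    (Ω ≃ₐ[K] Ω) (aL hst) (aR R hst hw) x H.good hsp hRA hfixx u k₃.toSubfield π N I hcrd hπ3 hπ0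
    hnN hfinN hNI
    (by
      intro s hs
      obtain ⟨m, hm, hin'⟩ := hlift s hs
      refine ⟨m, hm, fun a => ?_⟩
      obtain ⟨ct, hct, hctr⟩ := R.const_surj a
      have h1 := aR_apply R hst hw (s * m) ⟨(ct : Ω), L.algebraMap_mem ct⟩ hct
        (algebraMap F (R.img L) a) hctr.symm
      apply Subtype.ext
      rw [h1]
      change R.res ((s * m) (ct : Ω)) = algebraMap F U a
      rw [← hctr, ← hrC]
      exact hin _ hin' ct hct (by rw [hrC]; exact (hC_mem _ ct).1 hct))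
    (by
      intro s c hc
      exact ⟨rC s c, hst3 _ _ hc, Subtype.ext (hrC s c).symm⟩)
    (by
      intro s hs
      have h1 := (hN s).1 hs
      have h2 : ∀ c ∈ k₃, s ((c : algebraicClosure k Ω) : Ω) = c := fun c hc => by
        rw [← hrC, h1 c hc]
      refine ⟨Subtype.ext (hfix s (fun c hc => h2 c (h23 hc)) fun c hc =>
        h2 c (hM3 (hM1 c (hTn c hc)))), fun c hc => Subtype.ext (h2 c hc)⟩)
    (by
      intro s
      rw [hI]
      refine ⟨fun h c hc hcw => Subtype.ext (h c hc hcw), fun h c hc hcw => ?_⟩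
      exact congrArg Subtype.val (h c hc hcw))
    (by
      intro s h
      exact hqw s (congrArg Subtype.val h))
    (by
      intro s hs h
      exact hsN s hs (congrArg Subtype.val h))
    hidx
  obtain ⟨P, hP, hPf⟩ := AllE.f2 (algebraicClosure k Ω) L F (R.img L) (R.sub L) g sp
    (Ω ≃ₐ[K] Ω) (aL hst) (aR R hst hw) x H.good hsp hRA hfixx u₀ c hu₀ hc0 hcrd₀
  refine ⟨P, hP, fun s z z' hz => ?_⟩
  have h1 : z' = aL hst s z := Subtype.ext hz
  rw [h1]
  exact hPf s z


end Pool.Agent.Lib.MP_c385f6_ag.TPG
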