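import Pool.Agent.Lib.MP_c385f6_ag.TPG.FinDefs
import Pool.Agent.Lib.MP_c385f6_ag.TPG.GTowUr
import Pool.Agent.Lib.MP_c385f6_ag.Semi.Tr
import Pool.Agent.Lib.MP_c385f6_ag.Semi.Res

/-!
Project TPG, H1: the union of the towers is the smallest prime closed field.
-/

set_option autoImplicit false

open Polynomial
open scoped Pointwise

namespace Pool.Agent.Lib.MP_c385f6_ag.TPG

universe u v u' v'

namespace HPC

section

variable {C : Type u} {Ω : Type v} [Field C] [Field Ω] [Algebra C Ω]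
  {M : IntermediateField C Ω} {P : Plc C M} {B : ValuationSubring Ω}

/-- The values of the elements of `M`. -/
theorem val_eq (hO : OrdF C M) (hB : B.comap (algebraMap M Ω) = P.ring) {π : M} (hπ0 : π ≠ 0)
    (hπ : ord P π = 1) {a : M} (ha : a ≠ 0) :
    B.valuation (a : Ω) = B.valuation (π : Ω) ^ (ord P a) := by
  have h1 : ord P (a * π ^ (-(ord P a))) = 0 := by
    rw [hO.mul P _ _ ha (zpow_ne_zero _ hπ0), GTowUr.ord_zpow hO P hπ0, hπ]
    ring
  have hx0 : a * π ^ (-(ord P a)) ≠ 0 := mul_ne_zero ha (zpow_ne_zero _ hπ0)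
  obtain ⟨h2, h3⟩ := GTowUr.mem_of_ord_eq hO P hx0 h1
  rw [← hB] at h2 h3
  have h4 : B.valuation ((a * π ^ (-(ord P a)) : M) : Ω) = 1 := by
    refine GTowUr.val_one_of (fun h => hx0 (Subtype.ext h)) h2 ?_
    have h5 : (((a * π ^ (-(ord P a)))⁻¹ : M) : Ω) ∈ B := h3
    rwa [IntermediateField.coe_inv] at h5
  have h5 : (a : Ω) = ((a * π ^ (-(ord P a)) : M) : Ω) * (π : Ω) ^ (ord P a) := by
    have h6 : a = (a * π ^ (-(ord P a))) * π ^ (ord P a) := by
      rw [mul_assoc, ← zpow_add₀ hπ0]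
      simp
    have h7 := congrArg (algebraMap M Ω) h6
    rw [map_mul, map_zpow₀] at h7
    exact h7
  conv_lhs => rw [h5]
  rw [map_mul, h4, one_mul, map_zpow₀]

theorem val_lt (hO : OrdF C M) (hB : B.comap (algebraMap M Ω) = P.ring) {π : M} (hπ0 : π ≠ 0)
    (hπ : ord P π = 1) : B.valuation (π : Ω) < 1 := by
  have h1 : P.ring.valuation π < 1 := (hO.lt P π hπ0).2 (by omega)
  exact Semi.Tr.lt_one_of_comap hB π h1

variable {n : ℕ} {π : M} {ϖ : Ω}

/-- The values of the elements `a ϖ ^ i`. -/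
theorem val_mul (hO : OrdF C M) (hB : B.comap (algebraMap M Ω) = P.ring) (hπ0 : π ≠ 0)
    (hπ : ord P π = 1) (hϖ : ϖ ^ n = π) {a : M} (ha : a ≠ 0) (i : ℕ) :
    B.valuation ((a : Ω) * ϖ ^ i) = B.valuation ϖ ^ (n * ord P a + i) := by
  have h0 : B.valuation ϖ ≠ 0 := by
    rw [Ne, map_eq_zero]
    intro h
    rcases Nat.eq_zero_or_pos n with hn | hn
    · have h1 := val_lt hO hB hπ0 hπ
      rw [← hϖ, hn, pow_zero, map_one] at h1
      exact lt_irrefl _ h1
    · rw [h, zero_pow hn.ne'] at hϖ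
      exact hπ0 (Subtype.ext hϖ.symm)
  rw [map_mul, val_eq hO hB hπ0 hπ ha, ← hϖ, map_pow, map_pow, ← zpow_natCast, ← zpow_mul,
    ← zpow_natCast, ← zpow_add₀ h0]

/-- The values of sums `∑ f i w i ϖ ^ i`. -/
theorem val_sum (hO : OrdF C M) (hB : B.comap (algebraMap M Ω) = P.ring) (hπ0 : π ≠ 0)
    (hπ : ord P π = 1) (hϖ : ϖ ^ n = π) (f : ℕ → M) (hf : ∃ i < n, f i ≠ 0) :
    ∃ j < n, f j ≠ 0 ∧ ∀ w : ℕ → Ω, (∀ i, B.valuation (w i) = 1) →
      B.valuation (∑ i ∈ Finset.range n, (f i : Ω) * w i * ϖ ^ i) =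
        B.valuation ((f j : Ω) * ϖ ^ j) := by
  obtain ⟨i0, hi0, hi0'⟩ := hf
  have hn : n ≠ 0 := by omega
  have hϖ0 : ϖ ≠ 0 := by
    rintro rfl
    rw [zero_pow hn] at hϖ
    exact hπ0 (Subtype.ext hϖ.symm)
  have h0 : 0 < B.valuation ϖ := zero_lt_iff.2 ((Valuation.ne_zero_iff _).2 hϖ0)
  have h1 : B.valuation ϖ ≠ 1 := by
    intro h
    have h2 := val_lt hO hB hπ0 hπ
    rw [← hϖ, map_pow, h, one_pow] at h2
    exact lt_irrefl _ h2
  obtain ⟨j, hj, hmax⟩ := (Finset.range n).exists_max_image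
    (fun i => B.valuation ((f i : Ω) * ϖ ^ i)) ⟨i0, Finset.mem_range.2 hi0⟩
  have hne : ∀ i, f i ≠ 0 → B.valuation ((f i : Ω) * ϖ ^ i) ≠ 0 := by
    intro i hi
    rw [Valuation.ne_zero_iff]
    exact mul_ne_zero (fun h => hi (Subtype.ext h)) (pow_ne_zero _ hϖ0)
  have hj0 : f j ≠ 0 := by
    intro h
    have h2 := hmax i0 (Finset.mem_range.2 hi0)
    rw [h, ZeroMemClass.coe_zero, zero_mul, map_zero, le_zero_iff] at h2
    exact hne i0 hi0' h2
  refine ⟨j, Finset.mem_range.1 hj, hj0, fun w hw => ?_⟩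
  have hw' : ∀ i, B.valuation ((f i : Ω) * w i * ϖ ^ i) = B.valuation ((f i : Ω) * ϖ ^ i) := by
    intro i
    rw [map_mul, map_mul, hw, mul_one, map_mul]
  rw [← hw' j]
  refine Valuation.map_sum_eq_of_lt _ hj fun i hi => ?_
  rw [hw', hw']
  rw [Finset.mem_sdiff, Finset.mem_singleton] at hi
  refine lt_of_le_of_ne (hmax i hi.1) fun h => ?_
  by_cases hi0 : f i = 0
  · rw [hi0, ZeroMemClass.coe_zero, zero_mul, map_zero] at h
    exact hne j hj0 h.symm
  · rw [val_mul hO hB hπ0 hπ hϖ hi0, val_mul hO hB hπ0 hπ hϖ hj0, zpow_right_inj₀ h0 h1] at h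
    have h3 := Finset.mem_range.1 hi.1
    have h4 := Finset.mem_range.1 hj
    apply hi.2
    have h5 : (i : ℤ) % n = (j : ℤ) % n := by
      have h6 : (i : ℤ) = (n : ℤ) * (ord P (f j) - ord P (f i)) + j := by linarith
      rw [h6, add_comm, Int.add_mul_emod_self_left]
    rw [Int.emod_eq_of_lt (by omega) (by omega), Int.emod_eq_of_lt (by omega) (by omega)] at h5
    exact_mod_cast h5

/-- `X ^ n - π` is irreducible. -/
theorem minpoly_eq (hO : OrdF C M) (hB : B.comap (algebraMap M Ω) = P.ring) (hπ0 : π ≠ 0)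
    (hπ : ord P π = 1) (hn : n ≠ 0) (hϖ : ϖ ^ n = π) : minpoly M ϖ = X ^ n - Polynomial.C π := by
  have hmon : (X ^ n - Polynomial.C π : M[X]).Monic := monic_X_pow_sub_C π hn
  have h1 : aeval ϖ (X ^ n - Polynomial.C π : M[X]) = 0 := by
    rw [map_sub, map_pow, aeval_X, aeval_C, hϖ, sub_eq_zero]
    rfl
  have hint : IsIntegral M ϖ := ⟨_, hmon, h1⟩
  refine (Polynomial.eq_of_monic_of_dvd_of_natDegree_le (minpoly.monic hint) hmon
    (minpoly.dvd M ϖ h1) ?_).symm
  rw [natDegree_X_pow_sub_C]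
  by_contra hlt
  rw [not_le] at hlt
  obtain ⟨j, hj, hj0, hj'⟩ := val_sum hO hB hπ0 hπ hϖ (minpoly M ϖ).coeff
    ⟨(minpoly M ϖ).natDegree, hlt, by
      rw [← Polynomial.leadingCoeff, (minpoly.monic hint).leadingCoeff]
      exact one_ne_zero⟩
  have h2 := hj' (fun _ => 1) (fun _ => map_one _)
  have h3 : ∑ i ∈ Finset.range n, ((minpoly M ϖ).coeff i : Ω) * 1 * ϖ ^ i = 0 := by
    have h4 := minpoly.aeval M ϖ
    rw [aeval_eq_sum_range' hlt] at h4
    rw [← h4]
    refine Finset.sum_congr rfl fun i _ => ?_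
    rw [mul_one, Algebra.smul_def]
    rfl
  rw [h3, map_zero] at h2
  have h5 : ϖ ≠ 0 := by
    rintro rfl
    rw [zero_pow hn] at hϖ
    exact hπ0 (Subtype.ext hϖ.symm)
  have h6 := h2.symm
  rw [map_eq_zero, mul_eq_zero] at h6
  rcases h6 with h6 | h6
  · exact hj0 (Subtype.ext h6)
  · exact pow_ne_zero _ h5 h6

/-- Residues of elements of `B` are constants. -/
theorem exists_near [IsAlgClosed C] [IsAlgClosed Ω] [Algebra.IsAlgebraic M Ω]
    (hR : ∀ x : M, x ∈ P.ring → ∃ c : C, P.ring.valuation (x - algebraMap C M c) < 1)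
    (hB : B.comap (algebraMap M Ω) = P.ring) {y : Ω} (hy : y ∈ B) :
    ∃ c : C, B.valuation (y - algebraMap C Ω c) < 1 := by
  classical
  have hBC : ∀ c : C, algebraMap C Ω c ∈ B := by
    intro c
    have h1 := P.const_mem c
    rw [← hB] at h1
    exact h1
  obtain ⟨f, hf, ⟨m, hm⟩, hfy⟩ := exists_unit_poly P.ring y
  choose c hc using fun i => hR (f.coeff i) (hf i)
  let q : C[X] := ∑ i ∈ Finset.range (f.natDegree + 1), monomial i (c i)
  have hqc : ∀ i, i ≤ f.natDegree → q.coeff i = c i := by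
    intro i hi
    simp only [q, finsetSum_coeff, coeff_monomial]
    rw [Finset.sum_ite_eq' (Finset.range (f.natDegree + 1)) i]
    rw [if_pos (Finset.mem_range.2 (by omega))]
  have hmle : m ≤ f.natDegree := by
    apply le_natDegree_of_ne_zero
    rw [hm]
    exact one_ne_zero
  have hq : q ≠ 0 := by
    intro h
    have h1 := hqc m hmle
    rw [h, coeff_zero] at h1
    have h2 := hc m
    rw [← h1, hm, map_zero, sub_zero, map_one] at h2
    exact lt_irrefl _ h2
  have hqy : B.valuation (aeval y q) < 1 := by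
    have h1 : aeval y q = ∑ i ∈ Finset.range (f.natDegree + 1),
        (algebraMap C Ω (c i) - (f.coeff i : Ω)) * y ^ i := by
      have h2 : (∑ i ∈ Finset.range (f.natDegree + 1), (f.coeff i : Ω) * y ^ i) = 0 := by
        rw [← hfy, aeval_eq_sum_range]
        refine Finset.sum_congr rfl fun i _ => ?_
        rw [Algebra.smul_def]
        rfl
      have h3 : aeval y q = ∑ i ∈ Finset.range (f.natDegree + 1),
          algebraMap C Ω (c i) * y ^ i := by
        simp only [q, map_sum, aeval_monomial]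
      rw [h3, ← sub_zero (∑ i ∈ Finset.range (f.natDegree + 1), algebraMap C Ω (c i) * y ^ i),
        ← h2, ← Finset.sum_sub_distrib]
      exact Finset.sum_congr rfl fun i _ => by ring
    rw [h1]
    refine Valuation.map_sum_lt _ one_ne_zero fun i _ => ?_
    rw [map_mul]
    refine mul_lt_one_of_lt_of_le ?_ ((B.valuation_le_one_iff _).2 (pow_mem hy i))
    rw [Valuation.map_sub_swap]
    exact Semi.Tr.lt_one_of_comap hB _ (hc i)
  obtain ⟨α, hα⟩ := Semi.ResAux.exists_const hBC hy hq hqy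
  have h4 : algebraicClosure C Ω = ⊥ := (IsAlgClosed.algebraicClosure_eq_bot_iff C Ω).2 inferInstance
  have h5 : (α : Ω) ∈ (⊥ : IntermediateField C Ω) := by
    rw [← h4]
    exact α.2
  obtain ⟨d, hd⟩ := IntermediateField.mem_bot.1 h5
  refine ⟨d, ?_⟩
  rw [hd]
  exact hα

/-- An element of the inertia group that moves the `n`-th root of a uniformizer. -/
theorem exists_inert [IsAlgClosed C] [CharZero C] [IsAlgClosed Ω] [Algebra.IsAlgebraic M Ω]
    (hO : OrdF C M)
    (hR : ∀ x : M, x ∈ P.ring → ∃ c : C, P.ring.valuation (x - algebraMap C M c) < 1)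
    (hB : B.comap (algebraMap M Ω) = P.ring) (hπ0 : π ≠ 0) (hπ : ord P π = 1) (hn : n ≠ 0)
    (hϖ : ϖ ^ n = π) {ζ : C} (hζ : ζ ^ n = 1) :
    ∃ σ : Ω ≃ₐ[M] Ω, σ ϖ = algebraMap C Ω ζ * ϖ ∧ (∀ z, z ∈ B ↔ σ z ∈ B) ∧
      ∀ y ∈ B, B.valuation (σ y - y) < 1 := by
  have hcl : IsAlgClosure M Ω := ⟨inferInstance, inferInstance⟩
  have hnor : Normal M Ω := IsAlgClosure.normal M Ω
  have hBC : ∀ c : C, algebraMap C Ω c ∈ B := by
    intro c
    have h1 := P.const_mem c
    rw [← hB] at h1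
    exact h1
  have hζ0 : ζ ≠ 0 := by
    rintro rfl
    rw [zero_pow hn] at hζ
    exact zero_ne_one hζ
  have hζ1 : B.valuation (algebraMap C Ω ζ) = 1 :=
    GTowUr.val_one_of ((_root_.map_ne_zero _).2 hζ0) (hBC ζ) (by
      rw [← map_inv₀]
      exact hBC _)
  -- the conjugate root
  have h1 : (algebraMap C Ω ζ * ϖ) ^ n = π := by
    rw [mul_pow, ← map_pow, hζ, map_one, one_mul, hϖ]
  have h2 : IsConjRoot M (algebraMap C Ω ζ * ϖ) ϖ := by
    unfold IsConjRoot
    rw [minpoly_eq hO hB hπ0 hπ hn h1, minpoly_eq hO hB hπ0 hπ hn hϖ]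
  obtain ⟨σ₀, hσ₀⟩ := isConjRoot_iff_exists_algEquiv.1 h2
  -- `σ₀` preserves the values of the elements of `M(ϖ)`
  have h3 : ∀ x ∈ IntermediateField.adjoin M {ϖ}, B.valuation (σ₀ x) = B.valuation x := by
    intro x hx
    have hint : IsIntegral M ϖ := Algebra.IsIntegral.isIntegral ϖ
    rw [← IntermediateField.mem_toSubalgebra,
      IntermediateField.adjoin_simple_toSubalgebra_of_isAlgebraic hint.isAlgebraic,
      Algebra.adjoin_singleton_eq_range_aeval] at hx
    obtain ⟨q, rfl⟩ := hx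
    have hmon := minpoly.monic hint
    have h4 : (q %ₘ (minpoly M ϖ)).natDegree < n := by
      have h5 := natDegree_modByMonic_lt q hmon (by
        intro h6
        have h7 := minpoly_eq hO hB hπ0 hπ hn hϖ
        rw [h6] at h7
        have h8 := congrArg natDegree h7
        rw [natDegree_X_pow_sub_C, natDegree_one] at h8
        exact hn h8.symm)
      rwa [minpoly_eq hO hB hπ0 hπ hn hϖ, natDegree_X_pow_sub_C,
        ← minpoly_eq hO hB hπ0 hπ hn hϖ] at h5
    have h5 : aeval ϖ q = ∑ i ∈ Finset.range n,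
        ((q %ₘ (minpoly M ϖ)).coeff i : Ω) * 1 * ϖ ^ i := by
      rw [← Polynomial.aeval_modByMonic_eq_self_of_root (minpoly.aeval M ϖ),
        aeval_eq_sum_range' h4]
      refine Finset.sum_congr rfl fun i _ => ?_
      rw [mul_one, Algebra.smul_def]
      rfl
    have h6 : σ₀ (aeval ϖ q) = ∑ i ∈ Finset.range n,
        ((q %ₘ (minpoly M ϖ)).coeff i : Ω) * (algebraMap C Ω ζ) ^ i * ϖ ^ i := by
      rw [h5, map_sum]
      refine Finset.sum_congr rfl fun i _ => ?_
      rw [map_mul, map_pow, hσ₀, mul_one, mul_pow, ← mul_assoc]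
      congr 2
      exact σ₀.commutes _
    change B.valuation (σ₀ (aeval ϖ q)) = B.valuation (aeval ϖ q)
    by_cases hz : ∃ i < n, (q %ₘ (minpoly M ϖ)).coeff i ≠ 0
    · obtain ⟨j, -, -, hj⟩ := val_sum hO hB hπ0 hπ hϖ _ hz
      rw [h6, h5, hj _ (fun i => by rw [map_pow, hζ1, one_pow]), hj _ (fun _ => map_one _)]
    · push Not at hz
      have h7 : ∀ w : ℕ → Ω, ∑ i ∈ Finset.range n,
          ((q %ₘ (minpoly M ϖ)).coeff i : Ω) * w i * ϖ ^ i = 0 := by
        intro w
        refine Finset.sum_eq_zero fun i hi => ?_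
        rw [hz i (Finset.mem_range.1 hi), ZeroMemClass.coe_zero, zero_mul, zero_mul]
      rw [h6, h5, h7, h7]
  -- transitivity of the Galois group of `Ω / M(ϖ)`
  have hcl1 : IsAlgClosure (IntermediateField.adjoin M {ϖ}) Ω :=
    ⟨inferInstance, Algebra.IsAlgebraic.tower_top (K := M) _⟩
  have hM0 : CharZero M := charZero_of_injective_algebraMap (algebraMap C M).injective
  have hM1 : CharZero (IntermediateField.adjoin M {ϖ}) :=
    charZero_of_injective_algebraMap (algebraMap M (IntermediateField.adjoin M {ϖ})).injective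
  have hrel : B.comap (algebraMap (IntermediateField.adjoin M {ϖ}) Ω) =
      (B.comap (σ₀ : Ω →+* Ω)).comap (algebraMap (IntermediateField.adjoin M {ϖ}) Ω) := by
    ext x
    rw [ValuationSubring.mem_comap, ValuationSubring.mem_comap, ValuationSubring.mem_comap,
      ← B.valuation_le_one_iff, ← B.valuation_le_one_iff]
    have h4 := h3 x x.2
    change B.valuation (x : Ω) ≤ 1 ↔ B.valuation (σ₀ (x : Ω)) ≤ 1
    rw [h4]
  obtain ⟨ρ, hρ⟩ := (Semi.stTr (IntermediateField.adjoin M {ϖ}) Ω inferInstance hM1 inferInstance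
    inferInstance hcl1).2 B (B.comap (σ₀ : Ω →+* Ω)) hrel
  have h4 : ∀ z, z ∈ B ↔ (((ρ.restrictScalars M).trans σ₀ : Ω ≃ₐ[M] Ω)) z ∈ B := fun z => hρ z
  refine ⟨(ρ.restrictScalars M).trans σ₀, ?_, h4, ?_⟩
  · change σ₀ (ρ ϖ) = _
    have h5 : ρ ϖ = ϖ := ρ.commutes
      (⟨ϖ, IntermediateField.mem_adjoin_simple_self M ϖ⟩ : IntermediateField.adjoin M {ϖ})
    rw [h5, hσ₀]
  · intro y hy
    obtain ⟨c, hc⟩ := exists_near hR hB hy
    have h5 : ((ρ.restrictScalars M).trans σ₀ : Ω ≃ₐ[M] Ω) (algebraMap C Ω c) =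
        algebraMap C Ω c :=
      ((ρ.restrictScalars M).trans σ₀ : Ω ≃ₐ[M] Ω).commutes (algebraMap C M c)
    have h6 : ((ρ.restrictScalars M).trans σ₀ : Ω ≃ₐ[M] Ω) y - y =
        ((ρ.restrictScalars M).trans σ₀ : Ω ≃ₐ[M] Ω) (y - algebraMap C Ω c) -
          (y - algebraMap C Ω c) := by
      rw [map_sub, h5]
      ring
    rw [h6]
    refine (Valuation.map_sub _ _ _).trans_lt (max_lt ?_ hc)
    rw [valuation_lt_one_iff_mem] at hc ⊢
    rcases hc with hc | hc
    · left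
      rw [hc, map_zero]
    · right
      rw [← map_inv₀, ← h4]
      exact hc

end

section

variable {k : Type} {K Ω : Type u} [Field k] [CharZero k] [Field K] [Field Ω] [Algebra k K]
  [Algebra k Ω] [Algebra K Ω] [IsScalarTower k K Ω] [IsAlgClosure K Ω]

/-- If `h ^ n ∈ M` and `h` is unramified then `h ^ n ∈ D_n(M)`. -/
theorem mem_Dn (hOrd : StOrd.{u, u}) (hRes : StResF.{u, u})
    (M : IntermediateField (algebraicClosure k Ω) Ω) (hKM : ∀ x : K, algebraMap K Ω x ∈ M)
    (hFF : FF (algebraicClosure k Ω) M) {n : ℕ} (hn : n ≠ 0) {h : Ω} (hh0 : h ≠ 0) (g : M)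
    (hg : h ^ n = g) (hur : h ∈ maxUnramified k K Ω) : g ∈ Dn (algebraicClosure k Ω) n := by
  have hac : IsAlgClosed Ω := IsAlgClosure.isAlgClosed K
  have hack : IsAlgClosed (algebraicClosure k Ω) := (algebraicClosure.isAlgClosure k Ω).isAlgClosed
  have hcC : CharZero (algebraicClosure k Ω) :=
    charZero_of_injective_algebraMap (algebraMap k (algebraicClosure k Ω)).injective
  have halgK : Algebra.IsAlgebraic K Ω := IsAlgClosure.isAlgebraic
  have hg0 : g ≠ 0 := by
    rintro rfl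
    exact pow_ne_zero n hh0 hg
  refine ⟨hg0, fun P => ?_⟩
  have hO : OrdF (algebraicClosure k Ω) M := hOrd _ _ hFF
  have halg : Algebra.IsAlgebraic M Ω := by
    let _ : Algebra K M := ((algebraMap K Ω).codRestrict M hKM).toAlgebra
    have _ : IsScalarTower K M Ω := IsScalarTower.of_algebraMap_eq fun x => rfl
    exact Algebra.IsAlgebraic.tower_top (K := K) M
  obtain ⟨B, hB1, hB2⟩ := exists_above (Ω := Ω) P.ring
  have hB : B.comap (algebraMap M Ω) = P.ring := Semi.Tr.comap_eq hB1 hB2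
  obtain ⟨π, hπ0, hπ⟩ := hO.unif P
  obtain ⟨ϖ, hϖ⟩ := IsAlgClosed.exists_pow_nat_eq (π : Ω) (Nat.pos_of_ne_zero hn)
  have : NeZero n := ⟨hn⟩
  have : NeZero (n : algebraicClosure k Ω) := ⟨Nat.cast_ne_zero.2 hn⟩
  obtain ⟨ζ, hζ⟩ := HasEnoughRootsOfUnity.exists_primitiveRoot (algebraicClosure k Ω) n
  obtain ⟨σ, hσϖ, hσB, hσr⟩ := exists_inert (B := B) hO (fun x hx => hRes _ _ hFF P x hx) hB hπ0 hπ
    hn hϖ hζ.pow_eq_one
  -- as an automorphism over `K`
  let σ' : Ω ≃ₐ[K] Ω := AlgEquiv.ofRingEquiv (f := σ.toRingEquiv) fun x =>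
    σ.commutes (⟨algebraMap K Ω x, hKM x⟩ : M)
  have hσ' : ∀ z, σ' z = σ z := fun z => rfl
  have hBk : ∀ c : k, algebraMap k Ω c ∈ B := by
    intro c
    have h1 := P.const_mem (algebraMap k (algebraicClosure k Ω) c)
    rw [← hB] at h1
    exact h1
  have hin : σ' ∈ inertia K B := by
    refine mem_inertia_of ?_ fun y hy => hσr y hy
    rw [MulAction.mem_stabilizer_iff]
    ext z
    rw [ValuationSubring.mem_smul_pointwise_iff_exists]
    constructor
    · rintro ⟨y, hy, rfl⟩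
      exact (hσB y).1 hy
    · intro hz
      refine ⟨σ.symm z, (hσB _).2 ?_, ?_⟩
      · rw [AlgEquiv.apply_symm_apply]
        exact hz
      · exact AlgEquiv.apply_symm_apply σ z
  have hσh : σ h = h := inertia_ur hBk hin hur
  -- the unit `h / ϖ ^ a`
  have hϖ0 : ϖ ≠ 0 := by
    rintro rfl
    rw [zero_pow hn] at hϖ
    exact hπ0 (Subtype.ext hϖ.symm)
  have hu : B.valuation (h / ϖ ^ (ord P g)) = 1 := by
    have h1 : B.valuation (h / ϖ ^ (ord P g)) ^ n = 1 := by
      rw [← map_pow, div_pow, hg, ← zpow_natCast (ϖ ^ (ord P g)), ← zpow_mul, mul_comm (ord P g),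
        zpow_mul, zpow_natCast, hϖ, map_div₀, val_eq hO hB hπ0 hπ hg0, map_zpow₀, div_self]
      exact zpow_ne_zero _ ((Valuation.ne_zero_iff _).2 fun h => hπ0 (Subtype.ext h))
    exact (pow_eq_one_iff_of_nonneg zero_le hn).1 h1
  have hun : σ' ((h / ϖ ^ (ord P g)) ^ n) = (h / ϖ ^ (ord P g)) ^ n := by
    have h1 : (h / ϖ ^ (ord P g)) ^ n = ((g / π ^ (ord P g) : M) : Ω) := by
      have h2 : ((g / π ^ (ord P g) : M) : Ω) = (g : Ω) / (π : Ω) ^ (ord P g) := by
        have h3 := map_div₀ (algebraMap M Ω) g (π ^ (ord P g))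
        rw [map_zpow₀] at h3
        exact h3
      rw [h2, div_pow, hg, ← zpow_natCast (ϖ ^ (ord P g)), ← zpow_mul, mul_comm (ord P g),
        zpow_mul, zpow_natCast, hϖ]
    rw [h1]
    exact σ.commutes (g / π ^ (ord P g) : M)
  have h2 := inertia_root hBk hin hn hu hun
  have h3 : σ (ϖ ^ (ord P g)) = ϖ ^ (ord P g) := by
    rw [hσ', map_div₀, hσh] at h2
    have h4 : ϖ ^ (ord P g) ≠ 0 := zpow_ne_zero _ hϖ0
    have h5 : σ (ϖ ^ (ord P g)) ≠ 0 := (_root_.map_ne_zero σ).2 h4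
    field_simp at h2
    exact h2.symm
  rw [map_zpow₀, hσϖ, mul_zpow] at h3
  have h4 : (algebraMap (algebraicClosure k Ω) Ω ζ) ^ (ord P g) = 1 :=
    mul_right_cancel₀ (zpow_ne_zero _ hϖ0) (by rw [h3, one_mul])
  rw [← map_zpow₀] at h4
  have h5 : ζ ^ (ord P g) = 1 := (algebraMap (algebraicClosure k Ω) Ω).injective (by
    rw [h4, map_one])
  exact (hζ.zpow_eq_one_iff_dvd _).1 h5

/-- `K^ur` is prime closed. -/
theorem ur_primeClosed (p : ℕ) : PrimeClosed p k K Ω (maxUnramified k K Ω) := by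
  have hcK : CharZero K := charZero_of_injective_algebraMap (algebraMap k K).injective
  have halgK : Algebra.IsAlgebraic K Ω := IsAlgClosure.isAlgebraic
  have hn := normal_maxUnramified k K Ω
  exact ⟨⟨⟩, le_rfl, fun c => const_mem_maxUnramified c.2, fun _ _ _ h _ => h⟩

/-- Towers are contained in prime closed fields. -/
theorem tow_le (hTU : StTowUr.{u}) (hDir : StTwDir.{u, u}) {p : ℕ}
    (hp : PrP p (algebraicClosure k Ω)) {L : IntermediateField (algebraicClosure k Ω) Ω}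
    (hL : L = IntermediateField.adjoin (algebraicClosure k Ω) (Set.range (algebraMap K Ω)))
    (hFF : FF (algebraicClosure k Ω) L) {N : IntermediateField K Ω} (hN : PrimeClosed p k K Ω N)
    {M : IntermediateField (algebraicClosure k Ω) Ω} (hM : Tow (algebraicClosure k Ω) p L M) :
    ∀ z ∈ M, z ∈ N := by
  have hack : IsAlgClosed (algebraicClosure k Ω) :=
    have : IsAlgClosed Ω := IsAlgClosure.isAlgClosed K
    (algebraicClosure.isAlgClosure k Ω).isAlgClosed
  let N' : IntermediateField (algebraicClosure k Ω) Ω :=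
    N.toSubfield.toIntermediateField fun c => hN.const c
  have hN' : ∀ z, z ∈ N' ↔ z ∈ N := fun z => Iff.rfl
  suffices h : M ≤ N' from fun z hz => h hz
  induction hM with
  | base =>
    rw [hL, IntermediateField.adjoin_le_iff]
    rintro _ ⟨x, rfl⟩
    exact (hN' _).2 (algebraMap_mem N x)
  | step M h n g hM hpn hg hgD ih =>
    refine sup_le ih ?_
    rw [IntermediateField.adjoin_le_iff, Set.singleton_subset_iff]
    have h1 := (hDir _ _ p L hFF hp).1 M hM
    have hn : n ≠ 0 := by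
      rintro rfl
      exact hpn (dvd_zero p)
    have h2 : h ∈ maxUnramified k K Ω :=
      (hTU k K Ω L hL).2 M h1.1 h1.2.1 (fun z hz => hN.le (ih hz)) n g h hn hgD hg
    exact (hN' _).2 (hN.root n h hpn h2 (by rw [hg]; exact ih g.2))

end

end HPC

open HPC in
/-- H1. The union of the towers is the smallest prime closed field. -/
theorem stPC (hTU : StTowUr.{u}) (hCT : StCptT.{u, u', v'}) (hDir : StTwDir.{u, u})
    (hOrd : StOrd.{u, u}) (hRes : StResF.{u, u}) : StPC.{u, u', v'} := by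
  intro p _ k K Ω _ _ _ _ _ _ _ _ _ _ F U _ _ _ R L g k₂ hPk
  have hk : CharZero k := charZero_of_injective_algebraMap (algebraMap ℚ_[p] k).injective
  have hcK : CharZero K := charZero_of_injective_algebraMap (algebraMap k K).injective
  have hac : IsAlgClosed Ω := IsAlgClosure.isAlgClosed K
  have halgK : Algebra.IsAlgebraic K Ω := IsAlgClosure.isAlgebraic
  have hack : IsAlgClosed (algebraicClosure k Ω) := (algebraicClosure.isAlgClosure k Ω).isAlgClosed
  have hcC : CharZero (algebraicClosure k Ω) :=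
    charZero_of_injective_algebraMap (algebraMap k (algebraicClosure k Ω)).injective
  have hp : PrP p (algebraicClosure k Ω) := fun n hn => Nat.cast_ne_zero.2 (by
    rintro rfl
    exact hn (dvd_zero p))
  have hFF : FF (algebraicClosure k Ω) L := hPk.good.ffC
  obtain ⟨hd1, hd2, hd3, hd4, hd5⟩ := hDir _ _ p L hFF hp
  have h1 : ∀ N : IntermediateField K Ω, PrimeClosed p k K Ω N →
      ∀ z ∈ Tinf (algebraicClosure k Ω) p L, z ∈ N := by
    intro N hN z hz
    obtain ⟨M, hM, hzM⟩ := (hd3 z).1 hz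
    exact tow_le hTU hDir hp hPk.eqL hFF hN hM z hzM
  have hKL : ∀ x : K, algebraMap K Ω x ∈ L := by
    intro x
    rw [hPk.eqL]
    exact IntermediateField.subset_adjoin _ _ ⟨x, rfl⟩
  have hKT : ∀ x : K, algebraMap K Ω x ∈ Tinf (algebraicClosure k Ω) p L := fun x =>
    (hd3 _).2 ⟨L, Tow.base, hKL x⟩
  let N₀ : IntermediateField K Ω :=
    (Tinf (algebraicClosure k Ω) p L).toSubfield.toIntermediateField hKT
  have hN₀ : ∀ z, z ∈ N₀ ↔ z ∈ Tinf (algebraicClosure k Ω) p L := fun z => Iff.rfl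
  have hst := (hCT p k K Ω F U R L g k₂ hPk).1
  have hnor : Normal K N₀ := by
    have : Normal K Ω := IsAlgClosure.normal K Ω
    rw [IntermediateField.normal_iff_forall_map_le']
    rintro σ _ ⟨z, hz, rfl⟩
    exact (hst σ z hz).1
  have hPC : PrimeClosed p k K Ω N₀ := by
    refine ⟨⟨⟩, fun z hz => h1 _ (ur_primeClosed p) z hz, fun c => ?_, ?_⟩
    · exact (Tinf (algebraicClosure k Ω) p L).algebraMap_mem c
    · intro n h hpn hur hhn
      rw [hN₀]
      by_cases hh0 : h = 0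
      · rw [hh0]
        exact zero_mem _
      · obtain ⟨M, hM, hgM⟩ := (hd3 _).1 ((hN₀ _).1 hhn)
        have hb := hd1 M hM
        refine hd4 M n ⟨h ^ n, hgM⟩ h hM hpn ?_ rfl
        exact mem_Dn hOrd hRes M (fun x => hb.1 (hKL x)) hb.2.1 (by
          rintro rfl
          exact hpn (dvd_zero p)) hh0 _ rfl hur
  have heq : primeTower p k K Ω = N₀ := by
    refine le_antisymm (sInf_le hPC) (le_sInf fun N hN z hz => h1 N hN z hz)
  rw [heq]
  exact ⟨h1, hPC, hN₀⟩

end Pool.Agent.Lib.MP_c385f6_ag.TPG
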