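import Pool.Agent.Lib.MP_c385f6_ag.TPG.FinDefs
import Pool.Agent.Lib.MP_c385f6_ag.TPG.AllA
import Pool.Agent.Lib.MP_c385f6_ag.TPG.GPk
import Pool.Agent.Lib.MP_c385f6_ag.TPG.GK2
import Pool.Agent.Lib.MP_c385f6_ag.TPG.GPolSp
import Pool.Agent.Lib.MP_c385f6_ag.TPG.GExt
import Pool.Agent.Lib.MP_c385f6_ag.TPG.GFG
import Pool.Agent.Lib.MP_c385f6_ag.TPG.GMA
import Pool.Agent.Lib.MP_c385f6_ag.TPG.FF1

/-!
Project TPG, H6: two rational places have the same specialisation if and only if they have the same
reduction on the model over `O_k`.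
-/

set_option autoImplicit false

open Polynomial

namespace Pool.Agent.Lib.MP_c385f6_ag.TPG

universe u v u' v' w

namespace HSR

section Const

variable {F : Type u} {W : Type v} [Field F] [Field W] [Algebra F W]

theorem const_zero (P : Plc F W) (c : F) (h : P.ring.valuation (algebraMap F W c) < 1) :
    c = 0 := by
  by_contra hc
  have h1 : P.ring.valuation (algebraMap F W c⁻¹) ≤ 1 :=
    (P.ring.valuation_le_one_iff _).2 (P.const_mem _)
  have h2 : P.ring.valuation (algebraMap F W c) * P.ring.valuation (algebraMap F W c⁻¹) = 1 := by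
    rw [← map_mul, ← map_mul, mul_inv_cancel₀ hc, map_one, map_one]
  have h3 : P.ring.valuation (algebraMap F W c) * P.ring.valuation (algebraMap F W c⁻¹) < 1 :=
    mul_lt_one_of_lt_of_le h h1
  rw [h2] at h3
  exact lt_irrefl _ h3

theorem value_unique (P : Plc F W) (f : W) (c c' : F)
    (h : P.ring.valuation (f - algebraMap F W c) < 1)
    (h' : P.ring.valuation (f - algebraMap F W c') < 1) : c = c' := by
  have h1 : P.ring.valuation (algebraMap F W (c - c')) < 1 := by
    have e : algebraMap F W (c - c') = (f - algebraMap F W c') - (f - algebraMap F W c) := by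
      rw [map_sub]; ring
    rw [e]
    exact (Valuation.map_sub _ _ _).trans_lt (max_lt h' h)
  exact sub_eq_zero.1 (const_zero P _ h1)

theorem dg_sub (D E : Dv F W) : dg (D - E) = dg D - dg E := by
  unfold dg
  rw [Finsupp.sum_sub_index]
  intro a b c
  rfl

theorem dg_single (P : Plc F W) (n : ℤ) : dg (Finsupp.single P n : Dv F W) = n := by
  simp [dg]

/-- a function in `L(D)` with a zero at `x₁` and no zero at `x₂` -/
theorem exists_two (oo : OrdF F W) (hR : RRF F W) (D : Dv F W) (x₁ x₂ : Plc F W) (hne : x₁ ≠ x₂)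
    (h₁ : D x₁ = 0) (h₂ : D x₂ = 0)
    (hl : ell (D - Finsupp.single x₁ 1 - Finsupp.single x₂ 1) < ell (D - Finsupp.single x₁ 1)) :
    ∃ y : W, y ∈ RR D ∧ x₁.ring.valuation y < 1 ∧ ¬ x₂.ring.valuation y < 1 := by
  classical
  have h1 : ∃ y : W, y ∈ RR (D - Finsupp.single x₁ 1) ∧
      y ∉ RR (D - Finsupp.single x₁ 1 - Finsupp.single x₂ 1) := by
    by_contra hcon
    push Not at hcon
    have hle : RR (D - Finsupp.single x₁ 1) ≤ RR (D - Finsupp.single x₁ 1 - Finsupp.single x₂ 1) :=
      hcon
    have h2 : ell (D - Finsupp.single x₁ 1) ≤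
        ell (D - Finsupp.single x₁ 1 - Finsupp.single x₂ 1) := by
      unfold ell
      have := hR.fin (D - Finsupp.single x₁ 1 - Finsupp.single x₂ 1)
      exact_mod_cast Submodule.finrank_mono hle
    omega
  obtain ⟨y, hy1, hy2⟩ := h1
  have hy0 : y ≠ 0 := by
    rintro rfl
    exact hy2 (zero_mem _)
  rw [hR.mem] at hy1 hy2
  have h3 := hy1 hy0
  have hs : ∀ P : Plc F W, 0 ≤ (Finsupp.single x₁ (1 : ℤ)) P := by
    intro P
    rw [Finsupp.single_apply]
    split_ifs <;> norm_num
  refine ⟨y, ?_, ?_, ?_⟩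
  · rw [hR.mem]
    intro _ P
    have h4 := h3 P
    rw [Finsupp.sub_apply] at h4
    have h5 := hs P
    omega
  · rw [oo.lt x₁ y hy0]
    have h4 := h3 x₁
    rw [Finsupp.sub_apply, Finsupp.single_eq_same, h₁] at h4
    omega
  · rw [oo.lt x₂ y hy0]
    push Not at hy2
    obtain ⟨-, P, hP⟩ := hy2
    have h6 : (Finsupp.single x₁ (1 : ℤ)) x₂ = 0 := Finsupp.single_eq_of_ne (Ne.symm hne)
    by_cases hPx : P = x₂
    · subst hPx
      rw [Finsupp.sub_apply, Finsupp.sub_apply, Finsupp.single_eq_same, h₂, h6] at hP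
      omega
    · have h5 := h3 P
      rw [Finsupp.sub_apply] at h5
      rw [Finsupp.sub_apply, Finsupp.sub_apply,
        Finsupp.single_eq_of_ne (show P ≠ x₂ from hPx)] at hP
      omega

/-- Functions that are integral over `F[z]` separate the places with `z` regular. -/
theorem exists_sep (hPl : StPl.{u, v}) [IsAlgClosed F] (hFF : FF F W) (x₁ x₂ : Plc F W)
    (hne : x₁ ≠ x₂) (z : W) (hz : Transcendental F z) (h₁ : z ∈ x₁.ring) (h₂ : z ∈ x₂.ring) :
    ∃ y : W, IsIntegral (Algebra.adjoin F {z}) y ∧ x₁.ring.valuation y < 1 ∧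
      ¬ x₂.ring.valuation y < 1 := by
  have rr := All.rrf F W hFF
  have oo := All.ord F W hFF
  obtain ⟨g, hg, -⟩ := All.riem F W hFF
  obtain ⟨d, hd⟩ := hg.2
  have hzc : ∀ c : F, z ≠ algebraMap F W c := by
    rintro c rfl
    exact hz (isAlgebraic_algebraMap c)
  have hz0 : z ≠ 0 := by
    have := hzc 0
    rwa [map_zero] at this
  obtain ⟨-, hfin, -⟩ := (All.zero F W hFF).1 z hzc
  have hpos : 0 < Module.finrank (IntermediateField.adjoin F {z}) W := Module.finrank_pos
  obtain ⟨m, hm⟩ : ∃ m : ℕ, d + 2 ≤ m := ⟨(d + 2).toNat, Int.self_le_toNat _⟩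
  have hdg := (hPl F W z hFF hz m).1
  have hdg' : d + 2 ≤ dg (pl F z m) := by
    rw [hdg]
    have h1 : (1 : ℤ) ≤ Module.finrank (IntermediateField.adjoin F {z}) W := by exact_mod_cast hpos
    have h2 : (0 : ℤ) ≤ m := by positivity
    nlinarith
  have hx0 : ∀ x : Plc F W, z ∈ x.ring → (pl F z m : Dv F W) x = 0 := by
    intro x hzx
    have h1 : 0 ≤ TPG.ord x z := (oo.mem x z hz0).1 hzx
    unfold pl
    rw [Finsupp.smul_apply, Finsupp.sup_apply, Finsupp.neg_apply, rr.dv_apply z x hz0]
    have h2 : (-TPG.ord x z) ⊔ (0 : Dv F W) x = 0 := by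
      rw [Finsupp.zero_apply]
      exact max_eq_right (by omega)
    rw [h2, smul_zero]
  have e1 := hd (pl F z m - Finsupp.single x₁ 1) (by rw [dg_sub, dg_single]; omega)
  have e2 := hd (pl F z m - Finsupp.single x₁ 1 - Finsupp.single x₂ 1)
    (by rw [dg_sub, dg_sub, dg_single, dg_single]; omega)
  rw [dg_sub, dg_single] at e1
  rw [dg_sub, dg_sub, dg_single, dg_single] at e2
  obtain ⟨y, hy, hy1, hy2⟩ := exists_two oo rr (pl F z m) x₁ x₂ hne (hx0 _ h₁) (hx0 _ h₂)
    (by omega)
  exact ⟨y, ((hPl F W z hFF hz m).2 y).1 hy |>.1, hy1, hy2⟩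

theorem adjoin_inv (x : W) :
    IntermediateField.adjoin F {x⁻¹} = IntermediateField.adjoin F {x} := by
  apply le_antisymm
  · rw [IntermediateField.adjoin_simple_le_iff]
    exact inv_mem (IntermediateField.mem_adjoin_simple_self F x)
  · rw [IntermediateField.adjoin_simple_le_iff]
    have := inv_mem (IntermediateField.mem_adjoin_simple_self F x⁻¹)
    rwa [inv_inv] at this

end Const

/-- Integral elements are in valuation rings. -/
theorem int_mem {E E' : Type*} [Field E] [Field E'] (φ : E →+* E') (V : ValuationSubring E')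
    (S : Set E) (hS : ∀ x ∈ S, φ x ∈ V) {a : E}
    (ha : a ∈ (integralClosure (Subring.closure S) E).toSubring) : φ a ∈ V := by
  have h1 : ∀ x ∈ Subring.closure S, φ x ∈ V := by
    have : Subring.closure S ≤ V.toSubring.comap φ := by
      rw [Subring.closure_le]
      exact hS
    exact this
  have ha' : IsIntegral (Subring.closure S) a := ha
  let f : Subring.closure S →+* V :=
    (φ.comp (Subring.closure S).subtype).codRestrict V.toSubring fun x => h1 x x.2
  have h2 : IsIntegral V (φ a) := IsIntegral.map_of_comp_eq f φ (by ext x; rfl) ha'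
  obtain ⟨y, hy⟩ := IsIntegrallyClosed.isIntegral_iff.1 h2
  rw [← hy]
  exact y.2

section Red

variable {C : Type u} {L : Type v} {F : Type u'} {Λ : Type v'} [Field C] [IsAlgClosed C] [Field L]
  [Field F] [IsAlgClosed F] [Field Λ] [Algebra C L] [Algebra F Λ] {R : Red C L F Λ} {g : ℕ}
  {sp : Plc C L → Plc F Λ}

/-- The value of `f` at `P` reduces to the value of `f̄` at `sp P`. -/
theorem value_compat (hg : Good R g) (hsp : IsSp R sp) (P : Plc C L) {f : L}
    (hf : f ∈ Rx R sp (sp P)) {c : C} (hc : P.ring.valuation (f - algebraMap C L c) < 1) :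
    algebraMap C L c ∈ R.w ∧
      (sp P).ring.valuation (R.res f - R.res (algebraMap C L c)) < 1 := by
  obtain ⟨-, d2, d3, -, d5⟩ := All.dsc C L F Λ R g sp hg hsp
  obtain ⟨c', hc'w, hc'⟩ := d5 (sp P) f P hf rfl
  obtain rfl := value_unique P f c c' hc hc'
  refine ⟨hc'w, ?_⟩
  have hcR : algebraMap C L c ∈ Rx R sp (sp P) := ⟨hc'w, fun Q _ => Q.const_mem c⟩
  have hfc : f - algebraMap C L c ∈ Rx R sp (sp P) := sub_mem hf hcR
  rw [← R.res_sub hf.1 hc'w]
  have hx := d2 (sp P) _ hfc
  rcases lt_or_eq_of_le (((sp P).ring.valuation_le_one_iff _).2 hx) with h | h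
  · exact h
  · exfalso
    have hne : R.res (f - algebraMap C L c) ≠ 0 := by
      intro h0
      rw [h0, map_zero] at h
      exact zero_ne_one h
    have oo := All.ord F Λ hg.ffF
    have h1 := (oo.mem (sp P) _ hne).1 hx
    have h2 := (oo.lt (sp P) _ hne).not.1 (by rw [h]; exact lt_irrefl _)
    have h3 := (d3 (sp P) _ hfc hne (by omega)).2 P rfl
    have h4 := (P.ring.valuation_le_one_iff _).2 h3
    have hne' : f - algebraMap C L c ≠ 0 := by
      intro h0
      rw [h0, R.res_zero] at hne
      exact hne rfl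
    have h5 : P.ring.valuation (f - algebraMap C L c) *
        P.ring.valuation (f - algebraMap C L c)⁻¹ = 1 := by
      rw [← map_mul, mul_inv_cancel₀ hne', map_one]
    have h6 := mul_lt_one_of_lt_of_le hc h4
    rw [h5] at h6
    exact lt_irrefl _ h6

omit [IsAlgClosed C] [IsAlgClosed F] in
theorem degEq_inv {t : L} (h : DegEq R t) : DegEq R t⁻¹ := by
  have h0 : R.res t ≠ 0 := by
    intro h0
    apply h.trans
    rw [h0]
    exact isAlgebraic_zero
  have h1 : R.res t⁻¹ = (R.res t)⁻¹ := R.res_inv h0
  refine ⟨Red.inv_mem h0, ?_, ?_, ?_, ?_⟩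
  · rw [h1]
    intro h2
    apply h.trans
    have h3 := h2.inv
    rwa [inv_inv] at h3
  · rw [adjoin_inv]; exact h.finC
  · rw [h1, adjoin_inv]; exact h.finF
  · rw [h1, adjoin_inv, adjoin_inv]; exact h.deg

end Red

section Fix

variable {k : Type} {K Ω : Type u} [Field k] [Field K] [Field Ω] [Algebra k K] [Algebra k Ω]
  [Algebra K Ω] [IsScalarTower k K Ω]

/-- The elements of `K C` are `K`-linear combinations of a basis of `C / k`. -/
theorem exists_rep {z : Ω} (hz : z ∈ IntermediateField.adjoin (algebraicClosure k Ω)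
    (Set.range (algebraMap K Ω))) :
    ∃ (ι : Type u) (b : ι → algebraicClosure k Ω) (s : Finset ι) (a : ι → K),
      LinearIndependent k b ∧ z = ∑ i ∈ s, algebraMap K Ω (a i) * (b i : Ω) := by
  have hE : z ∈ IntermediateField.adjoin K (Set.range (algebraMap (algebraicClosure k Ω) Ω)) := by
    induction hz using IntermediateField.adjoin_induction with
    | mem x hx => obtain ⟨a, rfl⟩ := hx; exact IntermediateField.algebraMap_mem _ a
    | algebraMap c => exact IntermediateField.subset_adjoin _ _ ⟨c, rfl⟩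
    | add x y _ _ hx hy => exact add_mem hx hy
    | inv x _ hx => exact inv_mem hx
    | mul x y _ _ hx hy => exact mul_mem hx hy
  have halg : ∀ x ∈ Set.range (algebraMap (algebraicClosure k Ω) Ω), IsAlgebraic K x := by
    rintro _ ⟨c, rfl⟩
    have h1 : IsAlgebraic k ((algebraMap (algebraicClosure k Ω) Ω) c) :=
      mem_algebraicClosure_iff.1 c.2
    exact h1.tower_top K
  rw [← IntermediateField.mem_toSubalgebra,
    IntermediateField.adjoin_toSubalgebra_of_isAlgebraic halg, ← Subalgebra.mem_toSubmodule,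
    Algebra.adjoin_eq_span] at hE
  have hM : (Submonoid.closure (Set.range (algebraMap (algebraicClosure k Ω) Ω)) : Set Ω) =
      Set.range (algebraMap (algebraicClosure k Ω) Ω) := by
    have h1 : Set.range (algebraMap (algebraicClosure k Ω) Ω) =
        (MonoidHom.mrange (algebraMap (algebraicClosure k Ω) Ω : algebraicClosure k Ω →* Ω) :
          Set Ω) := rfl
    rw [h1, Submonoid.closure_eq]
  rw [hM] at hE
  let b := Module.Basis.ofVectorSpace k (algebraicClosure k Ω)
  have hS : z ∈ Submodule.span K (Set.range fun i => (b i : Ω)) := by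
    refine Submodule.span_le.2 ?_ hE
    rintro _ ⟨c, rfl⟩
    have h1 : c ∈ Submodule.span k (Set.range b) := by rw [b.span_eq]; trivial
    change (algebraMap (algebraicClosure k Ω) Ω) c ∈
      Submodule.span K (Set.range fun i => (b i : Ω))
    induction h1 using Submodule.span_induction with
    | mem x hx =>
      obtain ⟨i, rfl⟩ := hx
      exact Submodule.subset_span ⟨i, rfl⟩
    | zero => rw [map_zero]; exact zero_mem _
    | add x y _ _ hx hy => rw [map_add]; exact add_mem hx hy
    | smul r x _ hx =>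
      have h2 : algebraMap (algebraicClosure k Ω) Ω (r • x) =
          algebraMap k K r • algebraMap (algebraicClosure k Ω) Ω x := by
        rw [Algebra.smul_def, Algebra.smul_def, map_mul, ← IsScalarTower.algebraMap_apply k K Ω]
        rfl
      rw [h2]
      exact Submodule.smul_mem _ _ hx
  rw [Finsupp.mem_span_range_iff_exists_finsupp] at hS
  obtain ⟨a, ha⟩ := hS
  refine ⟨_, b, a.support, a, b.linearIndependent, ?_⟩
  rw [← ha, Finsupp.sum]
  exact Finset.sum_congr rfl fun i _ => Algebra.smul_def _ _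

variable {L : IntermediateField (algebraicClosure k Ω) Ω}

/-- Linear combinations of constants that are independent over `k` are regular at a place over a
rational place if and only if the coefficients are. -/
theorem mem_iff (P : Plc (algebraicClosure k Ω) L) {A : ValuationSubring K}
    (hA : IsRationalPlace k K A) (hmem : ∀ a : K, algebraMap K Ω a ∈ L)
    (hPA : ∀ (z : L) (a : K), (z : Ω) = algebraMap K Ω a → (z ∈ P.ring ↔ a ∈ A))
    {ι : Type u} {b : ι → algebraicClosure k Ω} (hb : LinearIndependent k b) (s : Finset ι)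
    (a : ι → K) (z : L) (hz : (z : Ω) = ∑ i ∈ s, algebraMap K Ω (a i) * (b i : Ω)) :
    z ∈ P.ring ↔ ∀ i ∈ s, a i ∈ A := by
  classical
  let f : K →+* L := (algebraMap K Ω).codRestrict L.toSubring hmem
  have hf : ∀ a : K, ((f a : L) : Ω) = algebraMap K Ω a := fun a => rfl
  have hfA : ∀ a : K, f a ∈ P.ring ↔ a ∈ A := fun a => hPA _ a (hf a)
  have hflt : ∀ a : K, A.valuation a < 1 → P.ring.valuation (f a) < 1 := by
    intro a ha
    rw [FF1.val_lt_iff] at ha ⊢
    rcases ha with rfl | ha
    · left; exact map_zero f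
    · right
      rw [← map_inv₀, hfA]
      exact ha
  have hzL : z = ∑ i ∈ s, f (a i) * algebraMap (algebraicClosure k Ω) L (b i) := by
    apply Subtype.ext
    rw [hz]
    push_cast
    rfl
  constructor
  · intro hzP
    by_cases hall : ∀ i ∈ s, a i = 0
    · intro i hi
      rw [hall i hi]
      exact zero_mem A
    push Not at hall
    obtain ⟨i₀, hi₀, hai₀⟩ := hall
    obtain ⟨j, hj, hmax⟩ := Finset.exists_max_image s (fun i => A.valuation (a i)) ⟨i₀, hi₀⟩
    have haj : a j ≠ 0 := by
      intro h0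
      have h1 := hmax i₀ hi₀
      simp only [h0, map_zero] at h1
      have h2 : A.valuation (a i₀) = 0 := le_antisymm h1 zero_le
      exact hai₀ ((Valuation.zero_iff _).1 h2)
    have hvj : A.valuation (a j) ≠ 0 := (Valuation.ne_zero_iff _).2 haj
    have he : ∀ i ∈ s, a i / a j ∈ A := by
      intro i hi
      rw [← A.valuation_le_one_iff, map_div₀]
      exact div_le_one_of_le₀ (hmax i hi) zero_le
    have hr : ∀ i, ∃ r : k, i ∈ s → A.valuation (a i / a j - algebraMap k K r) < 1 := by
      intro i
      by_cases hi : i ∈ s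
      · obtain ⟨r, hr⟩ := hA.residue _ (he i hi)
        exact ⟨r, fun _ => hr⟩
      · exact ⟨0, fun h => absurd h hi⟩
    choose r hr using hr
    have hw : P.ring.valuation (∑ i ∈ s, f (a i / a j) * algebraMap _ L (b i) -
        algebraMap (algebraicClosure k Ω) L (∑ i ∈ s, r i • b i)) < 1 := by
      have e : ∑ i ∈ s, f (a i / a j) * algebraMap (algebraicClosure k Ω) L (b i) -
          algebraMap (algebraicClosure k Ω) L (∑ i ∈ s, r i • b i) =
          ∑ i ∈ s, f (a i / a j - algebraMap k K (r i)) *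
            algebraMap (algebraicClosure k Ω) L (b i) := by
        rw [map_sum, ← Finset.sum_sub_distrib]
        refine Finset.sum_congr rfl fun i _ => ?_
        have h3 : algebraMap (algebraicClosure k Ω) L (r i • b i) =
            f (algebraMap k K (r i)) * algebraMap (algebraicClosure k Ω) L (b i) := by
          apply Subtype.ext
          change ((r i • b i : algebraicClosure k Ω) : Ω) =
            algebraMap K Ω (algebraMap k K (r i)) * (b i : Ω)
          rw [← IsScalarTower.algebraMap_apply k K Ω, ← Algebra.smul_def]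
          rfl
        rw [h3, map_sub]
        ring
      rw [e]
      refine Valuation.map_sum_lt _ one_ne_zero fun i hi => ?_
      rw [map_mul]
      exact mul_lt_one_of_lt_of_le (hflt _ (hr i hi))
        ((P.ring.valuation_le_one_iff _).2 (P.const_mem _))
    have hc : ∑ i ∈ s, r i • b i ≠ 0 := by
      intro h0
      have h1 := linearIndependent_iff'.1 hb s r h0 j hj
      have h2 := hr j hj
      rw [h1, map_zero, sub_zero, div_self haj, map_one] at h2
      exact lt_irrefl _ h2
    have hw1 : 1 ≤ P.ring.valuation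
        (∑ i ∈ s, f (a i / a j) * algebraMap (algebraicClosure k Ω) L (b i)) := by
      by_contra hlt
      rw [not_le] at hlt
      apply hc
      apply const_zero P
      have e : algebraMap (algebraicClosure k Ω) L (∑ i ∈ s, r i • b i) =
          (∑ i ∈ s, f (a i / a j) * algebraMap (algebraicClosure k Ω) L (b i)) -
          (∑ i ∈ s, f (a i / a j) * algebraMap (algebraicClosure k Ω) L (b i) -
          algebraMap (algebraicClosure k Ω) L (∑ i ∈ s, r i • b i)) := by ring
      rw [e]
      exact (Valuation.map_sub _ _ _).trans_lt (max_lt hlt hw)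
    have hz2 : z = f (a j) *
        ∑ i ∈ s, f (a i / a j) * algebraMap (algebraicClosure k Ω) L (b i) := by
      rw [hzL, Finset.mul_sum]
      refine Finset.sum_congr rfl fun i _ => ?_
      rw [← mul_assoc, ← map_mul, mul_div_cancel₀ _ haj]
    have hajA : a j ∈ A := by
      rw [← hfA, ← P.ring.valuation_le_one_iff]
      have h1 := (P.ring.valuation_le_one_iff _).2 hzP
      rw [hz2, map_mul] at h1
      exact (le_mul_of_one_le_right' hw1).trans h1
    intro i hi
    have h1 : a i = a i / a j * a j := by rw [div_mul_cancel₀ _ haj]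
    rw [h1]
    exact mul_mem (he i hi) hajA
  · intro h
    rw [hzL]
    exact sum_mem fun i hi => mul_mem ((hfA _).2 (h i hi)) (P.const_mem _)

/-- A place over a rational place is fixed by the Galois group. -/
theorem fixed (hL : L = IntermediateField.adjoin (algebraicClosure k Ω)
      (Set.range (algebraMap K Ω))) (P : Plc (algebraicClosure k Ω) L) {A : ValuationSubring K}
    (hA : IsRationalPlace k K A)
    (hPA : ∀ (z : L) (a : K), (z : Ω) = algebraMap K Ω a → (z ∈ P.ring ↔ a ∈ A))
    (s : Ω ≃ₐ[K] Ω) (z z' : L) (hzz : (z' : Ω) = s z) : z ∈ P.ring ↔ z' ∈ P.ring := by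
  have hmem : ∀ a : K, algebraMap K Ω a ∈ L := by
    intro a
    rw [hL]
    exact IntermediateField.subset_adjoin _ _ ⟨a, rfl⟩
  obtain ⟨ι, b, T, a, hb, hz⟩ := exists_rep (k := k) (K := K) (z := (z : Ω)) (hL ▸ z.2)
  let σ : algebraicClosure k Ω ≃ₐ[k] algebraicClosure k Ω := (s.restrictScalars k).algebraicClosure
  have hσ : ∀ c : algebraicClosure k Ω, ((σ c : algebraicClosure k Ω) : Ω) = s c := fun c => rfl
  have hb' : LinearIndependent k fun i => σ (b i) :=
    hb.map' σ.toLinearMap (LinearMap.ker_eq_bot.2 σ.injective)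
  rw [mem_iff P hA hmem hPA hb T a z hz]
  rw [mem_iff P hA hmem hPA hb' T a z' (by
    rw [hzz, hz, map_sum]
    refine Finset.sum_congr rfl fun i _ => ?_
    rw [map_mul, s.commutes, hσ])]

omit [Algebra k K] [IsScalarTower k K Ω] in
/-- The value of `s z` at a fixed place. -/
theorem val_fixed (P : Plc (algebraicClosure k Ω) L)
    (hfix : ∀ (s : Ω ≃ₐ[K] Ω) (z z' : L), (z' : Ω) = s z → (z ∈ P.ring ↔ z' ∈ P.ring))
    (s : Ω ≃ₐ[K] Ω) (z z' : L) (c c' : algebraicClosure k Ω) (hz : (z' : Ω) = s z)
    (hc : (c' : Ω) = s (c : Ω))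
    (h : P.ring.valuation (z - algebraMap (algebraicClosure k Ω) L c) < 1) :
    P.ring.valuation (z' - algebraMap (algebraicClosure k Ω) L c') < 1 := by
  have h1 : ((z' - algebraMap (algebraicClosure k Ω) L c' : L) : Ω) =
      s ((z - algebraMap (algebraicClosure k Ω) L c : L) : Ω) := by
    change (z' : Ω) - (c' : Ω) = s ((z : Ω) - (c : Ω))
    rw [map_sub, hz, hc]
  have h3 : ∀ x : L, ((x⁻¹ : L) : Ω) = (x : Ω)⁻¹ := fun x => rfl
  rw [FF1.val_lt_iff] at h ⊢
  rcases h with h | h
  · left
    apply Subtype.ext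
    rw [h1, h]
    exact map_zero s
  · right
    intro h2
    apply h
    refine (hfix s _ _ ?_).2 h2
    rw [h3, h3, h1, map_inv₀]

end Fix

section Norm

/-- The norm of an element of the model ring is in the model ring. -/
theorem norm_model (p : ℕ) [Fact p.Prime] (k k' : Type) (K K' : Type u) [Field k] [Field k']
    [Field K] [Field K'] [Algebra ℚ_[p] k] [FiniteDimensional ℚ_[p] k] [Algebra ℚ_[p] k']
    [FiniteDimensional ℚ_[p] k'] [Algebra k k'] [IsScalarTower ℚ_[p] k k'] [Algebra k K]
    [Algebra k' K'] [Algebra K K'] [Algebra k K'] [IsScalarTower k k' K'] [IsScalarTower k K K']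
    [FiniteDimensional K K'] [Algebra.IsSeparable K K'] (z : K) (f : K')
    (hf : f ∈ modelRing p k' (algebraMap K K' z)) : Algebra.norm K f ∈ modelRing p k z := by
  have hcomp : GFG.phi p k' (algebraMap K K' z) = (algebraMap K K').comp (GFG.phi p k z) := by
    refine Polynomial.ringHom_ext (fun a => ?_) ?_
    · rw [GFG.phi_C, RingHom.comp_apply, GFG.phi_C, ← IsScalarTower.algebraMap_apply k K K',
        IsScalarTower.algebraMap_apply k k' K']
      congr 1
      change algebraMap ℚ_[p] k' _ = algebraMap k k' (algebraMap ℚ_[p] k _)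
      rw [← IsScalarTower.algebraMap_apply ℚ_[p] k k']
    · rw [GFG.phi_X, RingHom.comp_apply, GFG.phi_X]
  let _ : Algebra ℤ_[p][X] K := (GFG.phi p k z).toAlgebra
  let _ : Algebra ℤ_[p][X] K' := (GFG.phi p k' (algebraMap K K' z)).toAlgebra
  have _ : IsScalarTower ℤ_[p][X] K K' := IsScalarTower.of_algebraMap_eq fun x => by
    change GFG.phi p k' (algebraMap K K' z) x = algebraMap K K' (GFG.phi p k z x)
    rw [hcomp]
    rfl
  rw [GFG.int_iff] at hf ⊢
  obtain ⟨g, hg1, hg2, hg3⟩ := hf
  have h1 : IsIntegral ℤ_[p][X] f := GFG.isInt_of_poly g hg1 hg2 f hg3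
  exact GFG.poly_of_isInt _ (Algebra.isIntegral_norm (K := K) (L := K') h1)

theorem map_model (p : ℕ) [Fact p.Prime] (k k' : Type) (K K' : Type u) [Field k] [Field k']
    [Field K] [Field K'] [Algebra ℚ_[p] k] [FiniteDimensional ℚ_[p] k] [Algebra ℚ_[p] k']
    [FiniteDimensional ℚ_[p] k'] [Algebra k k'] [IsScalarTower ℚ_[p] k k'] [Algebra k K]
    [Algebra k' K'] [Algebra K K'] [Algebra k K'] [IsScalarTower k k' K'] [IsScalarTower k K K']
    (z : K) (f : K) (hf : f ∈ modelRing p k z) :
    algebraMap K K' f ∈ modelRing p k' (algebraMap K K' z) := by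
  have hcomp : GFG.phi p k' (algebraMap K K' z) = (algebraMap K K').comp (GFG.phi p k z) := by
    refine Polynomial.ringHom_ext (fun a => ?_) ?_
    · rw [GFG.phi_C, RingHom.comp_apply, GFG.phi_C, ← IsScalarTower.algebraMap_apply k K K',
        IsScalarTower.algebraMap_apply k k' K']
      congr 1
      change algebraMap ℚ_[p] k' _ = algebraMap k k' (algebraMap ℚ_[p] k _)
      rw [← IsScalarTower.algebraMap_apply ℚ_[p] k k']
    · rw [GFG.phi_X, RingHom.comp_apply, GFG.phi_X]
  rw [GFG.int_iff] at hf ⊢
  obtain ⟨g, hg1, hg2, hg3⟩ := hf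
  refine ⟨g.map (algebraMap K K'), hg1.map _, fun i => ?_, ?_⟩
  · obtain ⟨q, hq⟩ := hg2 i
    refine ⟨q, ?_⟩
    rw [hcomp, coeff_map, ← hq]
    rfl
  · rw [eval_map_algebraMap, aeval_algebraMap_apply, coe_aeval_eq_eval, hg3, map_zero]

end Norm

section Val

variable {p : ℕ} [Fact p.Prime] {k : Type} {C : Type u} [Field k] [Field C] [Algebra ℚ_[p] k]
  [Algebra k C] {Γ₀ : Type w} [LinearOrderedCommGroupWithZero Γ₀] {v : Valuation C Γ₀}

theorem lt_one_iff [FiniteDimensional ℚ_[p] k] (h : IsVal p k v) (c : k) :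
    v (algebraMap k C c) < 1 ↔ spectralNorm ℚ_[p] k c < 1 := by
  by_cases hc : c = 0
  · subst hc
    rw [map_zero, map_zero, spectralNorm_zero]
    exact ⟨fun _ => zero_lt_one, fun _ => zero_lt_one⟩
  · have hmul : spectralNorm ℚ_[p] k (c * c⁻¹) =
        spectralNorm ℚ_[p] k c * spectralNorm ℚ_[p] k c⁻¹ :=
      map_mul (spectralMulAlgNorm ℚ_[p] k) _ _
    have hone : spectralNorm ℚ_[p] k 1 = 1 := map_one (spectralMulAlgNorm ℚ_[p] k)
    rw [mul_inv_cancel₀ hc, hone] at hmul
    have h0 : 0 ≤ spectralNorm ℚ_[p] k c := spectralNorm_nonneg _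
    have h1 : 0 < v (algebraMap k C c) :=
      zero_lt_iff.mpr ((Valuation.ne_zero_iff v).mpr ((_root_.map_ne_zero _).2 hc))
    have h2 := h c⁻¹
    rw [map_inv₀, map_inv₀] at h2
    rw [← one_lt_inv₀ h1, ← not_le, h2, not_le]
    constructor
    · intro h3
      by_contra h4
      rw [not_lt] at h4
      nlinarith
    · intro h3
      by_contra h4
      rw [not_lt] at h4
      have h5 : 0 ≤ spectralNorm ℚ_[p] k c⁻¹ := spectralNorm_nonneg _
      nlinarith

end Val

/-- Constants that are fixed by all elements of `Gal(Ω / K)` that fix `k'` are in `k'`. -/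
theorem mem_const (k k' : Type) (K Ω : Type u) [Field k] [CharZero k] [Field k'] [Field K]
    [Field Ω] [Algebra k k'] [Algebra k K] [Algebra k Ω] [Algebra K Ω] [IsScalarTower k K Ω]
    [IsAlgClosure K Ω] [Algebra k' Ω] [Algebra k' (algebraicClosure k Ω)]
    [IsScalarTower k' (algebraicClosure k Ω) Ω] [IsScalarTower k k' Ω]
    (hconst : ∀ x : K, IsAlgebraic k x → ∃ c : k, x = algebraMap k K c)
    (c : algebraicClosure k Ω)
    (hc : ∀ s : Ω ≃ₐ[K] Ω, (∀ c : k', s (algebraMap k' Ω c) = algebraMap k' Ω c) →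
      s (c : Ω) = c) :
    ∃ c₀ : k', algebraMap k' (algebraicClosure k Ω) c₀ = c := by
  obtain ⟨hE1, -, hE3⟩ := stExt k K Ω hconst
  have htow : IsScalarTower k k' (algebraicClosure k Ω) := IsScalarTower.of_algebraMap_eq fun x => by
    apply Subtype.ext
    change algebraMap k Ω x =
      algebraMap (algebraicClosure k Ω) Ω (algebraMap k' (algebraicClosure k Ω) (algebraMap k k' x))
    rw [← IsScalarTower.algebraMap_apply k' (algebraicClosure k Ω) Ω,
      ← IsScalarTower.algebraMap_apply k k' Ω]
  have h1 : Algebra.IsAlgebraic k (algebraicClosure k Ω) := inferInstance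
  have h2 : Algebra.IsAlgebraic k' (algebraicClosure k Ω) :=
    Algebra.IsAlgebraic.tower_top (K := k) k'
  have h3 : CharZero k' := charZero_of_injective_algebraMap (algebraMap k k').injective
  have h4 : IsAlgClosure k' (algebraicClosure k Ω) := ⟨hE3, h2⟩
  have h5 : Normal k' (algebraicClosure k Ω) := IsAlgClosure.normal k' _
  have h6 : IsGalois k' (algebraicClosure k Ω) := ⟨⟩
  obtain ⟨c₀, hc₀⟩ := (InfiniteGalois.mem_range_algebraMap_iff_fixed
    (k := k') (K := algebraicClosure k Ω) c).2 (by
      intro σ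
      obtain ⟨s, hs⟩ := hE1 (σ.restrictScalars k)
      apply Subtype.ext
      have h7 := hc s (by
        intro d
        have h8 := hs (algebraMap k' (algebraicClosure k Ω) d)
        have h9 : ((algebraMap k' (algebraicClosure k Ω) d : algebraicClosure k Ω) : Ω) =
            algebraMap k' Ω d := (IsScalarTower.algebraMap_apply k' (algebraicClosure k Ω) Ω d).symm
        rw [h9] at h8
        rw [h8]
        change ((σ (algebraMap k' (algebraicClosure k Ω) d) : algebraicClosure k Ω) : Ω) = _
        rw [σ.commutes, h9])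
      rw [hs c] at h7
      exact h7)
  exact ⟨c₀, hc₀⟩

section More

variable {F : Type u} {W : Type v} [Field F] [Field W] [Algebra F W]

theorem mem_of_close (P : Plc F W) {f : W} {c : F}
    (h : P.ring.valuation (f - algebraMap F W c) < 1) : f ∈ P.ring := by
  have h1 : f - algebraMap F W c ∈ P.ring := (P.ring.valuation_le_one_iff _).1 h.le
  have h2 : f = (f - algebraMap F W c) + algebraMap F W c := by ring
  rw [h2]
  exact add_mem h1 (P.const_mem _)

theorem mul_close (P : Plc F W) {f f' : W} {c c' : F}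
    (h : P.ring.valuation (f - algebraMap F W c) < 1)
    (h' : P.ring.valuation (f' - algebraMap F W c') < 1) :
    P.ring.valuation (f * f' - algebraMap F W (c * c')) < 1 := by
  have e : f * f' - algebraMap F W (c * c') =
      f * (f' - algebraMap F W c') + algebraMap F W c' * (f - algebraMap F W c) := by
    rw [map_mul]; ring
  rw [e]
  refine (Valuation.map_add _ _ _).trans_lt (max_lt ?_ ?_)
  · rw [map_mul, mul_comm]
    exact mul_lt_one_of_lt_of_le h' ((P.ring.valuation_le_one_iff _).2 (mem_of_close P h))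
  · rw [map_mul, mul_comm]
    exact mul_lt_one_of_lt_of_le h ((P.ring.valuation_le_one_iff _).2 (P.const_mem _))

theorem prod_close (P : Plc F W) {ι : Type*} (s : Finset ι) (x : ι → W) (c : ι → F)
    (h : ∀ i ∈ s, P.ring.valuation (x i - algebraMap F W (c i)) < 1) :
    P.ring.valuation (∏ i ∈ s, x i - algebraMap F W (∏ i ∈ s, c i)) < 1 := by
  classical
  induction s using Finset.induction_on with
  | empty => simp
  | insert i s hi ih =>
    rw [Finset.prod_insert hi, Finset.prod_insert hi]
    exact mul_close P (h i (Finset.mem_insert_self i s))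
      (ih fun j hj => h j (Finset.mem_insert_of_mem hj))

theorem sum_close (P : Plc F W) {ι : Type*} (s : Finset ι) (x y : ι → W) (c : ι → F)
    (h : ∀ i ∈ s, P.ring.valuation (x i - y i) < 1) :
    P.ring.valuation (∑ i ∈ s, algebraMap F W (c i) * x i -
      ∑ i ∈ s, algebraMap F W (c i) * y i) < 1 := by
  rw [← Finset.sum_sub_distrib]
  refine Valuation.map_sum_lt _ one_ne_zero fun i hi => ?_
  rw [← mul_sub, map_mul, mul_comm]
  exact mul_lt_one_of_lt_of_le (h i hi) ((P.ring.valuation_le_one_iff _).2 (P.const_mem _))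

end More

theorem const_close {C : Type u} {L : Type v} {F : Type u'} {Λ : Type v'} [Field C] [Field L]
    [Field F] [Field Λ] [Algebra C L] [Algebra F Λ] (R : Red C L F Λ) (x : Plc F Λ) {c c' : C}
    (hc : algebraMap C L c ∈ R.w) (hc' : algebraMap C L c' ∈ R.w)
    (h : x.ring.valuation (R.res (algebraMap C L c) - R.res (algebraMap C L c')) < 1) :
    R.res (algebraMap C L c) = R.res (algebraMap C L c') := by
  obtain ⟨α, hα⟩ := R.const c hc
  obtain ⟨β, hβ⟩ := R.const c' hc'
  rw [hα, hβ, ← map_sub] at h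
  rw [hα, hβ, sub_eq_zero.1 (const_zero x _ h)]

theorem val_down {k : Type} {K Ω : Type u} [Field k] [Field K] [Field Ω] [Algebra k Ω]
    [Algebra K Ω] {L : IntermediateField (algebraicClosure k Ω) Ω}
    (P : Plc (algebraicClosure k Ω) L) (A : ValuationSubring K)
    (hPA : ∀ (z : L) (a : K), (z : Ω) = algebraMap K Ω a → (z ∈ P.ring ↔ a ∈ A)) (z : L) (a : K)
    (hz : (z : Ω) = algebraMap K Ω a) : P.ring.valuation z < 1 ↔ A.valuation a < 1 := by
  rw [FF1.val_lt_iff, FF1.val_lt_iff]
  have h0 : z = 0 ↔ a = 0 := by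
    constructor
    · rintro rfl
      exact (algebraMap K Ω).injective (by rw [← hz, map_zero]; rfl)
    · rintro rfl
      apply Subtype.ext
      rw [hz, map_zero]
      rfl
  have h1 : z⁻¹ ∈ P.ring ↔ a⁻¹ ∈ A := hPA z⁻¹ a⁻¹ (by rw [map_inv₀, ← hz]; rfl)
  rw [h0, h1]

end HSR

open HSR in
/-- H6. Reductions of rational places. -/
theorem stSR (h4 : StNrm.{u, u, u, u}) (h8 : StLvl.{u, u, u, u}) (h13 : StTr.{u, u, u, u})
    (hPl : StPl.{u, u}) : StSR.{u} := by
  classical
  intro p _ k k' K K' Ω F U _ _ _ _ _ _ _ _ _ _ _ _ _ _ _ _ _ _ _ _ _ _ _ _ _ _ _ _ _ _ _ _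
    R t L g hT hV hM hL hg sp hsp A B P Q hA hB hPA hQB
  have hCk : CharZero k := charZero_of_injective_algebraMap (algebraMap ℚ_[p] k).injective
  have hCK : CharZero K := charZero_of_injective_algebraMap (algebraMap k K).injective
  have hΩ : IsAlgClosed Ω := IsAlgClosure.isAlgClosed K
  have hC : IsAlgClosed (algebraicClosure k Ω) := IsAlgClosure.isAlgClosed k
  have htow : IsScalarTower k k' Ω := IsScalarTower.of_algebraMap_eq fun x => by
    rw [IsScalarTower.algebraMap_apply k' K' Ω, ← IsScalarTower.algebraMap_apply k k' K',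
      IsScalarTower.algebraMap_apply k K K', ← IsScalarTower.algebraMap_apply K K' Ω,
      ← IsScalarTower.algebraMap_apply k K Ω]
  have htowC : IsScalarTower k k' (algebraicClosure k Ω) :=
    IsScalarTower.of_algebraMap_eq fun x => by
      apply Subtype.ext
      change algebraMap k Ω x = algebraMap (algebraicClosure k Ω) Ω
        (algebraMap k' (algebraicClosure k Ω) (algebraMap k k' x))
      rw [← IsScalarTower.algebraMap_apply k' (algebraicClosure k Ω) Ω,
        ← IsScalarTower.algebraMap_apply k k' Ω]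
  have hCalg : Algebra.IsAlgebraic k (algebraicClosure k Ω) := inferInstance
  have hCalg' : Algebra.IsAlgebraic k' (algebraicClosure k Ω) :=
    Algebra.IsAlgebraic.tower_top (K := k) k'
  have hfk : FiniteDimensional k k' := GPk.fin_k p k k'
  have hfK : FiniteDimensional K K' := GPk.fin_K k hfk hT.comp
  have hNK : Normal K K' := K2Aux.normal_comp (k := k) (k' := k') inferInstance hT.comp
  have hGK : IsGalois K K' := ⟨⟩
  obtain ⟨hL', hres, hfixK', hext⟩ := stK2 p k k' K K' Ω F U R t L hT hV hM hL
  have hmem' : ∀ a : K', algebraMap K' Ω a ∈ L := by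
    intro a
    rw [hL']
    exact IntermediateField.subset_adjoin _ _ ⟨a, rfl⟩
  obtain ⟨ι, hι⟩ : ∃ ι : K' →+* L, ∀ a : K', ((ι a : L) : Ω) = algebraMap K' Ω a :=
    ⟨(algebraMap K' Ω).codRestrict L.toSubring hmem', fun a => rfl⟩
  have hιK : ∀ a : K, ((ι (algebraMap K K' a) : L) : Ω) = algebraMap K Ω a := fun a => by
    rw [hι, ← IsScalarTower.algebraMap_apply K K' Ω]
  have hιc : ∀ c : k', ι (algebraMap k' K' c) =
      algebraMap (algebraicClosure k Ω) L (algebraMap k' (algebraicClosure k Ω) c) := by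
    intro c
    apply Subtype.ext
    rw [hι, ← IsScalarTower.algebraMap_apply k' K' Ω]
    exact IsScalarTower.algebraMap_apply k' (algebraicClosure k Ω) Ω c
  have fixP := fixed hL P hA hPA
  have fixQ := fixed hL Q hB hQB
  have hdeg : DegEq (R.sub L) (ι (algebraMap K K' t)) :=
    (h8 p k' K' Ω _ F U R (algebraMap K K' t) hM L hL').1 _ (hι _)
  have hz' : ∀ z ∈ ({t, t⁻¹} : Set K),
      algebraMap K K' z ∈ ({algebraMap K K' t, (algebraMap K K' t)⁻¹} : Set K') ∧
      DegEq (R.sub L) (ι (algebraMap K K' z)) := by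
    rintro z (rfl | hz)
    · exact ⟨Or.inl rfl, hdeg⟩
    · rw [Set.mem_singleton_iff] at hz
      subst hz
      rw [map_inv₀, map_inv₀]
      exact ⟨Or.inr rfl, degEq_inv hdeg⟩
  have hRx : ∀ z ∈ ({t, t⁻¹} : Set K), ∀ x : Plc F (R.img L),
      (R.sub L).res (ι (algebraMap K K' z)) ∈ x.ring →
      ∀ f ∈ modelRing p k' (algebraMap K K' z), ι f ∈ Rx (R.sub L) sp x := by
    intro z hz x hx f hf
    obtain ⟨hz1, hz2⟩ := hz' z hz
    refine ⟨?_, fun P' hP' => ?_⟩
    · rw [Red.mem_sub_w, hι]
      exact (stMA p k' K' Ω _ F U R _ hM _ hz1 ⟨f, hf⟩).1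
    · refine int_mem ι P'.ring _ ?_ hf
      rintro y (rfl | ⟨c, hc, rfl⟩)
      · exact stPolSp All.ord All.deg All.rrf _ L F (R.img L) (R.sub L) g sp _ hg hsp hz2 P'
          (by rw [hP']; exact hx)
      · rw [hιc]
        exact P'.const_mem _
  have hdn : ∀ (P : Plc (algebraicClosure k Ω) L) (A : ValuationSubring K),
      (∀ (z : L) (a : K), (z : Ω) = algebraMap K Ω a → (z ∈ P.ring ↔ a ∈ A)) →
      ∀ (f : K) (a : k), A.valuation (f - algebraMap k K a) < 1 ↔
        P.ring.valuation (ι (algebraMap K K' f) - algebraMap (algebraicClosure k Ω) L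
          (algebraMap k (algebraicClosure k Ω) a)) < 1 := by
    intro P A hPA f a
    refine (val_down P A hPA _ _ ?_).symm
    rw [map_sub, ← hιK f, ← IsScalarTower.algebraMap_apply k K Ω]
    rfl
  constructor
  · intro hPQ
    obtain ⟨z, hz, hzx⟩ : ∃ z ∈ ({t, t⁻¹} : Set K),
        (R.sub L).res (ι (algebraMap K K' z)) ∈ (sp P).ring := by
      rcases (sp P).ring.mem_or_inv_mem ((R.sub L).res (ι (algebraMap K K' t))) with h | h
      · exact ⟨t, Or.inl rfl, h⟩
      · refine ⟨t⁻¹, Or.inr rfl, ?_⟩
        have h0 : (R.sub L).res (ι (algebraMap K K' t)) ≠ 0 := by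
          intro h0
          apply hdeg.trans
          rw [h0]
          exact isAlgebraic_zero
        rw [map_inv₀, map_inv₀, (R.sub L).res_inv h0]
        exact h
    refine ⟨z, hz, fun f hf => ?_⟩
    have hf' := map_model p k k' K K' z f hf
    have hfP : ι (algebraMap K K' f) ∈ Rx (R.sub L) sp (sp P) := hRx z hz _ hzx _ hf'
    have hfQ : ι (algebraMap K K' f) ∈ Rx (R.sub L) sp (sp Q) := by
      rw [← hPQ]
      exact hfP
    obtain ⟨a, ha⟩ := hA.residue f ((hPA _ f (hιK f)).1 (hfP.2 P rfl))
    obtain ⟨b, hb⟩ := hB.residue f ((hQB _ f (hιK f)).1 (hfQ.2 Q rfl))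
    obtain ⟨ha1, ha2⟩ := value_compat hg hsp P hfP ((hdn P A hPA f a).1 ha)
    obtain ⟨hb1, hb2⟩ := value_compat hg hsp Q hfQ ((hdn Q B hQB f b).1 hb)
    rw [← hPQ] at hb2
    refine ⟨a, b, ha, hb, (hV a).1 ((R.w.valuation_le_one_iff _).2 ha1),
      (hV b).1 ((R.w.valuation_le_one_iff _).2 hb1), ?_⟩
    rw [← lt_one_iff hV]
    have h1 := const_close (R.sub L) (sp P) ha1 hb1 (by
      have e : (R.sub L).res (algebraMap (algebraicClosure k Ω) L
            (algebraMap k (algebraicClosure k Ω) a)) -
          (R.sub L).res (algebraMap (algebraicClosure k Ω) L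
            (algebraMap k (algebraicClosure k Ω) b)) =
          ((R.sub L).res (ι (algebraMap K K' f)) -
            (R.sub L).res (algebraMap (algebraicClosure k Ω) L
              (algebraMap k (algebraicClosure k Ω) b))) -
          ((R.sub L).res (ι (algebraMap K K' f)) -
            (R.sub L).res (algebraMap (algebraicClosure k Ω) L
              (algebraMap k (algebraicClosure k Ω) a))) := by ring
      rw [e]
      exact (Valuation.map_sub _ _ _).trans_lt (max_lt hb2 ha2))
    have h2 : R.res (algebraMap (algebraicClosure k Ω) Ω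
        (algebraMap k (algebraicClosure k Ω) a)) = R.res (algebraMap (algebraicClosure k Ω) Ω
        (algebraMap k (algebraicClosure k Ω) b)) := congrArg Subtype.val h1
    have ha3 : algebraMap (algebraicClosure k Ω) Ω (algebraMap k (algebraicClosure k Ω) a) ∈ R.w :=
      ha1
    have hb3 : algebraMap (algebraicClosure k Ω) Ω (algebraMap k (algebraicClosure k Ω) b) ∈ R.w :=
      hb1
    have h3 : R.res (algebraMap (algebraicClosure k Ω) Ω
        (algebraMap k (algebraicClosure k Ω) (a - b))) = 0 := by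
      rw [map_sub, map_sub, R.res_sub ha3 hb3, h2, sub_self]
    have h4 : algebraMap (algebraicClosure k Ω) Ω
        (algebraMap k (algebraicClosure k Ω) (a - b)) ∈ R.w := by
      rw [map_sub, map_sub]
      exact sub_mem ha3 hb3
    exact (R.res_lt _ h4).1 h3
  · rintro ⟨z, hz, hS⟩
    obtain ⟨hz1, hz2⟩ := hz' z hz
    have hzi : z⁻¹ ∈ ({t, t⁻¹} : Set K) := by
      rcases hz with rfl | hz
      · exact Or.inr rfl
      · rw [Set.mem_singleton_iff] at hz
        subst hz
        rw [inv_inv]
        exact Or.inl rfl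
    have hgen : ∀ z : K, z ∈ modelRing p k z := fun z =>
      (integralClosure _ K).algebraMap_mem
        (⟨z, Subring.subset_closure (Set.mem_insert _ _)⟩ : Subring.closure
          (insert z (algebraMap k K '' {c : k | spectralNorm ℚ_[p] k c ≤ 1})))
    -- the function `z̄` is regular at the two places
    have hreg : ∀ (P : Plc (algebraicClosure k Ω) L) (A : ValuationSubring K),
        (∀ (z : L) (a : K), (z : Ω) = algebraMap K Ω a → (z ∈ P.ring ↔ a ∈ A)) →
        (∃ a : k, A.valuation (z - algebraMap k K a) < 1 ∧ spectralNorm ℚ_[p] k a ≤ 1) →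
        (R.sub L).res (ι (algebraMap K K' z)) ∈ (sp P).ring := by
      rintro P A hPA ⟨a, ha, ha1⟩
      by_contra hcon
      have h0 : (R.sub L).res (ι (algebraMap K K' z)) ≠ 0 := by
        intro h0
        rw [h0] at hcon
        exact hcon (zero_mem _)
      have hinv : (R.sub L).res (ι (algebraMap K K' z⁻¹)) =
          ((R.sub L).res (ι (algebraMap K K' z)))⁻¹ := by
        rw [map_inv₀, map_inv₀, (R.sub L).res_inv h0]
      have h1 : (R.sub L).res (ι (algebraMap K K' z⁻¹)) ∈ (sp P).ring := by
        rw [hinv]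
        exact ((sp P).ring.mem_or_inv_mem _).resolve_left hcon
      have h2 : (sp P).ring.valuation ((R.sub L).res (ι (algebraMap K K' z⁻¹))) < 1 := by
        rw [FF1.val_lt_iff]
        right
        rw [hinv, inv_inv]
        exact hcon
      have h3 := hRx z⁻¹ hzi (sp P) h1 _ (map_model p k k' K K' z⁻¹ z⁻¹ (hgen _))
      obtain ⟨c, hc⟩ := All.resF (algebraicClosure k Ω) L hg.ffC P _ (h3.2 P rfl)
      obtain ⟨hc1, hc2⟩ := value_compat hg hsp P h3 hc
      have hc3 : (sp P).ring.valuation
          ((R.sub L).res (algebraMap (algebraicClosure k Ω) L c)) < 1 := by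
        have e : (R.sub L).res (algebraMap (algebraicClosure k Ω) L c) =
            (R.sub L).res (ι (algebraMap K K' z⁻¹)) - ((R.sub L).res (ι (algebraMap K K' z⁻¹)) -
              (R.sub L).res (algebraMap (algebraicClosure k Ω) L c)) := by ring
        rw [e]
        exact (Valuation.map_sub _ _ _).trans_lt (max_lt h2 hc2)
      have hc4 : (R.sub L).res (algebraMap (algebraicClosure k Ω) L c) = 0 := by
        obtain ⟨γ, hγ⟩ := (R.sub L).const c hc1
        rw [hγ] at hc3 ⊢
        rw [const_zero _ _ hc3, map_zero]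
      have hc5 : R.v c < 1 := by
        have h6 : R.res (algebraMap (algebraicClosure k Ω) Ω c) = 0 := congrArg Subtype.val hc4
        have h7 : algebraMap (algebraicClosure k Ω) Ω c ∈ R.w := hc1
        exact (R.res_lt _ h7).1 h6
      have h8 := mul_close P ((hdn P A hPA z a).1 ha) hc
      have h9 : ι (algebraMap K K' z) * ι (algebraMap K K' z⁻¹) = 1 := by
        have hz0 : z ≠ 0 := by
          rintro rfl
          apply h0
          rw [map_zero, map_zero, (R.sub L).res_zero]
        rw [← map_mul, ← map_mul, mul_inv_cancel₀ hz0, map_one, map_one]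
      rw [h9] at h8
      have h10 : (algebraMap k (algebraicClosure k Ω) a) * c = 1 := by
        have h11 : P.ring.valuation (1 - algebraMap (algebraicClosure k Ω) L 1) < 1 := by
          rw [map_one, sub_self, map_zero]
          exact zero_lt_one
        exact value_unique P 1 _ _ h8 h11
      have h12 : R.v (algebraMap k (algebraicClosure k Ω) a) * R.v c = 1 := by
        rw [← map_mul, h10, map_one]
      have h13 : R.v c * R.v (algebraMap k (algebraicClosure k Ω) a) < 1 :=
        mul_lt_one_of_lt_of_le hc5 ((hV a).2 ha1)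
      rw [mul_comm, h12] at h13
      exact lt_irrefl _ h13
    obtain ⟨a₀, b₀, ha₀, hb₀, ha₀', hb₀', -⟩ := hS z (hgen z)
    have hxP := hreg P A hPA ⟨a₀, ha₀, ha₀'⟩
    have hxQ := hreg Q B hQB ⟨b₀, hb₀, hb₀'⟩
    by_contra hne
    obtain ⟨y, hy, hyP, hyQ⟩ := exists_sep hPl hg.ffF (sp P) (sp Q) hne
      ((R.sub L).res (ι (algebraMap K K' z))) hz2.trans hxP hxQ
    obtain ⟨n, c, f, hfw, hyf, hint⟩ := h13 p k' K' Ω _ F U R (algebraMap K K' t) hM L hL' y y.2
    have hyint : IsIntegral (Algebra.adjoin F {R.res (algebraMap K' Ω (algebraMap K K' z))})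
        (y : U) := by
      have e1 : (((R.sub L).res (ι (algebraMap K K' z)) : R.img L) : U) =
          R.res (algebraMap K' Ω (algebraMap K K' z)) := by
        rw [Red.sub_res, hι]
      rw [← e1]
      have e2 : ∀ w ∈ Algebra.adjoin F {(R.sub L).res (ι (algebraMap K K' z))},
          (w : U) ∈ Algebra.adjoin F {(((R.sub L).res (ι (algebraMap K K' z)) : R.img L) : U)} := by
        intro w hw
        induction hw using Algebra.adjoin_induction with
        | mem x hx =>
          rw [Set.mem_singleton_iff] at hx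
          rw [hx]
          exact Algebra.subset_adjoin rfl
        | algebraMap r => exact Subalgebra.algebraMap_mem _ r
        | add x y _ _ hx hy => exact add_mem hx hy
        | mul x y _ _ hx hy => exact mul_mem hx hy
      let φ : Algebra.adjoin F {(R.sub L).res (ι (algebraMap K K' z))} →+*
          Algebra.adjoin F {(((R.sub L).res (ι (algebraMap K K' z)) : R.img L) : U)} :=
        ((algebraMap (R.img L) U).comp (algebraMap _ (R.img L))).codRestrict
          (Algebra.adjoin F {(((R.sub L).res (ι (algebraMap K K' z)) : R.img L) : U)}).toSubring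
          (fun w => e2 w w.2)
      exact IsIntegral.map_of_comp_eq φ (algebraMap (R.img L) U) (by ext w; rfl) hy
    have hfi : ∀ i, IsIntegral
        (Algebra.adjoin F {R.res (algebraMap K' Ω (algebraMap K K' z))})
        (R.res (algebraMap K' Ω (f i))) := by
      intro i
      have := hint _ hz1 1 (by rw [map_one]; exact one_mem _)
        (by rw [map_one, R.res_one, mul_one]; exact hyint) i
      rwa [map_one, R.res_one, mul_one] at this
    choose a ha har using fun i => (h4 p k' K' Ω _ F U R _ hM).1 _ hz1 (f i) (hfw i) (hfi i)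
    -- the values of the elements of `A'(z)` at the two places
    have hvalue : ∀ P : Plc (algebraicClosure k Ω) L,
        (∀ (s : Ω ≃ₐ[K] Ω) (z z' : L), (z' : Ω) = s z → (z ∈ P.ring ↔ z' ∈ P.ring)) →
        ∀ b : K', ι b ∈ P.ring → ∃ β : k', P.ring.valuation (ι b -
          algebraMap (algebraicClosure k Ω) L (algebraMap k' (algebraicClosure k Ω) β)) < 1 := by
      intro P fixP b hb
      obtain ⟨c, hc⟩ := All.resF (algebraicClosure k Ω) L hg.ffC P _ hb
      obtain ⟨β, hβ⟩ := mem_const k k' K Ω hT.const c (by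
        intro s hs
        have h1 : s ((ι b : L) : Ω) = ((ι b : L) : Ω) := by
          rw [hι]
          exact hfixK' s hs b
        obtain ⟨σ, hσ⟩ := (stExt k K Ω hT.const).2.1 s
        have h2 := val_fixed P fixP s (ι b) (ι b) c (σ c) h1.symm (hσ c).symm hc
        rw [hσ c, value_unique P _ _ _ h2 hc])
      exact ⟨β, by rw [hβ]; exact hc⟩
    have haP : ∀ i, ι (a i) ∈ Rx (R.sub L) sp (sp P) := fun i => hRx z hz _ hxP _ (ha i)
    have haQ : ∀ i, ι (a i) ∈ Rx (R.sub L) sp (sp Q) := fun i => hRx z hz _ hxQ _ (ha i)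
    choose α hα using fun i => hvalue P fixP (a i) ((haP i).2 P rfl)
    choose β hβ using fun i => hvalue Q fixQ (a i) ((haQ i).2 Q rfl)
    have hα' := fun i => value_compat hg hsp P (haP i) (hα i)
    have hβ' := fun i => value_compat hg hsp Q (haQ i) (hβ i)
    have hk' : ∀ c : k', ((algebraMap (algebraicClosure k Ω) L
        (algebraMap k' (algebraicClosure k Ω) c) : L) : Ω) = algebraMap k' Ω c := fun c =>
      (IsScalarTower.algebraMap_apply k' (algebraicClosure k Ω) Ω c).symm
    have hex : ∃ i, R.res (algebraMap k' Ω (β i - α i)) ≠ 0 := by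
      by_contra hall
      push Not at hall
      apply hyQ
      have hyL : y = ∑ i, algebraMap F (R.img L) (c i) * (R.sub L).res (ι (a i)) := by
        apply Subtype.ext
        rw [hyf]
        push_cast
        refine Finset.sum_congr rfl fun i _ => ?_
        rw [← har i, Red.sub_res, hι]
      have e1 := sum_close (sp P) Finset.univ (fun i => (R.sub L).res (ι (a i)))
        (fun i => (R.sub L).res (algebraMap (algebraicClosure k Ω) L
          (algebraMap k' (algebraicClosure k Ω) (α i)))) c (fun i _ => (hα' i).2)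
      have e2 := sum_close (sp Q) Finset.univ (fun i => (R.sub L).res (ι (a i)))
        (fun i => (R.sub L).res (algebraMap (algebraicClosure k Ω) L
          (algebraMap k' (algebraicClosure k Ω) (β i)))) c (fun i _ => (hβ' i).2)
      rw [← hyL] at e1 e2
      have e3 : ∀ i, (R.sub L).res (algebraMap (algebraicClosure k Ω) L
          (algebraMap k' (algebraicClosure k Ω) (β i))) =
          (R.sub L).res (algebraMap (algebraicClosure k Ω) L
          (algebraMap k' (algebraicClosure k Ω) (α i))) := by
        intro i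
        rw [← sub_eq_zero, ← (R.sub L).res_sub (hβ' i).1 (hα' i).1]
        apply Subtype.ext
        rw [Red.sub_res, ← map_sub, ← map_sub, hk', hall i]
        rfl
      simp only [e3] at e2
      obtain ⟨γ, hγ⟩ : ∃ γ : F, ∑ i, algebraMap F (R.img L) (c i) *
          (R.sub L).res (algebraMap (algebraicClosure k Ω) L
          (algebraMap k' (algebraicClosure k Ω) (α i))) = algebraMap F (R.img L) γ := by
        choose δ hδ using fun i => (R.sub L).const _ (hα' i).1
        refine ⟨∑ i, c i * δ i, ?_⟩
        rw [map_sum]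
        refine Finset.sum_congr rfl fun i _ => ?_
        rw [hδ, map_mul]
      rw [hγ] at e1 e2
      have e4 : γ = 0 := by
        apply const_zero (sp P)
        have e : algebraMap F (R.img L) γ = y - (y - algebraMap F (R.img L) γ) := by ring
        rw [e]
        exact (Valuation.map_sub _ _ _).trans_lt (max_lt hyP e1)
      rw [e4, map_zero, sub_zero] at e2
      exact e2
    obtain ⟨i, hi⟩ := hex
    -- the function `f₀`
    have hαi : spectralNorm ℚ_[p] k' (α i) ≤ 1 := by
      rw [← hM.int]
      have := (hα' i).1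
      rw [Red.mem_sub_w, hk'] at this
      exact this
    have hf₀ : a i - algebraMap k' K' (α i) ∈ modelRing p k' (algebraMap K K' z) := by
      refine sub_mem (ha i) ?_
      exact (integralClosure _ K').algebraMap_mem
        (⟨algebraMap k' K' (α i), Subring.subset_closure (Set.mem_insert_of_mem _
          ⟨_, hαi, rfl⟩)⟩ : Subring.closure (insert (algebraMap K K' z)
            (algebraMap k' K' '' {c : k' | spectralNorm ℚ_[p] k' c ≤ 1})))
    obtain ⟨f₀, hf₀e⟩ : ∃ f₀, f₀ = a i - algebraMap k' K' (α i) := ⟨_, rfl⟩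
    rw [← hf₀e] at hf₀
    have hf₀ι : ι f₀ = ι (a i) - algebraMap (algebraicClosure k Ω) L
        (algebraMap k' (algebraicClosure k Ω) (α i)) := by
      rw [hf₀e, map_sub, hιc]
    have hP₀ : P.ring.valuation (ι f₀) < 1 := by
      rw [hf₀ι]
      exact hα i
    have hQ₀ : Q.ring.valuation (ι f₀ - algebraMap (algebraicClosure k Ω) L
        (algebraMap k' (algebraicClosure k Ω) (β i - α i))) < 1 := by
      have e : ι f₀ - algebraMap (algebraicClosure k Ω) L
          (algebraMap k' (algebraicClosure k Ω) (β i - α i)) = ι (a i) -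
          algebraMap (algebraicClosure k Ω) L (algebraMap k' (algebraicClosure k Ω) (β i)) := by
        rw [hf₀ι, map_sub, map_sub]
        ring
      rw [e]
      exact hβ i
    have hN := norm_model p k k' K K' z f₀ hf₀
    obtain ⟨a₁, b₁, hA1, hB1, -, -, hab⟩ := hS _ hN
    have hprod : ι (algebraMap K K' (Algebra.norm K f₀)) = ∏ σ : K' ≃ₐ[K] K', ι (σ f₀) := by
      rw [Algebra.norm_eq_prod_automorphisms, map_prod]
    choose s hs using hext
    -- the value at `P` is `0`
    have hsP : ∀ σ : K' ≃ₐ[K] K', ι (σ f₀) ∈ P.ring := by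
      intro σ
      have h1 : ι f₀ ∈ P.ring := (P.ring.valuation_le_one_iff _).1 hP₀.le
      exact (fixP (s σ) (ι f₀) (ι (σ f₀)) (by rw [hι, hι, hs])).1 h1
    have hNP : P.ring.valuation (ι (algebraMap K K' (Algebra.norm K f₀))) < 1 := by
      rw [hprod, map_prod, ← Finset.mul_prod_erase Finset.univ _ (Finset.mem_univ AlgEquiv.refl)]
      refine mul_lt_one_of_lt_of_le hP₀ ?_
      exact Finset.prod_le_one' fun σ _ => (P.ring.valuation_le_one_iff _).2 (hsP σ)
    have ha₁ : a₁ = 0 := by
      have h1 := (hdn P A hPA _ _).1 hA1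
      have h2 : algebraMap k (algebraicClosure k Ω) a₁ = 0 := by
        apply const_zero P
        have e : algebraMap (algebraicClosure k Ω) L (algebraMap k (algebraicClosure k Ω) a₁) =
            ι (algebraMap K K' (Algebra.norm K f₀)) -
            (ι (algebraMap K K' (Algebra.norm K f₀)) -
              algebraMap (algebraicClosure k Ω) L (algebraMap k (algebraicClosure k Ω) a₁)) := by
          ring
        rw [e]
        exact (Valuation.map_sub _ _ _).trans_lt (max_lt hNP h1)
      exact (map_eq_zero _).1 h2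
    rw [ha₁, zero_sub] at hab
    -- the value at `Q` is a unit
    choose τ hτ using (stExt k K Ω hT.const).2.1
    have hinv := (stVInv p k (algebraicClosure k Ω) _ R.v hV).1
    have hNQ : Q.ring.valuation (ι (algebraMap K K' (Algebra.norm K f₀)) -
        algebraMap (algebraicClosure k Ω) L (∏ σ : K' ≃ₐ[K] K',
          τ (s σ) (algebraMap k' (algebraicClosure k Ω) (β i - α i)))) < 1 := by
      rw [hprod]
      refine prod_close Q _ _ _ fun σ _ => ?_
      exact val_fixed Q fixQ (s σ) (ι f₀) (ι (σ f₀)) _ _ (by rw [hι, hι, hs]) (hτ _ _).symm hQ₀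
    have hb₁ := value_unique Q _ _ _ ((hdn Q B hQB _ _).1 hB1) hNQ
    have hunit : R.v (algebraMap k' (algebraicClosure k Ω) (β i - α i)) = 1 := by
      have h1 : R.w.valuation (algebraMap k' Ω (β i - α i)) = 1 := Red.val_eq_one hi
      have h2 : R.v (algebraMap k' (algebraicClosure k Ω) (β i - α i)) =
          R.w.valuation (algebraMap (algebraicClosure k Ω) Ω
            (algebraMap k' (algebraicClosure k Ω) (β i - α i))) := rfl
      rw [h2, ← IsScalarTower.algebraMap_apply k' (algebraicClosure k Ω) Ω]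
      exact h1
    have hone : R.v (algebraMap k (algebraicClosure k Ω) b₁) = 1 := by
      rw [hb₁, map_prod]
      refine Finset.prod_eq_one fun σ _ => ?_
      rw [hinv, hunit]
    have hlt : R.v (algebraMap k (algebraicClosure k Ω) (-b₁)) < 1 := (lt_one_iff hV _).2 hab
    rw [map_neg, Valuation.map_neg, hone] at hlt
    exact lt_irrefl _ hlt

end Pool.Agent.Lib.MP_c385f6_ag.TPG
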