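import Pool.Agent.Lib.MP_c385f6_ag.TPG.AllG
import Pool.Agent.Lib.MP_c385f6_ag.TPG.GPkCrd
import Pool.Agent.Lib.MP_c385f6_ag.TPG.GPkTwo
import Pool.Agent.Lib.MP_c385f6_ag.TPG.HPC
import Pool.Agent.Lib.MP_c385f6_ag.TPG.HSR
import Pool.Agent.Lib.MP_c385f6_ag.TPG.HSame
import Pool.Agent.Lib.MP_c385f6_ag.TPG.HMain
import Pool.Agent.Lib.MP_c385f6_ag.TPG.HFP
import Pool.Agent.Lib.MP_c385f6_ag.TPG.FinConj
import Pool.Agent.Lib.MP_c385f6_ag.Semi.Lift

/-!
Project TPG: the final theorem without hypotheses.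
-/

set_option autoImplicit false

namespace Pool.Agent.Lib.MP_c385f6_ag.TPG.AllH

universe u v u' v' w

theorem pkCrd : StPkCrd.{u} :=
  stPkCrd AllG.unf AllG.tr AllG.nrm AllG.teich AllG.polSp AllG.lvl AllG.k2 AllG.ma
theorem sr : StSR.{u} := stSR AllG.nrm AllG.lvl AllG.tr AllG.pl
theorem pk2 : StPk2.{u} :=
  stPk2 AllG.k2 AllG.fp AllG.goodL AllG.redEx AllG.pkStab AllG.pkRam pkCrd All.rat sr
theorem pc : StPC.{u, u', v'} := stPC AllG.towUr AllG.cptT All.twDir All.ord All.resF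
theorem fP : StFP.{u, u', v'} := stFP
theorem main : StMain.{u, u', v'} :=
  stMain pc AllG.cptT AllG.edRho AllG.edDat AllE.e8 fP AllG.twPl
theorem same : StSame.{u, u', v'} :=
  stSame AllG.twSp AllE.e9 AllG.twPl AllG.edRho AllG.edDat pc AllG.cptT

/-- The final theorem. -/
theorem fin : StFin.{u} := stFin pk2 pc main same

open Semi (Sec IsSec SecAt)

/-- Sections of `Gal(N / K)` restrict to sections for the smallest prime closed field. -/
theorem lifts (p : ℕ) (k : Type) (K Ω : Type u) [Field k] [Field K] [Field Ω] [Algebra k K]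
    [Algebra k Ω] [Algebra K Ω] [IsScalarTower k K Ω] [IsAlgClosure K Ω]
    (hT : PrimeClosed p k K Ω (primeTower p k K Ω)) (N : IntermediateField K Ω)
    (hN : PrimeClosed p k K Ω N) :
    primeTower p k K Ω ≤ N ∧
      ∀ s : Sec k K Ω N, ∃ s₀ : Sec k K Ω (primeTower p k K Ω), s.Lifts s₀ := by
  have hle : primeTower p k K Ω ≤ N := sInf_le hN
  have halg : Algebra.IsAlgebraic K Ω := IsAlgClosure.isAlgebraic
  have hn : Normal K (primeTower p k K Ω) := hT.galois.to_normal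
  refine ⟨hle, fun s => ?_⟩
  obtain ⟨σ, hσ, hσ'⟩ := Semi.exists_restrict hle s.isSec
  refine ⟨hσ.toSec, fun g z' z hz => ?_⟩
  have h1 : z' = IntermediateField.inclusion hle z := Subtype.ext hz
  rw [h1]
  exact (hσ' g z).symm

end Pool.Agent.Lib.MP_c385f6_ag.TPG.AllH
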