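import Pool.Agent.Lib.MP_c385f6_ag.TPG.StB

/-!
Project TPG, B16: the number of the fixed effective divisors in the class of a fixed divisor.
-/

set_option autoImplicit false

namespace Pool.Agent.Lib.MP_c385f6_ag.TPG

universe u v

namespace BCnt

variable {F : Type u} {W : Type v} [Field F] [Field W] [Algebra F W]

theorem dv_ext (R : RRF F W) {f h : W} (hf : f ≠ 0) (hh : h ≠ 0) :
    (dv f : Dv F W) = dv h ↔ ∀ P : Plc F W, ord P f = ord P h := by
  constructor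
  · intro h1 P
    rw [← R.dv_apply f P hf, ← R.dv_apply h P hh, h1]
  · intro h1
    ext P
    rw [R.dv_apply f P hf, R.dv_apply h P hh, h1]

theorem ord_one (R : RRF F W) (P : Plc F W) : ord P (1 : W) = 0 := by
  rw [← map_one (algebraMap F W)]
  exact R.ord_const 1 P

theorem ord_inv (O : OrdF F W) (R : RRF F W) (P : Plc F W) {f : W} (hf : f ≠ 0) :
    ord P f⁻¹ = - ord P f := by
  have h := O.mul P f f⁻¹ hf (inv_ne_zero hf)
  rw [mul_inv_cancel₀ hf, ord_one R P] at h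
  omega

/-- functions with the same divisor -/
theorem same (O : OrdF F W) (R : RRF F W) {f h : W} (hf : f ≠ 0) (hh : h ≠ 0)
    (hP : ∀ P : Plc F W, ord P f = ord P h) : ∃ c : F, c ≠ 0 ∧ f = algebraMap F W c * h := by
  obtain ⟨c, hc⟩ := R.const (f * h⁻¹) (mul_ne_zero hf (inv_ne_zero hh)) fun P => by
    rw [O.mul P _ _ hf (inv_ne_zero hh), ord_inv O R P hh, hP]
    omega
  have h1 : f = algebraMap F W c * h := by
    rw [← hc, inv_mul_cancel_right₀ hh]
  refine ⟨c, ?_, h1⟩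
  rintro rfl
  rw [map_zero, zero_mul] at h1
  exact hf h1

theorem ord_smul (O : OrdF F W) (R : RRF F W) (P : Plc F W) {c : F} (hc : c ≠ 0) {h : W}
    (hh : h ≠ 0) : ord P (algebraMap F W c * h) = ord P h := by
  rw [O.mul P _ _ ((map_ne_zero _).2 hc) hh, R.ord_const, zero_add]

theorem ord_map {Φ : W ≃+* W} {φ : Equiv.Perm (Plc F W)}
    (hφ : ∀ P w, ord (φ P) (Φ w) = ord P w) (P : Plc F W) (w : W) :
    ord P (Φ w) = ord (φ⁻¹ P) w := by
  have h := hφ (φ⁻¹ P) w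
  have h2 : φ (φ⁻¹ P) = P := by simp
  rwa [h2] at h

theorem dv_map (R : RRF F W) {Φ : W ≃+* W} {φ : Equiv.Perm (Plc F W)}
    (hφ : ∀ P w, ord (φ P) (Φ w) = ord P w) {h : W} (hh : h ≠ 0) :
    (dv (Φ h) : Dv F W) = pm φ (dv h) := by
  ext P
  rw [pm_apply', R.dv_apply _ _ hh, R.dv_apply _ _ ((map_ne_zero Φ).2 hh), ord_map hφ]

theorem mem_map (R : RRF F W) {Φ : W ≃+* W} {φ : Equiv.Perm (Plc F W)}
    (hφ : ∀ P w, ord (φ P) (Φ w) = ord P w) {D : Dv F W} (hD : pm φ D = D) {h : W}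
    (hh : h ∈ RR D) : Φ h ∈ RR D := by
  rw [R.mem] at hh ⊢
  intro h0 P
  have h1 : h ≠ 0 := by
    rintro rfl
    exact h0 (map_zero Φ)
  have h2 := hh h1 (φ⁻¹ P)
  rw [ord_map hφ P h]
  have h3 : D P = D (φ⁻¹ P) := by
    conv_lhs => rw [← hD]
    rw [pm_apply']
  rw [h3]
  exact h2

/-- the semilinear map on `L(D)` -/
def tm {Φ : W ≃+* W} {D : Dv F W} (hD : ∀ h ∈ RR D, Φ h ∈ RR D) : RR D →+ RR D where
  toFun x := ⟨Φ x, hD x x.2⟩
  map_zero' := Subtype.ext (map_zero Φ)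
  map_add' a b := Subtype.ext (map_add Φ (a : W) (b : W))

theorem tm_val {Φ : W ≃+* W} {D : Dv F W} (hD : ∀ h ∈ RR D, Φ h ∈ RR D) (x : RR D) :
    ((tm hD x : RR D) : W) = Φ x := rfl

theorem tm_iter {Φ : W ≃+* W} {D : Dv F W} (hD : ∀ h ∈ RR D, Φ h ∈ RR D) (x : RR D) (n : ℕ) :
    (((tm hD)^[n] x : RR D) : W) = Φ^[n] x := by
  induction n with
  | zero => rfl
  | succ n ih => rw [Function.iterate_succ_apply', Function.iterate_succ_apply', tm_val, ih]

end BCnt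

open BCnt

theorem stCnt (hS : StSemi.{u, v}) : StCnt.{u, v} := by
  intro p hp F W iF iA iC iW iFW hRU hFF O R f Φ φ hf1 hΦ hφ D hD
  classical
  have hst : ∀ h ∈ RR D, Φ h ∈ RR D := fun h hh => mem_map R hφ hD hh
  have hfd := R.fin D
  -- the number `Q`
  obtain ⟨Q, hQ⟩ : ∃ Q : ℕ, Q = p ^ f := ⟨_, rfl⟩
  have hQ2 : 2 ≤ Q := by
    rw [hQ]
    calc 2 ≤ p := hp.out.two_le
      _ = p ^ 1 := (pow_one p).symm
      _ ≤ p ^ f := Nat.pow_le_pow_right hp.out.pos hf1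
  have hQF : ((Q - 1 : ℕ) : F) ≠ 0 := by
    rw [Nat.cast_sub (by omega), Nat.cast_one, hQ, Nat.cast_pow, CharP.cast_eq_zero,
      zero_pow (by omega), zero_sub]
    exact neg_ne_zero.2 one_ne_zero
  have hQ0 : NeZero (Q - 1) := ⟨by omega⟩
  have hQF' : NeZero ((Q - 1 : ℕ) : F) := ⟨hQF⟩
  have hroots : Nat.card (rootsOfUnity (Q - 1) F) = Q - 1 :=
    HasEnoughRootsOfUnity.natCard_rootsOfUnity F (Q - 1)
  -- fixed vectors
  have hX := hS p F (RR D) hRU f (tm hst) hf1 (by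
    intro c x
    apply Subtype.ext
    rw [tm_val]
    change Φ (c • (x : W)) = c ^ (p ^ f) • Φ (x : W)
    rw [Algebra.smul_def, Algebra.smul_def, map_mul, hΦ.const]) (by
    intro x
    obtain ⟨m, hm, h⟩ := hΦ.fin (x : W)
    refine ⟨m, hm, Subtype.ext ?_⟩
    rw [tm_iter, h])
  rw [← hQ] at hX ⊢
  -- a fixed function for every divisor
  have hex : ∀ E : {E : Dv F W // 0 ≤ E ∧ pm φ E = E ∧ ∃ h : W, h ≠ 0 ∧ dv h = E - D},
      ∃ h : W, h ≠ 0 ∧ h ∈ RR D ∧ Φ h = h ∧ (dv h : Dv F W) = E.1 - D := by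
    rintro ⟨E, hE0, hEφ, h, hh, hdv⟩
    have h1 : (dv (Φ h) : Dv F W) = dv h := by
      rw [dv_map R hφ hh, hdv, pm_sub, hEφ, hD]
    have hΦh : Φ h ≠ 0 := (map_ne_zero Φ).2 hh
    obtain ⟨κ, hκ, h2⟩ := same O R hΦh hh ((dv_ext R hΦh hh).1 h1)
    obtain ⟨c, hc⟩ := IsAlgClosed.exists_pow_nat_eq κ⁻¹ (n := Q - 1) (by omega)
    have hc0 : c ≠ 0 := by
      rintro rfl
      rw [zero_pow (by omega)] at hc
      exact inv_ne_zero hκ hc.symm
    have hcW : algebraMap F W c ≠ 0 := (map_ne_zero _).2 hc0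
    have h3 : (dv (algebraMap F W c * h) : Dv F W) = E - D := by
      rw [← hdv, dv_ext R (mul_ne_zero hcW hh) hh]
      exact fun P => ord_smul O R P hc0 hh
    refine ⟨algebraMap F W c * h, mul_ne_zero hcW hh, ?_, ?_, h3⟩
    · rw [R.mem]
      intro _ P
      rw [ord_smul O R P hc0 hh, ← R.dv_apply h P hh, hdv, Finsupp.sub_apply]
      have := hE0 P
      rw [Finsupp.zero_apply] at this
      omega
    · rw [map_mul, hΦ.const, h2, ← mul_assoc, ← map_mul, ← hQ]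
      congr 2
      have h4 : c ^ Q = c * c ^ (Q - 1) := by
        rw [← pow_succ']
        congr 1
        omega
      rw [h4, hc, mul_assoc, inv_mul_cancel₀ hκ, mul_one]
  choose y hy0 hyD hyΦ hydv using hex
  -- the bijection
  have hcard : Nat.card {x : {x : RR D // tm hst x = x} // x.1 ≠ 0} =
      Nat.card ({E : Dv F W // 0 ≤ E ∧ pm φ E = E ∧ ∃ h : W, h ≠ 0 ∧ dv h = E - D} ×
        rootsOfUnity (Q - 1) F) := by
    symm
    have hζ : ∀ ζ : rootsOfUnity (Q - 1) F, ((ζ : Fˣ) : F) ^ Q = ((ζ : Fˣ) : F) := by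
      intro ζ
      have h1 : ((ζ : Fˣ)) ^ (Q - 1) = 1 := ζ.2
      have h2 : ((ζ : Fˣ) : F) ^ (Q - 1) = 1 := by
        rw [← Units.val_pow_eq_pow_val, h1, Units.val_one]
      have h4 : ((ζ : Fˣ) : F) ^ Q = ((ζ : Fˣ) : F) * ((ζ : Fˣ) : F) ^ (Q - 1) := by
        rw [← pow_succ']
        congr 1
        omega
      rw [h4, h2, mul_one]
    have hne : ∀ (E : {E : Dv F W // 0 ≤ E ∧ pm φ E = E ∧ ∃ h : W, h ≠ 0 ∧ dv h = E - D})
        (ζ : rootsOfUnity (Q - 1) F), algebraMap F W ((ζ : Fˣ) : F) * y E ≠ 0 := fun E ζ =>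
      mul_ne_zero ((map_ne_zero _).2 (Units.ne_zero _)) (hy0 E)
    refine Nat.card_eq_of_bijective (fun z => ⟨⟨⟨algebraMap F W ((z.2 : Fˣ) : F) * y z.1, ?_⟩, ?_⟩,
      ?_⟩) ⟨?_, ?_⟩
    · rw [← Algebra.smul_def]
      exact (RR D).smul_mem _ (hyD z.1)
    · apply Subtype.ext
      rw [tm_val]
      change Φ (algebraMap F W ((z.2 : Fˣ) : F) * y z.1) = algebraMap F W ((z.2 : Fˣ) : F) * y z.1
      rw [map_mul, hΦ.const, ← hQ, hζ, hyΦ]
    · intro h
      exact hne z.1 z.2 (congrArg Subtype.val h)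
    · rintro ⟨E, ζ⟩ ⟨E', ζ'⟩ h
      have h1 : algebraMap F W ((ζ : Fˣ) : F) * y E = algebraMap F W ((ζ' : Fˣ) : F) * y E' :=
        congrArg (fun z : {x : {x : RR D // tm hst x = x} // x.1 ≠ 0} => (z.1.1 : W)) h
      have h2 : (dv (y E) : Dv F W) = dv (y E') := by
        rw [dv_ext R (hy0 E) (hy0 E')]
        intro P
        rw [← ord_smul O R P (Units.ne_zero (ζ : Fˣ)) (hy0 E), h1,
          ord_smul O R P (Units.ne_zero (ζ' : Fˣ)) (hy0 E')]
      rw [hydv, hydv] at h2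
      have h3 : E = E' := Subtype.ext (sub_left_injective h2)
      subst h3
      have h4 := mul_right_cancel₀ (hy0 E) h1
      have h5 : ζ = ζ' := Subtype.ext (Units.ext ((algebraMap F W).injective h4))
      rw [h5]
    · rintro ⟨⟨x, hx⟩, hx0⟩
      have hx0' : (x : W) ≠ 0 := fun h => hx0 (Subtype.ext h)
      have hxΦ : Φ (x : W) = x := congrArg Subtype.val hx
      have hxD := (R.mem D (x : W)).1 x.2 hx0'
      obtain ⟨E, hE⟩ : ∃ E : Dv F W, E = dv (x : W) + D := ⟨_, rfl⟩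
      have hEP : ∀ P, E P = ord P (x : W) + D P := by
        intro P
        rw [hE, Finsupp.add_apply, R.dv_apply _ _ hx0']
      have hE1 : 0 ≤ E ∧ pm φ E = E ∧ ∃ h : W, h ≠ 0 ∧ (dv h : Dv F W) = E - D := by
        refine ⟨fun P => ?_, ?_, x, hx0', ?_⟩
        · rw [Finsupp.zero_apply, hEP]
          have := hxD P
          omega
        · rw [hE, pm_add, hD, ← dv_map R hφ hx0', hxΦ]
        · rw [hE, add_sub_cancel_right]
      obtain ⟨c, hc, h1⟩ := same O R hx0' (hy0 ⟨E, hE1⟩) (fun P => by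
        rw [← R.dv_apply _ P (hy0 ⟨E, hE1⟩), hydv, Finsupp.sub_apply]
        change _ = E P - D P
        rw [hEP]
        omega)
      have h2 : c ^ Q = c := by
        have h3 := hxΦ
        rw [h1, map_mul, hΦ.const, hyΦ, ← hQ] at h3
        exact (algebraMap F W).injective (mul_right_cancel₀ (hy0 _) h3)
      have h3 : c ^ (Q - 1) = 1 := by
        have h4 : c ^ Q = c * c ^ (Q - 1) := by
          rw [← pow_succ']
          congr 1
          omega
        rw [h4] at h2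
        exact mul_left_cancel₀ hc (h2.trans (mul_one c).symm)
      refine ⟨(⟨E, hE1⟩, ⟨Units.mk0 c hc, ?_⟩), ?_⟩
      · rw [mem_rootsOfUnity]
        apply Units.ext
        rw [Units.val_pow_eq_pow_val, Units.val_mk0, Units.val_one, h3]
      · apply Subtype.ext
        apply Subtype.ext
        apply Subtype.ext
        exact h1.symm
  rw [Nat.card_prod, hroots] at hcard
  rw [← hcard, ← hX]
  -- remove zero
  have hfin : Finite {x : RR D // tm hst x = x} := by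
    refine Nat.finite_of_card_ne_zero ?_
    rw [hX]
    exact pow_ne_zero _ (by omega)
  have hz : tm hst 0 = 0 := map_zero _
  have h5 : Nat.card {x : {x : RR D // tm hst x = x} // x.1 ≠ 0} + 1 =
      Nat.card {x : RR D // tm hst x = x} := by
    have h6 : Nat.card {x : {x : RR D // tm hst x = x} // ¬ x.1 ≠ 0} = 1 := by
      rw [Nat.card_eq_one_iff_unique]
      refine ⟨⟨fun a b => ?_⟩, ⟨⟨⟨0, hz⟩, fun h => h rfl⟩⟩⟩
      apply Subtype.ext
      apply Subtype.ext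
      rw [not_not.1 a.2, not_not.1 b.2]
    rw [← h6, ← Nat.card_sum]
    exact Nat.card_congr (Equiv.sumCompl fun x : {x : RR D // tm hst x = x} => x.1 ≠ 0)
  omega

end Pool.Agent.Lib.MP_c385f6_ag.TPG
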