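import Pool.Agent.Lib.MP_c385f6_ag.TPG.StB

/-!
Project TPG, part B: the abstract conclusions on the group `A` of the classes of degree zero of
`X : CD T`: torsion, `σ ^ m - 1` is onto, divisibility, triviality if there is no torsion prime
to `p`.
-/

set_option autoImplicit false

namespace Pool.Agent.Lib.MP_c385f6_ag.TPG

universe u

namespace BConc

section
variable {T : Type u}

theorem pow_fix {φ : Equiv.Perm T} {n : ℕ} {P : T} (h : (φ ^ n) P = P) (k : ℕ) :
    (φ ^ (n * k)) P = P := by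
  induction k with
  | zero => simp
  | succ k ih => rw [Nat.mul_succ, pow_add, Equiv.Perm.mul_apply, h, ih]

theorem pm_pow_fix {φ : Equiv.Perm T} {n : ℕ} {D : T →₀ ℤ} (h : pm (φ ^ n) D = D) (k : ℕ) :
    pm (φ ^ (n * k)) D = D := by
  induction k with
  | zero => rw [Nat.mul_zero, pow_zero, pm_one]
  | succ k ih => rw [Nat.mul_succ, pow_add, pm_mul, h, ih]

/-- Divisors have finite orbits. -/
theorem exists_pm_fix {φ : Equiv.Perm T} (h : ∀ P, ∃ m > 0, (φ ^ m) P = P) (D : T →₀ ℤ) :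
    ∃ n > 0, pm (φ ^ n) D = D := by
  induction D using Finsupp.induction with
  | zero => exact ⟨1, one_pos, pm_zero _⟩
  | single_add a b f _ _ ih =>
    obtain ⟨n, hn, hf⟩ := ih
    obtain ⟨m, hm, ha⟩ := h a
    refine ⟨m * n, Nat.mul_pos hm hn, ?_⟩
    rw [pm_add, pm_single, pow_fix ha]
    congr 1
    rw [Nat.mul_comm]
    exact pm_pow_fix hf m

end

section
variable {T : Type u} (X : CD T)

theorem exists_fix (a : X.A) : ∃ n > 0, (X.σ ^ n) a = a := by
  obtain ⟨D, h, rfl⟩ := X.cls_surj a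
  obtain ⟨n, hn, h2⟩ := exists_pm_fix X.orb D
  refine ⟨n, hn, ?_⟩
  rw [X.pow_cls, X.cls_eq, h2, sub_self]
  exact X.Pr.zero_mem

theorem end_pow_fix {A : Type*} [AddCommGroup A] {τ : AddMonoid.End A} {n : ℕ} {a : A}
    (h : (τ ^ n) a = a) (k : ℕ) : (τ ^ (n * k)) a = a := by
  induction k with
  | zero => simp
  | succ k ih =>
    rw [Nat.mul_succ, pow_add]
    show (τ ^ (n * k)) ((τ ^ n) a) = a
    rw [h, ih]

/-- `σ ^ m - 1` is onto. -/
theorem surj (h1 : StLang.{u}) (h2 : StCls.{u}) (h3 : StNorm.{u}) (m : ℕ) (hm : 0 < m)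
    (a : X.A) : ∃ b, (X.σ ^ m) b - b = a := by
  refine h1 X.A (X.σ ^ m) (fun a => ?_) (fun n hn => ?_) (fun n hn a ha => ?_) a
  · obtain ⟨n, hn, h⟩ := exists_fix X a
    refine ⟨n, hn, ?_⟩
    rw [← pow_mul, Nat.mul_comm]
    exact end_pow_fix h m
  · rw [← pow_mul]
    exact (h2 T X (m * n) (Nat.mul_pos hm hn)).1
  · obtain ⟨b, hb, hb2⟩ := h3 T X m n hm hn a ha
    refine ⟨b, by rw [← pow_mul]; exact hb, ?_⟩
    rw [← hb2]
    congr 1
    exact Finset.sum_congr rfl fun i _ => by rw [← pow_mul]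

/-- The classes of degree zero are torsion. -/
theorem torsion (h2 : StCls.{u}) (a : X.A) : ∃ n > 0, n • a = 0 := by
  obtain ⟨n, hn, h⟩ := exists_fix X a
  have hf := (h2 T X n hn).1
  have h3 : ∀ k : ℕ, k • a ∈ {a : X.A | (X.σ ^ n) a = a} := fun k => by
    show (X.σ ^ n) (k • a) = k • a
    rw [map_nsmul, h]
  obtain ⟨i, -, j, -, hij, he⟩ := Set.infinite_univ.exists_ne_map_eq_of_mapsTo
    (f := fun k : ℕ => k • a) (t := {a : X.A | (X.σ ^ n) a = a}) (fun k _ => h3 k) hf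
  rcases lt_or_gt_of_ne hij with h4 | h4
  · refine ⟨j - i, by omega, ?_⟩
    have h5 : (j - i) • a + i • a = j • a := by rw [← add_nsmul, Nat.sub_add_cancel h4.le]
    have h6 : i • a = j • a := he
    rw [h6] at h5
    exact add_eq_right.mp h5
  · refine ⟨i - j, by omega, ?_⟩
    have h5 : (i - j) • a + j • a = i • a := by rw [← add_nsmul, Nat.sub_add_cancel h4.le]
    have h6 : i • a = j • a := he
    rw [← h6] at h5
    exact add_eq_right.mp h5

/-- The matrix. -/
theorem matrix (h1 : StZeta.{u}) (h2 : StComp) (h3 : StDet) :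
    ∃ (N : ℕ) (C : Matrix (Fin N) (Fin N) ℤ),
      ∀ n > 0, (Nat.card {a : X.A | (X.σ ^ n) a = a} : ℤ) = (1 - C ^ n).det := by
  obtain ⟨P, h0, -, hP⟩ := h1 T X
  obtain ⟨N, C, hC⟩ := h2 P h0
  refine ⟨N, C, fun n hn => ?_⟩
  have hz := Complex.isPrimitiveRoot_exp n hn.ne'
  have h4 := hP n _ hn hz
  have h5 := h3 N C n _ hn hz
  rw [hC, ← h4] at h5
  have h6 : (((1 - C ^ n).det : ℤ) : ℂ) = ((Nat.card {a : X.A | (X.σ ^ n) a = a} : ℤ) : ℂ) := by
    rw [h5]
    simp
  exact (Int.cast_injective h6).symm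

/-- The `l`-torsion is finite. -/
theorem finite_tors (h1 : StZeta.{u}) (h2 : StComp) (h3 : StDet) (h4 : StRank.{u})
    (h5 : StCls.{u}) (h6 : StNorm.{u}) (l : ℕ) (hl : l.Prime) : {a : X.A | l • a = 0}.Finite := by
  obtain ⟨N, C, hC⟩ := matrix X h1 h2 h3
  exact h4 X.A X.σ (exists_fix X) (fun n hn => (h5 T X n hn).1)
    (fun m hm n hn a ha => h6 T X m n hm hn a ha) N C hC l hl

/-- Divisibility. -/
theorem divisible (h1 : StZeta.{u}) (h2 : StComp) (h3 : StDet) (h4 : StRank.{u})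
    (h5 : StCls.{u}) (h6 : StNorm.{u}) (h7 : StLang.{u}) (h8 : StDvb.{u}) (l : ℕ)
    (hl : l.Prime) (a : X.A) : ∃ b, l • b = a :=
  h8 X.A X.σ (exists_fix X) (torsion X h5) (surj X h7 h5 h6) l hl
    (finite_tors X h1 h2 h3 h4 h5 h6 l hl) a

/-- If there is no `l`-torsion for all primes `l ≠ p` then there are no classes. -/
theorem trivial (h1 : StZeta.{u}) (h2 : StComp) (h3 : StDet) (h5 : StCls.{u}) (h9 : StNil)
    (p : ℕ) (h : ∀ l : ℕ, l.Prime → l ≠ p → ∀ a : X.A, l • a = 0 → a = 0) (a : X.A) :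
    a = 0 := by
  obtain ⟨N, C, hC⟩ := matrix X h1 h2 h3
  have hG : ∀ n > 0, ∀ l : ℕ, l.Prime → l ≠ p → ¬ (l : ℤ) ∣ (1 - C ^ n).det := by
    intro n hn l hl hlp hd
    rw [← hC n hn] at hd
    have hd2 : l ∣ Nat.card {a : X.A | (X.σ ^ n) a = a} := Int.natCast_dvd_natCast.mp hd
    let G : AddSubgroup X.A :=
      { carrier := {a : X.A | (X.σ ^ n) a = a}
        zero_mem' := map_zero _
        add_mem' := fun {a b} ha hb => by
          show (X.σ ^ n) (a + b) = a + b
          rw [map_add, show (X.σ ^ n) a = a from ha, show (X.σ ^ n) b = b from hb]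
        neg_mem' := fun {a} ha => by
          show (X.σ ^ n) (-a) = -a
          rw [map_neg, show (X.σ ^ n) a = a from ha] }
    have hfin : Finite G := (h5 T X n hn).1.to_subtype
    have hfact : Fact l.Prime := ⟨hl⟩
    obtain ⟨x, hx⟩ := exists_prime_addOrderOf_dvd_card' (G := G) l hd2
    have hx2 : l • x = 0 := by
      rw [← hx]
      exact addOrderOf_nsmul_eq_zero x
    have hx3 : (x : X.A) = 0 := h l hl hlp x (by
      have := congrArg Subtype.val hx2
      simpa using this)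
    have hx4 : x = 0 := Subtype.ext hx3
    rw [hx4, addOrderOf_zero] at hx
    exact hl.one_lt.ne hx
  have hC1 : C.charpolyRev = 1 := by
    refine h9 N C fun b => ?_
    obtain ⟨l, hl, hlp⟩ := Nat.exists_infinite_primes (max (b + 1) (p + 1))
    exact ⟨l, by omega, hlp, fun n hn => hG n hn l hlp (by omega)⟩
  obtain ⟨n, hn, hfix⟩ := exists_fix X a
  have hz := Complex.isPrimitiveRoot_exp n hn.ne'
  have h6 := h3 N C n _ hn hz
  rw [hC1, Polynomial.map_one] at h6
  simp only [Polynomial.eval_one, Finset.prod_const_one] at h6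
  have h7 : (1 - C ^ n).det = 1 := by exact_mod_cast h6
  have h8 : Nat.card {a : X.A | (X.σ ^ n) a = a} = 1 := by
    have := hC n hn
    rw [h7] at this
    exact_mod_cast this
  have h10 := (Nat.card_eq_one_iff_unique.mp h8).1
  have h11 : (⟨a, hfix⟩ : {a : X.A | (X.σ ^ n) a = a}) = ⟨0, map_zero _⟩ := h10.elim _ _
  exact congrArg Subtype.val h11

end

end BConc

end Pool.Agent.Lib.MP_c385f6_ag.TPG
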