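import Mathlib

/-!
Project TPG, part B: abstract zeta functions. Divisors on a set `T` with a permutation `φ`,
the class group and the degree zero classes.
-/

set_option autoImplicit false

namespace Pool.Agent.Lib.MP_c385f6_ag.TPG

universe u

section
variable {T : Type u}

/-- The degree of a divisor. -/
noncomputable def dgr (D : T →₀ ℤ) : ℤ := D.sum fun _ n => n

/-- The degree as a homomorphism. -/
noncomputable def dgH (T : Type u) : (T →₀ ℤ) →+ ℤ := Finsupp.liftAddHom fun _ => AddMonoidHom.id ℤ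

theorem dgH_apply (D : T →₀ ℤ) : dgH T D = dgr D := rfl

theorem dgr_add (D E : T →₀ ℤ) : dgr (D + E) = dgr D + dgr E := map_add (dgH T) D E

theorem dgr_sub (D E : T →₀ ℤ) : dgr (D - E) = dgr D - dgr E := map_sub (dgH T) D E

theorem dgr_neg (D : T →₀ ℤ) : dgr (-D) = -dgr D := map_neg (dgH T) D

theorem dgr_nsmul (n : ℕ) (D : T →₀ ℤ) : dgr (n • D) = n * dgr D := by
  rw [← dgH_apply, map_nsmul, dgH_apply, nsmul_eq_mul]

theorem dgr_zsmul (n : ℤ) (D : T →₀ ℤ) : dgr (n • D) = n * dgr D := by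
  rw [← dgH_apply, map_zsmul, dgH_apply, zsmul_eq_mul]
  simp

theorem dgr_single (P : T) (n : ℤ) : dgr (Finsupp.single P n) = n := by
  simp [dgr]

/-- The action of a permutation of the points on the divisors (as a homomorphism). -/
noncomputable def pmH (φ : Equiv.Perm T) : (T →₀ ℤ) →+ (T →₀ ℤ) :=
  Finsupp.mapDomain.addMonoidHom φ

/-- The action of a permutation of the points on the divisors: `pm φ D (φ P) = D P`. -/
noncomputable def pm (φ : Equiv.Perm T) (D : T →₀ ℤ) : T →₀ ℤ := pmH φ D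

theorem pm_apply (φ : Equiv.Perm T) (D : T →₀ ℤ) (P : T) : pm φ D (φ P) = D P :=
  Finsupp.mapDomain_apply φ.injective D P

theorem pm_apply' (φ : Equiv.Perm T) (D : T →₀ ℤ) (P : T) : pm φ D P = D (φ⁻¹ P) := by
  have h := pm_apply φ D (φ⁻¹ P)
  have h2 : φ (φ⁻¹ P) = P := by simp
  rwa [h2] at h

theorem pm_add (φ : Equiv.Perm T) (D E : T →₀ ℤ) : pm φ (D + E) = pm φ D + pm φ E :=
  map_add (pmH φ) D E

theorem pm_sub (φ : Equiv.Perm T) (D E : T →₀ ℤ) : pm φ (D - E) = pm φ D - pm φ E :=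
  map_sub (pmH φ) D E

theorem pm_neg (φ : Equiv.Perm T) (D : T →₀ ℤ) : pm φ (-D) = -pm φ D := map_neg (pmH φ) D

theorem pm_zero (φ : Equiv.Perm T) : pm φ 0 = 0 := map_zero (pmH φ)

theorem pm_zsmul (φ : Equiv.Perm T) (n : ℤ) (D : T →₀ ℤ) : pm φ (n • D) = n • pm φ D :=
  map_zsmul (pmH φ) n D

theorem pm_single (φ : Equiv.Perm T) (P : T) (n : ℤ) :
    pm φ (Finsupp.single P n) = Finsupp.single (φ P) n := Finsupp.mapDomain_single

theorem pm_one (D : T →₀ ℤ) : pm 1 D = D := by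
  ext P
  rw [pm_apply', inv_one]
  rfl

theorem pm_mul (φ ψ : Equiv.Perm T) (D : T →₀ ℤ) : pm (φ * ψ) D = pm φ (pm ψ D) := by
  ext P
  rw [pm_apply', pm_apply', pm_apply', mul_inv_rev]
  rfl

theorem dgr_pm (φ : Equiv.Perm T) (D : T →₀ ℤ) : dgr (pm φ D) = dgr D := by
  have h : (dgH T).comp (pmH φ) = dgH T := by
    ext P
    show dgr (pm φ (Finsupp.single P 1)) = dgr (Finsupp.single P 1)
    rw [pm_single, dgr_single, dgr_single]
  exact DFunLike.congr_fun h D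

/-- The effective divisors of degree `d` that are fixed by `φ`. -/
def Ef (φ : Equiv.Perm T) (d : ℕ) : Set (T →₀ ℤ) := {E | 0 ≤ E ∧ pm φ E = E ∧ dgr E = d}

/-- The sum of the first `n` translates. -/
noncomputable def nm (φ : Equiv.Perm T) (n : ℕ) (D : T →₀ ℤ) : T →₀ ℤ :=
  ∑ i ∈ Finset.range n, pm (φ ^ i) D

end

/-- The data of a curve over the algebraic closure of a finite field, with a Frobenius `φ` and a
fixed point `P₀`. -/
structure CD (T : Type u) where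
  φ : Equiv.Perm T
  Pr : AddSubgroup (T →₀ ℤ)
  ell : (T →₀ ℤ) → ℕ
  q : ℕ
  g : ℕ
  P₀ : T
  two_le : 2 ≤ q
  fix : φ P₀ = P₀
  deg : ∀ D ∈ Pr, dgr D = 0
  stable : ∀ D ∈ Pr, pm φ D ∈ Pr
  orb : ∀ P, ∃ m > 0, (φ ^ m) P = P
  fin : ∀ m > 0, {P | (φ ^ m) P = P}.Finite
  count : ∀ n > 0, ∀ D, pm (φ ^ n) D = D →
    Nat.card {E : T →₀ ℤ // 0 ≤ E ∧ pm (φ ^ n) E = E ∧ E - D ∈ Pr} * (q ^ n - 1) =
      q ^ (n * ell D) - 1
  riem : ∃ d₀ : ℤ, ∀ D, d₀ ≤ dgr D → (ell D : ℤ) = dgr D + 1 - g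
  rep : ∀ n > 0, ∀ D, pm (φ ^ n) D - D ∈ Pr → ∃ D', pm (φ ^ n) D' = D' ∧ D' - D ∈ Pr

namespace CD

variable {T : Type u} (X : CD T)

/-- The divisor classes. -/
abbrev Cl : Type u := (T →₀ ℤ) ⧸ X.Pr

/-- The degree of a class. -/
noncomputable def dgC : X.Cl →+ ℤ :=
  QuotientAddGroup.lift X.Pr (dgH T) fun D hD => X.deg D hD

/-- The group of the classes of degree zero. -/
abbrev A : Type u := X.dgC.ker

/-- The Frobenius on the classes. -/
noncomputable def frC : X.Cl →+ X.Cl :=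
  QuotientAddGroup.map X.Pr X.Pr (pmH X.φ) fun D hD => X.stable D hD

theorem dgC_mk (D : T →₀ ℤ) : X.dgC (QuotientAddGroup.mk D) = dgr D := rfl

theorem frC_mk (D : T →₀ ℤ) : X.frC (QuotientAddGroup.mk D) = QuotientAddGroup.mk (pm X.φ D) :=
  rfl

theorem dgC_frC (c : X.Cl) : X.dgC (X.frC c) = X.dgC c := by
  obtain ⟨D, rfl⟩ := QuotientAddGroup.mk_surjective c
  rw [frC_mk, dgC_mk, dgC_mk, dgr_pm]

/-- The Frobenius on the classes of degree zero. -/
noncomputable def σ : AddMonoid.End X.A where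
  toFun c := ⟨X.frC (c : X.Cl), (X.dgC_frC (c : X.Cl)).trans c.2⟩
  map_zero' := Subtype.ext (map_zero X.frC)
  map_add' a b := Subtype.ext (map_add X.frC (a : X.Cl) (b : X.Cl))

/-- The class of a divisor of degree zero. -/
noncomputable def cls (D : T →₀ ℤ) (h : dgr D = 0) : X.A := ⟨QuotientAddGroup.mk D, h⟩

theorem cls_val (D : T →₀ ℤ) (h : dgr D = 0) :
    (X.cls D h : X.Cl) = QuotientAddGroup.mk D := rfl

theorem cls_surj (a : X.A) : ∃ (D : T →₀ ℤ) (h : dgr D = 0), X.cls D h = a := by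
  obtain ⟨D, hD⟩ := QuotientAddGroup.mk_surjective (a : X.Cl)
  have h : dgr D = 0 := by
    have h2 : X.dgC (a : X.Cl) = 0 := a.2
    rw [← hD] at h2
    exact h2
  exact ⟨D, h, Subtype.ext hD⟩

theorem mk_eq (D E : T →₀ ℤ) :
    (QuotientAddGroup.mk D : X.Cl) = QuotientAddGroup.mk E ↔ D - E ∈ X.Pr := by
  rw [QuotientAddGroup.eq]
  constructor
  · intro h
    have h2 := X.Pr.neg_mem h
    rwa [neg_add, neg_neg, ← sub_eq_add_neg] at h2
  · intro h
    have h2 := X.Pr.neg_mem h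
    rwa [neg_sub, sub_eq_neg_add] at h2

theorem cls_eq (D E : T →₀ ℤ) (h : dgr D = 0) (h' : dgr E = 0) :
    X.cls D h = X.cls E h' ↔ D - E ∈ X.Pr := by
  rw [← mk_eq]
  exact ⟨fun h => congrArg Subtype.val h, fun h => Subtype.ext h⟩

theorem cls_eq_zero (D : T →₀ ℤ) (h : dgr D = 0) : X.cls D h = 0 ↔ D ∈ X.Pr := by
  have h2 := X.cls_eq D 0 h (by simp [dgr])
  rw [sub_zero] at h2
  exact h2

theorem cls_add (D E : T →₀ ℤ) (h : dgr D = 0) (h' : dgr E = 0) :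
    X.cls (D + E) (by rw [dgr_add, h, h', add_zero]) = X.cls D h + X.cls E h' := rfl

theorem cls_sub (D E : T →₀ ℤ) (h : dgr D = 0) (h' : dgr E = 0) :
    X.cls (D - E) (by rw [dgr_sub, h, h', sub_zero]) = X.cls D h - X.cls E h' := rfl

theorem cls_nsmul (n : ℕ) (D : T →₀ ℤ) (h : dgr D = 0) :
    X.cls (n • D) (by rw [dgr_nsmul, h, mul_zero]) = n • X.cls D h := rfl

theorem σ_cls (D : T →₀ ℤ) (h : dgr D = 0) :
    X.σ (X.cls D h) = X.cls (pm X.φ D) (by rw [dgr_pm, h]) := rfl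

theorem pow_cls (n : ℕ) (D : T →₀ ℤ) (h : dgr D = 0) :
    (X.σ ^ n) (X.cls D h) = X.cls (pm (X.φ ^ n) D) (by rw [dgr_pm, h]) := by
  induction n with
  | zero =>
    have h2 : (X.σ ^ 0) (X.cls D h) = X.cls D h := rfl
    rw [h2, cls_eq, pow_zero, pm_one, sub_self]
    exact X.Pr.zero_mem
  | succ n ih =>
    have h2 : (X.σ ^ (n + 1)) (X.cls D h) = X.σ ((X.σ ^ n) (X.cls D h)) := by
      rw [pow_succ']
      rfl
    rw [h2, ih, σ_cls, cls_eq, ← pm_mul, ← pow_succ', sub_self]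
    exact X.Pr.zero_mem

/-- The class of `D - (deg D) P₀`. -/
noncomputable def cl0 (D : T →₀ ℤ) : X.A :=
  X.cls (D - Finsupp.single X.P₀ (dgr D)) (by rw [dgr_sub, dgr_single, sub_self])

theorem cl0_add (D E : T →₀ ℤ) : X.cl0 (D + E) = X.cl0 D + X.cl0 E := by
  rw [cl0, cl0, cl0, ← cls_add, cls_eq]
  have h : D + E - Finsupp.single X.P₀ (dgr (D + E)) -
      (D - Finsupp.single X.P₀ (dgr D) + (E - Finsupp.single X.P₀ (dgr E))) = 0 := by
    rw [dgr_add, Finsupp.single_add]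
    abel
  rw [h]
  exact X.Pr.zero_mem

theorem pow_cl0 (n : ℕ) (D : T →₀ ℤ) : (X.σ ^ n) (X.cl0 D) = X.cl0 (pm (X.φ ^ n) D) := by
  rw [cl0, pow_cls, cl0, cls_eq]
  have h1 : (X.φ ^ n) X.P₀ = X.P₀ := by
    induction n with
    | zero => rfl
    | succ n ih => rw [pow_succ', Equiv.Perm.mul_apply, ih, X.fix]
  rw [pm_sub, pm_single, h1, dgr_pm, sub_self]
  exact X.Pr.zero_mem

theorem cl0_of_dgr (D : T →₀ ℤ) (h : dgr D = 0) : X.cl0 D = X.cls D h := by
  rw [cl0, cls_eq, h, Finsupp.single_zero, sub_zero, sub_self]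
  exact X.Pr.zero_mem

end CD

end Pool.Agent.Lib.MP_c385f6_ag.TPG
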