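import Pool.Agent.Lib.MP_c385f6_ag.TPG.BConc

/-!
Project TPG, part B: a function field with a Frobenius gives a `CD`.
-/

set_option autoImplicit false

namespace Pool.Agent.Lib.MP_c385f6_ag.TPG

universe u v

namespace BInst

section
variable {F : Type u} {W : Type v} [Field F] [Field W] [Algebra F W]

theorem dv_one (h1 : RRF F W) : (dv (1 : W) : Dv F W) = 0 := by
  ext P
  rw [h1.dv_apply 1 P one_ne_zero]
  have h := h1.ord_const 1 P
  rw [map_one] at h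
  rw [h]
  rfl

theorem dv_mul (h0 : OrdF F W) (h1 : RRF F W) {x y : W} (hx : x ≠ 0) (hy : y ≠ 0) :
    (dv (x * y) : Dv F W) = dv x + dv y := by
  ext P
  rw [Finsupp.add_apply, h1.dv_apply _ P (mul_ne_zero hx hy), h1.dv_apply _ P hx,
    h1.dv_apply _ P hy, h0.mul P x y hx hy]

theorem dv_inv (h0 : OrdF F W) (h1 : RRF F W) {x : W} (hx : x ≠ 0) :
    (dv x⁻¹ : Dv F W) = -dv x := by
  have h := dv_mul h0 h1 hx (inv_ne_zero hx)
  rw [mul_inv_cancel₀ hx, dv_one h1] at h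
  exact (neg_eq_of_add_eq_zero_right h.symm).symm

theorem dv_pow (h0 : OrdF F W) (h1 : RRF F W) {x : W} (hx : x ≠ 0) (n : ℕ) :
    (dv (x ^ n) : Dv F W) = n • dv x := by
  induction n with
  | zero => rw [pow_zero, dv_one h1, zero_nsmul]
  | succ n ih => rw [pow_succ, dv_mul h0 h1 (pow_ne_zero n hx) hx, ih, succ_nsmul]

/-- The principal divisors. -/
noncomputable def prin (h0 : OrdF F W) (h1 : RRF F W) : AddSubgroup (Dv F W) where
  carrier := {D | ∃ h : W, h ≠ 0 ∧ dv h = D}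
  zero_mem' := ⟨1, one_ne_zero, dv_one h1⟩
  add_mem' := by
    rintro _ _ ⟨a, ha, rfl⟩ ⟨b, hb, rfl⟩
    exact ⟨a * b, mul_ne_zero ha hb, dv_mul h0 h1 ha hb⟩
  neg_mem' := by
    rintro _ ⟨a, ha, rfl⟩
    exact ⟨a⁻¹, inv_ne_zero ha, dv_inv h0 h1 ha⟩

theorem mem_prin (h0 : OrdF F W) (h1 : RRF F W) (D : Dv F W) :
    D ∈ prin h0 h1 ↔ ∃ h : W, h ≠ 0 ∧ dv h = D := Iff.rfl

theorem dgr_eq (D : Dv F W) : dgr D = dg D := rfl

/-- Two elements with the same divisor differ by a constant. -/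
theorem exists_const (h0 : OrdF F W) (h1 : RRF F W) {x y : W} (hx : x ≠ 0) (hy : y ≠ 0)
    (h : (dv x : Dv F W) = dv y) : ∃ c : F, c ≠ 0 ∧ x = algebraMap F W c * y := by
  have h2 : x * y⁻¹ ≠ 0 := mul_ne_zero hx (inv_ne_zero hy)
  obtain ⟨c, hc⟩ := h1.const (x * y⁻¹) h2 fun P => by
    rw [← h1.dv_apply _ P h2, dv_mul h0 h1 hx (inv_ne_zero hy), dv_inv h0 h1 hy, h]
    simp
  refine ⟨c, ?_, ?_⟩
  · rintro rfl
    rw [map_zero] at hc
    exact h2 hc
  · rw [← hc, inv_mul_cancel_right₀ hy]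

/-- Transport of the order under powers. -/
theorem ord_pow {Φ : W ≃+* W} {φ : Equiv.Perm (Plc F W)}
    (h : ∀ P w, ord (φ P) (Φ w) = ord P w) (n : ℕ) (P : Plc F W) (w : W) :
    ord ((φ ^ n) P) ((Φ ^ n) w) = ord P w := by
  induction n with
  | zero => rfl
  | succ n ih =>
    rw [pow_succ', pow_succ']
    show ord (φ ((φ ^ n) P)) (Φ ((Φ ^ n) w)) = ord P w
    rw [h, ih]

theorem pow_iter (Φ : W ≃+* W) (n : ℕ) (w : W) : (Φ ^ n) w = Φ^[n] w := by
  induction n with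
  | zero => rfl
  | succ n ih =>
    rw [pow_succ', Function.iterate_succ', Function.comp_apply, ← ih]
    rfl

theorem frob_pow {q : ℕ} {Φ : W ≃+* W} (h : Frob F W q Φ) (m : ℕ) : Frob F W (q ^ m) (Φ ^ m) where
  const c := by
    induction m with
    | zero =>
      rw [pow_zero, pow_zero, pow_one]
      rfl
    | succ m ih =>
      rw [pow_succ' Φ]
      show Φ ((Φ ^ m) (algebraMap F W c)) = _
      rw [ih, h.const, ← pow_mul, pow_succ]
  fin w := by
    obtain ⟨n, hn, h2⟩ := h.fin w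
    refine ⟨n, hn, ?_⟩
    rw [← pow_iter, ← pow_mul, Nat.mul_comm, pow_mul]
    have h3 : (Φ ^ n) w = w := by rw [pow_iter, h2]
    clear hn h2
    induction m with
    | zero => rfl
    | succ m ih =>
      rw [pow_succ]
      show ((Φ ^ n) ^ m) ((Φ ^ n) w) = w
      rw [h3, ih]

theorem pm_dv (h1 : RRF F W) {Φ : W ≃+* W} {φ : Equiv.Perm (Plc F W)}
    (h : ∀ P w, ord (φ P) (Φ w) = ord P w) {x : W} (hx : x ≠ 0) :
    pm φ (dv x) = (dv (Φ x) : Dv F W) := by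
  ext P
  have h2 : φ (φ⁻¹ P) = P := by simp
  have h3 : Φ x ≠ 0 := (map_ne_zero Φ).mpr hx
  rw [pm_apply', h1.dv_apply _ _ hx, h1.dv_apply _ _ h3, ← h (φ⁻¹ P) x, h2]

end

section
variable {F : Type u} {W : Type v} [Field F] [Field W] [Algebra F W] [IsAlgClosed F]

/-- The `CD` of a function field with a Frobenius `Φ` and a place `P₀` fixed by it. -/
noncomputable def inst (p : ℕ) [Fact p.Prime] [CharP F p] (hr : RU F) (hff : FF F W)
    (h0 : OrdF F W) (h1 : RRF F W) (hc : StCnt.{u, v}) (hrep : StRep.{u, v}) (g : ℕ)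
    (hg : IsGenus F W g) (f : ℕ) (Φ : W ≃+* W) (φ : Equiv.Perm (Plc F W)) (hf : 1 ≤ f)
    (hΦ : Frob F W (p ^ f) Φ) (hφ : ∀ P w, ord (φ P) (Φ w) = ord P w)
    (horb : ∀ P, ∃ m > 0, (φ ^ m) P = P) (hfin : ∀ m > 0, {P | (φ ^ m) P = P}.Finite)
    (P₀ : Plc F W) (hP : φ P₀ = P₀) : CD (Plc F W) where
  φ := φ
  Pr := prin h0 h1
  ell D := Module.finrank F (RR D)
  q := p ^ f
  g := g
  P₀ := P₀
  two_le := (Fact.out : p.Prime).two_le.trans (Nat.le_self_pow (by omega) p)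
  fix := hP
  deg := by
    rintro _ ⟨h, hh, rfl⟩
    exact h1.dg_dv h hh
  stable := by
    rintro _ ⟨h, hh, rfl⟩
    exact ⟨Φ h, (map_ne_zero Φ).mpr hh, (pm_dv h1 hφ hh).symm⟩
  orb := horb
  fin := hfin
  count n hn D hD := by
    have hfr := frob_pow hΦ n
    rw [← pow_mul] at hfr
    have h2 := hc p F W hr hff h0 h1 (f * n) (Φ ^ n) (φ ^ n)
      (Nat.mul_pos hf hn) hfr (ord_pow hφ n) D hD
    have e1 : (p ^ f) ^ n = p ^ (f * n) := (pow_mul p f n).symm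
    have e2 : (p ^ f) ^ (n * Module.finrank F (RR D)) = (p ^ (f * n)) ^ Module.finrank F (RR D) := by
      rw [← pow_mul, ← pow_mul, Nat.mul_assoc]
    show Nat.card {E : Dv F W // 0 ≤ E ∧ pm (φ ^ n) E = E ∧ ∃ h : W, h ≠ 0 ∧ dv h = E - D} *
      ((p ^ f) ^ n - 1) = (p ^ f) ^ (n * Module.finrank F (RR D)) - 1
    rw [e1, e2]
    exact h2
  riem := by
    obtain ⟨d, hd⟩ := hg.2
    exact ⟨d, fun D hD => hd D hD⟩
  rep n hn D hD := by
    have hP2 : (φ ^ n) P₀ = P₀ := by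
      have := BConc.pow_fix (n := 1) (P := P₀) (φ := φ) (by rw [pow_one, hP]) n
      rwa [one_mul] at this
    exact hrep F W hff h0 h1 g hg (Φ ^ n) (φ ^ n) P₀ (ord_pow hφ n) hP2 D hD

end

end BInst

end Pool.Agent.Lib.MP_c385f6_ag.TPG
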