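import Pool.Agent.Lib.MP_c385f6_ag.TPG.StB

/-!
Project TPG, part B8: finiteness of the `l`-torsion.
-/

set_option autoImplicit false

namespace Pool.Agent.Lib.MP_c385f6_ag.TPG

universe u

namespace BRank

variable {A : Type u} [AddCommGroup A] (σ : AddMonoid.End A)

/-- the elements fixed by `σ ^ n` -/
def G (n : ℕ) : AddSubgroup A where
  carrier := {a | (σ ^ n) a = a}
  zero_mem' := map_zero _
  add_mem' := by
    intro a b ha hb
    change (σ ^ n) (a + b) = a + b
    rw [map_add, ha, hb]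
  neg_mem' := by
    intro a ha
    change (σ ^ n) (-a) = -a
    rw [map_neg, ha]

theorem mem_G {n : ℕ} {a : A} : a ∈ G σ n ↔ (σ ^ n) a = a := Iff.rfl

theorem fix_mul {n : ℕ} {a : A} (h : (σ ^ n) a = a) (k : ℕ) : (σ ^ (n * k)) a = a := by
  induction k with
  | zero => rw [mul_zero, pow_zero]; rfl
  | succ k ih =>
    rw [mul_add, mul_one, pow_add]
    change (σ ^ (n * k)) ((σ ^ n) a) = a
    rw [h, ih]

/-- the norm -/
def Nm (n l : ℕ) : AddMonoid.End A := ∑ i ∈ Finset.range l, σ ^ (n * i)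

theorem Nm_apply (n l : ℕ) (a : A) : Nm σ n l a = ∑ i ∈ Finset.range l, (σ ^ (n * i)) a := by
  exact AddMonoidHom.finset_sum_apply (fun i => (σ ^ (n * i) : A →+ A)) (Finset.range l) a

theorem Nm_fix {n l : ℕ} {a : A} (h : (σ ^ n) a = a) : Nm σ n l a = l • a := by
  rw [Nm_apply, Finset.sum_congr rfl fun i _ => fix_mul σ h i, Finset.sum_const,
    Finset.card_range]

theorem Nm_mem {n l : ℕ} {b : A} (h : (σ ^ (n * l)) b = b) : (σ ^ n) (Nm σ n l b) = Nm σ n l b := by
  have h1 : (σ ^ n) (Nm σ n l b) = ∑ i ∈ Finset.range l, (σ ^ (n * (i + 1))) b := by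
    rw [Nm_apply, map_sum]
    refine Finset.sum_congr rfl fun i _ => ?_
    rw [mul_add, mul_one, add_comm, pow_add]
    rfl
  have h2 := Finset.sum_range_succ (fun i => (σ ^ (n * i)) b) l
  have h3 := Finset.sum_range_succ' (fun i => (σ ^ (n * i)) b) l
  rw [h2] at h3
  simp only [mul_zero, pow_zero] at h3
  rw [h] at h3
  have h4 : (1 : AddMonoid.End A) b = b := rfl
  rw [h4] at h3
  rw [h1, Nm_apply]
  exact (add_right_cancel h3).symm

/-- the norm on fixed elements -/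
def ps (n l : ℕ) : G σ (n * l) →+ G σ n where
  toFun x := ⟨Nm σ n l x, Nm_mem σ x.2⟩
  map_zero' := Subtype.ext (map_zero _)
  map_add' _ _ := Subtype.ext (map_add _ _ _)

/-- the `l`-torsion of the elements fixed by `σ ^ n` -/
def K (n l : ℕ) : AddSubgroup (G σ (n * l)) where
  carrier := {x | (σ ^ n) (x : A) = x ∧ l • (x : A) = 0}
  zero_mem' := ⟨map_zero _, smul_zero _⟩
  add_mem' := by
    rintro a b ⟨ha, ha'⟩ ⟨hb, hb'⟩
    refine ⟨?_, ?_⟩
    · change (σ ^ n) ((a : A) + b) = (a : A) + b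
      rw [map_add, ha, hb]
    · change l • ((a : A) + b) = 0
      rw [smul_add, ha', hb', add_zero]
  neg_mem' := by
    rintro a ⟨ha, ha'⟩
    refine ⟨?_, ?_⟩
    · change (σ ^ n) (-(a : A)) = -(a : A)
      rw [map_neg, ha]
    · change l • (-(a : A)) = 0
      rw [smul_neg, ha', neg_zero]

theorem card_K_dvd (hfin : ∀ n > 0, {a : A | (σ ^ n) a = a}.Finite)
    (hN : ∀ m > 0, ∀ n > 0, ∀ a, (σ ^ m) a = a →
      ∃ b, (σ ^ (m * n)) b = b ∧ (∑ i ∈ Finset.range n, σ ^ (m * i)) b = a)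
    {N : ℕ} {C : Matrix (Fin N) (Fin N) ℤ}
    (hC : ∀ n > 0, (Nat.card {a : A | (σ ^ n) a = a} : ℤ) = (1 - C ^ n).det)
    {l : ℕ} (hl : 0 < l) {n : ℕ} (hn : 0 < n) :
    (Nat.card (K σ n l) : ℤ) ∣ (∑ i ∈ Finset.range l, C ^ (n * i)).det := by
  have hf1 : Finite (G σ (n * l)) := hfin (n * l) (Nat.mul_pos hn hl)
  have hf2 : Finite (G σ n) := hfin n hn
  have hsurj : Function.Surjective (ps σ n l) := by
    rintro ⟨a, ha⟩
    obtain ⟨b, hb, hb'⟩ := hN n hn l hl a ha
    exact ⟨⟨b, hb⟩, Subtype.ext hb'⟩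
  have h1 : Nat.card (G σ (n * l)) = Nat.card (G σ n) * Nat.card (ps σ n l).ker := by
    rw [AddSubgroup.card_eq_card_quotient_mul_card_addSubgroup (ps σ n l).ker,
      Nat.card_congr (QuotientAddGroup.quotientKerEquivOfSurjective (ps σ n l) hsurj).toEquiv]
  have h2 : (Nat.card (G σ (n * l)) : ℤ) = (1 - C ^ (n * l)).det := hC _ (Nat.mul_pos hn hl)
  have h3 : (Nat.card (G σ n) : ℤ) = (1 - C ^ n).det := hC _ hn
  have h4 : (1 - C ^ (n * l)) = (1 - C ^ n) * ∑ i ∈ Finset.range l, C ^ (n * i) := by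
    have h5 := mul_neg_geom_sum (C ^ n) l
    rw [← pow_mul] at h5
    rw [← h5]
    congr 1
    exact Finset.sum_congr rfl fun i _ => (pow_mul C n i).symm
  have h5 : (Nat.card (G σ n) : ℤ) ≠ 0 := by
    exact_mod_cast Nat.card_pos.ne'
  have h6 : (Nat.card (ps σ n l).ker : ℤ) = (∑ i ∈ Finset.range l, C ^ (n * i)).det := by
    apply mul_left_cancel₀ h5
    rw [← Nat.cast_mul, ← h1, h2, h4, Matrix.det_mul, h3]
  have h7 : K σ n l ≤ (ps σ n l).ker := by
    intro x hx
    rw [AddMonoidHom.mem_ker]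
    apply Subtype.ext
    change Nm σ n l (x : A) = 0
    rw [Nm_fix σ hx.1, hx.2]
  rw [← h6]
  exact_mod_cast AddSubgroup.card_dvd_of_le h7

theorem card_K (hfin : ∀ n > 0, {a : A | (σ ^ n) a = a}.Finite) {l : ℕ} (hl : l.Prime) {n : ℕ}
    (hn : 0 < n) : ∃ r : ℕ, Nat.card (K σ n l) = l ^ r := by
  have : Fact l.Prime := ⟨hl⟩
  have hf1 : Finite (G σ (n * l)) := hfin (n * l) (Nat.mul_pos hn hl.pos)
  let _ : Module (ZMod l) (K σ n l) := AddCommGroup.zmodModule fun x =>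
    Subtype.ext (Subtype.ext x.2.2)
  have hfK : Finite (K σ n l) := inferInstance
  have hmf : Module.Finite (ZMod l) (K σ n l) := Module.Finite.of_finite
  refine ⟨@Module.finrank (ZMod l) (K σ n l) _ _ _, ?_⟩
  have h1 := @Module.natCard_eq_pow_finrank (ZMod l) (K σ n l) _ _ _ hmf
  rw [Nat.card_zmod] at h1
  exact h1

end BRank

open BRank

/-- B8. The `l`-torsion is finite. -/
theorem stRank (h : StBd) : StRank.{u} := by
  intro A _ σ hfix hfin hN N C hC l hl
  obtain ⟨n₀, hn₀, hb⟩ := h N C l hl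
  by_contra hinf
  obtain ⟨s, hs, hcard⟩ := Set.Infinite.exists_subset_card_eq hinf (l ^ N + 1)
  choose k hk0 hk using hfix
  set n := n₀ * ∏ a ∈ s, k a with hn
  have hn0 : 0 < n := Nat.mul_pos hn₀ (Finset.prod_pos fun a _ => hk0 a)
  have hnd : n₀ ∣ n := dvd_mul_right _ _
  have hsn : ∀ a ∈ s, (σ ^ n) a = a := by
    intro a ha
    obtain ⟨c, hc⟩ : k a ∣ n := (Finset.dvd_prod_of_mem k ha).trans (dvd_mul_left _ _)
    rw [hc]
    exact fix_mul σ (hk a) c
  have hfK : Finite (K σ n l) := by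
    have hf1 : Finite (G σ (n * l)) := hfin (n * l) (Nat.mul_pos hn0 hl.pos)
    infer_instance
  obtain ⟨r, hr⟩ := card_K σ hfin hl hn0
  have hd := card_K_dvd σ hfin hN hC hl.pos hn0
  rw [hr] at hd
  have hrN : r ≤ N := by
    by_contra hlt
    push Not at hlt
    apply hb n hn0 hnd
    refine dvd_trans ?_ hd
    push_cast
    exact pow_dvd_pow _ hlt
  have hle : s.card ≤ Nat.card (K σ n l) := by
    have hinj : Function.Injective (fun a : s => (⟨⟨a.1, fix_mul σ (hsn a.1 a.2) l⟩,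
        hsn a.1 a.2, hs a.2⟩ : K σ n l)) := by
      intro a b hab
      have h1 := congrArg (fun x : K σ n l => ((x : G σ (n * l)) : A)) hab
      exact Subtype.ext h1
    have h2 := Nat.card_le_card_of_injective _ hinj
    rwa [Nat.card_eq_fintype_card, Fintype.card_coe] at h2
  rw [hcard, hr] at hle
  have := Nat.pow_le_pow_right hl.pos hrN
  omega

end Pool.Agent.Lib.MP_c385f6_ag.TPG
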