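import Pool.Agent.Lib.MP_c385f6_ag.TPG.StD

/-!
Project TPG, module D6: a group acting on the union of the towers acts on the residue field.
-/

set_option autoImplicit false

namespace Pool.Agent.Lib.MP_c385f6_ag.TPG

universe u v u' v' w

namespace DTwActAux

variable {C : Type u} {Ω : Type v} {F : Type u'} {U : Type v'} [Field C] [Field Ω] [Field F]
  [Field U] [Algebra C Ω] [Algebra F U] (R : Red C Ω F U) (T : IntermediateField C Ω)
  (T' : IntermediateField F U) (hT : R.img T = T')

include hT in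
theorem exists_lift (y : T') : ∃ z : T, (z : Ω) ∈ R.w ∧ R.res z = (y : U) := by
  have h : (y : U) ∈ R.img T := by
    rw [hT]
    exact y.2
  obtain ⟨z, hz, hz', hz''⟩ := h
  exact ⟨⟨z, hz⟩, hz', hz''⟩

/-- a lift to the valuation ring -/
noncomputable def lft (y : T') : T := (exists_lift R T T' hT y).choose

theorem lft_mem (y : T') : (lft R T T' hT y : Ω) ∈ R.w := (exists_lift R T T' hT y).choose_spec.1

theorem lft_res (y : T') : R.res (lft R T T' hT y) = (y : U) :=
  (exists_lift R T T' hT y).choose_spec.2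

include hT in
theorem res_mem (z : T) : R.res z ∈ T' := by
  rw [← hT]
  exact R.res_mem_img T _

/-- the action of one automorphism on the residue field -/
noncomputable def act (f : T ≃+* T) (y : T') : T' :=
  ⟨R.res (f (lft R T T' hT y) : T), res_mem R T T' hT _⟩

variable (f : T ≃+* T) (hf : ∀ z : T, ((f z : T) : Ω) ∈ R.w ↔ (z : Ω) ∈ R.w)

include hf in
theorem res_zero_of (z : T) (hz : (z : Ω) ∈ R.w) (h : R.res z = 0) : R.res (f z : T) = 0 := by
  by_contra hcon
  have h1 := Red.inv_mem hcon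
  have h2 : (((f z : T) : Ω))⁻¹ = ((f z⁻¹ : T) : Ω) := by
    rw [map_inv₀]
    rfl
  rw [h2, hf] at h1
  have hz0 : z ≠ 0 := by
    rintro rfl
    apply hcon
    rw [map_zero]
    exact R.res_zero
  have h3 : (z : Ω) * ((z⁻¹ : T) : Ω) = 1 := by
    have : z * z⁻¹ = 1 := mul_inv_cancel₀ hz0
    have h4 := congrArg (fun x : T => (x : Ω)) this
    exact h4
  have h4 := R.res_mul z hz _ h1
  rw [h3, R.res_one, h, zero_mul] at h4
  exact one_ne_zero h4

include hf in
theorem act_eq (z : T) (hz : (z : Ω) ∈ R.w) (y : T') (hy : (y : U) = R.res z) :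
    (act R T T' hT f y : U) = R.res (f z : T) := by
  have h1 := lft_mem R T T' hT y
  have h2 := lft_res R T T' hT y
  have h3 : R.res ((lft R T T' hT y - z : T) : Ω) = 0 := by
    have e : ((lft R T T' hT y - z : T) : Ω) = (lft R T T' hT y : Ω) - z := rfl
    rw [e, R.res_sub h1 hz, h2, hy, sub_self]
  have h4 : ((lft R T T' hT y - z : T) : Ω) ∈ R.w := sub_mem h1 hz
  have h5 := res_zero_of R T f hf _ h4 h3
  have e : ((f (lft R T T' hT y - z) : T) : Ω) = (f (lft R T T' hT y) : T) - (f z : T) := by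
    rw [map_sub]
    rfl
  rw [e, R.res_sub ((hf _).2 h1) ((hf _).2 hz), sub_eq_zero] at h5
  exact h5

include hf in
theorem act_add (x y : T') : act R T T' hT f (x + y) = act R T T' hT f x + act R T T' hT f y := by
  apply Subtype.ext
  have hx := lft_mem R T T' hT x
  have hy := lft_mem R T T' hT y
  have h1 : ((lft R T T' hT x + lft R T T' hT y : T) : Ω) ∈ R.w := add_mem hx hy
  have h2 : ((x + y : T') : U) = R.res ((lft R T T' hT x + lft R T T' hT y : T) : Ω) := by
    have e : ((lft R T T' hT x + lft R T T' hT y : T) : Ω) =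
      (lft R T T' hT x : Ω) + lft R T T' hT y := rfl
    rw [e, R.res_add _ hx _ hy, lft_res, lft_res]
    rfl
  rw [act_eq R T T' hT f hf _ h1 (x + y) h2, map_add]
  exact R.res_add _ ((hf _).2 hx) _ ((hf _).2 hy)

include hf in
theorem act_mul (x y : T') : act R T T' hT f (x * y) = act R T T' hT f x * act R T T' hT f y := by
  apply Subtype.ext
  have hx := lft_mem R T T' hT x
  have hy := lft_mem R T T' hT y
  have h1 : ((lft R T T' hT x * lft R T T' hT y : T) : Ω) ∈ R.w := mul_mem hx hy
  have h2 : ((x * y : T') : U) = R.res ((lft R T T' hT x * lft R T T' hT y : T) : Ω) := by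
    have e : ((lft R T T' hT x * lft R T T' hT y : T) : Ω) =
      (lft R T T' hT x : Ω) * lft R T T' hT y := rfl
    rw [e, R.res_mul _ hx _ hy, lft_res, lft_res]
    rfl
  rw [act_eq R T T' hT f hf _ h1 (x * y) h2, map_mul]
  exact R.res_mul _ ((hf _).2 hx) _ ((hf _).2 hy)

theorem act_one (y : T') : act R T T' hT (1 : T ≃+* T) y = y :=
  Subtype.ext (lft_res R T T' hT y)

include hf in
theorem act_comp (g : T ≃+* T) (hg : ∀ z : T, ((g z : T) : Ω) ∈ R.w ↔ (z : Ω) ∈ R.w) (y : T') :
    act R T T' hT (f * g) y = act R T T' hT f (act R T T' hT g y) := by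
  apply Subtype.ext
  have h1 := lft_mem R T T' hT y
  have h2 := (hg _).2 h1
  have h3 : (act R T T' hT g y : U) = R.res (g (lft R T T' hT y) : T) := rfl
  rw [act_eq R T T' hT f hf _ h2 (act R T T' hT g y) h3]
  rfl

end DTwActAux

open DTwActAux in
/-- D6 -/
theorem stTwAct (hUq : StTwUq.{u, v, u', v'}) : StTwAct.{u, v, u', v', w} := by
  intro C Ω F U _ _ _ _ _ _ _ _ R p g L G _ a hC hF hgood himg hstab
  have hw : ∀ (s : G) (z : Tinf C p L), ((a s z : Tinf C p L) : Ω) ∈ R.w ↔ (z : Ω) ∈ R.w := by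
    intro s
    let w' : ValuationSubring (Tinf C p L) :=
      (R.w.comap (algebraMap (Tinf C p L) Ω)).comap ((a s : Tinf C p L ≃+* Tinf C p L) :
        Tinf C p L →+* Tinf C p L)
    have hmem : ∀ z : Tinf C p L, z ∈ w' ↔ ((a s z : Tinf C p L) : Ω) ∈ R.w := fun z => Iff.rfl
    have h1 := hUq C Ω F U R p g L hC hF hgood w' (by
      intro z hz
      rw [hmem]
      obtain ⟨h2, h3⟩ := hstab s z hz
      refine ⟨fun h => ?_, h3⟩
      have h4 := (hstab s⁻¹ (a s z) h2).2 h
      have h5 : a s⁻¹ (a s z) = z := by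
        rw [← RingAut.mul_apply, ← map_mul, inv_mul_cancel, map_one]
        rfl
      rw [h5] at h4
      exact h4)
    intro z
    rw [← hmem]
    exact h1 z
  let ρ : G → (Tinf F p (R.img L) ≃+* Tinf F p (R.img L)) := fun s =>
    { toFun := act R (Tinf C p L) (Tinf F p (R.img L)) himg (a s)
      invFun := act R (Tinf C p L) (Tinf F p (R.img L)) himg (a s⁻¹)
      left_inv := fun y => by
        rw [← act_comp R _ _ himg (a s⁻¹) (hw s⁻¹) (a s) (hw s), ← map_mul, inv_mul_cancel,
          map_one, act_one]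
      right_inv := fun y => by
        rw [← act_comp R _ _ himg (a s) (hw s) (a s⁻¹) (hw s⁻¹), ← map_mul, mul_inv_cancel,
          map_one, act_one]
      map_mul' := act_mul R _ _ himg (a s) (hw s)
      map_add' := act_add R _ _ himg (a s) (hw s) }
  refine ⟨{ toFun := ρ
            map_one' := ?_
            map_mul' := ?_ }, ?_⟩
  · ext y
    change ((act R (Tinf C p L) (Tinf F p (R.img L)) himg (a 1) y : Tinf F p (R.img L)) : U) = y
    rw [map_one, act_one]
  · intro s t
    ext y
    change ((act R (Tinf C p L) (Tinf F p (R.img L)) himg (a (s * t)) y :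
      Tinf F p (R.img L)) : U) = (act R (Tinf C p L) (Tinf F p (R.img L)) himg (a s)
        (act R (Tinf C p L) (Tinf F p (R.img L)) himg (a t) y) : Tinf F p (R.img L))
    rw [map_mul, act_comp R _ _ himg (a s) (hw s) (a t) (hw t)]
  · intro s z y hz
    exact ⟨(hw s z).2 hz, fun hy => act_eq R _ _ himg (a s) (hw s) z hz y hy⟩

end Pool.Agent.Lib.MP_c385f6_ag.TPG
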