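import Mathlib

/-!
Project TPG. Function fields of one variable: places, orders, divisors, Riemann–Roch spaces, genus.
`F` is the field of constants (algebraically closed in all statements), `W` the function field.
-/

set_option autoImplicit false

namespace Pool.Agent.Lib.MP_c385f6_ag.TPG

universe u v

/-- A place of `W` over `F`: a valuation ring of `W`, different from `W`, that contains `F`. -/
@[ext] structure Plc (F : Type u) (W : Type v) [Field F] [Field W] [Algebra F W] where
  ring : ValuationSubring W
  ne_top : ring ≠ ⊤
  const_mem : ∀ c : F, algebraMap F W c ∈ ring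

/-- `W` is a function field of one variable over `F`. -/
def FF (F : Type u) (W : Type v) [Field F] [Field W] [Algebra F W] : Prop :=
  ∃ t : W, Transcendental F t ∧ FiniteDimensional (IntermediateField.adjoin F {t}) W

variable {F : Type u} {W : Type v} [Field F] [Field W] [Algebra F W]

open Classical in
/-- The order of `x` at `P`: the integer `n` such that the value of `x` is the `n`-th power of the
value of a generator `u` of the maximal ideal (`0` for `x = 0`). -/
noncomputable def ord (P : Plc F W) (x : W) : ℤ :=
  if h : ∃ n : ℤ, ∃ u : W, u ≠ 0 ∧ P.ring.valuation u < 1 ∧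
      (∀ y : W, P.ring.valuation y < 1 → P.ring.valuation y ≤ P.ring.valuation u) ∧
      P.ring.valuation x = P.ring.valuation u ^ n
  then h.choose else 0

/-- Divisors. -/
abbrev Dv (F : Type u) (W : Type v) [Field F] [Field W] [Algebra F W] := Plc F W →₀ ℤ

/-- The degree of a divisor (all places have degree one, as `F` is algebraically closed). -/
noncomputable def dg (D : Dv F W) : ℤ := D.sum fun _ n => n

open Classical in
/-- The principal divisor of `f` (`0` if `f = 0`). -/
noncomputable def dv (f : W) : Dv F W :=
  if h : (Function.support fun P : Plc F W => ord P f).Finite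
  then Finsupp.ofSupportFinite (fun P => ord P f) h else 0

/-- The space `L(D)` of all `f` with `f = 0` or `div f + D ≥ 0`. -/
noncomputable def RR (D : Dv F W) : Submodule F W :=
  Submodule.span F {f : W | f ≠ 0 ∧ ∀ P : Plc F W, - D P ≤ ord P f}

/-- `l(D) = dim L(D)`. -/
noncomputable def ell (D : Dv F W) : ℤ := Module.finrank F (RR D)

/-- `g` is the genus of `W / F`. -/
def IsGenus (F : Type u) (W : Type v) [Field F] [Field W] [Algebra F W] (g : ℕ) : Prop :=
  (∀ D : Dv F W, dg D + 1 - g ≤ ell D) ∧
    ∃ d : ℤ, ∀ D : Dv F W, d ≤ dg D → ell D = dg D + 1 - g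

/-- `D_n(W)`: the nonzero `g` with divisor divisible by `n`. -/
def Dn (F : Type u) {W : Type v} [Field F] [Field W] [Algebra F W] (n : ℕ) : Set W :=
  {g : W | g ≠ 0 ∧ ∀ P : Plc F W, (n : ℤ) ∣ ord P g}

/-- `W` is a rational function field over `F`. -/
def IsRat (F : Type u) (W : Type v) [Field F] [Field W] [Algebra F W] : Prop :=
  ∃ x : W, IntermediateField.adjoin F {x} = ⊤

/-- The place `Q` of `W'` lies over the place `P` of `W`. -/
def Over {F : Type u} {W : Type v} {W' : Type*} [Field F] [Field W] [Field W'] [Algebra F W]
    [Algebra F W'] [Algebra W W'] (P : Plc F W) (Q : Plc F W') : Prop :=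
  P.ring = Q.ring.comap (algebraMap W W')

/-- The ring isomorphism `s : W → W'` maps the place `P` to the place `Q`. -/
def Mv {F : Type u} {W : Type v} {F' W' : Type*} [Field F] [Field W] [Field F'] [Field W']
    [Algebra F W] [Algebra F' W'] (s : W ≃+* W') (P : Plc F W) (Q : Plc F' W') : Prop :=
  ∀ z : W, z ∈ P.ring ↔ s z ∈ Q.ring

end Pool.Agent.Lib.MP_c385f6_ag.TPG
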