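import Pool.Agent.Lib.MP_c385f6_ag.Defs
import Pool.Agent.Lib.MP_c385f6_ag.TPG.StCo

/-!
Project TPG, part G: the model of a curve over the ring of integers of a `p`-adic field, given by a
function `t`, and the valuation of the algebraic closure of a `p`-adic field.
-/

set_option autoImplicit false

open Polynomial

namespace Pool.Agent.Lib.MP_c385f6_ag.TPG

universe u v u' v'

section Model

variable (p : ℕ) [Fact p.Prime] (k : Type) {E : Type u} [Field k] [Algebra ℚ_[p] k] [Field E]
  [Algebra k E]

/-- `A(z)`: the integral closure of `O_k[z]` in `E`, where `O_k` is the ring of integers of `k`. -/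
def modelRing (z : E) : Subring E :=
  (integralClosure (Subring.closure
    (insert z (algebraMap k E '' {c : k | spectralNorm ℚ_[p] k c ≤ 1}))) E).toSubring

/-- The ideal of `A(z)` generated by the maximal ideal of `O_k`. -/
def modelIdeal (z : E) : Ideal (modelRing p k z) :=
  Ideal.span {a | ∃ c : k, spectralNorm ℚ_[p] k c < 1 ∧ (a : E) = algebraMap k E c}

/-- The normalisation of `ℙ¹` over `O_k` (with coordinate `t`) in the extension `E` of `k(t)` is
smooth over `O_k` and its special fibre is geometrically irreducible: the rings `A(t) / m A(t)` and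
`A(1/t) / m A(1/t)` (`m` the maximal ideal of `O_k`) are integrally closed domains, and the elements
of `A(t) / m A(t)` that are algebraic over the prime field are residue classes of elements of
`O_k`. -/
structure GoodModel (t : E) : Prop where
  domain : ∀ z ∈ ({t, t⁻¹} : Set E), IsDomain (modelRing p k z ⧸ modelIdeal p k z)
  normal : ∀ z ∈ ({t, t⁻¹} : Set E), IsIntegrallyClosed (modelRing p k z ⧸ modelIdeal p k z)
  const : ∀ a : modelRing p k t ⧸ modelIdeal p k t, IsIntegral ℤ a →
    ∃ (b : modelRing p k t) (c : k), (b : E) = algebraMap k E c ∧ Ideal.Quotient.mk _ b = a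

end Model

section Lvl

variable (p : ℕ) [Fact p.Prime] (k' : Type) {K' Ω : Type v} {C : Type u} {F : Type u'}
  {U : Type v'} [Field k'] [Field K'] [Field Ω] [Field C] [Field F] [Field U] [Algebra ℚ_[p] k']
  [Algebra k' K'] [Algebra K' Ω] [Algebra C Ω] [Algebra k' Ω] [Algebra F U]

/-- The reduction `R` of `Ω ⊇ K'` induces the `p`-adic valuation on `k'` and the Gauss valuation on
`k'(t)`, and `t` defines a good model of `K'`. -/
structure Mdl (R : Red C Ω F U) (t : K') : Prop where
  int : ∀ c : k', algebraMap k' Ω c ∈ R.w ↔ spectralNorm ℚ_[p] k' c ≤ 1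
  mem : algebraMap K' Ω t ∈ R.w
  trans : Transcendental F (R.res (algebraMap K' Ω t))
  ftr : Transcendental k' t
  fin : FiniteDimensional (IntermediateField.adjoin k' {t}) K'
  good : GoodModel p k' t

end Lvl

section Val

variable (p : ℕ) [Fact p.Prime] (k : Type) {C : Type u} [Field k] [Field C] [Algebra ℚ_[p] k]
  [Algebra k C] {Γ₀ : Type v} [LinearOrderedCommGroupWithZero Γ₀]

/-- `v` is the valuation of the algebraic extension `C` of the finite extension `k` of `ℚ_p`. -/
def IsVal (v : Valuation C Γ₀) : Prop :=
  ∀ c : k, v (algebraMap k C c) ≤ 1 ↔ spectralNorm ℚ_[p] k c ≤ 1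

/-- The inertia group: the elements that act trivially on the residue field. -/
def IsIn {C : Type u} [Field C] (v : Valuation C Γ₀) (s : C ≃+* C) : Prop :=
  ∀ c : C, v c ≤ 1 → v (s c - c) < 1

/-- The wild inertia group. -/
def IsWild {C : Type u} [Field C] (v : Valuation C Γ₀) (s : C ≃+* C) : Prop :=
  ∀ c : C, c ≠ 0 → v (s c - c) < v c

/-- `s` acts on the residue field as the `q`-th power. -/
def IsFrob {C : Type u} [Field C] (v : Valuation C Γ₀) (q : ℕ) (s : C ≃+* C) : Prop :=
  ∀ c : C, v c ≤ 1 → v (s c - c ^ q) < 1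

end Val

/-- The divisor `m (t)_∞`. -/
noncomputable def pl (F : Type u) {W : Type v} [Field F] [Field W] [Algebra F W] (t : W) (m : ℕ) :
    Dv F W :=
  m • ((-dv t) ⊔ 0)

end Pool.Agent.Lib.MP_c385f6_ag.TPG
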