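import Mathlib
import Pool.Agent.Lib.MP_c385f6_ag.TPG.StG
import Pool.Agent.Lib.MP_c385f6_ag.TPG.COnb

/-!
Project TPG, G9: orthonormal bases.
-/

set_option autoImplicit false

open Polynomial

namespace Pool.Agent.Lib.MP_c385f6_ag.TPG

universe u v u' v'

namespace GONAux

open Lin ONAux

variable {C : Type u} {L : Type v} {F : Type u'} {Λ : Type v'} [Field C] [Field L] [Field F]
  [Field Λ] [Algebra C L] [Algebra F Λ] {R : Red C L F Λ}

/-- Every finite dimensional subspace has an orthonormal basis. -/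
theorem main {t : L} (hG : DegEq R t) (V : Submodule C L) (hfg : V.FG) :
    ∃ (r : ℕ) (g : Fin r → L), Orth R g ∧ Submodule.span C (Set.range g) = V := by
  classical
  obtain ⟨ht, htr, hfC, hfF, hdeg⟩ := hG
  choose b hb hbr using R.res_surj
  set β := Module.finBasis (IntermediateField.adjoin F {R.res t}) Λ with hβ
  have hi : LinearIndependent (IntermediateField.adjoin F {R.res t})
      fun i => R.res (b (β i)) := by
    simp only [hbr]
    exact β.linearIndependent
  have hO := orth_pow ht htr (fun i => hb (β i)) hi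
  have hind := indep ht htr (fun i => hb (β i)) hi
  set e : ℕ × Fin (Module.finrank (IntermediateField.adjoin F {R.res t}) Λ) → L :=
    fun x => t ^ x.1 * b (β x.2) with he
  have hspan : Submodule.span (IntermediateField.adjoin C {t})
      (Set.range fun i => b (β i)) = ⊤ := by
    apply hind.span_eq_top_of_card_eq_finrank'
    rw [Fintype.card_fin, hdeg]
  set W : Submodule C L := Submodule.span C (Set.range e) with hW
  have hmul : ∀ (P : C[X]), ∀ x ∈ W, aeval t P * x ∈ W := by
    intro P x hx
    induction hx using Submodule.span_induction with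
    | mem x hx =>
      obtain ⟨⟨j, i⟩, rfl⟩ := hx
      rw [aeval_eq_sum_range, Finset.sum_mul]
      refine Submodule.sum_mem _ fun l _ => ?_
      rw [smul_mul_assoc]
      refine Submodule.smul_mem _ _ (Submodule.subset_span ⟨(l + j, i), ?_⟩)
      rw [he]
      change t ^ (l + j) * b (β i) = t ^ l * (t ^ j * b (β i))
      rw [pow_add, mul_assoc]
    | zero => rw [mul_zero]; exact W.zero_mem
    | add x y _ _ hx hy => rw [mul_add]; exact W.add_mem hx hy
    | smul c x _ hx => rw [mul_smul_comm]; exact W.smul_mem c hx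
  have hone : ∀ f : L, ∃ P : C[X], aeval t P ≠ 0 ∧ aeval t P * f ∈ W := by
    intro f
    have hf : f ∈ Submodule.span (IntermediateField.adjoin C {t})
        (Set.range fun i => b (β i)) := by
      rw [hspan]; trivial
    obtain ⟨q, hq⟩ := (Submodule.mem_span_range_iff_exists_fun _).1 hf
    obtain ⟨P, hP, hPs⟩ := exists_den t Finset.univ q
    refine ⟨P, hP, ?_⟩
    rw [← hq, Finset.mul_sum]
    refine Submodule.sum_mem _ fun i _ => ?_
    obtain ⟨p, hp⟩ := hPs i (Finset.mem_univ i)
    have h1 : aeval t P * (q i • b (β i)) = aeval t p * b (β i) := by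
      rw [← hp, mul_assoc]
      rfl
    rw [h1]
    apply hmul
    refine Submodule.subset_span ⟨(0, i), ?_⟩
    rw [he]
    change t ^ 0 * b (β i) = b (β i)
    rw [pow_zero, one_mul]
  have hmany : ∀ S : Finset L, ∃ P : C[X], aeval t P ≠ 0 ∧ ∀ f ∈ S, aeval t P * f ∈ W := by
    intro S
    induction S using Finset.induction_on with
    | empty => exact ⟨1, by simp, by simp⟩
    | insert a s ha ih =>
      obtain ⟨P, hP, hPs⟩ := ih
      obtain ⟨Q, hQ, hQa⟩ := hone a
      refine ⟨P * Q, by rw [map_mul]; exact mul_ne_zero hP hQ, fun f hf => ?_⟩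
      rw [map_mul]
      rcases Finset.mem_insert.1 hf with rfl | hf
      · rw [mul_assoc]
        exact hmul P _ hQa
      · rw [mul_comm (aeval t P), mul_assoc]
        exact hmul Q _ (hPs f hf)
  obtain ⟨S, hS⟩ := hfg
  obtain ⟨P, hP, hPs⟩ := hmany S
  obtain ⟨c, hc, hr⟩ := poly_scale ht htr P hP
  set q : L := algebraMap C L c * aeval t P with hq
  have hq0 : q ≠ 0 := by
    rintro h0
    rw [h0, R.res_zero] at hr
    exact hr rfl
  have hqi : R.res q⁻¹ ≠ 0 := by
    rw [R.res_inv hr]
    exact inv_ne_zero hr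
  refine sub_any (fun x => e x * q⁻¹) (hO.mul hqi) V ⟨S, hS⟩ ?_
  rw [← hS, Submodule.span_le]
  intro f hf
  have h1 : f * q ∈ W := by
    have h2 := W.smul_mem c (hPs f hf)
    have h3 : f * q = c • (aeval t P * f) := by
      rw [hq, Algebra.smul_def]; ring
    rwa [h3]
  have h2 : f = (LinearMap.mulRight C q⁻¹) (f * q) := by
    rw [LinearMap.mulRight_apply, mul_assoc, mul_inv_cancel₀ hq0, mul_one]
  have h3 : f ∈ W.map (LinearMap.mulRight C q⁻¹) := ⟨f * q, h1, h2.symm⟩
  rw [hW, Submodule.map_span, ← Set.range_comp] at h3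
  exact h3

end GONAux

/-- G9. Orthonormal bases. -/
theorem stONd : StONd.{u, v, u', v'} := by
  intro C L F Λ _ _ _ _ _ _ _ R t h
  refine ⟨⟨t, Lin.transc h.mem h.trans, h.finC⟩, ⟨R.res t, h.trans, h.finF⟩, fun V hV => ?_⟩
  obtain ⟨r, e, he, hs⟩ := GONAux.main h V ((Submodule.fg_iff_finiteDimensional V).2 hV)
  exact ⟨r, e, he.mem, he.ind, hs⟩

end Pool.Agent.Lib.MP_c385f6_ag.TPG
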