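import Pool.Agent.Lib.MP_c385f6_ag.TPG.StCo

/-!
Project TPG, K2: frames exist.
-/

set_option autoImplicit false

namespace Pool.Agent.Lib.MP_c385f6_ag.TPG

universe u v u' v'

/-- K2. Frames exist. -/
theorem stFrm (h1 : StGenD.{u', v'}) (h2 : StDsc.{u, v, u', v'}) (h3 : StCrd.{u, v, u', v'}) :
    StFrm.{u, v, u', v'} := by
  intro C L F Λ _ _ _ _ _ _ _ _ R g sp hG hS
  obtain ⟨x, hx, hx1⟩ := h1 F Λ hG.ffF g hG.genF
  have hs := (h2 C L F Λ R g sp hG hS).1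
  have hc := (h3 C L F Λ R g sp hG hS).1
  have h4 : ∀ i, ∃ u : L, IsCrd R sp (x i) u := by
    intro i
    obtain ⟨P, hP⟩ := hs (x i)
    obtain ⟨u, hu, -⟩ := hc P
    exact ⟨u, hP ▸ hu⟩
  choose u hu using h4
  exact ⟨x, u, ⟨hx, hx1, hu⟩⟩

end Pool.Agent.Lib.MP_c385f6_ag.TPG
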