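import Pool.Agent.Lib.MP_c385f6_ag.TPG.Defs
import Pool.Agent.Lib.MP_c385f6_ag.TPG.StA
import Pool.Agent.Lib.MP_c385f6_ag.TPG.BDefs

/-!
Project TPG, part B: function fields over the algebraic closure of a finite field.
Sketches of the proofs: team store `tpg_B.md`.
-/

set_option autoImplicit false

namespace Pool.Agent.Lib.MP_c385f6_ag.TPG

universe u v

/-- All nonzero elements are roots of unity. -/
def RU (F : Type u) [Field F] : Prop := ∀ a : F, a ≠ 0 → ∃ n : ℕ, 0 < n ∧ a ^ n = 1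

/-- `Φ` is a Frobenius of `W / F`. -/
structure Frob (F : Type u) (W : Type v) [Field F] [Field W] [Algebra F W] (q : ℕ)
    (Φ : W ≃+* W) : Prop where
  const : ∀ c : F, Φ (algebraMap F W c) = algebraMap F W (c ^ q)
  fin : ∀ w : W, ∃ m : ℕ, 0 < m ∧ Φ^[m] w = w

/-! The final statements `StAlpha`, `StGamma`, `StDelta` are in `TPG/StE.lean`. -/

/-! ### Power series, matrices -/

/-- B1. The recursion for the coefficients of a zeta function with weights. -/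
def StNewt : Prop :=
  ∀ (T : Type u) (φ : Equiv.Perm T), (∀ m > 0, {P | (φ ^ m) P = P}.Finite) →
    (∀ d : ℕ, (Ef φ d).Finite) ∧
    ∀ χ : (T →₀ ℤ) → ℂ, (∀ D E, pm φ D = D → pm φ E = E → χ (D + E) = χ D * χ E) →
      ∀ d : ℕ, (d : ℂ) * ∑ᶠ E ∈ Ef φ d, χ E =
        ∑ m ∈ Finset.range d,
          (∑ᶠ P ∈ {P | (φ ^ (m + 1)) P = P}, χ (nm φ (m + 1) (Finsupp.single P 1))) *
            ∑ᶠ E ∈ Ef φ (d - (m + 1)), χ E

/-- B2. The product over the roots of unity. -/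
def StPS : Prop :=
  ∀ (n : ℕ) (ζ : ℂ) (S : ℕ → ℂ) (L M : PowerSeries ℂ), 0 < n → IsPrimitiveRoot ζ n →
    PowerSeries.coeff 0 L = 1 → PowerSeries.coeff 0 M = 1 →
    (∀ d : ℕ, (d : ℂ) * PowerSeries.coeff d L =
      ∑ m ∈ Finset.range d, S (m + 1) * PowerSeries.coeff (d - (m + 1)) L) →
    (∀ d : ℕ, (d : ℂ) * PowerSeries.coeff d M =
      ∑ m ∈ Finset.range d, S (n * (m + 1)) * PowerSeries.coeff (d - (m + 1)) M) →
    ∀ d : ℕ, PowerSeries.coeff d (∏ i ∈ Finset.range n, PowerSeries.rescale (ζ ^ i) L) =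
      if n ∣ d then PowerSeries.coeff (d / n) M else 0

/-- B3. Every polynomial with constant term `1` is a reversed characteristic polynomial. -/
def StComp : Prop :=
  ∀ P : Polynomial ℤ, P.coeff 0 = 1 → ∃ (N : ℕ) (C : Matrix (Fin N) (Fin N) ℤ),
    C.charpolyRev = P

/-- B4. The determinant of `1 - C ^ n`. -/
def StDet : Prop :=
  ∀ (N : ℕ) (C : Matrix (Fin N) (Fin N) ℤ) (n : ℕ) (ζ : ℂ), 0 < n → IsPrimitiveRoot ζ n →
    (((1 - C ^ n).det : ℤ) : ℂ) =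
      ∏ i ∈ Finset.range n, (C.charpolyRev.map (Int.castRingHom ℂ)).eval (ζ ^ i)

/-- B5. If `det (1 - C ^ n)` is prime to `l` for all `n`, for infinitely many `l`, then `C` is
nilpotent. -/
def StNil : Prop :=
  ∀ (N : ℕ) (C : Matrix (Fin N) (Fin N) ℤ),
    (∀ b : ℕ, ∃ l > b, l.Prime ∧ ∀ n > 0, ¬ (l : ℤ) ∣ (1 - C ^ n).det) → C.charpolyRev = 1

/-- B6. The `l`-part of `det (1 + B + ⋯ + B ^ (l - 1))` is bounded for `B = C ^ n`. -/
def StBd : Prop :=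
  ∀ (N : ℕ) (C : Matrix (Fin N) (Fin N) ℤ) (l : ℕ), l.Prime →
    ∃ n₀ > 0, ∀ n > 0, n₀ ∣ n →
      ¬ (l : ℤ) ^ (N + 1) ∣ (∑ i ∈ Finset.range l, C ^ (n * i)).det

/-! ### Abelian groups with an endomorphism -/

/-- B7. If the norms are onto then `σ - 1` is onto. -/
def StLang : Prop :=
  ∀ (A : Type u) [AddCommGroup A] (σ : AddMonoid.End A), (∀ a, ∃ n > 0, (σ ^ n) a = a) →
    (∀ n > 0, {a : A | (σ ^ n) a = a}.Finite) →
    (∀ n > 0, ∀ a, σ a = a → ∃ b, (σ ^ n) b = b ∧ (∑ i ∈ Finset.range n, σ ^ i) b = a) →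
    ∀ a, ∃ b, σ b - b = a

/-- B8. The `l`-torsion is finite. -/
def StRank : Prop :=
  ∀ (A : Type u) [AddCommGroup A] (σ : AddMonoid.End A), (∀ a, ∃ n > 0, (σ ^ n) a = a) →
    (∀ n > 0, {a : A | (σ ^ n) a = a}.Finite) →
    (∀ m > 0, ∀ n > 0, ∀ a, (σ ^ m) a = a →
      ∃ b, (σ ^ (m * n)) b = b ∧ (∑ i ∈ Finset.range n, σ ^ (m * i)) b = a) →
    ∀ (N : ℕ) (C : Matrix (Fin N) (Fin N) ℤ),
    (∀ n > 0, (Nat.card {a : A | (σ ^ n) a = a} : ℤ) = (1 - C ^ n).det) →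
    ∀ l : ℕ, l.Prime → {a : A | l • a = 0}.Finite

/-- B9. Divisibility. -/
def StDvb : Prop :=
  ∀ (A : Type u) [AddCommGroup A] (σ : AddMonoid.End A), (∀ a, ∃ n > 0, (σ ^ n) a = a) →
    (∀ a : A, ∃ n > 0, n • a = 0) → (∀ m > 0, ∀ a, ∃ b, (σ ^ m) b - b = a) →
    ∀ l : ℕ, l.Prime → {a : A | l • a = 0}.Finite → ∀ a : A, ∃ b, l • b = a

/-! ### Abstract zeta functions -/

/-- B10. Counting in classes: finiteness, and the coefficients for large degrees. -/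
def StCls : Prop :=
  ∀ (T : Type u) (X : CD T) (n : ℕ), 0 < n →
    {a : X.A | (X.σ ^ n) a = a}.Finite ∧
    ∀ ψ : X.A → ℂ, ∃ d₀ : ℕ, ∀ d ≥ d₀,
      ∑ᶠ E ∈ Ef (X.φ ^ n) d, ψ (X.cl0 E) =
        (∑ᶠ a ∈ {a : X.A | (X.σ ^ n) a = a}, ψ a) *
          (((X.q : ℂ) ^ (n * (d + 1 - X.g)) - 1) / ((X.q : ℂ) ^ n - 1))

/-- B11. The norm is onto. -/
def StNorm : Prop :=
  ∀ (T : Type u) (X : CD T) (m n : ℕ), 0 < m → 0 < n → ∀ a : X.A, (X.σ ^ m) a = a →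
    ∃ b, (X.σ ^ (m * n)) b = b ∧ (∑ i ∈ Finset.range n, X.σ ^ (m * i)) b = a

/-- B12. The numerator of the zeta function. -/
def StZeta : Prop :=
  ∀ (T : Type u) (X : CD T), ∃ P : Polynomial ℤ, P.coeff 0 = 1 ∧
    P.coeff 1 = (Nat.card {Q : T | X.φ Q = Q} : ℤ) - X.q - 1 ∧
    ∀ (n : ℕ) (ζ : ℂ), 0 < n → IsPrimitiveRoot ζ n →
      ((Nat.card {a : X.A | (X.σ ^ n) a = a} : ℕ) : ℂ) =
        ∏ i ∈ Finset.range n, (P.map (Int.castRingHom ℂ)).eval (ζ ^ i)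

/-! ### Function fields -/

/-- B13. Existence of a Frobenius. -/
def StFrobE : Prop :=
  ∀ (p : ℕ) [Fact p.Prime] (F : Type u) (W : Type v) [Field F] [IsAlgClosed F] [CharP F p]
    [Field W] [Algebra F W], RU F → FF F W → ∃ (f : ℕ) (Φ : W ≃+* W), 1 ≤ f ∧
      Frob F W (p ^ f) Φ

/-- B14. The action of a Frobenius on the places. -/
def StAct : Prop :=
  ∀ (p : ℕ) [Fact p.Prime] (F : Type u) (W : Type v) [Field F] [IsAlgClosed F] [CharP F p]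
    [Field W] [Algebra F W], RU F → FF F W → ∀ (f : ℕ) (Φ : W ≃+* W), 1 ≤ f →
    Frob F W (p ^ f) Φ → ∃ φ : Equiv.Perm (Plc F W), (∀ P, Mv Φ P (φ P)) ∧
      (∀ P w, ord (φ P) (Φ w) = ord P w) ∧ (∀ P, ∃ m > 0, (φ ^ m) P = P) ∧
      ∀ m > 0, {P | (φ ^ m) P = P}.Finite

/-- B15. The fixed vectors of a semilinear map. -/
def StSemi : Prop :=
  ∀ (p : ℕ) [Fact p.Prime] (F : Type u) (V : Type v) [Field F] [IsAlgClosed F] [CharP F p]
    [AddCommGroup V] [Module F V] [FiniteDimensional F V], RU F → ∀ (f : ℕ) (t : V →+ V),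
    1 ≤ f → (∀ (c : F) (x : V), t (c • x) = c ^ (p ^ f) • t x) →
    (∀ x, ∃ m > 0, t^[m] x = x) →
      Nat.card {x : V // t x = x} = (p ^ f) ^ Module.finrank F V

/-- B16. The number of the fixed effective divisors in the class of a fixed divisor. -/
def StCnt : Prop :=
  ∀ (p : ℕ) [Fact p.Prime] (F : Type u) (W : Type v) [Field F] [IsAlgClosed F] [CharP F p]
    [Field W] [Algebra F W], RU F → FF F W → OrdF F W → RRF F W →
    ∀ (f : ℕ) (Φ : W ≃+* W) (φ : Equiv.Perm (Plc F W)), 1 ≤ f → Frob F W (p ^ f) Φ →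
    (∀ P w, ord (φ P) (Φ w) = ord P w) → ∀ D : Dv F W, pm φ D = D →
      Nat.card {E : Dv F W // 0 ≤ E ∧ pm φ E = E ∧ ∃ h : W, h ≠ 0 ∧ dv h = E - D} *
        (p ^ f - 1) = (p ^ f) ^ Module.finrank F (RR D) - 1

/-- B17. A fixed class contains a fixed divisor. -/
def StRep : Prop :=
  ∀ (F : Type u) (W : Type v) [Field F] [IsAlgClosed F] [Field W] [Algebra F W], FF F W →
    OrdF F W → RRF F W → ∀ (g : ℕ), IsGenus F W g → ∀ (Φ : W ≃+* W)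
    (φ : Equiv.Perm (Plc F W)) (P₀ : Plc F W), (∀ P w, ord (φ P) (Φ w) = ord P w) →
    φ P₀ = P₀ → ∀ D : Dv F W, (∃ h : W, h ≠ 0 ∧ dv h = pm φ D - D) →
      ∃ D' : Dv F W, pm φ D' = D' ∧ ∃ h : W, h ≠ 0 ∧ dv h = D' - D

end Pool.Agent.Lib.MP_c385f6_ag.TPG
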