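import Pool.Agent.Lib.MP_c385f6_ag.TPG.StE

/-!
Project TPG, part T: every section of the tower quotient is a section at a rational place.
-/

set_option autoImplicit false

namespace Pool.Agent.Lib.MP_c385f6_ag.TPG

universe u v u' v' w

/-- T1. Unramified Kummer extensions `M / L` and the specialisation maps. -/
def StCmp : Prop :=
  ∀ (C : Type u) (L M : Type v) (F : Type u') (Λ μ : Type v') [Field C] [IsAlgClosed C] [Field L]
    [Field M] [Field F] [IsAlgClosed F] [Field Λ] [Field μ] [Algebra C L] [Algebra C M]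
    [Algebra L M] [IsScalarTower C L M] [Algebra F Λ] [Algebra F μ] [Algebra Λ μ]
    [IsScalarTower F Λ μ] (R : Red C L F Λ) (R' : Red C M F μ) (g g' n : ℕ) (h : M) (f : L)
    (sp : Plc C L → Plc F Λ) (sp' : Plc C M → Plc F μ),
    Good R g → Good R' g' → RExt R R' → (n : F) ≠ 0 → (n : C) ≠ 0 →
    h ^ n = algebraMap L M f → f ∈ Dn C n → IntermediateField.adjoin L {h} = ⊤ →
    IsSp R sp → IsSp R' sp' →
    (∀ (P : Plc C L) (Q : Plc C M), Over P Q → Over (sp P) (sp' Q)) ∧
    ∀ (P : Plc C L) (y : Plc F μ), Over (sp P) y → ∃! Q : Plc C M, Over P Q ∧ sp' Q = y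

section Def

variable {F : Type u} {U : Type v} [Field F] [Field U] [Algebra F U] {M M' : IntermediateField F U}

/-- The place `y` of `M'` lies above the place `x` of `M` (intermediate fields `M ≤ M'`). -/
def AbvP (x : Plc F M) (y : Plc F M') : Prop :=
  ∀ (z : M) (z' : M'), (z : U) = z' → (z ∈ x.ring ↔ z' ∈ y.ring)

end Def

/-- T2. The same for towers. -/
def StTwCmp : Prop :=
  ∀ (C : Type u) (Ω : Type v) (F : Type u') (U : Type v') [Field C] [IsAlgClosed C] [Field Ω]
    [Field F] [IsAlgClosed F] [Field U] [Algebra C Ω] [Algebra F U] (R : Red C Ω F U) (p g : ℕ)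
    (L : IntermediateField C Ω), PrP p C → PrP p F → Good (R.sub L) g →
    ∀ (M M' : IntermediateField C Ω) (sp : Plc C M → Plc F (R.img M))
      (sp' : Plc C M' → Plc F (R.img M')), Tow C p L M → Tow C p L M' → M ≤ M' →
      IsSp (R.sub M) sp → IsSp (R.sub M') sp' →
      (∀ (P : Plc C M) (Q : Plc C M'), AbvP P Q → AbvP (sp P) (sp' Q)) ∧
      ∀ (P : Plc C M) (y : Plc F (R.img M')), AbvP (sp P) y →
        ∃! Q : Plc C M', AbvP P Q ∧ sp' Q = y

/-- T3. A place of the union of the towers of the residue field, and a place `P` of `L` whose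
specialisation is below it, determine a place of the union of the towers. -/
def StTwPl : Prop :=
  ∀ (C : Type u) (Ω : Type v) (F : Type u') (U : Type v') [Field C] [IsAlgClosed C] [Field Ω]
    [Field F] [IsAlgClosed F] [Field U] [Algebra C Ω] [Algebra F U] (R : Red C Ω F U) (p g : ℕ)
    (L : IntermediateField C Ω) (sp : Plc C L → Plc F (R.img L)) (G : Type w) [Group G]
    (a : G →* (Tinf C p L ≃+* Tinf C p L))
    (ρ : G →* (Tinf F p (R.img L) ≃+* Tinf F p (R.img L))),
    PrP p C → PrP p F → Good (R.sub L) g → IsSp (R.sub L) sp →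
    (∀ (s : G) (c : C), ∃ c' : C, a s (algebraMap C _ c) = algebraMap C _ c') →
    (∀ (s : G) (z : Tinf C p L), (z : Ω) ∈ L → ((a s z : Tinf C p L) : Ω) ∈ L) →
    (∀ (s : G) (z : Tinf C p L) (y : Tinf F p (R.img L)), (z : Ω) ∈ R.w →
        ((a s z : Tinf C p L) : Ω) ∈ R.w ∧
        ((y : U) = R.res z → ((ρ s y : Tinf F p (R.img L)) : U) = R.res (a s z : Tinf C p L))) →
    ∀ (P : Plc C L) (Y : ValuationSubring (Tinf F p (R.img L))),
      (∀ (s : G) (z z' : L) (y : Tinf C p L), (y : Ω) = z → ((a s y : Tinf C p L) : Ω) = z' →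
        (z ∈ P.ring ↔ z' ∈ P.ring)) →
      (∀ c : F, algebraMap F _ c ∈ Y) → (∀ (s : G) (z : Tinf F p (R.img L)), z ∈ Y → ρ s z ∈ Y) →
      (∀ (z : R.img L) (y : Tinf F p (R.img L)), (z : U) = y → (z ∈ (sp P).ring ↔ y ∈ Y)) →
      ∃ B : ValuationSubring (Tinf C p L),
        (∀ (z : L) (y : Tinf C p L), (z : Ω) = y → (z ∈ P.ring ↔ y ∈ B)) ∧
        ∀ (s : G) (z : Tinf C p L), z ∈ B → a s z ∈ B

/-- E8. There is a place of the union of the towers that is fixed by `G`. -/
def StE8 : Prop :=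
  ∀ (F : Type u) (U : Type v) [Field F] [Field U] [IsAlgClosed U] [Algebra F U] (p : ℕ)
    (Λ : IntermediateField F U) (G : Type w) [Group G]
    (ρ : G →* (Tinf F p Λ ≃+* Tinf F p Λ)) (I P : Subgroup G) (φ : G), FpBar p F → FF F Λ →
    ¬ IsRat F Λ → EDat p Λ ρ I P φ →
    ∃ Y : ValuationSubring (Tinf F p Λ), (∀ c : F, algebraMap F _ c ∈ Y) ∧
      (∃ z : Tinf F p Λ, (z : U) ∈ Λ ∧ z ∉ Y) ∧ ∀ (s : G) (z : Tinf F p Λ), z ∈ Y → ρ s z ∈ Y

end Pool.Agent.Lib.MP_c385f6_ag.TPG
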