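import Pool.Agent.Lib.MP_c385f6_ag.TPG.StV

/-!
Project TPG: the hypotheses of the theorem (tame potentially good reduction) and the statements that
lead from them to the package `Pk`.
-/

set_option autoImplicit false

open Polynomial

namespace Pool.Agent.Lib.MP_c385f6_ag.TPG

universe u v

section Hyp

variable (p : ℕ) [Fact p.Prime] (k k' : Type) {K : Type u} (K' : Type u) [Field k]
  [Field k'] [Field K] [Field K'] [Algebra ℚ_[p] k'] [Algebra k k'] [Algebra k K] [Algebra k' K']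
  [Algebra K K']

omit [Field k] [Algebra k k'] [Algebra k K] in
variable {K'} in
/-- `g` is an element of the inertia group of `Gal(K' / K) = Gal(k' / k)`: it acts trivially on the
residue field of `k'`. -/
def InertiaOf (g : K' ≃ₐ[K] K') : Prop :=
  ∀ c : k', spectralNorm ℚ_[p] k' c ≤ 1 → ∃ d : k', spectralNorm ℚ_[p] k' d < 1 ∧
    g (algebraMap k' K' c) = algebraMap k' K' (c + d)

/-- `K` is the function field of a curve `X` over `k`, `t` is a nonconstant function on `X`, and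
`K' = K k'` is the function field of the curve `X_k'`. The normalisation of `ℙ¹` over `O_k'` in `K'`
(with coordinate `t`) is smooth over `O_k'` and its special fibre is geometrically irreducible; the
inertia group of `Gal(k' / k)` has order prime to `p`, and it acts non-trivially on the special
fibre. -/
structure TamelyGood (t : K) : Prop where
  trans : Transcendental k t
  fin : FiniteDimensional (IntermediateField.adjoin k {t}) K
  const : ∀ x : K, IsAlgebraic k x → ∃ c : k, x = algebraMap k K c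
  comp : IntermediateField.adjoin K (Set.range (algebraMap k' K')) = ⊤
  good : GoodModel p k' (algebraMap K K' t)
  tame : ∀ g : K' ≃ₐ[K] K', InertiaOf p k' g → ¬ p ∣ orderOf g
  ram : ∃ g : K' ≃ₐ[K] K', InertiaOf p k' g ∧ ∃ a b : modelRing p k' (algebraMap K K' t),
    g a = a + b ∧ b ∉ modelIdeal p k' (algebraMap K K' t)

end Hyp

/-- G22. `Gal(Ω / K) → Gal(C / k)` is surjective if `k` is algebraically closed in `K`. -/
def StExt : Prop :=
  ∀ (k : Type) (K Ω : Type u) [Field k] [CharZero k] [Field K] [Field Ω] [Algebra k K]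
    [Algebra k Ω] [Algebra K Ω] [IsScalarTower k K Ω] [IsAlgClosure K Ω],
    (∀ x : K, IsAlgebraic k x → ∃ c : k, x = algebraMap k K c) →
    (∀ n : algebraicClosure k Ω ≃ₐ[k] algebraicClosure k Ω, ∃ s : Ω ≃ₐ[K] Ω,
      ∀ c : algebraicClosure k Ω, s (c : Ω) = n c) ∧
    (∀ s : Ω ≃ₐ[K] Ω, ∃ n : algebraicClosure k Ω ≃ₐ[k] algebraicClosure k Ω,
      ∀ c : algebraicClosure k Ω, s (c : Ω) = n c) ∧
    IsAlgClosed (algebraicClosure k Ω)

/-- G23. If `z̄` is regular at `sp P` then `z` is regular at `P`. -/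
def StPolSp : Prop :=
  ∀ (C : Type u) (L : Type v) (F : Type u) (Λ : Type v) [Field C] [IsAlgClosed C] [Field L]
    [Field F] [IsAlgClosed F] [Field Λ] [Algebra C L] [Algebra F Λ] (R : Red C L F Λ) (g : ℕ)
    (sp : Plc C L → Plc F Λ) (t : L), Good R g → IsSp R sp → DegEq R t →
    ∀ P : Plc C L, R.res t ∈ (sp P).ring → t ∈ P.ring

/-- G24. Uniformizers that are integral over `F[z]`. -/
def StUnf : Prop :=
  ∀ (F : Type u) (W : Type v) [Field F] [IsAlgClosed F] [Field W] [Algebra F W], FF F W →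
    ∀ (x : Plc F W) (z : W), Transcendental F z → z ∈ x.ring →
      ∃ y : W, IsIntegral (Algebra.adjoin F {z}) y ∧ ord x y = 1

/-- G25. `L = K C = K' C`; the elements of `Gal(Ω / K)` preserve `K'` and `A(t)`, and the
restrictions of inertia elements are inertia elements. -/
def StK2 : Prop :=
  ∀ (p : ℕ) [Fact p.Prime] (k k' : Type) (K K' Ω F U : Type u) [Field k] [Field k'] [Field K]
    [Field K'] [Field Ω] [Field F] [IsAlgClosed F] [Field U] [Algebra ℚ_[p] k]
    [FiniteDimensional ℚ_[p] k] [Algebra ℚ_[p] k'] [FiniteDimensional ℚ_[p] k'] [Algebra k k']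
    [IsScalarTower ℚ_[p] k k'] [IsGalois k k'] [Algebra k K] [Algebra k' K'] [Algebra K K']
    [Algebra k K'] [IsScalarTower k k' K'] [IsScalarTower k K K'] [Algebra k Ω] [Algebra K Ω]
    [IsScalarTower k K Ω] [IsAlgClosure K Ω] [Algebra K' Ω] [IsScalarTower K K' Ω] [Algebra k' Ω]
    [IsScalarTower k' K' Ω] [Algebra k' (algebraicClosure k Ω)]
    [IsScalarTower k' (algebraicClosure k Ω) Ω] [Algebra F U]
    (R : Red (algebraicClosure k Ω) Ω F U) (t : K) (L : IntermediateField (algebraicClosure k Ω) Ω),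
    TamelyGood p k k' K' t → IsVal p k R.v → Mdl p k' R (algebraMap K K' t) →
    L = IntermediateField.adjoin (algebraicClosure k Ω) (Set.range (algebraMap K Ω)) →
    L = IntermediateField.adjoin (algebraicClosure k Ω) (Set.range (algebraMap K' Ω)) ∧
    (∀ s : Ω ≃ₐ[K] Ω, ∃ g : K' ≃ₐ[K] K', (∀ a : K', s (algebraMap K' Ω a) = algebraMap K' Ω (g a)) ∧
      (∀ c : k', ∃ c' : k', g (algebraMap k' K' c) = algebraMap k' K' c') ∧
      (∀ a ∈ modelRing p k' (algebraMap K K' t), g a ∈ modelRing p k' (algebraMap K K' t)) ∧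
      (InO R s → InertiaOf p k' g)) ∧
    (∀ s : Ω ≃ₐ[K] Ω, (∀ c : k', s (algebraMap k' Ω c) = algebraMap k' Ω c) →
      ∀ a : K', s (algebraMap K' Ω a) = algebraMap K' Ω a) ∧
    ∀ g : K' ≃ₐ[K] K', ∃ s : Ω ≃ₐ[K] Ω, ∀ a : K', s (algebraMap K' Ω a) = algebraMap K' Ω (g a)

/-- G26. The valuation ring of `L` is stable under `Gal(Ω / K)`. -/
def StPkStab : Prop :=
  ∀ (p : ℕ) [Fact p.Prime] (k k' : Type) (K K' Ω F U : Type u) [Field k] [Field k'] [Field K]
    [Field K'] [Field Ω] [Field F] [IsAlgClosed F] [Field U] [Algebra ℚ_[p] k]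
    [FiniteDimensional ℚ_[p] k] [Algebra ℚ_[p] k'] [FiniteDimensional ℚ_[p] k'] [Algebra k k']
    [IsScalarTower ℚ_[p] k k'] [IsGalois k k'] [Algebra k K] [Algebra k' K'] [Algebra K K']
    [Algebra k K'] [IsScalarTower k k' K'] [IsScalarTower k K K'] [Algebra k Ω] [Algebra K Ω]
    [IsScalarTower k K Ω] [IsAlgClosure K Ω] [Algebra K' Ω] [IsScalarTower K K' Ω] [Algebra k' Ω]
    [IsScalarTower k' K' Ω] [Algebra k' (algebraicClosure k Ω)]
    [IsScalarTower k' (algebraicClosure k Ω) Ω] [Algebra F U]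
    (R : Red (algebraicClosure k Ω) Ω F U) (t : K) (L : IntermediateField (algebraicClosure k Ω) Ω),
    TamelyGood p k k' K' t → IsVal p k R.v → Mdl p k' R (algebraMap K K' t) →
    L = IntermediateField.adjoin (algebraicClosure k Ω) (Set.range (algebraMap K Ω)) →
    (∀ (s : Ω ≃ₐ[K] Ω) (z : Ω), z ∈ L → z ∈ R.w → s z ∈ R.w) ∧
    ∀ s : Ω ≃ₐ[K] Ω, InO R s → (∀ c : k', s (algebraMap k' Ω c) = algebraMap k' Ω c) →
      ∀ z ∈ L, z ∈ R.w → R.res (s z) = R.res z

/-- G27. Tameness and ramification. -/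
def StPkRam : Prop :=
  ∀ (p : ℕ) [Fact p.Prime] (k k' : Type) (K K' Ω F U : Type u) [Field k] [Field k'] [Field K]
    [Field K'] [Field Ω] [Field F] [IsAlgClosed F] [Field U] [Algebra ℚ_[p] k]
    [FiniteDimensional ℚ_[p] k] [Algebra ℚ_[p] k'] [FiniteDimensional ℚ_[p] k'] [Algebra k k']
    [IsScalarTower ℚ_[p] k k'] [IsGalois k k'] [Algebra k K] [Algebra k' K'] [Algebra K K']
    [Algebra k K'] [IsScalarTower k k' K'] [IsScalarTower k K K'] [Algebra k Ω] [Algebra K Ω]
    [IsScalarTower k K Ω] [IsAlgClosure K Ω] [Algebra K' Ω] [IsScalarTower K K' Ω] [Algebra k' Ω]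
    [IsScalarTower k' K' Ω] [Algebra k' (algebraicClosure k Ω)]
    [IsScalarTower k' (algebraicClosure k Ω) Ω] [Algebra F U]
    (R : Red (algebraicClosure k Ω) Ω F U) (t : K) (L : IntermediateField (algebraicClosure k Ω) Ω),
    TamelyGood p k k' K' t → IsVal p k R.v → Mdl p k' R (algebraMap K K' t) →
    L = IntermediateField.adjoin (algebraicClosure k Ω) (Set.range (algebraMap K Ω)) →
    (∀ s : Ω ≃ₐ[K] Ω, InO R s →
      ∃ e : ℕ, ¬ p ∣ e ∧ ∀ c : k', (s ^ e) (algebraMap k' Ω c) = algebraMap k' Ω c) ∧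
    ∃ s : Ω ≃ₐ[K] Ω, InO R s ∧ ∃ z ∈ L, z ∈ R.w ∧ R.res (s z) ≠ R.res z

/-- G28. Coordinates that are defined over `K' (roots of unity of order prime to p)`. -/
def StPkCrd : Prop :=
  ∀ (p : ℕ) [Fact p.Prime] (k k' : Type) (K K' Ω F U : Type u) [Field k] [Field k'] [Field K]
    [Field K'] [Field Ω] [Field F] [IsAlgClosed F] [Field U] [Algebra ℚ_[p] k]
    [FiniteDimensional ℚ_[p] k] [Algebra ℚ_[p] k'] [FiniteDimensional ℚ_[p] k'] [Algebra k k']
    [IsScalarTower ℚ_[p] k k'] [IsGalois k k'] [Algebra k K] [Algebra k' K'] [Algebra K K']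
    [Algebra k K'] [IsScalarTower k k' K'] [IsScalarTower k K K'] [Algebra k Ω] [Algebra K Ω]
    [IsScalarTower k K Ω] [IsAlgClosure K Ω] [Algebra K' Ω] [IsScalarTower K K' Ω] [Algebra k' Ω]
    [IsScalarTower k' K' Ω] [Algebra k' (algebraicClosure k Ω)]
    [IsScalarTower k' (algebraicClosure k Ω) Ω] [Algebra F U]
    (R : Red (algebraicClosure k Ω) Ω F U) (t : K) (L : IntermediateField (algebraicClosure k Ω) Ω)
    (g : ℕ), TamelyGood p k k' K' t → IsVal p k R.v → Mdl p k' R (algebraMap K K' t) →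
    L = IntermediateField.adjoin (algebraicClosure k Ω) (Set.range (algebraMap K Ω)) →
    Good (R.sub L) g →
    ∀ (sp : Plc (algebraicClosure k Ω) L → Plc F (R.img L)) (x : Plc F (R.img L)),
      IsSp (R.sub L) sp → ∃ (u : L) (T : Finset (algebraicClosure k Ω)),
        IsCrd (R.sub L) sp x u ∧ (∀ c ∈ T, ∃ n : ℕ, ¬ p ∣ n ∧ c ^ n = 1) ∧
        ∀ s : Ω ≃ₐ[K] Ω, (∀ c : k', s (algebraMap k' Ω c) = algebraMap k' Ω c) →
          (∀ c ∈ T, s (c : Ω) = c) → s (u : Ω) = u

/-- G29. The package. -/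
def StPk : Prop :=
  ∀ (p : ℕ) [Fact p.Prime] (k k' : Type) (K K' Ω : Type u) [Field k] [Field k'] [Field K]
    [Field K'] [Field Ω] [Algebra ℚ_[p] k] [FiniteDimensional ℚ_[p] k] [Algebra ℚ_[p] k']
    [FiniteDimensional ℚ_[p] k'] [Algebra k k'] [IsScalarTower ℚ_[p] k k'] [IsGalois k k']
    [Algebra k K] [Algebra k' K'] [Algebra K K'] [Algebra k K'] [IsScalarTower k k' K']
    [IsScalarTower k K K'] [Algebra k Ω] [Algebra K Ω] [IsScalarTower k K Ω] [IsAlgClosure K Ω]
    (t : K), TamelyGood p k k' K' t →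
    (∀ z : Ω, IntermediateField.adjoin (algebraicClosure k Ω) {z} ≠
      IntermediateField.adjoin (algebraicClosure k Ω) (Set.range (algebraMap K Ω))) →
    ∃ (F U : Type u) (_ : Field F) (_ : Field U) (_ : Algebra F U)
      (R : Red (algebraicClosure k Ω) Ω F U) (L : IntermediateField (algebraicClosure k Ω) Ω)
      (g : ℕ) (k₂ : IntermediateField k (algebraicClosure k Ω)), Pk p K R L g k₂

end Pool.Agent.Lib.MP_c385f6_ag.TPG
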