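import Mathlib

/-!
Project TPG, explicit family: the integral closure of a factorial domain `R` in the field generated
by an `n`-th root of a squarefree element, `n` a unit of `R`.
-/

set_option autoImplicit false

open Polynomial

namespace Pool.Agent.Lib.MP_c385f6_ag.TPG.Sup

universe u v w

section

variable {R : Type u} {K : Type v} {L : Type w} [CommRing R] [IsDomain R]
  [UniqueFactorizationMonoid R] [Field K] [Field L] [Algebra R K] [IsFractionRing R K]
  [Algebra K L] [Algebra R L] [IsScalarTower R K L]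

omit [UniqueFactorizationMonoid R] in
theorem eis {n : ℕ} (hn : 0 < n) {h q : R} (hq : Prime q) (h1 : q ∣ h) (h2 : ¬ q ^ 2 ∣ h) :
    (X ^ n - C h : R[X]).IsEisensteinAt (Ideal.span {q}) := by
  refine ⟨?_, ?_, ?_⟩
  · rw [Monic.leadingCoeff (monic_X_pow_sub_C h hn.ne'), Ideal.mem_span_singleton]
    exact fun h3 => hq.not_isUnit (isUnit_of_dvd_one h3)
  · intro i hi
    rw [natDegree_X_pow_sub_C] at hi
    rw [coeff_sub, coeff_X_pow, if_neg hi.ne, zero_sub, coeff_C, Ideal.mem_span_singleton]
    split_ifs with h3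
    · exact (dvd_neg).2 h1
    · simp
  · rw [Ideal.span_singleton_pow, Ideal.mem_span_singleton, coeff_sub, coeff_X_pow,
      if_neg hn.ne, zero_sub, coeff_C_zero, dvd_neg]
    exact h2

omit [UniqueFactorizationMonoid R] in
theorem irr {n : ℕ} (hn : 0 < n) {h q : R} (hq : Prime q) (h1 : q ∣ h) (h2 : ¬ q ^ 2 ∣ h) :
    Irreducible (X ^ n - C h : R[X]) := by
  refine (eis hn hq h1 h2).irreducible ((Ideal.span_singleton_prime hq.ne_zero).2 hq)
    (monic_X_pow_sub_C h hn.ne').isPrimitive ?_
  rw [natDegree_X_pow_sub_C]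
  exact hn

/-- A squarefree element that is not a unit has a prime factor of multiplicity one. -/
theorem exists_prime {h : R} (hs : Squarefree h) (hu : ¬ IsUnit h) :
    ∃ q : R, Prime q ∧ q ∣ h ∧ ¬ q ^ 2 ∣ h := by
  obtain ⟨q, hq, h1⟩ := WfDvdMonoid.exists_irreducible_factor hu hs.ne_zero
  refine ⟨q, hq.prime, h1, fun h2 => hq.not_isUnit (hs q ?_)⟩
  rwa [← pow_two]

omit [UniqueFactorizationMonoid R] in
theorem mp [IsIntegrallyClosed R] {n : ℕ} (hn : 0 < n) {h : R} (hi : Irreducible (X ^ n - C h : R[X]))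
    {y : L} (hy : y ^ n = algebraMap R L h) (hinj : Function.Injective (algebraMap R L)) :
    IsIntegral R y ∧ minpoly R y = X ^ n - C h := by
  have h0 : aeval y (X ^ n - C h : R[X]) = 0 := by
    rw [map_sub, map_pow, aeval_X, aeval_C, hy, sub_self]
  have h1 : IsIntegral R y := ⟨_, monic_X_pow_sub_C h hn.ne', h0⟩
  have : Module.IsTorsionFree R L := by
    have : FaithfulSMul R L := (faithfulSMul_iff_algebraMap_injective R L).2 hinj
    infer_instance
  refine ⟨h1, ?_⟩
  have h2 : minpoly R y ∣ X ^ n - C h := minpoly.isIntegrallyClosed_dvd h1 h0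
  refine eq_of_monic_of_associated (minpoly.monic h1) (monic_X_pow_sub_C h hn.ne') ?_
  exact (hi.dvd_iff.1 h2).resolve_left (minpoly.not_isUnit R y) |>.symm

/-- If `q x ∈ R[w]` for a product `q` of prime factors of `h`, then `x ∈ R[w]`. -/
theorem removal [IsIntegrallyClosed R] {n : ℕ} (hn : 0 < n) {h : R} (hs : Squarefree h)
    (B : PowerBasis K L) (hB : IsIntegral R B.gen) (hm : minpoly R B.gen = X ^ n - C h) (r : R) :
    (∀ q : R, Prime q → q ∣ r → q ∣ h) → r ≠ 0 → ∀ x : L, IsIntegral R x →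
      r • x ∈ Algebra.adjoin R {B.gen} → x ∈ Algebra.adjoin R {B.gen} := by
  induction r using UniqueFactorizationMonoid.induction_on_prime with
  | h₁ => intro _ h0; exact absurd rfl h0
  | h₂ r hr =>
    intro _ _ x _ hx
    obtain ⟨u, rfl⟩ := hr
    have h1 := Subalgebra.smul_mem _ hx (↑u⁻¹ : R)
    rwa [smul_smul, Units.inv_mul, one_smul] at h1
  | h₃ a q ha hq ih =>
    intro h1 h2 x hx hm'
    have hqh : q ∣ h := h1 q hq (dvd_mul_right _ _)
    have hq2 : ¬ q ^ 2 ∣ h := fun h3 => hq.not_isUnit (hs q (by rwa [← pow_two]))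
    have h3 : q • (a • x) ∈ Algebra.adjoin R {B.gen} := by rwa [smul_smul]
    have h4 := mem_adjoin_of_smul_prime_smul_of_minpoly_isEisensteinAt hq hB (hx.smul a) h3
      (hm ▸ eis hn hq hqh hq2)
    exact ih (fun q' hq' hd => h1 q' hq' (hd.mul_left _)) ha x hx h4

/-- The integral closure of `R` in `K(w)`, `w ^ n = h` squarefree, `n` a unit, is `R[w]`. -/
theorem intcl [IsIntegrallyClosed R] {n : ℕ} (hn : 0 < n) (hu : IsUnit (n : R)) {h : R}
    (hs : Squarefree h) (hh : ¬ IsUnit h) {y : L} (hy : y ^ n = algebraMap R L h)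
    (htop : IntermediateField.adjoin K {y} = ⊤) {x : L} (hx : IsIntegral R x) :
    x ∈ Algebra.adjoin R {y} := by
  obtain ⟨q, hq, hqh, hq2⟩ := exists_prime hs hh
  have hinj : Function.Injective (algebraMap R L) := by
    rw [IsScalarTower.algebraMap_eq R K L]
    exact (algebraMap K L).injective.comp (IsFractionRing.injective R K)
  obtain ⟨hi, hm⟩ := mp hn (irr hn hq hqh hq2) hy hinj
  have hKi : IsIntegral K y := hi.tower_top
  have htop' : Algebra.adjoin K {y} = ⊤ := by
    rw [← IntermediateField.adjoin_simple_toSubalgebra_of_isAlgebraic hKi.isAlgebraic, htop]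
    rfl
  have hnK : (n : K) ≠ 0 := by
    have := (hu.map (algebraMap R K)).ne_zero
    rwa [map_natCast] at this
  have hmK : minpoly K y = X ^ n - C (algebraMap R K h) := by
    rw [minpoly.isIntegrallyClosed_eq_field_fractions' K hi, hm]
    simp
  have hhK : algebraMap R K h ≠ 0 := by
    rw [Ne, (IsFractionRing.injective R K).eq_iff' (map_zero _)]
    exact hs.ne_zero
  have hsep : IsSeparable K y := by
    rw [IsSeparable, hmK]
    exact separable_X_pow_sub_C _ hnK hhK
  have hSep : Algebra.IsSeparable K L := by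
    have h1 : Algebra.IsSeparable K (IntermediateField.adjoin K {y}) :=
      (IntermediateField.isSeparable_adjoin_simple_iff_isSeparable K L).2 hsep
    rw [htop] at h1
    exact Algebra.IsSeparable.of_algHom K _ (IntermediateField.topEquiv (F := K) (E := L)).symm.toAlgHom
  let B : PowerBasis K L := PowerBasis.ofAdjoinEqTop' hKi htop'
  have hfin : Module.Finite K L := B.finite
  have hBg : B.gen = y := PowerBasis.ofAdjoinEqTop'_gen hKi htop'
  have h1 := Algebra.discr_mul_isIntegral_mem_adjoin (R := R) (K := K) (B := B) (hBg ▸ hi) hx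
  have hd : ∃ u : R, IsUnit u ∧ ∃ N : ℕ, Algebra.discr K B.basis = algebraMap R K (u * h ^ N) := by
    rw [Algebra.discr_powerBasis_eq_norm, hBg, hmK]
    have h2 : aeval y (derivative (X ^ n - C (algebraMap R K h))) = (n : L) * y ^ (n - 1) := by
      rw [derivative_sub, derivative_X_pow, derivative_C, sub_zero]
      simp
    rw [h2, map_mul, map_pow, ← hBg, Algebra.PowerBasis.norm_gen_eq_coeff_zero_minpoly, hBg, hmK]
    have h3 : Algebra.norm K (n : L) = (n : K) ^ Module.finrank K L := by
      rw [← map_natCast (algebraMap K L), Algebra.norm_algebraMap]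
    rw [h3, coeff_sub, coeff_X_pow, if_neg hn.ne, zero_sub, coeff_C_zero]
    refine ⟨(-1) ^ (Module.finrank K L * (Module.finrank K L - 1) / 2) *
      ((n : R) ^ Module.finrank K L * ((-1) ^ B.dim * (-1)) ^ (n - 1)), ?_, n - 1, ?_⟩
    · exact ((isUnit_one.neg).pow _).mul ((hu.pow _).mul ((((isUnit_one.neg).pow _).mul
        isUnit_one.neg).pow _))
    · simp only [map_mul, map_pow, map_neg, map_one, map_natCast]
      ring
  obtain ⟨u, hu', N, hd⟩ := hd
  have h2 : (h ^ N) • x ∈ Algebra.adjoin R {B.gen} := by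
    rw [hd, map_mul] at h1
    obtain ⟨u, rfl⟩ := hu'
    have h3 := Subalgebra.smul_mem _ h1 (↑u⁻¹ : R)
    convert h3 using 1
    rw [← map_mul, algebraMap_smul, smul_smul, ← mul_assoc, Units.inv_mul, one_mul]
  rw [← hBg]
  exact removal hn hs B (hBg ▸ hi) (hBg ▸ hm) (h ^ N)
    (fun q hq hd => hq.dvd_of_dvd_pow hd) (pow_ne_zero _ hs.ne_zero) x hx h2

end

end Pool.Agent.Lib.MP_c385f6_ag.TPG.Sup
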