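import Pool.Agent.Lib.MP_c385f6_ag.TPG.SupA

/-!
Project TPG, explicit family: the ring `R[Y] / (Y ^ n - h)` for a factorial domain `R` is an
integrally closed domain, and reductions of integral closures.
-/

set_option autoImplicit false

open Polynomial

namespace Pool.Agent.Lib.MP_c385f6_ag.TPG.Sup

universe u v w

theorem dom {R : Type u} [CommRing R] [IsDomain R] [UniqueFactorizationMonoid R] {n : ℕ}
    (hn : 0 < n) {h : R} (hs : Squarefree h) (hh : ¬ IsUnit h) :
    IsDomain (AdjoinRoot (X ^ n - C h : R[X])) := by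
  obtain ⟨q, hq, hqh, hq2⟩ := exists_prime hs hh
  exact AdjoinRoot.isDomain_of_prime (irr hn hq hqh hq2).prime

theorem icl {R : Type u} [CommRing R] [IsDomain R] [UniqueFactorizationMonoid R]
    [IsIntegrallyClosed R] {n : ℕ} (hn : 0 < n) (hu : IsUnit (n : R)) {h : R} (hs : Squarefree h)
    (hh : ¬ IsUnit h) : IsIntegrallyClosed (AdjoinRoot (X ^ n - C h : R[X])) := by
  have := dom hn hs hh
  set B := AdjoinRoot (X ^ n - C h : R[X]) with hB
  have hP : (X ^ n - C h : R[X]).Monic := monic_X_pow_sub_C h hn.ne'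
  have hdeg : (X ^ n - C h : R[X]).degree ≠ 0 := by
    rw [degree_X_pow_sub_C hn]
    exact_mod_cast hn.ne'
  have hinj : Function.Injective (algebraMap R B) := AdjoinRoot.of.injective_of_degree_ne_zero hdeg
  have hBi : Algebra.IsIntegral R B := by
    have := hP.finite_adjoinRoot
    infer_instance
  have : FaithfulSMul R (FractionRing B) := by
    rw [faithfulSMul_iff_algebraMap_injective, IsScalarTower.algebraMap_eq R B (FractionRing B)]
    exact (IsFractionRing.injective B (FractionRing B)).comp hinj
  let _ : Algebra (FractionRing R) (FractionRing B) := FractionRing.liftAlgebra R (FractionRing B)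
  have : IsScalarTower R (FractionRing R) (FractionRing B) :=
    FractionRing.isScalarTower_liftAlgebra R (FractionRing B)
  rw [isIntegrallyClosed_iff (FractionRing B)]
  intro x hx
  have hx' : IsIntegral R x := isIntegral_trans x hx
  set y : FractionRing B := algebraMap B (FractionRing B) (AdjoinRoot.root _) with hy
  have hmem : ∀ b : B, algebraMap B (FractionRing B) b ∈
      Algebra.adjoin R {y} := by
    intro b
    obtain ⟨g, rfl⟩ := AdjoinRoot.mk_surjective b
    rw [← AdjoinRoot.aeval_eq, hy, ← IsScalarTower.coe_toAlgHom' R B (FractionRing B),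
      ← aeval_algHom_apply, IsScalarTower.coe_toAlgHom']
    exact aeval_mem_adjoin_singleton R _
  have htop : IntermediateField.adjoin (FractionRing R) {y} = ⊤ := by
    rw [eq_top_iff]
    intro z _
    obtain ⟨a, b, hb, rfl⟩ := IsFractionRing.div_surjective (A := B) z
    have h1 : ∀ b : B, algebraMap B (FractionRing B) b ∈
        IntermediateField.adjoin (FractionRing R) {y} := by
      intro b
      have h2 : Algebra.adjoin R {y} ≤ (IntermediateField.adjoin (FractionRing R)
          {y}).toSubalgebra.restrictScalars R := by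
        rw [Algebra.adjoin_le_iff]
        rintro z rfl
        exact IntermediateField.subset_adjoin _ _ rfl
      exact h2 (hmem b)
    exact div_mem (h1 a) (h1 b)
  have hyn : y ^ n = algebraMap R (FractionRing B) h := by
    rw [hy, ← map_pow, IsScalarTower.algebraMap_apply R B (FractionRing B)]
    congr 1
    have h1 := AdjoinRoot.eval₂_root (X ^ n - C h : R[X])
    rw [eval₂_sub, eval₂_X_pow, eval₂_C, sub_eq_zero] at h1
    exact h1
  have h1 := intcl (K := FractionRing R) hn hu hs hh hyn htop hx'
  have h2 : Algebra.adjoin R {y} ≤ (IsScalarTower.toAlgHom R B (FractionRing B)).range := by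
    rw [Algebra.adjoin_le_iff]
    rintro z rfl
    exact ⟨_, rfl⟩
  obtain ⟨b, hb⟩ := h2 h1
  exact ⟨b, hb⟩

/-- The reduction of the integral closure `A` of `R` in the field generated by an `n`-th root of
`h`. -/
theorem exists_equiv {R : Type u} {S : Type v} {E : Type w} [CommRing R] [IsDomain R]
    [UniqueFactorizationMonoid R] [IsIntegrallyClosed R] [CommRing S] [Field E] (ψ : R →+* E)
    (hψ : Function.Injective ψ) (σ : R →+* S) (hσ : Function.Surjective σ) {n : ℕ} (hn : 0 < n)
    (hu : IsUnit (n : R)) {h : R} (hs : Squarefree h) (hh : ¬ IsUnit h) {y : E} (hy : y ^ n = ψ h)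
    (hgen : Subfield.closure (insert y (Set.range ψ)) = ⊤) (A : Subring E)
    (hA : ∀ x : E, x ∈ A ↔ ψ.IsIntegralElem x) (J : Ideal A)
    (hJ : J = Ideal.span {a : A | ∃ i : R, σ i = 0 ∧ (a : E) = ψ i}) :
    ∃ e : (A ⧸ J) ≃+* AdjoinRoot (X ^ n - C (σ h) : S[X]),
      (∀ (a : A) (r : R), (a : E) = ψ r → e (Ideal.Quotient.mk J a) = AdjoinRoot.of _ (σ r)) ∧
      ∀ a : A, (a : E) = y → e (Ideal.Quotient.mk J a) = AdjoinRoot.root _ := by
  let _ : Algebra R E := ψ.toAlgebra
  have hal : algebraMap R E = ψ := rfl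
  have : FaithfulSMul R E := (faithfulSMul_iff_algebraMap_injective R E).2 hψ
  have : Module.IsTorsionFree R E := by infer_instance
  let _ : Algebra (FractionRing R) E := FractionRing.liftAlgebra R E
  have : IsScalarTower R (FractionRing R) E := FractionRing.isScalarTower_liftAlgebra R E
  obtain ⟨q, hq, hqh, hq2⟩ := exists_prime hs hh
  obtain ⟨hi, hm⟩ := mp hn (irr hn hq hqh hq2) (show y ^ n = algebraMap R E h from hy) hψ
  have htop : IntermediateField.adjoin (FractionRing R) {y} = ⊤ := by
    rw [eq_top_iff]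
    intro z _
    have h1 : Subfield.closure (insert y (Set.range ψ)) ≤
        (IntermediateField.adjoin (FractionRing R) {y}).toSubfield := by
      rw [Subfield.closure_le]
      rintro z (rfl | ⟨r, rfl⟩)
      · exact IntermediateField.subset_adjoin _ _ rfl
      · rw [← hal, IsScalarTower.algebraMap_apply R (FractionRing R) E]
        exact IntermediateField.algebraMap_mem _ _
    rw [hgen] at h1
    exact h1 (Subfield.mem_top z)
  have hAm : ∀ x : E, x ∈ A ↔ x ∈ Algebra.adjoin R {y} := by
    intro x
    rw [hA]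
    constructor
    · intro hx
      exact intcl (K := FractionRing R) hn hu hs hh hy htop hx
    · intro hx
      exact adjoin_le_integralClosure hi hx
  let θ : R[X] →+* A := (eval₂RingHom ψ y).codRestrict A fun g => by
    rw [hAm]
    exact aeval_mem_adjoin_singleton R y
  have hθv : ∀ g : R[X], (θ g : E) = eval₂ ψ y g := fun g => rfl
  have hθ : Function.Surjective θ := by
    intro a
    have h1 := (hAm a).1 a.2
    rw [Algebra.adjoin_singleton_eq_range_aeval] at h1
    obtain ⟨g, hg⟩ := h1
    exact ⟨g, Subtype.ext hg⟩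
  set P := (X ^ n - C h : R[X]) with hP
  have hPm : P.map σ = X ^ n - C (σ h) := by simp [hP]
  let μ : R[X] →+* AdjoinRoot (X ^ n - C (σ h) : S[X]) := (AdjoinRoot.mk _).comp (mapRingHom σ)
  have hμ : Function.Surjective μ := AdjoinRoot.mk_surjective.comp (map_surjective σ hσ)
  have hker : RingHom.ker θ ≤ RingHom.ker μ := by
    intro g hg
    rw [RingHom.mem_ker] at hg ⊢
    have h1 : aeval y g = 0 := by
      have h2 := congrArg Subtype.val hg
      exact h2
    have h2 : minpoly R y ∣ g := minpoly.isIntegrallyClosed_dvd hi h1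
    rw [hm] at h2
    obtain ⟨q, rfl⟩ := h2
    change AdjoinRoot.mk _ (Polynomial.map σ (P * q)) = 0
    rw [Polynomial.map_mul, hPm, AdjoinRoot.mk_eq_zero]
    exact dvd_mul_right _ _
  let ρ : A →+* AdjoinRoot (X ^ n - C (σ h) : S[X]) := θ.liftOfSurjective hθ ⟨μ, hker⟩
  have hρ : ∀ g : R[X], ρ (θ g) = μ g := fun g =>
    RingHom.liftOfRightInverse_comp_apply _ _ _ ⟨μ, hker⟩ g
  have hρs : Function.Surjective ρ := by
    intro b
    obtain ⟨g, rfl⟩ := hμ b
    exact ⟨θ g, hρ g⟩
  have hρC : ∀ (a : A) (r : R), (a : E) = ψ r → ρ a = AdjoinRoot.of _ (σ r) := by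
    intro a r hr
    have h1 : a = θ (C r) := Subtype.ext (by rw [hθv, eval₂_C, hr])
    rw [h1, hρ]
    change AdjoinRoot.mk _ (Polynomial.map σ (C r)) = _
    rw [Polynomial.map_C, AdjoinRoot.mk_C]
  have hρX : ∀ a : A, (a : E) = y → ρ a = AdjoinRoot.root _ := by
    intro a ha
    have h1 : a = θ X := Subtype.ext (by rw [hθv, eval₂_X, ha])
    rw [h1, hρ]
    change AdjoinRoot.mk _ (Polynomial.map σ X) = _
    rw [Polynomial.map_X, AdjoinRoot.mk_X]
  have hk : RingHom.ker ρ = J := by
    apply le_antisymm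
    · intro a ha
      obtain ⟨g, rfl⟩ := hθ a
      rw [RingHom.mem_ker, hρ] at ha
      have h1 : AdjoinRoot.mk (X ^ n - C (σ h) : S[X]) (g.map σ) = 0 := ha
      rw [AdjoinRoot.mk_eq_zero, ← hPm] at h1
      obtain ⟨q, hq⟩ := h1
      obtain ⟨q, rfl⟩ := map_surjective σ hσ q
      have h2 : (g - P * q).map σ = 0 := by
        rw [Polynomial.map_sub, hq, Polynomial.map_mul, sub_self]
      have h3 : θ g = θ (g - P * q) := by
        apply Subtype.ext
        rw [hθv, hθv, eval₂_sub, eval₂_mul]
        have h4 : eval₂ ψ y P = 0 := by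
          rw [hP, eval₂_sub, eval₂_X_pow, eval₂_C, hy, sub_self]
        rw [h4, zero_mul, sub_zero]
      rw [h3, hJ]
      have h4 : ∀ G : R[X], G.map σ = 0 → θ G ∈
          Ideal.span {a : A | ∃ i : R, σ i = 0 ∧ (a : E) = ψ i} := by
        intro G hG
        rw [G.as_sum_range, map_sum]
        refine Ideal.sum_mem _ fun i _ => ?_
        rw [← C_mul_X_pow_eq_monomial, map_mul]
        refine Ideal.mul_mem_right _ _ (Ideal.subset_span ⟨G.coeff i, ?_, ?_⟩)
        · have := congrArg (fun F => coeff F i) hG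
          simpa using this
        · rw [hθv, eval₂_C]
      exact h4 _ h2
    · rw [hJ, Ideal.span_le]
      rintro a ⟨i, hi0, hai⟩
      rw [SetLike.mem_coe, RingHom.mem_ker, hρC a i hai, hi0, map_zero]
  refine ⟨(Ideal.quotEquivOfEq hk.symm).trans (RingHom.quotientKerEquivOfSurjective hρs), ?_, ?_⟩
  · intro a r hr
    exact hρC a r hr
  · intro a ha
    exact hρX a ha

end Pool.Agent.Lib.MP_c385f6_ag.TPG.Sup
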