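import Pool.Agent.Lib.MP_c385f6_ag.TPG.SupB

/-!
Project TPG, explicit family: constants of the field `F(t, y)`, `y ^ n = f(t)`.
-/

set_option autoImplicit false

open Polynomial

namespace Pool.Agent.Lib.MP_c385f6_ag.TPG.Sup

universe u v w

/-- The reverse of a squarefree polynomial is squarefree. -/
theorem sqf_reverse {R : Type u} [CommRing R] [IsDomain R] {f : R[X]} (hf : Squarefree f) :
    Squarefree f.reverse := by
  intro q hq
  obtain ⟨g, hg⟩ := hq
  have hf0 : f.reverse ≠ 0 := by
    rw [Ne, reverse_eq_zero]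
    exact hf.ne_zero
  have hq0' : q * q * g ≠ 0 := hg ▸ hf0
  have hqn : q ≠ 0 := by
    rintro rfl
    simp at hq0'
  have hgn : g ≠ 0 := by
    rintro rfl
    simp at hq0'
  have hq0 : q.coeff 0 ≠ 0 := by
    intro h0
    have h1 := congrArg (fun F => coeff F 0) hg
    simp only [coeff_zero_reverse, mul_coeff_zero, h0, zero_mul] at h1
    exact hf.ne_zero (leadingCoeff_eq_zero.1 h1)
  have hdeg : q.natDegree + q.natDegree + g.natDegree ≤ f.natDegree := by
    rw [← natDegree_mul hqn hqn, ← natDegree_mul (mul_ne_zero hqn hqn) hgn, ← hg]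
    exact reverse_natDegree_le f
  have h1 : f = q.reverse * q.reverse * reflect (f.natDegree - (q.natDegree + q.natDegree)) g := by
    have h2 : f = reflect f.natDegree f.reverse := by
      rw [reverse, reflect_reflect]
    have h3 : f.natDegree = (q.natDegree + q.natDegree) +
        (f.natDegree - (q.natDegree + q.natDegree)) := by omega
    rw [hg] at h2
    rw [h3] at h2
    rw [reflect_mul _ _ (natDegree_mul_le) (by omega), reflect_mul _ _ le_rfl le_rfl] at h2
    exact h2
  have h2 : IsUnit q.reverse := hf _ ⟨_, h1⟩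
  have h3 : q.natDegree = 0 := by
    have h4 := natDegree_eq_zero_of_isUnit h2
    rw [reverse_natDegree, natTrailingDegree_eq_zero.2 (Or.inr hq0)] at h4
    simpa using h4
  rw [eq_C_of_natDegree_eq_zero h3] at h2 ⊢
  rwa [reverse_C] at h2

theorem not_unit_reverse {R : Type u} [CommRing R] [IsDomain R] {f : R[X]} (hf : Squarefree f)
    (hd : 2 ≤ f.natDegree) : ¬ IsUnit f.reverse := by
  intro h
  have h4 := natDegree_eq_zero_of_isUnit h
  rw [reverse_natDegree] at h4
  have h5 : X ^ f.natTrailingDegree ∣ f := X_pow_dvd_iff.2 fun m hm =>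
    coeff_eq_zero_of_lt_natTrailingDegree hm
  have h6 : (X : R[X]) * X ∣ f := (by
    rw [← pow_two]
    exact (pow_dvd_pow X (by omega)).trans h5)
  exact (not_isUnit_X (R := R)) (hf _ h6)

section rep

variable {R : Type u} [CommRing R] [IsDomain R] [UniqueFactorizationMonoid R]
  [IsIntegrallyClosed R] {E : Type w} [Field E] (ψ : R →+* E) (hψ : Function.Injective ψ)
  {n : ℕ} (hn : 0 < n) {h : R} (hs : Squarefree h) (hh : ¬ IsUnit h) {y : E}
  (hy : y ^ n = ψ h)

include hψ hn hs hh hy in
/-- Uniqueness of representations. -/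
theorem rep_unique (a : ℕ → R) (ha : ∑ i ∈ Finset.range n, ψ (a i) * y ^ i = 0) :
    ∀ i < n, a i = 0 := by
  let _ : Algebra R E := ψ.toAlgebra
  have : FaithfulSMul R E := (faithfulSMul_iff_algebraMap_injective R E).2 hψ
  have : Module.IsTorsionFree R E := by infer_instance
  obtain ⟨q, hq, hqh, hq2⟩ := exists_prime hs hh
  obtain ⟨hi, hm⟩ := mp hn (irr hn hq hqh hq2) (show y ^ n = algebraMap R E h from hy) hψ
  set g : R[X] := ∑ i ∈ Finset.range n, C (a i) * X ^ i with hg
  have h1 : aeval y g = 0 := by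
    rw [hg, map_sum, ← ha]
    refine Finset.sum_congr rfl fun i _ => ?_
    rw [map_mul, map_pow, aeval_X, aeval_C]
    rfl
  have h2 : minpoly R y ∣ g := minpoly.isIntegrallyClosed_dvd hi h1
  have h3 : g = 0 := by
    rw [hm] at h2
    refine eq_zero_of_dvd_of_degree_lt h2 ?_
    rw [degree_X_pow_sub_C hn]
    refine lt_of_le_of_lt (degree_sum_le _ _) ?_
    rw [Finset.sup_lt_iff (by exact WithBot.bot_lt_coe n)]
    intro i hi
    refine (degree_C_mul_X_pow_le i (a i)).trans_lt ?_
    exact_mod_cast Finset.mem_range.1 hi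
  intro i hi
  have h4 := congrArg (fun F => coeff F i) h3
  simp only [hg, finsetSum_coeff, coeff_C_mul, coeff_X_pow, coeff_zero] at h4
  rw [Finset.sum_eq_single i] at h4
  · simpa using h4
  · intro j _ hj
    rw [if_neg (Ne.symm hj), mul_zero]
  · intro h5
    exact absurd (Finset.mem_range.2 hi) h5

include hψ hn hs hh hy in
/-- Existence of representations. -/
theorem rep (hu : IsUnit (n : R)) (hgen : Subfield.closure (insert y (Set.range ψ)) = ⊤) {x : E}
    (hx : ψ.IsIntegralElem x) : ∃ a : ℕ → R, x = ∑ i ∈ Finset.range n, ψ (a i) * y ^ i := by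
  let _ : Algebra R E := ψ.toAlgebra
  have hal : algebraMap R E = ψ := rfl
  have : FaithfulSMul R E := (faithfulSMul_iff_algebraMap_injective R E).2 hψ
  let _ : Algebra (FractionRing R) E := FractionRing.liftAlgebra R E
  have : IsScalarTower R (FractionRing R) E := FractionRing.isScalarTower_liftAlgebra R E
  have htop : IntermediateField.adjoin (FractionRing R) {y} = ⊤ := by
    rw [eq_top_iff]
    intro z _
    have h1 : Subfield.closure (insert y (Set.range ψ)) ≤
        (IntermediateField.adjoin (FractionRing R) {y}).toSubfield := by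
      rw [Subfield.closure_le]
      rintro z (rfl | ⟨r, rfl⟩)
      · exact IntermediateField.subset_adjoin _ _ rfl
      · rw [← hal, IsScalarTower.algebraMap_apply R (FractionRing R) E]
        exact IntermediateField.algebraMap_mem _ _
    rw [hgen] at h1
    exact h1 (Subfield.mem_top z)
  have h1 := intcl (K := FractionRing R) hn hu hs hh hy htop hx
  rw [Algebra.adjoin_singleton_eq_range_aeval] at h1
  obtain ⟨g, hg⟩ := h1
  have hP : (X ^ n - C h : R[X]).Monic := monic_X_pow_sub_C h hn.ne'
  have h2 : aeval y (g %ₘ (X ^ n - C h)) = x := by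
    have h3 := congrArg (aeval y) (modByMonic_add_div g (X ^ n - C h))
    rw [map_add, map_mul] at h3
    have h4 : aeval y (X ^ n - C h : R[X]) = 0 := by
      rw [map_sub, map_pow, aeval_X, aeval_C, hal, hy, sub_self]
    rw [h4, zero_mul, add_zero] at h3
    rw [h3]
    exact hg
  refine ⟨(g %ₘ (X ^ n - C h)).coeff, ?_⟩
  rw [← h2, aeval_eq_sum_range' (n := n)]
  · refine Finset.sum_congr rfl fun i _ => ?_
    rw [Algebra.smul_def, hal]
  · have h3 := degree_modByMonic_lt g hP
    by_cases h4 : g %ₘ (X ^ n - C h) = 0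
    · rw [h4, natDegree_zero]
      exact hn
    · rw [degree_X_pow_sub_C hn] at h3
      exact (natDegree_lt_iff_degree_lt h4).2 h3

end rep

/-- The elements of `F(t, y)` that are algebraic over `F` are constants. -/
theorem consts {F : Type u} {L : Type w} [Field F] [Field L] [Algebra F L] {n m : ℕ} (hn : 2 ≤ n)
    (hm : 0 < m) (hnF : (n : F) ≠ 0) {f : F[X]} (hf : Squarefree f) (hd : f.natDegree = n * m)
    {t y : L} (ht : Transcendental F t) (hy : y ^ n = aeval t f)
    (hgen : IntermediateField.adjoin F {t, y} = ⊤) {x : L} (hx : IsAlgebraic F x) :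
    ∃ c : F, x = algebraMap F L c := by
  have hn0 : 0 < n := by omega
  have ht0 : t ≠ 0 := by
    rintro rfl
    exact ht (isAlgebraic_zero)
  have hti : Transcendental F t⁻¹ := by
    intro h
    exact ht (by simpa using h.inv)
  have hd2 : 2 ≤ f.natDegree := by
    rw [hd]
    nlinarith
  have hfu : ¬ IsUnit f := by
    intro h
    have := natDegree_eq_zero_of_isUnit h
    omega
  have hu : IsUnit (n : F[X]) := by
    rw [← C_eq_natCast]
    exact isUnit_C.2 (IsUnit.mk0 _ hnF)
  -- the charts
  let ψ : L → F[X] →+* L := fun z => (aeval z : F[X] →ₐ[F] L).toRingHom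
  have hψ : ∀ z g, ψ z g = aeval z g := fun _ _ => rfl
  have hinj : ∀ z : L, Transcendental F z → Function.Injective (ψ z) := by
    intro z hz
    exact transcendental_iff_injective.1 hz
  have hxi : ∀ z : L, (ψ z).IsIntegralElem x := by
    intro z
    have h1 : IsIntegral F x := hx.isIntegral
    obtain ⟨g, hg, hgx⟩ := h1
    refine ⟨g.map C, hg.map _, ?_⟩
    have h2 : (ψ z).comp C = algebraMap F L := RingHom.ext fun c => by
      rw [RingHom.comp_apply, hψ, aeval_C]
    rw [eval₂_map, h2]
    exact hgx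
  have hgen1 : Subfield.closure (insert y (Set.range (ψ t))) = ⊤ := by
    rw [eq_top_iff]
    intro z _
    have h1 : (IntermediateField.adjoin F {t, y}).toSubfield ≤
        Subfield.closure (insert y (Set.range (ψ t))) := by
      rw [IntermediateField.adjoin_toSubfield, Subfield.closure_le]
      rintro z (⟨c, rfl⟩ | rfl | rfl)
      · exact Subfield.subset_closure (Set.mem_insert_of_mem _ ⟨C c, by simp [hψ]⟩)
      · exact Subfield.subset_closure (Set.mem_insert_of_mem _ ⟨X, by simp [hψ]⟩)
      · exact Subfield.subset_closure (Set.mem_insert _ _)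
    rw [hgen] at h1
    exact h1 trivial
  set y₂ : L := y * t⁻¹ ^ m with hy₂
  have hgen2 : Subfield.closure (insert y₂ (Set.range (ψ t⁻¹))) = ⊤ := by
    rw [eq_top_iff, ← hgen1, Subfield.closure_le]
    have h1 : t ∈ Subfield.closure (insert y₂ (Set.range (ψ t⁻¹))) := by
      have h2 : t⁻¹ ∈ Subfield.closure (insert y₂ (Set.range (ψ t⁻¹))) :=
        Subfield.subset_closure (Set.mem_insert_of_mem _ ⟨X, by simp [hψ]⟩)
      simpa using inv_mem h2
    have h3 : ∀ c : F, algebraMap F L c ∈ Subfield.closure (insert y₂ (Set.range (ψ t⁻¹))) :=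
      fun c => Subfield.subset_closure (Set.mem_insert_of_mem _ ⟨C c, by simp [hψ]⟩)
    rintro z (rfl | ⟨g, rfl⟩)
    · have h4 : z = y₂ * t ^ m := by
        rw [hy₂, mul_assoc, ← mul_pow, inv_mul_cancel₀ ht0, one_pow, mul_one]
      rw [h4]
      exact mul_mem (Subfield.subset_closure (Set.mem_insert _ _)) (pow_mem h1 m)
    · rw [SetLike.mem_coe, hψ, aeval_eq_sum_range]
      refine sum_mem fun i _ => ?_
      rw [Algebra.smul_def]
      exact mul_mem (h3 _) (pow_mem h1 i)
  have hy2 : y₂ ^ n = ψ t⁻¹ f.reverse := by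
    let _ : Invertible t := invertibleOfNonzero ht0
    have h1 := eval₂_reverse_mul_pow (algebraMap F L) t f
    rw [invOf_eq_inv] at h1
    rw [hψ, hy₂, mul_pow, hy, aeval_def, aeval_def, ← h1, hd, ← pow_mul, mul_comm m n, mul_assoc,
      ← mul_pow, mul_inv_cancel₀ ht0, one_pow, mul_one]
  obtain ⟨a, ha⟩ := rep (ψ t) (hinj t ht) hn0 hf hfu (by rw [hψ]; exact hy) hu hgen1 (hxi t)
  obtain ⟨b, hb⟩ := rep (ψ t⁻¹) (hinj _ hti) hn0 (sqf_reverse hf) (not_unit_reverse hf hd2) hy2 hu
    hgen2 (hxi t⁻¹)
  -- comparison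
  set N : ℕ := m * n + ∑ i ∈ Finset.range n, (b i).natDegree with hN
  have hbN : ∀ i < n, m * i + (b i).natDegree ≤ N := by
    intro i hi
    have h1 : (b i).natDegree ≤ ∑ i ∈ Finset.range n, (b i).natDegree :=
      Finset.single_le_sum (f := fun i => (b i).natDegree) (fun _ _ => Nat.zero_le _)
        (Finset.mem_range.2 hi)
    have h2 : m * i ≤ m * n := Nat.mul_le_mul_left m hi.le
    omega
  have hrev : ∀ i < n, t ^ N * (ψ t⁻¹ (b i) * y₂ ^ i) =
      ψ t (X ^ (N - (m * i + (b i).natDegree)) * (b i).reverse) * y ^ i := by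
    intro i hi
    let _ : Invertible t⁻¹ := invertibleOfNonzero (inv_ne_zero ht0)
    have h1 := eval₂_reverse_mul_pow (algebraMap F L) t⁻¹ (b i)
    rw [invOf_eq_inv, inv_inv] at h1
    have h2 := hbN i hi
    rw [hψ, hψ, map_mul, map_pow, aeval_X, aeval_def, aeval_def, ← h1, hy₂, mul_pow, ← pow_mul]
    have h3 : t ^ N = t ^ (N - (m * i + (b i).natDegree)) * (t ^ (m * i) * t ^ (b i).natDegree) := by
      rw [← pow_add, ← pow_add]
      congr 1
      omega
    rw [h3]
    have h4 : t ^ (m * i) * t⁻¹ ^ (m * i) = 1 := by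
      rw [← mul_pow, mul_inv_cancel₀ ht0, one_pow]
    have h5 : t ^ (b i).natDegree * t⁻¹ ^ (b i).natDegree = 1 := by
      rw [← mul_pow, mul_inv_cancel₀ ht0, one_pow]
    linear_combination (t ^ (N - (m * i + (b i).natDegree)) *
      eval₂ (algebraMap F L) t (b i).reverse * y ^ i) * (h4 * (t ^ (b i).natDegree * t⁻¹ ^ (b i).natDegree) + h5)
  have hcmp : ∀ i < n, X ^ N * a i = X ^ (N - (m * i + (b i).natDegree)) * (b i).reverse := by
    intro i hi
    have h1 := rep_unique (ψ t) (hinj t ht) hn0 hf hfu (by rw [hψ]; exact hy)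
      (fun i => X ^ N * a i - X ^ (N - (m * i + (b i).natDegree)) * (b i).reverse) (by
        have h2 : ∀ i ∈ Finset.range n,
            ψ t (X ^ N * a i - X ^ (N - (m * i + (b i).natDegree)) * (b i).reverse) * y ^ i =
            t ^ N * (ψ t (a i) * y ^ i) - t ^ N * (ψ t⁻¹ (b i) * y₂ ^ i) := by
          intro i hi
          rw [hrev i (Finset.mem_range.1 hi), map_sub, sub_mul, map_mul, map_pow]
          have h3 : ψ t X = t := by rw [hψ, aeval_X]
          rw [h3]
          ring
        rw [Finset.sum_congr rfl h2, Finset.sum_sub_distrib, ← Finset.mul_sum, ← Finset.mul_sum,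
          ← ha, ← hb, sub_self]) i hi
    exact sub_eq_zero.1 h1
  have hdeg : ∀ i < n, a i ≠ 0 → m * i + (a i).natDegree ≤ 0 := by
    intro i hi h0
    have h1 := congrArg natDegree (hcmp i hi)
    have h2 := hbN i hi
    rw [natDegree_X_pow_mul N h0] at h1
    have h3 : (X ^ (N - (m * i + (b i).natDegree)) * (b i).reverse).natDegree ≤
        (N - (m * i + (b i).natDegree)) + (b i).natDegree := by
      refine natDegree_mul_le.trans ?_
      rw [natDegree_X_pow]
      exact Nat.add_le_add_left (reverse_natDegree_le _) _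
    omega
  refine ⟨(a 0).coeff 0, ?_⟩
  rw [ha, Finset.sum_eq_single 0]
  · rw [pow_zero, mul_one, hψ]
    by_cases h0 : a 0 = 0
    · simp [h0]
    · have h1 : (a 0).natDegree = 0 := by
        have := hdeg 0 hn0 h0
        omega
      conv_lhs => rw [eq_C_of_natDegree_eq_zero h1]
      rw [aeval_C]
  · intro i hi hi0
    by_cases h0 : a i = 0
    · rw [h0, map_zero, zero_mul]
    · exfalso
      have h1 := hdeg i (Finset.mem_range.1 hi) h0
      have h2 : 0 < m * i := Nat.mul_pos hm (Nat.pos_of_ne_zero hi0)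
      omega
  · intro h
    exact absurd (Finset.mem_range.2 hn0) h

end Pool.Agent.Lib.MP_c385f6_ag.TPG.Sup
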