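import Pool.Agent.Lib.MP_c385f6_ag.TPG.SupC

/-!
Project TPG, explicit family: constants of the ring `F[t, y]`, `y ^ n = f(t)`.
-/

set_option autoImplicit false

open Polynomial

namespace Pool.Agent.Lib.MP_c385f6_ag.TPG.Sup

universe u v w

theorem constsB {F : Type u} {B : Type v} [Field F] [CommRing B] [IsDomain B] {n m : ℕ}
    (hn : 2 ≤ n) (hm : 0 < m) (hnF : (n : F) ≠ 0) {f : F[X]} (hf : Squarefree f)
    (hd : f.natDegree = n * m) (φ : F[X] →+* B) (hφ : Function.Injective φ) {y : B}
    (hy : y ^ n = φ f) (hgen : ∀ b : B, ∃ g : F[X][X], b = eval₂ φ y g) {b : B}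
    {g : ℤ[X]} (hg : g.Monic) (hga : eval₂ (Int.castRingHom B) b g = 0) : ∃ c : F, b = φ (C c) := by
  let L := FractionRing B
  have hL : Function.Injective (algebraMap B L) := IsFractionRing.injective B L
  let ι : F →+* L := (algebraMap B L).comp (φ.comp C)
  let _ : Algebra F L := ι.toAlgebra
  have hι : ∀ c : F, algebraMap F L c = algebraMap B L (φ (C c)) := fun _ => rfl
  let τ : L := algebraMap B L (φ X)
  let υ : L := algebraMap B L y
  have hae : ∀ g : F[X], aeval τ g = algebraMap B L (φ g) := by
    intro g
    have h1 : (aeval τ : F[X] →ₐ[F] L).toRingHom = (algebraMap B L).comp φ := by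
      refine ringHom_ext (fun c => ?_) ?_
      · change aeval τ (C c) = _
        rw [aeval_C]
        rfl
      · change aeval τ X = _
        rw [aeval_X]
        rfl
    exact congrArg (fun φ : F[X] →+* L => φ g) h1
  have hτ : Transcendental F τ := by
    rw [transcendental_iff_injective]
    intro g g' hgg
    have hgg' : aeval τ g = aeval τ g' := hgg
    rw [hae, hae] at hgg'
    exact hφ (hL hgg')
  have hυ : υ ^ n = aeval τ f := by
    rw [hae, ← hy, map_pow]
  have hgenL : IntermediateField.adjoin F {τ, υ} = ⊤ := by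
    rw [eq_top_iff]
    intro x _
    obtain ⟨a, b, hb, rfl⟩ := IsFractionRing.div_surjective (A := B) x
    have h1 : ∀ b : B, algebraMap B L b ∈ IntermediateField.adjoin F {τ, υ} := by
      intro b
      obtain ⟨g, rfl⟩ := hgen b
      rw [eval₂_eq_sum_range, map_sum]
      refine sum_mem fun i _ => ?_
      rw [map_mul, map_pow]
      refine mul_mem ?_ (pow_mem (IntermediateField.subset_adjoin _ _ (by simp [υ])) _)
      rw [← hae]
      have h3 : τ ∈ IntermediateField.adjoin F {τ, υ} :=
        IntermediateField.subset_adjoin _ _ (by simp)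
      rw [aeval_eq_sum_range]
      refine sum_mem fun j _ => ?_
      rw [Algebra.smul_def]
      exact mul_mem (IntermediateField.algebraMap_mem _ _) (pow_mem h3 j)
    exact div_mem (h1 a) (h1 b)
  have hx : IsAlgebraic F (algebraMap B L b) := by
    have h1 : eval₂ (Int.castRingHom L) (algebraMap B L b) g = 0 := by
      have h3 := congrArg (algebraMap B L) hga
      rw [hom_eval₂, map_zero] at h3
      rw [← h3]
      congr 1
      exact (RingHom.ext_int _ _)
    have h2 : IsIntegral F (algebraMap B L b) := by
      refine ⟨g.map (Int.castRingHom F), hg.map _, ?_⟩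
      rw [eval₂_map, ← h1]
      congr 1
      exact (RingHom.ext_int _ _)
    exact h2.isAlgebraic
  obtain ⟨c, hc⟩ := consts hn hm hnF hf hd hτ hυ hgenL hx
  exact ⟨c, hL (by rw [hc, hι])⟩

end Pool.Agent.Lib.MP_c385f6_ag.TPG.Sup
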