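import Pool.Agent.Lib.MP_c385f6_ag.TPG.StThm

/-!
Project TPG, explicit family: the splitting field `k'` of `X ^ n - c` over the `p`-adic field `k`, `n`
prime to `p`. The inertia group of `Gal(k' / k)` has order prime to `p`; if `|c|` is not the `n`-th
power of the absolute value of an element of `k` then it moves the roots of `X ^ n - c`.
-/

set_option autoImplicit false

open Polynomial

namespace Pool.Agent.Lib.MP_c385f6_ag.TPG.Sup

universe u v

section Nm

variable {E : Type v} [NormedField E] [IsUltrametricDist E]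

theorem norm_sum_lt {ι : Type*} (s : Finset ι) (f : ι → E) (h : ∀ i ∈ s, ‖f i‖ < 1) :
    ‖∑ i ∈ s, f i‖ < 1 := by
  classical
  induction s using Finset.induction_on with
  | empty => simp
  | insert a s ha ih =>
    rw [Finset.sum_insert ha]
    refine (IsUltrametricDist.norm_add_le_max _ _).trans_lt (max_lt ?_ ?_)
    · exact h a (Finset.mem_insert_self a s)
    · exact ih fun i hi => h i (Finset.mem_insert_of_mem hi)

/-- Roots of unity of order prime to `p` are distinct in the residue field. -/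
theorem root_eq {n : ℕ} (hn : ‖(n : E)‖ = 1) {x : E} (hx : x ^ n = 1) (h1 : ‖x - 1‖ < 1) :
    x = 1 := by
  by_contra hne
  have h2 : (∑ i ∈ Finset.range n, x ^ i) * (x - 1) = 0 := by
    rw [geom_sum_mul, hx, sub_self]
  have h3 : ∑ i ∈ Finset.range n, x ^ i = 0 :=
    (mul_eq_zero.1 h2).resolve_right (sub_ne_zero.2 hne)
  have hxn : ‖x‖ ≤ 1 := by
    have h4 : x = (x - 1) + 1 := by ring
    rw [h4]
    refine (IsUltrametricDist.norm_add_le_max _ _).trans (max_le h1.le ?_)
    rw [norm_one]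
  have h5 : ∀ i : ℕ, ‖x ^ i - 1‖ < 1 := by
    intro i
    rw [← geom_sum_mul, norm_mul]
    have h6 : ‖∑ j ∈ Finset.range i, x ^ j‖ ≤ 1 := by
      refine IsUltrametricDist.norm_sum_le_of_forall_le_of_nonneg zero_le_one fun j _ => ?_
      rw [norm_pow]
      exact pow_le_one₀ (norm_nonneg _) hxn
    calc _ ≤ 1 * ‖x - 1‖ := by gcongr
      _ < 1 := by rwa [one_mul]
  have h7 : ‖∑ i ∈ Finset.range n, (x ^ i - 1)‖ < 1 := norm_sum_lt _ _ fun j _ => h5 j
  rw [Finset.sum_sub_distrib, h3, zero_sub, norm_neg, Finset.sum_const, Finset.card_range,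
    nsmul_eq_mul, mul_one, hn] at h7
  exact lt_irrefl _ h7

variable (E) in
/-- The valuation ring. -/
def OE : Subring E where
  carrier := {x | ‖x‖ ≤ 1}
  mul_mem' := fun {a b} ha hb => by
    change ‖a * b‖ ≤ 1
    rw [norm_mul]
    exact mul_le_one₀ ha (norm_nonneg _) hb
  one_mem' := by
    change ‖(1 : E)‖ ≤ 1
    rw [norm_one]
  add_mem' := fun {a b} ha hb => (IsUltrametricDist.norm_add_le_max a b).trans (max_le ha hb)
  zero_mem' := by
    change ‖(0 : E)‖ ≤ 1
    rw [norm_zero]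
    exact zero_le_one
  neg_mem' := fun {a} ha => by
    change ‖-a‖ ≤ 1
    rw [norm_neg]
    exact ha

theorem mem_OE {x : E} : x ∈ OE E ↔ ‖x‖ ≤ 1 := Iff.rfl

variable (E) in
/-- The maximal ideal. -/
def mE : Ideal (OE E) where
  carrier := {x | ‖(x : E)‖ < 1}
  add_mem' := fun {a b} ha hb =>
    (IsUltrametricDist.norm_add_le_max (a : E) (b : E)).trans_lt (max_lt ha hb)
  zero_mem' := by
    change ‖((0 : OE E) : E)‖ < 1
    rw [Subring.coe_zero, norm_zero]
    exact zero_lt_one
  smul_mem' := fun a b hb => by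
    change ‖((a * b : OE E) : E)‖ < 1
    rw [Subring.coe_mul, norm_mul]
    exact mul_lt_one_of_nonneg_of_lt_one_right a.2 (norm_nonneg _) hb

theorem mem_mE {x : OE E} : x ∈ mE E ↔ ‖(x : E)‖ < 1 := Iff.rfl

instance : (mE E).IsPrime where
  ne_top' := by
    rw [Ideal.ne_top_iff_one, mem_mE, Subring.coe_one, norm_one]
    exact lt_irrefl _
  mem_or_mem' := fun {a b} h => by
    rw [mem_mE, Subring.coe_mul, norm_mul] at h
    by_contra hcon
    rw [not_or, mem_mE, mem_mE, not_lt, not_lt] at hcon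
    have := one_le_mul_of_one_le_of_one_le hcon.1 hcon.2
    exact absurd h (not_lt.2 this)

/-- If the inertia group fixes the `n`-th roots of `c` then `|c|` is the `n`-th power of the
absolute value of an element of `k`. -/
theorem exists_moving {k : Type u} [Field k] [Algebra k E] [FiniteDimensional k E] [IsGalois k E]
    (hiso : ∀ (σ : E ≃ₐ[k] E) (x : E), ‖σ x‖ = ‖x‖) {n : ℕ} (hn0 : n ≠ 0) (hn : ‖(n : E)‖ = 1)
    {c : k} {γ : E} (hγ : γ ^ n = algebraMap k E c)
    (hgen : ∀ σ : E ≃ₐ[k] E, (∀ δ : E, δ ^ n = algebraMap k E c → σ δ = δ) → σ = 1)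
    (hc : ∀ b : k, ‖algebraMap k E b‖ ^ n ≠ ‖algebraMap k E c‖) :
    ∃ σ : E ≃ₐ[k] E, (∀ x : E, ‖x‖ ≤ 1 → ‖σ x - x‖ < 1) ∧ σ γ ≠ γ := by
  classical
  by_contra hcon
  push Not at hcon
  have hc0 : c ≠ 0 := by
    rintro rfl
    refine hc 0 ?_
    rw [map_zero, norm_zero, zero_pow hn0]
  have hγ0 : γ ≠ 0 := by
    rintro rfl
    rw [zero_pow hn0, eq_comm, map_eq_zero] at hγ
    exact hc0 hγ
  have hin : ∀ σ : E ≃ₐ[k] E, (∀ x : E, ‖x‖ ≤ 1 → ‖σ x - x‖ < 1) → σ = 1 := by
    intro σ hσ
    apply hgen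
    intro δ hδ
    have h1 : (δ / γ) ^ n = 1 := by
      rw [div_pow, hδ, hγ, div_self ((_root_.map_ne_zero _).2 hc0)]
    have h2 : ‖δ / γ‖ = 1 := by
      have h3 : ‖δ / γ‖ ^ n = 1 := by rw [← norm_pow, h1, norm_one]
      exact (pow_eq_one_iff_of_nonneg (norm_nonneg _) hn0).1 h3
    have h3 := hσ (δ / γ) h2.le
    have hδγ : δ / γ ≠ 0 := norm_ne_zero_iff.1 (by rw [h2]; exact one_ne_zero)
    have h4 : σ (δ / γ) / (δ / γ) = 1 := by
      apply root_eq hn
      · rw [div_pow, ← map_pow, h1, map_one, div_one]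
      · rw [div_sub_one hδγ, norm_div, h2, div_one]
        exact h3
    rw [div_eq_one_iff_eq hδγ, map_div₀, hcon σ hσ] at h4
    exact (div_left_inj' hγ0).1 h4
  have hζ : ∀ g : E ≃ₐ[k] E, ‖g γ / γ‖ = 1 := by
    intro g
    rw [norm_div, hiso, div_self (norm_ne_zero_iff.2 hγ0)]
  let χ : (E ≃ₐ[k] E) → (OE E →* OE E ⧸ mE E) := fun g =>
    { toFun := fun u => Ideal.Quotient.mk (mE E) ⟨g u, (hiso g u).le.trans u.2⟩
      map_one' := by
        rw [← map_one (Ideal.Quotient.mk (mE E))]
        congr 1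
        exact Subtype.ext (map_one g)
      map_mul' := fun a b => by
        rw [← map_mul (Ideal.Quotient.mk (mE E))]
        congr 1
        exact Subtype.ext (map_mul g (a : E) (b : E)) }
  have hχ : Function.Injective χ := by
    intro g h hgh
    have h1 : (h⁻¹ * g) = 1 := by
      apply hin
      intro x hx
      have h2 := DFunLike.congr_fun hgh (⟨x, hx⟩ : OE E)
      have h3 : Ideal.Quotient.mk (mE E) ⟨g x, (hiso g x).le.trans hx⟩ =
        Ideal.Quotient.mk (mE E) ⟨h x, (hiso h x).le.trans hx⟩ := h2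
      rw [Ideal.Quotient.eq, mem_mE] at h3
      have h4 : ‖g x - h x‖ < 1 := h3
      have h5 : (h⁻¹ * g) x - x = h⁻¹ (g x - h x) := by
        rw [map_sub]
        congr 1
        change x = h.symm (h x)
        rw [AlgEquiv.symm_apply_apply]
      rw [h5, hiso]
      exact h4
    exact (inv_mul_eq_one.1 h1).symm
  have hli := (linearIndependent_monoidHom (OE E) (OE E ⧸ mE E)).comp χ hχ
  rw [Fintype.linearIndependent_iff] at hli
  obtain ⟨u, hu⟩ : ∃ u : OE E, ¬ ‖∑ g : E ≃ₐ[k] E, (g γ / γ) * g u‖ < 1 := by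
    by_contra hall
    push Not at hall
    have h1 := hli (fun g => Ideal.Quotient.mk (mE E) ⟨g γ / γ, (hζ g).le⟩) (by
      funext u
      rw [Finset.sum_apply, Pi.zero_apply]
      have h2 : ∀ g : E ≃ₐ[k] E, ((Ideal.Quotient.mk (mE E) ⟨g γ / γ, (hζ g).le⟩) •
          (((fun f : OE E →* OE E ⧸ mE E => (f : OE E → OE E ⧸ mE E)) ∘ χ) g)) u =
          Ideal.Quotient.mk (mE E) (⟨g γ / γ, (hζ g).le⟩ * ⟨g u, (hiso g u).le.trans u.2⟩) :=
        fun g => rfl
      rw [Finset.sum_congr rfl fun g _ => h2 g, ← map_sum, Ideal.Quotient.eq_zero_iff_mem, mem_mE]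
      rw [AddSubmonoidClass.coe_finsetSum]
      exact hall u) 1
    rw [Ideal.Quotient.eq_zero_iff_mem, mem_mE] at h1
    have h3 : ‖(1 : E ≃ₐ[k] E) γ / γ‖ < 1 := h1
    rw [hζ] at h3
    exact lt_irrefl _ h3
  set e := ∑ g : E ≃ₐ[k] E, (g γ / γ) * g u with he
  have he1 : ‖e‖ = 1 := by
    refine le_antisymm ?_ (not_lt.1 hu)
    refine IsUltrametricDist.norm_sum_le_of_forall_le_of_nonneg zero_le_one fun g _ => ?_
    rw [norm_mul, hζ, one_mul, hiso]
    exact u.2
  have h1 : γ * e = algebraMap k E (Algebra.trace k E (γ * u)) := by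
    rw [trace_eq_sum_automorphisms, he, Finset.mul_sum]
    refine Finset.sum_congr rfl fun g _ => ?_
    rw [map_mul, ← mul_assoc, mul_div_cancel₀ _ hγ0]
  refine hc (Algebra.trace k E (γ * u)) ?_
  rw [← h1, norm_mul, he1, mul_one, ← norm_pow, hγ]

end Nm

section Gal

variable (p : ℕ) [Fact p.Prime]

theorem norm_nat {E : Type v} [NormedField E] [NormedAlgebra ℚ_[p] E] {n : ℕ} (hpn : ¬ p ∣ n) :
    ‖(n : E)‖ = 1 := by
  rw [← map_natCast (algebraMap ℚ_[p] E), norm_algebraMap']
  exact Padic.norm_natCast_eq_one_iff.2 ((Fact.out : p.Prime).coprime_iff_not_dvd.2 hpn)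

variable (k k' : Type) {K : Type u} (K' : Type u) [Field k] [Field k'] [Field K] [Field K']
  [Algebra ℚ_[p] k] [Algebra ℚ_[p] k'] [FiniteDimensional ℚ_[p] k'] [Algebra k k']
  [IsScalarTower ℚ_[p] k k'] [Algebra k K] [Algebra k' K'] [Algebra K K'] [Algebra k K']
  [IsScalarTower k k' K'] [IsScalarTower k K K']

include p in
omit [Algebra ℚ_[p] k'] [FiniteDimensional ℚ_[p] k'] [IsScalarTower ℚ_[p] k k'] [Algebra k' K']
  [IsScalarTower k k' K'] [Field K] [Field K'] [Algebra k K] [Algebra K K'] [Algebra k K']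
  [IsScalarTower k K K'] in
/-- The splitting field of `X ^ n - c` is Galois. -/
theorem isGalois_split {n : ℕ} (hn0 : n ≠ 0) {c : k} (hc0 : c ≠ 0)
    (hsp : IsSplittingField k k' (X ^ n - C c)) : IsGalois k k' := by
  have : CharZero k := charZero_of_injective_algebraMap (algebraMap ℚ_[p] k).injective
  refine IsGalois.of_separable_splitting_field (p := X ^ n - C c) ?_
  exact separable_X_pow_sub_C c (by exact_mod_cast hn0) hc0

end Gal

section Lift

variable {k k' : Type} {K K' : Type u} [Field k] [Field k'] [Field K] [Field K'] [Algebra k k']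
  [Algebra k K] [Algebra k' K'] [Algebra K K'] [Algebra k K'] [IsScalarTower k k' K']
  [IsScalarTower k K K']

theorem isSplit_top {n : ℕ} {c : k}
    (hsp : IsSplittingField k k' (X ^ n - C c))
    (hcomp : IntermediateField.adjoin K (Set.range (algebraMap k' K')) = ⊤) :
    IsSplittingField K K' (X ^ n - C (algebraMap k K c)) := by
  have hm : (X ^ n - C (algebraMap k K c) : K[X]) = (X ^ n - C c : k[X]).map (algebraMap k K) := by
    simp
  rw [isSplittingField_iff_intermediateField] at hsp ⊢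
  obtain ⟨h1, h2⟩ := hsp
  have h3 : ((X ^ n - C (algebraMap k K c) : K[X]).map (algebraMap K K')) =
      ((X ^ n - C c : k[X]).map (algebraMap k k')).map (algebraMap k' K') := by
    rw [hm, Polynomial.map_map, Polynomial.map_map, ← IsScalarTower.algebraMap_eq,
      ← IsScalarTower.algebraMap_eq]
  refine ⟨?_, ?_⟩
  · rw [h3]
    exact h1.map _
  rw [eq_top_iff, ← hcomp, IntermediateField.adjoin_le_iff]
  rintro _ ⟨x, rfl⟩
  have hx : x ∈ IntermediateField.adjoin k ((X ^ n - C c : k[X]).rootSet k') := by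
    rw [h2]; trivial
  induction hx using IntermediateField.adjoin_induction with
  | mem z hz =>
    apply IntermediateField.subset_adjoin
    have hne : (X ^ n - C (algebraMap k K c) : K[X]) ≠ 0 := by
      rw [hm, Polynomial.map_ne_zero_iff (algebraMap k K).injective]
      rintro h0
      rw [h0] at hz
      simp at hz
    rw [mem_rootSet] at hz ⊢
    refine ⟨hne, ?_⟩
    rw [hm, aeval_map_algebraMap, aeval_algebraMap_apply, hz.2, map_zero]
  | algebraMap c =>
    rw [← IsScalarTower.algebraMap_apply k k' K', IsScalarTower.algebraMap_apply k K K']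
    exact IntermediateField.algebraMap_mem _ _
  | add a b _ _ ha hb => rw [map_add]; exact add_mem ha hb
  | inv a _ ha => rw [map_inv₀]; exact inv_mem ha
  | mul a b _ _ ha hb => rw [map_mul]; exact mul_mem ha hb

/-- `Gal(K' / K)` acts on `k'`. -/
theorem exists_res [Normal k k'] (g : K' ≃ₐ[K] K') : ∃ σ : k' ≃ₐ[k] k', ∀ x : k',
    g (algebraMap k' K' x) = algebraMap k' K' (σ x) :=
  ⟨(g.restrictScalars k).restrictNormal k', fun x =>
    ((g.restrictScalars k).restrictNormal_commutes k' x).symm⟩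

/-- `Gal(K' / K) → Gal(k' / k)` is surjective if `k` is algebraically closed in `K`. -/
theorem exists_lift [FiniteDimensional k k'] [IsGalois k k'] [FiniteDimensional K K']
    [IsGalois K K'] (hconst : ∀ x : K, IsAlgebraic k x → ∃ c : k, x = algebraMap k K c)
    (σ : k' ≃ₐ[k] k') : ∃ g : K' ≃ₐ[K] K', ∀ x : k',
      g (algebraMap k' K' x) = algebraMap k' K' (σ x) := by
  let ρ : (K' ≃ₐ[K] K') →* (k' ≃ₐ[k] k') :=
    (AlgEquiv.restrictNormalHom k').comp (AlgEquiv.restrictScalarsHom k)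
  have hρ : ∀ (g : K' ≃ₐ[K] K') (x : k'), algebraMap k' K' (ρ g x) = g (algebraMap k' K' x) :=
    fun g x => (g.restrictScalars k).restrictNormal_commutes k' x
  have h1 : IntermediateField.fixedField ρ.range = ⊥ := by
    rw [eq_bot_iff]
    intro x hx
    rw [IntermediateField.mem_fixedField_iff] at hx
    have h2 : algebraMap k' K' x ∈ Set.range (algebraMap K K') := by
      rw [IsGalois.mem_range_algebraMap_iff_fixed]
      intro g
      rw [← hρ, hx _ ⟨g, rfl⟩]
    obtain ⟨y, hy⟩ := h2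
    have h3 : IsAlgebraic k y := by
      have h4 : IsAlgebraic k (algebraMap K K' y) := by
        rw [hy]
        exact (Algebra.IsAlgebraic.isAlgebraic x).algebraMap
      exact (isAlgebraic_algebraMap_iff (algebraMap K K').injective).1 h4
    obtain ⟨c, rfl⟩ := hconst y h3
    rw [IntermediateField.mem_bot]
    refine ⟨c, (algebraMap k' K').injective ?_⟩
    rw [← hy, ← IsScalarTower.algebraMap_apply k K K', ← IsScalarTower.algebraMap_apply k k' K']
  have h2 : ρ.range = ⊤ := by
    rw [← IntermediateField.fixingSubgroup_fixedField ρ.range, h1,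
      IntermediateField.fixingSubgroup_bot]
  obtain ⟨g, hg⟩ : σ ∈ ρ.range := by rw [h2]; trivial
  exact ⟨g, fun x => by rw [← hρ, hg]⟩

theorem eq_of_const (hcomp : IntermediateField.adjoin K (Set.range (algebraMap k' K')) = ⊤)
    (g : K' ≃ₐ[K] K') (hg : ∀ x : k', g (algebraMap k' K' x) = algebraMap k' K' x) : g = 1 := by
  apply AlgEquiv.ext
  intro x
  have hx : x ∈ IntermediateField.adjoin K (Set.range (algebraMap k' K')) := by
    rw [hcomp]; trivial
  change g x = x
  induction hx using IntermediateField.adjoin_induction with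
  | mem z hz =>
    obtain ⟨y, rfl⟩ := hz
    exact hg y
  | algebraMap c => exact g.commutes c
  | add a b _ _ ha hb => rw [map_add, ha, hb]
  | inv a _ ha => rw [map_inv₀, ha]
  | mul a b _ _ ha hb => rw [map_mul, ha, hb]

end Lift

theorem gen_split {k k' : Type*} [Field k] [Field k'] [Algebra k k'] {n : ℕ} {c : k}
    (hsp : IsSplittingField k k' (X ^ n - C c)) (σ : k' ≃ₐ[k] k')
    (hσ : ∀ δ : k', δ ^ n = algebraMap k k' c → σ δ = δ) : σ = 1 := by
  rw [isSplittingField_iff_intermediateField] at hsp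
  apply AlgEquiv.ext
  intro x
  have hx : x ∈ IntermediateField.adjoin k ((X ^ n - C c : k[X]).rootSet k') := by
    rw [hsp.2]; trivial
  change σ x = x
  induction hx using IntermediateField.adjoin_induction with
  | mem z hz =>
    apply hσ
    rw [mem_rootSet] at hz
    have h1 := hz.2
    rw [map_sub, map_pow, aeval_X, aeval_C, sub_eq_zero] at h1
    exact h1
  | algebraMap c => exact σ.commutes c
  | add a b _ _ ha hb => rw [map_add, ha, hb]
  | inv a _ ha => rw [map_inv₀, ha]
  | mul a b _ _ ha hb => rw [map_mul, ha, hb]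

section Final

variable (p : ℕ) [Fact p.Prime] (k k' : Type) {K : Type u} (K' : Type u) [Field k] [Field k']
  [Field K] [Field K'] [Algebra ℚ_[p] k] [Algebra ℚ_[p] k'] [FiniteDimensional ℚ_[p] k']
  [Algebra k k'] [IsScalarTower ℚ_[p] k k'] [Algebra k K] [Algebra k' K'] [Algebra K K']
  [Algebra k K'] [IsScalarTower k k' K'] [IsScalarTower k K K']

omit [IsScalarTower ℚ_[p] k k'] in
/-- The inertia group of `Gal(k' / k)` has order prime to `p`. -/
theorem tame {n : ℕ} (hpn : ¬ p ∣ n) {c : k} (hc0 : c ≠ 0)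
    (hsp : IsSplittingField k k' (X ^ n - C c))
    (hcomp : IntermediateField.adjoin K (Set.range (algebraMap k' K')) = ⊤) (g : K' ≃ₐ[K] K')
    (hg : InertiaOf p k' g) : ¬ p ∣ orderOf g := by
  have hn0 : n ≠ 0 := by
    rintro rfl
    exact hpn (dvd_zero p)
  have hG : IsGalois k k' := isGalois_split p k k' hn0 hc0 hsp
  let _ : NormedField k' := spectralNorm.normedField ℚ_[p] k'
  let _ : NormedAlgebra ℚ_[p] k' := spectralNorm.normedAlgebra ℚ_[p] k'
  have hnm : ∀ x : k', ‖x‖ = spectralNorm ℚ_[p] k' x := fun _ => rfl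
  have hu : IsUltrametricDist k' :=
    IsUltrametricDist.isUltrametricDist_of_forall_norm_add_le_max_norm fun x y =>
      isNonarchimedean_spectralNorm (K := ℚ_[p]) (L := k') x y
  obtain ⟨σ, hσ⟩ := exists_res (k := k) (k' := k') g
  have hσ1 : ∀ x : k', ‖x‖ ≤ 1 → ‖σ x - x‖ < 1 := by
    intro x hx
    obtain ⟨d, hd, hd'⟩ := hg x hx
    rw [hσ] at hd'
    have h1 : σ x = x + d := (algebraMap k' K').injective hd'
    rw [h1, add_sub_cancel_left]
    exact hd
  have hcE : algebraMap k k' c ≠ 0 := (_root_.map_ne_zero _).2 hc0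
  have h1 : ∀ δ : k', δ ^ n = algebraMap k k' c → ∀ j : ℕ, (σ ^ j) δ = (σ δ / δ) ^ j * δ := by
    intro δ hδ
    have hδ0 : δ ≠ 0 := by
      rintro rfl
      rw [zero_pow hn0] at hδ
      exact hcE hδ.symm
    have h2 : (σ δ / δ) ^ n = 1 := by
      rw [div_pow, ← map_pow, hδ, σ.commutes, div_self hcE]
    have h3 : ‖σ δ / δ‖ = 1 := by
      have h4 : ‖σ δ / δ‖ ^ n = 1 := by rw [← norm_pow, h2, norm_one]
      exact (pow_eq_one_iff_of_nonneg (norm_nonneg _) hn0).1 h4
    have h0 : σ δ / δ ≠ 0 := norm_ne_zero_iff.1 (by rw [h3]; exact one_ne_zero)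
    have h4 : σ (σ δ / δ) = σ δ / δ := by
      have h5 : σ (σ δ / δ) / (σ δ / δ) = 1 := by
        apply root_eq (norm_nat p hpn)
        · rw [div_pow, ← map_pow, h2, map_one, div_one]
        · rw [div_sub_one h0, norm_div, h3, div_one]
          exact hσ1 _ h3.le
      exact (div_eq_one_iff_eq h0).1 h5
    intro j
    induction j with
    | zero => rw [pow_zero, pow_zero, one_mul]; rfl
    | succ j ih =>
      rw [pow_succ', AlgEquiv.mul_apply, ih, map_mul, map_pow, h4, pow_succ, mul_assoc,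
        div_mul_cancel₀ _ hδ0]
  have h2 : σ ^ n = 1 := by
    apply gen_split hsp
    intro δ hδ
    rw [h1 δ hδ n]
    rw [div_pow, ← map_pow, hδ, σ.commutes, div_self hcE, one_mul]
  have h3 : ∀ (j : ℕ) (x : k'), (g ^ j) (algebraMap k' K' x) = algebraMap k' K' ((σ ^ j) x) := by
    intro j
    induction j with
    | zero => intro x; rfl
    | succ j ih =>
      intro x
      rw [pow_succ, pow_succ, AlgEquiv.mul_apply, AlgEquiv.mul_apply, hσ, ih]
  have h4 : g ^ n = 1 := by
    apply eq_of_const hcomp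
    intro x
    rw [h3, h2]
    rfl
  exact fun h5 => hpn (h5.trans (orderOf_dvd_of_pow_eq_one h4))

/-- The inertia group of `Gal(k' / k)` moves the roots of `X ^ n - c`. -/
theorem ram [FiniteDimensional k k'] {n : ℕ} (hpn : ¬ p ∣ n) {c : k}
    (hsp : IsSplittingField k k' (X ^ n - C c))
    (hcomp : IntermediateField.adjoin K (Set.range (algebraMap k' K')) = ⊤)
    (hconst : ∀ x : K, IsAlgebraic k x → ∃ c : k, x = algebraMap k K c)
    (hc : ∀ b : k, spectralNorm ℚ_[p] k' (algebraMap k k' b) ^ n ≠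
      spectralNorm ℚ_[p] k' (algebraMap k k' c)) {γ : k'} (hγ : γ ^ n = algebraMap k k' c) :
    ∃ g : K' ≃ₐ[K] K', InertiaOf p k' g ∧ ∃ ζ : k', ζ ^ n = 1 ∧ ζ ≠ 1 ∧
      spectralNorm ℚ_[p] k' (ζ⁻¹ - 1) = 1 ∧
      g (algebraMap k' K' γ) = algebraMap k' K' (ζ * γ) := by
  have hn0 : n ≠ 0 := by
    rintro rfl
    exact hpn (dvd_zero p)
  let _ : NormedField k' := spectralNorm.normedField ℚ_[p] k'
  let _ : NormedAlgebra ℚ_[p] k' := spectralNorm.normedAlgebra ℚ_[p] k'
  have hnm : ∀ x : k', ‖x‖ = spectralNorm ℚ_[p] k' x := fun _ => rfl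
  have hc0 : c ≠ 0 := by
    rintro rfl
    refine hc 0 ?_
    rw [map_zero, ← hnm, norm_zero, zero_pow hn0]
  have hG : IsGalois k k' := isGalois_split p k k' hn0 hc0 hsp
  have hu : IsUltrametricDist k' :=
    IsUltrametricDist.isUltrametricDist_of_forall_norm_add_le_max_norm fun x y =>
      isNonarchimedean_spectralNorm (K := ℚ_[p]) (L := k') x y
  have hspK : IsSplittingField K K' (X ^ n - C (algebraMap k K c)) := isSplit_top hsp hcomp
  have hfin : FiniteDimensional K K' :=
    IsSplittingField.finiteDimensional K' (X ^ n - C (algebraMap k K c))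
  have hchar : CharZero k := charZero_of_injective_algebraMap (algebraMap ℚ_[p] k).injective
  have hcharK : CharZero K := charZero_of_injective_algebraMap (algebraMap k K).injective
  have hGK : IsGalois K K' := by
    refine IsGalois.of_separable_splitting_field (p := X ^ n - C (algebraMap k K c)) ?_
    exact separable_X_pow_sub_C _ (by exact_mod_cast hn0) ((_root_.map_ne_zero _).2 hc0)
  obtain ⟨σ, hσ, hσγ⟩ := exists_moving (k := k) (E := k')
    (fun σ x => (spectralNorm_eq_of_equiv (σ.restrictScalars ℚ_[p]) x).symm) hn0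
    (norm_nat p hpn) hγ (fun σ hσ => gen_split hsp σ hσ) hc
  obtain ⟨g, hg⟩ := exists_lift (K := K) (K' := K') hconst σ
  have hcE : algebraMap k k' c ≠ 0 := (_root_.map_ne_zero _).2 hc0
  have hγ0 : γ ≠ 0 := by
    rintro rfl
    rw [zero_pow hn0] at hγ
    exact hcE hγ.symm
  have hζ : (σ γ / γ) ^ n = 1 := by
    rw [div_pow, ← map_pow, hγ, σ.commutes, div_self hcE]
  have hζ1 : ‖σ γ / γ‖ = 1 := by
    have h4 : ‖σ γ / γ‖ ^ n = 1 := by rw [← norm_pow, hζ, norm_one]
    exact (pow_eq_one_iff_of_nonneg (norm_nonneg _) hn0).1 h4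
  have hne : σ γ / γ ≠ 1 := by
    intro h
    exact hσγ ((div_eq_one_iff_eq hγ0).1 h)
  refine ⟨g, ?_, σ γ / γ, hζ, hne, ?_, ?_⟩
  · intro x hx
    refine ⟨σ x - x, hσ x hx, ?_⟩
    rw [hg, add_sub_cancel]
  · rw [← hnm]
    refine le_antisymm ?_ ?_
    · rw [sub_eq_add_neg]
      refine (IsUltrametricDist.norm_add_le_max _ _).trans (max_le ?_ ?_)
      · rw [norm_inv, hζ1, inv_one]
      · rw [norm_neg, norm_one]
    · by_contra hlt
      have h5 := root_eq (norm_nat p hpn) (x := (σ γ / γ)⁻¹) (by rw [inv_pow, hζ, inv_one])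
        (not_le.1 hlt)
      exact hne (inv_eq_one.1 h5)
  · rw [hg, div_mul_cancel₀ _ hγ0]

end Final

end Pool.Agent.Lib.MP_c385f6_ag.TPG.Sup
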