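import Pool.Agent.Lib.MP_c385f6_ag.TPG.SupI
import Pool.Agent.Lib.MP_c385f6_ag.TPG.SupT
import Pool.Agent.Lib.MP_c385f6_ag.TPG.StThm

/-!
Project TPG, explicit family: the curves `y ^ n = c f(t)` have tame potentially good reduction.
-/

set_option autoImplicit false

open Polynomial

namespace Pool.Agent.Lib.MP_c385f6_ag.TPG.Sup

universe u v w

section gen

variable {k : Type v} {K : Type u} [Field k] [Field K] [Algebra k K]

theorem squarefree_C_mul {c : k} (hc : c ≠ 0) {f : k[X]} (hf : f.Separable) :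
    Squarefree (C c * f) :=
  (Separable.unit_mul (isUnit_C.2 (IsUnit.mk0 c hc)) hf).squarefree

theorem fin_of {t y : K} {n : ℕ} (hn : 0 < n) {f : k[X]} (hy : y ^ n = aeval t f)
    (hgen : IntermediateField.adjoin k {t, y} = ⊤) :
    FiniteDimensional (IntermediateField.adjoin k {t}) K := by
  set M := IntermediateField.adjoin k {t} with hM
  have ht : t ∈ M := IntermediateField.subset_adjoin _ _ rfl
  have h1 : aeval t f ∈ M := by
    rw [aeval_eq_sum_range]
    refine sum_mem fun i _ => ?_
    rw [Algebra.smul_def]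
    exact mul_mem (M.algebraMap_mem _) (pow_mem ht i)
  have hint : IsIntegral M y := by
    refine ⟨X ^ n - C (⟨aeval t f, h1⟩ : M), monic_X_pow_sub_C _ hn.ne', ?_⟩
    rw [eval₂_sub, eval₂_X_pow, eval₂_C, hy]
    exact sub_self _
  have h2 := IntermediateField.adjoin.finiteDimensional hint
  have h3 : IntermediateField.adjoin M {y} = ⊤ := by
    rw [eq_top_iff]
    intro x _
    have hx : x ∈ IntermediateField.adjoin k {t, y} := by
      rw [hgen]; trivial
    induction hx using IntermediateField.adjoin_induction with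
    | mem z hz =>
      rcases hz with rfl | rfl
      · exact (IntermediateField.adjoin M {y}).algebraMap_mem ⟨z, ht⟩
      · exact IntermediateField.subset_adjoin _ _ rfl
    | algebraMap c =>
      have h4 : algebraMap k K c ∈ M := M.algebraMap_mem c
      exact (IntermediateField.adjoin M {y}).algebraMap_mem ⟨algebraMap k K c, h4⟩
    | add a b _ _ ha hb => exact add_mem (ha trivial) (hb trivial)
    | inv a _ ha => exact inv_mem (ha trivial)
    | mul a b _ _ ha hb => exact mul_mem (ha trivial) (hb trivial)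
  rw [h3] at h2
  exact Module.Finite.equiv (IntermediateField.topEquiv (F := M) (E := K)).toLinearEquiv

end gen

section

variable (p : ℕ) [Fact p.Prime] (k k' : Type) {K : Type u} (K' : Type u) [Field k] [Field k']
  [Field K] [Field K'] [Algebra ℚ_[p] k] [FiniteDimensional ℚ_[p] k] [Algebra ℚ_[p] k']
  [FiniteDimensional ℚ_[p] k'] [Algebra k k'] [IsScalarTower ℚ_[p] k k'] [Algebra k K]
  [Algebra k' K'] [Algebra K K'] [Algebra k K'] [IsScalarTower k k' K'] [IsScalarTower k K K']

omit [Fact p.Prime] [Algebra ℚ_[p] k] [FiniteDimensional ℚ_[p] k] [Algebra ℚ_[p] k']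
  [FiniteDimensional ℚ_[p] k'] [IsScalarTower ℚ_[p] k k'] in
theorem gen' (hcomp : IntermediateField.adjoin K (Set.range (algebraMap k' K')) = ⊤) {t y : K}
    (hgen : IntermediateField.adjoin k {t, y} = ⊤) {γ : k'} (hγ : γ ≠ 0) :
    IntermediateField.adjoin k' {algebraMap K K' t, algebraMap K K' y * algebraMap k' K' γ⁻¹} =
      ⊤ := by
  set M := IntermediateField.adjoin k' {algebraMap K K' t, algebraMap K K' y *
    algebraMap k' K' γ⁻¹} with hM
  have hc : ∀ c : k, algebraMap K K' (algebraMap k K c) ∈ M := by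
    intro c
    rw [← IsScalarTower.algebraMap_apply k K K', IsScalarTower.algebraMap_apply k k' K']
    exact M.algebraMap_mem _
  have h1 : ∀ x : K, algebraMap K K' x ∈ M := by
    intro x
    have hx : x ∈ IntermediateField.adjoin k {t, y} := by
      rw [hgen]; trivial
    induction hx using IntermediateField.adjoin_induction with
    | mem z hz =>
      rcases hz with rfl | rfl
      · exact IntermediateField.subset_adjoin _ _ (by simp)
      · have h2 : algebraMap K K' z = algebraMap K K' z * algebraMap k' K' γ⁻¹ *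
            algebraMap k' K' γ := by
          rw [mul_assoc, ← map_mul, inv_mul_cancel₀ hγ, map_one, mul_one]
        have h3 : algebraMap K K' z * algebraMap k' K' γ⁻¹ ∈ M :=
          IntermediateField.subset_adjoin _ _ (by simp)
        rw [h2]
        exact mul_mem h3 (M.algebraMap_mem _)
    | algebraMap c => exact hc c
    | add a b _ _ ha hb => rw [map_add]; exact add_mem ha hb
    | inv a _ ha => rw [map_inv₀]; exact inv_mem ha
    | mul a b _ _ ha hb => rw [map_mul]; exact mul_mem ha hb
  rw [eq_top_iff]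
  intro x _
  have hx : x ∈ IntermediateField.adjoin K (Set.range (algebraMap k' K')) := by
    rw [hcomp]; trivial
  induction hx using IntermediateField.adjoin_induction with
  | mem z hz =>
    obtain ⟨c, rfl⟩ := hz
    exact M.algebraMap_mem _
  | algebraMap c => exact h1 c
  | add a b _ _ ha hb => exact add_mem (ha trivial) (hb trivial)
  | inv a _ ha => exact inv_mem (ha trivial)
  | mul a b _ _ ha hb => exact mul_mem (ha trivial) (hb trivial)

omit [Fact p.Prime] [Algebra ℚ_[p] k] [FiniteDimensional ℚ_[p] k] [Algebra ℚ_[p] k']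
  [FiniteDimensional ℚ_[p] k'] [IsScalarTower ℚ_[p] k k'] in
theorem trans' [Algebra.IsAlgebraic k k'] {t : K} (ht : Transcendental k t) :
    Transcendental k' (algebraMap K K' t) := by
  intro h
  have h1 : IsAlgebraic k (algebraMap K K' t) := h.restrictScalars k
  exact ht ((isAlgebraic_algebraMap_iff (algebraMap K K').injective).1 h1)

omit [Fact p.Prime] [Algebra ℚ_[p] k] [FiniteDimensional ℚ_[p] k] [Algebra ℚ_[p] k']
  [FiniteDimensional ℚ_[p] k'] [IsScalarTower ℚ_[p] k k'] in
theorem yn {n : ℕ} {c : k} (hc : c ≠ 0) {f : k[X]} {t y : K}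
    (hy : y ^ n = algebraMap k K c * aeval t f) {γ : k'} (hγ : γ ^ n = algebraMap k k' c) :
    (algebraMap K K' y * algebraMap k' K' γ⁻¹) ^ n =
      aeval (algebraMap K K' t) (f.map (algebraMap k k')) := by
  rw [mul_pow, ← map_pow, ← map_pow, hy, inv_pow, hγ, map_mul, map_inv₀,
    ← IsScalarTower.algebraMap_apply k k' K', ← IsScalarTower.algebraMap_apply k K K',
    aeval_map_algebraMap, aeval_algebraMap_apply, mul_comm (algebraMap k K' c), mul_assoc,
    mul_inv_cancel₀ (by rwa [Ne, map_eq_zero]), mul_one]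

/-- The curves `y ^ n = c f(t)`, `n` prime to `p`, `f` with good reduction, `|c|` not an `n`-th
power of an absolute value, have tame potentially good reduction. -/
theorem tamelyGood {n : ℕ} (hn : 2 ≤ n) (hp : ¬ p ∣ n) {f : k[X]}
    (hf : ∀ i, spectralNorm ℚ_[p] k (f.coeff i) ≤ 1)
    (hl : spectralNorm ℚ_[p] k f.leadingCoeff = 1)
    (hdisc : spectralNorm ℚ_[p] k f.discr = 1) (hd : 0 < f.natDegree) (hdvd : n ∣ f.natDegree)
    {c : k} (hc : ∀ b : k, spectralNorm ℚ_[p] k b ^ n ≠ spectralNorm ℚ_[p] k c)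
    (hsp : IsSplittingField k k' (X ^ n - C c))
    (hcomp : IntermediateField.adjoin K (Set.range (algebraMap k' K')) = ⊤) {t y : K}
    (ht : Transcendental k t) (hy : y ^ n = algebraMap k K c * aeval t f)
    (hgen : IntermediateField.adjoin k {t, y} = ⊤) : TamelyGood p k k' K' t := by
  have hn0 : 0 < n := by omega
  have c1 : CharZero k := charZero_of_injective_algebraMap (algebraMap ℚ_[p] k).injective
  have hc0 : c ≠ 0 := by
    rintro rfl
    refine hc 0 ?_
    rw [sn_zero, zero_pow hn0.ne']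
  obtain ⟨m, hm⟩ := hdvd
  have hm0 : 0 < m := by
    rcases Nat.eq_zero_or_pos m with rfl | h
    · omega
    · exact h
  have hfk : FiniteDimensional k k' := IsSplittingField.finiteDimensional k' (X ^ n - C c)
  have hy' : y ^ n = aeval t (C c * f) := by
    rw [hy, map_mul, aeval_C]
  have hconst : ∀ x : K, IsAlgebraic k x → ∃ c : k, x = algebraMap k K c := fun x hx =>
    consts hn hm0 (by exact_mod_cast hn0.ne') (squarefree_C_mul hc0 (sep_k p k hf hl hdisc hd))
      (by rw [natDegree_C_mul hc0, hm]) ht hy' hgen hx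
  obtain ⟨γ, hγ⟩ : ∃ γ : k', γ ^ n = algebraMap k k' c := by
    have h1 : ((X ^ n - C c : k[X]).map (algebraMap k k')).Splits := hsp.splits'
    have h2 : ((X ^ n - C c : k[X]).map (algebraMap k k')).degree ≠ 0 := by
      rw [Polynomial.map_sub, Polynomial.map_pow, map_X, map_C, degree_X_pow_sub_C hn0]
      exact_mod_cast hn0.ne'
    obtain ⟨γ, hγ⟩ := h1.exists_eval_eq_zero h2
    refine ⟨γ, ?_⟩
    rw [eval_map, eval₂_sub, eval₂_X_pow, eval₂_C, sub_eq_zero] at hγ
    exact hγ
  have hγ0 : γ ≠ 0 := by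
    rintro rfl
    rw [zero_pow hn0.ne'] at hγ
    exact hc0 ((algebraMap k k').injective (by rw [← hγ, map_zero]))
  obtain ⟨g, hg, hgs, hgs', hgd, hgl⟩ := data p k k' hf hl hdisc hd
  have ht' := trans' (k := k) (k' := k') (K' := K') ht
  set y' : K' := algebraMap K K' y * algebraMap k' K' γ⁻¹ with hy'd
  have hyn : y' ^ n = psi p k' (algebraMap K K' t) g := by
    rw [psi_apply, hg]
    exact yn (k := k) (k' := k') (K' := K') hc0 hy hγ
  have hgen' := gen' (k := k) k' K' hcomp hgen hγ0
  refine ⟨ht, fin_of hn0 hy' hgen, hconst, hcomp, ?_, ?_, ?_⟩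
  · exact good p k' hn hm0 hp hgs hgs' (by rw [hgd, hm]) hgl ht' hyn hgen'
  · intro σ hσ
    exact tame p k k' K' hp hc0 hsp hcomp σ hσ
  · obtain ⟨σ, hσ, ζ, hζ, hζ1, hζn, hσγ⟩ := ram p k k' K' hp hsp hcomp hconst (fun b => by
      rw [sn_ext, sn_ext]
      exact hc b) hγ
    have hym : y' ∈ modelRing p k' (algebraMap K K' t) := by
      rw [int_iff]
      refine ⟨X ^ n - C g, monic_X_pow_sub_C _ hn0.ne', ?_⟩
      rw [eval₂_sub, eval₂_X_pow, eval₂_C, hyn, sub_self]
    have hζm : algebraMap k' K' (ζ⁻¹ - 1) ∈ modelRing p k' (algebraMap K K' t) :=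
      c_mem p k' _ ⟨ζ⁻¹ - 1, hζn.le⟩
    refine ⟨σ, hσ, ⟨y', hym⟩, ⟨algebraMap k' K' (ζ⁻¹ - 1) * y', mul_mem hζm hym⟩, ?_, ?_⟩
    · change σ y' = y' + algebraMap k' K' (ζ⁻¹ - 1) * y'
      have h1 : σ (algebraMap k' K' γ⁻¹) = algebraMap k' K' ζ⁻¹ * algebraMap k' K' γ⁻¹ := by
        rw [map_inv₀, map_inv₀, hσγ, map_mul, mul_inv, map_inv₀]
      rw [hy'd, map_mul, h1, σ.commutes, map_sub, map_one]
      ring
    · intro hb
      have hu : algebraMap k' K' (ζ⁻¹ - 1)⁻¹ ∈ modelRing p k' (algebraMap K K' t) := by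
        refine c_mem p k' _ ⟨(ζ⁻¹ - 1)⁻¹, ?_⟩
        rw [mem_O, sn_inv, hζn, inv_one]
      have hne : ζ⁻¹ - 1 ≠ 0 := by
        intro h0
        rw [h0, sn_zero] at hζn
        exact zero_ne_one hζn
      have h1 : (⟨y', hym⟩ : modelRing p k' (algebraMap K K' t)) ∈
          modelIdeal p k' (algebraMap K K' t) := by
        have h2 := Ideal.mul_mem_left _ (⟨_, hu⟩ : modelRing p k' (algebraMap K K' t)) hb
        convert h2 using 1
        apply Subtype.ext
        change y' = algebraMap k' K' (ζ⁻¹ - 1)⁻¹ * (algebraMap k' K' (ζ⁻¹ - 1) * y')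
        rw [← mul_assoc, ← map_mul, inv_mul_cancel₀ hne, map_one, one_mul]
      have hgu : ¬ IsUnit g := by
        intro h
        have := natDegree_eq_zero_of_isUnit h
        omega
      obtain ⟨e, -, he⟩ := chart p k' hn hp hgs hgu ht' hyn hgen'
      have h2 := he ⟨y', hym⟩ rfl
      rw [Ideal.Quotient.eq_zero_iff_mem.2 h1, map_zero] at h2
      have h3 := AdjoinRoot.eval₂_root (X ^ n - C (red p k' g) :
        (IsLocalRing.ResidueField (O p k'))[X][X])
      rw [eval₂_sub, eval₂_X_pow, eval₂_C, ← h2, zero_pow hn0.ne', zero_sub, neg_eq_zero] at h3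
      have hinj : Function.Injective (AdjoinRoot.of (X ^ n - C (red p k' g) :
          (IsLocalRing.ResidueField (O p k'))[X][X])) := by
        apply AdjoinRoot.of.injective_of_degree_ne_zero
        rw [degree_X_pow_sub_C hn0]
        exact_mod_cast hn0.ne'
      exact hgs'.ne_zero (hinj (by rw [h3, map_zero]))

end

end Pool.Agent.Lib.MP_c385f6_ag.TPG.Sup
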