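import Pool.Agent.Lib.MP_c385f6_ag.TPG.SupO

/-!
Project TPG, explicit family: the model on a chart, and good models.
-/

set_option autoImplicit false

open Polynomial

namespace Pool.Agent.Lib.MP_c385f6_ag.TPG.Sup

universe u v w

variable (p : ℕ) [Fact p.Prime] (k : Type) [Field k] [Algebra ℚ_[p] k] [FiniteDimensional ℚ_[p] k]

/-- The residue field. -/
abbrev RF : Type := IsLocalRing.ResidueField (O p k)

/-- `O[X] → E`, `X ↦ z`. -/
noncomputable def psi {E : Type u} [Field E] [Algebra k E] (z : E) : (O p k)[X] →+* E :=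
  eval₂RingHom ((algebraMap k E).comp (algebraMap (O p k) k)) z

/-- Reduction of polynomials. -/
noncomputable def red : (O p k)[X] →+* (RF p k)[X] := mapRingHom (IsLocalRing.residue (O p k))

variable {E : Type u} [Field E] [Algebra k E]

theorem psi_apply (z : E) (g : (O p k)[X]) :
    psi p k z g = aeval z (g.map (algebraMap (O p k) k)) := by
  rw [psi, coe_eval₂RingHom, aeval_def, eval₂_map]

theorem psi_C (z : E) (c : O p k) : psi p k z (C c) = algebraMap k E c := by
  rw [psi, coe_eval₂RingHom, eval₂_C]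
  rfl

theorem psi_X (z : E) : psi p k z X = z := by
  rw [psi, coe_eval₂RingHom, eval₂_X]

theorem psi_inj {z : E} (hz : Transcendental k z) : Function.Injective (psi p k z) := by
  rw [injective_iff_map_eq_zero]
  intro g hg
  rw [psi_apply] at hg
  have h1 := (transcendental_iff.1 hz) _ hg
  exact (Polynomial.map_eq_zero_iff (IsFractionRing.injective (O p k) k)).1 h1

theorem psi_range (z : E) : (psi p k z).range =
    Subring.closure (insert z (algebraMap k E '' {c : k | spectralNorm ℚ_[p] k c ≤ 1})) := by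
  apply le_antisymm
  · rintro x ⟨g, rfl⟩
    rw [psi, coe_eval₂RingHom, eval₂_eq_sum_range]
    refine Subring.sum_mem _ fun i _ => Subring.mul_mem _ ?_ (Subring.pow_mem _ ?_ _)
    · exact Subring.subset_closure (Set.mem_insert_of_mem _ ⟨(g.coeff i : k), (g.coeff i).2, rfl⟩)
    · exact Subring.subset_closure (Set.mem_insert _ _)
  · rw [Subring.closure_le]
    rintro x (rfl | ⟨c, hc, rfl⟩)
    · exact ⟨X, psi_X p k x⟩
    · exact ⟨C ⟨c, hc⟩, psi_C p k z ⟨c, hc⟩⟩

theorem int_iff (z x : E) : x ∈ modelRing p k z ↔ (psi p k z).IsIntegralElem x := by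
  change IsIntegral (Subring.closure (insert z
    (algebraMap k E '' {c : k | spectralNorm ℚ_[p] k c ≤ 1}))) x ↔ _
  rw [← psi_range]
  constructor
  · rintro ⟨g, hg, hgx⟩
    obtain ⟨q, hq1, -, hq3⟩ := lifts_and_degree_eq_and_monic
      (f := (psi p k z).rangeRestrict) (p := g)
      ((lifts_iff_coeff_lifts (f := (psi p k z).rangeRestrict) g).2 fun i =>
        (psi p k z).rangeRestrict_surjective _) hg
    refine ⟨q, hq3, ?_⟩
    rw [← hq1, eval₂_map] at hgx
    exact hgx
  · rintro ⟨g, hg, hgx⟩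
    refine ⟨g.map (psi p k z).rangeRestrict, hg.map _, ?_⟩
    rw [eval₂_map]
    exact hgx

theorem gen {z y : E} (h : IntermediateField.adjoin k {z, y} = ⊤) :
    Subfield.closure (insert y (Set.range (psi p k z))) = ⊤ := by
  rw [eq_top_iff]
  intro x _
  have h1 : (IntermediateField.adjoin k {z, y}).toSubfield ≤
      Subfield.closure (insert y (Set.range (psi p k z))) := by
    rw [IntermediateField.adjoin_toSubfield, Subfield.closure_le]
    rintro x (⟨c, rfl⟩ | rfl | rfl)
    · obtain ⟨a, b, hb, rfl⟩ := IsFractionRing.div_surjective (A := O p k) c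
      rw [map_div₀]
      refine div_mem ?_ ?_ <;>
      exact Subfield.subset_closure (Set.mem_insert_of_mem _ ⟨C _, psi_C p k z _⟩)
    · exact Subfield.subset_closure (Set.mem_insert_of_mem _ ⟨X, psi_X p k x⟩)
    · exact Subfield.subset_closure (Set.mem_insert _ _)
  rw [h] at h1
  exact h1 trivial

theorem z_mem (z : E) : z ∈ modelRing p k z := by
  rw [int_iff]
  exact ⟨X - C X, monic_X_sub_C _, by rw [eval₂_sub, eval₂_X, eval₂_C, psi_X, sub_self]⟩

theorem c_mem (z : E) (c : O p k) : algebraMap k E c ∈ modelRing p k z := by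
  rw [int_iff]
  exact ⟨X - C (C c), monic_X_sub_C _, by rw [eval₂_sub, eval₂_X, eval₂_C, psi_C, sub_self]⟩

theorem modelIdeal_eq (z : E) : modelIdeal p k z = Ideal.span {a : modelRing p k z |
    ∃ i : (O p k)[X], red p k i = 0 ∧ (a : E) = psi p k z i} := by
  apply le_antisymm
  · rw [modelIdeal, Ideal.span_le]
    rintro a ⟨c, hc, hac⟩
    have h1 : IsLocalRing.residue (O p k) ⟨c, hc.le⟩ = 0 := (res_eq_zero_iff p k ⟨c, hc.le⟩).2 hc
    refine Ideal.subset_span ⟨C ⟨c, hc.le⟩, ?_, ?_⟩
    · rw [red, coe_mapRingHom, Polynomial.map_C, h1, map_zero]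
    · rw [psi_C, hac]
  · rw [Ideal.span_le]
    rintro a ⟨i, hi, hai⟩
    rw [SetLike.mem_coe]
    let ζ : modelRing p k z := ⟨z, z_mem p k z⟩
    let γ : O p k → modelRing p k z := fun c => ⟨algebraMap k E c, c_mem p k z c⟩
    have h1 : a = ∑ j ∈ Finset.range (i.natDegree + 1), γ (i.coeff j) * ζ ^ j := by
      apply Subtype.ext
      rw [hai, psi, coe_eval₂RingHom, eval₂_eq_sum_range]
      have h2 := map_sum (modelRing p k z).subtype
        (fun j => γ (i.coeff j) * ζ ^ j) (Finset.range (i.natDegree + 1))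
      rw [Subring.subtype_apply] at h2
      rw [h2]
      refine Finset.sum_congr rfl fun j _ => ?_
      rw [map_mul, map_pow]
      rfl
    rw [h1]
    refine Ideal.sum_mem _ fun j _ => Ideal.mul_mem_right _ _ (Ideal.subset_span ⟨i.coeff j, ?_, rfl⟩)
    rw [← res_eq_zero_iff]
    have := congrArg (fun F => coeff F j) hi
    simpa [red] using this

/-- The model on a chart. -/
theorem chart {n : ℕ} (hn : 2 ≤ n) (hp : ¬ p ∣ n) {h : (O p k)[X]} (hs : Squarefree h)
    (hh : ¬ IsUnit h) {z y : E} (hz : Transcendental k z) (hy : y ^ n = psi p k z h)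
    (hgen : IntermediateField.adjoin k {z, y} = ⊤) :
    ∃ e : (modelRing p k z ⧸ modelIdeal p k z) ≃+*
        AdjoinRoot (X ^ n - C (red p k h) : (RF p k)[X][X]),
      (∀ (a : modelRing p k z) (r : (O p k)[X]), (a : E) = psi p k z r →
        e (Ideal.Quotient.mk _ a) = AdjoinRoot.of _ (red p k r)) ∧
      ∀ a : modelRing p k z, (a : E) = y → e (Ideal.Quotient.mk _ a) = AdjoinRoot.root _ := by
  refine exists_equiv (psi p k z) (psi_inj p k hz) (red p k) ?_ (by omega) ?_ hs hh hy
    (gen p k hgen) (modelRing p k z) (int_iff p k z) (modelIdeal p k z) (modelIdeal_eq p k z)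
  · exact map_surjective _ IsLocalRing.residue_surjective
  · rw [← C_eq_natCast]
    exact isUnit_C.2 (nat_unit p k hp)

theorem natK {n : ℕ} (hp : ¬ p ∣ n) : (n : RF p k) ≠ 0 := by
  have h1 := (nat_unit p k hp).map (IsLocalRing.residue (O p k))
  rw [map_natCast] at h1
  exact h1.ne_zero

end Pool.Agent.Lib.MP_c385f6_ag.TPG.Sup
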