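import Pool.Agent.Lib.MP_c385f6_ag.TPG.SupG
import Pool.Agent.Lib.MP_c385f6_ag.TPG.SupD

/-!
Project TPG, explicit family: good models.
-/

set_option autoImplicit false

open Polynomial

namespace Pool.Agent.Lib.MP_c385f6_ag.TPG.Sup

universe u v w

variable (p : ℕ) [Fact p.Prime] (k : Type) [Field k] [Algebra ℚ_[p] k] [FiniteDimensional ℚ_[p] k]

variable {E : Type u} [Field E] [Algebra k E]

/-- Good models of the curves `y ^ n = f(t)`. -/
theorem good {n m : ℕ} (hn : 2 ≤ n) (hm : 0 < m) (hp : ¬ p ∣ n) {f : (O p k)[X]}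
    (hs : Squarefree f) (hs' : Squarefree (red p k f)) (hd : f.natDegree = n * m)
    (hl : IsUnit f.leadingCoeff) {t y : E} (ht : Transcendental k t) (hy : y ^ n = psi p k t f)
    (hgen : IntermediateField.adjoin k {t, y} = ⊤) : GoodModel p k t := by
  have hn0 : 0 < n := by omega
  have ht0 : t ≠ 0 := by
    rintro rfl
    exact ht isAlgebraic_zero
  have hti : Transcendental k t⁻¹ := by
    intro h
    exact ht (by simpa using h.inv)
  have hd2 : 2 ≤ f.natDegree := by
    rw [hd]
    nlinarith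
  have hfu : ¬ IsUnit f := by
    intro h
    have := natDegree_eq_zero_of_isUnit h
    omega
  have hlr : IsLocalRing.residue (O p k) f.leadingCoeff ≠ 0 :=
    (hl.map (IsLocalRing.residue (O p k))).ne_zero
  have hdr : (red p k f).natDegree = n * m := by
    rw [← hd, red, coe_mapRingHom]
    exact natDegree_map_of_leadingCoeff_ne_zero _ hlr
  have hd2' : 2 ≤ (red p k f).natDegree := by omega
  have hfu' : ¬ IsUnit (red p k f) := by
    intro h
    have := natDegree_eq_zero_of_isUnit h
    omega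
  have hnk := natK p k hp
  have hu : IsUnit (n : (RF p k)[X]) := by
    rw [← C_eq_natCast]
    exact isUnit_C.2 (IsUnit.mk0 _ hnk)
  have hrr : red p k f.reverse = (red p k f).reverse := by
    rw [red, coe_mapRingHom, reverse, reverse, reflect_map,
      natDegree_map_of_leadingCoeff_ne_zero _ hlr]
  -- the second chart
  have hy2 : (y * t⁻¹ ^ m) ^ n = psi p k t⁻¹ f.reverse := by
    let _ : Invertible t := invertibleOfNonzero ht0
    have h1 := eval₂_reverse_mul_pow ((algebraMap k E).comp (algebraMap (O p k) k)) t f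
    rw [invOf_eq_inv] at h1
    rw [mul_pow, hy, psi, psi, coe_eval₂RingHom, coe_eval₂RingHom, ← h1, hd, ← pow_mul,
      mul_comm m n, mul_assoc, ← mul_pow, mul_inv_cancel₀ ht0, one_pow, mul_one]
  have hgen2 : IntermediateField.adjoin k {t⁻¹, y * t⁻¹ ^ m} = ⊤ := by
    rw [eq_top_iff, ← hgen, IntermediateField.adjoin_le_iff]
    have h1 : t⁻¹ ∈ IntermediateField.adjoin k {t⁻¹, y * t⁻¹ ^ m} :=
      IntermediateField.subset_adjoin _ _ (by simp)
    have h2 : t ∈ IntermediateField.adjoin k {t⁻¹, y * t⁻¹ ^ m} := by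
      simpa using inv_mem h1
    rintro x (rfl | rfl)
    · exact h2
    · have h3 : x = x * t⁻¹ ^ m * t ^ m := by
        rw [mul_assoc, ← mul_pow, inv_mul_cancel₀ ht0, one_pow, mul_one]
      have h4 : x * t⁻¹ ^ m * t ^ m ∈ IntermediateField.adjoin k {t⁻¹, x * t⁻¹ ^ m} :=
        mul_mem (IntermediateField.subset_adjoin _ _ (by simp)) (pow_mem h2 m)
      rwa [← h3] at h4
  obtain ⟨e, he1, he2⟩ := chart p k hn hp hs hfu ht hy hgen
  obtain ⟨e', he1', he2'⟩ := chart p k hn hp (sqf_reverse hs) (not_unit_reverse hs hd2) hti hy2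
    hgen2
  have hsr : Squarefree (red p k f.reverse) := by
    rw [hrr]
    exact sqf_reverse hs'
  have hur : ¬ IsUnit (red p k f.reverse) := by
    rw [hrr]
    exact not_unit_reverse hs' hd2'
  have D1 := dom hn0 hs' hfu'
  have D2 := dom hn0 hsr hur
  have I1 := icl hn0 hu hs' hfu'
  have I2 := icl hn0 hu hsr hur
  refine ⟨?_, ?_, ?_⟩
  · rintro z (rfl | rfl)
    · exact e.toMulEquiv.isDomain _
    · exact e'.toMulEquiv.isDomain _
  · rintro z (rfl | rfl)
    · exact IsIntegrallyClosed.of_equiv e.symm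
    · exact IsIntegrallyClosed.of_equiv e'.symm
  · intro a ha
    have hinj : Function.Injective (AdjoinRoot.of (X ^ n - C (red p k f) : (RF p k)[X][X])) := by
      apply AdjoinRoot.of.injective_of_degree_ne_zero
      rw [degree_X_pow_sub_C hn0]
      exact_mod_cast hn0.ne'
    have hroot : AdjoinRoot.root (X ^ n - C (red p k f) : (RF p k)[X][X]) ^ n =
        AdjoinRoot.of _ (red p k f) := by
      have h1 := AdjoinRoot.eval₂_root (X ^ n - C (red p k f) : (RF p k)[X][X])
      rw [eval₂_sub, eval₂_X_pow, eval₂_C, sub_eq_zero] at h1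
      exact h1
    obtain ⟨g, hg, hga⟩ := ha
    have hint : eval₂ (Int.castRingHom _) (e a) g = 0 := by
      have h3 := congrArg e.toRingHom hga
      rw [hom_eval₂, map_zero] at h3
      rw [← h3]
      congr 1
      exact (RingHom.ext_int _ _)
    obtain ⟨c, hc⟩ := constsB hn hm hnk hs' hdr _ hinj hroot (fun b => by
      obtain ⟨g, rfl⟩ := AdjoinRoot.mk_surjective b
      exact ⟨g, by rw [← AdjoinRoot.aeval_eq, aeval_def]; rfl⟩) hg hint
    obtain ⟨c', rfl⟩ := IsLocalRing.residue_surjective c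
    refine ⟨⟨algebraMap k E c', c_mem p k t c'⟩, c', rfl, e.injective ?_⟩
    rw [he1 _ (C c') (by rw [psi_C])]
    rw [hc, red, coe_mapRingHom, Polynomial.map_C]

end Pool.Agent.Lib.MP_c385f6_ag.TPG.Sup
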