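import Pool.Agent.Lib.MP_c385f6_ag.TPG.SupH

/-!
Project TPG, explicit family: polynomials over the ring of integers and their discriminants.
-/

set_option autoImplicit false

open Polynomial

namespace Pool.Agent.Lib.MP_c385f6_ag.TPG.Sup

universe u v w

theorem sep_of_res {R : Type u} [CommRing R] {f : R[X]} (hd : 0 < f.natDegree)
    (h : IsUnit (resultant f (derivative f) f.natDegree (f.natDegree - 1))) : f.Separable := by
  obtain ⟨a, b, -, -, hab⟩ := exists_mul_add_mul_eq_C_resultant f (derivative f)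
    (m := f.natDegree) (n := f.natDegree - 1) le_rfl (natDegree_derivative_le f) (Or.inl hd.ne')
  obtain ⟨u, hu⟩ := h
  refine ⟨C (↑u⁻¹ : R) * a, C (↑u⁻¹ : R) * b, ?_⟩
  have h1 : C (↑u⁻¹ : R) * (f * a + derivative f * b) = 1 := by
    rw [hab, ← hu, ← C_mul, Units.inv_mul, C_1]
  rw [← h1]
  ring

variable (p : ℕ) [Fact p.Prime] (k : Type) [Field k] [Algebra ℚ_[p] k] [FiniteDimensional ℚ_[p] k]

/-- A polynomial with integral coefficients as a polynomial over the ring of integers. -/
theorem exists_lift_O {f : k[X]} (hf : ∀ i, spectralNorm ℚ_[p] k (f.coeff i) ≤ 1) :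
    ∃ g : (O p k)[X], g.map (algebraMap (O p k) k) = f ∧ g.natDegree = f.natDegree := by
  have h1 : f ∈ lifts (algebraMap (O p k) k) := by
    rw [lifts_iff_coeff_lifts]
    intro i
    exact ⟨⟨f.coeff i, hf i⟩, rfl⟩
  obtain ⟨g, hg⟩ := (mem_lifts f).1 h1
  refine ⟨g, hg, ?_⟩
  rw [← hg]
  exact (natDegree_map_eq_of_injective (IsFractionRing.injective (O p k) k) g).symm

theorem lc_lift {f : k[X]} {g : (O p k)[X]} (hg : g.map (algebraMap (O p k) k) = f)
    (hl : spectralNorm ℚ_[p] k f.leadingCoeff = 1) : IsUnit g.leadingCoeff := by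
  rw [unit_iff, ← hl, ← hg, leadingCoeff_map_of_injective (IsFractionRing.injective (O p k) k)]
  rfl

theorem sep_lift {f : k[X]} {g : (O p k)[X]} (hg : g.map (algebraMap (O p k) k) = f)
    (hl : spectralNorm ℚ_[p] k f.leadingCoeff = 1)
    (hdisc : spectralNorm ℚ_[p] k f.discr = 1) (hd : 0 < f.natDegree) : g.Separable := by
  have hinj : Function.Injective (algebraMap (O p k) k) := IsFractionRing.injective (O p k) k
  have hdg : g.natDegree = f.natDegree := by
    rw [← hg]
    exact (natDegree_map_eq_of_injective hinj g).symm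
  apply sep_of_res (by rw [hdg]; exact hd)
  rw [unit_iff]
  have h1 : ((resultant g (derivative g) g.natDegree (g.natDegree - 1) : O p k) : k) =
      resultant f (derivative f) f.natDegree (f.natDegree - 1) := by
    have h2 := resultant_map_map g (derivative g) g.natDegree (g.natDegree - 1)
      (algebraMap (O p k) k)
    rw [hg, ← derivative_map, hg, hdg] at h2
    rw [h2, hdg]
    rfl
  rw [h1, resultant_deriv (natDegree_pos_iff_degree_pos.1 hd), sn_mul, sn_mul, hl, hdisc, sn_pow,
    sn_neg, sn_one]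
  simp

section ext

variable (k' : Type) [Field k'] [Algebra ℚ_[p] k'] [FiniteDimensional ℚ_[p] k'] [Algebra k k']
  [IsScalarTower ℚ_[p] k k']

omit [FiniteDimensional ℚ_[p] k] [FiniteDimensional ℚ_[p] k'] in
theorem sn_ext (c : k) : spectralNorm ℚ_[p] k' (algebraMap k k' c) = spectralNorm ℚ_[p] k c :=
  (spectralNorm.eq_of_tower (K := ℚ_[p]) (E := k) (L := k') c).symm

/-- `O_k → O_k'` -/
noncomputable def extO : O p k →+* O p k' :=
  ((algebraMap k k').comp (algebraMap (O p k) k)).codRestrict (O p k').toSubring fun c => by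
    change spectralNorm ℚ_[p] k' (algebraMap k k' c) ≤ 1
    rw [sn_ext]
    exact c.2

theorem extO_val (c : O p k) : ((extO p k k' c : O p k') : k') = algebraMap k k' c := rfl

theorem extO_comp : (algebraMap (O p k') k').comp (extO p k k') =
    (algebraMap k k').comp (algebraMap (O p k) k) := rfl

theorem extO_inj : Function.Injective (extO p k k') := by
  intro a b h
  have h1 := congrArg (fun x : O p k' => (x : k')) h
  exact Subtype.ext ((algebraMap k k').injective h1)

/-- Everything about a polynomial with good reduction, over `O_k'`. -/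
theorem data {f : k[X]} (hf : ∀ i, spectralNorm ℚ_[p] k (f.coeff i) ≤ 1)
    (hl : spectralNorm ℚ_[p] k f.leadingCoeff = 1)
    (hdisc : spectralNorm ℚ_[p] k f.discr = 1) (hd : 0 < f.natDegree) :
    ∃ g : (O p k')[X], g.map (algebraMap (O p k') k') = f.map (algebraMap k k') ∧
      Squarefree g ∧ Squarefree (red p k' g) ∧ g.natDegree = f.natDegree ∧
      IsUnit g.leadingCoeff := by
  obtain ⟨g, hg, hgd⟩ := exists_lift_O p k hf
  have hs := sep_lift p k hg hl hdisc hd
  have hgl := lc_lift p k hg hl
  have hs' : (g.map (extO p k k')).Separable := hs.map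
  have hl' : (g.map (extO p k k')).leadingCoeff = extO p k k' g.leadingCoeff :=
    leadingCoeff_map_of_injective (extO_inj p k k') g
  refine ⟨g.map (extO p k k'), ?_, hs'.squarefree, ?_, ?_, ?_⟩
  · rw [Polynomial.map_map, extO_comp, ← Polynomial.map_map, hg]
  · exact hs'.map.squarefree
  · rw [natDegree_map_eq_of_injective (extO_inj p k k'), hgd]
  · rw [hl']
    exact hgl.map _

end ext

theorem sep_k {f : k[X]} (hf : ∀ i, spectralNorm ℚ_[p] k (f.coeff i) ≤ 1)
    (hl : spectralNorm ℚ_[p] k f.leadingCoeff = 1)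
    (hdisc : spectralNorm ℚ_[p] k f.discr = 1) (hd : 0 < f.natDegree) : f.Separable := by
  obtain ⟨g, hg, -⟩ := exists_lift_O p k hf
  rw [← hg]
  exact (sep_lift p k hg hl hdisc hd).map

end Pool.Agent.Lib.MP_c385f6_ag.TPG.Sup
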