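import Mathlib

/-!
Project TPG, explicit family: the curve `y ^ n = c f(t)`, `f` separable, `n` a divisor of the degree
of `f`, `n ≥ 2`, `deg f ≥ 3`, is not rational in characteristic zero.
-/

set_option autoImplicit false

open Polynomial

namespace Pool.Agent.Lib.MP_c385f6_ag.TPG.Sup

universe u v

section Poly

variable {C : Type u} [Field C]

theorem wr (A B : C[X]) (a b : C) :
    wronskian (A - Polynomial.C a * B) (A - Polynomial.C b * B) =
      Polynomial.C (a - b) * wronskian A B := by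
  simp only [wronskian, derivative_mul, derivative_C, zero_mul, zero_add, map_sub]
  ring

theorem cop {A B : C[X]} (h : IsCoprime A B) {a b : C} (hab : a ≠ b) :
    IsCoprime (A - Polynomial.C a * B) (A - Polynomial.C b * B) := by
  obtain ⟨x, y, hxy⟩ := h
  have h0 : a - b ≠ 0 := sub_ne_zero.2 hab
  have h1 : (Polynomial.C (a - b)⁻¹ : C[X]) * (Polynomial.C a - Polynomial.C b) = 1 := by
    rw [← Polynomial.C_sub, ← Polynomial.C_mul, inv_mul_cancel₀ h0, Polynomial.C_1]
  refine ⟨-(Polynomial.C (a - b)⁻¹ * (x * Polynomial.C b + y)),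
    Polynomial.C (a - b)⁻¹ * (x * Polynomial.C a + y), ?_⟩
  calc _ = (Polynomial.C (a - b)⁻¹ * (Polynomial.C a - Polynomial.C b)) * (x * A + y * B) := by
        ring
    _ = 1 := by rw [h1, hxy, one_mul]

theorem natDegree_of_assoc {P u : C[X]} {n : ℕ} (h : Associated (u ^ n) P) :
    P.natDegree = n * u.natDegree := by
  rw [← natDegree_eq_of_degree_eq (degree_eq_degree_of_associated h), natDegree_pow]

theorem pow_dvd_der {P u : C[X]} {n : ℕ} (hn : 1 ≤ n) (h : Associated (u ^ n) P) :
    u ^ (n - 1) ∣ P ∧ u ^ (n - 1) ∣ derivative P := by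
  obtain ⟨w, hw⟩ := h
  obtain ⟨m, rfl⟩ := Nat.exists_eq_add_of_le' hn
  rw [Nat.add_sub_cancel]
  constructor
  · rw [← hw, pow_succ, mul_assoc]
    exact dvd_mul_right _ _
  · rw [← hw, derivative_mul, derivative_pow_succ, pow_succ]
    exact ⟨(Polynomial.C ((m : C) + 1) * derivative u) * w + u * derivative (w : C[X]), by ring⟩

/-- Pairwise coprime members of a pencil that are `n`-th powers up to units: at most `3` for `n = 2`,
at most `2` for `n ≥ 3`. -/
theorem pencil [CharZero C] {A B : C[X]} (h : IsCoprime A B) (hW : wronskian A B ≠ 0) {n : ℕ}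
    (hn : 2 ≤ n) (S : Finset C)
    (hS : ∀ a ∈ S, ∃ u : C[X], Associated (u ^ n) (A - Polynomial.C a * B)) (h2 : 2 ≤ S.card) :
    S.card * (n - 1) < 2 * n := by
  classical
  choose! u hu using hS
  set M := ∑ a ∈ S, (u a).natDegree with hM
  have hu0 : ∀ a ∈ S, u a ≠ 0 := by
    intro a ha h0
    obtain ⟨b, hb, hab⟩ : ∃ b ∈ S, b ≠ a := Finset.exists_mem_ne (by omega) a
    have h1 := hu a ha
    rw [h0, zero_pow (by omega), Associated.comm, associated_zero_iff_eq_zero] at h1
    have h3 := wr A B a b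
    rw [h1, wronskian_zero_left, eq_comm, mul_eq_zero, Polynomial.C_eq_zero, sub_eq_zero] at h3
    exact h3.elim (fun h4 => hab h4.symm) hW
  have hdiv : ∏ a ∈ S, (u a) ^ (n - 1) ∣ wronskian A B := by
    refine Finset.prod_dvd_of_coprime ?_ ?_
    · intro a ha b hb hab
      have h1 := cop h hab
      obtain ⟨w, hw⟩ := hu a ha
      obtain ⟨w', hw'⟩ := hu b hb
      rw [← hw, ← hw'] at h1
      have h3 := (h1.of_mul_left_left).of_mul_right_left
      exact (IsCoprime.pow_iff (by omega) (by omega)).1 h3 |>.pow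
    · intro a ha
      obtain ⟨b, hb, hab⟩ : ∃ b ∈ S, b ≠ a := Finset.exists_mem_ne (by omega) a
      have h1 : (u a) ^ (n - 1) ∣ Polynomial.C (a - b) * wronskian A B := by
        rw [← wr, wronskian]
        obtain ⟨h3, h4⟩ := pow_dvd_der (by omega) (hu a ha)
        exact dvd_sub (h3.mul_right _) (h4.mul_right _)
      have h5 : IsUnit (Polynomial.C (a - b) : C[X]) :=
        (isUnit_iff_ne_zero.2 (sub_ne_zero.2 hab.symm)).map Polynomial.C
      exact (h5.dvd_mul_left).1 h1
  have hdeg : (n - 1) * M ≤ (wronskian A B).natDegree := by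
    have h3 := natDegree_le_of_dvd hdiv hW
    rw [natDegree_prod _ _ fun a ha => pow_ne_zero _ (hu0 a ha)] at h3
    simpa only [natDegree_pow, ← Finset.mul_sum] using h3
  have hlt : ∀ a ∈ S, ∀ b ∈ S, a ≠ b → (n - 1) * M < n * ((u a).natDegree + (u b).natDegree) := by
    intro a ha b hb hab
    have h5 : (Polynomial.C (a - b) : C[X]) ≠ 0 := by
      rw [Ne, Polynomial.C_eq_zero, sub_eq_zero]; exact hab
    have h1 : wronskian (A - Polynomial.C a * B) (A - Polynomial.C b * B) ≠ 0 := by
      rw [wr]; exact mul_ne_zero h5 hW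
    have h3 := natDegree_wronskian_lt_add h1
    rw [natDegree_of_assoc (hu a ha), natDegree_of_assoc (hu b hb), wr,
      natDegree_mul h5 hW, natDegree_C, zero_add] at h3
    rw [mul_add]
    omega
  obtain ⟨d, hd⟩ : ∃ d, S.card = d + 1 := ⟨S.card - 1, by omega⟩
  have hd1 : 1 ≤ d := by omega
  have hrow : ∀ a ∈ S, d * ((n - 1) * M) + n * (u a).natDegree <
      n * (d * (u a).natDegree + M) := by
    intro a ha
    have hc : (S.erase a).card = d := by rw [Finset.card_erase_of_mem ha, hd]; rfl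
    have h3 : ∑ b ∈ S.erase a, (n - 1) * M <
        ∑ b ∈ S.erase a, n * ((u a).natDegree + (u b).natDegree) := by
      apply Finset.sum_lt_sum_of_nonempty
      · rw [← Finset.card_pos, hc]; omega
      · intro b hb
        rw [Finset.mem_erase] at hb
        exact hlt a ha b hb.2 hb.1.symm
    rw [Finset.sum_const, hc, smul_eq_mul, ← Finset.mul_sum, Finset.sum_add_distrib,
      Finset.sum_const, hc, smul_eq_mul] at h3
    have h4 := Finset.add_sum_erase S (fun b => (u b).natDegree) ha
    rw [hM, ← h4]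
    rw [hM, ← h4] at h3
    nlinarith
  have hsum : ∑ a ∈ S, (d * ((n - 1) * M) + n * (u a).natDegree) <
      ∑ a ∈ S, n * (d * (u a).natDegree + M) := by
    apply Finset.sum_lt_sum_of_nonempty
    · rw [← Finset.card_pos]; omega
    · exact hrow
  rw [Finset.sum_add_distrib, Finset.sum_const, smul_eq_mul, ← Finset.mul_sum, ← Finset.mul_sum,
    Finset.sum_add_distrib, ← Finset.mul_sum, Finset.sum_const, smul_eq_mul, ← hM, hd] at hsum
  rw [hd]
  have h7 : (d * M) * ((d + 1) * (n - 1)) < (d * M) * (2 * n) := by nlinarith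
  exact lt_of_mul_lt_mul_left h7 (Nat.zero_le _)

theorem wr_ne [CharZero C] {A B : C[X]} (h : IsCoprime A B)
    (hA : A.natDegree ≠ 0 ∨ B.natDegree ≠ 0) : wronskian A B ≠ 0 := by
  intro h0
  obtain ⟨h1, h2⟩ := h.wronskian_eq_zero_iff.1 h0
  rcases hA with hA | hA
  · exact hA (derivative_eq_zero.1 h1)
  · exact hA (derivative_eq_zero.1 h2)

end Poly

/-- The curve `y ^ n = c f(t)` is not rational. -/
theorem not_rational {C : Type u} {L : Type v} [Field C] [IsAlgClosed C] [CharZero C] [Field L]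
    [Algebra C L] {f : C[X]} {n : ℕ} {c : C} {t y : L} (ht : Transcendental C t)
    (hf : f.Separable) (hn : 2 ≤ n) (hd : n ∣ f.natDegree) (hd3 : 3 ≤ f.natDegree) (hc : c ≠ 0)
    (hy : y ^ n = algebraMap C L c * aeval t f) :
    ¬ ∃ z : L, t ∈ IntermediateField.adjoin C {z} ∧ y ∈ IntermediateField.adjoin C {z} := by
  classical
  rintro ⟨z, htz, hyz⟩
  have hz : Transcendental C z := by
    intro hz
    have := IntermediateField.isAlgebraic_adjoin_simple hz.isIntegral
    have : Algebra.IsIntegral C (IntermediateField.adjoin C {z}) := Algebra.IsAlgebraic.isIntegral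
    obtain ⟨w, hw⟩ := (IsAlgClosed.algebraMap_bijective_of_isIntegral (k := C)
      (K := IntermediateField.adjoin C {z})).2 ⟨t, htz⟩
    have h1 : algebraMap C L w = t := congrArg Subtype.val hw
    exact ht (h1 ▸ isAlgebraic_algebraMap w)
  have hinj : Function.Injective (aeval z : C[X] →ₐ[C] L) :=
    transcendental_iff_injective.1 hz
  have hinj0 : ∀ q : C[X], aeval z q = 0 → q = 0 := fun q hq =>
    hinj (hq.trans (map_zero _).symm)
  have hf0 : f ≠ 0 := hf.ne_zero
  have hft : aeval t f ≠ 0 := by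
    rw [transcendental_iff] at ht
    exact fun h0 => hf0 (ht f h0)
  have hcL : algebraMap C L c ≠ 0 := by
    rwa [Ne, map_eq_zero]
  have hy0 : y ≠ 0 := by
    rintro rfl
    rw [zero_pow (by omega)] at hy
    exact mul_ne_zero hcL hft hy.symm
  have ht0 : t ≠ 0 := by
    rintro rfl
    exact ht isAlgebraic_zero
  rw [IntermediateField.mem_adjoin_simple_iff] at htz hyz
  obtain ⟨A', B', hAB'⟩ := htz
  obtain ⟨U, V, hUV⟩ := hyz
  have hB'z : aeval z B' ≠ 0 := by
    intro h0
    rw [h0, div_zero] at hAB'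
    exact ht0 hAB'
  have hVz : aeval z V ≠ 0 := by
    intro h0
    rw [h0, div_zero] at hUV
    exact hy0 hUV
  have hB'0 : B' ≠ 0 := by
    rintro rfl
    exact hB'z (map_zero _)
  have hV0 : V ≠ 0 := by
    rintro rfl
    exact hVz (map_zero _)
  obtain ⟨A, B, hAB, hB0, htAB⟩ : ∃ A B : C[X], IsCoprime A B ∧ B ≠ 0 ∧
      t * aeval z B = aeval z A := by
    obtain ⟨A, hA⟩ := EuclideanDomain.gcd_dvd_left A' B'
    obtain ⟨B, hB⟩ := EuclideanDomain.gcd_dvd_right A' B'
    have hg := EuclideanDomain.gcd_eq_gcd_ab A' B'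
    set g := EuclideanDomain.gcd A' B' with hgd
    have hg0 : g ≠ 0 := by
      intro h0
      rw [h0, zero_mul] at hB
      exact hB'0 hB
    refine ⟨A, B, ⟨EuclideanDomain.gcdA A' B', EuclideanDomain.gcdB A' B', ?_⟩, ?_, ?_⟩
    · apply mul_left_cancel₀ hg0
      calc g * (EuclideanDomain.gcdA A' B' * A + EuclideanDomain.gcdB A' B' * B)
          = (g * A) * EuclideanDomain.gcdA A' B' + (g * B) * EuclideanDomain.gcdB A' B' := by ring
        _ = g * 1 := by rw [← hA, ← hB, mul_one, ← hg]
    · rintro rfl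
      rw [mul_zero] at hB
      exact hB'0 hB
    · have h1 : aeval z g ≠ 0 := fun h0 => hg0 (hinj0 g h0)
      have h3 : aeval z B ≠ 0 := by
        intro h0
        rw [hB, map_mul, h0, mul_zero] at hB'z
        exact hB'z rfl
      rw [hAB', hA, hB, map_mul, map_mul]
      field_simp
  obtain ⟨m, hm⟩ := hd
  set S : Finset C := ⟨f.roots, nodup_roots hf⟩ with hS
  have hsp := IsAlgClosed.splits f
  have hScard : S.card = f.natDegree := hsp.natDegree_eq_card_roots.symm
  have hfS : f = Polynomial.C f.leadingCoeff * ∏ a ∈ S, (X - Polynomial.C a) := by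
    conv_lhs => rw [hsp.eq_prod_roots]
    rfl
  set ℓ := f.leadingCoeff with hℓ
  have hℓ0 : ℓ ≠ 0 := leadingCoeff_ne_zero.2 hf0
  have hmain : (U * B ^ m) ^ n = Polynomial.C (c * ℓ) * V ^ n *
      ∏ a ∈ S, (A - Polynomial.C a * B) := by
    apply hinj
    have hU : aeval z U = y * aeval z V := by
      rw [hUV, div_mul_cancel₀ _ hVz]
    have hfz : aeval t f = algebraMap C L ℓ * ∏ a ∈ S, (t - algebraMap C L a) := by
      conv_lhs => rw [hfS]
      simp only [map_mul, aeval_C, map_prod, map_sub, aeval_X]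
    have hprod : ∏ a ∈ S, (t * aeval z B - algebraMap C L a * aeval z B) =
        (∏ a ∈ S, (t - algebraMap C L a)) * (aeval z B) ^ (n * m) := by
      rw [← hm, ← hScard, ← Finset.prod_const, ← Finset.prod_mul_distrib]
      exact Finset.prod_congr rfl fun a _ => by ring
    simp only [map_mul, map_pow, map_prod, map_sub, aeval_C]
    rw [← htAB, hprod, hU, mul_pow, mul_pow, hy, hfz, ← pow_mul, mul_comm m n]
    ring
  have hVd : V ∣ U * B ^ m := by
    rw [← IsIntegrallyClosed.pow_dvd_pow_iff (show n ≠ 0 by omega), hmain]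
    exact ⟨Polynomial.C (c * ℓ) * ∏ a ∈ S, (A - Polynomial.C a * B), by ring⟩
  obtain ⟨r, hr⟩ := hVd
  have hrn : r ^ n = Polynomial.C (c * ℓ) * ∏ a ∈ S, (A - Polynomial.C a * B) := by
    rw [hr, mul_pow] at hmain
    have h1 : V ^ n ≠ 0 := pow_ne_zero _ hV0
    apply mul_left_cancel₀ h1
    rw [hmain]
    ring
  have hass : ∀ a ∈ S, ∃ u : C[X], Associated (u ^ n) (A - Polynomial.C a * B) := by
    intro a ha
    have h1 : (A - Polynomial.C a * B) * (Polynomial.C (c * ℓ) *
        ∏ b ∈ S.erase a, (A - Polynomial.C b * B)) = r ^ n := by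
      rw [hrn, ← Finset.mul_prod_erase S (fun b => A - Polynomial.C b * B) ha]
      ring
    refine exists_associated_pow_of_mul_eq_pow' (IsCoprime.mul_right ?_ ?_) h1
    · have h3 : IsUnit (Polynomial.C (c * ℓ) : C[X]) :=
        (isUnit_iff_ne_zero.2 (mul_ne_zero hc hℓ0)).map Polynomial.C
      obtain ⟨w, hw⟩ := h3.exists_left_inv
      exact ⟨0, w, by rw [zero_mul, zero_add, hw]⟩
    · exact IsCoprime.prod_right fun b hb => cop hAB (Finset.ne_of_mem_erase hb).symm
  have hW : wronskian A B ≠ 0 := by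
    apply wr_ne hAB
    by_contra hcon
    rw [not_or, not_not, not_not] at hcon
    obtain ⟨a, ha⟩ := natDegree_eq_zero.1 hcon.1
    obtain ⟨b, hb⟩ := natDegree_eq_zero.1 hcon.2
    have hb0 : algebraMap C L b ≠ 0 := by
      intro h0
      rw [map_eq_zero] at h0
      rw [h0, map_zero] at hb
      exact hB0 hb.symm
    rw [← ha, ← hb, aeval_C, aeval_C] at htAB
    have h1 : t = algebraMap C L (a / b) := by
      rw [map_div₀, eq_div_iff hb0, htAB]
    exact ht (h1 ▸ isAlgebraic_algebraMap _)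
  have h9 := pencil hAB hW hn S hass (by omega)
  rw [hScard] at h9
  have h10 : 1 ≤ m := by
    rcases Nat.eq_zero_or_pos m with h | h
    · rw [h, mul_zero] at hm; omega
    · exact h
  obtain ⟨n', rfl⟩ := Nat.exists_eq_add_of_le' hn
  rw [hm] at h9 hd3
  have h11 : m * (n' + 1) < 2 := by
    have h12 : (n' + 2) * (m * (n' + 1)) < (n' + 2) * 2 := by
      rw [show n' + 2 - 1 = n' + 1 by omega] at h9
      nlinarith
    exact lt_of_mul_lt_mul_left h12 (Nat.zero_le _)
  have h13 : n' = 0 := by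
    by_contra h14
    have : 1 * 2 ≤ m * (n' + 1) := Nat.mul_le_mul h10 (by omega)
    omega
  subst h13
  omega

end Pool.Agent.Lib.MP_c385f6_ag.TPG.Sup
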