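import Pool.Agent.Lib.MP_c385f6_ag.TPG.SupC
import Pool.Agent.Lib.MP_c385f6_ag.TPG.GFrc

/-!
Project TPG, explicit family: the ring of integers, and the model on a chart.
-/

set_option autoImplicit false

open Polynomial

namespace Pool.Agent.Lib.MP_c385f6_ag.TPG.Sup

universe u v w

section

variable (p : ℕ) [Fact p.Prime] (k : Type) [Field k] [Algebra ℚ_[p] k] [FiniteDimensional ℚ_[p] k]

theorem sn_mul (a b : k) : spectralNorm ℚ_[p] k (a * b) =
    spectralNorm ℚ_[p] k a * spectralNorm ℚ_[p] k b := by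
  let _ : NormedField k := spectralNorm.normedField ℚ_[p] k
  exact norm_mul a b

theorem sn_one : spectralNorm ℚ_[p] k 1 = 1 := by
  let _ : NormedField k := spectralNorm.normedField ℚ_[p] k
  exact norm_one (α := k)

theorem sn_pow (a : k) (n : ℕ) : spectralNorm ℚ_[p] k (a ^ n) = spectralNorm ℚ_[p] k a ^ n := by
  let _ : NormedField k := spectralNorm.normedField ℚ_[p] k
  exact norm_pow a n

theorem sn_inv (a : k) : spectralNorm ℚ_[p] k a⁻¹ = (spectralNorm ℚ_[p] k a)⁻¹ := by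
  let _ : NormedField k := spectralNorm.normedField ℚ_[p] k
  exact norm_inv a

theorem sn_neg (a : k) : spectralNorm ℚ_[p] k (-a) = spectralNorm ℚ_[p] k a := by
  let _ : NormedField k := spectralNorm.normedField ℚ_[p] k
  exact norm_neg a

theorem sn_add (a b : k) : spectralNorm ℚ_[p] k (a + b) ≤
    max (spectralNorm ℚ_[p] k a) (spectralNorm ℚ_[p] k b) :=
  isNonarchimedean_spectralNorm (K := ℚ_[p]) (L := k) a b

theorem sn_nonneg (a : k) : 0 ≤ spectralNorm ℚ_[p] k a := by
  let _ : NormedField k := spectralNorm.normedField ℚ_[p] k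
  exact norm_nonneg a

theorem sn_eq_zero {a : k} : spectralNorm ℚ_[p] k a = 0 ↔ a = 0 := by
  let _ : NormedField k := spectralNorm.normedField ℚ_[p] k
  exact norm_eq_zero (a := a)

theorem sn_zero : spectralNorm ℚ_[p] k 0 = 0 := (sn_eq_zero p k).2 rfl

/-- The ring of integers. -/
noncomputable def O : ValuationSubring k where
  carrier := {c | spectralNorm ℚ_[p] k c ≤ 1}
  mul_mem' {a b} ha hb := by
    rw [Set.mem_ofPred_eq] at *
    rw [sn_mul]
    exact mul_le_one₀ ha (sn_nonneg p k b) hb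
  one_mem' := (sn_one p k).le
  add_mem' {a b} ha hb := (sn_add p k a b).trans (max_le ha hb)
  zero_mem' := by
    rw [Set.mem_ofPred_eq, sn_zero]
    exact zero_le_one
  neg_mem' {a} ha := by
    rw [Set.mem_ofPred_eq, sn_neg]
    exact ha
  mem_or_inv_mem' a := by
    by_cases h : spectralNorm ℚ_[p] k a ≤ 1
    · exact Or.inl h
    · right
      change spectralNorm ℚ_[p] k a⁻¹ ≤ 1
      rw [sn_inv]
      exact inv_le_one_of_one_le₀ (not_le.1 h).le

theorem mem_O {c : k} : c ∈ O p k ↔ spectralNorm ℚ_[p] k c ≤ 1 := Iff.rfl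

theorem unit_iff (c : O p k) : IsUnit c ↔ spectralNorm ℚ_[p] k (c : k) = 1 := by
  constructor
  · rintro ⟨u, rfl⟩
    refine le_antisymm u.1.2 ?_
    have h1 : spectralNorm ℚ_[p] k ((u.1 : k) * (u⁻¹).1) = 1 := by
      have h2 : (u.1 : k) * ((u⁻¹).1 : O p k) = 1 := by
        exact congrArg Subtype.val (u.mul_inv)
      rw [h2, sn_one]
    rw [sn_mul] at h1
    have h3 : spectralNorm ℚ_[p] k ((u⁻¹).1 : O p k) ≤ 1 := (u⁻¹).1.2
    calc (1 : ℝ) = spectralNorm ℚ_[p] k (u.1 : k) * spectralNorm ℚ_[p] k ((u⁻¹).1 : O p k) := h1.symm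
      _ ≤ spectralNorm ℚ_[p] k (u.1 : k) * 1 :=
        mul_le_mul_of_nonneg_left h3 (sn_nonneg p k _)
      _ = _ := mul_one _
  · intro h
    have h0 : (c : k) ≠ 0 := by
      intro h0
      rw [h0, sn_zero] at h
      exact zero_ne_one h
    refine ⟨⟨c, ⟨(c : k)⁻¹, ?_⟩, Subtype.ext (mul_inv_cancel₀ h0),
      Subtype.ext (inv_mul_cancel₀ h0)⟩, rfl⟩
    rw [mem_O, sn_inv, h, inv_one]

theorem res_eq_zero_iff (c : O p k) :
    IsLocalRing.residue (O p k) c = 0 ↔ spectralNorm ℚ_[p] k (c : k) < 1 := by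
  rw [IsLocalRing.residue_eq_zero_iff, IsLocalRing.mem_maximalIdeal, mem_nonunits_iff, unit_iff]
  exact ⟨fun h => lt_of_le_of_ne c.2 h, fun h => h.ne⟩

instance dvrO : IsDiscreteValuationRing (O p k) := by
  obtain ⟨π, h0, h1, h2⟩ := GFrc.exists_unif p k
  let ϖ : O p k := ⟨π, h1.le⟩
  have hϖ0 : ϖ ≠ 0 := fun h => h0 (congrArg Subtype.val h)
  have hpos : 0 < spectralNorm ℚ_[p] k π := lt_of_le_of_ne (sn_nonneg p k π)
    (Ne.symm (by rwa [Ne, sn_eq_zero]))
  refine IsDiscreteValuationRing.ofHasUnitMulPowIrreducibleFactorization ⟨ϖ, ?_, ?_⟩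
  · constructor
    · rw [unit_iff]
      exact h1.ne
    · rintro a b hab
      by_contra hcon
      rw [not_or, unit_iff, unit_iff] at hcon
      have ha : spectralNorm ℚ_[p] k (a : k) < 1 := lt_of_le_of_ne a.2 hcon.1
      have hb : spectralNorm ℚ_[p] k (b : k) < 1 := lt_of_le_of_ne b.2 hcon.2
      have hab' : π = (a : k) * b := congrArg Subtype.val hab
      have h3 := h2 a ha
      rw [hab', sn_mul] at h3
      have ha0 : 0 < spectralNorm ℚ_[p] k (a : k) := by
        refine lt_of_le_of_ne (sn_nonneg p k _) (Ne.symm ?_)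
        intro h4
        rw [hab', sn_mul, h4, zero_mul] at hpos
        exact lt_irrefl _ hpos
      nlinarith
  · intro x hx
    have hx0 : (x : k) ≠ 0 := fun h => hx (Subtype.ext h)
    have hxp : 0 < spectralNorm ℚ_[p] k (x : k) := lt_of_le_of_ne (sn_nonneg p k _)
      (Ne.symm (by rwa [Ne, sn_eq_zero]))
    obtain ⟨n, hn1, hn2⟩ := exists_nat_pow_near_of_lt_one hxp x.2 hpos h1
    refine ⟨n, ?_⟩
    have hπn : π ^ n ≠ 0 := pow_ne_zero _ h0
    have h4 : spectralNorm ℚ_[p] k ((x : k) / π ^ n) = 1 := by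
      rw [div_eq_mul_inv, sn_mul, sn_inv, sn_pow]
      have hpn : 0 < spectralNorm ℚ_[p] k π ^ n := pow_pos hpos n
      refine le_antisymm ?_ ?_
      · rw [← div_eq_mul_inv, div_le_one hpn]
        exact hn2
      · by_contra hcon
        rw [not_le] at hcon
        have h5 := h2 ((x : k) / π ^ n) (by
          rw [div_eq_mul_inv, sn_mul, sn_inv, sn_pow]
          exact hcon)
        rw [div_eq_mul_inv, sn_mul, sn_inv, sn_pow, ← div_eq_mul_inv, div_le_iff₀ hpn] at h5
        rw [pow_succ'] at hn1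
        exact absurd h5 (not_le.2 hn1)
    have hu : IsUnit (⟨(x : k) / π ^ n, h4.le⟩ : O p k) := (unit_iff p k _).2 h4
    obtain ⟨u, hu⟩ := hu
    refine ⟨u, Subtype.ext ?_⟩
    change π ^ n * ((u : O p k) : k) = x
    rw [hu]
    change π ^ n * ((x : k) / π ^ n) = x
    field_simp

theorem nat_unit {n : ℕ} (hn : ¬ p ∣ n) : IsUnit (n : O p k) := by
  rw [unit_iff]
  have h1 : ((n : O p k) : k) = algebraMap ℚ_[p] k (n : ℚ_[p]) := by simp
  rw [h1, spectralNorm_extends]
  rw [Padic.norm_natCast_eq_one_iff]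
  exact ((Fact.out : p.Prime).coprime_iff_not_dvd).2 hn

end

end Pool.Agent.Lib.MP_c385f6_ag.TPG.Sup
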