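import Pool.Agent.Lib.MP_c385f6_ag.TPG.SupT
import Pool.Agent.Lib.MP_c385f6_ag.Bc.Coord

/-!
Project TPG, explicit family: rational places of `K = k(t, y)`, `y ^ n = c f(t)`.
-/

set_option autoImplicit false

open Polynomial

namespace Pool.Agent.Lib.MP_c385f6_ag.TPG.Sup

universe u v

section Lead

variable {k : Type v} {K : Type u} [Field k] [Field K] [Algebra k K] (A : ValuationSubring K)

/-- `z` is `c π ^ j` up to elements of larger order, `c` a constant. -/
def Ld (k : Type v) {K : Type u} [Field k] [Field K] [Algebra k K] (A : ValuationSubring K) (π z : K)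
    (j : ℤ) : Prop :=
  ∃ c : k, c ≠ 0 ∧ A.valuation (z - algebraMap k K c * π ^ j) < A.valuation π ^ j

variable {A}

theorem val_const (hA : ∀ c : k, algebraMap k K c ∈ A) {c : k} (hc : c ≠ 0) :
    A.valuation (algebraMap k K c) = 1 := by
  have h1 : A.valuation (algebraMap k K c) ≤ 1 := (A.valuation_le_one_iff _).2 (hA c)
  have h2 : A.valuation (algebraMap k K c⁻¹) ≤ 1 := (A.valuation_le_one_iff _).2 (hA c⁻¹)
  refine le_antisymm h1 ?_
  rw [map_inv₀, map_inv₀] at h2
  have h3 : A.valuation (algebraMap k K c) ≠ 0 := by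
    rw [Valuation.ne_zero_iff]
    exact (_root_.map_ne_zero _).2 hc
  exact (inv_le_one₀ (zero_lt_iff.2 h3)).1 h2

theorem Ld.val (hA : ∀ c : k, algebraMap k K c ∈ A) {π z : K} {j : ℤ} (h : Ld k A π z j) :
    A.valuation z = A.valuation π ^ j := by
  obtain ⟨c, hc, h1⟩ := h
  have h2 : A.valuation (algebraMap k K c * π ^ j) = A.valuation π ^ j := by
    rw [map_mul, val_const hA hc, one_mul, map_zpow₀]
  have h3 : z = algebraMap k K c * π ^ j + (z - algebraMap k K c * π ^ j) := by ring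
  rw [h3, Valuation.map_add_eq_of_lt_left _ (by rwa [h2]), h2]

theorem Ld.ne_zero (hA : ∀ c : k, algebraMap k K c ∈ A) {π z : K} (hπ : π ≠ 0) {j : ℤ}
    (h : Ld k A π z j) : z ≠ 0 := by
  rw [← A.valuation.ne_zero_iff, h.val hA]
  exact zpow_ne_zero _ ((A.valuation.ne_zero_iff).2 hπ)

theorem Ld.mul (hA : ∀ c : k, algebraMap k K c ∈ A) {π z w : K} (hπ : π ≠ 0) {i j : ℤ}
    (hz : Ld k A π z i) (hw : Ld k A π w j) : Ld k A π (z * w) (i + j) := by
  have hvz := hz.val hA
  obtain ⟨c, hc, h1⟩ := hz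
  obtain ⟨d, hd, h2⟩ := hw
  have hv0 : A.valuation π ≠ 0 := (A.valuation.ne_zero_iff).2 hπ
  refine ⟨c * d, mul_ne_zero hc hd, ?_⟩
  have h3 : z * w - algebraMap k K (c * d) * π ^ (i + j) =
      z * (w - algebraMap k K d * π ^ j) +
        (z - algebraMap k K c * π ^ i) * (algebraMap k K d * π ^ j) := by
    rw [zpow_add₀ hπ, map_mul]
    ring
  rw [h3, zpow_add₀ hv0]
  refine (Valuation.map_add _ _ _).trans_lt (max_lt ?_ ?_)
  · rw [map_mul, hvz]
    exact mul_lt_mul_of_pos_left h2 (zero_lt_iff.2 (zpow_ne_zero _ hv0))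
  · rw [map_mul, map_mul, val_const hA hd, one_mul, map_zpow₀]
    exact mul_lt_mul_of_pos_right h1 (zero_lt_iff.2 (zpow_ne_zero _ hv0))

theorem Ld.inv (hA : ∀ c : k, algebraMap k K c ∈ A) {π z : K} (hπ : π ≠ 0) {i : ℤ}
    (hz : Ld k A π z i) : Ld k A π z⁻¹ (-i) := by
  have hvz := hz.val hA
  have hz0 := hz.ne_zero hA hπ
  obtain ⟨c, hc, h1⟩ := hz
  have hv0 : A.valuation π ≠ 0 := (A.valuation.ne_zero_iff).2 hπ
  have hcK : algebraMap k K c ≠ 0 := (_root_.map_ne_zero _).2 hc
  refine ⟨c⁻¹, inv_ne_zero hc, ?_⟩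
  have h3 : z⁻¹ - algebraMap k K c⁻¹ * π ^ (-i) =
      -(z⁻¹ * (algebraMap k K c)⁻¹ * (π ^ i)⁻¹ * (z - algebraMap k K c * π ^ i)) := by
    rw [zpow_neg, map_inv₀]
    have : π ^ i ≠ 0 := zpow_ne_zero _ hπ
    field_simp
    ring
  rw [h3, Valuation.map_neg, map_mul, map_mul, map_mul, map_inv₀, map_inv₀, map_inv₀, hvz,
    val_const hA hc, inv_one, mul_one, map_zpow₀, zpow_neg]
  have h4 : 0 < (A.valuation π ^ i)⁻¹ := zero_lt_iff.2 (inv_ne_zero (zpow_ne_zero _ hv0))
  have h5 : A.valuation π ^ i ≠ 0 := zpow_ne_zero _ hv0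
  calc (A.valuation π ^ i)⁻¹ * (A.valuation π ^ i)⁻¹ * A.valuation (z - algebraMap k K c * π ^ i)
      < (A.valuation π ^ i)⁻¹ * (A.valuation π ^ i)⁻¹ * A.valuation π ^ i :=
        mul_lt_mul_of_pos_left h1 (mul_pos h4 h4)
    _ = (A.valuation π ^ i)⁻¹ := by rw [mul_assoc, inv_mul_cancel₀ h5, mul_one]

theorem Ld.add (hA : ∀ c : k, algebraMap k K c ∈ A) {π z w : K} {i j : ℤ} (hπ : π ≠ 0)
    (hπ1 : A.valuation π < 1) (hij : i < j)
    (hz : Ld k A π z i) (hw : Ld k A π w j) : Ld k A π (z + w) i := by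
  have hvw := hw.val hA
  obtain ⟨c, hc, h1⟩ := hz
  refine ⟨c, hc, ?_⟩
  have h3 : z + w - algebraMap k K c * π ^ i = (z - algebraMap k K c * π ^ i) + w := by ring
  rw [h3]
  refine (Valuation.map_add _ _ _).trans_lt (max_lt h1 ?_)
  rw [hvw]
  exact zpow_lt_zpow_right_of_lt_one₀ (zero_lt_iff.2 ((A.valuation.ne_zero_iff).2 hπ)) hπ1 hij

theorem Ld.const (π : K) {c : k} (hc : c ≠ 0) : Ld k A π (algebraMap k K c) 0 := by
  refine ⟨c, hc, ?_⟩
  rw [zpow_zero, mul_one, sub_self, map_zero, zpow_zero]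
  exact zero_lt_one

theorem Ld.self (k : Type v) [Field k] [Algebra k K] {π : K} (hπ : π ≠ 0) : Ld k A π π 1 := by
  refine ⟨1, one_ne_zero, ?_⟩
  rw [map_one, one_mul, zpow_one, sub_self, map_zero, zpow_one]
  exact zero_lt_iff.2 ((A.valuation.ne_zero_iff).2 hπ)

theorem Ld.zpow (hA : ∀ c : k, algebraMap k K c ∈ A) {π z : K} (hπ : π ≠ 0) {i : ℤ}
    (hz : Ld k A π z i) (m : ℕ) : Ld k A π (z ^ m) (m * i) := by
  induction m with
  | zero =>
    have h1 := Ld.const (A := A) (k := k) π one_ne_zero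
    rw [map_one] at h1
    rw [pow_zero, Nat.cast_zero, zero_mul]
    exact h1
  | succ m ih =>
    have h1 := ih.mul hA hπ hz
    rw [pow_succ]
    convert h1 using 1
    push_cast
    ring

/-- A polynomial with a nonzero value at `a`. -/
theorem Ld.poly_unit (hA : ∀ c : k, algebraMap k K c ∈ A) {π t : K} {a : k}
    (ht : A.valuation (t - algebraMap k K a) < 1) (P : k[X]) (hP : P.eval a ≠ 0) :
    Ld k A π (aeval t P) 0 := by
  have htA : t ∈ A := by
    rw [← A.valuation_le_one_iff]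
    have h1 : t = (t - algebraMap k K a) + algebraMap k K a := by ring
    rw [h1]
    exact (Valuation.map_add _ _ _).trans (max_le ht.le ((A.valuation_le_one_iff _).2 (hA a)))
  obtain ⟨q, hq⟩ := X_sub_C_dvd_sub_C_eval (a := a) (p := P)
  have h3 : aeval t P - algebraMap k K (P.eval a) = (t - algebraMap k K a) * aeval t q := by
    have h4 := congrArg (aeval t) hq
    rw [map_mul, map_sub, map_sub, aeval_X, aeval_C, aeval_C] at h4
    exact h4
  have h4 : A.valuation (aeval t q) ≤ 1 := by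
    rw [A.valuation_le_one_iff, aeval_eq_sum_range]
    refine sum_mem fun i _ => ?_
    rw [Algebra.smul_def]
    exact mul_mem (hA _) (pow_mem htA i)
  refine ⟨P.eval a, hP, ?_⟩
  rw [zpow_zero, mul_one, zpow_zero, h3, map_mul]
  exact mul_lt_one_of_lt_of_le ht h4

theorem Ld.poly (hA : ∀ c : k, algebraMap k K c ∈ A) {π t : K} (hπ : π ≠ 0) {a : k}
    (ht : A.valuation (t - algebraMap k K a) < 1) {n : ℤ} (hT : Ld k A π (t - algebraMap k K a) n)
    (P : k[X]) (hP : P ≠ 0) : ∃ m : ℤ, Ld k A π (aeval t P) (n * m) := by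
  obtain ⟨q, hq, hqa⟩ := exists_eq_pow_rootMultiplicity_mul_and_not_dvd P hP a
  set r := P.rootMultiplicity a with hr
  have h1 : q.eval a ≠ 0 := by
    intro h0
    exact hqa (dvd_iff_isRoot.2 h0)
  have h2 := (hT.zpow hA hπ r).mul hA hπ (Ld.poly_unit (π := π) hA ht q h1)
  refine ⟨r, ?_⟩
  rw [hq, map_mul, map_pow, map_sub, aeval_X, aeval_C]
  convert h2 using 1
  ring

theorem Ld.rat (hA : ∀ c : k, algebraMap k K c ∈ A) {π t : K} (hπ : π ≠ 0) {a : k}
    (ht : A.valuation (t - algebraMap k K a) < 1) {n : ℤ} (hT : Ld k A π (t - algebraMap k K a) n)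
    (b : IntermediateField.adjoin k {t}) (hb : b ≠ 0) : ∃ m : ℤ, Ld k A π (b : K) (n * m) := by
  obtain ⟨P, Q, hPQ⟩ := (IntermediateField.mem_adjoin_simple_iff k (b : K)).1 b.2
  have hb0 : (b : K) ≠ 0 := fun h => hb (Subtype.ext h)
  have hP : P ≠ 0 := by
    rintro rfl
    rw [map_zero, zero_div] at hPQ
    exact hb0 hPQ
  have hQ : Q ≠ 0 := by
    rintro rfl
    rw [map_zero, div_zero] at hPQ
    exact hb0 hPQ
  obtain ⟨m, hm⟩ := Ld.poly hA hπ ht hT P hP
  obtain ⟨m', hm'⟩ := Ld.poly hA hπ ht hT Q hQ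
  refine ⟨m - m', ?_⟩
  rw [hPQ, div_eq_mul_inv]
  convert hm.mul hA hπ (hm'.inv hA hπ) using 1
  ring

theorem Ld.sum (hA : ∀ c : k, algebraMap k K c ∈ A) {π t : K} (hπ : π ≠ 0)
    (hπ1 : A.valuation π < 1) {a : k}
    (ht : A.valuation (t - algebraMap k K a) < 1) {n : ℕ}
    (hT : Ld k A π (t - algebraMap k K a) n) (b : ℕ → IntermediateField.adjoin k {t})
    (s : Finset ℕ) (hs : ∀ i ∈ s, i < n) :
    (∀ i ∈ s, b i = 0) ∨ ∃ i ∈ s, ∃ m : ℤ,
      Ld k A π (∑ i ∈ s, (b i : K) * π ^ i) (n * m + i) := by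
  classical
  induction s using Finset.induction_on with
  | empty => left; simp
  | insert j s hj ih =>
    have hs' : ∀ i ∈ s, i < n := fun i hi => hs i (Finset.mem_insert_of_mem hi)
    have hjn := hs j (Finset.mem_insert_self j s)
    rw [Finset.sum_insert hj]
    by_cases hbj : b j = 0
    · rw [hbj, ZeroMemClass.coe_zero, zero_mul, zero_add]
      rcases ih hs' with h1 | ⟨i, hi, m, hm⟩
      · left
        intro i hi
        rcases Finset.mem_insert.1 hi with rfl | hi
        · exact hbj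
        · exact h1 i hi
      · right
        exact ⟨i, Finset.mem_insert_of_mem hi, m, hm⟩
    · right
      obtain ⟨m, hm⟩ := Ld.rat hA hπ ht hT (b j) hbj
      have h2 := hm.mul hA hπ ((Ld.self (A := A) k hπ).zpow hA hπ j)
      rw [mul_one] at h2
      rcases ih hs' with h1 | ⟨i, hi, m', hm'⟩
      · refine ⟨j, Finset.mem_insert_self j s, m, ?_⟩
        have h3 : ∑ i ∈ s, (b i : K) * π ^ i = 0 := by
          refine Finset.sum_eq_zero fun i hi => ?_
          rw [h1 i hi, ZeroMemClass.coe_zero, zero_mul]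
        rw [h3, add_zero]
        exact h2
      · have hin := hs' i hi
        have hij : i ≠ j := fun h => hj (h ▸ hi)
        have hne : (n : ℤ) * m + j ≠ n * m' + i := by
          intro h
          have h4 := congrArg (fun x : ℤ => x % n) h
          simp only [Int.mul_add_emod_self_left] at h4
          rw [Int.emod_eq_of_lt (by positivity) (by exact_mod_cast hjn),
            Int.emod_eq_of_lt (by positivity) (by exact_mod_cast hin)] at h4
          exact hij (by exact_mod_cast h4.symm)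
        rcases lt_or_gt_of_ne hne with h5 | h5
        · exact ⟨j, Finset.mem_insert_self j s, m, Ld.add hA hπ hπ1 h5 h2 hm'⟩
        · refine ⟨i, Finset.mem_insert_of_mem hi, m', ?_⟩
          rw [add_comm]
          exact Ld.add hA hπ hπ1 h5 hm' h2

end Lead

/-- elements of `k(t)(y)` -/
theorem exists_coords {F K : Type*} [Field F] [Field K] [Algebra F K] {n : ℕ} (hn : n ≠ 0) {h : F}
    {y : K} (hy : y ^ n = algebraMap F K h) (htop : IntermediateField.adjoin F {y} = ⊤) (z : K) :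
    ∃ b : ℕ → F, z = ∑ i ∈ Finset.range n, algebraMap F K (b i) * y ^ i := by
  have hmon : (X ^ n - C h : F[X]).Monic := monic_X_pow_sub_C h hn
  have hy0 : aeval y (X ^ n - C h : F[X]) = 0 := by
    rw [map_sub, map_pow, aeval_X, aeval_C, hy, sub_self]
  have hint : IsIntegral F y := ⟨_, hmon, hy0⟩
  have hz : z ∈ IntermediateField.adjoin F {y} := by rw [htop]; trivial
  rw [← IntermediateField.mem_toSubalgebra,
    IntermediateField.adjoin_simple_toSubalgebra_of_isAlgebraic hint.isAlgebraic,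
    Algebra.adjoin_singleton_eq_range_aeval] at hz
  obtain ⟨P, hP⟩ := hz
  have h1 : z = aeval y (P %ₘ (X ^ n - C h)) := by
    have h2 := congrArg (aeval y) (modByMonic_add_div P (X ^ n - C h : F[X]))
    rw [map_add, map_mul, hy0, zero_mul, add_zero] at h2
    rw [h2]
    exact hP.symm
  refine ⟨fun i => (P %ₘ (X ^ n - C h)).coeff i, ?_⟩
  rw [h1, aeval_eq_sum_range' (n := n)]
  · exact Finset.sum_congr rfl fun i _ => by rw [Algebra.smul_def]
  · have h3 := natDegree_modByMonic_lt P hmon (by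
      intro h4
      have h5 := congrArg natDegree h4
      rw [natDegree_X_pow_sub_C, natDegree_one] at h5
      exact hn h5)
    rwa [natDegree_X_pow_sub_C] at h3

section Exist

variable {k : Type} {K : Type u} [Field k] [Field K] [Algebra k K]

/-- A place of `k(t, y)`, `y ^ n = c f(t)`, over a simple zero of `f` is rational. -/
theorem isRational {n : ℕ} (hn : n ≠ 0) {c : k} (hc : c ≠ 0) {f : k[X]} {t y : K}
    (ht : Transcendental k t) (hy : y ^ n = algebraMap k K c * aeval t f)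
    (htop : IntermediateField.adjoin k {t, y} = ⊤) {a : k} (ha : f.eval a = 0)
    (hs : f.derivative.eval a ≠ 0) {A : ValuationSubring K} (hA : ∀ c : k, algebraMap k K c ∈ A)
    (hAt : A.valuation (t - algebraMap k K a) < 1) : IsRationalPlace k K A := by
  have hT0 : t - algebraMap k K a ≠ 0 := by
    intro h0
    rw [sub_eq_zero] at h0
    exact ht (h0 ▸ isAlgebraic_algebraMap a)
  obtain ⟨g, hg⟩ := dvd_iff_isRoot.2 (show IsRoot f a from ha)
  have hga : g.eval a ≠ 0 := by
    intro h0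
    apply hs
    rw [hg, derivative_mul, eval_add, eval_mul, eval_mul, h0, mul_zero, zero_add, eval_sub, eval_X,
      eval_C, sub_self, zero_mul]
  have hf0 : f ≠ 0 := by
    rintro rfl
    simp at hs
  have hft : aeval t f ≠ 0 := fun h0 => hf0 ((transcendental_iff.1 ht) f h0)
  have hcK : algebraMap k K c ≠ 0 := (_root_.map_ne_zero _).2 hc
  have hy0 : y ≠ 0 := by
    rintro rfl
    rw [zero_pow hn] at hy
    exact mul_ne_zero hcK hft hy.symm
  have hgt := Ld.poly_unit (π := y) hA hAt g hga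
  have hfT : y ^ n = (t - algebraMap k K a) * (algebraMap k K c * aeval t g) := by
    rw [hy, hg, map_mul, map_sub, aeval_X, aeval_C]
    ring
  have hcg := (Ld.const (A := A) y hc).mul hA hy0 hgt
  rw [add_zero] at hcg
  have hT : Ld k A y (t - algebraMap k K a) n := by
    have h1 := ((Ld.self (A := A) k hy0).zpow hA hy0 n).mul hA hy0 (hcg.inv hA hy0)
    rw [mul_one, neg_zero, add_zero] at h1
    convert h1 using 1
    rw [hfT]
    exact (mul_inv_cancel_right₀ (hcg.ne_zero hA hy0) _).symm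
  have hy1 : A.valuation y < 1 := by
    have h1 := hT.val hA
    rw [h1, zpow_natCast] at hAt
    exact lt_of_not_ge fun h2 => absurd hAt (not_lt.2 (one_le_pow₀ h2))
  have htop' : IntermediateField.adjoin (IntermediateField.adjoin k {t}) ({y} : Set K) = ⊤ := by
    have h1 := IntermediateField.adjoin_adjoin_left k {t} ({y} : Set K)
    rw [Set.singleton_union, htop] at h1
    rw [eq_top_iff]
    intro z _
    have : z ∈ (IntermediateField.adjoin (IntermediateField.adjoin k {t})
        ({y} : Set K)).restrictScalars k := by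
      rw [h1]
      trivial
    exact this
  refine ⟨?_, hA, ?_⟩
  · rintro rfl
    have h1 : (t - algebraMap k K a)⁻¹ ∈ (⊤ : ValuationSubring K) := trivial
    rw [← ValuationSubring.valuation_le_one_iff, map_inv₀] at h1
    have h2 : (⊤ : ValuationSubring K).valuation (t - algebraMap k K a) ≠ 0 :=
      (Valuation.ne_zero_iff _).2 hT0
    exact absurd hAt (not_lt.2 ((inv_le_one₀ (zero_lt_iff.2 h2)).1 h1))
  · intro z hz
    have hy' : y ^ n = algebraMap (IntermediateField.adjoin k {t}) K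
        (algebraMap k _ c * aeval (IntermediateField.AdjoinSimple.gen k t) f) := by
      rw [hy, map_mul, ← aeval_algebraMap_apply]
      rfl
    obtain ⟨b, hb⟩ := exists_coords hn hy' htop' z
    rcases Ld.sum hA hy0 hy1 hAt hT b (Finset.range n) (fun i hi => Finset.mem_range.1 hi) with
      h1 | ⟨i, hi, m, hm⟩
    · refine ⟨0, ?_⟩
      have h2 : z = 0 := by
        rw [hb]
        refine Finset.sum_eq_zero fun i hi => ?_
        rw [h1 i hi, map_zero, zero_mul]
      rw [h2, map_zero, sub_zero, map_zero]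
      exact zero_lt_one
    · have h2 : Ld k A y z (n * m + i) := by
        rw [hb]
        exact hm
      have h3 := h2.val hA
      rw [← A.valuation_le_one_iff] at hz
      rcases lt_trichotomy ((n : ℤ) * m + i) 0 with h4 | h4 | h4
      · exfalso
        have h5 := one_lt_zpow_of_neg₀ (zero_lt_iff.2 ((A.valuation.ne_zero_iff).2 hy0)) hy1 h4
        rw [← h3] at h5
        exact absurd hz (not_le.2 h5)
      · obtain ⟨d, -, hd⟩ := h2
        rw [h4, zpow_zero, mul_one, zpow_zero] at hd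
        exact ⟨d, hd⟩
      · refine ⟨0, ?_⟩
        rw [map_zero, sub_zero, h3]
        exact zpow_lt_one₀ (zero_lt_iff.2 ((A.valuation.ne_zero_iff).2 hy0)) hy1 h4

/-- The rational place over a simple zero of `f`. -/
theorem exists_rational {n : ℕ} (hn : n ≠ 0) {c : k} (hc : c ≠ 0) {f : k[X]} {t y : K}
    (ht : Transcendental k t) (hy : y ^ n = algebraMap k K c * aeval t f)
    (htop : IntermediateField.adjoin k {t, y} = ⊤) {a : k} (ha : f.eval a = 0)
    (hs : f.derivative.eval a ≠ 0) :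
    ∃ A : ValuationSubring K, IsRationalPlace k K A ∧
      A.valuation (t - algebraMap k K a) < 1 := by
  have ht' : Transcendental k (t - algebraMap k K a) := by
    intro h
    have h1 := h.add (isAlgebraic_algebraMap (R := k) (A := K) a)
    rw [sub_add_cancel] at h1
    exact ht h1
  obtain ⟨A, hA, hAt⟩ := Bc.CoordAux.exists_place ht'
  exact ⟨A, isRational hn hc ht hy htop ha hs hA hAt, hAt⟩

end Exist

section Hensel

variable {E : Type v} [NormedField E] [IsUltrametricDist E]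

/-- Hensel's lemma. -/
theorem hensel [ProperSpace E] (F : (OE E)[X]) (x₀ : OE E) (h0 : ‖((F.eval x₀ : OE E) : E)‖ < 1)
    (h1 : ‖((F.derivative.eval x₀ : OE E) : E)‖ = 1) :
    ∃ x : OE E, F.eval x = 0 ∧ ‖(x - x₀ : E)‖ < 1 := by
  set ε : ℝ := ‖((F.eval x₀ : OE E) : E)‖ with hε
  set G : E[X] := F.map (OE E).subtype with hG
  have hGF : ∀ x : OE E, G.eval (x : E) = ((F.eval x : OE E) : E) := fun x => by
    rw [hG]
    exact eval_map_apply (OE E).subtype x
  have hball : ∀ x : E, x ∈ Metric.closedBall (x₀ : E) ε → x ∈ OE E := by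
    intro x hx
    rw [mem_closedBall_iff_norm] at hx
    have h2 : x = (x - x₀) + x₀ := by ring
    rw [h2]
    exact (IsUltrametricDist.norm_add_le_max _ _).trans (max_le (hx.trans h0.le) x₀.2)
  obtain ⟨x, hx, hmin⟩ := (isCompact_closedBall (x₀ : E) ε).exists_isMinOn
    ⟨x₀, Metric.mem_closedBall_self (norm_nonneg _)⟩ (f := fun x => ‖G.eval x‖)
    (G.continuous.norm.continuousOn)
  set z : OE E := ⟨x, hball x hx⟩ with hz
  have hzx : (z : E) = x := rfl
  have hzx0 : ‖(z - x₀ : E)‖ ≤ ε := by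
    rw [hzx]
    exact mem_closedBall_iff_norm.1 hx
  refine ⟨z, ?_, hzx0.trans_lt h0⟩
  by_contra hne
  have hsub : ∀ (P : (OE E)[X]) (u w : OE E), ‖((P.eval u - P.eval w : OE E) : E)‖ ≤
      ‖(u - w : E)‖ := by
    intro P u w
    obtain ⟨q, hq⟩ := P.evalSubFactor u w
    rw [hq, Subring.coe_mul, norm_mul]
    have h2 : ‖(q : E)‖ ≤ 1 := q.2
    calc ‖(q : E)‖ * ‖((u - w : OE E) : E)‖ ≤ 1 * ‖((u - w : OE E) : E)‖ := by gcongr
      _ = _ := by rw [one_mul]; rfl
  have hFz : ‖((F.eval z : OE E) : E)‖ ≤ ε := by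
    have h2 : ((F.eval z : OE E) : E) = ((F.eval z - F.eval x₀ : OE E) : E) +
        ((F.eval x₀ : OE E) : E) := by
      rw [← Subring.coe_add, sub_add_cancel]
    rw [h2]
    exact (IsUltrametricDist.norm_add_le_max _ _).trans (max_le ((hsub F z x₀).trans hzx0) le_rfl)
  have hF'z : ‖((F.derivative.eval z : OE E) : E)‖ = 1 := by
    have h2 : ((F.derivative.eval z : OE E) : E) = ((F.derivative.eval x₀ : OE E) : E) +
        ((F.derivative.eval z - F.derivative.eval x₀ : OE E) : E) := by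
      rw [← Subring.coe_add, add_sub_cancel]
    have h3 := ((hsub F.derivative z x₀).trans hzx0).trans_lt h0
    rw [h2, IsUltrametricDist.norm_add_eq_max_of_norm_ne_norm (by rw [h1]; exact h3.ne'), h1]
    exact max_eq_left h3.le
  have hFz0 : 0 < ‖((F.eval z : OE E) : E)‖ := by
    rw [norm_pos_iff]
    intro h2
    exact hne (Subtype.ext h2)
  have hF'0 : ((F.derivative.eval z : OE E) : E) ≠ 0 := by
    rw [← norm_pos_iff, hF'z]
    exact one_pos
  have hd : ‖-(((F.eval z : OE E) : E) / ((F.derivative.eval z : OE E) : E))‖ =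
      ‖((F.eval z : OE E) : E)‖ := by
    rw [norm_neg, norm_div, hF'z, div_one]
  set d : OE E := ⟨-(((F.eval z : OE E) : E) / ((F.derivative.eval z : OE E) : E)),
    hd.le.trans (hFz.trans h0.le)⟩ with hdd
  have hd' : ‖(d : E)‖ = ‖((F.eval z : OE E) : E)‖ := hd
  obtain ⟨e, he⟩ := F.binomExpansion z d
  have h2 : F.eval z + F.derivative.eval z * d = 0 := by
    apply Subtype.ext
    rw [Subring.coe_add, Subring.coe_mul, Subring.coe_zero]
    change ((F.eval z : OE E) : E) + ((F.derivative.eval z : OE E) : E) *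
      -(((F.eval z : OE E) : E) / ((F.derivative.eval z : OE E) : E)) = 0
    field_simp
    ring
  rw [h2, zero_add] at he
  have h3 : ‖((F.eval (z + d) : OE E) : E)‖ < ‖((F.eval z : OE E) : E)‖ := by
    rw [he, Subring.coe_mul, Subring.coe_pow, norm_mul, norm_pow, hd']
    have h4 : ‖(e : E)‖ ≤ 1 := e.2
    calc ‖(e : E)‖ * ‖((F.eval z : OE E) : E)‖ ^ 2 ≤ 1 * ‖((F.eval z : OE E) : E)‖ ^ 2 := by
          gcongr
      _ < ‖((F.eval z : OE E) : E)‖ := by
          rw [one_mul, pow_two]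
          exact mul_lt_of_lt_one_right hFz0 (hFz.trans_lt h0)
  have h4 : ((z + d : OE E) : E) ∈ Metric.closedBall (x₀ : E) ε := by
    rw [mem_closedBall_iff_norm]
    have h5 : ((z + d : OE E) : E) - x₀ = (z - x₀ : E) + d := by
      rw [Subring.coe_add]
      ring
    rw [h5]
    exact (IsUltrametricDist.norm_add_le_max _ _).trans (max_le hzx0 (hd'.le.trans hFz))
  have h5 := hmin h4
  change ‖G.eval x‖ ≤ ‖G.eval ((z + d : OE E) : E)‖ at h5
  rw [hGF, ← hzx, hGF] at h5
  exact absurd h3 (not_lt.2 h5)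

end Hensel

section Zero

variable {k : Type v} {K : Type u} [Field k] [Field K] [Algebra k K] {A : ValuationSubring K}

theorem mem_of_near (hA : ∀ c : k, algebraMap k K c ∈ A) {t : K} {a : k}
    (ht : A.valuation (t - algebraMap k K a) < 1) : t ∈ A := by
  rw [← A.valuation_le_one_iff]
  have h1 : t = (t - algebraMap k K a) + algebraMap k K a := by ring
  rw [h1]
  exact (Valuation.map_add _ _ _).trans (max_le ht.le ((A.valuation_le_one_iff _).2 (hA a)))

/-- Congruent arguments give congruent values. -/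
theorem val_sub_eval (hA : ∀ c : k, algebraMap k K c ∈ A) {t : K} {a : k}
    (ht : A.valuation (t - algebraMap k K a) < 1) (P : k[X]) :
    A.valuation (aeval t P - algebraMap k K (P.eval a)) < 1 := by
  have htA := mem_of_near hA ht
  obtain ⟨q, hq⟩ := X_sub_C_dvd_sub_C_eval (a := a) (p := P)
  have h3 : aeval t P - algebraMap k K (P.eval a) = (t - algebraMap k K a) * aeval t q := by
    have h4 := congrArg (aeval t) hq
    rw [map_mul, map_sub, map_sub, aeval_X, aeval_C, aeval_C] at h4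
    exact h4
  have h4 : A.valuation (aeval t q) ≤ 1 := by
    rw [A.valuation_le_one_iff, aeval_eq_sum_range]
    refine sum_mem fun i _ => ?_
    rw [Algebra.smul_def]
    exact mul_mem (hA _) (pow_mem htA i)
  rw [h3, map_mul]
  exact mul_lt_one_of_lt_of_le ht h4

theorem eq_of_near (hA : ∀ c : k, algebraMap k K c ∈ A) {z : K} {a b : k}
    (ha : A.valuation (z - algebraMap k K a) < 1) (hb : A.valuation (z - algebraMap k K b) < 1) :
    a = b := by
  by_contra hne
  have h1 := val_const hA (sub_ne_zero.2 hne)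
  have h2 : algebraMap k K (a - b) = (z - algebraMap k K b) - (z - algebraMap k K a) := by
    rw [map_sub]
    ring
  rw [h2] at h1
  exact absurd ((Valuation.map_sub _ _ _).trans_lt (max_lt hb ha)) (not_lt.2 h1.ge)

/-- If `w ^ n` has the value `e` at the rational place `A` then `w` has a value `η`, `η ^ n = e`. -/
theorem root_near (hA : IsRationalPlace k K A) {n : ℕ} (hn : n ≠ 0) {w : K} {e : k}
    (h : A.valuation (w ^ n - algebraMap k K e) < 1) :
    ∃ η : k, A.valuation (w - algebraMap k K η) < 1 ∧ η ^ n = e := by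
  have h1 : w ^ n ∈ A := mem_of_near hA.const_mem h
  have h2 : w ∈ A := by
    rw [← A.valuation_le_one_iff] at h1 ⊢
    rw [map_pow] at h1
    exact (pow_le_one_iff hn).1 h1
  obtain ⟨η, hη⟩ := hA.residue w h2
  refine ⟨η, hη, ?_⟩
  have h3 := val_sub_eval hA.const_mem hη (X ^ n)
  rw [map_pow, aeval_X, eval_pow, eval_X] at h3
  exact eq_of_near hA.const_mem h3 h

end Zero

section NormPoly

variable {k : Type v} [NormedField k] [IsUltrametricDist k]

theorem norm_sum_lt' {ι : Type*} (s : Finset ι) (f : ι → k) {B : ℝ} (hB : 0 < B)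
    (h : ∀ i ∈ s, ‖f i‖ < B) : ‖∑ i ∈ s, f i‖ < B := by
  classical
  induction s using Finset.induction_on with
  | empty => simpa using hB
  | insert a s ha ih =>
    rw [Finset.sum_insert ha]
    refine (IsUltrametricDist.norm_add_le_max _ _).trans_lt (max_lt ?_ ?_)
    · exact h a (Finset.mem_insert_self a s)
    · exact ih fun i hi => h i (Finset.mem_insert_of_mem hi)

theorem norm_eval_le {f : k[X]} (hfi : ∀ i, ‖f.coeff i‖ ≤ 1) {x : k} (hx : ‖x‖ ≤ 1) :
    ‖f.eval x‖ ≤ 1 := by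
  rw [eval_eq_sum_range]
  refine IsUltrametricDist.norm_sum_le_of_forall_le_of_nonneg zero_le_one fun i _ => ?_
  rw [norm_mul, norm_pow]
  exact mul_le_one₀ (hfi i) (by positivity) (pow_le_one₀ (norm_nonneg _) hx)

theorem norm_eval_gt {f : k[X]} (hfi : ∀ i, ‖f.coeff i‖ ≤ 1) (hlead : ‖f.leadingCoeff‖ = 1)
    {x : k} (hx : 1 < ‖x‖) : ‖f.eval x‖ = ‖x‖ ^ f.natDegree := by
  have h0 : 0 < ‖x‖ := one_pos.trans hx
  rw [eval_eq_sum_range, Finset.sum_range_succ]
  have h1 : ‖f.coeff f.natDegree * x ^ f.natDegree‖ = ‖x‖ ^ f.natDegree := by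
    rw [norm_mul, norm_pow, coeff_natDegree, hlead, one_mul]
  have h2 : ‖∑ i ∈ Finset.range f.natDegree, f.coeff i * x ^ i‖ < ‖x‖ ^ f.natDegree := by
    refine norm_sum_lt' _ _ (pow_pos h0 _) fun i hi => ?_
    rw [norm_mul, norm_pow]
    calc ‖f.coeff i‖ * ‖x‖ ^ i ≤ 1 * ‖x‖ ^ i := by
          gcongr
          exact hfi i
      _ < ‖x‖ ^ f.natDegree := by
          rw [one_mul]
          exact pow_lt_pow_right₀ hx (Finset.mem_range.1 hi)
  rw [IsUltrametricDist.norm_add_eq_max_of_norm_ne_norm (by rw [h1]; exact h2.ne), h1]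
  exact max_eq_right h2.le

/-- Hensel's lemma. -/
theorem hensel' [ProperSpace k] {f : k[X]} (hfi : ∀ i, ‖f.coeff i‖ ≤ 1) {x : k} (hx : ‖x‖ ≤ 1)
    (h0 : ‖f.eval x‖ < 1) (h1 : ‖f.derivative.eval x‖ = 1) :
    ∃ a : k, ‖a‖ ≤ 1 ∧ f.eval a = 0 ∧ ‖x - a‖ < 1 := by
  have hsub : (↑f.coeffs : Set k) ⊆ OE k := by
    intro c hc
    obtain ⟨i, -, rfl⟩ := mem_coeffs_iff.1 hc
    exact hfi i
  set F : (OE k)[X] := f.toSubring (OE k) hsub with hF
  have hmap : F.map (OE k).subtype = f := map_toSubring f (OE k) hsub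
  have hev : ∀ z : OE k, ((F.eval z : OE k) : k) = f.eval (z : k) := fun z => by
    rw [← hmap]
    exact (eval_map_apply (OE k).subtype z).symm
  have hev' : ∀ z : OE k, ((F.derivative.eval z : OE k) : k) = f.derivative.eval (z : k) :=
    fun z => by
      rw [← hmap, derivative_map]
      exact (eval_map_apply (OE k).subtype z).symm
  obtain ⟨a, ha, hxa⟩ := hensel F ⟨x, hx⟩ (by rw [hev]; exact h0) (by rw [hev']; exact h1)
  refine ⟨a, a.2, ?_, ?_⟩
  · rw [← hev, ha]
    rfl
  · rw [norm_sub_rev]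
    exact hxa

end NormPoly

/-- A rational place of `y ^ n = c f(t)`, `|c|` not an `n`-th power, gives a zero of `f`. -/
theorem zero_of_place {k : Type v} {K : Type u} [NormedField k] [IsUltrametricDist k]
    [ProperSpace k] [Field K] [Algebra k K] {n : ℕ} (hn : n ≠ 0) {c : k} {f : k[X]}
    (hfi : ∀ i, ‖f.coeff i‖ ≤ 1) (hlead : ‖f.leadingCoeff‖ = 1)
    (hdisc : ∀ x : k, ‖x‖ ≤ 1 → ‖f.eval x‖ < 1 → ‖f.derivative.eval x‖ = 1)
    (hc : ∀ b : k, ‖b‖ ^ n ≠ ‖c‖) (hd : n ∣ f.natDegree) {t y : K}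
    (hy : y ^ n = algebraMap k K c * aeval t f) {A : ValuationSubring K}
    (hA : IsRationalPlace k K A) :
    ∃ τ a η : k, ‖τ‖ ≤ 1 ∧ ‖a‖ ≤ 1 ∧ f.eval a = 0 ∧ ‖τ - a‖ < 1 ∧
      A.valuation (t - algebraMap k K τ) < 1 ∧ A.valuation (y - algebraMap k K η) < 1 ∧
      η ^ n = c * f.eval τ := by
  obtain ⟨m, hm⟩ := hd
  by_cases htA : t ∈ A
  · obtain ⟨τ, hτ⟩ := hA.residue t htA
    have h1 := val_sub_eval hA.const_mem hτ (C c * f)
    rw [map_mul, aeval_C, ← hy, eval_mul, eval_C] at h1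
    obtain ⟨η, hη, hηn⟩ := root_near hA hn h1
    have hηn' : ‖η‖ ^ n = ‖c‖ * ‖f.eval τ‖ := by rw [← norm_pow, hηn, norm_mul]
    have hτ1 : ‖τ‖ ≤ 1 := by
      by_contra hgt
      rw [not_le] at hgt
      have h2 := norm_eval_gt hfi hlead hgt
      rw [h2, hm, mul_comm n m, pow_mul] at hηn'
      have h3 : ‖τ‖ ^ m ≠ 0 := (pow_pos (one_pos.trans hgt) _).ne'
      refine hc (η / τ ^ m) ?_
      rw [norm_div, norm_pow, div_pow, hηn', mul_div_assoc, div_self (pow_ne_zero _ h3), mul_one]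
    have hfτ : ‖f.eval τ‖ < 1 := by
      refine lt_of_le_of_ne (norm_eval_le hfi hτ1) fun h2 => hc η ?_
      rw [hηn', h2, mul_one]
    obtain ⟨a, ha, hfa, hτa⟩ := hensel' hfi hτ1 hfτ (hdisc τ hτ1 hfτ)
    exact ⟨τ, a, η, hτ1, ha, hfa, hτa, hτ, hη, hηn⟩
  · exfalso
    have ht0 : t ≠ 0 := by
      rintro rfl
      exact htA (zero_mem A)
    have hs : A.valuation (t⁻¹ - algebraMap k K 0) < 1 := by
      rw [map_zero, sub_zero, map_inv₀]
      have h1 : 1 < A.valuation t := by
        rw [← not_le, A.valuation_le_one_iff]; exact htA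
      exact inv_lt_one_of_one_lt₀ h1
    have h1 := val_sub_eval hA.const_mem hs (C c * f.reverse)
    have h2 : (y * t⁻¹ ^ m) ^ n = aeval t⁻¹ (C c * f.reverse) := by
      let _ : Invertible t := invertibleOfNonzero ht0
      have h3 := eval₂_reverse_mul_pow (algebraMap k K) t f
      rw [invOf_eq_inv] at h3
      rw [map_mul, aeval_C, mul_pow, hy, aeval_def, aeval_def, ← h3, hm, ← pow_mul, mul_comm m n,
        mul_assoc, mul_assoc, ← mul_pow, mul_inv_cancel₀ ht0, one_pow, mul_one]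
    rw [← h2, eval_mul, eval_C, ← coeff_zero_eq_eval_zero, coeff_zero_reverse] at h1
    obtain ⟨η, -, hη⟩ := root_near hA hn h1
    refine hc η ?_
    rw [← norm_pow, hη, norm_mul, hlead, mul_one]

section Padic

variable (p : ℕ) [Fact p.Prime] {k : Type} {K : Type u} [Field k] [Algebra ℚ_[p] k]
  [FiniteDimensional ℚ_[p] k] [Field K] [Algebra k K]

/-- A rational place of `y ^ n = c f(t)`, `|c|` not an `n`-th power, gives a zero of `f`. -/
theorem zero_of_rational {n : ℕ} (hn : n ≠ 0) {c : k} {f : k[X]}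
    (hfi : ∀ i, spectralNorm ℚ_[p] k (f.coeff i) ≤ 1)
    (hlead : spectralNorm ℚ_[p] k f.leadingCoeff = 1)
    (hdisc : ∀ x : k, spectralNorm ℚ_[p] k x ≤ 1 → spectralNorm ℚ_[p] k (f.eval x) < 1 →
      spectralNorm ℚ_[p] k (f.derivative.eval x) = 1)
    (hc : ∀ b : k, spectralNorm ℚ_[p] k b ^ n ≠ spectralNorm ℚ_[p] k c) (hd : n ∣ f.natDegree)
    {t y : K} (hy : y ^ n = algebraMap k K c * aeval t f) {A : ValuationSubring K}
    (hA : IsRationalPlace k K A) :
    ∃ τ a η : k, spectralNorm ℚ_[p] k τ ≤ 1 ∧ spectralNorm ℚ_[p] k a ≤ 1 ∧ f.eval a = 0 ∧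
      spectralNorm ℚ_[p] k (τ - a) < 1 ∧ A.valuation (t - algebraMap k K τ) < 1 ∧
      A.valuation (y - algebraMap k K η) < 1 ∧ η ^ n = c * f.eval τ := by
  let _ : NormedField k := spectralNorm.normedField ℚ_[p] k
  let _ : NormedAlgebra ℚ_[p] k := spectralNorm.normedAlgebra ℚ_[p] k
  have hpr : ProperSpace k := FiniteDimensional.proper ℚ_[p] k
  have hu : IsUltrametricDist k :=
    IsUltrametricDist.isUltrametricDist_of_forall_norm_add_le_max_norm fun x y =>
      isNonarchimedean_spectralNorm (K := ℚ_[p]) (L := k) x y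
  exact zero_of_place hn hfi hlead hdisc hc hd hy hA

end Padic

end Pool.Agent.Lib.MP_c385f6_ag.TPG.Sup
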