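import Pool.Agent.Lib.MP_c385f6_ag.TPG.SupF
import Pool.Agent.Lib.MP_c385f6_ag.TPG.SupP
import Pool.Agent.Lib.MP_c385f6_ag.TPG.FinDefs
import Pool.Agent.Lib.MP_c385f6_ag.PlaceSection

/-!
Project TPG, explicit family: rational places with the same reduction.
-/

set_option autoImplicit false

open Polynomial

namespace Pool.Agent.Lib.MP_c385f6_ag.TPG.Sup

universe u v w

section near

variable {F : Type v} {L : Type u} [Field F] [Field L] [Algebra F L] {V : ValuationSubring L}

/-- Valuation rings are integrally closed. -/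
theorem mem_of_int {R : Type w} [CommRing R] (φ : R →+* L) (hφ : ∀ r, φ r ∈ V) {x : L}
    (hx : φ.IsIntegralElem x) : x ∈ V := by
  obtain ⟨q, hq, hqx⟩ := hx
  let φ' : R →+* V := φ.codRestrict V.toSubring hφ
  have h1 : IsIntegral V x := by
    refine ⟨q.map φ', hq.map _, ?_⟩
    rw [eval₂_map, ← hqx]
    rfl
  obtain ⟨y, hy⟩ := IsIntegrallyClosed.isIntegral_iff.1 h1
  rw [← hy]
  exact y.2

theorem near_mul (hV : ∀ c : F, algebraMap F L c ∈ V) {x y : L} {a b : F}
    (hx : V.valuation (x - algebraMap F L a) < 1) (hy : V.valuation (y - algebraMap F L b) < 1) :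
    V.valuation (x * y - algebraMap F L (a * b)) < 1 := by
  have hyV := mem_of_near hV hy
  have h1 : x * y - algebraMap F L (a * b) = (x - algebraMap F L a) * y +
      algebraMap F L a * (y - algebraMap F L b) := by
    rw [map_mul]
    ring
  rw [h1]
  refine (Valuation.map_add _ _ _).trans_lt (max_lt ?_ ?_)
  · rw [map_mul]
    exact mul_lt_one_of_lt_of_le hx ((V.valuation_le_one_iff _).2 hyV)
  · rw [map_mul, mul_comm]
    exact mul_lt_one_of_lt_of_le hy ((V.valuation_le_one_iff _).2 (hV a))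

theorem near_sum {ι : Type*} (s : Finset ι) (x : ι → L) (a : ι → F)
    (h : ∀ i ∈ s, V.valuation (x i - algebraMap F L (a i)) < 1) :
    V.valuation (∑ i ∈ s, x i - algebraMap F L (∑ i ∈ s, a i)) < 1 := by
  rw [map_sum, ← Finset.sum_sub_distrib]
  classical
  induction s using Finset.induction_on with
  | empty => simp
  | insert i s hi ih =>
    rw [Finset.sum_insert hi]
    refine (Valuation.map_add _ _ _).trans_lt (max_lt (h i (Finset.mem_insert_self _ _)) ?_)
    exact ih fun j hj => h j (Finset.mem_insert_of_mem hj)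

end near

section

variable (p : ℕ) [Fact p.Prime] (k k' : Type) {K : Type u} (K' : Type u) [Field k] [Field k']
  [Field K] [Field K'] [Algebra ℚ_[p] k] [FiniteDimensional ℚ_[p] k] [Algebra ℚ_[p] k']
  [FiniteDimensional ℚ_[p] k'] [Algebra k k'] [IsScalarTower ℚ_[p] k k'] [Algebra k K]
  [Algebra k' K'] [Algebra K K'] [Algebra k K'] [IsScalarTower k k' K'] [IsScalarTower k K K']

/-- Elements of the model over `O_k` are elements of the model over `O_k'`. -/
theorem model_up {t g : K} (hg : g ∈ modelRing p k t) :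
    (psi p k' (algebraMap K K' t)).IsIntegralElem (algebraMap K K' g) := by
  rw [int_iff] at hg
  obtain ⟨q, hq, hqg⟩ := hg
  refine ⟨q.map (mapRingHom (extO p k k')), hq.map _, ?_⟩
  rw [eval₂_map]
  have h1 : (psi p k' (algebraMap K K' t)).comp (mapRingHom (extO p k k')) =
      (algebraMap K K').comp (psi p k t) := by
    refine ringHom_ext (fun c => ?_) ?_
    · rw [RingHom.comp_apply, RingHom.comp_apply, coe_mapRingHom, Polynomial.map_C, psi_C, psi_C,
        extO_val, ← IsScalarTower.algebraMap_apply k k' K', ← IsScalarTower.algebraMap_apply k K K']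
    · rw [RingHom.comp_apply, RingHom.comp_apply, coe_mapRingHom, Polynomial.map_X, psi_X, psi_X]
  rw [h1, ← hom_eval₂, hqg, map_zero]

theorem val_O (g : (O p k)[X]) (x : O p k) :
    ((g.eval x : O p k) : k) = (g.map (algebraMap (O p k) k)).eval (x : k) := by
  rw [eval_map]
  exact (hom_eval₂ g (RingHom.id _) (algebraMap (O p k) k) x).symm.trans (by rfl) |>.symm

omit [Fact p.Prime] [Algebra ℚ_[p] k] [FiniteDimensional ℚ_[p] k] [Algebra ℚ_[p] k']
  [FiniteDimensional ℚ_[p] k'] [IsScalarTower ℚ_[p] k k'] in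
/-- A valuation ring above a rational place. -/
theorem above [Algebra.IsAlgebraic k k'] {A : ValuationSubring K} (hA : IsRationalPlace k K A) :
    ∃ V : ValuationSubring K', (∀ z : K, A.valuation z < 1 →
      V.valuation (algebraMap K K' z) < 1) ∧ ∀ c : k', algebraMap k' K' c ∈ V := by
  obtain ⟨V, hV1, hV2⟩ := exists_above (K := K) (Ω := K') A
  refine ⟨V, fun z hz => hV2 z ((A.valuation_le_one_iff _).1 hz.le) hz, fun c => ?_⟩
  refine mem_of_int (V := V) (algebraMap k K') (fun r => ?_) ?_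
  · rw [IsScalarTower.algebraMap_apply k K K']
    exact hV1 _ (hA.const_mem r)
  · obtain ⟨q, hq, hqc⟩ := Algebra.IsIntegral.isIntegral (R := k) c
    refine ⟨q, hq, ?_⟩
    rw [IsScalarTower.algebraMap_eq k k' K', ← hom_eval₂, hqc, map_zero]

omit [Fact p.Prime] [Algebra ℚ_[p] k] [FiniteDimensional ℚ_[p] k] [Algebra ℚ_[p] k']
  [FiniteDimensional ℚ_[p] k'] [IsScalarTower ℚ_[p] k k'] in
/-- The value of an element given by a representation over `k'`. -/
theorem val_rep [Algebra.IsAlgebraic k k'] {A : ValuationSubring K} (hA : IsRationalPlace k K A)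
    {n : ℕ} {t y g : K} {γ : k'} (s : ℕ → k'[X])
    (hs : algebraMap K K' g = ∑ i ∈ Finset.range n, aeval (algebraMap K K' t) (s i) *
      (algebraMap K K' y * algebraMap k' K' γ⁻¹) ^ i) {τ η : k}
    (hτ : A.valuation (t - algebraMap k K τ) < 1) (hη : A.valuation (y - algebraMap k K η) < 1) :
    ∃ b : k, A.valuation (g - algebraMap k K b) < 1 ∧ algebraMap k k' b =
      ∑ i ∈ Finset.range n, (s i).eval (algebraMap k k' τ) * (algebraMap k k' η * γ⁻¹) ^ i := by
  obtain ⟨V, hV, hVk⟩ := above k k' K' hA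
  have hVK : ∀ (z : K) (c : k), A.valuation (z - algebraMap k K c) < 1 →
      V.valuation (algebraMap K K' z - algebraMap k' K' (algebraMap k k' c)) < 1 := by
    intro z c h
    have h1 := hV _ h
    rwa [map_sub, ← IsScalarTower.algebraMap_apply k K K',
      IsScalarTower.algebraMap_apply k k' K'] at h1
  have hVt := hVK t τ hτ
  have hVy : V.valuation (algebraMap K K' y * algebraMap k' K' γ⁻¹ -
      algebraMap k' K' (algebraMap k k' η * γ⁻¹)) < 1 :=
    near_mul hVk (hVK y η hη) (by rw [sub_self, map_zero]; exact one_pos)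
  have hVg : V.valuation (algebraMap K K' g - algebraMap k' K' (∑ i ∈ Finset.range n,
      (s i).eval (algebraMap k k' τ) * (algebraMap k k' η * γ⁻¹) ^ i)) < 1 := by
    rw [hs]
    refine near_sum _ _ _ fun i _ => near_mul hVk (val_sub_eval hVk hVt _) ?_
    have h2 := val_sub_eval hVk hVy (X ^ i)
    rwa [map_pow, aeval_X, eval_pow, eval_X] at h2
  have hgA : g ∈ A := by
    by_contra hgA
    have hg0 : g ≠ 0 := by
      rintro rfl
      exact hgA (zero_mem A)
    have h1 : A.valuation g⁻¹ < 1 := by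
      rw [← A.valuation_le_one_iff, not_le] at hgA
      rw [map_inv₀]
      exact inv_lt_one_of_one_lt₀ hgA
    have h2 := hV _ h1
    have h3 : algebraMap K K' g ∈ V := mem_of_near hVk hVg
    rw [← V.valuation_le_one_iff] at h3
    have h4 : V.valuation (algebraMap K K' g⁻¹) * V.valuation (algebraMap K K' g) = 1 := by
      rw [← map_mul, ← map_mul, inv_mul_cancel₀ hg0, map_one, map_one]
    exact absurd h4 (mul_lt_one_of_lt_of_le h2 h3).ne
  obtain ⟨b, hb⟩ := hA.residue g hgA
  exact ⟨b, hb, eq_of_near hVk (hVK g b hb) hVg⟩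

/-- The reduction of the value. -/
theorem norm_rep {n : ℕ} (hn : n ≠ 0) (s : ℕ → (O p k)[X]) {a x η : k}
    (ha : spectralNorm ℚ_[p] k a ≤ 1) (hx : spectralNorm ℚ_[p] k (x - a) < 1)
    (hη : spectralNorm ℚ_[p] k η < 1) :
    spectralNorm ℚ_[p] k (∑ i ∈ Finset.range n, ((s i).map (algebraMap (O p k) k)).eval x * η ^ i -
      ((s 0).eval ⟨a, ha⟩ : O p k)) < 1 := by
  have hx' : spectralNorm ℚ_[p] k x ≤ 1 := by
    have h1 : x = (x - a) + a := by ring
    rw [h1]
    exact (sn_add p k _ _).trans (max_le hx.le ha)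
  have hres : IsLocalRing.residue (O p k) ⟨x, hx'⟩ = IsLocalRing.residue (O p k) ⟨a, ha⟩ := by
    rw [← sub_eq_zero, ← map_sub, res_eq_zero_iff]
    exact hx
  have hres' : ∀ P : (O p k)[X], IsLocalRing.residue (O p k) (P.eval ⟨x, hx'⟩) =
      IsLocalRing.residue (O p k) (P.eval ⟨a, ha⟩) := by
    intro P
    rw [← eval_map_apply, ← eval_map_apply, hres]
  have hresη : IsLocalRing.residue (O p k) ⟨η, hη.le⟩ = 0 := (res_eq_zero_iff p k ⟨η, hη.le⟩).2 hη
  have h1 : ((∑ i ∈ Finset.range n, (s i).eval ⟨x, hx'⟩ * (⟨η, hη.le⟩ : O p k) ^ i : O p k) : k) =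
      ∑ i ∈ Finset.range n, ((s i).map (algebraMap (O p k) k)).eval x * η ^ i := by
    have h2 := map_sum (O p k).subtype
      (fun i => (s i).eval ⟨x, hx'⟩ * (⟨η, hη.le⟩ : O p k) ^ i) (Finset.range n)
    rw [ValuationSubring.subtype_apply] at h2
    rw [h2]
    refine Finset.sum_congr rfl fun i _ => ?_
    rw [map_mul, map_pow]
    congr 1
    exact val_O p k (s i) ⟨x, hx'⟩
  rw [← h1]
  refine (res_eq_zero_iff p k (∑ i ∈ Finset.range n, (s i).eval ⟨x, hx'⟩ *
    (⟨η, hη.le⟩ : O p k) ^ i - (s 0).eval ⟨a, ha⟩)).1 ?_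
  rw [map_sub, sub_eq_zero, map_sum, Finset.sum_eq_single 0]
  · rw [pow_zero, mul_one, hres']
  · intro i _ hi
    rw [map_mul, map_pow, hresη, zero_pow hi, mul_zero]
  · intro h1
    exact absurd (Finset.mem_range.2 (Nat.pos_of_ne_zero hn)) h1

/-- Values of `f` near a zero. -/
theorem f_small {f : k[X]} (hf : ∀ i, spectralNorm ℚ_[p] k (f.coeff i) ≤ 1) {a x : k}
    (ha : spectralNorm ℚ_[p] k a ≤ 1) (hx : spectralNorm ℚ_[p] k (x - a) < 1)
    (hfa : f.eval a = 0) : spectralNorm ℚ_[p] k (f.eval x) < 1 := by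
  obtain ⟨h, hh, -⟩ := exists_lift_O p k hf
  have h1 := norm_rep p k one_ne_zero (fun _ => h) (η := 0) ha hx
    (by rw [sn_zero]; exact one_pos)
  rw [Finset.sum_range_one, pow_zero, mul_one, val_O, hh] at h1
  rwa [hfa, sub_zero] at h1

/-- The data of the curve over `k'`. -/
theorem rep_up {n : ℕ} (hn : 2 ≤ n) (hp : ¬ p ∣ n) {f : k[X]}
    (hf : ∀ i, spectralNorm ℚ_[p] k (f.coeff i) ≤ 1)
    (hl : spectralNorm ℚ_[p] k f.leadingCoeff = 1)
    (hdisc : spectralNorm ℚ_[p] k f.discr = 1) (hd : 0 < f.natDegree)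
    {c : k} (hc : c ≠ 0) [Algebra.IsAlgebraic k k']
    (hcomp : IntermediateField.adjoin K (Set.range (algebraMap k' K')) = ⊤) {t y : K}
    (ht : Transcendental k t) (hy : y ^ n = algebraMap k K c * aeval t f)
    (hgen : IntermediateField.adjoin k {t, y} = ⊤) {γ : k'} (hγ0 : γ ≠ 0)
    (hγ : γ ^ n = algebraMap k k' c) {g : K} (hg : g ∈ modelRing p k t) :
    ∃ s : ℕ → (O p k')[X], algebraMap K K' g = ∑ i ∈ Finset.range n,
      aeval (algebraMap K K' t) ((s i).map (algebraMap (O p k') k')) *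
      (algebraMap K K' y * algebraMap k' K' γ⁻¹) ^ i := by
  have hn0 : n ≠ 0 := by omega
  obtain ⟨h, hh, hhs, hhs', hhd, hhl⟩ := data p k k' hf hl hdisc hd
  have ht' := trans' (k := k) (k' := k') (K' := K') ht
  have hyn : (algebraMap K K' y * algebraMap k' K' γ⁻¹) ^ n = psi p k' (algebraMap K K' t) h := by
    rw [psi_apply, hh]
    exact yn (k := k) (k' := k') (K' := K') hc hy hγ
  have hgen' := gen' (k := k) k' K' hcomp hgen hγ0
  have hhu : ¬ IsUnit h := by
    intro h
    have := natDegree_eq_zero_of_isUnit h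
    omega
  obtain ⟨s, hs⟩ := rep (psi p k' (algebraMap K K' t)) (psi_inj p k' ht') (Nat.pos_of_ne_zero hn0)
    hhs hhu hyn (by
      rw [← C_eq_natCast]
      exact isUnit_C.2 (nat_unit p k' hp)) (gen p k' hgen') (model_up p k k' K' hg)
  refine ⟨s, ?_⟩
  rw [hs]
  refine Finset.sum_congr rfl fun i _ => ?_
  rw [psi_apply]

/-- The values of an element of the model at the rational places near a zero of `f`. -/
theorem model_val {n : ℕ} (hn : 2 ≤ n) (hp : ¬ p ∣ n) {f : k[X]}
    (hf : ∀ i, spectralNorm ℚ_[p] k (f.coeff i) ≤ 1)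
    (hl : spectralNorm ℚ_[p] k f.leadingCoeff = 1)
    (hdisc : spectralNorm ℚ_[p] k f.discr = 1) (hd : 0 < f.natDegree)
    {c : k} (hc : c ≠ 0) (hsp : IsSplittingField k k' (X ^ n - C c))
    (hcomp : IntermediateField.adjoin K (Set.range (algebraMap k' K')) = ⊤) {t y : K}
    (ht : Transcendental k t) (hy : y ^ n = algebraMap k K c * aeval t f)
    (hgen : IntermediateField.adjoin k {t, y} = ⊤) {a : k} (ha : spectralNorm ℚ_[p] k a ≤ 1)
    (hfa : f.eval a = 0) {g : K} (hg : g ∈ modelRing p k t) :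
    ∃ e : O p k', ∀ A : ValuationSubring K, IsRationalPlace k K A → ∀ τ : k,
      spectralNorm ℚ_[p] k (τ - a) < 1 → A.valuation (t - algebraMap k K τ) < 1 →
      ∃ b : k, A.valuation (g - algebraMap k K b) < 1 ∧
        spectralNorm ℚ_[p] k' (algebraMap k k' b - e) < 1 := by
  have hn0 : n ≠ 0 := by omega
  have hfk : FiniteDimensional k k' := IsSplittingField.finiteDimensional k' (X ^ n - C c)
  obtain ⟨γ, hγ⟩ : ∃ γ : k', γ ^ n = algebraMap k k' c := by
    have h1 : ((X ^ n - C c : k[X]).map (algebraMap k k')).Splits := hsp.splits'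
    have h2 : ((X ^ n - C c : k[X]).map (algebraMap k k')).degree ≠ 0 := by
      rw [Polynomial.map_sub, Polynomial.map_pow, map_X, map_C,
        degree_X_pow_sub_C (Nat.pos_of_ne_zero hn0)]
      exact_mod_cast hn0
    obtain ⟨γ, hγ⟩ := h1.exists_eval_eq_zero h2
    refine ⟨γ, ?_⟩
    rw [eval_map, eval₂_sub, eval₂_X_pow, eval₂_C, sub_eq_zero] at hγ
    exact hγ
  have hγ0 : γ ≠ 0 := by
    rintro rfl
    rw [zero_pow hn0] at hγ
    exact hc ((algebraMap k k').injective (by rw [← hγ, map_zero]))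
  obtain ⟨s, hs⟩ := rep_up p k k' K' hn hp hf hl hdisc hd hc hcomp ht hy hgen hγ0 hγ hg
  have ha' : spectralNorm ℚ_[p] k' (algebraMap k k' a) ≤ 1 := by
    rw [sn_ext]
    exact ha
  refine ⟨(s 0).eval ⟨algebraMap k k' a, ha'⟩, fun A hA τ hτ hAτ => ?_⟩
  -- the value of `y`
  obtain ⟨η, hη1, hη2⟩ := root_near hA hn0 (w := y) (e := c * f.eval τ) (by
    have h1 := val_sub_eval hA.const_mem hAτ (C c * f)
    rwa [map_mul, aeval_C, ← hy, eval_mul, eval_C] at h1)
  obtain ⟨b, hb1, hb2⟩ := val_rep k k' K' hA (γ := γ) _ hs hAτ hη1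
  refine ⟨b, hb1, ?_⟩
  have hη' : (algebraMap k k' η * γ⁻¹) ^ n = algebraMap k k' (f.eval τ) := by
    rw [mul_pow, ← map_pow, hη2, inv_pow, hγ, map_mul, mul_comm (algebraMap k k' c), mul_assoc,
      mul_inv_cancel₀ (by rwa [Ne, map_eq_zero]), mul_one]
  have hηn : spectralNorm ℚ_[p] k' (algebraMap k k' η * γ⁻¹) < 1 := by
    by_contra hcon
    rw [not_lt] at hcon
    have h1 := one_le_pow₀ hcon (n := n)
    rw [← sn_pow, hη', sn_ext] at h1
    exact absurd (f_small p k hf ha hτ hfa) (not_lt.2 h1)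
  rw [hb2]
  refine norm_rep p k' hn0 s ha' ?_ hηn
  rw [← map_sub, sn_ext]
  exact hτ

/-- Rational places near the same zero of `f` have the same reduction. -/
theorem sameRed_near {n : ℕ} (hn : 2 ≤ n) (hp : ¬ p ∣ n) {f : k[X]}
    (hf : ∀ i, spectralNorm ℚ_[p] k (f.coeff i) ≤ 1)
    (hl : spectralNorm ℚ_[p] k f.leadingCoeff = 1)
    (hdisc : spectralNorm ℚ_[p] k f.discr = 1) (hd : 0 < f.natDegree)
    {c : k} (hc : c ≠ 0) (hsp : IsSplittingField k k' (X ^ n - C c))
    (hcomp : IntermediateField.adjoin K (Set.range (algebraMap k' K')) = ⊤) {t y : K}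
    (ht : Transcendental k t) (hy : y ^ n = algebraMap k K c * aeval t f)
    (hgen : IntermediateField.adjoin k {t, y} = ⊤) (A A' : ValuationSubring K)
    (hA : IsRationalPlace k K A) (hA' : IsRationalPlace k K A') (a τ τ' : k)
    (ha : spectralNorm ℚ_[p] k a ≤ 1) (hfa : f.eval a = 0)
    (hτ : spectralNorm ℚ_[p] k (τ - a) < 1) (hτ' : spectralNorm ℚ_[p] k (τ' - a) < 1)
    (hAτ : A.valuation (t - algebraMap k K τ) < 1)
    (hAτ' : A'.valuation (t - algebraMap k K τ') < 1) : SameRed p k t A A' := by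
  refine ⟨t, by simp, fun g hg => ?_⟩
  obtain ⟨e, he⟩ := model_val p k k' K' hn hp hf hl hdisc hd hc hsp hcomp ht hy hgen ha hfa hg
  obtain ⟨b, hb1, hb2⟩ := he A hA τ hτ hAτ
  obtain ⟨b', hb1', hb2'⟩ := he A' hA' τ' hτ' hAτ'
  have hle : ∀ x : k, spectralNorm ℚ_[p] k' (algebraMap k k' x - e) < 1 →
      spectralNorm ℚ_[p] k x ≤ 1 := by
    intro x hx
    rw [← sn_ext p k k']
    have h1 : algebraMap k k' x = (algebraMap k k' x - e) + e := by ring
    rw [h1]
    exact (sn_add p k' _ _).trans (max_le hx.le e.2)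
  refine ⟨b, b', hb1, hb1', hle b hb2, hle b' hb2', ?_⟩
  rw [← sn_ext p k k']
  have h1 : algebraMap k k' (b - b') = (algebraMap k k' b - e) + -(algebraMap k k' b' - e) := by
    rw [map_sub]
    ring
  rw [h1]
  refine (sn_add p k' _ _).trans_lt (max_lt hb2 ?_)
  rw [sn_neg]
  exact hb2'

end

section

variable (p : ℕ) [Fact p.Prime] {k : Type} {K : Type u} [Field k] [Field K]
  [Algebra ℚ_[p] k] [FiniteDimensional ℚ_[p] k] [Algebra k K]

/-- Zeros of `f` with the same reduction are equal. -/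
theorem zero_unique {f : k[X]} (hf : ∀ i, spectralNorm ℚ_[p] k (f.coeff i) ≤ 1)
    (hl : spectralNorm ℚ_[p] k f.leadingCoeff = 1)
    (hdisc : spectralNorm ℚ_[p] k f.discr = 1) (hd : 0 < f.natDegree) {a a' : k}
    (ha : spectralNorm ℚ_[p] k a ≤ 1) (ha' : spectralNorm ℚ_[p] k a' ≤ 1)
    (hfa : f.eval a = 0) (hfa' : f.eval a' = 0)
    (h : spectralNorm ℚ_[p] k (a - a') < 1) : a = a' := by
  obtain ⟨g, hg, -⟩ := exists_lift_O p k hf
  have hs := sep_lift p k hg hl hdisc hd
  let α : O p k := ⟨a, ha⟩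
  let α' : O p k := ⟨a', ha'⟩
  have h1 : ∀ x : O p k, f.eval (x : k) = 0 → g.eval x = 0 := by
    intro x hx
    apply Subtype.ext
    rw [val_O, hg]
    exact hx
  have hα := h1 α hfa
  have hα' := h1 α' hfa'
  obtain ⟨u, v, huv⟩ := hs
  have h2 : IsUnit (g.derivative.eval α) := by
    have h3 := congrArg (eval α) huv
    rw [eval_add, eval_mul, eval_mul, hα, mul_zero, zero_add, eval_one] at h3
    exact IsUnit.of_mul_eq_one_right _ h3
  obtain ⟨e, he⟩ := g.binomExpansion α (α' - α)
  rw [add_sub_cancel, hα', hα, zero_add, pow_two, ← mul_assoc, ← add_mul] at he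
  by_contra hne
  have h4 : α' - α ≠ 0 := by
    intro h5
    rw [sub_eq_zero] at h5
    exact hne (congrArg Subtype.val h5).symm
  have h5 : g.derivative.eval α + e * (α' - α) = 0 := (mul_eq_zero.1 he.symm).resolve_right h4
  have h6 : IsLocalRing.residue (O p k) (α' - α) = 0 := by
    rw [res_eq_zero_iff]
    change spectralNorm ℚ_[p] k (a' - a) < 1
    rw [← sn_neg, neg_sub]
    exact h
  have h7 := congrArg (IsLocalRing.residue (O p k)) h5
  rw [map_add, map_mul, h6, mul_zero, add_zero, map_zero] at h7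
  exact (h2.map (IsLocalRing.residue (O p k))).ne_zero h7

omit [FiniteDimensional ℚ_[p] k] in
/-- The value of `t⁻¹`. -/
theorem inv_near {A : ValuationSubring K} (hA : ∀ c : k, algebraMap k K c ∈ A) {t : K} {a b : k}
    (ha : A.valuation (t - algebraMap k K a) < 1)
    (hb : A.valuation (t⁻¹ - algebraMap k K b) < 1) (ht : t ≠ 0) : a * b = 1 := by
  have h1 := near_mul hA ha hb
  rw [mul_inv_cancel₀ ht] at h1
  refine (eq_of_near hA h1 (b := 1) ?_)
  rw [map_one, sub_self, map_zero]
  exact one_pos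

/-- Rational places at zeros of `f` with the same reduction are at the same zero. -/
theorem sameRed_zero {f : k[X]} (hf : ∀ i, spectralNorm ℚ_[p] k (f.coeff i) ≤ 1)
    (hl : spectralNorm ℚ_[p] k f.leadingCoeff = 1)
    (hdisc : spectralNorm ℚ_[p] k f.discr = 1) (hd : 0 < f.natDegree) {t : K}
    (ht : Transcendental k t) (A A' : ValuationSubring K)
    (hA : IsRationalPlace k K A) (hA' : IsRationalPlace k K A') (a a' : k)
    (hfa : f.eval a = 0) (hfa' : f.eval a' = 0)
    (hAa : A.valuation (t - algebraMap k K a) < 1)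
    (hAa' : A'.valuation (t - algebraMap k K a') < 1) (h : SameRed p k t A A') : a = a' := by
  have ht0 : t ≠ 0 := by
    rintro rfl
    exact ht isAlgebraic_zero
  have hint : ∀ x : k, f.eval x = 0 → spectralNorm ℚ_[p] k x ≤ 1 := by
    intro x hx
    by_contra hcon
    rw [not_le] at hcon
    let _ : NormedField k := spectralNorm.normedField ℚ_[p] k
    have hu : IsUltrametricDist k :=
      IsUltrametricDist.isUltrametricDist_of_forall_norm_add_le_max_norm fun x y =>
        isNonarchimedean_spectralNorm (K := ℚ_[p]) (L := k) x y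
    have h1 := norm_eval_gt (k := k) hf hl hcon
    rw [hx, norm_zero] at h1
    exact (pow_pos (one_pos.trans hcon) f.natDegree).ne h1
  have ha := hint a hfa
  have ha' := hint a' hfa'
  refine zero_unique p hf hl hdisc hd ha ha' hfa hfa' ?_
  obtain ⟨z, hz, hm⟩ := h
  obtain ⟨b, b', hb, hb', hbn, hbn', hbb⟩ := hm z (z_mem p k z)
  rcases hz with rfl | rfl
  · rwa [eq_of_near hA.const_mem hAa hb, eq_of_near hA'.const_mem hAa' hb']
  · have h1 := inv_near hA.const_mem hAa hb ht0
    have h1' := inv_near hA'.const_mem hAa' hb' ht0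
    have h2 : a - a' = -(a * a') * (b - b') := by
      linear_combination (-a) * h1' + a' * h1
    rw [h2, sn_mul, sn_neg, sn_mul]
    calc spectralNorm ℚ_[p] k a * spectralNorm ℚ_[p] k a' * spectralNorm ℚ_[p] k (b - b') ≤
        1 * 1 * spectralNorm ℚ_[p] k (b - b') := by
          gcongr
          · exact sn_nonneg p k _
          · exact sn_nonneg p k _
      _ < 1 := by rwa [one_mul, one_mul]

end

end Pool.Agent.Lib.MP_c385f6_ag.TPG.Sup
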