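import Pool.Agent.Lib.MP_c385f6_ag.TPG.SupF
import Pool.Agent.Lib.MP_c385f6_ag.TPG.SupN
import Pool.Agent.Lib.MP_c385f6_ag.TPG.SupP
import Pool.Agent.Lib.MP_c385f6_ag.TPG.FinDefs
import Pool.Agent.Lib.MP_c385f6_ag.Semi.Lift
import Pool.Agent.Lib.MP_c385f6_ag.Semi.Bundle

/-!
Project TPG, explicit family: the extension `k'` and the field `K'`; the combination of the parts.
-/

set_option autoImplicit false

open Polynomial

namespace Pool.Agent.Lib.MP_c385f6_ag.TPG.Sup

universe u v w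

open Semi (Sec)

/-- Choice of `k'` and `K'`. -/
theorem exists_ext (p : ℕ) [Fact p.Prime] (k : Type) (K Ω : Type u) [Field k] [Field K] [Field Ω]
    [Algebra ℚ_[p] k] [FiniteDimensional ℚ_[p] k] [Algebra k K] [Algebra k Ω] [Algebra K Ω]
    [IsScalarTower k K Ω] [IsAlgClosure K Ω] {n : ℕ} (hn : n ≠ 0) {c : k} (hc : c ≠ 0)
    (P : Prop) (hP : ∀ (k' : Type) (K' : Type u) [Field k'] [Field K'] [Algebra ℚ_[p] k']
      [FiniteDimensional ℚ_[p] k'] [Algebra k k'] [IsScalarTower ℚ_[p] k k'] [IsGalois k k']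
      [Algebra k' K'] [Algebra K K'] [Algebra k K'] [IsScalarTower k k' K']
      [IsScalarTower k K K'], IsSplittingField k k' (X ^ n - C c) →
      IntermediateField.adjoin K (Set.range (algebraMap k' K')) = ⊤ → P) : P := by
  have c1 : CharZero k := charZero_of_injective_algebraMap (algebraMap ℚ_[p] k).injective
  have hΩ : IsAlgClosed Ω := IsAlgClosure.isAlgClosed K
  let k' : Type := (X ^ n - C c : k[X]).SplittingField
  have hsp : IsSplittingField k k' (X ^ n - C c) := inferInstance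
  have hfk : FiniteDimensional k k' := IsSplittingField.finiteDimensional k' (X ^ n - C c)
  let a1 : Algebra ℚ_[p] k' := inferInstance
  have t1 : IsScalarTower ℚ_[p] k k' := inferInstance
  have f1 : FiniteDimensional ℚ_[p] k' := FiniteDimensional.trans ℚ_[p] k k'
  have g1 : IsGalois k k' := isGalois_split p k k' hn hc hsp
  let φ : k' →ₐ[k] Ω := IsSplittingField.lift k' (X ^ n - C c) (IsAlgClosed.splits _)
  let K' : IntermediateField K Ω := IntermediateField.adjoin K (Set.range φ)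
  have hφ : ∀ x : k', φ x ∈ K' := fun x => IntermediateField.subset_adjoin _ _ ⟨x, rfl⟩
  let ψ : k' →+* K' := φ.toRingHom.codRestrict K'.toSubring hφ
  let a2 : Algebra k' K' := ψ.toAlgebra
  have t2 : IsScalarTower k k' K' := IsScalarTower.of_algebraMap_eq fun x => by
    apply Subtype.ext
    change algebraMap k Ω x = φ (algebraMap k k' x)
    rw [φ.commutes]
  have t3 : IsScalarTower k K K' := inferInstance
  refine hP k' K' hsp ?_
  apply IntermediateField.lift_injective K'
  rw [IntermediateField.lift_adjoin, IntermediateField.lift_top]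
  congr 1
  ext x
  constructor
  · rintro ⟨_, ⟨z, rfl⟩, rfl⟩
    exact ⟨z, rfl⟩
  · rintro ⟨z, rfl⟩
    exact ⟨ψ z, ⟨z, rfl⟩, rfl⟩

section

variable (p : ℕ) [Fact p.Prime] {k : Type} {K Ω : Type u} [Field k] [Field K] [Field Ω]
  [Algebra ℚ_[p] k] [FiniteDimensional ℚ_[p] k] [Algebra k K] [Algebra k Ω] [Algebra K Ω]
  [IsScalarTower k K Ω]

/-- The curve is not rational over `k̄`. -/
theorem not_rat [IsAlgClosure K Ω] {n : ℕ} (hn : 2 ≤ n) {f : k[X]}
    (hf : ∀ i, spectralNorm ℚ_[p] k (f.coeff i) ≤ 1)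
    (hl : spectralNorm ℚ_[p] k f.leadingCoeff = 1)
    (hdisc : spectralNorm ℚ_[p] k f.discr = 1) (h3 : 3 ≤ f.natDegree) (hdvd : n ∣ f.natDegree)
    {c : k} (hc : c ≠ 0) {t y : K}
    (ht : Transcendental k t) (hy : y ^ n = algebraMap k K c * aeval t f) (z : Ω) :
    IntermediateField.adjoin (algebraicClosure k Ω) {z} ≠
      IntermediateField.adjoin (algebraicClosure k Ω) (Set.range (algebraMap K Ω)) := by
  intro heq
  have c1 : CharZero k := charZero_of_injective_algebraMap (algebraMap ℚ_[p] k).injective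
  have hΩ : IsAlgClosed Ω := IsAlgClosure.isAlgClosed K
  set C' := algebraicClosure k Ω with hC'
  have hC : IsAlgClosed C' := (algebraicClosure.isAlgClosure k Ω).isAlgClosed
  have c2 : CharZero C' := charZero_of_injective_algebraMap (algebraMap k C').injective
  have hmem : ∀ x : K, algebraMap K Ω x ∈ IntermediateField.adjoin C' {z} := by
    intro x
    rw [heq]
    exact IntermediateField.subset_adjoin _ _ ⟨x, rfl⟩
  have htΩ : Transcendental C' (algebraMap K Ω t) := by
    intro h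
    have h1 : IsAlgebraic k (algebraMap K Ω t) := h.restrictScalars k
    exact ht ((isAlgebraic_algebraMap_iff (algebraMap K Ω).injective).1 h1)
  refine not_rational (f := f.map (algebraMap k C')) (n := n) (c := algebraMap k C' c) htΩ
    ((sep_k p k hf hl hdisc (by omega)).map) hn (by rwa [natDegree_map])
    (by rwa [natDegree_map]) (by rwa [Ne, map_eq_zero])
    (y := algebraMap K Ω y) ?_ ⟨z, hmem t, hmem y⟩
  rw [← map_pow, hy, map_mul, aeval_map_algebraMap, aeval_algebraMap_apply,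
    ← IsScalarTower.algebraMap_apply k C' Ω, ← IsScalarTower.algebraMap_apply k K Ω]

/-- The derivative at zeros of the reduction. -/
theorem deriv_unit {f : k[X]} (hf : ∀ i, spectralNorm ℚ_[p] k (f.coeff i) ≤ 1)
    (hl : spectralNorm ℚ_[p] k f.leadingCoeff = 1)
    (hdisc : spectralNorm ℚ_[p] k f.discr = 1) (hd : 0 < f.natDegree) (x : k)
    (hx : spectralNorm ℚ_[p] k x ≤ 1) (hfx : spectralNorm ℚ_[p] k (f.eval x) < 1) :
    spectralNorm ℚ_[p] k (f.derivative.eval x) = 1 := by
  obtain ⟨g, hg, -⟩ := exists_lift_O p k hf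
  obtain ⟨a, b, hab⟩ := sep_lift p k hg hl hdisc hd
  let ξ : O p k := ⟨x, hx⟩
  have h1 : ((g.eval ξ : O p k) : k) = f.eval x := by
    rw [← hg, eval_map]
    exact (hom_eval₂ g (RingHom.id _) (algebraMap (O p k) k) ξ).trans (by rfl)
  have h2 : ((g.derivative.eval ξ : O p k) : k) = f.derivative.eval x := by
    rw [← hg, derivative_map, eval_map]
    exact (hom_eval₂ g.derivative (RingHom.id _) (algebraMap (O p k) k) ξ).trans (by rfl)
  have h3 : IsLocalRing.residue (O p k) (g.eval ξ) = 0 := by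
    rw [res_eq_zero_iff, h1]
    exact hfx
  have h4 := congrArg (fun q => IsLocalRing.residue (O p k) (q.eval ξ)) hab
  simp only [eval_add, eval_mul, map_add, map_mul, h3, mul_zero, zero_add, eval_one, map_one] at h4
  have h5 : IsLocalRing.residue (O p k) (g.derivative.eval ξ) ≠ 0 := by
    intro h6
    rw [h6, mul_zero] at h4
    exact zero_ne_one h4
  rw [Ne, res_eq_zero_iff, h2, not_lt] at h5
  refine le_antisymm ?_ h5
  rw [← h2]
  exact (g.derivative.eval ξ).2

theorem zero_int {f : k[X]} (hf : ∀ i, spectralNorm ℚ_[p] k (f.coeff i) ≤ 1)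
    (hl : spectralNorm ℚ_[p] k f.leadingCoeff = 1) {a : k} (ha : f.eval a = 0) :
    spectralNorm ℚ_[p] k a ≤ 1 := by
  let _ : NormedField k := spectralNorm.normedField ℚ_[p] k
  have hu : IsUltrametricDist k :=
    IsUltrametricDist.isUltrametricDist_of_forall_norm_add_le_max_norm fun x y =>
      isNonarchimedean_spectralNorm (K := ℚ_[p]) (L := k) x y
  by_contra hcon
  rw [not_le] at hcon
  have h1 := norm_eval_gt (k := k) hf hl hcon
  rw [ha, norm_zero] at h1
  have h2 : 0 < ‖a‖ := one_pos.trans hcon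
  exact (pow_pos h2 f.natDegree).ne h1

theorem deriv_ne {f : k[X]} (hf : ∀ i, spectralNorm ℚ_[p] k (f.coeff i) ≤ 1)
    (hl : spectralNorm ℚ_[p] k f.leadingCoeff = 1)
    (hdisc : spectralNorm ℚ_[p] k f.discr = 1) (hd : 0 < f.natDegree) {a : k}
    (ha : f.eval a = 0) : f.derivative.eval a ≠ 0 := by
  intro h0
  have h1 := deriv_unit p hf hl hdisc hd a (zero_int p hf hl ha) (by
    rw [ha, sn_zero]; exact one_pos)
  rw [h0, sn_zero] at h1
  exact zero_ne_one h1

/-- The section `s` is a section at a rational place of `K` where `t` has the value `a`. -/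
def SecVal {N : IntermediateField K Ω} (t : K) (s : Sec k K Ω N) (a : k) : Prop :=
  ∃ A : ValuationSubring K, IsRationalPlace k K A ∧ A.valuation (t - algebraMap k K a) < 1 ∧
    s.At A

/-- The combination of the parts. -/
theorem combine {n : ℕ} (hn : 2 ≤ n) {f : k[X]}
    (hf : ∀ i, spectralNorm ℚ_[p] k (f.coeff i) ≤ 1)
    (hl : spectralNorm ℚ_[p] k f.leadingCoeff = 1)
    (hdisc : spectralNorm ℚ_[p] k f.discr = 1) (hd : 0 < f.natDegree) (hdvd : n ∣ f.natDegree)
    {c : k} (hc : ∀ b : k, spectralNorm ℚ_[p] k b ^ n ≠ spectralNorm ℚ_[p] k c) {t y : K}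
    (ht : Transcendental k t) (hy : y ^ n = algebraMap k K c * aeval t f)
    (hgen : IntermediateField.adjoin k {t, y} = ⊤)
    (h1 : ∀ N : IntermediateField K Ω, PrimeClosed p k K Ω N →
      (Nonempty (Sec k K Ω N) ↔ ∃ A : ValuationSubring K, IsRationalPlace k K A))
    (h3 : ∀ s : Sec k K Ω (primeTower p k K Ω), ∃ A : ValuationSubring K,
      IsRationalPlace k K A ∧ s.At A)
    (h4 : ∀ A : ValuationSubring K, IsRationalPlace k K A →
      ∃ s : Sec k K Ω (primeTower p k K Ω), s.At A)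
    (h5 : ∀ (s s' : Sec k K Ω (primeTower p k K Ω)) (A A' : ValuationSubring K),
      IsRationalPlace k K A → IsRationalPlace k K A' → s.At A → s'.At A' →
      (s.Conj s' ↔ SameRed p k t A A'))
    (R1 : ∀ (A A' : ValuationSubring K), IsRationalPlace k K A → IsRationalPlace k K A' →
      ∀ a τ τ' : k, spectralNorm ℚ_[p] k a ≤ 1 → f.eval a = 0 →
      spectralNorm ℚ_[p] k (τ - a) < 1 → spectralNorm ℚ_[p] k (τ' - a) < 1 →
      A.valuation (t - algebraMap k K τ) < 1 → A'.valuation (t - algebraMap k K τ') < 1 →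
      SameRed p k t A A')
    (R2 : ∀ (A A' : ValuationSubring K), IsRationalPlace k K A → IsRationalPlace k K A' →
      ∀ a a' : k, f.eval a = 0 → f.eval a' = 0 →
      A.valuation (t - algebraMap k K a) < 1 → A'.valuation (t - algebraMap k K a') < 1 →
      SameRed p k t A A' → a = a') :
    (∀ N : IntermediateField K Ω, PrimeClosed p k K Ω N →
      (Nonempty (Sec k K Ω N) ↔ ∃ a : k, f.eval a = 0)) ∧
    ∃ z : Sec k K Ω (primeTower p k K Ω) → {a : k // f.eval a = 0}, Function.Surjective z ∧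
      (∀ s s', s.Conj s' ↔ z s = z s') ∧ ∀ s, SecVal t s (z s : k) := by
  have hn0 : n ≠ 0 := by omega
  have hc0 : c ≠ 0 := by
    rintro rfl
    refine hc 0 ?_
    rw [sn_zero, zero_pow hn0]
  have hex : ∀ a : k, f.eval a = 0 → ∃ A : ValuationSubring K, IsRationalPlace k K A ∧
      A.valuation (t - algebraMap k K a) < 1 := fun a ha =>
    exists_rational hn0 hc0 ht hy hgen ha (deriv_ne p hf hl hdisc hd ha)
  have hz := fun (A : ValuationSubring K) (hA : IsRationalPlace k K A) =>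
    zero_of_rational p hn0 hf hl (deriv_unit p hf hl hdisc hd) hc hdvd hy hA
  have hself : ∀ a : k, spectralNorm ℚ_[p] k (a - a) < 1 := by
    intro a
    rw [sub_self, sn_zero]
    exact one_pos
  have hval : ∀ s : Sec k K Ω (primeTower p k K Ω), ∃ a : k, f.eval a = 0 ∧ SecVal t s a := by
    intro s
    obtain ⟨A, hA, hsA⟩ := h3 s
    obtain ⟨τ, a, η, -, ha, hfa, hτ, hAτ, -, -⟩ := hz A hA
    obtain ⟨A', hA', hAa⟩ := hex a hfa
    have hr := R1 A A' hA hA' a τ a ha hfa hτ (hself a) hAτ hAa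
    obtain ⟨s', hs'⟩ := h4 A' hA'
    obtain ⟨γ, hγ1, hγ2⟩ := (Semi.Sec.conj_iff s' s).1 ((h5 s' s A' A hA' hA hs' hsA).2
      (R1 A' A hA' hA a a τ ha hfa (hself a) hτ hAa hAτ))
    exact ⟨a, hfa, A', hA', hAa, Semi.secAt_conj (s := s'.hom) hs' γ hγ2⟩
  refine ⟨fun N hN => ?_, ?_⟩
  · rw [h1 N hN]
    constructor
    · rintro ⟨A, hA⟩
      obtain ⟨τ, a, η, -, ha, hfa, -⟩ := hz A hA
      exact ⟨a, hfa⟩
    · rintro ⟨a, ha⟩
      obtain ⟨A, hA, -⟩ := hex a ha
      exact ⟨A, hA⟩
  · choose z hz1 hz2 using hval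
    have hconj : ∀ (s s' : Sec k K Ω (primeTower p k K Ω)) (a a' : k), f.eval a = 0 →
        f.eval a' = 0 → SecVal t s a → SecVal t s' a' → (s.Conj s' ↔ a = a') := by
      rintro s s' a a' ha ha' ⟨A, hA, hAa, hsA⟩ ⟨A', hA', hAa', hsA'⟩
      rw [h5 s s' A A' hA hA' hsA hsA']
      constructor
      · exact R2 A A' hA hA' a a' ha ha' hAa hAa'
      · rintro rfl
        exact R1 A A' hA hA' a a a (zero_int p hf hl ha) ha (hself a) (hself a) hAa hAa'
    refine ⟨fun s => ⟨z s, hz1 s⟩, ?_, ?_, hz2⟩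
    · rintro ⟨a, ha⟩
      obtain ⟨A, hA, hAa⟩ := hex a ha
      obtain ⟨s, hs⟩ := h4 A hA
      refine ⟨s, Subtype.ext ?_⟩
      have h6 : s.Conj s := ⟨1, fun _ _ _ => rfl, fun _ _ => rfl⟩
      exact (hconj s s (z s) a (hz1 s) ha (hz2 s) ⟨A, hA, hAa, hs⟩).1 h6
    · intro s s'
      rw [hconj s s' _ _ (hz1 s) (hz1 s') (hz2 s) (hz2 s')]
      exact ⟨fun h => Subtype.ext h, fun h => congrArg Subtype.val h⟩

end

end Pool.Agent.Lib.MP_c385f6_ag.TPG.Sup
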