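import Pool.Agent.Lib.MP_c385f6_ag.TPG.SupY
import Pool.Agent.Lib.MP_c385f6_ag.TPG.SupR
import Pool.Agent.Lib.MP_c385f6_ag.TPG.AllH

/-!
Project TPG: the explicit family.  For a curve `y ^ n = c f(t)` over a `p`-adic field, `n` prime
to `p`, `f` with integral coefficients and unit leading coefficient and discriminant, `n ∣ deg f`
and `v(c)` no multiple of `v(p) / n` (the exact condition is `hc`), every prime closed
subextension has a section if and only if `f` has a zero, and the conjugacy classes of sections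
of the tower of prime closed extensions are the zeros of `f`.
-/

set_option autoImplicit false

open Polynomial

namespace Pool.Agent.Lib.MP_c385f6_ag.TPG.Sup

universe u

open Semi (Sec)

/-- The explicit family: `y ^ n = c f(t)`. -/
theorem family (p : ℕ) [Fact p.Prime] (k : Type) (K Ω : Type u) [Field k] [Field K] [Field Ω]
    [Algebra ℚ_[p] k] [FiniteDimensional ℚ_[p] k] [Algebra k K] [Algebra k Ω] [Algebra K Ω]
    [IsScalarTower k K Ω] [IsAlgClosure K Ω] {n : ℕ} (hn : 2 ≤ n) (hp : ¬ p ∣ n) {f : k[X]}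
    (hf : ∀ i, spectralNorm ℚ_[p] k (f.coeff i) ≤ 1)
    (hl : spectralNorm ℚ_[p] k f.leadingCoeff = 1)
    (hdisc : spectralNorm ℚ_[p] k f.discr = 1) (h3 : 3 ≤ f.natDegree) (hdvd : n ∣ f.natDegree)
    {c : k} (hc : ∀ b : k, spectralNorm ℚ_[p] k b ^ n ≠ spectralNorm ℚ_[p] k c) {t y : K}
    (ht : Transcendental k t) (hy : y ^ n = algebraMap k K c * aeval t f)
    (hgen : IntermediateField.adjoin k {t, y} = ⊤) :
    (∀ N : IntermediateField K Ω, PrimeClosed p k K Ω N →
      (Nonempty (Sec k K Ω N) ↔ ∃ a : k, f.eval a = 0)) ∧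
    ∃ z : Sec k K Ω (primeTower p k K Ω) → {a : k // f.eval a = 0}, Function.Surjective z ∧
      (∀ s s', s.Conj s' ↔ z s = z s') ∧ ∀ s, SecVal t s (z s : k) := by
  have hn0 : n ≠ 0 := by omega
  have hd : 0 < f.natDegree := by omega
  have hc0 : c ≠ 0 := by
    rintro rfl
    refine hc 0 ?_
    rw [sn_zero, zero_pow hn0]
  refine exists_ext p k K Ω hn0 hc0 _ ?_
  intro k' K' i1 i2 i3 i4 i5 i6 i7 i8 i9 i10 i11 i12 hsp hcomp
  obtain ⟨h1, -, h3', h4, h5⟩ := AllH.fin p k k' K K' Ω t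
    (tamelyGood p k k' K' hn hp hf hl hdisc hd hdvd hc hsp hcomp ht hy hgen)
    (not_rat p hn hf hl hdisc h3 hdvd hc0 ht hy)
  exact combine p hn hf hl hdisc hd hdvd hc ht hy hgen h1 h3' h4 h5
    (fun A A' hA hA' a τ τ' => sameRed_near p k k' K' hn hp hf hl hdisc hd hc0 hsp hcomp ht hy hgen
      A A' hA hA' a τ τ')
    (fun A A' hA hA' a a' hfa hfa' hAa hAa' h => sameRed_zero p hf hl hdisc hd ht A A' hA hA' a a'
      hfa hfa' hAa hAa' h)

end Pool.Agent.Lib.MP_c385f6_ag.TPG.Sup
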