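import Pool.Agent.Lib.MP_c385f6_ag.TPG.StT2
import Pool.Agent.Lib.MP_c385f6_ag.TPG.AllA

/-!
Project TPG, part T, T4: the specialisation of a fixed place of the union of the towers.
-/

set_option autoImplicit false

namespace Pool.Agent.Lib.MP_c385f6_ag.TPG

universe u v u' v' w

namespace TwSpAux

section Pl

variable {F : Type u} {W W' : Type v} [Field F] [Field W] [Field W'] [Algebra F W] [Algebra F W']

theorem mv_unique {s : W ≃+* W'} {P : Plc F W} {Q Q' : Plc F W'} (h : Mv s P Q)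
    (h' : Mv s P Q') : Q = Q' := by
  apply Plc.ext
  ext x
  obtain ⟨x, rfl⟩ := s.surjective x
  rw [← h x, ← h' x]

/-- the image of a place -/
def mapP (s : W ≃+* W')
    (hs' : ∀ c : F, ∃ c' : F, s.symm (algebraMap F W' c) = algebraMap F W c') (P : Plc F W) :
    Plc F W' where
  ring := P.ring.comap (s.symm : W' →+* W)
  ne_top := by
    intro h
    apply P.ne_top
    rw [eq_top_iff]
    intro x _
    have h1 : s x ∈ P.ring.comap (s.symm : W' →+* W) := by
      rw [h]
      exact ValuationSubring.mem_top _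
    have h2 : s.symm (s x) ∈ P.ring := h1
    rwa [s.symm_apply_apply] at h2
  const_mem := by
    intro c
    obtain ⟨c', h⟩ := hs' c
    change s.symm (algebraMap F W' c) ∈ P.ring
    rw [h]
    exact P.const_mem c'

theorem mv_mapP (s : W ≃+* W')
    (hs' : ∀ c : F, ∃ c' : F, s.symm (algebraMap F W' c) = algebraMap F W c') (P : Plc F W) :
    Mv s P (mapP s hs' P) := by
  intro z
  change z ∈ P.ring ↔ s.symm (s z) ∈ P.ring
  rw [s.symm_apply_apply]

/-- the bijection of the places -/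
def perm (s : W ≃+* W')
    (hs : ∀ c : F, ∃ c' : F, s (algebraMap F W c) = algebraMap F W' c')
    (hs' : ∀ c : F, ∃ c' : F, s.symm (algebraMap F W' c) = algebraMap F W c') :
    Plc F W ≃ Plc F W' where
  toFun := mapP s hs'
  invFun := mapP s.symm hs
  left_inv := by
    intro P
    apply Plc.ext
    ext x
    change s.symm (s x) ∈ P.ring ↔ _
    rw [s.symm_apply_apply]
  right_inv := by
    intro P
    apply Plc.ext
    ext x
    change s (s.symm x) ∈ P.ring ↔ _
    rw [s.apply_symm_apply]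

theorem dv_map (s : W ≃+* W') (σ : Plc F W ≃ Plc F W') (hσ : ∀ P, Mv s P (σ P)) (f : W) :
    (dv (s f) : Dv F W') = Finsupp.mapDomain σ (dv f) := by
  have key : ∀ P : Plc F W, ord (σ P) (s f) = ord P f := fun P => EqvAux.ord_mv s (hσ P) f
  by_cases h : (Function.support fun P : Plc F W => ord P f).Finite
  · have h' : (Function.support fun P : Plc F W' => ord P (s f)).Finite := by
      refine (h.image σ).subset ?_
      intro Q hQ
      refine ⟨σ.symm Q, ?_, σ.apply_symm_apply Q⟩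
      rw [Function.mem_support] at hQ ⊢
      rwa [← key, σ.apply_symm_apply]
    rw [dv, dif_pos h', dv, dif_pos h]
    ext Q
    obtain ⟨P, rfl⟩ := σ.surjective Q
    rw [Finsupp.mapDomain_apply σ.injective, Finsupp.ofSupportFinite_coe,
      Finsupp.ofSupportFinite_coe]
    exact key P
  · have h' : ¬ (Function.support fun P : Plc F W' => ord P (s f)).Finite := by
      intro h'
      apply h
      refine (h'.preimage σ.injective.injOn).subset ?_
      intro P hP
      rw [Function.mem_support] at hP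
      rw [Set.mem_preimage, Function.mem_support]
      rwa [key]
    rw [dv, dif_neg h', dv, dif_neg h, Finsupp.mapDomain_zero]

end Pl

/-- The specialisation map commutes with isomorphisms. -/
theorem eqv2 {C : Type u} {L L' : Type v} {F : Type u'} {Λ Λ' : Type v'} [Field C]
    [IsAlgClosed C] [Field L] [Field L'] [Field F] [IsAlgClosed F] [Field Λ] [Field Λ']
    [Algebra C L] [Algebra C L'] [Algebra F Λ] [Algebra F Λ'] (R : Red C L F Λ)
    (R' : Red C L' F Λ') {g : ℕ} {sp : Plc C L → Plc F Λ} {sp' : Plc C L' → Plc F Λ'}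
    (s : L ≃+* L') (s' : Λ ≃+* Λ') (hG : Good R g) (hsp : IsSp R sp) (hsp' : IsSp R' sp')
    (hs : ∀ c : C, ∃ c' : C, s (algebraMap C L c) = algebraMap C L' c')
    (hs' : ∀ c : C, ∃ c' : C, s.symm (algebraMap C L' c) = algebraMap C L c')
    (hres : ∀ f : L, R'.res (s f) = s' (R.res f)) {P : Plc C L} {Q : Plc C L'}
    (hPQ : Mv s P Q) : Mv s' (sp P) (sp' Q) := by
  have hF : ∀ a : F, ∃ a' : F, s' (algebraMap F Λ a) = algebraMap F Λ' a' := by
    intro a
    obtain ⟨c, hc, hca⟩ := R.const_surj a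
    obtain ⟨c', hc'⟩ := hs c
    rw [← hca, ← hres, hc']
    by_cases hw : algebraMap C L' c' ∈ R'.w
    · exact R'.const c' hw
    · exact ⟨0, by rw [R'.res_out _ hw, map_zero]⟩
  have hF' : ∀ a : F, ∃ a' : F, s'.symm (algebraMap F Λ' a) = algebraMap F Λ a' := by
    intro a
    obtain ⟨c, hc, hca⟩ := R'.const_surj a
    obtain ⟨c', hc'⟩ := hs' c
    have h1 : s'.symm (algebraMap F Λ' a) = R.res (algebraMap C L c') := by
      rw [← hca, ← hc', RingEquiv.symm_apply_eq, ← hres, s.apply_symm_apply]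
    rw [h1]
    by_cases hw : algebraMap C L c' ∈ R.w
    · exact R.const c' hw
    · exact ⟨0, by rw [R.res_out _ hw, map_zero]⟩
  set σ := perm s hs hs' with hσ
  set σ' := perm s' hF hF' with hσ'
  have hspp : IsSp R (fun P => σ'.symm (sp' (σ P))) := by
    intro f hf
    have h1 : R'.res (s f) ≠ 0 := by
      rw [hres]
      exact fun h0 => hf ((EmbeddingLike.map_eq_zero_iff (f := s')).1 h0)
    have h2 := hsp' (s f) h1
    rw [dv_map s σ (mv_mapP s hs'), hres, dv_map s' σ' (mv_mapP s' hF')] at h2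
    have h3 : (fun P => σ'.symm (sp' (σ P))) = σ'.symm ∘ (sp' ∘ σ) := rfl
    rw [h3, Finsupp.mapDomain_comp, Finsupp.mapDomain_comp, h2, ← Finsupp.mapDomain_comp,
      Equiv.symm_comp_self, Finsupp.mapDomain_id]
  have h4 := (All.sp C L F Λ R g hG).unique hspp hsp
  have h5 : sp' (σ P) = σ' (sp P) := by
    have h6 := congrFun h4 P
    exact (Equiv.symm_apply_eq _).1 h6
  have h6 : Q = σ P := mv_unique hPQ (mv_mapP s hs' P)
  rw [h6, h5]
  exact mv_mapP s' hF' (sp P)

section Res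

variable {C : Type u} {Ω : Type v} [Field C] [Field Ω] [Algebra C Ω]
  {T M M' : IntermediateField C Ω}

/-- The restriction of an automorphism to intermediate fields. -/
def resEq (f : T ≃+* T) (hM : M ≤ T) (hM' : M' ≤ T)
    (h : ∀ z : T, (z : Ω) ∈ M ↔ ((f z : T) : Ω) ∈ M') : M ≃+* M' where
  toFun z := ⟨(f ⟨z, hM z.2⟩ : T), (h _).1 z.2⟩
  invFun z := ⟨(f.symm ⟨z, hM' z.2⟩ : T), (h _).2 (by rw [f.apply_symm_apply]; exact z.2)⟩
  left_inv z := by
    apply Subtype.ext
    change ((f.symm ⟨((f ⟨z, hM z.2⟩ : T) : Ω), _⟩ : T) : Ω) = z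
    have h1 : (⟨((f ⟨z, hM z.2⟩ : T) : Ω), (f ⟨z, hM z.2⟩ : T).2⟩ : T) = f ⟨z, hM z.2⟩ := rfl
    rw [h1, f.symm_apply_apply]
  right_inv z := by
    apply Subtype.ext
    change ((f ⟨((f.symm ⟨z, hM' z.2⟩ : T) : Ω), _⟩ : T) : Ω) = z
    have h1 : (⟨((f.symm ⟨z, hM' z.2⟩ : T) : Ω), (f.symm ⟨z, hM' z.2⟩ : T).2⟩ : T) =
      f.symm ⟨z, hM' z.2⟩ := rfl
    rw [h1, f.apply_symm_apply]
  map_mul' x y := by
    apply Subtype.ext
    have h1 : (⟨((x * y : M) : Ω), hM (x * y).2⟩ : T) = ⟨x, hM x.2⟩ * ⟨y, hM y.2⟩ := rfl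
    change ((f ⟨((x * y : M) : Ω), _⟩ : T) : Ω) = _
    rw [h1, map_mul]
    rfl
  map_add' x y := by
    apply Subtype.ext
    have h1 : (⟨((x + y : M) : Ω), hM (x + y).2⟩ : T) = ⟨x, hM x.2⟩ + ⟨y, hM y.2⟩ := rfl
    change ((f ⟨((x + y : M) : Ω), _⟩ : T) : Ω) = _
    rw [h1, map_add]
    rfl

theorem resEq_apply (f : T ≃+* T) (hM : M ≤ T) (hM' : M' ≤ T)
    (h : ∀ z : T, (z : Ω) ∈ M ↔ ((f z : T) : Ω) ∈ M') (z : M) (t : T) (hz : (z : Ω) = t) :
    ((resEq f hM hM' h z : M') : Ω) = ((f t : T) : Ω) := by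
  have h1 : t = ⟨z, hM z.2⟩ := Subtype.ext hz.symm
  rw [h1]
  rfl

theorem resEq_symm_apply (f : T ≃+* T) (hM : M ≤ T) (hM' : M' ≤ T)
    (h : ∀ z : T, (z : Ω) ∈ M ↔ ((f z : T) : Ω) ∈ M') (z : M') (t : T) (hz : (z : Ω) = t) :
    (((resEq f hM hM' h).symm z : M) : Ω) = ((f.symm t : T) : Ω) := by
  have h1 : t = ⟨z, hM' z.2⟩ := Subtype.ext hz.symm
  rw [h1]
  rfl

end Res

end TwSpAux

open TwSpAux

/-- T4. -/
theorem stTwSp (hCmp : StTwCmp.{u, v, u', v'}) : StTwSp.{u, v, u', v', w} := by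
  intro C Ω F U _ _ _ _ _ _ _ _ R p g L sp G _ a ρ hC hF hG hsp himg hcst hL hact P B hBc hBs hBP
  have hTle : ∀ M, Tow C p L M → M ≤ Tinf C p L := fun M hM => le_sSup hM
  have hff : FF C L := hG.ffC
  obtain ⟨-, hdir, hmemT, -, -⟩ := All.twDir C Ω p L hff hC
  have hgood := All.twGood C Ω F U R p g L hC hF hG
  have hmono : ∀ {M M' : IntermediateField C Ω}, M ≤ M' → R.img M ≤ R.img M' := by
    rintro M M' h _ ⟨z, hz, hz', rfl⟩
    exact ⟨z, h hz, hz', rfl⟩
  have hai : ∀ (s : G) (z : Tinf C p L), a s⁻¹ (a s z) = z := by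
    intro s z
    rw [← RingAut.mul_apply, ← map_mul, inv_mul_cancel, map_one]
    rfl
  have hai' : ∀ (s : G) (z : Tinf C p L), a s (a s⁻¹ z) = z := by
    intro s z
    rw [← RingAut.mul_apply, ← map_mul, mul_inv_cancel, map_one]
    rfl
  have hri : ∀ (s : G) (z : Tinf F p (R.img L)), ρ s⁻¹ (ρ s z) = z := by
    intro s z
    rw [← RingAut.mul_apply, ← map_mul, inv_mul_cancel, map_one]
    rfl
  have hsymm : ∀ (s : G) (z : Tinf C p L), (a s).symm z = a s⁻¹ z := by
    intro s z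
    rw [RingEquiv.symm_apply_eq, hai']
  have hw : ∀ (s : G) (z : Tinf C p L), ((a s z : Tinf C p L) : Ω) ∈ R.w ↔ (z : Ω) ∈ R.w := by
    intro s z
    refine ⟨fun h => ?_, fun h => (hact s z 0 h).1⟩
    have h1 := (hact s⁻¹ (a s z) 0 h).1
    rwa [hai] at h1
  have hB : ∀ (s : G) (z : Tinf C p L), a s z ∈ B ↔ z ∈ B := by
    intro s z
    refine ⟨fun h => ?_, hBs s z⟩
    have h1 := hBs s⁻¹ _ h
    rwa [hai] at h1
  -- the places of the towers
  have key : ∀ (M : IntermediateField C Ω) (_ : Tow C p L M), ∃ (Q : Plc C M)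
      (x : Plc F (R.img M)) (spM : Plc C M → Plc F (R.img M)), IsSp (R.sub M) spM ∧ spM Q = x ∧
      ∀ (z : M) (z' : Tinf C p L), (z : Ω) = z' → (z ∈ Q.ring ↔ z' ∈ B) := by
    intro M hM
    obtain ⟨hLM, ⟨g', hg'⟩, -⟩ := hgood M hM
    obtain ⟨spM, hspM, -⟩ := All.sp C M F (R.img M) (R.sub M) g' hg'
    let ι : M →+* Tinf C p L := (IntermediateField.inclusion (hTle M hM)).toRingHom
    have hι : ∀ (z : M) (z' : Tinf C p L), (z : Ω) = z' → ι z = z' := by
      intro z z' h
      exact Subtype.ext h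
    let Q : Plc C M :=
      { ring := B.comap ι
        ne_top := by
          intro h
          apply P.ne_top
          rw [eq_top_iff]
          intro x _
          have h1 : (⟨x, hLM x.2⟩ : M) ∈ B.comap ι := by
            rw [h]
            exact ValuationSubring.mem_top _
          have h2 : ι ⟨x, hLM x.2⟩ ∈ B := h1
          exact (hBP x _ rfl).2 h2
        const_mem := by
          intro c
          change ι (algebraMap C M c) ∈ B
          rw [hι (algebraMap C M c) (algebraMap C (Tinf C p L) c) rfl]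
          exact hBc c }
    refine ⟨Q, spM Q, spM, hspM, rfl, ?_⟩
    intro z z' h
    change ι z ∈ B ↔ z' ∈ B
    rw [hι z z' h]
  choose Q x spM hspM hspQ hQ using key
  have hcompat : ∀ (M M' : IntermediateField C Ω) (hM : Tow C p L M) (hM' : Tow C p L M'),
      M ≤ M' → AbvP (x M hM) (x M' hM') := by
    intro M M' hM hM' hle
    have h1 : AbvP (Q M hM) (Q M' hM') := by
      intro z z' h
      rw [hQ M hM z ⟨z, hTle M hM z.2⟩ rfl, hQ M' hM' z' ⟨z, hTle M hM z.2⟩ h.symm]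
    have h2 := (hCmp C Ω F U R p g L hC hF hG M M' (spM M hM) (spM M' hM') hM hM' hle
      (hspM M hM) (hspM M' hM')).1 _ _ h1
    rwa [hspQ, hspQ] at h2
  -- membership
  have hin : ∀ z : Tinf F p (R.img L), ∃ M, Tow C p L M ∧ (z : U) ∈ R.img M := by
    intro z
    have h1 : (z : U) ∈ R.img (Tinf C p L) := by rw [himg]; exact z.2
    obtain ⟨t, ht, htw, hres⟩ := h1
    obtain ⟨M, hM, htM⟩ := (hmemT t).1 ht
    exact ⟨M, hM, t, htM, htw, hres⟩
  have hindep : ∀ (z : U) (M M' : IntermediateField C Ω) (hM : Tow C p L M)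
      (hM' : Tow C p L M') (h : z ∈ R.img M) (h' : z ∈ R.img M'),
      (⟨z, h⟩ : R.img M) ∈ (x M hM).ring ↔ (⟨z, h'⟩ : R.img M') ∈ (x M' hM').ring := by
    intro z M M' hM hM' h h'
    have hJ := hdir M M' hM hM'
    have h1 := hcompat M (M ⊔ M') hM hJ le_sup_left ⟨z, h⟩ ⟨z, hmono le_sup_left h⟩ rfl
    have h2 := hcompat M' (M ⊔ M') hM' hJ le_sup_right ⟨z, h'⟩ ⟨z, hmono le_sup_right h'⟩ rfl
    rw [h1, h2]
  let inY : Tinf F p (R.img L) → Prop := fun z =>
    ∃ (M : IntermediateField C Ω) (hM : Tow C p L M) (h : (z : U) ∈ R.img M),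
      (⟨z, h⟩ : R.img M) ∈ (x M hM).ring
  have hinY : ∀ (z : Tinf F p (R.img L)) (M : IntermediateField C Ω) (hM : Tow C p L M)
      (h : (z : U) ∈ R.img M), inY z ↔ (⟨z, h⟩ : R.img M) ∈ (x M hM).ring := by
    intro z M hM h
    constructor
    · rintro ⟨M', hM', h', h1⟩
      exact (hindep _ _ _ hM' hM h' h).1 h1
    · intro h1
      exact ⟨M, hM, h, h1⟩
  have hin2 : ∀ z z' : Tinf F p (R.img L), ∃ M, ∃ _ : Tow C p L M, (z : U) ∈ R.img M ∧
      (z' : U) ∈ R.img M := by
    intro z z'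
    obtain ⟨M, hM, h⟩ := hin z
    obtain ⟨M', hM', h'⟩ := hin z'
    exact ⟨M ⊔ M', hdir M M' hM hM', hmono le_sup_left h, hmono le_sup_right h'⟩
  let Y : ValuationSubring (Tinf F p (R.img L)) :=
    { carrier := {z | inY z}
      mul_mem' := by
        intro z z' hz hz'
        obtain ⟨M, hM, h, h'⟩ := hin2 z z'
        have h1 := (hinY z M hM h).1 hz
        have h2 := (hinY z' M hM h').1 hz'
        exact (hinY (z * z') M hM (mul_mem h h')).2 (mul_mem h1 h2)
      one_mem' := by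
        obtain ⟨M, hM, h⟩ := hin 1
        exact (hinY 1 M hM h).2 (one_mem (x M hM).ring)
      add_mem' := by
        intro z z' hz hz'
        obtain ⟨M, hM, h, h'⟩ := hin2 z z'
        have h1 := (hinY z M hM h).1 hz
        have h2 := (hinY z' M hM h').1 hz'
        exact (hinY (z + z') M hM (add_mem h h')).2 (add_mem h1 h2)
      zero_mem' := by
        obtain ⟨M, hM, h⟩ := hin 0
        exact (hinY 0 M hM h).2 (zero_mem (x M hM).ring)
      neg_mem' := by
        intro z hz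
        obtain ⟨M, hM, h⟩ := hin z
        have h1 := (hinY z M hM h).1 hz
        exact (hinY (-z) M hM (neg_mem h)).2 (neg_mem h1)
      mem_or_inv_mem' := by
        intro z
        obtain ⟨M, hM, h⟩ := hin z
        rcases (x M hM).ring.mem_or_inv_mem ⟨z, h⟩ with h1 | h1
        · exact Or.inl ((hinY z M hM h).2 h1)
        · exact Or.inr ((hinY z⁻¹ M hM ((R.img M).inv_mem h)).2 h1) }
  have hY : ∀ z, z ∈ Y ↔ inY z := fun z => Iff.rfl
  refine ⟨Y, ?_, ?_, ?_⟩
  · intro c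
    rw [hY, hinY _ L Tow.base ((R.img L).algebraMap_mem c)]
    exact (x L Tow.base).const_mem c
  · intro s z hz
    obtain ⟨M, hM, hzM⟩ := hin z
    rw [hY, hinY z M hM hzM] at hz
    obtain ⟨M', hM', hle', hMM⟩ := All.twAut C Ω p L (Tinf C p L) (a s) hff hC
      (hTle L Tow.base) (hcst s) (fun c => by
        obtain ⟨c', hc'⟩ := hcst s⁻¹ c
        exact ⟨c', by rw [hsymm]; exact hc'⟩)
      (fun z => ⟨hL s z, fun h => by
        have h1 := hL s⁻¹ _ h
        rwa [hai] at h1⟩) M hM (hTle M hM)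
    have hleI : R.img M ≤ Tinf F p (R.img L) := by
      rw [← himg]
      exact hmono (hTle M hM)
    have hleI' : R.img M' ≤ Tinf F p (R.img L) := by
      rw [← himg]
      exact hmono hle'
    have hII : ∀ y : Tinf F p (R.img L), (y : U) ∈ R.img M ↔ ((ρ s y : Tinf F p (R.img L)) : U) ∈
        R.img M' := by
      intro y
      constructor
      · rintro ⟨t, ht, htw, hres⟩
        have h1 := hact s ⟨t, hTle M hM ht⟩ y htw
        exact ⟨_, (hMM ⟨t, hTle M hM ht⟩).1 ht, h1.1, (h1.2 hres.symm).symm⟩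
      · rintro ⟨t, ht, htw, hres⟩
        have h1 := hact s⁻¹ ⟨t, hle' ht⟩ (ρ s y) htw
        have h2 := h1.2 hres.symm
        rw [hri] at h2
        refine ⟨_, (hMM (a s⁻¹ ⟨t, hle' ht⟩)).2 ?_, h1.1, h2.symm⟩
        rw [hai']
        exact ht
    let e : M ≃+* M' := resEq (a s) (hTle M hM) hle' hMM
    let e' : R.img M ≃+* R.img M' := resEq (ρ s) hleI hleI' hII
    obtain ⟨-, ⟨g', hg'⟩, -⟩ := hgood M hM
    have hres : ∀ f : M, (R.sub M').res (e f) = e' ((R.sub M).res f) := by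
      intro f
      apply Subtype.ext
      have h2 : R.res f ∈ Tinf F p (R.img L) := hleI (R.res_mem_img M f)
      have h3 : ((e f : M') : Ω) = ((a s ⟨f, hTle M hM f.2⟩ : Tinf C p L) : Ω) :=
        resEq_apply (a s) (hTle M hM) hle' hMM f _ rfl
      have h4 : ((e' ((R.sub M).res f) : R.img M') : U) =
          ((ρ s ⟨R.res f, h2⟩ : Tinf F p (R.img L)) : U) :=
        resEq_apply (ρ s) hleI hleI' hII ((R.sub M).res f) ⟨R.res f, h2⟩ rfl
      rw [h4]
      change R.res (e f : M') = _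
      rw [h3]
      by_cases hf : (f : Ω) ∈ R.w
      · exact ((hact s ⟨f, hTle M hM f.2⟩ ⟨R.res f, h2⟩ hf).2 rfl).symm
      · have h5 : (⟨R.res f, h2⟩ : Tinf F p (R.img L)) = 0 := Subtype.ext (R.res_out _ hf)
        rw [h5, map_zero, R.res_out]
        · rfl
        · rw [hw]
          exact hf
    have hmv : Mv e (Q M hM) (Q M' hM') := by
      intro z
      rw [hQ M hM z ⟨z, hTle M hM z.2⟩ rfl,
        hQ M' hM' (e z) (a s ⟨z, hTle M hM z.2⟩) (resEq_apply (a s) _ _ hMM z _ rfl), hB]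
    have hmv' : Mv e' (spM M hM (Q M hM)) (spM M' hM' (Q M' hM')) := by
      refine eqv2 (R.sub M) (R.sub M') e e' hg' (hspM M hM) (hspM M' hM') ?_ ?_ hres hmv
      · intro c
        obtain ⟨c', hc'⟩ := hcst s c
        refine ⟨c', Subtype.ext ?_⟩
        rw [resEq_apply (a s) (hTle M hM) hle' hMM (algebraMap C M c)
          (algebraMap C (Tinf C p L) c) rfl, hc']
        rfl
      · intro c
        obtain ⟨c', hc'⟩ := hcst s⁻¹ c
        refine ⟨c', Subtype.ext ?_⟩
        rw [resEq_symm_apply (a s) (hTle M hM) hle' hMM (algebraMap C M' c)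
          (algebraMap C (Tinf C p L) c) rfl, hsymm, hc']
        rfl
    rw [hspQ, hspQ] at hmv'
    have h6 := (hmv' ⟨z, hzM⟩).1 hz
    rw [hY, hinY (ρ s z) M' hM' ((hII z).1 hzM)]
    have h7 : e' ⟨z, hzM⟩ = ⟨((ρ s z : Tinf F p (R.img L)) : U), (hII z).1 hzM⟩ :=
      Subtype.ext (resEq_apply (ρ s) hleI hleI' hII ⟨z, hzM⟩ z rfl)
    rw [← h7]
    exact h6
  · intro z y hzy
    have h1 : (y : U) ∈ R.img L := by rw [← hzy]; exact z.2
    rw [hY, hinY y L Tow.base h1]
    have h2 : (⟨y, h1⟩ : R.img L) = z := Subtype.ext hzy.symm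
    rw [h2, ← hspQ L Tow.base]
    have h3 : spM L Tow.base = sp :=
      (All.sp C L F (R.img L) (R.sub L) g hG).unique (hspM L Tow.base) hsp
    have h4 : Q L Tow.base = P := by
      apply Plc.ext
      ext t
      rw [hQ L Tow.base t ⟨t, hTle L Tow.base t.2⟩ rfl, ← hBP t _ rfl]
    rw [h3, h4]

end Pool.Agent.Lib.MP_c385f6_ag.TPG
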