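import Pool.Agent.Lib.MP_c385f6_ag.TPG.StV

/-!
Project TPG, part G: V2. Finite extensions of `k` are complete and discretely valued.
-/

set_option autoImplicit false

open Polynomial

namespace Pool.Agent.Lib.MP_c385f6_ag.TPG

universe u v u' v' w

namespace VDsc

/-! ### Finite dimensional normed fields over `ℚ_p` -/

section Normed

variable (p : ℕ) [Fact p.Prime] (E : Type u) [NormedField E] [NormedAlgebra ℚ_[p] E]
  [FiniteDimensional ℚ_[p] E] [IsUltrametricDist E]

omit [FiniteDimensional ℚ_[p] E] [IsUltrametricDist E] in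
theorem norm_p : ‖(p : E)‖ = (p : ℝ)⁻¹ := by
  have h : (p : E) = algebraMap ℚ_[p] E (p : ℚ_[p]) := by simp
  rw [h, norm_algebraMap', Padic.norm_p]

include p in
/-- There is a uniformiser. -/
theorem exists_pi : ∃ π : E, π ≠ 0 ∧ ‖π‖ < 1 ∧ ∀ c : E, ‖c‖ < 1 → ‖c‖ ≤ ‖π‖ := by
  have : ProperSpace E := FiniteDimensional.proper ℚ_[p] E
  have hp1 : (1 : ℝ) < p := by exact_mod_cast (Fact.out : p.Prime).one_lt
  have hp0 : (0 : ℝ) < (p : ℝ)⁻¹ := by positivity
  have hpn : ‖(p : E)‖ < 1 := by rw [norm_p p E]; exact inv_lt_one_of_one_lt₀ hp1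
  set S : Set E := {c | (p : ℝ)⁻¹ ≤ ‖c‖} ∩ Metric.ball 0 1 with hS
  have hcl : IsClosed S := by
    refine IsClosed.inter (isClosed_le continuous_const continuous_norm) ?_
    exact IsUltrametricDist.isClosed_ball 0 1
  have hbd : Bornology.IsBounded S := Metric.isBounded_ball.subset Set.inter_subset_right
  have hco : IsCompact S := Metric.isCompact_of_isClosed_isBounded hcl hbd
  have hne : S.Nonempty := ⟨(p : E), by
    refine ⟨(norm_p p E).ge, ?_⟩
    simpa using hpn⟩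
  obtain ⟨π, hπ, hmax⟩ := hco.exists_isMaxOn hne continuous_norm.continuousOn
  have hπ1 : (p : ℝ)⁻¹ ≤ ‖π‖ := hπ.1
  have hπ2 : ‖π‖ < 1 := by simpa using hπ.2
  refine ⟨π, ?_, hπ2, ?_⟩
  · rintro rfl
    rw [norm_zero] at hπ1
    linarith
  · intro c hc
    by_cases h : (p : ℝ)⁻¹ ≤ ‖c‖
    · exact hmax ⟨h, by simpa using hc⟩
    · exact (not_le.1 h).le.trans hπ1

include p in
/-- Completeness. -/
theorem exists_lim (r : ℝ) (hr0 : 0 < r) (hr1 : r < 1) (s : ℕ → E)
    (hs : ∀ j, ‖s (j + 1) - s j‖ ≤ r ^ j) : ∃ c : E, ∀ j, ‖c - s j‖ ≤ r ^ j := by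
  have : CompleteSpace E := FiniteDimensional.complete ℚ_[p] E
  have hcau : CauchySeq s := by
    refine cauchySeq_of_le_geometric r 1 hr1 fun n => ?_
    rw [dist_comm, dist_eq_norm, one_mul]
    exact hs n
  obtain ⟨c, hc⟩ := cauchySeq_tendsto_of_complete hcau
  have hball : ∀ j m, ‖s (j + m) - s j‖ ≤ r ^ j := by
    intro j m
    induction m with
    | zero => simpa using (pow_pos hr0 j).le
    | succ m ih =>
      have h1 : s (j + (m + 1)) - s j = (s (j + m + 1) - s (j + m)) + (s (j + m) - s j) := by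
        rw [← add_assoc]; ring
      rw [h1]
      refine (IsUltrametricDist.norm_add_le_max _ _).trans (max_le ?_ ih)
      refine (hs (j + m)).trans ?_
      exact pow_le_pow_of_le_one hr0.le hr1.le (Nat.le_add_right _ _)
  refine ⟨c, fun j => ?_⟩
  have h2 : Filter.Tendsto (fun m => ‖s (m + j) - s j‖) Filter.atTop (nhds ‖c - s j‖) :=
    ((hc.comp (Filter.tendsto_add_atTop_nat j)).sub_const (s j)).norm
  refine le_of_tendsto h2 (Filter.Eventually.of_forall fun m => ?_)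
  rw [add_comm m j]
  exact hball j m

end Normed

/-! ### Comparison of the valuation with the spectral norm -/

section Cmp

variable (p : ℕ) [Fact p.Prime] {C : Type u} [Field C] [Algebra ℚ_[p] C]
  [Algebra.IsAlgebraic ℚ_[p] C] {Γ₀ : Type w} [LinearOrderedCommGroupWithZero Γ₀]
  (v : Valuation C Γ₀)

/-- A root of a monic polynomial with coefficients of value at most one has value at most one. -/
theorem v_root (P : C[X]) (hP : P.Monic) (hc : ∀ n, v (P.coeff n) ≤ 1) (x : C)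
    (hx : P.eval x = 0) : v x ≤ 1 := by
  by_contra hlt
  rw [not_le] at hlt
  have hx0 : v x ≠ 0 := fun h => by rw [h] at hlt; exact not_lt_zero hlt
  have h1 : P.eval x = x ^ P.natDegree + ∑ i ∈ Finset.range P.natDegree, P.coeff i * x ^ i := by
    conv_lhs => rw [Polynomial.eval_eq_sum_range, Finset.sum_range_succ, hP.coeff_natDegree,
      one_mul, add_comm]
  have h2 : v (∑ i ∈ Finset.range P.natDegree, P.coeff i * x ^ i) < v x ^ P.natDegree := by
    refine v.map_sum_lt (pow_ne_zero _ hx0) fun i hi => ?_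
    rw [map_mul, map_pow]
    calc v (P.coeff i) * v x ^ i ≤ 1 * v x ^ i := by
          gcongr
          exact hc i
      _ = v x ^ i := one_mul _
      _ < v x ^ P.natDegree := pow_lt_pow_right₀ hlt (Finset.mem_range.1 hi)
  have h3 : x ^ P.natDegree = -∑ i ∈ Finset.range P.natDegree, P.coeff i * x ^ i := by
    rw [hx] at h1
    exact eq_neg_of_add_eq_zero_left h1.symm
  have h4 : v x ^ P.natDegree = v (∑ i ∈ Finset.range P.natDegree, P.coeff i * x ^ i) := by
    rw [← map_pow, h3, Valuation.map_neg]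
  rw [← h4] at h2
  exact lt_irrefl _ h2

variable (hq : ∀ x : ℚ_[p], v (algebraMap ℚ_[p] C x) ≤ 1 ↔ ‖x‖ ≤ 1)

include hq

theorem v_le_of (c : C) (h : spectralNorm ℚ_[p] C c ≤ 1) : v c ≤ 1 := by
  have hint : IsIntegral ℚ_[p] c := (Algebra.IsAlgebraic.isAlgebraic c).isIntegral
  have hm := minpoly.monic hint
  have h1 := (spectralValue_le_one_iff hm).1 h
  refine v_root v ((minpoly ℚ_[p] c).map (algebraMap ℚ_[p] C)) (hm.map _) (fun n => ?_) c ?_
  · rw [Polynomial.coeff_map]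
    exact (hq _).2 (h1 n)
  · rw [Polynomial.eval_map_algebraMap]
    exact minpoly.aeval _ _

omit [Algebra.IsAlgebraic ℚ_[p] C] in
theorem v_p : v (p : C) < 1 := by
  have hp1 : (1 : ℝ) < p := by exact_mod_cast (Fact.out : p.Prime).one_lt
  have hp0 : (p : C) ≠ 0 := by
    have : CharZero C := charZero_of_injective_algebraMap (algebraMap ℚ_[p] C).injective
    exact_mod_cast (Fact.out : p.Prime).ne_zero
  by_contra hlt
  rw [not_lt] at hlt
  have h1 : v (algebraMap ℚ_[p] C ((p : ℚ_[p])⁻¹)) ≤ 1 := by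
    rw [map_inv₀, map_natCast, map_inv₀]
    exact inv_le_one_of_one_le₀ hlt
  rw [hq, norm_inv, Padic.norm_p, inv_inv] at h1
  linarith

theorem v_le_one_iff (c : C) : v c ≤ 1 ↔ spectralNorm ℚ_[p] C c ≤ 1 := by
  refine ⟨fun h => ?_, v_le_of p v hq c⟩
  by_contra hlt
  rw [not_le] at hlt
  set N := spectralMulAlgNorm ℚ_[p] C with hN
  have hNc : 1 < N c := hlt
  have hc0 : c ≠ 0 := by
    rintro rfl
    rw [map_zero] at hNc
    linarith
  have hp1 : (1 : ℝ) < p := by exact_mod_cast (Fact.out : p.Prime).one_lt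
  have hp0 : (p : C) ≠ 0 := by
    have : CharZero C := charZero_of_injective_algebraMap (algebraMap ℚ_[p] C).injective
    exact_mod_cast (Fact.out : p.Prime).ne_zero
  have hNp : N (p : C) = (p : ℝ)⁻¹ := by
    have h : (p : C) = algebraMap ℚ_[p] C (p : ℚ_[p]) := by simp
    rw [h]
    exact (spectralNorm_extends _).trans (Padic.norm_p)
  obtain ⟨n, hn⟩ := pow_unbounded_of_one_lt (p : ℝ) hNc
  have h1 : N ((c ^ n * (p : C))⁻¹) ≤ 1 := by
    rw [map_inv₀, map_mul, map_pow, hNp]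
    refine inv_le_one_of_one_le₀ ?_
    rw [← div_eq_mul_inv, le_div_iff₀ (by linarith), one_mul]
    exact hn.le
  have h2 := v_le_of p v hq _ h1
  rw [map_inv₀, map_mul, map_pow] at h2
  have h3 : 1 ≤ v c ^ n * v (p : C) := by
    have h4 : v c ^ n * v (p : C) ≠ 0 := mul_ne_zero (pow_ne_zero _ ((Valuation.ne_zero_iff v).2 hc0))
      ((Valuation.ne_zero_iff v).2 hp0)
    exact (inv_le_one₀ (zero_lt_iff.2 h4)).1 h2
  have h5 : v c ^ n * v (p : C) ≤ 1 * v (p : C) := by
    gcongr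
    exact pow_le_one₀ zero_le h
  rw [one_mul] at h5
  exact absurd (h3.trans h5) (not_le.2 (v_p p v hq))

theorem v_le_iff (c d : C) : v c ≤ v d ↔ spectralNorm ℚ_[p] C c ≤ spectralNorm ℚ_[p] C d := by
  set N := spectralMulAlgNorm ℚ_[p] C with hN
  change v c ≤ v d ↔ N c ≤ N d
  by_cases hd : d = 0
  · subst hd
    rw [map_zero, map_zero, le_zero_iff, map_eq_zero]
    constructor
    · rintro rfl
      rw [map_zero]
    · intro h
      have h1 : N c = 0 := le_antisymm h (apply_nonneg _ _)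
      exact (map_eq_zero_iff_eq_zero N).1 h1
  · have h1 : 0 < v d := zero_lt_iff.2 ((Valuation.ne_zero_iff v).2 hd)
    have h2 : 0 < N d := by
      refine lt_of_le_of_ne (apply_nonneg _ _) fun h => hd ?_
      exact (map_eq_zero_iff_eq_zero N).1 h.symm
    have h3 := v_le_one_iff p v hq (c / d)
    rw [map_div₀, div_le_one₀ h1] at h3
    rw [h3]
    change N (c / d) ≤ 1 ↔ _
    rw [map_div₀, div_le_one₀ h2]

theorem v_lt_iff (c d : C) : v c < v d ↔ spectralNorm ℚ_[p] C c < spectralNorm ℚ_[p] C d := by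
  rw [← not_le, ← not_le, v_le_iff p v hq]

end Cmp

end VDsc

/-- V2. Finite extensions of `k` are complete and discretely valued. -/
theorem stVDsc : StVDsc.{u, w} := by
  intro p _ k C _ _ _ _ _ _ Γ₀ _ v hv k₂ hk₂
  let _ : Algebra ℚ_[p] C := ((algebraMap k C).comp (algebraMap ℚ_[p] k)).toAlgebra
  have : IsScalarTower ℚ_[p] k C := IsScalarTower.of_algebraMap_eq fun _ => rfl
  have : Algebra.IsAlgebraic ℚ_[p] k := Algebra.IsAlgebraic.of_finite _ _
  have : Algebra.IsAlgebraic ℚ_[p] C := Algebra.IsAlgebraic.trans ℚ_[p] k C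
  have : FiniteDimensional ℚ_[p] k₂ := FiniteDimensional.trans ℚ_[p] k k₂
  have : IsScalarTower ℚ_[p] k₂ C := IsScalarTower.of_algebraMap_eq fun _ => rfl
  have hq : ∀ x : ℚ_[p], v (algebraMap ℚ_[p] C x) ≤ 1 ↔ ‖x‖ ≤ 1 := by
    intro x
    rw [IsScalarTower.algebraMap_apply ℚ_[p] k C, hv, spectralNorm_extends]
  have htow : ∀ x : k₂, spectralNorm ℚ_[p] k₂ x = spectralNorm ℚ_[p] C (x : C) := fun x =>
    spectralNorm.eq_of_tower x
  let i1 : NormedField k₂ := spectralNorm.normedField ℚ_[p] k₂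
  let i2 : NormedAlgebra ℚ_[p] k₂ := spectralNorm.normedAlgebra ℚ_[p] k₂
  have i3 : IsUltrametricDist k₂ :=
    IsUltrametricDist.isUltrametricDist_of_isNonarchimedean_norm
      (isNonarchimedean_spectralNorm (K := ℚ_[p]) (L := k₂))
  have hnorm : ∀ x : k₂, ‖x‖ = spectralNorm ℚ_[p] C (x : C) := htow
  have hle : ∀ x y : k₂, v (x : C) ≤ v (y : C) ↔ ‖x‖ ≤ ‖y‖ := fun x y => by
    rw [hnorm, hnorm]; exact VDsc.v_le_iff p v hq _ _
  have hlt : ∀ x y : k₂, v (x : C) < v (y : C) ↔ ‖x‖ < ‖y‖ := fun x y => by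
    rw [hnorm, hnorm]; exact VDsc.v_lt_iff p v hq _ _
  have hlt1 : ∀ x : k₂, v (x : C) < 1 ↔ ‖x‖ < 1 := fun x => by
    have h := hlt x 1
    rwa [norm_one, IntermediateField.coe_one, map_one] at h
  obtain ⟨π, hπ0, hπ1, hπ⟩ := VDsc.exists_pi p k₂
  have hπpos : 0 < ‖π‖ := norm_pos_iff.2 hπ0
  refine ⟨(π : C), π.2, fun h => hπ0 (by exact_mod_cast h), (hlt1 π).2 hπ1, ?_, ?_, ?_⟩
  · intro c hc hc1
    exact (hle ⟨c, hc⟩ π).2 (hπ _ ((hlt1 ⟨c, hc⟩).1 hc1))
  · intro c hc
    set N := spectralMulAlgNorm ℚ_[p] C with hN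
    have hNc : 0 < N c := by
      refine lt_of_le_of_ne (apply_nonneg _ _) fun h => hc ?_
      exact (map_eq_zero_iff_eq_zero N).1 h.symm
    obtain ⟨j, hj⟩ := exists_pow_lt_of_lt_one hNc hπ1
    refine ⟨j, ?_⟩
    rw [← map_pow]
    refine (VDsc.v_lt_iff p v hq _ _).2 ?_
    change N _ < N c
    rw [map_pow]
    have h1 : N (π : C) = ‖π‖ := (hnorm π).symm
    rw [h1]
    exact hj
  · intro s hs hs1
    have h1 : ∀ j, ‖(⟨s (j + 1), hs (j + 1)⟩ : k₂) - ⟨s j, hs j⟩‖ ≤ ‖π‖ ^ j := by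
      intro j
      rw [← norm_pow]
      refine (hle _ _).1 ?_
      have := hs1 j
      rw [← map_pow] at this
      exact this
    obtain ⟨c, hc⟩ := VDsc.exists_lim p k₂ ‖π‖ hπpos hπ1 (fun j => ⟨s j, hs j⟩) h1
    refine ⟨(c : C), c.2, fun j => ?_⟩
    have h2 := hc j
    rw [← norm_pow] at h2
    have h3 := (hle _ _).2 h2
    rw [← map_pow]
    exact h3

end Pool.Agent.Lib.MP_c385f6_ag.TPG
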